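import Pool.Agent.MP_bc14e1_gt.IfL

open Set Metric
open scoped Classical

namespace Pool.Agent.MP_bc14e1_gt

theorem A3_det {a₁ a₂ b₁ b₂ p₁ p₂ : ℂ} (ha : a₁ * p₁ + a₂ * p₂ = 0) (hb : b₁ * p₁ + b₂ * p₂ = 0)
    (hp : ¬ (p₁ = 0 ∧ p₂ = 0)) (hne : ¬ (a₁ = 0 ∧ a₂ = 0)) :
    ∃ μ : ℂ, b₁ = μ * a₁ ∧ b₂ = μ * a₂ := by
  have hdet : a₁ * b₂ - a₂ * b₁ = 0 := by
    by_contra h
    apply hp
    constructor
    · apply mul_left_cancel₀ h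
      linear_combination b₂ * ha - a₂ * hb
    · apply mul_left_cancel₀ h
      linear_combination a₁ * hb - b₁ * ha
  by_cases h1 : a₁ = 0
  · have h2 : a₂ ≠ 0 := fun h => hne ⟨h1, h⟩
    refine ⟨b₂ / a₂, ?_, by field_simp⟩
    rw [h1, mul_zero]
    rw [h1, zero_mul, zero_sub, neg_eq_zero] at hdet
    exact (mul_eq_zero.1 hdet).resolve_left h2
  · refine ⟨b₁ / a₁, by field_simp, ?_⟩
    field_simp
    linear_combination hdet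

section

variable {C : Type} [AddCommGroup C] [Module (Lam ℂ) C] {d : C →ₗ[Lam ℂ] C}
  {M : ℕ → Set ℝ → Submodule (Lam ℂ) C} {l : C → C → Lam ℂ} {ζ : Circle}

theorem A3_PB_iff {z : C} :
    z ∈ PB d M ζ ↔ ∃ y' ∈ ZN d M, z - piL ζ • y' ∈ BN d M := by
  constructor
  · intro h
    obtain ⟨u, ⟨y', hy', rfl⟩, v, hv, rfl⟩ := Submodule.mem_sup.1 h
    exact ⟨y', hy', by simpa using hv⟩
  · rintro ⟨y', hy', h⟩
    exact Submodule.mem_sup.2 ⟨piL ζ • y', ⟨y', hy', rfl⟩, _, h, by abel⟩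

theorem A3_PB_le (hAS : IsAS d M l) : PB d M ζ ≤ ZN d M := by
  refine sup_le ?_ ?_
  · rintro _ ⟨y, hy, rfl⟩
    exact Submodule.smul_mem _ _ hy
  · rintro _ ⟨c, hc, rfl⟩
    exact ⟨hAS.d_mem 1 _ c hc, hAS.dd c⟩

theorem A3_neg_Ioo : (fun r : ℝ => -r) ⁻¹' Ioo (-1) 1 = Ioo (-1) 1 := by
  ext r
  simp only [mem_preimage, mem_Ioo]
  constructor <;> rintro ⟨h1, h2⟩ <;> constructor <;> linarith

theorem A3_neg_Ioi : (fun r : ℝ => -r) ⁻¹' Ioi (-1) = Iio 1 := by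
  ext r
  simp only [mem_preimage, mem_Ioi, mem_Iio]
  constructor <;> intro h <;> linarith

theorem A3_J_ZN {J : C →+ C} (hJ : JInv d M l J) {y : C} (hy : y ∈ ZN d M) : J y ∈ ZN d M := by
  refine ⟨?_, ?_⟩
  · have := hJ.mem 1 _ y hy.1
    rwa [A3_neg_Ioo] at this
  · have h0 : d y = 0 := hy.2
    change d (J y) = 0
    rw [← hJ.Jd, h0, map_zero]

theorem A3_J_PB (hLaur : LaurStmt) {J : C →+ C} (hJ : JInv d M l J) {y : C}
    (hy : y ∈ PB d M ζ) : J y ∈ PB d M ζ := by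
  obtain ⟨y', hy', c, hc, h⟩ := A3_PB_iff.1 hy
  obtain ⟨-, -, -, -, -, -, -, -, -, -, hcj, -⟩ := hLaur
  refine A3_PB_iff.2 ⟨_, Submodule.smul_mem _
    (-(LaurentPolynomial.T (-1) * LaurentPolynomial.C ((ζ⁻¹ : Circle) : ℂ)))
    (A3_J_ZN hJ hy'), J c, ?_, ?_⟩
  · have := hJ.mem 2 _ c hc
    rwa [A3_neg_Ioo] at this
  · rw [← hJ.Jd, h, map_sub, hJ.smul, hcj, smul_smul, mul_comm]

theorem A3_ev_PB (hLaur : LaurStmt) (D : Lam ℂ) {y : C} (hy : y ∈ ZN d M) :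
    D • y - (LaurentPolynomial.C (evL ζ D) : Lam ℂ) • y ∈ PB d M ζ := by
  obtain ⟨-, -, -, -, -, -, hC, -, hdv, -⟩ := hLaur
  have : piL ζ ∣ D - LaurentPolynomial.C (evL ζ D) := by
    rw [← hdv, map_sub, hC, sub_self]
  obtain ⟨q, hq⟩ := this
  refine A3_PB_iff.2 ⟨q • y, Submodule.smul_mem _ _ hy, ?_⟩
  rw [← sub_smul, hq, smul_smul, sub_self]
  exact zero_mem _

end

theorem a3_stmt (hLaur : LaurStmt) (hPk : PkStmt)
    (hNS : NSStmt) (hIso : IsoStmt) (hSkew : SkewStmt) : A3Stmt := by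
  intro C _ _ d M l J ζ hAS hH0 hJ hζ hL
  obtain ⟨P, hP⟩ := hPk C d M l ζ hAS
  have hC : ∀ a : ℂ, evL ζ (LaurentPolynomial.C a) = a := hLaur.2.2.2.2.2.2.1 ζ
  -- the splitting of a bounding cycle
  have split : ∀ y ∈ ZN d M, (∃ b ∈ M 2 univ, y = d b) → ∃ y₁ ∈ ZN d M, ∃ y₂ ∈ ZN d M,
      y = y₁ + y₂ ∧ y₁ ∈ (M 2 (Iio 1)).map d ∧ J y₂ ∈ (M 2 (Iio 1)).map d := by
    rintro y hy ⟨b, hb, hyb⟩
    obtain ⟨c₁, hc₁, c₂, hc₂, he, hm⟩ := hAS.mv y hy.1 b hb hyb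
    have h1 : d c₁ ∈ ZN d M := ⟨hm, hAS.dd c₁⟩
    have h2 : d c₂ ∈ ZN d M := by
      have : d c₂ = y - d c₁ := by rw [he]; abel
      rw [this]
      exact sub_mem hy h1
    refine ⟨_, h1, _, h2, he, ⟨c₁, hc₁, rfl⟩, J c₂, ?_, (hJ.Jd c₂).symm⟩
    have := hJ.mem 2 _ c₂ hc₂
    rwa [A3_neg_Ioi] at this
  by_cases hall : ∀ y ∈ ZN d M, y ∈ (M 2 (Iio 1)).map d → y ∈ PB d M ζ
  · refine ⟨0, zero_mem _, fun y hy hb => ⟨0, ?_⟩⟩
    obtain ⟨y₁, h1, y₂, h2, he, m1, m2⟩ := split y hy hb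
    have p2 : y₂ ∈ PB d M ζ := by
      have := A3_J_PB hLaur hJ (hall _ (A3_J_ZN hJ h2) m2)
      rwa [hJ.JJ] at this
    apply A3_PB_iff.1
    rw [smul_zero, sub_zero, he]
    exact add_mem (hall _ h1 m1) p2
  push Not at hall
  obtain ⟨x₀, hx₀, mx₀, nx₀⟩ := hall
  obtain ⟨D, hD, hann⟩ := hL.ann
  obtain ⟨x₁, hx₁, x₂, hx₂, htop⟩ := hL.top
  have hTN : ∀ y ∈ ZN d M, D • y ∈ TN d M ζ := fun y hy =>
    ⟨Submodule.smul_mem _ _ hy, by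
      change piL ζ • D • y ∈ BN d M
      rw [smul_smul]
      exact hann y hy⟩
  set x := D • x₀ with hxdef
  have hx : x ∈ ZN d M := Submodule.smul_mem _ _ hx₀
  have mx : x ∈ (M 2 (Iio 1)).map d := Submodule.smul_mem _ _ mx₀
  have nx : x ∉ PB d M ζ := by
    intro h
    apply nx₀
    have h1 : (LaurentPolynomial.C (evL ζ D) : Lam ℂ) • x₀ ∈ PB d M ζ := by
      have := sub_mem h (A3_ev_PB (ζ := ζ) hLaur D hx₀)
      rwa [hxdef, sub_sub_cancel] at this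
    have h2 := Submodule.smul_mem _ (LaurentPolynomial.C (evL ζ D)⁻¹ : Lam ℂ) h1
    rwa [smul_smul, ← map_mul, inv_mul_cancel₀ hD, map_one, one_smul] at h2
  obtain ⟨c, hc, hdc⟩ : piL ζ • x ∈ BN d M := (hTN x₀ hx₀).2
  have hcQ : c ∈ QN d M ζ := ⟨hc, x, hdc.symm⟩
  obtain ⟨y₀, hy₀, hne⟩ := hNS C d M l ζ P hAS hH0 hζ hP x hx
    (fun h => nx (Submodule.mem_sup_right h)) c hc hdc
  -- coordinates
  have coord : ∀ y ∈ ZN d M, ∃ μ₁ μ₂ : ℂ, y - (LaurentPolynomial.C μ₁ : Lam ℂ) • x₁ -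
      (LaurentPolynomial.C μ₂ : Lam ℂ) • x₂ ∈ PB d M ζ ∧ P y c = μ₁ * P x₁ c + μ₂ * P x₂ c := by
    intro y hy
    obtain ⟨μ₁, μ₂, h⟩ := htop y hy
    have hq := A3_PB_iff.2 h
    refine ⟨μ₁, μ₂, hq, ?_⟩
    have s1 := Submodule.smul_mem _ (LaurentPolynomial.C μ₁ : Lam ℂ) hx₁
    have s2 := Submodule.smul_mem _ (LaurentPolynomial.C μ₂ : Lam ℂ) hx₂
    have e : y = (y - (LaurentPolynomial.C μ₁ : Lam ℂ) • x₁ -
      (LaurentPolynomial.C μ₂ : Lam ℂ) • x₂) + ((LaurentPolynomial.C μ₁ : Lam ℂ) • x₁ +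
      (LaurentPolynomial.C μ₂ : Lam ℂ) • x₂) := by abel
    conv_lhs => rw [e]
    rw [hP.add_left _ (A3_PB_le hAS hq) _ (add_mem s1 s2) c hcQ, hP.zero_left _ hq c hcQ,
      hP.add_left _ s1 _ s2 c hcQ, hP.smul_left _ _ hx₁ c hcQ, hP.smul_left _ _ hx₂ c hcQ, hC, hC,
      zero_add]
  have hxx : P x c = 0 := hIso C d M l ζ P hAS hP x hx mx x (hTN x₀ hx₀) mx c hc hdc
  have ker : ∀ y ∈ ZN d M, P y c = 0 →
      ∃ μ : ℂ, y - (LaurentPolynomial.C μ : Lam ℂ) • x ∈ PB d M ζ := by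
    intro y hy h0
    obtain ⟨a₁, a₂, ha, ea⟩ := coord x hx
    obtain ⟨b₁, b₂, hb, eb⟩ := coord y hy
    obtain ⟨c₁, c₂, -, ec⟩ := coord y₀ hy₀
    obtain ⟨μ, e1, e2⟩ := A3_det (ea.symm.trans hxx) (eb.symm.trans h0)
      (fun h => hne (by rw [ec, h.1, h.2]; ring))
      (fun h => nx (by simpa [h.1, h.2] using ha))
    refine ⟨μ, ?_⟩
    have := sub_mem hb (Submodule.smul_mem _ (LaurentPolynomial.C μ : Lam ℂ) ha)
    rw [e1, e2, map_mul, map_mul, mul_smul, mul_smul, smul_sub, smul_sub] at this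
    convert this using 1
    abel
  have half : ∀ y ∈ ZN d M, y ∈ (M 2 (Iio 1)).map d → P y c = 0 := by
    intro y hy my
    have := hIso C d M l ζ P hAS hP x hx mx (D • y) (hTN y hy) (Submodule.smul_mem _ _ my) c hc hdc
    rw [hP.smul_left _ _ hy c hcQ] at this
    exact (mul_eq_zero.1 this).resolve_left hD
  refine ⟨x, hx, fun y hy hb => ?_⟩
  obtain ⟨y₁, h1, y₂, h2, he, m1, m2⟩ := split y hy hb
  have p2 : P y₂ c = 0 := by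
    obtain ⟨μ, hμ⟩ := ker _ (A3_J_ZN hJ h2) (half _ (A3_J_ZN hJ h2) m2)
    have hq := A3_J_PB hLaur hJ hμ
    rw [map_sub, hJ.JJ, hJ.smul] at hq
    have s1 := Submodule.smul_mem _ (cj (LaurentPolynomial.C μ)) (A3_J_ZN hJ hx)
    have e : y₂ = (y₂ - cj (LaurentPolynomial.C μ) • J x) + cj (LaurentPolynomial.C μ) • J x := by
      abel
    rw [e, hP.add_left _ (A3_PB_le hAS hq) _ s1 c hcQ, hP.zero_left _ hq c hcQ,
      hP.smul_left _ _ (A3_J_ZN hJ hx) c hcQ, hSkew C d M l ζ P J hAS hP hJ x hx c hc hdc]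
    ring
  obtain ⟨μ, hμ⟩ := ker y hy (by
    rw [he, hP.add_left _ h1 _ h2 c hcQ, half _ h1 m1, p2, add_zero])
  exact ⟨μ, A3_PB_iff.1 hμ⟩

end Pool.Agent.MP_bc14e1_gt
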