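import Pool.Agent.MP_bc14e1_gt.If

/-! Excision for the equivariant form. -/

open Set Metric
open scoped Classical

namespace Pool.Agent.MP_bc14e1_gt

variable {G Y : Type} [Group G] [TopologicalSpace Y] [MulAction G Y] [ContinuousConstSMul G Y]
  {s : G}

theorem AS_deg_act (k : ℕ) (a : Lam ℂ) (c : Tot ℂ Y) :
    deg ℂ Y k (act ℂ Y s a c) = act ℂ Y s a (deg ℂ Y k c) :=
  map_act _ (fun c => deg_psh _ k c) a c

theorem AS_prj_act {A : Set Y} (hA : Inv s A) (a : Lam ℂ) (c : Tot ℂ Y) :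
    prj ℂ A (act ℂ Y s a c) = act ℂ Y s a (prj ℂ A c) := map_act _ (prj_gs s hA) a c

theorem AS_sd_gs (m : ℕ) (c : Tot ℂ Y) :
    (sdT ℂ Y ^ m) (gs ℂ Y s c) = gs ℂ Y s ((sdT ℂ Y ^ m) c) := by
  induction m with
  | zero => rfl
  | succ m ih =>
    rw [pow_succ', Module.End.mul_apply, Module.End.mul_apply, ih]
    exact sdT_psh (continuous_const_smul s).continuousOn (mem_CH_univ _)

theorem AS_sd_act (m : ℕ) (a : Lam ℂ) (c : Tot ℂ Y) :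
    (sdT ℂ Y ^ m) (act ℂ Y s a c) = act ℂ Y s a ((sdT ℂ Y ^ m) c) := map_act _ (AS_sd_gs m) a c

theorem AS_sdHP_act (m : ℕ) (a : Lam ℂ) (c : Tot ℂ Y) :
    sdHP ℂ Y m (act ℂ Y s a c) = act ℂ Y s a (sdHP ℂ Y m c) := by
  refine map_act _ (fun c => ?_) a c
  rw [sdHP, LinearMap.sum_apply, LinearMap.sum_apply, map_sum]
  refine Finset.sum_congr rfl fun j _ => ?_
  rw [Module.End.mul_apply, Module.End.mul_apply, AS_sd_gs]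
  exact sdH_psh (continuous_const_smul s).continuousOn (mem_CH_univ _)

theorem AS_sub_prj {U V : Set Y} {c : Tot ℂ Y} (h : c ∈ CH ℂ U ⊔ CH ℂ V) :
    c - prj ℂ U c ∈ CH ℂ V := by
  obtain ⟨x, hx, y, hy, rfl⟩ := Submodule.mem_sup.1 h
  rw [map_add, prj_of_mem hx, add_sub_add_left_eq_sub]
  exact sub_mem hy (prj_mem_CH U hy)

theorem AS_split {U V : Set Y} (hU : IsOpen U) (hV : IsOpen V) (hUV : ∀ y, y ∈ U ∪ V)
    (c : Tot ℂ Y) : ∃ m : ℕ, (sdT ℂ Y ^ m) c - prj ℂ U ((sdT ℂ Y ^ m) c) ∈ CH ℂ V := by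
  obtain ⟨m, hm⟩ := sdT_small_two (c := c) hU hV (mem_CH.2 fun _ _ _ => hUV _)
  exact ⟨m, AS_sub_prj (hm m le_rfl)⟩

/-- homogeneous solutions -/
theorem AS_hom {O : Set Y} {g : Lam ℂ} (htf : ∀ c, act ℂ Y s g c ∈ CH ℂ O → c ∈ CH ℂ O) {k : ℕ}
    {x : Tot ℂ Y} (hx : x ∈ CC ℂ O k) (h : ∃ w ∈ CH ℂ O, x - dT ℂ Y w ∈ Mul0 s g) :
    ∃ w ∈ CC ℂ O (k + 1), ∃ y ∈ CC ℂ O k, x = dT ℂ Y w + act ℂ Y s g y := by
  obtain ⟨w, hw, y, e⟩ := h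
  have e1 := congrArg (deg ℂ Y k) e
  rw [AS_deg_act, map_sub, deg_of_mem hx.2, deg_dT] at e1
  refine ⟨_, ⟨deg_mem_CH (k + 1) hw, deg_mem _ _⟩, deg ℂ Y k y, ⟨htf _ ?_, deg_mem _ _⟩, ?_⟩
  · rw [e1]
    exact sub_mem hx.1 (dT_mem_CH (deg_mem_CH _ hw))
  · rw [e1, add_sub_cancel]

/-- excision -/
theorem AS_exc (L : Tot ℂ Y →+ Lam ℂ) (g : Lam ℂ) {U V : Set Y} (hU : IsOpen U) (hV : IsOpen V)
    (hUV : ∀ y, y ∈ U ∪ V) (hs : Inv s U) (k : ℕ) (h1 : ∀ c ∈ CH ℂ V, L c = 0)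
    (h2 : ∀ j, j ≠ k + 1 → ∀ c ∈ DG ℂ Y j, L c = 0) (h3 : ∀ c, g ∣ L (dT ℂ Y c))
    (h4 : ∀ c, g ∣ L (act ℂ Y s g c)) {b : Tot ℂ Y} (hb : dT ℂ Y b ∈ CH ℂ V ⊔ Mul0 s g)
    (hn : ¬ g ∣ L b) : ∃ b' ∈ CC ℂ U (k + 1), ∃ a ∈ CC ℂ U k, ∃ r ∈ CC ℂ (U ∩ V) k,
      dT ℂ Y b' = act ℂ Y s g a + r ∧ ¬ g ∣ L b' := by
  have hL : ∀ c, L (deg ℂ Y (k + 1) c) = L c := by
    intro c
    induction c using Tot.ind with
    | h0 => simp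
    | hadd a b ha hb => simp only [map_add, ha, hb]
    | h1 j σ a =>
      rw [deg_inc]
      split_ifs with h
      · rfl
      · rw [map_zero, h2 j h _ (inc_mem_DG _ _)]
  obtain ⟨r₀, hr₀, _, ⟨a₀, rfl⟩, e⟩ := Submodule.mem_sup.1 hb
  have e1 := congrArg (deg ℂ Y k) e
  rw [map_add, AS_deg_act, deg_dT] at e1
  rw [← hL] at hn
  have hr₁ := deg_mem_CH k hr₀
  have hr₂ := deg_mem k r₀
  have ha₁ := deg_mem k a₀
  have hb₁ := deg_mem (k + 1) b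
  generalize deg ℂ Y k r₀ = r₁ at *
  generalize deg ℂ Y k a₀ = a₁ at *
  generalize deg ℂ Y (k + 1) b = b₃ at *
  obtain ⟨m, hm⟩ := AS_split hU hV hUV b₃
  have hd := prj_mem_DG U (sdT_pow_mem_DG m hb₁)
  have hd₂ := sub_mem (sdT_pow_mem_DG m hb₁) hd
  obtain ⟨b₂, hb₂⟩ : ∃ b₂, b₂ = (sdT ℂ Y ^ m) b₃ - prj ℂ U ((sdT ℂ Y ^ m) b₃) := ⟨_, rfl⟩
  rw [← hb₂] at hm hd₂
  have hV' : (sdT ℂ Y ^ m) r₁ - dT ℂ Y b₂ ∈ CH ℂ V :=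
    sub_mem (sdT_pow_mem_CH m hr₁) (dT_mem_CH hm)
  refine ⟨prj ℂ U ((sdT ℂ Y ^ m) b₃), ⟨prj_mem _ _, hd⟩, prj ℂ U ((sdT ℂ Y ^ m) a₁),
    ⟨prj_mem _ _, prj_mem_DG U (sdT_pow_mem_DG m ha₁)⟩,
    prj ℂ U ((sdT ℂ Y ^ m) r₁ - dT ℂ Y b₂), ⟨?_, prj_mem_DG U
      (sub_mem (sdT_pow_mem_DG m hr₂) (dT_mem_DG hd₂))⟩, ?_, fun h => hn ?_⟩
  · rw [CH_inter]
    exact ⟨prj_mem _ _, prj_mem_CH U hV'⟩
  · rw [← prj_of_mem (dT_mem_CH (prj_mem U ((sdT ℂ Y ^ m) b₃))), ← AS_prj_act hs, ← map_add,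
      ← AS_sd_act, hb₂, map_sub, dT_sdT_pow, ← e1, map_add (sdT ℂ Y ^ m)]
    congr 1
    abel
  · have e2 : b₃ = prj ℂ U ((sdT ℂ Y ^ m) b₃) + b₂ + dT ℂ Y (sdHP ℂ Y m b₃) + sdHP ℂ Y m r₁ +
        act ℂ Y s g (sdHP ℂ Y m a₁) := by
      have := dT_sdHP m b₃
      rw [← e1, map_add, AS_sdHP_act] at this
      rw [hb₂, add_sub_cancel, add_assoc, add_assoc, this, add_sub_cancel]
    rw [e2, map_add, map_add, map_add, map_add, h1 _ hm, h1 _ (sdHP_mem_CH m hr₁), add_zero,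
      add_zero]
    exact dvd_add (dvd_add h (h3 _)) (h4 _)

omit [ContinuousConstSMul G Y] in
theorem AS_inv {S : Type} {f : Y → S} (hf : ∀ y, f (s • y) = f y) (J : Set S) :
    Inv s (f ⁻¹' J) := fun y => by simp only [mem_preimage, hf]

theorem AS_stokes {β : Form Y} (h : ∀ u v, β (dT ℂ Y u) v = β u (dT ℂ Y v)) (u v : Tot ℂ Y) :
    lamF s β (dT ℂ Y u) v = lamF s β u (dT ℂ Y v) :=
  finsum_congr fun n => by rw [h, dT_gs]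

omit [ContinuousConstSMul G Y] in
theorem AS_dg {β : Form Y} {k l : ℕ} (h : ∀ u ∈ DG ℂ Y k, ∀ v ∈ DG ℂ Y l, β u v = 0)
    {u v : Tot ℂ Y} (hu : u ∈ DG ℂ Y k) (hv : v ∈ DG ℂ Y l) : lamF s β u v = 0 := by
  rw [lamF, finsum_congr (g := fun _ => 0) fun n => by
    rw [h u hu _ (gs_mem_DG _ hv), map_zero, mul_zero], finsum_zero]

theorem AS_zpow {β : Form Y} (h : LK s β) (n : ℤ) (u v : Tot ℂ Y) :
    β (gs ℂ Y (s ^ n) u) (gs ℂ Y (s ^ n) v) = β u v := by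
  induction n using Int.induction_on generalizing u v with
  | zero => rw [zpow_zero, gs_one, gs_one]
  | succ n ih => rw [zpow_add_one, gs_mul, gs_mul, ih, h.inv]
  | pred n ih =>
    rw [zpow_sub_one, gs_mul, gs_mul, ih, ← h.inv, ← gs_mul, ← gs_mul, mul_inv_cancel, gs_one,
      gs_one]

theorem AS_cj (a : Lam ℂ) (n : ℤ) : (cj a).coeff n = starRingEnd ℂ (a.coeff (-n)) := by
  change (LaurentPolynomial.invert (AddMonoidAlgebra.mapRingHom ℤ (starRingEnd ℂ) a)).coeff n = _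
  rw [LaurentPolynomial.invert_apply, AddMonoidAlgebra.coeff_mapRingHom]

theorem AS_sym {β E₁ E₂ : Form Y} (h : LK s β)
    (h0 : ∀ u v n, (lamF s β u v).coeff n = β u (gs ℂ Y (s ^ n) v))
    (h1 : ∀ u v n, (lamF s E₁ u v).coeff n = E₁ u (gs ℂ Y (s ^ n) v))
    (h2 : ∀ u v n, (lamF s E₂ u v).coeff n = E₂ u (gs ℂ Y (s ^ n) v))
    (hs : ∀ u ∈ DG ℂ Y 2, ∀ v ∈ DG ℂ Y 2,
      β u v - starRingEnd ℂ (β v u) = E₁ (dT ℂ Y u) v + E₂ u (dT ℂ Y v))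
    {u v : Tot ℂ Y} (hu : u ∈ DG ℂ Y 2) (hv : v ∈ DG ℂ Y 2) :
    lamF s β u v - cj (lamF s β v u) = lamF s E₁ (dT ℂ Y u) v + lamF s E₂ u (dT ℂ Y v) := by
  refine AddMonoidAlgebra.coeff_injective (Finsupp.ext fun n => ?_)
  rw [AddMonoidAlgebra.coeff_sub, AddMonoidAlgebra.coeff_add, Finsupp.sub_apply,
    Finsupp.add_apply, AS_cj, h0, h0, h1, h2, ← dT_gs, ← hs u hu _ (gs_mem_DG _ hv),
    ← AS_zpow h n v, ← gs_mul, ← zpow_add, add_neg_cancel, zpow_zero, gs_one]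

end Pool.Agent.MP_bc14e1_gt
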