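import Pool.Agent.MP_bc14e1_gt.If
import Pool.Agent.MP_bc14e1_gt.P.ASA

open Set Metric
open scoped Classical

namespace Pool.Agent.MP_bc14e1_gt

section
variable {G Y : Type} [Group G] [TopologicalSpace Y] [MulAction G Y] [ContinuousConstSMul G Y]
  {s : G} {f : Y → ℝ}

/-- the form as an additive map in the first variable -/
noncomputable def AS_L {l : Tot ℂ Y → Tot ℂ Y → Lam ℂ} (h : Sesq (C := Tw ℂ Y s) l)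
    (x : Tot ℂ Y) : Tot ℂ Y →+ Lam ℂ := AddMonoidHom.mk' (fun u => l u x) fun u u' =>
  h.add_left u u' x

theorem AS_mv (hc : Continuous f) {y c : Tot ℂ Y} (hy : y ∈ CC ℂ (f ⁻¹' Ioo (-1) 1) 1)
    (hd : c ∈ DG ℂ Y 2) (e : y = dT ℂ Y c) :
    ∃ c₁ ∈ CC ℂ (f ⁻¹' Iio 1) 2, ∃ c₂ ∈ CC ℂ (f ⁻¹' Ioi (-1)) 2,
      y = dT ℂ Y c₁ + dT ℂ Y c₂ ∧ dT ℂ Y c₁ ∈ CC ℂ (f ⁻¹' Ioo (-1) 1) 1 := by
  obtain ⟨m, hm⟩ := AS_split (isOpen_Iio.preimage hc) (isOpen_Ioi.preimage hc)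
    (fun y => (lt_or_ge (f y) 1).imp id fun h => lt_of_lt_of_le (by norm_num : (-1 : ℝ) < 1) h) c
  have h1 := sdT_pow_mem_DG m hd
  have h2 := prj_mem_DG (f ⁻¹' Iio 1) h1
  have h3 : prj ℂ (f ⁻¹' Iio 1) ((sdT ℂ Y ^ m) c) + sdHP ℂ Y m y ∈ CC ℂ (f ⁻¹' Iio 1) 2 :=
    add_mem ⟨prj_mem _ _, h2⟩ ⟨CH_mono (preimage_mono Ioo_subset_Iio_self) (sdHP_mem_CH m hy.1),
      sdHP_mem_DG m hy.2⟩
  have h4 : y = dT ℂ Y (prj ℂ (f ⁻¹' Iio 1) ((sdT ℂ Y ^ m) c) + sdHP ℂ Y m y) +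
      dT ℂ Y ((sdT ℂ Y ^ m) c - prj ℂ (f ⁻¹' Iio 1) ((sdT ℂ Y ^ m) c)) := by
    have := congrArg (dT ℂ Y) (dT_sdHP m c)
    rw [map_add, dT_dT, zero_add, ← e, map_sub, ← e] at this
    rw [map_add, map_sub, this]
    abel
  refine ⟨_, h3, _, ⟨hm, sub_mem h1 h2⟩, h4, ?_, dT_mem_DG h3.2⟩
  rw [← Ioi_inter_Iio, preimage_inter, CH_inter]
  refine ⟨?_, dT_mem_CH h3.1⟩
  rw [← sub_eq_iff_eq_add.2 h4]
  exact sub_mem (CH_mono (preimage_mono Ioo_subset_Ioi_self) hy.1) (dT_mem_CH hm)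

theorem AS_two (hc : Continuous f) (hf : ∀ y, f (s • y) = f y) {a c : ℝ} (hac : a ≤ c)
    {g : Lam ℂ} {b x r : Tot ℂ Y} (hr : r ∈ CC ℂ (f ⁻¹' Ioo (-1) 1 ∩ f ⁻¹' (Icc a c)ᶜ) 1)
    (e : dT ℂ Y b = act ℂ Y s g x + r) :
    ∃ r₁ ∈ CC ℂ (f ⁻¹' Ioo (-1) a) 1, ∃ r₂ ∈ CC ℂ (f ⁻¹' Ioo c 1) 1,
      dT ℂ Y b = act ℂ Y s g x + r₁ + r₂ ∧ ∃ y, dT ℂ Y r₁ = act ℂ Y s g y := by
  have hd : Disjoint (f ⁻¹' Ioo (-1) a) (f ⁻¹' Ioo c 1) :=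
    Set.disjoint_left.2 fun y h h' => (h.2.trans_le hac).not_gt h'.1
  have h1 : r ∈ CH ℂ (f ⁻¹' Ioo (-1) a) ⊔ CH ℂ (f ⁻¹' Ioo c 1) := by
    rw [← CH_union_of_disjoint (isOpen_Ioo.preimage hc) (isOpen_Ioo.preimage hc) hd]
    refine CH_mono (fun y h => ?_) hr.1
    rcases lt_or_ge (f y) a with h' | h'
    · exact Or.inl ⟨h.1.1, h'⟩
    · exact Or.inr ⟨lt_of_not_ge fun h'' => h.2 ⟨h', h''⟩, h.1.2⟩
  have h2 := AS_sub_prj h1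
  have h3 := prj_mem_DG (f ⁻¹' Ioo (-1) a) hr.2
  refine ⟨_, ⟨prj_mem _ r, h3⟩, _, ⟨h2, sub_mem hr.2 h3⟩, by rw [e]; abel,
    -prj ℂ (f ⁻¹' Ioo (-1) a) (dT ℂ Y x), ?_⟩
  have h4 := congrArg (dT ℂ Y) e
  rw [dT_dT, map_add, dT_act, eq_comm, add_eq_zero_iff_neg_eq] at h4
  have h5 := prj_eq_zero hd (dT_mem_CH h2)
  rw [map_sub, map_sub, prj_of_mem (dT_mem_CH (prj_mem _ r)), sub_eq_zero, ← h4, map_neg,
    AS_prj_act (AS_inv hf _)] at h5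
  rw [← h5, map_neg]

end

theorem as_stmt (B : Bas2) (hRetr : RetrStmt) (hPDI : PDIStmt) : ASStmt := by
  intro κ K ι Γ G Y _ _ _ _ _ p s β tc hP hpsd hf
  have hc : Continuous (Γ.h ∘ p) := Γ.hc.comp tc.cov.cont
  have tf := B.tf ℂ G Y s fun n y h => tc.inf n (tc.cov.free _ y h)
  have lam := fun b => B.lam Γ.X G Y Γ.F p s b tc
  have loc : ∀ b, LK s b → LocS (lvTw ℂ s (Γ.h ∘ p) hf) (lamF s b) := fun b hb =>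
    ⟨(lam b hb).1, fun k k' J J' hJ u hu v hv =>
      (lam b hb).2.1 _ _ (AS_inv hf J') (hJ.preimage _) u hu.1 v hv.1⟩
  obtain ⟨hS, hloc, -, hco, -⟩ := lam β hP.lk
  obtain ⟨r1, r2⟩ := hRetr κ K ι Γ G Y p s tc.cov hf
  obtain ⟨-, -, -, -, -, -, -, -, l1, l2, l3, -⟩ := B.laur
  have pd : ∀ ζ : Circle, ζ ≠ 1 → ∀ (n k l : ℕ) (O J : Set ℝ), k + 1 + l = 4 → IsOpen O →
      IsClosed J → J ⊆ O → ∀ u ∈ CC ℂ ((Γ.h ∘ p) ⁻¹' J) l, dT ℂ Y u ∈ Mul0 s (piL ζ ^ n) →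
      (¬ ∃ w ∈ CC ℂ ((Γ.h ∘ p) ⁻¹' O) (l + 1), ∃ y ∈ CC ℂ ((Γ.h ∘ p) ⁻¹' O) l,
        u = dT ℂ Y w + act ℂ Y s (piL ζ ^ n) y) →
      ∃ b ∈ CC ℂ ((Γ.h ∘ p) ⁻¹' O) (k + 1), ∃ a ∈ CC ℂ ((Γ.h ∘ p) ⁻¹' O) k,
        ∃ r ∈ CC ℂ ((Γ.h ∘ p) ⁻¹' O ∩ (Γ.h ∘ p) ⁻¹' Jᶜ) k,
          dT ℂ Y b = act ℂ Y s (piL ζ ^ n) a + r ∧ ¬ piL ζ ^ n ∣ lamF s β b u := by
    intro ζ hζ n k l O J hkl hO hJ hJO u hu hdu hn
    obtain ⟨b, hb, hb'⟩ := hPDI Γ.X G Y Γ.o Γ.F p s β tc hP ζ hζ n (Γ.h ⁻¹' O) (Γ.h ⁻¹' J)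
      (hO.preimage Γ.hc) (hJ.preimage Γ.hc).isCompact (preimage_mono hJO) u hu.1 hdu
      fun h => hn (AS_hom (fun c => (tf _ (pow_ne_zero n (l2 ζ).ne_zero) c).2.1 _ (AS_inv hf O))
        ⟨CH_mono (preimage_mono hJO) hu.1, hu.2⟩ h)
    refine AS_exc (AS_L hS u) _ (hO.preimage hc) (hJ.isOpen_compl.preimage hc)
      (fun y => (em ((Γ.h ∘ p) y ∈ J)).imp (fun h => hJO h) id) (AS_inv hf O) k
      (fun c hc => hloc _ _ (AS_inv hf J) (disjoint_compl_left.preimage _) c hc u hu.1)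
      (fun j hj c hc => AS_dg (hP.dg j l (by omega)) hc hu.2) (fun c => ?_)
      (fun c => Dvd.intro _ (hS.smul_left _ c u).symm) hb hb'
    obtain ⟨y, hy⟩ := hdu
    change _ ∣ lamF s β (dT ℂ Y c) u
    rw [AS_stokes hP.stokes, ← hy]
    have : lamF s β c (act ℂ Y s (piL ζ ^ n) y) = cj (piL ζ ^ n) * lamF s β c y :=
      hS.smul_right _ c y
    rw [this, map_pow, l3, mul_pow]
    exact (dvd_mul_left _ _).mul_right _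
  refine
    { dd := dT_dT
      d_mem := fun k J c h => ⟨dT_mem_CH h.1, dT_mem_DG h.2⟩
      d_zero := fun J c h => dT_of_DG_zero h.2
      mono := fun k J J' h c hc => ⟨CH_mono (preimage_mono h) hc.1, hc.2⟩
      inter := fun k J J' c h => ⟨(CH_inter _ _).ge ⟨h.1.1, h.2.1⟩, h.1.2⟩
      tf0 := fun g hg c => (tf g hg c).1
      tf := fun g hg k J c h => ⟨(tf g hg c).2.1 _ (AS_inv hf J) h.1, (tf g hg c).2.2 k h.2⟩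
      cpt := fun k J c h => ?_
      retrN := r1
      retrV := r2
      loc := loc β hP.lk
      stokes := AS_stokes hP.stokes
      sym := ?_
      psd := hpsd.imp fun bad h => ⟨h.1, fun η hη z hz hd => h.2 η hη z ⟨⟨hz.1, hz.2⟩, hd⟩⟩
      pdV := fun ζ hζ n c _ h1 x hx hd hn => ?_
      pdN := fun ζ hζ a c h1 h2 u hu hd hn => ?_
      fgV := ?_
      mv := fun y hy c h e => AS_mv hc hy h.2 e }
  · obtain ⟨L, h1, h2, h3⟩ := exists_compact_CH h.1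
    exact ⟨(Γ.h ∘ p) '' L, image_subset_iff.2 h2, h1.image hc,
      CH_mono (subset_preimage_image _ _) h3, h.2⟩
  · obtain ⟨E₁, E₂, h1, h2, h3⟩ := hP.sym
    exact ⟨lamF s E₁, lamF s E₂, loc _ h1, loc _ h2, fun u hu v hv =>
      AS_sym hP.lk hco (lam _ h1).2.2.2.1 (lam _ h2).2.2.2.1 h3 hu.2 hv.2⟩
  · have hd' : dT ℂ Y x = 0 := hd
    obtain ⟨b, hb, a, ha, r, hr, e⟩ := pd ζ hζ n 2 1 (Iio 1) (Iic c) rfl isOpen_Iio isClosed_Iic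
      (Iic_subset_Iio.2 h1) x hx (by rw [hd']; exact zero_mem _) hn
    refine ⟨b, hb, a, ha, r, ⟨CH_mono (fun y h => ?_) hr.1, hr.2⟩, e⟩
    exact ⟨lt_of_not_ge h.2, h.1⟩
  · rcases lt_or_ge c a with hac | hac
    · have h0 : u = 0 := eq_zero_of_mem_CH_empty (R := ℂ) (CH_mono
        (fun y h => (h.1.trans h.2).not_gt hac) hu.1)
      exact absurd ⟨0, zero_mem _, 0, zero_mem _, by simp [h0]⟩ hn
    obtain ⟨y, hy⟩ := hd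
    obtain ⟨b, hb, a', ha, r, hr, e, h⟩ := pd ζ hζ 1 1 2 (Ioo (-1) 1) (Icc a c) rfl isOpen_Ioo
      isClosed_Icc (Icc_subset_Ioo h1 h2) u hu (by rw [pow_one]; exact ⟨y, hy.symm⟩)
      (by rw [pow_one]; exact hn)
    rw [pow_one] at e h
    obtain ⟨r₁, a1, r₂, a2, a3, a4⟩ := AS_two hc hf hac hr e
    exact ⟨b, hb, a', ha, r₁, a1, r₂, a2, a3, a4, fun h' => h ((l1 _ _).1 h')⟩
  · obtain ⟨n, z, hz, h⟩ := B.fg ℂ Γ.X G Y Γ.F p s tc (Γ.h ⁻¹' Iic 0) (Γ.h ⁻¹' Iio 1)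
      (isClosed_Iic.preimage Γ.hc).isCompact (isOpen_Iio.preimage Γ.hc)
      (preimage_mono (Iic_subset_Iio.2 one_pos)) 1
    obtain ⟨r, H, hH⟩ := r2 0 1 (by norm_num) zero_le_one le_rfl
    refine ⟨n, z, fun i => hz i, fun y hy hd => ?_⟩
    obtain ⟨a1, a2, a3⟩ := (hH 1).1 y hy
    rw [hd, map_zero, add_zero] at a3
    have a4 : dTw ℂ Y s (r y) = 0 := by
      have := congrArg (dTw ℂ Y s) a3
      rw [map_sub, hd, zero_sub, eq_comm, neg_eq_iff_eq_neg] at this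
      exact this.trans (neg_eq_zero.2 (dT_dT _))
    obtain ⟨a, b, hb, e⟩ := h (r y)
      ⟨⟨CH_mono (preimage_mono (preimage_mono Iio_subset_Iic_self)) a1.1, a1.2⟩, a4⟩
    have hb' : toTw ℂ Y s b ∈ lvTw ℂ s (Γ.h ∘ p) hf 2 (Iio 1) := hb
    have e' : dTw ℂ Y s (toTw ℂ Y s b) = r y - ∑ i, a i • toTw ℂ Y s (z i) := e
    refine ⟨a, toTw ℂ Y s b + H y, add_mem hb' a2, ?_⟩
    rw [map_add, e', a3]
    change y = ∑ i, a i • toTw ℂ Y s (z i) + _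
    abel

end Pool.Agent.MP_bc14e1_gt
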