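import Pool.Agent.MP_bc14e1_gt.If

open Set Metric
open scoped Classical

namespace Pool.Agent.MP_bc14e1_gt

noncomputable section

section Aux

variable {G Y Reg : Type} [Group G] [TopologicalSpace Y] [MulAction G Y] [ContinuousConstSMul G Y]

/-- Left translation of the second coordinate. -/
def Alpha_sh {I : Type} (g : G) : ((I × G) →₀ ℤ) →ₗ[ℤ] ((I × G) →₀ ℤ) :=
  Finsupp.lmapDomain ℤ ℤ fun x => (x.1, g * x.2)

theorem Alpha_sh_single {I : Type} (g : G) (x : I × G) (a : ℤ) :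
    Alpha_sh g (Finsupp.single x a) = Finsupp.single (x.1, g * x.2) a := by
  simp [Alpha_sh, Finsupp.mapDomain_single]

theorem Alpha_ell_sh (l : Reg → Tot ℤ Y) (g : G) (x : (Reg × G) →₀ ℤ) :
    ellC ℤ l (Alpha_sh g x) = gs ℤ Y g (ellC ℤ l x) := by
  induction x using Finsupp.induction_linear with
  | zero => simp
  | add a b ha hb => simp only [map_add, ha, hb]
  | single z a =>
    rw [Alpha_sh_single]
    simp only [ellC, Finsupp.linearCombination_single, map_smul, gs_mul]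

theorem Alpha_d1_sh (h : Reg → G) (g : G) (x : (Reg × G) →₀ ℤ) :
    d1A ℤ h (Alpha_sh g x) = Alpha_sh g (d1A ℤ h x) := by
  induction x using Finsupp.induction_linear with
  | zero => simp
  | add a b ha hb => simp only [map_add, ha, hb]
  | single z a =>
    rw [Alpha_sh_single]
    simp only [d1A, Finsupp.linearCombination_single, map_smul, map_sub, Alpha_sh_single,
      mul_assoc]

theorem Alpha_col_sh {t : G} {lg : G → ℤ} (h1 : ∀ g : G, t ^ lg g = g)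
    (h2 : ∀ n : ℤ, t ^ n = 1 → n = 0) (c : Reg → Eis ℤ) (x : (Reg × G) →₀ ℤ) :
    colE lg c (Alpha_sh t x) = (om ℤ : (Eis ℤ)ˣ) * colE lg c x := by
  have hl : ∀ g, lg (t * g) = 1 + lg g := fun g => by
    have := h2 (lg (t * g) - (1 + lg g)) (by
      rw [zpow_sub, zpow_add, zpow_one, h1, h1, mul_inv_cancel])
    omega
  induction x using Finsupp.induction_linear with
  | zero => simp
  | add a b ha hb => simp only [map_add, ha, hb, mul_add]
  | single z a =>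
    rw [Alpha_sh_single]
    simp only [colE, Finsupp.linearCombination_single, hl, zpow_add, zpow_one, Units.val_mul,
      mul_smul_comm, mul_assoc]

/-- Boundaries as a module over the Laurent polynomials. -/
def Alpha_BT (t : G) : Submodule (Lam ℤ) (Tw ℤ Y t) :=
  twSub (BC ℤ univ 1) fun n _ h => by
    obtain ⟨b, hb, rfl⟩ := h
    exact ⟨gs ℤ Y (t ^ n) b, ⟨mem_CH_univ _, gs_mem_DG _ hb.2⟩, dT_gs _ _⟩

/-- The chains of cycles of the Dehn complex. -/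
def Alpha_ET (t : G) (h : Reg → G) (l : Reg → Tot ℤ Y) : Submodule (Lam ℤ) (Tw ℤ Y t) :=
  twSub ((LinearMap.ker (d1A ℤ h)).map (ellC ℤ l)) fun n _ hc => by
    obtain ⟨x, hx, rfl⟩ := hc
    refine ⟨Alpha_sh (t ^ n) x, ?_, Alpha_ell_sh l _ x⟩
    have hx' : d1A ℤ h x = 0 := hx
    rw [SetLike.mem_coe, LinearMap.mem_ker, Alpha_d1_sh, hx', map_zero]

/-- Boundaries inside cycles. -/
def Alpha_N (Y : Type) [TopologicalSpace Y] [MulAction G Y] [ContinuousConstSMul G Y] (t : G) :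
    Submodule (Lam ℤ) (ZT ℤ Y t 1) := (Alpha_BT t).comap (ZT ℤ Y t 1).subtype

/-- A cycle as an element of `ZT`. -/
def Alpha_z (t : G) : ZC ℤ (univ : Set Y) 1 →+ ZT ℤ Y t 1 where
  toFun z := ⟨toTw ℤ Y t z.1, z.2⟩
  map_zero' := rfl
  map_add' _ _ := rfl

theorem Alpha_fin (t : G) (h : FGI ℤ t (univ : Set Y) univ 1) :
    Module.Finite (Lam ℤ) (ZT ℤ Y t 1 ⧸ Alpha_N Y t) := by
  obtain ⟨n, z, hz, hg⟩ := h
  let w : Fin n → ZT ℤ Y t 1 ⧸ Alpha_N Y t := fun i =>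
    (Alpha_N Y t).mkQ (Alpha_z t ⟨z i, hz i⟩)
  refine ⟨⟨Finset.univ.image w, ?_⟩⟩
  rw [eq_top_iff]
  intro y _
  obtain ⟨y, rfl⟩ := (Alpha_N Y t).mkQ_surjective y
  obtain ⟨a, ha⟩ := hg y.1 y.2
  have e : (Alpha_N Y t).mkQ y = ∑ i, a i • w i := by
    simp only [w, ← map_smul, ← map_sum]
    rw [← sub_eq_zero, ← map_sub, Submodule.mkQ_apply, Submodule.Quotient.mk_eq_zero]
    change ((y - ∑ i, a i • Alpha_z t ⟨z i, hz i⟩ : ZT ℤ Y t 1) : Tw ℤ Y t) ∈ Alpha_BT t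
    rw [Submodule.coe_sub, Submodule.coe_sum]
    exact ha
  rw [e]
  exact Submodule.sum_mem _ fun i _ => Submodule.smul_mem _ _
    (Submodule.subset_span (by simp))

end Aux

theorem alpha_stmt (hExt : ExtStmt) : AlphaStmt := by
  intro G Y Reg Cr _ _ _ _ O t lg reg gap l yn ys c χ D h1 h2 hfg hcol
  have := Alpha_fin t hfg
  set h : Reg → G := fun r => t ^ gap r with hh
  let M : Submodule (Lam ℤ) (ZT ℤ Y t 1 ⧸ Alpha_N Y t) :=
    ((Alpha_ET t h l).comap (ZT ℤ Y t 1).subtype).map (Alpha_N Y t).mkQ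
  let P : M → ((Reg × G) →₀ ℤ) → Prop := fun y x =>
    d1A ℤ h x = 0 ∧ ∃ z : ZT ℤ Y t 1, z.1 = toTw ℤ Y t (ellC ℤ l x) ∧ (Alpha_N Y t).mkQ z = y.1
  have hex : ∀ y : M, ∃ x, P y x := by
    rintro ⟨y, z, ⟨x, hx, hxz⟩, rfl⟩
    exact ⟨x, hx, z, hxz.symm, rfl⟩
  have huniq : ∀ y x x', P y x → P y x' → colE lg c x = colE lg c x' := by
    rintro y x x' ⟨hx, z, hz, hy⟩ ⟨hx', z', hz', hy'⟩
    rw [← sub_eq_zero, ← map_sub]
    refine hcol _ (by rw [map_sub, hx, hx', sub_zero]) ?_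
    have e : (Alpha_N Y t).mkQ (z - z') = 0 := by rw [map_sub, hy, hy', sub_self]
    rw [Submodule.mkQ_apply, Submodule.Quotient.mk_eq_zero] at e
    have e' : ((z - z' : ZT ℤ Y t 1) : Tw ℤ Y t) ∈ Alpha_BT t := e
    rw [Submodule.coe_sub, hz, hz', ← map_sub, ← map_sub] at e'
    exact e'
  choose s hs using hex
  let c' : M →+ Eis ℤ := AddMonoidHom.mk' (fun y => colE lg c (s y)) fun y y' => by
    rw [← map_add]
    refine huniq (y + y') _ _ (hs _) ?_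
    obtain ⟨hx, z, hz, hy⟩ := hs y
    obtain ⟨hx', z', hz', hy'⟩ := hs y'
    refine ⟨by rw [map_add, hx, hx', add_zero], z + z', ?_, ?_⟩
    · rw [Submodule.coe_add, hz, hz', map_add, map_add]
    · rw [map_add, hy, hy', Submodule.coe_add]
  have hc' : ∀ y x, P y x → c' y = colE lg c x := fun y x hp => huniq y _ _ (hs y) hp
  have hT : ∀ z : Tot ℤ Y, (LaurentPolynomial.T 1 : Lam ℤ) • toTw ℤ Y t z =
      toTw ℤ Y t (gs ℤ Y t z) := fun z => by
    rw [Tw.smul_def, act_T, zpow_one]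
  obtain ⟨A, iA, fA, r, e, τ, α, ψ, hcard, hτ, hfix, hα, hψ⟩ := hExt _ M c' χ fun y => by
    obtain ⟨hx, z, hz, hy⟩ := hs y
    rw [hc' y _ (hs y), ← Alpha_col_sh h1 h2]
    refine hc' _ _ ⟨by rw [Alpha_d1_sh, hx, map_zero], (LaurentPolynomial.T 1 : Lam ℤ) • z, ?_, ?_⟩
    · rw [Submodule.coe_smul, hz, hT, Alpha_ell_sh]
    · rw [map_smul, hy, Submodule.coe_smul]
  refine ⟨A, iA, fA, r, e, τ,
    α.comp (((Alpha_N Y t).mkQ.toAddMonoidHom).comp (Alpha_z t)), ψ, hcard, hτ, hfix, ?_, ?_, ?_⟩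
  · intro z hz
    have e0 : (Alpha_N Y t).mkQ (Alpha_z t z) = 0 := by
      rw [Submodule.mkQ_apply, Submodule.Quotient.mk_eq_zero]
      exact hz
    change α ((Alpha_N Y t).mkQ (Alpha_z t z)) = 0
    rw [e0, map_zero]
  · intro z z' hz
    change α ((Alpha_N Y t).mkQ (Alpha_z t z')) = τ (α ((Alpha_N Y t).mkQ (Alpha_z t z)))
    rw [← hα, ← map_smul]
    congr 2
    apply Subtype.ext
    change toTw ℤ Y t z'.1 = (LaurentPolynomial.T 1 : Lam ℤ) • toTw ℤ Y t z.1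
    rw [hT, hz]
  · intro x z hx hz
    have hm : (Alpha_N Y t).mkQ (Alpha_z t z) ∈ M :=
      ⟨Alpha_z t z, ⟨x, hx, hz.symm⟩, rfl⟩
    have e1 := hψ ⟨_, hm⟩
    rw [hc' ⟨_, hm⟩ x ⟨hx, Alpha_z t z, congrArg (toTw ℤ Y t) hz, rfl⟩] at e1
    exact e1

end

end Pool.Agent.MP_bc14e1_gt
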