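import Pool.Agent.MP_bc14e1_gt.IfP

open Set Metric
open scoped Classical

namespace Pool.Agent.MP_bc14e1_gt

section
variable {G Y : Type} [Group G] [MulAction G Y] {s : G}

theorem Base1_mem {A : Set Y} {y : Y} : y ∈ sat s A ↔ ∃ n : ℤ, ∃ a ∈ A, s ^ n • a = y := by
  simp [sat]

theorem Base1_sub (A : Set Y) : A ⊆ sat s A := fun y hy => Base1_mem.2 ⟨0, y, hy, by simp⟩

theorem Base1_mono {A B : Set Y} (h : A ⊆ B) : sat s A ⊆ sat s B := fun _ hy =>
  let ⟨n, a, ha, e⟩ := Base1_mem.1 hy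
  Base1_mem.2 ⟨n, a, h ha, e⟩

theorem Base1_le {A U : Set Y} (hU : Inv s U) (h : A ⊆ U) : sat s A ⊆ U := fun y hy => by
  obtain ⟨n, a, ha, rfl⟩ := Base1_mem.1 hy
  exact (hU.zpow n a).2 (h ha)

theorem Base1_inv (A : Set Y) : Inv s (sat s A) := fun y => by
  simp only [Base1_mem]
  constructor
  · rintro ⟨n, a, ha, e⟩
    refine ⟨-1 + n, a, ha, ?_⟩
    rw [zpow_add, mul_smul, e, zpow_neg_one, inv_smul_smul]
  · rintro ⟨n, a, ha, e⟩
    refine ⟨1 + n, a, ha, ?_⟩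
    rw [zpow_add, mul_smul, e, zpow_one]

theorem Base1_compl {A : Set Y} (h : Inv s A) : Inv s Aᶜ := fun y => not_congr (h y)

end

theorem Base1_cvx {V S : Set (E 4)} (hV : IsOpen V) (hc : Convex ℝ V) (hS : IsCompact S)
    (hSV : S ⊆ V) : ∃ L, IsCompact L ∧ Convex ℝ L ∧ L ⊆ V ∧ S ⊆ L := by
  obtain ⟨δ, hδ, hth⟩ := hS.exists_thickening_subset_open hV hSV
  obtain ⟨R, hR⟩ := hS.isBounded.subset_closedBall (0 : E 4)
  refine ⟨closedBall 0 R ∩ (thickening δ Vᶜ)ᶜ,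
    (isCompact_closedBall _ _).inter_right isOpen_thickening.isClosed_compl,
    (convex_closedBall _ _).inter ?_, ?_, fun z hz => ⟨hR hz, ?_⟩⟩
  · intro z1 h1 z2 h2 a b ha hb hab hz
    obtain ⟨w, hw, hd⟩ := mem_thickening_iff.1 hz
    apply hw
    have k : ∀ z ∈ (thickening δ Vᶜ)ᶜ, z + (w - (a • z1 + b • z2)) ∈ V := by
      intro z hz'
      by_contra hn
      refine hz' (mem_thickening_iff.2 ⟨_, hn, ?_⟩)
      rw [dist_self_add_right, ← dist_eq_norm, dist_comm]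
      exact hd
    have := hc (k z1 h1) (k z2 h2) ha hb hab
    have e : a • (z1 + (w - (a • z1 + b • z2))) + b • (z2 + (w - (a • z1 + b • z2))) = w := by
      rw [smul_add, smul_add, add_add_add_comm, ← add_smul, hab, one_smul, add_sub_cancel]
    rwa [e] at this
  · intro z hz
    by_contra hn
    exact hz.2 (self_subset_thickening hδ _ hn)
  · intro hz'
    obtain ⟨w, hw, hd⟩ := mem_thickening_iff.1 hz'
    exact hw (hth (mem_thickening_iff.2 ⟨z, hz, by rwa [dist_comm]⟩))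

theorem Base1_red {G Y : Type} [Group G] [TopologicalSpace Y] [MulAction G Y]
    [ContinuousConstSMul G Y] {s : G} (e : OpenPartialHomeomorph Y (E 4)) {V : Set (E 4)}
    (hV : IsOpen V) (hc : Convex ℝ V) (hVe : V ⊆ e.target) {x : E 4} (hx : x ∈ V) {C : Set Y}
    (hC : IsCompact C) (hCU : C ⊆ sat s (e.symm '' V)) :
    ∃ L, IsCompact L ∧ Convex ℝ L ∧ L ⊆ V ∧ x ∈ L ∧ C ⊆ sat s (e.symm '' L) := by
  have key : ∃ S, IsCompact S ∧ S ⊆ V ∧ C ⊆ sat s (e.symm '' S) := by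
    refine hC.induction_on (p := fun C => ∃ S, IsCompact S ∧ S ⊆ V ∧ C ⊆ sat s (e.symm '' S))
      ⟨∅, isCompact_empty, empty_subset _, empty_subset _⟩ ?_ ?_ ?_
    · rintro A B hAB ⟨S, h1, h2, h3⟩
      exact ⟨S, h1, h2, hAB.trans h3⟩
    · rintro A B ⟨S, h1, h2, h3⟩ ⟨S', h1', h2', h3'⟩
      exact ⟨S ∪ S', h1.union h1', union_subset h2 h2',
        union_subset (h3.trans (Base1_mono (image_mono subset_union_left)))
          (h3'.trans (Base1_mono (image_mono subset_union_right)))⟩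
    · intro y hy
      obtain ⟨n, _, ⟨v, hv, rfl⟩, rfl⟩ := Base1_mem.1 (hCU hy)
      obtain ⟨r, hr, hrV⟩ := nhds_basis_closedBall.mem_iff.1 (hV.mem_nhds hv)
      refine ⟨(fun y => s ^ n • y) '' (e.symm '' ball v r), mem_nhdsWithin_of_mem_nhds ?_,
        closedBall v r, isCompact_closedBall _ _, hrV, ?_⟩
      · refine IsOpen.mem_nhds ?_ ⟨_, ⟨v, mem_ball_self hr, rfl⟩, rfl⟩
        refine isOpenMap_smul (s ^ n) _ ?_
        exact e.symm.isOpen_image_of_subset_source isOpen_ball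
          (ball_subset_closedBall.trans (hrV.trans hVe))
      · rintro _ ⟨_, ⟨w, hw, rfl⟩, rfl⟩
        exact Base1_mem.2 ⟨n, _, ⟨w, ball_subset_closedBall hw, rfl⟩, rfl⟩
  obtain ⟨S, h1, h2, h3⟩ := key
  obtain ⟨L, g1, g2, g3, g4⟩ := Base1_cvx hV hc (h1.insert x) (insert_subset hx h2)
  exact ⟨L, g1, g2, g3, g4 (mem_insert _ _),
    h3.trans (Base1_mono (image_mono ((subset_insert _ _).trans g4)))⟩

theorem base1_stmt (B : Bas1) (hFam : FamStmt) (hBase1H : Base1HStmt) : Base1Stmt := by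
  intro X G Y _ _ _ _ _ _ _ _ o F p s β hT hP g ρ hg B' hB hPP e hinj V hV hc hVe
  obtain ⟨f1, f2, -⟩ := hFam X G Y F p s hT
  have hH := hBase1H X G Y o F p s hT g hg.ne e hinj V hV hc hVe
  obtain ⟨hS, -, -, hco, -⟩ := B.lam X G Y F p s β hT hP.lk
  have hl : ∀ a u v, lamF s β (act ℂ Y s a u) v = a * lamF s β u v := hS.smul_left
  have hr : ∀ a u v, lamF s β u (act ℂ Y s a v) = cj a * lamF s β u v := hS.smul_right
  have hsrc : e.symm '' V ⊆ e.source := by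
    rintro _ ⟨v, hv, rfl⟩
    exact e.map_target (hVe hv)
  have hfree : ∀ (n : ℤ), ∀ y ∈ e.source, s ^ n • y ∈ e.source → n = 0 := fun n y hy hn =>
    hT.inf n (hT.cov.free _ y (hinj hn hy (hT.cov.inv _ y)))
  have hone : ∀ x ∈ V, ∀ c ∈ CH ℝ (e.symm '' V), LocDeg o p (e.symm x) c 1 →
      lamF s β (cast Complex.ofRealHom Y c) (pt ℂ (e.symm x)) = -1 := by
    intro x hx c hcV hd
    refine AddMonoidAlgebra.coeff_injective (Finsupp.ext fun n => ?_)
    rw [hco, gs, psh_pt, AddMonoidAlgebra.coeff_neg, Finsupp.neg_apply, AddMonoidAlgebra.one_def,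
      AddMonoidAlgebra.coeff_single, Finsupp.single_apply]
    split_ifs with h
    · subst h
      rw [zpow_zero, one_smul, hP.one _ c 1 hd]
      simp
    · rw [neg_zero]
      refine hP.lk.loc (e.symm '' V) {s ^ n • e.symm x} ?_ _ (cast_mem_CH _ hcV) _
        (pt_mem_CH rfl)
      rw [disjoint_singleton_right]
      exact fun hn => h (hfree n _ (hsrc ⟨x, hx, rfl⟩) (hsrc hn)).symm
  have hbd : ∀ L ⊆ V, ∀ c ∈ CH ℝ (e.symm '' V), dT ℝ Y c ∈ CH ℝ (e.symm '' L)ᶜ → ∀ a,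
      dT ℂ Y (act ℂ Y s a (cast Complex.ofRealHom Y c)) ∈ CH ℂ (sat s (e.symm '' L))ᶜ := by
    intro L hL c hcV hd a
    rw [dT_act, ← cast_dT]
    refine act_mem_CH (Base1_compl (Base1_inv _)) a (cast_mem_CH _ ?_)
    have h1 : dT ℝ Y c ∈ CH ℝ (e.symm '' V ∩ (e.symm '' L)ᶜ) := by
      rw [CH_inter]
      exact ⟨dT_mem_CH hcV, hd⟩
    refine CH_mono ?_ h1
    rintro y ⟨hy, hy'⟩ hn
    obtain ⟨n, a, ha, rfl⟩ := Base1_mem.1 hn
    have := hfree n a (hsrc (image_mono hL ha)) (hsrc hy)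
    subst this
    exact hy' (by simpa using ha)
  have hK : ∀ x ∈ V, ∀ K ∈ KY s (sat s (e.symm '' V)), ∀ w ∈ CH ℂ (sat s (e.symm '' V)),
      ∃ L, IsCompact L ∧ Convex ℝ L ∧ L ⊆ V ∧ x ∈ L ∧ K ⊆ sat s (e.symm '' L) ∧
        w ∈ CH ℂ (sat s (e.symm '' L)) := by
    intro x hx K hK w hw
    obtain ⟨L', hL', rfl⟩ := f2 K hK.1
    obtain ⟨C, hC, hCU, hwC⟩ := exists_compact_CH hw
    obtain ⟨L, g1, g2, g3, g4, g5⟩ := Base1_red e hV hc hVe hx (hL'.union hC)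
      (union_subset ((Base1_sub _).trans hK.2) hCU)
    exact ⟨L, g1, g2, g3, g4, Base1_le (Base1_inv _) (subset_union_left.trans g5),
      CH_mono (subset_union_right.trans g5) hwC⟩
  rcases V.eq_empty_or_nonempty with rfl | ⟨x, hx⟩
  · have he : ∀ K ∈ KY s (sat s (e.symm '' ∅)), K = ∅ := fun K hK =>
      subset_eq_empty hK.2 (by simp [sat])
    refine ⟨fun K hK u hu _ _ => ⟨0, zero_mem _, ?_⟩,
      fun K hK f _ hf => ⟨K, hK, Subset.rfl, 0, zero_mem _, by simp, fun b _ => ?_⟩⟩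
    · rw [he K hK] at hu
      rw [eq_zero_of_mem_CH_empty hu]
      simp
    · rw [map_zero, hf b (Submodule.mem_sup_left ?_)]
      rw [he K hK, compl_empty]
      exact mem_CH_univ b
  obtain ⟨H1, H2⟩ := hH x hx
  constructor
  · intro K hKY u hu hdu h0
    obtain ⟨a, w, hw, hz⟩ := H1 u (CH_mono hKY.2 hu) hdu
    obtain ⟨L, g1, g2, g3, g4, g5, g6⟩ := hK x hx K hKY w hw
    obtain ⟨c, hcV, hd, hdc, -⟩ := H2 L g1 g2 g3 g4
    have hga : g ∣ a := by
      refine hg.inj a fun a' => ?_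
      have hb := hbd L g3 c hcV hdc a'
      have e0 := h0 _ (Submodule.mem_sup_left (CH_mono (compl_subset_compl.2 g5) hb))
      have e1 := hPP.zr (act ℂ Y s a' (cast Complex.ofRealHom Y c)) _ hz
      have e2 := hPP.loc _ _ (Base1_compl (Base1_inv _)) (Base1_inv _) disjoint_compl_left _ hb
        w g6
      rw [map_sub, map_sub, e0, ← hPP.stokes, e2, hB, hl, hr, hone x hx c hcV hd] at e1
      simpa using e1
    obtain ⟨a', rfl⟩ := hga
    refine ⟨w, hw, ?_⟩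
    have h1 : act ℂ Y s (g * a') (pt ℂ (e.symm x)) ∈ Mul0 s g :=
      ⟨act ℂ Y s a' (pt ℂ (e.symm x)), by rw [map_mul]; rfl⟩
    have := add_mem hz h1
    rwa [sub_right_comm, sub_add_cancel] at this
  · intro K hKY f hf1 hf2
    obtain ⟨L, g1, g2, g3, g4, g5, -⟩ := hK x hx K hKY 0 (zero_mem _)
    obtain ⟨c, hcV, hd, hdc, hgen⟩ := H2 L g1 g2 g3 g4
    let φ : Lam ℂ →ₗ[ℂ] ℂ := f ∘ₗ LinearMap.applyₗ (cast Complex.ofRealHom Y c) ∘ₗ
      (act ℂ Y s).toLinearMap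
    have hφ : ∀ a, φ a = f (act ℂ Y s a (cast Complex.ofRealHom Y c)) := fun _ => rfl
    obtain ⟨a', ha'⟩ := hg.surj φ fun a => by
      rw [hφ]
      exact hf2 _ (Submodule.mem_sup_right
        ⟨act ℂ Y s a (cast Complex.ofRealHom Y c), by rw [map_mul]; rfl⟩)
    have hu : -act ℂ Y s a' (pt ℂ (e.symm x)) ∈ CH ℂ (sat s (e.symm '' L)) :=
      neg_mem (act_mem_CH (Base1_inv _) a' (pt_mem_CH (Base1_sub _ ⟨x, g4, rfl⟩)))
    have hdu : dT ℂ Y (-act ℂ Y s a' (pt ℂ (e.symm x))) = 0 := by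
      rw [map_neg, dT_act, dT_pt, map_zero, neg_zero]
    refine ⟨sat s (e.symm '' L), ⟨f1 _ (g1.image_of_continuousOn
      (e.continuousOn_symm.mono (g3.trans hVe))), Base1_mono (image_mono g3)⟩, g5, _, hu,
      by rw [hdu]; exact zero_mem _, fun b hb => ?_⟩
    obtain ⟨a, w, hz⟩ := hgen b hb
    have hle : CH ℂ (sat s (e.symm '' L))ᶜ ⊔ Mul0 s g ≤ CH ℂ Kᶜ ⊔ Mul0 s g :=
      sup_le_sup_right (CH_mono (compl_subset_compl.2 g5)) _
    have e1 := hf2 _ (hle hz)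
    have e2 : B' (b - act ℂ Y s a (cast Complex.ofRealHom Y c) - dT ℂ Y w)
        (-act ℂ Y s a' (pt ℂ (e.symm x))) = 0 := by
      obtain ⟨y, hy, z, hz', ez⟩ := Submodule.mem_sup.1 hz
      rw [← ez, map_add, AddMonoidHom.add_apply, hPP.zl z hz', add_zero]
      exact hPP.loc _ _ (Base1_compl (Base1_inv _)) (Base1_inv _) disjoint_compl_left y hy _ hu
    rw [map_sub, map_sub, hf1, sub_zero, ← hφ, ha', sub_eq_zero] at e1
    rw [map_sub, map_sub, AddMonoidHom.sub_apply, AddMonoidHom.sub_apply, hPP.stokes, hdu,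
      map_zero, sub_zero, sub_eq_zero] at e2
    rw [e1, e2, map_neg, hB, hl, hr, hone x hx c hcV hd]
    simp

end Pool.Agent.MP_bc14e1_gt
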