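import Pool.Agent.MP_bc14e1_gt.P.Base1HA

/-! Local homology of Euclidean space at a compact convex set. -/

open Set Metric
open scoped Classical

namespace Pool.Agent.MP_bc14e1_gt

section Scale

variable {R : Type} [CommRing R] {P : Type} [NormedAddCommGroup P] [NormedSpace ℝ P]
  {L V : Set P} {x : P}

theorem Base1H_scale (κ : Kit) (hL : IsCompact L) {o : Tot R P} (ho : o ∈ CH R ({x}ᶜ : Set P)) :
    ∃ F h : Module.End R (Tot R P), F o ∈ CH R Lᶜ ∧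
      (∀ c, dT R P (h c) + h (dT R P c) = F c - c) ∧ (∀ c, dT R P (F c) = F (dT R P c)) ∧
      ∀ S : Set P, Convex ℝ S → x ∈ S → ∀ c ∈ CH R Sᶜ, h c ∈ CH R Sᶜ := by
  obtain ⟨K, hK, hKx, hoK⟩ := exists_compact_CH ho
  obtain ⟨δ, δ0, hδ⟩ := hK.exists_forall_le' (f := fun z => ‖z - x‖) (a := 0) (by fun_prop)
    fun z hz => norm_pos_iff.2 (sub_ne_zero.2 (hKx hz))
  obtain ⟨ρ, ρ0, hρ⟩ := hL.isBounded.subset_ball_lt 0 x
  have μ0 : 0 < ρ / δ := div_pos ρ0 δ0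
  let H : ℝ × P → P := fun q => x + (1 + q.1 * (ρ / δ)) • (q.2 - x)
  have hH : Continuous H := by fun_prop
  refine ⟨psh R fun z => H (1, z), hop κ R H, psh_mem_CH _ (fun z hz hl => ?_) hoK, fun c => ?_,
    dT_psh_cont (by fun_prop), fun S hS hx c hc =>
      hop_mem_CH κ H (A := Sᶜ) (B := Sᶜ) (fun q hq hl => ?_) hc⟩
  · have a1 := hρ hl
    rw [mem_ball, dist_eq_norm, add_sub_cancel_left, norm_smul, one_mul,
      Real.norm_of_nonneg (by linarith)] at a1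
    have a2 : ρ / δ * δ ≤ ρ / δ * ‖z - x‖ := mul_le_mul_of_nonneg_left (hδ z hz) μ0.le
    rw [div_mul_cancel₀ _ δ0.ne'] at a2
    linarith [norm_nonneg (z - x)]
  · rw [dT_hop κ (A := univ) hH.continuousOn (mem_CH_univ c)]
    congr 1
    exact psh_of_eqOn_id (A := univ) (fun z _ => by simp [H]) (mem_CH_univ c)
  · have a1 : 1 ≤ 1 + q.1 * (ρ / δ) := le_add_of_nonneg_right (mul_nonneg hq.1.1 μ0.le)
    have a2 := hS.add_smul_sub_mem hx hl (t := (1 + q.1 * (ρ / δ))⁻¹)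
      ⟨inv_nonneg.2 (by linarith), inv_le_one_of_one_le₀ a1⟩
    rw [add_sub_cancel_left, inv_smul_smul₀ (by linarith), add_sub_cancel] at a2
    exact hq.2 a2

theorem Base1H_inj (κ : Kit) (hV : IsOpen V) (hL : IsCompact L) (hcv : Convex ℝ L) (hLV : L ⊆ V)
    (hx : x ∈ L) {z b : Tot R P} (hz : z ∈ CH R V) (hd : dT R P z ∈ CH R Lᶜ)
    (h : z - dT R P b ∈ CH R ({x}ᶜ : Set P)) : ∃ b' ∈ CH R V, z - dT R P b' ∈ CH R (V \ L) := by
  obtain ⟨F, H, h1, h2, h3, h4⟩ := Base1H_scale κ hL h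
  refine Base1H_exc_inj hV hL.isClosed hLV hz (b := F b - H z) ?_
  have e : z - dT R P (F b - H z) = F (z - dT R P b) - H (dT R P z) := by
    rw [map_sub, map_sub, h3, eq_sub_of_add_eq (h2 z)]
    abel
  rw [e]
  exact sub_mem h1 (h4 L hcv hx _ hd)

theorem Base1H_surj (κ : Kit) (hV : IsOpen V) (hL : IsCompact L) (hLV : L ⊆ V)
    (hx : x ∈ L) {z : Tot R P} (hz : z ∈ CH R V) {k : ℕ} (hk : z ∈ DG R P (k + 1))
    (hd : dT R P z ∈ CH R ({x}ᶜ : Set P)) : ∃ z' ∈ CC R V (k + 1), dT R P z' ∈ CH R (V \ L) ∧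
      ∃ b ∈ CH R V, z - z' - dT R P b ∈ CH R (V \ {x}) := by
  obtain ⟨F, H, h1, h2, h3, h4⟩ := Base1H_scale κ hL hd
  rw [← h3] at h1
  obtain ⟨z', hz', b, hb⟩ := Base1H_exc_surj hV hL.isClosed hLV h1
  have a1 : dT R P z' ∈ CH R Lᶜ := by
    have := sub_mem h1 (dT_mem_CH hb)
    rwa [map_sub, dT_dT, sub_zero, map_sub, sub_sub_cancel] at this
  have a2 : z - z' - dT R P (b - H z) ∈ CH R ({x}ᶜ : Set P) := by
    have e : z - z' - dT R P (b - H z) = F z - z' - dT R P b - H (dT R P z) := by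
      rw [map_sub, eq_sub_of_add_eq (h2 z)]
      abel
    rw [e]
    exact sub_mem (CH_mono (compl_subset_compl.2 (singleton_subset_iff.2 hx)) hb)
      (h4 _ (convex_singleton x) rfl _ hd)
  obtain ⟨b', hb', a3⟩ := Base1H_exc_inj hV isClosed_singleton
    (singleton_subset_iff.2 (hLV hx)) (sub_mem hz hz') a2
  refine ⟨deg R P (k + 1) z', ⟨deg_mem_CH _ hz', deg_mem _ _⟩, ?_, deg R P (k + 2) b',
    deg_mem_CH _ hb', ?_⟩
  · rw [← deg_dT, sdiff_eq, CH_inter]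
    exact ⟨deg_mem_CH _ (dT_mem_CH hz'), deg_mem_CH _ a1⟩
  · have := deg_mem_CH (k + 1) a3
    rwa [map_sub, map_sub, deg_of_mem hk, deg_dT] at this

end Scale

theorem Base1H_lh (hl : LocHomStmt) (x : E 4) : ∃ o : Tot ℤ (E 4), ∀ (R : Type) [CommRing R],
    (∀ c, dT R _ c ∈ CH R ({x}ᶜ : Set (E 4)) →
      ∃ (r : R) (b : Tot R (E 4)), c - r • castZ R _ o - dT R _ b ∈ CH R ({x}ᶜ : Set (E 4))) ∧
    ∀ (r : R) (b : Tot R (E 4)), r • castZ R _ o - dT R _ b ∈ CH R ({x}ᶜ : Set (E 4)) → r = 0 := by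
  obtain ⟨o, -, -, h⟩ := hl 4
  have m1 : MapsTo (fun z : E 4 => z - x) {x}ᶜ {0}ᶜ := fun z hz e => hz (sub_eq_zero.1 e)
  have m2 : MapsTo (fun z : E 4 => z + x) {0}ᶜ {x}ᶜ := fun z hz e => hz (add_eq_right.1 e)
  have c1 : Continuous fun z : E 4 => z - x := by fun_prop
  have c2 : Continuous fun z : E 4 => z + x := by fun_prop
  refine ⟨psh ℤ (fun z => z + x) o, fun R _ => ⟨fun c hc => ?_, fun r b hb => ?_⟩⟩
  · have a0 : ∀ c, dT R _ c ∈ CH R ({0}ᶜ : Set (E 4)) → ∃ (r : R) (b : Tot R (E 4)),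
        c - r • castZ R _ o - dT R _ b ∈ CH R ({0}ᶜ : Set (E 4)) := by
      intro c hc
      have a1 : ∀ k, ∃ (r : R) (b : Tot R (E 4)),
          deg R _ k c - r • castZ R _ o - dT R _ b ∈ CH R ({0}ᶜ : Set (E 4)) := by
        intro k
        have a2 : dT R _ (deg R _ k c) ∈ CH R ({0}ᶜ : Set (E 4)) := by
          rcases k with _ | k
          · rw [dT_of_DG_zero (deg_mem _ _)]
            exact zero_mem _
          · rw [← deg_dT]
            exact deg_mem_CH _ hc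
        obtain ⟨a3, a4⟩ := h R k _ (deg_mem k c) a2
        by_cases hk : k = 4
        · exact (a4 hk).exists
        · obtain ⟨b, hb⟩ := a3 hk
          exact ⟨0, b, by rwa [zero_smul, sub_zero]⟩
      choose r b hb using a1
      obtain ⟨n, hn⟩ := exists_sum_deg c
      refine ⟨∑ k ∈ Finset.range n, r k, ∑ k ∈ Finset.range n, b k, ?_⟩
      have := sum_mem fun k (_ : k ∈ Finset.range n) => hb k
      rwa [Finset.sum_sub_distrib, Finset.sum_sub_distrib, hn n le_rfl, ← Finset.sum_smul,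
        ← map_sum] at this
    obtain ⟨r, b, hb⟩ := a0 (psh R (fun z => z - x) c)
      (by rw [dT_psh_cont c1]; exact psh_mem_CH _ m1 hc)
    refine ⟨r, psh R (fun z => z + x) b, ?_⟩
    have := psh_mem_CH _ m2 hb
    rwa [map_sub, map_sub, map_smul, ← dT_psh_cont c2, ← cast_psh, psh_psh' _ c1,
      psh_of_eqOn_id (A := univ) (fun z _ => by simp) (mem_CH_univ c)] at this
  · have a1 := neg_mem (psh_mem_CH _ m1 hb)
    rw [map_sub, map_smul, ← dT_psh_cont c1, ← cast_psh, psh_psh' _ c2,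
      psh_of_eqOn_id (A := univ) (fun z _ => by simp) (mem_CH_univ o)] at a1
    refine ((h R 4 0 (zero_mem _) (by rw [map_zero]; exact zero_mem _)).2 rfl).unique
      ⟨-psh R (fun z => z - x) b, ?_⟩ ⟨0, by simp⟩
    rw [map_neg]
    convert a1 using 1
    abel

theorem Base1H_loc (κ : Kit) (hl : LocHomStmt) {V L : Set (E 4)} {x : E 4} (hV : IsOpen V)
    (hL : IsCompact L) (hcv : Convex ℝ L) (hLV : L ⊆ V) (hx : x ∈ L) {c : Tot ℝ (E 4)}
    (hc : c ∈ CH ℝ V) (hd : dT ℝ _ c ∈ CH ℝ Lᶜ)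
    (hne : ¬ ∃ b ∈ CH ℝ V, c - dT ℝ _ b ∈ CH ℝ (V \ {x})) :
    (∀ z ∈ CH ℂ V, dT ℂ _ z ∈ CH ℂ Lᶜ → ∃ r : ℂ, ∃ w ∈ CH ℂ V,
      z - r • cast Complex.ofRealHom _ c - dT ℂ _ w ∈ CH ℂ (V \ L)) ∧
    ∀ (r : ℂ) (w : Tot ℂ (E 4)), r • cast Complex.ofRealHom _ c - dT ℂ _ w ∈ CH ℂ Lᶜ → r = 0 := by
  obtain ⟨o, ho⟩ := Base1H_lh hl x
  have hxL : Lᶜ ⊆ {x}ᶜ := compl_subset_compl.2 (singleton_subset_iff.2 hx)
  obtain ⟨t, b, hb⟩ := (ho ℝ).1 c (CH_mono hxL hd)
  have t0 : (t : ℂ) ≠ 0 := by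
    rw [Complex.ofReal_ne_zero]
    rintro rfl
    rw [zero_smul, sub_zero] at hb
    exact hne (Base1H_exc_inj hV isClosed_singleton (singleton_subset_iff.2 (hLV hx)) hc hb)
  have a1 := cast_mem_CH Complex.ofRealHom hb
  have e : cast Complex.ofRealHom _ (castZ ℝ _ o) = castZ ℂ _ o := by
    ext σ
    simp [cast_apply]
  rw [map_sub, map_sub, LinearMap.map_smulₛₗ, e, cast_dT] at a1
  change _ - (t : ℂ) • _ - _ ∈ _ at a1
  refine ⟨fun z hz hdz => ?_, fun r w hw => ?_⟩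
  · obtain ⟨r, b', hb'⟩ := (ho ℂ).1 z (CH_mono hxL hdz)
    refine ⟨r / t, Base1H_inj κ hV hL hcv hLV hx
      (b := b' - (r / t) • cast Complex.ofRealHom _ b)
      (sub_mem hz (Submodule.smul_mem _ _ (cast_mem_CH _ hc))) ?_ ?_⟩
    · rw [map_sub, map_smul, ← cast_dT]
      exact sub_mem hdz (Submodule.smul_mem _ _ (cast_mem_CH _ hd))
    · have := sub_mem hb' (Submodule.smul_mem _ (r / t) a1)
      rw [smul_sub, smul_sub, smul_smul, div_mul_cancel₀ _ t0] at this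
      rw [map_sub, map_smul]
      convert this using 1
      abel
  · refine (mul_eq_zero.1 ((ho ℂ).2 (r * t) (w - r • cast Complex.ofRealHom _ b) ?_)).resolve_right
      t0
    have := sub_mem (CH_mono hxL hw) (Submodule.smul_mem _ r a1)
    rw [smul_sub, smul_sub, smul_smul] at this
    rw [map_sub, map_smul]
    convert this using 1
    abel

theorem Base1H_aug {R X : Type} [CommRing R] [TopologicalSpace X] (w : Tot R X) :
    val0 R (fun _ => (1 : R)) (dT R X w) = 0 := by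
  induction w using Tot.ind with
  | h0 => simp
  | hadd a b ha hb => simp [ha, hb]
  | h1 k σ a =>
    rcases k with _ | _ | k
    · rw [dT_inc_zero, map_zero]
    · rw [dT_inc_succ, bd_single, Fin.sum_univ_two, map_add, map_zsmul, map_zsmul, inc_single,
        inc_single]
      simp [val0]
    · rw [dT_inc_succ]
      exact val0_of_DG _ (Nat.succ_ne_zero k) (inc_mem_DG _ _)

theorem Base1H_ctr {R X : Type} [CommRing R] [TopologicalSpace X] (h : CtrStmt) {A : Set X}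
    {x : X} (hA : Ctr A x) {z : Tot R X} (hz : z ∈ CH R A) (hd : dT R X z = 0) :
    ∃ r : R, ∃ w ∈ CH R A, z - r • pt R x - dT R X w = 0 := by
  obtain ⟨h1, h2⟩ := h R X A x hA
  have a1 : ∀ k, ∃ r : R, ∃ w ∈ CH R A, deg R X k z - r • pt R x - dT R X w = 0 := by
    rintro (_ | k)
    · obtain ⟨w, hw, e⟩ := h2 _ ⟨deg_mem_CH 0 hz, deg_mem 0 z⟩
      exact ⟨_, w, hw.1, sub_eq_zero.2 e.symm⟩
    · obtain ⟨w, hw, e⟩ := h1 (k + 1) (Nat.succ_ne_zero k) (x := deg R X (k + 1) z)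
        ⟨⟨deg_mem_CH _ hz, deg_mem _ z⟩, by
          rw [SetLike.mem_coe, LinearMap.mem_ker, ← deg_dT, hd, map_zero]⟩
      exact ⟨0, w, hw.1, by rw [zero_smul, sub_zero, e, sub_self]⟩
  choose r w hw e using a1
  obtain ⟨n, hn⟩ := exists_sum_deg z
  refine ⟨∑ k ∈ Finset.range n, r k, ∑ k ∈ Finset.range n, w k, sum_mem fun k _ => hw k, ?_⟩
  have := Finset.sum_eq_zero fun k (_ : k ∈ Finset.range n) => e k
  rwa [Finset.sum_sub_distrib, Finset.sum_sub_distrib, hn n le_rfl, ← Finset.sum_smul,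
    ← map_sum] at this

end Pool.Agent.MP_bc14e1_gt
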