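import Pool.Agent.MP_bc14e1_gt.IfP
import Pool.Agent.MP_bc14e1_gt.IfT
import Pool.Agent.MP_bc14e1_gt.P.Base1HB

open Set Metric
open scoped Classical

namespace Pool.Agent.MP_bc14e1_gt

theorem Base1H_closed {X G Y : Type} [TopologicalSpace X] [T2Space X] [Group G]
    [TopologicalSpace Y] [MulAction G Y] [ContinuousConstSMul G Y] {Z : Set X} {p : Y → X}
    (h : GCov G Z p) (s : G) {U L : Set Y} (hU : IsOpen U) (hi : InjOn p U) (hL : IsCompact L)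
    (hLU : L ⊆ U) : IsClosed (sat s L) := by
  refine isOpen_compl_iff.1 (isOpen_iff_forall_mem_open.2 fun y hy => ?_)
  by_cases hp : p y ∈ p '' L
  · obtain ⟨l, hl, e⟩ := hp
    obtain ⟨g, rfl⟩ := h.trans l y e
    refine ⟨{y | g⁻¹ • y ∈ U}, fun y' h1 h2 => hy ?_, hU.preimage (continuous_const_smul _),
      by simpa using hLU hl⟩
    obtain ⟨n, l', hl', rfl⟩ := mem_iUnion.1 h2
    have a1 : g⁻¹ • s ^ n • l' = l' := hi h1 (hLU hl') (by rw [h.inv, h.inv])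
    rw [← mul_smul] at a1
    have a2 : g = s ^ n := inv_mul_eq_one.1 (h.free _ _ a1)
    exact mem_iUnion.2 ⟨n, l, hl, by rw [a2]⟩
  · refine ⟨p ⁻¹' (p '' L)ᶜ, fun y' h1 h2 => h1 ?_,
      (hL.image h.cont).isClosed.isOpen_compl.preimage h.cont, hp⟩
    obtain ⟨n, l', hl', rfl⟩ := mem_iUnion.1 h2
    exact ⟨l', hl', (h.inv _ _).symm⟩

theorem base1H_stmt (B : Bas1) (hLocDeg : LocDegStmt) : Base1HStmt := by
  intro X G Y _ _ _ _ _ _ _ o F p s hT g g0 e hinj V hV hcv hVt x hx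
  obtain ⟨κ⟩ := B.kit
  have hUs : e.symm '' V ⊆ e.source := by
    rintro _ ⟨v, hv, rfl⟩
    exact e.map_target (hVt hv)
  have hU : IsOpen (e.symm '' V) := e.symm.isOpen_image_of_subset_source hV hVt
  have hi : InjOn p (e.symm '' V) := hinj.mono hUs
  have ce : ContinuousOn e (e.symm '' V) := e.continuousOn.mono hUs
  have cs : ContinuousOn e.symm V := e.continuousOn_symm.mono hVt
  have m1 : MapsTo e (e.symm '' V) V := by
    rintro _ ⟨v, hv, rfl⟩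
    rwa [e.right_inv (hVt hv)]
  have m2 : MapsTo e.symm V (e.symm '' V) := mapsTo_image _ _
  have m3 : ∀ A, MapsTo e (e.symm '' V ∩ (e.symm '' A)ᶜ) (V \ A) := fun A y hy =>
    ⟨m1 hy.1, fun h => hy.2 ⟨_, h, e.left_inv (hUs hy.1)⟩⟩
  have m4 : ∀ A ⊆ V, MapsTo e.symm (V \ A) (e.symm '' V \ e.symm '' A) := fun A hA v hv =>
    ⟨m2 hv.1, fun ⟨a, ha, h⟩ => hv.2 (e.symm.injOn (hVt (hA ha)) (hVt hv.1) h ▸ ha)⟩
  have back : ∀ (R : Type) [CommRing R], ∀ z ∈ CH R (e.symm '' V),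
      psh R e.symm (psh R e z) = z := fun R _ z hz => by
    rw [psh_psh _ ce hz]
    exact psh_of_eqOn_id (fun y hy => e.left_inv (hUs hy)) hz
  have forth : ∀ (R : Type) [CommRing R], ∀ z ∈ CH R V, psh R e (psh R e.symm z) = z :=
    fun R _ z hz => by
      rw [psh_psh _ cs hz]
      exact psh_of_eqOn_id (fun y hy => e.right_inv (hVt hy)) hz
  have fr : ∀ (n : ℤ) (y : Y), s ^ n • y = y → n = 0 := fun n y h => hT.inf n (hT.cov.free _ _ h)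
  have hd : ∀ n : ℤ, ∀ y ∈ e.symm '' V, s ^ n • y ∈ e.symm '' V → n = 0 := fun n y h1 h2 =>
    fr n y (hi h2 h1 (hT.cov.inv _ _))
  refine ⟨fun u hu hdu => ?_, fun L hL hLc hLV hxL => ?_⟩
  · have ct : Ctr V x := ⟨hx, fun q => q.2 + q.1 • (x - q.2), by fun_prop,
      fun q hq => hcv.add_smul_sub_mem hq.2 hx hq.1, fun y _ => by simp, fun y _ => by simp⟩
    have q1 : ∀ z ∈ CH ℂ (e.symm '' V), dT ℂ Y z ∈ CH ℂ ∅ → ∃ r : ℂ, ∃ w ∈ CH ℂ (e.symm '' V),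
        z - r • pt ℂ (e.symm x) - dT ℂ Y w ∈ CH ℂ ∅ := fun z hz hdz => by
      obtain ⟨r, w, hw, h⟩ := Base1H_ctr B.ctr ct (psh_mem_CH _ m1 hz)
        (by rw [dT_psh ce hz, eq_zero_of_mem_CH_empty hdz, map_zero])
      have := congrArg (psh ℂ e.symm) h
      rw [map_sub, map_sub, back ℂ z hz, map_smul, psh_pt, ← dT_psh cs hw, map_zero] at this
      exact ⟨r, _, psh_mem_CH _ m2 hw, this ▸ zero_mem _⟩
    have q2 : ∀ r : ℂ, ∀ w ∈ CH ℂ (e.symm '' V), r • pt ℂ (e.symm x) - dT ℂ Y w ∈ CH ℂ ∅ →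
        r = 0 := fun r w _ h => by
      have := congrArg (val0 ℂ fun _ => (1 : ℂ)) (eq_zero_of_mem_CH_empty h)
      rwa [map_sub, Base1H_aug, map_smul, val0_pt, map_zero, sub_zero, smul_eq_mul,
        mul_one] at this
    obtain ⟨a, w, hw, h⟩ := Base1H_mod B.tf fr hU hd (fun _ => Iff.rfl) (pt_mem_CH (m2 hx)) q1 q2
      g0 hu (Submodule.mem_sup_right hdu)
    obtain ⟨y, hy, y', hy', e'⟩ := Submodule.mem_sup.1 h
    rw [eq_zero_of_mem_CH_empty hy, zero_add] at e'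
    exact ⟨a, w, hw, e' ▸ hy'⟩
  obtain ⟨-, d2, d3, -⟩ := hLocDeg X Y o p (B.cov G X Y _ p hT.cov).2.1 (e.symm x)
  obtain ⟨c1, hc1, hD⟩ := d3 _ hU (m2 hx)
  obtain ⟨U', -, -, -, k1, k2, b1, k3⟩ := hD
  have hLU : e.symm '' L ⊆ e.symm '' V := image_mono hLV
  have hxV : ({x} : Set (E 4)) ⊆ V := singleton_subset_iff.2 hx
  have mp : MapsTo p (e.symm '' V \ e.symm '' {x}) {p (e.symm x)}ᶜ := fun y hy h =>
    hy.2 ⟨x, rfl, (hi hy.1 (m2 hx) h).symm⟩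
  obtain ⟨c, hc, hdc, b, hb, hcb⟩ := Base1H_surj κ hV hL hLV hxL (psh_mem_CH _ m1 hc1)
    (psh_mem_DG _ k1.2) (by
      rw [dT_psh ce hc1]
      refine CH_mono (sdiff_subset_compl _ _) (psh_mem_CH _ (m3 {x}) ?_)
      rw [CH_inter, image_singleton]
      exact ⟨dT_mem_CH hc1, CH_mono (sdiff_subset_compl _ _) k2⟩)
  have hc' : psh ℝ e.symm c ∈ CC ℝ (e.symm '' V) 4 := ⟨psh_mem_CH _ m2 hc.1, psh_mem_DG _ hc.2⟩
  have hdc' : dT ℝ Y (psh ℝ e.symm c) ∈ CH ℝ (e.symm '' V \ e.symm '' L) := by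
    rw [dT_psh cs hc.1]
    exact psh_mem_CH _ (m4 L hLV) hdc
  have hdx : dT ℝ Y (psh ℝ e.symm c) ∈ CH ℝ (e.symm '' V \ {e.symm x}) :=
    CH_mono (sdiff_subset_sdiff_right (singleton_subset_iff.2 (mem_image_of_mem _ hxL))) hdc'
  have hD : LocDeg o p (e.symm x) (psh ℝ e.symm c) 1 := by
    refine ⟨_, hU, m2 hx, hi, hc', hdx, b1 - psh ℝ p (psh ℝ e.symm b), ?_⟩
    have a1 := psh_mem_CH _ mp (psh_mem_CH _ (m4 _ hxV) hcb)
    rw [map_sub (psh ℝ e.symm), map_sub (psh ℝ e.symm), back ℝ c1 hc1, ← dT_psh cs hb, map_sub,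
      map_sub, ← dT_psh_cont hT.cov.cont] at a1
    have a2 := sub_mem k3 a1
    rw [map_sub]
    convert a2 using 1
    abel
  obtain ⟨g1, g2⟩ := Base1H_loc κ B.locHom hV hL hLc hLV hxL hc.1
    (CH_mono (sdiff_subset_compl _ _) hdc) (by
      rintro ⟨b', hb', h⟩
      refine one_ne_zero (d2 _ _ _ hD ⟨_, hU, m2 hx, hi, hc', hdx, psh ℝ p (psh ℝ e.symm b'), ?_⟩)
      have a1 := psh_mem_CH _ mp (psh_mem_CH _ (m4 _ hxV) h)
      rwa [map_sub (psh ℝ e.symm), ← dT_psh cs hb', map_sub, ← dT_psh_cont hT.cov.cont,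
        ← sub_zero (psh ℝ p (psh ℝ e.symm c)),
        ← zero_smul ℝ (castZ ℝ X (inc ℤ 4 (o.o (p (e.symm x)))))] at a1)
  refine ⟨_, hc'.1, hD, CH_mono (sdiff_subset_compl _ _) hdc', fun z hz => ?_⟩
  have hK := Base1H_closed hT.cov s hU hi (hL.image_of_continuousOn (cs.mono hLV)) hLU
  have hW : IsOpen (sat s (e.symm '' V)) := by
    rw [Base1H_sat]
    exact isOpen_iUnion (Base1H_tr_open hU)
  have hKW : sat s (e.symm '' L) ⊆ sat s (e.symm '' V) := iUnion_mono fun _ => image_mono hLU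
  have hN : Inv s (sat s (e.symm '' L))ᶜ := fun y => not_congr (Base1H_inv s _ y)
  have s1 : e.symm '' V \ e.symm '' L ⊆ (sat s (e.symm '' L))ᶜ := fun y hy h => by
    obtain ⟨n, l, hl, rfl⟩ := mem_iUnion.1 h
    have := hd n l (hLU hl) hy.1
    exact hy.2 (by simpa [this] using hl)
  have s2 : ∀ z ∈ CH ℂ (e.symm '' V), z ∈ CH ℂ (sat s (e.symm '' L))ᶜ →
      psh ℂ e z ∈ CH ℂ Lᶜ := fun z h1 h2 => by
    refine CH_mono (sdiff_subset_compl _ _) (psh_mem_CH _ (m3 L) ?_)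
    rw [CH_inter]
    exact ⟨h1, CH_mono (compl_subset_compl.2 (Base1H_sub s _)) h2⟩
  have hcc := cast_mem_CH Complex.ofRealHom hc'.1
  obtain ⟨z', hz', w, hw⟩ := Base1H_cut hW hK hKW hz
  have hdz' : dT ℂ Y z' ∈ CH ℂ (sat s (e.symm '' L))ᶜ ⊔ Mul0 s g := by
    obtain ⟨y, hy, _, ⟨y', rfl⟩, e'⟩ := Submodule.mem_sup.1 hw
    have a1 := congrArg (dT ℂ Y) e'
    rw [map_add, map_sub, map_sub, dT_dT, sub_zero, dT_act] at a1
    have a2 := sub_mem hz (Submodule.mem_sup.2 ⟨_, dT_mem_CH hy, _, ⟨dT ℂ Y y', rfl⟩, a1⟩)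
    rwa [sub_sub_cancel] at a2
  have q1 : ∀ u ∈ CH ℂ (e.symm '' V), dT ℂ Y u ∈ CH ℂ (sat s (e.symm '' L))ᶜ → ∃ r : ℂ,
      ∃ w ∈ CH ℂ (e.symm '' V), u - r • cast Complex.ofRealHom Y (psh ℝ e.symm c) - dT ℂ Y w ∈
        CH ℂ (sat s (e.symm '' L))ᶜ := fun u hu hdu => by
    obtain ⟨r, w, hw, h⟩ := g1 _ (psh_mem_CH _ m1 hu)
      (by rw [dT_psh ce hu]; exact s2 _ (dT_mem_CH hu) hdu)
    refine ⟨r, _, psh_mem_CH _ m2 hw, CH_mono s1 ?_⟩
    have := psh_mem_CH _ (m4 L hLV) h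
    rwa [map_sub, map_sub, back ℂ u hu, map_smul, ← cast_psh, ← dT_psh cs hw] at this
  have q2 : ∀ r : ℂ, ∀ w ∈ CH ℂ (e.symm '' V), r • cast Complex.ofRealHom Y (psh ℝ e.symm c) -
      dT ℂ Y w ∈ CH ℂ (sat s (e.symm '' L))ᶜ → r = 0 := fun r w hw h => by
    refine g2 r (psh ℂ e w) ?_
    have := s2 _ (sub_mem (Submodule.smul_mem _ r hcc) (dT_mem_CH hw)) h
    rwa [map_sub, map_smul, ← cast_psh, forth ℝ c hc.1, ← dT_psh ce hw] at this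
  obtain ⟨a, w', -, h⟩ := Base1H_mod B.tf fr hU hd hN hcc q1 q2 g0 hz' hdz'
  refine ⟨a, w + w', ?_⟩
  have := add_mem hw h
  rw [map_add]
  convert this using 1
  abel

end Pool.Agent.MP_bc14e1_gt
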