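import Pool.Agent.MP_bc14e1_gt.IfP

open Set Metric
open scoped Classical

namespace Pool.Agent.MP_bc14e1_gt

theorem Base2_cop {ζ : Circle} (hζ : ζ ≠ 1) (n : ℕ) :
    ∃ a b : Lam ℂ, a * (LaurentPolynomial.T 1 - 1) + b * piL ζ ^ n = 1 := by
  have h0 : (ζ : ℂ) - 1 ≠ 0 := sub_ne_zero.2 fun e => hζ (Circle.ext e)
  have h : IsCoprime (LaurentPolynomial.T 1 - 1 : Lam ℂ) (piL ζ) := by
    refine ⟨LaurentPolynomial.C ((ζ : ℂ) - 1)⁻¹, -LaurentPolynomial.C ((ζ : ℂ) - 1)⁻¹, ?_⟩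
    have e : (LaurentPolynomial.C ((ζ : ℂ) - 1)⁻¹ : Lam ℂ) * (LaurentPolynomial.C (ζ : ℂ) - 1) =
        1 := by
      rw [← map_one LaurentPolynomial.C, ← map_sub, ← map_mul, inv_mul_cancel₀ h0]
    rw [piL]
    linear_combination e
  exact h.pow_right

section Aux

variable {G Y : Type} [Group G] [TopologicalSpace Y] [MulAction G Y] [ContinuousConstSMul G Y]

theorem Base2_comm (s : G) (a b : Lam ℂ) (c : Tot ℂ Y) :
    act ℂ Y s a (act ℂ Y s b c) = act ℂ Y s b (act ℂ Y s a c) := by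
  rw [← Module.End.mul_apply, ← map_mul, mul_comm, map_mul, Module.End.mul_apply]

theorem Base2_key {s : G} {a b g : Lam ℂ} (hab : a * (LaurentPolynomial.T 1 - 1) + b * g = 1)
    {H : Module.End ℂ (Tot ℂ Y)} (hH : ∀ c, H (gs ℂ Y s c) = gs ℂ Y s (H c)) {c o z : Tot ℂ Y}
    (hc : dT ℂ Y (H c) + H (dT ℂ Y c) = gs ℂ Y s c - c) (hd : dT ℂ Y c = o + act ℂ Y s g z) :
    c = dT ℂ Y (act ℂ Y s a (H c)) + act ℂ Y s a (H o) +
      act ℂ Y s g (act ℂ Y s a (H z) + act ℂ Y s b c) := by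
  have e1 : act ℂ Y s (LaurentPolynomial.T 1 - 1) c = gs ℂ Y s c - c := by
    rw [map_sub, map_one, act_T, zpow_one]
    rfl
  have e2 := congrArg (fun x => act ℂ Y s x c) hab
  simp only [map_add, map_mul, map_one, LinearMap.add_apply, Module.End.mul_apply,
    Module.End.one_apply] at e2
  rw [e1, ← hc, hd, map_add H, map_act H hH, map_add, map_add, ← dT_act, Base2_comm s a g,
    Base2_comm s b g] at e2
  rw [map_add]
  refine e2.symm.trans ?_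
  abel

theorem Base2_sd (s : G) (m : ℕ) (c : Tot ℂ Y) :
    (sdT ℂ Y ^ m) (gs ℂ Y s c) = gs ℂ Y s ((sdT ℂ Y ^ m) c) := by
  induction m with
  | zero => rfl
  | succ m ih =>
    rw [pow_succ', Module.End.mul_apply, Module.End.mul_apply, ih]
    exact sdT_psh (continuous_const_smul s).continuousOn (mem_CH_univ _)

theorem Base2_sdHP (s : G) (m : ℕ) (c : Tot ℂ Y) :
    sdHP ℂ Y m (gs ℂ Y s c) = gs ℂ Y s (sdHP ℂ Y m c) := by
  rw [sdHP, LinearMap.sum_apply, LinearMap.sum_apply, map_sum]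
  refine Finset.sum_congr rfl fun j _ => ?_
  rw [Module.End.mul_apply, Module.End.mul_apply, Base2_sd]
  exact sdH_psh (continuous_const_smul s).continuousOn (mem_CH_univ _)

/-- Relative cycles can be moved into `O`. -/
theorem Base2_small {s : G} {g : Lam ℂ} {O W : Set Y} (hO : IsOpen O) (hW : IsOpen W)
    (hOW : O ∪ W = univ) (hi : Inv s O) {b : Tot ℂ Y} (hb : dT ℂ Y b ∈ CH ℂ W ⊔ Mul0 s g) :
    ∃ c ∈ CH ℂ O, ∃ o ∈ CH ℂ (O ∩ W), ∃ z, dT ℂ Y c = o + act ℂ Y s g z ∧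
      ∃ w, ∃ r ∈ CH ℂ W ⊔ Mul0 s g, b = c + dT ℂ Y w + r := by
  obtain ⟨o, ho, _, ⟨z, rfl⟩, e⟩ := Submodule.mem_sup.1 hb
  obtain ⟨m, hm⟩ := sdT_small_two hO hW (c := b) (hOW ▸ mem_CH_univ b)
  obtain ⟨c, hc, c', hc', e'⟩ := Submodule.mem_sup.1 (hm m le_rfl)
  have h1 : dT ℂ Y c = ((sdT ℂ Y ^ m) o - dT ℂ Y c') + act ℂ Y s g ((sdT ℂ Y ^ m) z) := by
    rw [← map_act _ (Base2_sd s m), sub_add_eq_add_sub, ← map_add, e, ← dT_sdT_pow, ← e',
      map_add, add_sub_cancel_right]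
  refine ⟨c, hc, prj ℂ O ((sdT ℂ Y ^ m) o - dT ℂ Y c'), ?_, prj ℂ O ((sdT ℂ Y ^ m) z), ?_,
    sdHP ℂ Y m b, c' + sdHP ℂ Y m o + act ℂ Y s g (sdHP ℂ Y m z), ?_, ?_⟩
  · rw [CH_inter]
    exact ⟨prj_mem _ _, prj_mem_CH _ (sub_mem (sdT_pow_mem_CH m ho) (dT_mem_CH hc'))⟩
  · rw [← map_act _ (prj_gs s hi), ← map_add, ← h1, prj_of_mem (dT_mem_CH hc)]
  · exact Submodule.add_mem_sup (add_mem hc' (sdHP_mem_CH m ho)) ⟨_, rfl⟩
  · have h2 := dT_sdHP m b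
    rw [← e, ← e', map_add (sdHP ℂ Y m), map_act _ (Base2_sdHP s m)] at h2
    refine (sub_eq_iff_eq_add.1 h2.symm).trans ?_
    abel

end Aux

/-- The rotation saturation of a set. -/
def Base2_sat (A : Set (ℂ × ℂ)) : Set (ℂ × ℂ) :=
  (fun x : ℂ × ℂ => (x.1, ‖x.2‖)) ⁻¹' ((fun x : ℂ × ℂ => (x.1, ‖x.2‖)) '' A)

theorem Base2_sat_cpt {A : Set (ℂ × ℂ)} (hA : IsCompact A) : IsCompact (Base2_sat A) := by
  have hc : Continuous fun x : ℂ × ℂ => (x.1, ‖x.2‖) := by fun_prop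
  obtain ⟨r, hr⟩ := hA.isBounded.subset_closedBall 0
  refine (isCompact_closedBall 0 r).of_isClosed_subset ((hA.image hc).isClosed.preimage hc) ?_
  rintro x ⟨y, hy, e⟩
  obtain ⟨e1, e2⟩ := Prod.mk.inj e
  have := hr hy
  rw [mem_closedBall_zero_iff, Prod.norm_def] at this ⊢
  rwa [← e1, ← e2]

theorem base2_stmt (B : Bas1) (hRot : RotStmt) : Base2Stmt := by
  intro X G Y _ _ _ _ _ _ F p s tc ζ hζ n β e V hF hV hVt hD
  obtain ⟨a, b, hab⟩ := Base2_cop hζ n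
  obtain ⟨H, hH, -, hH1, hH2⟩ := hRot ℂ G X Y F p s tc e V hF hV hVt hD
  have hinv : ∀ A : Set X, Inv s (p ⁻¹' A) := fun A y => by
    rw [mem_preimage, mem_preimage, tc.cov.inv]
  have hR : RotInv V := fun x hx w hw => hD x hx w hw.le
  constructor
  · rintro _ ⟨L, -, hLV, rfl⟩ u hu ⟨z, hz⟩ -
    have hu' : u ∈ CH ℂ (p ⁻¹' (e.symm '' V)) := CH_mono (preimage_mono hLV) hu
    have k := Base2_key hab hH (o := 0) (hH2 u hu') (by rw [zero_add, hz])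
    rw [map_zero, map_zero, add_zero] at k
    exact ⟨act ℂ Y s a (H u), act_mem_CH (hinv _) a (hH1 V subset_rfl hR u hu'), _,
      (sub_eq_of_eq_add' k).symm⟩
  · rintro _ ⟨L, hL, hLV, rfl⟩ f hf hf'
    have hLs : L ⊆ e.source := hLV.trans (by
      rintro _ ⟨v, hv, rfl⟩
      exact e.map_target (hVt hv))
    have heL : e '' L ⊆ V := by
      rintro _ ⟨x, hx, rfl⟩
      obtain ⟨v, hv, rfl⟩ := hLV hx
      rwa [e.right_inv (hVt hv)]
    have hS : Base2_sat (e '' L) ⊆ V := by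
      rintro x ⟨y, hy, e'⟩
      obtain ⟨e1, e2⟩ := Prod.mk.inj e'
      have := hR y (heL hy) x.2 e2.symm
      rwa [e1] at this
    have hc : IsCompact (e.symm '' Base2_sat (e '' L)) :=
      (Base2_sat_cpt (hL.image_of_continuousOn (e.continuousOn.mono hLs))).image_of_continuousOn
        (e.continuousOn_symm.mono (hS.trans hVt))
    have hLL : L ⊆ e.symm '' Base2_sat (e '' L) := fun x hx =>
      ⟨e x, ⟨e x, ⟨x, hx, rfl⟩, rfl⟩, e.left_inv (hLs hx)⟩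
    have hKK : (p ⁻¹' (e.symm '' Base2_sat (e '' L)))ᶜ ⊆ (p ⁻¹' L)ᶜ :=
      compl_subset_compl.2 (preimage_mono hLL)
    refine ⟨_, ⟨_, hc, image_mono hS, rfl⟩, preimage_mono hLL, 0, zero_mem _,
      by rw [map_zero]; exact zero_mem _, fun b' hb' => ?_⟩
    obtain ⟨c, hc', o, ho, z, hd, w, r, hr, rfl⟩ := Base2_small
      ((e.isOpen_image_symm_of_subset_target hV hVt).preimage tc.cov.cont)
      (hc.isClosed.preimage tc.cov.cont).isOpen_compl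
      (univ_subset_iff.1 ((union_compl_self _).superset.trans
        (union_subset_union_left _ (preimage_mono (image_mono hS)))))
      (hinv _) hb'
    have ho' : o ∈ CH ℂ (p ⁻¹' (e.symm '' (V \ Base2_sat (e '' L)))) := by
      refine CH_mono ?_ ho
      rintro y ⟨⟨v, hv, e'⟩, hy⟩
      exact ⟨v, ⟨hv, fun h => hy ⟨v, h, e'⟩⟩, e'⟩
    have hR' : RotInv (V \ Base2_sat (e '' L)) := by
      rintro x ⟨hx, hx'⟩ w' hw
      refine ⟨hR x hx w' hw, fun ⟨y, hy, e'⟩ => hx' ⟨y, hy, e'.trans ?_⟩⟩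
      exact congrArg (Prod.mk x.1) hw
    have hsub : p ⁻¹' (e.symm '' (V \ Base2_sat (e '' L))) ⊆ (p ⁻¹' L)ᶜ := by
      rintro y ⟨v, ⟨hv, hv'⟩, e'⟩ hy
      exact hv' ⟨v, ⟨p y, hy, by rw [← e', e.right_inv (hVt hv)]⟩, rfl⟩
    have k := Base2_key hab hH (hH2 c hc') hd
    have f1 := hf' _ (Submodule.mem_sup_left (CH_mono hsub
      (act_mem_CH (hinv _) a (hH1 _ sdiff_subset hR' o ho'))))
    have f2 : f c = 0 := by
      rw [k, map_add, map_add, hf, f1, hf' _ (Submodule.mem_sup_right ⟨_, rfl⟩), add_zero,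
        add_zero]
    have f3 : CH ℂ (p ⁻¹' (e.symm '' Base2_sat (e '' L)))ᶜ ⊔ Mul0 s (piL ζ ^ n) ≤
        CH ℂ (p ⁻¹' L)ᶜ ⊔ Mul0 s (piL ζ ^ n) := sup_le_sup_right (CH_mono hKK) _
    rw [map_zero, map_add, map_add, f2, hf, hf' r (f3 hr), add_zero, add_zero]

end Pool.Agent.MP_bc14e1_gt
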