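import Pool.Agent.MP_bc14e1_gt.IfD

open Set Metric
open scoped Classical

namespace Pool.Agent.MP_bc14e1_gt

section
variable {X Y : Type} [TopologicalSpace X] [TopologicalSpace Y]

theorem ChOri_symm {x : X} {a b : Tot ℤ X} (h : RelEq ℤ x a b) : RelEq ℤ x b a := by
  obtain ⟨w, hw⟩ := h
  refine ⟨-w, ?_⟩
  have := neg_mem hw
  rwa [show -(a - b - dT ℤ X w) = b - a - dT ℤ X (-w) by rw [map_neg]; abel] at this

theorem ChOri_trans {x : X} {a b c : Tot ℤ X} (h : RelEq ℤ x a b) (h' : RelEq ℤ x b c) :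
    RelEq ℤ x a c := by
  obtain ⟨w, hw⟩ := h
  obtain ⟨w', hw'⟩ := h'
  refine ⟨w + w', ?_⟩
  have := add_mem hw hw'
  rwa [show a - b - dT ℤ X w + (b - c - dT ℤ X w') = a - c - dT ℤ X (w + w') by
    rw [map_add]; abel] at this

theorem ChOri_psh [T1Space X] {U : Set X} (hU : IsOpen U) {x : X} (hx : x ∈ U) {y : Y}
    {f : X → Y} (hf : ContinuousOn f U) (hm : ∀ u ∈ U, f u = y → u = x) {a b : Tot ℤ X}
    (ha : a ∈ CH ℤ U) (hb : b ∈ CH ℤ U) (h : RelEq ℤ x a b) :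
    RelEq ℤ y (psh ℤ f a) (psh ℤ f b) := by
  obtain ⟨w, hw⟩ := h
  obtain ⟨w', h1, h2⟩ := exc_inj isClosed_singleton hU (singleton_subset_iff.2 hx)
    (sub_mem ha hb) hw
  refine ⟨psh ℤ f w', ?_⟩
  rw [dT_psh hf h1, ← map_sub, ← map_sub]
  refine psh_mem_CH f (fun u hu => ?_) h2
  exact fun e => hu.2 (hm u hu.1 e)

variable (c : OpenPartialHomeomorph X (E 4))

theorem ChOri_cont (v : E 4) : ContinuousOn (fun w => c w - v) c.source :=
  c.continuousOn.sub continuousOn_const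

theorem ChOri_iff [T1Space X] {v : E 4} (hv : v ∈ c.target) {a b : Tot ℤ X}
    (ha : a ∈ CH ℤ c.source) (hb : b ∈ CH ℤ c.source) : RelEq ℤ (c.symm v) a b ↔
      RelEq ℤ 0 (psh ℤ (fun w => c w - v) a) (psh ℤ (fun w => c w - v) b) := by
  refine ⟨ChOri_psh c.open_source (c.map_target hv) (ChOri_cont c v) (fun u hu e => ?_) ha hb,
    fun h => ?_⟩
  · rw [← sub_eq_zero.1 e, c.left_inv hu]
  have hm : MapsTo (fun w => c w - v) c.source ((fun x => x + v) ⁻¹' c.target) := fun u hu => by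
    simpa using c.map_source hu
  have h1 := ChOri_psh (y := c.symm v) (f := fun x => c.symm (x + v))
    (c.open_target.preimage (continuous_add_const v)) (by simpa using hv)
    (c.continuousOn_symm.comp (continuous_add_const v).continuousOn fun _ h => h)
    (fun u hu e => by simpa using c.symm.injOn hu hv e) (psh_mem_CH _ hm ha) (psh_mem_CH _ hm hb) h
  have h2 : ∀ x ∈ c.source, ((fun x => c.symm (x + v)) ∘ fun w => c w - v) x = x :=
    fun x hx => by simpa using c.left_inv hx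
  rwa [psh_psh _ (ChOri_cont c v) ha, psh_psh _ (ChOri_cont c v) hb, psh_of_eqOn_id h2 ha,
    psh_of_eqOn_id h2 hb] at h1

/-- the chain `z₀` represents the orientation at `v` -/
def ChOri_N (o : Orientation4 X) (v : E 4) (z₀ : Tot ℤ (E 4)) : Prop :=
  ∃ z ∈ CH ℤ c.source, RelEq ℤ (c.symm v) z (inc ℤ 4 (o.o (c.symm v))) ∧
    RelEq ℤ 0 (psh ℤ (fun w => c w - v) z) z₀

theorem ChOri_loc (κ : Kit) [T2Space X] (o : Orientation4 X) {v : E 4} (hv : v ∈ c.target) :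
    ∃ z₀, ∀ᶠ v' in nhds v, ChOri_N c o v' z₀ := by
  obtain ⟨U, hU, w, hw, hq⟩ := o.loc (c.symm v)
  obtain ⟨ε, hε, hB⟩ := nhds_basis_closedBall.mem_iff.1
    (Filter.inter_mem (c.open_target.mem_nhds hv) (c.continuousAt_symm hv hU))
  have hA : IsCompact (c.symm '' closedBall v ε) := (isCompact_closedBall v ε).image_of_continuousOn
    (c.continuousOn_symm.mono fun x hx => (hB hx).1)
  have hAU : c.symm '' closedBall v ε ⊆ U := by
    rintro _ ⟨x, hx, rfl⟩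
    exact (hB hx).2
  have hd : dT ℤ X (inc ℤ 4 w) ∈ CH ℤ (c.symm '' closedBall v ε)ᶜ := by
    rw [dT_inc_succ]
    exact CH_mono (compl_subset_compl.2 hAU) (inc_mem_CH.2 hw)
  obtain ⟨z, hz, w', hw'⟩ := exc_surj hA.isClosed c.open_source (by
    rintro _ ⟨x, hx, rfl⟩
    exact c.map_target (hB hx).1) (inc_mem_DG 4 w) hd
  have hdz : dT ℤ X z ∈ CH ℤ (c.source ∩ (c.symm '' closedBall v ε)ᶜ) := by
    rw [CH_inter]
    refine ⟨dT_mem_CH hz.1, ?_⟩
    have := add_mem (dT_mem_CH hw') hd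
    rwa [map_sub, map_sub, dT_dT, sub_zero, sub_add_cancel] at this
  refine ⟨psh ℤ (fun w => c w - v) z, ?_⟩
  filter_upwards [closedBall_mem_nhds v hε] with v' hv'
  have hq' : c.symm v' ∈ c.symm '' closedBall v ε := mem_image_of_mem _ hv'
  refine ⟨z, hz.1, ChOri_trans ⟨w', CH_mono
    (compl_subset_compl.2 (singleton_subset_iff.2 hq')) hw'⟩ ?_, ?_⟩
  · obtain ⟨b, -, hb⟩ := hq _ (hAU hq')
    refine ⟨inc ℤ 5 b, ?_⟩
    rw [dT_inc_succ, ← map_sub, ← map_sub]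
    exact inc_mem_CH.2 hb
  · have hH : ContinuousOn (fun x : ℝ × X => c x.2 - ((1 - x.1) • v + x.1 • v'))
        (Icc 0 1 ×ˢ c.source) :=
      (c.continuousOn.comp continuousOn_snd fun _ h => h.2).sub (by fun_prop)
    have e := dT_hop κ hH hz.1
    simp only [sub_self, zero_smul, one_smul, zero_add, sub_zero, add_zero] at e
    refine ⟨hop κ ℤ (fun x : ℝ × X => c x.2 - ((1 - x.1) • v + x.1 • v')) z, ?_⟩
    rw [← e, add_sub_cancel_left]
    refine hop_mem_CH κ _ (fun x hx e => hx.2.2 ⟨c x.2, ?_, c.left_inv hx.2.1⟩) hdz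
    rw [sub_eq_zero.1 e]
    exact convex_closedBall v ε (mem_closedBall_self hε.le) hv' (sub_nonneg.2 hx.1.2) hx.1.1
      (sub_add_cancel _ _)

theorem ChOri_use [T1Space X] {o : Orientation4 X} {v : E 4} (hv : v ∈ c.target)
    {z₀ : Tot ℤ (E 4)} (h : ChOri_N c o v z₀) {z : Tot ℤ X} (hz : z ∈ CH ℤ c.source) :
    RelEq ℤ (c.symm v) z (inc ℤ 4 (o.o (c.symm v))) ↔
      RelEq ℤ 0 (psh ℤ (fun w => c w - v) z) z₀ := by
  obtain ⟨z', h1, h2, h3⟩ := h
  exact ⟨fun h => ChOri_trans ((ChOri_iff c hv hz h1).1 (ChOri_trans h (ChOri_symm h2))) h3,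
    fun h => ChOri_trans ((ChOri_iff c hv hz h1).2 (ChOri_trans h (ChOri_symm h3))) h2⟩

theorem ChOri_move [T1Space X] {o : Orientation4 X} {v v' : E 4} (hv : v ∈ c.target)
    {z₀ z₁ : Tot ℤ (E 4)} (h : ChOri_N c o v z₁) (h' : ChOri_N c o v' z₁)
    (h0 : ChOri_N c o v z₀) : ChOri_N c o v' z₀ := by
  obtain ⟨z, h1, h2, h3⟩ := h
  obtain ⟨z', h4, h5, h6⟩ := h'
  exact ⟨z', h4, h5, ChOri_trans h6 (ChOri_trans (ChOri_symm h3) ((ChOri_use c hv h0 h1).1 h2))⟩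

end

theorem chOri_stmt (B : Bas1) : ChOriStmt := by
  intro W _ _ o c T hT hc
  obtain ⟨κ⟩ := B.kit
  rcases T.eq_empty_or_nonempty with rfl | ⟨v₀, hv₀⟩
  · exact ⟨0, fun v hv => hv.elim⟩
  obtain ⟨z₀, h0⟩ := ChOri_loc c κ o (hT hv₀)
  refine ⟨z₀, fun v hv z hz _ => ChOri_use c (hT hv) ?_ hz.1⟩
  refine hc.induction₂' (fun x y => ∀ z₀, ChOri_N c o x z₀ → ChOri_N c o y z₀) (fun x hx => ?_)
    (fun x y z _ _ _ h h' z₀ h0 => h' z₀ (h z₀ h0)) hv₀ hv z₀ h0.self_of_nhds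
  obtain ⟨z₁, h1⟩ := ChOri_loc c κ o (hT hx)
  filter_upwards [mem_nhdsWithin_of_mem_nhds h1, self_mem_nhdsWithin] with y hy hyT
  exact ⟨fun z₀ => ChOri_move c (hT hx) h1.self_of_nhds hy,
    fun z₀ => ChOri_move c (hT hyT) hy h1.self_of_nhds⟩

end Pool.Agent.MP_bc14e1_gt
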