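import Pool.Agent.MP_bc14e1_gt.IfL

open Set Metric
open scoped Classical

namespace Pool.Agent.MP_bc14e1_gt

theorem clash_stmt (hLaur : LaurStmt) (hRestr : RestrStmt) (hCo : CoStmt)
    (hPk : PkStmt) (hNS : NSStmt) (hIso : IsoStmt) : ClashStmt := by
  intro C _ _ d M l e ζ x hAS hH hP hζ hL
  obtain ⟨C', _, _, d', M', l', x', hAS', hH', hL'⟩ := hRestr C d M l e ζ x hAS hH hP hL
  obtain ⟨P, hF⟩ := hPk C' d' M' l' ζ hAS'
  obtain ⟨c, hc, hdc⟩ := hL'.tor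
  obtain ⟨y, hy, hne⟩ := hNS C' d' M' l' ζ P hAS' hH' hζ hF x' hL'.cyc hL'.nz c hc hdc
  obtain ⟨μ, y', hy', hb⟩ := hL'.top y hy rfl
  have hco := hCo C' d' M' l' ζ x' hAS' hζ hL'
  have hQ : c ∈ QN d' M' ζ := ⟨hc, x', hdc.symm⟩
  have hx0 : P x' c = 0 :=
    hIso C' d' M' l' ζ P hAS' hF x' hL'.cyc hco x' ⟨hL'.cyc, hL'.tor⟩ hco c hc hdc
  have hm : (LaurentPolynomial.C μ : Lam ℂ) • x' ∈ ZN d' M' := Submodule.smul_mem _ _ hL'.cyc
  have hPB : y - (LaurentPolynomial.C μ : Lam ℂ) • x' ∈ PB d' M' ζ := by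
    have e1 : y - (LaurentPolynomial.C μ : Lam ℂ) • x' =
        piL ζ • y' + (y - (LaurentPolynomial.C μ : Lam ℂ) • x' - piL ζ • y') := by abel
    rw [e1]
    exact Submodule.add_mem_sup ⟨y', hy', rfl⟩ hb
  apply hne
  have e2 : y = (y - (LaurentPolynomial.C μ : Lam ℂ) • x') +
      (LaurentPolynomial.C μ : Lam ℂ) • x' := by abel
  rw [e2, hF.add_left _ (sub_mem hy hm) _ hm c hQ, hF.zero_left _ hPB c hQ,
    hF.smul_left _ _ hL'.cyc c hQ, hx0, mul_zero, add_zero]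

end Pool.Agent.MP_bc14e1_gt
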