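import Pool.Agent.MP_bc14e1_gt.P.ColA

open Set Metric
open scoped Classical

namespace Pool.Agent.MP_bc14e1_gt

noncomputable section

open Finsupp

/-- Integral chains as complex chains. -/
def Col_cz (α : Type) : (α →₀ ℤ) →+ (α →₀ ℂ) := mapRange.addMonoidHom (Int.castAddHom ℂ)

theorem Col_cz_single {α : Type} (z : α) (n : ℤ) : Col_cz α (single z n) = single z (n : ℂ) := by
  simp [Col_cz]

variable {G Y Reg Cr : Type} [Group G] {t : G} {lg : G → ℤ}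

theorem Col_cz_d1 (h : Reg → G) (x : (Reg × G) →₀ ℤ) :
    d1A ℂ h (Col_cz _ x) = Col_cz _ (d1A ℤ h x) := by
  induction x using induction_linear with
  | zero => simp
  | add u v hu hv => simp only [map_add, hu, hv]
  | single z n =>
    simp only [d1A, Col_cz_single, linearCombination_single, smul_sub, smul_single, smul_eq_mul,
      mul_one, map_sub]

/-- The complex form of a colouring. -/
def Col_Phi (lg : G → ℤ) (c : Reg → Eis ℤ) : ((Reg × G) →₀ ℂ) →ₗ[ℂ] ℂ :=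
  linearCombination ℂ fun x => Col_phi (Col_w lg c x)

omit [Group G] in
theorem Col_Phi_cz (c : Reg → Eis ℤ) (x : (Reg × G) →₀ ℤ) :
    Col_Phi lg c (Col_cz _ x) = Col_phi (colE lg c x) := by
  induction x using induction_linear with
  | zero => simp
  | add u v hu hv => simp only [map_add, hu, hv]
  | single z n =>
    simp only [Col_Phi, Col_colE, Col_cz_single, linearCombination_single, zsmul_eq_mul, map_mul,
      map_intCast, smul_eq_mul]

theorem Col_Phi_d2 (L : Col_Lg t lg) {reg : Cr → Fin 4 → Reg} {gap : Reg → ℤ} {c : Reg → Eis ℤ}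
    (hc : IsCol reg gap c) (y : (Cr × G) →₀ ℂ) :
    Col_Phi lg c (d2A ℂ reg (fun r => t ^ gap r) y) = 0 := by
  induction y using induction_linear with
  | zero => simp
  | add u v hu hv => simp only [map_add, hu, hv, add_zero]
  | single z a =>
    rw [Col_Phi, Col_lc_d2, ← map_sub, ← map_add, ← map_sub, Col_w_d2 L, hc z.1]
    simp

/-- The deck transformation. -/
def Col_sh (t : G) (α : Type) : ((α × G) →₀ ℂ) →ₗ[ℂ] ((α × G) →₀ ℂ) :=
  lmapDomain ℂ ℂ fun z => (z.1, t * z.2)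

theorem Col_sh_single {α : Type} (z : α × G) (a : ℂ) :
    Col_sh t α (single z a) = single (z.1, t * z.2) a := by
  simp [Col_sh]

theorem Col_Phi_sh (L : Col_Lg t lg) (c : Reg → Eis ℤ) (y : (Reg × G) →₀ ℂ) :
    Col_Phi lg c (Col_sh t Reg y) = omC * Col_Phi lg c y := by
  have h1 : lg t = 1 := by simpa using L.pow 1
  induction y using induction_linear with
  | zero => simp
  | add u v hu hv => simp only [map_add, hu, hv, mul_add]
  | single z a =>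
    simp only [Col_Phi, Col_sh_single, linearCombination_single, Col_w, L.mul, h1, zpow_add,
      zpow_one, Units.val_mul, map_mul, Col_phi_om, smul_eq_mul]
    ring

theorem Col_d1_sh (h : Reg → G) (y : (Reg × G) →₀ ℂ) :
    d1A ℂ h (Col_sh t Reg y) = Col_sh t Bool (d1A ℂ h y) := by
  induction y using induction_linear with
  | zero => simp
  | add u v hu hv => simp only [map_add, hu, hv]
  | single z a =>
    simp only [d1A, Col_sh_single, linearCombination_single, map_smul, map_sub, mul_assoc]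

variable [TopologicalSpace Y] [MulAction G Y]

theorem Col_cz_ell (l : Reg → Tot ℤ Y) (x : (Reg × G) →₀ ℤ) :
    ellC ℂ l (Col_cz _ x) = castZ ℂ Y (ellC ℤ l x) := by
  induction x using induction_linear with
  | zero => simp
  | add u v hu hv => simp only [map_add, hu, hv]
  | single z n =>
    have e : castZ ℂ Y (castZ ℤ Y (l z.1)) = castZ ℂ Y (l z.1) := by
      ext σ
      simp [cast_apply]
    simp only [ellC, Col_cz_single, linearCombination_single]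
    rw [LinearMap.map_smulₛₗ, gs, gs, cast_psh, e]
    rfl

theorem Col_BC_mono {R : Type} [CommRing R] {A B : Set Y} (h : A ⊆ B) (k : ℕ) :
    BC R A k ≤ BC R B k :=
  Submodule.map_mono (inf_le_inf_right _ (CH_mono h))

theorem Col_BC_psh {R : Type} [CommRing R] {A B : Set Y} {J : Y → Y} (hJ : Continuous J)
    (h : MapsTo J A B) {k : ℕ} {c : Tot R Y} (hc : c ∈ BC R A k) : psh R J c ∈ BC R B k := by
  obtain ⟨b, hb, rfl⟩ := hc
  exact ⟨psh R J b, ⟨psh_mem_CH J h hb.1, psh_mem_DG J hb.2⟩, dT_psh_cont hJ b⟩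

variable [ContinuousConstSMul G Y]

theorem Col_ell_sh (l : Reg → Tot ℤ Y) (y : (Reg × G) →₀ ℂ) :
    ellC ℂ l (Col_sh t Reg y) = gs ℂ Y t (ellC ℂ l y) := by
  induction y using induction_linear with
  | zero => simp
  | add u v hu hv => simp only [map_add, hu, hv]
  | single z a => simp only [ellC, Col_sh_single, linearCombination_single, map_smul, gs_mul]

theorem Col_line {f : Y → ℝ} {hf : ∀ y, f (t • y) = f y}
    (h : Line (dTw ℂ Y t) (lvTw ℂ t f hf) omC) :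
    ∃ w ∈ ZC ℂ (f ⁻¹' Ioo (-1) 1) 1, ∀ y ∈ ZC ℂ (f ⁻¹' Ioo (-1) 1) 1, y ∈ BC ℂ univ 1 →
      ∃ μ : ℂ, ∃ y' ∈ ZC ℂ (f ⁻¹' Ioo (-1) 1) 1,
        y - μ • w - (gs ℂ Y t y' - (omC : ℂ) • y') ∈ BC ℂ (f ⁻¹' Ioo (-1) 1) 1 := by
  obtain ⟨w, hw, H⟩ := h
  refine ⟨w, hw, fun y hy ⟨b, hb, e⟩ => ?_⟩
  obtain ⟨μ, y', hy', b', hb', e'⟩ := H y hy ⟨b, hb, e.symm⟩
  refine ⟨μ, y', hy', b', hb', ?_⟩
  change dT ℂ Y b' = y - act ℂ Y t (LaurentPolynomial.C μ) w - act ℂ Y t (piL omC) y' at e'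
  rw [e', piL, map_sub, LinearMap.sub_apply, act_C, act_C, act_T, zpow_one]

theorem Col_det (L : Col_Lg t lg) {f : Y → ℝ} {hf : ∀ y, f (t • y) = f y}
    {reg : Cr → Fin 4 → Reg} {gap : Reg → ℤ} {l : Reg → Tot ℤ Y} {yn ys : Y}
    (D : DehnMap (f ⁻¹' Ioo (-1) 1) reg (fun r => t ^ gap r) l yn ys)
    (h : Line (dTw ℂ Y t) (lvTw ℂ t f hf) omC) :
    ∃ xw, ∀ x : (Reg × G) →₀ ℤ, d1A ℤ (fun r => t ^ gap r) x = 0 → ellC ℤ l x ∈ BC ℤ univ 1 →
      ∃ μ : ℂ, ∀ c, IsCol reg gap c → Col_phi (colE lg c x) = μ * Col_Phi lg c xw := by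
  obtain ⟨w, hw, H⟩ := Col_line h
  obtain ⟨xw, h1, h2⟩ := D.gen ℂ w hw
  have hI : Inv t (f ⁻¹' Ioo (-1) 1) := fun y => by simp only [mem_preimage, hf]
  have hO : ∀ g : G, ∀ y ∈ f ⁻¹' Ioo (-1) 1, g • y ∈ f ⁻¹' Ioo (-1) 1 := fun g y hy =>
    L.h1 g ▸ (hI.zpow _ y).2 hy
  refine ⟨xw, fun x hx hb => ?_⟩
  have h3 : d1A ℂ (fun r => t ^ gap r) (Col_cz _ x) = 0 := by rw [Col_cz_d1, hx, map_zero]
  have h4 : ellC ℂ l (Col_cz _ x) ∈ BC ℂ univ 1 := by
    obtain ⟨b, hb, e⟩ := hb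
    exact ⟨castZ ℂ Y b, ⟨mem_CH_univ _, cast_mem_DG _ hb.2⟩, by rw [Col_cz_ell, ← e, cast_dT]⟩
  obtain ⟨μ, y', hy', h5⟩ := H _ (D.ellC_mem subset_rfl hO h3) h4
  obtain ⟨x', h6, h7⟩ := D.gen ℂ y' hy'
  have h8 : Col_cz _ x - μ • xw - (Col_sh t Reg x' - (omC : ℂ) • x') ∈
      LinearMap.range (d2A ℂ reg fun r => t ^ gap r) := by
    rw [← D.inj ℂ _ (by simp only [map_sub, map_smul, Col_d1_sh, h1, h3, h6]; simp)]
    have h9 : gs ℂ Y t (y' - ellC ℂ l x') ∈ BC ℂ (f ⁻¹' Ioo (-1) 1) 1 :=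
      Col_BC_psh (continuous_const_smul t) (hO t) h7
    have := sub_mem (add_mem (add_mem h5 (Submodule.smul_mem _ μ h2)) h9)
      (Submodule.smul_mem _ (omC : ℂ) h7)
    simp only [map_sub, map_smul, Col_ell_sh, smul_sub] at this ⊢
    refine mem_of_eq_of_mem ?_ this
    abel
  obtain ⟨y, hy⟩ := h8
  refine ⟨μ, fun c hc => ?_⟩
  have := Col_Phi_d2 L hc y
  simp only [hy, map_sub, map_smul, Col_Phi_sh L, Col_Phi_cz, smul_eq_mul] at this
  linear_combination this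

end

theorem col_stmt : ColStmt := by
  intro G Y Reg Cr _ _ _ _ f t hf lg reg ρ C l yn ys J a₀ D h1 h2 hJ hs hL
  have L : Col_Lg t lg := ⟨h1, h2⟩
  obtain ⟨xw, hw⟩ := Col_det L D hL
  have hcol : ∀ a b : Eis ℤ, IsCol reg C.gap fun r => a * C.c1 r + b * C.c2 r := by
    intro a b x
    linear_combination a * C.col1.1 x + b * C.col2.1 x
  have hfin : ∀ (a b : Eis ℤ) (χ : AddChar (Eis (ZMod 8)) ℂ),
      TwOK reg C.gap χ (fun r => red8 (a * C.c1 r + b * C.c2 r)) →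
      (∀ x : (Reg × G) →₀ ℤ, d1A ℤ (fun r => t ^ C.gap r) x = 0 → ellC ℤ l x ∈ BC ℤ univ 1 →
        a * colE lg C.c1 x + b * colE lg C.c2 x = 0) →
      ∃ (c : Reg → Eis ℤ) (χ : AddChar (Eis (ZMod 8)) ℂ), IsCol reg C.gap c ∧ c C.R0 = 0 ∧
        c C.R1 = 0 ∧ TwOK reg C.gap χ (fun r => red8 (c r)) ∧ ∀ x : (Reg × G) →₀ ℤ,
          d1A ℤ (fun r => t ^ C.gap r) x = 0 → ellC ℤ l x ∈ BC ℤ univ 1 → colE lg c x = 0 :=
    fun a b χ h h' => ⟨_, χ, hcol a b, by simp [C.col1.2.1, C.col2.2.1],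
      by simp [C.col1.2.2, C.col2.2.2], h, fun x hx hb => by rw [Col_lin, h' x hx hb]⟩
  by_cases h0 : ∀ x : (Reg × G) →₀ ℤ, d1A ℤ (fun r => t ^ C.gap r) x = 0 →
      ellC ℤ l x ∈ BC ℤ univ 1 → colE lg C.c2 x = 0 ∧ -colE lg C.c1 x = 0
  · obtain ⟨a, b, χ, h⟩ := C.ex
    refine hfin a b χ h fun x hx hb => ?_
    rw [(h0 x hx hb).1, neg_eq_zero.1 (h0 x hx hb).2]
    simp
  simp only [not_forall] at h0
  obtain ⟨x₀, hx₀, hb₀, h0⟩ := h0
  obtain ⟨k, a, b, ha, hb, hu⟩ := Col_two _ _ _ rfl h0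
  have hP : ∀ x : (Reg × G) →₀ ℤ, d1A ℤ (fun r => t ^ C.gap r) x = 0 →
      ellC ℤ l x ∈ BC ℤ univ 1 → a * colE lg C.c1 x + b * colE lg C.c2 x = 0 := by
    intro x hx hx'
    obtain ⟨μ, hμ⟩ := hw x hx hx'
    obtain ⟨μ₀, hμ₀⟩ := hw x₀ hx₀ hb₀
    have e : colE lg C.c2 x₀ * colE lg C.c1 x = colE lg C.c1 x₀ * colE lg C.c2 x := by
      apply Col_phi_inj
      rw [map_mul, map_mul, hμ _ C.col1.1, hμ _ C.col2.1, hμ₀ _ C.col1.1, hμ₀ _ C.col2.1]
      ring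
    apply Col_cancel (k := k)
    linear_combination e - colE lg C.c1 x * ha - colE lg C.c2 x * hb
  obtain ⟨κ, hκ⟩ := C.gρ
  obtain ⟨c, hc⟩ : ∃ c : Reg → Eis ℤ, c = fun r => a * C.c1 r + b * C.c2 r := ⟨_, rfl⟩
  obtain ⟨v, hv⟩ : ∃ v : Eis ℤ,
    v = -(om ℤ : (Eis ℤ)ˣ) * (star (c (ρ C.R1)) - star (c (ρ C.R0))) := ⟨_, rfl⟩
  obtain ⟨u, hu'⟩ : ∃ u : Eis ℤ, u = star (c (ρ C.R0)) - v := ⟨_, rfl⟩
  have hP' : ∀ x : (Reg × G) →₀ ℤ, d1A ℤ (fun r => t ^ C.gap r) x = 0 →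
      ellC ℤ l x ∈ BC ℤ univ 1 →
      colE lg (fun r => star (c (ρ r)) - u - v * (om ℤ ^ C.gap r : (Eis ℤ)ˣ)) x = 0 := by
    intro x hx hx'
    have e1 : d1A ℤ (fun r => t ^ C.gap r) (x.mapDomain fun z => (ρ z.1, z.2⁻¹ * a₀)) = 0 := by
      rw [Col_J_d1 L hκ, hx, Finsupp.mapDomain_zero]
    have e2 : ellC ℤ l (x.mapDomain fun z => (ρ z.1, z.2⁻¹ * a₀)) ∈ BC ℤ univ 1 := by
      have := sub_mem (Col_BC_psh hJ (mapsTo_univ J univ) hx')
        (Col_BC_mono (subset_univ _) 1 (hs x hx))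
      rwa [sub_sub_cancel] at this
    rw [Col_norm L, hx, map_zero, sub_zero, Col_J_col L ρ a₀, hc, Col_lin, hP _ e1 e2, star_zero,
      mul_zero]
  have hc' := Col_isCol L fun y => hP' _ (Col_d1_d2 ℤ D.hol y)
    (Col_BC_mono (subset_univ _) 1 ((D.inj ℤ _ (Col_d1_d2 ℤ D.hol y)).2 ⟨y, rfl⟩))
  have hom : ((om ℤ : (Eis ℤ)ˣ) : Eis ℤ) * (om ℤ : (Eis ℤ)ˣ) = (om ℤ : (Eis ℤ)ˣ) - 1 := by
    ext <;> simp [om, QuadraticAlgebra.re_one, QuadraticAlgebra.im_one]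
  obtain ⟨a', b', h'⟩ := C.colZ _ hc' (by simp [C.g0, hu'])
    (by
      simp only [C.g1, zpow_one]
      rw [hu', hv]
      linear_combination (star (c (ρ C.R1)) - star (c (ρ C.R0))) * hom)
  have e : a' * b = b' * a := by
    have := hP' x₀ hx₀ hb₀
    rw [funext h', Col_lin] at this
    rw [← sub_eq_zero]
    apply Col_cancel (k := k)
    linear_combination -this - a' * hb + b' * ha
  obtain ⟨μ, h3, h4⟩ := Col_mu (a' := Col_red a') (b' := Col_red b') hu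
    (by rw [← map_mul, ← map_mul, e])
  obtain ⟨χ, hχ⟩ := C.tw (Col_red a) (Col_red b) hu ⟨μ, Col_red u, Col_red v, fun r => by
    have := congrArg Col_red (h' r)
    simp only [hc, map_sub, map_add, map_mul, Col_red_om, h3, h4, ← Col_red_star] at this
    simp only [Col_red_eq]
    linear_combination this⟩
  exact hfin a b χ (by simpa only [Col_red_eq, map_add, map_mul] using hχ) hP

end Pool.Agent.MP_bc14e1_gt
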