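import Pool.Agent.MP_bc14e1_gt.IfT
import Pool.Agent.MP_bc14e1_gt.IfC

open Set Metric
open scoped Classical

namespace Pool.Agent.MP_bc14e1_gt

section Aux

variable {X X' G Y Y' : Type} [TopologicalSpace X] [TopologicalSpace X'] [Group G]
  [TopologicalSpace Y] [TopologicalSpace Y'] [MulAction G Y] [ContinuousConstSMul G Y]

theorem Comp_chart (e : OpenPartialHomeomorph Y (E 4)) (g : G) :
    ∃ e' : OpenPartialHomeomorph (Y × Y) (E 4 × E 4),
      (∀ z, z ∈ e'.source ↔ z.1 ∈ e.source ∧ g • z.2 ∈ e.source) ∧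
      (∀ z, (e' z).2 = e z.1 - e (g • z.2)) ∧
      (∀ x w, (x, w) ∈ e'.target → x + w ∈ e.target ∧ x ∈ e.target) ∧
      ∀ x w, e'.symm (x, w) = (e.symm (x + w), g⁻¹ • e.symm x) := by
  let A : Y × Y ≃ₜ Y × Y := (Homeomorph.refl Y).prodCongr (Homeomorph.smul g)
  let C : E 4 × E 4 ≃ₜ E 4 × E 4 :=
    { toFun := fun z => (z.2, z.1 - z.2)
      invFun := fun z => (z.1 + z.2, z.1)
      left_inv := fun z => by simp
      right_inv := fun z => by simp
      continuous_toFun := by fun_prop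
      continuous_invFun := by fun_prop }
  refine ⟨(A.toOpenPartialHomeomorph.trans (e.prod e)).trans C.toOpenPartialHomeomorph,
    fun z => ?_, fun z => rfl, fun x w h => ?_, fun x w => rfl⟩
  · simp [A]
  · exact h.2.1

theorem Comp_off {τ : TS (Y × Y) → ℝ} (h : ∀ σ : TS (Y × Y), (∀ t, (σ.2 t).1 ≠ (σ.2 t).2) → τ σ = 0)
    {c : Tot ℝ (Y × Y)} (hc : c ∈ CH ℝ (dia Y)ᶜ) : coevR τ c = 0 := by
  have := map_CH (T := ⊥) (coevR τ) (fun k σ hσ => by
    rw [Submodule.mem_bot, coevR, Finsupp.linearCombination_single, one_smul]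
    exact h _ hσ) hc
  exact this

theorem Comp_fin {τ : TS (Y × Y) → ℝ}
    (h : ∀ σ : TS (Y × Y), (∀ t, (σ.2 t).1 ≠ (σ.2 t).2) → τ σ = 0)
    (hp : ∀ K K' : Set Y, IsCompact K → IsCompact K' → {g : G | ∃ y ∈ K, g • y ∈ K'}.Finite)
    (c : Tot ℝ (Y × Y)) :
    Function.HasFiniteSupport fun g : G => coevR τ (psh ℝ (Prod.map id fun y : Y => g • y) c) := by
  obtain ⟨K, hK, -, hc⟩ := exists_compact_CH (mem_CH_univ c)
  refine (hp _ _ (hK.image continuous_snd) (hK.image continuous_fst)).subset fun g hg => ?_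
  by_contra hn
  refine hg (Comp_off h (psh_mem_CH _ ?_ hc))
  exact fun z hz hd => hn ⟨z.2, ⟨z, hz, rfl⟩, z, hz, hd⟩

/-- The sum of the translates of a cochain. -/
noncomputable def Comp_th (τ : TS (Y × Y) → ℝ) (hf : ∀ c : Tot ℝ (Y × Y),
    Function.HasFiniteSupport fun g : G => coevR τ (psh ℝ (Prod.map id fun y : Y => g • y) c)) :
    Tot ℝ (Y × Y) →ₗ[ℝ] ℝ where
  toFun c := ∑ᶠ g : G, coevR τ (psh ℝ (Prod.map id fun y : Y => g • y) c)
  map_add' a b := by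
    simp only [map_add]
    exact finsum_add_distrib (hf a) (hf b)
  map_smul' r a := by
    simp only [map_smul, smul_eq_mul, RingHom.id_apply]
    exact (mul_finsum _ _).symm

theorem Comp_deg {o' : Orientation4 X'} {p' : Y' → X'} {q : Y → Y'} (hq : IsLocalHomeomorph q)
    {y : Y} {c : Tot ℝ Y} {r : ℝ} (h : LocDeg o' (p' ∘ q) y c r) :
    LocDeg o' p' (q y) (psh ℝ q c) r := by
  obtain ⟨U, hU, hy, hi, hc, hd, b, hb⟩ := h
  refine ⟨q '' U, hq.isOpenMap U hU, ⟨y, hy, rfl⟩, ?_,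
    ⟨psh_mem_CH q (mapsTo_image q U) hc.1, psh_mem_DG q hc.2⟩, ?_, b, ?_⟩
  · rintro _ ⟨a, ha, rfl⟩ _ ⟨a', ha', rfl⟩ e
    rw [hi ha ha' e]
  · rw [dT_psh_cont hq.continuous]
    refine psh_mem_CH q ?_ hd
    exact fun a ha => ⟨⟨a, ha.1, rfl⟩, fun e => ha.2 (hi ha.1 hy (congrArg p' e))⟩
  · rw [psh_psh' _ hq.continuous]
    exact hb

theorem Comp_coevC (τ : TS Y → ℝ) (a : Tot ℝ Y) :
    coevC τ (cast Complex.ofRealHom Y a) = (coevR τ a : ℝ) := by
  induction a using Finsupp.induction_linear with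
  | zero => simp
  | add a b ha hb => simp [ha, hb]
  | single σ a => rw [cast_single]; simp [coevC, coevR]

theorem Comp_split {k : ℕ} {z : Tot ℂ Y} (hz : z ∈ DG ℂ Y k) (hd : dT ℂ Y z = 0) :
    ∃ a ∈ DG ℝ Y k, ∃ b ∈ DG ℝ Y k, dT ℝ Y a = 0 ∧ dT ℝ Y b = 0 ∧
      z = cast Complex.ofRealHom Y a + Complex.I • cast Complex.ofRealHom Y b := by
  have e : z = cast Complex.ofRealHom Y (z.mapRange Complex.re rfl) +
      Complex.I • cast Complex.ofRealHom Y (z.mapRange Complex.im rfl) := by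
    ext σ
    rw [Finsupp.add_apply, Finsupp.smul_apply, cast_apply, cast_apply]
    apply Complex.ext <;> simp
  have h : ∀ σ, dT ℝ Y (z.mapRange Complex.re rfl) σ = 0 ∧
      dT ℝ Y (z.mapRange Complex.im rfl) σ = 0 := by
    intro σ
    have h1 := hd
    rw [e, map_add, map_smul, ← cast_dT, ← cast_dT] at h1
    have h2 := congrArg (fun c : Tot ℂ Y => c σ) h1
    simp only [Finsupp.add_apply, Finsupp.smul_apply, cast_apply] at h2
    exact ⟨by simpa using congrArg Complex.re h2, by simpa using congrArg Complex.im h2⟩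
  refine ⟨_, ?_, _, ?_, Finsupp.ext fun σ => (h σ).1, Finsupp.ext fun σ => (h σ).2, e⟩ <;>
  · refine (Finsupp.mem_supported' ℝ _).2 fun σ hσ => ?_
    rw [Finsupp.mapRange_apply, (Finsupp.mem_supported' ℂ _).1 hz σ hσ]
    rfl

theorem Comp_real [T2Space X'] [ChartedSpace (E 4) X] [T2Space Y] [T2Space Y']
    (hLocCtr : LocCtrStmt) (hLemA : LemAStmt) (hLocDeg : LocDegStmt)
    {o : Orientation4 X} {o' : Orientation4 X'} {p : Y → X}
    {p' : Y' → X'} {q : Y → Y'} {τ : TS (Y × Y) → ℝ} {τ' : TS (Y' × Y') → ℝ}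
    (hp : IsLocalHomeomorph p) (hp' : IsLocalHomeomorph p') (hq : IsLocalHomeomorph q)
    (hdeg : ∀ y c r, LocDeg o' (p' ∘ q) y c r → LocDeg o p y c r)
    (hfree : ∀ (g : G) (y : Y), g • y = y → g = 1)
    (hfib : ∀ y y', q y = q y' ↔ ∃ g : G, y' = g • y)
    (hpr : ∀ K K' : Set Y, IsCompact K → IsCompact K' → {g : G | ∃ y ∈ K, g • y ∈ K'}.Finite)
    (hτ : IsThom o p τ) (hτ' : IsThom o' p' τ') {c : Tot ℝ (Y × Y)} (hc : c ∈ DG ℝ _ 4)
    (hd : dT ℝ _ c = 0) :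
    ∑ᶠ g : G, coevR τ (psh ℝ (Prod.map id fun y : Y => g • y) c) =
      coevR τ' (psh ℝ (Prod.map q q) c) := by
  have hqg : ∀ (g : G) y, q (g • y) = q y := fun g y => ((hfib y _).2 ⟨g, rfl⟩).symm
  have hqc := hq.continuous
  have hT : ∀ g : G, Continuous (Prod.map id fun y : Y => g • y : Y × Y → Y × Y) := fun g =>
    continuous_id.prodMap (continuous_const_smul g)
  let D : Tot ℝ (Y × Y) →ₗ[ℝ] ℝ :=
    Comp_th (G := G) τ (Comp_fin hτ.off hpr) - coevR τ' ∘ₗ psh ℝ (Prod.map q q)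
  have hD : ∀ c, D c = ∑ᶠ g : G, coevR τ (psh ℝ (Prod.map id fun y : Y => g • y) c) -
      coevR τ' (psh ℝ (Prod.map q q) c) := fun _ => rfl
  let S : Set (Y × Y) := {z | q z.1 = q z.2}
  have D1 : ∀ b, D (dT ℝ _ b) = 0 := fun b => by
    rw [hD, ← dT_psh_cont (hqc.prodMap hqc), hτ'.coc, sub_zero]
    exact finsum_eq_zero_of_forall_eq_zero fun g => by rw [← dT_psh_cont (hT g), hτ.coc]
  have D2 : ∀ b ∈ CH ℝ Sᶜ, D b = 0 := fun b hb => by
    rw [hD, Comp_off hτ'.off (psh_mem_CH (Prod.map q q) (fun z hz => hz) hb), sub_zero]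
    refine finsum_eq_zero_of_forall_eq_zero fun g => Comp_off hτ.off (psh_mem_CH _ ?_ hb)
    exact fun z hz h => hz ((congrArg q h).trans (hqg g z.2))
  have D3 : ∀ U, IsOpen U → InjOn (p' ∘ q) U → ∀ y ∈ U, ∀ g : G, ∀ b ∈ CC ℝ U 4,
      dT ℝ Y b ∈ CH ℝ {y}ᶜ → D (psh ℝ (fun a => (a, g⁻¹ • y)) b) = 0 := by
    intro U hU hi y hy g b hb hdb
    obtain ⟨r, hr⟩ := (hLocDeg X' Y o' (p' ∘ q) (hp'.comp hq) y).1 U hU hy hi b hb hdb
    have hc1 : Continuous fun a : Y => (a, g⁻¹ • y) := by fun_prop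
    rw [hD, finsum_eq_single _ g, psh_psh' _ hc1, psh_psh' _ hc1]
    · have e1 : (Prod.map id fun y : Y => g • y) ∘ (fun a : Y => (a, g⁻¹ • y)) =
          fun a => (a, y) := by
        funext a; simp
      have e2 : Prod.map q q ∘ (fun a : Y => (a, g⁻¹ • y)) = (fun a => (a, q y)) ∘ q := by
        funext a; simp [hqg]
      rw [e1, e2, ← psh_psh' _ hqc, hτ.one y b r (hdeg _ _ _ hr), hτ'.one _ _ r (Comp_deg hq hr),
        sub_self]
    · intro g' hg'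
      rw [psh_psh' _ hc1]
      refine Comp_off hτ.off (psh_mem_CH _ ?_ hb.1)
      refine fun a ha h => hg' ?_
      have h1 : a = g' • g⁻¹ • y := h
      have h2 : a = y := hi ha hy (congrArg p' (by rw [h1, hqg, hqg]))
      rw [h2, ← mul_smul] at h1
      exact mul_inv_eq_one.1 (hfree _ _ h1.symm)
  let 𝒜 : Set (OpenPartialHomeomorph (Y × Y) (E 4 × E 4)) := {e' |
    ∃ (e : OpenPartialHomeomorph Y (E 4)) (g : G), InjOn (p' ∘ q) e.source ∧
      (∀ z, z ∈ e'.source ↔ z.1 ∈ e.source ∧ g • z.2 ∈ e.source) ∧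
      (∀ z, (e' z).2 = e z.1 - e (g • z.2)) ∧
      (∀ x w, (x, w) ∈ e'.target → x + w ∈ e.target ∧ x ∈ e.target) ∧
      ∀ x w, e'.symm (x, w) = (e.symm (x + w), g⁻¹ • e.symm x)}
  obtain ⟨c', hc', b, -, hb⟩ := (hLemA ℝ (Y × Y) (E 4) (E 4) S 𝒜
    (isClosed_eq (hqc.comp continuous_fst) (hqc.comp continuous_snd)) (by
      rintro e' ⟨e, g, hi, h1, h2, -, -⟩ z hz
      obtain ⟨ha, hb⟩ := (h1 z).1 hz
      rw [h2, sub_eq_zero]
      constructor
      · intro h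
        rw [hi ha hb (congrArg p' (h.trans (hqg g z.2).symm))]
      · intro h
        exact (congrArg q (e.injOn ha hb h)).trans (hqg g z.2)) (by
      intro z hz
      obtain ⟨g, hg⟩ := (hfib _ _).1 (Eq.symm hz)
      obtain ⟨W, hW, hzW, hi⟩ := (hp'.comp hq).isLocallyInjective z.1
      obtain ⟨⟨e, he, heW, -⟩, -⟩ := hLocCtr X Y p hp z.1 W (hW.mem_nhds hzW)
      obtain ⟨e', h⟩ := Comp_chart e g
      exact ⟨e', ⟨e, g, hi.mono heW, h⟩, (h.1 z).2 ⟨he, hg ▸ he⟩⟩)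
    univ isOpen_univ 4 c ⟨mem_CH_univ c, hc⟩ (by rw [hd]; exact zero_mem _)).2 (by simp)
  have h1 : D c' = 0 := by
    refine (Submodule.span_le (p := LinearMap.ker D)).2 ?_ hc'
    rintro _ ⟨e', ⟨e, g, hi, -, -, h3, h4⟩, x, ρ, hw, c₀, hc₀, hd₀, rfl⟩
    rw [SetLike.mem_coe, LinearMap.mem_ker]
    rcases le_or_gt ρ 0 with hρ | hρ
    · have : c₀ = 0 := eq_zero_of_mem_CH_empty (by rw [← ball_eq_empty.2 hρ]; exact hc₀.1)
      rw [this, map_zero, map_zero]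
    have hx : x ∈ e.target := (h3 x 0 (hw 0 (mem_ball_self hρ)).1).2
    have hm : MapsTo (fun w => x + w) (ball 0 ρ) e.target := fun w h => (h3 x w (hw w h).1).1
    have hcont : ContinuousOn (fun w => e.symm (x + w)) (ball 0 ρ) :=
      e.continuousOn_symm.comp (by fun_prop) hm
    have e1 : (fun w => e'.symm (x, w)) =
        (fun a => (a, g⁻¹ • e.symm x)) ∘ fun w => e.symm (x + w) := funext fun w => h4 x w
    rw [e1, ← psh_psh _ hcont hc₀.1]
    refine D3 e.source e.open_source hi _ (e.map_target hx) g _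
      ⟨psh_mem_CH _ (fun w h => e.map_target (hm h)) hc₀.1, psh_mem_DG _ hc₀.2⟩ ?_
    rw [dT_psh hcont hc₀.1]
    have h5 : dT ℝ _ c₀ ∈ CH ℝ (ball (0 : E 4) ρ ∩ {0}ᶜ) := by
      rw [CH_inter]; exact ⟨dT_mem_CH hc₀.1, hd₀⟩
    refine psh_mem_CH _ (fun w h h' => h.2 ?_) h5
    have := e.symm.injOn (hm h.1) hx h'
    simpa using this
  have h2 := D2 _ hb
  rw [map_sub, map_sub, h1, D1, sub_zero, sub_zero, hD] at h2
  exact sub_eq_zero.1 h2

end Aux

theorem comp_stmt (B : Bas1) (hLocCtr : LocCtrStmt)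
    (hLemA : LemAStmt) (hLocDeg : LocDegStmt) (hPairA : PairAStmt) : CompStmt := by
  intro κ X X' G Y Y' _ _ _ _ _ _ _ _ _ _ _ _ _ o o' p p' q τ τ' hp hp' hq _ hdeg hfree hfib hpr
    hτ hτ' u hu v hv
  have hdu : dT ℂ Y u = 0 := hu.2
  have hdv : dT ℂ Y v = 0 := hv.2
  have hs : sgn ℂ Y sgc u = sgc 2 • u := sgn_of_DG _ hu.1.2
  obtain ⟨a, ha, b, hb, hda, hdb, e⟩ := Comp_split (k := 4)
    (z := κ.cx ℂ Y Y (sgn ℂ Y sgc u) (cjT Y v))
    (κ.dg ℂ Y Y 2 2 _ (by rw [hs]; exact zsmul_mem hu.1.2 _) _ (cast_mem_DG _ hv.1.2)) (by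
      rw [κ.leib, ← cast_dT, hdv, hs, map_zsmul, hdu]; simp)
  have h1 : ∀ g : G, beta κ τ u (gs ℂ Y g v) =
      (coevR τ (psh ℝ (Prod.map id fun y : Y => g • y) a) : ℝ) +
        Complex.I * (coevR τ (psh ℝ (Prod.map id fun y : Y => g • y) b) : ℝ) := by
    intro g
    have := κ.nat ℂ Y Y Y Y id (fun y : Y => g • y) univ univ continuousOn_id
      (continuous_const_smul g).continuousOn (sgn ℂ Y sgc u) (mem_CH_univ _) (cjT Y v)
      (mem_CH_univ _)
    rw [psh_id, ← cast_psh, e, map_add, map_smul, ← cast_psh, ← cast_psh] at this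
    change coevC τ (κ.cx ℂ Y Y (sgn ℂ Y sgc u) (cjT Y (psh ℂ (fun y : Y => g • y) v))) = _
    rw [← this, map_add, map_smul, Comp_coevC, Comp_coevC, smul_eq_mul]
  have h2 : beta κ τ' (psh ℂ q u) (psh ℂ q v) = (coevR τ' (psh ℝ (Prod.map q q) a) : ℝ) +
      Complex.I * (coevR τ' (psh ℝ (Prod.map q q) b) : ℝ) := by
    have := κ.nat ℂ Y Y Y' Y' q q univ univ hq.continuous.continuousOn hq.continuous.continuousOn
      (sgn ℂ Y sgc u) (mem_CH_univ _) (cjT Y v) (mem_CH_univ _)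
    rw [← cast_psh, e, map_add, map_smul, ← cast_psh, ← cast_psh, hs, map_zsmul,
      ← sgn_of_DG _ (psh_mem_DG q hu.1.2)] at this
    change coevC τ' (κ.cx ℂ Y' Y' (sgn ℂ Y' sgc (psh ℂ q u)) (cjT Y' (psh ℂ q v))) = _
    rw [← this, map_add, map_smul, Comp_coevC, Comp_coevC, smul_eq_mul]
  have hf : ∀ c, Function.HasFiniteSupport fun g : G =>
      ((coevR τ (psh ℝ (Prod.map id fun y : Y => g • y) c) : ℝ) : ℂ) := fun c =>
    (Comp_fin hτ.off hpr c).subset fun g hg h => hg (by simp only [h, Complex.ofReal_zero])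
  have h3 : ∀ c : Tot ℝ (Y × Y),
      ∑ᶠ g : G, ((coevR τ (psh ℝ (Prod.map id fun y : Y => g • y) c) : ℝ) : ℂ) =
        ((∑ᶠ g : G, coevR τ (psh ℝ (Prod.map id fun y : Y => g • y) c) : ℝ) : ℂ) := fun c =>
    (map_finsum Complex.ofRealHom (Comp_fin hτ.off hpr c)).symm
  rw [h2, ← Comp_real hLocCtr hLemA hLocDeg hp hp' hq hdeg hfree hfib hpr hτ hτ' ha hda,
    ← Comp_real hLocCtr hLemA hLocDeg hp hp' hq hdeg hfree hfib hpr hτ hτ' hb hdb, ← h3, ← h3,
    mul_finsum, ← finsum_add_distrib (hf a)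
      ((hf b).subset fun g hg h => hg (by simp only [h, mul_zero]))]
  exact finsum_congr h1

end Pool.Agent.MP_bc14e1_gt
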