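import Pool.Agent.MP_bc14e1_gt.If

open Set Metric
open scoped Classical

namespace Pool.Agent.MP_bc14e1_gt

section
open Topology Filter

variable {G X Y : Type} [Group G] [TopologicalSpace X] [TopologicalSpace Y] [MulAction G Y]
  [ContinuousConstSMul G Y] {Z : Set X} {p : Y → X}

/-- A local section through a given point. -/
theorem Cov_sec (h : GCov G Z p) (y : Y) : ∃ (U : Set X) (σ : X → Y), IsOpen U ∧ p y ∈ U ∧
    ContinuousOn σ U ∧ (∀ x ∈ U, p (σ x) = x) ∧ IsOpen (σ '' U) ∧ σ (p y) = y := by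
  obtain ⟨U, h1, h2, -, σ, h3, h4, h5⟩ := h.sec _ (h.mem y)
  obtain ⟨g, hg⟩ := h.trans _ y (h4 _ h2)
  refine ⟨U, fun x => g • σ x, h1, h2, h3.const_smul g, fun x hx => by rw [h.inv, h4 x hx], ?_,
    hg.symm⟩
  rw [← image_image (g • ·) σ]
  exact isOpenMap_smul g _ h5

theorem Cov_loc (h : GCov G Z p) : IsLocalHomeomorph p := fun y => by
  obtain ⟨U, σ, h1, h2, h3, h4, h5, h6⟩ := Cov_sec h y
  refine ⟨⟨⟨⟨p, σ, σ '' U, U, ?_, fun x hx => mem_image_of_mem σ hx, ?_, h4⟩,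
    h.cont.continuousOn, h3⟩, h5, h1⟩, ⟨_, h2, h6⟩, rfl⟩
  · rintro _ ⟨x, hx, rfl⟩
    rwa [h4 x hx]
  · rintro _ ⟨x, hx, rfl⟩
    rw [h4 x hx]

/-- A neighbourhood that is disjoint from its translates. -/
theorem Cov_nhds (h : GCov G Z p) (y : Y) :
    ∃ V ∈ 𝓝 y, ∀ g : G, ∀ a ∈ V, g • a ∈ V → g = 1 := by
  obtain ⟨U, σ, -, h2, -, h4, h5, h6⟩ := Cov_sec h y
  refine ⟨σ '' U, h5.mem_nhds ⟨_, h2, h6⟩, ?_⟩
  rintro g _ ⟨x, hx, rfl⟩ ⟨x', hx', e⟩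
  have : x' = x := by rw [← h4 x' hx', e, h.inv, h4 x hx]
  exact h.free g _ (by rw [← e, this])

omit [ContinuousConstSMul G Y] in
theorem Cov_surj (h : GCov G Z p) (x : X) (hx : x ∈ Z) : ∃ y, p y = x :=
  let ⟨_, _, h2, _, σ, _, h4, _⟩ := h.sec x hx; ⟨σ x, h4 x h2⟩

theorem Cov_cov (h : GCov G Z p) : IsCoveringMap fun y => (⟨p y, h.mem y⟩ : Z) := by
  refine IsQuotientCoveringMap.isCoveringMap _ G
    { toIsQuotientMap := ((Cov_loc h).isOpenMap.subtype_mk h.mem).isQuotientMap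
        (h.cont.subtype_mk h.mem) fun x => (Cov_surj h x x.2).imp fun _ e => Subtype.ext e
      continuous_const_smul := continuous_const_smul
      apply_eq_iff_mem_orbit := fun {a b} => ⟨fun e => ?_, ?_⟩
      disjoint := fun y => ?_ }
  · obtain ⟨g, hg⟩ := h.trans b a (congrArg Subtype.val e).symm
    exact ⟨g, hg.symm⟩
  · rintro ⟨g, rfl⟩
    exact Subtype.ext (h.inv g b)
  · obtain ⟨V, h1, h2⟩ := Cov_nhds h y
    refine ⟨V, h1, ?_⟩
    rintro g ⟨_, ⟨a, ha, rfl⟩, hb⟩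
    exact h2 g a ha hb

theorem Cov_t2 [T2Space X] (h : GCov G Z p) : T2Space Y := ⟨fun a b hab => by
  by_cases e : p a = p b
  · exact (Cov_cov h).isSeparatedMap a b (Subtype.ext e) hab
  · exact separated_by_continuous h.cont e⟩

theorem Cov_fin [T2Space X] (h : GCov G Z p) {S : Set (Y × Y)} (hS : IsCompact S) :
    {g : G | ∃ q ∈ S, g • q.1 = q.2}.Finite := by
  refine hS.induction_on (p := fun S => {g : G | ∃ q ∈ S, g • q.1 = q.2}.Finite) (by simp)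
    (fun A B hAB hB => hB.subset fun g ⟨q, h1, h2⟩ => ⟨q, hAB h1, h2⟩)
    (fun A B hA hB => (hA.union hB).subset ?_) ?_
  · rintro g ⟨q, h1 | h1, h2⟩
    exacts [.inl ⟨q, h1, h2⟩, .inr ⟨q, h1, h2⟩]
  · rintro ⟨a, b⟩ -
    by_cases e : p a = p b
    · obtain ⟨g, rfl⟩ := h.trans a b e
      obtain ⟨V, h1, h2⟩ := Cov_nhds h a
      refine ⟨V ×ˢ ((g⁻¹ • ·) ⁻¹' V), mem_nhdsWithin_of_mem_nhds (prod_mem_nhds h1
        ((continuous_const_smul g⁻¹).continuousAt.preimage_mem_nhds (by rwa [inv_smul_smul]))),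
        (finite_singleton g).subset ?_⟩
      rintro k ⟨q, ⟨q1, q2⟩, q3⟩
      exact (inv_mul_eq_one.1 (h2 (g⁻¹ * k) q.1 q1 (by rwa [mul_smul, q3]))).symm
    · refine ⟨{q | p q.1 ≠ p q.2}, mem_nhdsWithin_of_mem_nhds ((isOpen_ne_fun
        (h.cont.comp continuous_fst) (h.cont.comp continuous_snd)).mem_nhds e),
        finite_empty.subset ?_⟩
      rintro k ⟨q, q1, q2⟩
      exact q1 (by rw [← q2, h.inv])

end

theorem cov_stmt : CovStmt := by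
  intro G X Y _ _ _ _ _ Z p h
  have hZ : IsOpen Z := isOpen_iff_forall_mem_open.2 fun x hx =>
    let ⟨U, h1, h2, h3, _⟩ := h.sec x hx; ⟨U, h3, h1, h2⟩
  refine ⟨hZ, Cov_loc h, .of_isCoveringMap_subtype hZ h.mem (Cov_cov h), Cov_surj h,
    fun _ => ⟨Cov_t2 h, fun K K' hK hK' => (Cov_fin h (hK.prod hK')).subset ?_⟩⟩
  rintro g ⟨y, h1, h2⟩
  exact ⟨(y, g • y), ⟨h1, h2⟩, rfl⟩

end Pool.Agent.MP_bc14e1_gt
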