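import Pool.Agent.MP_bc14e1_gt.If

open Set Metric
open scoped Classical

namespace Pool.Agent.MP_bc14e1_gt

section
variable {R : Type} [CommRing R] {X : Type} [TopologicalSpace X]

theorem Ctr_dT (x : X) (k : ℕ) (r : R) :
    dT R X (Finsupp.single ⟨k + 1, ContinuousMap.const _ x⟩ r) =
      if Even (k + 2) then 0 else Finsupp.single ⟨k, ContinuousMap.const _ x⟩ r := by
  have e : ∀ i : Fin (k + 2), face i (ContinuousMap.const _ x : Sing X (k + 1)) =
      ContinuousMap.const _ x := fun _ => rfl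
  rw [← inc_single, dT_inc_succ, bd_single]
  simp only [e]
  rw [← Finset.sum_smul, Fin.sum_neg_one_pow, map_zsmul, inc_single]
  split_ifs <;> simp

theorem Ctr_psh (x : X) {k : ℕ} {c : Tot R X} (h : c ∈ DG R X k) :
    ∃ r : R, psh R (fun _ => x) c = Finsupp.single ⟨k, ContinuousMap.const _ x⟩ r := by
  refine supported_ind (P := fun c => ∃ r : R,
    psh R (fun _ => x) c = Finsupp.single ⟨k, ContinuousMap.const _ x⟩ r) ⟨0, by simp⟩ ?_ ?_ h
  · rintro a b ⟨r, hr⟩ ⟨s, hs⟩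
    exact ⟨r + s, by rw [map_add, hr, hs, Finsupp.single_add]⟩
  · rintro σ rfl a
    exact ⟨a, psh_single _ σ continuous_const a⟩

theorem Ctr_bd {A : Set X} {x : X} (hx : x ∈ A) (k : ℕ) (r : R)
    (h : dT R X (Finsupp.single ⟨k + 1, ContinuousMap.const _ x⟩ r) = 0) :
    (Finsupp.single ⟨k + 1, ContinuousMap.const _ x⟩ r : Tot R X) ∈ BC R A (k + 1) := by
  by_cases hk : Even (k + 2)
  · refine ⟨Finsupp.single ⟨k + 1 + 1, ContinuousMap.const _ x⟩ r,
      ⟨single_mem_CH _ fun _ => hx, single_mem_DG _ _⟩, ?_⟩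
    rw [Ctr_dT, if_neg (Nat.even_add_one.not.2 (not_not.2 hk))]
  · rw [Ctr_dT, if_neg hk, Finsupp.single_eq_zero] at h
    rw [h, Finsupp.single_zero]
    exact zero_mem _

theorem Ctr_hom (κ : Kit) {A : Set X} {x : X} (h : Ctr A x) {k : ℕ} {c : Tot R X}
    (hc : c ∈ CC R A k) (hd : dT R X c = 0) : psh R (fun _ => x) c - c ∈ BC R A k := by
  obtain ⟨-, H, h1, h2, h3, h4⟩ := h
  have := dT_hop κ h1 hc.1
  rw [hd, map_zero, add_zero, psh_of_eqOn_id h3 hc.1,
    psh_congr (g := fun _ => x) (fun y hy => h4 y hy) hc.1] at this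
  exact ⟨_, ⟨hop_mem_CH κ H h2 hc.1, hop_mem_DG κ H hc.2⟩, this⟩

end

theorem ctr_stmt (κ : Kit) : CtrStmt := by
  intro R _ X _ A x h
  refine ⟨fun k hk z hz => ?_, fun c hc => ?_⟩
  · obtain ⟨k, rfl⟩ := Nat.exists_eq_succ_of_ne_zero hk
    have hd : dT R X z = 0 := hz.2
    obtain ⟨r, hr⟩ := Ctr_psh x hz.1.2
    have h1 := Ctr_bd h.1 k r (by rw [← hr, dT_psh_cont continuous_const, hd, map_zero])
    have h2 := sub_mem (hr ▸ h1) (Ctr_hom κ h hz.1 hd)
    rwa [sub_sub_cancel] at h2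
  · have e : psh R (fun _ => x) c = val0 R (fun _ => (1 : R)) c • pt R x := by
      refine DG_zero_ind (P := fun c => psh R (fun _ => x) c =
        val0 R (fun _ => (1 : R)) c • pt R x) (by simp) (fun a b ha hb => ?_) (fun y _ a => ?_)
        hc.1 hc.2
      · rw [map_add, map_add, ha, hb, add_smul]
      · rw [map_smul, map_smul, psh_pt, val0_pt, smul_eq_mul, mul_one]
    have := neg_mem (Ctr_hom κ h hc (dT_of_DG_zero hc.2))
    rwa [neg_sub, e] at this

end Pool.Agent.MP_bc14e1_gt
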