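import Pool.Agent.MP_bc14e1_gt.IfD

open Set Metric
open scoped Classical

namespace Pool.Agent.MP_bc14e1_gt

section Tr

variable {W X : Type} [TopologicalSpace W] [TopologicalSpace X] (i : OpenPartialHomeomorph W X)

theorem Dbl_zc {k : ℕ} {A : Set W} {B : Set X} (hA : A ⊆ i.source) (hAB : MapsTo i A B)
    {z : Tot ℤ W} (hz : z ∈ ZC ℤ A k) : psh ℤ i z ∈ ZC ℤ B k := by
  refine ⟨⟨psh_mem_CH _ hAB hz.1.1, psh_mem_DG _ hz.1.2⟩, ?_⟩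
  have h : dT ℤ W z = 0 := hz.2
  change dT ℤ X (psh ℤ i z) = 0
  rw [dT_psh (i.continuousOn.mono hA) hz.1.1, h, map_zero]

theorem Dbl_bc {k : ℕ} {z : Tot ℤ W} (hz : z ∈ BC ℤ i.source k) :
    psh ℤ i z ∈ BC ℤ i.target k := by
  obtain ⟨b, hb, rfl⟩ := hz
  exact ⟨psh ℤ i b, ⟨psh_mem_CH _ i.mapsTo hb.1, psh_mem_DG _ hb.2⟩,
    dT_psh i.continuousOn hb.1⟩

theorem Dbl_inv {z : Tot ℤ X} (hz : z ∈ CH ℤ i.target) : psh ℤ i (psh ℤ i.symm z) = z := by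
  rw [psh_psh _ i.continuousOn_symm hz]
  exact psh_of_eqOn_id (fun x hx => i.right_inv hx) hz

end Tr

theorem dbl_stmt (hGlue : GlueStmt) (hGTop : GTopStmt) (hGMan : GManStmt) (hGOri : GOriStmt)
    (hFlatW : FlatWStmt) (hDiscW : DiscWStmt) (hHomW : HomWStmt) (hGNum : GNumStmt) : DblStmt := by
  intro κ K ι hK hι hdet hιK hZ
  obtain ⟨Z⟩ := hZ.zd
  obtain ⟨Γ⟩ := hGlue K ι Z hι
  have T := hGTop K ι Z Γ hK hι hιK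
  have := T.t2
  have := T.cpt
  obtain ⟨ch, mf⟩ := hGMan K ι Z Γ
  obtain ⟨o', hoI, hoc⟩ := hGOri K ι Z Γ T.t2 hι hdet
  obtain ⟨δ, δc, δi, δ0, δ1⟩ := hDiscW K Z hK
  obtain ⟨c0, c1, c2⟩ := hHomW K Z
  obtain ⟨e, e1, e2, e3, e4, e5⟩ := T.emb
  have hsrc := Γ.src
  rw [← hsrc] at c0 c1 c2
  have fl1 : ∀ x ∈ Γ.F, x ∈ Γ.i.target → ∃ c, FlatCh Γ.F c ∧ x ∈ c.source := by
    intro x hx hx'
    have h1 : ∀ y ∈ Γ.i.target, y ∈ Γ.F ↔ Γ.i.symm y ∈ Z.FW := fun y hy => by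
      rw [← T.Fi _ (hsrc ▸ Γ.i.map_target hy), Γ.i.right_inv hy]
    obtain ⟨c, hc, hxc⟩ := hFlatW K Z hK _ ((h1 x hx').1 hx)
    exact ⟨Γ.i.symm.trans c, fun y hy => (h1 y hy.1).trans (hc _ hy.2), hx', hxc⟩
  have fl : Flat Γ.F := by
    refine ⟨T.cl, fun x hx => ?_⟩
    rcases Γ.cover x with h | h
    · exact fl1 x hx h
    · obtain ⟨c, hc, hxc⟩ := fl1 _ ((T.IF x).2 hx) h
      exact ⟨Γ.I.toOpenPartialHomeomorph.trans c,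
        fun y hy => (T.IF y).symm.trans (hc _ hy.2), trivial, hxc⟩
  have im : ∀ J : Set ℝ, J ⊆ Iio 1 → Γ.i '' (Z.FW ∩ Z.hW ⁻¹' J) = Γ.F ∩ Γ.h ⁻¹' J := by
    intro J hJ
    ext x
    constructor
    · rintro ⟨w, ⟨h1, h2⟩, rfl⟩
      refine ⟨(T.Fi w (T.sub h1)).2 h1, ?_⟩
      rwa [mem_preimage, T.hi w (T.sub h1)]
    · rintro ⟨h1, h2⟩
      have h3 : x ∈ Γ.i.target := T.tgt ▸ hJ h2
      have h4 : Γ.i.symm x ∈ Z.U1 := hsrc ▸ Γ.i.map_target h3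
      refine ⟨Γ.i.symm x, ⟨(T.Fi _ h4).1 (by rwa [Γ.i.right_inv h3]), ?_⟩, Γ.i.right_inv h3⟩
      rw [mem_preimage, ← T.hi _ h4, Γ.i.right_inv h3]
      exact h2
  have δm : MapsTo δ (closedBall 0 1) Γ.i.source := fun u hu => by
    have : δ u ∈ Z.FW ∩ Z.hW ⁻¹' Iic 0 := δ0 ▸ mem_image_of_mem δ hu
    exact hsrc ▸ T.sub this.1
  have hV : (Z.c.symm '' ball 0 1)ᶜ \ Z.d '' closedBall 0 1 ⊆ Γ.i.source := by
    rintro w ⟨h1, -⟩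
    rw [hsrc]
    exact fun h => h1 (image_mono (closedBall_subset_ball (by norm_num)) h)
  have hS : ∀ j, inc ℤ 2 (Z.S j) ∈
      ZC ℤ ((Z.c.symm '' ball 0 1)ᶜ \ Z.d '' closedBall 0 1) 2 := fun j =>
    ⟨⟨inc_mem_CH.2 (Z.Sm j).1, inc_mem_DG _ _⟩, by
      change dT ℤ _ (inc ℤ (1 + 1) (Z.S j)) = 0
      rw [dT_inc_succ, (Z.Sm j).2, map_zero]⟩
  have hS' : ∀ j, Z.S j ∈ supp ℤ Γ.i.source 2 := fun j =>
    inc_mem_CH.1 (CH_mono hV (hS j).1.1)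
  refine ⟨{
    X := Γ.X, o := o', F := Γ.F, flat := fl, I := Γ.I, II := Γ.II, IF := T.IF, Io := hoI
    h := Γ.h, hc := T.hc, hI := T.hI, emb := e, src := e1, tgt := e2, h_emb := e3, F_emb := e4
    I_emb := e5, δ := Γ.i ∘ δ, δc := Γ.i.continuousOn.comp δc δm, δi := Γ.i.injOn.comp δi δm
    δ0 := ?_, δ1 := ?_, conn := ?_, H1 := ?_, k := Z.k
    S := fun j => psh ℤ Γ.i (inc ℤ 2 (Z.S j)), Sm := fun j => ?_, H2 := ?_, num := ?_ }⟩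
  · rw [image_comp, δ0, im (Iic 0) fun t (ht : t ≤ 0) => lt_of_le_of_lt ht one_pos]
  · rw [image_comp, δ1, im {0} fun t (ht : t = 0) => lt_of_le_of_lt ht.le one_pos]
  · rw [← T.tgt, ← Γ.i.image_source_eq_target]
    exact c0.image' Γ.i.continuousOn
  · rw [← T.tgt]
    intro z hz
    rw [← Dbl_inv Γ.i hz.1.1]
    exact Dbl_bc Γ.i (c1 (Dbl_zc Γ.i.symm subset_rfl Γ.i.symm.mapsTo hz))
  · refine Dbl_zc Γ.i hV (fun w hw => ?_) (hS j)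
    have h1 : w ∈ Z.U1 := hsrc ▸ hV hw
    refine ⟨fun h => ?_, ?_⟩
    · rcases (T.Fi w h1).1 h with h2 | ⟨v, hv, rfl⟩
      · exact hw.2 h2
      · exact hw.1 ⟨v, mem_ball_zero_iff.2 hv.1.2, rfl⟩
    · rw [mem_preimage, T.hi w h1, ZD.hW, if_neg hw.1]
      norm_num
  · rw [← T.tgt]
    intro z hz
    obtain ⟨n, hn⟩ := c2 _ (Dbl_zc Γ.i.symm subset_rfl Γ.i.symm.mapsTo hz)
    have h1 := Dbl_bc Γ.i hn
    rw [map_sub, Dbl_inv Γ.i hz.1.1, map_sum] at h1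
    simp only [map_smul] at h1
    exact ⟨n, h1⟩
  · intro τ hτ j j'
    rw [hGNum κ Z.W Γ.X Z.o o' Γ.i hoc τ hτ _ (hS' j) _ (hS' j') (Z.Sm j).2 (Z.Sm j').2 _
      (Z.num j j')]
    split_ifs <;> simp

end Pool.Agent.MP_bc14e1_gt
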