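import Pool.Agent.MP_bc14e1_gt.P.DehnB

open Set Metric
open scoped Classical

namespace Pool.Agent.MP_bc14e1_gt

section

variable {G X Y Reg Cr : Type} [Group G] [TopologicalSpace X] [TopologicalSpace Y] [MulAction G Y]
  [ContinuousConstSMul G Y] {Z O : Set X} {p : Y → X} {reg : Cr → Fin 4 → Reg}
  {D : DehnData O reg} {σU σL : X → Y} {h : Reg → G} {u v : Y → G} {σ : Cr → X → Y}
  {l : Cr → Y → G} {S : Type} [CommRing S]

/-- The open cover. -/
def Dehn_A (D : DehnData O reg) (p : Y → X) : Bool ⊕ Cr → Set Y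
  | .inl false => p ⁻¹' D.Up
  | .inl true => p ⁻¹' D.Lo
  | .inr c => p ⁻¹' D.B c

theorem Dehn_A_open (D : DehnData O reg) (hp : Continuous p) : ∀ i, IsOpen (Dehn_A D p i)
  | .inl false => D.opU.preimage hp
  | .inl true => D.opL.preimage hp
  | .inr c => (D.opB c).preimage hp

omit [TopologicalSpace Y] in
theorem Dehn_A_union (D : DehnData O reg) (p : Y → X) : ⋃ i, Dehn_A D p i = p ⁻¹' O := by
  ext y
  refine Iff.trans ?_ (Set.ext_iff.1 D.cover (p y))
  simp only [mem_iUnion, Sum.exists, Bool.exists_bool, mem_union]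
  rfl

omit [TopologicalSpace Y] in
theorem Dehn_A_sub (D : DehnData O reg) (p : Y → X) (i : Bool ⊕ Cr) : Dehn_A D p i ⊆ p ⁻¹' O :=
  Dehn_A_union D p ▸ subset_iUnion _ i

theorem Dehn_pair {M : Type} {J : Bool ⊕ Cr → Bool ⊕ Cr → Prop} {f : Bool ⊕ Cr → M}
    (hs : ∀ i j, J i j → J j i) (h0 : ∀ c c', J (.inr c) (.inr c') → c = c')
    (h1 : J (.inl false) (.inl true) → f (.inl false) = f (.inl true))
    (h2 : ∀ b c, J (.inr c) (.inl b) → f (.inr c) = f (.inl b)) : ∀ i j, J i j → f i = f j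
  | .inl false, .inl false, _ => rfl
  | .inl true, .inl true, _ => rfl
  | .inl false, .inl true, e => h1 e
  | .inl true, .inl false, e => (h1 (hs _ _ e)).symm
  | .inl b, .inr c, e => (h2 b c (hs _ _ e)).symm
  | .inr c, .inl b, e => h2 b c e
  | .inr c, .inr c', e => by rw [h0 c c' e]

theorem Dehn_fin {α M : Type} [AddCommGroup M] [Module S M] {W : Submodule S M}
    (F : (α →₀ S) →ₗ[S] M) (hF : ∀ z, F (Finsupp.single z 1) ∈ W) (x : α →₀ S) : F x ∈ W := by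
  induction x using Finsupp.induction_linear with
  | zero => simp
  | add a b ha hb => rw [map_add]; exact add_mem ha hb
  | single z a =>
    rw [← mul_one a, ← smul_eq_mul, ← Finsupp.smul_single, map_smul]
    exact W.smul_mem _ (hF z)

theorem Dehn_pc {M : Type} [AddCommGroup M] [Module S M] {A A' : Set Y} {F F' : Y → M}
    {P : Tot S Y →ₗ[S] M} (h : ∀ c ∈ CH S A, val0 S F (dT S Y c) = P c)
    (h' : ∀ c ∈ CH S A', val0 S F' (dT S Y c) = P c) (y y' : Y) (e : JoinedIn (A ∩ A') y y') :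
    F y - F' y = F y' - F' y' := by
  obtain ⟨γ, hγ⟩ := e
  have h1 := (h _ (pth_mem_CH (γ := γ.toContinuousMap) fun t => (hγ t).1)).trans
    (h' _ (pth_mem_CH (γ := γ.toContinuousMap) fun t => (hγ t).2)).symm
  rw [Dehn_val0_pth, Dehn_val0_pth, Path.coe_toContinuousMap, γ.source, γ.target] at h1
  rw [sub_eq_sub_iff_sub_eq_sub, ← neg_sub, h1, neg_sub]

theorem Dehn_if {P Q : Set X} (hp : Continuous p) (hP : IsOpen P) (hQ : IsOpen Q)
    (hd : Disjoint P Q) {y y' : Y} (e : JoinedIn (p ⁻¹' (P ∪ Q)) y y') : p y ∈ P ↔ p y' ∈ P :=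
  ⟨Dehn_side (hP.preimage hp) (hQ.preimage hp) (hd.preimage p) e,
    Dehn_side (hP.preimage hp) (hQ.preimage hp) (hd.preimage p) e.symm⟩

/-- The potentials. -/
theorem Dehn_Lab.phi (H : Dehn_Lab D p σU σL h u v σ l) (hc : GCov G Z p) :
    ∃ φ : Bool ⊕ Cr → Y → (Reg × G →₀ S),
      (∀ i j x y, JoinedIn (Dehn_A D p i ∩ Dehn_A D p j) x y →
        φ i x - φ j x - (φ i y - φ j y) ∈ LinearMap.range (d2A S reg h)) ∧
      (∀ R y, p y ∈ D.Rg R → φ (.inl false) y - φ (.inl true) y - Finsupp.single (R, u y) 1 ∈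
        LinearMap.range (d2A S reg h)) ∧
      ∀ (M : Type) [AddCommGroup M] [Module S M] (L : (Reg × G →₀ S) →ₗ[S] M)
        (F : Bool ⊕ Cr → Y → M) (P : Tot S Y →ₗ[S] M),
        (∀ i, ∀ c ∈ CH S (Dehn_A D p i), val0 S (F i) (dT S Y c) = P c) →
        (∀ R y, p y ∈ D.Rg R → F (.inl false) y - F (.inl true) y =
          L (Finsupp.single (R, u y) 1)) →
        (∀ c y, p y ∈ D.U1 c → F (.inl false) y - F (.inr c) y = 0) →
        LinearMap.range (d2A S reg h) ≤ LinearMap.ker L ∧ ∀ i j y, y ∈ Dehn_A D p i →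
          y ∈ Dehn_A D p j → F i y - L (φ i y) = F j y - L (φ j y) := by
  have dj : ∀ c c' x, x ∈ D.B c → x ∈ D.B c' → c = c' := fun c c' x h1 h2 =>
    by_contra fun e => disjoint_left.1 (D.djB e) h1 h2
  have dR : ∀ R R' x, x ∈ D.Rg R → x ∈ D.Rg R' → R = R' := fun c c' x h1 h2 =>
    by_contra fun e => disjoint_left.1 (D.djR e) h1 h2
  obtain ⟨α, hα⟩ : ∃ α : Cr → Y → (Reg × G →₀ S), ∀ c y, α c y = if p y ∈ D.U1 c then 0 else
    Finsupp.single (reg c 2, l c y * (h (reg c 1) * (h (reg c 2))⁻¹)) 1 -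
      Finsupp.single (reg c 1, l c y) 1 := ⟨_, fun _ _ => rfl⟩
  obtain ⟨β, hβ⟩ : ∃ β : Cr → Y → (Reg × G →₀ S), ∀ c y, β c y = if p y ∈ D.L1 c then
    -Finsupp.single (reg c 0, l c y) 1 else -Finsupp.single (reg c 1, l c y) 1 :=
    ⟨_, fun _ _ => rfl⟩
  obtain ⟨φU, φL, eU, eL, eR⟩ : ∃ φU φL : Y → (Reg × G →₀ S),
      (∀ c y, p y ∈ D.B c → φU y = α c y) ∧ (∀ c y, p y ∈ D.B c → φL y = β c y) ∧
      ∀ R y, p y ∈ D.Rg R → (¬ ∃ c, p y ∈ D.B c) → φU y - φL y = Finsupp.single (R, u y) 1 := by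
    refine ⟨fun y => if e : ∃ c, p y ∈ D.B c then α e.choose y else
      if e : ∃ R, p y ∈ D.Rg R then Finsupp.single (e.choose, u y) 1 else 0,
      fun y => if e : ∃ c, p y ∈ D.B c then β e.choose y else 0, fun c y hy => ?_,
      fun c y hy => ?_, fun R y hy e => ?_⟩
    · have e : ∃ c, p y ∈ D.B c := ⟨c, hy⟩
      simp only [dif_pos e, dj _ _ _ e.choose_spec hy]
    · have e : ∃ c, p y ∈ D.B c := ⟨c, hy⟩
      simp only [dif_pos e, dj _ _ _ e.choose_spec hy]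
    · have e' : ∃ R, p y ∈ D.Rg R := ⟨R, hy⟩
      simp only [dif_neg e, dif_pos e', dR _ _ _ e'.choose_spec hy, sub_zero]
  have cU : ∀ c x, x ∈ D.B c ∩ D.Up → x ∉ D.U1 c → x ∈ D.U2 c := fun c x h1 h2 =>
    (((D.un c).1.symm ▸ h1 : x ∈ D.U1 c ∪ D.U2 c)).resolve_left h2
  have cL : ∀ c x, x ∈ D.B c ∩ D.Lo → x ∉ D.L1 c → x ∈ D.L2 c := fun c x h1 h2 =>
    (((D.un c).2.symm ▸ h1 : x ∈ D.L1 c ∪ D.L2 c)).resolve_left h2
  have k1 : ∀ R y, p y ∈ D.Rg R →
      φU y - φL y - Finsupp.single (R, u y) 1 ∈ LinearMap.range (d2A S reg h) := by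
    intro R y hy
    by_cases e : ∃ c, p y ∈ D.B c
    swap
    · rw [eR R y hy e, sub_self]
      exact zero_mem _
    obtain ⟨c, e⟩ := e
    rw [eU c y e, eL c y e, hα, hβ]
    have b1 := cU c _ ⟨e, (Dehn_Rg D R hy).1⟩
    have b2 := cL c _ ⟨e, (Dehn_Rg D R hy).2⟩
    split_ifs with a1 a2 a2
    · rw [dR _ _ _ hy ((D.sub c).1 ⟨a1, a2⟩), H.u1 c y a1]
      simp
    · rw [dR _ _ _ hy ((D.sub c).2.1 ⟨a1, b2 a2⟩), H.u1 c y a1]
      simp
    · rw [dR _ _ _ hy ((D.sub c).2.2.2 ⟨b1 a1, a2⟩), H.u2 c y (b1 a1)]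
      refine ⟨Finsupp.single (c, l c y) 1, ?_⟩
      rw [d2A, Finsupp.linearCombination_single, one_smul]
      abel
    · rw [dR _ _ _ hy ((D.sub c).2.2.1 ⟨b1 a1, b2 a2⟩), H.u2 c y (b1 a1)]
      simp
  have eRg : ∀ y, p y ∈ D.Up → p y ∈ D.Lo → ∃ R, p y ∈ D.Rg R := fun y h1 h2 =>
    mem_iUnion.1 (D.unR.symm ▸ (⟨h1, h2⟩ : p y ∈ D.Up ∩ D.Lo))
  refine ⟨Sum.elim (fun b => cond b φL φU) 0, fun i j x y e => ?_, k1,
    fun M _ _ L F P hP hR h0 => ?_⟩
  · rw [sub_sub_sub_comm, ← Submodule.Quotient.eq]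
    refine Dehn_pair (J := fun i j => JoinedIn (Dehn_A D p i ∩ Dehn_A D p j) x y)
      (f := fun i => Submodule.Quotient.mk (Sum.elim (fun b => cond b φL φU) 0 i x -
        Sum.elim (fun b => cond b φL φU) 0 i y)) (fun i j e => inter_comm _ _ ▸ e)
      (fun c c' e => dj c c' _ e.source_mem.1 e.source_mem.2) (fun e => ?_) ?_ i j e
    · obtain ⟨R, hR⟩ := eRg x e.source_mem.1 e.source_mem.2
      have hR' : p y ∈ D.Rg R := by
        refine (Dehn_if hc.cont (D.opR R) (Q := ⋃ R' ∈ ({R}ᶜ : Set Reg), D.Rg R')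
          (isOpen_biUnion fun R' _ => D.opR R')
          (disjoint_iUnion₂_right.2 fun R' e => D.djR (Ne.symm e)) (e.mono fun z hz => ?_)).1 hR
        obtain ⟨R', e⟩ := eRg z hz.1 hz.2
        by_cases e' : R' = R
        exacts [.inl (e' ▸ e), .inr (mem_biUnion e' e)]
      have := sub_mem (k1 R x hR) (k1 R y hR')
      rw [H.sU.lc hc (P := D.Up ∩ D.Lo) inter_subset_left e, sub_sub_sub_cancel_right] at this
      rw [Submodule.Quotient.eq, sub_sub_sub_comm]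
      exact this
    · rintro (_ | _) c e
      · have e' : JoinedIn (p ⁻¹' (D.U1 c ∪ D.U2 c)) x y := (D.un c).1.symm ▸ e
        change Submodule.Quotient.mk (0 - 0) = Submodule.Quotient.mk (φU x - φU y)
        rw [eU c x e.source_mem.1, eU c y e.target_mem.1, hα, hα, sub_self,
          (H.sB c).lc hc (P := D.B c ∩ D.Up) inter_subset_left e,
          Dehn_if hc.cont (D.op c).1 (D.op c).2.1 (D.dj c).1 e', sub_self]
      · have e' : JoinedIn (p ⁻¹' (D.L1 c ∪ D.L2 c)) x y := (D.un c).2.symm ▸ e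
        change Submodule.Quotient.mk (0 - 0) = Submodule.Quotient.mk (φL x - φL y)
        rw [eL c x e.source_mem.1, eL c y e.target_mem.1, hβ, hβ, sub_self,
          (H.sB c).lc hc (P := D.B c ∩ D.Lo) inter_subset_left e,
          Dehn_if hc.cont (D.op c).2.2.1 (D.op c).2.2.2 (D.dj c).2 e', sub_self]
  have q := fun c => H.quad hc c (fun y => F (.inl false) y - F (.inr c) y)
    (fun y => F (.inl true) y - F (.inr c) y) (fun z => L (Finsupp.single z 1))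
    (fun R y hy => by rw [sub_sub_sub_cancel_right, hR R y hy])
    (fun y y' e => Dehn_pc (hP (.inl false)) (hP (.inr c)) y y' (inter_comm _ _ ▸ e))
    (fun y y' e => Dehn_pc (hP (.inl true)) (hP (.inr c)) y y' (inter_comm _ _ ▸ e)) (h0 c)
  have hL : LinearMap.range (d2A S reg h) ≤ LinearMap.ker L := by
    rintro _ ⟨x, rfl⟩
    refine Dehn_fin _ (fun z => ?_) x
    rw [LinearMap.mem_ker, d2A, Finsupp.linearCombination_single, one_smul, map_sub, map_add,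
      map_sub]
    exact (q z.1).2.2.2 z.2
  refine ⟨hL, fun i j y hi hj => Dehn_pair (J := fun i j => y ∈ Dehn_A D p i ∧ y ∈ Dehn_A D p j)
    (f := fun i => F i y - L (Sum.elim (fun b => cond b φL φU) 0 i y)) (fun _ _ => And.symm)
    (fun c c' e => dj c c' _ e.1 e.2) (fun e => ?_) ?_ i j ⟨hi, hj⟩⟩
  · obtain ⟨R, e'⟩ := eRg y e.1 e.2
    have a1 : L _ = 0 := hL (k1 R y e')
    rw [map_sub, map_sub, ← hR R y e', sub_eq_zero] at a1
    exact sub_eq_sub_iff_sub_eq_sub.1 a1.symm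
  · rintro (_ | _) c e
    · change F _ y - L 0 = F _ y - L (φU y)
      rw [map_zero, sub_zero, eq_sub_iff_add_eq', ← eq_sub_iff_add_eq, eU c y e.1, hα]
      split_ifs with a1
      · rw [h0 c y a1, map_zero]
      · rw [map_sub]
        exact ((q c).2.2.1 y (cU c _ e a1)).symm
    · change F _ y - L 0 = F _ y - L (φL y)
      rw [map_zero, sub_zero, eq_sub_iff_add_eq', ← eq_sub_iff_add_eq, eL c y e.1, hβ]
      split_ifs with a1
      · rw [map_neg]
        exact ((q c).1 y a1).symm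
      · rw [map_neg]
        exact ((q c).2.1 y (cL c _ e a1)).symm

/-- The lifted paths. -/
theorem Dehn_Lab.ell (H : Dehn_Lab D p σU σL h u v σ l) (hc : GCov G Z p) :
    ∃ γ δ : Reg × G → C(unitInterval, Y), (∀ z t, γ z t ∈ Dehn_A D p (.inl false)) ∧
      (∀ z t, δ z t ∈ Dehn_A D p (.inl true)) ∧ (∀ z, γ z 0 = z.2 • σU D.n) ∧
      (∀ z, γ z 1 = z.2 • σU (D.r z.1)) ∧ (∀ z, δ z 0 = (z.2 * h z.1) • σL (D.r z.1)) ∧
      (∀ z, δ z 1 = (z.2 * h z.1) • σL D.s) ∧ ∀ (S : Type) [CommRing S] z,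
        ellC S (D.ell σU σL h) (Finsupp.single z 1) = pth S (γ z) + pth S (δ z) := by
  have c1 : ∀ R, Continuous (σU ∘ D.a R) := fun R =>
    H.sU.cont.comp_continuous (D.a R).continuous (D.am R)
  have c2 : ∀ R, Continuous (σL ∘ D.b R) := fun R =>
    H.sL.cont.comp_continuous (D.b R).continuous (D.bm R)
  refine ⟨fun z => ⟨fun t => z.2 • σU (D.a z.1 t), (c1 z.1).const_smul _⟩,
    fun z => ⟨fun t => (z.2 * h z.1) • σL (D.b z.1 t), (c2 z.1).const_smul _⟩,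
    fun z t => ?_, fun z t => ?_, fun z => congrArg (fun x => z.2 • σU x) (D.a0 _),
    fun z => congrArg (fun x => z.2 • σU x) (D.a1 _),
    fun z => congrArg (fun x => (z.2 * h z.1) • σL x) (D.b0 _),
    fun z => congrArg (fun x => (z.2 * h z.1) • σL x) (D.b1 _), fun S _ z => ?_⟩
  · exact ((H.sU.proj hc z.2 (D.am z.1 t)).symm ▸ D.am z.1 t : p (z.2 • σU (D.a z.1 t)) ∈ D.Up)
  · exact ((H.sL.proj hc _ (D.bm z.1 t)).symm ▸ D.bm z.1 t :
      p ((z.2 * h z.1) • σL (D.b z.1 t)) ∈ D.Lo)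
  · rw [ellC, Finsupp.linearCombination_single, one_smul, DehnData.ell, psh_pth _ _ (c1 _),
      psh_pth _ _ (c2 _), map_add, map_add, gs, gs, cast_psh, cast_pth, cast_pth,
      psh_psh' _ (continuous_const_smul _),
      psh_pth _ _ ((continuous_const_smul _).comp (map_continuous _)),
      psh_pth _ _ (((continuous_const_smul _).comp (continuous_const_smul _)).comp
        (map_continuous _))]
    simp only [mul_smul]
    rfl

theorem Dehn_Lab.main (H : Dehn_Lab D p σU σL h u v σ l) (hC : CtrStmt) (hc : GCov G Z p)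
    (hS : DehnSec D p σU σL h) (S : Type) [CommRing S] :
    (∀ z ∈ ZC S (p ⁻¹' O) 1, ∃ x : (Reg × G) →₀ S,
      d1A S h x = 0 ∧ z - ellC S (D.ell σU σL h) x ∈ BC S (p ⁻¹' O) 1) ∧
    (∀ x : (Reg × G) →₀ S, d1A S h x = 0 →
      (ellC S (D.ell σU σL h) x ∈ BC S (p ⁻¹' O) 1 ↔ x ∈ LinearMap.range (d2A S reg h))) ∧
    ∀ g : G, JoinedIn (p ⁻¹' O) (σU D.n) (g • σU D.n) →
      Finsupp.single (false, g) 1 - Finsupp.single (false, 1) 1 ∈ LinearMap.range (d1A S h) := by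
  have hA := Dehn_A_open D hc.cont
  obtain ⟨φ, f1, f2, f3⟩ := H.phi (S := S) hc
  obtain ⟨γ, δ, g1, g2, g3, g4, g5, g6, g7⟩ := H.ell hc
  obtain ⟨Th, t1, t2, t3⟩ := Dehn_cech hA _ φ f1
  have hW : ∀ i, BC S (Dehn_A D p i) 1 ≤ BC S (p ⁻¹' O) 1 := fun i =>
    Submodule.map_mono (inf_le_inf_right _ (CH_mono (Dehn_A_sub D p i)))
  obtain ⟨TU, a1, a2⟩ := H.sU.tail hC hc D.ctU _ (hW (.inl false))
  obtain ⟨TL, a3, a4⟩ := H.sL.tail hC hc D.ctL _ (hW (.inl true))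
  choose TB a5 _ using fun c => (H.sB c).tail hC hc (D.ctB c).choose_spec _ (hW (.inr c))
  choose q0 h0 using fun c => (D.ne c).1
  have e0 : ∀ z : Reg × G, δ z 0 = γ z 1 := fun z => by rw [g4, g5, hS.hol, mul_smul]
  have hP : ∀ i, ∀ c ∈ CH S (Dehn_A D p i), val0 S (Sum.elim (fun b => cond b TL TU)
      (fun c y => TB c y + (TU (l c y • σ c (q0 c)) - TB c (l c y • σ c (q0 c)))) i)
      (dT S Y c) = ((BC S (p ⁻¹' O) 1).mkQ ∘ₗ deg S Y 1) c := by
    rintro ((_ | _) | c) w hw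
    · exact a1 w hw
    · exact a3 w hw
    · refine (Dehn_val0_add _ _ _).trans ?_
      rw [a5 c w hw, Dehn_val0_eq (fun x y e => by rw [(H.sB c).lc hc subset_rfl e]) hw, add_zero]
      rfl
  obtain ⟨b1, b2⟩ := f3 _ ((BC S (p ⁻¹' O) 1).mkQ ∘ₗ ellC S (D.ell σU σL h)) _ _ hP
    (fun R y hy => by
      have c1 := a1 _ (pth_mem_CH (g1 (R, u y)))
      have c2 := a3 _ (pth_mem_CH (g2 (R, u y)))
      rw [Dehn_val0_pth, deg_of_mem (pth_mem_DG _)] at c1 c2
      rw [g3, a2, sub_zero] at c1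
      rw [g6, a4, zero_sub, e0] at c2
      rw [LinearMap.comp_apply, g7, map_add, ← c1, ← c2, g4, ← sub_eq_add_neg]
      exact H.sU.two hc (Dehn_Rg D R) (D.pcR R) (f := fun y => TU y - TL y)
        (Dehn_pc (hP (.inl false)) (hP (.inl true))) hy (D.rm R))
    (fun c y hy => by
      refine (sub_add_eq_sub_sub _ _ _).trans (sub_eq_zero.2 ?_)
      exact (H.sB c).two hc (Dehn_U1 D c) (D.pc c).1 (f := fun y => TU y - TB c y)
        (fun y y' e => Dehn_pc (P := (BC S (p ⁻¹' O) 1).mkQ ∘ₗ deg S Y 1) a1 (a5 c) y y'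
          (inter_comm _ _ ▸ e)) hy (h0 c).1)
  let E : Bool ⊕ Cr → Y → (Bool × G →₀ S) := Sum.elim
    (fun b y => Finsupp.single (b, cond b v u y) 1) fun c y => Finsupp.single (false, l c y) 1
  have hE : ∀ i x y, JoinedIn (Dehn_A D p i) x y → E i x = E i y := by
    rintro ((_ | _) | c) x y e
    · exact congrArg (fun g => Finsupp.single (false, g) (1 : S)) (H.sU.lc hc subset_rfl e)
    · exact congrArg (fun g => Finsupp.single (true, g) (1 : S)) (H.sL.lc hc subset_rfl e)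
    · exact congrArg (fun g => Finsupp.single (false, g) (1 : S)) ((H.sB c).lc hc subset_rfl e)
  have hP' : ∀ i, ∀ c ∈ CH S (Dehn_A D p i), val0 S (E i) (dT S Y c) =
      (0 : Tot S Y →ₗ[S] (Bool × G →₀ S)) c := fun i c => Dehn_val0_eq (hE i)
  obtain ⟨b3, b4⟩ := f3 _ (-d1A S h) E _ hP'
    (fun R y hy => by
      rw [LinearMap.neg_apply, d1A, Finsupp.linearCombination_single, one_smul, neg_sub,
        ← H.vR R y hy]
      rfl)
    fun c y hy => sub_eq_zero.2 (congrArg (fun g => Finsupp.single (false, g) (1 : S))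
      (H.u1 c y hy))
  refine ⟨fun z hz => ?_, fun x hx => ⟨?_, fun e => ?_⟩, fun g e => ?_⟩
  · have hd : dT S Y z = 0 := hz.2
    obtain ⟨m, hm⟩ := sdT_small hA (Dehn_A_union D p ▸ hz.1.1)
    have hd' : dT S Y ((sdT S Y ^ m) z) = 0 := by rw [dT_sdT_pow, hd, map_zero]
    refine ⟨Th ((sdT S Y ^ m) z), neg_eq_zero.1 (t3 _ _ _ _ b3 b4 hP' _ (hm m le_rfl) hd'), ?_⟩
    have c1 := t3 _ _ _ _ b1 b2 hP _ (hm m le_rfl) hd'
    rw [LinearMap.comp_apply, LinearMap.comp_apply, deg_of_mem (sdT_pow_mem_DG m hz.1.2)] at c1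
    have c2 := dT_sdHP m z
    rw [hd, map_zero, add_zero] at c2
    have c3 := add_mem (⟨_, ⟨sdHP_mem_CH m hz.1.1, sdHP_mem_DG m hz.1.2⟩, c2⟩ :
      _ ∈ BC S (p ⁻¹' O) 1) ((Submodule.Quotient.eq _).1 c1.symm)
    rwa [sub_add_sub_cancel] at c3
  · rintro ⟨w, hw, e⟩
    have c1 := t2 w (Dehn_A_union D p ▸ hw.1) (e ▸ Dehn_fin _ (fun z => by
      rw [g7]
      exact add_mem (Submodule.mem_iSup_of_mem _ (pth_mem_CH (g1 z)))
        (Submodule.mem_iSup_of_mem _ (pth_mem_CH (g2 z)))) x)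
    have c2 := Dehn_fin (W := LinearMap.range (d2A S reg h))
      (Th ∘ₗ ellC S (D.ell σU σL h) - LinearMap.id - Finsupp.linearCombination S
        (fun z : Bool × G => φ (.inl z.1) (z.2 • cond z.1 (σL D.s) (σU D.n))) ∘ₗ d1A S h)
      (fun z => by
        have d1 := t1 _ _ (pth_mem_CH (g1 z))
        have d2 := t1 _ _ (pth_mem_CH (g2 z))
        have d3 := f2 z.1 (γ z 1) (by
          rw [g4, H.sU.proj hc _ (Dehn_Rg D _ (D.rm _)).1]
          exact D.rm _)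
        rw [Dehn_val0_pth] at d1 d2
        rw [g3] at d1
        rw [g6, e0] at d2
        rw [show u (γ z 1) = z.2 by rw [g4, H.sU.base hc _ (Dehn_Rg D _ (D.rm _)).1]] at d3
        simp only [LinearMap.sub_apply, LinearMap.comp_apply, LinearMap.id_apply, g7, d1A, map_add,
          map_sub, Finsupp.linearCombination_single, one_smul, cond]
        convert add_mem (add_mem d1 d2) d3 using 1
        abel) x
    rw [LinearMap.sub_apply, LinearMap.sub_apply, LinearMap.comp_apply, LinearMap.comp_apply, hx,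
      map_zero, sub_zero, LinearMap.id_apply, ← e] at c2
    simpa using sub_mem c1 c2
  · exact (Submodule.Quotient.mk_eq_zero _).1 (b1 e)
  · have n1 : ∀ g : G, g • σU D.n ∈ Dehn_A D p (.inl false) := fun g =>
      ((H.sU.proj hc g D.ctU.1).symm ▸ D.ctU.1 : p (g • σU D.n) ∈ D.Up)
    rw [← one_smul G (σU D.n), ← mul_smul, mul_one, ← Dehn_A_union] at e
    have c1 := Dehn_const hA (W := LinearMap.range (d1A S h)) E (fun i j y hi hj =>
      ⟨φ j y - φ i y, by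
        rw [sub_eq_sub_iff_sub_eq_sub.1 (b4 i j y hi hj), map_sub, LinearMap.neg_apply,
          LinearMap.neg_apply, neg_sub_neg]⟩) hE (n1 1) (n1 g) e
    simpa only [E, Sum.elim_inl, cond, H.sU.base hc _ D.ctU.1] using c1

end

theorem dehn_stmt (B : Bas1) : DehnStmt := by
  intro G X Y Reg Cr _ _ _ _ _ _ _ _ Z O p reg D σU σL h hc hO hS
  obtain ⟨u, v, σ, l, H⟩ := Dehn_exists B.sec hc hO hS
  obtain ⟨γ, δ, g1, g2, g3, g4, g5, g6, g7⟩ := H.ell hc
  have e1 : ∀ R, D.ell σU σL h R = pth ℤ (γ (R, 1)) + pth ℤ (δ (R, 1)) := fun R => by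
    rw [← g7, ellC, Finsupp.linearCombination_single, one_smul, gs_one]
    exact Finsupp.ext fun _ => rfl
  have hU : ∀ y, p y ∈ D.Up → ∃ g : G, JoinedIn (p ⁻¹' O) y (g • σU D.n) := fun y hy =>
    ⟨_, (H.sU.join hc subset_rfl (Dehn_ctr_pc D.ctU) hy D.ctU.1).mono
      (Dehn_A_sub D p (.inl false))⟩
  refine ⟨fun R => ?_, fun R => ?_, H.hol, fun S _ => (H.main B.ctr hc hS S).1,
    fun S _ => (H.main B.ctr hc hS S).2.1, fun y hy => ?_, (H.main B.ctr hc hS ℤ).2.2⟩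
  · rw [e1]
    exact add_mem ⟨pth_mem_CH fun t => Dehn_A_sub D p _ (g1 _ t), pth_mem_DG _⟩
      ⟨pth_mem_CH fun t => Dehn_A_sub D p _ (g2 _ t), pth_mem_DG _⟩
  · rw [e1, map_add, dT_pth, dT_pth, g3, g4, g5, g6, hS.hol]
    simp only [one_smul, one_mul]
    abel
  · obtain ⟨(_ | _) | c, hi⟩ := mem_iUnion.1 (Dehn_A_union D p ▸ hy)
    · exact hU y hi
    · have R : Reg := Classical.arbitrary _
      have e := Dehn_Rg D R (D.rm R)
      obtain ⟨g, hg⟩ := hU (v y • σL (D.r R)) ((H.sL.proj hc _ e.2).symm ▸ e.1)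
      exact ⟨g, ((H.sL.join hc subset_rfl (Dehn_ctr_pc D.ctL) hi e.2).mono
        (Dehn_A_sub D p (.inl true))).trans hg⟩
    · obtain ⟨x, hx, -⟩ := (D.ne c).1
      have e := Dehn_U1 D c hx
      obtain ⟨g, hg⟩ := hU (l c y • σ c x) (((H.sB c).proj hc _ e.1).symm ▸ e.2)
      exact ⟨g, (((H.sB c).join hc subset_rfl (Dehn_ctr_pc (D.ctB c).choose_spec) hi e.1).mono
        (Dehn_A_sub D p (.inr c))).trans hg⟩

end Pool.Agent.MP_bc14e1_gt
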