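import Pool.Agent.MP_bc14e1_gt.If

open Set Metric
open scoped Classical

namespace Pool.Agent.MP_bc14e1_gt

section Aux

variable {G X Y : Type} [Group G] [TopologicalSpace X] [TopologicalSpace Y] [MulAction G Y]
  [ContinuousConstSMul G Y] {Z : Set X} {p : Y → X}

theorem DehnSym_sheet (h : GCov G Z p) (y : Y) :
    ∃ V, IsOpen V ∧ y ∈ V ∧ InjOn p V := by
  obtain ⟨U, -, hy, -, σ, -, hσ, hV⟩ := h.sec _ (h.mem y)
  obtain ⟨k, hk⟩ := h.trans y (σ (p y)) (hσ _ hy).symm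
  refine ⟨(fun z => k • z) ⁻¹' (σ '' U), hV.preimage (continuous_const_smul k),
    ⟨p y, hy, hk⟩, ?_⟩
  rintro z ⟨u, hu, hz⟩ z' ⟨u', hu', hz'⟩ e
  have h1 : u = p z := by rw [← hσ u hu, hz, h.inv]
  have h2 : u' = p z' := by rw [← hσ u' hu', hz', h.inv]
  have h3 : k • z = k • z' := by
    have hz1 : σ u = k • z := hz
    have hz2 : σ u' = k • z' := hz'
    rw [← hz1, ← hz2, h1, h2, e]
  exact smul_left_cancel k h3

theorem DehnSym_sep (h : GCov G Z p) : IsSeparatedMap p := by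
  intro y y' e hne
  obtain ⟨V, hV, hy, hi⟩ := DehnSym_sheet h y
  obtain ⟨g, rfl⟩ := h.trans y y' e
  refine ⟨V, (fun z => g⁻¹ • z) ⁻¹' V, hV, hV.preimage (continuous_const_smul _), hy,
    by simpa using hy, disjoint_left.2 fun z hz hz' => hne ?_⟩
  have h1 : g⁻¹ • z = z := hi hz' hz (h.inv _ _)
  rw [inv_eq_one.1 (h.free _ _ h1), one_smul]

theorem DehnSym_uniq (h : GCov G Z p) {A : Set X} (hA : IsPreconnected A) {f g : X → Y}
    (hf : ContinuousOn f A) (hg : ContinuousOn g A) (he : ∀ x ∈ A, p (f x) = p (g x)) {x₀ : X}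
    (hx : x₀ ∈ A) {c : G} (hc : f x₀ = c • g x₀) : ∀ x ∈ A, f x = c • g x :=
  (DehnSym_sep h).eqOn_of_comp_eqOn (g₂ := fun x => c • g x) (DehnSym_sheet h) hA hf
    (hg.const_smul c) (fun x hx => (he x hx).trans (h.inv c _).symm) hx hc

theorem DehnSym_pc {A : Set X} {x : X} (h : Ctr A x) : IsPathConnected A := by
  obtain ⟨hx, H, hH, hm, h0, h1⟩ := h
  refine ⟨x, hx, fun y hy => JoinedIn.symm ?_⟩
  refine ⟨⟨⟨fun t => H (t, y), hH.comp_continuous (by fun_prop) fun t => ⟨t.2, hy⟩⟩,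
    h0 y hy, h1 y hy⟩, fun t => hm ⟨t.2, hy⟩⟩

theorem DehnSym_path {A : Set X} (h : IsPathConnected A) {x y : X} (hx : x ∈ A) (hy : y ∈ A) :
    ∃ c ∈ CC ℤ A 1, dT ℤ X c = pt ℤ y - pt ℤ x := by
  obtain ⟨γ, hγ⟩ := h.joinedIn x hx y hy
  refine ⟨pth ℤ γ.toContinuousMap, ⟨pth_mem_CH hγ, pth_mem_DG _⟩, ?_⟩
  rw [dT_pth]
  simp

theorem DehnSym_gs (h : GCov G Z p) {O : Set X} (g : G) {c : Tot ℤ Y}
    (hc : c ∈ BC ℤ (p ⁻¹' O) 1) : gs ℤ Y g c ∈ BC ℤ (p ⁻¹' O) 1 := by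
  obtain ⟨b, hb, rfl⟩ := hc
  exact ⟨gs ℤ Y g b, ⟨gs_mem_CH g (fun y hy => by simpa only [mem_preimage, h.inv] using hy) hb.1,
    gs_mem_DG g hb.2⟩, dT_gs g b⟩

omit [MulAction G Y] [ContinuousConstSMul G Y] in
theorem DehnSym_bc (B : Bas1) {A O : Set X} {x : X} (hA : Ctr A x) (hO : A ⊆ O) {σ : X → Y}
    (hσ : ContinuousOn σ A) (hp : ∀ x ∈ A, p (σ x) = x) {c : Tot ℤ X} (hc : c ∈ CC ℤ A 1)
    (hd : dT ℤ X c = 0) : psh ℤ σ c ∈ BC ℤ (p ⁻¹' O) 1 := by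
  obtain ⟨b, hb, rfl⟩ := (B.ctr ℤ X A x hA).1 1 one_ne_zero ⟨hc, hd⟩
  refine ⟨psh ℤ σ b, ⟨psh_mem_CH σ (fun x hx => ?_) hb.1, psh_mem_DG σ hb.2⟩, dT_psh hσ hb.1⟩
  rw [mem_preimage, hp x hx]
  exact hO hx

omit [ContinuousConstSMul G Y] in
theorem DehnSym_lift {A : Set X} {σ : X → Y} {I : X → X} {J : Y → Y} {a : G}
    (hσ : ContinuousOn σ A) (hI : ContinuousOn I A) (hm : MapsTo I A A)
    (he : ∀ x ∈ A, J (σ x) = a • σ (I x)) {c : Tot ℤ X} (hc : c ∈ CH ℤ A) :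
    psh ℤ J (psh ℤ σ c) = gs ℤ Y a (psh ℤ σ (psh ℤ I c)) := by
  rw [psh_psh J hσ hc, psh_psh σ hI hc, gs, psh_psh _ (hσ.comp hI hm) hc]
  exact psh_congr he hc

theorem DehnSym_J {J : Y → Y} {θ : G →* G} (hJ : Continuous J) (he : ∀ g y, J (g • y) = θ g • J y)
    (g : G) (c : Tot ℤ Y) : psh ℤ J (gs ℤ Y g c) = gs ℤ Y (θ g) (psh ℤ J c) := by
  rw [gs, gs, psh_psh' _ (continuous_const_smul g), psh_psh' _ hJ]
  exact psh_congr (fun y _ => he g y) (mem_CH_univ c)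

omit [MulAction G Y] [ContinuousConstSMul G Y] in
theorem DehnSym_cast (c : Tot ℤ Y) : castZ ℤ Y c = c := by
  ext σ
  rw [cast_apply]
  simp

end Aux

theorem dehnSym_stmt (B : Bas1) : DehnSymStmt := by
  intro G X Y Reg Cr _ _ _ _ _ Z O p reg D σU σL h I ρ J θ hp _ hs hI hJ hpJ hθ
  have hUO : D.Up ⊆ O := (subset_union_left.trans subset_union_left).trans D.cover.subset
  have hLO : D.Lo ⊆ O := (subset_union_right.trans subset_union_left).trans D.cover.subset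
  have hR : ∀ R, D.Rg R ⊆ D.Up ∩ D.Lo := fun R => D.unR ▸ subset_iUnion D.Rg R
  have pU := DehnSym_pc D.ctU
  have pL := DehnSym_pc D.ctL
  have cU : ContinuousOn I D.Up :=
    ((hp.cont.comp hJ).comp_continuousOn hs.cU).congr fun x hx => by
      simp only [Function.comp_apply, hpJ, hs.pU x hx]
  have cL : ContinuousOn I D.Lo :=
    ((hp.cont.comp hJ).comp_continuousOn hs.cL).congr fun x hx => by
      simp only [Function.comp_apply, hpJ, hs.pL x hx]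
  have eU : ∀ x ∈ D.Up, p (J (σU x)) = p (σU (I x)) := fun x hx => by
    rw [hpJ, hs.pU x hx, hs.pU _ (hI.up hx)]
  have eL : ∀ x ∈ D.Lo, p (J (σL x)) = p (σL (I x)) := fun x hx => by
    rw [hpJ, hs.pL x hx, hs.pL _ (hI.lo hx)]
  obtain ⟨a, ha⟩ := hp.trans _ _ (eU _ D.ctU.1).symm
  obtain ⟨b, hb⟩ := hp.trans _ _ (eL _ D.ctL.1).symm
  have ha' : ∀ x ∈ D.Up, J (σU x) = a • σU (I x) :=
    DehnSym_uniq hp pU.isConnected.isPreconnected (hJ.comp_continuousOn hs.cU)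
      (hs.cU.comp cU hI.up) eU D.ctU.1 ha
  have hb' : ∀ x ∈ D.Lo, J (σL x) = b • σL (I x) :=
    DehnSym_uniq hp pL.isConnected.isPreconnected (hJ.comp_continuousOn hs.cL)
      (hs.cL.comp cL hI.lo) eL D.ctL.1 hb
  have hh : ∀ R, ∀ x ∈ D.Rg R, σU x = h R • σL x := fun R =>
    DehnSym_uniq hp (D.pcR R).isConnected.isPreconnected (hs.cU.mono fun x hx => (hR R hx).1)
      (hs.cL.mono fun x hx => (hR R hx).2)
      (fun x hx => (hs.pU x (hR R hx).1).trans (hs.pL x (hR R hx).2).symm) (D.rm R) (hs.hol R)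
  have hab : ∀ R, θ (h R) * b = a * h (ρ R) := by
    intro R
    have h1 := ha' _ (hR R (D.rm R)).1
    rw [hs.hol, hθ, hb' _ (hR R (D.rm R)).2, hh _ _ (hI.rg R (D.rm R)), ← mul_smul, ← mul_smul,
      ← inv_smul_eq_iff, ← mul_smul] at h1
    exact (inv_mul_eq_one.1 (hp.free _ _ h1)).symm
  refine ⟨a, b⁻¹, fun R => by rw [← hab, mul_inv_cancel_right], ?_⟩
  obtain ⟨γ, γm, γd⟩ := DehnSym_path pU (hI.up D.ctU.1) D.ctU.1
  obtain ⟨γ', γm', γd'⟩ := DehnSym_path pL D.ctL.1 (hI.lo D.ctL.1)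
  have am : ∀ R, pth ℤ (D.a R) ∈ CC ℤ D.Up 1 := fun R => ⟨pth_mem_CH (D.am R), pth_mem_DG _⟩
  have bm : ∀ R, pth ℤ (D.b R) ∈ CC ℤ D.Lo 1 := fun R => ⟨pth_mem_CH (D.bm R), pth_mem_DG _⟩
  have key : ∀ R, psh ℤ J (D.ell σU σL h R) - gs ℤ Y a (D.ell σU σL h (ρ R)) -
      (gs ℤ Y (θ (h R) * b) (psh ℤ σL γ') + gs ℤ Y a (psh ℤ σU γ)) ∈ BC ℤ (p ⁻¹' O) 1 := by
    intro R
    obtain ⟨δ, δm, δd⟩ := DehnSym_path (D.pcR (ρ R)) (D.rm _) (hI.rg R (D.rm R))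
    have δU : δ ∈ CC ℤ D.Up 1 := ⟨CH_mono (fun x hx => (hR _ hx).1) δm.1, δm.2⟩
    have δL : δ ∈ CC ℤ D.Lo 1 := ⟨CH_mono (fun x hx => (hR _ hx).2) δm.1, δm.2⟩
    have h1 := DehnSym_bc B D.ctU hUO hs.cU hs.pU
      (c := psh ℤ I (pth ℤ (D.a R)) - (γ + pth ℤ (D.a (ρ R)) + δ))
      (sub_mem ⟨psh_mem_CH I hI.up (am R).1, psh_mem_DG I (am R).2⟩
        (add_mem (add_mem γm (am _)) δU)) (by
        rw [map_sub, map_add, map_add, dT_psh cU (am R).1, γd, δd, dT_pth, dT_pth, map_sub,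
          psh_pt, psh_pt, D.a0, D.a1, D.a0, D.a1]
        abel)
    have h2 := DehnSym_bc B D.ctL hLO hs.cL hs.pL
      (c := psh ℤ I (pth ℤ (D.b R)) - (pth ℤ (D.b (ρ R)) + γ' - δ))
      (sub_mem ⟨psh_mem_CH I hI.lo (bm R).1, psh_mem_DG I (bm R).2⟩
        (sub_mem (add_mem (bm _) γm') δL)) (by
        rw [map_sub, map_sub, map_add, dT_psh cL (bm R).1, γd', δd, dT_pth, dT_pth, map_sub,
          psh_pt, psh_pt, D.b0, D.b1, D.b0, D.b1]
        abel)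
    have h3 : psh ℤ σU δ = gs ℤ Y (h (ρ R)) (psh ℤ σL δ) := by
      rw [gs, psh_psh _ hs.cL δL.1]
      exact psh_congr (hh _) δm.1
    have h4 := add_mem (DehnSym_gs hp a h1) (DehnSym_gs hp (a * h (ρ R)) h2)
    convert h4 using 1
    simp only [DehnData.ell, map_add, map_sub]
    rw [DehnSym_J hJ hθ, DehnSym_lift hs.cU cU hI.up ha' (am R).1,
      DehnSym_lift hs.cL cL hI.lo hb' (bm R).1, h3, ← gs_mul, ← gs_mul, ← gs_mul, hab]
    abel
  let L : ((Bool × G) →₀ ℤ) →ₗ[ℤ] Tot ℤ Y := Finsupp.linearCombination ℤ fun z =>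
    cond z.1 (gs ℤ Y (θ z.2 * b) (psh ℤ σL γ')) (-gs ℤ Y (θ z.2 * a) (psh ℤ σU γ))
  have all : ∀ x : (Reg × G) →₀ ℤ, psh ℤ J (ellC ℤ (D.ell σU σL h) x) -
      ellC ℤ (D.ell σU σL h) (x.mapDomain fun z => (ρ z.1, θ z.2 * a)) - L (d1A ℤ h x) ∈
        BC ℤ (p ⁻¹' O) 1 := by
    intro x
    induction x using Finsupp.induction_linear with
    | zero => simp
    | add x y hx hy =>
      convert add_mem hx hy using 1
      simp only [Finsupp.mapDomain_add, map_add]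
      abel
    | single z n =>
      have h1 := Submodule.smul_mem _ n (DehnSym_gs hp (θ z.2) (key z.1))
      convert h1 using 1
      simp only [Finsupp.mapDomain_single, ellC, d1A, L, Finsupp.linearCombination_single,
        map_smul, map_sub, map_add, one_smul, cond, DehnSym_cast, DehnSym_J hJ hθ, ← gs_mul,
        map_mul, mul_assoc, smul_sub, smul_add, smul_neg]
      abel
  intro x hx
  have := all x
  rwa [hx, map_zero, sub_zero] at this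

end Pool.Agent.MP_bc14e1_gt
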