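import Pool.Agent.MP_bc14e1_gt.IfN

open Set Metric
open scoped Classical

namespace Pool.Agent.MP_bc14e1_gt

theorem Dim_avg {G Y : Type} [Group G] [TopologicalSpace Y] [MulAction G Y]
    [ContinuousConstSMul G Y] (B : Subgroup G) [Finite B] {k : ℕ} {c : Tot ℂ Y}
    (hc : c ∈ DG ℂ Y k) (hd : ∀ g ∈ B, gs ℂ Y g (dT ℂ Y c) = dT ℂ Y c) :
    ∃ c' ∈ DG ℂ Y k, dT ℂ Y c' = dT ℂ Y c ∧ ∀ g ∈ B, gs ℂ Y g c' = c' := by
  have := Fintype.ofFinite B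
  have hN : (Fintype.card B : ℂ) ≠ 0 := Nat.cast_ne_zero.2 Fintype.card_ne_zero
  refine ⟨(Fintype.card B : ℂ)⁻¹ • ∑ g : B, gs ℂ Y (g : G) c,
    Submodule.smul_mem _ _ (Submodule.sum_mem _ fun g _ => gs_mem_DG _ hc), ?_, fun g hg => ?_⟩
  · rw [map_smul, map_sum, Finset.sum_congr rfl fun (g : B) _ => (dT_gs (g : G) c).trans (hd g g.2),
      Finset.sum_const, Finset.card_univ, ← Nat.cast_smul_eq_nsmul ℂ, smul_smul,
      inv_mul_cancel₀ hN, one_smul]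
  · rw [map_smul, map_sum]
    congr 1
    refine Fintype.sum_equiv (Equiv.mulLeft (⟨g, hg⟩ : B)) _ _ fun x => ?_
    rw [← gs_mul]
    rfl

theorem dim_stmt (B : Bas1) : DimStmt := by
  intro G Y _ _ _ _ s H n ζ _ hcen hfree hdep hdiv z hz
  obtain ⟨-, hnoe, -, -, -, -, hC, -, hev, hprime, -⟩ := B.laur
  have hπ := hprime ζ
  have htf := B.tf ℂ G Y s hfree (piL ζ) hπ.ne_zero
  have hga : ∀ (g : G) (a : Lam ℂ) (c : Tot ℂ Y),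
      gs ℂ Y g (act ℂ Y s a c) = act ℂ Y s a (gs ℂ Y g c) := fun g =>
    map_act (gs ℂ Y g) fun c => by rw [← gs_mul, ← gs_mul, hcen]
  have hc : ∀ i, ∃ c ∈ DG ℂ Y 2, act ℂ Y s (piL ζ) (dT ℂ Y c) = dT ℂ Y (z i) ∧
      ∀ g ∈ H, gs ℂ Y g c = c := by
    intro i
    obtain ⟨h1, ⟨y, hy⟩, h3⟩ := hz i
    have y1 : y ∈ DG ℂ Y 1 := (htf y).2.2 1 (hy ▸ dT_mem_DG h1)
    have y2 : dT ℂ Y y = 0 := (htf _).1 (by rw [← dT_act, hy, dT_dT])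
    have y3 : ∀ g ∈ H, gs ℂ Y g y = y := fun g hg => sub_eq_zero.1 ((htf _).1 (by
      rw [map_sub, ← hga, hy, ← dT_gs, h3 g hg, sub_self]))
    obtain ⟨c, c1, rfl⟩ := hdiv 1 (.inl rfl) y ⟨⟨mem_CH_univ _, y1⟩, y2⟩
      ⟨z i, ⟨mem_CH_univ _, h1⟩, hy.symm⟩
    obtain ⟨c', d1, d2, d3⟩ := Dim_avg H c1.2 y3
    exact ⟨c', d1, by rw [d2, hy], d3⟩
  choose c c1 c2 c3 using hc
  let z' : Fin (n + 1) → Tot ℂ Y := fun i => z i - act ℂ Y s (piL ζ) (c i)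
  have hz' : ∀ i, z' i ∈ ZC ℂ (univ : Set Y) 2 := fun i =>
    ⟨⟨mem_CH_univ _, sub_mem (hz i).1 (act_mem_DG s _ (c1 i))⟩, by
      rw [SetLike.mem_coe, LinearMap.mem_ker, map_sub, dT_act, c2, sub_self]⟩
  have hZ : ∀ a : Fin (n + 1) → Lam ℂ, ∑ i, act ℂ Y s (a i) (z' i) ∈ ZC ℂ (univ : Set Y) 2 :=
    fun a => Submodule.sum_mem _ fun i _ => ⟨⟨mem_CH_univ _, act_mem_DG s _ (hz' i).1.2⟩, by
      rw [SetLike.mem_coe, LinearMap.mem_ker, dT_act, show dT ℂ Y (z' i) = 0 from (hz' i).2,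
        map_zero]⟩
  have key : ∀ (m : ℕ) (a : Fin (n + 1) → Lam ℂ), (∃ i, ¬ piL ζ ^ m ∣ a i) →
      ∑ i, act ℂ Y s (a i) (z' i) ∈ BC ℂ (univ : Set Y) 2 →
      ∃ a' : Fin (n + 1) → Lam ℂ, (∃ i, ¬ piL ζ ∣ a' i) ∧
        ∑ i, act ℂ Y s (a' i) (z' i) ∈ BC ℂ (univ : Set Y) 2 := by
    intro m
    induction m with
    | zero =>
      rintro a ⟨i, hi⟩
      exact absurd (by rw [pow_zero]; exact one_dvd _) hi
    | succ m ih =>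
      rintro a ⟨i, hi⟩ hb
      by_cases hall : ∀ i, piL ζ ∣ a i
      · choose a' ha' using hall
        refine ih a' ⟨i, fun h => hi ?_⟩ (hdiv 2 (.inr rfl) _ (hZ a') ?_)
        · rw [ha' i, pow_succ']
          exact mul_dvd_mul_left _ h
        · rw [map_sum]
          simpa only [ha', map_mul, Module.End.mul_apply] using hb
      · exact ⟨a, not_forall.1 hall, hb⟩
  obtain ⟨a, ha0, b, hb, -, hab⟩ := hdep z' fun i => ⟨hz' i, fun g hg => by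
    simp only [z']
    rw [map_sub, hga, (hz i).2.2 g hg, c3 i g hg]⟩
  obtain ⟨i0, hi0⟩ := Function.ne_iff.1 ha0
  have := hnoe ℂ
  obtain ⟨m, hm⟩ := FiniteMultiplicity.of_prime_left hπ hi0
  obtain ⟨a', ⟨i1, hi1⟩, w, -, hw⟩ := key (m + 1) a ⟨i0, hm⟩ ⟨b, ⟨mem_CH_univ _, hb⟩, hab.symm⟩
  refine ⟨fun i => evL ζ (a' i), fun e => hi1 ((hev ζ _).1 (congrFun e i1)), w, ?_⟩
  rw [hw, ← Finset.sum_sub_distrib]
  refine Submodule.sum_mem _ fun i _ => ?_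
  obtain ⟨d, hd⟩ := (hev ζ (a' i - LaurentPolynomial.C (evL ζ (a' i)))).1
    (by rw [map_sub, hC, sub_self])
  refine ⟨evL ζ (a' i) • c i - act ℂ Y s d (z' i), ?_⟩
  rw [map_sub, map_smul, ← Module.End.mul_apply, ← map_mul, ← hd, map_sub (act ℂ Y s),
    LinearMap.sub_apply, act_C]
  simp only [z', smul_sub]
  abel

end Pool.Agent.MP_bc14e1_gt
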