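import Pool.Agent.MP_bc14e1_gt.IfC

open Set Metric
open scoped Classical

namespace Pool.Agent.MP_bc14e1_gt

theorem Drop_zero {Λ H : Type} [CommRing Λ] [IsDomain Λ] [AddCommGroup H] [Module Λ H]
    [Module.Finite Λ H] {ϖ : Λ} (hp : Prime ϖ)
    (h : ∀ z : H, ∃ a, ¬ ϖ ∣ a ∧ ∃ w, a • z = ϖ • w) : Module.rank Λ H = 0 := by
  obtain ⟨m, s, hs⟩ := Module.Finite.exists_fin (R := Λ) (M := H)
  choose a ha w hw using h
  have hc : ¬ ϖ ∣ ∏ j, a (s j) := fun e =>
    let ⟨j, _, hj⟩ := (hp.dvd_finsetProd_iff _).1 e; ha _ hj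
  have hr : LinearMap.range (algebraMap Λ (Module.End Λ H) (∏ j, a (s j))) ≤
      Ideal.span {ϖ} • ⊤ := by
    rw [LinearMap.range_eq_map, ← hs, Submodule.map_span_le, hs]
    rintro _ ⟨j, rfl⟩
    rw [Module.algebraMap_end_apply, ← Finset.prod_erase_mul _ _ (Finset.mem_univ j), mul_smul, hw]
    exact Submodule.smul_mem _ _
      (Submodule.smul_mem_smul (Ideal.mem_span_singleton_self ϖ) Submodule.mem_top)
  generalize ∏ j, a (s j) = c at hc hr
  obtain ⟨p, p1, -, p2, p3⟩ :=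
    LinearMap.exists_monic_and_natDegree_eq_and_coeff_mem_pow_and_aeval_eq_zero Λ _ _ hr
  rw [Polynomial.aeval_algebraMap_apply_eq_algebraMap_eval] at p3
  refine rank_eq_zero_iff.2 fun z => ⟨p.eval c, fun e => hc (hp.dvd_of_dvd_pow
    (n := p.natDegree) ?_), LinearMap.congr_fun p3 z⟩
  rw [Polynomial.eval_eq_sum_range, Finset.sum_range_succ, p1.coeff_natDegree, one_mul,
    add_eq_zero_iff_neg_eq] at e
  rw [← e, dvd_neg]
  refine Finset.dvd_sum fun k hk => Dvd.dvd.mul_right (Ideal.mem_span_singleton.1 ?_) _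
  exact Ideal.pow_le_self (Nat.sub_ne_zero_of_lt (Finset.mem_range.1 hk)) (p2 k)

theorem Drop_rank {Λ : Type} [CommRing Λ] [IsDomain Λ] {ϖ : Λ} (hp : Prime ϖ) (n : ℕ) :
    ∀ (H : Type) [AddCommGroup H] [Module Λ H] [Module.Finite Λ H],
    (∀ z : Fin (n + 1) → H, ∃ a : Fin (n + 1) → Λ, (∃ i, ¬ ϖ ∣ a i) ∧
      ∃ w, ∑ i, a i • z i = ϖ • w) → Module.rank Λ H ≤ n := by
  induction n with
  | zero =>
    intro H _ _ _ h
    refine (Drop_zero hp fun z => ?_).le
    obtain ⟨a, ⟨i, hi⟩, w, hw⟩ := h fun _ => z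
    exact ⟨a 0, Subsingleton.elim (α := Fin 1) i 0 ▸ hi, w, by simpa using hw⟩
  | succ n ih =>
    intro H _ _ _ h
    by_cases h0 : ∀ z : H, ∃ a, ¬ ϖ ∣ a ∧ ∃ w, a • z = ϖ • w
    · exact (Drop_zero hp h0).trans_le zero_le
    obtain ⟨x, hx⟩ := not_forall.1 h0
    have h1 := ih (H ⧸ Submodule.span Λ {x}) fun z => by
      choose y hy using fun i => (Submodule.span Λ {x}).mkQ_surjective (z i)
      obtain ⟨a, ⟨i, hi⟩, w, hw⟩ := h (Fin.cons x y)
      rw [Fin.sum_univ_succ] at hw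
      simp only [Fin.cons_zero, Fin.cons_succ] at hw
      refine ⟨fun i => a i.succ, ?_, (Submodule.span Λ {x}).mkQ w, ?_⟩
      · by_contra hn
        push Not at hn
        choose b hb using id hn
        refine hx ⟨a 0, Fin.cases (motive := fun i => ¬ ϖ ∣ a i → ¬ ϖ ∣ a 0) id
          (fun j hj => (hj (hn j)).elim) i hi, w - ∑ i, b i • y i, ?_⟩
        rw [smul_sub, ← hw, Finset.smul_sum]
        simp only [hb, mul_smul, add_sub_cancel_right]
      · have h2 : (Submodule.span Λ {x}).mkQ x = 0 :=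
          (Submodule.Quotient.mk_eq_zero _).2 (Submodule.mem_span_singleton_self x)
        rw [← map_smul, ← hw, map_add, map_smul, h2, smul_zero, zero_add, map_sum]
        simp only [map_smul, hy]
    rw [← (Submodule.span Λ {x}).rank_quotient_add_rank, Nat.cast_succ]
    exact add_le_add h1 ((rank_span_le _).trans_eq (Cardinal.mk_singleton x))

theorem drop_stmt : DropStmt := by
  intro Λ H _ _ _ _ _ ϖ n hp h z
  have h1 := Drop_rank hp n H h
  have h2 : ¬ LinearIndependent Λ z := fun e => by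
    have := (Module.le_rank_iff.2 ⟨z, e⟩).trans h1
    exact absurd (Nat.cast_le.1 this) (by omega)
  obtain ⟨a, h3, i, hi⟩ := Fintype.not_linearIndependent_iff.1 h2
  exact ⟨a, fun e => hi (congrFun e i), h3⟩

end Pool.Agent.MP_bc14e1_gt
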