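import Pool.Agent.MP_bc14e1_gt.IfT

open Set Metric
open scoped Classical

namespace Pool.Agent.MP_bc14e1_gt

theorem Eta_ne : (LaurentPolynomial.T 1 - 1 : Lam ℝ) ≠ 0 := by
  intro h
  have h1 := congrArg LaurentPolynomial.degree (sub_eq_zero.1 h)
  rw [← LaurentPolynomial.T_zero, LaurentPolynomial.degree_T, LaurentPolynomial.degree_T] at h1
  exact absurd (WithBot.coe_injective h1) one_ne_zero

theorem Eta_coev {X : Type} [TopologicalSpace X] (l : Tot ℝ X →ₗ[ℝ] ℝ) :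
    coevR (fun σ => l (Finsupp.single σ 1)) = l := by
  refine Finsupp.lhom_ext fun σ a => ?_
  rw [coevR, Finsupp.linearCombination_single, ← map_smul, Finsupp.smul_single, smul_eq_mul,
    mul_one]

theorem Eta_fac {M N : Type} [AddCommGroup M] [Module ℝ M] [AddCommGroup N] [Module ℝ N]
    (Φ : M →ₗ[ℝ] N) (ψ : M →ₗ[ℝ] ℝ) (h : ∀ m, Φ m = 0 → ψ m = 0) :
    ∃ l : N →ₗ[ℝ] ℝ, ∀ m, l (Φ m) = ψ m := by
  have hψ : ψ ∈ LinearMap.range Φ.dualMap := by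
    rw [LinearMap.range_dualMap_eq_dualAnnihilator_ker, Submodule.mem_dualAnnihilator]
    exact h
  obtain ⟨l, hl⟩ := hψ
  exact ⟨l, fun m => DFunLike.congr_fun hl m⟩

theorem eta_stmt (B : Bas1) (hDia : DiaStmt) : EtaStmt := by
  intro X G Y _ _ _ _ _ _ _ _ o F p s hp D hD hs
  have hl := (B.cov G X Y _ p hp.cov).2.1
  have hi : Inv s (dia Y)ᶜ := fun z => by
    simp only [dia, mem_compl_iff, mem_ofPred_eq, Prod.smul_fst, Prod.smul_snd, smul_left_cancel_iff]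
  have hg : ∀ c ∈ CH ℝ (dia Y)ᶜ, gs ℝ (Y × Y) s c ∈ CH ℝ (dia Y)ᶜ := fun c hc =>
    gs_mem_CH s (fun z hz => (hi z).2 hz) hc
  have key : ∀ c ∈ DG ℝ (Y × Y) 4, ∀ u ∈ CH ℝ (dia Y)ᶜ, ∀ y,
      dT ℝ _ c + (u + (gs ℝ (Y × Y) s y - y)) = 0 → D c = 0 := by
    intro c hc u hu y h
    have h1 := congrArg (deg ℝ (Y × Y) 3) h
    rw [map_add, map_add, map_sub, map_zero, deg_of_mem (dT_mem_DG hc), gs, deg_psh, ← gs] at h1
    have hu3 := deg_mem_CH 3 hu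
    have hy3 := deg_mem (R := ℝ) 3 y
    generalize deg ℝ (Y × Y) 3 u = u' at h1 hu3
    generalize deg ℝ (Y × Y) 3 y = y' at h1 hy3
    have h2 := congrArg (dT ℝ (Y × Y)) h1
    rw [map_add, map_add, map_sub, map_zero, dT_dT, zero_add, dT_gs] at h2
    have h3 : dT ℝ _ y' ∈ CH ℝ (dia Y)ᶜ := by
      refine (B.tf ℝ G (Y × Y) s (fun n z hz => hp.inf n (hp.cov.free _ z.1
        (congrArg Prod.fst hz))) _ Eta_ne _).2.1 _ hi ?_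
      rw [map_sub, map_one, act_T, zpow_one, LinearMap.sub_apply, Module.End.one_apply,
        eq_neg_of_add_eq_zero_right h2]
      exact neg_mem (dT_mem_CH hu3)
    obtain ⟨b, hb, hb'⟩ := (hDia X Y o p hl univ isOpen_univ).1 y' ⟨⟨mem_CH_univ _, hy3⟩, h3⟩
    have h4 := hD (c + (gs ℝ (Y × Y) s b - b)) ⟨⟨mem_CH_univ _,
      add_mem hc (sub_mem (gs_mem_DG s hb.2) hb.2)⟩, by
        change dT ℝ _ _ ∈ CH ℝ (dia Y)ᶜ
        convert neg_mem (add_mem hu3 (sub_mem (hg _ hb') hb')) using 1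
        rw [map_add, map_sub, map_sub, dT_gs, eq_neg_of_add_eq_zero_left h1]
        abel⟩
    rwa [map_add, map_sub, hs, sub_self, add_zero] at h4
  let Φ : (DG ℝ (Y × Y) 4 × CH ℝ (dia Y)ᶜ × Tot ℝ (Y × Y)) →ₗ[ℝ] Tot ℝ (Y × Y) :=
    (dT ℝ (Y × Y) ∘ₗ (DG ℝ (Y × Y) 4).subtype).coprod
      ((CH ℝ (dia Y)ᶜ).subtype.coprod (gs ℝ (Y × Y) s - 1))
  let ψ : (DG ℝ (Y × Y) 4 × CH ℝ (dia Y)ᶜ × Tot ℝ (Y × Y)) →ₗ[ℝ] ℝ :=
    (D ∘ₗ (DG ℝ (Y × Y) 4).subtype) ∘ₗ LinearMap.fst ℝ _ _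
  have hk : ∀ m, Φ m = 0 → ψ m = 0 := fun m h => key m.1.1 m.1.2 m.2.1.1 m.2.1.2 m.2.2 h
  obtain ⟨l, hl'⟩ :=
    Eta_fac (M := DG ℝ (Y × Y) 4 × CH ℝ (dia Y)ᶜ × Tot ℝ (Y × Y)) (N := Tot ℝ (Y × Y)) Φ ψ hk
  have e : ∀ (c : DG ℝ (Y × Y) 4) (u : CH ℝ (dia Y)ᶜ) (y : Tot ℝ (Y × Y)),
      l (dT ℝ _ c.1 + (u.1 + (gs ℝ (Y × Y) s y - y))) = D c := fun c u y => hl' (c, u, y)
  refine ⟨fun σ => l (Finsupp.single σ 1), fun c hc => ?_, fun c => ?_, fun c hc => ?_⟩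
  · simpa [Eta_coev] using e 0 ⟨c, hc⟩ 0
  · rw [Eta_coev, ← sub_eq_zero, ← map_sub]
    have := e 0 0 c
    simp only [ZeroMemClass.coe_zero, map_zero, zero_add] at this
    exact this
  · rw [Eta_coev, ← e ⟨c, hc⟩ 0 0]
    simp

end Pool.Agent.MP_bc14e1_gt
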