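import Pool.Agent.MP_bc14e1_gt.IfC

open Set Metric
open scoped Classical

namespace Pool.Agent.MP_bc14e1_gt

section Aux

variable {X A : Type} [TopologicalSpace X] [AddCommGroup A]

/-- A potential for the cocycle on a contractible set. -/
theorem ExCov_pot (B : CtrStmt) {U : Set X} {x : X} (hU : Ctr U x) (α : Tot ℤ X →+ A)
    (hα : ∀ c ∈ CH ℤ U, α (dT ℤ X c) = 0) :
    ∃ k : X → A, ∀ γ : C(unitInterval, X), (∀ t, γ t ∈ U) →
      α (pth ℤ γ) = k (γ 1) - k (γ 0) := by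
  obtain ⟨h1, h0⟩ := B ℤ X U x hU
  have : ∀ y, ∃ b : Tot ℤ X, y ∈ U → b ∈ CC ℤ U 1 ∧ dT ℤ X b = pt ℤ y - pt ℤ x := by
    intro y
    by_cases hy : y ∈ U
    · obtain ⟨b, hb, e⟩ := h0 (pt ℤ y) ⟨pt_mem_CH hy, pt_mem_DG y⟩
      rw [val0_pt, one_smul] at e
      exact ⟨b, fun _ => ⟨hb, e⟩⟩
    · exact ⟨0, fun h => absurd h hy⟩
  choose b hb using this
  refine ⟨fun y => α (b y), fun γ hγ => ?_⟩
  have hz : pth ℤ γ - (b (γ 1) - b (γ 0)) ∈ ZC ℤ U 1 := by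
    refine ⟨sub_mem (show pth ℤ γ ∈ CC ℤ U 1 from ⟨pth_mem_CH hγ, pth_mem_DG γ⟩)
      (sub_mem (hb _ (hγ 1)).1 (hb _ (hγ 0)).1), ?_⟩
    rw [SetLike.mem_coe, LinearMap.mem_ker, map_sub, map_sub, dT_pth, (hb _ (hγ 1)).2,
      (hb _ (hγ 0)).2]
    abel
  obtain ⟨w, hw, e⟩ := h1 1 one_ne_zero hz
  have := hα w hw.1
  rw [e, map_sub, map_sub, sub_eq_zero] at this
  exact this

/-- The total space of the cover. -/
@[ext] structure ExCov_Y (Z : Set X) (α : Tot ℤ X →+ A) : Type where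
  x : X
  hx : x ∈ Z
  a : A

variable {Z : Set X} {α : Tot ℤ X →+ A}

/-- The open sets of the cover. -/
def ExCov_Op (S : Set (ExCov_Y Z α)) : Prop :=
  ∀ y ∈ S, ∃ V ∈ nhds y.x, ∀ (y' : ExCov_Y Z α) (γ : C(unitInterval, X)), (∀ t, γ t ∈ V) →
    γ 0 = y.x → γ 1 = y'.x → y'.a - y.a = α (pth ℤ γ) → y' ∈ S

instance ExCov_top : TopologicalSpace (ExCov_Y Z α) where
  IsOpen := ExCov_Op
  isOpen_univ := fun _ _ => ⟨univ, Filter.univ_mem, fun _ _ _ _ _ _ => trivial⟩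
  isOpen_inter := by
    intro S T hS hT y hy
    obtain ⟨V, hV, h⟩ := hS y hy.1
    obtain ⟨W, hW, h'⟩ := hT y hy.2
    exact ⟨V ∩ W, Filter.inter_mem hV hW, fun y' γ hγ h0 h1 e =>
      ⟨h y' γ (fun t => (hγ t).1) h0 h1 e, h' y' γ (fun t => (hγ t).2) h0 h1 e⟩⟩
  isOpen_sUnion := by
    rintro s hs y ⟨S, hS, hy⟩
    obtain ⟨V, hV, h⟩ := hs S hS y hy
    exact ⟨V, hV, fun y' γ hγ h0 h1 e => ⟨S, hS, h y' γ hγ h0 h1 e⟩⟩

theorem ExCov_open {S : Set (ExCov_Y Z α)} : IsOpen S ↔ ExCov_Op S := Iff.rfl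

instance ExCov_act : MulAction (Multiplicative A) (ExCov_Y Z α) where
  smul g y := ⟨y.x, y.hx, g.toAdd + y.a⟩
  one_smul y := ExCov_Y.ext rfl (zero_add y.a)
  mul_smul g h y := ExCov_Y.ext rfl (add_assoc g.toAdd h.toAdd y.a)

theorem ExCov_smul_x (g : Multiplicative A) (y : ExCov_Y Z α) : (g • y).x = y.x := rfl

theorem ExCov_smul_a (g : Multiplicative A) (y : ExCov_Y Z α) : (g • y).a = g.toAdd + y.a := rfl

instance ExCov_cact : ContinuousConstSMul (Multiplicative A) (ExCov_Y Z α) where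
  continuous_const_smul g := by
    refine continuous_def.2 fun S hS => ExCov_open.2 fun y hy => ?_
    obtain ⟨V, hV, h⟩ := ExCov_open.1 hS _ hy
    refine ⟨V, hV, fun y' γ hγ h0 h1 e => h (g • y') γ hγ h0 h1 ?_⟩
    rw [ExCov_smul_a, ExCov_smul_a, add_sub_add_left_eq_sub, e]

theorem ExCov_cont : Continuous (ExCov_Y.x : ExCov_Y Z α → X) := by
  refine continuous_def.2 fun O hO => ExCov_open.2 fun y hy => ?_
  refine ⟨O, hO.mem_nhds hy, fun y' γ hγ _ h1 _ => ?_⟩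
  rw [mem_preimage, ← h1]
  exact hγ 1

/-- A local section through a given point. -/
theorem ExCov_sec (B : CtrStmt)
    (hZ : ∀ x ∈ Z, ∃ U, IsOpen U ∧ U ⊆ Z ∧ Ctr U x ∧ ∀ y ∈ U, ∀ V ∈ nhds y, ∃ V' ∈ nhds y,
      V' ⊆ V ∧ IsPathConnected V')
    (hα : ∀ c ∈ CH ℤ Z, α (dT ℤ X c) = 0) (y₀ : ExCov_Y Z α) :
    ∃ U, IsOpen U ∧ y₀.x ∈ U ∧ U ⊆ Z ∧ ∃ σ : X → ExCov_Y Z α, ContinuousOn σ U ∧
      (∀ x ∈ U, (σ x).x = x) ∧ IsOpen (σ '' U) ∧ σ y₀.x = y₀ ∧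
      (∀ V ∈ nhds y₀.x, ∃ V' ∈ nhds y₀.x, V' ⊆ V ∧ IsPathConnected V') ∧
      ∀ γ : C(unitInterval, X), (∀ t, γ t ∈ U) → α (pth ℤ γ) = (σ (γ 1)).a - (σ (γ 0)).a := by
  obtain ⟨U, hUo, hUZ, hU, hl⟩ := hZ y₀.x y₀.hx
  obtain ⟨k, hk⟩ := ExCov_pot B hU α fun c hc => hα c (CH_mono hUZ hc)
  let σ : X → ExCov_Y Z α := fun x =>
    if h : x ∈ Z then ⟨x, h, y₀.a - k y₀.x + k x⟩ else y₀
  have hx : ∀ x ∈ U, (σ x).x = x := fun x h => by simp only [σ, dif_pos (hUZ h)]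
  have ha : ∀ x ∈ U, (σ x).a = y₀.a - k y₀.x + k x := fun x h => by
    simp only [σ, dif_pos (hUZ h)]
  have hp : ∀ γ : C(unitInterval, X), (∀ t, γ t ∈ U) →
      α (pth ℤ γ) = (σ (γ 1)).a - (σ (γ 0)).a := fun γ hγ => by
    rw [hk γ hγ, ha _ (hγ 1), ha _ (hγ 0), add_sub_add_left_eq_sub]
  refine ⟨U, hUo, hU.1, hUZ, σ, ?_, hx, ?_, ?_, hl _ hU.1, hp⟩
  · intro x hxU
    refine ContinuousAt.continuousWithinAt ?_
    intro N hN
    obtain ⟨S, hSN, hS, hxS⟩ := _root_.mem_nhds_iff.1 hN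
    obtain ⟨V, hV, h⟩ := ExCov_open.1 hS _ hxS
    rw [hx x hxU] at hV
    obtain ⟨V', hV', hs, hc⟩ := hl x hxU (V ∩ U) (Filter.inter_mem hV (hUo.mem_nhds hxU))
    refine Filter.mem_map.2 (Filter.mem_of_superset hV' fun x' hx' => hSN ?_)
    obtain ⟨γ, hγ⟩ := hc.joinedIn x (mem_of_mem_nhds hV') x' hx'
    refine h (σ x') γ.toContinuousMap (fun t => (hs (hγ t)).1) ?_ ?_ ?_
    · rw [hx x hxU]; exact γ.source
    · rw [hx x' (hs hx').2]; exact γ.target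
    · rw [hp γ.toContinuousMap fun t => (hs (hγ t)).2]
      simp
  · refine ExCov_open.2 ?_
    rintro _ ⟨x, hxU, rfl⟩
    refine ⟨U, by rw [hx x hxU]; exact hUo.mem_nhds hxU, fun y' γ hγ h0 h1 e => ?_⟩
    rw [hx x hxU] at h0
    refine ⟨γ 1, hγ 1, ExCov_Y.ext ((hx _ (hγ 1)).trans h1) ?_⟩
    rw [hp γ hγ, h0] at e
    exact (sub_left_inj.1 e).symm
  · exact ExCov_Y.ext (hx _ hU.1) (by rw [ha _ hU.1, sub_add_cancel])

/-- The holonomy of the cover. -/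
theorem ExCov_hol (B : CtrStmt)
    (hZ : ∀ x ∈ Z, ∃ U, IsOpen U ∧ U ⊆ Z ∧ Ctr U x ∧ ∀ y ∈ U, ∀ V ∈ nhds y, ∃ V' ∈ nhds y,
      V' ⊆ V ∧ IsPathConnected V')
    (hα : ∀ c ∈ CH ℤ Z, α (dT ℤ X c) = 0) (hd : ∀ k, k ≠ 1 → ∀ c ∈ DG ℤ X k, α c = 0)
    (c : Tot ℤ (ExCov_Y Z α)) :
    α (psh ℤ ExCov_Y.x c) = val0 ℤ ExCov_Y.a (dT ℤ _ c) := by
  let Φ : Tot ℤ (ExCov_Y Z α) →ₗ[ℤ] A :=
    α.toIntLinearMap ∘ₗ psh ℤ ExCov_Y.x - val0 ℤ ExCov_Y.a ∘ₗ dT ℤ _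
  have hΦ : ∀ c, Φ c = α (psh ℤ ExCov_Y.x c) - val0 ℤ ExCov_Y.a (dT ℤ _ c) := fun c => rfl
  have hdg : ∀ k, k ≠ 1 → ∀ c ∈ DG ℤ (ExCov_Y Z α) k, Φ c = 0 := by
    intro k hk c hc
    rw [hΦ, hd k hk _ (psh_mem_DG _ hc)]
    rcases k with _ | k
    · rw [dT_of_DG_zero hc, map_zero, sub_zero]
    · rw [val0_of_DG _ (fun h => hk (by rw [h])) (dT_mem_DG hc), sub_zero]
  have hbd : ∀ c, Φ (dT ℤ _ c) = 0 := by
    intro c
    rw [hΦ, dT_dT, map_zero, sub_zero, ← dT_psh_cont ExCov_cont]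
    exact hα _ (psh_mem_CH _ (fun y _ => y.hx) (mem_CH_univ c))
  choose U hUo hU hUZ σ hc hx ho h0 hl hp using ExCov_sec B hZ hα
  have hsh : ∀ y, CH ℤ (σ y '' U y) ≤ LinearMap.ker Φ := by
    intro y c hc
    refine map_CH (T := LinearMap.ker Φ) LinearMap.id (fun k s hs => ?_) hc
    rw [LinearMap.id_apply, LinearMap.mem_ker]
    by_cases hk : k = 1
    · subst hk
      let γ : C(unitInterval, ExCov_Y Z α) :=
        s.comp (stdSimplexHomeomorphUnitInterval.symm : C(unitInterval, Sx 1))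
      have e : (Finsupp.single ⟨1, s⟩ 1 : Tot ℤ (ExCov_Y Z α)) = pth ℤ γ := by
        rw [pth]
        congr 2
        ext t <;> simp [γ]
      have hγ : ∀ t, (γ t).x ∈ U y ∧ σ y (γ t).x = γ t := by
        intro t
        obtain ⟨x, hxU, e⟩ := hs (stdSimplexHomeomorphUnitInterval.symm t)
        have e' : γ t = σ y x := e.symm
        rw [e', hx y x hxU]
        exact ⟨hxU, rfl⟩
      rw [e, hΦ, psh_pth _ γ (ExCov_cont.comp γ.continuous), dT_pth, map_sub, val0_pt, val0_pt,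
        hp y _ fun t => (hγ t).1]
      change (σ y (γ 1).x).a - (σ y (γ 0).x).a - _ = 0
      rw [(hγ 1).2, (hγ 0).2, sub_self]
    · exact hdg k hk _ (single_mem_DG ⟨k, s⟩ 1)
  have hmem : ∀ y, y ∈ σ y '' U y := fun y => ⟨y.x, hU y, h0 y⟩
  rw [← sub_eq_zero, ← hΦ]
  induction c using Tot.ind with
  | h0 => exact map_zero Φ
  | hadd a b ha hb => rw [map_add, ha, hb, add_zero]
  | h1 k s a =>
    by_cases hk : k = 1
    · subst hk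
      have hc1 := inc_mem_DG (R := ℤ) 1 (Finsupp.single s a)
      generalize inc ℤ 1 (Finsupp.single s a) = c at hc1
      obtain ⟨m, hm⟩ := sdT_small (U := fun y => σ y '' U y) ho (c := c)
        (CH_mono (fun y _ => mem_iUnion.2 ⟨y, hmem y⟩) (mem_CH_univ c))
      have e1 : Φ ((sdT ℤ _ ^ m) c) = 0 := iSup_le hsh (hm m le_rfl)
      have e2 : Φ (sdHP ℤ _ m (dT ℤ _ c)) = 0 := by
        refine DG_zero_ind (P := fun w => Φ (sdHP ℤ _ m w) = 0) (by simp)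
          (fun a b ha hb => by rw [map_add, map_add, ha, hb, add_zero]) (fun y _ a => ?_)
          (mem_CH_univ _) (dT_mem_DG hc1)
        exact hsh y (sdHP_mem_CH m (Submodule.smul_mem _ a (pt_mem_CH (hmem y))))
      have e3 := congrArg Φ (dT_sdHP m c)
      rw [map_add, map_sub, hbd, e1, e2] at e3
      simpa using e3.symm
    · exact hdg k hk _ (inc_mem_DG _ _)

/-- The continuity criterion. -/
theorem ExCov_crit (B : CtrStmt)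
    (hZ : ∀ x ∈ Z, ∃ U, IsOpen U ∧ U ⊆ Z ∧ Ctr U x ∧ ∀ y ∈ U, ∀ V ∈ nhds y, ∃ V' ∈ nhds y,
      V' ⊆ V ∧ IsPathConnected V')
    (hα : ∀ c ∈ CH ℤ Z, α (dT ℤ X c) = 0) (f : ExCov_Y Z α → ExCov_Y Z α)
    (hf : Continuous (ExCov_Y.x ∘ f))
    (h : ∀ γ : C(unitInterval, ExCov_Y Z α),
      (f (γ 1)).a - (f (γ 0)).a = α (psh ℤ (ExCov_Y.x ∘ f) (pth ℤ γ))) : Continuous f := by
  refine continuous_def.2 fun S hS => isOpen_iff_mem_nhds.2 fun y hy => ?_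
  obtain ⟨V, hV, hS'⟩ := ExCov_open.1 hS _ hy
  obtain ⟨U, hUo, hU, -, σ, hc, hx, ho, h0, hl, -⟩ := ExCov_sec B hZ hα y
  have hN : (ExCov_Y.x ∘ f) ⁻¹' V ∈ nhds (σ y.x) := by
    rw [h0]; exact hf.continuousAt.preimage_mem_nhds hV
  obtain ⟨V', hV', hs, hpc⟩ := hl (σ ⁻¹' ((ExCov_Y.x ∘ f) ⁻¹' V) ∩ U)
    (Filter.inter_mem ((hc.continuousAt (hUo.mem_nhds hU)).preimage_mem_nhds hN)
      (hUo.mem_nhds hU))
  have hW : σ '' V' ∈ nhds y := by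
    refine Filter.mem_of_superset (Filter.inter_mem (ho.mem_nhds ⟨y.x, hU, h0⟩)
      (ExCov_cont.continuousAt.preimage_mem_nhds hV')) ?_
    rintro _ ⟨⟨x, hxU, rfl⟩, h2⟩
    rw [mem_preimage, hx x hxU] at h2
    exact ⟨x, h2, rfl⟩
  have hWc : IsPathConnected (σ '' V') := hpc.image' (hc.mono fun x hx => (hs hx).2)
  refine Filter.mem_of_superset hW fun y' hy' => ?_
  obtain ⟨γ, hγ⟩ := hWc.joinedIn y (mem_of_mem_nhds hW) y' hy'
  have hcγ : Continuous ((ExCov_Y.x ∘ f) ∘ γ.toContinuousMap) := hf.comp γ.continuous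
  have e := h γ.toContinuousMap
  rw [psh_pth _ _ hcγ] at e
  refine hS' (f y') ⟨_, hcγ⟩ (fun t => ?_) ?_ ?_ ?_
  · obtain ⟨x, hx, e⟩ := hγ t
    have := (hs hx).1
    rw [mem_preimage, e] at this
    exact this
  · exact congrArg (ExCov_Y.x ∘ f) γ.source
  · exact congrArg (ExCov_Y.x ∘ f) γ.target
  · rw [← e]; simp

end Aux

theorem exCov_stmt (B : Bas1) : ExCovStmt := by
  intro X A _ _ Z α hZ hα hd
  refine ⟨ExCov_Y Z α, inferInstance, inferInstance, inferInstance, ExCov_Y.x, ExCov_Y.a,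
    ⟨ExCov_cont, fun _ _ => rfl, fun y => y.hx, fun g y h => ?_, fun y y' h => ?_,
      fun x hx => ?_⟩, fun _ _ => rfl, ExCov_hol B.ctr hZ hα hd, ExCov_crit B.ctr hZ hα⟩
  · have := congrArg ExCov_Y.a h
    rw [ExCov_smul_a, add_eq_right] at this
    exact this
  · exact ⟨Multiplicative.ofAdd (y'.a - y.a), ExCov_Y.ext h.symm (sub_add_cancel _ _).symm⟩
  · obtain ⟨U, hUo, hU, hUZ, σ, hc, hx', ho, -⟩ := ExCov_sec B.ctr hZ hα ⟨x, hx, 0⟩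
    exact ⟨U, hUo, hU, hUZ, σ, hc, hx', ho⟩

end Pool.Agent.MP_bc14e1_gt
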