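import Pool.Agent.MP_bc14e1_gt.If

open Set Metric
open scoped Classical

namespace Pool.Agent.MP_bc14e1_gt

theorem Ext_baer : Module.Baer ℤ (Additive ℂˣ) := by
  have h1 : DivisibleBy (Additive ℂˣ) ℕ := divisibleByOfSMulRightSurj _ _ fun {n} hn a => by
    obtain ⟨z, hz⟩ := IsAlgClosed.exists_pow_nat_eq ((Additive.toMul a : ℂˣ) : ℂ)
      (Nat.pos_of_ne_zero hn)
    have h0 : z ≠ 0 := by
      rintro rfl
      rw [zero_pow hn] at hz
      exact (Additive.toMul a).ne_zero hz.symm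
    exact ⟨Additive.ofMul (Units.mk0 z h0), Additive.toMul.injective (Units.ext (by simpa using hz))⟩
  have h2 := AddGroup.divisibleByIntOfDivisibleByNat (Additive ℂˣ)
  exact Module.Baer.of_divisible _

/-- Extension of characters. -/
theorem Ext_char {B A : Type} [AddCommGroup B] [AddCommGroup A] (f : B →+ A) (φ : AddChar B ℂ)
    (h : ∀ y, f y = 0 → φ y = 1) : ∃ ψ : AddChar A ℂ, ∀ y, ψ (f y) = φ y := by
  let φ' : B →+ Additive ℂˣ := MonoidHom.toAdditiveRight φ.toMonoidHom.toHomUnits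
  have hφ : ∀ y, ((Additive.toMul (φ' y) : ℂˣ) : ℂ) = φ y := fun y => rfl
  obtain ⟨g, hg⟩ := Ext_baer.extension_property_addMonoidHom (QuotientAddGroup.kerLift f)
    (QuotientAddGroup.kerLift_injective f) (QuotientAddGroup.lift f.ker φ' fun y hy =>
      Additive.toMul.injective (Units.ext ((hφ y).trans (h y hy))))
  refine ⟨⟨fun a => ((Additive.toMul (g a) : ℂˣ) : ℂ), by simp, fun a b => by simp⟩, fun y => ?_⟩
  have h1 : g (f y) = φ' y := DFunLike.congr_fun hg (QuotientAddGroup.mk y)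
  rw [← hφ, ← h1]
  rfl

/-- The maximal ideal with residue field of order four. -/
noncomputable def Ext_mm : Ideal (Lam ℤ) :=
  Ideal.span {2, LaurentPolynomial.T 1 ^ 2 + LaurentPolynomial.T 1 + 1}

theorem Ext_two : (2 : Lam ℤ) ∈ Ext_mm := Ideal.subset_span (.inl rfl)

theorem Ext_q : (LaurentPolynomial.T 1 ^ 2 + LaurentPolynomial.T 1 + 1 : Lam ℤ) ∈ Ext_mm :=
  Ideal.subset_span (.inr rfl)

theorem Ext_finite : Finite (Lam ℤ ⧸ Ext_mm) := by
  obtain ⟨x, hx⟩ : ∃ x, x = Ideal.Quotient.mk Ext_mm (LaurentPolynomial.T 1) := ⟨_, rfl⟩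
  have h1 : x ^ 2 + x + 1 = 0 := by
    have := Ideal.Quotient.eq_zero_iff_mem.2 Ext_q
    rwa [map_add, map_add, map_pow, map_one, ← hx] at this
  have h2 : Ideal.Quotient.mk Ext_mm (LaurentPolynomial.T (-1)) = x ^ 2 := by
    have h3 : Ideal.Quotient.mk Ext_mm (LaurentPolynomial.T (-1)) * x = 1 := by
      rw [hx, ← map_mul, ← LaurentPolynomial.T_add, neg_add_cancel, LaurentPolynomial.T_zero,
        map_one]
    linear_combination (1 - x) * Ideal.Quotient.mk Ext_mm (LaurentPolynomial.T (-1)) * h1 +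
      x ^ 2 * h3
  have h3 : ∀ a : Lam ℤ, Ideal.Quotient.mk Ext_mm a ∈ Algebra.adjoin ℤ {x} := by
    intro a
    have hx' : x ∈ Algebra.adjoin ℤ {x} := Algebra.self_mem_adjoin_singleton ℤ x
    refine a.induction_on (M := fun a => Ideal.Quotient.mk Ext_mm a ∈ Algebra.adjoin ℤ {x})
      (fun b => ?_) (fun h h' => ?_) (fun n b h => ?_) fun n b h => ?_
    · rw [eq_intCast LaurentPolynomial.C b, map_intCast]
      exact intCast_mem _ b
    · rw [map_add]
      exact add_mem h h'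
    · rw [LaurentPolynomial.T_add, ← mul_assoc, map_mul, ← hx]
      exact mul_mem h hx'
    · rw [sub_eq_add_neg, LaurentPolynomial.T_add, ← mul_assoc, map_mul, h2]
      exact mul_mem h (_root_.pow_mem hx' 2)
  have h4 : IsIntegral ℤ x := ⟨Polynomial.X ^ 2 + Polynomial.X + 1, by monicity!, by simpa using h1⟩
  have h5 : Algebra.adjoin ℤ {x} = ⊤ := eq_top_iff.2 fun z _ => by
    obtain ⟨a, rfl⟩ := Ideal.Quotient.mk_surjective z
    exact h3 a
  have h6 : Module.Finite ℤ (Lam ℤ ⧸ Ext_mm) := by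
    have := h4.fg_adjoin_singleton
    rw [h5] at this
    exact ⟨this⟩
  refine Module.finite_of_fg_torsion _ fun z => ⟨⟨2, mem_nonZeroDivisors_of_ne_zero two_ne_zero⟩, ?_⟩
  have h7 : (2 : Lam ℤ ⧸ Ext_mm) = 0 := by
    have := Ideal.Quotient.eq_zero_iff_mem.2 Ext_two
    rwa [map_ofNat] at this
  change (2 : ℤ) • z = 0
  rw [two_smul, ← two_mul, h7, zero_mul]

theorem Ext_pow (e : ℕ) :
    (LaurentPolynomial.T 1 ^ (3 * 2 ^ e) - 1 : Lam ℤ) ∈ Ext_mm ^ (e + 1) := by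
  induction e with
  | zero =>
    rw [zero_add, pow_one]
    convert Ext_mm.mul_mem_left (LaurentPolynomial.T 1 - 1) Ext_q using 1
    ring
  | succ e ih =>
    rw [pow_succ Ext_mm]
    convert Ideal.mul_mem_mul ih (add_mem (Ideal.pow_le_self e.succ_ne_zero ih) Ext_two) using 1
    ring

theorem Ext_dvd {M : Type} [AddCommGroup M] [Module (Lam ℤ) M] (c : M →+ Eis ℤ)
    (hc : ∀ y : M, c ((LaurentPolynomial.T 1 : Lam ℤ) • y) = (om ℤ : (Eis ℤ)ˣ) * c y) (j : ℕ) :
    ∀ a ∈ Ext_mm ^ j, ∀ y : M, 2 ^ j ∣ c (a • y) := by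
  have ho : ((om ℤ : (Eis ℤ)ˣ) : Eis ℤ) * (om ℤ : (Eis ℤ)ˣ) = (om ℤ : (Eis ℤ)ˣ) - 1 := by
    ext <;> simp [om, QuadraticAlgebra.re_one, QuadraticAlgebra.im_one]
  induction j with
  | zero => exact fun a _ y => by rw [pow_zero]; exact one_dvd _
  | succ j ih =>
    intro a ha
    rw [pow_succ'] at ha
    refine Submodule.mul_induction_on ha (fun m hm b hb y => ?_) fun a b h1 h2 y => ?_
    · obtain ⟨u, v, rfl⟩ := Ideal.mem_span_pair.1 hm
      obtain ⟨p, hp⟩ := ih b hb (u • y)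
      obtain ⟨q, hq⟩ := ih b hb (v • y)
      have e : ((u * 2 + v * (LaurentPolynomial.T 1 ^ 2 + LaurentPolynomial.T 1 + 1)) * b) • y =
          b • u • y + b • u • y + ((LaurentPolynomial.T 1 : Lam ℤ) •
            (LaurentPolynomial.T 1 : Lam ℤ) • b • v • y +
            (LaurentPolynomial.T 1 : Lam ℤ) • b • v • y + b • v • y) := by
        simp only [smul_smul, ← add_smul]
        congr 1
        ring
      refine ⟨p + (om ℤ : (Eis ℤ)ˣ) * q, ?_⟩
      rw [e, map_add, map_add, map_add, map_add, hc, hc, hp, hq]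
      linear_combination 2 ^ j * q * ho
    · rw [add_smul, map_add]
      exact dvd_add (h1 y) (h2 y)

theorem Ext_red {x : Eis ℤ} (h : 2 ^ 3 ∣ x) : red8 x = 0 := by
  obtain ⟨w, rfl⟩ := h
  have e : (2 ^ 3 * w : Eis ℤ) = (8 : ℤ) • w := by
    rw [zsmul_eq_mul]
    norm_num
  have h8 : ∀ n : ℤ, (((8 : ℤ) • n : ℤ) : ZMod 8) = 0 := fun n =>
    (ZMod.intCast_zmod_eq_zero_iff_dvd _ 8).2 (dvd_mul_right _ _)
  rw [e]
  ext
  exacts [h8 w.re, h8 w.im]

theorem ext_stmt (hLaur : LaurStmt) : ExtStmt := by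
  intro H _ _ _ M c χ hc
  have := hLaur.2.1 ℤ
  have := Ext_finite
  obtain ⟨k, hk⟩ := Ext_mm.exists_pow_inf_eq_pow_smul M
  have hk3 := hk (k + 3) (by omega)
  rw [Nat.add_sub_cancel_left] at hk3
  have := Ideal.finite_quotient_pow (IsNoetherian.noetherian Ext_mm) (k + 3)
  obtain ⟨N, hN⟩ : ∃ N : Submodule (Lam ℤ) H, N = Ext_mm ^ (k + 3) • ⊤ := ⟨_, rfl⟩
  have hfin : Finite (H ⧸ N) :=
    hN ▸ Submodule.finite_quotient_smul (Ext_mm ^ (k + 3)) Module.Finite.fg_top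
  have kill : ∀ a ∈ Ext_mm ^ (k + 3), ∀ z : H ⧸ N, a • z = 0 := by
    intro a ha z
    obtain ⟨y, rfl⟩ := N.mkQ_surjective z
    rw [← map_smul, Submodule.mkQ_apply, Submodule.Quotient.mk_eq_zero, hN]
    exact Submodule.smul_mem_smul ha trivial
  have hp : IsPGroup 2 (Multiplicative (H ⧸ N)) := fun z => ⟨k + 3, by
    have h1 := kill _ (Ideal.pow_mem_pow Ext_two (k + 3)) (Multiplicative.toAdd z)
    apply Multiplicative.toAdd.injective
    rw [toAdd_pow, toAdd_one, ← h1, ← Nat.cast_smul_eq_nsmul (Lam ℤ), Nat.cast_pow,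
      Nat.cast_ofNat]⟩
  obtain ⟨r, hr⟩ := IsPGroup.iff_card.1 hp
  let τ : (H ⧸ N) ≃ₗ[ℤ] (H ⧸ N) :=
    { toFun := fun z => (LaurentPolynomial.T 1 : Lam ℤ) • z
      invFun := fun z => (LaurentPolynomial.T (-1) : Lam ℤ) • z
      map_add' := smul_add _
      map_smul' := fun n z => smul_comm _ _ _
      left_inv := fun z => by
        simp only [smul_smul, ← LaurentPolynomial.T_add, neg_add_cancel, LaurentPolynomial.T_zero,
          one_smul]
      right_inv := fun z => by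
        simp only [smul_smul, ← LaurentPolynomial.T_add, add_neg_cancel, LaurentPolynomial.T_zero,
          one_smul] }
  have hτ : ∀ z, τ z = (LaurentPolynomial.T 1 : Lam ℤ) • z := fun _ => rfl
  have hτn : ∀ (n : ℕ) z, (τ ^ n) z = (LaurentPolynomial.T 1 ^ n : Lam ℤ) • z := by
    intro n
    induction n with
    | zero => exact fun z => by rw [pow_zero, pow_zero, one_smul]; rfl
    | succ n ih => exact fun z => by rw [pow_succ, LinearEquiv.mul_apply, ih, hτ, pow_succ, mul_smul]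
  let φ : AddChar M ℂ :=
    { toFun := fun y => χ (red8 (c y))
      map_zero_eq_one' := by rw [map_zero, Ext_red (dvd_zero _), AddChar.map_zero_eq_one]
      map_add_eq_mul' := fun a b => by
        rw [← AddChar.map_add_eq_mul, map_add]
        congr 1
        ext <;> simp [red8] }
  obtain ⟨ψ, hψ⟩ := Ext_char (N.mkQ.toAddMonoidHom.comp M.subtype.toAddMonoidHom) φ fun y hy => by
    have h1 : (y : H) ∈ Ext_mm ^ 3 • M := by
      refine Submodule.smul_mono le_rfl inf_le_right (hk3.le ⟨?_, y.2⟩)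
      rw [← hN]
      exact (Submodule.Quotient.mk_eq_zero N).1 hy
    have h2 : ∀ x ∈ Ext_mm ^ 3 • M, ∃ hx : x ∈ M, 2 ^ 3 ∣ c ⟨x, hx⟩ := fun x hx =>
      Submodule.smul_induction_on hx
        (fun a ha z hz => ⟨M.smul_mem a hz, Ext_dvd c hc 3 a ha ⟨z, hz⟩⟩)
        fun x z ⟨hx, h3⟩ ⟨hz, h4⟩ => ⟨M.add_mem hx hz,
          (map_add c ⟨x, hx⟩ ⟨z, hz⟩).symm ▸ dvd_add h3 h4⟩
    obtain ⟨hx, h3⟩ := h2 y h1
    exact (congrArg χ (Ext_red h3)).trans χ.map_zero_eq_one
  refine ⟨H ⧸ N, inferInstance, hfin, r, k + 1, τ, N.mkQ.toAddMonoidHom, ψ, hr, ?_, fun a ha => ?_,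
    fun y => map_smul N.mkQ _ y, hψ⟩
  · ext z
    have h1 := kill _ (Ext_pow (k + 2)) z
    rw [sub_smul, one_smul, sub_eq_zero] at h1
    rw [hτn, show 6 * 2 ^ (k + 1) = 3 * 2 ^ (k + 2) by ring]
    exact h1
  · have hm : (1 - (LaurentPolynomial.T 1 + 2) * (LaurentPolynomial.T 1 - 1) : Lam ℤ) ∈ Ext_mm := by
      convert sub_mem (Ext_mm.mul_mem_left 2 Ext_two) Ext_q using 1
      ring
    have h1 : (1 - (LaurentPolynomial.T 1 + 2) * (LaurentPolynomial.T 1 - 1) : Lam ℤ) • a = a := by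
      rw [sub_smul, mul_smul, sub_smul, ← hτ, ha, one_smul, sub_self, smul_zero, sub_zero]
    have h2 : ∀ n : ℕ, ((1 - (LaurentPolynomial.T 1 + 2) * (LaurentPolynomial.T 1 - 1)) ^ n :
        Lam ℤ) • a = a := by
      intro n
      induction n with
      | zero => rw [pow_zero, one_smul]
      | succ n ih => rw [pow_succ, mul_smul, h1, ih]
    rw [← h2 (k + 3)]
    exact kill _ (Ideal.pow_mem_pow hm _) a

end Pool.Agent.MP_bc14e1_gt
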