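import Pool.Agent.MP_bc14e1_gt.IfC
import Pool.Agent.MP_bc14e1_gt.Ind

open Set Metric
open scoped Classical

namespace Pool.Agent.MP_bc14e1_gt

theorem FG_rot {c : ℂ × ℂ} (hc : c.2 = 0) (r : ℝ) : RotInv (closedBall c r) := by
  intro x hx w hw
  rw [mem_closedBall, Prod.dist_eq, hc, dist_zero_right] at hx ⊢
  rwa [hw]

theorem FG_chart {X : Type} [TopologicalSpace X] [T2Space X] {P : Set X → Prop} {F : Set X}
    (hF : IsClosed F) (h0 : P ∅)
    (hMV : ∀ A B, IsCompact A → IsCompact B → P A → P B → P (A ∩ B) → P (A ∪ B))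
    (hOff : ∀ L, IsCompact L → L ⊆ Fᶜ → P L) {e : OpenPartialHomeomorph X (ℂ × ℂ)}
    (he : FlatCh F e) (hRot : ∀ C, IsCompact C → Convex ℝ C → RotInv C → C ⊆ e.target →
      P (e.symm '' C)) {L O : Set X} (hL : IsCompact L) (hLe : L ⊆ e.source) (hO : IsOpen O)
    (hLO : L ⊆ O) : ∃ L', L ⊆ L' ∧ L' ⊆ O ∧ P L' := by
  have h1 : ∀ x : (L ∩ F : Set X), ∃ r > 0, closedBall (e x) r ⊆ e.target ∩ e.symm ⁻¹' O :=
    fun x => nhds_basis_closedBall.mem_iff.1 ((e.isOpen_inter_preimage_symm hO).mem_nhds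
      ⟨e.map_source (hLe x.2.1), by
        rw [mem_preimage, e.left_inv (hLe x.2.1)]
        exact hLO x.2.1⟩)
  choose r hr hr' using h1
  have hU : ∀ x : (L ∩ F : Set X), IsOpen (e.source ∩ e ⁻¹' ball (e x) (r x)) := fun x =>
    e.isOpen_inter_preimage isOpen_ball
  obtain ⟨t, ht⟩ := (hL.inter_right hF).elim_finite_subcover _ hU fun x hx =>
    mem_iUnion.2 ⟨⟨x, hx⟩, hLe hx.1, mem_ball_self (hr ⟨x, hx⟩)⟩
  have hc : ∀ C, IsCompact C → C ⊆ e.target → IsCompact (e.symm '' C) := fun C h h' =>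
    h.image_of_continuousOn (e.continuousOn_symm.mono h')
  have h2 : P (⋃ x ∈ t, e.symm '' closedBall (e x) (r x)) := by
    refine ind_fin (Q := IsCompact) (𝓑 := {A | ∃ C, IsCompact C ∧ Convex ℝ C ∧ RotInv C ∧
      C ⊆ e.target ∧ A = e.symm '' C}) (fun _ _ => IsCompact.union) isCompact_empty ?_ h0 ?_ ?_ hMV
      t _ fun x _ => ⟨_, isCompact_closedBall _ _, convex_closedBall _ _,
        FG_rot ((he x (hLe x.2.1)).1 x.2.2) _, (hr' x).trans inter_subset_left, rfl⟩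
    · rintro _ ⟨C, a1, -, -, a4, rfl⟩
      exact hc C a1 a4
    · rintro _ ⟨C, a1, a2, a3, a4, rfl⟩ _ ⟨D, b1, b2, b3, b4, rfl⟩
      exact ⟨C ∩ D, a1.inter b1, a2.inter b2, fun x hx w hw => ⟨a3 x hx.1 w hw, b3 x hx.2 w hw⟩,
        inter_subset_left.trans a4, (e.symm.injOn.image_inter a4 b4).symm⟩
    · rintro _ ⟨C, a1, a2, a3, a4, rfl⟩
      exact hRot C a1 a2 a3 a4
  have h3 : IsCompact (⋃ x ∈ t, e.symm '' closedBall (e x) (r x)) :=
    t.isCompact_biUnion fun x _ => hc _ (isCompact_closedBall _ _)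
      ((hr' x).trans inter_subset_left)
  have h4 := hL.diff (isOpen_biUnion (s := (t : Set (L ∩ F : Set X))) fun x _ => hU x)
  have h5 : L \ ⋃ x ∈ (t : Set (L ∩ F : Set X)), e.source ∩ e ⁻¹' ball (e x) (r x) ⊆ Fᶜ :=
    fun x hx hxF => hx.2 (ht ⟨hx.1, hxF⟩)
  refine ⟨_, fun x hx => ?_, union_subset (iUnion₂_subset fun x _ => ?_) (sdiff_subset.trans hLO),
    hMV _ _ h3 h4 h2 (hOff _ h4 h5) (hOff _ (h3.inter h4) (inter_subset_right.trans h5))⟩
  · by_cases h : x ∈ ⋃ x ∈ (t : Set (L ∩ F : Set X)), e.source ∩ e ⁻¹' ball (e x) (r x)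
    · obtain ⟨y, hy, h⟩ := mem_iUnion₂.1 h
      exact .inl (mem_iUnion₂.2 ⟨y, hy, e x, ball_subset_closedBall h.2, e.left_inv h.1⟩)
    · exact .inr ⟨hx, h⟩
  · exact image_subset_iff.2 ((hr' x).trans inter_subset_right)

theorem fg_stmt (B : Bas1) (hFGMV : FGMVStmt)
    (hFGOff : FGOffStmt) (hFGRot : FGRotStmt) : FGStmt := by
  intro R _ _ X G Y _ _ _ _ _ _ _ F p s h L O hL hO hLO k
  obtain ⟨h0, hMV⟩ := hFGMV R X G Y p s h.cov.cont (h.cov.inv s)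
  have h1 : FGL R p s L := by
    refine ind_compact (ι := Option {e // FlatCh F e}) (T := fun o => o.elim Fᶜ fun e => e.1.source)
      (S := univ) h0 ?_ ?_ hMV hL (subset_univ L) fun x _ => ?_
    · rintro (_ | e)
      exacts [h.flat.cl.isOpen_compl, e.1.open_source]
    · rintro (_ | e) L hL - hLe
      · exact hFGOff R X G Y F p s h L hL hLe
      · intro k O hO hLO
        obtain ⟨L', a1, a2, a3⟩ := FG_chart h.flat.cl h0 hMV (hFGOff R X G Y F p s h) e.2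
          (fun C => hFGRot R X G Y F p s h e.1 C e.2) hL hLe hO hLO
        obtain ⟨N, b1, b2, b3⟩ := a3 k O hO a2
        exact ⟨N, b1, a1.trans b2, b3⟩
    · by_cases hx : x ∈ F
      · obtain ⟨e, he, hx'⟩ := h.flat.ch x hx
        exact mem_iUnion.2 ⟨some ⟨e, he⟩, hx'⟩
      · exact mem_iUnion.2 ⟨none, hx⟩
  obtain ⟨N, -, b2, -, n, z, b3, b4⟩ := h1 k O hO hLO
  exact ⟨n, z, b3, fun y hy => b4 y ⟨⟨CH_mono (preimage_mono b2) hy.1.1, hy.1.2⟩, hy.2⟩⟩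

end Pool.Agent.MP_bc14e1_gt
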