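import Pool.Agent.MP_bc14e1_gt.IfC

open Set Metric
open scoped Classical

namespace Pool.Agent.MP_bc14e1_gt

/-- Cycles in a union of two disjoint open sets split. -/
theorem FGCtr_two {R Y : Type} [CommRing R] [TopologicalSpace Y] {U V : Set Y} (hU : IsOpen U)
    (hV : IsOpen V) (hd : Disjoint U V) (k : ℕ) : ZC R (U ∪ V) k ≤ ZC R U k ⊔ ZC R V k := by
  rintro c ⟨⟨h1, h2⟩, h3⟩
  rw [SetLike.mem_coe, CH_union_of_disjoint hU hV hd] at h1
  obtain ⟨a, ha, b, hb, e⟩ := Submodule.mem_sup.1 h1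
  have e' : deg R Y k a + deg R Y k b = c := by rw [← map_add, e, deg_of_mem h2]
  have ha' := deg_mem_CH k ha
  have hb' := deg_mem_CH k hb
  have h4 : dT R Y (deg R Y k a) + dT R Y (deg R Y k b) = 0 := by
    rw [← map_add, e']
    exact h3
  have h5 : dT R Y (deg R Y k a) = 0 := by
    apply eq_zero_of_mem_CH_empty
    rw [← hd.inter_eq, CH_inter]
    refine ⟨dT_mem_CH ha', ?_⟩
    rw [eq_neg_of_add_eq_zero_left h4]
    exact neg_mem (dT_mem_CH hb')
  rw [h5, zero_add] at h4
  exact Submodule.mem_sup.2 ⟨_, ⟨⟨ha', deg_mem k a⟩, h5⟩, _, ⟨⟨hb', deg_mem k b⟩, h4⟩, e'⟩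

/-- Cycles in a disjoint union of open sets split. -/
theorem FGCtr_disj {R Y ι : Type} [CommRing R] [TopologicalSpace Y] (S : ι → Set Y)
    (hS : ∀ i, IsOpen (S i)) (hd : Pairwise fun i j => Disjoint (S i) (S j)) (k : ℕ)
    (T : Submodule R (Tot R Y)) (h : ∀ i, ZC R (S i) k ≤ T) : ZC R (⋃ i, S i) k ≤ T := by
  have hop : ∀ t : Finset ι, IsOpen (⋃ i ∈ t, S i) := fun t => isOpen_biUnion fun i _ => hS i
  have key : ∀ t : Finset ι, ZC R (⋃ i ∈ t, S i) k ≤ T := by
    intro t
    induction t using Finset.induction_on with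
    | empty =>
      intro c hc
      have : c = 0 := eq_zero_of_mem_CH_empty (by simpa using hc.1.1)
      rw [this]
      exact zero_mem _
    | insert a t ha ih =>
      rw [Finset.set_biUnion_insert]
      refine (FGCtr_two (hS a) (hop t) ?_ k).trans (sup_le (h a) ih)
      rw [Set.disjoint_iUnion₂_right]
      exact fun i hi => hd fun e => ha (e ▸ hi)
  intro c hc
  have h1 : c ∈ CH R (⋃ t : Finset ι, ⋃ i ∈ t, S i) := by
    rw [← Set.iUnion_eq_iUnion_finset]
    exact hc.1.1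
  obtain ⟨t, ht⟩ := exists_CH_of_directed hop (directed_of_isDirected_le fun t t' htt' =>
    Set.biUnion_subset_biUnion_left (Finset.coe_subset.2 htt')) h1
  exact key t ⟨⟨ht, hc.1.2⟩, hc.2⟩

theorem FGCtr_psh_BC {R X Y : Type} [CommRing R] [TopologicalSpace X] [TopologicalSpace Y]
    {f : X → Y} {A : Set X} {C : Set Y} (hf : ContinuousOn f A) (hm : MapsTo f A C) {k : ℕ}
    {c : Tot R X} (hc : c ∈ BC R A k) : psh R f c ∈ BC R C k := by
  obtain ⟨b, hb, rfl⟩ := hc
  exact ⟨psh R f b, ⟨psh_mem_CH f hm hb.1, psh_mem_DG f hb.2⟩, dT_psh hf hb.1⟩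

theorem fgCtr_stmt (B : Bas1) : FGCtrStmt := by
  intro R _ X G Y _ _ _ _ _ F p s hT N x hN hNF hC k
  obtain ⟨-, -, -, hsurj, -⟩ := B.cov G X Y Fᶜ p hT.cov
  obtain ⟨y0, hy0⟩ := hsurj x (hNF hC.1)
  obtain ⟨σ, hσ, hpσ, -, hop⟩ := B.sec G X Y Fᶜ p hT.cov N x hNF hC y0 (hy0 ▸ hC.1)
  obtain ⟨hpos, hzero⟩ := B.ctr R X N x hC
  have hcont : ∀ g : G, ContinuousOn (fun u => g • σ u) N := fun g =>
    (continuous_const_smul g).comp_continuousOn hσ
  have hmap : ∀ g : G, MapsTo (fun u => g • σ u) N (p ⁻¹' N) := fun g u hu => by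
    change p (g • σ u) ∈ N
    rw [hT.cov.inv, hpσ u hu]
    exact hu
  have hcover : p ⁻¹' N = ⋃ g : G, (fun u => g • σ u) '' N := by
    apply Set.Subset.antisymm
    · intro y hy
      obtain ⟨g, hg⟩ := hT.cov.trans (σ (p y)) y (hpσ _ hy)
      exact Set.mem_iUnion.2 ⟨g, p y, hy, hg.symm⟩
    · exact Set.iUnion_subset fun g => (hmap g).image_subset
  have hred : ∀ T : Submodule R (Tot R Y),
      (∀ g : G, ∀ c ∈ ZC R N k, psh R (fun u => g • σ u) c ∈ T) → ZC R (p ⁻¹' N) k ≤ T := by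
    intro T hTm
    rw [hcover]
    refine FGCtr_disj _ (fun g => ?_) (fun g g' hg => ?_) k T fun g c hc => ?_
    · have : (fun u => g • σ u) '' N = (fun y : Y => g • y) '' (σ '' N) := by
        rw [Set.image_image]
      rw [this]
      exact isOpenMap_smul g _ (hop hN)
    · refine Set.disjoint_left.2 ?_
      rintro _ ⟨a, ha, rfl⟩ ⟨b, hb, e⟩
      have e' : g' • σ b = g • σ a := e
      have hab : b = a := by
        have := congrArg p e'
        rwa [hT.cov.inv, hT.cov.inv, hpσ a ha, hpσ b hb] at this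
      subst hab
      have := hT.cov.free (g⁻¹ * g') (σ b) (by rw [mul_smul, e', inv_smul_smul])
      exact hg (inv_mul_eq_one.1 this)
    · have h1 : psh R p c ∈ ZC R N k := by
        refine ⟨⟨psh_mem_CH p (fun y hy => (hmap g).image_subset hy) hc.1.1,
          psh_mem_DG p hc.1.2⟩, ?_⟩
        have : dT R Y c = 0 := hc.2
        rw [SetLike.mem_coe, LinearMap.mem_ker, dT_psh_cont hT.cov.cont, this, map_zero]
      have h2 := hTm g _ h1
      rw [psh_psh' _ hT.cov.cont, psh_of_eqOn_id (A := (fun u => g • σ u) '' N) ?_ hc.1.1] at h2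
      · exact h2
      · rintro _ ⟨a, ha, rfl⟩
        change g • σ (p (g • σ a)) = g • σ a
        rw [hT.cov.inv, hpσ a ha]
  by_cases hk : k = 0
  · subst hk
    have hfin := hT.fin
    obtain ⟨n, ⟨e⟩⟩ := Finite.exists_equiv_fin (G ⧸ Subgroup.zpowers s)
    let z : Fin n → Tot R Y := fun i => pt R ((e.symm i).out • σ x)
    let T : Submodule R (Tot R Y) :=
      { carrier := {y | ∃ a : Fin n → Lam R, y - ∑ i, act R Y s (a i) (z i) ∈ BC R (p ⁻¹' N) 0}
        zero_mem' := ⟨0, by simp⟩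
        add_mem' := by
          rintro u v ⟨a, ha⟩ ⟨b, hb⟩
          refine ⟨a + b, ?_⟩
          have := add_mem ha hb
          simp only [Pi.add_apply, map_add, LinearMap.add_apply, Finset.sum_add_distrib]
          rwa [sub_add_sub_comm] at this
        smul_mem' := by
          rintro r u ⟨a, ha⟩
          refine ⟨r • a, ?_⟩
          have := Submodule.smul_mem _ r ha
          simp only [Pi.smul_apply, map_smul, LinearMap.smul_apply]
          rwa [smul_sub, Finset.smul_sum] at this }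
    refine ⟨n, z, fun i => ⟨⟨pt_mem_CH (hmap _ hC.1), pt_mem_DG _⟩, dT_pt _⟩, hred T ?_⟩
    intro g c hc
    have h1 := FGCtr_psh_BC (hcont g) (hmap g) (hzero c hc.1)
    rw [map_sub, map_smul, psh_pt] at h1
    have h2 : pt R (g • σ x) ∈ T := by
      obtain ⟨⟨_, m, rfl⟩, hm⟩ := QuotientGroup.mk_out_eq_mul (Subgroup.zpowers s) g
      refine ⟨Pi.single (e (QuotientGroup.mk g)) (LaurentPolynomial.T (-m)), ?_⟩
      rw [Finset.sum_eq_single (e (QuotientGroup.mk g))
        (fun i _ hi => by rw [Pi.single_eq_of_ne hi, map_zero, LinearMap.zero_apply])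
        (fun h => absurd (Finset.mem_univ _) h), Pi.single_eq_same, act_T]
      have hc : Commute g s := hT.cen g
      have : s ^ (-m) • (e.symm (e (QuotientGroup.mk g))).out • σ x = g • σ x := by
        rw [e.symm_apply_apply, hm, ← mul_smul]
        change (s ^ (-m) * (g * s ^ m)) • σ x = _
        rw [(hc.zpow_right m).eq, ← mul_assoc, ← zpow_add, neg_add_cancel, zpow_zero, one_mul]
      change _ - gs R Y _ (pt R _) ∈ _
      rw [gs, psh_pt, this, sub_self]
      exact zero_mem _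
    have h3 : psh R (fun u => g • σ u) c - val0 R (fun _ => (1 : R)) c • pt R (g • σ x) ∈ T :=
      ⟨0, by simpa using h1⟩
    have := add_mem h3 (T.smul_mem (val0 R (fun _ => (1 : R)) c) h2)
    rwa [sub_add_cancel] at this
  · refine ⟨0, Fin.elim0, fun i => i.elim0, fun y hy => ⟨Fin.elim0, ?_⟩⟩
    rw [Finset.univ_eq_empty, Finset.sum_empty, sub_zero]
    exact hred _ (fun g c hc => FGCtr_psh_BC (hcont g) (hmap g) (hpos k hk hc)) hy

end Pool.Agent.MP_bc14e1_gt
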