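import Pool.Agent.MP_bc14e1_gt.IfC
import Pool.Agent.MP_bc14e1_gt.Ind

open Set Metric
open scoped Classical

namespace Pool.Agent.MP_bc14e1_gt

section Alg

variable {L C : Type} [CommRing L] [AddCommGroup C] [Module L C]

/-- The elements of `Z` are generated modulo `Bd` by finitely many elements of `Z'`. -/
def FGMV_fg (Z Z' Bd : Submodule L C) : Prop := ∃ F : Submodule L C, F.FG ∧ F ≤ Z' ∧ Z ≤ F ⊔ Bd

theorem FGMV_lift {C' : Type} [AddCommGroup C'] [Module L C'] (D : Submodule L C)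
    (δ : C →ₗ[L] C') (h : (D.map δ).FG) :
    ∃ D' : Submodule L C, D'.FG ∧ D' ≤ D ∧ D.map δ ≤ D'.map δ := by
  obtain ⟨n, z, hz⟩ := Submodule.fg_iff_exists_fin_generating_family.1 h
  have h1 : ∀ i, ∃ x ∈ D, δ x = z i := fun i =>
    Submodule.mem_map.1 (hz ▸ Submodule.subset_span (mem_range_self i))
  choose x hx hx' using h1
  refine ⟨Submodule.span L (range x), Submodule.fg_span (finite_range x),
    Submodule.span_le.2 (range_subset_iff.2 hx), ?_⟩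
  rw [← hz]
  exact Submodule.span_le.2 (range_subset_iff.2 fun i =>
    ⟨x i, Submodule.subset_span (mem_range_self i), hx' i⟩)

theorem FGMV_alg [IsNoetherianRing L] (d : C →ₗ[L] C) {MU MV MA MB MO M0 BO F0 : Submodule L C}
    (hUA : MU ≤ MA) (hVB : MV ≤ MB) (h0A : M0 ≤ MA) (h0B : M0 ≤ MB) (hAO : MA ≤ MO)
    (hBO : MB ≤ MO) (hF0 : F0.FG)
    (h0 : ∀ a ∈ MU, ∀ b ∈ MV, d a + d b = 0 → d a ∈ F0 ⊔ M0.map d)
    (hA : FGMV_fg (MA ⊓ LinearMap.ker d) (MO ⊓ LinearMap.ker d) BO)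
    (hB : FGMV_fg (MB ⊓ LinearMap.ker d) (MO ⊓ LinearMap.ker d) BO) :
    FGMV_fg ((MU ⊔ MV) ⊓ LinearMap.ker d) (MO ⊓ LinearMap.ker d) BO := by
  obtain ⟨FA, hFA, hFA1, hFA2⟩ := hA
  obtain ⟨FB, hFB, hFB1, hFB2⟩ := hB
  obtain ⟨D', hD', hD1, hD2⟩ := FGMV_lift
    (MU.prod MV ⊓ LinearMap.ker (d ∘ₗ LinearMap.coprod LinearMap.id LinearMap.id))
    ((M0.map d).mkQ ∘ₗ d ∘ₗ LinearMap.fst L C C) ((hF0.map (M0.map d).mkQ).of_le (by
      rintro _ ⟨⟨a, b⟩, ⟨⟨ha, hb⟩, hab⟩, rfl⟩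
      obtain ⟨f, hf, w, hw, e⟩ := Submodule.mem_sup.1 (h0 a ha b hb (by
        rw [← map_add]
        exact hab))
      refine ⟨f, hf, ?_⟩
      change (M0.map d).mkQ f = (M0.map d).mkQ (d a)
      rw [← e, map_add, Submodule.mkQ_apply _ w, (Submodule.Quotient.mk_eq_zero _).2 hw,
        add_zero]))
  refine ⟨D'.map (LinearMap.coprod LinearMap.id LinearMap.id) ⊔ (FA ⊔ FB),
    (hD'.map _).sup (hFA.sup hFB), sup_le ?_ (sup_le hFA1 hFB1), ?_⟩
  · rintro _ ⟨⟨a, b⟩, hab, rfl⟩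
    obtain ⟨⟨ha, hb⟩, h⟩ := hD1 hab
    exact ⟨MO.add_mem (hAO (hUA ha)) (hBO (hVB hb)), h⟩
  · rintro y ⟨hy, hy0⟩
    obtain ⟨a, ha, b, hb, rfl⟩ := Submodule.mem_sup.1 hy
    obtain ⟨⟨a', b'⟩, hab', e⟩ := hD2 ⟨(a, b), ⟨⟨ha, hb⟩, hy0⟩, rfl⟩
    obtain ⟨⟨ha', hb'⟩, h'⟩ := hD1 hab'
    obtain ⟨v, hv, hv'⟩ : d a' - d a ∈ M0.map d := (Submodule.Quotient.eq _).1 e
    have e1 : d (a + b) = 0 := hy0
    have e2 : d (a' + b') = 0 := h'
    rw [map_add] at e1 e2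
    have h1 := hFA2 (x := a - a' + v) ⟨MA.add_mem (MA.sub_mem (hUA ha) (hUA ha')) (h0A hv), by
      rw [SetLike.mem_coe, LinearMap.mem_ker, map_add, map_sub, hv']
      abel⟩
    have h2 := hFB2 (x := b - b' - v) ⟨MB.sub_mem (MB.sub_mem (hVB hb) (hVB hb')) (h0B hv), by
      rw [SetLike.mem_coe, LinearMap.mem_ker, map_sub, map_sub, hv',
        eq_neg_of_add_eq_zero_right e1, eq_neg_of_add_eq_zero_right e2]
      abel⟩
    have e3 : a + b = (a' + b') + ((a - a' + v) + (b - b' - v)) := by abel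
    rw [e3]
    refine Submodule.add_mem _ (Submodule.mem_sup_left (Submodule.mem_sup_left
      ⟨(a', b'), hab', rfl⟩)) (Submodule.add_mem _ ?_ ?_)
    · exact sup_le_sup_right (le_sup_left.trans le_sup_right) BO h1
    · exact sup_le_sup_right (le_sup_right.trans le_sup_right) BO h2

end Alg

section Top

variable {R : Type} [CommRing R] {X G Y : Type} [Group G] [TopologicalSpace Y] [MulAction G Y]
  [ContinuousConstSMul G Y] {p : Y → X} {s : G}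

theorem FGMV_iff (hp : ∀ y, p (s • y) = p y) (N O : Set X) (k : ℕ) :
    FGI R s (p ⁻¹' N) (p ⁻¹' O) k ↔
      FGMV_fg (lvTw R s p hp k N ⊓ LinearMap.ker (dTw R Y s))
        (lvTw R s p hp k O ⊓ LinearMap.ker (dTw R Y s))
        ((lvTw R s p hp (k + 1) O).map (dTw R Y s)) := by
  constructor
  · rintro ⟨n, z, hz, h⟩
    refine ⟨Submodule.span (Lam R) (range fun i => toTw R Y s (z i)),
      Submodule.fg_span (finite_range _), Submodule.span_le.2 (range_subset_iff.2 hz),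
      fun y hy => ?_⟩
    obtain ⟨a, ha⟩ := h y hy
    refine Submodule.mem_sup.2 ⟨∑ i, a i • toTw R Y s (z i),
      Submodule.sum_mem _ fun i _ => Submodule.smul_mem _ _
        (Submodule.subset_span (mem_range_self i)),
      y - ∑ i, a i • toTw R Y s (z i), ha, add_sub_cancel _ _⟩
  · rintro ⟨F, hF, h1, h2⟩
    obtain ⟨n, z, rfl⟩ := Submodule.fg_iff_exists_fin_generating_family.1 hF
    refine ⟨n, z, fun i => h1 (Submodule.subset_span (mem_range_self i)), fun y hy => ?_⟩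
    obtain ⟨f, hf, w, hw, e⟩ := Submodule.mem_sup.1 (h2 (x := toTw R Y s y) hy)
    obtain ⟨a, rfl⟩ := (Submodule.mem_span_range_iff_exists_fun _).1 hf
    have e' : toTw R Y s y - ∑ i, a i • z i = w := by rw [← e, add_sub_cancel_left]
    refine ⟨a, ?_⟩
    change toTw R Y s y - ∑ i, a i • z i ∈ (lvTw R s p hp (k + 1) O).map (dTw R Y s)
    rwa [e']

theorem FGMV_mono (hp : ∀ y, p (s • y) = p y) (k : ℕ) {N O : Set X} (h : N ⊆ O) :
    lvTw R s p hp k N ≤ lvTw R s p hp k O :=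
  fun _ hc => ⟨CH_mono (preimage_mono h) hc.1, hc.2⟩

theorem FGMV_small {U V : Set Y} (hU : IsOpen U) (hV : IsOpen V) {k : ℕ} {y : Tot R Y}
    (hy : y ∈ ZC R (U ∪ V) k) : ∃ a ∈ CC R U k, ∃ b ∈ CC R V k, dT R Y (a + b) = 0 ∧
      y - (a + b) ∈ BC R (U ∪ V) k := by
  obtain ⟨m, hm⟩ := sdT_small_two hU hV hy.1.1
  obtain ⟨a, ha, b, hb, e⟩ := Submodule.mem_sup.1 (hm m le_rfl)
  have h0 : dT R Y y = 0 := hy.2
  have e1 : deg R Y k a + deg R Y k b = (sdT R Y ^ m) y := by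
    rw [← map_add, e, deg_of_mem (sdT_pow_mem_DG m hy.1.2)]
  refine ⟨deg R Y k a, ⟨deg_mem_CH k ha, deg_mem k a⟩, deg R Y k b,
    ⟨deg_mem_CH k hb, deg_mem k b⟩, ?_, sdHP R Y m y,
    ⟨sdHP_mem_CH m hy.1.1, sdHP_mem_DG m hy.1.2⟩, ?_⟩
  · rw [e1, dT_sdT_pow, h0, map_zero]
  · rw [e1, ← dT_sdHP, h0, map_zero, add_zero]

theorem FGMV_step [IsNoetherianRing (Lam R)] [TopologicalSpace X] (hc : Continuous p)
    (hp : ∀ y, p (s • y) = p y) {k : ℕ} {U V NA NB O : Set X} (hU : IsOpen U) (hV : IsOpen V)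
    (hUA : U ⊆ NA) (hVB : V ⊆ NB) (hAO : NA ⊆ O) (hBO : NB ⊆ O)
    (hA : FGI R s (p ⁻¹' NA) (p ⁻¹' O) k) (hB : FGI R s (p ⁻¹' NB) (p ⁻¹' O) k)
    {F0 : Submodule (Lam R) (Tw R Y s)} (hF0 : F0.FG)
    (h0 : ∀ a ∈ lvTw R s p hp k U, ∀ b ∈ lvTw R s p hp k V, dTw R Y s a + dTw R Y s b = 0 →
      dTw R Y s a ∈ F0 ⊔ (lvTw R s p hp k (NA ∩ NB)).map (dTw R Y s)) :
    FGI R s (p ⁻¹' (U ∪ V)) (p ⁻¹' O) k := by
  obtain ⟨F, hF, h1, h2⟩ := FGMV_alg (dTw R Y s) (FGMV_mono hp k hUA) (FGMV_mono hp k hVB)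
    (FGMV_mono hp k inter_subset_left) (FGMV_mono hp k inter_subset_right) (FGMV_mono hp k hAO)
    (FGMV_mono hp k hBO) hF0 h0 ((FGMV_iff hp _ _ _).1 hA) ((FGMV_iff hp _ _ _).1 hB)
  refine (FGMV_iff hp _ _ _).2 ⟨F, hF, h1, fun y hy => ?_⟩
  obtain ⟨a, ha, b, hb, hab, hw⟩ := FGMV_small (R := R) (hU.preimage hc) (hV.preimage hc)
    (k := k) (y := y) hy
  have h3 := h2 (x := toTw R Y s a + toTw R Y s b)
    ⟨Submodule.add_mem_sup (S := lvTw R s p hp k U) (T := lvTw R s p hp k V) ha hb, hab⟩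
  have h4 : y - (toTw R Y s a + toTw R Y s b) ∈
      (lvTw R s p hp (k + 1) (U ∪ V)).map (dTw R Y s) := hw
  have h5 := Submodule.map_mono (f := dTw R Y s)
    (FGMV_mono hp (k + 1) (union_subset (hUA.trans hAO) (hVB.trans hBO))) h4
  have h6 := Submodule.add_mem _ h3 (Submodule.mem_sup_right h5)
  rwa [add_sub_cancel] at h6

end Top

theorem fgMV_stmt (B : Bas1) : FGMVStmt := by
  intro R _ _ X G Y _ _ _ _ _ _ p s hc hp
  have := B.laur.2.1 R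
  refine ⟨fun k O _ _ => ⟨∅, isOpen_empty, Subset.rfl, empty_subset _, 0, Fin.elim0,
    fun i => i.elim0, fun y hy => ⟨Fin.elim0, ?_⟩⟩, fun A B' hA hB fA fB fI k O hO hAB => ?_⟩
  · rw [eq_zero_of_mem_CH_empty hy.1.1, Finset.univ_eq_empty, Finset.sum_empty, sub_zero]
    exact Submodule.zero_mem _
  obtain ⟨NA, oA, sA, tA, gA⟩ := fA k O hO (subset_union_left.trans hAB)
  obtain ⟨NB, oB, sB, tB, gB⟩ := fB k O hO (subset_union_right.trans hAB)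
  cases k with
  | zero =>
    refine ⟨NA ∪ NB, oA.union oB, union_subset_union sA sB, union_subset tA tB,
      FGMV_step hc hp oA oB Subset.rfl Subset.rfl tA tB gA gB Submodule.fg_bot
        fun a ha _ _ _ => ?_⟩
    have h : dTw R Y s a = 0 := dT_of_DG_zero ha.2
    rw [h]
    exact Submodule.zero_mem _
  | succ k =>
    obtain ⟨N0, o0, s0, -, g0⟩ := fI k (NA ∩ NB) (oA.inter oB) (inter_subset_inter sA sB)
    obtain ⟨U, V, oU, oV, sU, sV, hUV⟩ := exists_nhds_inter hA hB o0 s0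
    obtain ⟨F0, hF0, -, h2⟩ := (FGMV_iff hp _ _ _).1 g0
    refine ⟨U ∩ NA ∪ V ∩ NB, (oU.inter oA).union (oV.inter oB),
      union_subset_union (subset_inter sU sA) (subset_inter sV sB),
      union_subset (inter_subset_right.trans tA) (inter_subset_right.trans tB),
      FGMV_step hc hp (oU.inter oA) (oV.inter oB) inter_subset_right inter_subset_right tA tB gA gB
        hF0 fun a ha b hb hab => h2 ⟨⟨?_, dT_mem_DG ha.2⟩, dT_dT a⟩⟩
    have h3 : dT R Y a ∈ CH R (p ⁻¹' (U ∩ NA)) := dT_mem_CH ha.1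
    have h4 : dT R Y a ∈ CH R (p ⁻¹' (V ∩ NB)) := by
      have e : dT R Y a = -dT R Y b := eq_neg_of_add_eq_zero_left hab
      rw [e]
      exact Submodule.neg_mem _ (dT_mem_CH hb.1)
    have h5 : dT R Y a ∈ CH R (p ⁻¹' (U ∩ NA) ∩ p ⁻¹' (V ∩ NB)) := by
      rw [CH_inter]
      exact ⟨h3, h4⟩
    exact CH_mono (B := p ⁻¹' N0) (fun y hy => hUV ⟨hy.1.1, hy.2.1⟩) h5

end Pool.Agent.MP_bc14e1_gt
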