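import Pool.Agent.MP_bc14e1_gt.IfC

open Set Metric
open scoped Classical

namespace Pool.Agent.MP_bc14e1_gt

theorem FGRot_move (κ : Kit) {R : Type} [CommRing R] {G Y : Type} [Group G] [TopologicalSpace Y]
    [MulAction G Y] [ContinuousConstSMul G Y] {s : G} {A A1 O : Set Y} {k : ℕ} {H : ℝ × Y → Y}
    (hH : ContinuousOn H (Icc 0 1 ×ˢ A)) (h0 : ∀ y, H (0, y) = y)
    (hO : MapsTo H (Icc 0 1 ×ˢ A) O) (h1 : ∀ y ∈ A, H (1, y) ∈ A1) (h : FGI R s A1 O k) :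
    FGI R s A O k := by
  obtain ⟨n, z, hz, h⟩ := h
  refine ⟨n, z, hz, fun y hy => ?_⟩
  have hd : dT R Y y = 0 := hy.2
  have hc : ContinuousOn (fun y => H (1, y)) A :=
    hH.comp (f := fun y => ((1 : ℝ), y)) (by fun_prop) fun y hy => ⟨⟨zero_le_one, le_rfl⟩, hy⟩
  obtain ⟨a, ha⟩ := h (psh R (fun y => H (1, y)) y)
    ⟨⟨psh_mem_CH _ h1 hy.1.1, psh_mem_DG _ hy.1.2⟩, by
      change dT R Y _ = 0
      rw [dT_psh hc hy.1.1, hd, map_zero]⟩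
  have e := dT_hop κ hH hy.1.1
  rw [hd, map_zero, add_zero, psh_of_eqOn_id (fun y _ => h0 y) hy.1.1] at e
  have hb : psh R (fun y => H (1, y)) y - y ∈ BC R O k :=
    ⟨_, ⟨hop_mem_CH κ H hO hy.1.1, hop_mem_DG κ H hy.1.2⟩, e⟩
  have h2 := Submodule.sub_mem _ ha hb
  rw [sub_sub_sub_cancel_left] at h2
  exact ⟨a, h2⟩

/-- The straight homotopy onto a circle. -/
noncomputable def FGRot_h (z : ℂ) (r : ℝ) (q : ℝ × ℂ × ℂ) : ℂ × ℂ :=
  (1 - q.1) • q.2 + q.1 • (z, (r / ‖q.2.2‖) • q.2.2)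

theorem FGRot_cont (z : ℂ) (r : ℝ) : ContinuousOn (FGRot_h z r) {q | q.2.2 ≠ 0} := by
  have h : ContinuousOn (fun q : ℝ × ℂ × ℂ => r / ‖q.2.2‖) {q | q.2.2 ≠ 0} :=
    continuousOn_const.div (by fun_prop) fun q hq => norm_ne_zero_iff.2 hq
  unfold FGRot_h
  fun_prop

theorem FGRot_norm {r : ℝ} (hr : 0 < r) {w : ℂ} (hw : w ≠ 0) : ‖(r / ‖w‖) • w‖ = r := by
  rw [norm_smul, Real.norm_of_nonneg (by positivity), div_mul_cancel₀ _ (norm_ne_zero_iff.2 hw)]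

theorem FGRot_ne (z : ℂ) {r : ℝ} (hr : 0 < r) {θ : ℝ} (hθ : θ ∈ Icc (0 : ℝ) 1) {x : ℂ × ℂ}
    (hx : x.2 ≠ 0) : (FGRot_h z r (θ, x)).2 ≠ 0 := by
  have e : (FGRot_h z r (θ, x)).2 = (1 - θ + θ * (r / ‖x.2‖)) • x.2 := by
    rw [add_smul, mul_smul]
    rfl
  have h : 0 < r / ‖x.2‖ := div_pos hr (norm_pos_iff.2 hx)
  rw [e]
  refine smul_ne_zero (ne_of_gt ?_) hx
  rcases hθ.1.eq_or_lt with h0 | h0
  · rw [← h0]
    norm_num
  · have := mul_pos h0 h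
    linarith [hθ.2]

theorem fgRot_stmt (B : Bas1) (hFGMV : FGMVStmt) (hFGOff : FGOffStmt) : FGRotStmt := by
  intro R _ _ X G Y _ _ _ _ _ _ _ F p s T e L he hL hC hR hLe
  rcases L.eq_empty_or_nonempty with rfl | ⟨x0, hx0⟩
  · rw [image_empty]
    exact (hFGMV R X G Y p s T.cov.cont (T.cov.inv s)).1
  intro k O hO hLO
  obtain ⟨κ⟩ := B.kit
  obtain ⟨δ, hδ, hB⟩ := hL.exists_thickening_subset_open
    (e.continuousOn_symm.isOpen_inter_preimage e.open_target hO)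
    fun x hx => ⟨hLe hx, hLO ⟨x, hx, rfl⟩⟩
  have hr : 0 < δ / 2 := half_pos hδ
  have hz : (x0.1, (0 : ℂ)) ∈ L := by
    have h := hC hx0 (hR x0 hx0 (-x0.2) (norm_neg _)) (a := 1 / 2) (b := 1 / 2) (by norm_num)
      (by norm_num) (by norm_num)
    convert h using 1
    ext
    · simp only [Prod.fst_add, Prod.smul_fst, ← add_smul]
      norm_num
    · simp
  have hw : ∀ w : ℂ, ‖w‖ = δ / 2 → (x0.1, w) ∈ thickening δ L := fun w hw =>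
    mem_thickening_iff.2 ⟨_, hz, by
      rw [Prod.dist_eq, dist_self, dist_zero_right, hw, max_eq_right hr.le]
      exact half_lt_self hδ⟩
  have hm : ∀ θ ∈ Icc (0 : ℝ) 1, ∀ x ∈ thickening δ L, x.2 ≠ 0 →
      FGRot_h x0.1 (δ / 2) (θ, x) ∈ thickening δ L := fun θ hθ x hx hx' =>
    hC.thickening δ hx (hw _ (FGRot_norm hr hx')) (sub_nonneg.2 hθ.2) hθ.1 (sub_add_cancel _ _)
  have hF : ∀ x ∈ e.source, x ∈ Fᶜ → (e x).2 ≠ 0 := fun x hx hx' h => hx' ((he x hx).2 h)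
  have hF' : ∀ x ∈ e.target, x.2 ≠ 0 → e.symm x ∈ Fᶜ := fun x hx hx' h =>
    hx' (by simpa only [e.right_inv hx] using (he _ (e.map_target hx)).1 h)
  obtain ⟨H, hH, h0, h1, -⟩ := B.hl G X Y Fᶜ p T.cov (e.source ∩ e ⁻¹' thickening δ L)
    (fun q => e.symm (FGRot_h x0.1 (δ / 2) (q.1, e q.2)))
    (e.continuousOn_symm.comp ((FGRot_cont _ _).comp (continuousOn_fst.prodMk
      (e.continuousOn.comp continuousOn_snd fun q hq => hq.2.1.1))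
      fun q hq => hF _ hq.2.1.1 hq.2.2)
      fun q hq => (hB (hm _ hq.1 _ hq.2.1.2 (hF _ hq.2.1.1 hq.2.2))).1)
    (fun q hq => hF' _ (hB (hm _ hq.1 _ hq.2.1.2 (hF _ hq.2.1.1 hq.2.2))).1
      (FGRot_ne _ hr hq.1 (hF _ hq.2.1.1 hq.2.2)))
    (fun x hx => by
      simp only [FGRot_h, sub_zero, one_smul, zero_smul, add_zero]
      exact e.left_inv hx.1.1)
  have hS : ∀ x ∈ ({x0.1} : Set ℂ) ×ˢ sphere (0 : ℂ) (δ / 2), x ∈ thickening δ L ∧ x.2 ≠ 0 := by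
    rintro ⟨a, w⟩ ⟨rfl, hw'⟩
    rw [mem_sphere_zero_iff_norm] at hw'
    exact ⟨hw w hw', norm_pos_iff.1 (hw' ▸ hr)⟩
  obtain ⟨N1, -, hN1, -, g⟩ := hFGOff R X G Y F p s T
    (e.symm '' (({x0.1} : Set ℂ) ×ˢ sphere (0 : ℂ) (δ / 2)))
    ((isCompact_singleton.prod (isCompact_sphere _ _)).image_of_continuousOn
      (e.continuousOn_symm.mono fun x hx => (hB (hS x hx).1).1))
    (by
      rintro _ ⟨x, hx, rfl⟩
      exact hF' x (hB (hS x hx).1).1 (hS x hx).2) k O hO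
    (by
      rintro _ ⟨x, hx, rfl⟩
      exact (hB (hS x hx).1).2)
  refine ⟨e.source ∩ e ⁻¹' thickening δ L, e.isOpen_inter_preimage isOpen_thickening, ?_,
    fun x hx => ?_, FGRot_move κ hH h0 (fun q hq => ?_) (fun y hy => hN1 ?_) g⟩
  · rintro _ ⟨x, hx, rfl⟩
    refine ⟨e.map_target (hLe hx), ?_⟩
    rw [mem_preimage, e.right_inv (hLe hx)]
    exact self_subset_thickening hδ L hx
  · have h := (hB hx.2).2
    rwa [mem_preimage, e.left_inv hx.1] at h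
  · rw [mem_preimage, h1 q.1 hq.1 q.2 hq.2]
    exact (hB (hm _ hq.1 _ hq.2.2 (hF _ hq.2.1 (T.cov.mem _)))).2
  · rw [h1 1 ⟨zero_le_one, le_rfl⟩ y hy]
    refine ⟨_, ?_, rfl⟩
    simp only [FGRot_h, sub_self, zero_smul, one_smul, zero_add]
    exact ⟨rfl, mem_sphere_zero_iff_norm.2 (FGRot_norm hr (hF _ hy.1 (T.cov.mem _)))⟩

end Pool.Agent.MP_bc14e1_gt
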