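import Pool.Agent.MP_bc14e1_gt.IfP
import Pool.Agent.MP_bc14e1_gt.IfC

open Set Metric
open scoped Classical

namespace Pool.Agent.MP_bc14e1_gt

section
open Topology Filter

variable {G Y : Type} [Group G] [MulAction G Y] {s : G}

theorem Fam_mem {A : Set Y} {y : Y} : y ∈ sat s A ↔ ∃ n : ℤ, ∃ a ∈ A, s ^ n • a = y := by
  simp only [sat, mem_iUnion, mem_image]

theorem Fam_sub (A : Set Y) : A ⊆ sat s A := fun y hy => Fam_mem.2 ⟨0, y, hy, by simp⟩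

theorem Fam_mono {A B : Set Y} (h : A ⊆ B) : sat s A ⊆ sat s B := fun _ hy =>
  let ⟨n, a, h1, h2⟩ := Fam_mem.1 hy; Fam_mem.2 ⟨n, a, h h1, h2⟩

theorem Fam_le {A U : Set Y} (hU : Inv s U) (h : A ⊆ U) : sat s A ⊆ U := fun y hy => by
  obtain ⟨n, a, h1, rfl⟩ := Fam_mem.1 hy
  exact (hU.zpow n a).2 (h h1)

theorem Fam_inv (A : Set Y) : Inv s (sat s A) := fun y => by
  simp only [Fam_mem]
  constructor
  · rintro ⟨n, a, h1, h2⟩
    exact ⟨-1 + n, a, h1, by rw [zpow_add, mul_smul, h2, zpow_neg_one, inv_smul_smul]⟩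
  · rintro ⟨n, a, h1, rfl⟩
    exact ⟨1 + n, a, h1, by rw [zpow_add, mul_smul, zpow_one]⟩

variable [TopologicalSpace Y]

theorem Fam_union {K K' : Set Y} (h : Cocpt s K) (h' : Cocpt s K') : Cocpt s (K ∪ K') := by
  obtain ⟨h1, h2, L, h3, h4⟩ := h
  obtain ⟨k1, k2, L', k3, k4⟩ := h'
  exact ⟨h1.union k1, fun y => or_congr (h2 y) (k2 y), L ∪ L', h3.union k3,
    union_subset (h4.trans (Fam_mono subset_union_left)) (k4.trans (Fam_mono subset_union_right))⟩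

theorem Fam_inter {K K' : Set Y} (h : Cocpt s K) (h' : Cocpt s K') : Cocpt s (K ∩ K') := by
  obtain ⟨h1, h2, L, h3, h4⟩ := h
  exact ⟨h1.inter h'.1, fun y => and_congr (h2 y) (h'.2.1 y), L, h3, inter_subset_left.trans h4⟩

theorem Fam_eq {K : Set Y} (h : Cocpt s K) : ∃ L, IsCompact L ∧ K = sat s L := by
  obtain ⟨h1, h2, L, h3, h4⟩ := h
  refine ⟨L ∩ K, h3.inter_right h1, Subset.antisymm (fun y hy => ?_) (Fam_le h2 inter_subset_right)⟩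
  obtain ⟨n, a, ha, rfl⟩ := Fam_mem.1 (h4 hy)
  exact Fam_mem.2 ⟨n, a, ⟨ha, (h2.zpow n a).1 hy⟩, rfl⟩

theorem Fam_nhds {y : Y} (e : OpenPartialHomeomorph Y (E 4)) (hy : y ∈ e.source) :
    ∃ N ∈ 𝓝 y, IsCompact N := by
  obtain ⟨K, h1, h2, h3⟩ := exists_compact_subset e.open_target (e.map_source hy)
  refine ⟨e.symm '' K, ?_, h1.image_of_continuousOn (e.continuousOn_symm.mono h3)⟩
  have := e.symm.image_mem_nhds (e.map_source hy) (mem_interior_iff_mem_nhds.1 h2)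
  rwa [e.left_inv hy] at this

end

theorem fam_stmt (B : Bas1) (hLocCtr : LocCtrStmt) : FamStmt := by
  intro X G Y _ _ _ _ _ _ _ _ F p s tc
  obtain ⟨-, hl, -, hs, hp⟩ := B.cov G X Y Fᶜ p tc.cov
  obtain ⟨-, hp⟩ := hp inferInstance
  have hN : ∀ y : Y, ∃ N ∈ nhds y, IsCompact N := fun y => by
    obtain ⟨⟨e, he, -⟩, -⟩ := hLocCtr X Y p hl y univ Filter.univ_mem
    exact Fam_nhds e he
  have hi : Function.Injective fun n : ℤ => s ^ n := fun a b e =>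
    sub_eq_zero.1 (tc.inf _ (by rw [zpow_sub, show s ^ a = s ^ b from e, mul_inv_cancel]))
  have h1 : ∀ L : Set Y, IsCompact L → Cocpt s (sat s L) := fun L hL => by
    refine ⟨LocallyFinite.isClosed_iUnion (fun y => ?_)
      fun n => (hL.image (continuous_const_smul _)).isClosed, Fam_inv L, L, hL, subset_rfl⟩
    obtain ⟨N, n1, n2⟩ := hN y
    refine ⟨N, n1, ((hp L N hL n2).preimage hi.injOn).subset ?_⟩
    rintro n ⟨_, ⟨a, ha, rfl⟩, hb⟩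
    exact ⟨a, ha, hb⟩
  have hI : ∀ A : Set X, Inv s (p ⁻¹' A) := fun A y => by
    rw [mem_preimage, tc.cov.inv, mem_preimage]
  refine ⟨h1, fun K => Fam_eq, fun U u1 u2 => ⟨u1, u2, fun K h => h.1.1, fun K h => h.1.2.1,
    fun K h => h.2, fun K h K' h' => ⟨Fam_union h.1 h'.1, union_subset h.2 h'.2⟩,
    fun L l1 l2 => ⟨sat s L, ⟨h1 L l1, Fam_le u2 l2⟩, Fam_sub L⟩⟩,
    fun U V u1 u2 v1 v2 => ⟨fun K h K' h' => ⟨Fam_inter h.1 h'.1, inter_subset_inter h.2 h'.2⟩,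
      fun K h K' h' => ⟨Fam_union h.1 h'.1, union_subset_union h.2 h'.2⟩,
      fun K h => ⟨h.1, h.2.trans inter_subset_left⟩,
      fun K h => ⟨h.1, h.2.trans inter_subset_right⟩, fun K h => ?_⟩, fun K h => ?_,
    fun L l1 l2 => ⟨l1.isClosed.preimage tc.cov.cont, hI L, ?_⟩,
    fun O hO => ⟨hO.preimage tc.cov.cont, hI O, ?_, ?_, ?_, ?_, fun L l1 l2 =>
      ⟨p ⁻¹' (p '' L), ⟨_, l1.image tc.cov.cont, image_subset_iff.2 l2, rfl⟩,
        subset_preimage_image p L⟩⟩, fun O O' hO hO' => ⟨?_, ?_, ?_, ?_, ?_⟩⟩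
  · obtain ⟨L, l1, rfl⟩ := Fam_eq h.1
    obtain ⟨L₁, L₂, a1, a2, a3, a4, rfl⟩ := l1.binary_compact_cover u1 v1 ((Fam_sub L).trans h.2)
    refine ⟨_, ⟨h1 L₁ a1, Fam_le u2 a3⟩, _, ⟨h1 L₂ a2, Fam_le v2 a4⟩, fun y hy => ?_⟩
    obtain ⟨n, a, ha | ha, e⟩ := Fam_mem.1 hy
    exacts [.inl (Fam_mem.2 ⟨n, a, ha, e⟩), .inr (Fam_mem.2 ⟨n, a, ha, e⟩)]
  · obtain ⟨L, l1, rfl⟩ := Fam_eq h
    rw [show p '' sat s L = p '' L from Subset.antisymm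
      (image_subset_iff.2 (Fam_le (hI _) (subset_preimage_image p L))) (image_mono (Fam_sub L))]
    exact l1.image tc.cov.cont
  · obtain ⟨C, c1, c2⟩ : ∃ C, IsCompact C ∧ L ⊆ p '' C := by
      refine l1.induction_on ⟨∅, isCompact_empty, empty_subset _⟩
        (fun A A' h ⟨C, c1, c2⟩ => ⟨C, c1, h.trans c2⟩)
        (fun A A' ⟨C, c1, c2⟩ ⟨C', d1, d2⟩ => ⟨C ∪ C', c1.union d1, by
          rw [image_union]; exact union_subset_union c2 d2⟩) fun x hx => ?_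
      obtain ⟨y, rfl⟩ := hs x (l2 hx)
      obtain ⟨N, n1, n2⟩ := hN y
      exact ⟨p '' N, mem_nhdsWithin_of_mem_nhds (hl.isOpenMap.image_mem_nhds n1), N, n2,
        subset_rfl⟩
    have := tc.fin
    refine ⟨⋃ q : G ⧸ Subgroup.zpowers s, (fun y => q.out • y) '' C,
      isCompact_iUnion fun q => c1.image (continuous_const_smul _), fun y hy => ?_⟩
    obtain ⟨c, hc, e⟩ := c2 hy
    obtain ⟨g, rfl⟩ := tc.cov.trans c y e
    obtain ⟨⟨_, n, rfl⟩, hn⟩ := QuotientGroup.mk_out_eq_mul (Subgroup.zpowers s) g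
    refine Fam_mem.2 ⟨-n, _, mem_iUnion.2 ⟨(g : G ⧸ Subgroup.zpowers s), c, hc, rfl⟩, ?_⟩
    rw [hn, ← mul_smul, (Commute.zpow_right (tc.cen g) n).eq, zpow_neg, inv_mul_cancel_left]
  · rintro _ ⟨L, l1, -, rfl⟩
    exact l1.isClosed.preimage tc.cov.cont
  · rintro _ ⟨L, -, -, rfl⟩
    exact hI L
  · rintro _ ⟨L, -, l2, rfl⟩
    exact preimage_mono l2
  · rintro _ ⟨L, l1, l2, rfl⟩ _ ⟨L', m1, m2, rfl⟩
    exact ⟨L ∪ L', l1.union m1, union_subset l2 m2, rfl⟩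
  · rintro _ ⟨L, l1, l2, rfl⟩ _ ⟨L', m1, m2, rfl⟩
    exact ⟨L ∩ L', l1.inter m1, inter_subset_inter l2 m2, rfl⟩
  · rintro _ ⟨L, l1, l2, rfl⟩ _ ⟨L', m1, m2, rfl⟩
    exact ⟨L ∪ L', l1.union m1, union_subset_union l2 m2, rfl⟩
  · rintro _ ⟨L, l1, l2, rfl⟩
    exact ⟨L, l1, l2.trans inter_subset_left, rfl⟩
  · rintro _ ⟨L, l1, l2, rfl⟩
    exact ⟨L, l1, l2.trans inter_subset_right, rfl⟩
  · rintro _ ⟨L, l1, l2, rfl⟩
    obtain ⟨L₁, L₂, a1, a2, a3, a4, rfl⟩ := l1.binary_compact_cover hO hO' l2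
    exact ⟨_, ⟨L₁, a1, a3, rfl⟩, _, ⟨L₂, a2, a4, rfl⟩, subset_rfl⟩

end Pool.Agent.MP_bc14e1_gt
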