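import Pool.Agent.MP_bc14e1_gt.If

open Set Metric
open scoped Classical

namespace Pool.Agent.MP_bc14e1_gt

section Aux

open Finsupp

variable {R S X : Type} [CommRing R] [CommRing S] [TopologicalSpace X]

theorem Flat_mr_dT (f : S →+ R) (c : Tot S X) :
    mapRange.addMonoidHom f (dT S X c) = dT R X (mapRange.addMonoidHom f c) := by
  have hs : ∀ (σ : TS X) (a : S), mapRange.addMonoidHom f (single σ a) = single σ (f a) :=
    fun σ a => mapRange_single (hf := f.map_zero)
  induction c using Finsupp.induction_linear with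
  | zero => simp
  | add a b ha hb => simp only [map_add, ha, hb]
  | single σ a =>
    obtain ⟨k, σ⟩ := σ
    rw [hs, ← inc_single, ← inc_single]
    rcases k with _ | k
    · rw [dT_inc_zero, dT_inc_zero, map_zero]
    · rw [dT_inc_succ, dT_inc_succ, bd_single, bd_single, map_sum, map_sum, map_sum]
      refine Finset.sum_congr rfl fun i _ => ?_
      rw [map_zsmul, map_zsmul, map_zsmul, inc_single, inc_single, hs]

theorem Flat_mr_mem (f : S →+ R) {T : Set (TS X)} {c : Tot S X} (h : c ∈ supported S S T) :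
    mapRange.addMonoidHom f c ∈ supported R R T :=
  (mem_supported' R _).2 fun σ hσ => by
    change f (c σ) = 0
    rw [(mem_supported' S _).1 h σ hσ, map_zero]

theorem Flat_reflect {T : Set (TS X)} {y : Tot ℤ X} (h : castZ ℚ X y ∈ supported ℚ ℚ T) :
    y ∈ supported ℤ ℤ T :=
  (mem_supported' ℤ _).2 fun σ hσ => by
    have := (mem_supported' ℚ _).1 h σ hσ
    rw [cast_apply] at this
    simpa using this

theorem Flat_den (y : Tot ℚ X) : ∃ N : ℤ, N ≠ 0 ∧ ∃ y' : Tot ℤ X, castZ ℚ X y' = (N : ℚ) • y := by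
  induction y using Finsupp.induction_linear with
  | zero => exact ⟨1, one_ne_zero, 0, by simp⟩
  | add a b ha hb =>
    obtain ⟨N, hN, a', ha⟩ := ha
    obtain ⟨M, hM, b', hb⟩ := hb
    refine ⟨N * M, mul_ne_zero hN hM, M • a' + N • b', ?_⟩
    rw [map_add, map_smulₛₗ, map_smulₛₗ, ha, hb, smul_smul, smul_smul, smul_add]
    simp [mul_comm]
  | single σ a =>
    refine ⟨a.den, by exact_mod_cast a.den_nz, single σ a.num, ?_⟩
    rw [cast_single, smul_single]
    simp [Rat.den_mul_eq_num]

end Aux

theorem flat_stmt : FlatStmt := by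
  intro S _ _ X _ A B k
  refine ⟨fun z hz hd => ?_, fun y ⟨b, hb, hy⟩ => ?_⟩
  · let e := Module.Basis.ofVectorSpace ℚ S
    let I := z.support.biUnion fun σ => (e.repr (z σ)).support
    have hsum : z = ∑ i ∈ I, e i • cast (algebraMap ℚ S) X
        (Finsupp.mapRange.addMonoidHom (e.coord i).toAddMonoidHom z) := by
      ext σ
      rw [Finsupp.finsetSum_apply]
      have h1 : (e.repr (z σ)).support ⊆ I := by
        by_cases h : σ ∈ z.support
        · exact Finset.subset_biUnion_of_mem (fun σ => (e.repr (z σ)).support) h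
        · rw [Finsupp.notMem_support_iff.1 h]
          simp
      conv_lhs => rw [← e.linearCombination_repr (z σ), Finsupp.linearCombination_apply,
        Finsupp.sum_of_support_subset _ h1 (fun i a => a • e i) (fun i _ => zero_smul _ _)]
      refine Finset.sum_congr rfl fun i _ => ?_
      rw [Algebra.smul_def, mul_comm]
      rfl
    rw [hsum]
    refine Submodule.sum_mem _ fun i _ => Submodule.smul_mem _ _ ?_
    obtain ⟨N, hN, y, hy⟩ := Flat_den (Finsupp.mapRange.addMonoidHom (e.coord i).toAddMonoidHom z)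
    have hN' : (N : S) ≠ 0 := by exact_mod_cast hN
    have h1 : cast (algebraMap ℚ S) X
        (Finsupp.mapRange.addMonoidHom (e.coord i).toAddMonoidHom z) =
        (N : S)⁻¹ • castZ S X y := by
      have h2 : castZ S X y = cast (algebraMap ℚ S) X (castZ ℚ X y) := by
        ext σ
        simp [cast_apply]
      rw [h2, hy, map_smulₛₗ, smul_smul]
      simp [hN']
    rw [h1]
    refine Submodule.smul_mem _ _ (Submodule.subset_span ⟨y, ⟨⟨?_, ?_⟩, ?_⟩, rfl⟩)
    · exact Flat_reflect (hy ▸ Submodule.smul_mem _ _ (Flat_mr_mem _ hz.1))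
    · exact Flat_reflect (hy ▸ Submodule.smul_mem _ _ (Flat_mr_mem _ hz.2))
    · refine Flat_reflect ?_
      rw [cast_dT, hy, map_smul, ← Flat_mr_dT]
      exact Submodule.smul_mem _ _ (Flat_mr_mem _ hd)
  · obtain ⟨f, hf⟩ := LinearMap.exists_leftInverse_of_injective (Algebra.linearMap ℚ S)
      (LinearMap.ker_eq_bot.2 (algebraMap ℚ S).injective)
    have h1 : Finsupp.mapRange.addMonoidHom f.toAddMonoidHom (castZ S X y) = castZ ℚ X y := by
      ext σ
      have := LinearMap.congr_fun hf (y σ)
      change f ((y σ : ℤ) : S) = ((y σ : ℤ) : ℚ)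
      simpa using this
    obtain ⟨N, hN, b', hb'⟩ := Flat_den (Finsupp.mapRange.addMonoidHom f.toAddMonoidHom b)
    refine ⟨N, hN, b', Flat_reflect (hb' ▸ Submodule.smul_mem _ _ (Flat_mr_mem _ hb)),
      Flat_reflect ?_⟩
    have h2 := Flat_mr_mem f.toAddMonoidHom hy
    rw [map_sub, h1, Flat_mr_dT] at h2
    rw [map_sub, map_smulₛₗ, cast_dT, hb', map_smul, eq_intCast, ← smul_sub]
    exact Submodule.smul_mem _ _ h2

end Pool.Agent.MP_bc14e1_gt
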