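import Pool.Agent.MP_bc14e1_gt.IfD

open Set Metric
open scoped Classical

namespace Pool.Agent.MP_bc14e1_gt

open scoped Manifold ContDiff in
theorem FlatW_chart {K : Set (E 4)} (Z : ZD K) {ψ : OpenPartialHomeomorph Z.W (E 4)}
    (hψ : ψ ∈ IsManifold.maximalAtlas (𝓡 4) ∞ Z.W) {x : E 2} (hx : x ∈ closedBall (0 : E 2) 1)
    (hs : Z.d x ∈ ψ.source) :
    ContDiffAt ℝ 1 (ψ ∘ Z.d) x ∧ Function.Injective (fderiv ℝ (ψ ∘ Z.d) x) := by
  have h1 := contMDiffAt_of_mem_maximalAtlas hψ hs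
  have h2 := Z.sm x hx
  have hm : ψ.MDifferentiable (𝓡 4) (𝓡 4) :=
    ⟨(contMDiffOn_of_mem_maximalAtlas hψ).mdifferentiableOn (by simp),
      (contMDiffOn_symm_of_mem_maximalAtlas hψ).mdifferentiableOn (by simp)⟩
  refine ⟨(contMDiffAt_iff_contDiffAt.1 (h1.comp x h2)).of_le (by simp), ?_⟩
  rw [← mfderiv_eq_fderiv, mfderiv_comp x (h1.mdifferentiableAt (by simp))
    (h2.mdifferentiableAt (by simp))]
  exact (hm.mfderiv_injective hs).comp (Z.imm x hx)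

theorem FlatW_loc {W : Type} [TopologicalSpace W] {F : Set W}
    (ψ : OpenPartialHomeomorph W (E 4)) (e : OpenPartialHomeomorph (E 4) (ℂ × ℂ)) {w : W}
    (h1 : w ∈ ψ.source) (h2 : ψ w ∈ e.source)
    (h : ∀ᶠ w' in nhds w, w' ∈ ψ.source → ψ w' ∈ e.source → (w' ∈ F ↔ (e (ψ w')).2 = 0)) :
    ∃ e', FlatCh F e' ∧ w ∈ e'.source := by
  obtain ⟨O, hO, hO1, hO2⟩ := eventually_nhds_iff.1 h
  refine ⟨(ψ.trans e).restrOpen O hO1, fun x hx => ?_, ⟨h1, h2⟩, hO2⟩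
  exact hO x hx.2 hx.1.1 hx.1.2

theorem FlatW_cont {K : Set (E 4)} (Z : ZD K) : ContinuousOn Z.d (closedBall 0 1) :=
  fun x hx => (Z.sm x hx).continuousAt.continuousWithinAt

theorem FlatW_closed {K : Set (E 4)} (Z : ZD K) {N : Set (E 2)} (hN : IsOpen N) :
    IsClosed (Z.d '' (closedBall 0 1 \ N)) :=
  (((isCompact_closedBall 0 1).diff hN).image_of_continuousOn
    ((FlatW_cont Z).mono diff_subset)).isClosed

theorem FlatW_int (hImm : ImmStmt) {K : Set (E 4)} (Z : ZD K) {x : E 2}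
    (hx : x ∈ ball (0 : E 2) 1) : ∃ e, FlatCh Z.FW e ∧ Z.d x ∈ e.source := by
  have hx' := ball_subset_closedBall hx
  have hs := mem_chart_source (E 4) (Z.d x)
  obtain ⟨h1, h2⟩ := FlatW_chart Z (IsManifold.chart_mem_maximalAtlas (Z.d x)) hx' hs
  generalize chartAt (E 4) (Z.d x) = ψ at hs h1 h2
  obtain ⟨N', hN', hxN, hsub, e, he, hee⟩ := hImm _ x h1 h2 (ball 0 1 ∩ Z.d ⁻¹' ψ.source)
    (Filter.inter_mem (isOpen_ball.mem_nhds hx)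
      ((Z.sm x hx').continuousAt.preimage_mem_nhds (ψ.open_source.mem_nhds hs)))
  refine FlatW_loc ψ e hs he ?_
  have c1 : (Z.d '' (closedBall 0 1 \ N'))ᶜ ∈ nhds (Z.d x) := by
    refine (FlatW_closed Z hN').isOpen_compl.mem_nhds ?_
    rintro ⟨x', hx1, hx2⟩
    exact hx1.2 (Z.inj hx1.1 hx' hx2 ▸ hxN)
  have c2 : (Z.c.symm '' closedBall 0 1)ᶜ ∈ nhds (Z.d x) :=
    ((isCompact_closedBall 0 1).image_of_continuousOn
      (Z.c.continuousOn_symm.mono Z.tgt)).isClosed.isOpen_compl.mem_nhds (Z.out x hx)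
  filter_upwards [c1, c2] with w' k1 k2 s1 s2
  rw [hee _ s2]
  constructor
  · rintro (⟨x', hx1, rfl⟩ | ⟨v, hv, rfl⟩)
    · exact ⟨x', by_contra fun hn => k1 ⟨x', ⟨hx1, hn⟩, rfl⟩, rfl⟩
    · exact absurd ⟨v, mem_closedBall_zero_iff.2 hv.1.2.le, rfl⟩ k2
  · rintro ⟨x', hx1, hx2⟩
    exact Or.inl ⟨x', ball_subset_closedBall (hsub hx1).1, ψ.injOn (hsub hx1).2 s1 hx2⟩

theorem FlatW_sph {K : Set (E 4)} (Z : ZD K) (hK : K ⊆ sphere 0 1) {u : E 2}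
    (hu : u ∈ sphere (0 : E 2) 1) : Z.d u ∈ Z.c.source ∧ Z.c (Z.d u) ∈ K := by
  obtain ⟨k, hk, hk'⟩ : Z.d u ∈ Z.c.symm '' K := Z.bdy ▸ mem_image_of_mem _ hu
  have ht : k ∈ Z.c.target := Z.tgt (sphere_subset_closedBall (hK hk))
  rw [← hk', Z.c.right_inv ht]
  exact ⟨Z.c.map_target ht, hk⟩

theorem FlatW_of_K {K : Set (E 4)} (Z : ZD K) (hK : K ⊆ sphere 0 1) {k : E 4} (hk : k ∈ K) :
    ∃ u ∈ sphere (0 : E 2) 1, Z.c (Z.d u) = k := by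
  obtain ⟨u, hu, hu'⟩ : Z.c.symm k ∈ Z.d '' sphere 0 1 := Z.bdy ▸ mem_image_of_mem _ hk
  exact ⟨u, hu, by rw [hu', Z.c.right_inv (Z.tgt (sphere_subset_closedBall (hK hk)))]⟩

theorem FlatW_seam (hSeam : SeamStmt) {K : Set (E 4)} (Z : ZD K) (hK : K ⊆ sphere 0 1) {u : E 2}
    (hu : u ∈ sphere (0 : E 2) 1) {r : ℝ} (hr : 1 / 2 < r) (hr1 : r ≤ 1) :
    ∃ e, FlatCh Z.FW e ∧ Z.c.symm (r • Z.c (Z.d u)) ∈ e.source := by
  have hu' := sphere_subset_closedBall hu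
  obtain ⟨hs, hk⟩ := FlatW_sph Z hK hu
  obtain ⟨h1, h2⟩ := FlatW_chart Z Z.atl hu' hs
  have hN : Z.d ⁻¹' Z.c.source ∈ nhds u :=
    (Z.sm u hu').continuousAt.preimage_mem_nhds (Z.c.open_source.mem_nhds hs)
  have hn : ∀ x ∈ sphere (0 : E 2) 1, ‖Z.c (Z.d x)‖ = 1 := fun x hx =>
    mem_sphere_zero_iff_norm.1 (hK (FlatW_sph Z hK hx).2)
  obtain ⟨N', hN', huN, hsub, e, he, hee⟩ := hSeam _ u (mem_sphere_zero_iff_norm.1 hu) h1 h2
    (Filter.Eventually.of_forall fun x hx => hn x (mem_sphere_zero_iff_norm.2 hx))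
    (by
      filter_upwards [hN] with x hx hx1
      by_contra hc
      exact Z.out x (mem_ball_zero_iff.2 hx1)
        ⟨_, mem_closedBall_zero_iff.2 (not_lt.1 hc), Z.c.left_inv hx⟩)
    (Z.tr u hu) _ hN
  have hr0 : 0 < r := by linarith
  have hnr : ‖r • Z.c (Z.d u)‖ = r := by
    rw [norm_smul, hn u hu, mul_one, Real.norm_of_nonneg hr0.le]
  have hb : r • Z.c (Z.d u) ∈ closedBall (0 : E 4) 1 :=
    mem_closedBall_zero_iff.2 (by rw [hnr]; exact hr1)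
  have ht := Z.tgt hb
  have hw := Z.c.map_target ht
  have hcw := Z.c.right_inv ht
  have hct := Z.c.continuousAt hw
  refine FlatW_loc Z.c e hw (by rw [hcw]; exact he r ⟨hr0, hr1⟩) ?_
  have c0 : ∀ᶠ w' in nhds (Z.c.symm (r • Z.c (Z.d u))), 1 / 2 < ‖Z.c w'‖ :=
    continuousAt_const.eventually_lt hct.norm (by rw [hcw, hnr]; exact hr)
  have c1 : (Z.d '' (closedBall 0 1 \ N'))ᶜ ∈ nhds (Z.c.symm (r • Z.c (Z.d u))) := by
    refine (FlatW_closed Z hN').isOpen_compl.mem_nhds ?_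
    rintro ⟨x', hx1, hx2⟩
    rcases (mem_closedBall_zero_iff.1 hx1.1).lt_or_eq with hl | hl
    · exact Z.out x' (mem_ball_zero_iff.2 hl) ⟨_, hb, hx2.symm⟩
    · have h3 := hn x' (mem_sphere_zero_iff_norm.2 hl)
      rw [hx2, hcw, hnr] at h3
      rw [h3, one_smul, Z.c.left_inv hs] at hx2
      exact hx1.2 (Z.inj hx1.1 hu' hx2 ▸ huN)
  have c2 : ∀ᶠ w' in nhds (Z.c.symm (r • Z.c (Z.d u))),
      ‖Z.c w'‖⁻¹ • Z.c w' ∈ ((Z.c ∘ Z.d) '' (sphere 0 1 \ N'))ᶜ := by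
    have hcl : IsClosed ((Z.c ∘ Z.d) '' (sphere 0 1 \ N')) :=
      (((isCompact_sphere 0 1).diff hN').image_of_continuousOn
        (Z.c.continuousOn.comp ((FlatW_cont Z).mono
          (diff_subset.trans sphere_subset_closedBall))
          fun x hx => (FlatW_sph Z hK hx.1).1)).isClosed
    have hc : ContinuousAt (fun w' => ‖Z.c w'‖⁻¹ • Z.c w') (Z.c.symm (r • Z.c (Z.d u))) :=
      (hct.norm.inv₀ (by rw [hcw, hnr]; exact hr0.ne')).smul hct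
    refine hc.preimage_mem_nhds (hcl.isOpen_compl.mem_nhds ?_)
    rintro ⟨x', hx1, hx2⟩
    rw [hcw, hnr, smul_smul, inv_mul_cancel₀ hr0.ne', one_smul] at hx2
    have h3 := Z.c.injOn (FlatW_sph Z hK hx1.1).1 hs hx2
    exact hx1.2 (Z.inj (sphere_subset_closedBall hx1.1) hu' h3 ▸ huN)
  filter_upwards [c0, c1, c2] with w' k0 k1 k2 s1 s2
  rw [hee _ s2]
  constructor
  · rintro (⟨x', hx1, rfl⟩ | ⟨v, hv, rfl⟩)
    · exact Or.inl ⟨x', ⟨by_contra fun hn => k1 ⟨x', ⟨hx1, hn⟩, rfl⟩, hx1⟩, rfl⟩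
    · have hv' := Z.c.right_inv (Z.tgt (mem_closedBall_zero_iff.2 hv.1.2.le))
      rw [hv'] at k2 ⊢
      obtain ⟨x', hx1, hx2⟩ := FlatW_of_K Z hK hv.2
      exact Or.inr ⟨hv.1.2, x', ⟨by_contra fun hn => k2 ⟨x', ⟨hx1, hn⟩, hx2⟩, hx1⟩, hx2⟩
  · rintro (⟨x', hx1, hx2⟩ | ⟨hl, x', hx1, hx2⟩)
    · exact Or.inl ⟨x', hx1.2, Z.c.injOn (hsub hx1.1) s1 hx2⟩
    · refine Or.inr ⟨Z.c w', ⟨⟨k0, hl⟩, ?_⟩, Z.c.left_inv s1⟩
      rw [← hx2]
      exact (FlatW_sph Z hK hx1.2).2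

theorem flatW_stmt (hImm : ImmStmt) (hSeam : SeamStmt) : FlatWStmt := by
  rintro K Z hK w (⟨x, hx, rfl⟩ | ⟨v, hv, rfl⟩)
  · rcases (mem_closedBall_zero_iff.1 hx).lt_or_eq with hl | hl
    · exact FlatW_int hImm Z (mem_ball_zero_iff.2 hl)
    · have hu := mem_sphere_zero_iff_norm.2 hl
      have := FlatW_seam hSeam Z hK hu (r := 1) (by norm_num) le_rfl
      rwa [one_smul, Z.c.left_inv (FlatW_sph Z hK hu).1] at this
  · obtain ⟨u, hu, hu'⟩ := FlatW_of_K Z hK hv.2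
    have := FlatW_seam hSeam Z hK hu hv.1.1 hv.1.2.le
    have h0 : ‖v‖ ≠ 0 := by have := hv.1.1; intro h; rw [h] at this; norm_num at this
    rwa [hu', smul_smul, mul_inv_cancel₀ h0, one_smul] at this

end Pool.Agent.MP_bc14e1_gt
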