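import Pool.Agent.MP_bc14e1_gt.If

open Set Metric
open scoped Classical

namespace Pool.Agent.MP_bc14e1_gt

theorem flip_stmt : FlipStmt := by
  intro κ X G Y _ _ _ _ o F n φ p t l hX hP
  have hv : ∀ c : Tot ℤ Y, val0 ℤ (fun y => -l y) c = -val0 ℤ l c := by
    intro c
    induction c using Finsupp.induction_linear with
    | zero => simp
    | add a b ha hb => rw [map_add, map_add, ha, hb, neg_add]
    | single σ a =>
      simp only [val0, Finsupp.linearCombination_single]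
      split_ifs <;> simp
  refine ⟨⟨hX.conn, fun c hc => ?_, fun k hk c hc => ?_, ?_, fun e z w h γ hγ => ?_, hX.dep,
    hX.cls⟩, ⟨hP.tc.flat, hP.tc.cov, fun g => (Commute.inv_right (hP.tc.cen g) :), fun n h => ?_,
      ?_, ?_⟩, fun g => ?_, fun y => ?_, fun c => ?_, hP.conn⟩
  · rw [LinearMap.neg_apply, hX.coc c hc, neg_zero]
  · rw [LinearMap.neg_apply, hX.dg k hk c hc, neg_zero]
  · obtain ⟨μ, h1, h2, h3⟩ := hX.gen
    refine ⟨-μ, neg_mem h1, by rw [LinearMap.neg_apply, map_neg, neg_neg, h2], fun z hz => ?_⟩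
    rw [LinearMap.neg_apply, neg_smul_neg]
    exact h3 z hz
  · rw [LinearMap.neg_apply, neg_eq_iff_eq_neg, neg_inj]
    exact (hX.rot e z w h γ hγ).symm
  · exact hP.tc.inf n (by rwa [inv_zpow, inv_eq_one] at h)
  · rw [Subgroup.zpowers_inv]
    exact hP.tc.fin
  · obtain ⟨m, hm⟩ := hP.tc.rot
    refine ⟨m, fun e z w h γ hγ => (hm e z w h γ hγ).imp fun g hg => ⟨hg.1, ?_⟩⟩
    rw [inv_inv]
    exact hg.2.symm
  · obtain ⟨n, rfl⟩ := hP.gen g
    exact ⟨-n, by rw [inv_zpow', neg_neg]⟩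
  · have := hP.lev (t⁻¹ • y)
    rw [smul_inv_smul] at this
    omega
  · rw [LinearMap.neg_apply, hv, hP.hol]

end Pool.Agent.MP_bc14e1_gt
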