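import Pool.Agent.MP_bc14e1_gt.IfN
import Pool.Agent.MP_bc14e1_gt.IfC

open Set Metric
open scoped Classical

namespace Pool.Agent.MP_bc14e1_gt

theorem Fn_chi {A : Type} [AddCommGroup A] (B' B : AddSubgroup A) (hle : B' ≤ B)
    (h2 : B'.relIndex B = 2) : ∃ χ : A → ℝ, (∀ a, |χ a| = 1) ∧
      (∀ b ∈ B', ∀ a, χ (b + a) = χ a) ∧ ∀ b ∈ B, b ∉ B' → ∀ a, χ (b + a) = -χ a := by
  let r : A → A := fun a => Quotient.out (QuotientAddGroup.mk a : A ⧸ B)
  have hr : ∀ a, a - r a ∈ B := by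
    intro a
    have h : (QuotientAddGroup.mk (r a) : A ⧸ B) = QuotientAddGroup.mk a := Quotient.out_eq _
    have h' := QuotientAddGroup.eq.1 h
    rwa [neg_add_eq_sub] at h'
  have hrb : ∀ b ∈ B, ∀ a, r (b + a) = r a := by
    intro b hb a
    have h : (QuotientAddGroup.mk (b + a) : A ⧸ B) = QuotientAddGroup.mk a := by
      rw [QuotientAddGroup.eq]
      have : -(b + a) + a = -b := by abel
      rw [this]
      exact B.neg_mem hb
    simp only [r, h]
  refine ⟨fun a => if a - r a ∈ B' then 1 else -1, fun a => ?_, fun b hb a => ?_,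
    fun b hb hb' a => ?_⟩
  · dsimp only
    split_ifs <;> simp
  · dsimp only
    rw [hrb b (hle hb), add_sub_assoc]
    simp only [B'.add_mem_cancel_left hb]
  · dsimp only
    rw [hrb b hb, add_sub_assoc]
    have h := AddSubgroup.add_mem_iff_of_index_two (H := B'.addSubgroupOf B) h2
      (a := ⟨b, hb⟩) (b := ⟨a - r a, hr a⟩)
    simp only [AddSubgroup.mem_addSubgroupOf, AddSubgroup.coe_add] at h
    by_cases hx : a - r a ∈ B'
    · rw [if_pos hx, if_neg]
      intro h'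
      exact hb' ((h.1 h').2 hx)
    · rw [if_neg hx, if_pos, neg_neg]
      exact h.2 ⟨fun h' => absurd h' hb', fun h' => absurd h' hx⟩

theorem Fn_loc {X Y G : Type} [TopologicalSpace X] [TopologicalSpace Y] [Group G] [MulAction G Y]
    [ContinuousConstSMul G Y] {Z : Set X} {p : Y → X} (hc : GCov G Z p) (x : X) (hx : x ∈ Z) :
    ∃ U, IsOpen U ∧ x ∈ U ∧ ∃ γ : Y → G, ∀ y, p y ∈ U →
      (∀ᶠ y' in nhds y, γ y' = γ y) ∧ ∀ h, γ (h • y) = h * γ y := by
  obtain ⟨U, hU, hxU, -, σ, -, hσ, hop⟩ := hc.sec x hx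
  have hex : ∀ y, ∃ g : G, p y ∈ U → y = g • σ (p y) := by
    intro y
    by_cases hy : p y ∈ U
    · obtain ⟨g, hg⟩ := hc.trans (σ (p y)) y (hσ _ hy)
      exact ⟨g, fun _ => hg⟩
    · exact ⟨1, fun h => absurd h hy⟩
  choose γ hγ using hex
  have huniq : ∀ y g, p y ∈ U → y = g • σ (p y) → γ y = g := by
    intro y g hy hg
    have h1 : (g⁻¹ * γ y) • σ (p y) = σ (p y) := by
      rw [mul_smul, ← hγ y hy, inv_smul_eq_iff, ← hg]
    have := hc.free _ _ h1
    exact (inv_mul_eq_one.1 this).symm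
  refine ⟨U, hU, hxU, γ, fun y hy => ⟨?_, fun h => ?_⟩⟩
  · have ho : IsOpen ((fun z => (γ y)⁻¹ • z) ⁻¹' (σ '' U)) :=
      hop.preimage (continuous_const_smul _)
    have hm : y ∈ (fun z => (γ y)⁻¹ • z) ⁻¹' (σ '' U) :=
      ⟨p y, hy, by rw [eq_inv_smul_iff, ← hγ y hy]⟩
    filter_upwards [ho.mem_nhds hm] with y' hy'
    obtain ⟨x', hx', he⟩ := hy'
    have he' : y' = γ y • σ x' := by rw [he, smul_inv_smul]
    have hp : p y' = x' := by rw [he', hc.inv, hσ _ hx']
    exact huniq y' _ (hp ▸ hx') (by rw [hp]; exact he')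
  · refine huniq _ _ (by rw [hc.inv]; exact hy) ?_
    rw [hc.inv, mul_smul, ← hγ y hy]

theorem Fn_mono {X Y : Type} [TopologicalSpace X] [TopologicalSpace Y] {p : Y → X}
    (hp : IsLocalHomeomorph p) {f : Y → ℝ} {g : X → ℝ} {y : Y} (hg : Mono g (p y))
    (he : ∀ᶠ y' in nhds y, f y' = g (p y')) : Mono f y := by
  obtain ⟨e₀, hy, hpe⟩ := hp y
  obtain ⟨e, v, c, r, hx, hc, hr, -, hmono⟩ := hg
  have hs : y ∈ (e₀.trans e).source := ⟨hy, by rw [hpe] at hx; exact hx⟩
  have hey : (e₀.trans e) y = e (p y) := by rw [hpe]; rfl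
  have h1 : ∀ᶠ z in nhds ((e₀.trans e) y),
      f ((e₀.trans e).symm z) = g (p ((e₀.trans e).symm z)) :=
    ((e₀.trans e).tendsto_symm hs).eventually he
  have h2 : ∀ᶠ z in nhds ((e₀.trans e) y), z ∈ (e₀.trans e).target :=
    (e₀.trans e).open_target.mem_nhds ((e₀.trans e).map_source hs)
  obtain ⟨r', hr', hb⟩ := Metric.eventually_nhds_iff_ball.1 (h1.and h2)
  have h3 : ∀ z ∈ ball ((e₀.trans e) y) (min r r'), f ((e₀.trans e).symm z) = g (e.symm z) := by
    intro z hz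
    have hz' := hb z (ball_subset_ball (min_le_right _ _) hz)
    rw [hz'.1, hpe]
    congr 1
    exact e₀.right_inv hz'.2.2
  have h4 : ∀ z ∈ ball ((e₀.trans e) y) (min r r'), z ∈ ball (e (p y)) r := by
    intro z hz
    rw [← hey]
    exact ball_subset_ball (min_le_left _ _) hz
  refine ⟨e₀.trans e, v, c, min r r', hs, hc, lt_min hr hr', fun z hz =>
    (hb z (ball_subset_ball (min_le_right _ _) hz)).2, fun z hz θ hθ hz' => ?_⟩
  rw [h3 _ hz, h3 _ hz']
  exact hmono z (h4 _ hz) θ hθ (h4 _ hz')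

theorem Fn_ev {X Y : Type} [TopologicalSpace X] [TopologicalSpace Y] {p : Y → X}
    (hp : Continuous p) {V : Set X} {g : X → ℝ} (hg : tsupport g ⊆ V) {ε : Y → ℝ}
    (hε : ∀ y, p y ∈ V → ∀ᶠ y' in nhds y, ε y' = ε y) (y : Y) :
    ∀ᶠ y' in nhds y, ε y' * g (p y') = ε y * g (p y') := by
  by_cases hy : p y ∈ V
  · filter_upwards [hε y hy] with y' h
    rw [h]
  · have h0 : g =ᶠ[nhds (p y)] 0 := notMem_tsupport_iff_eventuallyEq.1 fun h => hy (hg h)
    filter_upwards [hp.continuousAt.tendsto.eventually h0] with y' h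
    rw [h, Pi.zero_apply, mul_zero, mul_zero]

theorem Fn_eq {X Y : Type} [TopologicalSpace X] {p : Y → X} {V : Set X} {g : X → ℝ}
    (hg : tsupport g ⊆ V) {ε : Y → ℝ} {y y' : Y} (c : ℝ) (hp : p y' = p y)
    (hε : p y ∈ V → ε y' = c * ε y) : ε y' * g (p y') = c * (ε y * g (p y)) := by
  rw [hp]
  by_cases hy : p y ∈ V
  · rw [hε hy, mul_assoc]
  · rw [image_eq_zero_of_notMem_tsupport fun h => hy (hg h), mul_zero, mul_zero, mul_zero]

theorem fn_stmt (B : Bas2) (hLocCtr : LocCtrStmt) (hKap : KapStmt) (hTrans : TransStmt) : FnStmt := by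
  intro X G Y A G' Y' _ _ _ _ _ _ _ _ _ _ _ _ _ _ _ F φ p t l τ m α q j t' l' P1 P2 hτ B' B₀ hle h2
  rcases isEmpty_or_nonempty Y' with hE | ⟨⟨y₀⟩⟩
  · exact ⟨fun _ => 0, continuous_const, fun y => isEmptyElim y, fun _ _ y => isEmptyElim y,
      fun _ _ _ y => isEmptyElim y, ⟨univ, isOpen_univ, subset_univ _, fun y => isEmptyElim y⟩,
      fun y => isEmptyElim y⟩
  have hcov := P2.tc.cov
  have hlh := (B.cov G' X Y' Fᶜ (p ∘ q) hcov).2.1
  -- the coordinate in A of an element of the group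
  have hqz : ∀ (n : ℤ) (y : Y'), q (t' ^ n • y) = t ^ n • q y := by
    have hinv : ∀ y, q (t'⁻¹ • y) = t⁻¹ • q y := by
      intro y
      rw [eq_inv_smul_iff, ← P2.qt, smul_inv_smul]
    intro n
    induction n using Int.induction_on with
    | zero => simp
    | succ n ih =>
      intro y
      rw [zpow_add_one, zpow_add_one, mul_smul, mul_smul, ih, P2.qt]
    | pred n ih =>
      intro y
      rw [zpow_sub_one, zpow_sub_one, mul_smul, mul_smul, ih, hinv]
  have hqj : ∀ a y, q (j a • y) = q y := fun a y => P2.cov.inv ⟨j a, a, rfl⟩ y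
  have huq : ∀ (a a' : A) (n n' : ℤ), j (Multiplicative.ofAdd a) * t' ^ n =
      j (Multiplicative.ofAdd a') * t' ^ n' → a = a' := by
    intro a a' n n' h
    have h1 : t ^ n • q y₀ = t ^ n' • q y₀ := by
      rw [← hqz, ← hqz, ← hqj (Multiplicative.ofAdd a),
        ← hqj (Multiplicative.ofAdd a') (t' ^ n' • y₀), ← mul_smul, ← mul_smul, h]
    have h2 : t ^ (-n' + n) = 1 := by
      refine P1.tc.cov.free _ (q y₀) ?_
      rw [zpow_add, mul_smul, h1, ← mul_smul, ← zpow_add, neg_add_cancel, zpow_zero, one_smul]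
    have h3 : n = n' := by
      have := P1.tc.inf _ h2
      omega
    rw [h3] at h
    exact Multiplicative.ofAdd.injective (P2.jinj (mul_right_cancel h))
  choose K L hKL using P2.gen
  have hKj : ∀ a g, K (j (Multiplicative.ofAdd a) * g) = a + K g := by
    intro a g
    refine huq _ _ (L (j (Multiplicative.ofAdd a) * g)) (L g) ?_
    rw [← hKL, ofAdd_add, map_mul, mul_assoc, ← hKL]
  have hKs : ∀ g, K (t' ^ m * g) = K g := by
    intro g
    refine huq _ _ (L (t' ^ m * g)) (L g + m) ?_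
    rw [← hKL, zpow_add, ← mul_assoc, ← hKL, zpow_natCast, P2.tc.cen]
  obtain ⟨N, hN, hFN, k, hk⟩ := hKap X G Y A G' Y' F φ p t l τ m α q j t' l'
    P1.tc.flat.cl.isCompact P1 P2 hτ
  choose U hU hxU γ hγ using fun x : ↥Fᶜ => Fn_loc hcov x.1 x.2
  obtain ⟨n, i, g₀, g, N', hg₀, hg, hs₀, hs, hN', hFN', -, h1, h0, hmono⟩ :=
    hTrans X ↥Fᶜ F N U P1.tc.flat.cl hN hFN hU fun x hx => mem_iUnion.2 ⟨⟨x, hx⟩, hxU _⟩
  obtain ⟨χ, hχ1, hχ2, hχ3⟩ := Fn_chi B' B₀ hle h2
  let f : Y' → ℝ := fun y => χ (k y) * g₀ (p (q y)) + ∑ c, χ (K (γ (i c) y)) * g c (p (q y))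
  have hev : ∀ y, ∀ᶠ y' in nhds y, f y' =
      χ (k y) * g₀ (p (q y')) + ∑ c, χ (K (γ (i c) y)) * g c (p (q y')) := by
    intro y
    have e0 := Fn_ev hcov.cont hs₀ (ε := fun y => χ (k y))
      (fun y hy => (hk y hy).1.mono fun y' h => by rw [h]) y
    have e1 := Filter.eventually_all.2 fun c => Fn_ev hcov.cont (hs c)
      (ε := fun y => χ (K (γ (i c) y)))
      (fun y hy => (hγ (i c) y hy).1.mono fun y' h => by rw [h]) y
    filter_upwards [e0, e1] with y' a0 a1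
    exact congrArg₂ (· + ·) a0 (Finset.sum_congr rfl fun c _ => a1 c)
  have heq : ∀ (h : G') (c : ℝ) (y : Y'), (p (q y) ∈ N → χ (k (h • y)) = c * χ (k y)) →
      (∀ g, χ (K (h * g)) = c * χ (K g)) → f (h • y) = c * f y := by
    intro h c y a0 a1
    have e0 := Fn_eq (p := p ∘ q) hs₀ (ε := fun y => χ (k y)) c (hcov.inv h y) a0
    have e1 := fun b => Fn_eq (p := p ∘ q) (hs b) (ε := fun y => χ (K (γ (i b) y))) c
      (hcov.inv h y) fun hy => by rw [(hγ (i b) y hy).2, a1]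
    simp only [f, mul_add, Finset.mul_sum]
    exact congrArg₂ (· + ·) e0 (Finset.sum_congr rfl fun b _ => e1 b)
  refine ⟨f, continuous_iff_continuousAt.2 fun y => ?_, fun y => ?_, fun a ha y => ?_,
    fun a ha ha' y => ?_, ⟨N', hN', hFN', fun y hy => ?_⟩, fun y hy => ?_⟩
  · refine ContinuousAt.congr (Continuous.continuousAt ?_) (Filter.EventuallyEq.symm (hev y))
    exact (continuous_const.mul (hg₀.comp hcov.cont)).add
      (continuous_finsetSum _ fun c _ => continuous_const.mul ((hg c).comp hcov.cont))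
  · rw [heq _ 1 y (fun hy => by rw [(hk y hy).2.2, one_mul]) (fun g => by rw [hKs, one_mul]),
      one_mul]
  · rw [heq _ 1 y (fun hy => by rw [(hk y hy).2.1, hχ2 a ha, one_mul])
      (fun g => by rw [hKj, hχ2 a ha, one_mul]), one_mul]
  · rw [heq _ (-1) y (fun hy => by rw [(hk y hy).2.1, hχ3 a ha ha', neg_one_mul])
      (fun g => by rw [hKj, hχ3 a ha ha', neg_one_mul]), neg_one_mul]
  · simp only [f, h1 _ hy, h0 _ _ hy, mul_one, mul_zero, Finset.sum_const_zero, add_zero, hχ1]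
  · exact Fn_mono hlh (hmono (χ (k y)) (fun c => χ (K (γ (i c) y))) (hχ1 _) (fun _ => hχ1 _)
      (p (q y)) hy) (hev y)

end Pool.Agent.MP_bc14e1_gt
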