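import Pool.Agent.MP_bc14e1_gt.IfP

open Set Metric
open scoped Classical

namespace Pool.Agent.MP_bc14e1_gt

theorem Frob_div {A : Type} [CommRing A] [IsDomain A] [Algebra ℂ A] (ev : A →ₐ[ℂ] ℂ) {π : A}
    (hπ : π ≠ 0) (hev : ∀ a, ev a = 0 ↔ π ∣ a) :
    ∃ D : A →ₗ[ℂ] A, ∀ a, π * D a = a - algebraMap ℂ A (ev a) := by
  have h : ∀ a, ∃ b, π * b = a - algebraMap ℂ A (ev a) := fun a => by
    obtain ⟨b, hb⟩ := (hev (a - algebraMap ℂ A (ev a))).1 (by simp)
    exact ⟨b, hb.symm⟩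
  choose D hD using h
  refine ⟨⟨⟨D, fun a b => mul_left_cancel₀ hπ ?_⟩, fun r a => mul_left_cancel₀ hπ ?_⟩, hD⟩
  · rw [mul_add, hD, hD, hD, map_add, map_add]
    ring
  · simp only [RingHom.id_apply]
    rw [mul_smul_comm, hD, hD, map_smul, smul_eq_mul, map_mul, Algebra.smul_def, Algebra.smul_def]
    ring

theorem Frob_ex {A : Type} [CommRing A] [IsDomain A] [Algebra ℂ A] (ev : A →ₐ[ℂ] ℂ) {π : A}
    (hπ : π ≠ 0) (hev : ∀ a, ev a = 0 ↔ π ∣ a) :
    ∃ ρ : ℕ → A →ₗ[ℂ] ℂ, ρ 1 = ev.toLinearMap ∧ ∀ n, (∀ a, ρ n (π ^ n * a) = 0) ∧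
      (∀ b, (∀ a, ρ n (a * b) = 0) → π ^ n ∣ b) ∧
      ∀ f : A →ₗ[ℂ] ℂ, (∀ a, f (π ^ n * a) = 0) → ∃ b, ∀ a, f a = ρ n (a * b) := by
  obtain ⟨D, hD⟩ := Frob_div ev hπ hev
  have hev0 : ∀ a, ev (π * a) = 0 := fun a => (hev _).2 (dvd_mul_right _ _)
  have hDπ : ∀ a, D (π * a) = a := fun a => mul_left_cancel₀ hπ (by rw [hD, hev0]; simp)
  obtain ⟨ρ, h0, h1, hs⟩ : ∃ ρ : ℕ → A →ₗ[ℂ] ℂ, ρ 0 = 0 ∧ ρ 1 = ev.toLinearMap ∧
      ∀ n a, ρ (n + 1) (π * a) = ρ n a := by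
    refine ⟨fun n => Nat.casesOn n 0 fun m => ev.toLinearMap ∘ₗ D ^ m, rfl, ?_, ?_⟩
    · ext a
      simp
    · rintro (_ | n) a
      · simpa using hev0 a
      · simp only [LinearMap.comp_apply]
        rw [pow_succ, Module.End.mul_apply, hDπ]
  have hp : ∀ n m a, ρ (n + m) (π ^ m * a) = ρ n a := by
    intro n m a
    induction m with
    | zero => simp
    | succ m ih => rw [← add_assoc, pow_succ', mul_assoc, hs, ih]
  have ht : ∀ n a, ρ (n + 1) (π ^ n * a) = ev a := fun n a => by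
    rw [add_comm, hp, h1]
    rfl
  refine ⟨ρ, h1, fun n => ⟨fun a => ?_, ?_, ?_⟩⟩
  · have := hp 0 n a
    rwa [zero_add, h0] at this
  · induction n with
    | zero => intro b _; simp
    | succ n ih =>
      intro b hb
      obtain ⟨b', rfl⟩ := (hev b).1 (by rw [← ht n b, hb])
      rw [pow_succ']
      refine mul_dvd_mul_left _ (ih b' fun a => ?_)
      rw [← hs, ← hb a]
      congr 1
      ring
  · induction n with
    | zero =>
      intro f hf
      refine ⟨0, fun a => ?_⟩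
      simpa using hf a
    | succ n ih =>
      intro f hf
      obtain ⟨b', hb'⟩ := ih (f ∘ₗ LinearMap.mulLeft ℂ π) fun a => by
        rw [← hf a, pow_succ', mul_assoc]
        rfl
      refine ⟨b' + π ^ n * algebraMap ℂ A (f 1 - ρ (n + 1) b'), fun a => ?_⟩
      have ha : a = ev a • (1 : A) + π * D a := by
        rw [hD, Algebra.smul_def]
        ring
      have e1 : f (π * D a) = ρ (n + 1) (π * D a * b') := by
        rw [mul_assoc, hs]
        exact hb' (D a)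
      have e2 : ρ (n + 1) (a * b') = ev a * ρ (n + 1) b' + ρ (n + 1) (π * D a * b') := by
        conv_lhs => rw [ha]
        rw [add_mul, map_add, smul_mul_assoc, one_mul, map_smul, smul_eq_mul]
      have e3 : f a = ev a * f 1 + f (π * D a) := by
        conv_lhs => rw [ha]
        rw [map_add, map_smul, smul_eq_mul]
      rw [mul_add, map_add, mul_left_comm, ht, e2, e3, e1, map_mul ev, AlgHom.commutes]
      simp only [Algebra.algebraMap_self, RingHom.id_apply]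
      ring

theorem frob_stmt (hLaur : LaurStmt) : FrobStmt := by
  intro ζ
  obtain ⟨-, -, hcc, -, -, -, -, -, hev, hpr, hcj, -⟩ := hLaur
  obtain ⟨ρ, h1, hρ⟩ := Frob_ex (evL ζ) (hpr ζ).ne_zero (hev ζ)
  have hd : ∀ n : ℕ, piL ζ ^ n ∣ cj (piL ζ ^ n) := fun n => by
    rw [map_pow, hcj]
    exact pow_dvd_pow_of_dvd (dvd_mul_left _ _) n
  have key : ∀ n : ℕ, Frob (piL ζ ^ n) (ρ n) := fun n => by
    refine ⟨pow_ne_zero n (hpr ζ).ne_zero, hd n, (hρ n).1, fun a' ha' => ?_, fun f hf => ?_⟩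
    · have := map_dvd cj ((hρ n).2.1 _ ha')
      rw [hcc] at this
      exact (hd n).trans this
    · obtain ⟨b, hb⟩ := (hρ n).2.2 f hf
      exact ⟨cj b, fun a => by rw [hcc, hb]⟩
  refine ⟨?_, fun n => ⟨ρ n, key n⟩⟩
  have := key 1
  rwa [pow_one, h1] at this

end Pool.Agent.MP_bc14e1_gt
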