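import Pool.Agent.MP_bc14e1_gt.IfD

open Set Metric
open scoped Classical

namespace Pool.Agent.MP_bc14e1_gt

section

open scoped Manifold ContDiff

theorem GMan_gen {W X J : Type} [TopologicalSpace W] [ChartedSpace (E 4) W]
    [IsManifold (𝓡 4) ∞ W] [TopologicalSpace X] (φ : J → OpenPartialHomeomorph W X)
    (hc : ∀ x, ∃ b, x ∈ (φ b).target)
    (hs : ∀ b b', ContMDiffOn (𝓡 4) (𝓡 4) ∞ (fun w => (φ b').symm (φ b w))
      ((φ b).source ∩ φ b ⁻¹' (φ b').target)) :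
    ∃ _ : ChartedSpace (E 4) X, IsManifold (𝓡 4) ∞ X := by
  choose f hf using hc
  let C : ChartedSpace (E 4) X :=
    { atlas := {e' | ∃ b, ∃ e ∈ atlas (E 4) W, e' = (φ b).symm.trans e}
      chartAt := fun x => (φ (f x)).symm.trans (chartAt (E 4) ((φ (f x)).symm x))
      mem_chart_source := fun x => ⟨hf x, mem_chart_source (E 4) _⟩
      chart_mem_atlas := fun x => ⟨f x, _, chart_mem_atlas (E 4) _, rfl⟩ }
  refine ⟨C, isManifold_of_contDiffOn _ _ _ ?_⟩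
  rintro _ _ ⟨b, e, he, rfl⟩ ⟨b', e', he', rfl⟩
  have h1 := contMDiffOn_symm_of_mem_maximalAtlas (I := 𝓡 4) (n := ∞)
    (StructureGroupoid.subset_maximalAtlas _ he)
  have h2 := contMDiffOn_of_mem_maximalAtlas (I := 𝓡 4) (n := ∞)
    (StructureGroupoid.subset_maximalAtlas _ he')
  rw [← contMDiffOn_iff_contDiffOn]
  refine (h2.comp ((hs b b').comp (h1.mono ?_) ?_) ?_).congr fun x _ => rfl
  · exact fun x hx => hx.1.1.1
  · exact fun x hx => ⟨hx.1.1.2, hx.1.2.1⟩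
  · exact fun x hx => hx.1.2.2

theorem GMan_norm (ι : E 4 ≃ₗᵢ[ℝ] E 4) {v : E 4} (hv : v ∈ shell) : ‖invS ι v‖ ≤ 1 := by
  have h1 := hv.1
  have h2 := hv.2
  have h3 : 0 < ‖v‖ := by linarith
  rw [invS, norm_smul, ι.norm_map, Real.norm_eq_abs, abs_of_nonneg (div_nonneg (by linarith) h3.le),
    div_mul_cancel₀ _ h3.ne']
  linarith

theorem GMan_smooth (ι : E 4 ≃ₗᵢ[ℝ] E 4) : ContDiffOn ℝ ∞ (invS ι) shell := by
  intro v hv
  have h3 : 0 < ‖v‖ := by linarith [hv.1]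
  have h4 : ContDiffAt ℝ ∞ (fun x : E 4 => ‖x‖) v :=
    contDiffAt_id.norm ℝ (norm_pos_iff.1 h3)
  exact (((contDiffAt_const.sub h4).div h4 h3.ne').smul ι.contDiff.contDiffAt).contDiffWithinAt

theorem GMan_mixed {K : Set (E 4)} {ι : E 4 ≃ₗᵢ[ℝ] E 4} {Z : ZD K} (Γ : Gl Z ι) :
    ContMDiffOn (𝓡 4) (𝓡 4) ∞ (fun w => Γ.i.symm (Γ.I (Γ.i w)))
      {w | w ∈ Γ.i.source ∧ Γ.I (Γ.i w) ∈ Γ.i.target} := by
  have hv : ∀ w, w ∈ Γ.i.source → Γ.I (Γ.i w) ∈ Γ.i.target → w ∈ Z.c.source ∧ Z.c w ∈ shell ∧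
      Γ.i.symm (Γ.I (Γ.i w)) = Z.c.symm (invS ι (Z.c w)) := fun w h1 h2 => by
    obtain ⟨v, hv, e1, e2⟩ := (Γ.glue w (Γ.src ▸ h1) _ (Γ.src ▸ Γ.i.map_target h2)).1
      (Γ.i.right_inv h2).symm
    have h3 : v ∈ Z.c.target := Z.tgt (mem_closedBall_zero_iff.2 hv.2.le)
    have h4 : Z.c w = v := by rw [e1, Z.c.right_inv h3]
    rw [h4]
    exact ⟨e1 ▸ Z.c.map_target h3, hv, e2⟩
  have h1 := contMDiffOn_symm_of_mem_maximalAtlas Z.atl
  have h2 := contMDiffOn_of_mem_maximalAtlas Z.atl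
  refine (h1.comp ((GMan_smooth ι).contMDiffOn.comp (h2.mono ?_) ?_) ?_).congr
    fun w hw => (hv w hw.1 hw.2).2.2
  · exact fun w hw => (hv w hw.1 hw.2).1
  · exact fun w hw => (hv w hw.1 hw.2).2.1
  · exact fun w hw => Z.tgt (mem_closedBall_zero_iff.2 (GMan_norm ι (hv w hw.1 hw.2).2.1))

end

theorem gMan_stmt : GManStmt := by
  intro K ι Z Γ
  have hI : ∀ x, Γ.I.symm x = Γ.I x := fun x => by
    rw [Homeomorph.symm_apply_eq, Γ.II]
  refine GMan_gen (fun b : Bool => cond b (Γ.i.transHomeomorph Γ.I) Γ.i) (fun x => ?_) ?_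
  · rcases Γ.cover x with h | h
    · exact ⟨false, h⟩
    · exact ⟨true, by rw [← hI] at h; exact h⟩
  · rintro (_ | _) (_ | _)
    · exact contMDiffOn_id.congr fun w hw => Γ.i.left_inv hw.1
    · refine ((GMan_mixed Γ).mono fun w hw => ⟨hw.1, ?_⟩).congr fun w _ => ?_
      · rw [← hI]
        exact hw.2
      · rw [← hI]
        rfl
    · exact (GMan_mixed Γ).mono fun w hw => hw
    · refine contMDiffOn_id.congr fun w hw => ?_
      change Γ.i.symm (Γ.I.symm (Γ.I (Γ.i w))) = w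
      rw [Homeomorph.symm_apply_apply]
      exact Γ.i.left_inv hw.1

end Pool.Agent.MP_bc14e1_gt
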