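import Pool.Agent.MP_bc14e1_gt.IfD
import Pool.Agent.MP_bc14e1_gt.IfT

open Set Metric
open scoped Classical

namespace Pool.Agent.MP_bc14e1_gt

/-- The comparison of the pairings for an open embedding. -/
theorem GNum_comp (hC : CompStmt) (κ : Kit) {X Y : Type} [TopologicalSpace X] [T2Space X]
    [ChartedSpace (E 4) X] [TopologicalSpace Y] [T2Space Y] (o : Orientation4 X) {q : Y → X}
    (hq : IsLocalHomeomorph q) (hi : Function.Injective q) {τ : TS (Y × Y) → ℝ}
    {τ' : TS (X × X) → ℝ} (h : IsThom o q τ) (h' : IsThom o id τ') {u v : Tot ℂ Y}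
    (hu : u ∈ ZC ℂ univ 2) (hv : v ∈ ZC ℂ univ 2) :
    beta κ τ u v = beta κ τ' (psh ℂ q u) (psh ℂ q v) := by
  let _ : MulAction Unit Y :=
    { smul := fun _ y => y
      one_smul := fun _ => rfl
      mul_smul := fun _ _ _ => rfl }
  have : ContinuousConstSMul Unit Y := ⟨fun _ => continuous_id⟩
  have := hC κ X X Unit Y X o o q id q τ τ' hq (Homeomorph.refl X).isLocalHomeomorph hq
    (fun _ _ => rfl) (fun _ _ _ h => h) (fun _ _ _ => rfl)
    (fun y y' => ⟨fun e => ⟨1, (hi e).symm⟩, fun ⟨_, e⟩ => congrArg q e.symm⟩)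
    (fun _ _ _ _ => toFinite _) h h' u hu v hv
  rwa [finsum_unique, Subsingleton.elim (default : Unit) 1, gs_one] at this

/-- Local degrees are preserved by an oriented open embedding. -/
theorem GNum_deg {W X : Type} [TopologicalSpace W] [T2Space W] [TopologicalSpace X]
    {o : Orientation4 W} {o' : Orientation4 X} {i : OpenPartialHomeomorph W X} (hO : OC o o' i)
    {y : i.source} {c : Tot ℝ i.source} {r : ℝ} (h : LocDeg o Subtype.val y c r) :
    LocDeg o' (i ∘ Subtype.val) y c r := by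
  obtain ⟨U, hU, hy, -, hc, hd, b, hb⟩ := h
  have hsub : ({y.1} : Set W) ⊆ i.source := singleton_subset_iff.2 y.2
  obtain ⟨z, hz, w, hw⟩ := exc_surj (R := ℤ) isClosed_singleton i.open_source hsub
    (inc_mem_DG 4 (o.o y.1)) (by rw [dT_inc_succ, inc_mem_CH]; exact o.rel _)
  obtain ⟨w', hw'⟩ := hO y.1 y.2 z hz ⟨w, hw⟩
  have hc1 : psh ℝ Subtype.val c ∈ CH ℝ i.source :=
    psh_mem_CH _ (fun x _ => x.2) (mem_CH_univ c)
  have hz1 : castZ ℝ W z ∈ CH ℝ i.source := cast_mem_CH _ hz.1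
  obtain ⟨b₁, hb₁, h₁⟩ := exc_inj (R := ℝ) isClosed_singleton i.open_source hsub
    (z := psh ℝ Subtype.val c - r • castZ ℝ W z) (w := b - r • castZ ℝ W w)
    (sub_mem hc1 (Submodule.smul_mem _ r hz1)) (by
      have := sub_mem hb (Submodule.smul_mem _ r (cast_mem_CH (Int.castRingHom ℝ) hw))
      rw [map_sub, map_sub, cast_dT] at this
      convert this using 1
      rw [map_sub, map_smul, smul_sub, smul_sub]
      abel)
  refine ⟨U, hU, hy, fun a _ a' _ e => Subtype.ext (i.injOn a.2 a'.2 e), hc, hd,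
    psh ℝ i b₁ + r • castZ ℝ X w', ?_⟩
  have h₂ : psh ℝ i (psh ℝ Subtype.val c - r • castZ ℝ W z - dT ℝ W b₁) ∈ CH ℝ {i y.1}ᶜ :=
    psh_mem_CH _ (fun x hx e => hx.2 (i.injOn hx.1 y.2 e)) h₁
  rw [map_sub, map_sub, map_smul, psh_psh' _ continuous_subtype_val,
    ← dT_psh i.continuousOn hb₁, ← cast_psh] at h₂
  have := add_mem h₂ (Submodule.smul_mem _ r (cast_mem_CH (Int.castRingHom ℝ) hw'))
  rw [map_sub, map_sub, cast_dT] at this
  simp only [Function.comp_apply]
  convert this using 1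
  rw [map_add, map_smul, smul_sub, smul_sub]
  abel

/-- Cycles in an open set come from the subspace. -/
theorem GNum_lift {W : Type} [TopologicalSpace W] {A : Set W} {x : Sing W 2 →₀ ℤ}
    (hx : x ∈ supp ℤ A 2) (h0 : bd ℤ W 1 x = 0) :
    ∃ u : Tot ℤ A, castZ ℂ A u ∈ ZC ℂ univ 2 ∧ psh ℤ Subtype.val u = inc ℤ 2 x := by
  let f : C(A, W) := ⟨Subtype.val, continuous_subtype_val⟩
  obtain ⟨b, -, rfl⟩ := exists_push_eq (A := univ) f Topology.IsEmbedding.subtypeVal
    (c := x) (supp_mono (show A ⊆ f '' univ from fun w hw => ⟨⟨w, hw⟩, trivial, rfl⟩) 2 hx)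
  refine ⟨inc ℤ 2 b, ⟨⟨mem_CH_univ _, cast_mem_DG _ (inc_mem_DG 2 b)⟩, ?_⟩, psh_inc f 2 b⟩
  rw [bd_push] at h0
  have : bd ℤ A 1 b = 0 := push_injective f Subtype.val_injective 1 (h0.trans (map_zero _).symm)
  rw [SetLike.mem_coe, LinearMap.mem_ker, ← cast_dT, dT_inc_succ, this, map_zero, map_zero]

theorem gNum_stmt (B : Bas2) (hLocDeg : LocDegStmt) : GNumStmt := by
  intro κ W X _ _ _ _ _ _ o o' i hO τ hτ x hx y hy hx0 hy0 n hn
  have h1 : Topology.IsOpenEmbedding (Subtype.val : i.source → W) :=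
    i.open_source.isOpenEmbedding_subtypeVal
  have h2 : Topology.IsOpenEmbedding (i ∘ (Subtype.val : i.source → W)) :=
    i.isOpenEmbedding_restrict
  obtain ⟨τW, hW⟩ := B.thomEx W W o id (Homeomorph.refl W).isLocalHomeomorph
  obtain ⟨τY, hY⟩ := B.thomEx X i.source o' _ h2.isLocalHomeomorph
  have hY' : IsThom o Subtype.val τY :=
    ⟨hY.dg, hY.off, hY.coc, fun y c r h => hY.one y c r (GNum_deg hO h)⟩
  obtain ⟨u, hu, eu⟩ := GNum_lift hx hx0
  obtain ⟨v, hv, ev⟩ := GNum_lift hy hy0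
  have e1 := GNum_comp B.comp κ o h1.isLocalHomeomorph h1.injective hY' hW hu hv
  have e2 := GNum_comp B.comp κ o' h2.isLocalHomeomorph h2.injective hY hτ hu hv
  rw [← cast_psh, ← cast_psh, eu, ev, B.inter κ W o τW hW x y n hn] at e1
  rw [← cast_psh, ← cast_psh, ← psh_psh' _ continuous_subtype_val,
    ← psh_psh' _ continuous_subtype_val, eu, ev] at e2
  exact e2.symm.trans e1

end Pool.Agent.MP_bc14e1_gt
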