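import Pool.Agent.MP_bc14e1_gt.IfD

open Set Metric
open scoped Classical

namespace Pool.Agent.MP_bc14e1_gt

theorem GOri_norm (ι : E 4 ≃ₗᵢ[ℝ] E 4) {v : E 4} (hv : v ∈ shell) :
    ‖invS ι v‖ = 3 / 2 - ‖v‖ := by
  obtain ⟨h1, h2⟩ := hv
  have h3 : 0 < ‖v‖ := by linarith
  rw [invS, norm_smul, ι.norm_map, Real.norm_of_nonneg (div_nonneg (by linarith) h3.le),
    div_mul_cancel₀ _ h3.ne']

theorem GOri_maps (ι : E 4 ≃ₗᵢ[ℝ] E 4) {v : E 4} (hv : v ∈ shell) : invS ι v ∈ shell := by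
  have := GOri_norm ι hv
  obtain ⟨h1, h2⟩ := hv
  exact ⟨by linarith, by linarith⟩

theorem GOri_inv (ι : E 4 ≃ₗᵢ[ℝ] E 4) (hι : ∀ x, ι (ι x) = x) {v : E 4} (hv : v ∈ shell) :
    invS ι (invS ι v) = v := by
  have h := GOri_norm ι hv
  obtain ⟨h1, h2⟩ := hv
  have h3 : ‖v‖ ≠ 0 := by linarith
  have h4 : 3 / 2 - ‖v‖ ≠ 0 := by linarith
  rw [invS, h, invS, map_smul, hι, smul_smul]
  have : (3 / 2 - (3 / 2 - ‖v‖)) / (3 / 2 - ‖v‖) * ((3 / 2 - ‖v‖) / ‖v‖) = 1 := by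
    rw [sub_sub_cancel, div_mul_div_cancel₀ h4, div_self h3]
  rw [this, one_smul]

theorem GOri_cont (ι : E 4 ≃ₗᵢ[ℝ] E 4) : ContinuousOn (invS ι) shell :=
  ((continuousOn_const.sub continuous_norm.continuousOn).div continuous_norm.continuousOn
    fun v hv => by linarith [hv.1]).smul ι.continuous.continuousOn

theorem GOri_open : IsOpen shell :=
  (isOpen_lt continuous_const continuous_norm).inter (isOpen_lt continuous_norm continuous_const)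

theorem GOri_conn : IsPreconnected shell := by
  have h : shell = (fun p : ℝ × E 4 => p.1 • p.2) '' (Ioo (1 / 2) 1 ×ˢ sphere 0 1) := by
    ext v
    constructor
    · intro hv
      have h3 : ‖v‖ ≠ 0 := by linarith [hv.1]
      exact ⟨(‖v‖, ‖v‖⁻¹ • v), ⟨hv, by simp [norm_smul, h3]⟩, by simp [smul_smul, h3]⟩
    · rintro ⟨⟨r, u⟩, ⟨h1, h2⟩, rfl⟩
      have h3 : ‖r • u‖ = r := by
        rw [norm_smul, mem_sphere_zero_iff_norm.1 h2, mul_one,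
          Real.norm_of_nonneg (by linarith [h1.1])]
      exact ⟨h3.symm ▸ h1.1, h3.symm ▸ h1.2⟩
  rw [h]
  refine (isPreconnected_Ioo.prod (isPreconnected_sphere ?_ _ _)).image _ (by fun_prop)
  rw [← Module.finrank_eq_rank, finrank_euclideanSpace_fin]
  norm_num

theorem GOri_trans {X : Type} [TopologicalSpace X] {x : X} {a b c : Tot ℤ X} (h : RelEq ℤ x a b)
    (h' : RelEq ℤ x b c) : RelEq ℤ x a c := by
  obtain ⟨w, h⟩ := h
  obtain ⟨w', h'⟩ := h'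
  refine ⟨w + w', ?_⟩
  convert add_mem h h' using 1
  rw [map_add]
  abel

theorem gOri_stmt (B : Bas1) (hInvDeg : InvDegStmt)
    (hChOri : ChOriStmt) (hOriGlue : OriGlueStmt) : GOriStmt := by
  intro K ι Z Γ _ hι hdet
  have := ChartedSpace.locallyCompactSpace (E 4) Z.W
  refine hOriGlue Z.W Γ.X Z.o Γ.i Γ.I Γ.II Γ.cover fun w hw w' hw' hI => ?_
  rw [Γ.src] at hw hw' ⊢
  obtain ⟨v, hv, rfl, rfl⟩ := (Γ.glue w hw w' hw').1 hI
  have ht : shell ⊆ Z.c.target := fun x hx => Z.tgt (mem_closedBall_zero_iff.2 hx.2.le)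
  have hs : Z.c.symm '' shell ⊆ Z.c.source := by
    rintro _ ⟨x, hx, rfl⟩
    exact Z.c.map_target (ht hx)
  have hU : Z.c.symm '' shell ⊆ Z.U1 := by
    rintro _ ⟨x, hx, rfl⟩ ⟨y, hy, e⟩
    rw [Z.c.symm.injOn (Z.tgt (closedBall_subset_closedBall (by norm_num) hy)) (ht hx) e,
      mem_closedBall_zero_iff] at hy
    exact absurd hx.1 (not_lt.2 hy)
  have hc : ∀ x ∈ shell, Z.c (Z.c.symm x) = x := fun x hx => Z.c.right_inv (ht hx)
  have hm : MapsTo Z.c (Z.c.symm '' shell) shell := by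
    rintro _ ⟨x, hx, rfl⟩
    rwa [hc x hx]
  have hcc : ContinuousOn Z.c (Z.c.symm '' shell) := Z.c.continuousOn.mono hs
  have hd0 : dT ℤ Z.W (inc ℤ 4 (Z.o.o (Z.c.symm v))) ∈ CH ℤ {Z.c.symm v}ᶜ := by
    rw [dT_inc_succ, inc_mem_CH]
    exact Z.o.rel _
  obtain ⟨z, hz, hr⟩ := exc_surj (A := {Z.c.symm v}) (U := Z.c.symm '' shell) isClosed_singleton
    (Z.c.isOpen_image_symm_of_subset_target GOri_open ht)
    (singleton_subset_iff.2 (mem_image_of_mem _ hv)) (inc_mem_DG 4 _) hd0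
  have hd : dT ℤ Z.W z ∈ CH ℤ {Z.c.symm v}ᶜ := by
    obtain ⟨u, hu⟩ := hr
    have := add_mem (dT_mem_CH hu) hd0
    simpa [dT_dT] using this
  have hd' : dT ℤ Z.W z ∈ CH ℤ (Z.c.symm '' shell ∩ {Z.c.symm v}ᶜ) := by
    rw [CH_inter]
    exact ⟨dT_mem_CH hz.1, hd⟩
  let G : Z.W → Z.W := fun x => Z.c.symm (invS ι (Z.c x))
  have hG : ContinuousOn G (Z.c.symm '' shell) :=
    Z.c.continuousOn_symm.comp ((GOri_cont ι).comp hcc hm) fun x hx => ht (GOri_maps ι (hm hx))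
  have hGm : MapsTo G (Z.c.symm '' shell) (Z.c.symm '' shell) :=
    fun x hx => mem_image_of_mem _ (GOri_maps ι (hm hx))
  have hz' : psh ℤ G z ∈ CH ℤ (Z.c.symm '' shell) := psh_mem_CH G hGm hz.1
  obtain ⟨z₀, h0⟩ := hChOri Z.W Z.o Z.c shell ht GOri_conn
  refine ⟨z, ⟨CH_mono hU hz.1, hz.2⟩, psh ℤ G z, ⟨CH_mono hU hz', psh_mem_DG G hz.2⟩, hr, ?_, ?_⟩
  · refine (h0 _ (GOri_maps ι hv) _ ⟨CH_mono hs hz', psh_mem_DG G hz.2⟩ ?_).2 ?_
    · rw [dT_psh hG hz.1]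
      refine psh_mem_CH G ?_ hd'
      rintro _ ⟨⟨x, hx, rfl⟩, h1⟩ h2
      simp only [G, hc x hx, mem_singleton_iff] at h2
      have h3 := congrArg (invS ι) (Z.c.symm.injOn (ht (GOri_maps ι hx)) (ht (GOri_maps ι hv)) h2)
      rw [GOri_inv ι hι hx, GOri_inv ι hι hv] at h3
      exact h1 (by rw [h3]; rfl)
    have h1 := hInvDeg ι hdet v hv (psh ℤ Z.c z) ⟨psh_mem_CH _ hm hz.1, psh_mem_DG _ hz.2⟩ (by
      rw [dT_psh hcc hz.1]
      refine psh_mem_CH _ ?_ hd'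
      rintro _ ⟨⟨x, hx, rfl⟩, h1⟩ h2
      rw [hc x hx, mem_singleton_iff] at h2
      exact h1 (by rw [h2]; rfl))
    rw [psh_psh _ hcc hz.1, psh_psh _ hcc hz.1] at h1
    rw [psh_psh _ hG hz.1, psh_congr (g := (fun x => invS ι x - invS ι v) ∘ Z.c)
      (fun x hx => by simp only [Function.comp, G, hc _ (GOri_maps ι (hm hx))]) hz.1]
    exact GOri_trans h1 ((h0 v hv z ⟨CH_mono hs hz.1, hz.2⟩ hd).1 hr)
  · rw [psh_psh _ (Γ.i.continuousOn.mono (hU.trans Γ.src.ge)) hz.1, psh_psh _ hG hz.1]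
    refine psh_congr ?_ hz.1
    rintro _ ⟨x, hx, rfl⟩
    exact (Γ.glue _ (hU (mem_image_of_mem _ hx)) _ (hU (hGm (mem_image_of_mem _ hx)))).2
      ⟨x, hx, rfl, by simp only [G, hc x hx]⟩

end Pool.Agent.MP_bc14e1_gt
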