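import Pool.Agent.MP_bc14e1_gt.IfD

open Set Metric
open scoped Classical

namespace Pool.Agent.MP_bc14e1_gt

variable {K : Set (E 4)} {ι : E 4 ≃ₗᵢ[ℝ] E 4} {Z : ZD K}

theorem GTop_norm {v : E 4} (hv : v ∈ shell) : ‖invS ι v‖ = 3 / 2 - ‖v‖ := by
  have h1 : 0 < ‖v‖ := by linarith [hv.1]
  have h2 : 0 < 3 / 2 - ‖v‖ := by linarith [hv.2]
  rw [invS, norm_smul, ι.norm_map, Real.norm_of_nonneg (by positivity), div_mul_cancel₀ _ h1.ne']

theorem GTop_shell {v : E 4} (hv : v ∈ shell) : invS ι v ∈ shell := by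
  constructor <;> rw [GTop_norm hv] <;> linarith [hv.1, hv.2]

theorem GTop_dir (hι : ι '' K = K) {v : E 4} (hv : v ∈ shell) (h : ‖v‖⁻¹ • v ∈ K) :
    ‖invS ι v‖⁻¹ • invS ι v ∈ K := by
  have h2 : 0 < 3 / 2 - ‖v‖ := by linarith [hv.2]
  have e : ‖invS ι v‖⁻¹ • invS ι v = ι (‖v‖⁻¹ • v) := by
    rw [GTop_norm hv, invS, smul_smul, map_smul, div_eq_mul_inv _ ‖v‖, inv_mul_cancel_left₀ h2.ne']
  rw [e, ← hι]
  exact mem_image_of_mem _ h

theorem GTop_tgt {v : E 4} (hv : ‖v‖ ≤ 1) : v ∈ Z.c.target := Z.tgt (mem_closedBall_zero_iff.2 hv)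

theorem GTop_mem {T : Set (E 4)} (hT : T ⊆ closedBall 0 1) {v : E 4} (hv : ‖v‖ ≤ 1) :
    Z.c.symm v ∈ Z.c.symm '' T ↔ v ∈ T :=
  Z.c.symm.injOn.mem_image_iff (hT.trans Z.tgt) (GTop_tgt hv)

theorem GTop_in {v : E 4} (hv : ‖v‖ ≤ 1) : Z.hW (Z.c.symm v) = 3 - 4 * ‖v‖ := by
  rw [ZD.hW, Z.c.right_inv (GTop_tgt hv)]
  split_ifs with h
  · rfl
  · rw [GTop_mem ball_subset_closedBall hv, mem_ball_zero_iff] at h
    linarith

theorem GTop_out {w : Z.W} (h : w ∉ Z.c.symm '' ball 0 1) : Z.hW w = -1 := if_neg h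

theorem GTop_U1 {v : E 4} (h : 1 / 2 < ‖v‖) (hv : ‖v‖ ≤ 1) : Z.c.symm v ∈ Z.U1 := by
  rw [ZD.U1, mem_compl_iff, GTop_mem (closedBall_subset_closedBall (by norm_num)) hv,
    mem_closedBall_zero_iff, not_le]
  exact h

theorem GTop_cases {w : Z.W} (h : w ∈ Z.U1) :
    (∃ v ∈ shell, w = Z.c.symm v) ∨ w ∉ Z.c.symm '' ball 0 1 := by
  refine or_iff_not_imp_right.2 fun h' => ?_
  obtain ⟨v, hv, rfl⟩ := not_not.1 h'
  exact ⟨v, ⟨not_le.1 fun e => h ⟨v, mem_closedBall_zero_iff.2 e, rfl⟩,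
    mem_ball_zero_iff.1 hv⟩, rfl⟩

theorem GTop_open {r : ℝ} (hr : r ≤ 1) : IsOpen (Z.c.symm '' ball 0 r) :=
  Z.c.isOpen_image_symm_of_subset_target isOpen_ball
    ((ball_subset_closedBall.trans (closedBall_subset_closedBall hr)).trans Z.tgt)

theorem GTop_cont : Continuous Z.hW := by
  have h1 : IsClosed (Z.c.symm '' closedBall 0 1) :=
    ((isCompact_closedBall _ _).image_of_continuousOn (Z.c.continuousOn_symm.mono Z.tgt)).isClosed
  have h2 : ContinuousOn Z.hW (Z.c.symm '' closedBall 0 1) := by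
    have : ContinuousOn (fun w => 3 - 4 * ‖Z.c w‖) (Z.c.symm '' closedBall 0 1) :=
      continuousOn_const.sub (continuousOn_const.mul (Z.c.continuousOn.mono (by
        rintro _ ⟨v, hv, rfl⟩
        exact Z.c.map_target (Z.tgt hv))).norm)
    refine this.congr ?_
    rintro _ ⟨v, hv, rfl⟩
    rw [GTop_in (mem_closedBall_zero_iff.1 hv)]
    simp only [Z.c.right_inv (Z.tgt hv)]
  have h3 : ContinuousOn Z.hW (Z.c.symm '' ball 0 1)ᶜ :=
    continuousOn_const.congr fun w hw => GTop_out hw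
  refine continuousOn_univ.1 ((h2.union_of_isClosed h3 h1 (GTop_open le_rfl).isClosed_compl).mono
    fun w _ => ?_)
  exact (em _).imp (fun h => image_mono ball_subset_closedBall h) id

theorem GTop_dout (hK : K ⊆ sphere 0 1) {w : Z.W} (hw : w ∈ Z.d '' closedBall 0 1) :
    w ∉ Z.c.symm '' ball 0 1 := by
  obtain ⟨x, hx, rfl⟩ := hw
  rcases (mem_closedBall_zero_iff.1 hx).lt_or_eq with h | h
  · exact fun e => Z.out x (mem_ball_zero_iff.2 h) (image_mono ball_subset_closedBall e)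
  · obtain ⟨k, hk, e⟩ : Z.d x ∈ Z.c.symm '' K :=
      Z.bdy ▸ mem_image_of_mem _ (mem_sphere_zero_iff_norm.2 h)
    have h1 := mem_sphere_zero_iff_norm.1 (hK hk)
    rw [← e, GTop_mem ball_subset_closedBall h1.le, mem_ball_zero_iff, h1]
    exact lt_irrefl _

theorem GTop_sub (hK : K ⊆ sphere 0 1) : Z.FW ⊆ Z.U1 := by
  rintro w (hw | ⟨v, hv, rfl⟩)
  · exact fun e => GTop_dout hK hw (image_mono (closedBall_subset_ball (by norm_num)) e)
  · exact GTop_U1 hv.1.1 hv.1.2.le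

theorem GTop_FW (hK : K ⊆ sphere 0 1) {v : E 4} (hv : v ∈ shell) :
    Z.c.symm v ∈ Z.FW ↔ ‖v‖⁻¹ • v ∈ K := by
  refine ⟨?_, fun h => .inr ⟨v, ⟨hv, h⟩, rfl⟩⟩
  rintro (h | h)
  · exact absurd (mem_image_of_mem _ (mem_ball_zero_iff.2 hv.2)) (GTop_dout hK h)
  · exact ((GTop_mem (fun u hu => mem_closedBall_zero_iff.2 hu.1.2.le) hv.2.le).1 h).2

theorem GTop_dc : IsCompact (Z.d '' closedBall 0 1) :=
  (isCompact_closedBall _ _).image_of_continuousOn fun x hx =>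
    (Z.sm x hx).continuousAt.continuousWithinAt

theorem GTop_K (Z : ZD K) (hK : K ⊆ sphere 0 1) : IsClosed K := by
  have h1 : IsCompact (Z.c.symm '' K) := Z.bdy ▸ (isCompact_sphere _ _).image_of_continuousOn
    fun x hx => (Z.sm x (sphere_subset_closedBall hx)).continuousAt.continuousWithinAt
  have h2 : K ⊆ Z.c.target := (hK.trans sphere_subset_closedBall).trans Z.tgt
  have h3 := h1.image_of_continuousOn (Z.c.continuousOn.mono (by
    rintro _ ⟨v, hv, rfl⟩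
    exact Z.c.map_target (h2 hv)))
  have e : Z.c '' (Z.c.symm '' K) = K := Z.c.image_symm_image_of_subset_target h2
  rw [e] at h3
  exact h3.isClosed

variable (Γ : Gl Z ι)

theorem GTop_src {w : Z.W} (h : w ∈ Z.U1) : w ∈ Γ.i.source := Γ.src ▸ h

theorem GTop_ex {x : Γ.X} (h : x ∈ Γ.i.target) : ∃ w ∈ Z.U1, x = Γ.i w :=
  ⟨_, Γ.src ▸ Γ.i.map_target h, (Γ.i.right_inv h).symm⟩

theorem GTop_glue {v : E 4} (hv : v ∈ shell) :
    Γ.I (Γ.i (Z.c.symm v)) = Γ.i (Z.c.symm (invS ι v)) :=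
  (Γ.glue _ (GTop_U1 hv.1 hv.2.le) _ (GTop_U1 (GTop_shell hv).1 (GTop_shell hv).2.le)).2
    ⟨v, hv, rfl, rfl⟩

theorem GTop_hi {w : Z.W} (h : w ∈ Z.U1) : Γ.h (Γ.i w) = Z.hW w := by
  rw [Gl.h, if_pos (Γ.i.map_source (GTop_src Γ h)), Γ.i.left_inv (GTop_src Γ h)]

theorem GTop_hs {v : E 4} (hv : v ∈ shell) : Γ.h (Γ.i (Z.c.symm v)) = 3 - 4 * ‖v‖ := by
  rw [GTop_hi Γ (GTop_U1 hv.1 hv.2.le), GTop_in hv.2.le]

theorem GTop_one {x : Γ.X} (h : x ∉ Γ.i.target) : Γ.h x = 1 := if_neg h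

theorem GTop_hI (x : Γ.X) : Γ.h (Γ.I x) = -Γ.h x := by
  have key : ∀ x ∈ Γ.i.target, Γ.h (Γ.I x) = -Γ.h x := by
    intro x hx
    obtain ⟨w, hw, rfl⟩ := GTop_ex Γ hx
    rcases GTop_cases hw with ⟨v, hv, rfl⟩ | h
    · rw [GTop_glue Γ hv, GTop_hs Γ hv, GTop_hs Γ (GTop_shell hv), GTop_norm hv]
      ring
    · rw [GTop_hi Γ hw, GTop_out h, neg_neg]
      refine GTop_one Γ fun e => ?_
      obtain ⟨y, hy, e'⟩ := GTop_ex Γ e
      obtain ⟨v, hv, rfl, -⟩ := (Γ.glue w hw y hy).1 e'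
      exact h (mem_image_of_mem _ (mem_ball_zero_iff.2 hv.2))
  rcases Γ.cover x with h | h
  · exact key x h
  · have := key _ h
    rw [Γ.II] at this
    linarith

theorem GTop_hc : Continuous Γ.h := by
  have key : ∀ x ∈ Γ.i.target, ContinuousAt Γ.h x := by
    intro x hx
    refine (GTop_cont.continuousAt.comp (Γ.i.continuousAt_symm hx)).congr ?_
    filter_upwards [Γ.i.open_target.mem_nhds hx] with y hy
    exact (if_pos hy).symm
  refine continuous_iff_continuousAt.2 fun x => ?_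
  rcases Γ.cover x with h | h
  · exact key x h
  · refine ((key _ h).comp Γ.I.continuous.continuousAt).neg.congr (.of_forall fun y => ?_)
    simp [GTop_hI]

theorem GTop_lt : Γ.i.target = Γ.h ⁻¹' Iio 1 := by
  ext x
  refine ⟨fun hx => ?_, fun hx => by_contra fun h => (GTop_one Γ h).not_lt hx⟩
  obtain ⟨w, hw, rfl⟩ := GTop_ex Γ hx
  rw [mem_preimage, mem_Iio]
  rcases GTop_cases hw with ⟨v, hv, rfl⟩ | h
  · rw [GTop_hs Γ hv]
    linarith [hv.1]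
  · rw [GTop_hi Γ hw, GTop_out h]
    norm_num

theorem GTop_t2 : T2Space Γ.X := by
  have key : ∀ x ∈ Γ.i.target, ∀ y ∈ Γ.i.target, x ≠ y →
      ∃ u v : Set Γ.X, IsOpen u ∧ IsOpen v ∧ x ∈ u ∧ y ∈ v ∧ Disjoint u v := by
    intro x hx y hy hne
    obtain ⟨u, v, h1, h2, h3, h4, h5⟩ := t2_separation (Γ.i.symm.injOn.ne hx hy hne)
    exact ⟨_, _, Γ.i.isOpen_inter_preimage_symm h1, Γ.i.isOpen_inter_preimage_symm h2, ⟨hx, h3⟩,
      ⟨hy, h4⟩, (h5.preimage Γ.i.symm).mono inter_subset_right inter_subset_right⟩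
  have key' : ∀ x y, x ∉ Γ.i.target → Γ.I y ∉ Γ.i.target → Γ.h x ≠ Γ.h y := by
    intro x y hx hy e
    have h1 := GTop_one Γ hx
    have h2 := GTop_one Γ hy
    rw [GTop_hI] at h2
    linarith
  refine ⟨fun x y hne => ?_⟩
  by_cases h1 : Γ.I x ∈ Γ.i.target ∧ Γ.I y ∈ Γ.i.target
  · obtain ⟨u, v, k1, k2, k3, k4, k5⟩ := key _ h1.1 _ h1.2 (Γ.I.injective.ne hne)
    exact ⟨_, _, k1.preimage Γ.I.continuous, k2.preimage Γ.I.continuous, k3, k4, k5.preimage _⟩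
  by_cases hx : x ∈ Γ.i.target
  · by_cases hy : y ∈ Γ.i.target
    · exact key x hx y hy hne
    · exact separated_by_continuous (GTop_hc Γ)
        (key' y x hy fun e => h1 ⟨e, (Γ.cover y).resolve_left hy⟩).symm
  · exact separated_by_continuous (GTop_hc Γ)
      (key' x y hx fun e => h1 ⟨(Γ.cover x).resolve_left hx, e⟩)

theorem GTop_flip {A : Set Γ.X} {x : Γ.X} (h : x ∈ A ∪ Γ.I '' A) : Γ.I x ∈ A ∪ Γ.I '' A := by
  rcases h with h | ⟨y, hy, rfl⟩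
  · exact .inr (mem_image_of_mem _ h)
  · rw [Γ.II]
    exact .inl hy

theorem GTop_flip' {A : Set Γ.X} {x : Γ.X} (h : Γ.I x ∈ A ∪ Γ.I '' A) : x ∈ A ∪ Γ.I '' A :=
  Γ.II x ▸ GTop_flip Γ h

theorem GTop_cp {A : Set Z.W} (hA : IsCompact A) (h : A ⊆ Z.U1) :
    IsCompact (Γ.i '' A ∪ Γ.I '' (Γ.i '' A)) := by
  have := hA.image_of_continuousOn (Γ.i.continuousOn.mono fun w hw => GTop_src Γ (h hw))
  exact this.union (this.image Γ.I.continuous)

theorem GTop_cpt : CompactSpace Γ.X := by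
  have h1 := GTop_cp Γ (GTop_open (Z := Z) (r := 3 / 4) (by norm_num)).isClosed_compl.isCompact
    (compl_subset_compl.2 (image_mono (closedBall_subset_ball (by norm_num))))
  have key : ∀ x ∈ Γ.i.target, x ∈ Γ.i '' (Z.c.symm '' ball 0 (3 / 4))ᶜ ∪
      Γ.I '' (Γ.i '' (Z.c.symm '' ball 0 (3 / 4))ᶜ) := by
    intro x hx
    obtain ⟨w, hw, rfl⟩ := GTop_ex Γ hx
    by_cases h : w ∈ Z.c.symm '' ball 0 (3 / 4)
    · obtain ⟨v, hv, rfl⟩ := h
      rw [mem_ball_zero_iff] at hv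
      have hs : v ∈ shell :=
        ⟨not_le.1 fun e => hw ⟨v, mem_closedBall_zero_iff.2 e, rfl⟩, by linarith⟩
      refine GTop_flip' Γ (.inl ⟨_, ?_, (GTop_glue Γ hs).symm⟩)
      rw [mem_compl_iff, GTop_mem (ball_subset_closedBall.trans
        (closedBall_subset_closedBall (by norm_num))) (GTop_shell hs).2.le, mem_ball_zero_iff,
        GTop_norm hs]
      linarith
    · exact .inl (mem_image_of_mem _ h)
  refine ⟨h1.of_isClosed_subset isClosed_univ fun x _ => ?_⟩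
  exact (Γ.cover x).elim (key x) fun h => GTop_flip' Γ (key _ h)

theorem GTop_Fi (hK : K ⊆ sphere 0 1) (hι : ι '' K = K) {w : Z.W} (hw : w ∈ Z.U1) :
    Γ.i w ∈ Γ.F ↔ w ∈ Z.FW := by
  refine ⟨?_, fun h => .inl (mem_image_of_mem _ h)⟩
  rintro (⟨y, hy, e⟩ | ⟨_, ⟨y, hy, rfl⟩, e⟩)
  · exact Γ.i.injOn (GTop_src Γ (GTop_sub hK hy)) (GTop_src Γ hw) e ▸ hy
  · obtain ⟨v, hv, rfl, rfl⟩ := (Γ.glue y (GTop_sub hK hy) w hw).1 e
    exact (GTop_FW hK (GTop_shell hv)).2 (GTop_dir hι hv ((GTop_FW hK hv).1 hy))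

theorem GTop_cl (hK : K ⊆ sphere 0 1) (hι : ι '' K = K) : IsClosed Γ.F := by
  have := GTop_t2 Γ
  have h0 : IsClosed (({v : E 4 | 3 / 4 ≤ ‖v‖} ∩ closedBall 0 1) ∩ (fun v => ‖v‖⁻¹ • v) ⁻¹' K) :=
    ContinuousOn.preimage_isClosed_of_isClosed
      ((continuous_norm.continuousOn.inv₀ fun v hv => by
        have : 3 / 4 ≤ ‖v‖ := hv.1
        exact (lt_of_lt_of_le (by norm_num) this).ne').smul continuousOn_id)
      ((isClosed_le continuous_const continuous_norm).inter isClosed_closedBall) (GTop_K Z hK)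
  generalize hB : ({v : E 4 | 3 / 4 ≤ ‖v‖} ∩ closedBall 0 1) ∩ (fun v => ‖v‖⁻¹ • v) ⁻¹' K = B
    at h0
  have hB' : ∀ v, v ∈ B ↔ (3 / 4 ≤ ‖v‖ ∧ ‖v‖ ≤ 1) ∧ ‖v‖⁻¹ • v ∈ K := fun v => by
    rw [← hB, ← mem_closedBall_zero_iff]
    rfl
  have h1 : B ⊆ closedBall 0 1 := fun v hv => mem_closedBall_zero_iff.2 ((hB' v).1 hv).1.2
  have h2 : IsCompact (Z.d '' closedBall 0 1 ∪ Z.c.symm '' B) :=
    GTop_dc.union (((isCompact_closedBall _ _).of_isClosed_subset h0 h1).image_of_continuousOn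
      (Z.c.continuousOn_symm.mono (h1.trans Z.tgt)))
  have h3 : Z.d '' closedBall 0 1 ∪ Z.c.symm '' B ⊆ Z.FW := by
    rintro w (hw | ⟨v, hv, rfl⟩)
    · exact .inl hw
    · obtain ⟨⟨k1, k2⟩, k3⟩ := (hB' v).1 hv
      rcases k2.lt_or_eq with k | k
      · exact .inr ⟨v, ⟨⟨by linarith, k⟩, k3⟩, rfl⟩
      · rw [k, inv_one, one_smul] at k3
        exact .inl (image_mono sphere_subset_closedBall (Z.bdy ▸ mem_image_of_mem _ k3))
  have key : ∀ w ∈ Z.FW, Γ.i w ∈ Γ.i '' (Z.d '' closedBall 0 1 ∪ Z.c.symm '' B) ∪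
      Γ.I '' (Γ.i '' (Z.d '' closedBall 0 1 ∪ Z.c.symm '' B)) := by
    rintro w (hw | ⟨v, ⟨hv, hv'⟩, rfl⟩)
    · exact .inl (mem_image_of_mem _ (.inl hw))
    · rcases le_total (3 / 4) ‖v‖ with k | k
      · exact .inl (mem_image_of_mem _ (.inr (mem_image_of_mem _ ((hB' v).2 ⟨⟨k, hv.2.le⟩, hv'⟩))))
      · refine GTop_flip' Γ (.inl ⟨_, .inr (mem_image_of_mem _ ((hB' _).2
          ⟨⟨?_, (GTop_shell hv).2.le⟩, GTop_dir hι hv hv'⟩)), (GTop_glue Γ hv).symm⟩)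
        rw [GTop_norm hv]
        linarith
  have e : Γ.F = Γ.i '' (Z.d '' closedBall 0 1 ∪ Z.c.symm '' B) ∪
      Γ.I '' (Γ.i '' (Z.d '' closedBall 0 1 ∪ Z.c.symm '' B)) := by
    refine Subset.antisymm ?_ (union_subset_union (image_mono h3) (image_mono (image_mono h3)))
    rintro _ (⟨w, hw, rfl⟩ | ⟨_, ⟨w, hw, rfl⟩, rfl⟩)
    · exact key w hw
    · exact GTop_flip Γ (key w hw)
  rw [e]
  exact (GTop_cp Γ h2 (h3.trans (GTop_sub hK))).isClosed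

theorem gTop_stmt : GTopStmt := by
  intro K ι Z Γ hK _ hι
  have ho : IsOpen shell :=
    (isOpen_lt continuous_const continuous_norm).inter (isOpen_lt continuous_norm continuous_const)
  have hs : ((Z.c.symm.restrOpen shell ho).trans Γ.i).source = shell := by
    ext v
    exact ⟨fun h => h.1.2, fun h => ⟨⟨GTop_tgt h.2.le, h⟩, GTop_src Γ (GTop_U1 h.1 h.2.le)⟩⟩
  refine ⟨GTop_t2 Γ, GTop_cpt Γ, GTop_hc Γ, GTop_hI Γ, fun w => GTop_hi Γ, GTop_lt Γ, GTop_sub hK,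
    fun w => GTop_Fi Γ hK hι, fun x => ⟨GTop_flip' Γ, GTop_flip Γ⟩, GTop_cl Γ hK hι,
    (Z.c.symm.restrOpen shell ho).trans Γ.i, hs, ?_, fun v hv => GTop_hs Γ hv,
    fun v hv => (GTop_Fi Γ hK hι (GTop_U1 hv.1 hv.2.le)).trans (GTop_FW hK hv),
    fun v hv => GTop_glue Γ hv⟩
  rw [← OpenPartialHomeomorph.image_source_eq_target, hs]
  ext x
  constructor
  · rintro ⟨v, hv, rfl⟩
    change Γ.h (Γ.i (Z.c.symm v)) ∈ Ioo (-1 : ℝ) 1
    rw [GTop_hs Γ hv]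
    exact ⟨by linarith [hv.2], by linarith [hv.1]⟩
  · intro hx
    obtain ⟨w, hw, rfl⟩ := GTop_ex Γ (GTop_lt Γ ▸ hx.2 : x ∈ Γ.i.target)
    rcases GTop_cases hw with ⟨v, hv, rfl⟩ | h
    · exact ⟨v, hv, rfl⟩
    · have := hx.1
      rw [GTop_hi Γ hw, GTop_out h] at this
      exact absurd this (lt_irrefl _)

end Pool.Agent.MP_bc14e1_gt
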