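import Pool.Agent.MP_bc14e1_gt.IfN

open Set Metric
open scoped Classical

namespace Pool.Agent.MP_bc14e1_gt

theorem Gen_tors {R M : Type} [CommRing R] [IsDomain R] [IsNoetherianRing R] [AddCommGroup M]
    [Module R M] [Module.Finite R M] :
    ∃ D : R, D ≠ 0 ∧ ∀ (a : R) (x : M), a ≠ 0 → a • x = 0 → D • x = 0 := by
  obtain ⟨D, hD, hD'⟩ := Submodule.annihilator_top_inter_nonZeroDivisors
    (Submodule.torsion_isTorsion (R := R) (M := M))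
  refine ⟨D, nonZeroDivisors.ne_zero hD', fun a x ha hx => ?_⟩
  exact congrArg Subtype.val (Submodule.mem_annihilator.1 hD
    ⟨x, ⟨a, mem_nonZeroDivisors_of_ne_zero ha⟩, hx⟩ Submodule.mem_top)

section Aux

variable {G Y : Type} [Group G] [TopologicalSpace Y] [MulAction G Y] [ContinuousConstSMul G Y]

/-- The boundaries inside the cycles. -/
noncomputable def Gen_B (s : G) (k : ℕ) : Submodule (Lam ℂ) (ZT ℂ Y s k) :=
  (twSub (s := s) (BC ℂ univ k) (by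
    rintro n _ ⟨b, hb, rfl⟩
    exact ⟨gs ℂ Y (s ^ n) b, ⟨mem_CH_univ _, gs_mem_DG _ hb.2⟩, dT_gs _ _⟩)).comap
      (ZT ℂ Y s k).subtype

theorem Gen_mem_B {s : G} {k : ℕ} (z : ZT ℂ Y s k) :
    z ∈ Gen_B s k ↔ (toTw ℂ Y s).symm z.1 ∈ BC ℂ univ k := Iff.rfl

theorem Gen_sum {s : G} {k n : ℕ} (a : Fin n → Lam ℂ) (z : Fin n → ZT ℂ Y s k) :
    (toTw ℂ Y s).symm (∑ i, a i • z i : ZT ℂ Y s k).1 =
      ∑ i, act ℂ Y s (a i) ((toTw ℂ Y s).symm (z i).1) := by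
  rw [Submodule.coe_sum, map_sum]
  rfl

theorem Gen_fin {s : G} {k : ℕ} (h : FGI ℂ s (univ : Set Y) univ k) :
    Module.Finite (Lam ℂ) (ZT ℂ Y s k ⧸ Gen_B s k) := by
  obtain ⟨n, z, hz, h⟩ := h
  let z' : Fin n → ZT ℂ Y s k := fun i => ⟨toTw ℂ Y s (z i), hz i⟩
  refine Module.Finite.of_surjective
    ((Gen_B s k).mkQ ∘ₗ Fintype.linearCombination (Lam ℂ) z') fun x => ?_
  obtain ⟨y, rfl⟩ := (Gen_B s k).mkQ_surjective x
  obtain ⟨a, ha⟩ := h ((toTw ℂ Y s).symm y.1) y.2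
  refine ⟨a, ((Submodule.Quotient.eq _).2 ?_).symm⟩
  rw [Gen_mem_B, Fintype.linearCombination_apply, Submodule.coe_sub, map_sub, Gen_sum]
  exact ha

end Aux

theorem gen_stmt (hLaur : LaurStmt) : GenStmt := by
  intro G Y _ _ _ _ s k h
  obtain ⟨-, hN, -, -, -, -, hC, -, hdvd, hpr, -, -, hfin, -⟩ := hLaur
  have := hN ℂ
  have := Gen_fin h
  obtain ⟨D, hD, hD'⟩ := Gen_tors (R := Lam ℂ) (M := ZT ℂ Y s k ⧸ Gen_B s k)
  refine ⟨_, hfin D hD, fun ζ hζ z hz hb => ?_⟩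
  have hζ' : evL ζ D ≠ 0 := hζ
  let z' : ZT ℂ Y s k := ⟨toTw ℂ Y s z, hz⟩
  have h1 : piL ζ • (Gen_B s k).mkQ z' = 0 := by
    rw [← map_smul]
    exact (Submodule.Quotient.mk_eq_zero _).2 hb
  have h2 := hD' _ _ (hpr ζ).ne_zero h1
  obtain ⟨b, hb'⟩ := (hdvd ζ (D - LaurentPolynomial.C (evL ζ D))).1
    (by rw [map_sub, hC, sub_self])
  rw [sub_eq_iff_eq_add.1 hb', add_smul, mul_comm, mul_smul, h1, smul_zero, zero_add,
    ← map_smul] at h2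
  have h3 : act ℂ Y s (LaurentPolynomial.C (evL ζ D)) z ∈ BC ℂ univ k :=
    (Submodule.Quotient.mk_eq_zero (Gen_B s k)).1 h2
  rw [act_C] at h3
  exact (Submodule.smul_mem_iff _ hζ').1 h3

end Pool.Agent.MP_bc14e1_gt
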