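import Pool.Agent.MP_bc14e1_gt.If

open Set Metric
open scoped Classical

namespace Pool.Agent.MP_bc14e1_gt

section

variable {G Y : Type} [Group G] [TopologicalSpace Y] [MulAction G Y] [ContinuousConstSMul G Y]
  {O : Set Y}

theorem H0_gs (hO : ∀ (g : G), ∀ y ∈ O, g • y ∈ O) (g : G) {c : Tot ℂ Y} (hc : c ∈ BC ℂ O 0) :
    gs ℂ Y g c ∈ BC ℂ O 0 := by
  obtain ⟨w, hw, rfl⟩ := hc
  exact ⟨gs ℂ Y g w, ⟨gs_mem_CH g (hO g) hw.1, gs_mem_DG g hw.2⟩, dT_gs g w⟩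

omit [ContinuousConstSMul G Y] in
theorem H0_pt (g : G) (y : Y) : gs ℂ Y g (pt ℂ y) = pt ℂ (g • y) := psh_pt _ y

theorem H0_join {x y : Y} (h : JoinedIn O x y) : pt ℂ y - pt ℂ x ∈ BC ℂ O 0 := by
  obtain ⟨γ, hγ⟩ := h
  refine ⟨pth ℂ γ.toContinuousMap, ⟨pth_mem_CH hγ, pth_mem_DG _⟩, ?_⟩
  rw [dT_pth]
  simp

theorem H0_pow (hO : ∀ (g : G), ∀ y ∈ O, g • y ∈ O) {t : G} {y : Y}
    (h : pt ℂ (t • y) - pt ℂ y ∈ BC ℂ O 0) (k : ℕ) : pt ℂ (t ^ k • y) - pt ℂ y ∈ BC ℂ O 0 := by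
  induction k with
  | zero => simp
  | succ k ih =>
    have := add_mem (H0_gs hO t ih) h
    rwa [map_sub, H0_pt, H0_pt, sub_add_sub_cancel, smul_smul, ← pow_succ'] at this

end

theorem h0_stmt : H0Stmt := by
  intro G Y Reg Cr _ _ _ _ f t m hf reg h l yn ys R0 R1 D hG hc h0 h1 y hy
  change Tot ℂ Y at y
  have hO : ∀ (g : G), ∀ y ∈ f ⁻¹' Ioo (-1) 1, g • y ∈ f ⁻¹' Ioo (-1) 1 := fun g y hy => by
    rw [mem_preimage, hG]; exact hy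
  have hl : ∀ R, pt ℂ (h R • ys) - pt ℂ yn ∈ BC ℂ (f ⁻¹' Ioo (-1) 1) 0 := fun R =>
    ⟨castZ ℂ Y (l R), ⟨cast_mem_CH _ (D.mem R).1, cast_mem_DG _ (D.mem R).2⟩, by
      rw [← cast_dT, D.bd, map_sub, cast_pt, cast_pt]⟩
  have ht : pt ℂ (t • yn) - pt ℂ yn ∈ BC ℂ (f ⁻¹' Ioo (-1) 1) 0 := by
    have := sub_mem (hl R1) (H0_gs hO t (hl R0))
    rw [h0, h1, map_sub, H0_pt, H0_pt, one_smul] at this
    have e : pt ℂ (t • yn) - pt ℂ yn =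
        pt ℂ (t • ys) - pt ℂ yn - (pt ℂ (t • ys) - pt ℂ (t • yn)) := by abel
    rwa [e]
  have hs := H0_pow hO ht m
  have key : gs ℂ Y (t ^ m) y - y ∈ BC ℂ (f ⁻¹' Ioo (-1) 1) 0 := by
    refine DG_zero_ind (P := fun c => gs ℂ Y (t ^ m) c - c ∈ BC ℂ (f ⁻¹' Ioo (-1) 1) 0) (by simp)
      (fun a b ha hb => ?_) (fun x hx a => ?_) hy.1 hy.2
    · rw [map_add, add_sub_add_comm]
      exact add_mem ha hb
    · rw [map_smul, ← smul_sub]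
      refine Submodule.smul_mem _ a ?_
      obtain ⟨g, hg⟩ := D.h0 x hx
      have a1 := H0_join hg
      have a2 := H0_gs hO (t ^ m) a1
      have a3 := H0_gs hO g hs
      rw [map_sub, H0_pt, H0_pt] at a2 a3
      rw [smul_smul, hc, mul_smul] at a3
      have := add_mem (sub_mem a3 a2) a1
      rw [H0_pt]
      have e : pt ℂ (t ^ m • x) - pt ℂ x = pt ℂ (t ^ m • g • yn) - pt ℂ (g • yn) -
        (pt ℂ (t ^ m • g • yn) - pt ℂ (t ^ m • x)) + (pt ℂ (g • yn) - pt ℂ x) := by abel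
      rwa [e]
  obtain ⟨w, hw, e⟩ := key
  refine ⟨w, hw, ?_⟩
  change act ℂ Y (t ^ m) (LaurentPolynomial.T 1 - 1) y = dT ℂ Y w
  rw [e, map_sub, map_one, act_T, zpow_one]
  rfl

end Pool.Agent.MP_bc14e1_gt
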