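import Pool.Agent.MP_bc14e1_gt.If

open Set Metric
open scoped Classical

namespace Pool.Agent.MP_bc14e1_gt

theorem HL_cov {X Y : Type} [TopologicalSpace X] [TopologicalSpace Y] {Z : Set X} {p : Y → X}
    (hm : ∀ y, p y ∈ Z) (hc : IsCoveringMapOn p Z) :
    IsCoveringMap (fun y => (⟨p y, hm y⟩ : Z)) := by
  have e : p ⁻¹' Z = univ := eq_univ_of_forall hm
  exact hc.isCoveringMap_restrictPreimage.comp_homeomorph
    ((Homeomorph.setCongr e).trans (Homeomorph.Set.univ Y)).symm

theorem hl_stmt (hCov : CovStmt) : HLStmt := by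
  intro G X Y _ _ _ _ _ Z p h A H hH hM h0
  have cov := HL_cov h.mem (hCov G X Y Z p h).2.2.1
  have hin : ∀ ta : unitInterval × (p ⁻¹' A),
      ((ta.1 : ℝ), p ta.2) ∈ Icc (0 : ℝ) 1 ×ˢ (A ∩ Z) := fun ta => ⟨ta.1.2, ta.2.2, h.mem _⟩
  let Hc : C(unitInterval × (p ⁻¹' A), Z) :=
    ⟨fun ta => ⟨H (ta.1, p ta.2), hM (hin ta)⟩,
      (hH.comp_continuous ((continuous_subtype_val.comp continuous_fst).prodMk
        (h.cont.comp (continuous_subtype_val.comp continuous_snd))) hin).subtype_mk _⟩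
  let f : C(p ⁻¹' A, Y) := ⟨Subtype.val, continuous_subtype_val⟩
  have H0 : ∀ a, Hc (0, a) = (fun y => (⟨p y, h.mem y⟩ : Z)) (f a) := fun a =>
    Subtype.ext (h0 _ ⟨a.2, h.mem _⟩)
  obtain ⟨L, hL, hL0⟩ : ∃ L : C(unitInterval × (p ⁻¹' A), Y),
      (∀ ta, p (L ta) = H (ta.1, p ta.2)) ∧ ∀ a, L (0, a) = a :=
    ⟨cov.liftHomotopy Hc f H0,
      fun ta => congrArg Subtype.val (congrFun (cov.liftHomotopy_lifts Hc f H0) ta),
      cov.liftHomotopy_zero Hc f H0⟩
  refine ⟨fun z => if hy : p z.2 ∈ A then L (projIcc 0 1 zero_le_one z.1, ⟨z.2, hy⟩) else z.2,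
    ?_, ?_, ?_, ?_⟩
  · rw [continuousOn_iff_continuous_domRestrict]
    have hc : Continuous fun z : (Icc (0 : ℝ) 1 ×ˢ (p ⁻¹' A) : Set (ℝ × Y)) =>
        L (projIcc 0 1 zero_le_one z.1.1, ⟨z.1.2, z.2.2⟩) :=
      L.continuous.comp ((continuous_projIcc.comp (continuous_fst.comp
        continuous_subtype_val)).prodMk
          ((continuous_snd.comp continuous_subtype_val).subtype_mk _))
    refine hc.congr fun z => ?_
    have hz : p z.1.2 ∈ A := z.2.2
    simp only [domRestrict_apply, dif_pos hz]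
  · intro y
    by_cases hy : p y ∈ A
    · simp only [dif_pos hy, projIcc_left]
      exact hL0 ⟨y, hy⟩
    · exact dif_neg hy
  · intro θ hθ y hy
    have hy' : p y ∈ A := hy
    simp only [dif_pos hy', hL, projIcc_of_mem zero_le_one hθ]
  · intro g θ y
    by_cases hy : p y ∈ A
    · have hg : p (g • y) ∈ A := by rw [h.inv]; exact hy
      simp only [dif_pos hy, dif_pos hg]
      have key : (fun t : unitInterval => L (t, ⟨g • y, hg⟩)) =
          fun t : unitInterval => g • L (t, ⟨y, hy⟩) := by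
        refine cov.eq_of_comp_eq (L.continuous.comp (Continuous.prodMk_left _))
          ((L.continuous.comp (Continuous.prodMk_left _)).const_smul g) ?_ 0 ?_
        · funext t
          apply Subtype.ext
          simp only [Function.comp_apply, hL, h.inv]
        · simp only [hL0]
      exact congrFun key _
    · have hg : ¬ p (g • y) ∈ A := by rw [h.inv]; exact hy
      simp only [dif_neg hy, dif_neg hg]

end Pool.Agent.MP_bc14e1_gt
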