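import Pool.Agent.MP_bc14e1_gt.IfL

open Set Metric
open scoped Classical

namespace Pool.Agent.MP_bc14e1_gt

section Aux

variable {C : Type} [AddCommGroup C] [Module (Lam ℂ) C] {d : C →ₗ[Lam ℂ] C}
  {M : ℕ → Set ℝ → Submodule (Lam ℂ) C} {l : C → C → Lam ℂ} {ζ : Circle} {P : C → C → ℂ}

theorem Her_sub_left (h : Sesq l) (u u' v : C) : l (u - u') v = l u v - l u' v := by
  have := h.add_left (u - u') u' v
  rw [sub_add_cancel] at this
  rw [this, add_sub_cancel_right]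

theorem Her_sub_right (h : Sesq l) (u v v' : C) : l u (v - v') = l u v - l u v' := by
  have := h.add_right u (v - v') v'
  rw [sub_add_cancel] at this
  rw [this, add_sub_cancel_right]

theorem Her_disj {a b a' b' : ℝ} (h : b ≤ a') : Disjoint (Ioo a b) (Ioo a' b') :=
  Set.disjoint_left.2 fun _ hx hx' => absurd (hx'.1.trans hx.2) (not_lt.2 h)

theorem Her_QN {c x : C} (hc : c ∈ M 2 (Ioo (-1) 1)) (h : d c = piL ζ • x) : c ∈ QN d M ζ :=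
  ⟨hc, x, h.symm⟩

/-- The pairing computed from a chain between a high and a low representative. -/
theorem Her_eval (hA : IsAS d M l) (hP : PkF d M l ζ P) {y c x e y₁ y₂ : C} {a b : ℝ}
    (ha : -1 < a) (hb : b < 1) (hy : y ∈ ZN d M) (hc : c ∈ M 2 (Ioo a b))
    (hx : d c = piL ζ • x) (he : e ∈ M 2 (Iio 1)) (h1 : y₁ ∈ M 1 (Ioo b 1))
    (h2 : y₂ ∈ M 1 (Iio a)) (hy1 : y - y₁ ∈ BN d M) (hde : d e = y₁ - y₂) :
    P y c = evL ζ (l e c) := by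
  refine ((hP.spec y hy c (Her_QN (hA.mono 2 _ _ (Ioo_subset_Ioo ha.le hb.le) hc) hx) _).1 ?_).symm
  exact ⟨a, b, ha, hb, hA.mono 2 _ _ Ioo_subset_Icc_self hc, e, he, y₁, h1, -y₂, neg_mem h2, 0,
    zero_mem _, Submodule.mem_sup_right hy1, by rw [hde, smul_zero, add_zero, sub_eq_add_neg], rfl⟩

theorem Her_one (hLaur : LaurStmt) (hKey : KeyStmt) (hA : IsAS d M l) (hP : PkF d M l ζ P) :
    ∀ y ∈ TN d M ζ, ∀ q ∈ M 2 (Ioo (-1) 1), d q = 0 → P y q = 0 := by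
  obtain ⟨-, k2, k3, -, -, k6, -⟩ := hKey C d M l ζ hA
  have hπ : piL ζ ≠ 0 := (hLaur.2.2.2.2.2.2.2.2.2.1 ζ).ne_zero
  rintro y ⟨hy, hyt⟩ q hq hdq
  obtain ⟨a, b, ha, hab, hb, hq'⟩ := k6 2 q hq
  obtain ⟨y1, m1, b1, t1⟩ := k3 b 1 (by linarith) hb le_rfl y hy
  obtain ⟨c1, n1, d1⟩ := t1 _ hyt
  obtain ⟨y2, m2, b2, t2⟩ := k3 (-1) a le_rfl ha (by linarith) y hy
  obtain ⟨c2, n2, d2⟩ := t2 _ hyt
  obtain ⟨e, he, hde⟩ : y1 - y2 ∈ BN d M := by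
    have := sub_mem b2 b1
    rwa [sub_sub_sub_cancel_left] at this
  have he' : e ∈ M 2 (Iio 1) := hA.mono 2 _ _ Ioo_subset_Iio_self he
  rw [Her_eval hA hP ha hb hy hq' (x := 0) (by rw [hdq, smul_zero]) he' m1
    (hA.mono 1 _ _ Ioo_subset_Iio_self m2) b1 hde]
  have hz := k2 (piL ζ • e - c1 + c2)
    (add_mem (sub_mem (Submodule.smul_mem _ _ he') (hA.mono 2 _ _ Ioo_subset_Iio_self n1))
      (hA.mono 2 _ _ (fun t ht => ht.2.trans (hab.trans hb)) n2))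
    (by rw [map_add, map_sub, map_smul, hde, d1, d2, smul_sub]; abel) q hq hdq
  rw [hA.loc.1.add_left, Her_sub_left hA.loc.1, hA.loc.1.smul_left,
    hA.loc.2 2 2 _ _ (Her_disj le_rfl).symm c1 n1 q hq',
    hA.loc.2 2 2 _ _ (Her_disj le_rfl) c2 n2 q hq', sub_zero, add_zero] at hz
  rw [(mul_eq_zero.1 hz).resolve_left hπ, map_zero]

theorem Her_move (hLaur : LaurStmt) (hKey : KeyStmt) (hA : IsAS d M l) (hP : PkF d M l ζ P)
    {y x x' c c' : C} (hy : y ∈ TN d M ζ) (hc : c ∈ M 2 (Ioo (-1) 1))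
    (hc' : c' ∈ M 2 (Ioo (-1) 1)) (hd : d c = piL ζ • x) (hd' : d c' = piL ζ • x')
    (hx : x - x' ∈ BN d M) : P y c = P y c' := by
  obtain ⟨w, hw, hdw⟩ := hx
  have hw' : piL ζ • w ∈ M 2 (Ioo (-1) 1) := Submodule.smul_mem _ _ hw
  have hq : d (c - c' - piL ζ • w) = 0 := by
    rw [map_sub, map_sub, map_smul, hd, hd', hdw, smul_sub, sub_self]
  have hqm : c - c' - piL ζ • w ∈ M 2 (Ioo (-1) 1) := sub_mem (sub_mem hc hc') hw'
  have q1 : c - c' - piL ζ • w ∈ QN d M ζ := Her_QN hqm (x := 0) (by rw [hq, smul_zero])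
  have q2 : piL ζ • w ∈ QN d M ζ := Her_QN hw' (map_smul d _ _)
  have e : c = c' + (c - c' - piL ζ • w + piL ζ • w) := by abel
  rw [e, hP.add_right y hy.1 _ (Her_QN hc' hd') _ (add_mem q1 q2), hP.add_right y hy.1 _ q1 _ q2,
    Her_one hLaur hKey hA hP y hy _ hqm hq, hP.zero_pi y hy.1 w hw, add_zero, add_zero]

end Aux

theorem her_stmt (hLaur : LaurStmt) (hKey : KeyStmt) : HerStmt := by
  intro C _ _ d M l ζ P hA hP
  refine ⟨Her_one hLaur hKey hA hP, fun x hx y hy c hc c' hc' hdc hdc' => ?_⟩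
  obtain ⟨-, k2, k3, k4, -, -, -⟩ := hKey C d M l ζ hA
  obtain ⟨-, -, -, -, -, lT, lC, lcj, lev, lpr, lπ, -⟩ := id hLaur
  have hπ : piL ζ ≠ 0 := (lpr ζ).ne_zero
  have π0 : evL ζ (piL ζ) = 0 := (lev ζ _).2 dvd_rfl
  have tx : piL ζ • x ∈ BN d M := ⟨c, hc, hdc⟩
  have ty : piL ζ • y ∈ BN d M := ⟨c', hc', hdc'⟩
  obtain ⟨y2, m0, b0, t0⟩ := k3 (-1) (-1 / 2) le_rfl (by norm_num) (by norm_num) y hy
  obtain ⟨c2, n0, d0⟩ := t0 _ ty
  obtain ⟨x', m1, b1, t1⟩ := k3 (-1 / 2) 0 (by norm_num) (by norm_num) (by norm_num) x hx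
  obtain ⟨cx, n1, d1⟩ := t1 _ tx
  obtain ⟨y', m3, b3, t3⟩ := k3 0 (1 / 2) (by norm_num) (by norm_num) (by norm_num) y hy
  obtain ⟨cy, n3, d3⟩ := t3 _ ty
  obtain ⟨x1, m4, b4, t4⟩ := k3 (1 / 2) 1 (by norm_num) (by norm_num) le_rfl x hx
  obtain ⟨c1, n4, d4⟩ := t4 _ tx
  have mo : ∀ {k : ℕ} {a b : ℝ} (a' b' : ℝ) {u : C}, u ∈ M k (Ioo a b) → a' ≤ a → b ≤ b' →
      u ∈ M k (Ioo a' b') := fun a' b' u hu h1 h2 => hA.mono _ _ _ (Ioo_subset_Ioo h1 h2) hu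
  have mi : ∀ {k : ℕ} {a b : ℝ} (b' : ℝ) {u : C}, u ∈ M k (Ioo a b) → b ≤ b' →
      u ∈ M k (Iio b') := fun b' u hu h => hA.mono _ _ _ (fun t ht => ht.2.trans_le h) hu
  obtain ⟨e, he, hde⟩ := k4 (-1) (1 / 2) le_rfl (by norm_num) (by norm_num) (y' - y2)
    (sub_mem (mo _ _ m3 (by norm_num) le_rfl) (mo _ _ m0 le_rfl (by norm_num))) (by
      have := sub_mem b0 b3
      rwa [sub_sub_sub_cancel_left] at this)
  obtain ⟨e', he', hde'⟩ := k4 (-1 / 2) 1 (by norm_num) (by norm_num) le_rfl (x1 - x')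
    (sub_mem (mo _ _ m4 (by norm_num) le_rfl) (mo _ _ m1 le_rfl (by norm_num))) (by
      have := sub_mem b1 b4
      rwa [sub_sub_sub_cancel_left] at this)
  rw [Her_move hLaur hKey hA hP (y := y) ⟨hy, ty⟩ hc (mo _ _ n1 (by norm_num) (by norm_num))
      hdc d1 b1,
    Her_move hLaur hKey hA hP (y := x) ⟨hx, tx⟩ hc' (mo _ _ n3 (by norm_num) (by norm_num))
      hdc' d3 b3,
    Her_eval hA hP (by norm_num) (by norm_num) hy n1 d1 (mi 1 he (by norm_num))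
      (mo _ _ m3 le_rfl (by norm_num)) (mi _ m0 le_rfl) b3 hde,
    Her_eval hA hP (by norm_num) (by norm_num) hx n3 d3 (mi 1 he' le_rfl) m4 (mi _ m1 le_rfl)
      b4 hde']
  have hzm : piL ζ • e - cy + c2 ∈ M 2 (Ioo (-1) (1 / 2)) :=
    add_mem (sub_mem (Submodule.smul_mem _ _ he) (mo _ _ n3 (by norm_num) le_rfl))
      (mo _ _ n0 le_rfl (by norm_num))
  have hz := k2 (piL ζ • e - cy + c2) (mi 1 hzm (by norm_num))
    (by rw [map_add, map_sub, map_smul, hde, d3, d0, smul_sub]; abel) (piL ζ • e' - c1 + cx)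
    (add_mem (sub_mem (Submodule.smul_mem _ _ (mo _ _ he' (by norm_num) le_rfl))
      (mo _ _ n4 (by norm_num) le_rfl)) (mo _ _ n1 (by norm_num) (by norm_num)))
    (by rw [map_add, map_sub, map_smul, hde', d4, d1, smul_sub]; abel)
  obtain ⟨hS, hL⟩ := hA.loc
  rw [hS.add_right, Her_sub_right hS, hS.smul_right, hL 2 2 _ _ (Her_disj le_rfl) _ hzm c1 n4,
    hS.add_left, Her_sub_left hS, hS.smul_left, hS.add_left, Her_sub_left hS, hS.smul_left,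
    hL 2 2 _ _ (Her_disj le_rfl) c2 n0 e' he', hL 2 2 _ _ (Her_disj le_rfl) c2 n0 cx n1,
    hL 2 2 _ _ (Her_disj le_rfl).symm cy n3 cx n1, lπ] at hz
  have h1 : l e cx = LaurentPolynomial.T (-1) * LaurentPolynomial.C ((ζ⁻¹ : Circle) : ℂ) *
      (piL ζ * l e e' - l cy e') := mul_left_cancel₀ hπ (by linear_combination hz)
  obtain ⟨E₁, E₂, hE₁, hE₂, hs⟩ := hA.sym
  have h2 := hs cy (hA.mono 2 _ _ (subset_univ _) n3) e' (hA.mono 2 _ _ (subset_univ _) he')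
  rw [d3, hde', hE₁.1.smul_left, Her_sub_right hE₂.1, hE₂.2 2 1 _ _ (Her_disj le_rfl) cy n3 x1 m4,
    hE₂.2 2 1 _ _ (Her_disj le_rfl).symm cy n3 x' m1, sub_zero, add_zero] at h2
  have h3 := congrArg (evL ζ) h2
  rw [map_sub, map_mul, π0, zero_mul, lcj, sub_eq_zero] at h3
  rw [h1, map_mul, map_mul, map_sub, map_mul, π0, lT, lC, h3, zpow_neg_one]
  ring

end Pool.Agent.MP_bc14e1_gt
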