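import Pool.Agent.MP_bc14e1_gt.IfN

open Set Metric
open scoped Classical

namespace Pool.Agent.MP_bc14e1_gt

open scoped ComplexOrder Matrix in
theorem herm_stmt : HermStmt := by
  intro n M hM hH hdet h1
  have hq : Continuous fun p : Circle × (Fin n → ℂ) => star p.2 ⬝ᵥ (M p.1 *ᵥ p.2) := by
    have h0 : Continuous fun p : Circle × (Fin n → ℂ) => M p.1 := hM.comp continuous_fst
    exact (continuous_snd.star).dotProduct (h0.matrix_mulVec continuous_snd)
  have him : ∀ η x, (star x ⬝ᵥ (M η *ᵥ x)).im = 0 := fun η x =>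
    (hH η).im_star_dotProduct_mulVec_self x
  have hopen : IsOpen {η | (M η).PosDef} := by
    rw [isOpen_iff_mem_nhds]
    intro η hη
    have hK : IsCompact (sphere (0 : Fin n → ℂ) 1) := isCompact_sphere _ _
    have hev := hK.eventually_forall_of_forall_eventually (x₀ := η)
      (P := fun ξ x => 0 < (star x ⬝ᵥ (M ξ *ᵥ x)).re) (by
        intro x hx
        have hx0 : x ≠ 0 := by
          rintro rfl
          simp at hx
        have hp : 0 < (star x ⬝ᵥ (M η *ᵥ x)).re :=
          (Complex.pos_iff.1 (Matrix.PosDef.dotProduct_mulVec_pos hη hx0)).1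
        have hc := (Complex.continuous_re.comp hq).continuousAt (x := (η, x))
        exact hc.eventually (lt_mem_nhds hp))
    filter_upwards [hev] with ξ hξ
    refine Matrix.PosDef.of_dotProduct_mulVec_pos (hH ξ) fun x hx => ?_
    have hn : 0 < ‖x‖ := norm_pos_iff.2 hx
    have hy := hξ (((‖x‖⁻¹ : ℝ) : ℂ) • x) (by
      rw [mem_sphere_zero_iff_norm, norm_smul, Complex.norm_real, norm_inv, norm_norm]
      exact inv_mul_cancel₀ hn.ne')
    rw [star_smul, Matrix.mulVec_smul, smul_dotProduct, dotProduct_smul, smul_smul,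
      Complex.star_def, Complex.conj_ofReal, ← Complex.ofReal_mul, smul_eq_mul,
      Complex.re_ofReal_mul] at hy
    refine Complex.pos_iff.2 ⟨?_, (him ξ x).symm⟩
    exact (pos_iff_pos_of_mul_pos hy).1 (by positivity)
  have hclosed : IsClosed {η | (M η).PosDef} := by
    refine isClosed_of_closure_subset fun η hη => ?_
    by_cases h : η = 1
    · subst h
      exact h1
    have hsd : (M η).PosSemidef := by
      refine Matrix.posSemidef_iff_dotProduct_mulVec.2 ⟨hH η, fun x => ?_⟩
      have hc : IsClosed {ξ | 0 ≤ (star x ⬝ᵥ (M ξ *ᵥ x)).re} :=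
        isClosed_le continuous_const
          (Complex.continuous_re.comp (hq.comp (continuous_id.prodMk continuous_const)))
      have hsub : {ξ | (M ξ).PosDef} ⊆ {ξ | 0 ≤ (star x ⬝ᵥ (M ξ *ᵥ x)).re} := fun ξ hξ =>
        (Complex.nonneg_iff.1 ((Matrix.PosDef.posSemidef hξ).dotProduct_mulVec_nonneg x)).1
      exact Complex.nonneg_iff.2 ⟨closure_minimal hsub hc hη, (him η x).symm⟩
    exact hsd.posDef_iff_det_ne_zero.2 (hdet η h)
  have huniv := IsClopen.eq_univ ⟨hclosed, hopen⟩ ⟨1, h1⟩
  intro η
  have : η ∈ {η | (M η).PosDef} := by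
    rw [huniv]
    trivial
  exact this

end Pool.Agent.MP_bc14e1_gt
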