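import Pool.Agent.MP_bc14e1_gt.IfD

open Set Metric
open scoped Classical

namespace Pool.Agent.MP_bc14e1_gt

theorem HomW_union {α β : Type} [TopologicalSpace α] [TopologicalSpace β] {f : α → β}
    {S C₁ C₂ : Set α} (h₁ : IsClosed C₁) (h₂ : IsClosed C₂) (hS : S ⊆ C₁ ∪ C₂)
    (f₁ : ContinuousOn f (S ∩ C₁)) (f₂ : ContinuousOn f (S ∩ C₂)) : ContinuousOn f S := by
  have key : ∀ C, IsClosed C → ContinuousOn f (S ∩ C) → ∀ x ∈ S,
      ContinuousWithinAt f (S ∩ C) x := fun C hC hf x hx => by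
    by_cases h : x ∈ C
    · exact hf x ⟨hx, h⟩
    · exact continuousWithinAt_of_notMem_closure fun h' =>
        h (hC.closure_subset_iff.2 inter_subset_right h')
  intro x hx
  have := (key _ h₁ f₁ x hx).union (key _ h₂ f₂ x hx)
  rwa [← inter_union_distrib_left, inter_eq_left.2 hS] at this

theorem HomW_norm {s : ℝ} (hs : s ∈ Icc (0 : ℝ) 1) {v : E 4} (hv : 0 < ‖v‖) :
    ‖((1 - s) + s * ‖v‖⁻¹) • v‖ = (1 - s) * ‖v‖ + s := by
  have : 0 ≤ (1 - s) + s * ‖v‖⁻¹ :=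
    add_nonneg (sub_nonneg.2 hs.2) (mul_nonneg hs.1 (inv_nonneg.2 hv.le))
  rw [norm_smul, Real.norm_of_nonneg this, add_mul, mul_assoc, inv_mul_cancel₀ hv.ne', mul_one]

/-- The radial deformation of the complement of the half ball. -/
theorem HomW_def {W : Type} [TopologicalSpace W] [T2Space W] (c : OpenPartialHomeomorph W (E 4))
    (hc : closedBall 0 1 ⊆ c.target) :
    ∃ H : ℝ × W → W,
      ContinuousOn H (Icc 0 1 ×ˢ (c.symm '' closedBall 0 (1 / 2))ᶜ) ∧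
      MapsTo H (Icc 0 1 ×ˢ (c.symm '' closedBall 0 (1 / 2))ᶜ) (c.symm '' closedBall 0 (1 / 2))ᶜ ∧
      (∀ w ∈ (c.symm '' closedBall 0 (1 / 2))ᶜ, H (0, w) = w) ∧
      ∀ w ∈ (c.symm '' closedBall 0 (1 / 2))ᶜ, H (1, w) ∈ (c.symm '' ball 0 1)ᶜ := by
  have hB : ∀ w ∈ c.symm '' closedBall 0 1, w ∈ (c.symm '' closedBall 0 (1 / 2))ᶜ →
      w ∈ c.source ∧ 1 / 2 < ‖c w‖ ∧ ‖c w‖ ≤ 1 := by
    rintro _ ⟨v, hv, rfl⟩ h
    rw [c.right_inv (hc hv)]
    refine ⟨c.map_target (hc hv), ?_, mem_closedBall_zero_iff.1 hv⟩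
    by_contra h'
    exact h ⟨v, mem_closedBall_zero_iff.2 (not_lt.1 h'), rfl⟩
  have hI : ∀ v : E 4, ‖v‖ ≤ 1 → ∀ T ⊆ closedBall (0 : E 4) 1, v ∉ T → c.symm v ∉ c.symm '' T := by
    rintro v hv T hT hvT ⟨v', hv', e⟩
    exact hvT (c.symm.injOn (hc (hT hv')) (hc (mem_closedBall_zero_iff.2 hv)) e ▸ hv')
  have hN : ∀ s ∈ Icc (0 : ℝ) 1, ∀ v : E 4, 1 / 2 < ‖v‖ → ‖v‖ ≤ 1 →
      1 / 2 < ‖((1 - s) + s * ‖v‖⁻¹) • v‖ ∧ ‖((1 - s) + s * ‖v‖⁻¹) • v‖ ≤ 1 := by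
    intro s hs v h1 h2
    rw [HomW_norm hs (by linarith)]
    constructor <;> nlinarith [hs.1, hs.2]
  have hsub : c.symm '' ball 0 1 ⊆ c.symm '' closedBall 0 1 := image_mono ball_subset_closedBall
  refine ⟨fun x => if x.2 ∈ c.symm '' ball 0 1 then
    c.symm (((1 - x.1) + x.1 * ‖c x.2‖⁻¹) • c x.2) else x.2, ?_, ?_, ?_, ?_⟩
  · refine HomW_union (C₁ := Prod.snd ⁻¹' (c.symm '' ball 0 1)ᶜ)
      (C₂ := Prod.snd ⁻¹' (c.symm '' closedBall 0 1))
      ((c.isOpen_image_symm_of_subset_target isOpen_ball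
        (ball_subset_closedBall.trans hc)).isClosed_compl.preimage continuous_snd)
      (((isCompact_closedBall 0 1).image_of_continuousOn
        (c.continuousOn_symm.mono hc)).isClosed.preimage continuous_snd)
      (fun x _ => (em (x.2 ∈ c.symm '' ball 0 1)).symm.imp id fun h => hsub h) ?_ ?_
    · exact continuous_snd.continuousOn.congr fun x hx => if_neg hx.2
    · have h1 : ContinuousOn (fun x : ℝ × W => c x.2)
          ((Icc 0 1 ×ˢ (c.symm '' closedBall 0 (1 / 2))ᶜ) ∩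
            Prod.snd ⁻¹' (c.symm '' closedBall 0 1)) :=
        c.continuousOn.comp continuous_snd.continuousOn fun x hx => (hB _ hx.2 hx.1.2).1
      have h2 : ContinuousOn (fun x : ℝ × W => ((1 - x.1) + x.1 * ‖c x.2‖⁻¹) • c x.2)
          ((Icc 0 1 ×ˢ (c.symm '' closedBall 0 (1 / 2))ᶜ) ∩
            Prod.snd ⁻¹' (c.symm '' closedBall 0 1)) :=
        ((continuous_const.sub continuous_fst).continuousOn.add (continuous_fst.continuousOn.mul
          (h1.norm.inv₀ fun x hx => by have := (hB _ hx.2 hx.1.2).2.1; linarith))).smul h1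
      refine (c.continuousOn_symm.comp h2 fun x hx => hc (mem_closedBall_zero_iff.2
        (hN _ hx.1.1 _ (hB _ hx.2 hx.1.2).2.1 (hB _ hx.2 hx.1.2).2.2).2)).congr fun x hx => ?_
      by_cases h : x.2 ∈ c.symm '' ball 0 1
      · exact if_pos h
      · obtain ⟨a1, a2, a3⟩ := hB _ hx.2 hx.1.2
        have a4 : ‖c x.2‖ = 1 := le_antisymm a3 (not_lt.1 fun h' =>
          h ⟨c x.2, mem_ball_zero_iff.2 h', c.left_inv a1⟩)
        refine (if_neg h).trans ?_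
        rw [Function.comp_apply, a4, inv_one, mul_one, sub_add_cancel, one_smul, c.left_inv a1]
  · intro x hx
    by_cases h : x.2 ∈ c.symm '' ball 0 1
    · obtain ⟨-, a2, a3⟩ := hB _ (hsub h) hx.2
      obtain ⟨b1, b2⟩ := hN _ hx.1 _ a2 a3
      beta_reduce
      rw [if_pos h]
      exact hI _ b2 _ (closedBall_subset_closedBall (by norm_num)) fun h' =>
        not_le.2 b1 (mem_closedBall_zero_iff.1 h')
    · beta_reduce
      rw [if_neg h]
      exact hx.2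
  · intro w hw
    by_cases h : w ∈ c.symm '' ball 0 1
    · refine (if_pos h).trans ?_
      rw [zero_mul, add_zero, sub_zero, one_smul, c.left_inv (hB _ (hsub h) hw).1]
    · exact if_neg h
  · intro w hw
    by_cases h : w ∈ c.symm '' ball 0 1
    · obtain ⟨-, a2, a3⟩ := hB _ (hsub h) hw
      have e : ‖((1 - 1) + 1 * ‖c w‖⁻¹) • c w‖ = 1 := by
        rw [HomW_norm ⟨zero_le_one, le_rfl⟩ (by linarith)]; ring
      beta_reduce
      rw [if_pos h]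
      exact hI _ e.le _ ball_subset_closedBall fun h' => (mem_ball_zero_iff.1 h').ne e
    · beta_reduce
      rw [if_neg h]
      exact h

theorem HomW_push (κ : Kit) {W : Type} [TopologicalSpace W] {U V : Set W} {H : ℝ × W → W}
    (h1 : ContinuousOn H (Icc 0 1 ×ˢ U)) (h2 : MapsTo H (Icc 0 1 ×ˢ U) U)
    (h3 : ∀ w ∈ U, H (0, w) = w) (h4 : ∀ w ∈ U, H (1, w) ∈ V) {k : ℕ} {z : Tot ℤ W}
    (hz : z ∈ ZC ℤ U k) : ∃ z' ∈ ZC ℤ V k, z - z' ∈ BC ℤ U k := by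
  have hd : dT ℤ W z = 0 := hz.2
  have e := dT_hop κ h1 hz.1.1
  rw [hd, map_zero, add_zero, psh_of_eqOn_id h3 hz.1.1] at e
  refine ⟨psh ℤ (fun x => H (1, x)) z, ⟨⟨psh_mem_CH _ h4 hz.1.1, psh_mem_DG _ hz.1.2⟩, ?_⟩,
    -hop κ ℤ H z, neg_mem ⟨hop_mem_CH κ H h2 hz.1.1, hop_mem_DG κ H hz.1.2⟩, ?_⟩
  · change dT ℤ W _ = 0
    rw [eq_add_of_sub_eq e.symm, map_add, dT_dT, hd, add_zero]
  · rw [map_neg, e, neg_sub]

theorem HomW_mono {W : Type} [TopologicalSpace W] {U V : Set W} (h : V ⊆ U) (k : ℕ) :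
    BC ℤ V k ≤ BC ℤ U k := Submodule.map_mono (inf_le_inf_right _ (CH_mono h))

theorem homW_stmt (B : Bas1) (hHur : HurStmt) : HomWStmt := by
  intro K Z
  obtain ⟨κ⟩ := B.kit
  obtain ⟨H, h1, h2, h3, h4⟩ := HomW_def Z.c Z.tgt
  have hVU : (Z.c.symm '' ball 0 1)ᶜ ⊆ Z.U1 :=
    compl_subset_compl.2 (image_mono (closedBall_subset_ball (by norm_num)))
  refine ⟨?_, fun z hz => ?_, fun z hz => ?_⟩
  · have := Z.sc
    obtain ⟨x, hx, hj⟩ : IsPathConnected (Z.c.symm '' ball 0 1)ᶜ :=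
      isPathConnected_iff_pathConnectedSpace.2 inferInstance
    refine ⟨x, hVU hx, fun w hw => ((hj (h4 w hw)).mono hVU).trans (JoinedIn.symm ?_)⟩
    refine JoinedIn.ofLine (f := fun s => H (s, w))
      (h1.comp (continuous_id.prodMk continuous_const).continuousOn fun s hs => ⟨hs, hw⟩)
      (h3 w hw) rfl ?_
    rintro _ ⟨s, hs, rfl⟩
    exact h2 ⟨hs, hw⟩
  · obtain ⟨z', hz', e⟩ := HomW_push κ h1 h2 h3 h4 hz
    have := add_mem e (HomW_mono hVU 1 (hHur _ _ Z.sc hz'))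
    rwa [sub_add_cancel] at this
  · obtain ⟨z', hz', e⟩ := HomW_push κ h1 h2 h3 h4 hz
    obtain ⟨b, rfl⟩ := exists_inc hz'.1.2
    have hd : dT ℤ Z.W (inc ℤ 2 b) = 0 := hz'.2
    rw [dT_inc_succ, ← map_zero (inc ℤ 1)] at hd
    obtain ⟨n, ⟨b', hb', hn⟩, -⟩ := Z.gen b (inc_mem_CH.1 hz'.1.1) (inc_injective 1 hd)
    have a := eq_zero_of_mem_CH_empty (inc_mem_CH.2 hn)
    rw [map_sub, map_sub, map_sum, sub_eq_zero, ← dT_inc_succ] at a
    simp only [map_smul] at a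
    refine ⟨n, ?_⟩
    have := add_mem e (HomW_mono hVU 2 ⟨inc ℤ 3 b', ⟨inc_mem_CH.2 hb', inc_mem_DG 3 b'⟩, a.symm⟩)
    rwa [sub_add_sub_cancel] at this

end Pool.Agent.MP_bc14e1_gt
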