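import Pool.Agent.MP_bc14e1_gt.IfD

open Set Metric
open scoped Classical

namespace Pool.Agent.MP_bc14e1_gt

/-- A segment in the plane. -/
def Hur_seg (a b : ℝ × ℝ) : C(unitInterval, ℝ × ℝ) :=
  ⟨fun t => a + (t : ℝ) • (b - a), by fun_prop⟩

theorem Hur_dseg (a b : ℝ × ℝ) : dT ℤ _ (pth ℤ (Hur_seg a b)) = pt ℤ b - pt ℤ a := by
  rw [dT_pth]
  simp [Hur_seg]

theorem Hur_sq (h : CtrStmt) {X : Type} [TopologicalSpace X] {V : Set X} {F : ℝ × ℝ → X}
    (hF : Continuous F) (hV : ∀ q, F q ∈ V) {z : Tot ℤ (ℝ × ℝ)} (hz : z ∈ DG ℤ (ℝ × ℝ) 1)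
    (h0 : dT ℤ _ z = 0) : psh ℤ F z ∈ BC ℤ V 1 := by
  obtain ⟨b, hb, rfl⟩ := (h ℤ (ℝ × ℝ) univ 0 ⟨trivial, fun q => (1 - q.1) • q.2, by fun_prop,
    fun _ _ => trivial, fun y _ => by simp, fun y _ => by simp⟩).1 1 one_ne_zero
    ⟨⟨mem_CH_univ z, hz⟩, h0⟩
  exact ⟨psh ℤ F b, ⟨psh_mem_CH F (fun q _ => hV q) hb.1, psh_mem_DG F hb.2⟩, dT_psh_cont hF b⟩

theorem Hur_psh {X : Type} [TopologicalSpace X] {F : ℝ × ℝ → X} (hF : Continuous F)
    (a b : ℝ × ℝ) (γ : C(unitInterval, X)) (h : ∀ t : unitInterval, F (a + (t : ℝ) • (b - a)) = γ t) :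
    psh ℤ F (pth ℤ (Hur_seg a b)) = pth ℤ γ := by
  rw [psh_pth F _ (hF.comp (Hur_seg a b).continuous)]
  exact congrArg (pth ℤ) (ContinuousMap.ext h)

/-- A path in a subset as a path in the space. -/
def Hur_val {X : Type} [TopologicalSpace X] {V : Set X} {a b : V} (γ : Path a b) :
    C(unitInterval, X) := ⟨fun t => γ t, continuous_subtype_val.comp γ.continuous⟩

theorem Hur_tri (h : CtrStmt) {X : Type} [TopologicalSpace X] {V : Set X} {o a b : V}
    (α : Path o a) (σ : Path a b) (β : Path o b) (H : (α.trans σ).Homotopic β) :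
    pth ℤ (Hur_val σ) - (pth ℤ (Hur_val β) - pth ℤ (Hur_val α)) ∈ BC ℤ V 1 := by
  obtain ⟨H⟩ := H
  let F : ℝ × ℝ → X := fun q => H (projIcc 0 1 zero_le_one q.1, projIcc 0 1 zero_le_one q.2)
  have hF : Continuous F := continuous_subtype_val.comp (H.continuous.comp
    ((continuous_projIcc.comp continuous_fst).prodMk (continuous_projIcc.comp continuous_snd)))
  have hV : ∀ q, F q ∈ V := fun q => Subtype.prop _
  have F0 : ∀ u : ℝ, F (0, u) = (α.trans σ).extend u := fun u => by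
    simp only [F, projIcc_left]
    exact congrArg Subtype.val (H.toHomotopy.apply_zero _)
  have F1 : ∀ u : unitInterval, F (1, u) = β u := fun u => by
    simp only [F, projIcc_right, projIcc_val]
    exact congrArg Subtype.val (H.toHomotopy.apply_one _)
  have F2 : ∀ θ : ℝ, F (θ, 0) = o := fun θ => by
    simp only [F, projIcc_left]
    exact congrArg Subtype.val (H.source _)
  have F3 : ∀ θ : ℝ, F (θ, 1) = b := fun θ => by
    simp only [F, projIcc_right]
    exact congrArg Subtype.val (H.target _)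
  have e1 := Hur_psh hF (0, 0) (0, 1 / 2) (Hur_val α) fun t => by
    have e : ((0, 0) : ℝ × ℝ) + (t : ℝ) • ((0, 1 / 2) - (0, 0)) = (0, (t : ℝ) / 2) := by
      ext <;> simp [div_eq_mul_inv]
    rw [e, F0, Path.extend_trans_of_le_half _ _ (by linarith [t.2.2]), mul_div_cancel₀ _ two_ne_zero,
      Path.extend_extends']
    rfl
  have e2 := Hur_psh hF (0, 1 / 2) (0, 1) (Hur_val σ) fun t => by
    have e : ((0, 1 / 2) : ℝ × ℝ) + (t : ℝ) • ((0, 1) - (0, 1 / 2)) = (0, (1 + (t : ℝ)) / 2) := by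
      ext
      · simp
      · simp only [Prod.snd_add, Prod.smul_snd, Prod.snd_sub, smul_eq_mul]
        ring
    rw [e, F0, Path.extend_trans_of_half_le _ _ (by linarith [t.2.1]),
      mul_div_cancel₀ _ two_ne_zero, add_sub_cancel_left, Path.extend_extends']
    rfl
  have e3 := Hur_psh hF (1, 0) (1, 1) (Hur_val β) fun t => by
    have e : ((1, 0) : ℝ × ℝ) + (t : ℝ) • ((1, 1) - (1, 0)) = (1, (t : ℝ)) := by
      ext <;> simp
    rw [e, F1]
    rfl
  have e4 := Hur_psh hF (0, 0) (1, 0) (ContinuousMap.const _ o) fun t => by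
    have e : ((0, 0) : ℝ × ℝ) + (t : ℝ) • ((1, 0) - (0, 0)) = ((t : ℝ), 0) := by
      ext <;> simp
    rw [e, F2]
    rfl
  have e5 := Hur_psh hF (0, 1) (1, 1) (ContinuousMap.const _ b) fun t => by
    have e : ((0, 1) : ℝ × ℝ) + (t : ℝ) • ((1, 1) - (0, 1)) = ((t : ℝ), 1) := by
      ext <;> simp
    rw [e, F3]
    rfl
  have e6 := Hur_psh hF (0, 0) (0, 0) (ContinuousMap.const _ o) fun t => by
    rw [sub_self, smul_zero, add_zero, F2]
    rfl
  have e7 := Hur_psh hF (0, 1) (0, 1) (ContinuousMap.const _ b) fun t => by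
    rw [sub_self, smul_zero, add_zero, F3]
    rfl
  have k := Hur_sq h hF hV (z := pth ℤ (Hur_seg (0, 1 / 2) (0, 1)) -
    (pth ℤ (Hur_seg (1, 0) (1, 1)) - pth ℤ (Hur_seg (0, 0) (0, 1 / 2))) +
    (pth ℤ (Hur_seg (0, 1) (1, 1)) - pth ℤ (Hur_seg (0, 1) (0, 1))) -
    (pth ℤ (Hur_seg (0, 0) (1, 0)) - pth ℤ (Hur_seg (0, 0) (0, 0))))
    (sub_mem (add_mem (sub_mem (pth_mem_DG _) (sub_mem (pth_mem_DG _) (pth_mem_DG _)))
      (sub_mem (pth_mem_DG _) (pth_mem_DG _))) (sub_mem (pth_mem_DG _) (pth_mem_DG _)))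
    (by
      simp only [map_sub, map_add, Hur_dseg]
      abel)
  simp only [map_sub, map_add] at k
  rwa [e1, e2, e3, e4, e5, e6, e7, sub_self, sub_self, add_zero, sub_zero] at k

theorem hur_stmt (B : Bas1) : HurStmt := by
  intro X _ V hV c hc
  obtain ⟨o⟩ : Nonempty V := inferInstance
  let f : X → Tot ℤ X := fun x =>
    if h : x ∈ V then pth ℤ (Hur_val (PathConnectedSpace.somePath o ⟨x, h⟩)) else 0
  have hs : c ∈ Finsupp.supported ℤ ℤ ({σ : TS X | range σ.2 ⊆ V} ∩ {σ | σ.1 = 1}) := by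
    rw [Finsupp.supported_inter]
    exact hc.1
  have key : c - val0 ℤ f (dT ℤ X c) ∈ BC ℤ V 1 := by
    refine supported_ind (P := fun c => c - val0 ℤ f (dT ℤ X c) ∈ BC ℤ V 1) (by simp)
      (fun a b ha hb => ?_) ?_ hs
    · rw [map_add, map_add, add_sub_add_comm]
      exact add_mem ha hb
    rintro ⟨k, σ⟩ ⟨hσ, rfl : k = 1⟩ n
    let s : C(unitInterval, X) :=
      σ.comp (stdSimplexHomeomorphUnitInterval.symm : C(unitInterval, Sx 1))
    have hsV : ∀ t, s t ∈ V := fun t => hσ ⟨_, rfl⟩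
    let γ : Path (⟨s 0, hsV 0⟩ : V) ⟨s 1, hsV 1⟩ :=
      ⟨⟨fun t => ⟨s t, hsV t⟩, s.continuous.subtype_mk _⟩, rfl, rfl⟩
    have e : Finsupp.single (⟨1, σ⟩ : TS X) n = n • pth ℤ s := by
      rw [pth, Finsupp.smul_single, smul_eq_mul, mul_one]
      congr 2
      ext y
      exact congrArg σ (stdSimplexHomeomorphUnitInterval.symm_apply_apply y).symm
    have h := Hur_tri B.ctr (PathConnectedSpace.somePath o _) γ (PathConnectedSpace.somePath o _)
      (SimplyConnectedSpace.paths_homotopic _ _)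
    rw [e, map_smul, map_smul, ← smul_sub, dT_pth, map_sub, val0_pt, val0_pt]
    refine Submodule.smul_mem _ _ ?_
    simp only [f, dif_pos (hsV 0), dif_pos (hsV 1)]
    exact h
  have h0 : dT ℤ X c = 0 := hc.2
  rwa [h0, map_zero, sub_zero] at key

end Pool.Agent.MP_bc14e1_gt
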