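import Pool.Agent.MP_bc14e1_gt.IfD

open Set Metric
open scoped Classical

namespace Pool.Agent.MP_bc14e1_gt

theorem Imm_compl (D : E 2 →L[ℝ] E 4) (hD : Function.Injective D) :
    ∃ (L : ℂ →L[ℝ] E 4) (A : (E 2 × ℂ) ≃L[ℝ] E 4), (A : (E 2 × ℂ) →L[ℝ] E 4) = D.coprod L := by
  obtain ⟨K, hK⟩ := (LinearMap.range (D : E 2 →ₗ[ℝ] E 4)).exists_isCompl
  have h1 := Submodule.finrank_add_eq_of_isCompl hK
  rw [LinearMap.finrank_range_of_inj hD, finrank_euclideanSpace_fin,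
    finrank_euclideanSpace_fin] at h1
  have h2 : Module.finrank ℝ ℂ = Module.finrank ℝ K := by
    rw [Complex.finrank_real_complex]
    omega
  let j : ℂ ≃L[ℝ] K := ContinuousLinearEquiv.ofFinrankEq h2
  have h3 : Function.Injective
      ((D.coprod (K.subtypeL.comp (j : ℂ →L[ℝ] K)) : (E 2 × ℂ) →L[ℝ] E 4) :
        (E 2 × ℂ) →ₗ[ℝ] E 4) := by
    refine (injective_iff_map_eq_zero _).2 fun z hz => ?_
    have h4 : D z.1 + (j z.2 : E 4) = 0 := hz
    have h5 : D z.1 = 0 := (Submodule.disjoint_def.1 hK.disjoint) _ ⟨z.1, rfl⟩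
      (by rw [eq_neg_of_add_eq_zero_left h4]; exact K.neg_mem (j z.2).2)
    rw [h5, zero_add] at h4
    exact Prod.ext (hD (h5.trans (map_zero D).symm))
      (j.injective ((Subtype.ext h4).trans (map_zero j).symm))
  refine ⟨K.subtypeL.comp (j : ℂ →L[ℝ] K),
    (LinearMap.linearEquivOfInjective _ h3 ?_).toContinuousLinearEquiv, ?_⟩
  · rw [Module.finrank_prod, Complex.finrank_real_complex, finrank_euclideanSpace_fin,
      finrank_euclideanSpace_fin]
  · exact ContinuousLinearMap.ext fun _ => rfl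

theorem imm_stmt : ImmStmt := by
  intro g x hg hD N hN
  obtain ⟨L, A, hA⟩ := Imm_compl _ hD
  have h1 : HasStrictFDerivAt (fun z : E 2 × ℂ => g z.1 + L z.2) (A : (E 2 × ℂ) →L[ℝ] E 4)
      (x, 0) := by
    rw [hA]
    have h2 : HasStrictFDerivAt (fun z : E 2 × ℂ => g z.1)
        ((fderiv ℝ g x).comp (ContinuousLinearMap.fst ℝ (E 2) ℂ)) (x, 0) :=
      HasStrictFDerivAt.comp (x, (0 : ℂ)) (hg.hasStrictFDerivAt one_ne_zero) hasStrictFDerivAt_fst
    exact h2.add (L.comp (ContinuousLinearMap.snd ℝ (E 2) ℂ)).hasStrictFDerivAt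
  obtain ⟨φ, hφ, hx⟩ : ∃ φ : OpenPartialHomeomorph (E 2 × ℂ) (E 4),
      (∀ z, φ z = g z.1 + L z.2) ∧ (x, 0) ∈ φ.source :=
    ⟨h1.toOpenPartialHomeomorph _, fun _ => rfl, h1.mem_toOpenPartialHomeomorph_source⟩
  have h0 : ∀ a, φ (a, 0) = g a := fun a => by rw [hφ, map_zero, add_zero]
  have hO : IsOpen (interior N ∩ {a | (a, (0 : ℂ)) ∈ φ.source}) :=
    isOpen_interior.inter (φ.open_source.preimage (by fun_prop))
  have hxO : x ∈ interior N ∩ {a | (a, (0 : ℂ)) ∈ φ.source} := ⟨mem_interior_iff_mem_nhds.2 hN, hx⟩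
  refine ⟨_, hO, hxO, fun a ha => interior_subset ha.1,
    (φ.restrOpen _ (hO.prod isOpen_univ)).symm.transHomeomorph
      (Complex.orthonormalBasisOneI.repr.symm.toHomeomorph.prodCongr (Homeomorph.refl ℂ)),
    ?_, fun y hy => ?_⟩
  · rw [← h0]
    exact (φ.restrOpen _ (hO.prod isOpen_univ)).map_source ⟨hx, hxO, trivial⟩
  · have h2 : y ∈ φ.target := hy.1
    have h3 : (φ.symm y).1 ∈ interior N ∩ {a | (a, (0 : ℂ)) ∈ φ.source} := hy.2.1
    change (φ.symm y).2 = 0 ↔ _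
    constructor
    · intro h
      refine ⟨_, h3, ?_⟩
      rw [← h0, ← h]
      exact φ.right_inv h2
    · rintro ⟨a, ha, rfl⟩
      rw [← h0, φ.left_inv ha.2]

end Pool.Agent.MP_bc14e1_gt
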