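import Pool.Agent.MP_bc14e1_gt.IfP

open Set Metric
open scoped Classical

namespace Pool.Agent.MP_bc14e1_gt

theorem Inj0_deg {G Y : Type} [Group G] [TopologicalSpace Y] [MulAction G Y]
    [ContinuousConstSMul G Y] {s : G} {g : Lam ℂ} (k : ℕ) {c : Tot ℂ Y} (h : c ∈ Mul0 s g) :
    deg ℂ Y k c ∈ Mul0 s g := by
  obtain ⟨b, rfl⟩ := h
  exact ⟨deg ℂ Y k b, (map_act (deg ℂ Y k) (fun c => deg_psh _ k c) g b).symm⟩

theorem inj0_stmt (B : Bas1) (hFrob : FrobStmt) (hPP : PPStmt) (hPD1 : PD1Stmt) : Inj0Stmt := by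
  intro X G Y _ _ _ _ _ _ _ _ o F p s β hT hP ζ U K hU hUi hK hKU u hu hdu h
  by_contra hn
  have hW : u ∉ LinearMap.range (dT ℂ Y) ⊔ (CH ℂ Kᶜ ⊔ Mul0 s (piL ζ)) := by
    intro hm
    obtain ⟨_, ⟨w, rfl⟩, c, hc, e⟩ := Submodule.mem_sup.1 hm
    exact hn ⟨w, by rw [← e, add_sub_cancel_left]; exact hc⟩
  obtain ⟨f, hfu, hf⟩ := Submodule.exists_dual_map_eq_bot_of_notMem hW inferInstance
  have hf0 : ∀ c ∈ LinearMap.range (dT ℂ Y) ⊔ (CH ℂ Kᶜ ⊔ Mul0 s (piL ζ)), f c = 0 :=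
    fun c hc => (Submodule.mem_bot ℂ).1 (hf ▸ Submodule.mem_map_of_mem hc)
  obtain ⟨B', hB, hPP'⟩ := hPP X G Y o F p s β hT hP _ _ (hFrob ζ).1
  obtain ⟨K', hK', -, x, hx, hdx, hBx⟩ :=
    (hPD1 X G Y o F p s β hT hP _ _ (hFrob ζ).1 B' hB hPP' U hU hUi).2 K ⟨hK, hKU⟩ f
      (fun b => hf0 _ (Submodule.mem_sup_left ⟨b, rfl⟩))
      fun b hb => hf0 _ (Submodule.mem_sup_right hb)
  apply hfu
  rw [← hBx u (Submodule.mem_sup_right hdu)]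
  obtain ⟨n, hn'⟩ := exists_sum_deg x
  rw [← hn' n le_rfl, map_sum]
  refine Finset.sum_eq_zero fun k _ => ?_
  rw [hB]
  by_cases hk : k = 2
  · subst hk
    refine h _ ⟨deg_mem_CH 2 (CH_mono hK'.2 hx), deg_mem 2 x⟩ ?_
    rw [← deg_dT]
    exact Inj0_deg 1 hdx
  · have e : lamF s β u (deg ℂ Y k x) = 0 := by
      rw [lamF]
      refine finsum_eq_zero_of_forall_eq_zero fun m => ?_
      rw [hP.dg 2 k (by omega) u hu _ (gs_mem_DG _ (deg_mem k x)), map_zero, mul_zero]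
    rw [e, map_zero]

end Pool.Agent.MP_bc14e1_gt
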