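import Pool.Agent.MP_bc14e1_gt.IfT

open Set Metric
open scoped Classical

namespace Pool.Agent.MP_bc14e1_gt

theorem Inter_cj {X : Type} [TopologicalSpace X] (c : Tot ℤ X) :
    cjT X (castZ ℂ X c) = castZ ℂ X c := by
  ext σ
  rw [cast_apply, cast_apply, eq_intCast, map_intCast]

theorem Inter_coev {X : Type} [TopologicalSpace X] (τ : TS X → ℝ) (c : Tot ℤ X) :
    coevC τ (castZ ℂ X c) = (coevR τ (castZ ℝ X c) : ℝ) := by
  induction c using Finsupp.induction_linear with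
  | zero => simp
  | add a b ha hb => rw [map_add, map_add, map_add, map_add, ha, hb, Complex.ofReal_add]
  | single σ a => simp [cast_single, coevC, coevR]

theorem Inter_off {X Y : Type} [TopologicalSpace X] [TopologicalSpace Y] {o : Orientation4 X}
    {q : Y → X} {τ : TS (Y × Y) → ℝ} (h : IsThom o q τ) {c : Tot ℝ (Y × Y)}
    (hc : c ∈ CH ℝ {z : Y × Y | z.1 ≠ z.2}) : coevR τ c = 0 := by
  rw [coevR, Finsupp.linearCombination_apply, Finsupp.sum]
  refine Finset.sum_eq_zero fun σ hσ => ?_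
  rw [h.off σ fun t => (Finsupp.mem_supported ℝ c).1 hc hσ (mem_range_self t), smul_zero]

theorem inter_stmt (B : Bas1) (hPairA : PairAStmt) : InterStmt := by
  rintro κ X _ o τ h x y n ⟨p, b, -, hb⟩
  have h1 : LocDeg o id p (castZ ℝ X (inc ℤ 4 (o.o p))) 1 := by
    refine ⟨univ, isOpen_univ, trivial, injOn_id _,
      ⟨mem_CH_univ _, cast_mem_DG _ (inc_mem_DG _ _)⟩, ?_, 0, ?_⟩
    · rw [← cast_dT, dT_inc_succ, ← compl_eq_univ_sdiff]
      exact cast_mem_CH _ (inc_mem_CH.2 (o.rel p))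
    · rw [psh_id, one_smul, map_zero, sub_zero, id, sub_self]
      exact zero_mem _
  have h2 := h.one p _ 1 h1
  have h3 := Inter_off h (cast_mem_CH (Int.castRingHom ℝ) (inc_mem_CH.2 hb))
  simp only [map_sub, map_zsmul] at h3
  rw [← dT_inc_succ, ← psh_inc, cast_dT, cast_psh, h.coc, sub_zero, sub_eq_zero] at h3
  have h4 : sgn ℂ X sgc (castZ ℂ X (inc ℤ 2 x)) = castZ ℂ X (inc ℤ 2 x) := by
    rw [sgn_of_DG _ (cast_mem_DG _ (inc_mem_DG _ _)), show sgc 2 = 1 from rfl, one_smul]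
  change coevC τ (κ.cx ℂ X X (sgn ℂ X sgc _) (cjT X _)) = n
  rw [h4, Inter_cj, ← κ.cst, κ.c22, Inter_coev, h3]
  erw [h2]
  simp

end Pool.Agent.MP_bc14e1_gt
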