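import Pool.Agent.MP_bc14e1_gt.IfT

open Set Metric
open scoped Classical

namespace Pool.Agent.MP_bc14e1_gt

section

variable {X Y : Type} [TopologicalSpace X] [TopologicalSpace Y]

theorem Inv_locDeg {o : Orientation4 X} {p : Y → X} (hp : Continuous p) {I : X ≃ₜ X} {J : Y ≃ₜ Y}
    (hI : OriPres o I) (hJ : ∀ y, p (J y) = I (p y)) {y : Y} {c : Tot ℝ Y} {r : ℝ}
    (h : LocDeg o p y c r) : LocDeg o p (J y) (psh ℝ J c) r := by
  obtain ⟨U, hU, hy, hi, hc, hd, b, hb⟩ := h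
  obtain ⟨b₀, -, h₀⟩ := hI (p y)
  refine ⟨J '' U, J.isOpen_image.2 hU, ⟨y, hy, rfl⟩, ?_,
    ⟨psh_mem_CH _ (mapsTo_image _ _) hc.1, psh_mem_DG _ hc.2⟩, ?_,
    psh ℝ I b + r • castZ ℝ X (inc ℤ 5 b₀), ?_⟩
  · rintro _ ⟨a, ha, rfl⟩ _ ⟨a', ha', rfl⟩ e
    rw [hJ, hJ] at e
    rw [hi ha ha' (I.injective e)]
  · rw [dT_psh_cont J.continuous]
    refine psh_mem_CH _ (fun a ha => ?_) hd
    exact ⟨⟨a, ha.1, rfl⟩, fun e => ha.2 (J.injective e)⟩
  · have e1 : psh ℝ p (psh ℝ J c) = psh ℝ I (psh ℝ p c) := by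
      rw [psh_psh' _ J.continuous, psh_psh' _ hp]
      congr 2
      exact funext hJ
    have h1 := psh_mem_CH (R := ℝ) I (A := {p y}ᶜ) (B := {I (p y)}ᶜ)
      (fun a ha e => ha (I.injective e)) hb
    have h2 := cast_mem_CH (Int.castRingHom ℝ) (inc_mem_CH.2 h₀)
    have e2 : psh ℝ I (castZ ℝ X (inc ℤ 4 (o.o (p y)))) =
        castZ ℝ X (inc ℤ 4 (push ℤ (I : C(X, X)) 4 (o.o (p y)))) := by
      rw [← psh_inc, cast_psh]
      rfl
    rw [map_sub, map_sub, map_smul, e2, ← dT_psh_cont I.continuous] at h1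
    rw [map_sub, map_sub, ← dT_inc_succ, map_sub, map_sub, cast_dT] at h2
    rw [e1, hJ]
    refine mem_of_eq_of_mem ?_ (add_mem h1 (Submodule.smul_mem _ r h2))
    simp only [map_add, map_smul, smul_sub]
    abel

theorem Inv_off {o : Orientation4 X} {p : Y → X} {τ : TS (Y × Y) → ℝ} (h : IsThom o p τ)
    {c : Tot ℝ (Y × Y)} (hc : c ∈ CH ℝ (dia Y)ᶜ) : coevR τ c = 0 := by
  rw [coevR, Finsupp.linearCombination_apply]
  exact Finset.sum_eq_zero fun σ hσ => smul_eq_zero_of_right _ (h.off σ (mem_CH.1 hc σ hσ))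

theorem Inv_neg {G : Type} [Group G] [MulAction G Y] {s : G} {b : Form Y} (h : LK s b) :
    LK s (-b) :=
  ⟨fun u v => by simp only [LinearMap.neg_apply, h.inv],
    fun A B hAB u hu v hv => by simp only [LinearMap.neg_apply, h.loc A B hAB u hu v hv, neg_zero]⟩

theorem Inv_beta (κ : Kit) (τ : TS (Y × Y) → ℝ) (u v : Tot ℂ Y) :
    beta κ τ u v = coevC τ (κ.cx ℂ Y Y (sgn ℂ Y sgc u) (cjT Y v)) := rfl

end

theorem inv_stmt (B : Bas1) (hLocDeg : LocDegStmt)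
    (hDia : DiaStmt) (hEta : EtaStmt) (hPairA : PairAStmt) : InvStmt := by
  intro κ X G Y _ _ _ _ _ _ _ _ o F p s τ I J hT hτ hs hI hJ hJs
  have hl := (B.cov G X Y _ p hT.cov).2.1
  have hc : Continuous (Prod.map J J) := J.continuous.prodMap J.continuous
  have hg : ∀ g : G, Continuous (Prod.map (fun y : Y => g • y) fun y : Y => g • y) := fun g =>
    (continuous_const_smul g).prodMap (continuous_const_smul g)
  obtain ⟨D, hD⟩ : ∃ D : Tot ℝ (Y × Y) →ₗ[ℝ] ℝ,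
      ∀ c, D c = coevR τ (psh ℝ (Prod.map J J) c) - coevR τ c :=
    ⟨coevR τ ∘ₗ psh ℝ (Prod.map J J) - coevR τ, fun _ => rfl⟩
  have h1 : ∀ c ∈ RC ℝ univ (dia Y) 4, D c = 0 := by
    refine (hDia X Y o p hl univ isOpen_univ).2 D (fun b _ => ?_) (fun c hc' => ?_)
      fun y c r h _ => ?_
    · rw [hD, ← dT_psh_cont hc, hτ.coc, hτ.coc, sub_zero]
    · have h2 : c ∈ CH ℝ (dia Y)ᶜ := CH_mono (fun z hz => hz.2) hc'.1
      have h3 : MapsTo (Prod.map J J) (dia Y)ᶜ (dia Y)ᶜ := fun z hz e => hz (J.injective e)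
      rw [hD, Inv_off hτ h2, Inv_off hτ (psh_mem_CH _ h3 h2), sub_zero]
    · have e : psh ℝ (Prod.map J J) (psh ℝ (fun x => (x, y)) c) =
          psh ℝ (fun x => (x, J y)) (psh ℝ J c) := by
        rw [psh_psh' _ (by fun_prop), psh_psh' _ J.continuous]
        rfl
      rw [hD, e, hτ.one _ _ _ (Inv_locDeg hT.cov.cont hI hJ h), hτ.one _ _ _ h, sub_self]
  have h2 : ∀ c, D (gs ℝ (Y × Y) s c) = D c := by
    intro c
    have e0 : gs ℝ (Y × Y) s c = psh ℝ (Prod.map (fun y : Y => s • y) fun y : Y => s • y) c := rfl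
    have e : psh ℝ (Prod.map (fun y : Y => s • y) fun y : Y => s • y)
        (psh ℝ (Prod.map J J) (psh ℝ (Prod.map (fun y : Y => s • y) fun y : Y => s • y) c)) =
        psh ℝ (Prod.map J J) c := by
      rw [psh_psh' (Prod.map J J) (hg s), psh_psh' _ (hc.comp (hg s))]
      congr 2
      funext z
      simp [Prod.map, hJs]
    rw [hD, hD, e0, hs, ← hs (psh ℝ (Prod.map J J) _), e]
  obtain ⟨η, e1, e2, e3⟩ := hEta X G Y o F p s hT D h1 h2
  obtain ⟨a1, a2, -, -, -, -, a3⟩ := hPairA κ Y η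
  have hK : LK s (beta κ η) := ⟨a2 _ (continuous_const_smul s) e2, a1 e1⟩
  refine ⟨-beta κ η, beta κ η, Inv_neg hK, hK, fun u hu v hv => ?_⟩
  have s1 : sgc 1 = -1 := by decide
  have s2 : sgc 2 = 1 := by decide
  have hw : κ.cx ℂ Y Y u (cjT Y v) ∈ DG ℂ (Y × Y) 4 := κ.dg ℂ Y Y 2 2 u hu _ (cast_mem_DG _ hv)
  have h3 := a3 (Y × Y) τ η (psh ℝ (Prod.map J J) - LinearMap.id)
    (psh ℂ (Prod.map J J) - LinearMap.id) (dT ℝ _) (dT ℂ _) {σ | σ.1 = 4}
    (fun c => by simp only [LinearMap.sub_apply, LinearMap.id_apply, map_sub, cast_psh])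
    (fun c => cast_dT _ c)
    (fun c hc' => by rw [← e3 c hc', hD, LinearMap.sub_apply, map_sub, LinearMap.id_apply]) _ hw
  rw [LinearMap.sub_apply, LinearMap.id_apply, map_sub, κ.leib,
    κ.nat ℂ Y Y Y Y J J univ univ J.continuous.continuousOn J.continuous.continuousOn _
      (mem_CH_univ _) _ (mem_CH_univ _), eps, sgn_of_DG _ hu, ← cast_psh, ← cast_dT] at h3
  simp only [LinearMap.neg_apply, Inv_beta]
  rw [sgn_of_DG _ hu, sgn_of_DG _ (psh_mem_DG J hu), sgn_of_DG _ (dT_mem_DG hu), s1, s2]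
  simp only [one_smul, neg_smul, map_neg, LinearMap.neg_apply, neg_neg]
  simpa using h3

end Pool.Agent.MP_bc14e1_gt
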