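import Pool.Agent.MP_bc14e1_gt.IfD

open Set Metric
open scoped Classical

namespace Pool.Agent.MP_bc14e1_gt

section Aux

variable {X Y : Type} [TopologicalSpace X] [TopologicalSpace Y]

theorem InvDeg_symm {y : Y} {a b : Tot ℤ Y} (h : RelEq ℤ y a b) : RelEq ℤ y b a := by
  obtain ⟨w, h⟩ := h
  refine ⟨-w, ?_⟩
  convert neg_mem h using 1
  rw [map_neg]
  abel

theorem InvDeg_trans {y : Y} {a b c : Tot ℤ Y} (h : RelEq ℤ y a b) (h' : RelEq ℤ y b c) :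
    RelEq ℤ y a c := by
  obtain ⟨w, h⟩ := h
  obtain ⟨w', h'⟩ := h'
  refine ⟨w + w', ?_⟩
  convert add_mem h h' using 1
  rw [map_add]
  abel

theorem InvDeg_exc {U V W : Set X} (hU : IsOpen U) (hV : IsOpen V) (hW : W ⊆ U ∪ V) {k : ℕ}
    {c : Tot ℤ X} (hc : c ∈ CC ℤ W k) (hd : dT ℤ X c ∈ CH ℤ V) :
    ∃ z ∈ CC ℤ U k, ∃ w ∈ CH ℤ W, z - c - dT ℤ X w ∈ CH ℤ V := by
  obtain ⟨m, hm⟩ := sdT_small_two hU hV (CH_mono hW hc.1)
  obtain ⟨a, ha, b, hb, hab⟩ := Submodule.mem_sup.1 (hm m le_rfl)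
  have e : deg ℤ X k a + deg ℤ X k b = (sdT ℤ X ^ m) c := by
    rw [← map_add, hab, deg_of_mem (sdT_pow_mem_DG m hc.2)]
  refine ⟨deg ℤ X k a, ⟨deg_mem_CH k ha, deg_mem k a⟩, -sdHP ℤ X m c,
    neg_mem (sdHP_mem_CH m hc.1), ?_⟩
  have h := dT_sdHP m c
  have : deg ℤ X k a - c - dT ℤ X (-sdHP ℤ X m c) =
      -sdHP ℤ X m (dT ℤ X c) - deg ℤ X k b := by
    rw [map_neg, eq_sub_of_add_eq h, ← e]; abel
  rw [this]
  exact sub_mem (neg_mem (sdHP_mem_CH m hd)) (deg_mem_CH k hb)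

theorem InvDeg_psh {V W : Set X} {f : X → Y} {y : Y} (hf : ContinuousOn f W)
    (hV : MapsTo f V {y}ᶜ) {z c w : Tot ℤ X} (hw : w ∈ CH ℤ W)
    (h : z - c - dT ℤ X w ∈ CH ℤ V) : RelEq ℤ y (psh ℤ f z) (psh ℤ f c) := by
  refine ⟨psh ℤ f w, ?_⟩
  rw [dT_psh hf hw, ← map_sub, ← map_sub]
  exact psh_mem_CH f hV h

theorem InvDeg_hop (κ : Kit) {V U : Set X} {H : ℝ × X → Y} {y : Y}
    (hH : ContinuousOn H (Icc 0 1 ×ˢ U)) (hV : MapsTo H (Icc 0 1 ×ˢ V) {y}ᶜ) {z : Tot ℤ X}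
    (hz : z ∈ CH ℤ U) (hd : dT ℤ X z ∈ CH ℤ V) :
    RelEq ℤ y (psh ℤ (fun x => H (1, x)) z) (psh ℤ (fun x => H (0, x)) z) := by
  refine ⟨hop κ ℤ H z, ?_⟩
  rw [← dT_hop κ hH hz, add_sub_cancel_left]
  exact hop_mem_CH κ H hV hd

end Aux

theorem InvDeg_pos {x : E 4} (hx : x ∈ shell) : 0 < ‖x‖ := lt_trans (by norm_num) hx.1

theorem InvDeg_norm (ι : E 4 ≃ₗᵢ[ℝ] E 4) {x : E 4} (hx : x ∈ shell) :
    ‖invS ι x‖ = 3 / 2 - ‖x‖ := by
  have h0 := InvDeg_pos hx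
  have h1 : 0 < 3 / 2 - ‖x‖ := by linarith [hx.2]
  rw [invS, norm_smul, ι.norm_map, Real.norm_of_nonneg (by positivity), div_mul_cancel₀ _ h0.ne']

theorem InvDeg_inj (ι : E 4 ≃ₗᵢ[ℝ] E 4) {x v : E 4} (hx : x ∈ shell) (hv : v ∈ shell)
    (h : invS ι x = invS ι v) : x = v := by
  have h1 : ‖x‖ = ‖v‖ := by
    have := InvDeg_norm ι hx
    rw [h, InvDeg_norm ι hv] at this
    linarith
  have h0 := InvDeg_pos hv
  have h2 : 0 < 3 / 2 - ‖v‖ := by linarith [hv.2]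
  rw [invS, invS, h1] at h
  exact ι.injective (smul_right_injective _ (by positivity) h)

theorem InvDeg_cont (ι : E 4 ≃ₗᵢ[ℝ] E 4) : ContinuousOn (invS ι) shell :=
  ((continuous_const.sub continuous_norm).continuousOn.div continuous_norm.continuousOn
    fun _ hx => (InvDeg_pos hx).ne').smul ι.continuous.continuousOn

theorem InvDeg_ne (ι : E 4 ≃ₗᵢ[ℝ] E 4) {x v : E 4} (hx : x ∈ shell) (hv : v ∈ shell)
    (hp : 0 < inner ℝ v x) {s : ℝ} (hs : s ∈ Icc (0 : ℝ) 1)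
    (h : s • (invS ι x - invS ι v) + (1 - s) • ι ((ℝ ∙ v)ᗮ.reflection (x - v)) = 0) : x = v := by
  have x0 := InvDeg_pos hx
  have v0 := InvDeg_pos hv
  have h1 : s • (((3 / 2 - ‖x‖) / ‖x‖) • x - ((3 / 2 - ‖v‖) / ‖v‖) • v) +
      (1 - s) • (ℝ ∙ v)ᗮ.reflection (x - v) = 0 := by
    apply ι.injective
    simpa only [invS, map_add, map_smul, map_sub, map_zero] using h
  obtain ⟨μ, rfl⟩ : ∃ μ : ℝ, x = μ • v := by
    rw [Submodule.reflection_orthogonal_apply, Submodule.reflection_singleton_apply] at h1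
    generalize inner ℝ v (x - v) / ((‖v‖ : ℝ) : ℝ) ^ 2 = k at h1
    have ha : 0 < (3 / 2 - ‖x‖) / ‖x‖ := div_pos (by linarith [hx.2]) x0
    generalize (3 / 2 - ‖x‖) / ‖x‖ = a at h1 ha
    generalize (3 / 2 - ‖v‖) / ‖v‖ = b at h1
    have hl : 0 < s * a + (1 - s) := by
      rcases hs.1.eq_or_lt with h0 | h0
      · rw [← h0]
        norm_num
      · have := mul_pos h0 ha
        linarith [hs.2]
    refine ⟨(s * a + (1 - s))⁻¹ * (s * b + (1 - s) * (1 + 2 * k)), ?_⟩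
    rw [mul_smul, eq_inv_smul_iff₀ hl.ne']
    linear_combination (norm := module) h1
  have hμ : 0 < μ := by
    rw [inner_smul_right, real_inner_self_eq_norm_sq] at hp
    exact (mul_pos_iff_of_pos_right (by positivity)).1 hp
  have e1 : (ℝ ∙ v)ᗮ.reflection (μ • v - v) = (1 - μ) • v := by
    rw [map_sub, map_smul, Submodule.reflection_orthogonalComplement_singleton_eq_neg]
    module
  have e2 : ((3 / 2 - ‖μ • v‖) / ‖μ • v‖) • μ • v - ((3 / 2 - ‖v‖) / ‖v‖) • v = (1 - μ) • v := by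
    rw [norm_smul, Real.norm_of_nonneg hμ.le, smul_smul, ← sub_smul]
    congr 1
    field_simp
    ring
  rw [e1, e2, ← add_smul, add_sub_cancel, one_smul, smul_eq_zero] at h1
  rcases h1 with h1 | h1
  · rw [← sub_eq_zero.1 h1, one_smul]
  · exact absurd h1 (norm_pos_iff.1 v0)

theorem invDeg_stmt (B : Bas1) (hRefl : ReflStmt) : InvDegStmt := by
  intro ι hι v hv z hz hd
  obtain ⟨κ⟩ := B.kit
  have v0 : v ≠ 0 := norm_pos_iff.1 (InvDeg_pos hv)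
  have ho : IsOpen shell :=
    (isOpen_lt continuous_const continuous_norm).inter (isOpen_lt continuous_norm continuous_const)
  have hU : IsOpen (shell ∩ {x : E 4 | 0 < inner ℝ v x}) :=
    ho.inter (isOpen_lt continuous_const (by fun_prop))
  have hd' : dT ℤ _ z ∈ CH ℤ (shell ∩ {v}ᶜ) := by
    rw [CH_inter]
    exact ⟨dT_mem_CH hz.1, hd⟩
  obtain ⟨z', hz', w, hw, h⟩ := InvDeg_exc hU (ho.inter isOpen_compl_singleton)
    (W := shell) (fun x hx => by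
      by_cases e : x = v
      · exact Or.inl ⟨hx, by rw [e]; exact real_inner_self_pos.2 v0⟩
      · exact Or.inr ⟨hx, e⟩) hz hd'
  have hd2 : dT ℤ _ z' ∈ CH ℤ ((shell ∩ {x : E 4 | 0 < inner ℝ v x}) ∩ (shell ∩ {v}ᶜ)) := by
    rw [CH_inter]
    refine ⟨dT_mem_CH hz'.1, ?_⟩
    have := add_mem (dT_mem_CH h) hd'
    rwa [map_sub, map_sub, dT_dT, sub_zero, sub_add_cancel] at this
  have r1 := InvDeg_psh (f := fun x => invS ι x - invS ι v) (y := 0)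
    ((InvDeg_cont ι).sub continuousOn_const)
    (fun x hx e => hx.2 (InvDeg_inj ι hx.1 hv (sub_eq_zero.1 e))) hw h
  have r2 := InvDeg_psh (f := fun x => x - v) (y := 0) (by fun_prop)
    (fun x hx e => hx.2 (sub_eq_zero.1 e)) hw h
  have r3 := InvDeg_hop κ (y := 0) (H := fun q : ℝ × E 4 => q.1 • (invS ι q.2 - invS ι v) +
      (1 - q.1) • ι ((ℝ ∙ v)ᗮ.reflection (q.2 - v)))
    (((continuous_fst.continuousOn.smul (((InvDeg_cont ι).comp continuous_snd.continuousOn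
      fun q hq => hq.2.1).sub continuousOn_const))).add (by fun_prop))
    (fun q hq e => hq.2.2.2 (InvDeg_ne ι hq.2.1.1 hv hq.2.1.2 hq.1 e)) hz'.1 hd2
  simp only [one_smul, zero_smul, sub_self, sub_zero, add_zero, zero_add] at r3
  have hc : Continuous fun x : E 4 => x - v := by fun_prop
  have r4 := hRefl ((ℝ ∙ v)ᗮ.reflection.trans ι) (LinearIsometryEquiv.refl ℝ _) (by
      have e : (((ℝ ∙ v)ᗮ.reflection.trans ι).toLinearEquiv : E 4 →ₗ[ℝ] E 4) =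
          (ι.toLinearEquiv : E 4 →ₗ[ℝ] E 4) ∘ₗ (ℝ ∙ v)ᗮ.reflection.toLinearMap := rfl
      rw [e, LinearMap.det_comp, hι, Submodule.det_reflection, Submodule.orthogonal_orthogonal,
        finrank_span_singleton v0]
      have e' : ((LinearIsometryEquiv.refl ℝ (E 4)).toLinearEquiv : E 4 →ₗ[ℝ] E 4) =
          LinearMap.id := rfl
      rw [e', LinearMap.det_id]
      norm_num)
    (psh ℤ (fun x => x - v) z') (psh_mem_DG _ hz'.2) (by
      rw [dT_psh_cont hc]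
      exact psh_mem_CH _ (fun x hx e => hx.2.2 (sub_eq_zero.1 e)) hd2)
  rw [psh_psh' _ hc, psh_psh' _ hc] at r4
  exact InvDeg_trans (InvDeg_symm r1) (InvDeg_trans r3 (InvDeg_trans r4 r2))

end Pool.Agent.MP_bc14e1_gt
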