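import Pool.Agent.MP_bc14e1_gt.IfL

open Set Metric
open scoped Classical

namespace Pool.Agent.MP_bc14e1_gt

section

variable {C : Type} [AddCommGroup C] [Module (Lam ℂ) C] {d : C →ₗ[Lam ℂ] C}
  {M : ℕ → Set ℝ → Submodule (Lam ℂ) C} {l : C → C → Lam ℂ} {ζ : Circle} {P : C → C → ℂ}

theorem Iso_zero_left (h : Sesq l) (v : C) : l 0 v = 0 := by
  have := h.smul_left 0 0 v
  rwa [zero_smul, zero_mul] at this

theorem Iso_zero_right (h : Sesq l) (u : C) : l u 0 = 0 := by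
  have := h.smul_right 0 u 0
  rwa [zero_smul, map_zero, zero_mul] at this

theorem Iso_sub_left (h : Sesq l) (u u' v : C) : l (u - u') v = l u v - l u' v := by
  rw [eq_sub_iff_add_eq, ← h.add_left, sub_add_cancel]

theorem Iso_sub_right (h : Sesq l) (u v v' : C) : l u (v - v') = l u v - l u v' := by
  rw [eq_sub_iff_add_eq, ← h.add_right, sub_add_cancel]

theorem Iso_sym (hA : IsAS d M l) {u v : C} (hu : u ∈ M 2 univ) (hv : v ∈ M 2 univ)
    (du : d u = 0) (dv : d v = 0) : cj (l v u) = l u v := by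
  obtain ⟨E₁, E₂, h1, h2, h⟩ := hA.sym
  have := h u hu v hv
  rw [du, dv, Iso_zero_left h1.1, Iso_zero_right h2.1, add_zero, sub_eq_zero] at this
  exact this.symm

theorem Iso_QN {c x : C} (hc : c ∈ M 2 (Ioo (-1) 1)) (h : d c = piL ζ • x) : c ∈ QN d M ζ :=
  ⟨hc, x, h.symm⟩

/-- The diagonal values vanish. -/
theorem Iso_diag (hLaur : LaurStmt) (hKey : KeyStmt) (hHer : HerStmt) (hA : IsAS d M l)
    (hP : PkF d M l ζ P) {x : C} (hx : x ∈ ZN d M) (hxV : x ∈ (M 2 (Iio 1)).map d) {c : C}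
    (hc : c ∈ M 2 (Ioo (-1) 1)) (hdc : d c = piL ζ • x) : P x c = 0 := by
  obtain ⟨-, -, -, -, -, -, -, -, hev, hpr, hcj, -, -, hsq⟩ := hLaur
  obtain ⟨-, K2, K3, -⟩ := hKey C d M l ζ hA
  have hS := hA.loc.1
  have hxB : piL ζ • x ∈ BN d M := ⟨c, hc, hdc⟩
  obtain ⟨x', hx', ⟨w', hw', ew'⟩, h'⟩ :=
    K3 (-1 / 2) 0 (by norm_num) (by norm_num) (by norm_num) x hx
  obtain ⟨c', hc', ec'⟩ := h' _ hxB
  obtain ⟨x'', hx'', ⟨w'', hw'', ew''⟩, h''⟩ :=
    K3 0 1 (by norm_num) (by norm_num) (by norm_num) x hx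
  obtain ⟨c'', hc'', ec''⟩ := h'' _ hxB
  obtain ⟨e, he, ee⟩ := hxV
  have s1 : Ioo (-1 : ℝ) 1 ⊆ Iio 1 := Ioo_subset_Iio_self
  have s2 : Ioo (-1 / 2 : ℝ) 0 ⊆ Iio 0 := Ioo_subset_Iio_self
  have s3 : Iio (0 : ℝ) ⊆ Iio 1 := Iio_subset_Iio zero_le_one
  have s4 : Ioo (-1 / 2 : ℝ) 0 ⊆ Ioo (-1) 1 := Ioo_subset_Ioo (by norm_num) zero_le_one
  have s5 : Ioo (0 : ℝ) 1 ⊆ Ioo (-1) 1 := Ioo_subset_Ioo (by norm_num) le_rfl
  obtain ⟨r, H, hr⟩ := hA.retrV 0 1 (by norm_num) zero_le_one le_rfl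
  have he0 : e - w' ∈ M 2 (Iio 1) := sub_mem he (hA.mono _ _ _ s1 hw')
  have de0 : d (e - w') = x' := by rw [map_sub, ee, ew', sub_sub_cancel]
  obtain ⟨r1, -, r3⟩ := (hr 2).1 _ he0
  obtain ⟨e', he', de'⟩ : ∃ e' ∈ M 2 (Iio 0), d e' = x' := by
    refine ⟨r (e - w') + H x', add_mem r1 ((hr 1).2 _ (hA.mono _ _ _ s2 hx')), ?_⟩
    have h1 : r (e - w') + H x' = (e - w') - d (H (e - w')) := by
      rw [← de0, eq_sub_iff_add_eq'.2 r3]
      abel
    rw [h1, map_sub, hA.dd, sub_zero, de0]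
  have hw : w' - w'' ∈ M 2 (Ioo (-1) 1) := sub_mem hw' hw''
  have dw : d (w' - w'') = x'' - x' := by
    rw [map_sub, ew', ew'']
    abel
  have he'' : e' + (w' - w'') ∈ M 2 (Iio 1) :=
    add_mem (hA.mono _ _ _ s3 he') (hA.mono _ _ _ s1 hw)
  have de'' : d (e' + (w' - w'')) = x'' := by
    rw [map_add, de', dw]
    abel
  set e'' := e' + (w' - w'') with ee''
  have hz : piL ζ • e' - c' ∈ M 2 (Iio 0) :=
    sub_mem (Submodule.smul_mem _ _ he') (hA.mono _ _ _ s2 hc')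
  have dz : d (piL ζ • e' - c') = 0 := by rw [map_sub, map_smul, de', ec', sub_self]
  have hq : piL ζ • (w' - w'') - c'' + c' ∈ M 2 (Ioo (-1) 1) :=
    add_mem (sub_mem (Submodule.smul_mem _ _ hw) (hA.mono _ _ _ s5 hc'')) (hA.mono _ _ _ s4 hc')
  have dq : d (piL ζ • (w' - w'') - c'' + c') = 0 := by
    rw [map_add, map_sub, map_smul, dw, ec', ec'', smul_sub]
    abel
  have ez : piL ζ • e' - c' = piL ζ • e'' - c'' - (piL ζ • (w' - w'') - c'' + c') := by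
    rw [ee'', smul_add]
    abel
  set z := piL ζ • e' - c' with hzd
  set q := piL ζ • (w' - w'') - c'' + c' with hqd
  have hzu : z ∈ M 2 univ := hA.mono _ _ _ (subset_univ _) hz
  have l1 : l q z = 0 := by
    rw [← Iso_sym hA (hA.mono _ _ _ (subset_univ _) hq) hzu dq dz,
      K2 z (hA.mono _ _ _ s3 hz) dz q hq dq, map_zero]
  have l2 : l c'' z = 0 := hA.loc.2 2 2 _ _
    (Set.disjoint_left.2 fun t h1 h2 => lt_asymm h1.1 h2) _ hc'' _ hz
  have l3 : l z z = piL ζ * (cj (piL ζ) * l e'' e' - l e'' c') := by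
    have : l z z = l (piL ζ • e'' - c'' - q) z := congrArg (l · z) ez
    rw [this, Iso_sub_left hS, Iso_sub_left hS, l1, l2, sub_zero, sub_zero, hS.smul_left, hzd,
      Iso_sub_right hS, hS.smul_right]
  obtain ⟨bad, hb, hpos⟩ := hA.psd
  have l4 := hsq ζ (l z z) bad hb (Iso_sym hA hzu hzu dz dz) (fun ξ hξ => hpos ξ hξ z hzu dz)
    ((hev _ _).2 ⟨_, l3⟩)
  rw [l3, pow_two, mul_dvd_mul_iff_left (hpr ζ).ne_zero, hcj, mul_right_comm,
    dvd_sub_right (dvd_mul_left _ _)] at l4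
  have hq' : c' ∈ QN d M ζ := Iso_QN (hA.mono _ _ _ s4 hc') ec'
  have p1 : P x c' = 0 := by
    rw [← (hev _ _).2 l4]
    refine ((hP.spec x hx c' hq' _).1 ⟨-1 / 2, 0, by norm_num, by norm_num,
      hA.mono _ _ _ Ioo_subset_Icc_self hc', e'', he'', x'', hx'', 0, zero_mem _, 0, zero_mem _,
      Submodule.mem_sup_right ⟨w'', hw'', ew''⟩, ?_, rfl⟩).symm
    rw [de'', smul_zero, add_zero, add_zero]
  have hq0 : c - c' - piL ζ • w' ∈ M 2 (Ioo (-1) 1) :=
    sub_mem (sub_mem hc hq'.1) (Submodule.smul_mem _ _ hw')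
  have dq0 : d (c - c' - piL ζ • w') = 0 := by
    rw [map_sub, map_sub, map_smul, hdc, ec', ew', smul_sub, sub_self]
  have q1 : c - c' - piL ζ • w' ∈ QN d M ζ := Iso_QN (x := 0) hq0 (by rw [dq0, smul_zero])
  have q2 : piL ζ • w' ∈ QN d M ζ := Iso_QN (Submodule.smul_mem _ _ hw') (map_smul _ _ _)
  have ec : c = c' + (c - c' - piL ζ • w') + piL ζ • w' := by abel
  rw [ec, hP.add_right x hx _ (add_mem hq' q1) _ q2, hP.add_right x hx _ hq' _ q1, p1,
    (hHer C d M l ζ P hA hP).1 x ⟨hx, hxB⟩ _ hq0 dq0, hP.zero_pi x hx _ hw', add_zero, add_zero]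

end

theorem iso_stmt (hLaur : LaurStmt) (hKey : KeyStmt) (hHer : HerStmt) : IsoStmt := by
  intro C _ _ d M l ζ P hA hP x hx hxV y hy hyV c hc hdc
  obtain ⟨hy, c', hc', hdc'⟩ := hy
  have hdc' : d c' = piL ζ • y := hdc'
  have qc := Iso_QN hc hdc
  have qc' := Iso_QN hc' hdc'
  have key : ∀ a : ℂ, starRingEnd ℂ a * P x c' + a * P y c = 0 := fun a => by
    have ha := hLaur.2.2.2.2.2.2.1 ζ a
    set A : Lam ℂ := LaurentPolynomial.C a
    have hy' : A • y ∈ ZN d M := Submodule.smul_mem _ _ hy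
    have qa : A • c' ∈ QN d M ζ := Submodule.smul_mem _ _ qc'
    have h := Iso_diag hLaur hKey hHer hA hP (add_mem hx hy')
      (add_mem hxV (Submodule.smul_mem _ A hyV)) (add_mem hc qa.1)
      (by rw [map_add, map_smul, hdc, hdc', smul_add, smul_comm])
    rw [hP.add_left x hx _ hy' _ (add_mem qc qa), hP.smul_left A y hy _ (add_mem qc qa),
      hP.add_right x hx _ qc _ qa, hP.add_right y hy _ qc _ qa, hP.smul_right A x hx _ qc',
      hP.smul_right A y hy _ qc', Iso_diag hLaur hKey hHer hA hP hx hxV hc hdc,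
      Iso_diag hLaur hKey hHer hA hP hy hyV hc' hdc', ha] at h
    linear_combination h
  have k1 := key 1
  have k2 := key Complex.I
  rw [map_one] at k1
  rw [Complex.conj_I] at k2
  have : Complex.I * (2 * P y c) = 0 := by linear_combination Complex.I * k1 + k2
  simpa using this

end Pool.Agent.MP_bc14e1_gt
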