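import Pool.Agent.MP_bc14e1_gt.If

open Set Metric
open scoped Classical

namespace Pool.Agent.MP_bc14e1_gt

theorem J_coeff (a : Lam ℂ) (n : ℤ) : (cj a).coeff n = starRingEnd ℂ (a.coeff (-n)) := by
  change (LaurentPolynomial.invert (AddMonoidAlgebra.mapRingHom ℤ (starRingEnd ℂ) a)).coeff n = _
  rw [LaurentPolynomial.invert_apply, AddMonoidAlgebra.coeff_mapRingHom]

section

variable {G Y : Type} [Group G] [TopologicalSpace Y] [MulAction G Y] [ContinuousConstSMul G Y]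

omit [TopologicalSpace Y] [ContinuousConstSMul G Y] in
theorem J_zpow {s : G} {J : Y → Y} (hJ : ∀ y, J (s • y) = s⁻¹ • J y) (n : ℤ) (y : Y) :
    J (s ^ n • y) = s ^ (-n) • J y := by
  induction n using Int.induction_on generalizing y with
  | zero => simp
  | succ n ih => rw [zpow_add_one, mul_smul, ih, hJ, smul_smul, ← zpow_sub_one, neg_add']
  | pred n ih =>
    have h : J (s⁻¹ • y) = s • J y := by
      have := hJ (s⁻¹ • y)
      rw [smul_inv_smul] at this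
      rw [this, smul_inv_smul]
    rw [zpow_sub_one, mul_smul, ih, h, smul_smul, ← zpow_add_one, neg_sub', sub_neg_eq_add]

theorem J_gs {s : G} (J : Y ≃ₜ Y) (hJ : ∀ y, J (s • y) = s⁻¹ • J y) (n : ℤ) (c : Tot ℂ Y) :
    psh ℂ J (gs ℂ Y (s ^ n) c) = gs ℂ Y (s ^ (-n)) (psh ℂ J c) := by
  rw [gs, gs, psh_psh' _ (continuous_const_smul _), psh_psh' _ J.continuous]
  exact psh_congr (fun y _ => J_zpow hJ n y) (mem_CH_univ c)

omit [ContinuousConstSMul G Y] in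
theorem J_cj_gs (g : G) (c : Tot ℂ Y) : cjT Y (gs ℂ Y g c) = gs ℂ Y g (cjT Y c) :=
  cast_psh _ _ c

theorem J_cj_cj (c : Tot ℂ Y) : cjT Y (cjT Y c) = c := by
  ext σ
  rw [cast_apply, cast_apply, Complex.conj_conj]

theorem J_act (hL : LaurStmt) {s : G} (J : Y ≃ₜ Y) (hJ : ∀ y, J (s • y) = s⁻¹ • J y) (a : Lam ℂ)
    (c : Tot ℂ Y) : cjT Y (psh ℂ J (act ℂ Y s a c)) = act ℂ Y s (cj a) (cjT Y (psh ℂ J c)) := by
  induction a using LaurentPolynomial.induction_on' with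
  | add p q hp hq => simp only [map_add, LinearMap.add_apply, hp, hq]
  | C_mul_T n a =>
    rw [map_mul, map_mul, map_mul, hL.2.2.2.1, hL.2.2.2.2.1, Module.End.mul_apply,
      Module.End.mul_apply, act_C, act_C, act_T, act_T, map_smul, LinearMap.map_smulₛₗ,
      J_gs J hJ, J_cj_gs]

theorem J_loc (hL : LamStmt) {X : Type} [TopologicalSpace X] [T2Space X] {F : Set X} {p : Y → X}
    {s : G} (hT : TC F p s) {b : Form Y} (hb : LK s b) (f : Y → ℝ) (hf : ∀ y, f (s • y) = f y) :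
    LocS (lvTw ℂ s f hf) (lamF s b) := by
  obtain ⟨h1, h2, -⟩ := hL X G Y F p s b hT hb
  refine ⟨h1, fun k k' A A' hd u hu v hv => ?_⟩
  exact h2 (f ⁻¹' A) (f ⁻¹' A') (fun y => by simp only [mem_preimage, hf]) (hd.preimage f)
    u hu.1 v hv.1

end

theorem j_stmt (B : Bas2) : JStmt := by
  intro κ K ι Γ G Y _ _ _ _ _ p s τ J hT hτ hτs hp hJ hJJ hf
  refine ⟨fun a c => J_act B.laur J hJ a c, fun c => ?_, fun c => ?_, fun k S c hc => ?_, ?_⟩
  · change cjT Y (psh ℂ J (cjT Y (psh ℂ J c))) = c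
    rw [cast_psh, J_cj_cj, psh_psh' _ J.continuous]
    exact psh_of_eqOn_id (fun y _ => hJJ y) (mem_CH_univ _)
  · change cjT Y (psh ℂ J (dT ℂ Y c)) = dT ℂ Y (cjT Y (psh ℂ J c))
    rw [← cast_dT, dT_psh_cont J.continuous]
  · refine ⟨cast_mem_CH _ (psh_mem_CH J (fun y hy => ?_) hc.1), cast_mem_DG _ (psh_mem_DG J hc.2)⟩
    change -Γ.h (p (J y)) ∈ S
    rw [hp, Γ.hI, neg_neg]
    exact hy
  · obtain ⟨hP, -⟩ := B.pair κ Γ.X G Y Γ.o Γ.F p s τ hT hτ hτs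
    obtain ⟨E₁, E₂, h₁, h₂, hE⟩ := B.inv κ Γ.X G Y Γ.o Γ.F p s τ Γ.I J hT hτ hτs Γ.Io hp hJ
    refine ⟨lamF s E₁, lamF s E₂, J_loc B.lam hT h₁ _ hf, J_loc B.lam hT h₂ _ hf,
      fun u hu v hv => ?_⟩
    have c0 := (B.lam Γ.X G Y Γ.F p s _ hT hP.lk).2.2.2.1
    have c1 := (B.lam Γ.X G Y Γ.F p s _ hT h₁).2.2.2.1
    have c2 := (B.lam Γ.X G Y Γ.F p s _ hT h₂).2.2.2.1
    refine LaurentPolynomial.ext fun n => ?_
    change (cj (lamF s (beta κ τ) (cjT Y (psh ℂ J u)) (cjT Y (psh ℂ J v)))).coeff n -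
      (lamF s (beta κ τ) u v).coeff n =
      (lamF s E₁ (dT ℂ Y u) v).coeff n + (lamF s E₂ u (dT ℂ Y v)).coeff n
    rw [J_coeff, c0, c0, c1, c2, ← J_cj_gs, hP.real, Complex.conj_conj, ← J_gs J hJ, ← dT_gs]
    exact hE u hu.2 _ (gs_mem_DG _ hv.2)

end Pool.Agent.MP_bc14e1_gt
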