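import Pool.Agent.MP_bc14e1_gt.IfC

open Set Metric
open scoped Classical

namespace Pool.Agent.MP_bc14e1_gt

section

variable {Y Y' : Type} [TopologicalSpace Y] [TopologicalSpace Y']

theorem Kap_val0_psh {M : Type} [AddCommGroup M] (f : Y' → M) (f' : Y → M) (τ : M →ₗ[ℤ] M)
    {g : Y → Y'} (hg : Continuous g) (h : ∀ y, f (g y) = τ (f' y)) (c : Tot ℤ Y) :
    val0 ℤ f (psh ℤ g c) = τ (val0 ℤ f' c) := by
  induction c using Finsupp.induction_linear with
  | zero => simp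
  | add a b ha hb => simp [ha, hb]
  | single σ a =>
    rw [psh_single g σ (hg.comp σ.2.continuous)]
    simp only [val0, Finsupp.linearCombination_single, map_smul]
    split_ifs
    · exact congrArg (a • ·) (h _)
    · rw [map_zero]

theorem Kap_val0_dT {O : Set Y} (f : Y → ℤ) (hf : ∀ y y', JoinedIn O y y' → f y = f y')
    {c : Tot ℤ Y} (h1 : c ∈ CH ℤ O) (h2 : c ∈ DG ℤ Y 1) : val0 ℤ f (dT ℤ Y c) = 0 := by
  have h3 : c ∈ Finsupp.supported ℤ ℤ {σ : TS Y | σ.1 = 1 ∧ ∀ t, σ.2 t ∈ O} :=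
    (Finsupp.mem_supported ℤ c).2 fun σ hσ => ⟨mem_DG.1 h2 σ hσ, mem_CH.1 h1 σ hσ⟩
  refine supported_ind (P := fun c => val0 ℤ f (dT ℤ Y c) = 0) (by simp)
    (fun a b ha hb => by simp [ha, hb]) ?_ h3
  rintro ⟨_, σ⟩ ⟨rfl, hσ⟩ a
  let γ : C(unitInterval, Y) :=
    σ.comp (stdSimplexHomeomorphUnitInterval.symm : C(unitInterval, Sx 1))
  have e : (Finsupp.single ⟨1, σ⟩ a : Tot ℤ Y) = a • pth ℤ γ := by
    rw [pth, Finsupp.smul_single, smul_eq_mul, mul_one]
    congr 2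
    ext x
    simp [γ]
  have hj : JoinedIn O (γ 0) (γ 1) := ⟨⟨γ, rfl, rfl⟩, fun t => hσ _⟩
  rw [e, map_smul, map_smul, dT_pth, map_sub, val0_pt, val0_pt, hf _ _ hj, sub_self, smul_zero]

theorem Kap_joined {O : Set Y} {y y' : Y} (hy : y ∈ O) {c : Tot ℤ Y} (h1 : c ∈ CH ℤ O)
    (h2 : c ∈ DG ℤ Y 1) (h : dT ℤ Y c = pt ℤ y' - pt ℤ y) : JoinedIn O y y' := by
  have h3 := Kap_val0_dT (O := O) (fun z => if JoinedIn O y z then 1 else 0) (fun z z' hz => by
    have : JoinedIn O y z ↔ JoinedIn O y z' := ⟨fun h => h.trans hz, fun h => h.trans hz.symm⟩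
    simp only [this]) h1 h2
  rw [h, map_sub, val0_pt, val0_pt, if_pos (JoinedIn.refl hy)] at h3
  by_contra hn
  rw [if_neg hn] at h3
  exact absurd h3 (by decide)

/-- A function that is constant on path components and equivariant. -/
theorem Kap_fun {A G' : Type} [AddCommGroup A] [Group G'] [MulAction G' Y']
    [ContinuousConstSMul G' Y'] (j : Multiplicative A →* G') {O : Set Y'}
    (hO : ∀ (g : G'), ∀ y ∈ O, g • y ∈ O)
    (hfree : ∀ a y, JoinedIn O y (j (Multiplicative.ofAdd a) • y) → a = 0) :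
    ∃ k : Y' → A, ∀ y ∈ O, (∀ y', JoinedIn O y y' → k y' = k y) ∧
      ∀ a, k (j (Multiplicative.ofAdd a) • y) = a + k y := by
  have hsm : ∀ (g : G') y y', JoinedIn O y y' → JoinedIn O (g • y) (g • y') := fun g y y' h =>
    (h.map (continuous_const_smul g)).mono (by rintro _ ⟨z, hz, rfl⟩; exact hO g z hz)
  have hj : ∀ (a b : A) (y : Y'), j (Multiplicative.ofAdd (a + b)) • y =
      j (Multiplicative.ofAdd a) • j (Multiplicative.ofAdd b) • y := fun a b y => by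
    rw [ofAdd_add, map_mul, mul_smul]
  have hj0 : ∀ y : Y', j (Multiplicative.ofAdd (0 : A)) • y = y := fun y => by
    rw [ofAdd_zero, map_one, one_smul]
  let P : Y' → Y' → A → Prop := fun y z a => JoinedIn O (j (Multiplicative.ofAdd a) • z) y
  let S : Y' → Set Y' := fun y => {z | ∃ a, P y z a}
  let r : Set Y' → Y' → Y' := fun T y => if h : T.Nonempty then h.choose else y
  have hS : ∀ y ∈ O, (S y).Nonempty := fun y hy =>
    ⟨y, 0, by simp only [P, hj0]; exact JoinedIn.refl hy⟩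
  have hr : ∀ y ∈ O, ∃ a, P y (r (S y) y) a := fun y hy => by
    simp only [r, dif_pos (hS y hy)]
    exact (hS y hy).choose_spec
  have hrr : ∀ y ∈ O, ∀ y', S y' = S y → r (S y') y' = r (S y) y := fun y hy y' e => by
    simp only [r, e, dif_pos (hS y hy)]
  have huniq : ∀ y z a b, P y z a → P y z b → a = b := by
    intro y z a b ha hb
    have h1 : JoinedIn O (j (Multiplicative.ofAdd b) • z)
        (j (Multiplicative.ofAdd (a - b)) • j (Multiplicative.ofAdd b) • z) := by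
      rw [← hj, sub_add_cancel]
      exact hb.trans ha.symm
    exact sub_eq_zero.1 (hfree _ _ h1)
  have hP : ∀ y z a b, P y z b → P (j (Multiplicative.ofAdd a) • y) z (a + b) := by
    intro y z a b h
    simp only [P, hj]
    exact hsm _ _ _ h
  let k : Y' → A := fun y => Classical.epsilon (P y (r (S y) y))
  have hk : ∀ y ∈ O, P y (r (S y) y) (k y) := fun y hy => Classical.epsilon_spec (hr y hy)
  refine ⟨k, fun y hy => ⟨fun y' h => ?_, fun a => ?_⟩⟩
  · have e : S y' = S y := Set.ext fun z => exists_congr fun a =>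
      ⟨fun h' => JoinedIn.trans h' h.symm, fun h' => JoinedIn.trans h' h⟩
    have h1 := hk y' h.target_mem
    rw [hrr y hy y' e] at h1
    exact huniq _ _ _ _ h1 (JoinedIn.trans (hk y hy) h)
  · have e : S (j (Multiplicative.ofAdd a) • y) = S y := Set.ext fun z => by
      refine ⟨fun ⟨b, hb⟩ => ⟨-a + b, ?_⟩, fun ⟨b, hb⟩ => ⟨a + b, hP _ _ _ _ hb⟩⟩
      have := hP _ _ (-a) _ hb
      rwa [← hj, neg_add_cancel, hj0] at this
    have h1 := hk _ (hO (j (Multiplicative.ofAdd a)) y hy)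
    rw [hrr y hy _ e] at h1
    exact huniq _ _ _ _ h1 (hP _ _ _ _ (hk y hy))

end

theorem kap_stmt (B : Bas2) (hLocCtr : LocCtrStmt) : KapStmt := by
  intro X G Y A G' Y' _ _ _ _ _ _ _ _ _ _ _ _ F φ p t l τ m α q j t' l' hF h1 h2 hτ
  obtain ⟨N1, hN1, hFN1, -, n, hn⟩ := B.pa ℤ X G Y F p t h1.tc hF univ isOpen_univ (subset_univ _)
  have hq := h2.cov.cont
  have hlift : ∀ c : Tot ℤ Y, ∃ c', psh ℤ q c' = c := by
    intro c
    induction c using Finsupp.induction_linear with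
    | zero => exact ⟨0, map_zero _⟩
    | add a b ha hb =>
      obtain ⟨a, rfl⟩ := ha
      obtain ⟨b, rfl⟩ := hb
      exact ⟨a + b, map_add _ _ _⟩
    | single σ a =>
      obtain ⟨c', -, h⟩ := (B.lift ℤ j.range Y Y' univ q h2.cov).1 σ.1 _
        ⟨mem_CH_univ _, single_mem_DG σ a⟩
      exact ⟨c', h⟩
  have hαt : ∀ c, α (gs ℤ Y t c) = τ (α c) := by
    intro c
    obtain ⟨c, rfl⟩ := hlift c
    have e : gs ℤ Y t (psh ℤ q c) = psh ℤ q (gs ℤ Y' t' c) := by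
      rw [gs, gs, psh_psh' _ hq, psh_psh' _ (continuous_const_smul t')]
      congr 2
      funext y
      exact (h2.qt y).symm
    rw [e, h2.hol, h2.hol, dT_gs]
    exact Kap_val0_psh l' l' (τ : A →ₗ[ℤ] A) (continuous_const_smul t') h2.lt _
  have hαd : ∀ b, α (dT ℤ Y b) = 0 := by
    intro b
    obtain ⟨b, rfl⟩ := hlift b
    rw [dT_psh_cont hq, h2.hol, dT_dT, map_zero]
  have hαp : ∀ (i : ℕ) (z : Tot ℤ Y), α (((gs ℤ Y t - 1) ^ i) z) = 0 → α z = 0 := by
    intro i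
    induction i with
    | zero => intro z h; simpa using h
    | succ i ih =>
      intro z h
      rw [pow_succ', Module.End.mul_apply, LinearMap.sub_apply, Module.End.one_apply, map_sub,
        hαt, sub_eq_zero] at h
      exact ih z (hτ _ h)
  let N : Set X := {x | ∃ (e : OpenPartialHomeomorph X (ℂ × ℂ)) (D : Set (ℂ × ℂ)), FlatCh F e ∧
    IsOpen D ∧ D ⊆ e.target ∧ DiscCl D ∧ e.symm '' D ⊆ N1 ∧ x ∈ e.symm '' D}
  have hNo : IsOpen N := by
    refine isOpen_iff_forall_mem_open.2 ?_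
    rintro x ⟨e, D, d1, d2, d3, d4, d5, d6⟩
    exact ⟨e.symm '' D, fun x' hx' => ⟨e, D, d1, d2, d3, d4, d5, hx'⟩,
      e.isOpen_image_symm_of_subset_target d2 d3, d6⟩
  have hNN : N ⊆ N1 := by
    rintro x ⟨e, D, -, -, -, -, d5, d6⟩
    exact d5 d6
  have hFN : F ⊆ N := by
    intro x hx
    obtain ⟨e, he, hxe⟩ := h1.tc.flat.ch x hx
    have hW : IsOpen (e.target ∩ e.symm ⁻¹' N1) := e.symm.isOpen_inter_preimage hN1
    obtain ⟨ρ, hρ, hb⟩ := Metric.isOpen_iff.1 hW (e x)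
      ⟨e.map_source hxe, by rw [mem_preimage, e.left_inv hxe]; exact hFN1 hx⟩
    refine ⟨e, ball (e x) ρ, he, isOpen_ball, fun z hz => (hb hz).1, ?_, ?_,
      e x, mem_ball_self hρ, e.left_inv hxe⟩
    · intro z hz w hw
      rw [mem_ball, Prod.dist_eq, max_lt_iff, (he x hxe).1 hx, dist_zero_right] at hz ⊢
      exact ⟨hz.1, hw.trans_lt hz.2⟩
    · rintro _ ⟨z, hz, rfl⟩
      exact (hb hz).2
  have hO : ∀ (g : G'), ∀ y ∈ (p ∘ q) ⁻¹' N, g • y ∈ (p ∘ q) ⁻¹' N := fun g y hy => by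
    rw [mem_preimage, h2.tc.cov.inv]
    exact hy
  have hfree : ∀ a y, JoinedIn ((p ∘ q) ⁻¹' N) y (j (Multiplicative.ofAdd a) • y) → a = 0 := by
    rintro a y ⟨γ, hγ⟩
    have hc : pth ℤ γ.toContinuousMap ∈ CH ℤ ((p ∘ q) ⁻¹' N) := pth_mem_CH hγ
    have hd : dT ℤ Y' (pth ℤ γ.toContinuousMap) =
        pt ℤ (j (Multiplicative.ofAdd a) • y) - pt ℤ y := by
      rw [dT_pth]
      exact congrArg₂ (fun u v => pt ℤ u - pt ℤ v) γ.target γ.source
    have hqa : q (j (Multiplicative.ofAdd a) • y) = q y :=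
      h2.cov.inv (⟨_, Multiplicative.ofAdd a, rfl⟩ : j.range) y
    obtain ⟨b, -, hb⟩ := hn (psh ℤ q (pth ℤ γ.toContinuousMap))
      (psh_mem_CH q (fun u hu => hNN hu) hc)
      (by rw [dT_psh_cont hq, hd, map_sub, psh_pt, psh_pt, hqa, sub_self])
    have h3 := hαp n _ (by rw [hb, hαd])
    rwa [h2.hol, hd, map_sub, val0_pt, val0_pt, h2.la, add_sub_cancel_right] at h3
  obtain ⟨k, hk⟩ := Kap_fun j hO hfree
  refine ⟨N, hNo, hFN, k, fun y hy => ⟨?_, (hk y hy).2, (hk y hy).1 _ ?_⟩⟩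
  · obtain ⟨-, -, V, hV, hVO, hVp⟩ := hLocCtr X Y' (p ∘ q)
      (B.cov G' X Y' _ _ h2.tc.cov).2.1 y ((p ∘ q) ⁻¹' N)
      ((hNo.preimage h2.tc.cov.cont).mem_nhds hy)
    filter_upwards [hV] with y' hy'
    exact (hk y hy).1 y' ((hVp.joinedIn y (mem_of_mem_nhds hV) y' hy').mono hVO)
  · obtain ⟨e, D, d1, d2, d3, d4, d5, d6⟩ := id hy
    obtain ⟨H, -, r2, r3, r4⟩ := B.rot ℤ G' X Y' F (p ∘ q) (t' ^ m) h2.tc e D d1 d2 d3 d4
    have hy' : pt ℤ y ∈ CH ℤ ((p ∘ q) ⁻¹' (e.symm '' D)) := pt_mem_CH d6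
    have h3 := r4 _ hy'
    rw [dT_pt, map_zero, add_zero, gs, psh_pt] at h3
    refine Kap_joined hy (CH_mono ?_ (r3 D subset_rfl (fun x hx w hw => d4 x hx w hw.le) _ hy'))
      (r2 0 _ (pt_mem_DG y)) h3
    exact fun u hu => ⟨e, D, d1, d2, d3, d4, d5, hu⟩

end Pool.Agent.MP_bc14e1_gt
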