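import Pool.Agent.MP_bc14e1_gt.IfL

open Set Metric
open scoped Classical

namespace Pool.Agent.MP_bc14e1_gt

section

variable {C : Type} [AddCommGroup C] [Module (Lam ℂ) C] {d : C →ₗ[Lam ℂ] C}
  {M : ℕ → Set ℝ → Submodule (Lam ℂ) C} {l : C → C → Lam ℂ}

/-- A deformation in a convenient form. -/
theorem Key_retr (A : IsAS d M l) {J' J : Set ℝ} (h : Retr d M J' J) :
    ∃ r H : C →ₗ[Lam ℂ] C, (∀ k, ∀ c ∈ M k J', r c ∈ M k J) ∧
      (∀ k, ∀ c ∈ M k J', H c ∈ M (k + 1) J') ∧ (∀ k, ∀ c ∈ M k J, H c ∈ M (k + 1) J) ∧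
      (∀ k, ∀ c ∈ M k J', c = r c + d (H c) + H (d c)) ∧
      ∀ k, ∀ c ∈ M (k + 1) J', d (r c) = r (d c) := by
  obtain ⟨r, H, h⟩ := h
  refine ⟨r, H, fun k c hc => ((h k).1 c hc).1, fun k c hc => ((h k).1 c hc).2.1,
    fun k => (h k).2, fun k c hc => ?_, fun k c hc => ?_⟩
  · rw [add_assoc, ((h k).1 c hc).2.2, add_sub_cancel]
  · have e1 := congrArg d ((h (k + 1)).1 c hc).2.2
    have e2 := ((h k).1 _ (A.d_mem k _ c hc)).2.2
    rw [map_add, A.dd, zero_add, map_sub] at e1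
    rw [A.dd, map_zero, add_zero, e1] at e2
    exact sub_right_injective e2

theorem Key_up {J : Set ℝ} (hJ : IsCompact J) (h : J ⊆ Iio 1) :
    ∃ b : ℝ, 0 < b ∧ b < 1 ∧ J ⊆ Iio b := by
  obtain ⟨m, hm, hmax⟩ := (hJ.insert 0).exists_isMaxOn (insert_nonempty _ _) continuousOn_id
  have h1 : m < 1 := by
    rcases hm with rfl | hm
    · exact one_pos
    · exact h hm
  have h0 : (0 : ℝ) ≤ m := hmax (mem_insert _ _)
  refine ⟨(m + 1) / 2, by linarith, by linarith, fun t ht => ?_⟩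
  have : t ≤ m := hmax (mem_insert_of_mem _ ht)
  rw [mem_Iio]
  linarith

theorem Key_lo {J : Set ℝ} (hJ : IsCompact J) (h : J ⊆ Ioi (-1)) :
    ∃ a : ℝ, -1 < a ∧ a < 0 ∧ J ⊆ Ioi a := by
  obtain ⟨b, h0, h1, hb⟩ := Key_up hJ.neg fun t ht => by
    have := h ht
    rw [mem_Ioi] at this
    rw [mem_Iio]
    linarith
  refine ⟨-b, by linarith, by linarith, fun t ht => ?_⟩
  have := hb (show -t ∈ -J by simpa using ht)
  rw [mem_Iio] at this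
  rw [mem_Ioi]
  linarith

theorem Key_six (A : IsAS d M l) (k : ℕ) (c : C) (hc : c ∈ M k (Ioo (-1) 1)) :
    ∃ a b : ℝ, -1 < a ∧ a < b ∧ b < 1 ∧ c ∈ M k (Ioo a b) := by
  obtain ⟨J, hJ, hK, hc⟩ := A.cpt k _ c hc
  obtain ⟨a, ha, ha0, hJa⟩ := Key_lo hK (hJ.trans Ioo_subset_Ioi_self)
  obtain ⟨b, hb0, hb, hJb⟩ := Key_up hK (hJ.trans Ioo_subset_Iio_self)
  exact ⟨a, b, ha, ha0.trans hb0, hb, A.mono k J (Ioo a b) (fun t ht => ⟨hJa ht, hJb ht⟩) hc⟩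

theorem Key_seven (A : IsAS d M l) (k : ℕ) (c : C) (hc : c ∈ M k (Iio 1)) :
    ∃ b : ℝ, -1 < b ∧ b < 1 ∧ c ∈ M k (Iio b) := by
  obtain ⟨J, hJ, hK, hc⟩ := A.cpt k _ c hc
  obtain ⟨b, hb0, hb, hJb⟩ := Key_up hK hJ
  exact ⟨b, by linarith, hb, A.mono k _ _ hJb hc⟩

theorem Key_pair (A : IsAS d M l) {z : C} (hz : z ∈ M 2 (Iio 1)) :
    ∃ H : C →ₗ[Lam ℂ] C, ∀ c ∈ M 2 (Ioo (-1) 1), l z c = l (d z) (H c) + l z (H (d c)) := by
  obtain ⟨b, hb, hb1, hz⟩ := Key_seven A 2 z hz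
  obtain ⟨r, H, h1, -, -, h4, -⟩ := Key_retr A (A.retrN (-1) b 1 1 le_rfl hb.le hb1 le_rfl le_rfl)
  refine ⟨H, fun c hc => ?_⟩
  have hS := A.loc.1
  have h0 : l z (r c) = 0 := A.loc.2 _ _ _ _
    (disjoint_left.2 fun t ht ht' => lt_asymm ht ht'.1) _ hz _ (h1 2 c hc)
  rw [A.stokes, ← zero_add (l z (d (H c))), ← h0, ← hS.add_right, ← hS.add_right, ← h4 2 c hc]

end

theorem key_stmt (hLaur : LaurStmt) : KeyStmt := by
  intro C _ _ d M l ζ A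
  obtain ⟨-, -, -, -, -, -, -, hcj, hev, -⟩ := hLaur
  have hS := A.loc.1
  refine ⟨?_, fun z hz hdz q hq hdq => ?_, fun a b ha hab hb y hy => ?_,
    fun a b ha hab hb y hy hB => ?_, fun b hb hb1 y hy e he a ha g hg h => ?_, Key_six A,
    Key_seven A⟩
  · rintro z hz ⟨a, ha⟩ c ⟨hc, y, hy⟩
    obtain ⟨H, hH⟩ := Key_pair A hz
    have hπ : evL ζ (piL ζ) = 0 := (hev ζ _).2 dvd_rfl
    have hy' : d c = piL ζ • y := hy.symm
    rw [hH c hc, ha, hy', map_smul, hS.smul_left, hS.smul_right, map_add, map_mul, map_mul, hcj,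
      hπ, map_zero, zero_mul, zero_mul, add_zero]
  · obtain ⟨H, hH⟩ := Key_pair A hz
    rw [hH q hq, hdz, hdq, map_zero, ← zero_smul (Lam ℂ) (0 : C), hS.smul_left, hS.smul_right,
      map_zero, zero_mul, zero_mul, add_zero]
  · obtain ⟨r, H, h1, h2, -, h4, h5⟩ := Key_retr A (A.retrN (-1) a b 1 le_rfl ha hab hb le_rfl)
    have hdy : d y = 0 := hy.2
    refine ⟨r y, h1 1 y hy.1, ⟨H y, h2 1 y hy.1, ?_⟩, ?_⟩
    · have := h4 1 y hy.1
      rw [hdy, map_zero, add_zero] at this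
      rw [eq_sub_iff_add_eq', ← this]
    · rintro g ⟨c, hc, e⟩
      exact ⟨r c, h1 2 c hc, by rw [h5 1 c hc, e, map_smul]⟩
  · obtain ⟨r, H, h1, -, h3, h4, h5⟩ := Key_retr A (A.retrN (-1) a b 1 le_rfl ha hab hb le_rfl)
    obtain ⟨c, hc, rfl⟩ := hB
    refine ⟨r c + H (d c), add_mem (h1 2 c hc) (h3 1 _ hy), ?_⟩
    have := h4 1 _ (A.d_mem 1 _ c hc)
    rw [A.dd, map_zero, add_zero] at this
    rw [map_add, h5 1 c hc, ← this]
  · obtain ⟨r, H, h1, -, h3, h4, h5⟩ := Key_retr A (A.retrV b 1 hb hb1 le_rfl)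
    have hd : d y = g • d a := by rw [h, map_add, A.dd, zero_add, map_smul]
    have hda : d a ∈ M 0 (Iio b) := A.tf g hg _ _ _ (hd ▸ A.d_mem 0 _ y hy)
    refine ⟨r e + H y, add_mem (h1 2 e he) (h3 1 y hy), r a + H (d a),
      add_mem (h1 1 a ha) (h3 0 _ hda), ?_⟩
    have e1 := h4 1 y (A.mono 1 _ _ (Iio_subset_Iio hb1) hy)
    have e2 : r y = d (r e) + g • r a := by rw [h5 1 e he, ← map_smul, ← map_add, ← h]
    rw [hd, map_smul, e2] at e1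
    rw [map_add, smul_add]
    refine e1.trans ?_
    abel

end Pool.Agent.MP_bc14e1_gt
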