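import Pool.Agent.MP_bc14e1_gt.IfT

open Set Metric
open scoped Classical

namespace Pool.Agent.MP_bc14e1_gt

theorem LABase_hom (κ : Kit) {R : Type} [CommRing R] {M N : Type} [TopologicalSpace M]
    [NormedAddCommGroup N] [NormedSpace ℝ N] (e : OpenPartialHomeomorph M N) {V : Set N}
    (hV : Convex ℝ V) (hVe : V ⊆ e.target) {g : N → N} (hg : Continuous g) (hgV : MapsTo g V V)
    {T : Set M} (hT : ∀ s ∈ Icc (0 : ℝ) 1, ∀ v ∈ V, e.symm v ∈ T →
      e.symm ((1 - s) • v + s • g v) ∈ T)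
    {c : Tot R M} (hc : c ∈ CH R (e.symm '' V)) (hd : dT R M c ∈ CH R T) :
    ∃ b ∈ CH R (e.symm '' V), c - psh R (fun m => e.symm (g (e m))) c - dT R M b ∈ CH R T := by
  have h1 : ∀ m ∈ e.symm '' V, m ∈ e.source ∧ e m ∈ V := by
    rintro _ ⟨v, hv, rfl⟩
    exact ⟨e.map_target (hVe hv), by rwa [e.right_inv (hVe hv)]⟩
  have h2 : MapsTo (fun q : ℝ × M => (1 - q.1) • e q.2 + q.1 • g (e q.2))
      (Icc 0 1 ×ˢ (e.symm '' V)) V := fun q hq =>
    hV (h1 _ hq.2).2 (hgV (h1 _ hq.2).2) (sub_nonneg.2 hq.1.2) hq.1.1 (sub_add_cancel _ _)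
  let H : ℝ × M → M := fun q => e.symm ((1 - q.1) • e q.2 + q.1 • g (e q.2))
  have hH : ContinuousOn H (Icc 0 1 ×ˢ (e.symm '' V)) := by
    refine e.continuousOn_symm.comp ?_ fun q hq => hVe (h2 hq)
    have h3 : ContinuousOn (fun q : ℝ × M => e q.2) (Icc 0 1 ×ˢ (e.symm '' V)) :=
      e.continuousOn.comp continuousOn_snd fun q hq => (h1 _ hq.2).1
    exact ((continuousOn_const.sub continuousOn_fst).smul h3).add
      (continuousOn_fst.smul (hg.comp_continuousOn h3))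
  have h4 := dT_hop κ hH hc
  have h5 : psh R (fun m => H (0, m)) c = c := psh_of_eqOn_id (fun m hm => by
    simp only [H, sub_zero, one_smul, zero_smul, add_zero]
    exact e.left_inv (h1 m hm).1) hc
  have h6 : (fun m => H (1, m)) = fun m => e.symm (g (e m)) := funext fun m => by
    simp only [H, sub_self, one_smul, zero_smul, zero_add]
  rw [h5, h6] at h4
  have h7 : dT R M c ∈ CH R (e.symm '' V ∩ T) := by
    rw [CH_inter]
    exact ⟨dT_mem_CH hc, hd⟩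
  have h8 : hop κ R H (dT R M c) ∈ CH R T := hop_mem_CH κ H (fun q hq =>
    hT q.1 hq.1 _ (h1 _ hq.2.1).2 (by rw [e.left_inv (h1 _ hq.2.1).1]; exact hq.2.2)) h7
  refine ⟨-hop κ R H c, neg_mem (hop_mem_CH κ H (B := e.symm '' V)
    (fun q hq => ⟨_, h2 hq, rfl⟩) hc), ?_⟩
  have h9 : c - psh R (fun m => e.symm (g (e m))) c - dT R M (-hop κ R H c) =
      -hop κ R H (dT R M c) := by
    rw [map_neg, ← neg_sub _ c, ← h4]
    abel
  rw [h9]
  exact neg_mem h8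

theorem LABase_pos {s d : ℝ} (hs : s ∈ Icc (0 : ℝ) 1) (hd : 0 < d) : 1 - s + s * d ≠ 0 := by
  rcases hs.1.eq_or_lt with h | h
  · rw [← h]; norm_num
  · have := mul_pos h hd
    have := hs.2
    linarith [this]

theorem LABase_ball (B : Bas1) {R : Type} [CommRing R] {Q : Type} [NormedAddCommGroup Q]
    [NormedSpace ℝ Q] [FiniteDimensional ℝ Q] {ρ : ℝ} (hρ : 0 < ρ) {k : ℕ}
    (hk : k ≠ Module.finrank ℝ Q) {c : Tot R Q} (hc : c ∈ CC R (ball (0 : Q) ρ) k)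
    (hd : dT R Q c ∈ CH R ({0}ᶜ : Set Q)) :
    ∃ b ∈ CH R (ball (0 : Q) ρ), c - dT R Q b ∈ CH R ({0}ᶜ : Set Q) := by
  obtain ⟨κ⟩ := B.kit
  let L : Q ≃L[ℝ] E (Module.finrank ℝ Q) := ContinuousLinearEquiv.ofFinrankEq (by simp)
  obtain ⟨o, -, -, ho⟩ := B.locHom (Module.finrank ℝ Q)
  obtain ⟨b, hb⟩ := (ho R k (psh R L c) (psh_mem_DG _ hc.2) (by
    rw [dT_psh_cont L.continuous]
    exact psh_mem_CH _ (A := {0}ᶜ) (B := {0}ᶜ)
      (fun w hw h => hw (L.map_eq_zero_iff.1 h)) hd)).1 hk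
  let g : Q → Q := fun w => (ρ / (ρ + ‖w‖)) • w
  have hp : ∀ w : Q, 0 < ρ + ‖w‖ := fun w => by positivity
  have hg : Continuous g :=
    (continuous_const.div (continuous_const.add continuous_norm) fun w => (hp w).ne').smul
      continuous_id
  have hgb : ∀ w, g w ∈ ball (0 : Q) ρ := fun w => by
    rw [mem_ball_zero_iff, norm_smul, Real.norm_of_nonneg (div_pos hρ (hp w)).le,
      div_mul_eq_mul_div, div_lt_iff₀ (hp w)]
    exact mul_lt_mul_of_pos_left (lt_add_of_pos_left _ hρ) hρ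
  have hc' : c ∈ CH R ((OpenPartialHomeomorph.refl Q).symm '' ball (0 : Q) ρ) := by
    simpa using hc.1
  obtain ⟨b', hb', h1⟩ := LABase_hom κ (OpenPartialHomeomorph.refl Q) (convex_ball 0 ρ)
    (subset_univ _) hg (fun w _ => hgb w) (T := {0}ᶜ) (fun s hs v _ hv h => by
      have h2 : (1 - s) • v + s • (ρ / (ρ + ‖v‖)) • v = 0 := h
      rw [smul_smul, ← add_smul] at h2
      exact hv ((smul_eq_zero.1 h2).resolve_left (LABase_pos hs (div_pos hρ (hp v))))) hc' hd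
  have h2 : psh R (g ∘ L.symm) (psh R L c - dT R _ b) ∈ CH R ({0}ᶜ : Set Q) :=
    psh_mem_CH _ (A := {0}ᶜ) (B := {0}ᶜ) (fun w hw h => hw (L.symm.map_eq_zero_iff.1
      ((smul_eq_zero.1 h).resolve_left (div_pos hρ (hp _)).ne'))) hb
  have h3 : (g ∘ L.symm) ∘ L = g := funext fun w => by simp
  rw [map_sub, psh_psh' _ L.continuous, h3, ← dT_psh_cont (hg.comp L.symm.continuous)] at h2
  refine ⟨b' + psh R (g ∘ L.symm) b, add_mem (by simpa using hb')
    (psh_mem_CH _ (fun w _ => hgb _) (mem_CH_univ b)), ?_⟩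
  have h4 := add_mem h1 h2
  have h5 : c - dT R Q (b' + psh R (g ∘ L.symm) b) =
      c - psh R g c - dT R Q b' + (psh R g c - dT R Q (psh R (g ∘ L.symm) b)) := by
    rw [map_add]
    abel
  rw [h5]
  exact h4

theorem laBase_stmt (B : Bas1) : LABaseStmt := by
  intro R _ M P Q _ _ _ _ _ _ S 𝒜 e he hS V hO hV hB hVe k c hc hd
  have hT : ∀ v ∈ V, e.symm v ∈ Sᶜ ↔ v.2 ≠ 0 := fun v hv => by
    rw [mem_compl_iff, hS _ (e.map_target (hVe hv)), e.right_inv (hVe hv)]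
  by_cases h0 : ∃ x, (x, (0 : Q)) ∈ V
  swap
  · have h1 : c ∈ CH R Sᶜ := CH_mono (by
      rintro _ ⟨v, hv, rfl⟩
      exact (hT v hv).2 fun h => h0 ⟨v.1, h ▸ hv⟩) hc.1
    exact ⟨fun _ => ⟨0, zero_mem _, by simpa using h1⟩,
      fun _ => ⟨0, zero_mem _, 0, zero_mem _, by simpa using h1⟩⟩
  obtain ⟨κ⟩ := B.kit
  obtain ⟨x, hx⟩ := h0
  obtain ⟨ρ, hρ, hb⟩ := Metric.isOpen_iff.1 hO _ hx
  obtain ⟨C, hC, hC'⟩ := hB.exists_pos_norm_le
  have hw : ∀ w ∈ ball (0 : Q) ρ, (x, w) ∈ V := fun w hw => hb (by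
    rw [mem_ball, Prod.dist_eq, dist_self]
    exact max_lt hρ hw)
  have hδ : 0 < ρ / (C + 1) := by positivity
  have h1 : ∀ v ∈ V, (ρ / (C + 1)) • v.2 ∈ ball (0 : Q) ρ := fun v hv => by
    rw [mem_ball_zero_iff, norm_smul, Real.norm_of_nonneg hδ.le, div_mul_eq_mul_div,
      div_lt_iff₀ (by positivity)]
    have := (norm_snd_le v).trans (hC' v hv)
    exact mul_lt_mul_of_pos_left (by linarith) hρ
  obtain ⟨b, hbW, h2⟩ := LABase_hom κ e hV hVe
    (g := fun v => (x, (ρ / (C + 1)) • v.2)) (by fun_prop) (fun v hv => hw _ (h1 v hv))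
    (T := Sᶜ) (fun s hs v hv h => by
      refine (hT _ (hV hv (hw _ (h1 v hv)) (sub_nonneg.2 hs.2) hs.1 (sub_add_cancel _ _))).2 ?_
      intro h3
      have h4 : (1 - s) • v.2 + s • (ρ / (C + 1)) • v.2 = 0 := h3
      rw [smul_smul, ← add_smul] at h4
      exact (hT v hv).1 h ((smul_eq_zero.1 h4).resolve_left (LABase_pos hs hδ))) hc.1 hd
  have h3 : ∀ m ∈ e.symm '' V, m ∈ e.source ∧ e m ∈ V := by
    rintro _ ⟨v, hv, rfl⟩
    exact ⟨e.map_target (hVe hv), by rwa [e.right_inv (hVe hv)]⟩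
  let f : M → Q := fun m => (ρ / (C + 1)) • (e m).2
  have hf : ContinuousOn f (e.symm '' V) :=
    continuousOn_const.smul (continuous_snd.comp_continuousOn
      (e.continuousOn.mono fun m hm => (h3 m hm).1))
  have h4 : psh R f c ∈ CC R (ball (0 : Q) ρ) k :=
    ⟨psh_mem_CH f (fun m hm => h1 _ (h3 m hm).2) hc.1, psh_mem_DG f hc.2⟩
  have h5 : dT R Q (psh R f c) ∈ CH R ({0}ᶜ : Set Q) := by
    have h6 : dT R M c ∈ CH R (e.symm '' V ∩ Sᶜ) := by
      rw [CH_inter]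
      exact ⟨dT_mem_CH hc.1, hd⟩
    rw [dT_psh hf hc.1]
    refine psh_mem_CH f (A := e.symm '' V ∩ Sᶜ) (B := {0}ᶜ) (fun m hm h => hm.2 ?_) h6
    exact (hS m (h3 m hm.1).1).2 ((smul_eq_zero.1 h).resolve_left hδ.ne')
  have h6 : psh R (fun m => e.symm (x, (ρ / (C + 1)) • (e m).2)) c =
      psh R (fun w => e.symm (x, w)) (psh R f c) :=
    (psh_psh (fun w => e.symm (x, w)) hf hc.1).symm
  rw [h6] at h2
  refine ⟨fun hk => ?_, fun _ => ⟨_, Submodule.subset_span ⟨e, he, x, ρ,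
    fun w h => ⟨hVe (hw w h), _, hw w h, rfl⟩, _, h4, h5, rfl⟩, b, hbW, h2⟩⟩
  obtain ⟨b', hb', h7⟩ := LABase_ball B hρ hk.ne h4 h5
  have hι : ContinuousOn (fun w : Q => e.symm (x, w)) (ball (0 : Q) ρ) :=
    e.continuousOn_symm.comp (by fun_prop) fun w h => hVe (hw w h)
  have h8 : psh R f c - dT R Q b' ∈ CH R (ball (0 : Q) ρ ∩ {0}ᶜ) := by
    rw [CH_inter]
    exact ⟨sub_mem h4.1 (dT_mem_CH hb'), h7⟩
  have h9 : psh R (fun w => e.symm (x, w)) (psh R f c - dT R Q b') ∈ CH R Sᶜ :=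
    psh_mem_CH _ (fun w h => (hT _ (hw w h.1)).2 h.2) h8
  rw [map_sub, ← dT_psh hι hb'] at h9
  refine ⟨b + psh R (fun w => e.symm (x, w)) b', add_mem hbW
    (psh_mem_CH _ (B := e.symm '' V) (fun w h => ⟨_, hw w h, rfl⟩) hb'), ?_⟩
  have h10 : c - dT R M (b + psh R (fun w => e.symm (x, w)) b') =
      c - psh R (fun w => e.symm (x, w)) (psh R f c) - dT R M b +
        (psh R (fun w => e.symm (x, w)) (psh R f c) -
          dT R M (psh R (fun w => e.symm (x, w)) b')) := by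
    rw [map_add]
    abel
  rw [h10]
  exact add_mem h2 h9

end Pool.Agent.MP_bc14e1_gt
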