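import Pool.Agent.MP_bc14e1_gt.IfT

open Set Metric
open scoped Classical

namespace Pool.Agent.MP_bc14e1_gt

theorem LAMV_split {R : Type} [CommRing R] {M : Type} [TopologicalSpace M] {T A B : Set M}
    (hA : IsOpen A) (hB : IsOpen B) {k : ℕ}
    (hlow : ∀ j, k = j + 1 → ∀ y ∈ CC R (A ∩ B) j, dT R M y ∈ CH R T →
      ∃ b ∈ CH R (A ∩ B), y - dT R M b ∈ CH R T)
    {c : Tot R M} (hc : c ∈ CC R (A ∪ B) k) (hd : dT R M c ∈ CH R T) :
    ∃ c₁ ∈ CC R A k, ∃ c₂ ∈ CC R B k, dT R M c₁ ∈ CH R T ∧ dT R M c₂ ∈ CH R T ∧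
      ∃ e ∈ CH R (A ∪ B), c - c₁ - c₂ - dT R M e ∈ CH R T := by
  obtain ⟨m, hm⟩ := sdT_small_two hA hB hc.1
  obtain ⟨u, hu, v, hv, huv⟩ := Submodule.mem_sup.1 (hm m le_rfl)
  have h1 : deg R M k u ∈ CC R A k := ⟨deg_mem_CH k hu, deg_mem k u⟩
  have h2 : deg R M k v ∈ CC R B k := ⟨deg_mem_CH k hv, deg_mem k v⟩
  have hs : deg R M k u + deg R M k v = (sdT R M ^ m) c := by
    rw [← map_add, huv, deg_of_mem (sdT_pow_mem_DG m hc.2)]
  generalize deg R M k u = c₁ at h1 hs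
  generalize deg R M k v = c₂ at h2 hs
  have he : c - c₁ - c₂ - dT R M (sdHP R M m c) ∈ CH R T := by
    have : c - c₁ - c₂ - dT R M (sdHP R M m c) = sdHP R M m (dT R M c) := by
      have := dT_sdHP m c
      rw [← hs] at this
      rw [sub_sub c c₁ c₂, ← this]; abel
    rw [this]
    exact sdHP_mem_CH m hd
  have hdd : dT R M c₁ + dT R M c₂ ∈ CH R T := by
    rw [← map_add, hs, dT_sdT_pow]
    exact sdT_pow_mem_CH m hd
  rcases k with _ | j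
  · refine ⟨c₁, h1, c₂, h2, ?_, ?_, _, sdHP_mem_CH m hc.1, he⟩
    · rw [dT_of_DG_zero h1.2]; exact zero_mem _
    · rw [dT_of_DG_zero h2.2]; exact zero_mem _
  · have hy2 : dT R M c₁ - prj R T (dT R M c₁) = -(dT R M c₂ - prj R T (dT R M c₂)) := by
      have := prj_of_mem hdd
      rw [map_add] at this
      rw [eq_neg_iff_add_eq_zero, ← sub_eq_zero.2 this.symm]; abel
    have hyA : dT R M c₁ - prj R T (dT R M c₁) ∈ CH R A :=
      sub_mem (dT_mem_CH h1.1) (prj_mem_CH T (dT_mem_CH h1.1))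
    have hyB : dT R M c₁ - prj R T (dT R M c₁) ∈ CH R B := by
      rw [hy2]
      exact neg_mem (sub_mem (dT_mem_CH h2.1) (prj_mem_CH T (dT_mem_CH h2.1)))
    have hyD : dT R M c₁ - prj R T (dT R M c₁) ∈ DG R M j :=
      sub_mem (dT_mem_DG h1.2) (prj_mem_DG T (dT_mem_DG h1.2))
    obtain ⟨b, hb, hyb⟩ := hlow j rfl _ ⟨by rw [CH_inter]; exact ⟨hyA, hyB⟩, hyD⟩ (by
      rw [map_sub, dT_dT, zero_sub]
      exact neg_mem (dT_mem_CH (prj_mem T _)))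
    have hyb' := deg_mem_CH j hyb
    rw [map_sub, deg_of_mem hyD, deg_dT] at hyb'
    have hb' := deg_mem_CH (j + 1) hb
    have hbD := deg_mem (j + 1) b
    rw [CH_inter] at hb'
    generalize deg R M (j + 1) b = b' at hyb' hb' hbD
    have h3 : dT R M (c₁ - b') ∈ CH R T := by
      have : dT R M (c₁ - b') =
          (dT R M c₁ - prj R T (dT R M c₁) - dT R M b') + prj R T (dT R M c₁) := by
        rw [map_sub]; abel
      rw [this]
      exact add_mem hyb' (prj_mem T _)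
    refine ⟨c₁ - b', sub_mem h1 ⟨hb'.1, hbD⟩, c₂ + b', add_mem h2 ⟨hb'.2, hbD⟩, h3, ?_,
      _, sdHP_mem_CH m hc.1, ?_⟩
    · have : dT R M (c₂ + b') = (dT R M c₁ + dT R M c₂) - dT R M (c₁ - b') := by
        rw [map_sub, map_add]; abel
      rw [this]
      exact sub_mem hdd h3
    · have : c - (c₁ - b') - (c₂ + b') - dT R M (sdHP R M m c) =
          c - c₁ - c₂ - dT R M (sdHP R M m c) := by abel
      rw [this]
      exact he

theorem LAMV_mono {R : Type} [CommRing R] {M P Q : Type} [TopologicalSpace M]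
    [NormedAddCommGroup P] [NormedAddCommGroup Q] (𝒜 : Set (OpenPartialHomeomorph M (P × Q)))
    (k : ℕ) {W W' : Set M} (h : W ⊆ W') :
    Submodule.span R {y | ∃ e ∈ 𝒜, ∃ (x : P) (ρ : ℝ),
        (∀ w ∈ ball (0 : Q) ρ, (x, w) ∈ e.target ∧ e.symm (x, w) ∈ W) ∧
        ∃ c₀ ∈ CC R (ball (0 : Q) ρ) k, dT R Q c₀ ∈ CH R ({0}ᶜ : Set Q) ∧
          y = psh R (fun w => e.symm (x, w)) c₀} ≤
      Submodule.span R {y | ∃ e ∈ 𝒜, ∃ (x : P) (ρ : ℝ),
        (∀ w ∈ ball (0 : Q) ρ, (x, w) ∈ e.target ∧ e.symm (x, w) ∈ W') ∧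
        ∃ c₀ ∈ CC R (ball (0 : Q) ρ) k, dT R Q c₀ ∈ CH R ({0}ᶜ : Set Q) ∧
          y = psh R (fun w => e.symm (x, w)) c₀} := by
  apply Submodule.span_mono
  rintro y ⟨e, he, x, ρ, hw, hc⟩
  exact ⟨e, he, x, ρ, fun w hw' => ⟨(hw w hw').1, h (hw w hw').2⟩, hc⟩

theorem laMV_stmt (B : Bas1) : LAMVStmt := by
  intro R _ M P Q _ _ _ _ S 𝒜
  refine ⟨fun W hW k c hc _ => ⟨fun _ => ⟨0, zero_mem _, ?_⟩,
    fun _ => ⟨0, zero_mem _, 0, zero_mem _, ?_⟩⟩, ?_, ?_⟩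
  · rw [map_zero, sub_zero]; exact CH_mono hW hc.1
  · rw [map_zero, sub_zero, sub_zero]; exact CH_mono hW hc.1
  · intro U V hU hV lU lV lUV k c hc hd
    have key : k ≤ Module.finrank ℝ Q → ∃ c₁ ∈ CC R U k, ∃ c₂ ∈ CC R V k,
        dT R M c₁ ∈ CH R Sᶜ ∧ dT R M c₂ ∈ CH R Sᶜ ∧
        ∃ e ∈ CH R (U ∪ V), c - c₁ - c₂ - dT R M e ∈ CH R Sᶜ := fun hk =>
      LAMV_split hU hV (fun j hj y hy hdy => (lUV j y hy hdy).1 (by omega)) hc hd
    refine ⟨fun hk => ?_, fun hk => ?_⟩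
    · obtain ⟨c₁, h1, c₂, h2, d1, d2, e, he, hce⟩ := key hk.le
      obtain ⟨b₁, hb₁, g1⟩ := (lU k c₁ h1 d1).1 hk
      obtain ⟨b₂, hb₂, g2⟩ := (lV k c₂ h2 d2).1 hk
      refine ⟨e + b₁ + b₂, add_mem (add_mem he (CH_mono subset_union_left hb₁))
        (CH_mono subset_union_right hb₂), ?_⟩
      have : c - dT R M (e + b₁ + b₂) =
          (c - c₁ - c₂ - dT R M e) + (c₁ - dT R M b₁) + (c₂ - dT R M b₂) := by
        rw [map_add, map_add]; abel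
      rw [this]
      exact add_mem (add_mem hce g1) g2
    · obtain ⟨c₁, h1, c₂, h2, d1, d2, e, he, hce⟩ := key hk.le
      obtain ⟨a₁, ha₁, b₁, hb₁, g1⟩ := (lU k c₁ h1 d1).2 hk
      obtain ⟨a₂, ha₂, b₂, hb₂, g2⟩ := (lV k c₂ h2 d2).2 hk
      refine ⟨a₁ + a₂, add_mem (LAMV_mono 𝒜 k subset_union_left ha₁)
        (LAMV_mono 𝒜 k subset_union_right ha₂), e + b₁ + b₂,
        add_mem (add_mem he (CH_mono subset_union_left hb₁))
        (CH_mono subset_union_right hb₂), ?_⟩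
      have : c - (a₁ + a₂) - dT R M (e + b₁ + b₂) =
          (c - c₁ - c₂ - dT R M e) + (c₁ - a₁ - dT R M b₁) + (c₂ - a₂ - dT R M b₂) := by
        rw [map_add, map_add]; abel
      rw [this]
      exact add_mem (add_mem hce g1) g2
  · intro ι _ U hU hdir l k c hc hd
    obtain ⟨i, hi⟩ := exists_CH_of_directed hU hdir hc.1
    obtain ⟨l1, l2⟩ := l i k c ⟨hi, hc.2⟩ hd
    refine ⟨fun hk => ?_, fun hk => ?_⟩
    · obtain ⟨b, hb, g⟩ := l1 hk
      exact ⟨b, CH_mono (subset_iUnion U i) hb, g⟩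
    · obtain ⟨a, ha, b, hb, g⟩ := l2 hk
      exact ⟨a, LAMV_mono 𝒜 k (subset_iUnion U i) ha, b, CH_mono (subset_iUnion U i) hb, g⟩

end Pool.Agent.MP_bc14e1_gt
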