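import Pool.Agent.MP_bc14e1_gt.If

open Set Metric
open scoped Classical

namespace Pool.Agent.MP_bc14e1_gt

open LaurentPolynomial in
theorem Laur_cj_T (n : ℤ) : cj (T n) = T (-n) := by
  have h : AddMonoidAlgebra.mapRingHom ℤ (starRingEnd ℂ) (T n : Lam ℂ) = T n := by
    rw [T, AddMonoidAlgebra.mapRingHom_single, map_one]
  rw [cj, RingHom.comp_apply, h]
  exact invert_T n

open LaurentPolynomial in
theorem Laur_cj_C (a : ℂ) : cj (C a) = C (starRingEnd ℂ a) := by
  have h : AddMonoidAlgebra.mapRingHom ℤ (starRingEnd ℂ) (C a : Lam ℂ) =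
      C (starRingEnd ℂ a) := by
    rw [← single_eq_C, ← single_eq_C, AddMonoidAlgebra.mapRingHom_single]
  rw [cj, RingHom.comp_apply, h]
  exact invert_C _

open LaurentPolynomial in
theorem Laur_evL_T (η : Circle) (n : ℤ) : evL η (T n) = ((η ^ n : Circle) : ℂ) := by
  rw [evL, T, AddMonoidAlgebra.lift_single, one_smul]
  rfl

open LaurentPolynomial in
theorem Laur_evL_C (η : Circle) (a : ℂ) : evL η (C a) = a := (evL η).commutes a

theorem Laur_evL_cj (η : Circle) (a : Lam ℂ) : evL η (cj a) = starRingEnd ℂ (evL η a) := by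
  induction a using LaurentPolynomial.induction_on' with
  | add p q hp hq => simp only [map_add, hp, hq]
  | C_mul_T n a =>
    simp only [map_mul, Laur_cj_T, Laur_cj_C, Laur_evL_T, Laur_evL_C]
    rw [zpow_neg, Circle.coe_inv_eq_conj]

theorem Laur_evL_pi (η ξ : Circle) : evL ξ (piL η) = ξ - η := by
  rw [piL, map_sub, Laur_evL_T, Laur_evL_C, zpow_one]

open LaurentPolynomial in
theorem Laur_dvd_T (η : Circle) (n : ℤ) : piL η ∣ T n - C ((η ^ n : Circle) : ℂ) := by
  induction n using Int.induction_on with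
  | zero => simp
  | succ n ih =>
    have h : (T (n + 1) - C ((η ^ ((n : ℤ) + 1) : Circle) : ℂ) : Lam ℂ) =
        T n * piL η + C (η : ℂ) * (T n - C ((η ^ (n : ℤ) : Circle) : ℂ)) := by
      rw [T_add, zpow_add_one, Circle.coe_mul, map_mul, piL]
      ring
    rw [h]
    exact dvd_add (dvd_mul_left _ _) (ih.mul_left _)
  | pred n ih =>
    have h1 : (C ((η⁻¹ : Circle) : ℂ) * C (η : ℂ) : Lam ℂ) = 1 := by
      rw [← map_mul, ← Circle.coe_mul, inv_mul_cancel, Circle.coe_one, map_one]
    have h2 : (T (-(n : ℤ) - 1) * T 1 : Lam ℂ) = T (-n) := by rw [← T_add, sub_add_cancel]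
    have h : (T (-(n : ℤ) - 1) - C ((η ^ (-(n : ℤ) - 1) : Circle) : ℂ) : Lam ℂ) =
        C ((η⁻¹ : Circle) : ℂ) * ((T (-n) - C ((η ^ (-(n : ℤ)) : Circle) : ℂ)) -
          T (-(n : ℤ) - 1) * piL η) := by
      rw [zpow_sub_one, Circle.coe_mul, map_mul, piL]
      linear_combination (C ((η⁻¹ : Circle) : ℂ)) * h2 - T (-(n : ℤ) - 1) * h1
    rw [h]
    exact (dvd_sub ih (dvd_mul_left _ _)).mul_left _

theorem Laur_dvd_sub (η : Circle) (a : Lam ℂ) :
    piL η ∣ a - LaurentPolynomial.C (evL η a) := by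
  induction a using LaurentPolynomial.induction_on' with
  | add p q hp hq =>
    rw [map_add, map_add, add_sub_add_comm]
    exact dvd_add hp hq
  | C_mul_T n a =>
    rw [map_mul, map_mul, Laur_evL_T, Laur_evL_C, ← mul_sub]
    exact (Laur_dvd_T η n).mul_left _

theorem Laur_ev_iff (η : Circle) (a : Lam ℂ) : evL η a = 0 ↔ piL η ∣ a := by
  constructor
  · intro h
    simpa [h] using Laur_dvd_sub η a
  · rintro ⟨b, rfl⟩
    rw [map_mul, Laur_evL_pi, sub_self, zero_mul]

theorem Laur_prime (η : Circle) : Prime (piL η) := by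
  refine ⟨fun h => ?_, fun h => ?_, fun a b h => ?_⟩
  · have h1 := Laur_evL_pi η (-η)
    rw [h, map_zero, Circle.coe_neg] at h1
    exact η.coe_ne_zero (by linear_combination h1 / 2)
  · have h1 := h.map (evL η)
    rw [Laur_evL_pi, sub_self] at h1
    exact not_isUnit_zero h1
  · simpa only [← Laur_ev_iff, map_mul, mul_eq_zero] using h

theorem Laur_cont (a : Lam ℂ) : Continuous fun η => evL η a := by
  induction a using LaurentPolynomial.induction_on' with
  | add p q hp hq =>
    simp only [map_add]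
    exact hp.add hq
  | C_mul_T n a =>
    simp only [map_mul, Laur_evL_T, Laur_evL_C]
    exact continuous_const.mul (continuous_subtype_val.comp (continuous_zpow n))

theorem Laur_evL_poly (η : Circle) (p : Polynomial ℂ) :
    evL η (Polynomial.toLaurent p) = p.eval (η : ℂ) := by
  induction p using Polynomial.induction_on' with
  | add p q hp hq => simp only [map_add, hp, hq, Polynomial.eval_add]
  | monomial n a =>
    rw [Polynomial.toLaurent_C_mul_T, map_mul, Laur_evL_T, Laur_evL_C, Polynomial.eval_monomial,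
      zpow_natCast, Circle.coe_pow]

theorem Laur_fin (a : Lam ℂ) (ha : a ≠ 0) : {η | evL η a = 0}.Finite := by
  obtain ⟨n, p, hp⟩ := LaurentPolynomial.exists_T_pow a
  have hp0 : p ≠ 0 := by
    rintro rfl
    rw [map_zero] at hp
    exact ha ((LaurentPolynomial.isUnit_T (n : ℤ)).mul_left_eq_zero.1 hp.symm)
  refine ((p.roots.toFinset.finite_toSet).preimage
    (Circle.coe_injective.injOn)).subset fun η hη => ?_
  have h : evL η a = 0 := hη
  simp only [mem_preimage, Finset.mem_coe, Multiset.mem_toFinset, Polynomial.mem_roots hp0,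
    Polynomial.IsRoot]
  rw [← Laur_evL_poly, hp, map_mul, h, zero_mul]

theorem Laur_sq (η : Circle) (a : Lam ℂ) (bad : Set Circle) (hb : bad.Finite) (hc : cj a = a)
    (h : ∀ ξ ∉ bad, 0 ≤ (evL ξ a).re) (h0 : evL η a = 0) : piL η ^ 2 ∣ a := by
  have : Nontrivial Circle := ⟨⟨1, -1, fun e => by
    have := congrArg (fun z : Circle => (z : ℂ)) e
    norm_num at this⟩⟩
  have hd : Dense badᶜ := by simpa [compl_eq_univ_sdiff] using dense_univ.sdiff_finite hb
  have hall : ∀ ξ, 0 ≤ (evL ξ a).re := fun ξ =>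
    (isClosed_le continuous_const (Complex.continuous_re.comp (Laur_cont a))).closure_subset_iff.2
      h (hd ξ)
  have him : ∀ ξ, (evL ξ a).im = 0 := fun ξ => by
    rw [← Complex.conj_eq_iff_im, ← Laur_evL_cj, hc]
  obtain ⟨b, rfl⟩ := (Laur_ev_iff η a).1 h0
  rw [pow_two]
  refine mul_dvd_mul_left _ ((Laur_ev_iff η b).1 ?_)
  have h1 : HasDerivAt (fun s : ℝ => ((η * Circle.exp s : Circle) : ℂ) - η)
      (η * Complex.I) 0 := by
    simp only [Circle.coe_mul, Circle.coe_exp]
    have := (((hasDerivAt_id (0 : ℝ)).ofReal_comp.mul_const Complex.I).cexp.const_mul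
      (η : ℂ)).sub_const (η : ℂ)
    simpa using this
  have h2 : Continuous fun s : ℝ => evL (η * Circle.exp s) b :=
    (Laur_cont b).comp (continuous_const.mul Circle.exp.continuous)
  have h3 : HasDerivAt (fun s : ℝ => evL (η * Circle.exp s) (piL η * b))
      (η * Complex.I * evL η b) 0 := by
    rw [hasDerivAt_iff_tendsto_slope_zero] at h1 ⊢
    have h4 := h1.mul ((h2.tendsto 0).mono_left nhdsWithin_le_nhds)
    simp only [Circle.exp_zero, mul_one, sub_self, sub_zero, zero_add] at h4
    simpa only [map_mul, Laur_evL_pi, Circle.exp_zero, mul_one, sub_self, zero_mul, sub_zero,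
      zero_add, smul_mul_assoc] using h4
  have h5 := Complex.reCLM.hasFDerivAt.comp_hasDerivAt (0 : ℝ) h3
  have h6 := Complex.imCLM.hasFDerivAt.comp_hasDerivAt (0 : ℝ) h3
  have h7 : (η * Complex.I * evL η b).re = 0 := by
    refine IsLocalMin.hasDerivAt_eq_zero (Filter.Eventually.of_forall fun s => ?_) h5
    simp only [Function.comp_apply, Complex.reCLM_apply, Circle.exp_zero, mul_one, h0,
      Complex.zero_re]
    exact hall _
  have h8 : (η * Complex.I * evL η b).im = 0 := by
    refine h6.unique ?_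
    have : (Complex.imCLM ∘ fun s : ℝ => evL (η * Circle.exp s) (piL η * b)) = fun _ => 0 :=
      funext fun s => him _
    rw [this]
    exact hasDerivAt_const _ _
  have h9 : η * Complex.I * evL η b = 0 := Complex.ext h7 h8
  exact (mul_eq_zero.1 h9).resolve_left (mul_ne_zero η.coe_ne_zero Complex.I_ne_zero)

theorem laur_stmt : LaurStmt := by
  refine ⟨?_, fun R _ _ => ?_, fun a => ?_, Laur_cj_T, Laur_cj_C, Laur_evL_T, Laur_evL_C,
    Laur_evL_cj, Laur_ev_iff, Laur_prime, fun η => ?_, Laur_cont, Laur_fin, Laur_sq⟩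
  · refine ⟨fun I => ?_⟩
    rw [← IsLocalization.map_under (Submonoid.powers (Polynomial.X : Polynomial ℂ)) (Lam ℂ) I]
    obtain ⟨g, hg⟩ := (IsPrincipalIdealRing.principal (I.under (Polynomial ℂ))).principal
    rw [hg, Ideal.submodule_span_eq, Ideal.map_span, image_singleton]
    exact ⟨_, rfl⟩
  · exact IsLocalization.isNoetherianRing (Submonoid.powers (Polynomial.X : Polynomial R)) _
      inferInstance
  · induction a using LaurentPolynomial.induction_on' with
    | add p q hp hq => simp only [map_add, hp, hq]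
    | C_mul_T n a => simp only [map_mul, Laur_cj_T, Laur_cj_C, neg_neg, Complex.conj_conj]
  · have h1 : (LaurentPolynomial.C ((η⁻¹ : Circle) : ℂ) * LaurentPolynomial.C (η : ℂ) : Lam ℂ) =
        1 := by
      rw [← map_mul, ← Circle.coe_mul, inv_mul_cancel, Circle.coe_one, map_one]
    have h2 : (LaurentPolynomial.T (-1) * LaurentPolynomial.T 1 : Lam ℂ) = 1 := by
      rw [← LaurentPolynomial.T_add, neg_add_cancel, LaurentPolynomial.T_zero]
    rw [piL, map_sub, Laur_cj_T, Laur_cj_C, ← Circle.coe_inv_eq_conj]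
    linear_combination (LaurentPolynomial.C ((η⁻¹ : Circle) : ℂ)) * h2 -
      LaurentPolynomial.T (-1) * h1

end Pool.Agent.MP_bc14e1_gt
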