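import Pool.Agent.MP_bc14e1_gt.IfT
import Pool.Agent.MP_bc14e1_gt.Ind

open Set Metric
open scoped Classical

namespace Pool.Agent.MP_bc14e1_gt

theorem LemA_chart (hLABase : LABaseStmt) (hLAMV : LAMVStmt) (R : Type) [CommRing R]
    (M P Q : Type) [TopologicalSpace M] [NormedAddCommGroup P] [NormedSpace ℝ P]
    [NormedAddCommGroup Q] [NormedSpace ℝ Q] [FiniteDimensional ℝ Q] (S : Set M)
    (𝒜 : Set (OpenPartialHomeomorph M (P × Q))) (e : OpenPartialHomeomorph M (P × Q))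
    (he : e ∈ 𝒜) (hS : ∀ x ∈ e.source, x ∈ S ↔ (e x).2 = 0) {U : Set M} (hU : IsOpen U)
    (hUe : U ⊆ e.source) : LA R S 𝒜 U := by
  obtain ⟨-, hMV, hD⟩ := hLAMV R M P Q S 𝒜
  have hop : ∀ V, IsOpen V → V ⊆ e.target → IsOpen (e.symm '' V) := fun V hV hVT =>
    e.symm.isOpen_image_of_subset_source hV hVT
  have key : LA R S 𝒜 (e.symm '' (e '' U)) := by
    refine ind_convex (T := e.target) (P := fun V => LA R S 𝒜 (e.symm '' V))
      (fun C h1 h2 h3 h4 => hLABase R M P Q S 𝒜 e he hS C h1 h2 h3 h4) ?_ ?_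
      (e.isOpen_image_of_subset_source hU hUe) ?_
    · intro A B hA hB hAT hBT h1 h2 h3
      rw [image_union]
      refine hMV _ _ (hop A hA hAT) (hop B hB hBT) h1 h2 ?_
      rw [← e.symm.injOn.image_inter hAT hBT]
      exact h3
    · intro ι _ V hV hVT hd h1
      rw [image_iUnion]
      refine hD ι _ (fun i => hop _ (hV i) (hVT i)) (fun i j => ?_) h1
      obtain ⟨k, hi, hj⟩ := hd i j
      exact ⟨k, image_mono hi, image_mono hj⟩
    · rintro _ ⟨x, hx, rfl⟩
      exact e.map_source (hUe hx)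
  have e₀ : e.symm '' (e '' U) = U := e.symm_image_image_of_subset_source hUe
  rwa [e₀] at key

theorem lemA_stmt (hLABase : LABaseStmt) (hLAMV : LAMVStmt) : LemAStmt := by
  intro R _ M P Q _ _ _ _ _ _ S 𝒜 hS hflat hcov W hW
  obtain ⟨h0, hMV, hD⟩ := hLAMV R M P Q S 𝒜
  have key : LA R S 𝒜 W := by
    refine ind_cover (Q := IsOpen) (P := LA R S 𝒜) (fun A B => IsOpen.union)
      (fun A B => IsOpen.inter) isOpen_empty (h0 _ (empty_subset _)) (ι := Option 𝒜)
      (T := fun i => i.elim Sᶜ fun e => e.1.source) ?_ ?_ hMV hD hW ?_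
    · rintro (_ | e)
      · exact hS.isOpen_compl
      · exact e.1.open_source
    · rintro (_ | e) U hU hUT
      · exact h0 U hUT
      · exact LemA_chart hLABase hLAMV R M P Q S 𝒜 e.1 e.2 (hflat e.1 e.2) hU hUT
    · intro x _
      by_cases hx : x ∈ S
      · obtain ⟨e, he, hxe⟩ := hcov x hx
        exact mem_iUnion.2 ⟨some ⟨e, he⟩, hxe⟩
      · exact mem_iUnion.2 ⟨none, hx⟩
  exact key

end Pool.Agent.MP_bc14e1_gt
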