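import Pool.Agent.MP_bc14e1_gt.P.Len1A

open Set Metric
open scoped Classical

namespace Pool.Agent.MP_bc14e1_gt

noncomputable section

theorem Len1_cj_C (a : ℂ) :
    cj (LaurentPolynomial.C a) = LaurentPolynomial.C (starRingEnd ℂ a) := by
  have e : AddMonoidAlgebra.mapRingHom ℤ (starRingEnd ℂ) (LaurentPolynomial.C a) =
      LaurentPolynomial.C (starRingEnd ℂ a) := AddMonoidAlgebra.mapRingHom_single _ _ _
  exact (congrArg (LaurentPolynomial.invert (R := ℂ)) e).trans (LaurentPolynomial.invert_C _)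

section Top

variable {G Y A Reg Cr : Type} [Group G] [TopologicalSpace Y] [MulAction G Y]
  [ContinuousConstSMul G Y] [AddCommGroup A] [Fintype A]

variable (Y) in
/-- The projector on singular chains. -/
def Len1_E (ψ : AddChar A ℂ) (k : A → G) : Module.End ℂ (Tot ℂ Y) :=
  Len1_avg ψ fun b => gs ℂ Y (k b)

variable {ψ : AddChar A ℂ} {k : A → G} {t s : G} {c : G → ℂ} {nu : G → ℤ}

theorem Len1_E_gs (hs : ∀ g, g * s = s * g) (v : Tot ℂ Y) :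
    Len1_E Y ψ k (gs ℂ Y s v) = gs ℂ Y s (Len1_E Y ψ k v) :=
  (Len1_avg_map ψ _ _ (gs ℂ Y s) (fun b v => by rw [← gs_mul, ← gs_mul, hs]) v).symm

theorem Len1_dT_E (v : Tot ℂ Y) : dT ℂ Y (Len1_E Y ψ k v) = Len1_E Y ψ k (dT ℂ Y v) :=
  Len1_avg_map ψ _ _ (dT ℂ Y) (fun _ v => dT_gs _ v) v

omit [ContinuousConstSMul G Y] in
theorem Len1_E_CC {O : Set Y} (hO : ∀ (g : G), ∀ y ∈ O, g • y ∈ O) {n : ℕ} {v : Tot ℂ Y}
    (hv : v ∈ CC ℂ O n) : Len1_E Y ψ k v ∈ CC ℂ O n :=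
  Len1_avg_mem ψ (fun b => gs ℂ Y (k b)) (CC ℂ O n)
    (fun _ _ h => ⟨gs_mem_CH _ (hO _) h.1, gs_mem_DG _ h.2⟩) hv

theorem Len1_E_BC {O : Set Y} (hO : ∀ (g : G), ∀ y ∈ O, g • y ∈ O) {n : ℕ} {v : Tot ℂ Y}
    (hv : v ∈ BC ℂ O n) : Len1_E Y ψ k v ∈ BC ℂ O n := by
  obtain ⟨b, hb, rfl⟩ := hv
  exact ⟨_, Len1_E_CC hO hb, Len1_dT_E b⟩

theorem Len1_adj (hk : ∀ a b, k (a + b) = k a * k b) {lam : Tot ℂ Y → Tot ℂ Y → Lam ℂ}
    (hl : Sesq (C := Tw ℂ Y s) lam)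
    (hlam : ∀ a u v, lam (gs ℂ Y (k a) u) (gs ℂ Y (k a) v) = lam u v) (u v : Tot ℂ Y) :
    lam (Len1_E Y ψ k u) v = lam u (Len1_E Y ψ k v) := by
  have h1 : ∀ (a : ℂ) (u v : Tot ℂ Y), lam (a • u) v = LaurentPolynomial.C a * lam u v :=
    fun a u v => (congrArg (fun x => lam x v) (act_C s a u)).symm.trans (hl.smul_left _ u v)
  have h2 : ∀ (a : ℂ) (u v : Tot ℂ Y),
      lam u (a • v) = LaurentPolynomial.C (starRingEnd ℂ a) * lam u v := fun a u v =>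
    ((congrArg (lam u) (act_C s a v)).symm.trans (hl.smul_right _ u v)).trans (by rw [Len1_cj_C])
  have h3 : ∀ F : A → Tot ℂ Y, lam (∑ b, F b) v = ∑ b, lam (F b) v := fun F =>
    map_sum (AddMonoidHom.mk' (fun x : Tot ℂ Y => lam x v) fun x y => hl.add_left x y v) F _
  have h4 : ∀ F : A → Tot ℂ Y, lam u (∑ b, F b) = ∑ b, lam u (F b) := fun F =>
    map_sum (AddMonoidHom.mk' (fun x : Tot ℂ Y => lam u x) fun x y => hl.add_right u x y) F _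
  have k0 : k 0 = 1 := by
    have := hk 0 0
    rw [add_zero] at this
    exact left_eq_mul.1 this
  rw [Len1_E, Len1_avg_apply, Len1_avg_apply, h3, h4]
  refine Fintype.sum_equiv (Equiv.neg A) _ _ fun b => ?_
  have e : lam (gs ℂ Y (k b) u) v = lam u (gs ℂ Y (k (-b)) v) := by
    rw [← hlam b u, ← gs_mul, ← hk, add_neg_cancel, k0, gs_one]
  rw [h1, h2, e, Equiv.neg_apply, neg_neg, map_mul (starRingEnd ℂ), ← AddChar.map_neg_eq_conj,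
    map_inv₀, map_natCast]

theorem Len1_proj (hk : ∀ a b, k (a + b) = k a * k b) (hs : ∀ g, g * s = s * g) {f : Y → ℝ}
    (hf : ∀ y, f (s • y) = f y) (hG : ∀ (g : G) y, f (g • y) = f y)
    {lam : Tot ℂ Y → Tot ℂ Y → Lam ℂ} (hl : Sesq (C := Tw ℂ Y s) lam)
    (hlam : ∀ a u v, lam (gs ℂ Y (k a) u) (gs ℂ Y (k a) v) = lam u v) :
    Proj (dTw ℂ Y s) (lvTw ℂ s f hf) lam (twMap (Len1_E Y ψ k) (Len1_E_gs hs)) where
  ee v := Len1_avg_avg ψ (fun b => gs ℂ Y (k b)) (fun a b v => by rw [hk, gs_mul]) v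
  ed v := (Len1_dT_E v).symm
  mem n J _ hv := Len1_E_CC (O := f ⁻¹' J) (n := n)
    (fun g y hy => by rw [mem_preimage, hG]; exact hy) hv
  adj u v := Len1_adj hk hl hlam u v

variable {O : Set Y} {reg : Cr → Fin 4 → Reg} {h : Reg → G} {l : Reg → Tot ℤ Y} {yn ys : Y}
  {gap : Reg → ℤ} {w : Reg → ℤ → ℂ} {m : ℤ}

/-- The comparison map from the twisted complex to singular chains. -/
structure Len1_Phi (O : Set Y) (reg : Cr → Fin 4 → Reg) (gap : Reg → ℤ) (w : Reg → ℤ → ℂ) (m : ℤ)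
    (s : G) (E : Module.End ℂ (Tot ℂ Y)) (Φ : ((Reg × ℤ) →₀ ℂ) →ₗ[ℂ] Tot ℂ Y) : Prop where
  cyc : ∀ y, d1T gap w y = 0 → Φ y ∈ ZC ℂ O 1
  ex : ∀ y, E (Φ y) = Φ y
  inj : ∀ y, d1T gap w y = 0 → (Φ y ∈ BC ℂ O 1 ↔ y ∈ LinearMap.range (d2T reg gap w))
  gen : ∀ z ∈ ZC ℂ O 1, E z = z → ∃ y, d1T gap w y = 0 ∧ z - Φ y ∈ BC ℂ O 1
  sh : ∀ y, Φ (shT Reg m y) = gs ℂ Y s (Φ y)
  sh1 : ∀ y, d1T gap w y = 0 → d1T gap w (shT Reg m y) = 0

theorem Len1_phi (H : Len1_H ψ k t c nu) (D : DehnMap O reg h l yn ys)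
    (hO : ∀ (g : G), ∀ y ∈ O, g • y ∈ O) (hc : ∀ g r, c (g * h r) = c g * w r (nu g))
    (hn : ∀ g r, nu (g * h r) = nu g + gap r) (hw : ∀ r n, w r n ≠ 0) (hs : ∀ g, g * s = s * g)
    (hcs : ∀ g, c (s * g) = c g) (hns : ∀ g, nu (s * g) = nu g + m) :
    Len1_Phi O reg gap w m s (Len1_E Y ψ k) (ellC ℂ l ∘ₗ Len1_io Reg ψ k t) := by
  have d1 : ∀ y, d1A ℂ h (Len1_io Reg ψ k t y) = Len1_io Bool ψ k t (d1T gap w y) :=
    H.io_map _ _ (fun b => Len1_d1A_L h _) (Len1_Psi_d1 hc hn)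
  have d2 : ∀ y, d2A ℂ reg h (Len1_io Cr ψ k t y) = Len1_io Reg ψ k t (d2T reg gap w y) :=
    H.io_map _ _ (fun b => Len1_d2A_L reg h _) (Len1_Psi_d2 reg hc hn hw)
  have d3 : ∀ y, Len1_L Reg s (Len1_io Reg ψ k t y) = Len1_io Reg ψ k t (shT Reg m y) :=
    H.io_map _ _ (fun b v => by rw [← Len1_L_mul, ← Len1_L_mul, hs]) (Len1_Psi_L hcs hns)
  have d0 : ∀ y, d1T gap w y = 0 → d1A ℂ h (Len1_io Reg ψ k t y) = 0 := fun y hy => by
    rw [d1, hy, map_zero]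
  have eE : ∀ v, ellC ℂ l (Len1_eA Reg ψ k v) = Len1_E Y ψ k (ellC ℂ l v) :=
    Len1_avg_map ψ _ _ (ellC ℂ l) fun b => Len1_ellC_L l _
  refine ⟨fun y hy => D.ellC_mem Subset.rfl hO (d0 y hy), fun y => ?_, fun y hy => ?_,
    fun z hz hE => ?_, fun y => ?_, fun y hy => ?_⟩
  · rw [LinearMap.comp_apply, ← eE, H.eA_io]
  · rw [LinearMap.comp_apply, D.inj ℂ _ (d0 y hy)]
    constructor
    · rintro ⟨u, hu⟩
      exact ⟨Len1_Psi Cr c nu u, by rw [← Len1_Psi_d2 reg hc hn hw, hu, H.Psi_io]⟩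
    · rintro ⟨u, rfl⟩
      exact ⟨_, d2 u⟩
  · obtain ⟨u, hu, hb⟩ := D.gen ℂ z hz
    refine ⟨Len1_Psi Reg c nu u, by rw [← Len1_Psi_d1 hc hn, hu, map_zero], ?_⟩
    have := Len1_E_BC (ψ := ψ) (k := k) hO hb
    rwa [map_sub, hE, ← eE, ← H.io_Psi] at this
  · rw [LinearMap.comp_apply, LinearMap.comp_apply, ← d3, Len1_ellC_L]
  · rw [← H.Psi_io (shT Reg m y), ← Len1_Psi_d1 hc hn, ← d3, Len1_d1A_L, d0 y hy, map_zero,
      map_zero]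

theorem Len1_act_piL (ζ : Circle) (v : Tot ℂ Y) :
    act ℂ Y s (piL ζ) v = gs ℂ Y s v - (ζ : ℂ) • v := by
  rw [piL, map_sub, LinearMap.sub_apply, act_T, act_C, zpow_one]

theorem Len1_act_BC (hO : ∀ (g : G), ∀ y ∈ O, g • y ∈ O) (a : Lam ℂ) {n : ℕ} {v : Tot ℂ Y}
    (hv : v ∈ BC ℂ O n) : act ℂ Y s a v ∈ BC ℂ O n := by
  refine act_mem (fun i v hv => ?_) a hv
  obtain ⟨b, hb, rfl⟩ := hv
  exact ⟨_, ⟨gs_mem_CH _ (hO _) hb.1, gs_mem_DG _ hb.2⟩, dT_gs _ b⟩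

variable {E : Module.End ℂ (Tot ℂ Y)} {Φ : ((Reg × ℤ) →₀ ℂ) →ₗ[ℂ] Tot ℂ Y}

theorem Len1_Phi.pi (P : Len1_Phi O reg gap w m s E Φ) (ζ : Circle) (y : (Reg × ℤ) →₀ ℂ) :
    Φ (piT Reg m ζ y) = act ℂ Y s (piL ζ) (Φ y) := by
  rw [Len1_act_piL, piT, LinearMap.sub_apply, map_sub, P.sh, LinearMap.smul_apply,
    Module.End.one_apply, map_smul]

omit [ContinuousConstSMul G Y] in
theorem Len1_Phi.pi1 (P : Len1_Phi O reg gap w m s E Φ) (ζ : ℂ) {y : (Reg × ℤ) →₀ ℂ}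
    (hy : d1T gap w y = 0) : d1T gap w (piT Reg m ζ y) = 0 := by
  rw [piT, LinearMap.sub_apply, map_sub, P.sh1 y hy, LinearMap.smul_apply, Module.End.one_apply,
    map_smul, hy, smul_zero, sub_zero]

theorem Len1_Phi.pow (P : Len1_Phi O reg gap w m s E Φ) (ζ : Circle) (n : ℕ)
    {y : (Reg × ℤ) →₀ ℂ} (hy : d1T gap w y = 0) :
    d1T gap w ((piT Reg m ζ ^ n) y) = 0 ∧
      Φ ((piT Reg m ζ ^ n) y) = act ℂ Y s (piL ζ ^ n) (Φ y) := by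
  induction n with
  | zero => rw [pow_zero, pow_zero, map_one]; exact ⟨hy, rfl⟩
  | succ n ih =>
    rw [pow_succ', pow_succ', map_mul, Module.End.mul_apply, Module.End.mul_apply, P.pi, ih.2]
    exact ⟨P.pi1 _ ih.1, rfl⟩

theorem Len1_Phi.prim (P : Len1_Phi O reg gap w m s E Φ) (hO : ∀ (g : G), ∀ y ∈ O, g • y ∈ O)
    {ζ : Circle} {x : (Reg × ℤ) →₀ ℂ} (L : Len1T reg gap w m ζ x) {y : Tot ℂ Y}
    (hy : y ∈ ZC ℂ O 1) (hE : E y = y) (n : ℕ) (hn : act ℂ Y s (piL ζ ^ n) y ∈ BC ℂ O 1) :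
    ∃ μ : ℂ, y - act ℂ Y s (LaurentPolynomial.C μ) (Φ x) ∈ BC ℂ O 1 := by
  obtain ⟨u, hu, hb⟩ := P.gen y hy hE
  have h1 := sub_mem hn (Len1_act_BC (s := s) hO (piL ζ ^ n) hb)
  rw [map_sub, sub_sub_cancel, ← (P.pow ζ n hu).2, P.inj _ (P.pow ζ n hu).1] at h1
  obtain ⟨μ, hμ⟩ := L.prim u hu n h1
  have h2 := (P.inj _ (by rw [map_sub, map_smul, hu, L.cyc, smul_zero, sub_zero])).2 hμ
  refine ⟨μ, ?_⟩
  have h3 := add_mem hb h2
  rwa [map_sub, map_smul, sub_add_sub_cancel, ← act_C s] at h3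

theorem Len1_Phi.top (P : Len1_Phi O reg gap w m s E Φ) {ζ : Circle} {x : (Reg × ℤ) →₀ ℂ}
    (L : Len1T reg gap w m ζ x) {y : Tot ℂ Y} (hy : y ∈ ZC ℂ O 1) (hE : E y = y) :
    ∃ μ : ℂ, ∃ y' ∈ ZC ℂ O 1, y - act ℂ Y s (LaurentPolynomial.C μ) (Φ x) -
      act ℂ Y s (piL ζ) y' ∈ BC ℂ O 1 := by
  obtain ⟨u, hu, hb⟩ := P.gen y hy hE
  obtain ⟨μ, u', hu', hμ⟩ := L.top u hu
  have h2 := (P.inj _ (by
    rw [map_sub, map_sub, map_smul, hu, L.cyc, P.pi1 _ hu', smul_zero, sub_zero, sub_zero])).2 hμ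
  refine ⟨μ, Φ u', P.cyc u' hu', ?_⟩
  have h3 := add_mem hb h2
  rwa [map_sub, map_sub, map_smul, P.pi, ← add_sub_assoc, sub_add_sub_cancel, ← act_C s] at h3

theorem Len1_Phi.len {f : Y → ℝ} (hf : ∀ y, f (s • y) = f y)
    (P : Len1_Phi (f ⁻¹' Ioo (-1) 1) reg gap w m s E Φ)
    (hO : ∀ (g : G), ∀ y ∈ f ⁻¹' Ioo (-1) 1, g • y ∈ f ⁻¹' Ioo (-1) 1)
    (hE : ∀ v, E (gs ℂ Y s v) = gs ℂ Y s (E v)) {ζ : Circle} {x : (Reg × ℤ) →₀ ℂ}
    (L : Len1T reg gap w m ζ x) :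
    Len1 (dTw ℂ Y s) (lvTw ℂ s f hf) (twMap E hE) ζ (toTw ℂ Y s (Φ x)) where
  cyc := P.cyc x L.cyc
  ex := P.ex x
  tor := by
    have := (P.inj _ (P.pi1 _ L.cyc)).2 L.tor
    rw [P.pi] at this
    exact this
  nz h := L.nz ((P.inj x L.cyc).1 h)
  prim _ hy hE n hn := P.prim hO L hy hE n hn
  top _ hy hE := P.top L hy hE

end Top

theorem len1_stmt : Len1Stmt := by
  intro G Y A Reg Cr _ _ _ _ _ _ f t m hf τ j reg gap a l yn ys ψ lam ζ x D hG hj hτ hg hs hm hl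
    hlam L
  let _ := Fintype.ofFinite A
  obtain ⟨al, nu, h1, h2⟩ := Len1_coord hj hg hm
  have hk : ∀ a b : A, j (Multiplicative.ofAdd (a + b)) =
      j (Multiplicative.ofAdd a) * j (Multiplicative.ofAdd b) := fun a b => by
    rw [ofAdd_add, map_mul]
  have key : ∀ (g : G) (b : A) (n : ℤ), al (g * (j (Multiplicative.ofAdd b) * t ^ n)) =
      al g + (τ ^ nu g) b ∧ nu (g * (j (Multiplicative.ofAdd b) * t ^ n)) = nu g + n := by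
    intro g b n
    have e : g * (j (Multiplicative.ofAdd b) * t ^ n) =
        j (Multiplicative.ofAdd (al g + (τ ^ nu g) b)) * t ^ (nu g + n) := by
      have := Len1_conj (k := fun a => j (Multiplicative.ofAdd a)) hτ (nu g) b
      rw [hk, zpow_add, mul_assoc, ← mul_assoc (j _) (t ^ nu g), ← this, ← mul_assoc, ← mul_assoc,
        ← mul_assoc, ← h1]
    rw [e]
    exact h2 _ _
  have kl : ∀ (b : A) (g : G), al (j (Multiplicative.ofAdd b) * g) = b + al g ∧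
      nu (j (Multiplicative.ofAdd b) * g) = nu g := by
    intro b g
    have e : j (Multiplicative.ofAdd b) * g = j (Multiplicative.ofAdd (b + al g)) * t ^ nu g := by
      rw [hk, mul_assoc, ← h1]
    rw [e]
    exact h2 _ _
  have kt : ∀ n : ℤ, j (Multiplicative.ofAdd (0 : A)) * t ^ n = t ^ n := fun n => by
    rw [ofAdd_zero, map_one, one_mul]
  have H : Len1_H ψ (fun a => j (Multiplicative.ofAdd a)) t (fun g => ψ (al g)) nu :=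
    ⟨hk, fun b g => by rw [(kl b g).1, AddChar.map_add_eq_mul], fun b g => (kl b g).2,
      fun n => by rw [← kt, (h2 _ _).1, AddChar.map_zero_eq_one], fun n => by rw [← kt, (h2 _ _).2],
      fun g => ⟨_, h1 g⟩⟩
  have ks : ∀ g, al (t ^ m * g) = al g ∧ nu (t ^ m * g) = nu g + m := fun g => by
    have := key g 0 m
    rwa [kt, map_zero, add_zero, zpow_natCast, hs] at this
  have hO : ∀ (g : G), ∀ y ∈ f ⁻¹' Ioo (-1) 1, g • y ∈ f ⁻¹' Ioo (-1) 1 := fun g y hy => by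
    rw [mem_preimage, hG]; exact hy
  have P := Len1_phi (w := fun r n => ψ ((τ ^ n) (a r))) (gap := gap) (m := m) H D hO
    (fun g r => by rw [(key _ _ _).1, AddChar.map_add_eq_mul]) (fun g r => (key _ _ _).2)
    (fun r n => (ψ.val_isUnit _).ne_zero) hs (fun g => by rw [(ks g).1]) fun g => (ks g).2
  exact ⟨_, _, Len1_proj hk hs hf hG hl fun b => hlam _, P.len hf hO (Len1_E_gs hs) L⟩

end

end Pool.Agent.MP_bc14e1_gt
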