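import Pool.Agent.MP_bc14e1_gt.If

open Set Metric
open scoped Classical

namespace Pool.Agent.MP_bc14e1_gt

section Aux

variable {G Y Reg Cr : Type} [Group G] [TopologicalSpace Y] [MulAction G Y]
  [ContinuousConstSMul G Y]

/-- Transport along the powers of `t`. -/
noncomputable def Len2_tr (t : G) (A : Type) : ((A × ℤ) →₀ ℂ) →ₗ[ℂ] ((A × G) →₀ ℂ) :=
  Finsupp.lmapDomain ℂ ℂ fun x => (x.1, t ^ x.2)

theorem Len2_tr_single (t : G) {A : Type} (x : A × ℤ) (a : ℂ) :
    Len2_tr t A (Finsupp.single x a) = Finsupp.single (x.1, t ^ x.2) a :=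
  Finsupp.mapDomain_single

theorem Len2_tr_inj {t : G} (ht : ∀ n : ℤ, t ^ n = 1 → n = 0) (A : Type) :
    Function.Injective (Len2_tr t A) := by
  refine Finsupp.mapDomain_injective fun x y h => ?_
  obtain ⟨h1, h2⟩ := Prod.mk.inj h
  refine Prod.ext h1 (sub_eq_zero.1 (ht _ ?_))
  rw [zpow_sub, h2, mul_inv_cancel]

theorem Len2_tr_surj {t : G} (ht : ∀ g : G, ∃ n : ℤ, g = t ^ n) (A : Type) :
    Function.Surjective (Len2_tr t A) := by
  refine Finsupp.mapDomain_surjective fun y => ?_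
  obtain ⟨n, hn⟩ := ht y.2
  exact ⟨(y.1, n), Prod.ext rfl hn.symm⟩

theorem Len2_d1 (t : G) (gap : Reg → ℤ) (x : (Reg × ℤ) →₀ ℂ) :
    d1A ℂ (fun r => t ^ gap r) (Len2_tr t Reg x) =
      Len2_tr t Bool (d1T gap (fun _ _ => 1) x) := by
  induction x using Finsupp.induction_linear with
  | zero => simp
  | add a b ha hb => simp only [map_add, ha, hb]
  | single z a =>
    simp only [Len2_tr_single, d1A, d1T, Finsupp.linearCombination_single, map_smul, map_sub,
      one_smul, zpow_add]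

theorem Len2_d2 (t : G) (reg : Cr → Fin 4 → Reg) (gap : Reg → ℤ) (x : (Cr × ℤ) →₀ ℂ) :
    d2A ℂ reg (fun r => t ^ gap r) (Len2_tr t Cr x) =
      Len2_tr t Reg (d2T reg gap (fun _ _ => 1) x) := by
  induction x using Finsupp.induction_linear with
  | zero => simp
  | add a b ha hb => simp only [map_add, ha, hb]
  | single z a =>
    simp only [Len2_tr_single, d2A, d2T, Finsupp.linearCombination_single, map_smul, map_sub,
      map_add, one_smul, div_one, zpow_add, zpow_sub, add_sub_assoc]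

theorem Len2_dd {reg : Cr → Fin 4 → Reg} {h : Reg → G}
    (hol : ∀ c, h (reg c 0) = h (reg c 1) * (h (reg c 2))⁻¹ * h (reg c 3)) (x : (Cr × G) →₀ ℂ) :
    d1A ℂ h (d2A ℂ reg h x) = 0 := by
  induction x using Finsupp.induction_linear with
  | zero => simp
  | add a b ha hb => simp only [map_add, ha, hb, add_zero]
  | single z a =>
    simp only [d2A, d1A, Finsupp.linearCombination_single, map_smul, map_sub, map_add, one_smul,
      hol z.1, mul_assoc, inv_mul_cancel, mul_one]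
    rw [smul_eq_zero]
    right
    abel

/-- The singular chain of a chain of the complex over the integers. -/
noncomputable def Len2_E (t : G) (l : Reg → Tot ℤ Y) : ((Reg × ℤ) →₀ ℂ) →ₗ[ℂ] Tw ℂ Y t :=
  (toTw ℂ Y t).toLinearMap ∘ₗ ellC ℂ l ∘ₗ Len2_tr t Reg

theorem Len2_C (t : G) (a : ℂ) (c : Tw ℂ Y t) : (LaurentPolynomial.C a : Lam ℂ) • c = a • c :=
  act_C t a c

theorem Len2_T (t : G) (l : Reg → Tot ℤ Y) (x : (Reg × ℤ) →₀ ℂ) :
    (LaurentPolynomial.T 1 : Lam ℂ) • Len2_E t l x = Len2_E t l (shT Reg 1 x) := by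
  change act ℂ Y t (LaurentPolynomial.T 1) (ellC ℂ l (Len2_tr t Reg x)) =
    ellC ℂ l (Len2_tr t Reg (shT Reg 1 x))
  rw [act_T]
  induction x using Finsupp.induction_linear with
  | zero => simp
  | add a b ha hb => simp only [map_add, ha, hb]
  | single z a =>
    rw [shT, Finsupp.lmapDomain_apply, Finsupp.mapDomain_single, Len2_tr_single, Len2_tr_single]
    simp only [ellC, Finsupp.linearCombination_single, map_smul]
    rw [← gs_mul, ← zpow_add, add_comm]

theorem Len2_pi (t : G) (l : Reg → Tot ℤ Y) (ζ : Circle) (x : (Reg × ℤ) →₀ ℂ) :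
    piL ζ • Len2_E t l x = Len2_E t l (piT Reg 1 ζ x) := by
  rw [piL, sub_smul, Len2_T, Len2_C, piT, LinearMap.sub_apply, map_sub, LinearMap.smul_apply,
    map_smul, Module.End.one_apply]

theorem Len2_poly (t : G) (l : Reg → Tot ℤ Y) (D : Polynomial ℂ) (x : (Reg × ℤ) →₀ ℂ) :
    (Polynomial.toLaurent D : Lam ℂ) • Len2_E t l x =
      Len2_E t l (Polynomial.aeval (shT Reg 1) D x) := by
  induction D using Polynomial.induction_on generalizing x with
  | C a =>
    rw [Polynomial.toLaurent_C, Len2_C, Polynomial.aeval_C, Module.algebraMap_end_apply, map_smul]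
  | add p q hp hq => rw [map_add, add_smul, hp, hq, map_add, LinearMap.add_apply, map_add]
  | monomial n a h =>
    rw [pow_succ, ← mul_assoc, map_mul, mul_smul, Polynomial.toLaurent_X, Len2_T, h,
      map_mul (Polynomial.aeval (shT Reg 1)) _ Polynomial.X, Polynomial.aeval_X,
      Module.End.mul_apply]

theorem Len2_ev (ζ : Circle) (D : Polynomial ℂ) :
    evL ζ (Polynomial.toLaurent D) = D.eval (ζ : ℂ) := by
  have h1 : evL ζ (LaurentPolynomial.T 1) = ζ := by
    rw [evL, LaurentPolynomial.T, AddMonoidAlgebra.lift_single, one_smul]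
    exact congrArg (fun z : Circle => (z : ℂ)) (zpow_one ζ)
  induction D using Polynomial.induction_on with
  | C a =>
    rw [Polynomial.toLaurent_C, LaurentPolynomial.C_eq_algebraMap, AlgHom.commutes,
      Polynomial.eval_C]
    rfl
  | add p q hp hq => rw [map_add, map_add, hp, hq, Polynomial.eval_add]
  | monomial n a h =>
    rw [pow_succ, ← mul_assoc, map_mul, map_mul, h, Polynomial.toLaurent_X, h1,
      Polynomial.eval_mul (q := Polynomial.X), Polynomial.eval_X]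

end Aux

theorem len2_stmt : Len2Stmt := by
  intro G Y Reg Cr _ _ _ _ f t hf reg gap l yn ys ζ D hs hi hT
  have hZ : ∀ x, d1T gap (fun _ _ => 1) x = 0 →
      Len2_E t l x ∈ ZN (dTw ℂ Y t) (lvTw ℂ t f hf) := by
    intro x hx
    refine D.ellC_mem (S := ℂ) Subset.rfl (fun g y hy => ?_) (by rw [Len2_d1, hx, map_zero])
    obtain ⟨n, rfl⟩ := hs g
    exact (Inv.zpow (s := t) (A := f ⁻¹' Ioo (-1) 1)
      (fun y => by simp only [mem_preimage, hf]) n y).2 hy
  have hB : ∀ x ∈ LinearMap.range (d2T reg gap fun _ _ => 1),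
      Len2_E t l x ∈ BN (dTw ℂ Y t) (lvTw ℂ t f hf) := by
    rintro _ ⟨w, rfl⟩
    have h := (D.inj ℂ _ (Len2_dd D.hol (Len2_tr t Cr w))).2 ⟨_, rfl⟩
    rw [Len2_d2] at h
    exact h
  have hG : ∀ y ∈ ZN (dTw ℂ Y t) (lvTw ℂ t f hf), ∃ x, d1T gap (fun _ _ => 1) x = 0 ∧
      y - Len2_E t l x ∈ BN (dTw ℂ Y t) (lvTw ℂ t f hf) := by
    intro y hy
    obtain ⟨x, h1, h2⟩ := D.gen ℂ y hy
    obtain ⟨x, rfl⟩ := Len2_tr_surj hs Reg x
    refine ⟨x, Len2_tr_inj hi Bool ?_, h2⟩
    rw [← Len2_d1, h1, map_zero]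
  obtain ⟨P, hP, ha⟩ := hT.ann
  obtain ⟨x₁, x₂, h₁, h₂, hb⟩ := hT.top
  refine ⟨⟨Polynomial.toLaurent P, by rwa [Len2_ev], fun y hy => ?_⟩,
    _, hZ x₁ h₁, _, hZ x₂ h₂, fun y hy => ?_⟩
  · obtain ⟨x, hx, hy'⟩ := hG y hy
    have h := add_mem (Submodule.smul_mem _ (piL ζ * Polynomial.toLaurent P) hy') (hB _ (ha x hx))
    rwa [← Len2_pi, ← Len2_poly, ← mul_smul, ← smul_add, sub_add_cancel] at h
  · obtain ⟨x, hx, hy'⟩ := hG y hy
    obtain ⟨μ₁, μ₂, y', h3, h4⟩ := hb x hx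
    refine ⟨μ₁, μ₂, _, hZ y' h3, ?_⟩
    have h := add_mem hy' (hB _ h4)
    rw [map_sub, map_sub, map_sub, map_smul, map_smul, ← Len2_pi, ← Len2_C, ← Len2_C] at h
    convert h using 1
    abel

end Pool.Agent.MP_bc14e1_gt
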