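import Pool.Agent.MP_bc14e1_gt.If

open Set Metric
open scoped Classical

namespace Pool.Agent.MP_bc14e1_gt

theorem Lift_ex {X Y : Type} [TopologicalSpace X] [TopologicalSpace Y] {Z : Set X} {p : Y → X}
    (h : IsCoveringMapOn p Z) {k : ℕ} (σ : Sing X k) (hσ : ∀ t, σ t ∈ Z)
    {a : stdSimplex ℝ (Fin (k + 1))} {y : Y} (hy : p y = σ a) :
    ∃! F : Sing Y k, F a = y ∧ p ∘ F = σ := by
  have := (convex_stdSimplex ℝ (Fin (k + 1))).contractibleSpace ⟨a.1, a.2⟩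
  have := (convex_stdSimplex ℝ (Fin (k + 1))).locallyPathConnectedSpace
  exact h.existsUnique_continuousMap_lifts σ hy hσ

theorem Lift_pow {R : Type} [CommRing R] {G Y : Type} [Group G] [TopologicalSpace Y]
    [MulAction G Y] [ContinuousConstSMul G Y] (t : G) (k : ℕ) (n : ℤ) {c : Tot R Y}
    (hc : c ∈ DG R Y k) :
    gs R Y (t ^ n) c - c ∈ (DG R Y k).map (gs R Y t - 1) := by
  induction n using Int.induction_on with
  | zero => rw [zpow_zero, gs_one, sub_self]; exact zero_mem _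
  | succ n ih =>
    have e : gs R Y (t ^ ((n : ℤ) + 1)) c - c =
        (gs R Y t - 1) (gs R Y (t ^ (n : ℤ)) c) + (gs R Y (t ^ (n : ℤ)) c - c) := by
      rw [add_comm (n : ℤ) 1, zpow_one_add, gs_mul, LinearMap.sub_apply, Module.End.one_apply]
      abel
    rw [e]
    exact add_mem (Submodule.mem_map_of_mem (gs_mem_DG _ hc)) ih
  | pred n ih =>
    have e : gs R Y (t ^ (-(n : ℤ) - 1)) c - c = (gs R Y (t ^ (-(n : ℤ))) c - c) -
        (gs R Y t - 1) (gs R Y (t ^ (-(n : ℤ) - 1)) c) := by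
      rw [LinearMap.sub_apply, Module.End.one_apply, ← gs_mul, ← zpow_one_add, add_sub_cancel]
      abel
    rw [e]
    exact sub_mem ih (Submodule.mem_map_of_mem (gs_mem_DG _ hc))

theorem lift_stmt (hCov : CovStmt) : LiftStmt := by
  intro R _ G X Y _ _ _ _ _ Z p h
  obtain ⟨-, -, hc, hs, -⟩ := hCov G X Y Z p h
  have hex : ∀ (k : ℕ) (σ : Sing X k), (∀ t, σ t ∈ Z) → ∃ F : Sing Y k, p ∘ F = σ := by
    intro k σ hσ
    obtain ⟨y, hy⟩ := hs _ (hσ (Classical.arbitrary _))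
    obtain ⟨F, hF, -⟩ := Lift_ex hc σ hσ hy
    exact ⟨F, hF.2⟩
  have hp : ∀ (k : ℕ) (F : Sing Y k) (σ : Sing X k), p ∘ F = σ → ∀ a : R,
      psh R p (Finsupp.single ⟨k, F⟩ a) = Finsupp.single ⟨k, σ⟩ a := by
    intro k F σ e a
    rw [psh_single p ⟨k, F⟩ (h.cont.comp F.continuous)]
    congr 2
    exact ContinuousMap.ext (congrFun e)
  refine ⟨fun k c hcc => ?_, fun t ht k c hck h0 => ?_⟩
  · have h1 : c ∈ Finsupp.supported R R {σ : TS X | σ.1 = k ∧ ∀ t, σ.2 t ∈ Z} :=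
      (Finsupp.mem_supported R c).2 fun σ hσ => ⟨mem_DG.1 hcc.2 σ hσ, mem_CH.1 hcc.1 σ hσ⟩
    refine supported_ind (P := fun c => ∃ c' ∈ DG R Y k, psh R p c' = c)
      ⟨0, zero_mem _, map_zero _⟩ ?_ ?_ h1
    · rintro _ _ ⟨a, ha, rfl⟩ ⟨b, hb, rfl⟩
      exact ⟨a + b, add_mem ha hb, map_add _ _ _⟩
    · rintro ⟨_, σ⟩ ⟨rfl, hσ⟩ a
      obtain ⟨F, hF⟩ := hex _ σ hσ
      exact ⟨_, single_mem_DG ⟨_, F⟩ a, hp _ F σ hF a⟩
  · choose r hr using hex
    let L : Tot R X →ₗ[R] Tot R Y := Finsupp.linearCombination R fun σ : TS X =>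
      if hσ : ∀ t, σ.2 t ∈ Z then Finsupp.single ⟨σ.1, r σ.1 σ.2 hσ⟩ 1 else 0
    have key : c - L (psh R p c) ∈ (DG R Y k).map (gs R Y t - 1) := by
      refine supported_ind (P := fun c => c - L (psh R p c) ∈ (DG R Y k).map (gs R Y t - 1))
        (by simp) ?_ ?_ hck
      · intro a b ha hb
        rw [map_add, map_add, add_sub_add_comm]
        exact add_mem ha hb
      · rintro ⟨m, F⟩ rfl a
        let σ : Sing X m := ⟨p ∘ F, h.cont.comp F.continuous⟩
        have hσ : ∀ t, σ t ∈ Z := fun t => h.mem _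
        have e1 : L (psh R p (Finsupp.single ⟨_, F⟩ a)) = Finsupp.single ⟨_, r _ σ hσ⟩ a := by
          rw [hp _ F σ rfl, Finsupp.linearCombination_single, dif_pos hσ, Finsupp.smul_single,
            smul_eq_mul, mul_one]
        let x : stdSimplex ℝ (Fin (m + 1)) := Classical.arbitrary _
        obtain ⟨g, hg⟩ := h.trans (r _ σ hσ x) (F x) (congrFun (hr _ σ hσ) x)
        obtain ⟨n, rfl⟩ := ht g
        have hcg : Continuous ((fun y : Y => t ^ n • y) ∘ r _ σ hσ) :=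
          (continuous_const_smul _).comp (r _ σ hσ).continuous
        have e2 : F = ⟨_, hcg⟩ :=
          (Lift_ex hc σ hσ (a := x) (y := F x) rfl).unique ⟨rfl, rfl⟩
            ⟨hg.symm, funext fun u => (h.inv _ _).trans (congrFun (hr _ σ hσ) u)⟩
        have e3 : (Finsupp.single ⟨_, F⟩ a : Tot R Y) =
            gs R Y (t ^ n) (Finsupp.single ⟨_, r _ σ hσ⟩ a) := by
          rw [gs, psh_single _ ⟨_, r _ σ hσ⟩ hcg, ← e2]
        rw [e1, e3]
        exact Lift_pow t _ n (single_mem_DG ⟨_, r _ σ hσ⟩ a)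
    rw [h0, map_zero, sub_zero] at key
    obtain ⟨w, hw, e⟩ := key
    exact ⟨w, hw, e.symm⟩

end Pool.Agent.MP_bc14e1_gt
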