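import Pool.Agent.MP_bc14e1_gt.IfN

open Set Metric
open scoped Classical

namespace Pool.Agent.MP_bc14e1_gt

/-- If `g` acts surjectively on a finitely generated subquotient, it acts injectively. -/
theorem LiftZ_alg {R C : Type} [CommRing R] [AddCommGroup C] [Module R C] (Z B : Submodule R C)
    (g : R) {n : ℕ} (z : Fin n → C) (hz : ∀ i, z i ∈ Z)
    (hfg : ∀ y ∈ Z, ∃ a : Fin n → R, y - ∑ i, a i • z i ∈ B)
    (hs : ∀ y ∈ Z, ∃ w ∈ Z, y - g • w ∈ B) : ∀ y ∈ Z, g • y ∈ B → y ∈ B := by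
  have hN : (Z.map B.mkQ).FG := by
    refine (Submodule.fg_iff_exists_fin_generating_family).2 ⟨n, fun i => B.mkQ (z i), ?_⟩
    refine le_antisymm (Submodule.span_le.2 ?_) ?_
    · rintro _ ⟨i, rfl⟩
      exact Submodule.mem_map_of_mem (hz i)
    · rintro _ ⟨y, hy, rfl⟩
      obtain ⟨a, ha⟩ := hfg y hy
      have e : B.mkQ y = ∑ i, a i • B.mkQ (z i) := by
        rw [← Submodule.Quotient.eq] at ha
        simp only [← map_smul, ← map_sum]
        exact ha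
      rw [e]
      exact Submodule.sum_mem _ fun i _ =>
        Submodule.smul_mem _ _ (Submodule.subset_span ⟨i, rfl⟩)
  obtain ⟨r, hr, h0⟩ := Submodule.exists_sub_one_mem_and_smul_eq_zero_of_fg_of_le_smul
    (Ideal.span {g}) (Z.map B.mkQ) hN (by
      rintro _ ⟨y, hy, rfl⟩
      obtain ⟨w, hw, h⟩ := hs y hy
      have e : B.mkQ y = g • B.mkQ w := by
        rw [← Submodule.Quotient.eq] at h
        rw [← map_smul]
        exact h
      rw [e]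
      exact Submodule.smul_mem_smul (Ideal.mem_span_singleton_self g)
        (Submodule.mem_map_of_mem hw))
  obtain ⟨c, hc⟩ := Ideal.mem_span_singleton'.1 hr
  intro y hy hg
  have h1 : r • y ∈ B := by
    rw [← Submodule.Quotient.mk_eq_zero]
    exact h0 _ (Submodule.mem_map_of_mem hy)
  have e : y = r • y - c • g • y := by
    rw [← mul_smul, hc, sub_smul, one_smul, sub_sub_cancel]
  rw [e]
  exact sub_mem h1 (B.smul_mem c hg)

theorem liftZ_stmt (B : Bas2) : LiftZStmt := by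
  intro κ X G Y _ _ _ _ _ _ _ _ o F n φ p t l hX hP x hx
  obtain ⟨L1, L2⟩ := B.lift ℤ G X Y Fᶜ p hP.tc.cov
  have L3 := L2 t hP.gen
  have hp := hP.tc.cov.cont
  have hact : ∀ c : Tot ℤ Y, act ℤ Y t (LaurentPolynomial.T 1 - 1) c = gs ℤ Y t c - c := fun c => by
    rw [map_sub, act_T, map_one, zpow_one]
    rfl
  have hg : (LaurentPolynomial.T 1 - 1 : Lam ℤ) ≠ 0 := fun h => by
    have h1 : (LaurentPolynomial.T 1 : Lam ℤ) = LaurentPolynomial.T 0 := sub_eq_zero.1 h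
    have h2 := congrArg LaurentPolynomial.degree h1
    rw [LaurentPolynomial.degree_T, LaurentPolynomial.degree_T] at h2
    exact absurd (WithBot.coe_injective h2) one_ne_zero
  have htf : ∀ c : Tot ℤ Y, gs ℤ Y t c - c = 0 → c = 0 := fun c h =>
    (B.tf ℤ G Y t (fun n y h => hP.tc.inf n (hP.tc.cov.free _ y h)) _ hg c).1 (by rw [hact, h])
  have hcyc : ∀ w : Tot ℤ Y, dT ℤ Y (gs ℤ Y t w - w) = 0 → dT ℤ Y w = 0 := fun w h =>
    htf _ (by rwa [map_sub, dT_gs] at h)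
  have hpg : ∀ w : Tot ℤ Y, psh ℤ p (gs ℤ Y t w) = psh ℤ p w := fun w => by
    rw [gs, psh_psh' _ (continuous_const_smul t)]
    exact psh_congr (fun y _ => hP.tc.cov.inv t y) (mem_CH_univ w)
  obtain ⟨m, z, hz, hfg⟩ := B.fg ℤ X G Y F p t hP.tc univ univ isCompact_univ isOpen_univ
    Subset.rfl 1
  rw [preimage_univ] at hz hfg
  let BT : Submodule (Lam ℤ) (Tw ℤ Y t) := twSub (BC ℤ univ 1) fun k c hc => by
    obtain ⟨b, hb, rfl⟩ := hc
    exact ⟨_, ⟨mem_CH_univ _, gs_mem_DG _ hb.2⟩, dT_gs _ b⟩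
  have key := LiftZ_alg (ZT ℤ Y t 1) BT (LaurentPolynomial.T 1 - 1) z hz hfg (by
    intro y hy
    change Tot ℤ Y at y
    have hy0 : dT ℤ Y y = 0 := hy.2
    have h1 : psh ℤ p y ∈ ZC ℤ Fᶜ 1 :=
      ⟨⟨psh_mem_CH p (fun y _ => hP.tc.cov.mem y) (mem_CH_univ y), psh_mem_DG p hy.1.2⟩, by
        change dT ℤ X _ = 0
        rw [dT_psh_cont hp, hy0, map_zero]⟩
    obtain ⟨μ, -, -, hμ⟩ := hX.gen
    obtain ⟨b, hb, hdb⟩ := hμ _ h1
    rw [hP.hol, hy0, map_zero, zero_smul, sub_zero] at hdb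
    obtain ⟨b', hb', rfl⟩ := L1 2 b hb
    obtain ⟨w, hw, e⟩ := L3 1 (y - dT ℤ Y b') (sub_mem hy.1.2 (dT_mem_DG hb')) (by
      rw [map_sub, ← dT_psh_cont hp, hdb, sub_self])
    refine ⟨w, ⟨⟨mem_CH_univ _, hw⟩, hcyc w ?_⟩, b', ⟨mem_CH_univ _, hb'⟩, ?_⟩
    · rw [← e, map_sub, hy0, dT_dT, sub_zero]
    · change dT ℤ Y b' = y - act ℤ Y t (LaurentPolynomial.T 1 - 1) w
      rw [hact, ← e, sub_sub_cancel])
  obtain ⟨x', hx', rfl⟩ := L1 2 x hx.1
  have hx0 : dT ℤ X (psh ℤ p x') = 0 := hx.2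
  obtain ⟨y, hy, e⟩ := L3 1 (dT ℤ Y x') (dT_mem_DG hx') (by rw [← dT_psh_cont hp, hx0])
  obtain ⟨w, hw, hdw⟩ := key y ⟨⟨mem_CH_univ _, hy⟩, hcyc y (by rw [← e, dT_dT])⟩
    ⟨x', ⟨mem_CH_univ _, hx'⟩, e.trans (hact y).symm⟩
  refine ⟨x' - (gs ℤ Y t w - w), ⟨⟨mem_CH_univ _,
    sub_mem hx' (sub_mem (gs_mem_DG t hw.2) hw.2)⟩, ?_⟩, ?_⟩
  · change dT ℤ Y _ = 0
    rw [map_sub, map_sub, dT_gs, hdw, e, sub_self]
  · rw [map_sub, map_sub, hpg, sub_self, sub_zero]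

end Pool.Agent.MP_bc14e1_gt
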