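import Pool.Agent.MP_bc14e1_gt.IfC

open Set Metric
open scoped Classical

namespace Pool.Agent.MP_bc14e1_gt

theorem LocCtr_ctr {M N : Type} [TopologicalSpace M] [NormedAddCommGroup N] [NormedSpace ℝ N]
    (e : OpenPartialHomeomorph M N) {V : Set N} (hV : Convex ℝ V) (hVe : V ⊆ e.target) {y : M}
    (hy : y ∈ e.source) (hyV : e y ∈ V) : Ctr (e.symm '' V) y := by
  have h1 : ∀ m ∈ e.symm '' V, m ∈ e.source ∧ e m ∈ V := by
    rintro _ ⟨v, hv, rfl⟩
    exact ⟨e.map_target (hVe hv), by rwa [e.right_inv (hVe hv)]⟩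
  have h2 : MapsTo (fun q : ℝ × M => (1 - q.1) • e q.2 + q.1 • e y)
      (Icc 0 1 ×ˢ (e.symm '' V)) V := fun q hq =>
    hV (h1 _ hq.2).2 hyV (sub_nonneg.2 hq.1.2) hq.1.1 (sub_add_cancel _ _)
  refine ⟨⟨e y, hyV, e.left_inv hy⟩, fun q => e.symm ((1 - q.1) • e q.2 + q.1 • e y), ?_,
    fun q hq => ⟨_, h2 hq, rfl⟩, fun m hm => ?_, fun m _ => ?_⟩
  · refine e.continuousOn_symm.comp ?_ fun q hq => hVe (h2 hq)
    have h3 : ContinuousOn (fun q : ℝ × M => e q.2) (Icc 0 1 ×ˢ (e.symm '' V)) :=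
      e.continuousOn.comp continuousOn_snd fun q hq => (h1 _ hq.2).1
    exact ((continuousOn_const.sub continuousOn_fst).smul h3).add
      (continuousOn_fst.smul continuousOn_const)
  · simp only [sub_zero, one_smul, zero_smul, add_zero]
    exact e.left_inv (h1 m hm).1
  · simp only [sub_self, one_smul, zero_smul, zero_add]
    exact e.left_inv hy

theorem locCtr_stmt : LocCtrStmt := by
  intro X Y _ _ _ p hp y W hW
  obtain ⟨e0, hy0, rfl⟩ := hp y
  let e := (e0.restrOpen (interior W) isOpen_interior).trans (chartAt (E 4) (e0 y))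
  have hy : y ∈ e.source :=
    ⟨⟨hy0, mem_interior_iff_mem_nhds.2 hW⟩, mem_chart_source (E 4) (e0 y)⟩
  have hW' : e.source ⊆ W := fun m hm => interior_subset hm.1.2
  obtain ⟨r, hr, hb⟩ := Metric.isOpen_iff.1 e.open_target (e y) (e.map_source hy)
  have hU : IsOpen (e.symm '' ball (e y) r) :=
    e.symm.isOpen_image_of_subset_source isOpen_ball hb
  have hs : e.symm '' ball (e y) r ⊆ W := by
    rintro _ ⟨v, hv, rfl⟩
    exact hW' (e.map_target (hb hv))
  have hc := LocCtr_ctr e (convex_ball (e y) r) hb hy (mem_ball_self hr)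
  refine ⟨⟨e, hy, hW', e0.injOn.mono fun m hm => hm.1.1⟩, ⟨_, hU, hs, hc⟩,
    _, hU.mem_nhds hc.1, hs, ?_⟩
  exact ((convex_ball (e y) r).isPathConnected ⟨_, mem_ball_self hr⟩).image'
    (e.continuousOn_symm.mono hb)

end Pool.Agent.MP_bc14e1_gt
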