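import Pool.Agent.MP_bc14e1_gt.IfT

open Set Metric
open scoped Classical

namespace Pool.Agent.MP_bc14e1_gt

section

variable {X Y : Type} [TopologicalSpace X] [TopologicalSpace Y]

theorem LocDeg_diff {R : Type} [CommRing R] {U V : Set X} {c : Tot R X} (h : c ∈ CH R U)
    (h' : c ∈ CH R Vᶜ) : c ∈ CH R (U \ V) := by
  rw [sdiff_eq, CH_inter]
  exact ⟨h, h'⟩

theorem LocDeg_rel (o : Orientation4 X) (x : X) :
    dT ℝ X (castZ ℝ X (inc ℤ 4 (o.o x))) ∈ CH ℝ {x}ᶜ := by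
  rw [← cast_dT, dT_inc_succ]
  exact cast_mem_CH _ (inc_mem_CH.2 (o.rel x))

theorem LocDeg_gen (hF : FlatStmt) (o : Orientation4 X) (x : X) {z : Tot ℝ X}
    (hz : z ∈ DG ℝ X 4) (hd : dT ℝ X z ∈ CH ℝ {x}ᶜ) :
    ∃ (r : ℝ) (b : Tot ℝ X), z - r • castZ ℝ X (inc ℤ 4 (o.o x)) - dT ℝ X b ∈ CH ℝ {x}ᶜ := by
  have h := (hF ℝ X univ {x}ᶜ 4).1 z ⟨mem_CH_univ z, hz⟩ hd
  clear hz hd
  induction h using Submodule.span_induction with
  | mem z h =>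
    obtain ⟨y, ⟨h1, h2⟩, rfl⟩ := h
    obtain ⟨c, rfl⟩ := exists_inc h1.2
    rw [dT_inc_succ, inc_mem_CH] at h2
    obtain ⟨n, ⟨b, -, hb⟩, -⟩ := o.gen x c h2
    refine ⟨n, castZ ℝ X (inc ℤ 5 b), ?_⟩
    have h3 := cast_mem_CH (Int.castRingHom ℝ) (inc_mem_CH.2 hb)
    rwa [map_sub, map_sub, map_sub, map_sub, ← dT_inc_succ, cast_dT, map_smul,
      LinearMap.map_smulₛₗ] at h3
  | zero => exact ⟨0, 0, by simp⟩
  | add z w _ _ h1 h2 =>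
    obtain ⟨r, b, h1⟩ := h1
    obtain ⟨r', b', h2⟩ := h2
    refine ⟨r + r', b + b', ?_⟩
    have h3 := add_mem h1 h2
    rw [add_smul, map_add]
    convert h3 using 1
    abel
  | smul a z _ h =>
    obtain ⟨r, b, h⟩ := h
    refine ⟨a * r, a • b, ?_⟩
    have h3 := Submodule.smul_mem _ a h
    rwa [smul_sub, smul_sub, smul_smul, ← (dT ℝ X).map_smul] at h3

theorem LocDeg_uniq (hF : FlatStmt) (o : Orientation4 X) (x : X) {r : ℝ} {b : Tot ℝ X}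
    (h : r • castZ ℝ X (inc ℤ 4 (o.o x)) - dT ℝ X b ∈ CH ℝ {x}ᶜ) : r = 0 := by
  by_contra hr
  have h1 := Submodule.smul_mem _ r⁻¹ h
  rw [smul_sub, inv_smul_smul₀ hr, ← (dT ℝ X).map_smul] at h1
  obtain ⟨n, hn, b', -, h2⟩ := (hF ℝ X univ {x}ᶜ 4).2 _ ⟨_, mem_CH_univ _, h1⟩
  have h3 := deg_mem_CH 4 h2
  obtain ⟨b₀, hb⟩ := exists_inc (deg_mem 5 b')
  rw [map_sub, deg_dT, ← hb, dT_inc_succ, ← (inc ℤ 4).map_smul, deg_of_mem (inc_mem_DG _ _), ← map_sub,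
    inc_mem_CH] at h3
  have h4 := (o.gen x 0 (by simp)).unique (y₁ := -n) (y₂ := 0)
    ⟨b₀, mem_supp_univ _, by simpa using h3⟩ ⟨0, mem_supp_univ _, by simp⟩
  exact hn (neg_eq_zero.1 h4)

theorem LocDeg_inv {q : Y → X} (hq : IsLocalHomeomorph q) {U : Set Y} (hU : IsOpen U) (y : Y)
    (hi : InjOn q U) : ∃ g : X → Y, IsOpen (q '' U) ∧ ContinuousOn g (q '' U) ∧
      (∀ u ∈ U, g (q u) = u) ∧ (∀ x ∈ q '' U, q (g x) = x) ∧ MapsTo g (q '' U) U ∧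
      MapsTo g (q '' U \ {q y}) (U \ {y}) := by
  have : Nonempty Y := ⟨y⟩
  let e := OpenPartialHomeomorph.ofContinuousOpen (hi.toPartialEquiv q U)
    hq.continuous.continuousOn hq.isOpenMap hU
  have h1 : ∀ u ∈ U, e.symm (q u) = u := fun u hu => e.left_inv hu
  refine ⟨e.symm, hq.isOpenMap U hU, e.continuousOn_symm, h1, ?_, ?_, ?_⟩
  · rintro _ ⟨u, hu, rfl⟩
    rw [h1 u hu]
  · rintro _ ⟨u, hu, rfl⟩
    rwa [h1 u hu]
  · rintro _ ⟨⟨u, hu, rfl⟩, h⟩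
    rw [h1 u hu]
    exact ⟨hu, fun e => h (congrArg q e)⟩

theorem LocDeg_split {R : Type} [CommRing R] {U V : Set X} (hU : IsOpen U) (hV : IsOpen V)
    {c : Tot R X} (hc : c ∈ CH R (U ∪ V)) (hd : dT R X c ∈ CH R V) :
    ∃ c' b, c' ∈ CH R U ∧ (∀ k, c ∈ DG R X k → c' ∈ DG R X k) ∧
      (∀ W, c ∈ CH R W → c' ∈ CH R W ∧ b ∈ CH R W) ∧ c - c' - dT R X b ∈ CH R V ∧
      dT R X c' ∈ CH R V := by
  obtain ⟨m, hm⟩ := sdT_small_two hU hV hc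
  obtain ⟨a, ha, b, hb, e⟩ := Submodule.mem_sup.1 (hm m le_rfl)
  have h1 : c - prj R U ((sdT R X ^ m) c) - dT R X (sdHP R X m c) ∈ CH R V := by
    have e1 : c - prj R U ((sdT R X ^ m) c) - dT R X (sdHP R X m c) =
        b - prj R U b + sdHP R X m (dT R X c) := by
      rw [eq_sub_of_add_eq (dT_sdHP m c), ← e, map_add, prj_of_mem ha]
      abel
    rw [e1]
    exact add_mem (sub_mem hb (prj_mem_CH U hb)) (sdHP_mem_CH m hd)
  refine ⟨_, _, prj_mem U _, fun k h => prj_mem_DG U (sdT_pow_mem_DG m h),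
    fun W h => ⟨prj_mem_CH U (sdT_pow_mem_CH m h), sdHP_mem_CH m h⟩, h1, ?_⟩
  have h2 := sub_mem hd (dT_mem_CH h1)
  rwa [map_sub, map_sub, dT_dT, sub_zero, sub_sub_cancel] at h2

theorem LocDeg_exc {R : Type} [CommRing R] {U V : Set X} (hU : IsOpen U) (hV : IsOpen V)
    {c b : Tot R X} (hb : b ∈ CH R (U ∪ V)) (hc : c ∈ CH R U) (hd : dT R X c ∈ CH R V)
    (h : c - dT R X b ∈ CH R V) : ∃ b' ∈ CH R U, c - dT R X b' ∈ CH R V := by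
  obtain ⟨m, hm⟩ := sdT_small_two hU hV hb
  obtain ⟨a, ha, a', ha', e⟩ := Submodule.mem_sup.1 (hm m le_rfl)
  refine ⟨sdHP R X m c + a, add_mem (sdHP_mem_CH m hc) ha, ?_⟩
  have e1 : c - dT R X (sdHP R X m c + a) =
      (sdT R X ^ m) (c - dT R X b) + dT R X a' + sdHP R X m (dT R X c) := by
    rw [map_add, eq_sub_of_add_eq (dT_sdHP m c), map_sub, ← dT_sdT_pow, ← e, map_add]
    abel
  rw [e1]
  exact add_mem (add_mem (sdT_pow_mem_CH m h) (dT_mem_CH ha')) (sdHP_mem_CH m hd)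

omit [TopologicalSpace X] [TopologicalSpace Y] in
theorem LocDeg_maps {q : Y → X} {U : Set Y} {y : Y} (hy : y ∈ U) (hi : InjOn q U) :
    MapsTo q (U \ {y}) {q y}ᶜ := fun _ hu e => hu.2 (hi hu.1 hy e)

theorem LocDeg_univ {R : Type} [CommRing R] {U : Set X} {x : X} (hx : x ∈ U) (c : Tot R X) :
    c ∈ CH R (U ∪ {x}ᶜ) :=
  CH_mono (fun z _ => (eq_or_ne z x).imp (fun e => e ▸ hx) id) (mem_CH_univ c)

end

theorem locDeg_stmt (B : Bas1) : LocDegStmt := by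
  intro X Y _ _ _ _ o q hq y
  have hc := hq.continuous
  refine ⟨fun U hU hy hi c h hd => ?_, ?_, fun U hU hy => ?_, ?_, ?_⟩
  · have h1 := LocDeg_diff (dT_mem_CH h.1) hd
    obtain ⟨r, b, h2⟩ := LocDeg_gen B.flat o (q y) (psh_mem_DG q h.2)
      (by rw [dT_psh_cont hc]; exact psh_mem_CH q (LocDeg_maps hy hi) h1)
    exact ⟨r, U, hU, hy, hi, h, h1, b, h2⟩
  · rintro c r r' ⟨-, -, -, -, -, -, b, h⟩ ⟨-, -, -, -, -, -, b', h'⟩
    have h1 := sub_mem h' h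
    refine sub_eq_zero.1 (LocDeg_uniq B.flat o (q y) (b := b' - b) ?_)
    rw [sub_smul, map_sub]
    convert h1 using 1
    abel
  · obtain ⟨U₀, h0, y0, i0⟩ := hq.isLocallyInjective y
    have i1 : InjOn q (U ∩ U₀) := i0.mono inter_subset_right
    obtain ⟨g, g0, g1, -, g3, g4, g5⟩ := LocDeg_inv hq (hU.inter h0) y i1
    obtain ⟨a, b, a1, a2, -, a4, a5⟩ := LocDeg_split g0 isOpen_compl_singleton
      (LocDeg_univ (mem_image_of_mem q (show y ∈ U ∩ U₀ from ⟨hy, y0⟩)) _) (LocDeg_rel o (q y))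
    refine ⟨psh ℝ g a, CH_mono inter_subset_left (psh_mem_CH g g4 a1), U ∩ U₀, hU.inter h0,
      ⟨hy, y0⟩, i1, ⟨psh_mem_CH g g4 a1, psh_mem_DG g (a2 4 (cast_mem_DG _ (inc_mem_DG _ _)))⟩,
      ?_, -b, ?_⟩
    · rw [dT_psh g1 a1]
      exact psh_mem_CH g g5 (LocDeg_diff (dT_mem_CH a1) a5)
    · rw [psh_psh q g1 a1, psh_of_eqOn_id (f := q ∘ g) g3 a1, one_smul, map_neg]
      convert neg_mem a4 using 1
      abel
  · rintro c r ⟨U₀, h0, y0, i0, h1, h2, b₀, h3⟩ U hU hy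
    obtain ⟨a, b, a1, a2, a3, a4, a5⟩ := LocDeg_split hU isOpen_compl_singleton
      (LocDeg_univ hy c) (CH_mono (sdiff_subset_compl _ _) h2)
    have a6 : ∀ W, c ∈ CH ℝ W → c - a - dT ℝ Y b ∈ CH ℝ (W \ {y}) := fun W h =>
      LocDeg_diff (sub_mem (sub_mem h (a3 W h).1) (dT_mem_CH (a3 W h).2)) a4
    refine ⟨a, a1, ⟨U₀, h0, y0, i0, ⟨(a3 _ h1.1).1, a2 4 h1.2⟩,
      LocDeg_diff (dT_mem_CH (a3 _ h1.1).1) a5, b₀ - psh ℝ q b, ?_⟩,
      fun W h => ⟨(a3 W h).1, b, (a3 W h).2, a6 W h⟩⟩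
    have h4 := sub_mem h3 (psh_mem_CH q (LocDeg_maps y0 i0) (a6 _ h1.1))
    rw [map_sub, map_sub, ← dT_psh_cont hc] at h4
    rw [map_sub]
    convert h4 using 1
    abel
  · rintro c ⟨U₀, -, -, -, -, h2, b₀, h3⟩ U hU hy hi h
    obtain ⟨g, g0, g1, g2, -, g4, g5⟩ := LocDeg_inv hq hU y hi
    rw [zero_smul, sub_zero] at h3
    have h4 : psh ℝ q c ∈ CH ℝ (q '' U) := psh_mem_CH q (mapsTo_image q U) h
    obtain ⟨b, b1, b2⟩ := LocDeg_exc g0 isOpen_compl_singleton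
      (LocDeg_univ (mem_image_of_mem q hy) b₀) h4
      (by
        rw [dT_psh_cont hc]
        exact psh_mem_CH q (LocDeg_maps hy hi)
          (LocDeg_diff (dT_mem_CH h) (CH_mono (sdiff_subset_compl _ _) h2))) h3
    refine ⟨psh ℝ g b, psh_mem_CH g g4 b1, ?_⟩
    have h5 := psh_mem_CH g g5 (LocDeg_diff (sub_mem h4 (dT_mem_CH b1)) b2)
    rwa [map_sub, ← dT_psh g1 b1, psh_psh' g hc, psh_of_eqOn_id (f := g ∘ q) g2 h] at h5

end Pool.Agent.MP_bc14e1_gt
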