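import Pool.Agent.MP_bc14e1_gt.If

open Set Metric
open scoped Classical

namespace Pool.Agent.MP_bc14e1_gt

section Aux

variable {R : Type} [CommRing R] {X Y : Type} [TopologicalSpace X] [TopologicalSpace Y]

/-- The chain `o` freely generates the local homology of `X` at `x`. -/
structure LocHom_P (x : X) (o : Tot R X) : Prop where
  cyc : dT R X o ∈ CH R ({x}ᶜ : Set X)
  ex : ∀ c, dT R X c ∈ CH R ({x}ᶜ : Set X) →
    ∃ (r : R) (b : Tot R X), c - r • o - dT R X b ∈ CH R ({x}ᶜ : Set X)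
  uniq : ∀ (r : R) (b : Tot R X), r • o - dT R X b ∈ CH R ({x}ᶜ : Set X) → r = 0

theorem LocHom_val0_dT (b : Tot R X) : val0 R (fun _ : X => (1 : R)) (dT R X b) = 0 := by
  induction b using Tot.ind with
  | h0 => simp
  | hadd a b ha hb => simp [ha, hb]
  | h1 k σ a =>
    rcases k with _ | _ | k
    · rw [dT_inc_zero, map_zero]
    · rw [dT_inc_succ, bd_single, Fin.sum_univ_two, map_add, map_zsmul, map_zsmul, inc_single,
        inc_single]
      simp [val0]
    · exact val0_of_DG _ (Nat.succ_ne_zero k) (dT_mem_DG (inc_mem_DG _ _))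

theorem LocHom_base (hCtr : CtrStmt) [Subsingleton X] (x : X) : LocHom_P x (pt R x) := by
  have hc : Ctr (univ : Set X) x :=
    ⟨trivial, fun p => p.2, continuous_snd.continuousOn, fun _ _ => trivial, fun _ _ => rfl,
      fun _ _ => Subsingleton.elim _ _⟩
  obtain ⟨h1, h2⟩ := hCtr R X univ x hc
  have he : ({x}ᶜ : Set X) = ∅ := by
    ext y
    simp [Subsingleton.elim y x]
  refine ⟨by rw [dT_pt]; exact zero_mem _, fun c hc => ?_, fun r b h => ?_⟩
  · rw [he] at hc
    have hd := eq_zero_of_mem_CH_empty hc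
    have hB : ∀ k, BC R (univ : Set X) k ≤ LinearMap.range (dT R X) := fun k =>
      LinearMap.map_le_range
    have hm : c ∈ Submodule.span R {pt R x} ⊔ LinearMap.range (dT R X) := by
      obtain ⟨n, hn⟩ := exists_sum_deg c
      rw [← hn n le_rfl]
      refine sum_mem fun k _ => ?_
      rcases k with _ | k
      · have := hB 0 (h2 _ ⟨mem_CH_univ _, deg_mem 0 c⟩)
        rw [← add_sub_cancel (val0 R (fun _ => (1 : R)) (deg R X 0 c) • pt R x) (deg R X 0 c)]
        exact Submodule.add_mem_sup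
          (Submodule.smul_mem _ _ (Submodule.mem_span_singleton_self _)) this
      · refine Submodule.mem_sup_right (hB (k + 1) (h1 _ (Nat.succ_ne_zero k)
          ⟨⟨mem_CH_univ _, deg_mem _ c⟩, ?_⟩))
        change dT R X _ = 0
        rw [← deg_dT, hd, map_zero]
    obtain ⟨u, hu, v, ⟨b, rfl⟩, rfl⟩ := Submodule.mem_sup.1 hm
    obtain ⟨r, rfl⟩ := Submodule.mem_span_singleton.1 hu
    refine ⟨r, b, ?_⟩
    rw [add_sub_cancel_left, sub_self]
    exact zero_mem _
  · rw [he] at h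
    have := congrArg (val0 R (fun _ : X => (1 : R))) (eq_zero_of_mem_CH_empty h)
    rwa [map_sub, LocHom_val0_dT, map_smul, val0_pt, map_zero, sub_zero, smul_eq_mul,
      mul_one] at this

theorem LocHom_homeo (e : X ≃ₜ Y) {x : X} {o : Tot R X} (h : LocHom_P x o) :
    LocHom_P (e x) (psh R e o) := by
  have m1 : MapsTo e ({x}ᶜ : Set X) ({e x}ᶜ : Set Y) := fun y hy h => hy (e.injective h)
  have m2 : MapsTo e.symm ({e x}ᶜ : Set Y) ({x}ᶜ : Set X) := fun y hy h =>
    hy (by rw [← mem_singleton_iff.1 h]; exact (e.apply_symm_apply y).symm)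
  have i1 : ∀ c : Tot R Y, psh R e (psh R e.symm c) = c := fun c => by
    rw [psh_psh' _ e.symm.continuous]
    exact psh_of_eqOn_id (fun y _ => e.apply_symm_apply y) (mem_CH_univ c)
  have i2 : ∀ c : Tot R X, psh R e.symm (psh R e c) = c := fun c => by
    rw [psh_psh' _ e.continuous]
    exact psh_of_eqOn_id (fun y _ => e.symm_apply_apply y) (mem_CH_univ c)
  refine ⟨?_, fun c hc => ?_, fun r b hb => ?_⟩
  · rw [dT_psh_cont e.continuous]
    exact psh_mem_CH _ m1 h.cyc
  · obtain ⟨r, b, hb⟩ := h.ex (psh R e.symm c) (by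
      rw [dT_psh_cont e.symm.continuous]
      exact psh_mem_CH _ m2 hc)
    refine ⟨r, psh R e b, ?_⟩
    have := psh_mem_CH e m1 hb
    rwa [map_sub, map_sub, map_smul, i1, ← dT_psh_cont e.continuous] at this
  · have := psh_mem_CH e.symm m2 hb
    rw [map_sub, map_smul, i2, ← dT_psh_cont e.symm.continuous] at this
    exact h.uniq r _ this

/-- The homotopy that pushes `ℝ × X` to the level `a`. -/
def LocHom_H (a : ℝ) (p : ℝ × (ℝ × X)) : ℝ × X := ((1 - p.1) * p.2.1 + p.1 * a, p.2.2)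

theorem LocHom_push (κ : Kit) (a : ℝ) {U : Set (ℝ × X)}
    (hU : MapsTo (LocHom_H a) (Icc 0 1 ×ˢ U) U) {c : Tot R (ℝ × X)}
    (hc : dT R _ c ∈ CH R U) :
    ∃ b, c - psh R (fun y : X => (a, y)) (psh R Prod.snd c) - dT R _ b ∈ CH R U := by
  have hH : Continuous (LocHom_H (X := X) a) := by
    unfold LocHom_H
    fun_prop
  have h := dT_hop κ hH.continuousOn (mem_CH_univ c)
  have e0 : psh R (fun x => LocHom_H a (0, x)) c = c :=
    psh_of_eqOn_id (fun y _ => by simp [LocHom_H]) (mem_CH_univ c)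
  have e1 : psh R (fun x => LocHom_H a (1, x)) c =
      psh R (fun y : X => (a, y)) (psh R Prod.snd c) := by
    rw [psh_psh' _ continuous_snd]
    exact psh_congr (fun y _ => by simp [LocHom_H]) (mem_CH_univ c)
  rw [e0, e1] at h
  refine ⟨-hop κ R (LocHom_H a) c, ?_⟩
  have e2 : c - psh R (fun y : X => (a, y)) (psh R Prod.snd c) -
      dT R _ (-hop κ R (LocHom_H a) c) = -hop κ R (LocHom_H a) (dT R _ c) := by
    rw [map_neg, ← neg_sub _ c, ← h]
    abel
  rw [e2]
  exact neg_mem (hop_mem_CH κ _ hU hc)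

theorem LocHom_vanish (κ : Kit) (a : ℝ) {U : Set (ℝ × X)}
    (hU : MapsTo (LocHom_H a) (Icc 0 1 ×ˢ U) U) (ha : ∀ y, (a, y) ∈ U) {c : Tot R (ℝ × X)}
    (hc : dT R _ c ∈ CH R U) : ∃ b, c - dT R _ b ∈ CH R U := by
  obtain ⟨b, hb⟩ := LocHom_push κ a hU hc
  refine ⟨b, ?_⟩
  have h1 : psh R (fun y : X => (a, y)) (psh R Prod.snd c) ∈ CH R U :=
    psh_mem_CH _ (fun y _ => ha y) (mem_CH_univ _)
  have := add_mem hb h1
  rwa [sub_right_comm, sub_add_cancel] at this

/-- The path from `-1` to `1`. -/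
noncomputable def LocHom_I (R : Type) [CommRing R] : Tot R ℝ :=
  pth R ⟨fun t => 2 * (t : ℝ) - 1, by fun_prop⟩

theorem LocHom_dcx (κ : Kit) (o : Tot R X) :
    dT R _ (κ.cx R ℝ X (LocHom_I R) o) = psh R (fun y : X => ((1 : ℝ), y)) o -
      (psh R (fun y : X => ((-1 : ℝ), y)) o + κ.cx R ℝ X (LocHom_I R) (dT R X o)) := by
  have e : eps R ℝ (LocHom_I R) = -LocHom_I R := by
    rw [eps, LocHom_I, sgn_of_DG _ (pth_mem_DG _)]; simp
  have d : dT R ℝ (LocHom_I R) = pt R 1 - pt R (-1) := by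
    rw [LocHom_I, dT_pth]
    norm_num
  rw [κ.leib, e, d, map_sub, LinearMap.sub_apply, κ.pt_x, κ.pt_x, map_neg, LinearMap.neg_apply]
  abel

theorem LocHom_susp (κ : Kit) [T1Space X] {x : X} {o : Tot R X} (h : LocHom_P x o) :
    LocHom_P (((0 : ℝ), x) : ℝ × X) (κ.cx R ℝ X (LocHom_I R) o) := by
  let Up : Set (ℝ × X) := {p | p.1 < 0 ∨ p.2 ≠ x}
  let Um : Set (ℝ × X) := {p | 0 < p.1 ∨ p.2 ≠ x}
  let W : Set (ℝ × X) := {p | p.2 ≠ x}
  have hWo : IsOpen W := isOpen_ne.preimage continuous_snd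
  have hUp : IsOpen Up := (isOpen_lt continuous_fst continuous_const).union hWo
  have hUm : IsOpen Um := (isOpen_lt continuous_const continuous_fst).union hWo
  have hU : ({((0 : ℝ), x)}ᶜ : Set (ℝ × X)) = Up ∪ Um := by
    ext ⟨t, y⟩
    simp only [mem_compl_iff, mem_singleton_iff, Prod.mk.injEq, mem_union, mem_ofPred_eq, Up, Um]
    constructor
    · intro h
      by_cases hy : y = x
      · rcases lt_trichotomy t 0 with h1 | h1 | h1
        · exact Or.inl (Or.inl h1)
        · exact absurd ⟨h1, hy⟩ h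
        · exact Or.inr (Or.inl h1)
      · exact Or.inl (Or.inr hy)
    · rintro ((h | h) | (h | h)) ⟨h1, h2⟩
      · exact h.ne h1
      · exact h h2
      · exact h.ne' h1
      · exact h h2
  have hI : Up ∩ Um = W := by
    ext ⟨t, y⟩
    simp only [mem_inter_iff, mem_ofPred_eq, Up, Um, W]
    constructor
    · rintro ⟨h | h, h' | h'⟩
      · exact absurd h h'.asymm
      · exact h'
      · exact h
      · exact h
    · exact fun h => ⟨Or.inr h, Or.inr h⟩
  have hWp : CH R W ≤ CH R Up := CH_mono fun _ h => Or.inr h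
  have hWm : CH R W ≤ CH R Um := CH_mono fun _ h => Or.inr h
  have hpU : CH R Up ≤ CH R (Up ∪ Um) := CH_mono subset_union_left
  have hmU : CH R Um ≤ CH R (Up ∪ Um) := CH_mono subset_union_right
  have hW : ∀ c, c ∈ CH R Up → c ∈ CH R Um → c ∈ CH R W := fun c h1 h2 => by
    rw [← hI, CH_inter]
    exact ⟨h1, h2⟩
  have vp : ∀ c, dT R _ c ∈ CH R Up → ∃ b, c - dT R _ b ∈ CH R Up := fun c hc => by
    refine LocHom_vanish κ (-1) ?_ (fun y => Or.inl (by norm_num)) hc
    rintro ⟨s, t, y⟩ ⟨⟨h0, h1⟩, h | h⟩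
    · refine Or.inl ?_
      change (1 - s) * t + s * -1 < 0
      change t < 0 at h
      change 0 ≤ s at h0
      change s ≤ 1 at h1
      rcases h0.eq_or_lt with h0 | h0
      · rw [← h0]; linarith
      · nlinarith
    · exact Or.inr h
  have vm : ∀ c, dT R _ c ∈ CH R Um → ∃ b, c - dT R _ b ∈ CH R Um := fun c hc => by
    refine LocHom_vanish κ 1 ?_ (fun y => Or.inl (by norm_num)) hc
    rintro ⟨s, t, y⟩ ⟨⟨h0, h1⟩, h | h⟩
    · refine Or.inl ?_
      change 0 < (1 - s) * t + s * 1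
      change 0 < t at h
      change 0 ≤ s at h0
      change s ≤ 1 at h1
      rcases h0.eq_or_lt with h0 | h0
      · rw [← h0]; linarith
      · nlinarith
    · exact Or.inr h
  have msnd : MapsTo Prod.snd W ({x}ᶜ : Set X) := fun _ h => h
  have m1 : MapsTo (fun y : X => ((1 : ℝ), y)) ({x}ᶜ : Set X) W := fun _ h => h
  have c1 : Continuous fun y : X => ((1 : ℝ), y) := by fun_prop
  have o1 : psh R (fun y : X => ((1 : ℝ), y)) o ∈ CH R Um :=
    psh_mem_CH (B := Um) _ (fun y _ => Or.inl (by norm_num)) (mem_CH_univ o)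
  have o2 : psh R (fun y : X => ((-1 : ℝ), y)) o + κ.cx R ℝ X (LocHom_I R) (dT R X o) ∈
      CH R Up := by
    refine add_mem (psh_mem_CH (B := Up) _ (fun y _ => Or.inl (by norm_num)) (mem_CH_univ o)) ?_
    exact CH_mono (fun p hp => Or.inr hp.2) (κ.mem R ℝ X univ _ _ (mem_CH_univ _) _ h.cyc)
  have hd := LocHom_dcx κ o
  have hs : psh R Prod.snd (psh R (fun y : X => ((1 : ℝ), y)) o) = o := by
    rw [psh_psh' _ c1]
    exact psh_of_eqOn_id (fun _ _ => rfl) (mem_CH_univ o)
  generalize psh R (fun y : X => ((-1 : ℝ), y)) o + κ.cx R ℝ X (LocHom_I R) (dT R X o) = q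
    at o2 hd
  generalize κ.cx R ℝ X (LocHom_I R) o = O at hd
  refine ⟨?_, fun c hc => ?_, fun r b hb => ?_⟩
  · rw [hU, hd]
    exact sub_mem (hmU o1) (hpU o2)
  · rw [hU] at hc ⊢
    obtain ⟨m, hm⟩ := sdT_small_two hUp hUm hc
    obtain ⟨ap, hap, am, ham, hsum⟩ := Submodule.mem_sup.1 (hm m le_rfl)
    rw [← dT_sdT_pow] at hsum
    have hdam : dT R _ am ∈ CH R W := by
      refine hW _ ?_ (dT_mem_CH ham)
      have : dT R _ am = -dT R _ ap := by
        rw [eq_neg_iff_add_eq_zero, add_comm, ← map_add, hsum, dT_dT]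
      rw [this]
      exact neg_mem (dT_mem_CH hap)
    obtain ⟨b1, hb1⟩ := LocHom_push κ 1 (U := W) (fun _ hp => hp.2) hdam
    obtain ⟨r, b2, hb2⟩ := h.ex (psh R Prod.snd am) (by
      rw [dT_psh_cont continuous_snd]
      exact psh_mem_CH _ msnd hdam)
    have hb3 := psh_mem_CH _ m1 hb2
    rw [map_sub, map_sub, map_smul, ← dT_psh_cont c1] at hb3
    have hw := add_mem hb1 hb3
    generalize psh R (fun y : X => ((1 : ℝ), y)) (psh R Prod.snd am) = z at hw
    generalize psh R (fun y : X => ((1 : ℝ), y)) b2 = b3 at hw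
    generalize psh R (fun y : X => ((1 : ℝ), y)) o = O1 at hw hd o1
    have hb : dT R _ (b1 + b3) ∈ CH R Um := by
      have := sub_mem (sub_mem ham (Submodule.smul_mem _ r o1)) (hWm hw)
      rw [map_add]
      convert this using 1
      abel
    obtain ⟨e, he⟩ := vm _ hb
    have hc2 : dT R _ ((sdT R _ ^ m) c - r • O - (b1 + b3 - dT R _ e)) ∈ CH R Up := by
      have := add_mem (add_mem hap (Submodule.smul_mem _ r o2)) (hWp hw)
      rw [map_sub, map_sub, map_sub, dT_dT, map_smul, hd, ← hsum, map_add, smul_sub]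
      convert this using 1
      abel
    obtain ⟨e', he'⟩ := vp _ hc2
    refine ⟨r, sdHP R _ m c + e', ?_⟩
    have h3 := dT_sdHP m c
    have := add_mem (add_mem (hpU he') (hmU he)) (sdHP_mem_CH m hc)
    rw [map_add, eq_sub_of_add_eq h3]
    convert this using 1
    abel
  · rw [hU] at hb
    obtain ⟨m, hm⟩ := sdT_small_two hUp hUm hb
    have h3 := dT_sdHP m (r • O - dT R _ b)
    have h4 : sdHP R _ m (dT R _ (r • O - dT R _ b)) ∈ CH R Up ⊔ CH R Um := by
      rw [map_sub, dT_dT, sub_zero, map_smul, hd, map_smul, map_sub]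
      exact Submodule.smul_mem _ _ (sub_mem (Submodule.mem_sup_right (sdHP_mem_CH m o1))
        (Submodule.mem_sup_left (sdHP_mem_CH m o2)))
    obtain ⟨up, hup, um, hum, hsum⟩ := Submodule.mem_sup.1 (add_mem h4 (hm m le_rfl))
    have h5 : dT R _ up + dT R _ um = r • psh R (fun y : X => ((1 : ℝ), y)) o - r • q := by
      rw [← map_add, hsum, eq_sub_of_add_eq' h3, sub_right_comm, sub_add_cancel, map_sub, map_sub,
        dT_dT, dT_dT, sub_zero, sub_zero, map_smul, hd, smul_sub]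
    have h6 : r • psh R (fun y : X => ((1 : ℝ), y)) o - dT R _ um ∈ CH R W := by
      refine hW _ ?_ (sub_mem (Submodule.smul_mem _ _ o1) (dT_mem_CH hum))
      have := add_mem (dT_mem_CH hup) (Submodule.smul_mem _ r o2)
      rw [eq_sub_of_add_eq h5] at this
      convert this using 1
      abel
    have h7 := psh_mem_CH Prod.snd msnd h6
    rw [map_sub, map_smul, hs, ← dT_psh_cont continuous_snd] at h7
    exact h.uniq r _ h7

end Aux

theorem LocHom_all (κ : Kit) (hCtr : CtrStmt) (n : ℕ) : ∃ o ∈ DG ℤ (E n) n,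
    ∀ (R : Type) [CommRing R], LocHom_P (0 : E n) (castZ R _ o) := by
  induction n with
  | zero =>
    refine ⟨pt ℤ 0, pt_mem_DG _, fun R _ => ?_⟩
    rw [cast_pt]
    exact LocHom_base hCtr 0
  | succ n ih =>
    obtain ⟨o, ho, h⟩ := ih
    have e : (ℝ × E n) ≃L[ℝ] E (n + 1) := ContinuousLinearEquiv.ofFinrankEq (by simp [add_comm])
    refine ⟨psh ℤ e.toHomeomorph (κ.cx ℤ ℝ (E n) (LocHom_I ℤ) o), psh_mem_DG _ ?_, fun R _ => ?_⟩
    · exact add_comm 1 n ▸ κ.dg ℤ ℝ (E n) 1 n _ (pth_mem_DG _) _ ho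
    · have h1 := LocHom_homeo e.toHomeomorph (LocHom_susp κ (h R))
      have h2 : e.toHomeomorph (((0 : ℝ), (0 : E n)) : ℝ × E n) = 0 := map_zero e
      rw [h2] at h1
      rw [cast_psh, κ.cst, LocHom_I, cast_pth]
      exact h1

theorem locHom_stmt (κ : Kit) (hCtr : CtrStmt) : LocHomStmt := by
  intro n
  obtain ⟨o, ho, h⟩ := LocHom_all κ hCtr n
  refine ⟨o, ho, ?_, fun R _ k c hc hd => ?_⟩
  · have e : castZ ℤ _ o = o := by
      ext σ
      rw [cast_apply]
      rfl
    have := (h ℤ).cyc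
    rwa [e] at this
  · obtain ⟨r, b, hb⟩ := (h R).ex c hd
    refine ⟨fun hk => ⟨deg R _ (k + 1) b, ?_⟩, fun _ => ⟨r, ⟨b, hb⟩, ?_⟩⟩
    · have := deg_mem_CH k hb
      rwa [map_sub, map_sub, map_smul, deg_of_mem hc, deg_eq_zero hk (cast_mem_DG _ ho),
        smul_zero, sub_zero, deg_dT] at this
    · rintro r' ⟨b', hb'⟩
      have := sub_mem hb hb'
      refine sub_eq_zero.1 ((h R).uniq (r' - r) (b - b') ?_)
      rw [sub_smul, map_sub]
      convert this using 1
      abel

end Pool.Agent.MP_bc14e1_gt
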