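import Pool.Agent.MP_bc14e1_gt.IfP

open Set Metric
open scoped Classical

namespace Pool.Agent.MP_bc14e1_gt

theorem MVi_glue {M : Type} [AddCommGroup M] [Module ℂ M] (P Q N : Submodule ℂ M)
    (g g' : M →ₗ[ℂ] ℂ) (h : ∀ a ∈ P, ∀ b ∈ Q, ∀ c ∈ N, a + b + c = 0 → g a + g' b = 0) :
    ∃ f : M →ₗ[ℂ] ℂ, (∀ a ∈ P, f a = g a) ∧ (∀ b ∈ Q, f b = g' b) ∧ ∀ c ∈ N, f c = 0 := by
  let Φ : (P × Q) × N →ₗ[ℂ] M := (P.subtype.coprod Q.subtype).coprod N.subtype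
  let ψ : (P × Q) × N →ₗ[ℂ] ℂ := ((g ∘ₗ P.subtype).coprod (g' ∘ₗ Q.subtype)).coprod 0
  have h1 : ψ ∈ (LinearMap.ker Φ).dualAnnihilator := by
    rw [Submodule.mem_dualAnnihilator]
    rintro ⟨⟨a, b⟩, c⟩ hc
    have h2 := h a a.2 b b.2 c c.2 hc
    simpa [ψ] using h2
  rw [← LinearMap.range_dualMap_eq_dualAnnihilator_ker] at h1
  obtain ⟨f, hf⟩ := h1
  have h2 : ∀ x, f (Φ x) = ψ x := fun x => by rw [← hf, LinearMap.dualMap_apply]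
  refine ⟨f, fun a ha => ?_, fun b hb => ?_, fun c hc => ?_⟩
  · simpa [Φ, ψ] using h2 ((⟨a, ha⟩, 0), 0)
  · simpa [Φ, ψ] using h2 ((0, ⟨b, hb⟩), 0)
  · simpa [Φ, ψ] using h2 ((0, 0), ⟨c, hc⟩)

section

variable {G Y : Type} [Group G] [TopologicalSpace Y] [MulAction G Y] {s : G}
  {B : Tot ℂ Y →ₗ[ℂ] Tot ℂ Y →+ ℂ} {Z : Submodule ℂ (Tot ℂ Y)} {K K₁ K₂ U V : Set Y}
  {𝒦₁ 𝒦₂ 𝒦₀ 𝒦 : Set (Set Y)} {b c u u₁ u₂ : Tot ℂ Y}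

/-- Pairing with a fixed chain. -/
noncomputable def MVi_ev (B : Tot ℂ Y →ₗ[ℂ] Tot ℂ Y →+ ℂ) (u : Tot ℂ Y) : Tot ℂ Y →ₗ[ℂ] ℂ where
  toFun b := B b u
  map_add' := by simp
  map_smul' := by simp

omit [TopologicalSpace Y] in
theorem MVi_compl (h : Inv s K) : Inv s Kᶜ := fun y => not_congr (h y)

omit [TopologicalSpace Y] in
theorem MVi_union (h : Inv s K₁) (h' : Inv s K₂) : Inv s (K₁ ∪ K₂) :=
  fun y => or_congr (h y) (h' y)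

omit [TopologicalSpace Y] in
theorem MVi_inter (h : Inv s K₁) (h' : Inv s K₂) : Inv s (K₁ ∩ K₂) :=
  fun y => and_congr (h y) (h' y)

theorem MVi_anti (h : K₁ ⊆ K₂) (hc : c ∈ CH ℂ K₂ᶜ ⊔ Z) : c ∈ CH ℂ K₁ᶜ ⊔ Z :=
  sup_le_sup_right (CH_mono (compl_subset_compl.2 h)) Z hc

theorem MVi_map (F : Module.End ℂ (Tot ℂ Y)) (h1 : ∀ c ∈ CH ℂ K, F c ∈ CH ℂ K)
    (h2 : ∀ c ∈ Z, F c ∈ Z) (hc : c ∈ CH ℂ K ⊔ Z) : F c ∈ CH ℂ K ⊔ Z := by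
  obtain ⟨o, ho, z, hz, rfl⟩ := Submodule.mem_sup.1 hc
  rw [map_add]
  exact Submodule.add_mem_sup (h1 o ho) (h2 z hz)

theorem MVi_sdZ (hB : PP s B Z) (m : ℕ) (hc : c ∈ Z) : (sdT ℂ Y ^ m) c ∈ Z :=
  pow_mem hB.sd m hc

theorem MVi_shZ (hB : PP s B Z) (m : ℕ) (hc : c ∈ Z) : sdHP ℂ Y m c ∈ Z := by
  rw [sdHP, LinearMap.sum_apply]
  exact Submodule.sum_mem _ fun j _ => hB.sh _ (MVi_sdZ hB j hc)

theorem MVi_dN (hB : PP s B Z) (hc : c ∈ CH ℂ K ⊔ Z) : dT ℂ Y c ∈ CH ℂ K ⊔ Z :=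
  MVi_map _ (fun _ => dT_mem_CH) hB.d hc

theorem MVi_sdN (hB : PP s B Z) (m : ℕ) (hc : c ∈ CH ℂ K ⊔ Z) :
    (sdT ℂ Y ^ m) c ∈ CH ℂ K ⊔ Z :=
  MVi_map _ (fun _ => sdT_pow_mem_CH m) (fun _ => MVi_sdZ hB m) hc

theorem MVi_shN (hB : PP s B Z) (m : ℕ) (hc : c ∈ CH ℂ K ⊔ Z) : sdHP ℂ Y m c ∈ CH ℂ K ⊔ Z :=
  MVi_map _ (fun _ => sdHP_mem_CH m) (fun _ => MVi_shZ hB m) hc

theorem MVi_kill (hB : PP s B Z) (hK : Inv s K) (hb : b ∈ CH ℂ Kᶜ ⊔ Z) (hu : u ∈ CH ℂ K) :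
    B b u = 0 := by
  obtain ⟨o, ho, z, hz, rfl⟩ := Submodule.mem_sup.1 hb
  rw [map_add, AddMonoidHom.add_apply, hB.zl z hz,
    hB.loc _ _ (MVi_compl hK) hK disjoint_compl_left o ho u hu, add_zero]

theorem MVi_sdl (hB : PP s B Z) (hK : Inv s K) (hb : dT ℂ Y b ∈ CH ℂ Kᶜ ⊔ Z) (hu : u ∈ CH ℂ K)
    (hd : dT ℂ Y u ∈ Z) (m : ℕ) : B ((sdT ℂ Y ^ m) b) u = B b u := by
  have h1 : B (b - (sdT ℂ Y ^ m) b) u = 0 := by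
    rw [← dT_sdHP, map_add, AddMonoidHom.add_apply, hB.stokes, hB.zr _ _ hd,
      MVi_kill hB hK (MVi_shN hB m hb) hu, add_zero]
  rw [map_sub, AddMonoidHom.sub_apply] at h1
  exact (sub_eq_zero.1 h1).symm

theorem MVi_sdr (hB : PP s B Z) (hK : Inv s K) (hb : dT ℂ Y b ∈ CH ℂ Kᶜ ⊔ Z) (hu : u ∈ CH ℂ K)
    (hd : dT ℂ Y u ∈ Z) (m : ℕ) : B b ((sdT ℂ Y ^ m) u) = B b u := by
  have h1 : B b (u - (sdT ℂ Y ^ m) u) = 0 := by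
    rw [← dT_sdHP, map_add, ← hB.stokes, hB.zr _ _ (MVi_shZ hB m hd),
      MVi_kill hB hK hb (sdHP_mem_CH m hu), add_zero]
  rw [map_sub] at h1
  exact (sub_eq_zero.1 h1).symm

theorem MVi_both (hB : PP s B Z) (hK : Inv s K₂) (h1 : c ∈ CH ℂ K₁ᶜ ⊔ Z)
    (h2 : c ∈ CH ℂ K₂ᶜ ⊔ Z) : c ∈ CH ℂ (K₁ ∪ K₂)ᶜ ⊔ Z := by
  obtain ⟨o, ho, z, hz, rfl⟩ := Submodule.mem_sup.1 h2
  obtain ⟨o', ho', z', hz', e⟩ := Submodule.mem_sup.1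
    ((Submodule.add_mem_iff_left _ (Submodule.mem_sup_right hz)).1 h1)
  refine add_mem ?_ (Submodule.mem_sup_right hz)
  rw [← prj_of_mem ho, ← e, map_add, compl_union, CH_inter]
  exact Submodule.add_mem_sup ⟨prj_mem_CH _ ho', prj_mem _ _⟩ (hB.pr _ (MVi_compl hK) _ hz')

theorem MVi_split (hB : PP s B Z) (h1 : IsClosed K₁) (h2 : IsClosed K₂)
    (hc : c ∈ CH ℂ (K₁ ∩ K₂)ᶜ ⊔ Z) : ∃ m : ℕ, ∃ o₁ ∈ CH ℂ K₁ᶜ ⊔ Z, ∃ o₂ ∈ CH ℂ K₂ᶜ ⊔ Z,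
      (sdT ℂ Y ^ m) c = o₁ + o₂ := by
  obtain ⟨o, ho, z, hz, rfl⟩ := Submodule.mem_sup.1 hc
  rw [compl_inter] at ho
  obtain ⟨m, hm⟩ := sdT_small_two h1.isOpen_compl h2.isOpen_compl ho
  obtain ⟨o₁, ho₁, o₂, ho₂, e⟩ := Submodule.mem_sup.1 (hm m le_rfl)
  refine ⟨m, o₁, Submodule.mem_sup_left ho₁, o₂ + (sdT ℂ Y ^ m) z,
    Submodule.add_mem_sup ho₂ (MVi_sdZ hB m hz), ?_⟩
  rw [map_add, ← e, add_assoc]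

theorem MVi_carry (h : Adm s 𝒦 U) (hc : c ∈ CH ℂ U) : ∃ L ∈ 𝒦, c ∈ CH ℂ L := by
  obtain ⟨L, h1, h2, h3⟩ := exists_compact_CH hc
  obtain ⟨K, h4, h5⟩ := h.ex L h1 h2
  exact ⟨K, h4, CH_mono h5 h3⟩

/-- The case of two cycles. -/
theorem MVi_two (hB : PP s B Z) (a1 : Adm s 𝒦₁ U) (a2 : Adm s 𝒦₂ V) (hF : MVF 𝒦₁ 𝒦₂ 𝒦₀ 𝒦)
    (p1 : PDi B Z 𝒦₁ U) (p2 : PDi B Z 𝒦₂ V) (s0 : PDs B Z 𝒦₀) (k1 : K₁ ∈ 𝒦₁) (k2 : K₂ ∈ 𝒦₂)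
    (h1 : u₁ ∈ CH ℂ K₁) (h2 : u₂ ∈ CH ℂ K₂) (d1 : dT ℂ Y u₁ ∈ Z) (d2 : dT ℂ Y u₂ ∈ Z)
    (ho : ∀ b, dT ℂ Y b ∈ CH ℂ (K₁ ∪ K₂)ᶜ ⊔ Z → B b (u₁ + u₂) = 0) :
    ∃ w ∈ CH ℂ (U ∪ V), u₁ + u₂ - dT ℂ Y w ∈ Z := by
  have i1 := a1.kinv _ k1
  have i2 := a2.kinv _ k2
  obtain ⟨f, f1, f2, f3⟩ := MVi_glue ((CH ℂ K₁ᶜ ⊔ Z).comap (dT ℂ Y))
      ((CH ℂ K₂ᶜ ⊔ Z).comap (dT ℂ Y)) (CH ℂ (K₁ ∩ K₂)ᶜ ⊔ Z) (MVi_ev B u₁) (-MVi_ev B u₂) (by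
    intro b₁ hb₁ b₂ hb₂ c hc e
    obtain ⟨m, o₁, ho₁, o₂, ho₂, e'⟩ := MVi_split hB (a1.cl _ k1) (a2.cl _ k2) hc
    have e1 : (sdT ℂ Y ^ m) b₁ + o₁ = -((sdT ℂ Y ^ m) b₂ + o₂) := by
      have e2 := congrArg (sdT ℂ Y ^ m) e
      rw [map_add, map_add, e', map_zero] at e2
      rw [eq_neg_iff_add_eq_zero, ← e2]
      abel
    have t1 : dT ℂ Y ((sdT ℂ Y ^ m) b₁ + o₁) ∈ CH ℂ K₁ᶜ ⊔ Z := by
      rw [map_add, dT_sdT_pow]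
      exact add_mem (MVi_sdN hB m hb₁) (MVi_dN hB ho₁)
    have t2 : dT ℂ Y ((sdT ℂ Y ^ m) b₁ + o₁) ∈ CH ℂ K₂ᶜ ⊔ Z := by
      rw [e1, map_neg, map_add, dT_sdT_pow]
      exact neg_mem (add_mem (MVi_sdN hB m hb₂) (MVi_dN hB ho₂))
    have t3 := ho _ (MVi_both hB i2 t1 t2)
    have t4 : B ((sdT ℂ Y ^ m) b₁ + o₁) u₁ = B b₁ u₁ := by
      rw [map_add, AddMonoidHom.add_apply, MVi_sdl hB i1 hb₁ h1 d1, MVi_kill hB i1 ho₁ h1,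
        add_zero]
    have t5 : B ((sdT ℂ Y ^ m) b₁ + o₁) u₂ = -B b₂ u₂ := by
      rw [e1, map_neg, AddMonoidHom.neg_apply, map_add, AddMonoidHom.add_apply,
        MVi_sdl hB i2 hb₂ h2 d2, MVi_kill hB i2 ho₂ h2, add_zero]
    rw [(B _).map_add, t4, t5] at t3
    exact t3)
  obtain ⟨L, hL, -, v, hv, dv, hf⟩ := s0 _ (hF.inter _ k1 _ k2) f (fun b => by
    rw [f1 _ (by simp [dT_dT])]
    change B _ _ = 0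
    rw [hB.stokes, hB.zr _ _ d1]) f3
  obtain ⟨w₁, hw₁, e₁⟩ := p1 _ (a1.union _ k1 _ (hF.le₁ hL)) (u₁ - v)
    (sub_mem (CH_mono subset_union_left h1) (CH_mono subset_union_right hv))
    (by rw [map_sub]; exact sub_mem d1 dv) fun b hb => by
      rw [map_sub, hf b (MVi_anti subset_union_right hb), f1 b (MVi_anti subset_union_left hb)]
      exact sub_self _
  obtain ⟨w₂, hw₂, e₂⟩ := p2 _ (a2.union _ k2 _ (hF.le₂ hL)) (u₂ + v)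
    (add_mem (CH_mono subset_union_left h2) (CH_mono subset_union_right hv))
    (by rw [map_add]; exact add_mem d2 dv) fun b hb => by
      rw [map_add, hf b (MVi_anti subset_union_right hb), f2 b (MVi_anti subset_union_left hb)]
      exact add_neg_cancel _
  refine ⟨w₁ + w₂, add_mem (CH_mono subset_union_left hw₁) (CH_mono subset_union_right hw₂), ?_⟩
  convert add_mem e₁ e₂ using 1
  rw [map_add]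
  abel

/-- The case of a sum of two chains. -/
theorem MVi_sum (hB : PP s B Z) (a1 : Adm s 𝒦₁ U) (a2 : Adm s 𝒦₂ V) (a0 : Adm s 𝒦₀ (U ∩ V))
    (hF : MVF 𝒦₁ 𝒦₂ 𝒦₀ 𝒦) (p1 : PDi B Z 𝒦₁ U) (p2 : PDi B Z 𝒦₂ V) (p0 : PDi B Z 𝒦₀ (U ∩ V))
    (s0 : PDs B Z 𝒦₀) (k1 : K₁ ∈ 𝒦₁) (k2 : K₂ ∈ 𝒦₂)
    (h1 : u₁ ∈ CH ℂ K₁) (h2 : u₂ ∈ CH ℂ K₂) (hd : dT ℂ Y (u₁ + u₂) ∈ Z)
    (ho : ∀ b, dT ℂ Y b ∈ CH ℂ (K₁ ∪ K₂)ᶜ ⊔ Z → B b (u₁ + u₂) = 0) :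
    ∃ w ∈ CH ℂ (U ∪ V), u₁ + u₂ - dT ℂ Y w ∈ Z := by
  have i1 := a1.kinv _ k1
  have i2 := a2.kinv _ k2
  rw [map_add] at hd
  obtain ⟨y, hy, y1, y2⟩ : ∃ y ∈ CH ℂ (K₁ ∩ K₂), dT ℂ Y u₁ - y ∈ Z ∧ y + dT ℂ Y u₂ ∈ Z := by
    have h3 := hB.pr _ i2 _ hd
    rw [map_add, prj_of_mem (dT_mem_CH h2)] at h3
    refine ⟨_, ?_, ?_, h3⟩
    · rw [CH_inter]
      exact ⟨prj_mem_CH _ (dT_mem_CH h1), prj_mem _ _⟩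
    · convert sub_mem hd h3 using 1
      abel
  have dy : dT ℂ Y y ∈ Z := by
    have h3 := hB.d _ y1
    rwa [map_sub, dT_dT, zero_sub, neg_mem_iff] at h3
  obtain ⟨v, hv, e⟩ := p0 _ (hF.inter _ k1 _ k2) y hy dy fun b hb => by
    obtain ⟨m, o₁, ho₁, o₂, ho₂, e'⟩ := MVi_split hB (a1.cl _ k1) (a2.cl _ k2) hb
    have t1 : dT ℂ Y o₂ ∈ CH ℂ K₁ᶜ ⊔ Z := by
      have e2 := congrArg (dT ℂ Y) e'
      rw [dT_sdT_pow, dT_dT, map_zero, map_add, eq_comm, add_eq_zero_iff_neg_eq] at e2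
      rw [← e2]
      exact neg_mem (MVi_dN hB ho₁)
    have t2 := ho _ (MVi_both hB i2 t1 (MVi_dN hB ho₂))
    have t3 := hB.zr ((sdT ℂ Y ^ m) b) _ y1
    rw [map_add, MVi_kill hB i2 ho₂ h2, add_zero] at t2
    rw [map_sub, ← hB.stokes, dT_sdT_pow, e', map_add, AddMonoidHom.add_apply, t2,
      MVi_kill hB i1 ho₁ h1, MVi_sdl hB (MVi_inter i1 i2) hb hy dy, add_zero, zero_sub,
      neg_eq_zero] at t3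
    exact t3
  obtain ⟨L, hL, hvL⟩ := MVi_carry a0 hv
  have e1 : u₁ + u₂ = (u₁ - v) + (u₂ + v) := by abel
  rw [e1] at ho ⊢
  refine MVi_two hB a1 a2 hF p1 p2 s0 (a1.union _ k1 _ (hF.le₁ hL)) (a2.union _ k2 _ (hF.le₂ hL))
    (sub_mem (CH_mono subset_union_left h1) (CH_mono subset_union_right hvL))
    (add_mem (CH_mono subset_union_left h2) (CH_mono subset_union_right hvL)) ?_ ?_
    fun b hb => ho b (MVi_anti (union_subset_union subset_union_left subset_union_left) hb)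
  · convert add_mem y1 e using 1
    rw [map_sub]
    abel
  · convert sub_mem y2 e using 1
    rw [map_add]
    abel

end

theorem mvi_stmt : MViStmt := by
  intro G Y _ _ _ s B Z 𝒦₁ 𝒦₂ 𝒦₀ 𝒦 U V hB a1 a2 a0 hF p1 p2 p0 s0 K hK u hu hd ho
  obtain ⟨K₁, k1, K₂, k2, hs⟩ := hF.spl K hK
  have hUV : u ∈ CH ℂ (U ∪ V) :=
    CH_mono (hs.trans (union_subset_union (a1.sub _ k1) (a2.sub _ k2))) hu
  obtain ⟨m, hm⟩ := sdT_small_two a1.op a2.op hUV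
  obtain ⟨u₁, h1, u₂, h2, e⟩ := Submodule.mem_sup.1 (hm m le_rfl)
  obtain ⟨L₁, l1, h1'⟩ := MVi_carry a1 h1
  obtain ⟨L₂, l2, h2'⟩ := MVi_carry a2 h2
  have hs' : K ⊆ (K₁ ∪ L₁) ∪ (K₂ ∪ L₂) :=
    hs.trans (union_subset_union subset_union_left subset_union_left)
  obtain ⟨w, hw, hz⟩ := MVi_sum hB a1 a2 a0 hF p1 p2 p0 s0 (a1.union _ k1 _ l1)
    (a2.union _ k2 _ l2) (CH_mono subset_union_right h1') (CH_mono subset_union_right h2')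
    (by rw [e, dT_sdT_pow]; exact MVi_sdZ hB m hd) fun b hb => by
      rw [e, MVi_sdr hB (MVi_union (a1.kinv _ (a1.union _ k1 _ l1))
        (a2.kinv _ (a2.union _ k2 _ l2))) hb (CH_mono hs' hu) hd]
      exact ho b (MVi_anti hs' hb)
  refine ⟨w + sdHP ℂ Y m u, add_mem hw (sdHP_mem_CH m hUV), ?_⟩
  convert add_mem hz (MVi_shZ hB m hd) using 1
  rw [e, map_add, eq_sub_of_add_eq (dT_sdHP m u)]
  abel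

end Pool.Agent.MP_bc14e1_gt
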