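import Pool.Agent.MP_bc14e1_gt.IfL

open Set Metric
open scoped Classical

namespace Pool.Agent.MP_bc14e1_gt

theorem NS_inv (ζ : Circle) (hζ : ζ ≠ 1) :
    (LaurentPolynomial.C (((ζ : ℂ) - 1)⁻¹) : Lam ℂ) *
      ((LaurentPolynomial.T 1 - 1 : Lam ℂ) - piL ζ) = 1 := by
  have h : (ζ : ℂ) - 1 ≠ 0 := by
    intro h
    apply hζ
    ext
    simpa using sub_eq_zero.1 h
  have e : (LaurentPolynomial.T 1 - 1 : Lam ℂ) - piL ζ = LaurentPolynomial.C ((ζ : ℂ) - 1) := by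
    rw [piL, map_sub, map_one]
    ring
  rw [e, ← map_mul, inv_mul_cancel₀ h, map_one]

theorem ns_stmt (hLaur : LaurStmt) (hKey : KeyStmt) : NSStmt := by
  intro C _ _ d M l ζ P hAS hH0 hζ hP x hx hxB c hc hdc
  have hπ : piL ζ ≠ 0 := (hLaur.2.2.2.2.2.2.2.2.2.1 ζ).ne_zero
  obtain ⟨a, c0, ha, hac, hc0, hcm⟩ := (hKey C d M l ζ hAS).2.2.2.2.2.1 2 c hc
  have hcI : c ∈ M 2 (Icc a c0) := hAS.mono _ _ _ Ioo_subset_Icc_self hcm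
  have hnot : ¬ ∃ w ∈ M 3 (Ioo (-1) 1), ∃ y ∈ M 2 (Ioo (-1) 1), c = d w + piL ζ • y := by
    rintro ⟨w, -, y', hy', hcw⟩
    apply hxB
    refine ⟨y', hy', ?_⟩
    have h1 : piL ζ • (d y' - x) = 0 := by
      rw [smul_sub, ← hdc, hcw, map_add, hAS.dd, map_smul, zero_add, sub_self]
    exact sub_eq_zero.1 (hAS.tf0 _ hπ _ h1)
  obtain ⟨b, hb, a', ha', r₁, hr₁, r₂, hr₂, hdb, ⟨y1, hy1⟩, hne⟩ :=
    hAS.pdN ζ hζ a c0 ha hc0 c hcI ⟨x, hdc⟩ hnot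
  have hsub : Ioo c0 1 ⊆ Ioo (-1 : ℝ) 1 := Ioo_subset_Ioo_left (by linarith)
  obtain ⟨y2, hy2⟩ : ∃ y2, d r₂ = piL ζ • y2 := by
    refine ⟨-(d a') - y1, ?_⟩
    have h0 := hAS.dd b
    rw [hdb, map_add, map_add, map_smul, hy1] at h0
    rw [smul_sub, smul_neg, eq_neg_of_add_eq_zero_right h0]
    abel
  have hy2m : y2 ∈ M 0 (Ioo c0 1) := hAS.tf _ hπ _ _ _ (hy2 ▸ hAS.d_mem 0 _ _ hr₂)
  obtain ⟨w, hw, hwd⟩ := hH0 y2 (hAS.mono _ _ _ hsub hy2m)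
  obtain ⟨w'', hw'', hw''d⟩ : ∃ w'' ∈ M 1 (Ioo (-1) 1), d w'' = y2 := by
    refine ⟨(LaurentPolynomial.C (((ζ : ℂ) - 1)⁻¹) : Lam ℂ) • (w - r₂),
      Submodule.smul_mem _ _ (Submodule.sub_mem _ hw (hAS.mono _ _ _ hsub hr₂)), ?_⟩
    rw [map_smul, map_sub, ← hwd, hy2, ← sub_smul, smul_smul, NS_inv ζ hζ, one_smul]
  obtain ⟨r, H, hrH⟩ := hAS.retrN (-1) c0 1 1 le_rfl (by linarith) hc0 le_rfl le_rfl
  obtain ⟨w', hw', hw'd⟩ : ∃ w' ∈ M 1 (Ioo c0 1), d w' = y2 := by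
    obtain ⟨h1, -, h3⟩ := (hrH 1).1 w'' hw''
    refine ⟨r w'' + H y2, Submodule.add_mem _ h1 ((hrH 0).2 y2 hy2m), ?_⟩
    have h4 := congrArg d h3
    rw [map_add, hAS.dd, zero_add, map_sub, hw''d] at h4
    rw [map_add, h4, add_sub_cancel]
  have hym : r₂ - piL ζ • w' ∈ M 1 (Ioo c0 1) :=
    Submodule.sub_mem _ hr₂ (Submodule.smul_mem _ _ hw')
  have hyZ : r₂ - piL ζ • w' ∈ ZN d M := by
    refine ⟨hAS.mono _ _ _ hsub hym, ?_⟩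
    rw [SetLike.mem_coe, LinearMap.mem_ker, map_sub, map_smul, hw'd, hy2, sub_self]
  have hcQ : c ∈ QN d M ζ := ⟨hc, x, hdc.symm⟩
  refine ⟨r₂ - piL ζ • w', hyZ, ?_⟩
  have hk : Pk d M l ζ (r₂ - piL ζ • w') c (evL ζ (l b c)) := by
    refine ⟨a, c0, ha, hc0, hcI, b, hAS.mono _ _ _ Ioo_subset_Iio_self hb, r₂ - piL ζ • w', hym,
      r₁, hAS.mono _ _ _ Ioo_subset_Iio_self hr₁, a' + w',
      Submodule.add_mem _ (hAS.mono _ _ _ Ioo_subset_Iio_self ha')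
        (hAS.mono _ _ _ Ioo_subset_Iio_self hw'), ?_, ?_, rfl⟩
    · rw [sub_self]
      exact Submodule.zero_mem _
    · rw [hdb, smul_add]
      abel
  rw [← (hP.spec _ hyZ c hcQ _).1 hk]
  exact hne

end Pool.Agent.MP_bc14e1_gt
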