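import Pool.Agent.MP_bc14e1_gt.If

open Set Metric
open scoped Classical

namespace Pool.Agent.MP_bc14e1_gt

theorem Neg_null {X : Type} [TopologicalSpace X] {A B : Set X} {k : ℕ} {c : Sing X k →₀ ℤ}
    (h : Null A B k c) : Null A B k (-c) := by
  obtain ⟨b, hb, h⟩ := h
  refine ⟨-b, neg_mem hb, ?_⟩
  rw [map_neg, neg_sub_neg, ← neg_sub]
  exact neg_mem h

/-- The opposite orientation. -/
noncomputable def Neg_ori {W : Type} [TopologicalSpace W] (o : Orientation4 W) :
    Orientation4 W where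
  o p := -o.o p
  rel p := by rw [map_neg]; exact neg_mem (o.rel p)
  gen p c hc := by
    obtain ⟨n, hn, hu⟩ := o.gen p c hc
    refine ⟨-n, by simpa only [smul_neg, neg_smul, neg_neg] using hn, fun m hm => ?_⟩
    rw [← hu (-m) (by simpa only [smul_neg, neg_smul] using hm), neg_neg]
  loc p := by
    obtain ⟨U, hU, w, hw, h⟩ := o.loc p
    refine ⟨U, hU, -w, by rw [map_neg]; exact neg_mem hw, fun q hq => ?_⟩
    rw [neg_sub_neg, ← neg_sub]
    exact Neg_null (h q hq)

theorem Neg_inter {W : Type} [TopologicalSpace W] {o : Orientation4 W} {x y : Sing W 2 →₀ ℤ}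
    {n : ℤ} (h : InterNum o x y n) : InterNum (Neg_ori o) x y (-n) := by
  obtain ⟨p, h⟩ := h
  refine ⟨p, ?_⟩
  change Null _ _ 4 (_ - -n • push ℤ _ 4 (-o.o p))
  rwa [map_neg, neg_smul_neg]

theorem neg_stmt : NegStmt := by
  rintro K ⟨W, i1, i2, i3, i4, i5, o, c, V, d, k, S, h1, h2, h3, h4, h5, h6, h7, h8, h9, h10, h11,
    h12, h13⟩
  refine ⟨W, i1, i2, i3, i4, i5, Neg_ori o, c, V, d, k, S, h1, h2, h3, h4, h5, h6, h7, h8, h9, h10,
    h11, h12, fun i j => ?_⟩
  have := Neg_inter (h13 i j)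
  split_ifs at this ⊢
  · rwa [neg_neg] at this
  · rwa [neg_zero] at this

end Pool.Agent.MP_bc14e1_gt
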