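import Pool.Agent.MP_bc14e1_gt.If

open Set Metric
open scoped Classical

namespace Pool.Agent.MP_bc14e1_gt

theorem Norm1_inj {G : Type} [Group G] {t : G} (ht : ∀ n : ℤ, t ^ n = 1 → n = 0) {a b : ℤ}
    (h : t ^ a = t ^ b) : a = b :=
  sub_eq_zero.1 (ht _ (by rw [zpow_sub, h, mul_inv_cancel]))

/-- A small meridian inside an open set that meets the surface. -/
theorem Norm1_mer {X : Type} [TopologicalSpace X] {F N : Set X} (hF : Flat F) (hN : IsOpen N)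
    (h : (F ∩ N).Nonempty) : ∃ e z w, Mer F e z w ∧ Continuous (rotL e z w) ∧
      ∀ θ, rotL e z w θ ∈ N ∩ Fᶜ := by
  obtain ⟨x, hxF, hxN⟩ := h
  obtain ⟨e, he, hx⟩ := hF.ch x hxF
  have h0 : ((e x).1, (0 : ℂ)) = e x := Prod.ext rfl ((he x hx).1 hxF).symm
  have h1 : (fun w : ℂ => ((e x).1, w)) ⁻¹' (e.target ∩ e.symm ⁻¹' N) ∈ nhds (0 : ℂ) := by
    refine ((e.isOpen_inter_preimage_symm hN).preimage (by fun_prop)).mem_nhds ?_
    rw [mem_preimage, h0]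
    exact ⟨e.map_source hx, by rwa [mem_preimage, e.left_inv hx]⟩
  obtain ⟨ε, hε, h2⟩ := nhds_basis_closedBall.mem_iff.1 h1
  have hn : ‖(ε : ℂ)‖ = ε := by rw [Complex.norm_real, Real.norm_of_nonneg hε.le]
  have h3 : ∀ w' : ℂ, ‖w'‖ ≤ ‖(ε : ℂ)‖ → ((e x).1, w') ∈ e.target ∩ e.symm ⁻¹' N :=
    fun w' hw => h2 (mem_closedBall_zero_iff.2 (hn ▸ hw))
  have hw0 : (ε : ℂ) ≠ 0 := Complex.ofReal_ne_zero.2 hε.ne'
  have h4 : ∀ θ : ℝ, ((e x).1, Complex.exp (2 * Real.pi * Complex.I * θ) * ε) ∈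
      e.target ∩ e.symm ⁻¹' N := by
    intro θ
    refine h3 _ (le_of_eq ?_)
    have : (2 * Real.pi * Complex.I * θ : ℂ) = ((2 * Real.pi * θ : ℝ) : ℂ) * Complex.I := by
      push_cast
      ring
    rw [norm_mul, this, Complex.norm_exp_ofReal_mul_I, one_mul]
  refine ⟨e, (e x).1, ε, ⟨he, hw0, fun w' hw => (h3 w' hw).1⟩,
    e.continuousOn_symm.comp_continuous (by fun_prop) fun θ => (h4 θ).1,
    fun θ => ⟨(h4 θ).2, fun hθ => ?_⟩⟩
  have h5 := (he _ (e.map_target (h4 θ).1)).1 hθ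
  rw [e.right_inv (h4 θ).1] at h5
  exact mul_ne_zero (Complex.exp_ne_zero _) hw0 h5

/-- A lifted meridian joins a point to its translate by a generator. -/
theorem Norm1_join (B : Bas1) {X G Y : Type} [TopologicalSpace X] [Group G] [TopologicalSpace Y]
    [MulAction G Y] [ContinuousConstSMul G Y] {F N : Set X} {p : Y → X} {t : G} (hT : TC F p t)
    (hg : ∀ g : G, ∃ n : ℤ, g = t ^ n) (hN : IsOpen N) (h : (F ∩ N).Nonempty) :
    ∃ (y : Y) (k : ℤ), IsUnit k ∧ JoinedIn (p ⁻¹' (N ∩ Fᶜ)) y (t ^ k • y) := by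
  obtain ⟨e, z, w, hm, hc, hO⟩ := Norm1_mer hT.flat hN h
  obtain ⟨y, hy⟩ := (B.cov G X Y _ p hT.cov).2.2.2.1 _ (hO 0).2
  obtain ⟨H, H1, -, H3, -⟩ := B.hl G X Y _ p hT.cov {rotL e z w 0} (fun q => rotL e z w q.1)
    (hc.comp continuous_fst).continuousOn (fun q _ => (hO q.1).2) fun x hx => hx.1.symm
  let γ : C(unitInterval, Y) := ⟨fun θ => H (θ, y),
    H1.comp_continuous (by fun_prop) fun θ => ⟨θ.2, hy⟩⟩
  have hγ : ∀ θ : unitInterval, p (γ θ) = rotL e z w θ := fun θ => H3 θ θ.2 y hy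
  obtain ⟨m, hm'⟩ := hT.rot
  obtain ⟨g, h1, h2⟩ := hm' e z w hm γ hγ
  obtain ⟨k, rfl⟩ := hg g
  refine ⟨γ 0, k, ?_, ⟨γ, rfl, h1⟩, fun θ => ?_⟩
  · rw [← zpow_natCast, ← zpow_mul] at h2
    rcases h2 with h2 | h2
    · exact IsUnit.of_mul_eq_one _ (Norm1_inj hT.inf (h2.trans (zpow_one t).symm))
    · refine IsUnit.of_mul_eq_one (-(m : ℤ)) ?_
      rw [mul_neg, Norm1_inj hT.inf (h2.trans (zpow_neg_one t).symm), neg_neg]
  · change p (γ θ) ∈ N ∩ Fᶜ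
    rw [hγ]
    exact hO θ

theorem Norm1_dvd {G Reg : Type} [Group G] {t : G} (ht : ∀ n : ℤ, t ^ n = 1 → n = 0)
    (hg : ∀ g : G, ∃ n : ℤ, g = t ^ n) (n gap : Reg → ℤ) {a b k : ℤ}
    (hn : ∀ r, n r = a + b * gap r)
    (h : Finsupp.single (false, t ^ k) 1 - Finsupp.single (false, 1) 1 ∈
      LinearMap.range (d1A ℤ fun r => t ^ n r)) : b ∣ k := by
  choose lg hlg using hg
  have h1 : ∀ j, lg (t ^ j) = j := fun j => Norm1_inj ht (hlg _).symm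
  let χ : Bool × G → ℤ := fun z => if b ∣ lg z.2 - cond z.1 a 0 then 1 else 0
  have h2 : ∀ x, Finsupp.linearCombination ℤ χ (d1A ℤ (fun r => t ^ n r) x) = 0 := by
    intro x
    induction x using Finsupp.induction_linear with
    | zero => simp
    | add u v hu hv => rw [map_add, map_add, hu, hv, add_zero]
    | single z c =>
      have e : lg (z.2 * t ^ n z.1) - a = lg z.2 - 0 + b * gap z.1 := by
        conv_lhs => rw [hlg z.2, ← zpow_add, h1, hn]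
        ring
      simp only [d1A, Finsupp.linearCombination_single, map_smul, map_sub, one_smul, χ, cond, e,
        dvd_add_left (dvd_mul_right b (gap z.1)), sub_self, smul_zero]
  obtain ⟨x, hx⟩ := h
  have h3 := h2 x
  have h4 : lg 1 = 0 := by simpa using h1 0
  rw [hx] at h3
  simp only [map_sub, Finsupp.linearCombination_single, one_smul, χ, cond, h1, h4, sub_zero,
    dvd_zero, if_true] at h3
  by_contra hn'
  rw [if_neg hn'] at h3
  exact absurd h3 (by norm_num)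

theorem norm1_stmt (B : Bas1) (hDehn : DehnStmt) : Norm1Stmt := by
  intro X G Y Reg Cr _ _ _ _ _ _ _ F N φ p t l reg ρ D C P hN hF
  have cov := P.tc.cov
  have hU : D.Up ⊆ Fᶜ := fun x hx => (D.cover.subset (.inl (.inl hx))).2
  have hL : D.Lo ⊆ Fᶜ := fun x hx => (D.cover.subset (.inl (.inr hx))).2
  obtain ⟨yU, hyU⟩ := (B.cov G X Y _ p cov).2.2.2.1 _ (hU D.ctU.1)
  obtain ⟨yL, hyL⟩ := (B.cov G X Y _ p cov).2.2.2.1 _ (hL D.ctL.1)
  obtain ⟨σU, u1, u2, -⟩ := B.sec G X Y _ p cov _ _ hU D.ctU yU (hyU ▸ D.ctU.1)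
  obtain ⟨σL, l1, l2, -⟩ := B.sec G X Y _ p cov _ _ hL D.ctL yL (hyL ▸ D.ctL.1)
  have hn : ∀ R, ∃ n : ℤ, σU (D.r R) = t ^ n • σL (D.r R) := by
    intro R
    have hr : D.r R ∈ D.Up ∩ D.Lo := D.unR.subset (mem_iUnion.2 ⟨R, D.rm R⟩)
    obtain ⟨g, hg⟩ := cov.trans _ _ ((l2 _ hr.2).trans (u2 _ hr.1).symm)
    obtain ⟨n, rfl⟩ := P.gen g
    exact ⟨n, hg⟩
  choose n hn using hn
  have : Nonempty Reg := ⟨C.R0⟩
  have DM := hDehn G X Y Reg Cr _ _ p reg D σU σL (fun R => t ^ n R) cov inter_subset_right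
    ⟨u1, l1, u2, l2, hn⟩
  obtain ⟨a, b, hab⟩ := C.gapU n fun c => Norm1_inj P.tc.inf (by
    rw [zpow_add, zpow_sub]
    exact DM.hol c)
  have tr : ∀ (g : G) {y y' : Y}, JoinedIn (p ⁻¹' (N ∩ Fᶜ)) y y' →
      JoinedIn (p ⁻¹' (N ∩ Fᶜ)) (g • y) (g • y') := by
    intro g y y' h
    refine (h.map (continuous_const_smul g)).mono ?_
    rintro _ ⟨u, hu, rfl⟩
    rwa [mem_preimage, cov.inv]
  obtain ⟨y, k, hk, hj⟩ := Norm1_join B P.tc P.gen hN hF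
  obtain ⟨g, hg⟩ := DM.h0 y hj.source_mem
  have h1 := tr g⁻¹ ((hg.symm.trans hj).trans (tr (t ^ k) hg))
  obtain ⟨j, rfl⟩ := P.gen g
  rw [inv_smul_smul, ← mul_smul, ← mul_smul, ← zpow_neg, ← zpow_add, ← zpow_add,
    neg_add_cancel_comm] at h1
  have hb := isUnit_of_dvd_unit (Norm1_dvd P.tc.inf P.gen n C.gap hab (DM.h0i _ h1)) hk
  refine ⟨t ^ b, ?_, σU, fun x => t ^ a • σL x, u1, l1.const_smul _, u2,
    fun x hx => (cov.inv _ _).trans (l2 x hx), fun R => ?_⟩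
  · rcases Int.isUnit_iff.1 hb with rfl | rfl
    · exact .inl (zpow_one t)
    · exact .inr (zpow_neg_one t)
  · rw [hn, hab, ← mul_smul, ← zpow_mul, ← zpow_add, add_comm]

end Pool.Agent.MP_bc14e1_gt
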