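import Pool.Agent.MP_bc14e1_gt.If

open Set Metric
open scoped Classical

namespace Pool.Agent.MP_bc14e1_gt

theorem Norm2_pre {X : Type} [TopologicalSpace X] {A : Set X} {x : X} (h : Ctr A x) :
    IsPreconnected A := by
  obtain ⟨-, H, h1, h2, h3, h4⟩ := h
  refine isPreconnected_of_forall x fun y hy => ⟨H '' (Icc 0 1 ×ˢ {y}), ?_, ?_, ?_, ?_⟩
  · rintro _ ⟨⟨a, b⟩, ⟨ha, hb⟩, rfl⟩
    exact h2 ⟨ha, (mem_singleton_iff.1 hb : b = y) ▸ hy⟩
  · exact ⟨(1, y), ⟨⟨zero_le_one, le_rfl⟩, rfl⟩, h4 y hy⟩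
  · exact ⟨(0, y), ⟨⟨le_rfl, zero_le_one⟩, rfl⟩, h3 y hy⟩
  · exact (isPreconnected_Icc.prod isPreconnected_singleton).image _
      (h1.mono (prod_mono subset_rfl (singleton_subset_iff.2 hy)))

theorem Norm2_sep {G X Y : Type} [Group G] [TopologicalSpace X] [TopologicalSpace Y]
    [MulAction G Y] [ContinuousConstSMul G Y] {Z : Set X} {p : Y → X} (h : GCov G Z p) :
    IsSeparatedMap p := by
  intro y1 y2 e hne
  obtain ⟨U, -, hU, -, σ, -, h2, h3⟩ := h.sec (p y1) (h.mem y1)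
  obtain ⟨g1, e1⟩ := h.trans (σ (p y1)) y1 (h2 _ hU)
  obtain ⟨g2, e2⟩ := h.trans (σ (p y1)) y2 ((h2 _ hU).trans e)
  refine ⟨(fun y => g1⁻¹ • y) ⁻¹' (σ '' U), (fun y => g2⁻¹ • y) ⁻¹' (σ '' U),
    h3.preimage (continuous_const_smul _), h3.preimage (continuous_const_smul _),
    ⟨p y1, hU, (eq_inv_smul_iff.2 e1.symm)⟩, ⟨p y1, hU, (eq_inv_smul_iff.2 e2.symm)⟩, ?_⟩
  rw [Set.disjoint_left]
  rintro y ⟨a, ha, ea⟩ ⟨b, hb, eb⟩
  have hab : a = b := by rw [← h2 a ha, ← h2 b hb, ea, eb, h.inv, h.inv]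
  have h4 : (g2 * g1⁻¹) • y = y := by
    have : g1⁻¹ • y = g2⁻¹ • y := ea.symm.trans (hab ▸ eb)
    rw [mul_smul, this, smul_inv_smul]
  apply hne
  rw [e2, mul_inv_eq_one.1 (h.free _ _ h4)]
  exact e1

section

variable {X G Y A G' Y' Reg Cr : Type} [TopologicalSpace X] [Group G]
  [TopologicalSpace Y] [MulAction G Y] [ContinuousConstSMul G Y] [AddCommGroup A]
  [Group G'] [TopologicalSpace Y'] [MulAction G' Y'] [ContinuousConstSMul G' Y']
  {F O : Set X} {p : Y → X} {t : G} {τ : A ≃ₗ[ℤ] A} {m : ℕ}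
  {α : Tot ℤ Y →+ A} {q : Y' → Y} {j : Multiplicative A →* G'} {t' : G'} {l' : Y' → A}

theorem Norm2_lift (B : Bas1) (h1 : GCov G Fᶜ p) (P : Pack2 F p t τ m α q j t' l') {U : Set X}
    {x : X} (hU : U ⊆ Fᶜ) (hc : Ctr U x) {σ : X → Y} (h2 : ContinuousOn σ U)
    (h3 : ∀ x ∈ U, p (σ x) = x) : ∃ σ' : X → Y', ContinuousOn σ' U ∧ ∀ x ∈ U, q (σ' x) = σ x := by
  obtain ⟨y, hy⟩ := (B.cov _ _ _ _ _ P.cov).2.2.2.1 (σ x) trivial
  have e : (p ∘ q) y = x := by rw [Function.comp_apply, hy, h3 x hc.1]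
  obtain ⟨σ', k1, k2, k3, -⟩ := B.sec _ _ _ _ _ P.tc.cov U x hU hc y (e ▸ hc.1)
  refine ⟨σ', k1, (Norm2_sep h1).eqOn_of_comp_eqOn
    (B.cov _ _ _ _ _ h1).2.1.isLocallyInjective (Norm2_pre hc)
    (P.cov.cont.comp_continuousOn k1) h2 (fun z hz => (k2 z hz).trans (h3 z hz).symm) hc.1 ?_⟩
  rw [e] at k3
  rw [k3, hy]

omit [ContinuousConstSMul G Y] [ContinuousConstSMul G' Y'] in
theorem Norm2_qt (P : Pack2 F p t τ m α q j t' l') (n : ℤ) (y : Y') :
    q (t' ^ n • y) = t ^ n • q y := by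
  induction n using Int.induction_on generalizing y with
  | zero => simp
  | succ n ih => rw [zpow_add_one, zpow_add_one, mul_smul, mul_smul, ih, P.qt]
  | pred n ih =>
    rw [zpow_sub_one, zpow_sub_one, mul_smul, mul_smul, ih]
    congr 1
    rw [eq_inv_smul_iff, ← P.qt, smul_inv_smul]

omit [ContinuousConstSMul G Y] [ContinuousConstSMul G' Y'] in
theorem Norm2_qj (P : Pack2 F p t τ m α q j t' l') (a : Multiplicative A) (y : Y') :
    q (j a • y) = q y := P.cov.inv ⟨j a, a, rfl⟩ y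

omit [ContinuousConstSMul G Y] [ContinuousConstSMul G' Y'] in
theorem Norm2_lt (P : Pack2 F p t τ m α q j t' l') (n : ℤ) (y : Y') :
    l' (t' ^ n • y) = (τ ^ n) (l' y) := by
  induction n using Int.induction_on generalizing y with
  | zero => simp
  | succ n ih => rw [zpow_add_one, zpow_add_one, mul_smul, ih, P.lt, LinearEquiv.mul_apply]
  | pred n ih =>
    rw [zpow_sub_one, zpow_sub_one, mul_smul, ih, LinearEquiv.mul_apply]
    congr 1
    apply τ.injective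
    rw [← P.lt, smul_inv_smul, ← LinearEquiv.mul_apply, mul_inv_cancel]
    rfl

omit [ContinuousConstSMul G Y] [ContinuousConstSMul G' Y'] in
theorem Norm2_conj (P : Pack2 F p t τ m α q j t' l') (n : ℤ) (a : A) :
    t' ^ n * j (Multiplicative.ofAdd a) = j (Multiplicative.ofAdd ((τ ^ n) a)) * t' ^ n := by
  induction n using Int.induction_on generalizing a with
  | zero => simp
  | succ n ih =>
    rw [zpow_add_one, zpow_add_one, LinearEquiv.mul_apply, ← mul_assoc, ← ih, ← P.conj]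
    group
  | pred n ih =>
    have e : τ (τ⁻¹ a) = a := by
      rw [← LinearEquiv.mul_apply, mul_inv_cancel]
      rfl
    rw [zpow_sub_one, zpow_sub_one, LinearEquiv.mul_apply, ← mul_assoc, ← ih]
    conv_lhs => rw [← e, ← P.conj]
    group

variable {reg : Cr → Fin 4 → Reg} {gap : Reg → ℤ} {D : DehnData O reg} {σU σL : X → Y}

theorem Norm2_sec [Finite A] (B : Bas1) (h1 : GCov G Fᶜ p) (P : Pack2 F p t τ m α q j t' l')
    (hτ : ∀ a, τ a = a → a = 0) (hO : O ⊆ Fᶜ) (S : DehnSec D p σU σL fun r => t ^ gap r)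
    {R0 R1 : Reg} (g0 : gap R0 = 0) (g1 : gap R1 = 1) :
    ∃ (a : Reg → A) (σU' σL' : X → Y'),
      DehnSec D (p ∘ q) σU' σL' (fun r => j (Multiplicative.ofAdd (a r)) * t' ^ gap r) ∧
      a R0 = 0 ∧ a R1 = 0 ∧ (∀ x ∈ D.Up, q (σU' x) = σU x) ∧ ∀ x ∈ D.Lo, q (σL' x) = σL x := by
  have hU : D.Up ⊆ Fᶜ := fun x hx => hO (D.cover ▸ Or.inl (Or.inl hx))
  have hL : D.Lo ⊆ Fᶜ := fun x hx => hO (D.cover ▸ Or.inl (Or.inr hx))
  obtain ⟨sU, u1, u2⟩ := Norm2_lift B h1 P hU D.ctU S.cU S.pU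
  obtain ⟨sL, l1, l2⟩ := Norm2_lift B h1 P hL D.ctL S.cL S.pL
  have hr : ∀ R, D.r R ∈ D.Up ∩ D.Lo := fun R => D.unR ▸ mem_iUnion.2 ⟨R, D.rm R⟩
  have key : ∀ R, ∃ a : A,
      sU (D.r R) = j (Multiplicative.ofAdd a) • t' ^ gap R • sL (D.r R) := by
    intro R
    obtain ⟨⟨_, a, rfl⟩, e⟩ := P.cov.trans (t' ^ gap R • sL (D.r R)) (sU (D.r R)) (by
      rw [Norm2_qt P, u2 _ (hr R).1, l2 _ (hr R).2, S.hol])
    exact ⟨a.toAdd, e⟩
  choose a ha using key
  have hinj : Function.Injective fun v : A => τ v - v := by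
    intro v w e
    have := hτ (v - w) (by
      rw [map_sub]
      exact sub_eq_sub_iff_sub_eq_sub.1 e)
    exact sub_eq_zero.1 this
  obtain ⟨v, hv⟩ := Finite.injective_iff_surjective.1 hinj (a R1 - a R0)
  simp only at hv
  refine ⟨fun R => v - a R0 + a R - (τ ^ gap R) v,
    fun x => j (Multiplicative.ofAdd (v - a R0)) • sU x,
    fun x => j (Multiplicative.ofAdd v) • sL x, ⟨u1.const_smul _, l1.const_smul _, ?_, ?_, ?_⟩,
    ?_, ?_, fun x hx => ?_, fun x hx => ?_⟩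
  · intro x hx
    rw [Function.comp_apply, Norm2_qj P, u2 x hx, S.pU x hx]
  · intro x hx
    rw [Function.comp_apply, Norm2_qj P, l2 x hx, S.pL x hx]
  · intro R
    rw [ha R, ← mul_smul, ← mul_smul, ← mul_smul, mul_assoc _ (t' ^ gap R), Norm2_conj P,
      ← mul_assoc, ← map_mul j, ← map_mul j, ← ofAdd_add, ← ofAdd_add, sub_add_cancel]
  · simp [g0]
  · simp only [g1, zpow_one]
    rw [sub_eq_iff_eq_add.1 hv]
    abel
  · rw [Norm2_qj P, u2 x hx]
  · rw [Norm2_qj P, l2 x hx]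

omit [ContinuousConstSMul G Y] in
theorem Norm2_alpha (P : Pack2 F p t τ m α q j t' l') {a : Reg → A} {σU' σL' : X → Y'}
    (S : DehnSec D (p ∘ q) σU' σL' fun r => j (Multiplicative.ofAdd (a r)) * t' ^ gap r)
    (hU : ∀ x ∈ D.Up, q (σU' x) = σU x) (hL : ∀ x ∈ D.Lo, q (σL' x) = σL x) (n : ℤ) (R : Reg) :
    α (gs ℤ Y (t ^ n) (D.ell σU σL (fun r => t ^ gap r) R)) =
      (τ ^ n) (a R) + ((τ ^ (n + gap R)) (l' (σL' D.s)) - (τ ^ n) (l' (σU' D.n))) := by
  have hq : ∀ (g : G) (g' : G'), (∀ y, q (g' • y) = g • q y) → ∀ c,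
      psh ℤ q (gs ℤ Y' g' c) = gs ℤ Y g (psh ℤ q c) := by
    intro g g' h c
    rw [gs, gs, psh_psh' _ (continuous_const_smul _), psh_psh' _ P.cov.cont]
    exact psh_congr (fun y _ => h y) (mem_CH_univ c)
  have ma : pth ℤ (D.a R) ∈ CH ℤ D.Up := pth_mem_CH (D.am R)
  have mb : pth ℤ (D.b R) ∈ CH ℤ D.Lo := pth_mem_CH (D.bm R)
  have e1 : psh ℤ q (D.ell σU' σL' (fun r => j (Multiplicative.ofAdd (a r)) * t' ^ gap r) R) =
      D.ell σU σL (fun r => t ^ gap r) R := by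
    rw [DehnData.ell, DehnData.ell, map_add, hq (t ^ gap R) _ (fun y => by
      rw [mul_smul, Norm2_qj P, Norm2_qt P]), psh_psh _ S.cU ma, psh_psh _ S.cL mb,
      psh_congr (f := q ∘ σU') (g := σU) hU ma, psh_congr (f := q ∘ σL') (g := σL) hL mb]
  rw [← e1, ← hq (t ^ n) (t' ^ n) (Norm2_qt P n), P.hol, dT_gs, DehnData.ell, map_add, dT_gs,
    dT_psh S.cU ma, dT_psh S.cL mb, dT_pth, dT_pth, D.a0, D.a1, D.b0, D.b1]
  simp only [map_add, map_sub, gs, psh_pt, val0_pt]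
  rw [S.hol R]
  simp only [mul_smul, Norm2_lt P, P.la, map_add, zpow_add, LinearEquiv.mul_apply]
  abel

end

theorem Norm2_red (n : ℤ) (c : Eis ℤ) :
    red8 ((om ℤ ^ n : (Eis ℤ)ˣ) * c) = (om (ZMod 8) ^ n : (Eis (ZMod 8))ˣ) * red8 c := by
  induction n using Int.induction_on generalizing c with
  | zero => simp
  | succ n ih =>
    rw [zpow_add_one, zpow_add_one, Units.val_mul, Units.val_mul, mul_assoc, mul_assoc, ih]
    congr 1
    ext <;> simp [red8, om]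
  | pred n ih =>
    rw [zpow_sub_one, zpow_sub_one, Units.val_mul, Units.val_mul, mul_assoc, mul_assoc, ih]
    congr 1
    ext <;> simp [red8, om]

theorem Norm2_cyc {G Reg : Type} [Group G] {t : G} {gap : Reg → ℤ} {R0 R1 : Reg}
    (g0 : gap R0 = 0) (g1 : gap R1 = 1) (N : Submodule ℤ ((Reg × G) →₀ ℤ))
    (h0 : ∀ g, Finsupp.single (R0, g) 1 ∈ N) (h1 : ∀ g, Finsupp.single (R1, g) 1 ∈ N)
    (r : Reg) (g : G) : ∃ y ∈ N, d1A ℤ (fun r => t ^ gap r) y =
      d1A ℤ (fun r => t ^ gap r) (Finsupp.single (r, g) 1) := by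
  have e : ∀ r g, d1A ℤ (fun r => t ^ gap r) (Finsupp.single (r, g) 1) =
      Finsupp.single (true, g * t ^ gap r) 1 - Finsupp.single (false, g) 1 := by
    intro r g
    rw [d1A, Finsupp.linearCombination_single, one_smul]
  have k1 : ∀ h : G, Finsupp.single (true, h * t) 1 - Finsupp.single (true, h) 1 ∈
      N.map (d1A ℤ fun r => t ^ gap r) := fun h =>
    ⟨_, sub_mem (h1 h) (h0 h), by rw [map_sub, e, e, g0, g1]; simp⟩
  have k2 : ∀ n : ℤ, Finsupp.single (true, g * t ^ n) 1 - Finsupp.single (true, g) 1 ∈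
      N.map (d1A ℤ fun r => t ^ gap r) := by
    intro n
    induction n using Int.induction_on with
    | zero => simp
    | succ n ih =>
      have := add_mem (k1 (g * t ^ (n : ℤ))) ih
      rwa [sub_add_sub_cancel, mul_assoc, ← zpow_add_one] at this
    | pred n ih =>
      have := sub_mem ih (k1 (g * t ^ (-(n : ℤ) - 1)))
      rwa [mul_assoc, ← zpow_add_one, sub_add_cancel, sub_sub_sub_cancel_left] at this
  obtain ⟨y, hy, hy'⟩ := k2 (gap r)
  refine ⟨y + Finsupp.single (R0, g) 1, add_mem hy (h0 g), ?_⟩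
  rw [map_add, hy', e, e, g0]
  simp

theorem norm2_stmt (B : Bas1) : Norm2Stmt := by
  intro X G Y A G' Y' Reg Cr _ _ _ _ _ _ _ _ _ _ _ F O φ p t l τ m α q j t' l' reg gap R0 R1 D σU σL
    lg c χ ψ P1 P hτ hO S g0 g1 c0 c1 hlg H
  obtain ⟨a, σU', σL', S', a0, a1, hU, hL⟩ := Norm2_sec B P1.tc.cov P hτ hO S g0 g1
  refine ⟨a, σU', σL', S', a0, a1, fun r n => ?_⟩
  have hl : ∀ n : ℤ, lg (t ^ n) = n := fun n =>
    sub_eq_zero.1 (P1.tc.inf _ (by rw [zpow_sub, hlg, mul_inv_cancel]))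
  let L1 : ((Reg × G) →₀ ℤ) →ₗ[ℤ] A :=
    Finsupp.linearCombination ℤ fun x => (τ ^ lg x.2) (a x.1)
  let L2 : ((Bool × G) →₀ ℤ) →ₗ[ℤ] A :=
    Finsupp.linearCombination ℤ fun x => (τ ^ lg x.2) (cond x.1 (l' (σL' D.s)) (l' (σU' D.n)))
  have key : ∀ x, α (ellC ℤ (D.ell σU σL fun r => t ^ gap r) x) =
      L1 x + L2 (d1A ℤ (fun r => t ^ gap r) x) := by
    intro x
    induction x using Finsupp.induction_linear with
    | zero => simp
    | add a b ha hb =>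
      simp only [map_add, ha, hb]
      abel
    | single z k =>
      obtain ⟨R, g⟩ := z
      obtain ⟨n, rfl⟩ := P1.gen g
      have e : ∀ w : Tot ℤ Y, castZ ℤ Y w = w := fun w => by
        ext σ
        rw [cast_apply]
        simp
      simp only [L1, L2, ellC, d1A, Finsupp.linearCombination_single, map_zsmul, map_sub, e,
        one_smul, Norm2_alpha P S' hU hL, ← zpow_add, hl, cond, smul_add]
  obtain ⟨y, hy, hy'⟩ := Norm2_cyc (t := t) g0 g1 (LinearMap.ker L1 ⊓ LinearMap.ker (colE lg c))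
    (fun g => ⟨by simp [L1, a0], by simp [colE, c0]⟩)
    (fun g => ⟨by simp [L1, a1], by simp [colE, c1]⟩) r (t ^ n)
  have hz : d1A ℤ (fun r => t ^ gap r) (Finsupp.single (r, t ^ n) 1 - y) = 0 := by
    rw [map_sub, hy', sub_self]
  have := H _ hz
  rw [key, hz, map_zero, add_zero, map_sub L1, map_sub (colE lg c), LinearMap.mem_ker.1 hy.1,
    LinearMap.mem_ker.1 hy.2, sub_zero, sub_zero] at this
  simp only [L1, colE, Finsupp.linearCombination_single, one_smul, hl, Norm2_red] at this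
  exact this

end Pool.Agent.MP_bc14e1_gt
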