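import Pool.Agent.MP_bc14e1_gt.IfN
import Pool.Agent.MP_bc14e1_gt.IfP

open Set Metric
open scoped Classical

namespace Pool.Agent.MP_bc14e1_gt

section Aux

variable {G Y : Type} [Group G] [TopologicalSpace Y] [MulAction G Y] [ContinuousConstSMul G Y]

omit [ContinuousConstSMul G Y] in
theorem Nov_cocpt {s : G} {K K' : Set Y} (hK : Cocpt s K) (hc : IsClosed K') (hi : Inv s K')
    (hs : K' ⊆ K) : Cocpt s K' := by
  obtain ⟨-, -, L, hL, hKL⟩ := hK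
  exact ⟨hc, hi, L, hL, hs.trans hKL⟩

theorem Nov_map {s : G} {g : Lam ℂ} (f : Module.End ℂ (Tot ℂ Y))
    (hf : ∀ c, f (gs ℂ Y s c) = gs ℂ Y s (f c)) {c : Tot ℂ Y} (h : c ∈ Mul0 s g) :
    f c ∈ Mul0 s g := by
  obtain ⟨y, rfl⟩ := h
  exact ⟨f y, (map_act f hf g y).symm⟩

theorem Nov_deg {s : G} {g : Lam ℂ} {A : Set Y} {u u' w : Tot ℂ Y} (hu : u ∈ DG ℂ Y 2)
    (hu' : u' ∈ CH ℂ A) (h : u - u' - dT ℂ Y w ∈ Mul0 s g) :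
    ∃ v ∈ CC ℂ A 2, ∃ w', u - v - dT ℂ Y w' ∈ Mul0 s g := by
  refine ⟨deg ℂ Y 2 u', ⟨deg_mem_CH 2 hu', deg_mem 2 u'⟩, deg ℂ Y 3 w, ?_⟩
  have := Nov_map (deg ℂ Y 2) (fun c => deg_psh _ 2 c) h
  rwa [map_sub, map_sub, deg_of_mem hu, deg_dT] at this

theorem Nov_pow (s : G) (k : ℕ) : (gs ℂ Y s - 1) ^ k =
    act ℂ Y s ((LaurentPolynomial.T 1 - 1 : Lam ℂ) ^ k) := by
  rw [map_pow, map_sub, map_one, act_T, zpow_one]

theorem Nov_comm (s : G) (a b : Lam ℂ) (c : Tot ℂ Y) :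
    act ℂ Y s a (act ℂ Y s b c) = act ℂ Y s b (act ℂ Y s a c) := by
  rw [← Module.End.mul_apply, ← map_mul, mul_comm, map_mul, Module.End.mul_apply]

/-- A chain near the surface that is a cycle modulo the prime bounds modulo the prime. -/
theorem Nov_near {s : G} {ζ : Circle} (hζ : ζ ≠ 1) {A₁ A₂ : Set Y} (h21 : A₂ ⊆ A₁)
    (hi : Inv s A₁) {k₁ k₂ : ℕ}
    (h₁ : ∀ z ∈ CH ℂ A₁, dT ℂ Y z = 0 → ∃ b, ((gs ℂ Y s - 1) ^ k₁) z = dT ℂ Y b)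
    (h₂ : ∀ z ∈ CH ℂ A₂, dT ℂ Y z = 0 → ∃ b ∈ CH ℂ A₁, ((gs ℂ Y s - 1) ^ k₂) z = dT ℂ Y b)
    {c y : Tot ℂ Y} (hc : c ∈ CH ℂ A₂) (hy : y ∈ CH ℂ A₂) (hy0 : dT ℂ Y y = 0)
    (hd : dT ℂ Y c = act ℂ Y s (piL ζ) y) : ∃ w, c - dT ℂ Y w ∈ Mul0 s (piL ζ) := by
  obtain ⟨b, hb, e⟩ := h₂ y hy hy0
  rw [Nov_pow] at e
  set D : Lam ℂ := LaurentPolynomial.T 1 - 1 with hD
  have hz : act ℂ Y s (D ^ k₂) c - act ℂ Y s (piL ζ) b ∈ CH ℂ A₁ :=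
    sub_mem (act_mem_CH hi _ (CH_mono h21 hc)) (act_mem_CH hi _ hb)
  have hz0 : dT ℂ Y (act ℂ Y s (D ^ k₂) c - act ℂ Y s (piL ζ) b) = 0 := by
    rw [map_sub, dT_act, dT_act, hd, ← e, Nov_comm, sub_self]
  obtain ⟨b', e'⟩ := h₁ _ hz hz0
  rw [Nov_pow, ← hD, map_sub, ← Module.End.mul_apply, ← map_mul, ← pow_add, Nov_comm] at e'
  have hne : ((ζ : ℂ) - 1) ^ (k₁ + k₂) ≠ 0 :=
    pow_ne_zero _ (sub_ne_zero.2 fun h => hζ (Circle.ext h))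
  obtain ⟨g, hg⟩ : piL ζ ∣ D ^ (k₁ + k₂) - LaurentPolynomial.C (((ζ : ℂ) - 1) ^ (k₁ + k₂)) := by
    have : piL ζ = D - LaurentPolynomial.C ((ζ : ℂ) - 1) := by
      rw [piL, hD, map_sub, map_one]; abel
    rw [this, map_pow]
    exact sub_dvd_pow_sub_pow _ _ _
  have e2 : act ℂ Y s (D ^ (k₁ + k₂)) c - ((ζ : ℂ) - 1) ^ (k₁ + k₂) • c =
      act ℂ Y s (piL ζ) (act ℂ Y s g c) := by
    rw [← act_C s, ← LinearMap.sub_apply, ← map_sub, hg, map_mul, Module.End.mul_apply]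
  refine ⟨(((ζ : ℂ) - 1) ^ (k₁ + k₂))⁻¹ • b', (((ζ : ℂ) - 1) ^ (k₁ + k₂))⁻¹ •
    (act ℂ Y s (D ^ k₁) b - act ℂ Y s g c), ?_⟩
  rw [map_smul, map_smul, map_sub, ← e2, ← e', ← sub_eq_zero]
  have : c = (((ζ : ℂ) - 1) ^ (k₁ + k₂))⁻¹ • (((ζ : ℂ) - 1) ^ (k₁ + k₂) • c) := by
    rw [smul_smul, inv_mul_cancel₀ hne, one_smul]
  generalize ((ζ : ℂ) - 1) ^ (k₁ + k₂) • c = c' at this ⊢
  generalize act ℂ Y s (D ^ (k₁ + k₂)) c = c''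
  rw [this]
  module

end Aux

theorem nov_stmt (B : Bas2) (hFam : FamStmt)
    (hFn : FnStmt) (hPush : PushStmt) (hInj0 : Inj0Stmt) : NovStmt := by
  intro X G Y A G' Y' _ _ _ _ _ _ _ _ _ _ _ _ _ _ _ _ o F φ p t l τ m α q j t' l' β h1 h2 hτ hβ
    B' B₀ hle hidx
  obtain ⟨f, hfc, hfs, hB', hB, ⟨N, hNo, hFN, hN⟩, hmono⟩ :=
    hFn X G Y A G' Y' F φ p t l τ m α q j t' l' h1 h2 hτ B' B₀ hle hidx
  refine ⟨f, hfs, hB', hB, fun ζ hζ u hu hdu horth => ?_⟩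
  have hTC := h2.tc
  generalize t' ^ m = s at *
  have hFc : IsCompact F := hTC.flat.cl.isCompact
  have hP : ∀ S : Set X, Inv s ((p ∘ q) ⁻¹' S) := fun S y => by
    rw [mem_preimage, mem_preimage, hTC.cov.inv]
  have hco : ∀ M : Set X, IsOpen M → F ⊆ M → Cocpt s ((p ∘ q) ⁻¹' Mᶜ) := fun M hM hFM =>
    (hFam X G' Y' F (p ∘ q) s hTC).2.2.2.2.2.1 _ hM.isClosed_compl.isCompact
      (compl_subset_compl.2 hFM)
  have hhalf : Cocpt s {y | |f y| ≤ 1 / 2} := by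
    refine Nov_cocpt (hco N hNo hFN) (isClosed_le hfc.abs continuous_const)
      (fun y => by simp only [Set.mem_ofPred_eq, hfs]) fun y hy hy' => ?_
    have := hN y hy'
    rw [Set.mem_ofPred_eq, this] at hy
    norm_num at hy
  obtain ⟨ε, hε0, hε, r, H, -, hH, -, hr, hdH⟩ :=
    hPush X G' Y' F (p ∘ q) s f hTC hfc hfs hhalf hmono
  obtain ⟨N₁, hN₁, hFN₁, -, k₁, hk₁⟩ :=
    B.pa ℂ X G' Y' F (p ∘ q) s hTC hFc univ isOpen_univ (subset_univ _)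
  obtain ⟨N₂, hN₂, hFN₂, h21, k₂, hk₂⟩ :=
    B.pa ℂ X G' Y' F (p ∘ q) s hTC hFc (N₁ ∩ N) (hN₁.inter hNo) (subset_inter hFN₁ hFN)
  have hK : Cocpt s ({y | ε ≤ f y} ∩ (p ∘ q) ⁻¹' N₂ᶜ) :=
    Nov_cocpt (hco N₂ hN₂ hFN₂)
      ((isClosed_le continuous_const hfc).inter (hco N₂ hN₂ hFN₂).1)
      (fun y => by simp only [mem_inter_iff, Set.mem_ofPred_eq, hfs, hP _ y]) inter_subset_right
  obtain ⟨w, hw⟩ := hInj0 X G' Y' o F (p ∘ q) s β hTC hβ ζ {y | 0 < f y} _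
    (isOpen_lt continuous_const hfc) (fun y => by simp only [Set.mem_ofPred_eq, hfs]) hK
    (fun y hy => lt_of_lt_of_le hε0 hy.1) u hu hdu horth
  obtain ⟨c, hc, y₀, hy₀, e⟩ := Submodule.mem_sup.1 hw
  have hdj : Disjoint ((p ∘ q) ⁻¹' N₂ ∩ {y | 1 / 2 < f y}) {y | f y < ε} :=
    Set.disjoint_left.2 fun y hy hy' => by
      have a : 1 / 2 < f y := hy.2
      have b : f y < ε := hy'
      linarith
  have hsub : ({y | ε ≤ f y} ∩ (p ∘ q) ⁻¹' N₂ᶜ)ᶜ ⊆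
      ((p ∘ q) ⁻¹' N₂ ∩ {y | 1 / 2 < f y}) ∪ {y | f y < ε} := by
    intro y hy
    by_cases h : f y < ε
    · exact Or.inr h
    · have hy2 : (p ∘ q) y ∈ N₂ := by
        by_contra h'
        exact hy ⟨not_lt.1 h, h'⟩
      refine Or.inl ⟨hy2, ?_⟩
      have a := hN y (h21 hy2).2
      rw [abs_of_pos (lt_of_lt_of_le hε0 (not_lt.1 h))] at a
      change 1 / 2 < f y
      rw [a]; norm_num
  have hc' := CH_mono hsub hc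
  rw [CH_union_of_disjoint ((hN₂.preimage hTC.cov.cont).inter (isOpen_lt continuous_const hfc))
    (isOpen_lt hfc continuous_const) hdj] at hc'
  obtain ⟨cp, hcp, cm, hcm, rfl⟩ := Submodule.mem_sup.1 hc'
  have hAp : Inv s ((p ∘ q) ⁻¹' N₂ ∩ {y | 1 / 2 < f y}) := fun y => by
    simp only [mem_inter_iff, Set.mem_ofPred_eq, hfs, hP _ y]
  have hd : dT ℂ Y' cp + dT ℂ Y' cm ∈ Mul0 s (piL ζ) := by
    have a := congrArg (dT ℂ Y') e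
    rw [map_add, map_add, map_sub, dT_dT, sub_zero] at a
    rw [eq_sub_of_add_eq a]
    exact sub_mem hdu (Nov_map _ (dT_gs s) hy₀)
  obtain ⟨y₁, hy₁⟩ := id hd
  have hdp : dT ℂ Y' cp =
      act ℂ Y' s (piL ζ) (prj ℂ ((p ∘ q) ⁻¹' N₂ ∩ {y | 1 / 2 < f y}) y₁) := by
    rw [← map_act _ (prj_gs s hAp), hy₁, map_add, prj_of_mem (dT_mem_CH hcp),
      prj_eq_zero hdj (dT_mem_CH hcm), add_zero]
  have hdm : dT ℂ Y' cm ∈ Mul0 s (piL ζ) := by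
    have := sub_mem hd (show dT ℂ Y' cp ∈ Mul0 s (piL ζ) from ⟨_, hdp.symm⟩)
    rwa [add_sub_cancel_left] at this
  have hy0 : dT ℂ Y' (prj ℂ ((p ∘ q) ⁻¹' N₂ ∩ {y | 1 / 2 < f y}) y₁) = 0 := by
    refine (B.tf ℂ G' Y' s (fun n y h => hTC.inf n (hTC.cov.free _ y h)) (piL ζ)
      (B.laur.2.2.2.2.2.2.2.2.2.1 ζ).ne_zero _).1 ?_
    rw [← dT_act, ← hdp, dT_dT]
  obtain ⟨w', hw'⟩ := Nov_near hζ (A₁ := (p ∘ q) ⁻¹' N₁) (A₂ := (p ∘ q) ⁻¹' N₂)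
    (preimage_mono (h21.trans inter_subset_left)) (hP _)
    (fun z hz hz0 => (hk₁ z hz hz0).imp fun _ h => h.2)
    (fun z hz hz0 => (hk₂ z hz hz0).imp fun _ h =>
      ⟨CH_mono (preimage_mono inter_subset_left) h.1, h.2⟩)
    (CH_mono inter_subset_left hcp) (CH_mono inter_subset_left (prj_mem _ y₁)) hy0 hdp
  refine Nov_deg (w := w + w' + H cm) hu (hr cm hcm) ?_
  have a : u - r cm - dT ℂ Y' (w + w' + H cm) =
      (cp - dT ℂ Y' w') + H (dT ℂ Y' cm) + y₀ := by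
    have a1 : u = cp + cm + y₀ + dT ℂ Y' w := by rw [e, sub_add_cancel]
    have a2 : r cm = cm - (dT ℂ Y' (H cm) + H (dT ℂ Y' cm)) := by rw [hdH, sub_sub_cancel]
    rw [map_add, map_add, a2]
    conv_lhs => rw [a1]
    abel
  rw [a]
  exact add_mem (add_mem hw' (Nov_map H hH hdm)) hy₀

end Pool.Agent.MP_bc14e1_gt
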