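import Pool.Agent.MP_bc14e1_gt.IfD

open Set Metric
open scoped Classical

namespace Pool.Agent.MP_bc14e1_gt

section

variable {X Y : Type} [TopologicalSpace X] [TopologicalSpace Y]

theorem OriGlue_null {B : Set X} {a : Sing X 4 →₀ ℤ} :
    Null univ B 4 a ↔ ∃ w, inc ℤ 4 a - dT ℤ X w ∈ CH ℤ B := by
  constructor
  · rintro ⟨b, -, h⟩
    exact ⟨inc ℤ 5 b, by rw [dT_inc_succ, ← map_sub]; exact inc_mem_CH.2 h⟩
  · rintro ⟨w, h⟩
    obtain ⟨b, hb⟩ := exists_inc (deg_mem 5 w)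
    have h' := deg_mem_CH 4 h
    rw [map_sub, deg_of_mem (inc_mem_DG 4 a), deg_dT, ← hb, dT_inc_succ, ← map_sub] at h'
    exact ⟨b, inc_mem_CH.1 (mem_CH_univ _), inc_mem_CH.1 h'⟩

theorem OriGlue_null_rel {x : X} {a b : Sing X 4 →₀ ℤ} :
    Null univ {x}ᶜ 4 (a - b) ↔ RelEq ℤ x (inc ℤ 4 a) (inc ℤ 4 b) := by
  rw [OriGlue_null, map_sub]
  rfl

theorem OriGlue_bd {B : Set X} {a : Sing X 4 →₀ ℤ} :
    bd ℤ X 3 a ∈ supp ℤ B 3 ↔ dT ℤ X (inc ℤ 4 a) ∈ CH ℤ B := by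
  rw [dT_inc_succ, inc_mem_CH]

theorem OriGlue_refl (x : X) (a : Tot ℤ X) : RelEq ℤ x a a := ⟨0, by simp⟩

theorem OriGlue_symm {x : X} {a b : Tot ℤ X} (h : RelEq ℤ x a b) : RelEq ℤ x b a := by
  obtain ⟨w, h⟩ := h
  refine ⟨-w, ?_⟩
  have := neg_mem h
  convert this using 1
  rw [map_neg]; abel

theorem OriGlue_trans {x : X} {a b c : Tot ℤ X} (h : RelEq ℤ x a b) (h' : RelEq ℤ x b c) :
    RelEq ℤ x a c := by
  obtain ⟨w, h⟩ := h
  obtain ⟨w', h'⟩ := h'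
  refine ⟨w + w', ?_⟩
  have := add_mem h h'
  convert this using 1
  rw [map_add]; abel

theorem OriGlue_smul {x : X} {a b : Tot ℤ X} (n : ℤ) (h : RelEq ℤ x a b) :
    RelEq ℤ x (n • a) (n • b) := by
  obtain ⟨w, h⟩ := h
  refine ⟨n • w, ?_⟩
  have := Submodule.smul_mem _ n h
  rwa [smul_sub, smul_sub, ← map_smul] at this

theorem OriGlue_dT {B : Set X} {a b w : Tot ℤ X} (h : a - b - dT ℤ X w ∈ CH ℤ B)
    (hb : dT ℤ X b ∈ CH ℤ B) : dT ℤ X a ∈ CH ℤ B := by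
  have := add_mem (dT_mem_CH h) hb
  rwa [map_sub, map_sub, dT_dT, sub_zero, sub_add_cancel] at this

theorem OriGlue_dT' {x : X} {a b : Tot ℤ X} (h : RelEq ℤ x a b)
    (hb : dT ℤ X b ∈ CH ℤ {x}ᶜ) : dT ℤ X a ∈ CH ℤ {x}ᶜ := OriGlue_dT h.choose_spec hb

theorem OriGlue_maps (e : OpenPartialHomeomorph X Y) {B : Set X} (hB : B ⊆ e.source) :
    MapsTo e (e.source ∩ Bᶜ) (e '' B)ᶜ := by
  rintro x ⟨hx, hxB⟩ ⟨b, hb, h⟩
  exact hxB (e.injOn (hB hb) hx h ▸ hb)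

theorem OriGlue_psh_dT (e : OpenPartialHomeomorph X Y) {B : Set X} (hB : B ⊆ e.source)
    {z : Tot ℤ X} (hz : z ∈ CH ℤ e.source) (hd : dT ℤ X z ∈ CH ℤ Bᶜ) :
    dT ℤ Y (psh ℤ e z) ∈ CH ℤ (e '' B)ᶜ := by
  rw [dT_psh e.continuousOn hz]
  exact psh_mem_CH _ (OriGlue_maps e hB) (by rw [CH_inter]; exact ⟨dT_mem_CH hz, hd⟩)

theorem OriGlue_push [T1Space X] (e : OpenPartialHomeomorph X Y) {w : X} (hw : w ∈ e.source)
    {z z' : Tot ℤ X} (hz : z ∈ CH ℤ e.source) (hz' : z' ∈ CH ℤ e.source) (h : RelEq ℤ w z z') :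
    RelEq ℤ (e w) (psh ℤ e z) (psh ℤ e z') := by
  obtain ⟨v, h⟩ := h
  obtain ⟨v', hv', h'⟩ := exc_inj isClosed_singleton e.open_source (singleton_subset_iff.2 hw)
    (sub_mem hz hz') h
  refine ⟨psh ℤ e v', ?_⟩
  have := psh_mem_CH e (OriGlue_maps e (singleton_subset_iff.2 hw)) h'
  rwa [map_sub, map_sub, ← dT_psh e.continuousOn hv', image_singleton] at this

theorem OriGlue_back (e : OpenPartialHomeomorph X Y) {z : Tot ℤ X} (hz : z ∈ CH ℤ e.source) :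
    psh ℤ e.symm (psh ℤ e z) = z := by
  rw [psh_psh _ e.continuousOn hz]
  exact psh_of_eqOn_id (fun x hx => e.left_inv hx) hz

theorem OriGlue_push_iff [T1Space X] [T1Space Y] (e : OpenPartialHomeomorph X Y) {w : X}
    (hw : w ∈ e.source) {z z' : Tot ℤ X} (hz : z ∈ CH ℤ e.source) (hz' : z' ∈ CH ℤ e.source) :
    RelEq ℤ (e w) (psh ℤ e z) (psh ℤ e z') ↔ RelEq ℤ w z z' := by
  refine ⟨fun h => ?_, OriGlue_push e hw hz hz'⟩
  have := OriGlue_push e.symm (e.map_source hw) (psh_mem_CH e e.mapsTo hz)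
    (psh_mem_CH e e.mapsTo hz') h
  rwa [OriGlue_back e hz, OriGlue_back e hz', e.left_inv hw] at this

theorem OriGlue_homeo (I : X ≃ₜ Y) {x : X} {a b : Tot ℤ X} (h : RelEq ℤ x a b) :
    RelEq ℤ (I x) (psh ℤ I a) (psh ℤ I b) := by
  obtain ⟨v, h⟩ := h
  refine ⟨psh ℤ I v, ?_⟩
  have := psh_mem_CH I (A := {x}ᶜ) (B := {I x}ᶜ) (fun y hy h => hy (I.injective h)) h
  rwa [map_sub, map_sub, ← dT_psh_cont I.continuous] at this

/-- Generators of the local homology. -/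
def OriGlue_Gen (x : X) (g : Tot ℤ X) : Prop :=
  dT ℤ X g ∈ CH ℤ {x}ᶜ ∧ ∀ c ∈ DG ℤ X 4, dT ℤ X c ∈ CH ℤ {x}ᶜ → ∃! n : ℤ, RelEq ℤ x c (n • g)

theorem OriGlue_gen_o (o : Orientation4 X) (x : X) : OriGlue_Gen x (inc ℤ 4 (o.o x)) := by
  refine ⟨OriGlue_bd.1 (o.rel x), fun c hc hd => ?_⟩
  obtain ⟨b, rfl⟩ := exists_inc hc
  have := o.gen x b (OriGlue_bd.2 hd)
  simpa only [OriGlue_null_rel, map_smul] using this

theorem OriGlue_gen_push [T1Space X] [T1Space Y] (e : OpenPartialHomeomorph X Y) {w : X}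
    (hw : w ∈ e.source) {g z : Tot ℤ X} (hg : OriGlue_Gen w g) (hz : z ∈ CH ℤ e.source)
    (h : RelEq ℤ w z g) : OriGlue_Gen (e w) (psh ℤ e z) := by
  refine ⟨?_, fun c hc hd => ?_⟩
  · have := OriGlue_psh_dT e (singleton_subset_iff.2 hw) hz (OriGlue_dT' h hg.1)
    rwa [image_singleton] at this
  obtain ⟨c', hc', hr⟩ := exc_surj isClosed_singleton e.open_target
    (singleton_subset_iff.2 (e.map_source hw)) hc hd
  have hr : RelEq ℤ (e w) c' c := hr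
  have m : psh ℤ e.symm c' ∈ CH ℤ e.source := psh_mem_CH _ e.symm_mapsTo hc'.1
  have hd' : dT ℤ X (psh ℤ e.symm c') ∈ CH ℤ {w}ᶜ := by
    have := OriGlue_psh_dT e.symm (singleton_subset_iff.2 (e.map_source hw)) hc'.1
      (OriGlue_dT' hr hd)
    rwa [image_singleton, e.left_inv hw] at this
  have e1 : psh ℤ e (psh ℤ e.symm c') = c' := OriGlue_back e.symm hc'.1
  have key : ∀ n : ℤ, RelEq ℤ (e w) c (n • psh ℤ e z) ↔ RelEq ℤ w (psh ℤ e.symm c') (n • g) := by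
    intro n
    have := OriGlue_push_iff e hw m (Submodule.smul_mem _ n hz)
    rw [e1, map_smul] at this
    constructor
    · intro h'
      exact OriGlue_trans (this.1 (OriGlue_trans hr h')) (OriGlue_smul n h)
    · intro h'
      exact OriGlue_trans (OriGlue_symm hr)
        (this.2 (OriGlue_trans h' (OriGlue_symm (OriGlue_smul n h))))
  simp only [key]
  exact hg.2 _ (psh_mem_DG _ hc'.2) hd'

end

theorem oriGlue_stmt : OriGlueStmt := by
  intro W X _ _ _ _ _ o i I hII hcov hgl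
  have ex : ∀ w : W, ∃ z ∈ DG ℤ W 4, w ∈ i.source →
      z ∈ CH ℤ i.source ∧ RelEq ℤ w z (inc ℤ 4 (o.o w)) := by
    intro w
    by_cases hw : w ∈ i.source
    · obtain ⟨z, hz, h⟩ := exc_surj isClosed_singleton i.open_source (singleton_subset_iff.2 hw)
        (inc_mem_DG 4 (o.o w)) (OriGlue_gen_o o w).1
      exact ⟨z, hz.2, fun _ => ⟨hz.1, h⟩⟩
    · exact ⟨0, zero_mem _, fun h => (hw h).elim⟩
  choose zW zD zS using ex
  let g : X → Tot ℤ X := fun x => psh ℤ i (zW (i.symm x))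
  let oT : X → Tot ℤ X := fun x => if x ∈ i.target then g x else psh ℤ I (g (I x))
  have oD : ∀ x, oT x ∈ DG ℤ X 4 := by
    intro x
    simp only [oT]
    split_ifs
    · exact psh_mem_DG _ (zD _)
    · exact psh_mem_DG _ (psh_mem_DG _ (zD _))
  have o1 : ∀ x ∈ i.target, oT x = g x := fun x hx => if_pos hx
  have o2 : ∀ x ∉ i.target, oT x = psh ℤ I (g (I x)) := fun x hx => if_neg hx
  have gG : ∀ x ∈ i.target, OriGlue_Gen x (g x) := by
    intro x hx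
    have hw := i.map_target hx
    have := OriGlue_gen_push i hw (OriGlue_gen_o o _) (zS _ hw).1 (zS _ hw).2
    rwa [i.right_inv hx] at this
  have oG : ∀ x, OriGlue_Gen x (oT x) := by
    intro x
    by_cases hx : x ∈ i.target
    · rw [o1 x hx]; exact gG x hx
    · have := OriGlue_gen_push I.toOpenPartialHomeomorph (w := I x) (mem_univ _)
        (gG _ ((hcov x).resolve_left hx)) (mem_CH_univ _) (OriGlue_refl _ _)
      rw [o2 x hx]
      have e : I.toOpenPartialHomeomorph (I x) = x := hII x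
      rwa [e] at this
  have oc : ∀ w ∈ i.source, ∀ z ∈ CH ℤ i.source, RelEq ℤ w z (inc ℤ 4 (o.o w)) →
      RelEq ℤ (i w) (psh ℤ i z) (oT (i w)) := by
    intro w hw z hz h
    rw [o1 _ (i.map_source hw)]
    simp only [g, i.left_inv hw]
    exact OriGlue_push i hw hz (zS w hw).1 (OriGlue_trans h (OriGlue_symm (zS w hw).2))
  have pres : ∀ x, RelEq ℤ (I x) (psh ℤ I (oT x)) (oT (I x)) := by
    intro x
    by_cases hx : x ∈ i.target
    · by_cases hx' : I x ∈ i.target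
      · obtain ⟨z, hz, z', hz', h, h', e⟩ := hgl _ (i.map_target hx) _ (i.map_target hx')
          (by rw [i.right_inv hx, i.right_inv hx'])
        have a := oc _ (i.map_target hx) z hz.1 h
        have b := oc _ (i.map_target hx') z' hz'.1 h'
        rw [i.right_inv hx] at a
        rw [i.right_inv hx', ← e] at b
        exact OriGlue_trans (OriGlue_symm (OriGlue_homeo I a)) b
      · rw [o2 _ hx', hII, o1 x hx]
        exact OriGlue_refl _ _
    · rw [o2 x hx, o1 _ ((hcov x).resolve_left hx), psh_psh' _ I.continuous,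
        psh_of_eqOn_id (f := I ∘ I) (A := univ) (fun y _ => hII y) (mem_CH_univ _)]
      exact OriGlue_refl _ _
  have loc1 : ∀ x ∈ i.target, ∃ U ∈ nhds x, ∃ v ∈ DG ℤ X 4, dT ℤ X v ∈ CH ℤ Uᶜ ∧
      ∀ q ∈ U, RelEq ℤ q v (oT q) := by
    intro x hx
    have hw := i.map_target hx
    obtain ⟨U, hU, v, hv, hq⟩ := o.loc (i.symm x)
    obtain ⟨B, hB, hBs, hBc⟩ := local_compact_nhds
      (Filter.inter_mem hU (i.open_source.mem_nhds hw))
    have hBU : B ⊆ U := fun b hb => (hBs hb).1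
    have hBS : B ⊆ i.source := fun b hb => (hBs hb).2
    have hv' : dT ℤ W (inc ℤ 4 v) ∈ CH ℤ Bᶜ :=
      CH_mono (compl_subset_compl.2 hBU) (OriGlue_bd.1 hv)
    obtain ⟨z, hz, u, hu⟩ := exc_surj hBc.isClosed i.open_source hBS (inc_mem_DG 4 v) hv'
    refine ⟨i '' B, ?_, psh ℤ i z, psh_mem_DG _ hz.2,
      OriGlue_psh_dT i hBS hz.1 (OriGlue_dT hu hv'), ?_⟩
    · have := i.image_mem_nhds hw hB
      rwa [i.right_inv hx] at this
    · rintro _ ⟨b, hb, rfl⟩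
      refine oc b (hBS hb) z hz.1 (OriGlue_trans ⟨u, ?_⟩ (OriGlue_null_rel.1 (hq b (hBU hb))))
      exact CH_mono (compl_subset_compl.2 (singleton_subset_iff.2 hb)) hu
  have loc : ∀ x, ∃ U ∈ nhds x, ∃ v ∈ DG ℤ X 4, dT ℤ X v ∈ CH ℤ Uᶜ ∧
      ∀ q ∈ U, RelEq ℤ q v (oT q) := by
    intro x
    rcases hcov x with hx | hx
    · exact loc1 x hx
    obtain ⟨U, hU, v, hv, hd, hq⟩ := loc1 _ hx
    refine ⟨I ⁻¹' U, I.continuous.continuousAt.preimage_mem_nhds hU, psh ℤ I v,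
      psh_mem_DG _ hv, ?_, fun q hqU => ?_⟩
    · rw [dT_psh_cont I.continuous]
      refine psh_mem_CH I (A := Uᶜ) ?_ hd
      intro y hy h
      rw [mem_preimage, hII] at h
      exact hy h
    · have := OriGlue_trans (OriGlue_homeo I (hq _ hqU)) (pres (I q))
      rwa [hII] at this
  choose o' ho' using fun x => exists_inc (oD x)
  refine ⟨⟨o', fun p => OriGlue_bd.2 (by rw [ho']; exact (oG p).1), fun p c hc => ?_,
    fun p => ?_⟩, fun x => ?_, fun w hw z hz h => ?_⟩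
  · have := (oG p).2 _ (inc_mem_DG 4 c) (OriGlue_bd.1 hc)
    simpa only [OriGlue_null_rel, map_smul, ho'] using this
  · obtain ⟨U, hU, v, hv, hd, hq⟩ := loc p
    obtain ⟨b, rfl⟩ := exists_inc hv
    exact ⟨U, hU, b, OriGlue_bd.2 hd, fun q h => OriGlue_null_rel.2 (by rw [ho']; exact hq q h)⟩
  · refine OriGlue_null_rel.2 ?_
    rw [← psh_inc]
    simp only [ho']
    exact pres x
  · simp only [ho']
    exact oc w hw z hz.1 h

end Pool.Agent.MP_bc14e1_gt
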