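import Pool.Agent.MP_bc14e1_gt.IfC

open Set Metric
open scoped Classical

namespace Pool.Agent.MP_bc14e1_gt

theorem P1a_ind {Y : Type} [TopologicalSpace Y] {P : Tot ℤ Y → Prop} (h0 : P 0)
    (hadd : ∀ a b, P a → P b → P (a + b))
    (h1 : ∀ (γ : C(unitInterval, Y)) (a : ℤ), P (a • pth ℤ γ)) {c : Tot ℤ Y}
    (hc : c ∈ DG ℤ Y 1) : P c := by
  refine supported_ind h0 hadd ?_ hc
  rintro ⟨k, σ⟩ (rfl : k = 1) a
  have := h1 (σ.comp (stdSimplexHomeomorphUnitInterval.symm : C(unitInterval, Sx 1))) a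
  have e : (σ.comp (stdSimplexHomeomorphUnitInterval.symm : C(unitInterval, Sx 1))).comp
      (stdSimplexHomeomorphUnitInterval : C(Sx 1, unitInterval)) = σ := by
    ext t
    exact congrArg σ (stdSimplexHomeomorphUnitInterval.symm_apply_apply t)
  rwa [pth, e, Finsupp.smul_single, smul_eq_mul, mul_one] at this

theorem P1a_lift {X Y : Type} [TopologicalSpace X] [TopologicalSpace Y] {Z : Set X} {p : Y → X}
    (hp : IsCoveringMapOn p Z) {y : Y} {x : X} (h : JoinedIn Z (p y) x) :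
    ∃ y', p y' = x ∧ Joined y y' := by
  obtain ⟨γ⟩ := h.joined_subtype
  obtain ⟨Γ, h1, h2⟩ := hp.isCoveringMap_restrictPreimage.exists_path_lifts
    (γ : C(unitInterval, Z)) ⟨y, h.source_mem⟩ γ.source
  refine ⟨Γ 1, congrArg Subtype.val ((congrFun h1 1).trans γ.target),
    ⟨⟨⟨fun t => Γ t, by fun_prop⟩, congrArg Subtype.val h2, rfl⟩⟩⟩

theorem P1a_conn (B : Bas1) {X Y : Type} [TopologicalSpace X] [TopologicalSpace Y]
    [MulAction (Multiplicative ℤ) Y] [ContinuousConstSMul (Multiplicative ℤ) Y] {Z : Set X}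
    {p : Y → X} {l : Y → ℤ} (hZ : IsPathConnected Z) (hp : GCov (Multiplicative ℤ) Z p)
    (hl : ∀ a y, l (Multiplicative.ofAdd a • y) = a + l y) {μ : Tot ℤ Y} (hμ : μ ∈ DG ℤ Y 1)
    (hd : dT ℤ X (psh ℤ p μ) = 0) (h1 : val0 ℤ l (dT ℤ Y μ) = 1) : PathConnectedSpace Y := by
  obtain ⟨-, -, hc, hs, -⟩ := B.cov _ X Y Z p hp
  obtain ⟨x0, hx0⟩ := hZ.nonempty
  obtain ⟨y0, rfl⟩ := hs x0 hx0
  have tr : ∀ (a : ℤ) {y y' : Y}, Joined y y' →
      Joined (Multiplicative.ofAdd a • y) (Multiplicative.ofAdd a • y') := fun a y y' h =>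
    h.map (continuous_const_smul (Multiplicative.ofAdd a))
  have ad : ∀ (a b : ℤ) (y : Y), Multiplicative.ofAdd a • Multiplicative.ofAdd b • y =
      Multiplicative.ofAdd (a + b) • y := fun a b y => by rw [ofAdd_add, mul_smul]
  let D : AddSubgroup ℤ :=
    { carrier := {n | Joined y0 (Multiplicative.ofAdd n • y0)}
      zero_mem' := by
        change Joined y0 (Multiplicative.ofAdd 0 • y0)
        rw [ofAdd_zero, one_smul]
      add_mem' := fun {a b} ha hb => Joined.trans ha (ad a b y0 ▸ tr a hb)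
      neg_mem' := fun {a} ha => by
        have := tr (-a) ha
        rw [ad, neg_add_cancel, ofAdd_zero, one_smul] at this
        exact this.symm }
  have dif : ∀ a b : ℤ, Joined (Multiplicative.ofAdd a • y0) (Multiplicative.ofAdd b • y0) →
      b - a ∈ D := fun a b h => by
    have := tr (-a) h
    rw [ad, ad, neg_add_cancel, ofAdd_zero, one_smul, neg_add_eq_sub] at this
    exact this
  have hn : ∀ y : Y, ∃ n : ℤ, Joined y (Multiplicative.ofAdd n • y0) := fun y => by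
    obtain ⟨y', e, h⟩ := P1a_lift hc (hZ.joinedIn _ (hp.mem y) _ hx0)
    obtain ⟨g, rfl⟩ := hp.trans y0 y' e.symm
    exact ⟨g.toAdd, h⟩
  choose n hn using hn
  have hr : ∀ x : X, ∃ r : ℤ, ∀ y, p y = x → l y - n y - r ∈ D := fun x => by
    by_cases h : ∃ y, p y = x
    · obtain ⟨y', rfl⟩ := h
      refine ⟨l y' - n y', fun y e => ?_⟩
      obtain ⟨g, rfl⟩ := hp.trans y y' e
      have h2 := dif _ _ ((ad g.toAdd (n y) y0 ▸ tr g.toAdd (hn y)).symm.trans (hn (g • y)))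
      have h3 : l (g • y) = g.toAdd + l y := hl g.toAdd y
      rw [h3]
      convert h2 using 1
      ring
    · exact ⟨0, fun y e => absurd ⟨y, e⟩ h⟩
  choose r hr using hr
  have key : val0 ℤ l (dT ℤ Y μ) - val0 ℤ r (dT ℤ X (psh ℤ p μ)) ∈ D := by
    refine P1a_ind (P := fun c => val0 ℤ l (dT ℤ Y c) - val0 ℤ r (dT ℤ X (psh ℤ p c)) ∈ D)
      (by simp) (fun a b ha hb => ?_) (fun γ a => ?_) hμ
    · simp only [map_add]
      rw [add_sub_add_comm]
      exact add_mem ha hb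
    · simp only [map_smul]
      rw [← smul_sub]
      refine zsmul_mem ?_ a
      rw [psh_pth p γ (hp.cont.comp γ.continuous), dT_pth, dT_pth, map_sub, map_sub, val0_pt,
        val0_pt, val0_pt, val0_pt]
      have j : Joined (γ 0) (γ 1) := ⟨⟨γ, rfl, rfl⟩⟩
      have h2 := add_mem (sub_mem (hr _ (γ 1) rfl) (hr _ (γ 0) rfl))
        (dif _ _ ((hn (γ 0)).symm.trans (j.trans (hn (γ 1)))))
      change l (γ 1) - l (γ 0) - (r (p (γ 1)) - r (p (γ 0))) ∈ D
      convert h2 using 1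
      ring
  rw [hd, map_zero, sub_zero, h1] at key
  have all : ∀ y, Joined y0 y := fun y => by
    have h2 : n y ∈ D := by simpa using zsmul_mem key (n y)
    exact Joined.trans h2 (hn y).symm
  exact ⟨⟨y0⟩, fun y y' => (all y).symm.trans (all y')⟩

theorem p1a_stmt (B : Bas1) : P1aStmt := by
  intro κ X Y _ _ _ _ o F n φ p l hF hX hp hl hol
  have gen : ∀ g : Multiplicative ℤ, g = Multiplicative.ofAdd (1 : ℤ) ^ g.toAdd := fun g => by
    rw [← ofAdd_zsmul, smul_eq_mul, mul_one, ofAdd_toAdd]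
  refine ⟨⟨hF, hp, fun g => mul_comm _ _, fun m hm => ?_, ?_, 1, fun e z w he γ hγ => ?_⟩,
    fun g => ⟨_, gen g⟩, fun y => by rw [hl, add_comm], hol, ?_⟩
  · rw [← ofAdd_zsmul, smul_eq_mul, mul_one] at hm
    exact ofAdd_eq_one.1 hm
  · have : Subgroup.zpowers (Multiplicative.ofAdd (1 : ℤ)) = ⊤ :=
      (Subgroup.eq_top_iff' _).2 fun g => ⟨_, (gen g).symm⟩
    rw [this]
    infer_instance
  · have e01 : p (γ 0) = p (γ 1) := by
      rw [hγ, hγ]
      simp [rotL]
    obtain ⟨g, hg⟩ := hp.trans _ _ e01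
    have h1 := hX.rot e z w he ⟨p ∘ γ, hp.cont.comp γ.continuous⟩ hγ
    rw [← psh_pth p γ (hp.cont.comp γ.continuous), hol, dT_pth, map_sub, val0_pt, val0_pt, hg,
      show l (g • γ 0) = g.toAdd + l (γ 0) from hl g.toAdd _, add_sub_cancel_right] at h1
    refine ⟨g, hg, ?_⟩
    rw [pow_one]
    rcases h1 with h1 | h1
    · exact Or.inl (congrArg Multiplicative.ofAdd h1)
    · exact Or.inr (congrArg Multiplicative.ofAdd h1)
  · obtain ⟨μ, hμ, h1, -⟩ := hX.gen
    obtain ⟨μ', h2, rfl⟩ := (B.lift ℤ _ X Y Fᶜ p hp).1 1 μ hμ.1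
    exact P1a_conn B hX.conn hp hl h2 hμ.2 ((hol μ').symm.trans h1)

end Pool.Agent.MP_bc14e1_gt
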