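import Pool.Agent.MP_bc14e1_gt.IfC

open Set Metric
open scoped Classical

namespace Pool.Agent.MP_bc14e1_gt

theorem P2a_val0 {X M : Type} [TopologicalSpace X] [AddCommGroup M] (m : M) (c : Tot ℤ X) :
    val0 ℤ (fun _ : X => m) (dT ℤ X c) = 0 := by
  have h : ∀ b : Sing X 0 →₀ ℤ, val0 ℤ (fun _ : X => m) (inc ℤ 0 b) = aug ℤ X b • m := by
    intro b
    induction b using Finsupp.induction_linear with
    | zero => simp
    | add a b ha hb => rw [map_add, map_add, ha, hb, map_add, add_smul]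
    | single σ a => rw [inc_single, aug_single]; simp [val0]
  induction c using Tot.ind with
  | h0 => simp
  | hadd a b ha hb => rw [map_add, map_add, ha, hb, add_zero]
  | h1 k σ a =>
    rcases k with _ | _ | k
    · rw [dT_inc_zero, map_zero]
    · rw [dT_inc_succ, h, aug_bd, zero_smul]
    · rw [dT_inc_succ]
      exact val0_of_DG _ (Nat.succ_ne_zero k) (inc_mem_DG _ _)

theorem P2a_rep {G Y : Type} [Group G] [MulAction G Y] (t : G)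
    (hf : ∀ (n : ℤ) (y : Y), t ^ n • y = y → n = 0) :
    ∃ (x : Y → Y) (N : Y → ℤ), (∀ y, t ^ N y • x y = y) ∧ (∀ y, x (t • y) = x y) ∧
      ∀ y, N (t • y) = N y + 1 := by
  have h0 : ∀ S : Set Y, S.Nonempty → ∃ x, x ∈ S := fun _ h => h
  choose f hfS using h0
  have hne : ∀ y : Y, {x | ∃ n : ℤ, t ^ n • x = y}.Nonempty := fun y =>
    ⟨y, 0, by rw [zpow_zero, one_smul]⟩
  have hS : ∀ y : Y, {x | ∃ n : ℤ, t ^ n • x = t • y} = {x | ∃ n : ℤ, t ^ n • x = y} := by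
    intro y
    ext x
    constructor
    · rintro ⟨n, hn⟩
      exact ⟨-1 + n, by rw [zpow_add, mul_smul, hn, zpow_neg_one, inv_smul_smul]⟩
    · rintro ⟨n, hn⟩
      exact ⟨1 + n, by rw [zpow_add, mul_smul, hn, zpow_one]⟩
  have hx : ∀ y, f _ (hne (t • y)) = f _ (hne y) := fun y => by simp only [hS]
  choose N hN using fun y => hfS _ (hne y)
  refine ⟨fun y => f _ (hne y), N, hN, hx, fun y => ?_⟩
  have h1 := hN (t • y)
  rw [hx] at h1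
  have h2 := hf (-(1 + N y) + N (t • y)) (f _ (hne y)) (by
    rw [zpow_add, mul_smul, h1, zpow_neg, inv_smul_eq_iff, zpow_add, mul_smul, hN, zpow_one])
  omega

theorem P2a_fun {G Y : Type} [Group G] [TopologicalSpace Y] [MulAction G Y]
    [ContinuousConstSMul G Y] [PathConnectedSpace Y] (t : G)
    (hf : ∀ (n : ℤ) (y : Y), t ^ n • y = y → n = 0) :
    ∃ (y₀ : Y) (w : Tot ℤ Y) (P : Y → Tot ℤ Y), (∀ y, P y ∈ DG ℤ Y 1) ∧
      (∀ y, dT ℤ Y (P y) = pt ℤ y - pt ℤ y₀) ∧ ∀ y, P (t • y) = gs ℤ Y t (P y) + w := by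
  obtain ⟨y₀⟩ : Nonempty Y := inferInstance
  have hr : ∀ y : Y, ∃ c ∈ DG ℤ Y 1, dT ℤ Y c = pt ℤ y - pt ℤ y₀ := fun y =>
    ⟨pth ℤ (PathConnectedSpace.somePath y₀ y).toContinuousMap, pth_mem_DG _, by
      rw [dT_pth]; simp⟩
  choose r hr1 hr2 using hr
  obtain ⟨x, N, h1, h2, h3⟩ := P2a_rep t hf
  have hpt : ∀ (g : G) (y : Y), gs ℤ Y g (pt ℤ y) = pt ℤ (g • y) := fun g y => psh_pt _ y
  let e : Equiv.Perm (Tot ℤ Y) :=
    { toFun := fun c => gs ℤ Y t c + r (t • y₀)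
      invFun := fun c => gs ℤ Y t⁻¹ (c - r (t • y₀))
      left_inv := fun c => by
        simp only [add_sub_cancel_right]
        rw [← gs_mul, inv_mul_cancel, gs_one]
      right_inv := fun c => by
        simp only
        rw [← gs_mul, mul_inv_cancel, gs_one, sub_add_cancel] }
  have hQ : ∀ (n : ℤ) (y : Y) (c : Tot ℤ Y), c ∈ DG ℤ Y 1 ∧ dT ℤ Y c = pt ℤ y - pt ℤ y₀ →
      (e ^ n) c ∈ DG ℤ Y 1 ∧ dT ℤ Y ((e ^ n) c) = pt ℤ (t ^ n • y) - pt ℤ y₀ := by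
    intro n
    induction n using Int.induction_on with
    | zero => intro y c h; simpa using h
    | succ n ih =>
      intro y c h
      rw [zpow_add_one, zpow_add_one, mul_smul, Equiv.Perm.mul_apply]
      refine ih _ _ ⟨add_mem (gs_mem_DG t h.1) (hr1 _), ?_⟩
      change dT ℤ Y (gs ℤ Y t c + r (t • y₀)) = _
      rw [map_add, dT_gs, h.2, hr2, map_sub, hpt, hpt, sub_add_sub_cancel]
    | pred n ih =>
      intro y c h
      rw [zpow_sub_one, zpow_sub_one, mul_smul, Equiv.Perm.mul_apply]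
      refine ih _ _ ⟨gs_mem_DG t⁻¹ (sub_mem h.1 (hr1 _)), ?_⟩
      change dT ℤ Y (gs ℤ Y t⁻¹ (c - r (t • y₀))) = _
      rw [dT_gs, map_sub, h.2, hr2, sub_sub_sub_cancel_right, map_sub, hpt, hpt, inv_smul_smul]
  refine ⟨y₀, r (t • y₀), fun y => (e ^ N y) (r (x y)), fun y => (hQ _ _ _ ⟨hr1 _, hr2 _⟩).1,
    fun y => ?_, fun y => ?_⟩
  · rw [(hQ _ _ _ ⟨hr1 _, hr2 _⟩).2, h1]
  · beta_reduce
    rw [h2, h3, add_comm (N y), zpow_one_add, Equiv.Perm.mul_apply]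
    rfl

theorem p2a_stmt (B : Bas1) : P2aStmt := by
  intro G Y A _ _ _ _ _ t τ α₀ hY hf hB hτ
  obtain ⟨y₀, w, P, h1, h2, h3⟩ := P2a_fun t hf
  have hR : ∀ b ∈ DG ℤ Y 0, val0 ℤ P b ∈ DG ℤ Y 1 ∧
      dT ℤ Y (val0 ℤ P b) = b - val0 ℤ (fun _ : Y => pt ℤ y₀) b ∧
      val0 ℤ P (gs ℤ Y t b) = gs ℤ Y t (val0 ℤ P b) + val0 ℤ (fun _ : Y => w) b := by
    intro b hb
    refine DG_zero_ind (P := fun b => val0 ℤ P b ∈ DG ℤ Y 1 ∧
      dT ℤ Y (val0 ℤ P b) = b - val0 ℤ (fun _ : Y => pt ℤ y₀) b ∧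
      val0 ℤ P (gs ℤ Y t b) = gs ℤ Y t (val0 ℤ P b) + val0 ℤ (fun _ : Y => w) b)
      (by simp) ?_ ?_ (mem_CH_univ b) hb
    · rintro a b ⟨a1, a2, a3⟩ ⟨b1, b2, b3⟩
      simp only [map_add]
      refine ⟨add_mem a1 b1, ?_, ?_⟩
      · rw [a2, b2]; abel
      · rw [a3, b3]; abel
    · intro y _ a
      have hpt : gs ℤ Y t (pt ℤ y) = pt ℤ (t • y) := psh_pt _ y
      simp only [map_smul, hpt, val0_pt, h2, h3, smul_sub, smul_add, and_self, and_true]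
      exact Submodule.smul_mem _ _ (h1 y)
  let π : Tot ℤ Y →ₗ[ℤ] Tot ℤ Y := deg ℤ Y 1 - val0 ℤ P ∘ₗ dT ℤ Y ∘ₗ deg ℤ Y 1
  have hπ : ∀ c, π c = deg ℤ Y 1 c - val0 ℤ P (dT ℤ Y (deg ℤ Y 1 c)) := fun c => rfl
  have hmem : ∀ c, π c ∈ ZC ℤ (univ : Set Y) 1 := by
    intro c
    obtain ⟨k1, k2, -⟩ := hR _ (dT_mem_DG (deg_mem 1 c))
    refine ⟨⟨mem_CH_univ _, sub_mem (deg_mem 1 c) k1⟩, ?_⟩
    change dT ℤ Y (π c) = 0
    rw [hπ, map_sub, k2, P2a_val0, sub_zero, sub_self]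
  refine ⟨α₀.comp (π.codRestrict _ hmem).toAddMonoidHom, fun z => ?_, fun c => ?_,
    fun k hk c hc => ?_, fun c => ?_⟩
  · refine congrArg α₀ (Subtype.ext ?_)
    change π z.1 = z.1
    have h : dT ℤ Y z.1 = 0 := z.2.2
    rw [hπ, deg_of_mem z.2.1.2, h, map_zero, sub_zero]
  · refine hB _ ⟨deg ℤ Y 2 c, ⟨mem_CH_univ _, deg_mem 2 c⟩, ?_⟩
    change _ = π (dT ℤ Y c)
    rw [hπ, deg_dT, dT_dT, map_zero, sub_zero]
  · refine (congrArg α₀ (Subtype.ext ?_)).trans (map_zero α₀)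
    change π c = 0
    rw [hπ, deg_eq_zero hk.symm hc, map_zero, map_zero, sub_zero]
  · refine hτ _ _ ?_
    change π (gs ℤ Y t c) = gs ℤ Y t (π c)
    have h : deg ℤ Y 1 (gs ℤ Y t c) = gs ℤ Y t (deg ℤ Y 1 c) := deg_psh _ 1 c
    rw [hπ, hπ, h, dT_gs, (hR _ (dT_mem_DG (deg_mem 1 c))).2.2, P2a_val0, add_zero, map_sub]

end Pool.Agent.MP_bc14e1_gt
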