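import Pool.Agent.MP_bc14e1_gt.If
import Pool.Agent.MP_bc14e1_gt.Ind

open Set Metric
open scoped Classical

namespace Pool.Agent.MP_bc14e1_gt

theorem PA_disc {W : Set (ℂ × ℂ)} (hW : IsOpen W) :
    ∃ V, IsOpen V ∧ V ⊆ W ∧ DiscCl V ∧ ∀ x ∈ W, x.2 = 0 → x ∈ V := by
  refine ⟨⋃ (z : ℂ) (r : ℝ) (_ : ball z r ×ˢ ball (0 : ℂ) r ⊆ W), ball z r ×ˢ ball 0 r,
    isOpen_iUnion fun _ => isOpen_iUnion fun _ => isOpen_iUnion fun _ =>
      isOpen_ball.prod isOpen_ball,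
    iUnion_subset fun _ => iUnion_subset fun _ => iUnion_subset fun h => h, fun x hx w hw => ?_,
    fun x hx h0 => ?_⟩
  · simp only [mem_iUnion] at hx ⊢
    obtain ⟨z, r, h, h1, h2⟩ := hx
    exact ⟨z, r, h, h1, mem_ball_zero_iff.2 (hw.trans_lt (mem_ball_zero_iff.1 h2))⟩
  · obtain ⟨z, w⟩ := x
    obtain rfl : w = 0 := h0
    obtain ⟨r, hr, h⟩ := Metric.isOpen_iff.1 hW _ hx
    rw [← ball_prod_same] at h
    simp only [mem_iUnion]
    exact ⟨z, r, h, mem_ball_self hr, mem_ball_self hr⟩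

theorem pa_stmt (B : Bas1) (hRot : RotStmt) : PAStmt := by
  intro R _ X G Y _ _ _ _ _ _ F p s T hF
  have hp := T.cov.cont
  have hm : ∀ (k : ℕ) (S : Set X), ∀ c ∈ CH R (p ⁻¹' S),
      ((gs R Y s - 1) ^ k) c ∈ CH R (p ⁻¹' S) := fun k S c hc =>
    pow_mem (fun c hc => sub_mem (gs_mem_CH s (fun y hy => by
      rwa [mem_preimage, T.cov.inv]) hc) hc) k hc
  have hd : ∀ (k : ℕ) c, dT R Y (((gs R Y s - 1) ^ k) c) = ((gs R Y s - 1) ^ k) (dT R Y c) := by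
    intro k c
    have h : Commute (dT R Y) (gs R Y s - 1) := LinearMap.ext fun c => by
      change dT R Y (gs R Y s c - c) = gs R Y s (dT R Y c) - dT R Y c
      rw [map_sub, dT_gs]
    exact LinearMap.congr_fun (h.pow_right k).eq c
  refine ind_compact (P := fun L => ∀ N', IsOpen N' → L ⊆ N' →
    ∃ N, IsOpen N ∧ L ⊆ N ∧ N ⊆ N' ∧ ∃ k : ℕ, ∀ z ∈ CH R (p ⁻¹' N), dT R Y z = 0 →
      ∃ b ∈ CH R (p ⁻¹' N'), ((gs R Y s - 1) ^ k) z = dT R Y b) ?_
    (T := fun e : {e // FlatCh F e} => e.1.source) (fun e => e.1.open_source) (S := F) ?_ ?_ hF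
    Subset.rfl fun x hx => ?_
  · exact fun N' _ _ => ⟨∅, isOpen_empty, Subset.rfl, empty_subset _, 0, fun z hz _ =>
      ⟨0, zero_mem _, by rw [eq_zero_of_mem_CH_empty hz, map_zero, map_zero]⟩⟩
  · rintro ⟨e, he⟩ L - hLF hLe N' hN' hLN
    obtain ⟨V, h1, h2, h3, h4⟩ := PA_disc (e.isOpen_inter_preimage_symm hN')
    have h5 : V ⊆ e.target := h2.trans inter_subset_left
    have h6 : e.symm '' V ⊆ N' := image_subset_iff.2 (h2.trans inter_subset_right)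
    obtain ⟨H, -, -, h7, h8⟩ := hRot R G X Y F p s T e V he h1 h5 h3
    refine ⟨e.symm '' V, e.isOpen_image_symm_of_subset_target h1 h5, fun x hx => ?_, h6, 1,
      fun z hz h0 => ⟨H z, CH_mono (preimage_mono h6)
        (h7 V Subset.rfl (fun x hx w hw => h3 x hx w hw.le) z hz), ?_⟩⟩
    · refine ⟨e x, h4 _ ⟨e.map_source (hLe hx), ?_⟩ ((he x (hLe hx)).1 (hLF hx)),
        e.left_inv (hLe hx)⟩
      rw [mem_preimage, e.left_inv (hLe hx)]
      exact hLN hx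
    · have h9 := h8 z hz
      rw [h0, map_zero, add_zero] at h9
      rw [h9, pow_one]
      rfl
  · intro A C hA hC PA PC PI N' hN' hsub
    obtain ⟨N₁, o₁, s₁, t₁, k₁, h₁⟩ := PA N' hN' (subset_union_left.trans hsub)
    obtain ⟨N₂, o₂, s₂, t₂, k₂, h₂⟩ := PC N' hN' (subset_union_right.trans hsub)
    obtain ⟨N₀, o₀, s₀, -, k₀, h₀⟩ := PI (N₁ ∩ N₂) (o₁.inter o₂) (inter_subset_inter s₁ s₂)
    obtain ⟨U, V, oU, oV, sU, sV, hUV⟩ := exists_nhds_inter hA hC o₀ s₀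
    have hN : U ∩ N₁ ∪ V ∩ N₂ ⊆ N' :=
      union_subset (inter_subset_right.trans t₁) (inter_subset_right.trans t₂)
    refine ⟨U ∩ N₁ ∪ V ∩ N₂, (oU.inter o₁).union (oV.inter o₂),
      union_subset_union (subset_inter sU s₁) (subset_inter sV s₂), hN, k₁ + k₂ + k₀,
      fun z hz h0 => ?_⟩
    obtain ⟨m, hm'⟩ := sdT_small_two ((oU.inter o₁).preimage hp) ((oV.inter o₂).preimage hp) hz
    obtain ⟨c₁, m₁, c₂, m₂, hc⟩ := Submodule.mem_sup.1 (hm' m le_rfl)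
    have e1 : dT R Y c₂ = -dT R Y c₁ := by
      rw [eq_neg_iff_add_eq_zero, add_comm, ← map_add, hc, dT_sdT_pow, h0, map_zero]
    have e2 : z = dT R Y (sdHP R Y m z) + (c₁ + c₂) := by
      have h := dT_sdHP m z
      rw [h0, map_zero, add_zero] at h
      rw [h, hc, sub_add_cancel]
    have m₀ : dT R Y c₁ ∈ CH R (p ⁻¹' N₀) := by
      refine CH_mono (preimage_mono hUV) ?_
      rw [preimage_inter, CH_inter]
      exact ⟨CH_mono (preimage_mono inter_subset_left) (dT_mem_CH m₁),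
        neg_mem_iff.1 (e1 ▸ CH_mono (preimage_mono inter_subset_left) (dT_mem_CH m₂))⟩
    obtain ⟨v, mv, hv⟩ := h₀ _ m₀ (dT_dT _)
    obtain ⟨b₁, n₁, hb₁⟩ := h₁ (((gs R Y s - 1) ^ k₀) c₁ - v)
      (sub_mem (hm _ _ _ (CH_mono (preimage_mono inter_subset_right) m₁))
        (CH_mono (preimage_mono inter_subset_left) mv)) (by rw [map_sub, hd, hv, sub_self])
    obtain ⟨b₂, n₂, hb₂⟩ := h₂ (((gs R Y s - 1) ^ k₀) c₂ + v)
      (add_mem (hm _ _ _ (CH_mono (preimage_mono inter_subset_right) m₂))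
        (CH_mono (preimage_mono inter_subset_right) mv))
      (by rw [map_add, hd, e1, map_neg, hv, neg_add_cancel])
    refine ⟨((gs R Y s - 1) ^ (k₁ + k₂ + k₀)) (sdHP R Y m z) +
      (((gs R Y s - 1) ^ k₂) b₁ + ((gs R Y s - 1) ^ k₁) b₂),
      add_mem (hm _ _ _ (CH_mono (preimage_mono hN) (sdHP_mem_CH m hz)))
        (add_mem (hm _ _ _ n₁) (hm _ _ _ n₂)), ?_⟩
    rw [map_add, map_add, hd, hd, hd, ← hb₁, ← hb₂, ← Module.End.mul_apply (_ ^ k₂),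
      ← Module.End.mul_apply (_ ^ k₁), ← pow_add, ← pow_add, add_comm k₂, ← map_add,
      sub_add_add_cancel, ← map_add, ← Module.End.mul_apply (_ ^ (k₁ + k₂)), ← pow_add, ← map_add,
      ← e2]
  · obtain ⟨e, he, h⟩ := T.flat.ch x hx
    exact mem_iUnion.2 ⟨⟨e, he⟩, h⟩

end Pool.Agent.MP_bc14e1_gt
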