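import Pool.Agent.MP_bc14e1_gt.IfP
import Pool.Agent.MP_bc14e1_gt.IfC
import Pool.Agent.MP_bc14e1_gt.Ind

open Set Metric
open scoped Classical

namespace Pool.Agent.MP_bc14e1_gt

section

variable {G Y : Type} [Group G] [MulAction G Y] {s : G}

theorem PD1_mem {A : Set Y} {y : Y} : y ∈ sat s A ↔ ∃ (n : ℤ), ∃ x ∈ A, s ^ n • x = y := by
  simp [sat]

theorem PD1_sub (A : Set Y) : A ⊆ sat s A := fun y hy => PD1_mem.2 ⟨0, y, hy, by simp⟩

theorem PD1_mono {A B : Set Y} (h : A ⊆ B) : sat s A ⊆ sat s B := fun y hy => by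
  obtain ⟨n, x, hx, rfl⟩ := PD1_mem.1 hy
  exact PD1_mem.2 ⟨n, x, h hx, rfl⟩

theorem PD1_inv (A : Set Y) : Inv s (sat s A) := by
  intro y
  constructor
  · intro hy
    obtain ⟨n, x, hx, h⟩ := PD1_mem.1 hy
    refine PD1_mem.2 ⟨-1 + n, x, hx, ?_⟩
    rw [zpow_add, mul_smul, h, zpow_neg_one, inv_smul_smul]
  · intro hy
    obtain ⟨n, x, hx, rfl⟩ := PD1_mem.1 hy
    refine PD1_mem.2 ⟨1 + n, x, hx, ?_⟩
    rw [zpow_add, mul_smul, zpow_one]

theorem PD1_le {A U : Set Y} (hU : Inv s U) (h : A ⊆ U) : sat s A ⊆ U := fun y hy => by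
  obtain ⟨n, x, hx, rfl⟩ := PD1_mem.1 hy
  exact (hU.zpow n x).2 (h hx)

theorem PD1_union (A B : Set Y) : sat s (A ∪ B) = sat s A ∪ sat s B := by
  simp only [sat, image_union, iUnion_union_distrib]

theorem PD1_iUnion {ι : Type} (U : ι → Set Y) : sat s (⋃ i, U i) = ⋃ i, sat s (U i) := by
  simp only [sat, image_iUnion]
  exact iUnion_comm _

theorem PD1_inter {X : Type} {p : Y → X} (hp : ∀ (g : G) (y : Y), p (g • y) = p y) {S A B : Set Y}
    (hS : InjOn p S) (hA : A ⊆ S) (hB : B ⊆ S) : sat s (A ∩ B) = sat s A ∩ sat s B := by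
  refine Subset.antisymm (subset_inter (PD1_mono inter_subset_left) (PD1_mono inter_subset_right))
    ?_
  rintro y ⟨h1, h2⟩
  obtain ⟨n, x, hx, rfl⟩ := PD1_mem.1 h1
  obtain ⟨k, z, hz, h⟩ := PD1_mem.1 h2
  have : z = x := hS (hB hz) (hA hx) (by rw [← hp (s ^ k), h, hp])
  subst this
  exact PD1_mem.2 ⟨n, z, ⟨hx, hz⟩, rfl⟩

theorem PD1_open [TopologicalSpace Y] [ContinuousConstSMul G Y] {A : Set Y} (hA : IsOpen A) :
    IsOpen (sat s A) :=
  isOpen_iUnion fun n => isOpenMap_smul (s ^ n) A hA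

end

theorem pd1_stmt (B : Bas1) (hLocCtr : LocCtrStmt) (hFam : FamStmt)
    (hMVi : MViStmt) (hMVs : MVsStmt) (hBase1 : Base1Stmt) : PD1Stmt := by
  intro X G Y _ _ _ _ _ _ _ _ o F p s β htc hP g ρ hρ Bf hB hPP U hU hU'
  obtain ⟨-, f2, f3, f4, -⟩ := hFam X G Y F p s htc
  obtain ⟨-, hloc, -⟩ := B.cov G X Y _ p htc.cov
  let P : Set Y → Prop := fun U => PDi Bf (Mul0 s g) (KY s U) U ∧ PDs Bf (Mul0 s g) (KY s U)
  let Q : Set Y → Prop := fun U => IsOpen U ∧ Inv s U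
  have hQ : ∀ A A', Q A → Q A' → Q (A ∪ A') := fun A A' h h' =>
    ⟨h.1.union h'.1, fun y => or_congr (h.2 y) (h'.2 y)⟩
  have hQ' : ∀ A A', Q A → Q A' → Q (A ∩ A') := fun A A' h h' =>
    ⟨h.1.inter h'.1, fun y => and_congr (h.2 y) (h'.2 y)⟩
  have hQs : ∀ A, IsOpen A → Q (sat s A) := fun A hA => ⟨PD1_open hA, PD1_inv A⟩
  have hMV : ∀ A A', Q A → Q A' → P A → P A' → P (A ∩ A') → P (A ∪ A') :=
    fun A A' hA hA' h1 h2 h3 =>
      ⟨hMVi G Y s Bf _ _ _ _ _ _ _ hPP (f3 A hA.1 hA.2) (f3 A' hA'.1 hA'.2)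
        (f3 _ (hQ' _ _ hA hA').1 (hQ' _ _ hA hA').2) (f4 A A' hA.1 hA.2 hA'.1 hA'.2)
        h1.1 h2.1 h3.1 h3.2,
      hMVs G Y s Bf _ _ _ _ _ _ _ hPP (f3 A hA.1 hA.2) (f3 A' hA'.1 hA'.2)
        (f3 _ (hQ' _ _ hA hA').1 (hQ' _ _ hA hA').2) (f4 A A' hA.1 hA.2 hA'.1 hA'.2)
        h1.1 h2.1 h1.2 h2.2 h3.2⟩
  have hD : ∀ (ι : Type) [Nonempty ι] (U : ι → Set Y), (∀ i, Q (U i)) → Directed (· ⊆ ·) U →
      (∀ i, P (U i)) → P (⋃ i, U i) := by
    intro ι _ U hU hd h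
    have key : ∀ K ∈ KY s (⋃ i, U i), ∃ i, K ∈ KY s (U i) := by
      rintro K ⟨hK, hKU⟩
      obtain ⟨L, hL, rfl⟩ := f2 K hK
      obtain ⟨i, hi⟩ := hL.elim_directed_cover U (fun i => (hU i).1) ((PD1_sub L).trans hKU) hd
      exact ⟨i, hK, PD1_le (hU i).2 hi⟩
    constructor
    · intro K hK u hu hdu hb
      obtain ⟨i, hi⟩ := key K hK
      obtain ⟨w, hw, h1⟩ := (h i).1 K hi u hu hdu hb
      exact ⟨w, CH_mono (subset_iUnion U i) hw, h1⟩
    · intro K hK f hf hf'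
      obtain ⟨i, hi⟩ := key K hK
      obtain ⟨K', hK', h1⟩ := (h i).2 K hi f hf hf'
      exact ⟨K', ⟨hK'.1, hK'.2.trans (subset_iUnion U i)⟩, h1⟩
  have h0 : P ∅ := by
    constructor
    · intro K hK u hu _ _
      refine ⟨0, Submodule.zero_mem _, ?_⟩
      rw [eq_zero_of_mem_CH_empty (CH_mono hK.2 hu)]
      simp
    · intro K hK f _ hf'
      refine ⟨K, hK, Subset.rfl, 0, Submodule.zero_mem _, by simp, fun b _ => ?_⟩
      rw [map_zero, hf' b (Submodule.mem_sup_left ?_)]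
      rw [subset_empty_iff.1 hK.2, compl_empty]
      exact mem_CH_univ b
  have hch : ∀ e : OpenPartialHomeomorph Y (E 4), InjOn p e.source → ∀ W, IsOpen W →
      W ⊆ e.target → P (sat s (e.symm '' W)) := by
    intro e he W hW hWT
    have ho : ∀ A, IsOpen A → A ⊆ e.target → IsOpen (e.symm '' A) :=
      fun A hA h => e.symm.isOpen_image_of_subset_source hA h
    have hs : ∀ A, A ⊆ e.target → e.symm '' A ⊆ e.source := by
      rintro A h _ ⟨x, hx, rfl⟩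
      exact e.map_target (h hx)
    refine ind_convex (T := e.target) (P := fun W => P (sat s (e.symm '' W)))
      (fun C h1 h2 _ h3 => hBase1 X G Y o F p s β htc hP g ρ hρ Bf hB hPP e he C h1 h2 h3)
      (fun A A' hA hA' hT hT' h1 h2 h3 => ?_) (fun ι _ V hV hT hd h => ?_) hW hWT
    · rw [image_union, PD1_union]
      rw [e.symm.injOn.image_inter hT hT',
        PD1_inter htc.cov.inv he (hs _ hT) (hs _ hT')] at h3
      exact hMV _ _ (hQs _ (ho _ hA hT)) (hQs _ (ho _ hA' hT')) h1 h2 h3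
    · rw [image_iUnion, PD1_iUnion]
      exact hD ι _ (fun i => hQs _ (ho _ (hV i) (hT i)))
        (fun i j => (hd i j).imp fun _ hk =>
          ⟨PD1_mono (image_mono hk.1), PD1_mono (image_mono hk.2)⟩) h
  refine ind_cover (P := P) (Q := Q) hQ hQ' ⟨isOpen_empty, fun _ => Iff.rfl⟩ h0
    (ι := {e : OpenPartialHomeomorph Y (E 4) // InjOn p e.source})
    (T := fun e => sat s e.1.source) (fun e => hQs _ e.1.open_source) ?_ hMV hD ⟨hU, hU'⟩
    fun y _ => ?_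
  · rintro ⟨e, he⟩ V hV hVT
    have e1 : e.symm '' (e '' (V ∩ e.source)) = V ∩ e.source :=
      e.toPartialEquiv.symm_image_image_of_subset_source inter_subset_right
    have e2 : V = sat s (V ∩ e.source) := by
      refine Subset.antisymm (fun y hy => ?_) (PD1_le hV.2 inter_subset_left)
      obtain ⟨n, x, hx, rfl⟩ := PD1_mem.1 (hVT hy)
      exact PD1_mem.2 ⟨n, x, ⟨(hV.2.zpow n x).1 hy, hx⟩, rfl⟩
    rw [e2, ← e1]
    exact hch e he _ (e.isOpen_image_of_subset_source (hV.1.inter e.open_source)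
      inter_subset_right) ((image_mono inter_subset_right).trans e.mapsTo.image_subset)
  · obtain ⟨e, hy, -, he⟩ := (hLocCtr X Y p hloc y univ Filter.univ_mem).1
    exact mem_iUnion.2 ⟨⟨e, he⟩, PD1_sub _ hy⟩

end Pool.Agent.MP_bc14e1_gt
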