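import Pool.Agent.MP_bc14e1_gt.IfP
import Pool.Agent.MP_bc14e1_gt.Ind

open Set Metric
open scoped Classical

namespace Pool.Agent.MP_bc14e1_gt

theorem PD2_disc {T : Set (ℂ × ℂ)} (hT : IsOpen T) : ∃ V, IsOpen V ∧ V ⊆ T ∧ DiscCl V ∧
    ∀ x ∈ T, x.2 = 0 → x ∈ V := by
  refine ⟨{x | ∀ u ∈ closedBall (0 : ℂ) 1, (x.1, u * x.2) ∈ T}, ?_, fun x hx => ?_, ?_, ?_⟩
  · refine isOpen_iff_mem_nhds.2 fun x hx => ?_
    refine (isCompact_closedBall (0 : ℂ) 1).eventually_forall_of_forall_eventually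
      (P := fun (x : ℂ × ℂ) (u : ℂ) => (x.1, u * x.2) ∈ T) fun u hu => ?_
    have hc : Continuous fun z : (ℂ × ℂ) × ℂ => (z.1.1, z.2 * z.1.2) := by fun_prop
    exact hc.continuousAt (hT.mem_nhds (hx u hu))
  · simpa using hx 1 (by simp)
  · intro x hx w hw u hu
    by_cases h0 : x.2 = 0
    · have : w = 0 := by simpa [h0] using hw
      simpa [this, h0] using hx u hu
    · have h1 := hx (u * (w / x.2)) (by
        rw [mem_closedBall_zero_iff] at hu ⊢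
        rw [norm_mul, norm_div]
        exact mul_le_one₀ hu (by positivity) (div_le_one_of_le₀ hw (norm_nonneg _)))
      rwa [mul_assoc, div_mul_cancel₀ _ h0] at h1
  · rintro ⟨z, w⟩ hx rfl u -
    simpa using hx

theorem pd2_stmt (B : Bas1) (hFam : FamStmt) (hMVi : MViStmt)
    (hMVs : MVsStmt) (hPD1 : PD1Stmt) (hBase2 : Base2Stmt) : PD2Stmt := by
  intro X G Y _ _ _ _ _ _ _ _ o F p s β htc hP ζ hζ n ρ hρ Bf hB hPP O hO
  obtain ⟨-, -, -, -, f5, f6, f7, f8⟩ := hFam X G Y F p s htc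
  let P : Set X → Prop := fun O => PDi Bf (Mul0 s (piL ζ ^ n)) (KX p O) (p ⁻¹' O) ∧
    PDs Bf (Mul0 s (piL ζ ^ n)) (KX p O)
  have hoff : ∀ O, IsOpen O → O ⊆ Fᶜ → P O := by
    intro O hO hF
    obtain ⟨h1, h2⟩ := hPD1 X G Y o F p s β htc hP _ ρ hρ Bf hB hPP (p ⁻¹' O)
      (hO.preimage htc.cov.cont) fun y => by simp only [mem_preimage, htc.cov.inv]
    have hK : ∀ K ∈ KX p O, K ∈ KY s (p ⁻¹' O) := by
      rintro _ ⟨L, hL, hLO, rfl⟩
      exact ⟨f6 L hL (hLO.trans hF), preimage_mono hLO⟩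
    refine ⟨fun K h => h1 K (hK K h), fun K h f hf hf' => ?_⟩
    obtain ⟨K', hK', hKK, u, hu, hd, hb⟩ := h2 K (hK K h) f hf hf'
    refine ⟨p ⁻¹' (p '' K'), ⟨_, f5 K' hK'.1, image_subset_iff.2 hK'.2, rfl⟩,
      hKK.trans (subset_preimage_image p K'), u, CH_mono (subset_preimage_image p K') hu, hd,
      fun b h => hb b ?_⟩
    have h3 : CH ℂ (p ⁻¹' (p '' K'))ᶜ ⊔ Mul0 s (piL ζ ^ n) ≤ CH ℂ K'ᶜ ⊔ Mul0 s (piL ζ ^ n) :=
      sup_le_sup_right (CH_mono (compl_subset_compl.2 (subset_preimage_image p K'))) _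
    exact h3 h
  have hMV : ∀ A A', IsOpen A → IsOpen A' → P A → P A' → P (A ∩ A') → P (A ∪ A') :=
    fun A A' hA hA' h1 h2 h3 =>
      ⟨hMVi G Y s Bf _ _ _ _ _ _ _ hPP (f7 A hA) (f7 A' hA') (f7 _ (hA.inter hA'))
        (f8 A A' hA hA') h1.1 h2.1 h3.1 h3.2,
      hMVs G Y s Bf _ _ _ _ _ _ _ hPP (f7 A hA) (f7 A' hA') (f7 _ (hA.inter hA'))
        (f8 A A' hA hA') h1.1 h2.1 h1.2 h2.2 h3.2⟩
  have hch : ∀ e, FlatCh F e → ∀ O, IsOpen O → O ⊆ e.source → P O := by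
    intro e he O hO hs
    obtain ⟨V, hV, hVT, hD, h0⟩ := PD2_disc (e.isOpen_image_of_subset_source hO hs)
    have hVt : V ⊆ e.target := hVT.trans ((image_mono hs).trans e.mapsTo.image_subset)
    have hV' : IsOpen (e.symm '' V) := e.symm.isOpen_image_of_subset_source hV hVt
    have e1 : O = (O \ F) ∪ e.symm '' V := by
      refine Subset.antisymm (fun x hx => ?_) (union_subset sdiff_subset ?_)
      · by_cases hx' : x ∈ F
        · exact Or.inr ⟨e x, h0 _ ⟨x, hx, rfl⟩ ((he x (hs hx)).1 hx'), e.left_inv (hs hx)⟩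
        · exact Or.inl ⟨hx, hx'⟩
      · rintro _ ⟨z, hz, rfl⟩
        obtain ⟨x, hx, rfl⟩ := hVT hz
        rwa [e.left_inv (hs hx)]
    have hO' : IsOpen (O \ F) := hO.sdiff htc.flat.cl
    rw [e1]
    exact hMV _ _ hO' hV' (hoff _ hO' fun _ h => h.2)
      (hBase2 X G Y F p s htc ζ hζ n Bf e V he hV hVt hD)
      (hoff _ (hO'.inter hV') fun _ h => h.1.2)
  refine ind_cover (P := P) (Q := IsOpen) (fun _ _ => IsOpen.union) (fun _ _ => IsOpen.inter)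
    isOpen_empty (hoff _ isOpen_empty (empty_subset _))
    (ι := Option {e : OpenPartialHomeomorph X (ℂ × ℂ) // FlatCh F e})
    (T := fun i => i.elim Fᶜ fun e => e.1.source) ?_ ?_ hMV ?_ hO fun x _ => ?_
  · rintro (_ | e)
    exacts [htc.flat.cl.isOpen_compl, e.1.open_source]
  · rintro (_ | e) U hU h
    exacts [hoff U hU h, hch e.1 e.2 U hU h]
  · intro ι _ U hU hd h
    constructor
    · rintro _ ⟨L, hL, hLU, rfl⟩ u hu hdu hb
      obtain ⟨i, hi⟩ := hL.elim_directed_cover U hU hLU hd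
      obtain ⟨w, hw, h1⟩ := (h i).1 _ ⟨L, hL, hi, rfl⟩ u hu hdu hb
      exact ⟨w, CH_mono (preimage_mono (subset_iUnion U i)) hw, h1⟩
    · rintro _ ⟨L, hL, hLU, rfl⟩ f hf hf'
      obtain ⟨i, hi⟩ := hL.elim_directed_cover U hU hLU hd
      obtain ⟨_, ⟨L', hL', hLU', rfl⟩, h1⟩ := (h i).2 _ ⟨L, hL, hi, rfl⟩ f hf hf'
      exact ⟨_, ⟨L', hL', hLU'.trans (subset_iUnion U i), rfl⟩, h1⟩
  · by_cases hx : x ∈ F
    · obtain ⟨e, he, hx⟩ := htc.flat.ch x hx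
      exact mem_iUnion.2 ⟨some ⟨e, he⟩, hx⟩
    · exact mem_iUnion.2 ⟨none, hx⟩

end Pool.Agent.MP_bc14e1_gt
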