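import Pool.Agent.MP_bc14e1_gt.IfP

open Set Metric
open scoped Classical

namespace Pool.Agent.MP_bc14e1_gt

theorem pdi_stmt (B : Bas1) (hFrob : FrobStmt) (hPP : PPStmt) (hPD2 : PD2Stmt) : PDIStmt := by
  intro X G Y _ _ _ _ _ _ _ _ o F p s β hT hP ζ hζ n O K hO hK hKO u hu hdu hn
  obtain ⟨ρ, hρ⟩ := (hFrob ζ).2 n
  obtain ⟨B', hB, hpp⟩ := hPP X G Y o F p s β hT hP _ ρ hρ
  have h := (hPD2 X G Y o F p s β hT hP ζ hζ n ρ hρ B' hB hpp O hO).1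
  by_contra hc
  refine hn (h (p ⁻¹' K) ⟨K, hK, hKO, rfl⟩ u hu hdu fun b hb => ?_)
  have hd : piL ζ ^ n ∣ lamF s β b u := by
    by_contra hd
    exact hc ⟨b, hb, hd⟩
  obtain ⟨a, ha⟩ := hd
  rw [hB, ha, hρ.kill]

end Pool.Agent.MP_bc14e1_gt
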