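import Pool.Agent.MP_bc14e1_gt.IfP

open Set Metric
open scoped Classical

namespace Pool.Agent.MP_bc14e1_gt

theorem PP_map {G Y : Type} [Group G] [TopologicalSpace Y] [MulAction G Y]
    [ContinuousConstSMul G Y] {s : G} {g : Lam ℂ} (f : Module.End ℂ (Tot ℂ Y))
    (hf : ∀ c, f (gs ℂ Y s c) = gs ℂ Y s (f c)) {c : Tot ℂ Y} (h : c ∈ Mul0 s g) :
    f c ∈ Mul0 s g := by
  obtain ⟨y, rfl⟩ := h
  exact ⟨f y, (map_act f hf g y).symm⟩

theorem pp_stmt (B : Bas1) : PPStmt := by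
  intro X G Y _ _ _ _ _ _ o F p s β hTC hβ g ρ hρ
  obtain ⟨hS, hloc, -⟩ := B.lam X G Y F p s β hTC hβ.lk
  have al : ∀ u u' v : Tot ℂ Y, lamF s β (u + u') v = lamF s β u v + lamF s β u' v := hS.add_left
  have ar : ∀ u v v' : Tot ℂ Y, lamF s β u (v + v') = lamF s β u v + lamF s β u v' := hS.add_right
  have sl : ∀ (a : Lam ℂ) (u v : Tot ℂ Y), lamF s β (act ℂ Y s a u) v = a * lamF s β u v :=
    hS.smul_left
  have sr : ∀ (a : Lam ℂ) (u v : Tot ℂ Y), lamF s β u (act ℂ Y s a v) = cj a * lamF s β u v :=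
    hS.smul_right
  let B₀ : Tot ℂ Y →ₗ[ℂ] Tot ℂ Y →+ ℂ :=
    { toFun := fun b => AddMonoidHom.mk' (fun u => ρ (lamF s β b u)) fun u u' => by
        rw [ar, map_add]
      map_add' := fun b b' => AddMonoidHom.ext fun u => by
        change ρ (lamF s β (b + b') u) = ρ (lamF s β b u) + ρ (lamF s β b' u)
        rw [al, map_add]
      map_smul' := fun a b => AddMonoidHom.ext fun u => by
        change ρ (lamF s β (a • b) u) = a • ρ (lamF s β b u)
        rw [← act_C s, sl, ← map_smul, ← LaurentPolynomial.smul_eq_C_mul] }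
  have hB : ∀ b u, B₀ b u = ρ (lamF s β b u) := fun _ _ => rfl
  refine ⟨B₀, hB, fun b u => ?_, fun A A' _ hA' hd b hb u hu => ?_, ?_, ?_,
    fun c hc => PP_map _ (dT_gs s) hc,
    fun c hc => PP_map _ (fun c => sdT_psh (continuous_const_smul s).continuousOn
      (mem_CH_univ c)) hc,
    fun c hc => PP_map _ (fun c => sdH_psh (continuous_const_smul s).continuousOn
      (mem_CH_univ c)) hc,
    fun A hA c hc => PP_map _ (prj_gs s hA) hc⟩
  · rw [hB, hB, lamF, lamF]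
    refine congrArg ρ (finsum_congr fun n => ?_)
    rw [hβ.stokes, dT_gs]
  · rw [hB, hloc A A' hA' hd b hb u hu, map_zero]
  · rintro _ ⟨y, rfl⟩ u
    rw [hB, sl, hρ.kill]
  · rintro b _ ⟨y, rfl⟩
    obtain ⟨c, hc⟩ := hρ.cjd
    rw [hB, sr, hc, mul_assoc, hρ.kill]

end Pool.Agent.MP_bc14e1_gt
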