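import Pool.Agent.MP_bc14e1_gt.IfC

open Set Metric
open scoped Classical

namespace Pool.Agent.MP_bc14e1_gt

/-- A homomorphism that kills the cycles is a coboundary on paths. -/
theorem Pack1_pot {X : Type} [TopologicalSpace X] {Z : Set X} (hZ : IsPathConnected Z)
    (β : Tot ℤ X →ₗ[ℤ] ℤ) (hβ : ∀ z ∈ ZC ℤ Z 1, β z = 0) :
    ∃ ψ : X → ℤ, ∀ γ : C(unitInterval, X), (∀ t, γ t ∈ Z) →
      β (pth ℤ γ) = ψ (γ 1) - ψ (γ 0) := by
  obtain ⟨x0, -, hx⟩ := hZ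
  have h : ∀ x, ∃ δ : C(unitInterval, X), x ∈ Z → δ 0 = x0 ∧ δ 1 = x ∧ ∀ t, δ t ∈ Z := by
    intro x
    by_cases hxZ : x ∈ Z
    · obtain ⟨δ, hδ⟩ := hx hxZ
      exact ⟨δ.toContinuousMap, fun _ => ⟨δ.source, δ.target, hδ⟩⟩
    · exact ⟨ContinuousMap.const _ x, fun h => absurd h hxZ⟩
  choose δ hδ using h
  refine ⟨fun x => β (pth ℤ (δ x)), fun γ hγ => ?_⟩
  obtain ⟨a0, a1, a2⟩ := hδ (γ 0) (hγ 0)
  obtain ⟨b0, b1, b2⟩ := hδ (γ 1) (hγ 1)
  have hz : pth ℤ (δ (γ 0)) + pth ℤ γ - pth ℤ (δ (γ 1)) ∈ ZC ℤ Z 1 := by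
    refine ⟨⟨sub_mem (add_mem (pth_mem_CH a2) (pth_mem_CH hγ)) (pth_mem_CH b2),
      sub_mem (add_mem (pth_mem_DG _) (pth_mem_DG _)) (pth_mem_DG _)⟩, ?_⟩
    rw [SetLike.mem_coe, LinearMap.mem_ker, map_sub, map_add, dT_pth, dT_pth, dT_pth, a0, a1, b0,
      b1]
    abel
  have := hβ _ hz
  rw [map_sub, map_add] at this
  linarith

/-- The sign by which an involution acts on the cocycle. -/
theorem Pack1_sign {X : Type} [TopologicalSpace X] {Z : Set X} (φ : Tot ℤ X →ₗ[ℤ] ℤ)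
    (hc : ∀ c ∈ CH ℤ Z, φ (dT ℤ X c) = 0)
    (hg : ∃ μ ∈ ZC ℤ Z 1, φ μ = 1 ∧ ∀ z ∈ ZC ℤ Z 1, z - φ z • μ ∈ BC ℤ Z 1)
    {I : X → X} (hI : Continuous I) (hII : ∀ x, I (I x) = x) (hZ : MapsTo I Z Z) :
    ∃ ε : ℤ, ε * ε = 1 ∧ ∀ z ∈ ZC ℤ Z 1, φ (psh ℤ I z) = ε * φ z := by
  obtain ⟨μ, hμ, h1, h2⟩ := hg
  have key : ∀ z ∈ ZC ℤ Z 1, φ (psh ℤ I z) = φ (psh ℤ I μ) * φ z := by
    intro z hz
    obtain ⟨b, hb, e⟩ := h2 z hz
    have h3 := hc _ (psh_mem_CH I hZ hb.1)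
    rw [dT_psh_cont hI, e, map_sub, map_sub, map_smul, map_smul, smul_eq_mul] at h3
    linarith
  refine ⟨φ (psh ℤ I μ), ?_, key⟩
  have hμ' : psh ℤ I μ ∈ ZC ℤ Z 1 := by
    refine ⟨⟨psh_mem_CH I hZ hμ.1.1, psh_mem_DG I hμ.1.2⟩, ?_⟩
    have : dT ℤ X μ = 0 := hμ.2
    rw [SetLike.mem_coe, LinearMap.mem_ker, dT_psh_cont hI, this, map_zero]
  have h4 := key _ hμ'
  have e : I ∘ I = id := funext hII
  rw [psh_psh' I hI, e, psh_id, h1] at h4
  exact h4.symm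

theorem pack1_stmt (B : Bas1) (hLocCtr : LocCtrStmt)
    (hExCov : ExCovStmt) (hP1a : P1aStmt) : Pack1Stmt := by
  intro κ X _ _ _ o F n φ I hF hX hII hIF
  have hloc := hLocCtr X X id (Homeomorph.refl X).isLocalHomeomorph
  obtain ⟨Y, tY, aY, cY, p, l, hcov, hlev, hhol, hcont⟩ := hExCov X ℤ Fᶜ φ.toAddMonoidHom
    (fun x hx => by
      obtain ⟨-, ⟨U, hU, hUF, hUx⟩, -⟩ := hloc x Fᶜ (hF.cl.isOpen_compl.mem_nhds hx)
      exact ⟨U, hU, hUF, hUx, fun y _ V hV => (hloc y V hV).2.2⟩)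
    hX.coc hX.dg
  obtain ⟨-, -, -, hsurj, hT2⟩ := B.cov _ X Y Fᶜ p hcov
  have hP := hP1a κ X Y o F n φ p l hF hX hcov hlev hhol
  have hIZ : MapsTo I Fᶜ Fᶜ := fun x hx h => hx ((hIF x).1 h)
  obtain ⟨ε, hε, hφ⟩ := Pack1_sign φ hX.coc hX.gen I.continuous hII hIZ
  obtain ⟨ψ, hψ⟩ := Pack1_pot hX.conn (φ ∘ₗ psh ℤ I - ε • φ) fun z hz => by
    rw [LinearMap.sub_apply, LinearMap.comp_apply, LinearMap.smul_apply, hφ z hz, smul_eq_mul,
      sub_self]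
  simp only [LinearMap.sub_apply, LinearMap.comp_apply, LinearMap.smul_apply, smul_eq_mul] at hψ
  have hlev' : ∀ (g : Multiplicative ℤ) y, l (g • y) = g.toAdd + l y := fun g y => hlev g.toAdd y
  have uniq : ∀ y y', p y = p y' → l y = l y' → y = y' := by
    intro y y' h1 h2
    obtain ⟨g, rfl⟩ := hcov.trans y y' h1
    rw [hlev'] at h2
    have : g = 1 := Multiplicative.toAdd.injective (by rw [toAdd_one]; linarith)
    rw [this, one_smul]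
  have hex : ∀ y, ∃ y', p y' = I (p y) ∧ l y' = ε * l y + ψ (p y) := by
    intro y
    obtain ⟨y1, h1⟩ := hsurj (I (p y)) (hIZ (hcov.mem y))
    refine ⟨Multiplicative.ofAdd (ε * l y + ψ (p y) - l y1) • y1, ?_, ?_⟩
    · rw [hcov.inv, h1]
    · rw [hlev]
      ring
  choose J hJp hJl using hex
  have hJc : Continuous J := by
    have e : p ∘ J = I ∘ p := funext hJp
    refine hcont J (by rw [e]; exact I.continuous.comp hcov.cont) fun γ => ?_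
    have h1 := hhol (pth ℤ γ)
    rw [dT_pth, map_sub, val0_pt, val0_pt] at h1
    have hγ : Continuous (p ∘ γ) := hcov.cont.comp γ.continuous
    have h2 := hψ ⟨p ∘ γ, hγ⟩ fun t => hcov.mem _
    rw [← psh_pth p γ hγ] at h2
    rw [e, ← psh_psh' I hcov.cont, hJl, hJl]
    change φ _ = _ at h1
    change _ = φ _
    change _ = ψ (p (γ 1)) - ψ (p (γ 0)) at h2
    rw [h1] at h2
    linarith
  have hconst : ∃ c : ℤ, ∀ x ∈ Fᶜ, ε * ψ x + ψ (I x) = c := by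
    obtain ⟨x0, -, hx⟩ := hX.conn
    refine ⟨ε * ψ x0 + ψ (I x0), fun x hxZ => ?_⟩
    obtain ⟨δ, hδ⟩ := hx hxZ
    have h1 := hψ δ.toContinuousMap hδ
    have hγ : Continuous (I ∘ δ.toContinuousMap) := I.continuous.comp δ.continuous
    have h2 := hψ ⟨I ∘ δ.toContinuousMap, hγ⟩ fun t => hIZ (hδ t)
    have e : I ∘ I = id := funext hII
    rw [← psh_pth I _ hγ, psh_psh' I I.continuous, e, psh_id] at h2
    change _ = ψ (I (δ 1)) - ψ (I (δ 0)) at h2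
    change _ = ψ (δ 1) - ψ (δ 0) at h1
    rw [δ.source, δ.target] at h1 h2
    linear_combination -ε * h1 - h2 - φ (pth ℤ δ.toContinuousMap) * hε
  obtain ⟨c, hc⟩ := hconst
  have hJJ : ∀ y, J (J y) = Multiplicative.ofAdd c • y := by
    intro y
    apply uniq
    · rw [hJp, hJp, hII, hcov.inv]
    · rw [hJl, hJl, hJp, hlev, ← hc (p y) (hcov.mem y)]
      linear_combination l y * hε
  have hli : ∀ y, (Multiplicative.ofAdd c)⁻¹ • J (J y) = y := fun y => by rw [hJJ, inv_smul_smul]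
  refine ⟨Y, tY, (hT2 inferInstance).1, aY, cY, p, l, hP,
    { toFun := J
      invFun := fun y => (Multiplicative.ofAdd c)⁻¹ • J y
      left_inv := hli
      right_inv := fun y => ?_
      continuous_toFun := hJc
      continuous_invFun := (continuous_const_smul _).comp hJc }, ε,
    Int.eq_one_or_neg_one_of_mul_eq_one hε, hJp, fun g y => ?_, _, hJJ⟩
  · have h1 : J (J ((Multiplicative.ofAdd c)⁻¹ • y)) = y := by rw [hJJ, smul_inv_smul]
    change J ((Multiplicative.ofAdd c)⁻¹ • J y) = y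
    rw [← h1, hli]
  · change J (g • y) = g ^ ε • J y
    apply uniq
    · rw [hJp, hcov.inv, hcov.inv, hJp]
    · rw [hJl, hlev', hlev', hJl, hcov.inv, toAdd_zpow, smul_eq_mul]
      ring

end Pool.Agent.MP_bc14e1_gt
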