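import Pool.Agent.MP_bc14e1_gt.IfC

open Set Metric
open scoped Classical

namespace Pool.Agent.MP_bc14e1_gt

section Alg

variable {G Y Y' A K : Type} [Group G] [MulAction G Y] [AddCommGroup A] [Group K] [MulAction K Y']

/-- The element `f` lies over `t ^ n` and shifts the level by `a`. -/
def Pack2_P (t : G) (τ : A ≃ₗ[ℤ] A) (q : Y' → Y) (l : Y' → A) (n : ℤ) (a : A) (f : K) : Prop :=
  ∀ y : Y', q (f • y) = t ^ n • q y ∧ l (f • y) = a + (τ ^ n) (l y)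

variable {t : G} {τ : A ≃ₗ[ℤ] A} {q : Y' → Y} {l : Y' → A}

theorem Pack2_P.mul {n n' : ℤ} {a a' : A} {f f' : K} (h : Pack2_P t τ q l n a f)
    (h' : Pack2_P t τ q l n' a' f') : Pack2_P t τ q l (n + n') (a + (τ ^ n) a') (f * f') := by
  intro y
  constructor
  · rw [mul_smul, (h _).1, (h' _).1, zpow_add, mul_smul]
  · rw [mul_smul, (h _).2, (h' _).2, map_add, zpow_add, LinearEquiv.mul_apply, add_assoc]

theorem Pack2_one : Pack2_P t τ q l 0 0 (1 : K) := by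
  intro y
  simp

theorem Pack2_cancel (τ : A ≃ₗ[ℤ] A) (n : ℤ) (a : A) : (τ ^ (-n)) ((τ ^ n) a) = a := by
  rw [← LinearEquiv.mul_apply, ← zpow_add]
  simp

theorem Pack2_P.inv {n : ℤ} {a : A} {f : K} (h : Pack2_P t τ q l n a f) :
    Pack2_P t τ q l (-n) (-(τ ^ (-n)) a) f⁻¹ := by
  intro y
  obtain ⟨h1, h2⟩ := h (f⁻¹ • y)
  rw [smul_inv_smul] at h1 h2
  constructor
  · rw [h1, zpow_neg, inv_smul_smul]
  · rw [h2, map_add, Pack2_cancel]
    abel

theorem Pack2_P.of_eq {n n' : ℤ} {a a' : A} {f : K} (h : Pack2_P t τ q l n a f) (hn : n = n')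
    (ha : a = a') : Pack2_P t τ q l n' a' f := by
  subst hn ha
  exact h

theorem Pack2_P.zpow {f : K} (h : Pack2_P t τ q l 1 0 f) (n : ℤ) :
    Pack2_P t τ q l n 0 (f ^ n) := by
  induction n using Int.induction_on with
  | zero => simpa using Pack2_one
  | succ n ih =>
    rw [zpow_add_one]
    exact (ih.mul h).of_eq rfl (by simp)
  | pred n ih =>
    rw [zpow_sub_one]
    exact (ih.mul h.inv).of_eq (by ring) (by simp)

theorem Pack2_P.pow {n : ℤ} {a : A} {f : K} (h : Pack2_P t τ q l n a f) (k : ℕ) :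
    ∃ b, Pack2_P t τ q l (n * k) b (f ^ k) := by
  induction k with
  | zero => exact ⟨0, by simpa using Pack2_one⟩
  | succ k ih =>
    obtain ⟨b, hb⟩ := ih
    rw [pow_succ]
    exact ⟨_, (hb.mul h).of_eq (by push_cast; ring) rfl⟩

/-- The group generated by the translations and the lift of `t`. -/
structure Pack2_S (t : G) (τ : A ≃ₗ[ℤ] A) (q : Y' → Y) (l : Y' → A) (j : Multiplicative A →* K)
    (t' : K) : Prop where
  hi : ∀ y y', q y = q y' → l y = l y' → y = y'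
  faith : ∀ g g' : K, (∀ y : Y', g • y = g' • y) → g = g'
  all : ∀ g : K, ∃ n a, Pack2_P t τ q l n a g
  pj : ∀ a, Pack2_P t τ q l 0 a (j (Multiplicative.ofAdd a))
  pt : Pack2_P t τ q l 1 0 t'

theorem Pack2_alg (t : G) (τ : A ≃ₗ[ℤ] A) (q : Y' → Y) (l : Y' → A)
    (hi : ∀ y y', q y = q y' → l y = l y' → y = y') (hs : ∀ x a, ∃ y, q y = x ∧ l y = a) :
    ∃ (H : Subgroup (Equiv.Perm Y')) (j : Multiplicative A →* H) (t' : H),
      Pack2_S t τ q l j t' := by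
  let H : Subgroup (Equiv.Perm Y') :=
    { carrier := {f | ∃ n a, Pack2_P t τ q l n a f}
      mul_mem' := fun ⟨_, _, h⟩ ⟨_, _, h'⟩ => ⟨_, _, h.mul h'⟩
      one_mem' := ⟨_, _, Pack2_one⟩
      inv_mem' := fun ⟨_, _, h⟩ => ⟨_, _, h.inv⟩ }
  have hb : Function.Bijective fun y => (q y, l y) :=
    ⟨fun y y' h => hi y y' (congrArg Prod.fst h) (congrArg Prod.snd h), fun x => by
      obtain ⟨y, h1, h2⟩ := hs x.1 x.2
      exact ⟨y, Prod.ext h1 h2⟩⟩
  have ex : ∀ n a, ∃ f : H, Pack2_P t τ q l n a f := by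
    intro n a
    let e := Equiv.ofBijective _ hb
    let f : Equiv.Perm Y' := (e.trans (Equiv.prodCongr (MulAction.toPerm (t ^ n))
      ((τ ^ n).toEquiv.trans (Equiv.addLeft a)))).trans e.symm
    have hf : Pack2_P t τ q l n a f := by
      intro y
      have : e (f y) = (t ^ n • q y, a + (τ ^ n) (l y)) := by
        simp only [f, Equiv.trans_apply, Equiv.apply_symm_apply]
        rfl
      exact ⟨congrArg Prod.fst this, congrArg Prod.snd this⟩
    exact ⟨⟨f, n, a, hf⟩, hf⟩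
  choose el hel using ex
  have faith : ∀ g g' : H, (∀ y : Y', g • y = g' • y) → g = g' :=
    fun g g' h => Subtype.ext (Equiv.ext h)
  have uniq : ∀ n a (g g' : H), Pack2_P t τ q l n a g → Pack2_P t τ q l n a g' → g = g' :=
    fun n a g g' h h' => faith g g' fun y =>
      hi _ _ ((h y).1.trans (h' y).1.symm) ((h y).2.trans (h' y).2.symm)
  refine ⟨H, MonoidHom.mk' (fun a => el 0 a.toAdd) fun a b => ?_, el 1 0, hi, faith,
    fun g => g.2, fun a => hel 0 a, hel 1 0⟩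
  exact uniq 0 _ _ _ (hel 0 _) (((hel 0 _).mul (hel 0 _)).of_eq (by simp) (by simp))

variable {j : Multiplicative A →* K} {t' : K}

theorem Pack2_S.uniq (S : Pack2_S t τ q l j t') {n : ℤ} {a : A} {g g' : K}
    (h : Pack2_P t τ q l n a g) (h' : Pack2_P t τ q l n a g') : g = g' :=
  S.faith g g' fun y => S.hi _ _ ((h y).1.trans (h' y).1.symm) ((h y).2.trans (h' y).2.symm)

theorem Pack2_S.nf (S : Pack2_S t τ q l j t') (n : ℤ) (a : A) :
    Pack2_P t τ q l n a (j (Multiplicative.ofAdd a) * t' ^ n) :=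
  ((S.pj a).mul (S.pt.zpow n)).of_eq (by simp) (by simp)

theorem Pack2_S.gen (S : Pack2_S t τ q l j t') (g : K) :
    ∃ (a : A) (n : ℤ), g = j (Multiplicative.ofAdd a) * t' ^ n := by
  obtain ⟨n, a, h⟩ := S.all g
  exact ⟨a, n, S.uniq h (S.nf n a)⟩

theorem Pack2_S.conj (S : Pack2_S t τ q l j t') (a : A) :
    t' * j (Multiplicative.ofAdd a) * t'⁻¹ = j (Multiplicative.ofAdd (τ a)) :=
  S.uniq (((S.pt.mul (S.pj a)).mul S.pt.inv).of_eq (by simp) (by simp)) (S.pj (τ a))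

theorem Pack2_S.ptm (S : Pack2_S t τ q l j t') (m : ℕ) : Pack2_P t τ q l m 0 (t' ^ m) := by
  simpa using S.pt.zpow m

theorem Pack2_S.cen (S : Pack2_S t τ q l j t') {m : ℕ} (hm : τ ^ m = 1) (g : K) :
    g * t' ^ m = t' ^ m * g := by
  obtain ⟨n, a, h⟩ := S.all g
  refine S.uniq (h.mul (S.ptm m)) (((S.ptm m).mul h).of_eq (add_comm _ _) ?_)
  simp [hm]

theorem Pack2_S.free (S : Pack2_S t τ q l j t') (hf : ∀ (n : ℤ) (y : Y), t ^ n • y = y → n = 0)
    (g : K) (y : Y') (h : g • y = y) : g = 1 := by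
  obtain ⟨n, a, hg⟩ := S.all g
  obtain ⟨h1, h2⟩ := hg y
  rw [h] at h1 h2
  obtain rfl := hf n _ h1.symm
  have : a = 0 := by simpa using h2
  subst this
  exact S.uniq hg Pack2_one

theorem Pack2_S.tr (S : Pack2_S t τ q l j t') {n : ℤ} {y y' : Y'} (h : q y' = t ^ n • q y) :
    ∃ a, y' = (j (Multiplicative.ofAdd a) * t' ^ n) • y := by
  refine ⟨l y' - (τ ^ n) (l y), S.hi _ _ ?_ ?_⟩
  · rw [(S.nf _ _ y).1, h]
  · rw [(S.nf _ _ y).2, sub_add_cancel]

theorem Pack2_S.fin [Finite A] (S : Pack2_S t τ q l j t') {m : ℕ} (hm : 0 < m) :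
    (Subgroup.zpowers (t' ^ m)).FiniteIndex := by
  have hm' : (0 : ℤ) < m := by exact_mod_cast hm
  have : Finite (K ⧸ Subgroup.zpowers (t' ^ m)) := by
    refine Finite.of_surjective (fun x : A × Fin m =>
      ((j (Multiplicative.ofAdd x.1) * t' ^ (x.2 : ℕ) : K) : K ⧸ Subgroup.zpowers (t' ^ m)))
      fun x => ?_
    obtain ⟨g, rfl⟩ := QuotientGroup.mk_surjective x
    obtain ⟨a, n, rfl⟩ := S.gen g
    have h0 : 0 ≤ n % m := Int.emod_nonneg _ hm'.ne'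
    have h1 : n % m < m := Int.emod_lt_of_pos _ hm'
    refine ⟨(a, ⟨(n % m).toNat, by omega⟩), ?_⟩
    refine QuotientGroup.eq.2 ⟨n / m, ?_⟩
    simp only
    rw [← zpow_natCast t' m, ← zpow_mul, ← zpow_natCast t' (n % m).toNat, Int.toNat_of_nonneg h0,
      mul_inv_rev, mul_assoc, inv_mul_cancel_left, ← zpow_neg, ← zpow_add]
    congr 1
    have := Int.emod_add_mul_ediv n m
    omega
  exact Subgroup.finiteIndex_of_finite_quotient

theorem Pack2_S.rot (S : Pack2_S t τ q l j t') (y : Y') {m : ℕ} (hm : τ ^ m = 1)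
    (hτ : ∀ a, τ a = a → a = 0) {n : ℤ} (hn : n = 1 ∨ n = -1) {a : A} {g : K}
    (h : Pack2_P t τ q l n a g) : g ^ m = t' ^ m ∨ g ^ m = (t' ^ m)⁻¹ := by
  obtain ⟨b, hb⟩ := h.pow m
  have h0 : τ ^ (n * m) = 1 := by rw [mul_comm, zpow_mul, zpow_natCast, hm, one_zpow]
  have h1 := (h.mul hb y).2
  have h2 := (hb.mul h y).2
  rw [← pow_succ'] at h1
  rw [← pow_succ, h1, add_comm n, h0] at h2
  have h3 : (τ ^ n) b = b := by
    have := add_right_cancel h2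
    rw [add_comm b] at this
    simpa using this
  have h4 : b = 0 := by
    apply hτ
    rcases hn with rfl | rfl
    · simpa using h3
    · have := Pack2_cancel τ (-1) b
      rw [h3] at this
      simpa using this
  subst h4
  rcases hn with rfl | rfl
  · exact Or.inl (S.uniq hb ((S.ptm m).of_eq (by simp) rfl))
  · exact Or.inr (S.uniq hb ((S.ptm m).inv.of_eq (by simp) (by simp)))

end Alg

theorem Pack2_alpha {G Y A : Type} [Group G] [TopologicalSpace Y] [MulAction G Y]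
    [ContinuousConstSMul G Y] [AddCommGroup A] {t : G} {τ : A ≃ₗ[ℤ] A} {α : Tot ℤ Y →+ A}
    (h : ∀ c, α (gs ℤ Y t c) = τ (α c)) (n : ℤ) (c : Tot ℤ Y) :
    α (gs ℤ Y (t ^ n) c) = (τ ^ n) (α c) := by
  have h' : ∀ c, α (gs ℤ Y t⁻¹ c) = τ⁻¹ (α c) := by
    intro c
    have := h (gs ℤ Y t⁻¹ c)
    rw [← gs_mul, mul_inv_cancel, gs_one] at this
    rw [this, ← LinearEquiv.mul_apply, inv_mul_cancel]
    rfl
  induction n using Int.induction_on generalizing c with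
  | zero => simp [gs_one]
  | succ n ih => rw [zpow_add_one, zpow_add_one, gs_mul, ih, h, LinearEquiv.mul_apply]
  | pred n ih => rw [zpow_sub_one, zpow_sub_one, gs_mul, ih, h', LinearEquiv.mul_apply]

theorem Pack2_sec {X Y Y' : Type} [TopologicalSpace X] [TopologicalSpace Y] [TopologicalSpace Y']
    {Z : Set X} {p : Y → X} {q : Y' → Y} (hq : Continuous q)
    (h : ∀ x ∈ Z, ∃ U, IsOpen U ∧ x ∈ U ∧ U ⊆ Z ∧ ∃ σ : X → Y, ContinuousOn σ U ∧
      (∀ x ∈ U, p (σ x) = x) ∧ IsOpen (σ '' U))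
    (h' : ∀ x ∈ (univ : Set Y), ∃ U, IsOpen U ∧ x ∈ U ∧ U ⊆ univ ∧ ∃ σ : Y → Y',
      ContinuousOn σ U ∧ (∀ x ∈ U, q (σ x) = x) ∧ IsOpen (σ '' U)) :
    ∀ x ∈ Z, ∃ U, IsOpen U ∧ x ∈ U ∧ U ⊆ Z ∧ ∃ σ : X → Y', ContinuousOn σ U ∧
      (∀ x ∈ U, (p ∘ q) (σ x) = x) ∧ IsOpen (σ '' U) := by
  intro x hx
  obtain ⟨U, hU, hxU, hUZ, σ, hσ, hp, ho⟩ := h x hx
  obtain ⟨V, hV, hxV, -, ρ, hρ, hq', ho'⟩ := h' (σ x) trivial
  refine ⟨U ∩ σ ⁻¹' V, hσ.isOpen_inter_preimage hU hV, ⟨hxU, hxV⟩, inter_subset_left.trans hUZ,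
    ρ ∘ σ, hρ.comp (hσ.mono inter_subset_left) fun x hx => hx.2, fun x hx => ?_, ?_⟩
  · simp only [Function.comp_apply]
    rw [hq' _ hx.2, hp _ hx.1]
  · have : (ρ ∘ σ) '' (U ∩ σ ⁻¹' V) = ρ '' V ∩ q ⁻¹' (σ '' U) := by
      ext y
      constructor
      · rintro ⟨x, hx, rfl⟩
        exact ⟨⟨σ x, hx.2, rfl⟩, x, hx.1, (hq' _ hx.2).symm⟩
      · rintro ⟨⟨v, hv, rfl⟩, x, hx, hxv⟩
        rw [hq' _ hv] at hxv
        subst hxv
        exact ⟨x, ⟨hx, hv⟩, rfl⟩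
    rw [this]
    exact ho'.inter (ho.preimage hq)

theorem pack2_stmt (B : Bas1) (hLocCtr : LocCtrStmt)
    (hExCov : ExCovStmt) (hP2a : P2aStmt) : Pack2Stmt := by
  intro X G Y A _ _ _ _ _ _ _ _ _ F φ p t l₀ τ m α₀ P hm hτm hτ h0 h1
  have hf : ∀ (n : ℤ) (y : Y), t ^ n • y = y → n = 0 :=
    fun n y h => P.tc.inf n (P.tc.cov.free _ y h)
  obtain ⟨α, hα0, hαd, hαk, hαt⟩ := hP2a G Y A t τ α₀ P.conn hf h0 h1
  obtain ⟨-, hloc, -, -, hT2⟩ := B.cov G X Y _ p P.tc.cov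
  have : T2Space Y := (hT2 inferInstance).1
  obtain ⟨Y', _, _, _, q, l, hc, hla, hol, hcont⟩ := hExCov Y A univ α (fun x _ => by
    obtain ⟨U, hU, -, hx⟩ := (hLocCtr X Y p hloc x univ Filter.univ_mem).2.1
    exact ⟨U, hU, subset_univ _, hx, fun y _ V hV => (hLocCtr X Y p hloc y V hV).2.2⟩)
    (fun c _ => hαd c) hαk
  obtain ⟨-, -, -, hsurj, hT2'⟩ := B.cov _ Y Y' _ q hc
  have hi : ∀ y y', q y = q y' → l y = l y' → y = y' := by
    intro y y' h h'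
    obtain ⟨g, rfl⟩ := hc.trans y y' h
    have h2 := hla g.toAdd y
    rw [ofAdd_toAdd, ← h'] at h2
    have h3 : g.toAdd = 0 := by simpa using h2
    have h4 : g = 1 := h3
    rw [h4, one_smul]
  have hs : ∀ x a, ∃ y, q y = x ∧ l y = a := by
    intro x a
    obtain ⟨y, rfl⟩ := hsurj x trivial
    exact ⟨Multiplicative.ofAdd (a - l y) • y, hc.inv _ _, by rw [hla, sub_add_cancel]⟩
  obtain ⟨H, j, t', S⟩ := Pack2_alg t τ q l hi hs
  obtain ⟨y₀, -⟩ := hs P.conn.nonempty.some 0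
  have hH : ContinuousConstSMul H Y' := by
    refine ⟨fun g => ?_⟩
    obtain ⟨n, a, hg⟩ := S.all g
    have e : q ∘ (fun y => g • y) = (fun y => t ^ n • y) ∘ q := funext fun y => (hg y).1
    refine hcont _ (by rw [e]; exact (continuous_const_smul _).comp hc.cont) fun γ => ?_
    rw [e, ← psh_psh' _ hc.cont, (hg _).2, (hg _).2, add_sub_add_left_eq_sub, ← map_sub]
    change _ = α (gs ℤ Y (t ^ n) _)
    rw [Pack2_alpha hαt, hol, dT_pth, map_sub (val0 ℤ l), val0_pt, val0_pt]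
  refine ⟨α, H, Y', inferInstance, inferInstance, (hT2' inferInstance).1, inferInstance, hH, q, j,
    t', l, ⟨⟨P.tc.flat, ⟨P.tc.cov.cont.comp hc.cont, fun g y => ?_, fun y => P.tc.cov.mem _,
      S.free hf, fun y y' h => ?_, Pack2_sec hc.cont P.tc.cov.sec hc.sec⟩, S.cen hτm,
      fun n h => ?_, S.fin hm, ?_⟩, ⟨hc.cont, ?_, fun _ => trivial, fun g y h => ?_,
      fun y y' h => ?_, hc.sec⟩, fun a b h => ?_, S.conj, S.gen, fun y => ?_, fun a y => ?_,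
      fun y => ?_, hol⟩, hα0⟩
  · obtain ⟨n, a, hg⟩ := S.all g
    simp only [Function.comp_apply]
    rw [(hg y).1, P.tc.cov.inv]
  · obtain ⟨g, hg⟩ := P.tc.cov.trans (q y) (q y') h
    obtain ⟨n, rfl⟩ := P.gen g
    obtain ⟨a, ha⟩ := S.tr hg
    exact ⟨_, ha⟩
  · rw [← zpow_natCast, ← zpow_mul] at h
    have h2 := (S.pt.zpow (m * n) y₀).1
    rw [h, one_smul] at h2
    have h3 := hf _ _ h2.symm
    rcases mul_eq_zero.1 h3 with h4 | h4
    · omega
    · exact h4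
  · obtain ⟨m₁, hm₁⟩ := P.tc.rot
    refine ⟨m, fun e z w he γ hγ => ?_⟩
    obtain ⟨g, hg, hg'⟩ := hm₁ e z w he (ContinuousMap.comp ⟨q, hc.cont⟩ γ) hγ
    obtain ⟨n, rfl⟩ := P.gen g
    obtain ⟨a, ha⟩ := S.tr (y := γ 0) (y' := γ 1) hg
    refine ⟨_, ha, S.rot y₀ hτm hτ ?_ (S.nf n a)⟩
    rw [← zpow_natCast, ← zpow_mul] at hg'
    rcases hg' with h | h
    · have h2 := P.tc.inf (n * m₁ - 1) (by rw [zpow_sub_one, h, mul_inv_cancel])
      exact Int.eq_one_or_neg_one_of_mul_eq_one (sub_eq_zero.1 h2)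
    · have h2 := P.tc.inf (n * m₁ + 1) (by rw [zpow_add_one, h, inv_mul_cancel])
      exact Int.eq_one_or_neg_one_of_mul_eq_neg_one (eq_neg_of_add_eq_zero_left h2)
  · rintro ⟨_, a, rfl⟩ y
    exact (S.pj a.toAdd y).1.trans (by simp)
  · exact Subtype.ext (S.free hf g.1 y h)
  · obtain ⟨a, ha⟩ := S.tr (n := 0) (y := y) (y' := y') (by simpa using h.symm)
    rw [zpow_zero, mul_one] at ha
    exact ⟨⟨_, _, rfl⟩, ha⟩
  · have h2 := (S.pj a.toAdd y₀).2
    have h3 := (S.pj b.toAdd y₀).2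
    rw [ofAdd_toAdd] at h2 h3
    rw [h, h3] at h2
    exact (add_right_cancel h2).symm
  · simpa using (S.pt y).1
  · simpa using (S.pj a y).2
  · simpa using (S.pt y).2

end Pool.Agent.MP_bc14e1_gt
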