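import Pool.Agent.MP_bc14e1_gt.IfT

open Set Metric
open scoped Classical

namespace Pool.Agent.MP_bc14e1_gt

section

variable {Y : Type} [TopologicalSpace Y]

theorem Pair_off {τ : TS (Y × Y) → ℝ}
    (h : ∀ σ : TS (Y × Y), (∀ t, (σ.2 t).1 ≠ (σ.2 t).2) → τ σ = 0) :
    ∀ c ∈ CH ℝ (dia Y)ᶜ, coevR τ c = 0 := by
  intro c hc
  rw [coevR, Finsupp.linearCombination_apply, Finsupp.sum]
  refine Finset.sum_eq_zero fun σ hσ => ?_
  rw [h σ fun t => mem_CH.1 hc σ hσ t, smul_zero]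

theorem Pair_offC (hPairA : PairAStmt) (κ : Kit) {τ : TS (Y × Y) → ℝ}
    (h : ∀ c ∈ CH ℝ (dia Y)ᶜ, coevR τ c = 0) : ∀ c ∈ CH ℂ (dia Y)ᶜ, coevC τ c = 0 := by
  intro c hc
  have := (hPairA κ Y τ).2.2.2.2.2.2 (Y × Y) τ τ LinearMap.id LinearMap.id 0 0
    {σ | range σ.2 ⊆ (dia Y)ᶜ} (fun _ => rfl) (fun _ => by simp)
    (fun c hc => by
      rw [LinearMap.zero_apply, map_zero]
      exact h c hc) c hc
  rwa [LinearMap.zero_apply, map_zero] at this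

theorem Pair_cocC (hPairA : PairAStmt) (κ : Kit) {τ : TS (Y × Y) → ℝ}
    (h : ∀ c, coevR τ (dT ℝ _ c) = 0) (c : Tot ℂ (Y × Y)) : coevC τ (dT ℂ _ c) = 0 := by
  have := (hPairA κ Y τ).2.2.2.2.2.2 (Y × Y) τ τ (dT ℝ _) (dT ℂ _) 0 0
    univ (fun c => cast_dT _ c) (fun _ => by simp)
    (fun c _ => by
      rw [LinearMap.zero_apply, map_zero]
      exact h c) c (by simp)
  rwa [LinearMap.zero_apply, map_zero] at this

theorem Pair_invC (hPairA : PairAStmt) (κ : Kit) {τ : TS (Y × Y) → ℝ} {f : Y → Y}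
    (h : ThomInv τ f) (c : Tot ℂ (Y × Y)) :
    coevC τ (psh ℂ (Prod.map f f) c) = coevC τ c :=
  (hPairA κ Y τ).2.2.2.2.2.2 (Y × Y) τ τ (psh ℝ (Prod.map f f)) (psh ℂ (Prod.map f f))
    LinearMap.id LinearMap.id univ (fun c => cast_psh _ _ c) (fun _ => rfl)
    (fun c _ => h c) c (by simp)

theorem Pair_swapC (hPairA : PairAStmt) (κ : Kit) {τ η : TS (Y × Y) → ℝ}
    (h : ∀ c ∈ DG ℝ (Y × Y) 4, coevR τ (psh ℝ Prod.swap c) - coevR τ c = coevR η (dT ℝ _ c)) :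
    ∀ c ∈ DG ℂ (Y × Y) 4,
      coevC τ (psh ℂ Prod.swap c) - coevC τ c = coevC η (dT ℂ _ c) := by
  intro c hc
  have := (hPairA κ Y τ).2.2.2.2.2.2 (Y × Y) τ η (psh ℝ Prod.swap - LinearMap.id)
    (psh ℂ Prod.swap - LinearMap.id) (dT ℝ _) (dT ℂ _) {σ | σ.1 = 4}
    (fun c => by
      rw [LinearMap.sub_apply, LinearMap.sub_apply, map_sub, cast_psh]
      rfl)
    (fun c => cast_dT _ c)
    (fun c hc => by
      rw [LinearMap.sub_apply, map_sub]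
      exact h c hc) c hc
  rwa [LinearMap.sub_apply, map_sub] at this

/-- The error term of the symmetry. -/
noncomputable def Pair_E (κ : Kit) (τ η : TS (Y × Y) → ℝ) : Form Y :=
  LinearMap.mk₂'ₛₗ (RingHom.id ℂ) (starRingEnd ℂ)
    (fun u v => coevC η (κ.cx ℂ Y Y (cjT Y v) u) - coevC τ (κ.sw ℂ Y Y (cjT Y v) u))
    (fun _ _ _ => by simp only [map_add]; ring)
    (fun _ _ _ => by simp only [map_smul, RingHom.id_apply, smul_eq_mul]; ring)
    (fun _ _ _ => by simp only [map_add, LinearMap.add_apply]; ring)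
    (fun _ _ _ => by
      rw [LinearMap.map_smulₛₗ]
      simp only [map_smul, LinearMap.smul_apply, smul_eq_mul]
      ring)

theorem Pair_E_apply (κ : Kit) (τ η : TS (Y × Y) → ℝ) (u v : Tot ℂ Y) :
    Pair_E κ τ η u v =
      coevC η (κ.cx ℂ Y Y (cjT Y v) u) - coevC τ (κ.sw ℂ Y Y (cjT Y v) u) := rfl

theorem Pair_beta (κ : Kit) (τ : TS (Y × Y) → ℝ) {u : Tot ℂ Y} (hu : u ∈ DG ℂ Y 2)
    (v : Tot ℂ Y) : beta κ τ u v = coevC τ (κ.cx ℂ Y Y u (cjT Y v)) := by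
  have e : sgn ℂ Y sgc u = u := by
    rw [sgn_of_DG _ hu]
    have : sgc 2 = 1 := by decide
    rw [this, one_smul]
  have e2 : beta κ τ u v = coevC τ (κ.cx ℂ Y Y (sgn ℂ Y sgc u) (cjT Y v)) := rfl
  rw [e2, e]

theorem Pair_cj_cj (u : Tot ℂ Y) : cjT Y (cjT Y u) = u := by
  ext σ
  rw [cast_apply, cast_apply, Complex.conj_conj]

omit [TopologicalSpace Y] in
theorem Pair_prod {A B : Set Y} (h : Disjoint A B) : A ×ˢ B ⊆ (dia Y)ᶜ := by
  rintro ⟨a, b⟩ ⟨ha, hb⟩ e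
  have e' : a = b := e
  subst e'
  exact Set.disjoint_left.1 h ha hb

theorem Pair_lk (hPairA : PairAStmt) (κ : Kit) {G : Type} [Group G] [MulAction G Y]
    [ContinuousConstSMul G Y] {s : G} {τ η : TS (Y × Y) → ℝ}
    (h1 : ∀ c ∈ CH ℝ (dia Y)ᶜ, coevR τ c = 0) (h2 : ∀ c ∈ CH ℝ (dia Y)ᶜ, coevR η c = 0)
    (h3 : ThomInv τ fun y => s • y) (h4 : ThomInv η fun y => s • y) : LK s (Pair_E κ τ η) := by
  have hs : Continuous fun y : Y => s • y := continuous_const_smul s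
  constructor
  · intro u v
    rw [Pair_E_apply, Pair_E_apply, gs, cast_psh,
      ← κ.nat ℂ Y Y Y Y _ _ univ univ hs.continuousOn hs.continuousOn _ (mem_CH_univ _) _
        (mem_CH_univ _), ← κ.sw_nat ℂ Y Y Y Y _ _ hs hs, Pair_invC hPairA κ h3,
      Pair_invC hPairA κ h4]
  · intro A B hAB u hu v hv
    have hv' : cjT Y v ∈ CH ℂ B := cast_mem_CH _ hv
    rw [Pair_E_apply,
      Pair_offC hPairA κ h2 _ (CH_mono (Pair_prod hAB.symm) (κ.mem ℂ Y Y B A _ hv' _ hu)),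
      Pair_offC hPairA κ h1 _ (CH_mono (Pair_prod hAB) (κ.sw_mem ℂ Y Y B A _ hv' _ hu)),
      sub_zero]

theorem Pair_sym (hPairA : PairAStmt) (κ : Kit) {τ η : TS (Y × Y) → ℝ}
    (hc : ∀ c, coevR τ (dT ℝ _ c) = 0)
    (h : ∀ c ∈ DG ℝ (Y × Y) 4, coevR τ (psh ℝ Prod.swap c) - coevR τ c = coevR η (dT ℝ _ c))
    {u v : Tot ℂ Y} (hu : u ∈ DG ℂ Y 2) (hv : v ∈ DG ℂ Y 2) :
    beta κ τ u v - starRingEnd ℂ (beta κ τ v u) =
      Pair_E κ τ η (dT ℂ Y u) v + Pair_E κ τ η u (dT ℂ Y v) := by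
  have hv' : cjT Y v ∈ DG ℂ Y 2 := cast_mem_DG _ hv
  have he : eps ℂ Y (cjT Y v) = cjT Y v := by
    rw [eps, sgn_of_DG _ hv']
    simp
  have h1 := congrArg (coevC τ) (κ.sw_d ℂ Y Y 2 2 _ hv' _ hu)
  have h2 := Pair_swapC hPairA κ h _ (κ.dg ℂ Y Y 2 2 _ hv' _ hu)
  have h3 : ((-1 : ℤ) ^ (2 * 2)) = 1 := by norm_num
  rw [h3, one_smul, he, map_sub, map_add, map_add, Pair_cocC hPairA κ hc] at h1
  rw [κ.leib, he, map_add] at h2
  rw [← (hPairA κ Y τ).2.2.2.2.2.1 v u, Pair_beta κ τ hu, Pair_beta κ τ hv', Pair_cj_cj,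
    Pair_E_apply, Pair_E_apply, cast_dT]
  linear_combination h2 - h1

end

theorem pair_stmt (B : Bas1) (hLocDeg : LocDegStmt) (hDia : DiaStmt)
    (hEta : EtaStmt) (hSwap : SwapStmt) (hPairA : PairAStmt) : PairStmt := by
  intro κ X G Y _ _ _ _ _ _ _ _ o F p s τ hT hτ hs
  obtain ⟨a1, a2, a3, a4, a5, a6, -⟩ := hPairA κ Y τ
  have hoff := Pair_off hτ.off
  have hinv : ∀ g : G, ThomInv τ (fun y => g • y) →
      ∀ u v, beta κ τ (gs ℂ Y g u) (gs ℂ Y g v) = beta κ τ u v := fun g hg =>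
    a2 _ (continuous_const_smul g) hg
  refine ⟨⟨⟨hinv s hs, a1 hoff⟩, a3 hτ.coc, a4 hτ.dg, ?_, a6, ?_⟩, hinv⟩
  · intro y c r h
    have h1 := hτ.one y c r h
    obtain ⟨U, -, -, -, hc, -⟩ := h
    rw [a5 y c hc.2, h1]
  · have hp : IsLocalHomeomorph p := (B.cov G X Y _ p hT.cov).2.1
    have hsc : Continuous fun y : Y => s • y := continuous_const_smul s
    obtain ⟨η, e1, e2, e3⟩ := hEta X G Y o F p s hT
      (coevR τ ∘ₗ psh ℝ Prod.swap - coevR τ)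
      (fun c hc => by
        rw [LinearMap.sub_apply, LinearMap.comp_apply, hSwap X Y o p τ hp hτ c hc, sub_self])
      (fun c => by
        have e : gs ℝ (Y × Y) s c = psh ℝ (Prod.map (fun y => s • y) fun y => s • y) c := rfl
        have e' : psh ℝ Prod.swap (psh ℝ (Prod.map (fun y : Y => s • y) fun y : Y => s • y) c) =
            psh ℝ (Prod.map (fun y : Y => s • y) fun y : Y => s • y) (psh ℝ Prod.swap c) := by
          rw [psh_psh' _ (hsc.prodMap hsc), psh_psh' _ continuous_swap]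
          rfl
        rw [LinearMap.sub_apply, LinearMap.sub_apply, LinearMap.comp_apply, LinearMap.comp_apply,
          e, e', hs, hs])
    have hE := Pair_lk hPairA κ hoff e1 hs e2
    exact ⟨_, _, hE, hE, fun u hu v hv => Pair_sym hPairA κ hτ.coc e3 hu hv⟩

end Pool.Agent.MP_bc14e1_gt
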