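import Pool.Agent.MP_bc14e1_gt.IfT

open Set Metric
open scoped Classical

namespace Pool.Agent.MP_bc14e1_gt

section
variable {X Y : Type} [TopologicalSpace X] [TopologicalSpace Y]

theorem PairA_coev_cast (τ : TS X → ℝ) (c : Tot ℝ X) :
    coevC τ (cast Complex.ofRealHom X c) = (coevR τ c : ℝ) := by
  induction c using Finsupp.induction_linear with
  | zero => simp
  | add a b ha hb => rw [map_add, map_add, map_add, ha, hb, Complex.ofReal_add]
  | single σ a => simp [cast_single, coevC, coevR]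

theorem PairA_coev_cj (τ : TS X → ℝ) (c : Tot ℂ X) :
    coevC τ (cjT X c) = starRingEnd ℂ (coevC τ c) := by
  induction c using Finsupp.induction_linear with
  | zero => simp
  | add a b ha hb => rw [map_add, map_add, map_add, ha, hb, map_add]
  | single σ a => simp [cast_single, coevC]

theorem PairA_transfer (a b : TS Y → ℝ) (L : Tot ℝ X →ₗ[ℝ] Tot ℝ Y)
    (L' : Tot ℂ X →ₗ[ℂ] Tot ℂ Y) (N : Tot ℝ X →ₗ[ℝ] Tot ℝ Y) (N' : Tot ℂ X →ₗ[ℂ] Tot ℂ Y)
    (S : Set (TS X))
    (hL : ∀ c, cast Complex.ofRealHom _ (L c) = L' (cast Complex.ofRealHom _ c))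
    (hN : ∀ c, cast Complex.ofRealHom _ (N c) = N' (cast Complex.ofRealHom _ c))
    (h : ∀ c ∈ Finsupp.supported ℝ ℝ S, coevR a (L c) = coevR b (N c)) :
    ∀ c ∈ Finsupp.supported ℂ ℂ S, coevC a (L' c) = coevC b (N' c) := by
  intro c hc
  refine supported_ind (P := fun c => coevC a (L' c) = coevC b (N' c)) (by simp)
    (fun u v hu hv => by simp only [map_add, hu, hv]) (fun σ hσ z => ?_) hc
  have e : Finsupp.single σ z = z • cast Complex.ofRealHom X (Finsupp.single σ 1) := by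
    rw [cast_single, map_one, Finsupp.smul_single_one]
  rw [e, map_smul, map_smul, map_smul, map_smul, ← hL, ← hN, PairA_coev_cast, PairA_coev_cast,
    h _ (Finsupp.single_mem_supported ℝ 1 hσ)]

theorem PairA_univ (c : Tot ℂ X) : c ∈ Finsupp.supported ℂ ℂ (univ : Set (TS X)) := by
  rw [Finsupp.supported_univ]
  exact Submodule.mem_top

theorem PairA_psh_sgn {R : Type} [CommRing R] (e : ℕ → ℤ) (f : X → Y) (c : Tot R X) :
    psh R f (sgn R X e c) = sgn R Y e (psh R f c) := by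
  induction c using Finsupp.induction_linear with
  | zero => simp
  | add a b ha hb => simp only [map_add, ha, hb]
  | single σ a => rw [sgn_single, map_zsmul, sgn_of_DG e (psh_mem_DG f (single_mem_DG σ a))]

theorem PairA_cast_sgn {R S : Type} [CommRing R] [CommRing S] (φ : R →+* S) (e : ℕ → ℤ)
    (c : Tot R X) : cast φ X (sgn R X e c) = sgn S X e (cast φ X c) := by
  induction c using Finsupp.induction_linear with
  | zero => simp
  | add a b ha hb => simp only [map_add, ha, hb]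
  | single σ a => rw [sgn_single, map_zsmul, cast_single, sgn_single]

theorem PairA_sgc (k : ℕ) : sgc (k + 1) = (-1) ^ k * sgc k := by
  rw [sgc, sgc, Nat.triangle_succ]
  ring

theorem PairA_beta (κ : Kit) (τ : TS (Y × Y) → ℝ) (u v : Tot ℂ Y) :
    beta κ τ u v = coevC τ (κ.cx ℂ Y Y (sgn ℂ Y sgc u) (cjT Y v)) := rfl

theorem PairA_stokes (κ : Kit) (τ : TS (Y × Y) → ℝ) (h : ∀ c, coevC τ (dT ℂ _ c) = 0) {k : ℕ}
    {u : Tot ℂ Y} (hu : u ∈ DG ℂ Y k) (v : Tot ℂ Y) :
    beta κ τ (dT ℂ Y u) v = beta κ τ u (dT ℂ Y v) := by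
  have h1 := h (κ.cx ℂ Y Y u (cjT Y v))
  rw [κ.leib, eps, sgn_of_DG _ hu, map_zsmul, LinearMap.smul_apply, map_add, map_zsmul] at h1
  rw [PairA_beta, PairA_beta, cast_dT, sgn_of_DG _ hu, map_zsmul, LinearMap.smul_apply, map_zsmul]
  cases k with
  | zero =>
    rw [dT_of_DG_zero hu] at h1 ⊢
    simp only [map_zero, LinearMap.zero_apply, pow_zero, one_smul, zero_add] at h1 ⊢
    rw [h1, smul_zero]
  | succ k =>
    rw [sgn_of_DG _ (dT_mem_DG hu), map_zsmul, LinearMap.smul_apply, map_zsmul,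
      eq_neg_of_add_eq_zero_left h1, ← neg_smul, smul_smul, PairA_sgc]
    congr 1
    ring

end

theorem pairA_stmt (B : Bas1) : PairAStmt := by
  have _ := B
  intro κ Y _ τ
  refine ⟨fun h A A' hd u hu v hv => ?_, fun f hf h u v => ?_, fun h u v => ?_,
    fun h k l hkl u hu v hv => ?_, fun y c hc => ?_, fun u v => ?_,
    fun Z _ a b L L' N N' S => PairA_transfer a b L L' N N' S⟩
  · have h0 : A ×ˢ A' ⊆ (dia Y)ᶜ := fun z hz (e : z.1 = z.2) =>
      disjoint_left.1 hd hz.1 (e ▸ hz.2)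
    have h1 := PairA_transfer τ τ LinearMap.id LinearMap.id 0 0 _ (fun _ => rfl)
      (fun _ => map_zero _) (fun c hc => (h c hc).trans (map_zero _).symm)
      (κ.cx ℂ Y Y (sgn ℂ Y sgc u) (cjT Y v))
      (CH_mono h0 (κ.mem ℂ Y Y A A' _ (sgn_mem_CH sgc hu) _ (cast_mem_CH _ hv)))
    exact h1.trans (map_zero _)
  · rw [PairA_beta, PairA_beta, cast_psh, ← PairA_psh_sgn, ← κ.nat ℂ Y Y Y Y f f univ univ
      hf.continuousOn hf.continuousOn _ (mem_CH_univ _) _ (mem_CH_univ _)]
    exact PairA_transfer τ τ (psh ℝ (Prod.map f f)) (psh ℂ (Prod.map f f)) LinearMap.id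
      LinearMap.id univ (cast_psh _ _) (fun _ => rfl) (fun c _ => h c) _ (PairA_univ _)
  · have h1 : ∀ c, coevC τ (dT ℂ _ c) = 0 := fun c =>
      (PairA_transfer τ τ (dT ℝ _) (dT ℂ _) 0 0 univ (cast_dT _) (fun _ => map_zero _)
        (fun c _ => (h c).trans (map_zero _).symm) c (PairA_univ c)).trans (map_zero _)
    induction u using Finsupp.induction_linear with
    | zero => simp
    | add a b ha hb => simp only [map_add, LinearMap.add_apply, ha, hb]
    | single σ a => exact PairA_stokes κ τ h1 (single_mem_DG σ a) v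
  · rw [PairA_beta, sgn_of_DG _ hu]
    refine supported_ind (P := fun c => coevC τ c = 0) (map_zero _)
      (fun a b ha hb => by rw [map_add, ha, hb, add_zero]) (fun σ hσ z => ?_)
      (κ.dg ℂ Y Y k l _ (Submodule.smul_of_tower_mem _ _ hu) _ (cast_mem_DG _ hv))
    have h1 : τ σ = 0 := h σ fun e => hkl (hσ.symm.trans e)
    simp [coevC, h1]
  · rw [PairA_beta, cast_pt, κ.x_pt, sgn_of_DG _ (cast_mem_DG _ hc), map_zsmul, map_zsmul,
      ← cast_psh, PairA_coev_cast]
    simp [sgc]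
  · rw [PairA_beta, PairA_beta, ← PairA_cast_sgn, ← κ.cst, PairA_coev_cj]

end Pool.Agent.MP_bc14e1_gt
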