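import Pool.Agent.MP_bc14e1_gt.IfL

open Set Metric
open scoped Classical

namespace Pool.Agent.MP_bc14e1_gt

section

variable {C : Type} [AddCommGroup C] [Module (Lam ℂ) C] {d : C →ₗ[Lam ℂ] C}
  {M : ℕ → Set ℝ → Submodule (Lam ℂ) C} {l : C → C → Lam ℂ} {ζ : Circle}

variable (d M ζ) in
/-- A chain `e` whose boundary is a copy of `y` above `b` up to a chain below `a`. -/
def Pk_Dat (a b : ℝ) (y e : C) : Prop :=
  e ∈ M 2 (Iio 1) ∧ ∃ y₁ ∈ M 1 (Ioo b 1), ∃ y₂ ∈ M 1 (Iio a), ∃ a₀ ∈ M 1 (Iio 1),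
    y - y₁ ∈ PB d M ζ ∧ d e = y₁ + y₂ + piL ζ • a₀

theorem Pk_add {a b : ℝ} {y y' e e' : C} (h : Pk_Dat d M ζ a b y e)
    (h' : Pk_Dat d M ζ a b y' e') : Pk_Dat d M ζ a b (y + y') (e + e') := by
  obtain ⟨he, y₁, h1, y₂, h2, a₀, h3, h4, h5⟩ := h
  obtain ⟨he', y₁', h1', y₂', h2', a₀', h3', h4', h5'⟩ := h'
  refine ⟨add_mem he he', y₁ + y₁', add_mem h1 h1', y₂ + y₂', add_mem h2 h2', a₀ + a₀',
    add_mem h3 h3', ?_, ?_⟩
  · rw [add_sub_add_comm]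
    exact add_mem h4 h4'
  · rw [map_add, h5, h5', smul_add]
    abel

theorem Pk_smul {a b : ℝ} {y e : C} (h : Pk_Dat d M ζ a b y e) (g : Lam ℂ) :
    Pk_Dat d M ζ a b (g • y) (g • e) := by
  obtain ⟨he, y₁, h1, y₂, h2, a₀, h3, h4, h5⟩ := h
  refine ⟨Submodule.smul_mem _ g he, g • y₁, Submodule.smul_mem _ g h1, g • y₂,
    Submodule.smul_mem _ g h2, g • a₀, Submodule.smul_mem _ g h3, ?_, ?_⟩
  · rw [← smul_sub]
    exact Submodule.smul_mem _ g h4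
  · rw [map_smul, h5, smul_add, smul_add, smul_comm g (piL ζ)]

theorem Pk_mono (hA : IsAS d M l) {a b a' b' : ℝ} {y e : C} (h : Pk_Dat d M ζ a b y e)
    (ha : a ≤ a') (hb : b' ≤ b) : Pk_Dat d M ζ a' b' y e := by
  obtain ⟨he, y₁, h1, y₂, h2, a₀, h3, h4, h5⟩ := h
  exact ⟨he, y₁, hA.mono _ _ _ (Ioo_subset_Ioo_left hb) h1, y₂,
    hA.mono _ _ _ (Iio_subset_Iio ha) h2, a₀, h3, h4, h5⟩

theorem Pk_PB_le (hA : IsAS d M l) : PB d M ζ ≤ ZN d M := by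
  refine sup_le ?_ ?_
  · rintro _ ⟨z, hz, rfl⟩
    exact Submodule.smul_mem _ _ hz
  · rintro _ ⟨w, hw, rfl⟩
    exact ⟨hA.d_mem 1 _ w hw, hA.dd w⟩

theorem Pk_exists (hKey : KeyStmt) (hA : IsAS d M l) {a b : ℝ} (ha : -1 < a) (hab : a < b)
    (hb : b < 1) {y : C} (hy : y ∈ ZN d M) : ∃ e, Pk_Dat d M ζ a b y e := by
  obtain ⟨-, -, k3, -⟩ := hKey C d M l ζ hA
  obtain ⟨y₁, h1, h1', -⟩ := k3 b 1 (by linarith) hb le_rfl y hy
  obtain ⟨y₂, h2, h2', -⟩ := k3 (-1) a le_rfl ha (by linarith) y hy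
  obtain ⟨e, he, hde⟩ := sub_mem h2' h1'
  refine ⟨e, hA.mono _ _ _ Ioo_subset_Iio_self he, y₁, h1, -y₂,
    neg_mem (hA.mono _ _ _ Ioo_subset_Iio_self h2), 0, zero_mem _, Submodule.mem_sup_right h1', ?_⟩
  rw [hde, smul_zero]
  abel

theorem Pk_vanish (hLaur : LaurStmt) (hKey : KeyStmt) (hA : IsAS d M l) {a b : ℝ} (ha : -1 < a)
    (hb : b < 1) {e c : C} (h : Pk_Dat d M ζ a b 0 e) (hc : c ∈ QN d M ζ)
    (hc' : c ∈ M 2 (Icc a b)) : evL ζ (l e c) = 0 := by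
  obtain ⟨he, y₁, h1, y₂, h2, a₀, h3, h4, h5⟩ := h
  rcases lt_or_ge b a with hab | hab
  · rw [Icc_eq_empty_of_lt hab] at hc'
    rw [hA.loc.2 2 2 _ _ (disjoint_empty _) e he c hc', map_zero]
  obtain ⟨k1, -, k3, k4, k5, -⟩ := hKey C d M l ζ hA
  have hπ : piL ζ ≠ 0 := (hLaur.2.2.2.2.2.2.2.2.2.1 ζ).ne_zero
  rw [zero_sub, neg_mem_iff] at h4
  obtain ⟨_, ⟨z, hz, rfl⟩, w, hw, hy⟩ := Submodule.mem_sup.1 h4
  rw [LinearMap.lsmul_apply] at hy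
  obtain ⟨z', hz', hzz, -⟩ := k3 b 1 (by linarith) hb le_rfl z hz
  obtain ⟨w₁, hw₁, hdw⟩ := k4 b 1 (by linarith) hb le_rfl (y₁ - piL ζ • z')
    (sub_mem h1 (Submodule.smul_mem _ _ hz')) (by
      have e1 : y₁ - piL ζ • z' = piL ζ • (z - z') + w := by
        rw [← hy, smul_sub]
        abel
      rw [e1]
      exact add_mem (Submodule.smul_mem _ _ hzz) hw)
  have hw₁' : w₁ ∈ M 2 (Iio 1) := hA.mono _ _ _ Ioo_subset_Iio_self hw₁
  obtain ⟨e', he', a', -, hy₂⟩ := k5 a ha (by linarith) y₂ h2 (e - w₁) (sub_mem he hw₁')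
    (-(a₀ + z')) (neg_mem (add_mem h3 (hA.mono _ _ _ Ioo_subset_Iio_self hz'))) (piL ζ) hπ (by
      rw [map_sub, h5, hdw, smul_neg, smul_add]
      abel)
  have h6 := k1 (e - w₁ - e')
    (sub_mem (sub_mem he hw₁') (hA.mono _ _ _ (Iio_subset_Iio (by linarith)) he'))
    ⟨a₀ + z' + a', by
      rw [map_sub, map_sub, h5, hdw, hy₂, smul_add, smul_add]
      abel⟩ c hc
  have e2 : e = e - w₁ - e' + e' + w₁ := by abel
  rw [e2, hA.loc.1.add_left, hA.loc.1.add_left,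
    hA.loc.2 2 2 _ _ (disjoint_left.2 fun t h h' => not_le.2 h h'.1) e' he' c hc',
    hA.loc.2 2 2 _ _ (disjoint_left.2 fun t h h' => not_le.2 h.1 h'.2) w₁ hw₁ c hc', add_zero,
    add_zero, h6]

theorem Pk_unique (hLaur : LaurStmt) (hKey : KeyStmt) (hA : IsAS d M l) {y c : C}
    (hc : c ∈ QN d M ζ) {r r' : ℂ} (h : Pk d M l ζ y c r) (h' : Pk d M l ζ y c r') : r = r' := by
  obtain ⟨a, b, ha, hb, hab, e, he, y₁, h1, y₂, h2, a₀, h3, h4, h5, rfl⟩ := h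
  obtain ⟨a', b', ha', hb', hab', e', he', y₁', h1', y₂', h2', a₀', h3', h4', h5', rfl⟩ := h'
  have D : Pk_Dat d M ζ (max a a') (min b b') y e :=
    Pk_mono hA ⟨he, y₁, h1, y₂, h2, a₀, h3, h4, h5⟩ (le_max_left _ _) (min_le_left _ _)
  have D' : Pk_Dat d M ζ (max a a') (min b b') y e' :=
    Pk_mono hA ⟨he', y₁', h1', y₂', h2', a₀', h3', h4', h5'⟩ (le_max_right _ _) (min_le_right _ _)
  have D0 := Pk_add D (Pk_smul D' (-1))
  rw [neg_one_smul, add_neg_cancel] at D0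
  have h6 := Pk_vanish hLaur hKey hA (lt_max_of_lt_left ha) (min_lt_of_left_lt hb) D0 hc
    (by rw [← Icc_inter_Icc]; exact hA.inter 2 _ _ ⟨hab, hab'⟩)
  rw [hA.loc.1.add_left, hA.loc.1.smul_left, neg_one_mul, map_add, map_neg] at h6
  exact add_neg_eq_zero.1 h6

end

theorem pk_stmt (hLaur : LaurStmt) (hKey : KeyStmt) : PkStmt := by
  intro C _ _ d M l ζ hA
  have hS := hA.loc.1
  have hcj := hLaur.2.2.2.2.2.2.2.1 ζ
  have hπ : evL ζ (piL ζ) = 0 := (hLaur.2.2.2.2.2.2.2.2.1 ζ _).2 dvd_rfl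
  have k6 : ∀ k, ∀ c ∈ M k (Ioo (-1) 1), ∃ a b : ℝ, -1 < a ∧ a < b ∧ b < 1 ∧ c ∈ M k (Icc a b) :=
    fun k c hc => by
      obtain ⟨a, b, ha, hab, hb, h⟩ := (hKey C d M l ζ hA).2.2.2.2.2.1 k c hc
      exact ⟨a, b, ha, hab, hb, hA.mono _ _ _ Ioo_subset_Icc_self h⟩
  have mk : ∀ {a b : ℝ} {y c e : C}, -1 < a → b < 1 → c ∈ M 2 (Icc a b) → Pk_Dat d M ζ a b y e →
      Pk d M l ζ y c (evL ζ (l e c)) := by
    rintro a b y c e ha hb hc ⟨he, y₁, h1, y₂, h2, a₀, h3, h4, h5⟩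
    exact ⟨a, b, ha, hb, hc, e, he, y₁, h1, y₂, h2, a₀, h3, h4, h5, rfl⟩
  let P : C → C → ℂ := fun y c => Classical.epsilon (Pk d M l ζ y c)
  have F : ∀ {a b : ℝ} {y c e : C}, c ∈ QN d M ζ → -1 < a → b < 1 → c ∈ M 2 (Icc a b) →
      Pk_Dat d M ζ a b y e → P y c = evL ζ (l e c) := fun hc ha hb hc' D =>
    Pk_unique hLaur hKey hA hc (Classical.epsilon_spec ⟨_, mk ha hb hc' D⟩) (mk ha hb hc' D)
  refine ⟨P, fun y hy c hc r => ?_, fun y hy y' hy' c hc => ?_, fun g y hy c hc => ?_,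
    fun y hy c hc c' hc' => ?_, fun g y hy c hc => ?_, fun y hy c hc => ?_, fun y hy w hw => ?_,
    fun y hy w hw => ?_⟩
  · refine ⟨fun h => Pk_unique hLaur hKey hA hc h (Classical.epsilon_spec ⟨_, h⟩), fun h => ?_⟩
    obtain ⟨a, b, ha, hab, hb, hc'⟩ := k6 2 c hc.1
    obtain ⟨e, D⟩ := Pk_exists (ζ := ζ) hKey hA ha hab hb hy
    rw [h, F hc ha hb hc' D]
    exact mk ha hb hc' D
  · obtain ⟨a, b, ha, hab, hb, hc'⟩ := k6 2 c hc.1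
    obtain ⟨e, D⟩ := Pk_exists (ζ := ζ) hKey hA ha hab hb hy
    obtain ⟨e', D'⟩ := Pk_exists (ζ := ζ) hKey hA ha hab hb hy'
    rw [F hc ha hb hc' D, F hc ha hb hc' D', F hc ha hb hc' (Pk_add D D'), hS.add_left, map_add]
  · obtain ⟨a, b, ha, hab, hb, hc'⟩ := k6 2 c hc.1
    obtain ⟨e, D⟩ := Pk_exists (ζ := ζ) hKey hA ha hab hb hy
    rw [F hc ha hb hc' D, F hc ha hb hc' (Pk_smul D g), hS.smul_left, map_mul]
  · obtain ⟨a, b, ha, hab, hb, h1⟩ := k6 2 c hc.1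
    obtain ⟨a', b', ha', -, hb', h2⟩ := k6 2 c' hc'.1
    have ha2 : -1 < min a a' := lt_min ha ha'
    have hb2 : max b b' < 1 := max_lt hb hb'
    have h1' := hA.mono 2 _ _ (Icc_subset_Icc (min_le_left a a') (le_max_left b b')) h1
    have h2' := hA.mono 2 _ _ (Icc_subset_Icc (min_le_right a a') (le_max_right b b')) h2
    obtain ⟨e, D⟩ := Pk_exists (ζ := ζ) hKey hA ha2
      ((min_le_left a a').trans_lt (hab.trans_le (le_max_left b b'))) hb2 hy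
    rw [F hc ha2 hb2 h1' D, F hc' ha2 hb2 h2' D, F (add_mem hc hc') ha2 hb2 (add_mem h1' h2') D,
      hS.add_right, map_add]
  · obtain ⟨a, b, ha, hab, hb, hc'⟩ := k6 2 c hc.1
    obtain ⟨e, D⟩ := Pk_exists (ζ := ζ) hKey hA ha hab hb hy
    rw [F hc ha hb hc' D, F (Submodule.smul_mem _ g hc) ha hb (Submodule.smul_mem _ g hc') D,
      hS.smul_right, map_mul, hcj]
  · obtain ⟨a, b, ha, -, hb, hc'⟩ := k6 2 c hc.1
    have D : Pk_Dat d M ζ a b y ((0 : Lam ℂ) • c) := by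
      rw [zero_smul]
      exact ⟨zero_mem _, 0, zero_mem _, 0, zero_mem _, 0, zero_mem _, by rwa [sub_zero], by simp⟩
    rw [F hc ha hb hc' D, hS.smul_left, zero_mul, map_zero]
  · obtain ⟨a, b, ha, hab, hb, hw'⟩ := k6 3 w hw
    obtain ⟨e, D⟩ := Pk_exists (ζ := ζ) hKey hA ha hab hb hy
    have hc : d w ∈ QN d M ζ := ⟨hA.d_mem 2 _ w hw, by
      rw [SetLike.mem_coe, Submodule.mem_comap, hA.dd]
      exact zero_mem _⟩
    rw [F hc ha hb (hA.d_mem 2 _ w hw') D, ← hA.stokes]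
    obtain ⟨-, y₁, h1, y₂, h2, a₀, -, -, h5⟩ := D
    rw [h5, hS.add_left, hS.add_left, hS.smul_left,
      hA.loc.2 1 3 _ _ (disjoint_left.2 fun t h h' => not_le.2 h.1 h'.2) y₁ h1 w hw',
      hA.loc.2 1 3 _ _ (disjoint_left.2 fun t h h' => not_le.2 h h'.1) y₂ h2 w hw', zero_add,
      zero_add, map_mul, hπ, zero_mul]
  · obtain ⟨a, b, ha, hab, hb, hw'⟩ := k6 2 w hw
    obtain ⟨e, D⟩ := Pk_exists (ζ := ζ) hKey hA ha hab hb hy
    have hc : piL ζ • w ∈ QN d M ζ :=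
      ⟨Submodule.smul_mem _ _ hw, d w, (map_smul d (piL ζ) w).symm⟩
    rw [F hc ha hb (Submodule.smul_mem _ _ hw') D, hS.smul_right, map_mul, hcj, hπ, map_zero,
      zero_mul]

end Pool.Agent.MP_bc14e1_gt
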