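import Pool.Agent.MP_bc14e1_gt.IfN

open Set Metric
open scoped Classical

namespace Pool.Agent.MP_bc14e1_gt

theorem Pos0_ev (hL : LaurStmt) {C ι : Type} [AddCommGroup C] [Module (Lam ℂ) C] [Fintype ι]
    {l : C → C → Lam ℂ} (h : Sesq l) (η : Circle) (P : ι → Lam ℂ) (v : ι → C) :
    evL η (l (∑ i, P i • v i) (∑ i, P i • v i)) =
      evL η (l (∑ i, (LaurentPolynomial.C (evL η (P i)) : Lam ℂ) • v i)
        (∑ i, (LaurentPolynomial.C (evL η (P i)) : Lam ℂ) • v i)) := by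
  obtain ⟨-, -, -, -, -, -, hC, hj, -⟩ := hL
  have h1 : ∀ (x : ι → C) y, l (∑ i, x i) y = ∑ i, l (x i) y := fun x y =>
    map_sum (AddMonoidHom.mk' (fun u => l u y) fun a b => h.add_left a b y) x _
  have h2 : ∀ y (x : ι → C), l y (∑ i, x i) = ∑ i, l y (x i) := fun y x =>
    map_sum (AddMonoidHom.mk' (fun u => l y u) fun a b => h.add_right y a b) x _
  simp only [h1, h2, h.smul_left, h.smul_right, map_sum, map_mul, hC, hj]

theorem Pos0_pos (hL : LaurStmt) (hRoot : RootStmt) {G Y : Type} [Group G] [TopologicalSpace Y]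
    [MulAction G Y] [ContinuousConstSMul G Y] {t : G} {l : Tot ℂ Y → Tot ℂ Y → Lam ℂ}
    (h : Sesq (C := Tw ℂ Y t) l) {m n : ℕ} (hm : 0 < m) (v : Fin n → Tot ℂ Y)
    (hv : ∀ η : Circle, η ≠ 1 → ∀ a : Fin n → ℂ, a ≠ 0 →
      0 < (evL η (l (∑ i, a i • v i) (∑ i, a i • v i))).re)
    {ζ : Circle} (hζ : ζ ≠ 1) {a : Fin (m * n) → ℂ} (ha : a ≠ 0) {u : Tot ℂ Y}
    (hu : u = ∑ i, a i • gs ℂ Y (t ^ ((finProdFinEquiv.symm i).1 : ℤ))
      (v (finProdFinEquiv.symm i).2)) :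
    0 < (∑ᶠ k : ℤ, ((ζ ^ k : Circle) : ℂ) * (l u u).coeff (m * k)).re := by
  obtain ⟨S, hS, hr, hs⟩ := hRoot m ζ hm
  have h1 : ∀ η : Circle, evL η (l u u) =
      evL η (l (∑ i, (∑ k : Fin m, a (finProdFinEquiv (k, i)) * (η : ℂ) ^ (k : ℕ)) • v i)
        (∑ i, (∑ k : Fin m, a (finProdFinEquiv (k, i)) * (η : ℂ) ^ (k : ℕ)) • v i)) := by
    intro η
    have h2 := Pos0_ev hL h η (fun i : Fin (m * n) => LaurentPolynomial.C (a i) *
      LaurentPolynomial.T ((finProdFinEquiv.symm i).1 : ℤ))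
      fun i => toTw ℂ Y t (v (finProdFinEquiv.symm i).2)
    simp only [Tw.smul_def, ← map_sum, map_mul, Module.End.mul_apply, act_C, act_T,
      hL.2.2.2.2.2.1, hL.2.2.2.2.2.2.1] at h2
    rw [← hu, ← finProdFinEquiv.sum_comp, Fintype.sum_prod_type_right] at h2
    simp only [Equiv.symm_apply_apply, zpow_natCast, Circle.coe_pow] at h2
    simp only [Finset.sum_smul, mul_smul]
    exact h2
  have h2 : 0 < (∑ η ∈ S, evL η (l u u)).re := by
    rw [Complex.re_sum]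
    have hne : ∀ η ∈ S, η ≠ 1 := fun η hη e => hζ (by rw [← hr η hη, e, one_pow])
    refine Finset.sum_pos' (fun η hη => ?_) ?_
    · rw [h1]
      by_cases e : (fun i => ∑ k : Fin m, a (finProdFinEquiv (k, i)) * (η : ℂ) ^ (k : ℕ)) = 0
      · have h3 : l 0 0 = 0 := by
          have h4 := h.smul_left 0 (0 : Tw ℂ Y t) (0 : Tw ℂ Y t)
          rw [zero_smul, zero_mul] at h4
          exact h4
        simp only [fun i => congrFun e i, Pi.zero_apply, zero_smul, Finset.sum_const_zero, h3,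
          map_zero, Complex.zero_re, le_refl]
      · exact (hv η (hne η hη) _ e).le
    · by_contra hn
      refine ha (funext fun i => ?_)
      obtain ⟨⟨k, i⟩, rfl⟩ := finProdFinEquiv.surjective i
      refine congrFun (Matrix.eq_zero_of_forall_index_sum_mul_pow_eq_zero
        (f := fun k => (((S.equivFinOfCardEq hS).symm k : Circle) : ℂ))
        (v := fun k => a (finProdFinEquiv (k, i)))
        (Circle.coe_injective.comp (Subtype.val_injective.comp (Equiv.injective _))) fun r => ?_) k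
      by_contra e
      refine hn ⟨_, ((S.equivFinOfCardEq hS).symm r).2, ?_⟩
      rw [h1]
      exact hv _ (hne _ (Subtype.property _)) _ fun e' => e (congrFun e' i)
  rw [hs, Complex.mul_re, Complex.natCast_re, Complex.natCast_im, zero_mul, sub_zero] at h2
  exact pos_of_mul_pos_right h2 (Nat.cast_nonneg m)

theorem pos0_stmt (B : Bas2) (hRoot : RootStmt) : Pos0Stmt := by
  intro κ X G Y A G' Y' _ _ _ _ _ _ _ _ _ _ _ _ _ _ _ o F φ p t l τ m α q j t' l' n τ₁ τ₂ P1 P2 hm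
    T1 I1 ⟨v, hv, hpos⟩ T2 I2
  have : Finite j.range := Finite.of_surjective _ j.rangeRestrict_surjective
  have := Fintype.ofFinite j.range
  obtain ⟨tr, inj, h1, h2, h3, h4, h5⟩ := B.tr ℂ j.range Y Y' q P2.cov
  have h6 : ∀ (g : j.range) c, gs ℂ Y' g (tr c) = tr c := fun g c => (h4 _).2 ⟨c, rfl⟩ g
  have h7 : ∀ (k : ℤ) c, tr (gs ℂ Y (t ^ k) c) = gs ℂ Y' (t' ^ k) (tr c) := fun k c => by
    rw [← act_T, ← act_T]
    refine map_act tr (fun c => (h5 (fun y => t • y) (Homeomorph.smul t')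
      (continuous_const_smul t) P2.qt ?_ c).symm) _ c
    rintro ⟨_, a, rfl⟩
    refine ⟨⟨_, Multiplicative.ofAdd (τ a.toAdd), rfl⟩, fun y => ?_⟩
    change t' • j a • y = j _ • t' • y
    rw [← P2.conj, ← mul_smul, ← mul_smul, inv_mul_cancel_right, ofAdd_toAdd]
  have h8 : ∀ c, psh ℂ q (tr c) = (Fintype.card j.range : ℂ) • c := fun c => inj (by
    rw [h1, finsum_eq_sum_of_fintype, map_smul]
    simp only [h6, Finset.sum_const, Finset.card_univ, Nat.cast_smul_eq_nsmul])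
  have hz : ∀ c ∈ ZC ℂ (univ : Set Y) 2, tr c ∈ ZC ℂ (univ : Set Y') 2 := fun c hc =>
    ⟨⟨mem_CH_univ _, (h3 2 c).2 hc.1.2⟩, by
      have e : dT ℂ Y c = 0 := hc.2
      change dT ℂ Y' _ = 0
      rw [h2, e, map_zero]⟩
  have hg : ∀ (g : G), ∀ c ∈ ZC ℂ (univ : Set Y) 2, gs ℂ Y g c ∈ ZC ℂ (univ : Set Y) 2 :=
    fun g c hc => ⟨⟨mem_CH_univ _, gs_mem_DG _ hc.1.2⟩, by
      have e : dT ℂ Y c = 0 := hc.2
      change dT ℂ Y _ = 0
      rw [dT_gs, e, map_zero]⟩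
  have hN : (0 : ℝ) < Fintype.card j.range := Nat.cast_pos.2 Fintype.card_pos
  have h9 : ∀ u ∈ ZC ℂ (univ : Set Y) 2, ∀ w ∈ ZC ℂ (univ : Set Y) 2,
      beta κ τ₂ (tr u) (tr w) = Fintype.card j.range * beta κ τ₁ u w := fun u hu w hw => by
    have h := B.comp κ X X j.range Y' Y o o (p ∘ q) p q τ₂ τ₁
      (B.cov G' X Y' _ _ P2.tc.cov).2.1 (B.cov G X Y _ _ P1.tc.cov).2.1
      (B.cov j.range Y Y' _ _ P2.cov).2.1 (fun g y => P2.tc.cov.inv g y) (fun _ _ _ h => h)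
      P2.cov.free (fun y y' => ⟨P2.cov.trans y y', fun ⟨g, e⟩ => by rw [e, P2.cov.inv]⟩)
      (fun _ _ _ _ => Set.toFinite _) T2 T1 _ (hz u hu) _ (hz w hw)
    rw [finsum_eq_sum_of_fintype, h8, h8] at h
    simp only [h6, Finset.sum_const, Finset.card_univ, nsmul_eq_mul, LinearMap.map_smulₛₗ,
      LinearMap.smul_apply, map_natCast, smul_eq_mul] at h
    exact mul_left_cancel₀ (Nat.cast_ne_zero.2 Fintype.card_ne_zero) h
  have L1 := B.lam X G Y F p t _ P1.tc (B.pair κ X G Y o F p t τ₁ P1.tc T1 I1).1.lk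
  have L2 := B.lam X G' Y' F _ _ _ P2.tc (B.pair κ X G' Y' o F _ _ τ₂ P2.tc T2 I2).1.lk
  refine ⟨fun i => tr (gs ℂ Y (t ^ ((finProdFinEquiv.symm i).1 : ℤ))
    (v (finProdFinEquiv.symm i).2)), fun i => ⟨hz _ (hg _ _ (hv _)), fun a => h6 ⟨_, a, rfl⟩ _⟩,
    fun ζ hζ a ha => ?_⟩
  simp only [← map_smul tr, ← map_sum tr]
  generalize hu : (∑ i, a i • gs ℂ Y (t ^ ((finProdFinEquiv.symm i).1 : ℤ))
    (v (finProdFinEquiv.symm i).2)) = u
  have hZ : u ∈ ZC ℂ (univ : Set Y) 2 :=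
    hu ▸ Submodule.sum_mem _ fun i _ => Submodule.smul_mem _ _ (hg _ _ (hv _))
  have h := Pos0_pos B.laur hRoot L1.1 hm v hpos hζ ha hu.symm
  have e : evL ζ (lamF (t' ^ m) (beta κ τ₂) (tr u) (tr u)) = Fintype.card j.range *
      ∑ᶠ k : ℤ, ((ζ ^ k : Circle) : ℂ) * (lamF t (beta κ τ₁) u u).coeff (m * k) := by
    rw [L2.2.2.2.2, mul_finsum]
    refine finsum_congr fun k => ?_
    rw [L1.2.2.2.1, ← zpow_natCast, ← zpow_mul, ← h7, h9 u hZ _ (hg _ _ hZ), mul_left_comm]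
  rw [e, Complex.mul_re, Complex.natCast_re, Complex.natCast_im, zero_mul, sub_zero]
  exact mul_pos hN h

end Pool.Agent.MP_bc14e1_gt
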