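import Pool.Agent.MP_bc14e1_gt.IfN

open Set Metric
open scoped Classical

namespace Pool.Agent.MP_bc14e1_gt

section Aux

variable {G Y : Type} [Group G] [TopologicalSpace Y] [MulAction G Y] [ContinuousConstSMul G Y]

theorem Psd1_cj (a : Lam ℂ) (n : ℤ) : (cj a).coeff n = starRingEnd ℂ (a.coeff (-n)) := by
  simp [cj]

theorem Psd1_inv {s : G} {b : Form Y} (h : LK s b) (n : ℤ) (u v : Tot ℂ Y) :
    b (gs ℂ Y (s ^ n) u) (gs ℂ Y (s ^ n) v) = b u v := by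
  induction n using Int.induction_on generalizing u v with
  | zero => rw [zpow_zero, gs_one, gs_one]
  | succ n ih => rw [zpow_add_one, gs_mul, gs_mul, ih, h.inv]
  | pred n ih =>
    rw [zpow_sub_one, gs_mul, gs_mul, ih, ← h.inv, ← gs_mul, ← gs_mul, mul_inv_cancel, gs_one,
      gs_one]

/-- The boundaries inside the cycles. -/
noncomputable def Psd1_B (s : G) : Submodule (Lam ℂ) (ZT ℂ Y s 2) :=
  (twSub (s := s) (BC ℂ univ 2) (by
    rintro n _ ⟨b, hb, rfl⟩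
    exact ⟨gs ℂ Y (s ^ n) b, ⟨mem_CH_univ _, gs_mem_DG _ hb.2⟩, dT_gs _ _⟩)).comap
      (ZT ℂ Y s 2).subtype

theorem Psd1_mem_B {s : G} (z : ZT ℂ Y s 2) :
    z ∈ Psd1_B s ↔ (toTw ℂ Y s).symm z.1 ∈ BC ℂ univ 2 := Iff.rfl

theorem Psd1_sum {s : G} {n : ℕ} (a : Fin n → Lam ℂ) (z : Fin n → ZT ℂ Y s 2) :
    (toTw ℂ Y s).symm (∑ i, a i • z i : ZT ℂ Y s 2).1 =
      ∑ i, act ℂ Y s (a i) ((toTw ℂ Y s).symm (z i).1) := by
  rw [Submodule.coe_sum, map_sum]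
  rfl

theorem Psd1_fin {s : G} (h : FGI ℂ s (univ : Set Y) univ 2) :
    Module.Finite (Lam ℂ) (ZT ℂ Y s 2 ⧸ Psd1_B s) := by
  obtain ⟨n, z, hz, h⟩ := h
  let z' : Fin n → ZT ℂ Y s 2 := fun i => ⟨toTw ℂ Y s (z i), hz i⟩
  refine Module.Finite.of_surjective
    ((Psd1_B s).mkQ ∘ₗ Fintype.linearCombination (Lam ℂ) z') fun x => ?_
  obtain ⟨y, rfl⟩ := (Psd1_B s).mkQ_surjective x
  obtain ⟨a, ha⟩ := h ((toTw ℂ Y s).symm y.1) y.2
  refine ⟨a, ((Submodule.Quotient.eq _).2 ?_).symm⟩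
  rw [Psd1_mem_B, Fintype.linearCombination_apply, Submodule.coe_sub, map_sub, Psd1_sum]
  exact ha

end Aux

theorem psd1_stmt (B : Bas2) (hUni : UniStmt) (hRank1 : Rank1Stmt)
    (hRank2 : Rank2Stmt) (hLiftZ : LiftZStmt) (hPsdAlg : PsdAlgStmt) : Psd1Stmt := by
  intro κ X G Y _ _ _ _ _ _ _ _ _ o F n φ p t l τ hX h1 hτ hinv
  have hP := (B.pair κ X G Y o F p t τ h1.tc hτ hinv).1
  obtain ⟨hS, -, -, hco, hev⟩ := B.lam X G Y F p t _ h1.tc hP.lk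
  obtain ⟨-, hloc, -, -, hfin⟩ := B.cov G X Y Fᶜ p h1.tc.cov
  have hfg := B.fg ℂ X G Y F p t h1.tc univ univ isCompact_univ isOpen_univ subset_rfl 2
  rw [preimage_univ] at hfg
  have hd : ∀ z : ZT ℂ Y t 2, dT ℂ Y ((toTw ℂ Y t).symm z.1) = 0 := fun z => z.2.2
  have hdg : ∀ z : ZT ℂ Y t 2, (toTw ℂ Y t).symm z.1 ∈ DG ℂ Y 2 := fun z => z.2.1.2
  have key := hPsdAlg (ZT ℂ Y t 2) (Psd1_B t)
    (fun u v => lamF t (beta κ τ) ((toTw ℂ Y t).symm u.1) ((toTw ℂ Y t).symm v.1)) n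
    (Psd1_fin hfg)
    ⟨fun u u' v => hS.add_left u.1 u'.1 v.1, fun a u v => hS.smul_left a u.1 v.1,
      fun u v v' => hS.add_right u.1 v.1 v'.1, fun a u v => hS.smul_right a u.1 v.1⟩
    ?_ ?_ ?_ ?_ ?_
  · obtain ⟨⟨v, hv⟩, hpsd⟩ := key
    refine ⟨⟨fun i => (toTw ℂ Y t).symm (v i).1, fun i => (v i).2, fun η _ a ha => ?_⟩,
      ∅, finite_empty, fun η _ z hz => hpsd η ⟨toTw ℂ Y t z, hz⟩⟩
    have := hv η a ha
    simp only [Psd1_sum, act_C] at this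
    exact this
  · intro u v
    obtain ⟨E₁, E₂, -, -, hE⟩ := hP.sym
    refine LaurentPolynomial.ext fun m => ?_
    rw [Psd1_cj, hco, hco]
    have e := hE _ (gs_mem_DG (t ^ (-m)) (hdg v)) _ (hdg u)
    rw [dT_gs, hd, hd, map_zero, map_zero, map_zero, LinearMap.zero_apply, add_zero,
      sub_eq_zero] at e
    rw [← e, ← Psd1_inv hP.lk m, ← gs_mul, zpow_neg, mul_inv_cancel, gs_one]
  · intro u hu v
    obtain ⟨b, -, hb⟩ := (Psd1_mem_B u).1 hu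
    refine LaurentPolynomial.ext fun m => ?_
    rw [hco, ← hb, hP.stokes, dT_gs, hd, map_zero, map_zero]
    rfl
  · intro ζ hζ f hf v hv
    obtain ⟨w, hw, hw'⟩ := hUni X G Y o F p t _ h1.tc hP ζ hζ f hf v hv
    exact ⟨⟨toTw ℂ Y t w, hw⟩, hw'⟩
  · intro z
    have hb : ∀ (R : Type) [CommRing R] (c : Tot R Y), ∀ g ∈ ((⊥ : Subgroup G) : Set G),
        gs R Y g c = c := by
      intro R _ c g hg
      rw [Subgroup.mem_bot.1 hg, gs_one]
    have r1 := hRank1 X G Y F φ p t l n h1 hX.dep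
    have r2 := hRank2 X G Y F p t ⊥ n h1.tc inferInstance fun z hz => by
      obtain ⟨a, ha, b, hb', -, e⟩ := r1 z fun i => ⟨(hz i).1, fun g hg => hg.elim⟩
      exact ⟨a, ha, b, hb', hb _ b, e⟩
    obtain ⟨a, ha, b, hb', -, e⟩ := r2 (fun i => (toTw ℂ Y t).symm (z i).1)
      fun i => ⟨(z i).2, hb _ _⟩
    refine ⟨a, ha, ?_⟩
    rw [Psd1_mem_B, Psd1_sum, e]
    exact ⟨b, ⟨mem_CH_univ _, hb'⟩, rfl⟩
  · obtain ⟨x, hx, hx'⟩ := hX.cls
    choose u hu hu' using fun i => hLiftZ κ X G Y o F n φ p t l hX h1 (x i) (hx i)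
    have hid : IsLocalHomeomorph (id : X → X) := (Homeomorph.refl X).isLocalHomeomorph
    obtain ⟨τ', hτ'⟩ := B.thomEx X X o id hid
    have hz : ∀ i, castZ ℂ Y (u i) ∈ ZC ℂ (univ : Set Y) 2 := fun i =>
      ⟨⟨mem_CH_univ _, cast_mem_DG _ (hu i).1.2⟩, by
        have : dT ℤ Y (u i) = 0 := (hu i).2
        change dT ℂ Y _ = 0
        rw [← cast_dT, this, map_zero]⟩
    refine ⟨fun i => ⟨toTw ℂ Y t (castZ ℂ Y (u i)), hz i⟩, fun i j => ?_⟩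
    have hbij : Function.Bijective fun m : ℤ => t ^ m := by
      refine ⟨fun a b e => ?_, fun g => (h1.gen g).imp fun _ e => e.symm⟩
      have e' : t ^ a = t ^ b := e
      exact sub_eq_zero.1 (h1.tc.inf _ (by rw [zpow_sub, e', mul_inv_cancel]))
    have hc := B.comp κ X X G Y X o o p id p τ τ' hloc hid hloc h1.tc.cov.inv
      (fun _ _ _ h => h) h1.tc.cov.free
      (fun y y' => ⟨h1.tc.cov.trans y y', fun ⟨g, e⟩ => by rw [e, h1.tc.cov.inv]⟩)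
      (hfin inferInstance).2 hτ hτ' _ (hz i) _ (hz j)
    rw [← cast_psh, ← cast_psh, hu', hu', hx' τ' hτ', ← finsum_comp _ hbij] at hc
    rw [← hc]
    refine (hev 1 _ _).trans (finsum_congr fun m => ?_)
    rw [one_zpow, Circle.coe_one, one_mul]
    rfl

end Pool.Agent.MP_bc14e1_gt
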