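import Pool.Agent.MP_bc14e1_gt.IfN

open Set Metric
open scoped Classical

namespace Pool.Agent.MP_bc14e1_gt

section Aux

variable {G Y : Type} [Group G] [TopologicalSpace Y] [MulAction G Y] [ContinuousConstSMul G Y]

theorem Psd2_cj (a : Lam ℂ) (n : ℤ) : (cj a).coeff n = starRingEnd ℂ (a.coeff (-n)) := by
  simp [cj]

theorem Psd2_inv {s : G} {b : Form Y} (h : LK s b) (n : ℤ) (u v : Tot ℂ Y) :
    b (gs ℂ Y (s ^ n) u) (gs ℂ Y (s ^ n) v) = b u v := by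
  induction n using Int.induction_on generalizing u v with
  | zero => rw [zpow_zero, gs_one, gs_one]
  | succ n ih => rw [zpow_add_one, gs_mul, gs_mul, ih, h.inv]
  | pred n ih =>
    rw [zpow_sub_one, gs_mul, gs_mul, ih, ← h.inv, ← gs_mul, ← gs_mul, mul_inv_cancel, gs_one,
      gs_one]

theorem Psd2_smul_left {s : G} {l : Tot ℂ Y → Tot ℂ Y → Lam ℂ} (hS : Sesq (C := Tw ℂ Y s) l)
    (a : Lam ℂ) (u v : Tot ℂ Y) : l (act ℂ Y s a u) v = a * l u v :=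
  hS.smul_left a u v

theorem Psd2_smul_right {s : G} {l : Tot ℂ Y → Tot ℂ Y → Lam ℂ} (hS : Sesq (C := Tw ℂ Y s) l)
    (a : Lam ℂ) (u v : Tot ℂ Y) : l u (act ℂ Y s a v) = cj a * l u v :=
  hS.smul_right a u v

theorem Psd2_add_left {s : G} {l : Tot ℂ Y → Tot ℂ Y → Lam ℂ} (hS : Sesq (C := Tw ℂ Y s) l)
    (u u' v : Tot ℂ Y) : l (u + u') v = l u v + l u' v :=
  hS.add_left u u' v

theorem Psd2_add_right {s : G} {l : Tot ℂ Y → Tot ℂ Y → Lam ℂ} (hS : Sesq (C := Tw ℂ Y s) l)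
    (u v v' : Tot ℂ Y) : l u (v + v') = l u v + l u v' :=
  hS.add_right u v v'

/-- The value of a sesquilinear form over the Laurent polynomials at a point of the circle. -/
noncomputable def Psd2_form (hL : LaurStmt) {s : G} {l : Tot ℂ Y → Tot ℂ Y → Lam ℂ}
    (hS : Sesq (C := Tw ℂ Y s) l) (ζ : Circle) : Form Y :=
  LinearMap.mk₂'ₛₗ (RingHom.id ℂ) (starRingEnd ℂ) (fun u v => evL ζ (l u v))
    (fun u u' v => by rw [Psd2_add_left hS, map_add])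
    (fun a u v => by
      rw [← act_C s a u, Psd2_smul_left hS, map_mul, hL.2.2.2.2.2.2.1]; rfl)
    (fun u v v' => by rw [Psd2_add_right hS, map_add])
    (fun a u v => by
      rw [← act_C s a v, Psd2_smul_right hS, map_mul, hL.2.2.2.2.1, hL.2.2.2.2.2.2.1]; rfl)

theorem Psd2_form_apply (hL : LaurStmt) {s : G} {l : Tot ℂ Y → Tot ℂ Y → Lam ℂ}
    (hS : Sesq (C := Tw ℂ Y s) l) (ζ : Circle) (u v : Tot ℂ Y) :
    Psd2_form hL hS ζ u v = evL ζ (l u v) := rfl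

theorem Psd2_ev_pi (hL : LaurStmt) (ζ : Circle) : evL ζ (piL ζ) = 0 :=
  (hL.2.2.2.2.2.2.2.2.1 ζ _).2 dvd_rfl

theorem Psd2_zero_left (hL : LaurStmt) {s : G} {l : Tot ℂ Y → Tot ℂ Y → Lam ℂ}
    (hS : Sesq (C := Tw ℂ Y s) l) (ζ : Circle) {u : Tot ℂ Y} (hu : u ∈ Mul0 s (piL ζ))
    (v : Tot ℂ Y) : evL ζ (l u v) = 0 := by
  obtain ⟨w, rfl⟩ := hu
  rw [Psd2_smul_left hS, map_mul, Psd2_ev_pi hL, zero_mul]

theorem Psd2_zero_right (hL : LaurStmt) {s : G} {l : Tot ℂ Y → Tot ℂ Y → Lam ℂ}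
    (hS : Sesq (C := Tw ℂ Y s) l) (ζ : Circle) (u : Tot ℂ Y) {v : Tot ℂ Y}
    (hv : v ∈ Mul0 s (piL ζ)) : evL ζ (l u v) = 0 := by
  obtain ⟨w, rfl⟩ := hv
  rw [Psd2_smul_right hS, map_mul, hL.2.2.2.2.2.2.2.1, Psd2_ev_pi hL, map_zero, zero_mul]

theorem Psd2_gs_comm {s : G} (hc : ∀ g, g * s = s * g) (g : G) (c : Tot ℂ Y) :
    gs ℂ Y g (gs ℂ Y s c) = gs ℂ Y s (gs ℂ Y g c) := by
  rw [← gs_mul, ← gs_mul, hc]

theorem Psd2_gs_Mul0 {s : G} (hc : ∀ g, g * s = s * g) (g : G) {a : Lam ℂ} {c : Tot ℂ Y}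
    (h : c ∈ Mul0 s a) : gs ℂ Y g c ∈ Mul0 s a := by
  obtain ⟨w, rfl⟩ := h
  exact ⟨gs ℂ Y g w, (map_act _ (Psd2_gs_comm hc g) a w).symm⟩

theorem Psd2_dT_Mul0 {s : G} {a : Lam ℂ} {c : Tot ℂ Y} (h : c ∈ Mul0 s a) :
    dT ℂ Y c ∈ Mul0 s a := by
  obtain ⟨w, rfl⟩ := h
  exact ⟨dT ℂ Y w, (dT_act s a w).symm⟩

/-- Chains of degree two whose boundary is a multiple of `a`. -/
noncomputable def Psd2_V (s : G) (a : Lam ℂ) : Submodule ℂ (Tot ℂ Y) :=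
  DG ℂ Y 2 ⊓ (Mul0 s a).comap (dT ℂ Y)

theorem Psd2_mem_V {s : G} {a : Lam ℂ} {c : Tot ℂ Y} :
    c ∈ Psd2_V s a ↔ c ∈ DG ℂ Y 2 ∧ dT ℂ Y c ∈ Mul0 s a := Iff.rfl

theorem Psd2_gs_V {s : G} (hc : ∀ g, g * s = s * g) (g : G) (a : Lam ℂ) :
    ∀ c ∈ (Psd2_V s a : Submodule ℂ (Tot ℂ Y)), gs ℂ Y g c ∈ Psd2_V s a := fun c h =>
  Psd2_mem_V.2 ⟨gs_mem_DG g h.1, by rw [dT_gs]; exact Psd2_gs_Mul0 hc g h.2⟩

/-- The action of the group on `Psd2_V`. -/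
noncomputable def Psd2_rho {s : G} (hc : ∀ g, g * s = s * g) (a : Lam ℂ) :
    G →* Module.End ℂ (Psd2_V s a : Submodule ℂ (Tot ℂ Y)) where
  toFun g := (gs ℂ Y g).restrict (Psd2_gs_V hc g a)
  map_one' := LinearMap.ext fun c => Subtype.ext (gs_one c.1)
  map_mul' g h := LinearMap.ext fun c => Subtype.ext (gs_mul g h c.1)

theorem Psd2_rho_val {s : G} (hc : ∀ g, g * s = s * g) (a : Lam ℂ) (g : G)
    (c : (Psd2_V s a : Submodule ℂ (Tot ℂ Y))) : (Psd2_rho hc a g c).1 = gs ℂ Y g c.1 := rfl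

theorem Psd2_zpow_comm {s : G} (hc : ∀ g, g * s = s * g) (g : G) (n : ℤ) (c : Tot ℂ Y) :
    gs ℂ Y (s ^ n) (gs ℂ Y g c) = gs ℂ Y g (gs ℂ Y (s ^ n) c) := by
  have : Commute g s := hc g
  rw [← gs_mul, ← gs_mul, (this.zpow_right n).eq]

end Aux

theorem psd2_stmt (B : Bas2) (hRank1 : Rank1Stmt) (hRank2 : Rank2Stmt) (hRank3 : Rank3Stmt)
    (hGen : GenStmt) (hPos0 : Pos0Stmt) (hDim : DimStmt) (hNov : NovStmt) (hTower : TowerStmt) : Psd2Stmt := by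
  intro κ X G Y A G' Y' _ _ _ _ _ _ _ _ _ _ _ _ _ _ _ _ _ o F φ p t l τ m α q j t' l' n r τ₁ τ₂
    h1 h2 hm hcard hfix hdep hτ₁ hi₁ hpos hτ₂ hi₂ hij
  have hL := B.laur
  obtain ⟨hP, hinv⟩ := B.pair κ X G' Y' o F (p ∘ q) (t' ^ m) τ₂ h2.tc hτ₂ hi₂
  obtain ⟨hS, hloc, -, hco, -⟩ := B.lam X G' Y' F (p ∘ q) (t' ^ m) _ h2.tc hP.lk
  have hc := h2.tc.cen
  have hfg : ∀ k, FGI ℂ (t' ^ m) (univ : Set Y') univ k := fun k => by
    have := B.fg ℂ X G' Y' F (p ∘ q) (t' ^ m) h2.tc univ univ isCompact_univ isOpen_univ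
      subset_rfl k
    rwa [preimage_univ] at this
  obtain ⟨bad₁, hb₁, hg₁⟩ := hGen G' Y' (t' ^ m) 1 (hfg 1)
  obtain ⟨bad₂, hb₂, hg₂⟩ := hGen G' Y' (t' ^ m) 2 (hfg 2)
  obtain ⟨v₀, hv₀, hv₀'⟩ := hPos0 κ X G Y A G' Y' o F φ p t l τ m α q j t' l' n τ₁ τ₂ h1 h2 hm
    hτ₁ hi₁ hpos hτ₂ hi₂
  refine ⟨{1} ∪ bad₁ ∪ bad₂, ((finite_singleton _).union hb₁).union hb₂, fun ζ hζ z hz => ?_⟩
  have hζ1 : ζ ≠ 1 := fun h => hζ (Or.inl (Or.inl h))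
  have hζ₁ : ζ ∉ bad₁ := fun h => hζ (Or.inl (Or.inr h))
  have hζ₂ : ζ ∉ bad₂ := fun h => hζ (Or.inr h)
  have hst : ∀ u v, lamF (t' ^ m) (beta κ τ₂) (dT ℂ Y' u) v =
      lamF (t' ^ m) (beta κ τ₂) u (dT ℂ Y' v) := fun u v =>
    LaurentPolynomial.ext fun k => by rw [hco, hco, hP.stokes, dT_gs]
  have hrad : ∀ x w : Tot ℂ Y', x - dT ℂ Y' w ∈ Mul0 (t' ^ m) (piL ζ) →
      ∀ v ∈ (Psd2_V (t' ^ m) (piL ζ) : Submodule ℂ (Tot ℂ Y')),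
        Psd2_form hL hS ζ x v = 0 := fun x w h v hv => by
    have e : x = (x - dT ℂ Y' w) + dT ℂ Y' w := (sub_add_cancel _ _).symm
    rw [e, map_add, LinearMap.add_apply, Psd2_form_apply, Psd2_form_apply,
      Psd2_zero_left hL hS ζ h, hst, Psd2_zero_right hL hS ζ _ hv.2, add_zero]
  have hZ : ∀ z ∈ ZC ℂ (univ : Set Y') 2, z ∈ Psd2_V (t' ^ m) (piL ζ) := fun z hz =>
    Psd2_mem_V.2 ⟨hz.1.2, by
      have : dT ℂ Y' z = 0 := hz.2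
      rw [this]; exact zero_mem _⟩
  have key := hTower (Psd2_V (Y := Y') (t' ^ m) (piL ζ)) A
    ((Psd2_form hL hS ζ).domRestrict₁₂ _ _) ((Psd2_rho hc (piL ζ)).comp j) (m * n) r hcard
    ?_ ?_ ?_ ?_ ?_ ⟨z, hZ z hz⟩
  · exact key
  · intro u v
    obtain ⟨E₁, E₂, hE₁, hE₂, hE⟩ := hP.sym
    obtain ⟨hS₁, -, -, hco₁, -⟩ := B.lam X G' Y' F (p ∘ q) (t' ^ m) _ h2.tc hE₁
    obtain ⟨hS₂, -, -, hco₂, -⟩ := B.lam X G' Y' F (p ∘ q) (t' ^ m) _ h2.tc hE₂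
    have e : lamF (t' ^ m) (beta κ τ₂) v.1 u.1 = cj (lamF (t' ^ m) (beta κ τ₂) u.1 v.1) +
        (lamF (t' ^ m) E₁ (dT ℂ Y' v.1) u.1 + lamF (t' ^ m) E₂ v.1 (dT ℂ Y' u.1)) := by
      refine LaurentPolynomial.ext fun k => ?_
      have e := hE _ v.2.1 _ (gs_mem_DG ((t' ^ m) ^ k) u.2.1)
      rw [dT_gs] at e
      have e' : beta κ τ₂ u.1 (gs ℂ Y' ((t' ^ m) ^ (-k)) v.1) =
          beta κ τ₂ (gs ℂ Y' ((t' ^ m) ^ k) u.1) v.1 := by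
        rw [← Psd2_inv hP.lk k, ← gs_mul, zpow_neg, mul_inv_cancel, gs_one]
      have a1 : ∀ a b : Lam ℂ, (a + b).coeff k = a.coeff k + b.coeff k := fun a b => by simp
      rw [a1, a1, Psd2_cj, hco, hco, hco₁, hco₂, e', ← e]
      ring
    change starRingEnd ℂ (evL ζ (lamF (t' ^ m) (beta κ τ₂) u.1 v.1)) =
      evL ζ (lamF (t' ^ m) (beta κ τ₂) v.1 u.1)
    rw [e, map_add, map_add, Psd2_zero_left hL hS₁ ζ v.2.2, Psd2_zero_right hL hS₂ ζ _ u.2.2,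
      hL.2.2.2.2.2.2.2.1, add_zero, add_zero]
  · intro a u v
    change evL ζ (lamF (t' ^ m) (beta κ τ₂) (gs ℂ Y' (j a) u.1) (gs ℂ Y' (j a) v.1)) =
      evL ζ (lamF (t' ^ m) (beta κ τ₂) u.1 v.1)
    refine congrArg _ (LaurentPolynomial.ext fun k => ?_)
    rw [hco, hco, Psd2_zpow_comm hc, hinv _ (hij a)]
  · refine ⟨fun i => ⟨v₀ i, hZ _ (hv₀ i).1⟩, fun i a => Subtype.ext ((hv₀ i).2 a), fun a ha => ?_⟩
    have := hv₀' ζ hζ1 a ha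
    rw [LinearMap.domRestrict₁₂_apply, Psd2_form_apply, Submodule.coe_sum]
    exact this
  · intro C z hz
    have r1 := hRank1 X G Y F φ p t l n h1 hdep
    have r3 := hRank3 X G Y A G' Y' F p t τ m α q j t' l' n r h2 hm hcard r1 C
    have hfin : Finite (C.toSubgroup.map j : Subgroup G') :=
      Set.Finite.to_subtype (Set.Finite.image _ (Set.toFinite _))
    have r2 := hRank2 X G' Y' F (p ∘ q) (t' ^ m) _ _ h2.tc hfin r3
    obtain ⟨a, ha, w, hw⟩ := hDim G' Y' (t' ^ m) _ _ ζ hfin hc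
      (fun k y h => h2.tc.inf k (h2.tc.cov.free _ y h)) r2
      (fun k hk => by
        rcases hk with rfl | rfl
        · exact hg₁ ζ hζ₁
        · exact hg₂ ζ hζ₂)
      (fun i => (z i).1) (fun i => ⟨(z i).2.1, (z i).2.2, by
        rintro _ ⟨g, hg, rfl⟩
        exact congrArg Subtype.val (hz i (Multiplicative.toAdd g) hg)⟩)
    refine ⟨a, ha, fun v => ?_⟩
    rw [LinearMap.domRestrict₁₂_apply, Submodule.coe_sum]
    exact hrad _ w hw v.1 v.2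
  · intro C' C hle hidx
    obtain ⟨f, hfs, hf', hf, hcut⟩ := hNov X G Y A G' Y' o F φ p t l τ m α q j t' l' _ h1 h2 hfix
      hP C' C hle hidx
    refine ⟨(CH ℂ {y | 0 < f y}).comap (Psd2_V (Y := Y') (t' ^ m) (piL ζ)).subtype,
      (CH ℂ {y | f y < 0}).comap (Psd2_V (Y := Y') (t' ^ m) (piL ζ)).subtype, ?_, ?_, ?_, ?_, ?_⟩
    · intro a ha x hx
      exact gs_mem_CH (j (Multiplicative.ofAdd a)) (fun y hy => by
        simp only [mem_ofPred_eq] at hy ⊢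
        rwa [hf' a ha]) hx
    · intro a ha ha' x hx
      exact gs_mem_CH (j (Multiplicative.ofAdd a)) (fun y hy => by
        simp only [mem_ofPred_eq] at hy ⊢
        rw [hf a ha ha']; linarith) hx
    · intro a ha ha' x hx
      exact gs_mem_CH (j (Multiplicative.ofAdd a)) (fun y hy => by
        simp only [mem_ofPred_eq] at hy ⊢
        rw [hf a ha ha']; linarith) hx
    · intro x hx y hy
      have := hloc {y | 0 < f y} {y | f y < 0} (fun y => by simp only [mem_ofPred_eq, hfs])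
        (Set.disjoint_left.2 fun y (h : 0 < f y) (h' : f y < 0) => lt_asymm h h') x.1 hx y.1 hy
      rw [LinearMap.domRestrict₁₂_apply, Psd2_form_apply, this, map_zero]
    · intro u hu
      obtain ⟨u', hu', w, hw⟩ := hcut ζ hζ1 u.1 u.2.1 u.2.2 fun x hx hx' =>
        hu ⟨x, Psd2_mem_V.2 ⟨hx.2, hx'⟩⟩ hx.1
      have hd : dT ℂ Y' u' ∈ Mul0 (t' ^ m) (piL ζ) := by
        have e : dT ℂ Y' u' = dT ℂ Y' u.1 - dT ℂ Y' (u.1 - u' - dT ℂ Y' w) := by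
          rw [map_sub, map_sub, dT_dT]; abel
        rw [e]
        exact sub_mem u.2.2 (Psd2_dT_Mul0 hw)
      exact ⟨⟨u', Psd2_mem_V.2 ⟨hu'.2, hd⟩⟩, hu'.1, fun v => hrad _ w hw v.1 v.2⟩

end Pool.Agent.MP_bc14e1_gt
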