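import Pool.Agent.MP_bc14e1_gt.IfN

open Set Metric
open scoped Classical

namespace Pool.Agent.MP_bc14e1_gt

theorem PsdAlg_coord {R H : Type} [CommRing R] [IsDomain R] [IsPrincipalIdealRing R]
    [AddCommGroup H] [Module R H] (B : Submodule R H) [Module.Finite R (H ⧸ B)] :
    ∃ (r : ℕ) (v : Fin r → H) (c : Fin r → H →ₗ[R] R),
      (∀ i j, c i (v j) = if j = i then 1 else 0) ∧ (∀ i, ∀ z ∈ B, c i z = 0) ∧
      ∀ z, ∃ a : R, a ≠ 0 ∧ a • (z - ∑ i, c i z • v i) ∈ B := by
  obtain ⟨r, b⟩ : Σ r, Module.Basis (Fin r) R ((H ⧸ B) ⧸ Submodule.torsion R (H ⧸ B)) :=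
    Module.basisOfFiniteTypeTorsionFree'
  let π : H →ₗ[R] (H ⧸ B) ⧸ Submodule.torsion R (H ⧸ B) :=
    (Submodule.torsion R (H ⧸ B)).mkQ ∘ₗ B.mkQ
  have hπ : Function.Surjective π :=
    (Submodule.mkQ_surjective _).comp (Submodule.mkQ_surjective _)
  choose v hv using fun i => hπ (b i)
  refine ⟨r, v, fun i => b.coord i ∘ₗ π, fun i j => ?_, fun i z hz => ?_, fun z => ?_⟩
  · rw [LinearMap.comp_apply, hv, Module.Basis.coord_apply, Module.Basis.repr_self,
      Finsupp.single_apply]
  · have h1 : π z = 0 := by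
      simp only [π, LinearMap.comp_apply, Submodule.mkQ_apply]
      rw [(Submodule.Quotient.mk_eq_zero B).2 hz, Submodule.Quotient.mk_zero]
    rw [LinearMap.comp_apply, h1, map_zero]
  · have h1 : π (z - ∑ i, (b.coord i ∘ₗ π) z • v i) = 0 := by
      simp only [map_sub, map_sum, map_smul, hv, LinearMap.comp_apply, Module.Basis.coord_apply]
      rw [b.sum_repr, sub_self]
    generalize z - ∑ i, (b.coord i ∘ₗ π) z • v i = t at h1
    simp only [π, LinearMap.comp_apply, Submodule.mkQ_apply, Submodule.Quotient.mk_eq_zero] at h1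
    obtain ⟨⟨a, ha⟩, h2⟩ := h1
    refine ⟨a, nonZeroDivisors.ne_zero ha, (Submodule.Quotient.mk_eq_zero B).1 ?_⟩
    rw [Submodule.Quotient.mk_smul]
    exact h2

theorem PsdAlg_expand {H : Type} [AddCommGroup H] [Module (Lam ℂ) H] {B : Submodule (Lam ℂ) H}
    {l : H → H → Lam ℂ} (hl : Sesq l) (hh : ∀ u v, cj (l u v) = l v u)
    (hB : ∀ u ∈ B, ∀ v, l u v = 0) {r : ℕ} {v : Fin r → H} {c : Fin r → H →ₗ[Lam ℂ] Lam ℂ}
    (hc : ∀ z, ∃ a : Lam ℂ, a ≠ 0 ∧ a • (z - ∑ i, c i z • v i) ∈ B) (z w : H) :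
    l z w = ∑ i, c i z * ∑ j, l (v i) (v j) * cj (c j w) := by
  have h1 : ∀ z w, l z w = ∑ i, c i z * l (v i) w := by
    intro z w
    let L : H →ₗ[Lam ℂ] Lam ℂ :=
      { toFun := fun u => l u w
        map_add' := fun u u' => hl.add_left u u' w
        map_smul' := fun a u => hl.smul_left a u w }
    obtain ⟨a, ha, h⟩ := hc z
    have h2 : L (a • (z - ∑ i, c i z • v i)) = 0 := hB _ h w
    rw [map_smul, smul_eq_mul, mul_eq_zero, or_iff_right ha, map_sub, sub_eq_zero, map_sum] at h2
    refine h2.trans (Finset.sum_congr rfl fun i _ => ?_)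
    rw [map_smul, smul_eq_mul]
    rfl
  rw [h1 z w]
  refine Finset.sum_congr rfl fun i _ => ?_
  rw [← hh w (v i), h1 w (v i), map_sum]
  congr 1
  exact Finset.sum_congr rfl fun j _ => by rw [map_mul, hh, mul_comm]

open Matrix ComplexOrder in
theorem psdAlg_stmt (hLaur : LaurStmt) (hHerm : HermStmt) : PsdAlgStmt := by
  intro H _ _ B l n hfin hl hh hB huni hdep ⟨u, hu⟩
  obtain ⟨hpid, -, -, -, -, -, evC, evcj, -, -, -, hcont, -, -⟩ := hLaur
  obtain ⟨r, v, c, hcv, hcB, hc⟩ := PsdAlg_coord B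
  have hsum : ∀ {m : ℕ} (e : Fin m → Fin r), Function.Injective e → ∀ (a : Fin m → Lam ℂ) k,
      c (e k) (∑ i, a i • v (e i)) = a k := by
    intro m e he a k
    simp only [map_sum, map_smul, hcv, he.eq_iff, smul_eq_mul, mul_ite, mul_one, mul_zero,
      Finset.sum_ite_eq', Finset.mem_univ, if_true]
  let G : Circle → Matrix (Fin r) (Fin r) ℂ := fun η => Matrix.of fun i j => evL η (l (v i) (v j))
  have key : ∀ η z w, evL η (l z w) =
      (fun i => evL η (c i z)) ⬝ᵥ (G η *ᵥ star fun j => evL η (c j w)) := by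
    intro η z w
    rw [PsdAlg_expand hl hh hB hc z w]
    simp only [map_sum, map_mul, evcj, dotProduct, mulVec, G, of_apply, Pi.star_apply,
      RCLike.star_def]
  have hA : (Matrix.of fun i j => evL 1 (c j (u i))) * G 1 *
      (Matrix.of fun i j => evL 1 (c j (u i)))ᴴ = 1 := by
    ext i j
    rw [one_apply, ← hu, key, Matrix.mul_assoc]
    simp only [Matrix.mul_apply, dotProduct, mulVec, of_apply, Pi.star_apply, conjTranspose_apply]
  have hrn : r = n := by
    apply le_antisymm
    · by_contra hlt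
      have hlt : n + 1 ≤ r := by omega
      obtain ⟨a, ha, h⟩ := hdep fun i => v (Fin.castLE hlt i)
      exact ha (funext fun k =>
        (hsum _ (Fin.castLE_injective hlt) a k).symm.trans (hcB _ _ h))
    · have h1 := congrArg Matrix.rank hA
      rw [Matrix.rank_one, Fintype.card_fin, Matrix.mul_assoc] at h1
      rw [← h1]
      exact (Matrix.rank_mul_le_left _ _).trans (Matrix.rank_le_width _)
  subst hrn
  have hval : ∀ (η : Circle) (a : Fin r → ℂ),
      (fun i => evL η (c i (∑ i, (LaurentPolynomial.C (a i) : Lam ℂ) • v i))) = a := by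
    intro η a
    funext k
    exact (congrArg (evL η) (hsum id Function.injective_id _ k)).trans (evC η _)
  have hG : ∀ η, (G η).PosDef := by
    refine hHerm r G (continuous_matrix fun i j => hcont _) (fun η => ?_) (fun η hη hdet => ?_) ?_
    · ext i j
      simp only [conjTranspose_apply, G, of_apply, RCLike.star_def, ← evcj, hh]
    · obtain ⟨a, ha, h⟩ := Matrix.exists_vecMul_eq_zero_iff.2 hdet
      obtain ⟨k, hk⟩ := Function.ne_iff.1 ha
      obtain ⟨w, hw⟩ := huni η hη ((LaurentPolynomial.C (a k)⁻¹ : Lam ℂ) • c k)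
        (fun z hz => by rw [LinearMap.smul_apply, hcB k z hz, smul_zero])
        (∑ i, (LaurentPolynomial.C (a i) : Lam ℂ) • v i) (by
          rw [LinearMap.smul_apply, smul_eq_mul]
          refine (congrArg _ (hsum id Function.injective_id _ k)).trans ?_
          rw [← map_mul, inv_mul_cancel₀ hk, map_one])
      apply hw
      rw [key, hval, dotProduct_mulVec, h, zero_dotProduct]
    · have h1 : IsUnit (Matrix.of fun i j => evL 1 (c j (u i))) := by
        rw [Matrix.mul_assoc] at hA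
        exact IsUnit.of_mul_eq_one _ hA
      rw [← h1.posDef_star_right_conjugate_iff, star_eq_conjTranspose, hA]
      exact Matrix.PosDef.one
  refine ⟨⟨v, fun η a ha => ?_⟩, fun η z => ?_⟩
  · have h1 := (hG η).re_dotProduct_pos (x := star a) (star_ne_zero.2 ha)
    rw [star_star] at h1
    rw [key, hval]
    exact h1
  · have h1 := (hG η).posSemidef.re_dotProduct_nonneg (star fun i => evL η (c i z))
    rw [star_star] at h1
    rw [key]
    exact h1

end Pool.Agent.MP_bc14e1_gt
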