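import Pool.Agent.MP_bc14e1_gt.IfN

open Set Metric
open scoped Classical

namespace Pool.Agent.MP_bc14e1_gt

section
open Topology Filter

variable {G Y : Type} [Group G] [TopologicalSpace Y] [MulAction G Y]

/-- An equivariant deformation that does not increase `f` and decreases it near `C`. -/
def Push_P (s : G) (f : Y → ℝ) (C : Set Y) : Prop :=
  ∃ K : ℝ × Y → Y, Continuous K ∧ (∀ z, K (0, z) = z) ∧ (∀ θ z, K (θ, s • z) = s • K (θ, z)) ∧
    (∀ θ ∈ Icc (0 : ℝ) 1, ∀ z, f (K (θ, z)) ≤ f z) ∧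
    ∀ z ∈ C, ∀ᶠ q : ℝ × Y in 𝓝 (0, z), 0 < q.1 → f (K (q.1, q.2)) < f q.2

theorem Push_lt (z : Y) : ∀ᶠ q : ℝ × Y in 𝓝 (0, z), q.1 < 1 :=
  (isOpen_lt continuous_fst continuous_const).mem_nhds (zero_lt_one (α := ℝ))

theorem Push_union {s : G} {f : Y → ℝ} {C D : Set Y} (h : Push_P s f C) (h' : Push_P s f D) :
    Push_P s f (C ∪ D) := by
  obtain ⟨K, k1, k2, k3, k4, k5⟩ := h
  obtain ⟨J, j1, j2, j3, j4, j5⟩ := h'
  have hc : Continuous fun q : ℝ × Y => (q.1, K q) := continuous_fst.prodMk k1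
  refine ⟨fun q => J (q.1, K q), j1.comp hc, fun z => by simp only [k2, j2],
    fun θ z => by simp only [k3, j3], fun θ hθ z => (j4 θ hθ _).trans (k4 θ hθ z), ?_⟩
  rintro z (hz | hz)
  · filter_upwards [k5 z hz, Push_lt z] with q h1 h2 h3
    exact (j4 _ ⟨h3.le, h2.le⟩ _).trans_lt (h1 h3)
  · have ht : Tendsto (fun q : ℝ × Y => (q.1, K q)) (𝓝 (0, z)) (𝓝 (0, z)) :=
      hc.tendsto' _ _ (by rw [k2])
    filter_upwards [ht.eventually (j5 z hz), Push_lt z] with q h1 h2 h3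
    exact (h1 h3).trans_le (k4 _ ⟨h3.le, h2.le⟩ _)

omit [TopologicalSpace Y] in
theorem Push_zpow {s : G} {k : Y → Y} (hk : ∀ z, k (s • z) = s • k z) (n : ℤ) (z : Y) :
    k (s ^ n • z) = s ^ n • k z := by
  induction n using Int.induction_on generalizing z with
  | zero => simp
  | succ n ih => rw [zpow_add_one, mul_smul, mul_smul, ih, hk]
  | pred n ih =>
    rw [zpow_sub_one, mul_smul, mul_smul, ih, smul_left_cancel_iff, eq_inv_smul_iff, ← hk,
      smul_inv_smul]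

omit [TopologicalSpace Y] in
theorem Push_inv {s : G} {f : Y → ℝ} (hf : ∀ y, f (s • y) = f y) (n : ℤ) (z : Y) :
    f (s ^ n • z) = f z :=
  (Inv.zpow (s := s) (A := {y | f y = f z}) (fun y => by simp only [mem_ofPred_eq, hf]) n z).2 rfl

/-- The global push on the level of spaces. -/
theorem Push_top {s : G} {f : Y → ℝ} (hc : Continuous f) (hf : ∀ y, f (s • y) = f y)
    (hL : Cocpt s {y | |f y| ≤ 1 / 2}) (h1 : ∀ y, f y = 0 → ∃ W ∈ 𝓝 y, Push_P s f W) :
    ∃ ε : ℝ, 0 < ε ∧ ε < 1 / 2 ∧ ∃ K : ℝ × Y → Y, Continuous K ∧ (∀ z, K (0, z) = z) ∧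
      (∀ θ z, K (θ, s • z) = s • K (θ, z)) ∧ ∀ y, f y < ε → f (K (1, y)) < 0 := by
  obtain ⟨-, -, L, hL, hs⟩ := hL
  have hC : IsCompact (L ∩ {y | f y = 0}) := hL.inter_right (isClosed_eq hc continuous_const)
  obtain ⟨K, k1, k2, k3, k4, k5⟩ : Push_P s f (L ∩ {y | f y = 0}) := by
    refine hC.induction_on ⟨Prod.snd, continuous_snd, fun _ => rfl, fun _ _ => rfl,
      fun _ _ _ => le_rfl, fun _ h => h.elim⟩ ?_ (fun _ _ => Push_union) fun y hy => ?_
    · rintro C D h ⟨K, k1, k2, k3, k4, k5⟩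
      exact ⟨K, k1, k2, k3, k4, fun z hz => k5 z (h hz)⟩
    · obtain ⟨W, w1, w2⟩ := h1 y hy.2
      exact ⟨W, mem_nhdsWithin_of_mem_nhds w1, w2⟩
  have h2 := hC.eventually_forall_of_forall_eventually
    (P := fun θ z => 0 < θ → f (K (θ, z)) < f z) k5
  obtain ⟨t, ⟨t1, t2⟩, t3⟩ := (((h2.and (gt_mem_nhds (zero_lt_one (α := ℝ)))).filter_mono
    (nhdsWithin_le_nhds (s := Ioi (0 : ℝ)))).and self_mem_nhdsWithin).exists
  have t4 : t ∈ Icc (0 : ℝ) 1 := ⟨le_of_lt t3, le_of_lt t2⟩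
  have hD : IsCompact (L ∩ {y | 0 ≤ f (K (t, y))}) :=
    hL.inter_right (isClosed_le continuous_const (by fun_prop))
  obtain ⟨ε, e1, e2⟩ := hD.exists_forall_le' (a := 0) hc.continuousOn fun y hy => by
    refine lt_of_le_of_ne (le_trans hy.2 (k4 t t4 y)) fun e => ?_
    have := t1 y ⟨hy.1, e.symm⟩ t3
    rw [← e] at this
    exact absurd hy.2 (not_le.2 this)
  refine ⟨min ε (1 / 4), lt_min e1 (by norm_num), (min_le_right _ _).trans_lt (by norm_num),
    fun q => K (q.1 * t, q.2), by fun_prop, fun z => by simp only [zero_mul, k2],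
    fun θ z => k3 _ _, fun y hy => ?_⟩
  simp only [one_mul]
  rcases lt_or_ge (f y) 0 with h | h
  · exact (k4 t t4 y).trans_lt h
  · have h3 := lt_min_iff.1 hy
    obtain ⟨n, z, hz, rfl⟩ := mem_iUnion.1 (hs (show |f y| ≤ 1 / 2 by
      rw [abs_of_nonneg h]; linarith [h3.2]))
    simp only [Push_inv hf] at h3
    rw [Push_zpow (k := fun z => K (t, z)) (k3 t), Push_inv hf]
    by_contra h4
    exact absurd (e2 z ⟨hz, not_lt.1 h4⟩) (not_le.2 h3.1)

end

theorem push_stmt (B : Bas1) (hPush1 : Push1Stmt) : PushStmt := by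
  intro X G Y _ _ _ _ _ _ _ _ F p s f tc hc hf hL hM
  obtain ⟨κ⟩ := B.kit
  obtain ⟨ε, e1, e2, K, k1, k2, k3, k4⟩ := Push_top hc hf hL fun y hy => by
    obtain ⟨W, W', c, H, w1, -, w2, w3, c0, h1, h2, h3, h4, h5⟩ :=
      hPush1 X G Y F p s f tc hf y (hM y hy)
    refine ⟨W, w1.mem_nhds (w3 (interior_subset w2)), H, h1, h2, h3, h4, fun z hz => ?_⟩
    filter_upwards [Push_lt z, (w1.preimage continuous_snd).mem_nhds (show (0, z) ∈ _ from hz)]
      with q q1 q2 q3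
    have := h5 q.1 ⟨q3.le, q1.le⟩ q.2 q2
    have := mul_pos c0 q3
    linarith
  have k5 : Continuous fun z => K (1, z) := by fun_prop
  refine ⟨ε, e1, e2, psh ℂ fun z => K (1, z), -hop κ ℂ K, fun c => ?_, fun c => ?_,
    fun k c h => psh_mem_DG _ h, fun c h => psh_mem_CH _ (fun y hy => k4 y hy) h, fun c => ?_⟩
  · rw [gs, psh_psh' _ (continuous_const_smul s), psh_psh' _ k5]
    exact psh_congr (fun z _ => k3 1 z) (mem_CH_univ c)
  · rw [LinearMap.neg_apply, LinearMap.neg_apply, map_neg, gs,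
      hop_psh κ K (continuous_const_smul s).continuousOn (mem_CH_univ c),
      psh_hop κ _ k1.continuousOn (mem_CH_univ c)]
    exact congrArg _ (hop_congr κ (fun q _ => k3 q.1 q.2) (mem_CH_univ c))
  · rw [LinearMap.neg_apply, LinearMap.neg_apply, map_neg, ← neg_add,
      dT_hop κ k1.continuousOn (mem_CH_univ c), neg_sub,
      psh_of_eqOn_id (fun z _ => k2 z) (mem_CH_univ c)]

end Pool.Agent.MP_bc14e1_gt
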