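import Pool.Agent.MP_bc14e1_gt.IfN
import Pool.Agent.MP_bc14e1_gt.IfP

open Set Metric
open scoped Classical

namespace Pool.Agent.MP_bc14e1_gt

section
variable {G Y : Type} [Group G] [TopologicalSpace Y] [MulAction G Y] [ContinuousConstSMul G Y]

/-- Equivariant extension of a local homotopy. -/
theorem Push1_ext (s : G) {U L : Set Y} (hU : IsOpen U) (hL : L ⊆ U) (hc : IsClosed (sat s L))
    (hw : ∀ z ∈ U, ∀ n : ℤ, s ^ n • z ∈ U → n = 0) (h : ℝ × Y → Y)
    (h1 : ContinuousOn h (univ ×ˢ U)) (h2 : ∀ θ, ∀ z ∈ U, z ∉ L → h (θ, z) = z) :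
    ∃ H : ℝ × Y → Y, Continuous H ∧ (∀ θ z, H (θ, s • z) = s • H (θ, z)) ∧
      (∀ θ z (n : ℤ), s ^ n • z ∈ U → H (θ, z) = s ^ (-n) • h (θ, s ^ n • z)) ∧
      ∀ θ z, (∀ n : ℤ, s ^ n • z ∉ U) → H (θ, z) = z := by
  let H : ℝ × Y → Y := fun a =>
    if e : ∃ n : ℤ, s ^ n • a.2 ∈ U then s ^ (-e.choose) • h (a.1, s ^ e.choose • a.2) else a.2
  have k1 : ∀ θ z (n : ℤ), s ^ n • z ∈ U → H (θ, z) = s ^ (-n) • h (θ, s ^ n • z) := by
    intro θ z n hn
    have e : ∃ n : ℤ, s ^ n • z ∈ U := ⟨n, hn⟩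
    have e1 : e.choose - n = 0 := hw _ hn _ (by
      rw [smul_smul, ← zpow_add, sub_add_cancel]
      exact e.choose_spec)
    have e2 : e.choose = n := by omega
    simp only [H, dif_pos e, e2]
  have k2 : ∀ θ z, (∀ n : ℤ, s ^ n • z ∉ U) → H (θ, z) = z := fun θ z hz =>
    dif_neg fun ⟨n, hn⟩ => hz n hn
  have k3 : ∀ θ z, z ∉ sat s L → H (θ, z) = z := by
    intro θ z hz
    by_cases e : ∃ n : ℤ, s ^ n • z ∈ U
    · obtain ⟨n, hn⟩ := e
      have e1 : s ^ (-n) • s ^ n • z = z := by rw [smul_smul, ← zpow_add, neg_add_cancel, zpow_zero,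
        one_smul]
      rw [k1 θ z n hn, h2 θ _ hn fun h' => hz (mem_iUnion.2 ⟨-n, _, h', e1⟩), e1]
    · exact k2 θ z fun n hn => e ⟨n, hn⟩
  refine ⟨H, continuous_iff_continuousAt.2 fun a => ?_, fun θ z => ?_, k1, k2⟩
  · by_cases ha : a.2 ∈ sat s L
    · obtain ⟨n, z, hz, e⟩ := mem_iUnion.1 ha
      have hn : s ^ (-n) • a.2 ∈ U := by
        rw [← e, smul_smul, ← zpow_add, neg_add_cancel, zpow_zero, one_smul]
        exact hL hz
      have c1 : Continuous fun b : ℝ × Y => (b.1, s ^ (-n) • b.2) :=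
        continuous_fst.prodMk (continuous_snd.const_smul _)
      have c2 : ContinuousAt (fun b : ℝ × Y => s ^ (- -n) • h (b.1, s ^ (-n) • b.2)) a :=
        (ContinuousAt.comp (f := fun b : ℝ × Y => (b.1, s ^ (-n) • b.2))
          (h1.continuousAt ((isOpen_univ.prod hU).mem_nhds ⟨trivial, hn⟩))
          c1.continuousAt).const_smul _
      refine c2.congr ?_
      filter_upwards [(hU.preimage (continuous_snd.const_smul (s ^ (-n)))).mem_nhds hn] with b hb
      exact (k1 b.1 b.2 (-n) hb).symm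
    · refine continuousAt_snd.congr ?_
      filter_upwards [(hc.isOpen_compl.preimage continuous_snd).mem_nhds ha] with b hb
      exact (k3 b.1 b.2 hb).symm
  · have e0 : ∀ n : ℤ, s ^ n • s • z = s ^ (n + 1) • z := fun n => by
      rw [smul_smul, zpow_add_one]
    by_cases e : ∃ n : ℤ, s ^ n • s • z ∈ U
    · obtain ⟨n, hn⟩ := e
      rw [k1 θ _ n hn, k1 θ z (n + 1) (e0 n ▸ hn), e0, smul_smul s, ← zpow_one_add]
      congr 2
      ring
    · rw [k2 θ _ fun n hn => e ⟨n, hn⟩, k2 θ z fun n hn => e ⟨n - 1, by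
        rwa [e0, sub_add_cancel]⟩]

/-- A wandering neighbourhood. -/
theorem Push1_wand {X : Type} [TopologicalSpace X] {F : Set X} {p : Y → X} {s : G} (T : TC F p s)
    (y : Y) : ∃ N, IsOpen N ∧ y ∈ N ∧ ∀ z ∈ N, ∀ n : ℤ, s ^ n • z ∈ N → n = 0 := by
  obtain ⟨U, -, hy, -, σ, -, h1, h2⟩ := T.cov.sec (p y) (T.cov.mem y)
  obtain ⟨g, hg⟩ := T.cov.trans y (σ (p y)) (h1 _ hy).symm
  refine ⟨(fun z => g • z) ⁻¹' (σ '' U), h2.preimage (continuous_const_smul g),
    ⟨_, hy, hg⟩, ?_⟩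
  rintro z ⟨x, hx, e⟩ n ⟨x', hx', e'⟩
  have e1 : x = x' := by
    rw [← h1 x hx, ← h1 x' hx', e, e', T.cov.inv, T.cov.inv, T.cov.inv]
  rw [← e1, e] at e'
  exact T.inf n (T.cov.free _ z (MulAction.injective g e').symm)

end

theorem push1_stmt (B : Bas1) (hFam : FamStmt) : Push1Stmt := by
  intro X G Y _ _ _ _ _ _ _ _ F p s f T hf y ⟨e, v, c, r0, hy, hc, hr0, hb, hm⟩
  obtain ⟨N, hN, hyN, hw⟩ := Push1_wand T y
  obtain ⟨r1, hr1, h1⟩ := Metric.mem_nhds_iff.1 ((e.continuousAt_symm (e.map_source hy)).preimage_mem_nhds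
    (hN.mem_nhds (by rwa [e.left_inv hy])))
  obtain ⟨r, hr, hrr, hrN⟩ : ∃ r, 0 < r ∧ ball (e y) r ⊆ ball (e y) r0 ∧
      ball (e y) r ⊆ e.symm ⁻¹' N :=
    ⟨min r0 r1, lt_min hr0 hr1, ball_subset_ball (min_le_left _ _),
      (ball_subset_ball (min_le_right _ _)).trans h1⟩
  have hfn : ∀ (n : ℤ) z, f (s ^ n • z) = f z := by
    intro n
    induction n using Int.induction_on with
    | zero => intro z; rw [zpow_zero, one_smul]
    | succ n ih => intro z; rw [zpow_add_one, mul_smul, ih, hf]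
    | pred n ih => intro z; rw [zpow_sub_one, mul_smul, ih, ← hf, smul_inv_smul]
  have hv : 0 < ‖v‖ + 1 := by positivity
  obtain ⟨δ, hδ, hδ1, hδ2⟩ : ∃ δ : ℝ, 0 < δ ∧ δ ≤ r / 4 ∧ δ * ‖v‖ ≤ r / 4 := by
    refine ⟨r / 4 / (‖v‖ + 1), by positivity, div_le_self (by positivity) (by simp), ?_⟩
    rw [div_mul_eq_mul_div, div_le_iff₀ hv]
    nlinarith
  let a : ℝ × E 4 → ℝ := fun b => max 0 (min b.1 1) * max 0 (min δ (r / 2 - dist b.2 (e y)))
  have ac : Continuous a := by fun_prop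
  have a0 : ∀ b, 0 ≤ a b := fun b => mul_nonneg (le_max_left _ _) (le_max_left _ _)
  have a1 : ∀ b, a b ≤ δ := fun b => (mul_le_mul (max_le zero_le_one (min_le_right _ _))
    (max_le hδ.le (min_le_left _ _)) (le_max_left _ _) zero_le_one).trans (one_mul δ).le
  have a2 : ∀ b : ℝ × E 4, r / 2 ≤ dist b.2 (e y) → a b = 0 := fun b h => by
    simp only [a]
    rw [max_eq_left (b := min δ _) (min_le_of_right_le (by linarith)), mul_zero]
  have a3 : ∀ θ, ∀ w ∈ ball (e y) r, w + a (θ, w) • v ∈ ball (e y) r := by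
    intro θ w hw
    by_cases h : r / 2 ≤ dist w (e y)
    · rwa [a2 (θ, w) h, zero_smul, add_zero]
    · have e1 : dist (w + a (θ, w) • v) w ≤ r / 4 := by
        rw [dist_self_add_left, norm_smul, Real.norm_of_nonneg (a0 _)]
        exact (mul_le_mul_of_nonneg_right (a1 _) (norm_nonneg v)).trans hδ2
      have := dist_triangle (w + a (θ, w) • v) w (e y)
      rw [mem_ball]
      linarith
  have hcl : ∀ t, t < r → closedBall (e y) t ⊆ e.target := fun t ht =>
    (closedBall_subset_ball ht).trans (hrr.trans hb)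
  have hop : ∀ t, IsOpen (e.source ∩ e ⁻¹' ball (e y) t) := fun t =>
    e.isOpen_inter_preimage isOpen_ball
  have hcp : ∀ t, t < r → IsCompact (e.symm '' closedBall (e y) t) := fun t ht =>
    (isCompact_closedBall _ _).image_of_continuousOn (e.continuousOn_symm.mono (hcl t ht))
  have hsub : ∀ t t', t < t' → t < r →
      e.symm '' closedBall (e y) t ⊆ e.source ∩ e ⁻¹' ball (e y) t' := by
    rintro t t' h h' _ ⟨w, hw, rfl⟩
    refine ⟨e.map_target (hcl t h' hw), ?_⟩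
    rw [mem_preimage, e.right_inv (hcl t h' hw)]
    exact closedBall_subset_ball h hw
  obtain ⟨H, H1, H2, H3, H4⟩ := Push1_ext s (hop r) (hsub (r / 2) r (by linarith) (by linarith))
    ((hFam X G Y F p s T).1 _ (hcp (r / 2) (by linarith))).1
    (fun z hz n hn => hw z (by rw [← e.left_inv hz.1]; exact hrN hz.2) n
      (by rw [← e.left_inv hn.1]; exact hrN hn.2))
    (fun b => e.symm (e b.2 + a (b.1, e b.2) • v))
    (by
      have c1 : ContinuousOn (fun b : ℝ × Y => e b.2) (univ ×ˢ (e.source ∩ e ⁻¹' ball (e y) r)) :=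
        e.continuousOn.comp continuousOn_snd fun b hb => hb.2.1
      exact e.continuousOn_symm.comp (c1.add ((ac.comp_continuousOn
        (continuousOn_fst.prodMk c1)).smul continuousOn_const)) fun b h => hb (hrr (a3 _ _ h.2.2)))
    (fun θ z hz h => by
      have : r / 2 ≤ dist (e z) (e y) := by
        by_contra h'
        exact h ⟨e z, (not_le.1 h').le, e.left_inv hz.1⟩
      simp only [a2 (θ, e z) this, zero_smul, add_zero, e.left_inv hz.1])
  have key : ∀ θ z (n : ℤ), s ^ n • z ∈ e.source ∩ e ⁻¹' ball (e y) r →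
      f (H (θ, z)) ≤ f z - c * a (θ, e (s ^ n • z)) := by
    intro θ z n hn
    have := hm _ (hrr hn.2) _ (a0 _) (hrr (a3 θ _ hn.2))
    rw [e.left_inv hn.1, hfn] at this
    rwa [H3 θ z n hn, hfn]
  refine ⟨e.source ∩ e ⁻¹' ball (e y) (r / 4), e.symm '' closedBall (e y) (r / 8), c * δ, H, hop _,
    hcp _ (by linarith), ?_, hsub _ _ (by linarith) (by linarith), mul_pos hc hδ, H1, fun z => ?_,
    H2, fun θ _ z => ?_, fun θ hθ z hz => ?_⟩
  · refine mem_interior.2 ⟨_, ?_, hop (r / 8), hy, mem_ball_self (by linarith)⟩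
    exact fun z hz => ⟨e z, ball_subset_closedBall hz.2, e.left_inv hz.1⟩
  · by_cases h : ∃ n : ℤ, s ^ n • z ∈ e.source ∩ e ⁻¹' ball (e y) r
    · obtain ⟨n, hn⟩ := h
      have : a (0, e (s ^ n • z)) = 0 := by simp [a]
      rw [H3 0 z n hn]
      simp only [this, zero_smul, add_zero, e.left_inv hn.1]
      rw [smul_smul, ← zpow_add, neg_add_cancel, zpow_zero, one_smul]
    · exact H4 0 z fun n hn => h ⟨n, hn⟩
  · by_cases h : ∃ n : ℤ, s ^ n • z ∈ e.source ∩ e ⁻¹' ball (e y) r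
    · obtain ⟨n, hn⟩ := h
      exact (key θ z n hn).trans (sub_le_self _ (mul_nonneg hc.le (a0 _)))
    · rw [H4 θ z fun n hn => h ⟨n, hn⟩]
  · have h := key θ z 0 (by
      rw [zpow_zero, one_smul]
      exact ⟨hz.1, ball_subset_ball (by linarith) hz.2⟩)
    have h' : dist (e z) (e y) < r / 4 := hz.2
    have : a (θ, e z) = θ * δ := by
      simp only [a]
      rw [min_eq_left hθ.2, max_eq_right hθ.1, min_eq_left (by linarith), max_eq_right hδ.le]
    rw [zpow_zero, one_smul, this] at h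
    linarith

end Pool.Agent.MP_bc14e1_gt
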