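import Pool.Agent.MP_bc14e1_gt.IfC

open Set Metric
open scoped Classical

namespace Pool.Agent.MP_bc14e1_gt

section

open LaurentPolynomial

variable {R : Type} [CommRing R]

/-- Evaluation at one. -/
noncomputable def Rank1_ev (R : Type) [CommRing R] : Lam R →ₐ[R] R :=
  AddMonoidAlgebra.lift R R ℤ 1

theorem Rank1_ev_T (n : ℤ) : Rank1_ev R (T n) = 1 := by
  rw [Rank1_ev, LaurentPolynomial.T, AddMonoidAlgebra.lift_single, one_smul]; rfl

theorem Rank1_ev_C (a : R) : Rank1_ev R (C a) = a := by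
  rw [LaurentPolynomial.C_eq_algebraMap, AlgHom.commutes]; rfl

theorem Rank1_dvd_T (n : ℤ) : (T 1 - 1 : Lam R) ∣ T n - 1 := by
  induction n using Int.induction_on with
  | zero => simp
  | succ n ih =>
    have : (T (n + 1) - 1 : Lam R) = T 1 * (T n - 1) + (T 1 - 1) := by
      rw [T_add]; ring
    rw [this]
    exact dvd_add (ih.mul_left _) dvd_rfl
  | pred n ih =>
    have e : (T (-(n : ℤ)) : Lam R) = T (-(n : ℤ) - 1) * T 1 := by
      rw [← T_add]; congr 1; ring
    have : (T (-(n : ℤ) - 1) - 1 : Lam R) = (T (-(n : ℤ)) - 1) - T (-(n : ℤ) - 1) * (T 1 - 1) := by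
      rw [e]; ring
    rw [this]
    exact dvd_sub ih (dvd_mul_left _ _)

theorem Rank1_dvd_sub (a : Lam R) : (T 1 - 1 : Lam R) ∣ a - C (Rank1_ev R a) := by
  induction a using LaurentPolynomial.induction_on' with
  | add p q hp hq =>
    have : p + q - C (Rank1_ev R (p + q)) = (p - C (Rank1_ev R p)) + (q - C (Rank1_ev R q)) := by
      rw [map_add, map_add]; ring
    rw [this]
    exact dvd_add hp hq
  | C_mul_T n a =>
    rw [map_mul, Rank1_ev_T, Rank1_ev_C, mul_one, ← mul_sub_one]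
    exact (Rank1_dvd_T n).mul_left _

theorem Rank1_dvd_iff (a : Lam R) : (T 1 - 1 : Lam R) ∣ a ↔ Rank1_ev R a = 0 := by
  constructor
  · rintro ⟨b, rfl⟩
    rw [map_mul, map_sub, Rank1_ev_T, map_one, sub_self, zero_mul]
  · intro h
    have := Rank1_dvd_sub a
    rwa [h, map_zero, sub_zero] at this

theorem Rank1_prime [IsDomain R] : Prime (T 1 - 1 : Lam R) := by
  refine ⟨fun h => ?_, fun h => ?_, fun a b h => ?_⟩
  · have h1 : (T 1 : Lam R) = T 0 := by rw [T_zero]; exact sub_eq_zero.1 h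
    have h2 := congrArg LaurentPolynomial.degree h1
    rw [degree_T, degree_T] at h2
    exact absurd (WithBot.coe_injective h2) one_ne_zero
  · have := (Rank1_dvd_iff (1 : Lam R)).1 h.dvd
    rw [map_one] at this
    exact one_ne_zero this
  · rw [Rank1_dvd_iff, map_mul] at h
    rw [Rank1_dvd_iff, Rank1_dvd_iff]
    exact mul_eq_zero.1 h

variable {G Y : Type} [Group G] [TopologicalSpace Y] [MulAction G Y] [ContinuousConstSMul G Y]

variable (R Y) in
/-- The boundaries inside the cycles. -/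
noncomputable def Rank1_B (s : G) : Submodule (Lam R) (ZT R Y s 2) :=
  (twSub (s := s) (BC R univ 2) fun n _ h => by
    obtain ⟨b, hb, rfl⟩ := h
    exact ⟨gs R Y (s ^ n) b, ⟨mem_CH_univ _, gs_mem_DG _ hb.2⟩, dT_gs _ _⟩).comap
      (ZT R Y s 2).subtype

theorem Rank1_mem (s : G) (z : ZT R Y s 2) :
    z ∈ Rank1_B R Y s ↔ (toTw R Y s).symm z.1 ∈ BC R univ 2 := Iff.rfl

theorem Rank1_val (s : G) {m : ℕ} (a : Fin m → Lam R) (z : Fin m → ZT R Y s 2) :
    (toTw R Y s).symm (∑ i, a i • z i : ZT R Y s 2).1 =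
      ∑ i, act R Y s (a i) ((toTw R Y s).symm (z i).1) := by
  rw [Submodule.coe_sum, map_sum]
  rfl

theorem Rank1_fin (s : G) (h : FGI R s (univ : Set Y) univ 2) :
    Module.Finite (Lam R) (ZT R Y s 2 ⧸ Rank1_B R Y s) := by
  obtain ⟨m, z, hz, h⟩ := h
  let z' : Fin m → ZT R Y s 2 := fun i => ⟨toTw R Y s (z i), hz i⟩
  refine Module.Finite.of_surjective
    ((Rank1_B R Y s).mkQ ∘ₗ Fintype.linearCombination (Lam R) z') fun x => ?_
  obtain ⟨y, rfl⟩ := (Rank1_B R Y s).mkQ_surjective x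
  obtain ⟨a, ha⟩ := h ((toTw R Y s).symm y.1) y.2
  refine ⟨a, ?_⟩
  rw [LinearMap.comp_apply, Fintype.linearCombination_apply, eq_comm, Submodule.mkQ_apply,
    Submodule.mkQ_apply, Submodule.Quotient.eq, Rank1_mem, Submodule.coe_sub, map_sub, Rank1_val]
  exact ha

end

theorem rank1_stmt (B : Bas2) (hDrop : DropStmt) : Rank1Stmt := by
  intro X G Y _ _ _ _ _ _ _ _ F φ p t l n hP hD z hz
  have hcov := hP.tc.cov
  have hfg := B.fg (ZMod 2) X G Y F p t hP.tc univ univ isCompact_univ isOpen_univ subset_rfl 2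
  rw [preimage_univ] at hfg
  have := Rank1_fin t hfg
  have hfree : ∀ (k : ℤ) (y : Y), t ^ k • y = y → k = 0 := fun k y h =>
    hP.tc.inf k (hcov.free _ y h)
  obtain ⟨hl1, hl2⟩ := B.lift (ZMod 2) G X Y Fᶜ p hcov
  have hact : ∀ w, act (ZMod 2) Y t (LaurentPolynomial.T 1 - 1) w = gs (ZMod 2) Y t w - w := by
    intro w
    rw [map_sub, LinearMap.sub_apply, act_T, zpow_one, map_one, Module.End.one_apply]
  have key := hDrop (Lam (ZMod 2)) (ZT (ZMod 2) Y t 2 ⧸ Rank1_B (ZMod 2) Y t)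
    (LaurentPolynomial.T 1 - 1) n Rank1_prime (fun x => by
      choose y hy using fun i => (Rank1_B (ZMod 2) Y t).mkQ_surjective (x i)
      let u : Fin (n + 1) → Tot (ZMod 2) Y := fun i => (toTw (ZMod 2) Y t).symm (y i).1
      have hu : ∀ i, u i ∈ ZC (ZMod 2) univ 2 := fun i => (y i).2
      have hu0 : ∀ i, dT (ZMod 2) Y (u i) = 0 := fun i => (hu i).2
      obtain ⟨a, ha, b, hb, hab⟩ := hD (fun i => psh (ZMod 2) p (u i)) fun i =>
        ⟨⟨psh_mem_CH p (A := univ) (fun y _ => hcov.mem y) (mem_CH_univ _),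
          psh_mem_DG p (hu i).1.2⟩, by
          change dT (ZMod 2) X _ = 0
          rw [dT_psh_cont hcov.cont, hu0, map_zero]⟩
      obtain ⟨b', hb', rfl⟩ := hl1 3 b hb
      obtain ⟨w, hw, hc⟩ := hl2 t hP.gen 2 (∑ i, a i • u i - dT (ZMod 2) Y b')
        (sub_mem (Submodule.sum_mem _ fun i _ => Submodule.smul_mem _ _ (hu i).1.2)
          (dT_mem_DG hb')) (by
          rw [map_sub, ← dT_psh_cont hcov.cont, hab, map_sum]
          simp only [map_smul, sub_self])
      have hw0 : dT (ZMod 2) Y w = 0 := by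
        refine (B.tf (ZMod 2) G Y t hfree _ (Rank1_prime (R := ZMod 2)).ne_zero _).1 ?_
        rw [← dT_act, hact, ← hc, map_sub, dT_dT, map_sum]
        simp only [map_smul, hu0, smul_zero, Finset.sum_const_zero, sub_self]
      refine ⟨fun i => LaurentPolynomial.C (a i), ?_,
        (Rank1_B (ZMod 2) Y t).mkQ ⟨toTw (ZMod 2) Y t w, ⟨mem_CH_univ _, hw⟩, hw0⟩, ?_⟩
      · obtain ⟨i, hi⟩ := Function.ne_iff.1 ha
        exact ⟨i, fun h => hi (by rwa [Rank1_dvd_iff, Rank1_ev_C] at h)⟩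
      · simp only [← hy, ← map_smul, ← map_sum]
        rw [Submodule.mkQ_apply, Submodule.mkQ_apply, Submodule.Quotient.eq, Rank1_mem,
          Submodule.coe_sub, map_sub, Rank1_val]
        simp only [act_C]
        refine ⟨b', ⟨mem_CH_univ _, hb'⟩, ?_⟩
        change _ = ∑ i, a i • u i - act (ZMod 2) Y t (LaurentPolynomial.T 1 - 1) w
        rw [hact, ← hc, sub_sub_cancel])
    fun i => (Rank1_B (ZMod 2) Y t).mkQ ⟨toTw (ZMod 2) Y t (z i), (hz i).1⟩
  obtain ⟨a, ha, h⟩ := key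
  simp only [← map_smul, ← map_sum] at h
  rw [Submodule.mkQ_apply, Submodule.Quotient.mk_eq_zero, Rank1_mem, Rank1_val] at h
  obtain ⟨b, hb, h⟩ := h
  exact ⟨a, ha, b, hb.2, fun g hg => absurd hg (notMem_empty g), h.symm⟩

end Pool.Agent.MP_bc14e1_gt
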