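import Pool.Agent.MP_bc14e1_gt.IfC

open Set Metric
open scoped Classical

namespace Pool.Agent.MP_bc14e1_gt

/-- Reduction of Laurent polynomials modulo two. -/
noncomputable def Rank2a_red : Lam ℤ →+* Lam (ZMod 2) :=
  AddMonoidAlgebra.mapRingHom ℤ (Int.castRingHom (ZMod 2))

theorem Rank2a_dvd (a : Lam ℤ) : (2 : Lam ℤ) ∣ a ↔ Rank2a_red a = 0 := by
  constructor
  · rintro ⟨b, rfl⟩
    have h : (2 : Lam (ZMod 2)) = 0 := by
      rw [← map_ofNat (LaurentPolynomial.C (R := ZMod 2)) 2]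
      exact (congrArg LaurentPolynomial.C (by decide)).trans (map_zero _)
    rw [map_mul, map_ofNat, h, zero_mul]
  · intro h
    refine ⟨AddMonoidAlgebra.ofCoeff (a.coeff.mapRange (· / 2) (by simp)), ?_⟩
    rw [two_mul]
    ext m
    have h1 : ((a.coeff m : ℤ) : ZMod 2) = 0 := by
      have := congrArg (fun x : Lam (ZMod 2) => x.coeff m) h
      simpa [Rank2a_red] using this
    have h2 := (ZMod.intCast_zmod_eq_zero_iff_dvd _ 2).1 h1
    simp only [AddMonoidAlgebra.coeff_add, Finsupp.add_apply, Finsupp.mapRange_apply]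
    omega

theorem Rank2a_prime : Prime (2 : Lam ℤ) := by
  refine ⟨?_, fun h => ?_, fun a b h => ?_⟩
  · rw [← map_ofNat (algebraMap ℤ (Lam ℤ)) 2]
    exact fun h => by
      have := congrArg (fun x : Lam ℤ => x.coeff 0) h
      simp at this
  · have := (Rank2a_dvd 1).1 h.dvd
    rw [map_one] at this
    exact one_ne_zero this
  · rw [Rank2a_dvd, map_mul, mul_eq_zero] at h
    rwa [Rank2a_dvd, Rank2a_dvd]

theorem Rank2a_surj (a : Lam (ZMod 2)) : ∃ b, Rank2a_red b = a := by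
  refine ⟨AddMonoidAlgebra.ofCoeff (a.coeff.mapRange (ZMod.cast : ZMod 2 → ℤ) (by simp)), ?_⟩
  ext m
  simp [Rank2a_red]

section

variable {G Y : Type} [Group G] [TopologicalSpace Y] [MulAction G Y] [ContinuousConstSMul G Y]

theorem Rank2a_cast_act (s : G) (a : Lam ℤ) (c : Tot ℤ Y) :
    castZ (ZMod 2) Y (act ℤ Y s a c) =
      act (ZMod 2) Y s (Rank2a_red a) (castZ (ZMod 2) Y c) := by
  induction a using LaurentPolynomial.induction_on' with
  | add p q hp hq => simp only [map_add, LinearMap.add_apply, hp, hq]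
  | C_mul_T n a =>
    have h : Rank2a_red (LaurentPolynomial.C a * LaurentPolynomial.T n) =
        LaurentPolynomial.C (a : ZMod 2) * LaurentPolynomial.T n := by
      rw [← LaurentPolynomial.single_eq_C_mul_T, ← LaurentPolynomial.single_eq_C_mul_T]
      exact AddMonoidAlgebra.mapRingHom_single _ _ _
    rw [h, map_mul, map_mul, Module.End.mul_apply, Module.End.mul_apply, act_C, act_C, act_T,
      act_T, map_smulₛₗ, gs, gs, cast_psh]
    rfl

theorem Rank2a_gs_apply (g : G) : ∃ π : TS Y → TS Y, ∀ (R : Type) [CommRing R] (c : Tot R Y)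
    (τ : TS Y), gs R Y g c τ = c (π τ) := by
  let m : G → TS Y → TS Y := fun g σ =>
    ⟨σ.1, ⟨(fun y : Y => g • y) ∘ σ.2, (continuous_const_smul g).comp σ.2.continuous⟩⟩
  have hm : ∀ g σ, m g⁻¹ (m g σ) = σ := by
    rintro g ⟨k, σ⟩
    refine congrArg (Sigma.mk k) ?_
    ext t
    exact inv_smul_smul g (σ t)
  refine ⟨m g⁻¹, fun R _ c τ => ?_⟩
  induction c using Finsupp.induction_linear with
  | zero => simp
  | add a b ha hb => simp only [map_add, Finsupp.add_apply, ha, hb]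
  | single σ a =>
    rw [gs, psh_single _ σ ((continuous_const_smul g).comp σ.2.continuous)]
    change Finsupp.single (m g σ) a τ = _
    have h : m g σ = τ ↔ σ = m g⁻¹ τ := by
      refine ⟨fun h => by rw [← h, hm], fun h => ?_⟩
      have := hm g⁻¹ τ
      rwa [inv_inv, ← h] at this
    simp only [Finsupp.single_apply, h]

theorem Rank2a_half (D : Tot ℤ Y) (h : castZ (ZMod 2) Y D = 0) :
    ∃ w : Tot ℤ Y, D = (2 : ℤ) • w := by
  refine ⟨D.mapRange (· / 2) (by simp), ?_⟩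
  ext σ
  have h1 : ((D σ : ℤ) : ZMod 2) = 0 := DFunLike.congr_fun h σ
  have h2 := (ZMod.intCast_zmod_eq_zero_iff_dvd _ 2).1 h1
  simp only [Finsupp.smul_apply, Finsupp.mapRange_apply, smul_eq_mul]
  omega

/-- Invariant cycles. -/
def Rank2a_inv (Y : Type) [TopologicalSpace Y] [MulAction G Y] (B : Set G) :
    Submodule ℤ (Tot ℤ Y) where
  carrier := {c | c ∈ ZC ℤ univ 2 ∧ ∀ g ∈ B, gs ℤ Y g c = c}
  add_mem' ha hb := ⟨add_mem ha.1 hb.1, fun g hg => by rw [map_add, ha.2 g hg, hb.2 g hg]⟩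
  zero_mem' := ⟨zero_mem _, fun g _ => map_zero _⟩
  smul_mem' r _ h := ⟨Submodule.smul_mem _ _ h.1, fun g hg => by rw [map_smul, h.2 g hg]⟩

omit [ContinuousConstSMul G Y] in
theorem Rank2a_of_two {B : Set G} {w : Tot ℤ Y} (h : (2 : ℤ) • w ∈ Rank2a_inv Y B) :
    w ∈ Rank2a_inv Y B := by
  have hi : Function.Injective fun x : Tot ℤ Y => (2 : ℤ) • x :=
    smul_right_injective _ two_ne_zero
  refine ⟨⟨⟨mem_CH_univ _, (Finsupp.mem_supported' ℤ _).2 fun σ hσ => ?_⟩, hi ?_⟩,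
    fun g hg => hi ?_⟩
  · simpa using (Finsupp.mem_supported' ℤ _).1 h.1.1.2 σ hσ
  · simpa using h.1.2
  · simpa using h.2 g hg

end

theorem rank2a_stmt (B : Bas1) (hDrop : DropStmt) : Rank2aStmt := by
  intro G Y _ _ _ _ s Γ n hs hfg hdep z hz
  have := B.laur.2.1 ℤ
  let Bd : Submodule (Lam ℤ) (Tw ℤ Y s) := twSub (BC ℤ univ 2) (by
    rintro m _ ⟨b, hb, rfl⟩
    exact ⟨gs ℤ Y _ b, ⟨mem_CH_univ _, gs_mem_DG _ hb.2⟩, dT_gs _ _⟩)
  let Iv : Submodule (Lam ℤ) (Tw ℤ Y s) := twSub (Rank2a_inv Y Γ) (by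
    intro m c hc
    refine ⟨⟨⟨mem_CH_univ _, gs_mem_DG _ hc.1.1.2⟩, ?_⟩, fun g hg => ?_⟩
    · change dT ℤ Y _ = 0
      rw [dT_gs, show dT ℤ Y c = 0 from hc.1.2, map_zero]
    · rw [← gs_mul, (Commute.zpow_right (hs g) m).eq, gs_mul, hc.2 g hg])
  have hsum : ∀ {k : ℕ} (a : Fin k → Lam ℤ) (c : Fin k → Tot ℤ Y),
      ∑ i, a i • toTw ℤ Y s (c i) = toTw ℤ Y s (∑ i, act ℤ Y s (a i) (c i)) := by
    intro k a c
    rw [map_sum]
    rfl
  have hfin : Module.Finite (Lam ℤ) (Iv.map Bd.mkQ) := by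
    obtain ⟨k, y, -, hy⟩ := hfg
    refine Module.Finite.iff_fg.2 (Submodule.FG.of_le (Submodule.fg_span
      (finite_range fun i => Bd.mkQ (toTw ℤ Y s (y i)))) ?_)
    rintro _ ⟨c, hc, rfl⟩
    obtain ⟨a, ha⟩ := hy c hc.1
    have h1 : Bd.mkQ c = Bd.mkQ (∑ i, a i • toTw ℤ Y s (y i)) := by
      rw [hsum]
      exact (Submodule.Quotient.eq Bd).2 ha
    rw [h1, map_sum]
    refine Submodule.sum_mem _ fun i _ => ?_
    rw [map_smul]
    exact Submodule.smul_mem _ _ (Submodule.subset_span ⟨i, rfl⟩)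
  obtain ⟨a, ha, h⟩ := hDrop (Lam ℤ) (Iv.map Bd.mkQ) 2 n Rank2a_prime (fun x => by
    have hx : ∀ i, ∃ c : Tot ℤ Y, c ∈ Rank2a_inv Y Γ ∧ Bd.mkQ (toTw ℤ Y s c) = x i :=
      fun i => (x i).2
    choose c hc hcx using hx
    obtain ⟨a', ha', b', hb', hb1, hb2⟩ := hdep (fun i => castZ (ZMod 2) Y (c i)) fun i =>
      ⟨⟨⟨mem_CH_univ _, cast_mem_DG _ (hc i).1.1.2⟩, by
        change dT (ZMod 2) Y _ = 0
        rw [← cast_dT, show dT ℤ Y (c i) = 0 from (hc i).1.2, map_zero]⟩,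
      fun g hg => by rw [gs, ← cast_psh, ← gs, (hc i).2 g hg]⟩
    choose a ha using fun i => Rank2a_surj (a' i)
    let b : Tot ℤ Y := b'.mapRange (ZMod.cast : ZMod 2 → ℤ) (by simp)
    have e1 : castZ (ZMod 2) Y b = b' := by
      ext σ
      simp [cast_apply, b]
    have e2 : b ∈ DG ℤ Y 3 := (Finsupp.mem_supported' ℤ _).2 fun σ hσ => by
      simp [b, (Finsupp.mem_supported' _ _).1 hb' σ hσ]
    have e3 : ∀ g ∈ Γ, gs ℤ Y g b = b := fun g hg => by
      obtain ⟨π, hπ⟩ := Rank2a_gs_apply (Y := Y) g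
      ext τ
      rw [hπ]
      simp only [b, Finsupp.mapRange_apply]
      rw [← hπ, hb1 g hg]
    obtain ⟨w, hw⟩ := Rank2a_half (∑ i, act ℤ Y s (a i) (c i) - dT ℤ Y b) (by
      rw [map_sub, map_sum, cast_dT, e1, ← hb2]
      simp only [Rank2a_cast_act, ha, sub_self])
    have e4 : w ∈ Rank2a_inv Y Γ := by
      refine Rank2a_of_two (hw ▸ sub_mem (Submodule.sum_mem _ fun i _ => ?_) ?_)
      · exact Iv.smul_mem (a i) (hc i)
      · exact ⟨⟨⟨mem_CH_univ _, dT_mem_DG e2⟩, dT_dT b⟩, fun g hg => by rw [← dT_gs, e3 g hg]⟩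
    refine ⟨a, ?_, ⟨Bd.mkQ (toTw ℤ Y s w), _, e4, rfl⟩, Subtype.ext ?_⟩
    · by_contra h
      push Not at h
      exact ha' (funext fun i => (ha i).symm.trans ((Rank2a_dvd _).1 (h i)))
    · rw [Submodule.coe_sum]
      simp only [Submodule.coe_smul, ← hcx, ← map_smul]
      rw [← map_sum, hsum, two_smul, ← map_add, ← two_zsmul, ← hw]
      refine (Submodule.Quotient.eq Bd).2 ?_
      rw [← map_sub, sub_sub_cancel]
      exact ⟨b, ⟨mem_CH_univ _, e2⟩, rfl⟩)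
    fun i => ⟨Bd.mkQ (toTw ℤ Y s (z i)), _, hz i, rfl⟩
  refine ⟨a, ha, ?_⟩
  have h1 := congrArg Subtype.val h
  rw [Submodule.coe_sum] at h1
  simp only [Submodule.coe_smul, ← map_smul] at h1
  rw [← map_sum, hsum] at h1
  exact (Submodule.Quotient.mk_eq_zero Bd).1 h1

end Pool.Agent.MP_bc14e1_gt
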