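import Pool.Agent.MP_bc14e1_gt.IfC

open Set Metric
open scoped Classical

namespace Pool.Agent.MP_bc14e1_gt

section
variable {R : Type} [CommRing R]

/-- substitution of `T ^ m` for `T` -/
noncomputable def Rank3_f (R : Type) [CommRing R] (m : ℕ) : Lam R →+* Lam R :=
  AddMonoidAlgebra.mapDomainRingHom R (AddMonoidHom.mulLeft (m : ℤ))

theorem Rank3_f_CT (m : ℕ) (a : R) (n : ℤ) :
    Rank3_f R m (LaurentPolynomial.C a * LaurentPolynomial.T n) =
      LaurentPolynomial.C a * LaurentPolynomial.T (m * n) := by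
  rw [← LaurentPolynomial.single_eq_C_mul_T, ← LaurentPolynomial.single_eq_C_mul_T]
  exact AddMonoidAlgebra.mapDomain_single

theorem Rank3_f_inj {m : ℕ} (hm : 0 < m) : Function.Injective (Rank3_f R m) :=
  AddMonoidAlgebra.mapDomain_injective (mul_right_injective₀ (by exact_mod_cast hm.ne'))

theorem Rank3_span {m : ℕ} (hm : 0 < m) (x : Lam R) : ∃ a : Fin m → Lam R,
    x = ∑ i, Rank3_f R m (a i) * LaurentPolynomial.T (i.1 : ℤ) := by
  induction x using LaurentPolynomial.induction_on' with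
  | add p q hp hq =>
    obtain ⟨a, rfl⟩ := hp
    obtain ⟨b, rfl⟩ := hq
    exact ⟨a + b, by simp only [Pi.add_apply, map_add, add_mul, Finset.sum_add_distrib]⟩
  | C_mul_T n a =>
    have h0 : (0 : ℤ) < m := by exact_mod_cast hm
    have h1 := Int.emod_nonneg n h0.ne'
    have h2 := Int.emod_lt_of_pos n h0
    refine ⟨Pi.single ⟨(n % m).toNat, by omega⟩
      (LaurentPolynomial.C a * LaurentPolynomial.T (n / m)), ?_⟩
    rw [Finset.sum_eq_single ⟨(n % m).toNat, by omega⟩
      (fun i _ hi => by rw [Pi.single_eq_of_ne hi, map_zero, zero_mul]) (by simp),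
      Pi.single_eq_same, Rank3_f_CT, mul_assoc, ← LaurentPolynomial.T_add,
      Int.toNat_of_nonneg h1, Int.mul_ediv_add_emod]

variable {G Y : Type} [Group G] [TopologicalSpace Y] [MulAction G Y] [ContinuousConstSMul G Y]

theorem Rank3_act (t : G) (m : ℕ) (a : Lam R) :
    act R Y t (Rank3_f R m a) = act R Y (t ^ m) a := by
  induction a using LaurentPolynomial.induction_on' with
  | add p q hp hq => simp only [map_add, hp, hq]
  | C_mul_T n a =>
    refine LinearMap.ext fun c => ?_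
    rw [Rank3_f_CT, map_mul, map_mul, Module.End.mul_apply, Module.End.mul_apply, act_C, act_C,
      act_T, act_T, zpow_mul, zpow_natCast]

theorem Rank3_pow [IsDomain R] (hRk : RkAlgStmt) {t : G} {m n : ℕ} (hm : 0 < m)
    (h : Dep R Y t ∅ n) : Dep R Y (t ^ m) ∅ (m * n) := by
  let Z : Submodule (Lam R) (Tw R Y t) := twSub (ZC R univ 2) fun k c hc =>
    ⟨⟨mem_CH_univ _, gs_mem_DG _ hc.1.2⟩, by
      rw [SetLike.mem_coe, LinearMap.mem_ker, dT_gs, LinearMap.mem_ker.1 hc.2, map_zero]⟩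
  let B : Submodule (Lam R) (Tw R Y t) := twSub ((DG R Y 3).map (dT R Y)) (by
    rintro k _ ⟨b, hb, rfl⟩
    exact ⟨_, gs_mem_DG _ hb, dT_gs _ _⟩)
  have key : ∀ {k : ℕ} (a : Fin k → Lam R) (z : Fin k → Z),
      ∑ i, a i • (B.comap Z.subtype).mkQ (z i) = 0 ↔
        ∃ b ∈ DG R Y 3, dT R Y b = ∑ i, act R Y t (a i) (z i).1 := fun a z => by
    simp only [← map_smul, ← map_sum]
    rw [Submodule.mkQ_apply, Submodule.Quotient.mk_eq_zero, Submodule.mem_comap, map_sum]
    exact Iff.rfl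
  intro z hz
  obtain ⟨a, h1, h2⟩ := hRk.1 (Lam R) (Lam R) (Z ⧸ B.comap Z.subtype) (Rank3_f R m) m n
    (fun i => LaurentPolynomial.T (i.1 : ℤ)) (Rank3_f_inj hm) (Rank3_span hm) (fun w => by
      choose y hy using fun i => (B.comap Z.subtype).mkQ_surjective (w i)
      obtain ⟨a, h1, b, h2, -, h3⟩ := h (fun i => (y i).1) fun i => ⟨(y i).2, by simp⟩
      exact ⟨a, h1, by simpa only [hy] using (key a y).2 ⟨b, h2, h3.symm⟩⟩)
    fun i => (B.comap Z.subtype).mkQ ⟨z i, (hz i).1⟩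
  obtain ⟨b, h3, h4⟩ := (key _ _).1 h2
  exact ⟨a, h1, b, h3, by simp, by simpa only [Rank3_act] using h4.symm⟩

theorem Rank3_tr (hT : TrStmt) {G' Y' : Type} [Group G'] [TopologicalSpace Y'] [MulAction G' Y']
    [ContinuousConstSMul G' Y'] {H : Subgroup G'} [Finite H] {q : Y' → Y} (hq : GCov H univ q)
    {s : G} {s' : G'} (h1 : ∀ y, q (s' • y) = s • q y) (h2 : ∀ g, g * s' = s' * g) {n : ℕ}
    (h : Dep R Y s ∅ n) : Dep R Y' s' H n := by
  obtain ⟨tr, a1, -, a2, a3, a4, a5⟩ := hT R H Y Y' q hq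
  have e : ∀ c, tr (gs R Y s c) = gs R Y' s' (tr c) := fun c =>
    (a5 (fun y => s • y) (Homeomorph.smul s') (continuous_const_smul s) h1
      (fun g => ⟨g, fun y => by
        change s' • g.1 • y = g.1 • s' • y
        rw [← mul_smul, ← mul_smul, h2]⟩) c).symm
  intro z hz
  choose c hc using fun i => (a4 (z i)).1 fun g => (hz i).2 g.1 g.2
  obtain ⟨a, b1, b, b2, -, b3⟩ := h c fun i => ⟨⟨⟨mem_CH_univ _,
    (a3 2 _).1 (hc i ▸ (hz i).1.1.2)⟩, a1 (by
      rw [← a2, hc, map_zero]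
      exact (hz i).1.2)⟩, by simp⟩
  refine ⟨a, b1, tr b, (a3 3 _).2 b2, fun g hg => (a4 _).2 ⟨b, rfl⟩ ⟨g, hg⟩, ?_⟩
  rw [a2, ← b3, map_sum]
  simp only [map_act tr e, hc]

end

theorem Rank3_up {A : Type} [AddCommGroup A] [Finite A] {r : ℕ} (hA : Nat.card A = 2 ^ r)
    {B : AddSubgroup A} (hB : B ≠ ⊤) : ∃ B₁, B ≤ B₁ ∧ B.relIndex B₁ = 2 := by
  obtain ⟨k, -, hk⟩ := (Nat.dvd_prime_pow Nat.prime_two).1 (hA ▸ B.index_dvd_card)
  have h0 : k ≠ 0 := fun e => hB (AddSubgroup.index_eq_one.1 (by rw [hk, e, pow_zero]))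
  obtain ⟨x, hx⟩ := exists_prime_addOrderOf_dvd_card' (G := A ⧸ B) 2
    (by rw [← AddSubgroup.index, hk]; exact dvd_pow_self 2 h0)
  refine ⟨(AddSubgroup.zmultiples x).comap (QuotientAddGroup.mk' B), fun a ha => ?_, ?_⟩
  · rw [AddSubgroup.mem_comap, QuotientAddGroup.mk'_apply, (QuotientAddGroup.eq_zero_iff a).2 ha]
    exact zero_mem _
  · have := AddSubgroup.relIndex_comap ⊥ (QuotientAddGroup.mk' B)
      ((AddSubgroup.zmultiples x).comap (QuotientAddGroup.mk' B))
    rwa [AddMonoidHom.comap_bot, QuotientAddGroup.ker_mk',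
      AddSubgroup.map_comap_eq_self_of_surjective (QuotientAddGroup.mk'_surjective B),
      AddSubgroup.relIndex_bot_left, Nat.card_zmultiples, hx] at this

theorem rank3_stmt (B : Bas1) (hRkAlg : RkAlgStmt) (hRankD : RankDStmt) : Rank3Stmt := by
  intro X G Y A G' Y' _ _ _ _ _ _ _ _ _ _ _ F p t τ m α q j t' l' n r hP hm hA hD
  have hfin : Finite j.range := Finite.of_surjective _ j.rangeRestrict_surjective
  have h1 : ∀ (k : ℕ) y, q (t' ^ k • y) = t ^ k • q y := fun k => by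
    induction k with
    | zero => simp
    | succ k ih => intro y; rw [pow_succ, pow_succ, mul_smul, mul_smul, ih, hP.qt]
  have h2 := Rank3_tr B.tr hP.cov (h1 m) hP.tc.cen (Rank3_pow hRkAlg hm hD)
  have key : ∀ k, ∀ C : AddSubgroup A, C.index = k →
      Dep (ZMod 2) Y' (t' ^ m) (C.toSubgroup.map j : Subgroup G') (k * (m * n)) := by
    intro k
    induction k using Nat.strong_induction_on with
    | _ k ih =>
      intro C hC
      by_cases h : C = ⊤
      · subst h
        rw [← hC, AddSubgroup.index_top, one_mul]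
        have : (⊤ : AddSubgroup A).toSubgroup.map j = j.range := (MonoidHom.range_eq_map j).symm
        rwa [this]
      · obtain ⟨C₁, h3, h4⟩ := Rank3_up hA h
        have h5 := AddSubgroup.relIndex_mul_index h3
        have h6 : C₁.index ≠ 0 := AddSubgroup.index_ne_zero_of_finite
        rw [h4, hC] at h5
        rw [← h5, mul_assoc]
        exact hRankD G' Y' _ _ (C₁.toSubgroup.map j) _ hP.tc.cen hP.tc.cov.free
          (Subgroup.map_mono fun _ ha => h3 ha)
          (by rw [Subgroup.relIndex_map_map_of_injective _ _ hP.jinj,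
            AddSubgroup.relIndex_toSubgroup, h4]) (ih _ (by omega) C₁ rfl)
  exact fun C => key _ C rfl

end Pool.Agent.MP_bc14e1_gt
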