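import Pool.Agent.MP_bc14e1_gt.IfC

open Set Metric
open scoped Classical

namespace Pool.Agent.MP_bc14e1_gt

theorem RankD_alg (hR : RkAlgStmt) {Λ M : Type} [CommRing Λ] [IsDomain Λ] [AddCommGroup M]
    [Module Λ M] (Z Z' D D' : Submodule Λ M) (N : M →ₗ[Λ] M) (n : ℕ) (h1 : Z ≤ Z') (h2 : D ≤ D')
    (h3 : ∀ z ∈ Z', N z ∈ Z) (h4 : ∀ z ∈ D', N z ∈ D)
    (h5 : ∀ z ∈ Z', N z ∈ D → ∃ w ∈ Z, z - w ∈ D')
    (h : ∀ z : Fin (n + 1) → M, (∀ i, z i ∈ Z) → ∃ a : Fin (n + 1) → Λ, a ≠ 0 ∧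
      ∑ i, a i • z i ∈ D)
    (z : Fin (2 * n + 1) → M) (hz : ∀ i, z i ∈ Z') :
    ∃ a : Fin (2 * n + 1) → Λ, a ≠ 0 ∧ ∑ i, a i • z i ∈ D' := by
  have k : ∀ y : Fin (n + 1) → Z ⧸ D.comap Z.subtype, ∃ a : Fin (n + 1) → Λ, a ≠ 0 ∧
      ∑ i, a i • y i = 0 := fun y => by
    choose x hx using fun i => (D.comap Z.subtype).mkQ_surjective (y i)
    obtain ⟨a, ha, e⟩ := h (fun i => x i) fun i => (x i).2
    refine ⟨a, ha, ?_⟩
    simp only [← hx, ← map_smul, ← map_sum]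
    refine (Submodule.Quotient.mk_eq_zero _).2 ?_
    simpa using e
  obtain ⟨a, ha, e⟩ := hR.2.1 Λ _ _ _
    ((D.comap Z.subtype).mapQ (D'.comap Z'.subtype) (Submodule.inclusion h1) fun x hx => h2 hx)
    ((D'.comap Z'.subtype).mapQ (D.comap Z.subtype) (N.restrict h3) fun x hx => h4 x hx) n
    (fun y hy => by
      obtain ⟨x, rfl⟩ := (D'.comap Z'.subtype).mkQ_surjective y
      obtain ⟨w, hw, e⟩ := h5 x x.2 ((Submodule.Quotient.mk_eq_zero (D.comap Z.subtype)).1 hy)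
      exact ⟨Submodule.Quotient.mk ⟨w, hw⟩, ((Submodule.Quotient.eq (D'.comap Z'.subtype)).2 e).symm⟩) k k
    fun i => (D'.comap Z'.subtype).mkQ ⟨z i, hz i⟩
  refine ⟨a, ha, ?_⟩
  simp only [← map_smul, ← map_sum] at e
  simpa using (Submodule.Quotient.mk_eq_zero _).1 e

section

variable {R : Type} [CommRing R] {G Y : Type} [Group G] [TopologicalSpace Y] [MulAction G Y]
  [ContinuousConstSMul G Y]

theorem RankD_flt (g : G) {S T : Set Y} (h : ∀ y, g • y ∈ S ↔ y ∈ T) (c : Tot R Y) :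
    flt R (fun σ => σ.2 stdSimplex.barycenter ∈ S) (gs R Y g c) =
      gs R Y g (flt R (fun σ => σ.2 stdSimplex.barycenter ∈ T) c) := by
  induction c using Finsupp.induction_linear with
  | zero => simp
  | add a b ha hb => simp [ha, hb]
  | single σ a =>
    have h0 : Continuous ((fun y : Y => g • y) ∘ σ.2) :=
      (continuous_const_smul g).comp σ.2.continuous
    rw [gs, psh_single _ σ h0, flt_single, flt_single]
    by_cases h' : σ.2 stdSimplex.barycenter ∈ T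
    · rw [if_pos h', psh_single _ σ h0]; exact if_pos ((h _).2 h')
    · rw [if_neg h', map_zero]; exact if_neg fun h'' => h' ((h _).1 h'')

omit [TopologicalSpace Y] [ContinuousConstSMul G Y] in
theorem RankD_set (hf : ∀ (g : G) (y : Y), g • y = y → g = 1) {B' B : Subgroup G}
    (key : ∀ a ∈ B, ∀ b ∈ B, a * b ∈ B' ↔ (a ∈ B' ↔ b ∈ B')) :
    ∃ S : Set Y, ∀ g ∈ B, ∀ y, g • y ∈ S ↔ (g ∈ B' ↔ y ∈ S) := by
  let r : Y → Y := fun y => (Quotient.mk (MulAction.orbitRel B Y) y).out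
  have r1 : ∀ y, ∃ h ∈ B, h • r y = y := fun y => by
    obtain ⟨h, e⟩ := (MulAction.orbitRel B Y).symm (Quotient.mk_out (s := MulAction.orbitRel B Y) y)
    exact ⟨h, h.2, e⟩
  have r2 : ∀ g ∈ B, ∀ y, r (g • y) = r y := fun g hg y =>
    congrArg Quotient.out (Quotient.sound ⟨⟨g, hg⟩, rfl⟩)
  have r3 : ∀ y, ∀ h : G, h • r y = y → ((∃ k ∈ B', k • r y = y) ↔ h ∈ B') := fun y h e => by
    refine ⟨fun ⟨k, hk, e'⟩ => ?_, fun hh => ⟨h, hh, e⟩⟩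
    have := hf (k⁻¹ * h) (r y) (by rw [mul_smul, e, inv_smul_eq_iff, e'])
    rwa [← inv_mul_eq_one.1 this]
  refine ⟨{y | ∃ k ∈ B', k • r y = y}, fun g hg y => ?_⟩
  obtain ⟨h, hh, e⟩ := r1 y
  exact (r3 (g • y) (g * h) (by rw [r2 g hg, mul_smul, e])).trans
    ((key g hg h hh).trans (iff_congr Iff.rfl (r3 y h e).symm))

variable (R Y) in
/-- Invariant chains. -/
def RankD_I (B : Subgroup G) : Submodule R (Tot R Y) where
  carrier := {c | ∀ g ∈ B, gs R Y g c = c}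
  add_mem' := fun ha hb g hg => by rw [map_add, ha g hg, hb g hg]
  zero_mem' := fun g _ => map_zero _
  smul_mem' := fun a c hc g hg => by rw [map_smul, hc g hg]

theorem RankD_gs_I {t : G} (ht : ∀ g, Commute g t) {B : Subgroup G} {c : Tot R Y}
    (hc : c ∈ RankD_I R Y B) : gs R Y t c ∈ RankD_I R Y B := fun g hg => by
  rw [← gs_mul, ht g, gs_mul, hc g hg]

theorem RankD_gs_Z (t : G) {c : Tot R Y} (hc : c ∈ ZC R (univ : Set Y) 2) :
    gs R Y t c ∈ ZC R (univ : Set Y) 2 :=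
  ⟨⟨mem_CH_univ _, gs_mem_DG t hc.1.2⟩, by
    have : dT R Y c = 0 := hc.2
    show dT R Y _ = 0
    rw [dT_gs, this, map_zero]⟩

variable (R Y) in
/-- Invariant cycles. -/
noncomputable def RankD_Z {s : G} (hs : ∀ g, g * s = s * g) (B : Subgroup G) :
    Submodule (Lam R) (Tw R Y s) :=
  twSub (ZC R univ 2 ⊓ RankD_I R Y B) fun n _ hc =>
    ⟨RankD_gs_Z _ hc.1, RankD_gs_I (fun g => Commute.zpow_right (hs g) n) hc.2⟩

variable (R Y) in
/-- Boundaries of invariant chains. -/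
noncomputable def RankD_D {s : G} (hs : ∀ g, g * s = s * g) (B : Subgroup G) :
    Submodule (Lam R) (Tw R Y s) :=
  twSub ((DG R Y 3 ⊓ RankD_I R Y B).map (dT R Y)) (by
    rintro n _ ⟨c, hc, rfl⟩
    exact ⟨_, ⟨gs_mem_DG _ hc.1, RankD_gs_I (fun g => Commute.zpow_right (hs g) n) hc.2⟩,
      dT_gs _ c⟩)

end

theorem rankD_stmt (B : Bas1) (hRkAlg : RkAlgStmt) : RankDStmt := by
  intro G Y _ _ _ _ s B' B n hs hf hle hi h z hz
  have key : ∀ a ∈ B, ∀ b ∈ B, a * b ∈ B' ↔ (a ∈ B' ↔ b ∈ B') := fun a ha b hb =>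
    Subgroup.mul_mem_iff_of_index_two (H := B'.subgroupOf B) hi (a := ⟨a, ha⟩) (b := ⟨b, hb⟩)
  obtain ⟨t, ht, ht'⟩ : ∃ t ∈ B, t ∉ B' := SetLike.not_le_iff_exists.1 fun e => by
    rw [Subgroup.relIndex_eq_one.2 e] at hi
    exact absurd hi (by norm_num)
  obtain ⟨S, hS⟩ := RankD_set hf key
  have k1 : ∀ c ∈ RankD_I (ZMod 2) Y B', ∀ g ∈ B, g ∉ B' →
      gs (ZMod 2) Y g c = gs (ZMod 2) Y t c := fun c hc g hg hg' => by
    rw [← mul_inv_cancel_left t g, gs_mul, hc _ ((key _ (B.inv_mem ht) g hg).2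
      (iff_of_false (fun e => ht' (B'.inv_mem_iff.1 e)) hg'))]
  have k2 : ∀ c ∈ RankD_I (ZMod 2) Y B', c + gs (ZMod 2) Y t c ∈ RankD_I (ZMod 2) Y B :=
    fun c hc g hg => by
      rw [map_add, ← gs_mul]
      by_cases hg' : g ∈ B'
      · rw [hc g hg', k1 c hc _ (B.mul_mem hg ht) fun e => ht' (((key g hg t ht).1 e).1 hg')]
      · rw [k1 c hc g hg hg', hc _ ((key g hg t ht).2 (iff_of_false hg' ht')), add_comm]
  have k3 : ∀ c ∈ RankD_I (ZMod 2) Y B', c + gs (ZMod 2) Y t c = 0 →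
      c ∈ RankD_I (ZMod 2) Y B := fun c hc e g hg => by
    by_cases hg' : g ∈ B'
    · exact hc g hg'
    · rw [k1 c hc g hg hg', eq_neg_of_add_eq_zero_right e, ZModModule.neg_eq_self]
  have k4 : ∀ c ∈ DG (ZMod 2) Y 3 ⊓ RankD_I (ZMod 2) Y B,
      ∃ c' ∈ DG (ZMod 2) Y 3 ⊓ RankD_I (ZMod 2) Y B', c' + gs (ZMod 2) Y t c' = c :=
    fun c hc => by
      refine ⟨flt _ (fun σ => σ.2 stdSimplex.barycenter ∈ S) c,
        ⟨flt_mem_supported _ hc.1, fun g hg => ?_⟩, ?_⟩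
      · rw [← RankD_flt g (S := S) fun y => (hS g (hle hg) y).trans (iff_true_left hg),
          hc.2 g (hle hg)]
      · rw [← RankD_flt t (S := Sᶜ) fun y => (not_congr (hS t ht y)).trans (by tauto), hc.2 t ht]
        ext σ
        rw [Finsupp.add_apply, flt_apply, flt_apply]
        by_cases e : σ.2 stdSimplex.barycenter ∈ S <;> simp [e]
  obtain ⟨a, ha, b, hb, e⟩ := RankD_alg hRkAlg (RankD_Z (ZMod 2) Y hs B) (RankD_Z (ZMod 2) Y hs B')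
    (RankD_D (ZMod 2) Y hs B) (RankD_D (ZMod 2) Y hs B')
    (twMap (1 + gs (ZMod 2) Y t) fun c => by
      simp only [LinearMap.add_apply, Module.End.one_apply, map_add, ← gs_mul, hs t]) n
    (fun c hc => ⟨hc.1, fun g hg => hc.2 g (hle hg)⟩)
    (fun c ⟨b, hb, e⟩ => ⟨b, ⟨hb.1, fun g hg => hb.2 g (hle hg)⟩, e⟩)
    (fun c hc => ⟨add_mem hc.1 (RankD_gs_Z t hc.1), k2 c hc.2⟩)
    (by
      rintro _ ⟨b, hb, rfl⟩
      exact ⟨_, ⟨add_mem hb.1 (gs_mem_DG t hb.1), k2 b hb.2⟩,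
        (map_add _ _ _).trans (congrArg _ (dT_gs t b))⟩)
    (by
      rintro (c : Tot (ZMod 2) Y) hc ⟨b, hb, (e : _ = c + gs (ZMod 2) Y t c)⟩
      obtain ⟨b', hb', rfl⟩ := k4 b hb
      have i1 : dT (ZMod 2) Y b' ∈ ZC (ZMod 2) univ 2 ⊓ RankD_I (ZMod 2) Y B' :=
        ⟨⟨⟨mem_CH_univ _, dT_mem_DG hb'.1⟩, dT_dT b'⟩, fun g hg => by rw [← dT_gs, hb'.2 g hg]⟩
      have i2 : c - dT (ZMod 2) Y b' ∈ ZC (ZMod 2) univ 2 ⊓ RankD_I (ZMod 2) Y B' :=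
        sub_mem hc i1
      refine ⟨c - dT (ZMod 2) Y b', ⟨i2.1, k3 _ i2.2 ?_⟩, b', hb', (sub_sub_cancel c _).symm⟩
      rw [map_add, dT_gs] at e
      rw [map_sub, sub_add_sub_comm, e, sub_self])
    (fun z hz => by
      obtain ⟨a, ha, b, hb, hb', e⟩ := h z hz
      exact ⟨a, ha, b, ⟨hb, hb'⟩, e.symm⟩) z hz
  exact ⟨a, ha, b, hb.1, hb.2, e.symm⟩

end Pool.Agent.MP_bc14e1_gt
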