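import Pool.Agent.MP_bc14e1_gt.IfD

open Set Metric
open scoped Classical

namespace Pool.Agent.MP_bc14e1_gt

section Alg

variable {F : Type} [NormedAddCommGroup F] [InnerProductSpace ℝ F] [FiniteDimensional ℝ F]

theorem Refl_conj (C : F ≃ₗᵢ[ℝ] F) (a : F) :
    (ℝ ∙ C a)ᗮ.reflection = C * (ℝ ∙ a)ᗮ.reflection * C⁻¹ := by
  ext x
  have h : inner ℝ a (C.symm x) = inner ℝ (C a) x := by
    rw [← C.inner_map_map, C.apply_symm_apply]
  change _ = C ((ℝ ∙ a)ᗮ.reflection (C.symm x))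
  rw [Submodule.reflection_orthogonal_apply, Submodule.reflection_orthogonal_apply,
    Submodule.reflection_singleton_apply, Submodule.reflection_singleton_apply, map_neg, map_sub,
    map_nsmul, map_smul, C.apply_symm_apply, h, C.norm_map]

theorem Refl_smul (a : F) {t : ℝ} (ht : t ≠ 0) :
    (ℝ ∙ t • a)ᗮ.reflection = (ℝ ∙ a)ᗮ.reflection := by
  simp only [Submodule.span_singleton_smul_eq ht.isUnit]

theorem Refl_same (n : (F ≃ₗᵢ[ℝ] F) →* ℤ) {a b : F} (ha : a ≠ 0) (hb : b ≠ 0) :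
    n (ℝ ∙ b)ᗮ.reflection = n (ℝ ∙ a)ᗮ.reflection := by
  have h : ‖‖b‖ • a‖ = ‖‖a‖ • b‖ := by
    rw [norm_smul, norm_smul, norm_norm, norm_norm, mul_comm]
  have h1 := Refl_conj (ℝ ∙ (‖b‖ • a - ‖a‖ • b))ᗮ.reflection (‖b‖ • a)
  simp only [Submodule.reflection_sub h] at h1
  rw [Refl_smul b (norm_ne_zero_iff.2 ha), Refl_smul a (norm_ne_zero_iff.2 hb)] at h1
  rw [h1, map_mul, map_mul, mul_right_comm, ← map_mul, mul_inv_cancel, map_one, one_mul]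

theorem Refl_zero : (ℝ ∙ (0 : F))ᗮ.reflection = 1 := by
  ext x
  rw [Submodule.reflection_orthogonal_apply, Submodule.reflection_singleton_apply]
  simp

theorem Refl_det {a : F} (ha : a ≠ 0) :
    LinearMap.det ((ℝ ∙ a)ᗮ.reflection.toLinearEquiv : F →ₗ[ℝ] F) = -1 := by
  have h := Submodule.det_reflection (K := (ℝ ∙ a)ᗮ)
  rw [Submodule.orthogonal_orthogonal, finrank_span_singleton ha, pow_one] at h
  exact h

theorem Refl_hom (n : (F ≃ₗᵢ[ℝ] F) →* ℤ) {e : F} (he : e ≠ 0) (A : F ≃ₗᵢ[ℝ] F) :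
    (LinearMap.det (A.toLinearEquiv : F →ₗ[ℝ] F) = 1 ∧ n A = 1) ∨
      (LinearMap.det (A.toLinearEquiv : F →ₗ[ℝ] F) = -1 ∧ n A = n (ℝ ∙ e)ᗮ.reflection) := by
  obtain ⟨l, -, rfl⟩ := A.reflections_generate_dim
  induction l with
  | nil => exact Or.inl ⟨LinearMap.det_id, map_one n⟩
  | cons a l ih =>
    rw [List.map_cons, List.prod_cons]
    by_cases ha : a = 0
    · rwa [ha, Refl_zero, one_mul]
    generalize (l.map fun v => (ℝ ∙ v)ᗮ.reflection).prod = B at ih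
    have h : LinearMap.det (((ℝ ∙ a)ᗮ.reflection * B).toLinearEquiv : F →ₗ[ℝ] F) =
        -1 * LinearMap.det (B.toLinearEquiv : F →ₗ[ℝ] F) := by
      rw [← Refl_det ha, ← map_mul]
      rfl
    rw [h, map_mul, Refl_same n he ha]
    rcases ih with ⟨h1, h2⟩ | ⟨h1, h2⟩
    · exact Or.inr ⟨by rw [h1, mul_one], by rw [h2, mul_one]⟩
    · exact Or.inl ⟨by rw [h1]; norm_num, by
        rw [h2, ← map_mul, Submodule.reflection_mul_reflection, map_one]⟩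

end Alg

theorem refl_stmt (B : Bas1) : ReflStmt := by
  obtain ⟨o, ho, hd, h⟩ := B.locHom 4
  have hc : castZ ℤ (E 4) o = o := by
    ext σ
    rw [cast_apply]
    rfl
  let P : Tot ℤ (E 4) → ℤ → Prop := fun z r =>
    ∃ b, z - r • o - dT ℤ _ b ∈ CH ℤ ({0}ᶜ : Set (E 4))
  have h1 : ∀ z ∈ DG ℤ (E 4) 4, dT ℤ _ z ∈ CH ℤ ({0}ᶜ : Set (E 4)) → ∃! r, P z r :=
    fun z hz hz' => by
      have := (h ℤ 4 z hz hz').2 rfl
      rwa [hc] at this
  have h2 : ∀ (A : E 4 ≃ₗᵢ[ℝ] E 4) z, z ∈ CH ℤ ({0}ᶜ : Set (E 4)) →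
      psh ℤ A z ∈ CH ℤ ({0}ᶜ : Set (E 4)) := fun A z hz =>
    psh_mem_CH _ (A := {0}ᶜ) (B := {0}ᶜ) (fun w hw e => hw (A.map_eq_zero_iff.1 e)) hz
  have h3 : ∀ A : E 4 ≃ₗᵢ[ℝ] E 4, ∃! r, P (psh ℤ A o) r := fun A =>
    h1 _ (psh_mem_DG _ ho) (by rw [dT_psh_cont A.continuous]; exact h2 A _ hd)
  choose n hn hu using h3
  have h4 : ∀ (A : E 4 ≃ₗᵢ[ℝ] E 4) z r, P z r → P (psh ℤ A z) (n A * r) := by
    rintro A z r ⟨b, hb⟩
    obtain ⟨b', hb'⟩ := hn A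
    have h5 := h2 A _ hb
    rw [map_sub, map_sub, map_smul, ← dT_psh_cont A.continuous] at h5
    refine ⟨psh ℤ A b + r • b', ?_⟩
    have h6 : psh ℤ A z - (n A * r) • o - dT ℤ _ (psh ℤ A b + r • b') =
        psh ℤ A z - r • psh ℤ A o - dT ℤ _ (psh ℤ A b) +
          r • (psh ℤ A o - n A • o - dT ℤ _ b') := by
      rw [map_add, map_smul]
      module
    rw [h6]
    exact add_mem h5 (Submodule.smul_mem _ _ hb')
  let N : (E 4 ≃ₗᵢ[ℝ] E 4) →* ℤ :=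
    { toFun := n
      map_one' := (hu 1 1 ⟨0, by
        rw [show psh ℤ (1 : E 4 ≃ₗᵢ[ℝ] E 4) o = o from psh_id o]
        simp⟩).symm
      map_mul' := fun A A' => (hu (A * A') _ (by
        have h5 := h4 A _ _ (hn A')
        rw [psh_psh' _ A'.continuous] at h5
        exact h5)).symm }
  intro A A' hA z hz hz'
  have he : (EuclideanSpace.single 0 1 : E 4) ≠ 0 := by
    rw [← norm_ne_zero_iff]
    simp
  have h5 : n A = n A' := by
    rcases Refl_hom N he A with ⟨a1, a2⟩ | ⟨a1, a2⟩ <;>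
      rcases Refl_hom N he A' with ⟨b1, b2⟩ | ⟨b1, b2⟩
    · exact a2.trans b2.symm
    · rw [a1, b1] at hA; norm_num at hA
    · rw [a1, b1] at hA; norm_num at hA
    · exact a2.trans b2.symm
  obtain ⟨r, hr, -⟩ := h1 z hz hz'
  obtain ⟨b, hb⟩ := h4 A z r hr
  obtain ⟨b', hb'⟩ := h4 A' z r hr
  refine ⟨b - b', ?_⟩
  have h6 : psh ℤ A z - psh ℤ A' z - dT ℤ _ (b - b') =
      psh ℤ A z - (n A * r) • o - dT ℤ _ b - (psh ℤ A' z - (n A' * r) • o - dT ℤ _ b') := by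
    rw [map_sub, h5]
    abel
  rw [h6]
  exact sub_mem hb hb'

end Pool.Agent.MP_bc14e1_gt
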