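import Pool.Agent.MP_bc14e1_gt.IfL

open Set Metric
open scoped Classical

namespace Pool.Agent.MP_bc14e1_gt

section Aux

variable {C C' : Type} [AddCommGroup C] [Module (Lam ℂ) C] [AddCommGroup C'] [Module (Lam ℂ) C']
  {d : C →ₗ[Lam ℂ] C} {M : ℕ → Set ℝ → Submodule (Lam ℂ) C} {d' : C' →ₗ[Lam ℂ] C'}
  {i : C' →ₗ[Lam ℂ] C} {π : C →ₗ[Lam ℂ] C'}

/-- A retract of a filtered complex. -/
structure Restr_R (d : C →ₗ[Lam ℂ] C) (M : ℕ → Set ℝ → Submodule (Lam ℂ) C)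
    (d' : C' →ₗ[Lam ℂ] C') (i : C' →ₗ[Lam ℂ] C) (π : C →ₗ[Lam ℂ] C') : Prop where
  pi : ∀ x, π (i x) = x
  id : ∀ x, i (d' x) = d (i x)
  pd : ∀ c, π (d c) = d' (π c)
  mem : ∀ k J c, c ∈ M k J → π c ∈ (M k J).comap i

theorem Restr_R.inj (h : Restr_R d M d' i π) : Function.Injective i :=
  Function.LeftInverse.injective h.pi

theorem Restr_loc (i : C' →ₗ[Lam ℂ] C) {l : C → C → Lam ℂ} (h : LocS M l) :
    LocS (fun k J => (M k J).comap i) fun u v => l (i u) (i v) :=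
  ⟨⟨fun u u' v => by rw [map_add, h.1.add_left], fun a u v => by rw [map_smul, h.1.smul_left],
    fun u v v' => by rw [map_add, h.1.add_right], fun a u v => by rw [map_smul, h.1.smul_right]⟩,
    fun k k' J J' hJ u hu v hv => h.2 k k' J J' hJ _ hu _ hv⟩

theorem Restr_R.retr (h : Restr_R d M d' i π) {J' J : Set ℝ} (hr : Retr d M J' J) :
    Retr d' (fun k J => (M k J).comap i) J' J := by
  obtain ⟨r, H, hr⟩ := hr
  refine ⟨π ∘ₗ r ∘ₗ i, π ∘ₗ H ∘ₗ i, fun k => ⟨fun c hc => ?_, fun c hc =>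
    h.mem _ _ _ ((hr k).2 _ hc)⟩⟩
  obtain ⟨h1, h2, h3⟩ := (hr k).1 _ hc
  refine ⟨h.mem _ _ _ h1, h.mem _ _ _ h2, ?_⟩
  have h4 := congrArg π h3
  rw [map_add, map_sub, h.pd, h.pi, ← h.id] at h4
  exact h4

theorem Restr_R.zn (h : Restr_R d M d' i π) {y : C'}
    (hy : y ∈ ZN d' fun k J => (M k J).comap i) : i y ∈ ZN d M :=
  ⟨hy.1, by
    have h0 : d' y = 0 := hy.2
    rw [SetLike.mem_coe, LinearMap.mem_ker, ← h.id, h0, map_zero]⟩

theorem Restr_R.zn' (h : Restr_R d M d' i π) {y : C} (hy : y ∈ ZN d M) :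
    π y ∈ ZN d' fun k J => (M k J).comap i :=
  ⟨h.mem _ _ _ hy.1, by
    have h0 : d y = 0 := hy.2
    rw [SetLike.mem_coe, LinearMap.mem_ker, ← h.pd, h0, map_zero]⟩

theorem Restr_R.bn (h : Restr_R d M d' i π) {y : C'}
    (hy : y ∈ BN d' fun k J => (M k J).comap i) : i y ∈ BN d M := by
  obtain ⟨c, hc, rfl⟩ := hy
  exact ⟨i c, hc, (h.id c).symm⟩

theorem Restr_R.bn' (h : Restr_R d M d' i π) {y : C} (hy : y ∈ BN d M) :
    π y ∈ BN d' fun k J => (M k J).comap i := by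
  obtain ⟨c, hc, rfl⟩ := hy
  exact ⟨π c, h.mem _ _ _ hc, (h.pd c).symm⟩

theorem Restr_R.isAS (h : Restr_R d M d' i π) {l : C → C → Lam ℂ} (A : IsAS d M l)
    (adj : ∀ b x, l (i (π b)) (i x) = l b (i x)) :
    IsAS d' (fun k J => (M k J).comap i) fun u v => l (i u) (i v) where
  dd c := h.inj (by rw [h.id, h.id, A.dd, map_zero])
  d_mem k J c hc := by
    rw [Submodule.mem_comap, h.id]
    exact A.d_mem k J _ hc
  d_zero J c hc := h.inj (by rw [h.id, A.d_zero J _ hc, map_zero])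
  mono k J J' hJ := Submodule.comap_mono (A.mono k J J' hJ)
  inter k J J' c hc := A.inter k J J' hc
  tf0 g hg c hc := h.inj (by rw [A.tf0 g hg (i c) (by rw [← map_smul, hc, map_zero]), map_zero])
  tf g hg k J c hc := A.tf g hg k J (i c) (by rw [← map_smul]; exact hc)
  cpt k J c hc := A.cpt k J _ hc
  retrN a' a b b' h1 h2 h3 h4 h5 := h.retr (A.retrN a' a b b' h1 h2 h3 h4 h5)
  retrV b b' h1 h2 h3 := h.retr (A.retrV b b' h1 h2 h3)
  loc := Restr_loc i A.loc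
  stokes u v := by rw [h.id, h.id, A.stokes]
  sym := by
    obtain ⟨E₁, E₂, h1, h2, h3⟩ := A.sym
    exact ⟨_, _, Restr_loc i h1, Restr_loc i h2, fun u hu v hv => by
      rw [h.id, h.id]
      exact h3 _ hu _ hv⟩
  psd := by
    obtain ⟨bad, h1, h2⟩ := A.psd
    exact ⟨bad, h1, fun η hη z hz h0 => h2 η hη _ hz (by rw [← h.id, h0, map_zero])⟩
  pdV ζ hζ n c h1 h2 x hx h0 hn := by
    obtain ⟨b, hb, a, ha, r, hr, h3, h4⟩ := A.pdV ζ hζ n c h1 h2 (i x) hx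
      (by rw [← h.id, h0, map_zero]) fun ⟨w, hw, y, hy, h5⟩ =>
        hn ⟨π w, h.mem _ _ _ hw, π y, h.mem _ _ _ hy, by
          rw [← h.pd, ← map_smul, ← map_add, ← h5, h.pi]⟩
    exact ⟨π b, h.mem _ _ _ hb, π a, h.mem _ _ _ ha, π r, h.mem _ _ _ hr,
      by rw [← h.pd, h3, map_add, map_smul], by rwa [adj]⟩
  pdN ζ hζ a c h1 h2 u hu h0 hn := by
    obtain ⟨y₀, h0⟩ := h0
    obtain ⟨b, hb, a', ha, r₁, hr₁, r₂, hr₂, h3, ⟨y, h4⟩, h6⟩ := A.pdN ζ hζ a c h1 h2 (i u) hu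
      ⟨i y₀, by rw [← h.id, h0, map_smul]⟩ fun ⟨w, hw, y, hy, h5⟩ =>
        hn ⟨π w, h.mem _ _ _ hw, π y, h.mem _ _ _ hy, by
          rw [← h.pd, ← map_smul, ← map_add, ← h5, h.pi]⟩
    exact ⟨π b, h.mem _ _ _ hb, π a', h.mem _ _ _ ha, π r₁, h.mem _ _ _ hr₁, π r₂,
      h.mem _ _ _ hr₂, by rw [← h.pd, h3, map_add, map_add, map_smul],
      ⟨π y, by rw [← h.pd, h4, map_smul]⟩, by rwa [adj]⟩
  fgV := by
    obtain ⟨n, z, h1, h2⟩ := A.fgV
    refine ⟨n, fun j => π (z j), fun j => ⟨h.mem _ _ _ (h1 j).1, by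
      rw [← h.pd, (h1 j).2, map_zero]⟩, fun y hy h0 => ?_⟩
    obtain ⟨a, b, hb, h3⟩ := h2 (i y) hy (by rw [← h.id, h0, map_zero])
    refine ⟨a, π b, h.mem _ _ _ hb, ?_⟩
    rw [← h.pi y, h3, map_add, map_sum, h.pd]
    simp only [map_smul]
  mv y hy c hc h0 := by
    obtain ⟨c₁, h1, c₂, h2, h3, h4⟩ := A.mv (i y) hy (i c) hc (by rw [h0, h.id])
    exact ⟨π c₁, h.mem _ _ _ h1, π c₂, h.mem _ _ _ h2,
      by rw [← h.pd, ← h.pd, ← map_add, ← h3, h.pi], by rw [← h.pd]; exact h.mem _ _ _ h4⟩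

end Aux

theorem restr_stmt : RestrStmt := by
  intro C _ _ d M l e ζ x A H P L
  have he : ∀ y : LinearMap.range e, e y = y := by
    rintro ⟨_, c, rfl⟩
    exact P.ee c
  have h : Restr_R d M (e.rangeRestrict ∘ₗ d ∘ₗ (LinearMap.range e).subtype)
      (LinearMap.range e).subtype e.rangeRestrict :=
    ⟨fun y => Subtype.ext (he y), fun y => (P.ed y).trans (congrArg d (he y)),
      fun c => Subtype.ext (show e (d c) = e (d (e c)) by rw [← P.ed, P.ee]),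
      fun k J c hc => P.mem k J c hc⟩
  have hx : (LinearMap.range e).subtype (e.rangeRestrict x) = x := L.ex
  refine ⟨LinearMap.range e, inferInstance, inferInstance, _, _, _, e.rangeRestrict x,
    h.isAS A fun b y => (P.adj b y).trans (congrArg (l b) (he y)), fun y hy => ?_,
    h.zn' L.cyc, rfl, ?_, fun hn => L.nz (hx ▸ h.bn hn), fun y hy _ n hn => ?_,
    fun y hy _ => ?_⟩
  · obtain ⟨w, hw, h1⟩ := H _ hy
    exact ⟨_, h.mem _ _ _ hw, by rw [← h.pd, ← h1, map_smul, h.pi]⟩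
  · have h1 := h.bn' L.tor
    rwa [map_smul] at h1
  · have h1 := h.bn hn
    rw [map_smul] at h1
    obtain ⟨μ, h2⟩ := L.prim _ (h.zn hy) (he y) n h1
    have h3 := h.bn' h2
    rw [map_sub, map_smul, h.pi] at h3
    exact ⟨μ, h3⟩
  · obtain ⟨μ, y', h1, h2⟩ := L.top _ (h.zn hy) (he y)
    have h3 := h.bn' h2
    rw [map_sub, map_sub, map_smul, map_smul, h.pi] at h3
    exact ⟨μ, _, h.zn' h1, h3⟩

end Pool.Agent.MP_bc14e1_gt
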