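import Pool.Agent.MP_bc14e1_gt.If

open Set Metric
open scoped Classical Topology

namespace Pool.Agent.MP_bc14e1_gt

/-- From a homotopy of the base to a chain deformation of the cover. -/
theorem Retr_of_htpy (B : Bas1) (κ : Kit) {X G Y : Type} [TopologicalSpace X] [Group G]
    [TopologicalSpace Y] [MulAction G Y] [ContinuousConstSMul G Y] {Z : Set X} {p : Y → X} (s : G)
    (hp : GCov G Z p) (h : X → ℝ) (hf : ∀ y, (h ∘ p) (s • y) = (h ∘ p) y) {J' J : Set ℝ}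
    (hJ : J ⊆ J') (H : ℝ × X → X) (hc : ContinuousOn H (Icc 0 1 ×ˢ (h ⁻¹' J' ∩ Z)))
    (hZ : MapsTo H (Icc 0 1 ×ˢ (h ⁻¹' J' ∩ Z)) Z) (h0 : ∀ x ∈ h ⁻¹' J' ∩ Z, H (0, x) = x)
    (h1 : ∀ x, h x ∈ J' → h (H (1, x)) ∈ J)
    (h2 : ∀ θ ∈ Icc (0 : ℝ) 1, ∀ x, h x ∈ J' → h (H (θ, x)) ∈ J')
    (h3 : ∀ θ ∈ Icc (0 : ℝ) 1, ∀ x, h x ∈ J → h (H (θ, x)) ∈ J) :
    Retr (dTw ℂ Y s) (lvTw ℂ s (h ∘ p) hf) J' J := by
  obtain ⟨H', c', z', p', e'⟩ := B.hl G X Y Z p hp (h ⁻¹' J') H hc hZ h0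
  set A : Set Y := p ⁻¹' (h ⁻¹' J') with hA
  have hinv : Inv s A := fun y => by
    simp only [hA, mem_preimage]
    rw [show h (p (s • y)) = h (p y) from hf y]
  have c1 : ContinuousOn (fun y => H' (1, y)) A :=
    c'.comp (by fun_prop) fun y hy => ⟨⟨zero_le_one, le_rfl⟩, hy⟩
  have eH : ∀ c, (-(hop κ ℂ H') ∘ₗ prj ℂ A) (gs ℂ Y s c) =
      gs ℂ Y s ((-(hop κ ℂ H') ∘ₗ prj ℂ A) c) := by
    intro c
    simp only [LinearMap.comp_apply, LinearMap.neg_apply, map_neg]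
    rw [prj_gs s hinv, gs, hop_psh κ H' (continuous_const_smul s).continuousOn (prj_mem A c),
      psh_hop κ _ c' (prj_mem A c)]
    have : (H' ∘ Prod.map id fun x => s • x) = (fun y => s • y) ∘ H' :=
      funext fun z => e' s z.1 z.2
    rw [this]
  have er : ∀ c, (psh ℂ (fun y => H' (1, y)) ∘ₗ prj ℂ A) (gs ℂ Y s c) =
      gs ℂ Y s ((psh ℂ (fun y => H' (1, y)) ∘ₗ prj ℂ A) c) := by
    intro c
    simp only [LinearMap.comp_apply]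
    rw [prj_gs s hinv, gs, psh_psh' _ (continuous_const_smul s), psh_psh _ c1 (prj_mem A c)]
    congr 2
    funext y
    exact e' s 1 y
  refine ⟨twMap _ er, twMap _ eH, fun k => ⟨fun c hc => ?_, fun c hc => ?_⟩⟩
  · have hc1 : (c : Tot ℂ Y) ∈ CH ℂ A := hc.1
    have hc2 : (c : Tot ℂ Y) ∈ DG ℂ Y k := hc.2
    refine ⟨⟨?_, ?_⟩, ⟨?_, ?_⟩, ?_⟩
    · change psh ℂ (fun y => H' (1, y)) (prj ℂ A c) ∈ CH ℂ _
      refine psh_mem_CH _ (fun y hy => ?_) (prj_mem A c)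
      change h (p (H' (1, y))) ∈ J
      rw [p' 1 ⟨zero_le_one, le_rfl⟩ y hy]
      exact h1 _ hy
    · change psh ℂ (fun y => H' (1, y)) (prj ℂ A c) ∈ DG ℂ Y k
      exact psh_mem_DG _ (prj_mem_DG A hc2)
    · change -(hop κ ℂ H' (prj ℂ A c)) ∈ CH ℂ _
      refine neg_mem (hop_mem_CH κ _ (fun z hz => ?_) (prj_mem A c))
      change h (p (H' (z.1, z.2))) ∈ J'
      rw [p' z.1 hz.1 z.2 hz.2]
      exact h2 _ hz.1 _ hz.2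
    · change -(hop κ ℂ H' (prj ℂ A c)) ∈ DG ℂ Y (k + 1)
      exact neg_mem (hop_mem_DG κ _ (prj_mem_DG A hc2))
    · have key : ∀ c : Tot ℂ Y, c ∈ CH ℂ A →
          dT ℂ Y (-(hop κ ℂ H' (prj ℂ A c))) + -(hop κ ℂ H' (prj ℂ A (dT ℂ Y c))) =
            c - psh ℂ (fun y => H' (1, y)) (prj ℂ A c) := by
        intro c hc1
        rw [prj_of_mem hc1, prj_of_mem (dT_mem_CH hc1), map_neg, ← neg_add, dT_hop κ c' hc1,
          psh_of_eqOn_id (f := fun y => H' (0, y)) (fun y _ => z' y) hc1, neg_sub]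
      exact key c hc1
  · have hc1 : (c : Tot ℂ Y) ∈ CH ℂ ((h ∘ p) ⁻¹' J) := hc.1
    have hc2 : (c : Tot ℂ Y) ∈ DG ℂ Y k := hc.2
    refine ⟨?_, ?_⟩
    · change -(hop κ ℂ H' (prj ℂ A c)) ∈ CH ℂ _
      refine neg_mem (hop_mem_CH κ _ (fun z hz => ?_) (prj_mem_CH A hc1))
      change h (p (H' (z.1, z.2))) ∈ J
      rw [p' z.1 hz.1 z.2 (hJ hz.2)]
      exact h3 _ hz.1 _ hz.2
    · change -(hop κ ℂ H' (prj ℂ A c)) ∈ DG ℂ Y (k + 1)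
      exact neg_mem (hop_mem_DG κ _ (prj_mem_DG A hc2))

section Level

variable {κ : Kit} {K : Set (E 4)} {ι : E 4 ≃ₗᵢ[ℝ] E 4} (Γ : Geo κ K ι)

/-- The new level. -/
def Retr_lev (m : ℝ → ℝ) (θ t : ℝ) : ℝ := (1 - θ) * t + θ * m t

/-- Rescaling of a vector to the level `l`. -/
noncomputable def Retr_sc (l : ℝ) (v : E 4) : E 4 := ((3 - l) / 4 / ‖v‖) • v

/-- The homotopy that changes the level. -/
noncomputable def Retr_H (m : ℝ → ℝ) (z : ℝ × Γ.X) : Γ.X :=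
  if Γ.h z.2 ∈ Ioo (-1 : ℝ) 1 then Γ.emb (Retr_sc (Retr_lev m z.1 (Γ.h z.2)) (Γ.emb.symm z.2))
  else z.2

theorem Retr_norm {l : ℝ} (hl : l < 3) {v : E 4} (hv : v ∈ shell) :
    ‖Retr_sc l v‖ = (3 - l) / 4 := by
  have h0 : 0 < ‖v‖ := by linarith [hv.1]
  rw [Retr_sc, norm_smul, Real.norm_eq_abs, abs_of_pos (by apply div_pos <;> linarith)]
  field_simp

theorem Retr_shell {l : ℝ} (hl : l ∈ Ioo (-1 : ℝ) 1) {v : E 4} (hv : v ∈ shell) :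
    Retr_sc l v ∈ shell := by
  have := Retr_norm (l := l) (by linarith [hl.2]) hv
  constructor <;> rw [this] <;> linarith [hl.1, hl.2]

theorem Retr_dir {l : ℝ} (hl : l < 3) {v : E 4} (hv : v ∈ shell) :
    ‖Retr_sc l v‖⁻¹ • Retr_sc l v = ‖v‖⁻¹ • v := by
  have h0 : 0 < ‖v‖ := by linarith [hv.1]
  have h1 : (3 - l) ≠ 0 := by linarith
  rw [Retr_norm hl hv, Retr_sc, smul_smul]
  congr 1
  field_simp

theorem Retr_symm {x : Γ.X} (hx : Γ.h x ∈ Ioo (-1 : ℝ) 1) :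
    Γ.emb.symm x ∈ shell ∧ Γ.emb (Γ.emb.symm x) = x := by
  have ht : x ∈ Γ.emb.target := by rw [Γ.tgt]; exact hx
  exact ⟨Γ.src ▸ Γ.emb.map_target ht, Γ.emb.right_inv ht⟩

theorem Retr_fix {m : ℝ → ℝ} {θ : ℝ} {x : Γ.X} (hx : Retr_lev m θ (Γ.h x) = Γ.h x) :
    Retr_H Γ m (θ, x) = x := by
  unfold Retr_H
  split_ifs with h
  · obtain ⟨h1, h2⟩ := Retr_symm Γ h
    have h0 : 0 < ‖Γ.emb.symm x‖ := by linarith [h1.1]
    have h3 := Γ.h_emb _ h1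
    rw [h2] at h3
    have : Retr_sc (Γ.h x) (Γ.emb.symm x) = Γ.emb.symm x := by
      rw [Retr_sc, h3, show (3 - (3 - 4 * ‖Γ.emb.symm x‖)) / 4 / ‖Γ.emb.symm x‖ = 1 by
        field_simp; ring, one_smul]
    simp only [hx, this, h2]
  · rfl

theorem Retr_conv {J : Set ℝ} (hJ : Convex ℝ J) {m : ℝ → ℝ} {θ t : ℝ} (hθ : θ ∈ Icc (0 : ℝ) 1)
    (ht : t ∈ J) (hm : m t ∈ J) : Retr_lev m θ t ∈ J :=
  hJ ht hm (sub_nonneg.2 hθ.2) hθ.1 (by ring)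

theorem Retr_in {m : ℝ → ℝ} {θ : ℝ} {x : Γ.X} (hx : Γ.h x ∈ Ioo (-1 : ℝ) 1)
    (hl : Retr_lev m θ (Γ.h x) ∈ Ioo (-1 : ℝ) 1) :
    Γ.h (Retr_H Γ m (θ, x)) = Retr_lev m θ (Γ.h x) ∧ (Retr_H Γ m (θ, x) ∈ Γ.F ↔ x ∈ Γ.F) := by
  obtain ⟨h1, h2⟩ := Retr_symm Γ hx
  have h3 : Retr_lev m θ (Γ.h x) < 3 := by linarith [hl.2]
  have e : Retr_H Γ m (θ, x) = Γ.emb (Retr_sc (Retr_lev m θ (Γ.h x)) (Γ.emb.symm x)) :=
    if_pos hx
  rw [e]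
  refine ⟨?_, ?_⟩
  · rw [Γ.h_emb _ (Retr_shell hl h1), Retr_norm h3 h1]; ring
  · rw [Γ.F_emb _ (Retr_shell hl h1), Retr_dir h3 h1, ← Γ.F_emb _ h1, h2]

theorem Retr_cont {m : ℝ → ℝ} (hm : Continuous m) :
    ContinuousOn (Retr_H Γ m)
      (Icc 0 1 ×ˢ {x | Γ.h x ∈ Ioo (-1 : ℝ) 1 ∧ m (Γ.h x) ∈ Ioo (-1 : ℝ) 1}) := by
  have hc := Γ.hc
  have c1 : ContinuousOn (fun z : ℝ × Γ.X => Γ.emb.symm z.2)
      (Icc 0 1 ×ˢ {x | Γ.h x ∈ Ioo (-1 : ℝ) 1 ∧ m (Γ.h x) ∈ Ioo (-1 : ℝ) 1}) :=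
    Γ.emb.continuousOn_symm.comp continuous_snd.continuousOn fun z hz => by
      rw [Γ.tgt]; exact hz.2.1
  have c2 : Continuous fun z : ℝ × Γ.X => (3 - Retr_lev m z.1 (Γ.h z.2)) / 4 := by
    unfold Retr_lev; fun_prop
  have c3 : ContinuousOn (fun z : ℝ × Γ.X => Retr_sc (Retr_lev m z.1 (Γ.h z.2)) (Γ.emb.symm z.2))
      (Icc 0 1 ×ˢ {x | Γ.h x ∈ Ioo (-1 : ℝ) 1 ∧ m (Γ.h x) ∈ Ioo (-1 : ℝ) 1}) := by
    refine (c2.continuousOn.div c1.norm fun z hz => ?_).smul c1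
    have := (Retr_symm Γ hz.2.1).1.1
    linarith
  refine (Γ.emb.continuousOn.comp c3 fun z hz => ?_).congr fun z hz => if_pos hz.2.1
  rw [Γ.src]
  exact Retr_shell (Retr_conv (convex_Ioo _ _) hz.1 hz.2.1 hz.2.2) (Retr_symm Γ hz.2.1).1

theorem Retr_gen (B : Bas1) {G Y : Type} [Group G] [TopologicalSpace Y] [MulAction G Y]
    [ContinuousConstSMul G Y] {p : Y → Γ.X} (s : G) (hp : GCov G Γ.Fᶜ p)
    (hf : ∀ y, (Γ.h ∘ p) (s • y) = (Γ.h ∘ p) y) {J' J : Set ℝ} (hJ : J ⊆ J') (cJ : Convex ℝ J)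
    (cJ' : Convex ℝ J') {m : ℝ → ℝ} (hm : Continuous m) (m1 : ∀ t ∈ J', m t ∈ J)
    (m2 : ∀ t ∈ J', t ∈ Ioo (-1 : ℝ) 1 → m t ∈ Ioo (-1 : ℝ) 1)
    (m3 : ∀ t ∈ J', t ∉ Ioo (-1 : ℝ) 1 → ∀ᶠ u in 𝓝 t, m u = u) :
    Retr (dTw ℂ Y s) (lvTw ℂ s (Γ.h ∘ p) hf) J' J := by
  have key : ∀ θ ∈ Icc (0 : ℝ) 1, ∀ x, Γ.h x ∈ J' →
      Γ.h (Retr_H Γ m (θ, x)) = Retr_lev m θ (Γ.h x) ∧ (Retr_H Γ m (θ, x) ∈ Γ.F ↔ x ∈ Γ.F) := by
    intro θ hθ x hx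
    by_cases h : Γ.h x ∈ Ioo (-1 : ℝ) 1
    · exact Retr_in Γ h (Retr_conv (convex_Ioo _ _) hθ h (m2 _ hx h))
    · have e : Retr_lev m θ (Γ.h x) = Γ.h x := by
        rw [Retr_lev, (m3 _ hx h).self_of_nhds]; ring
      rw [Retr_fix Γ e, e]
      exact ⟨rfl, Iff.rfl⟩
  refine Retr_of_htpy B κ s hp Γ.h hf hJ (Retr_H Γ m) (fun z hz => ?_) (fun z hz => ?_)
    (fun x _ => Retr_fix Γ (by rw [Retr_lev]; ring)) (fun x hx => ?_) (fun θ hθ x hx => ?_)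
    (fun θ hθ x hx => ?_)
  · by_cases h : Γ.h z.2 ∈ Ioo (-1 : ℝ) 1
    · refine (Retr_cont Γ hm z ⟨hz.1, h, m2 _ hz.2.1 h⟩).mono_of_mem_nhdsWithin ?_
      have ho : IsOpen ((fun w : ℝ × Γ.X => Γ.h w.2) ⁻¹' Ioo (-1 : ℝ) 1) :=
        isOpen_Ioo.preimage (Γ.hc.comp continuous_snd)
      filter_upwards [self_mem_nhdsWithin, mem_nhdsWithin_of_mem_nhds (ho.mem_nhds h)] with w h1 h2
      exact ⟨h1.1, h2, m2 _ h1.2.1 h2⟩
    · have hcz : ContinuousAt (fun w : ℝ × Γ.X => Γ.h w.2) z :=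
        (Γ.hc.comp continuous_snd).continuousAt
      have ev : Retr_H Γ m =ᶠ[𝓝 z] Prod.snd := by
        filter_upwards [hcz.eventually (m3 _ hz.2.1 h)] with w hw
        exact Retr_fix Γ (θ := w.1) (x := w.2) (by rw [Retr_lev, hw]; ring)
      exact (continuousAt_snd.congr ev.symm).continuousWithinAt
  · exact fun hF => hz.2.2 ((key z.1 hz.1 z.2 hz.2.1).2.1 hF)
  · rw [(key 1 ⟨zero_le_one, le_rfl⟩ x hx).1, Retr_lev]
    simpa using m1 _ hx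
  · rw [(key θ hθ x hx).1]
    exact Retr_conv cJ' hθ hx (hJ (m1 _ hx))
  · rw [(key θ hθ x (hJ hx)).1]
    exact Retr_conv cJ hθ hx (m1 _ (hJ hx))

end Level

theorem retr_stmt (B : Bas1) : RetrStmt := by
  intro κ K ι Γ G Y _ _ _ _ p s hp hf
  refine ⟨fun a' a b b' h1 h2 h3 h4 h5 => ?_, fun b b' h1 h2 h3 => ?_⟩
  · refine Retr_gen Γ B s hp hf (Ioo_subset_Ioo h2 h4) (convex_Ioo _ _) (convex_Ioo _ _)
      (m := fun _ => (a + b) / 2) continuous_const (fun _ _ => ⟨by linarith, by linarith⟩)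
      (fun _ _ _ => ⟨by linarith, by linarith⟩) fun t ht hn => ?_
    exact (hn ⟨by linarith [ht.1], by linarith [ht.2]⟩).elim
  · refine Retr_gen Γ B s hp hf (Iio_subset_Iio h2) (convex_Iio _) (convex_Iio _)
      (m := fun t => min t ((b - 1) / 2)) (by fun_prop)
      (fun t _ => mem_Iio.2 (lt_of_le_of_lt (min_le_right _ _) (by linarith)))
      (fun t _ ht => ⟨lt_min ht.1 (by linarith), lt_of_le_of_lt (min_le_left _ _) ht.2⟩)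
      fun t ht hn => ?_
    have h4 : t < (b - 1) / 2 := by
      have h5 : t < b' := ht
      by_contra h6
      exact hn ⟨by linarith, by linarith⟩
    filter_upwards [Iio_mem_nhds h4] with u hu
    exact min_eq_left (le_of_lt hu)

end Pool.Agent.MP_bc14e1_gt
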