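import Pool.Agent.MP_bc14e1_gt.IfC

open Set Metric
open scoped Classical

namespace Pool.Agent.MP_bc14e1_gt

section

variable {R H : Type} [CommRing R] [IsDomain R] [AddCommGroup H] [Module R H]

theorem RkAlg_iff (n : ℕ) :
    (∀ z : Fin (n + 1) → H, ∃ a : Fin (n + 1) → R, a ≠ 0 ∧ ∑ i, a i • z i = 0) ↔
      Module.rank R H ≤ n := by
  rw [← not_lt, ← Cardinal.natCast_add_one_le_iff, ← Nat.cast_add_one, Module.le_rank_iff,
    not_exists]
  refine forall_congr' fun z => ?_
  rw [Fintype.not_linearIndependent_iff]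
  refine exists_congr fun a => ?_
  rw [and_comm, Function.ne_iff]
  rfl

theorem RkAlg_tors (N : Submodule R H) (h : ∀ x, ∃ a : R, a ≠ 0 ∧ a • x ∈ N) :
    Module.rank R H = Module.rank R N := by
  rw [← rank_quotient_add_rank_of_isDomain N, rank_eq_zero_iff.2, zero_add]
  intro x
  obtain ⟨x, rfl⟩ := N.mkQ_surjective x
  obtain ⟨a, ha, hx⟩ := h x
  exact ⟨a, ha, by rw [← map_smul]; exact (Submodule.Quotient.mk_eq_zero N).2 hx⟩

theorem RkAlg_max (S : Set H) (hS : Submodule.span R S = ⊤) :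
    ∃ I ⊆ S, LinearIndepOn R id I ∧ ∀ x, ∃ a : R, a ≠ 0 ∧ a • x ∈ Submodule.span R I := by
  obtain ⟨I, h1, h2⟩ := exists_maximal_linearIndepOn R (Subtype.val : S → H)
  refine ⟨Subtype.val '' I, by simp, h1.id_image, fun x => ?_⟩
  have hx : x ∈ Submodule.span R S := hS ▸ Submodule.mem_top
  induction hx using Submodule.span_induction with
  | mem x hx =>
    by_cases h : (⟨x, hx⟩ : S) ∈ I
    · exact ⟨1, one_ne_zero, Submodule.smul_mem _ _ (Submodule.subset_span ⟨_, h, rfl⟩)⟩
    · exact h2 _ h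
  | zero => exact ⟨1, one_ne_zero, by simp⟩
  | add x y _ _ hx hy =>
    obtain ⟨a, ha, hx⟩ := hx
    obtain ⟨b, hb, hy⟩ := hy
    refine ⟨a * b, mul_ne_zero ha hb, ?_⟩
    rw [smul_add]
    exact add_mem (by rw [mul_comm, mul_smul]; exact Submodule.smul_mem _ _ hx)
      (by rw [mul_smul]; exact Submodule.smul_mem _ _ hy)
  | smul c x _ hx =>
    obtain ⟨a, ha, hx⟩ := hx
    exact ⟨a, ha, by rw [smul_comm]; exact Submodule.smul_mem _ _ hx⟩

end

theorem rkAlg_stmt : RkAlgStmt := by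
  refine ⟨?_, ?_, ?_⟩
  · intro Λ Λ' H _ _ _ _ _ _ f m n e _ he hz
    let _ := f.toAlgebra
    let _ : Module Λ H := Module.compHom H f
    have hs : ∀ (a : Λ) (x : H), a • x = f a • x := fun _ _ => rfl
    refine (RkAlg_iff (R := Λ) (m * n)).2 ?_
    obtain ⟨I, -, h1, h2⟩ := RkAlg_max (R := Λ') (univ : Set H) Submodule.span_univ
    have hI : Cardinal.mk I ≤ n := h1.cardinal_le_rank.trans ((RkAlg_iff n).1 hz)
    have _ : Module.Finite Λ Λ' := ⟨⟨Finset.univ.image e, eq_top_iff.2 fun x _ => by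
      obtain ⟨a, rfl⟩ := he x
      exact Submodule.sum_mem _ fun i _ => Submodule.smul_mem _ (a i)
        (Submodule.subset_span (by simp))⟩⟩
    set N := Submodule.span Λ (range fun p : Fin m × I => e p.1 • (p.2 : H)) with hN
    have h3 : ∀ y ∈ Submodule.span Λ' I, ∀ c : Λ', c • y ∈ N := fun y hy => by
      induction hy using Submodule.span_induction with
      | mem x hx =>
        intro c
        obtain ⟨a, rfl⟩ := he c
        rw [Finset.sum_smul]
        refine Submodule.sum_mem _ fun i _ => ?_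
        rw [mul_smul, ← hs]
        exact Submodule.smul_mem _ _ (Submodule.subset_span ⟨(i, ⟨x, hx⟩), rfl⟩)
      | zero => simp
      | add x y _ _ hx hy => exact fun c => by rw [smul_add]; exact add_mem (hx c) (hy c)
      | smul a x _ hx => exact fun c => by rw [smul_smul]; exact hx _
    rw [RkAlg_tors N fun x => ?_]
    · refine (rank_span_le _).trans (Cardinal.mk_range_le.trans ?_)
      rw [Cardinal.mk_prod, Cardinal.lift_id, Cardinal.lift_id, Cardinal.mk_fin, Nat.cast_mul]
      exact mul_le_mul_right hI _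
    · obtain ⟨a, ha, hx⟩ := h2 x
      obtain ⟨r, hr, c, hc⟩ := (Algebra.IsAlgebraic.isAlgebraic (R := Λ) a).exists_nonzero_dvd
        (mem_nonZeroDivisors_of_ne_zero ha)
      refine ⟨r, hr, ?_⟩
      have hc' : f r = a * c := hc
      rw [hs, hc', mul_comm, mul_smul]
      exact h3 _ hx c
  · intro Λ H₁ H₂ H₃ _ _ _ _ _ _ _ _ f g n hk h1 h3
    refine (RkAlg_iff (2 * n)).2 ?_
    rw [← LinearMap.rank_range_add_rank_ker g, two_mul, Nat.cast_add]
    exact add_le_add ((Submodule.rank_le _).trans ((RkAlg_iff n).1 h3))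
      ((Submodule.rank_mono hk).trans ((rank_range_le f).trans ((RkAlg_iff n).1 h1)))
  · intro Λ Λ' H _ _ _ _ _ _ f S n hf hS hz
    refine (RkAlg_iff n).2 ?_
    obtain ⟨I, hI, h1, h2⟩ := RkAlg_max S hS
    rw [RkAlg_tors _ h2]
    refine (rank_span_le _).trans (not_lt.1 fun h => ?_)
    rw [← Cardinal.natCast_add_one_le_iff, ← Nat.cast_add_one, ← Cardinal.mk_fin] at h
    obtain ⟨j⟩ := (Cardinal.le_def _ _).1 h
    obtain ⟨a, ha, h0⟩ := hz (fun i => j i) fun i => hI (j i).2
    exact ha (funext fun i => hf ((Fintype.linearIndependent_iff.1 (h1.comp j j.injective)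
      (fun i => f (a i)) h0 i).trans (map_zero f).symm))

end Pool.Agent.MP_bc14e1_gt
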