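import Pool.Agent.MP_bc14e1_gt.IfN

open Set Metric
open scoped Classical

namespace Pool.Agent.MP_bc14e1_gt

theorem root_stmt (hLaur : LaurStmt) : RootStmt := by
  intro m ζ hm
  obtain ⟨-, -, -, -, -, hT, hC, -⟩ := hLaur
  have hm0 : (m : ℝ) ≠ 0 := by positivity
  have hmz : (m : ℤ) ≠ 0 := by positivity
  obtain ⟨t, rfl⟩ := Circle.exp_surjective ζ
  set ζ := Circle.exp t with hζ
  let ξ : Circle := Circle.exp (2 * Real.pi / m)
  let η0 : Circle := Circle.exp (t / m)
  have hξ : IsPrimitiveRoot (ξ : ℂ) m := by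
    have h := Complex.isPrimitiveRoot_exp m hm.ne'
    have e : (ξ : ℂ) = Complex.exp (2 * Real.pi * Complex.I / m) := by
      simp only [ξ, Circle.coe_exp]
      congr 1
      push_cast
      ring
    rwa [e]
  have hη0 : η0 ^ m = ζ := by
    simp only [η0, hζ]
    rw [← Circle.exp_nsmul]
    congr 1
    rw [nsmul_eq_mul]
    field_simp
  have hξm : ξ ^ m = 1 := by
    apply Circle.ext
    simpa using hξ.pow_eq_one
  have hinj : Set.InjOn (fun k : ℕ => η0 * ξ ^ k) (Finset.range m : Set ℕ) := by
    intro i hi j hj hij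
    have h1 : ξ ^ i = ξ ^ j := mul_left_cancel hij
    have h2 : (ξ : ℂ) ^ i = (ξ : ℂ) ^ j := by
      simpa using congrArg (fun z : Circle => (z : ℂ)) h1
    exact hξ.pow_inj (by simpa using hi) (by simpa using hj) h2
  refine ⟨(Finset.range m).image fun k : ℕ => η0 * ξ ^ k, ?_, ?_, ?_⟩
  · rw [Finset.card_image_of_injOn hinj, Finset.card_range]
  · intro η hη
    obtain ⟨k, -, rfl⟩ := Finset.mem_image.1 hη
    rw [mul_pow, hη0, ← pow_mul, mul_comm k m, pow_mul, hξm, one_pow, mul_one]
  · intro a
    rw [Finset.sum_image hinj]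
    have hfin : ∀ a : Lam ℂ,
        (Function.support fun n : ℤ => ((ζ ^ n : Circle) : ℂ) * a.coeff (m * n)).Finite := by
      intro a
      refine (a.coeff.support.finite_toSet.preimage (f := fun n : ℤ => (m : ℤ) * n)
        (mul_right_injective₀ hmz).injOn).subset fun n hn => ?_
      simpa using right_ne_zero_of_mul hn
    induction a using LaurentPolynomial.induction_on' with
    | add p q hp hq =>
      simp only [map_add, Finset.sum_add_distrib, hp, hq, AddMonoidAlgebra.coeff_add,
        Finsupp.add_apply, mul_add]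
      rw [finsum_add_distrib (hfin p) (hfin q), mul_add]
    | C_mul_T N c =>
      have hco : ∀ k : ℤ, (LaurentPolynomial.C c * LaurentPolynomial.T N : Lam ℂ).coeff k =
          if N = k then c else 0 := by
        intro k
        rw [← LaurentPolynomial.single_eq_C_mul_T, AddMonoidAlgebra.coeff_single,
          Finsupp.single_apply]
      have hl : ∑ k ∈ Finset.range m, evL (η0 * ξ ^ k)
          (LaurentPolynomial.C c * LaurentPolynomial.T N) =
          c * (η0 : ℂ) ^ N * ∑ k ∈ Finset.range m, ((ξ : ℂ) ^ N) ^ k := by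
        rw [Finset.mul_sum]
        refine Finset.sum_congr rfl fun k _ => ?_
        rw [map_mul, hT, hC]
        push_cast
        rw [mul_zpow, ← zpow_natCast, ← zpow_natCast, ← zpow_mul, ← zpow_mul, mul_comm N k,
          mul_assoc]
      rw [hl]
      simp only [hco]
      by_cases hd : (m : ℤ) ∣ N
      · obtain ⟨n, rfl⟩ := hd
        rw [finsum_eq_single _ n fun x hx => by
          rw [if_neg fun h => hx (mul_left_cancel₀ hmz h).symm, mul_zero]]
        have e1 : (ξ : ℂ) ^ ((m : ℤ) * n) = 1 := by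
          rw [zpow_mul, zpow_natCast, hξ.pow_eq_one, one_zpow]
        have e2 : (η0 : ℂ) ^ ((m : ℤ) * n) = ((ζ ^ n : Circle) : ℂ) := by
          rw [← hη0, zpow_mul, zpow_natCast]
          push_cast
          rfl
        rw [e1, e2, if_pos rfl]
        simp only [one_pow, Finset.sum_const, Finset.card_range, nsmul_eq_mul, mul_one]
        ring
      · have e1 : (ξ : ℂ) ^ N ≠ 1 := fun h => hd ((hξ.zpow_eq_one_iff_dvd N).1 h)
        have e2 : ((ξ : ℂ) ^ N) ^ m = 1 := by
          rw [← zpow_natCast, ← zpow_mul, mul_comm, zpow_mul, zpow_natCast, hξ.pow_eq_one, one_zpow]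
        rw [geom_sum_eq e1, e2, finsum_eq_zero_of_forall_eq_zero fun n => by
          rw [if_neg fun h => hd ⟨n, h⟩, mul_zero]]
        simp

end Pool.Agent.MP_bc14e1_gt
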