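import Pool.Agent.MP_bc14e1_gt.If

open Set Metric
open scoped Classical

namespace Pool.Agent.MP_bc14e1_gt

section

variable {R : Type} [CommRing R] {G X Y : Type} [Group G] [TopologicalSpace X]
  [TopologicalSpace Y] [MulAction G Y] [ContinuousConstSMul G Y]

theorem Rot_iter (κ : Kit) (s : G) {O : Set Y} {H : ℝ × Y → Y}
    (hc : ContinuousOn H (Icc 0 1 ×ˢ O)) (h0 : ∀ y, H (0, y) = y)
    (he : ∀ θ y, H (θ, s • y) = s • H (θ, y)) (hO : MapsTo H (Icc 0 1 ×ˢ O) O) (n : ℕ) :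
    ∃ K : Module.End R (Tot R Y), (∀ c ∈ CH R O, K (gs R Y s c) = gs R Y s (K c)) ∧
      (∀ k, ∀ c ∈ DG R Y k, K c ∈ DG R Y (k + 1)) ∧
      (∀ O', MapsTo H (Icc 0 1 ×ˢ O') O' → ∀ c ∈ CH R O', K c ∈ CH R O') ∧
      ∀ c ∈ CH R O, dT R Y (K c) + K (dT R Y c) = psh R (fun y => H (1, y))^[n] c - c := by
  have hm : ∀ O', MapsTo H (Icc 0 1 ×ˢ O') O' → MapsTo (fun y => H (1, y)) O' O' :=
    fun O' h y hy => h ⟨right_mem_Icc.2 zero_le_one, hy⟩
  have hJ : ContinuousOn (fun y => H (1, y)) O :=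
    hc.comp (by fun_prop) fun y hy => ⟨right_mem_Icc.2 zero_le_one, hy⟩
  have hs : Continuous fun y : Y => s • y := continuous_const_smul s
  induction n with
  | zero => exact ⟨0, by simp, by simp, by simp, fun c _ => by simp [psh_id]⟩
  | succ n ih =>
    obtain ⟨K, k1, k2, k3, k4⟩ := ih
    have j1 : ContinuousOn (fun y => H (1, y))^[n] O := hJ.iterate (hm O hO) n
    have j2 : MapsTo (fun y => H (1, y))^[n] O O := (hm O hO).iterate n
    have j3 : (fun y => H (1, y))^[n] ∘ (fun y : Y => s • y) =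
        (fun y : Y => s • y) ∘ (fun y => H (1, y))^[n] :=
      funext (Function.Commute.iterate_left (f := fun y => H (1, y)) (g := fun y : Y => s • y)
        (fun y => he 1 y) n)
    refine ⟨K + hop κ R H ∘ₗ psh R (fun y => H (1, y))^[n], fun c h => ?_, fun k c h => ?_,
      fun O' h' c h => ?_, fun c h => ?_⟩
    · have e1 : psh R (fun y => H (1, y))^[n] (gs R Y s c) =
          gs R Y s (psh R (fun y => H (1, y))^[n] c) := by
        rw [gs, psh_psh' _ hs, psh_psh _ j1 h, j3]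
      have e2 : H ∘ Prod.map id (fun y : Y => s • y) = (fun y : Y => s • y) ∘ H :=
        funext fun x => he x.1 x.2
      simp only [LinearMap.add_apply, LinearMap.comp_apply, map_add]
      rw [k1 c h, e1, gs, hop_psh κ H hs.continuousOn (mem_CH_univ _),
        psh_hop κ _ hc (psh_mem_CH _ j2 h), e2]
    · exact add_mem (k2 k c h) (hop_mem_DG κ H (psh_mem_DG _ h))
    · exact add_mem (k3 O' h' c h) (hop_mem_CH κ H h' (psh_mem_CH _ ((hm O' h').iterate n) h))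
    · have e1 := dT_hop κ hc (psh_mem_CH _ j2 h)
      rw [psh_psh _ j1 h, psh_of_eqOn_id (fun y _ => h0 y) (mem_CH_univ _), dT_psh j1 h,
        ← Function.iterate_succ'] at e1
      simp only [LinearMap.add_apply, LinearMap.comp_apply, map_add]
      rw [add_add_add_comm, k4 c h, e1]
      abel

omit [TopologicalSpace X] in
theorem Rot_open {p : Y → X} (hp : IsLocallyInjective p) (hi : ∀ (g : G) y, p (g • y) = p y)
    {O : Set Y} (hO : IsOpen O) {f : Y → Y} (hf : ContinuousOn f O) (h : ∀ y ∈ O, p (f y) = p y)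
    (g : G) : IsOpen {y | y ∈ O ∧ f y = g • y} := by
  refine isOpen_iff_mem_nhds.2 fun y hy => ?_
  obtain ⟨U, hU, h1, h2⟩ := hp (g • y)
  have a1 : f ⁻¹' U ∈ nhds y :=
    (hf.continuousAt (hO.mem_nhds hy.1)).preimage_mem_nhds (hU.mem_nhds (hy.2.symm ▸ h1))
  have a2 : (fun y : Y => g • y) ⁻¹' U ∈ nhds y :=
    (continuous_const_smul g).continuousAt.preimage_mem_nhds (hU.mem_nhds h1)
  filter_upwards [a1, a2, hO.mem_nhds hy.1] with x b1 b2 b3
  exact ⟨b3, h2 b1 b2 ((h x b3).trans (hi g x).symm)⟩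

theorem Rot_prj {U V : Set Y} (hU : IsOpen U) (hV : IsOpen V) (hd : Disjoint U V) {c : Tot R Y}
    (h : c ∈ CH R (U ∪ V)) : prj R U c + prj R V c = c ∧
      prj R U (dT R Y c) = dT R Y (prj R U c) ∧ prj R V (dT R Y c) = dT R Y (prj R V c) := by
  rw [CH_union_of_disjoint hU hV hd] at h
  obtain ⟨a, ha, b, hb, rfl⟩ := Submodule.mem_sup.1 h
  simp only [map_add, prj_of_mem ha, prj_of_mem hb, prj_eq_zero hd hb, prj_eq_zero hd.symm ha,
    prj_of_mem (dT_mem_CH ha), prj_of_mem (dT_mem_CH hb), prj_eq_zero hd (dT_mem_CH hb),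
    prj_eq_zero hd.symm (dT_mem_CH ha), add_zero, zero_add, and_self]

theorem Rot_glue (s : G) {O U V : Set Y} (hU : IsOpen U) (hV : IsOpen V) (hd : Disjoint U V)
    (hO : O = U ∪ V) (iU : Inv s U) (iV : Inv s V) {J : Y → Y} (jU : ∀ y ∈ U, J y = s • y)
    (jV : ∀ y ∈ V, J y = s⁻¹ • y) (K : Module.End R (Tot R Y))
    (k1 : ∀ c ∈ CH R O, K (gs R Y s c) = gs R Y s (K c))
    (k2 : ∀ k, ∀ c ∈ DG R Y k, K c ∈ DG R Y (k + 1))
    (k4 : ∀ c ∈ CH R O, dT R Y (K c) + K (dT R Y c) = psh R J c - c) :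
    ∃ H : Module.End R (Tot R Y), (∀ c, H (gs R Y s c) = gs R Y s (H c)) ∧
      (∀ k, ∀ c ∈ DG R Y k, H c ∈ DG R Y (k + 1)) ∧
      (∀ O' : Set Y, (∀ y ∈ O', s • y ∈ O') → (∀ c ∈ CH R O', K c ∈ CH R O') →
        ∀ c ∈ CH R O', H c ∈ CH R O') ∧
      ∀ c ∈ CH R O, dT R Y (H c) + H (dT R Y c) = gs R Y s c - c := by
  subst hO
  have mU : ∀ c, prj R U c ∈ CH R (U ∪ V) := fun c => CH_mono subset_union_left (prj_mem U c)
  have mV : ∀ c, prj R V c ∈ CH R (U ∪ V) := fun c => CH_mono subset_union_right (prj_mem V c)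
  refine ⟨K ∘ₗ prj R U - gs R Y s ∘ₗ K ∘ₗ prj R V, fun c => ?_, fun k c h => ?_,
    fun O' h1 h2 c h => ?_, fun c h => ?_⟩
  · simp only [LinearMap.sub_apply, LinearMap.comp_apply, map_sub]
    rw [prj_gs s iU, prj_gs s iV, k1 _ (mU c), k1 _ (mV c)]
  · exact sub_mem (k2 k _ (prj_mem_DG U h)) (gs_mem_DG s (k2 k _ (prj_mem_DG V h)))
  · exact sub_mem (h2 _ (prj_mem_CH U h)) (gs_mem_CH s h1 (h2 _ (prj_mem_CH V h)))
  · obtain ⟨e1, e2, e3⟩ := Rot_prj hU hV hd h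
    have e4 := k4 _ (mU c)
    have e5 := congrArg (gs R Y s) (k4 _ (mV c))
    rw [psh_congr (g := fun y : Y => s • y) jU (prj_mem U c), ← gs] at e4
    rw [psh_congr (g := fun y : Y => s⁻¹ • y) jV (prj_mem V c), ← gs, map_add, map_sub, ← gs_mul,
      mul_inv_cancel, gs_one] at e5
    simp only [LinearMap.sub_apply, LinearMap.comp_apply, map_sub]
    rw [e2, e3, dT_gs, sub_add_sub_comm, e4, e5]
    conv_rhs => rw [← e1, map_add]
    abel

end

theorem Rot_norm (θ : ℝ) (w : ℂ) : ‖Complex.exp (2 * Real.pi * Complex.I * θ) * w‖ = ‖w‖ := by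
  have h : (2 * Real.pi * Complex.I * θ : ℂ) = ((2 * Real.pi * θ : ℝ) : ℂ) * Complex.I := by
    push_cast
    ring
  rw [norm_mul, h, Complex.norm_exp_ofReal_mul_I, one_mul]

theorem rot_stmt (B : Bas1) : RotStmt := by
  intro R _ G X Y _ _ _ _ _ F p s T e D hF hD hDt hdc
  obtain ⟨κ⟩ := B.kit
  obtain ⟨m, hm⟩ := T.rot
  have hp : IsLocallyInjective p := (B.cov G X Y _ p T.cov).2.1.isLocallyInjective
  have a1 : ∀ D' ⊆ D, ∀ x ∈ e.symm '' D', x ∈ e.source ∧ e x ∈ D' := by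
    rintro D' h _ ⟨b, hb, rfl⟩
    exact ⟨e.map_target (hDt (h hb)), by rwa [e.right_inv (hDt (h hb))]⟩
  have a2 : RotInv D := fun x hx w' h => hdc x hx w' h.le
  have a3 : ∀ D' ⊆ D, RotInv D' → ∀ x ∈ e.symm '' D', ∀ θ : ℝ,
      ((e x).1, Complex.exp (2 * Real.pi * Complex.I * θ) * (e x).2) ∈ D' :=
    fun D' h h' x hx θ => h' _ (a1 D' h x hx).2 _ (Rot_norm θ _)
  obtain ⟨H, h1, h2, h3, h4⟩ := B.hl G X Y _ p T.cov (e.symm '' D)
    (fun q => rotL e (e q.2).1 (e q.2).2 q.1)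
    (by
      have c1 : ContinuousOn (fun q : ℝ × X => e q.2) (Icc 0 1 ×ˢ (e.symm '' D ∩ Fᶜ)) :=
        e.continuousOn.comp continuousOn_snd fun q hq => (a1 D Subset.rfl _ hq.2.1).1
      refine e.continuousOn_symm.comp (c1.fst.prodMk (ContinuousOn.mul ?_ c1.snd))
        fun q hq => hDt (a3 D Subset.rfl a2 _ hq.2.1 _)
      fun_prop)
    (fun q hq h => by
      have h5 := hDt (a3 D Subset.rfl a2 _ hq.2.1 q.1)
      have h6 := (hF _ (e.map_target h5)).1 h
      rw [e.right_inv h5] at h6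
      exact hq.2.2 ((hF _ (a1 D Subset.rfl _ hq.2.1).1).2
        ((mul_eq_zero.1 h6).resolve_left (Complex.exp_ne_zero _))))
    (fun x hx => by simpa [rotL] using e.left_inv (a1 D Subset.rfl _ hx.1).1)
  have b1 : ∀ D' ⊆ D, RotInv D' →
      MapsTo H (Icc 0 1 ×ˢ (p ⁻¹' (e.symm '' D'))) (p ⁻¹' (e.symm '' D')) := fun D' h h' q hq => by
    rw [mem_preimage, h3 q.1 hq.1 q.2 (image_mono h hq.2)]
    exact ⟨_, a3 D' h h' _ hq.2 _, rfl⟩
  have b2 : IsOpen (p ⁻¹' (e.symm '' D)) :=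
    (e.isOpen_image_symm_of_subset_target hD hDt).preimage T.cov.cont
  have b3 : ∀ (g : G) y, (fun y => H (1, y))^[m] (g • y) = g • (fun y => H (1, y))^[m] y :=
    fun g => Function.Commute.iterate_left (f := fun y => H (1, y)) (g := fun y : Y => g • y)
      (fun y => h4 g 1 y) m
  have b4 : ∀ y ∈ p ⁻¹' (e.symm '' D),
      (fun y => H (1, y))^[m] y = s • y ∨ (fun y => H (1, y))^[m] y = s⁻¹ • y := by
    intro y hy
    obtain ⟨g, g1, g2⟩ := hm e (e (p y)).1 (e (p y)).2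
      ⟨hF, fun h => T.cov.mem y ((hF _ (a1 D Subset.rfl _ hy).1).2 h),
        fun w' h => hDt (hdc _ (a1 D Subset.rfl _ hy).2 w' h)⟩
      ⟨fun θ => H (θ, y), h1.comp_continuous (by fun_prop) fun θ => ⟨θ.2, hy⟩⟩
      fun θ => h3 θ θ.2 y hy
    replace g1 : H (1, y) = g • y := g1.trans (congrArg (g • ·) (h2 y))
    have g3 : ∀ n, (fun y => H (1, y))^[n] y = g ^ n • y := fun n => by
      induction n with
      | zero => simp
      | succ n ih => rw [Function.iterate_succ_apply', ih, h4, g1, pow_succ, mul_smul]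
    rw [g3]
    exact g2.imp (fun h => by rw [h]) fun h => by rw [h]
  have b5 : ContinuousOn (fun y => H (1, y))^[m] (p ⁻¹' (e.symm '' D)) :=
    (h1.comp (f := fun y : Y => ((1 : ℝ), y)) (by fun_prop)
      fun y hy => ⟨right_mem_Icc.2 zero_le_one, hy⟩).iterate
      (fun y hy => b1 D Subset.rfl a2 ⟨right_mem_Icc.2 zero_le_one, hy⟩) m
  have b6 : ∀ y ∈ p ⁻¹' (e.symm '' D), p ((fun y => H (1, y))^[m] y) = p y := fun y hy => by
    rcases b4 y hy with h | h <;> rw [h, T.cov.inv]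
  obtain ⟨K, k1, k2, k3, k4⟩ := Rot_iter (R := R) κ s h1 h2 (h4 s) (b1 D Subset.rfl a2) m
  obtain ⟨H', l1, l2, l3, l4⟩ := Rot_glue s (Rot_open hp T.cov.inv b2 b5 b6 s)
    (Rot_open hp T.cov.inv b2 b5 b6 s⁻¹)
    (Set.disjoint_left.2 fun y h h' => by
      have h5 : s ^ (2 : ℤ) • y = y := by
        rw [zpow_two, mul_smul, ← h.2, h'.2, smul_inv_smul]
      exact two_ne_zero (T.inf 2 (T.cov.free _ _ h5)))
    (Subset.antisymm (fun y hy => (b4 y hy).imp (fun h => ⟨hy, h⟩) fun h => ⟨hy, h⟩)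
      fun y hy => hy.elim And.left And.left)
    (fun y => by simp only [mem_ofPred_eq, mem_preimage, T.cov.inv, b3, smul_left_cancel_iff])
    (fun y => by
      simp only [mem_ofPred_eq, mem_preimage, T.cov.inv, b3, inv_smul_smul]
      rw [eq_inv_smul_iff])
    (fun y h => h.2) (fun y h => h.2) K k1 k2 k4
  exact ⟨H', l1, l2, fun D' h h' => l3 _
    (fun y hy => by rwa [mem_preimage, T.cov.inv]) (k3 _ (b1 D' h h')), l4⟩

end Pool.Agent.MP_bc14e1_gt
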