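import Pool.Agent.MP_bc14e1_gt.IfD

open Set Metric
open scoped Classical

namespace Pool.Agent.MP_bc14e1_gt

theorem Seam_polar (A : E 4 ≃L[ℝ] ℝ × ℝ × ℂ) :
    ∃ Φ : OpenPartialHomeomorph (E 4) (ℝ × ℝ × ℂ), Φ.source = {y | 0 < (A y).1} ∧
      ∀ y, Φ y = (‖y‖, ((A y).1)⁻¹ • (A y).2) := by
  have hn : ∀ w : ℝ × ℂ, 0 < ‖A.symm (1, w)‖ := by
    intro w
    rw [norm_pos_iff]
    intro h
    have := congrArg (fun y => (A y).1) h
    simp at this
  have h1 : Continuous fun y => (A y).1 := by fun_prop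
  have hA : ∀ z : ℝ × ℝ × ℂ, A ((z.1 / ‖A.symm (1, z.2)‖) • A.symm (1, z.2)) =
      (z.1 / ‖A.symm (1, z.2)‖, (z.1 / ‖A.symm (1, z.2)‖) • z.2) := by
    intro z
    rw [map_smul, A.apply_symm_apply, Prod.smul_mk, smul_eq_mul, mul_one]
  refine ⟨{ toFun := fun y => (‖y‖, ((A y).1)⁻¹ • (A y).2)
            invFun := fun z => (z.1 / ‖A.symm (1, z.2)‖) • A.symm (1, z.2)
            source := {y | 0 < (A y).1}
            target := {z | 0 < z.1}
            map_source' := fun y hy => ?_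
            map_target' := fun z hz => ?_
            left_inv' := fun y hy => ?_
            right_inv' := fun z hz => ?_
            open_source := isOpen_lt continuous_const h1
            open_target := isOpen_lt continuous_const continuous_fst
            continuousOn_toFun := ?_
            continuousOn_invFun := ?_ }, rfl, fun _ => rfl⟩
  · show 0 < ‖y‖
    rw [norm_pos_iff]
    rintro rfl
    simp at hy
  · show 0 < (A _).1
    rw [hA]
    exact div_pos hz (hn _)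
  · have ha : 0 < (A y).1 := hy
    have hy0 : y ≠ 0 := by
      rintro rfl
      simp at ha
    have e : A.symm (1, ((A y).1)⁻¹ • (A y).2) = ((A y).1)⁻¹ • y := by
      rw [A.symm_apply_eq, map_smul]
      refine Prod.ext ?_ rfl
      simp [inv_mul_cancel₀ ha.ne']
    show (‖y‖ / ‖A.symm (1, ((A y).1)⁻¹ • (A y).2)‖) • A.symm (1, ((A y).1)⁻¹ • (A y).2) = y
    have hy1 : ‖y‖ ≠ 0 := norm_ne_zero_iff.2 hy0
    rw [e, smul_smul, norm_smul, Real.norm_eq_abs, abs_of_pos (inv_pos.2 ha)]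
    have : ‖y‖ / (((A y).1)⁻¹ * ‖y‖) * ((A y).1)⁻¹ = 1 := by field_simp
    rw [this, one_smul]
  · have hz' : 0 < z.1 := hz
    have hp := div_pos hz' (hn z.2)
    show (‖_‖, ((A _).1)⁻¹ • (A _).2) = z
    rw [hA, norm_smul, Real.norm_eq_abs, abs_of_pos hp, div_mul_cancel₀ _ (hn z.2).ne', smul_smul,
      inv_mul_cancel₀ hp.ne', one_smul]
  · exact continuous_norm.continuousOn.prodMk
      ((h1.continuousOn.inv₀ fun y hy => ne_of_gt hy).smul (by fun_prop))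
  · refine Continuous.continuousOn ?_
    exact (continuous_fst.div (by fun_prop) fun z => (hn z.2).ne').smul (by fun_prop)

theorem Seam_shear (V : Set (ℝ × ℝ)) (hV : IsOpen V) (h : ℝ × ℝ → ℂ) (hh : ContinuousOn h V) :
    ∃ S : OpenPartialHomeomorph (ℝ × ℝ × ℂ) (ℂ × ℂ), S.source = {z | (z.1, z.2.1) ∈ V} ∧
      ∀ z, (S z).2 = z.2.2 - h (z.1, z.2.1) := by
  have c1 : Continuous fun z : ℝ × ℝ × ℂ => (z.1, z.2.1) := by fun_prop
  have c2 : Continuous fun w : ℂ × ℂ => (w.1.re, w.1.im) := by fun_prop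
  refine ⟨{ toFun := fun z => (z.1 + z.2.1 * Complex.I, z.2.2 - h (z.1, z.2.1))
            invFun := fun w => (w.1.re, w.1.im, w.2 + h (w.1.re, w.1.im))
            source := {z | (z.1, z.2.1) ∈ V}
            target := {w | (w.1.re, w.1.im) ∈ V}
            map_source' := fun z hz => by simpa using hz
            map_target' := fun w hw => hw
            left_inv' := fun z _ => by simp
            right_inv' := fun w _ => by simp
            open_source := hV.preimage c1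
            open_target := hV.preimage c2
            continuousOn_toFun := ?_
            continuousOn_invFun := ?_ }, rfl, fun _ => rfl⟩
  · exact ContinuousOn.prodMk (by fun_prop)
      (ContinuousOn.sub (by fun_prop) (hh.comp c1.continuousOn fun z hz => hz))
  · exact ContinuousOn.prodMk (by fun_prop) (ContinuousOn.prodMk (by fun_prop)
      (ContinuousOn.add (by fun_prop) (hh.comp c2.continuousOn fun z hz => hz)))

theorem Seam_core (A : E 4 ≃L[ℝ] ℝ × ℝ × ℂ) (g : E 2 → E 4) (u : E 2)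
    (κ : OpenPartialHomeomorph (E 2) (ℝ × ℝ)) (hu : u ∈ κ.source) (hu1 : ‖u‖ = 1)
    (hκ : ∀ x, κ x = (‖g x‖, ((A (g x)).1)⁻¹ * (A (g x)).2.1)) (hg : ContinuousOn g κ.source)
    (hpos : ∀ x ∈ κ.source, 0 < (A (g x)).1) (hle : ∀ x ∈ κ.source, ‖x‖ ≤ 1 ↔ 1 ≤ ‖g x‖)
    (heq : ∀ x ∈ κ.source, ‖x‖ = 1 ↔ ‖g x‖ = 1) :
    ∃ e : OpenPartialHomeomorph (E 4) (ℂ × ℂ), (∀ r ∈ Ioc (0 : ℝ) 1, r • g u ∈ e.source) ∧
      ∀ y ∈ e.source, (e y).2 = 0 ↔ y ∈ g '' (κ.source ∩ closedBall 0 1) ∨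
        (‖y‖ < 1 ∧ ‖y‖⁻¹ • y ∈ g '' (κ.source ∩ sphere 0 1)) := by
  obtain ⟨Φ, hΦs, hΦ⟩ := Seam_polar A
  have hρ : Continuous fun z : ℝ × ℝ => (max z.1 1, z.2) := by fun_prop
  have hm : MapsTo g κ.source Φ.source := fun x hx => by rw [hΦs]; exact hpos x hx
  have hγ : ContinuousOn (fun z => (Φ (g (κ.symm z))).2.2) κ.target :=
    ((Φ.continuousOn.comp hg hm).comp κ.continuousOn_symm κ.mapsTo_symm).snd.snd
  obtain ⟨S, hSs, hS⟩ := Seam_shear _ (κ.open_target.preimage hρ)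
    (fun z => (Φ (g (κ.symm (max z.1 1, z.2)))).2.2) (hγ.comp hρ.continuousOn fun z hz => hz)
  have hκ' : ∀ x, κ x = ((Φ (g x)).1, (Φ (g x)).2.1) := fun x => by rw [hκ, hΦ]; rfl
  have hsm : ∀ r : ℝ, 0 < r → ∀ y, (r • y ∈ Φ.source ↔ y ∈ Φ.source) ∧
      (Φ (r • y)).2 = (Φ y).2 := by
    intro r hr y
    refine ⟨?_, ?_⟩
    · simp [hΦs, hr]
    · rw [hΦ, hΦ, map_smul, Prod.smul_snd, Prod.smul_fst, smul_smul, smul_eq_mul, mul_inv,
        mul_right_comm, inv_mul_cancel₀ hr.ne', one_mul]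
  have hn : ∀ y, (Φ y).1 = ‖y‖ := fun y => by rw [hΦ]
  refine ⟨Φ.trans S, fun r hr => ⟨((hsm r hr.1 _).1).2 (hm hu), ?_⟩, fun y hy => ?_⟩
  · have e : (max (Φ (r • g u)).1 1, (Φ (r • g u)).2.1) = κ u := by
      rw [hκ', (hsm r hr.1 _).2, hn, hn, norm_smul, (heq u hu).1 hu1, mul_one, Real.norm_eq_abs,
        abs_of_pos hr.1, max_eq_right hr.2]
    show Φ (r • g u) ∈ S.source
    rw [hSs]
    show (max (Φ (r • g u)).1 1, (Φ (r • g u)).2.1) ∈ κ.target
    rw [e]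
    exact κ.map_source hu
  · have hy1 : y ∈ Φ.source := hy.1
    have hy2 : (max ‖y‖ 1, (Φ y).2.1) ∈ κ.target := by
      have h : Φ y ∈ S.source := hy.2
      rw [hSs] at h
      rw [← hn]
      exact h
    have hy0 : 0 < ‖y‖ := by
      rw [norm_pos_iff]
      rintro rfl
      simp [hΦs] at hy1
    have hi := hsm _ (inv_pos.2 hy0) y
    have hi1 : ‖‖y‖⁻¹ • y‖ = 1 := by
      rw [norm_smul, norm_inv, norm_norm, inv_mul_cancel₀ hy0.ne']
    show (S (Φ y)).2 = 0 ↔ _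
    rw [hS, sub_eq_zero, hn]
    constructor
    · intro h
      have hx := κ.map_target hy2
      have hk := κ.right_inv hy2
      rw [hκ', Prod.mk.injEq] at hk
      have h2 : (Φ (g (κ.symm (max ‖y‖ 1, (Φ y).2.1)))).2 = (Φ y).2 := Prod.ext hk.2 h.symm
      rcases lt_or_ge ‖y‖ 1 with h1 | h1
      · refine Or.inr ⟨h1, _, ⟨hx, ?_⟩, Φ.injOn (hm hx) (hi.1.2 hy1) (Prod.ext ?_ ?_)⟩
        · rw [mem_sphere_zero_iff_norm, heq _ hx, ← hn, hk.1, max_eq_right h1.le]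
        · rw [hk.1, hn, hi1, max_eq_right h1.le]
        · rw [h2, hi.2]
      · refine Or.inl ⟨_, ⟨hx, ?_⟩, Φ.injOn (hm hx) hy1 (Prod.ext ?_ h2)⟩
        · rw [mem_closedBall_zero_iff, hle _ hx, ← hn, hk.1]
          exact le_max_right _ _
        · rw [hk.1, hn, max_eq_left h1]
    · rintro (⟨x, ⟨hx, hx1⟩, rfl⟩ | ⟨h1, x, ⟨hx, hx1⟩, hxy⟩)
      · rw [mem_closedBall_zero_iff, hle _ hx] at hx1
        rw [max_eq_left hx1, ← hn, ← hκ', κ.left_inv hx]
      · have e : (max ‖y‖ 1, (Φ y).2.1) = κ x := by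
          rw [hκ', hxy, hn, hi1, hi.2, max_eq_right h1.le]
        rw [e, κ.left_inv hx, hxy, hi.2]

theorem Seam_tan {φ : E 2 → ℝ} {L : E 2 →L[ℝ] ℝ} {u : E 2} (hφ : HasStrictFDerivAt φ L u)
    (hu : ‖u‖ = 1) (h : ∀ᶠ x in nhds u, ‖x‖ = 1 → φ x = 1) (v : E 2) (hv : inner ℝ u v = 0) :
    L v = 0 := by
  have hex : IsLocalExtrOn φ {x | ‖x‖ ^ 2 = ‖u‖ ^ 2} u := by
    refine Or.inl ?_
    filter_upwards [nhdsWithin_le_nhds h, self_mem_nhdsWithin] with x hx hx'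
    have h1 : ‖x‖ = 1 := by
      have : ‖x‖ ^ 2 = ‖u‖ ^ 2 := hx'
      rw [← hu]
      exact (pow_left_inj₀ (norm_nonneg _) (norm_nonneg _) two_ne_zero).1 this
    rw [hx h1, h.self_of_nhds hu]
  obtain ⟨a, b, hab, he⟩ :=
    hex.exists_multipliers_of_hasStrictFDerivAt_1d (hasStrictFDerivAt_norm_sq u) hφ
  have hb : b ≠ 0 := by
    rintro rfl
    have := congrArg (fun f : E 2 →L[ℝ] ℝ => f u) he
    simp [hu] at this
    exact hab (by simp [this])
  have := congrArg (fun f : E 2 →L[ℝ] ℝ => f v) he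
  simpa [hv, hb] using this

theorem Seam_side {φ : E 2 → ℝ} {L : E 2 →L[ℝ] ℝ} {u : E 2} (hφ : HasStrictFDerivAt φ L u)
    (hu : ‖u‖ = 1) (h : ∀ᶠ x in nhds u, ‖x‖ = 1 → φ x = 1) (hL : L u < 0) :
    ∀ᶠ x in nhds u, 1 < ‖x‖ → φ x < 1 := by
  have hc : Filter.Tendsto (fun x : E 2 => ‖x‖⁻¹ • x) (nhds u) (nhds u) := by
    have : ContinuousAt (fun x : E 2 => ‖x‖⁻¹ • x) u :=
      (continuous_norm.continuousAt.inv₀ (by rw [hu]; exact one_ne_zero)).smul continuousAt_id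
    simpa [ContinuousAt, hu] using this
  have h1 := (Filter.tendsto_id.prodMk_nhds hc).eventually
    (hφ.isLittleO.def (c := -L u / 2) (by linarith))
  have h2 := (L.continuous.continuousAt.tendsto.comp hc).eventually
    (gt_mem_nhds (show L u < L u / 2 by linarith))
  filter_upwards [h1, h2, hc.eventually h] with x a1 a2 a3 hx
  have hx0 : 0 < ‖x‖ := by linarith
  have hn : ‖‖x‖⁻¹ • x‖ = 1 := by
    rw [norm_smul, norm_inv, norm_norm, inv_mul_cancel₀ hx0.ne']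
  have e : x - ‖x‖⁻¹ • x = (‖x‖ - 1) • ‖x‖⁻¹ • x := by
    rw [sub_smul, one_smul, smul_smul, mul_inv_cancel₀ hx0.ne', one_smul]
  simp only [id, Function.comp] at a1 a2
  rw [a3 hn, e, map_smul, norm_smul, hn, mul_one, smul_eq_mul, Real.norm_eq_abs, Real.norm_eq_abs,
    abs_of_pos (sub_pos.2 hx)] at a1
  have := (abs_le.1 a1).2
  nlinarith [mul_pos (sub_pos.2 hx) (sub_pos.2 a2)]

theorem Seam_coord (k T : E 4) (hk : ‖k‖ = 1) (hT : T ≠ 0) (hkT : inner ℝ k T = 0) :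
    ∃ A : E 4 ≃L[ℝ] ℝ × ℝ × ℂ, (A k).1 = 1 ∧ (A k).2.1 = 0 ∧ (A T).2.1 ≠ 0 := by
  have hT' : 0 < ‖T‖ := norm_pos_iff.2 hT
  have ho : Orthonormal ℝ (({0, 1} : Set (Fin 4)).domRestrict ![k, ‖T‖⁻¹ • T, 0, 0]) := by
    refine ⟨?_, ?_⟩
    · rintro ⟨i, rfl | rfl⟩
      · exact hk
      · show ‖‖T‖⁻¹ • T‖ = 1
        rw [norm_smul, norm_inv, norm_norm, inv_mul_cancel₀ hT'.ne']
    · rintro ⟨i, rfl | rfl⟩ ⟨j, rfl | rfl⟩ hij
      · exact absurd rfl hij
      · show inner ℝ k (‖T‖⁻¹ • T) = 0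
        rw [inner_smul_right, hkT, mul_zero]
      · show inner ℝ (‖T‖⁻¹ • T) k = 0
        rw [real_inner_smul_left, real_inner_comm, hkT, mul_zero]
      · exact absurd rfl hij
  obtain ⟨b, hb⟩ := ho.exists_orthonormalBasis_extension_of_card_eq (by simp)
  have b0 : b 0 = k := hb 0 (by simp)
  have b1 : b 1 = ‖T‖⁻¹ • T := hb 1 (by simp)
  let C : E 4 ≃ₗ[ℝ] ℝ × ℝ × ℂ :=
    { toFun := fun y => (y 0, y 1, ⟨y 2, y 3⟩)
      invFun := fun z => !₂[z.1, z.2.1, z.2.2.re, z.2.2.im]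
      map_add' := fun _ _ => rfl
      map_smul' := fun c y => by
        refine Prod.ext rfl (Prod.ext rfl (Complex.ext ?_ ?_)) <;> simp
      left_inv := fun y => by
        ext i
        fin_cases i <;> rfl
      right_inv := fun _ => rfl }
  refine ⟨(b.repr.toLinearEquiv.trans C).toContinuousLinearEquiv, ?_, ?_, ?_⟩
  · show b.repr k 0 = 1
    rw [b.repr_apply_apply, b0, real_inner_self_eq_norm_sq, hk, one_pow]
  · show b.repr k 1 = 0
    rw [b.repr_apply_apply, b1, real_inner_smul_left, real_inner_comm, hkT, mul_zero]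
  · show b.repr T 1 ≠ 0
    rw [b.repr_apply_apply, b1, real_inner_smul_left, real_inner_self_eq_norm_sq]
    positivity

theorem seam_stmt : SeamStmt := by
  intro g u hu hg hinj h1 h2 hd N hN
  have hk : ‖g u‖ = 1 := h1.self_of_nhds hu
  have hk0 : g u ≠ 0 := by
    intro h
    rw [h, norm_zero] at hk
    exact zero_ne_one hk
  have hD := hg.hasStrictFDerivAt one_ne_zero
  have hν := (hg.norm ℝ hk0).hasStrictFDerivAt one_ne_zero
  set L := fderiv ℝ (fun y => ‖g y‖) u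
  set D := fderiv ℝ g u
  have hLu : L u < 0 := by
    have h0 : HasDerivAt (fun r : ℝ => r • u) u 1 := by
      simpa using (hasDerivAt_id (1 : ℝ)).smul_const u
    have h3 : HasFDerivAt (fun y => ‖g y‖) L ((1 : ℝ) • u) := by
      rw [one_smul]
      exact hν.hasFDerivAt
    have h4 := (h3.comp_hasDerivAt (1 : ℝ) h0).deriv
    rw [← h4]
    exact hd
  have huu : u 0 ^ 2 + u 1 ^ 2 = 1 := by
    have := EuclideanSpace.real_norm_sq_eq u
    rw [hu, Fin.sum_univ_two] at this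
    linarith
  let τ : E 2 := !₂[-u 1, u 0]
  have huτ : inner ℝ u τ = 0 := by
    simp [τ, PiLp.inner_apply, Fin.sum_univ_two]
    ring
  have hτ0 : τ ≠ 0 := by
    intro h
    have a0 : -u 1 = 0 := congrArg (fun v : E 2 => v 0) h
    have a1 : u 0 = 0 := congrArg (fun v : E 2 => v 1) h
    rw [a1, neg_eq_zero.1 a0] at huu
    norm_num at huu
  have hdec : ∀ v : E 2, v = (u 0 * v 0 + u 1 * v 1) • u + (u 0 * v 1 - u 1 * v 0) • τ := by
    intro v
    ext i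
    fin_cases i
    · simp [τ]
      linear_combination (-v 0) * huu
    · simp [τ]
      linear_combination (-v 1) * huu
  have hLτ : L τ = 0 := Seam_tan hν hu h1 τ huτ
  have hkT : inner ℝ (g u) (D τ) = 0 := by
    have := Seam_tan ((hasStrictFDerivAt_norm_sq (g u)).comp u hD) hu
      (h1.mono fun x hx hx' => by simp [hx hx']) τ huτ
    simpa using this
  have hT : D τ ≠ 0 := fun h => hτ0 (hinj (by rw [h, map_zero]))
  obtain ⟨A, hA1, hA2, hA3⟩ := Seam_coord (g u) (D τ) hk hT hkT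
  let a : E 4 →L[ℝ] ℝ := ContinuousLinearMap.fst ℝ _ _ ∘L (A : E 4 →L[ℝ] ℝ × ℝ × ℂ)
  let b : E 4 →L[ℝ] ℝ := ContinuousLinearMap.fst ℝ _ _ ∘L ContinuousLinearMap.snd ℝ _ _ ∘L
    (A : E 4 →L[ℝ] ℝ × ℝ × ℂ)
  have ha : ContDiffAt ℝ 1 (fun x => (A (g x)).1) u := a.contDiff.contDiffAt.comp u hg
  have hb : HasStrictFDerivAt (fun x => (A (g x)).2.1) (b ∘L D) u := b.hasStrictFDerivAt.comp u hD
  have hab := ((ha.inv (by rw [hA1]; exact one_ne_zero)).hasStrictFDerivAt one_ne_zero).mul hb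
  simp only [Pi.inv_apply, hA1, hA2, inv_one, one_smul, zero_smul, add_zero] at hab
  have hκ := hν.prodMk hab
  have hM : Function.Injective ((L.prod (b ∘L D) : E 2 →L[ℝ] ℝ × ℝ) : E 2 →ₗ[ℝ] ℝ × ℝ) := by
    rw [injective_iff_map_eq_zero]
    intro v hv
    have e1 : L v = 0 := congrArg Prod.fst hv
    have e2 : (A (D v)).2.1 = 0 := congrArg Prod.snd hv
    rw [hdec v, map_add, map_smul, map_smul, hLτ, smul_zero, add_zero, smul_eq_mul] at e1
    have e3 := (mul_eq_zero.1 e1).resolve_right hLu.ne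
    rw [hdec v, e3, zero_smul, zero_add, map_smul, map_smul] at e2
    have e4 : u 0 * v 1 - u 1 * v 0 = 0 := (mul_eq_zero.1 e2).resolve_right hA3
    rw [hdec v, e3, e4, zero_smul, zero_smul, add_zero]
  have hκ' : HasStrictFDerivAt (fun x => (‖g x‖, ((A (g x)).1)⁻¹ * (A (g x)).2.1))
      ((LinearMap.linearEquivOfInjective _ hM (by simp)).toContinuousLinearEquiv :
        E 2 →L[ℝ] ℝ × ℝ) u := hκ
  have hpos : ∀ᶠ x in nhds u, 0 < (A (g x)).1 :=
    ha.continuousAt.tendsto.eventually (lt_mem_nhds (by rw [hA1]; exact one_pos))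
  obtain ⟨O, hO, hOo, huO⟩ := _root_.eventually_nhds_iff.1 (((((h1.and h2).and
    (Seam_side hν hu h1 hLu)).and hpos).and (hg.eventually (by simp))).and hN)
  let κ := (hκ'.toOpenPartialHomeomorph _).restrOpen O hOo
  have huκ : u ∈ κ.source := ⟨hκ'.mem_toOpenPartialHomeomorph_source, huO⟩
  refine ⟨κ.source, κ.open_source, huκ, fun x hx => (hO x hx.2).2, Seam_core A g u κ huκ hu
    (fun _ => rfl) (fun x hx => (hO x hx.2).1.2.continuousAt.continuousWithinAt)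
    (fun x hx => (hO x hx.2).1.1.2) (fun x hx => ?_) fun x hx => ?_⟩
  · obtain ⟨⟨⟨⟨⟨a1, a2⟩, a3⟩, -⟩, -⟩, -⟩ := hO x hx.2
    exact ⟨fun h => h.eq_or_lt.elim (fun h => (a1 h).ge) fun h => (a2 h).le,
      fun h => not_lt.1 fun h' => (a3 h').not_ge h⟩
  · obtain ⟨⟨⟨⟨⟨a1, a2⟩, a3⟩, -⟩, -⟩, -⟩ := hO x hx.2
    exact ⟨a1, fun h => le_antisymm (not_lt.1 fun h' => (a3 h').ne h)
      (not_lt.1 fun h' => (a2 h').ne' h)⟩

end Pool.Agent.MP_bc14e1_gt
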