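import Pool.Agent.MP_bc14e1_gt.If

open Set Metric
open scoped Classical

namespace Pool.Agent.MP_bc14e1_gt

/-- A section over a contractible set. -/
theorem Sec_ex {X Y : Type} [TopologicalSpace X] [TopologicalSpace Y] {p : Y → X} {A : Set X}
    {x : X} (hp : IsCoveringMapOn p A) (hA : Ctr A x) (y₀ : Y) (h₀ : p y₀ = x) :
    ∃ σ : X → Y, ContinuousOn σ A ∧ ∀ x ∈ A, p (σ x) = x := by
  obtain ⟨hx, H, hH, hm, h0, h1⟩ := hA
  have cov := hp.isCoveringMap_restrictPreimage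
  have hmem : ∀ z : unitInterval × A, ((1 - z.1.1, z.2.1) : ℝ × X) ∈ Icc (0 : ℝ) 1 ×ˢ A :=
    fun z => ⟨⟨sub_nonneg.2 z.1.2.2, sub_le_self _ z.1.2.1⟩, z.2.2⟩
  let K : C(unitInterval × A, A) :=
    ⟨fun z => ⟨H (1 - z.1.1, z.2.1), hm (hmem z)⟩,
      (hH.comp_continuous (by fun_prop) hmem).subtype_mk _⟩
  let f : C(A, p ⁻¹' A) := ContinuousMap.const _ ⟨y₀, by rw [mem_preimage, h₀]; exact hx⟩
  have hK : ∀ a, K (0, a) = A.restrictPreimage p (f a) := by
    intro a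
    apply Subtype.ext
    change H (1 - 0, a.1) = p y₀
    rw [sub_zero, h1 _ a.2, h₀]
  let L := cov.liftHomotopy K f hK
  refine ⟨fun a => if h : a ∈ A then (L (1, ⟨a, h⟩)).1 else y₀, ?_, fun a ha => ?_⟩
  · rw [continuousOn_iff_continuous_domRestrict]
    have : A.domRestrict (fun a => if h : a ∈ A then (L (1, ⟨a, h⟩)).1 else y₀) =
        fun a : A => (L (1, a)).1 := funext fun a => dif_pos a.2
    rw [this]
    fun_prop
  · have := congrArg Subtype.val (congrFun (cov.liftHomotopy_lifts K f hK) (1, ⟨a, ha⟩))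
    simp only [dif_pos ha]
    refine this.trans ?_
    change H (1 - 1, a) = a
    rw [sub_self, h0 _ ha]

/-- The image of a section over an open set is open. -/
theorem Sec_open {X Y : Type} [TopologicalSpace X] [TopologicalSpace Y] {p : Y → X} {A : Set X}
    (hp : IsLocalHomeomorph p) (hA : IsOpen A) {σ : X → Y} (hc : ContinuousOn σ A)
    (hσ : ∀ x ∈ A, p (σ x) = x) : IsOpen (σ '' A) := by
  refine isOpen_iff_mem_nhds.2 ?_
  rintro _ ⟨x, hx, rfl⟩
  obtain ⟨e, he, rfl⟩ := hp (σ x)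
  have h1 : e.source ∈ nhds (σ x) := e.open_source.mem_nhds he
  have h2 : σ ⁻¹' e.source ∩ A ∈ nhds (e (σ x)) := by
    rw [hσ x hx]
    exact Filter.inter_mem ((hc.continuousAt (hA.mem_nhds hx)).preimage_mem_nhds h1)
      (hA.mem_nhds hx)
  refine Filter.mem_of_superset
    (Filter.inter_mem h1 (hp.continuous.continuousAt.preimage_mem_nhds h2)) ?_
  rintro y ⟨hy, hy1, hy2⟩
  exact ⟨e y, hy2, e.injOn hy1 hy (hσ _ hy2)⟩

theorem sec_stmt (hCov : CovStmt) (hHL : HLStmt) : SecStmt := by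
  intro G X Y _ _ _ _ _ Z p hp A x hAZ hA y hy
  obtain ⟨-, hl, hc, hs, -⟩ := hCov G X Y Z p hp
  obtain ⟨y₀, h₀⟩ := hs x (hAZ hA.1)
  obtain ⟨σ, hσc, hσ⟩ := Sec_ex (hc.mono hAZ) hA y₀ h₀
  obtain ⟨g, hg⟩ := hp.trans (σ (p y)) y (hσ _ hy)
  have h1 : ContinuousOn (fun x => g • σ x) A := hσc.const_smul g
  have h2 : ∀ x ∈ A, p (g • σ x) = x := fun x hx => by rw [hp.inv, hσ x hx]
  exact ⟨fun x => g • σ x, h1, h2, hg.symm, fun hA' => Sec_open hl hA' h1 h2⟩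

end Pool.Agent.MP_bc14e1_gt
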