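import Pool.Agent.MP_bc14e1_gt.IfL

open Set Metric
open scoped Classical

namespace Pool.Agent.MP_bc14e1_gt

section Aux

variable {C : Type} [AddCommGroup C] [Module (Lam ℂ) C] {d : C →ₗ[Lam ℂ] C}
  {M : ℕ → Set ℝ → Submodule (Lam ℂ) C} {l : C → C → Lam ℂ} {J : C →+ C}

theorem Skew_neg_left (h : Sesq l) (u v : C) : l (-u) v = -l u v := by
  have := h.smul_left (-1) u v
  rwa [neg_one_smul, neg_one_mul] at this

theorem Skew_mem (hAS : IsAS d M l) (hJ : JInv d M l J) {k : ℕ} {S S' : Set ℝ} {c : C}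
    (hc : c ∈ M k S) (hS : ∀ r, -r ∈ S → r ∈ S') : J c ∈ M k S' :=
  hAS.mono k _ _ (fun r hr => hS r hr) (hJ.mem k S c hc)

theorem Skew_memN (hAS : IsAS d M l) (hJ : JInv d M l J) {k : ℕ} {c : C}
    (hc : c ∈ M k (Ioo (-1) 1)) : J c ∈ M k (Ioo (-1) 1) :=
  Skew_mem hAS hJ hc fun r hr => ⟨by linarith [hr.2], by linarith [hr.1]⟩

theorem Skew_ZN (hAS : IsAS d M l) (hJ : JInv d M l J) {y : C} (hy : y ∈ ZN d M) :
    J y ∈ ZN d M := by
  refine ⟨Skew_memN hAS hJ hy.1, ?_⟩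
  have h : d y = 0 := hy.2
  change d (J y) = 0
  rw [← hJ.Jd, h, map_zero]

theorem Skew_BN (hAS : IsAS d M l) (hJ : JInv d M l J) {y : C} (hy : y ∈ BN d M) :
    J y ∈ BN d M := by
  obtain ⟨b, hb, rfl⟩ := hy
  exact ⟨J b, Skew_memN hAS hJ hb, (hJ.Jd b).symm⟩

theorem Skew_QN (hLaur : LaurStmt) (hAS : IsAS d M l) (hJ : JInv d M l J) {ζ : Circle} {c : C}
    (hc : c ∈ QN d M ζ) : J c ∈ QN d M ζ := by
  obtain ⟨-, -, -, -, -, -, -, -, -, -, hpi, -⟩ := hLaur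
  obtain ⟨hc1, w, hw⟩ := hc
  have hw' : piL ζ • w = d c := hw
  refine ⟨Skew_memN hAS hJ hc1,
    (-(LaurentPolynomial.T (-1) * LaurentPolynomial.C ((ζ⁻¹ : Circle) : ℂ)) : Lam ℂ) • J w, ?_⟩
  change piL ζ • _ = d (J c)
  rw [← hJ.Jd, ← hw', hJ.smul, hpi, smul_smul, mul_comm (piL ζ)]

theorem Skew_A (hLaur : LaurStmt) (hKey : KeyStmt) (hAS : IsAS d M l) (hJ : JInv d M l J)
    {ζ : Circle} {P : C → C → ℂ} (hF : PkF d M l ζ P) {y c : C} (hy : y ∈ ZN d M)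
    (hc : c ∈ QN d M ζ) : P (J y) (J c) = -starRingEnd ℂ (P y c) := by
  have hJc := Skew_QN hLaur hAS hJ hc
  obtain ⟨-, -, -, -, -, -, -, hev, hdv, -⟩ := hLaur
  obtain ⟨-, -, k3, -, -, k6, -⟩ := hKey C d M l ζ hAS
  obtain ⟨a, b, ha, hab, hb, hcab⟩ := k6 2 c hc.1
  have hcI : c ∈ M 2 (Icc a b) := hAS.mono 2 _ _ Ioo_subset_Icc_self hcab
  obtain ⟨y1, hy1, hb1, -⟩ := k3 b 1 (by linarith) hb le_rfl y hy
  obtain ⟨y2, hy2, hb2, -⟩ := k3 (-1) a le_rfl ha (by linarith) y hy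
  obtain ⟨e, he, hde⟩ : y1 - y2 ∈ BN d M := by
    have := sub_mem hb2 hb1
    rwa [sub_sub_sub_cancel_left] at this
  have e1 : evL ζ (l e c) = P y c := by
    refine (hF.spec y hy c hc _).1 ⟨a, b, ha, hb, hcI, e, hAS.mono 2 _ _ Ioo_subset_Iio_self he,
      y1, hy1, -y2, neg_mem (hAS.mono 1 _ _ Ioo_subset_Iio_self hy2), 0, zero_mem _,
      Submodule.mem_sup_right hb1, ?_, rfl⟩
    rw [hde, smul_zero, add_zero, sub_eq_add_neg]
  have e2 : evL ζ (l (-J e) (J c)) = P (J y) (J c) := by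
    refine (hF.spec _ (Skew_ZN hAS hJ hy) _ hJc _).1 ⟨-b, -a, by linarith, by linarith,
      Skew_mem hAS hJ hcI fun r hr => ⟨by linarith [hr.2], by linarith [hr.1]⟩, -J e,
      neg_mem (hAS.mono 2 _ _ Ioo_subset_Iio_self (Skew_memN hAS hJ he)), J y2,
      Skew_mem hAS hJ hy2 fun r hr => ⟨by linarith [hr.2], by linarith [hr.1]⟩, -J y1,
      neg_mem (Skew_mem hAS hJ hy1 fun r hr => by
        have := hr.1
        change r < -b
        linarith), 0, zero_mem _, Submodule.mem_sup_right ?_, ?_, rfl⟩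
    · rw [← map_sub]; exact Skew_BN hAS hJ hb2
    · rw [map_neg, ← hJ.Jd, hde, map_sub, smul_zero, add_zero, neg_sub, sub_eq_add_neg]
  obtain ⟨E₁, E₂, hE₁, hE₂, hinv⟩ := hJ.inv
  have e3 := hinv e (hAS.mono 2 _ _ (subset_univ _) he) c (hAS.mono 2 _ _ (subset_univ _) hc.1)
  obtain ⟨w, hw⟩ := hc.2
  have hw' : piL ζ • w = d c := hw
  have z1 : E₁ y1 c = 0 := hE₁.2 1 2 _ _
    (Set.disjoint_left.2 fun r hr hr' => absurd hr.1 (not_lt.2 hr'.2)) _ hy1 _ hcI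
  have z2 : E₁ y2 c = 0 := hE₁.2 1 2 _ _
    (Set.disjoint_left.2 fun r hr hr' => absurd hr.2 (not_lt.2 hr'.1)) _ hy2 _ hcI
  rw [hde, ← hw', sub_eq_add_neg y1, hE₁.1.add_left, Skew_neg_left hE₁.1, z1, z2,
    hE₂.1.smul_right] at e3
  have e4 := congrArg (evL ζ) e3
  have z3 : evL ζ (piL ζ) = 0 := (hdv ζ _).2 dvd_rfl
  simp only [map_sub, map_add, map_neg, map_zero, map_mul, hev, z3, neg_zero, zero_mul,
    add_zero] at e4
  rw [← e2, ← e1, Skew_neg_left hAS.loc.1, map_neg, ← sub_eq_zero.1 e4, Complex.conj_conj]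

end Aux

theorem skew_stmt (hLaur : LaurStmt) (hKey : KeyStmt) (hHer : HerStmt) : SkewStmt := by
  intro C _ _ d M l ζ P J hAS hF hJ x hx c hc hdc
  have hQ : c ∈ QN d M ζ := ⟨hc, x, hdc.symm⟩
  have hJx := Skew_ZN hAS hJ hx
  have hJc := Skew_QN hLaur hAS hJ hQ
  have hA := Skew_A hLaur hKey hAS hJ hF hJx hQ
  rw [hJ.JJ] at hA
  obtain ⟨-, -, -, -, -, hT, hC, -, -, -, hpi, -⟩ := hLaur
  have hu : (-(LaurentPolynomial.T 1 * LaurentPolynomial.C (ζ : ℂ)) : Lam ℂ) *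
      -(LaurentPolynomial.T (-1) * LaurentPolynomial.C ((ζ⁻¹ : Circle) : ℂ)) = 1 := by
    rw [neg_mul_neg, mul_mul_mul_comm, ← LaurentPolynomial.T_add, ← map_mul, ← Circle.coe_mul]
    simp
  have hd' : d ((-(LaurentPolynomial.T 1 * LaurentPolynomial.C (ζ : ℂ)) : Lam ℂ) • J c) =
      piL ζ • J x := by
    rw [map_smul, ← hJ.Jd, hdc, hJ.smul, hpi, smul_smul, ← mul_assoc, hu, one_mul]
  have hH := (hHer C d M l ζ P hAS hF).2 x hx (J x) hJx c hc _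
    (Submodule.smul_mem _ _ hJc.1) hdc hd'
  rw [hF.smul_right _ x hx _ hJc, hA] at hH
  simp only [map_neg, map_mul, hT, hC, zpow_one, Complex.conj_conj] at hH
  have hz : ((ζ⁻¹ : Circle) : ℂ) * ζ = 1 := by rw [← Circle.coe_mul]; simp
  have h2 : 2 * P (J x) c = 0 := by
    linear_combination hH - (((ζ⁻¹ : Circle) : ℂ) * ζ + 1) * P (J x) c * hz
  simpa using h2

end Pool.Agent.MP_bc14e1_gt
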