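import Pool.Agent.MP_bc14e1_gt.IfT
import Pool.Agent.MP_bc14e1_gt.IfC

open Set Metric
open scoped Classical

namespace Pool.Agent.MP_bc14e1_gt

/-- A complex structure on four-space. -/
noncomputable def Swap_J (w : E 4) : E 4 := WithLp.toLp 2 ![-w 1, w 0, -w 3, w 2]

/-- A path of invertible contractions from the identity to its negative. -/
noncomputable def Swap_R (s : ℝ) (w : E 4) : E 4 := (1 - 2 * s) • w + (s * (1 - s)) • Swap_J w

theorem Swap_J_cont : Continuous Swap_J := by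
  unfold Swap_J
  refine (PiLp.continuous_toLp 2 _).comp (continuous_pi fun i => ?_)
  fin_cases i <;> simp <;> fun_prop

theorem Swap_norm_sq (s : ℝ) (w : E 4) :
    ‖Swap_R s w‖ ^ 2 = ((1 - 2 * s) ^ 2 + (s * (1 - s)) ^ 2) * ‖w‖ ^ 2 := by
  rw [EuclideanSpace.real_norm_sq_eq, EuclideanSpace.real_norm_sq_eq]
  simp [Swap_R, Swap_J, Fin.sum_univ_four]
  ring

theorem Swap_norm_le {s : ℝ} (hs : s ∈ Icc (0 : ℝ) 1) (w : E 4) : ‖Swap_R s w‖ ≤ ‖w‖ := by
  refine (pow_le_pow_iff_left₀ (norm_nonneg _) (norm_nonneg _) two_ne_zero).1 ?_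
  rw [Swap_norm_sq]
  have h1 : 0 ≤ s * (1 - s) := mul_nonneg hs.1 (sub_nonneg.2 hs.2)
  have h2 : s * (1 - s) ≤ 1 := by nlinarith [hs.1, hs.2]
  have h3 : (1 - 2 * s) ^ 2 + (s * (1 - s)) ^ 2 ≤ 1 := by nlinarith
  nlinarith [sq_nonneg ‖w‖]

theorem Swap_ne {s : ℝ} {w : E 4} (h : Swap_R s w = 0) : w = 0 := by
  have h1 := Swap_norm_sq s w
  rw [h, norm_zero] at h1
  have h2 : 0 < (1 - 2 * s) ^ 2 + (s * (1 - s)) ^ 2 := by
    by_cases h3 : 1 - 2 * s = 0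
    · have : s = 1 / 2 := by linarith
      rw [this]
      norm_num
    · positivity
  have h4 : ‖w‖ ^ 2 = 0 := by
    rcases mul_eq_zero.1 (h1.symm.trans (by norm_num)) with h5 | h5
    · exact absurd h5 h2.ne'
    · exact h5
  exact norm_eq_zero.1 (pow_eq_zero_iff two_ne_zero |>.1 h4)

theorem Swap_mem {s : ℝ} (hs : s ∈ Icc (0 : ℝ) 1) {x₀ z : E 4} {ρ : ℝ} (hz : z ∈ ball x₀ ρ)
    {ε : ℝ} (hε : |ε| = 1) :
    x₀ + (1 / 2 : ℝ) • ((z - x₀) + ε • Swap_R s (z - x₀)) ∈ ball x₀ ρ := by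
  rw [mem_ball_iff_norm] at hz ⊢
  rw [add_sub_cancel_left, norm_smul]
  have h1 := norm_add_le (z - x₀) (ε • Swap_R s (z - x₀))
  rw [norm_smul, Real.norm_eq_abs, hε, one_mul] at h1
  have h2 := Swap_norm_le hs (z - x₀)
  rw [Real.norm_of_nonneg (by norm_num)]
  linarith

theorem Swap_off {X Y : Type} [TopologicalSpace X] [TopologicalSpace Y] {o : Orientation4 X}
    {q : Y → X} {τ : TS (Y × Y) → ℝ} (h : IsThom o q τ) {c : Tot ℝ (Y × Y)}
    (hc : c ∈ CH ℝ (dia Y)ᶜ) : coevR τ c = 0 := by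
  refine map_CH (T := ⊥) (coevR τ) (fun k σ hσ => ?_) hc
  rw [coevR, Finsupp.linearCombination_single, h.off ⟨k, σ⟩ hσ, smul_zero]
  exact zero_mem _

theorem Swap_loc (κ : Kit) {X Y : Type} [TopologicalSpace X] [TopologicalSpace Y]
    {o : Orientation4 X} {q : Y → X} {τ : TS (Y × Y) → ℝ} (h : IsThom o q τ)
    (e : OpenPartialHomeomorph Y (E 4)) {y : Y} (hy : y ∈ e.source) {ρ : ℝ}
    (hρ : ball (e y) ρ ⊆ e.target) {c : Tot ℝ Y} (hc : c ∈ CH ℝ (e.source ∩ e ⁻¹' ball (e y) ρ))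
    (hd : dT ℝ Y c ∈ CH ℝ ({y}ᶜ : Set Y)) :
    coevR τ (psh ℝ (fun x => (y, x)) c) = coevR τ (psh ℝ (fun x => (x, y)) c) := by
  let g : ℝ → ℝ × Y → E 4 := fun ε p =>
    e y + (1 / 2 : ℝ) • ((e p.2 - e y) + ε • Swap_R p.1 (e p.2 - e y))
  let H : ℝ × Y → Y × Y := fun p => (e.symm (g (-1) p), e.symm (g 1 p))
  have hm : ∀ ε : ℝ, |ε| = 1 →
      MapsTo (g ε) (Icc 0 1 ×ˢ (e.source ∩ e ⁻¹' ball (e y) ρ)) e.target :=
    fun ε hε p hp => hρ (Swap_mem hp.1 hp.2.2 hε)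
  have hg : ∀ ε, ContinuousOn (g ε) (Icc 0 1 ×ˢ (e.source ∩ e ⁻¹' ball (e y) ρ)) := by
    intro ε
    have h1 : ContinuousOn (fun p : ℝ × Y => e p.2)
        (Icc 0 1 ×ˢ (e.source ∩ e ⁻¹' ball (e y) ρ)) :=
      e.continuousOn.comp continuous_snd.continuousOn fun p hp => hp.2.1
    have h2 : Continuous fun p : ℝ × E 4 =>
        e y + (1 / 2 : ℝ) • ((p.2 - e y) + ε • Swap_R p.1 (p.2 - e y)) := by
      have := Swap_J_cont
      unfold Swap_R
      fun_prop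
    exact h2.comp_continuousOn (f := fun p : ℝ × Y => (p.1, e p.2))
      (continuous_fst.continuousOn.prodMk h1)
  have hH : ContinuousOn H (Icc 0 1 ×ˢ (e.source ∩ e ⁻¹' ball (e y) ρ)) :=
    (e.continuousOn_symm.comp (hg _) (hm _ (by norm_num))).prodMk
      (e.continuousOn_symm.comp (hg _) (hm _ (by norm_num)))
  have h1 := congrArg (coevR τ) (dT_hop κ hH hc)
  have h2 : hop κ ℝ H (dT ℝ Y c) ∈ CH ℝ (dia Y)ᶜ := by
    have h3 : dT ℝ Y c ∈ CH ℝ ((e.source ∩ e ⁻¹' ball (e y) ρ) ∩ {y}ᶜ) := by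
      rw [CH_inter]
      exact ⟨dT_mem_CH hc, hd⟩
    refine hop_mem_CH κ H ?_ h3
    intro p hp hq
    refine hp.2.2 ?_
    have h4 : g (-1) p = g 1 p :=
      e.symm.injOn (hm _ (by norm_num) ⟨hp.1, hp.2.1⟩) (hm _ (by norm_num) ⟨hp.1, hp.2.1⟩) hq
    have h5 : Swap_R p.1 (e p.2 - e y) = g 1 p - g (-1) p := by
      simp only [g]
      module
    rw [h4, sub_self] at h5
    exact e.injOn hp.2.1.1 hy (sub_eq_zero.1 (Swap_ne h5))
  have e1 : psh ℝ (fun x => H (1, x)) c = psh ℝ (fun x => (x, y)) c := by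
    refine psh_congr (fun x hx => ?_) hc
    have a1 : g (-1) (1, x) = e x := by
      simp only [g, Swap_R]
      module
    have a2 : g 1 (1, x) = e y := by
      simp only [g, Swap_R]
      module
    simp only [H, a1, a2, e.left_inv hx.1, e.left_inv hy]
  have e0 : psh ℝ (fun x => H (0, x)) c = psh ℝ (fun x => (y, x)) c := by
    refine psh_congr (fun x hx => ?_) hc
    have a1 : g (-1) (0, x) = e y := by
      simp only [g, Swap_R]
      module
    have a2 : g 1 (0, x) = e x := by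
      simp only [g, Swap_R]
      module
    simp only [H, a1, a2, e.left_inv hx.1, e.left_inv hy]
  rw [map_add, h.coc, Swap_off h h2, add_zero, e0, e1, map_sub] at h1
  exact (sub_eq_zero.1 h1.symm).symm

theorem swap_stmt (B : Bas1) (hLocCtr : LocCtrStmt)
    (hLocDeg : LocDegStmt) (hDia : DiaStmt) : SwapStmt := by
  intro X Y _ _ _ _ _ o q τ hq h c hc
  obtain ⟨κ⟩ := B.kit
  refine sub_eq_zero.1 ((hDia X Y o q hq univ isOpen_univ).2
    (coevR τ ∘ₗ psh ℝ Prod.swap - coevR τ) (fun b _ => ?_) (fun c hc => ?_)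
    (fun y c r hr _ => ?_) c hc)
  · rw [LinearMap.sub_apply, LinearMap.comp_apply, ← dT_psh_cont continuous_swap, h.coc, h.coc,
      sub_self]
  · have h1 : c ∈ CH ℝ (dia Y)ᶜ := CH_mono (fun _ h => h.2) hc.1
    have h2 : psh ℝ Prod.swap c ∈ CH ℝ (dia Y)ᶜ :=
      psh_mem_CH (A := (dia Y)ᶜ) (B := (dia Y)ᶜ) _ (fun z hz h => hz (Eq.symm h)) h1
    rw [LinearMap.sub_apply, LinearMap.comp_apply, Swap_off h h1, Swap_off h h2, sub_self]
  · obtain ⟨e, hy, -, -⟩ := (hLocCtr X Y q hq y univ Filter.univ_mem).1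
    obtain ⟨ρ, hρ, hb⟩ := Metric.isOpen_iff.1 e.open_target _ (e.map_source hy)
    obtain ⟨c', hc', ⟨U, -, -, -, -, hd, -⟩, hW⟩ := (hLocDeg X Y o q hq y).2.2.2.1 c r hr
      (e.source ∩ e ⁻¹' ball (e y) ρ)
      (e.continuousOn.isOpen_inter_preimage e.open_source isOpen_ball) ⟨hy, mem_ball_self hρ⟩
    obtain ⟨-, b, -, hb'⟩ := hW univ (mem_CH_univ c)
    have key : ∀ f : Y → Y × Y, Continuous f → MapsTo f (univ \ {y}) (dia Y)ᶜ →
        coevR τ (psh ℝ f c) = coevR τ (psh ℝ f c') := fun f hf hm => by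
      have := Swap_off h (psh_mem_CH f hm hb')
      rwa [map_sub, map_sub, ← dT_psh_cont hf, map_sub, map_sub, h.coc, sub_zero,
        sub_eq_zero] at this
    rw [LinearMap.sub_apply, LinearMap.comp_apply, psh_psh' _ (by fun_prop), sub_eq_zero]
    change coevR τ (psh ℝ (fun x => (y, x)) c) = _
    rw [key _ (by fun_prop) fun x hx h => hx.2 (Eq.symm h),
      key (fun x => (x, y)) (by fun_prop) fun x hx h => hx.2 h]
    exact Swap_loc κ h e hy hb hc' (CH_mono (fun _ h => h.2) hd)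

end Pool.Agent.MP_bc14e1_gt
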