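import Pool.Agent.MP_bc14e1_gt.If

open Set Metric
open scoped Classical

namespace Pool.Agent.MP_bc14e1_gt

section

variable {R : Type} [CommRing R] {G Y : Type} [Group G] [TopologicalSpace Y] [MulAction G Y]
  [ContinuousConstSMul G Y]

/-- The translate of a simplex. -/
def Tf_sm (g : G) (σ : TS Y) : TS Y :=
  ⟨σ.1, ⟨(fun y : Y => g • y) ∘ σ.2, (continuous_const_smul g).comp σ.2.continuous⟩⟩

theorem Tf_gs_single (g : G) (σ : TS Y) (a : R) :
    gs R Y g (Finsupp.single σ a) = Finsupp.single (Tf_sm g σ) a :=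
  psh_single _ σ ((continuous_const_smul g).comp σ.2.continuous) a

theorem Tf_sm_mul (g h : G) (σ : TS Y) : Tf_sm (g * h) σ = Tf_sm g (Tf_sm h σ) := by
  simp only [Tf_sm]
  congr 1
  ext t
  exact mul_smul g h _

theorem Tf_sm_one (σ : TS Y) : Tf_sm (1 : G) σ = σ := by
  obtain ⟨k, σ⟩ := σ
  simp only [Tf_sm]
  congr 1
  ext t
  simp

theorem Tf_inj {s : G} (hs : ∀ (n : ℤ) (y : Y), s ^ n • y = y → n = 0) (σ : TS Y) {m n : ℤ}
    (h : Tf_sm (s ^ m) σ = Tf_sm (s ^ n) σ) : m = n := by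
  have h1 : Tf_sm (s ^ (m - n)) σ = σ := by
    rw [sub_eq_neg_add, zpow_add, Tf_sm_mul, h, ← Tf_sm_mul, ← zpow_add, neg_add_cancel, zpow_zero,
      Tf_sm_one]
  obtain ⟨k, σ⟩ := σ
  have h2 := eq_of_heq (Sigma.mk.inj h1).2
  have h3 := DFunLike.congr_fun h2 stdSimplex.barycenter
  exact sub_eq_zero.1 (hs _ _ h3)

/-- The position of a simplex in the orbit of `σ`. -/
noncomputable def Tf_e (R : Type) [CommRing R] (s : G) (σ τ : TS Y) : Lam R :=
  if h : ∃ n : ℤ, τ = Tf_sm (s ^ n) σ then LaurentPolynomial.T h.choose else 0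

theorem Tf_e_orb {s : G} (hs : ∀ (n : ℤ) (y : Y), s ^ n • y = y → n = 0) (σ : TS Y) (n : ℤ) :
    Tf_e R s σ (Tf_sm (s ^ n) σ) = LaurentPolynomial.T n := by
  have h : ∃ m : ℤ, Tf_sm (s ^ n) σ = Tf_sm (s ^ m) σ := ⟨n, rfl⟩
  rw [Tf_e, dif_pos h, ← Tf_inj hs σ h.choose_spec]

theorem Tf_e_sm {s : G} (hs : ∀ (n : ℤ) (y : Y), s ^ n • y = y → n = 0) (σ τ : TS Y) (m : ℤ) :
    Tf_e R s σ (Tf_sm (s ^ m) τ) = LaurentPolynomial.T m * Tf_e R s σ τ := by
  by_cases h : ∃ n : ℤ, τ = Tf_sm (s ^ n) σ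
  · obtain ⟨n, rfl⟩ := h
    rw [← Tf_sm_mul, ← zpow_add, Tf_e_orb hs, Tf_e_orb hs, LaurentPolynomial.T_add]
  · have h' : ¬ ∃ n : ℤ, Tf_sm (s ^ m) τ = Tf_sm (s ^ n) σ := by
      rintro ⟨n, hn⟩
      refine h ⟨-m + n, ?_⟩
      rw [zpow_add, Tf_sm_mul, ← hn, ← Tf_sm_mul, ← zpow_add, neg_add_cancel, zpow_zero,
        Tf_sm_one]
    rw [Tf_e, dif_neg h', Tf_e, dif_neg h, mul_zero]

theorem Tf_e_coeff {s : G} (hs : ∀ (n : ℤ) (y : Y), s ^ n • y = y → n = 0) (σ τ : TS Y) :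
    (Tf_e R s σ τ).coeff 0 = if τ = σ then 1 else 0 := by
  have h0 : Tf_sm (s ^ (0 : ℤ)) σ = σ := by rw [zpow_zero, Tf_sm_one]
  by_cases h : ∃ n : ℤ, τ = Tf_sm (s ^ n) σ
  · obtain ⟨n, rfl⟩ := h
    rw [Tf_e_orb hs]
    by_cases hn : n = 0
    · subst hn
      rw [if_pos h0, LaurentPolynomial.T_apply, if_pos rfl]
    · rw [if_neg fun h => hn (Tf_inj hs σ (h.trans h0.symm)), LaurentPolynomial.T_apply, if_neg hn]
  · rw [Tf_e, dif_neg h, if_neg fun h' => h ⟨0, h'.trans h0.symm⟩]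
    simp

theorem Tf_phi_act {s : G} (hs : ∀ (n : ℤ) (y : Y), s ^ n • y = y → n = 0) (σ : TS Y)
    (a : Lam R) (c : Tot R Y) : Finsupp.linearCombination R (Tf_e R s σ) (act R Y s a c) =
      a * Finsupp.linearCombination R (Tf_e R s σ) c := by
  induction a using LaurentPolynomial.induction_on' with
  | add p q hp hq => simp only [map_add, LinearMap.add_apply, hp, hq, add_mul]
  | C_mul_T n a =>
    rw [map_mul, Module.End.mul_apply, act_C, act_T, map_smul, mul_assoc,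
      ← LaurentPolynomial.smul_eq_C_mul]
    congr 1
    induction c using Finsupp.induction_linear with
    | zero => simp
    | add u v hu hv => simp only [map_add, hu, hv, mul_add]
    | single τ r =>
      rw [Tf_gs_single, Finsupp.linearCombination_single, Finsupp.linearCombination_single,
        Tf_e_sm hs, mul_smul_comm]

theorem Tf_phi_coeff {s : G} (hs : ∀ (n : ℤ) (y : Y), s ^ n • y = y → n = 0) (σ : TS Y)
    (c : Tot R Y) : (Finsupp.linearCombination R (Tf_e R s σ) c).coeff 0 = c σ := by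
  induction c using Finsupp.induction_linear with
  | zero => simp
  | add u v hu hv => simp [hu, hv]
  | single τ r =>
    rw [Finsupp.linearCombination_single, Finsupp.single_apply]
    have := Tf_e_coeff (R := R) hs σ τ
    split_ifs at this ⊢ <;> simp [this]

theorem Tf_zero [IsDomain R] {s : G} (hs : ∀ (n : ℤ) (y : Y), s ^ n • y = y → n = 0) {a : Lam R}
    (ha : a ≠ 0) {c : Tot R Y} (h : act R Y s a c = 0) : c = 0 := by
  ext σ
  have h1 := Tf_phi_act hs σ a c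
  rw [h, map_zero] at h1
  rw [← Tf_phi_coeff hs σ c, (mul_eq_zero.1 h1.symm).resolve_left ha]
  simp

end

theorem tf_stmt : TfStmt := by
  intro R _ _ G Y _ _ _ _ s hs a ha c
  refine ⟨Tf_zero hs ha, fun A hA h => ?_, fun k h => ?_⟩
  · have h1 : c - prj R A c = 0 := Tf_zero hs ha (by
      rw [map_sub, ← map_act (prj R A) (prj_gs s hA), prj_of_mem h, sub_self])
    rw [sub_eq_zero.1 h1]
    exact prj_mem A c
  · have h1 : c - deg R Y k c = 0 := Tf_zero hs ha (by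
      rw [map_sub, ← map_act (s := s) (deg R Y k) (fun c => deg_psh _ k c), deg_of_mem h, sub_self])
    rw [sub_eq_zero.1 h1]
    exact deg_mem k c

end Pool.Agent.MP_bc14e1_gt
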