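import Pool.Agent.MP_bc14e1_gt.IfT
import Pool.Agent.MP_bc14e1_gt.IfC

open Set Metric
open scoped Classical

namespace Pool.Agent.MP_bc14e1_gt

section

variable {R : Type} [CommRing R] {X : Type} [TopologicalSpace X]

theorem ThBase_un {X : Type} {V L : Set X} (h : L ⊆ V) : univ ⊆ V ∪ Lᶜ := fun x _ =>
  (em (x ∈ L)).imp (@h x) id

theorem ThBase_exc {V L : Set X} (hV : IsOpen V) (hL : IsClosed L) (h : L ⊆ V) {k : ℕ}
    {c : Tot R X} (hc : c ∈ DG R X k) (hd : dT R X c ∈ CH R Lᶜ) :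
    ∃ c₁ ∈ CC R V k, dT R X c₁ ∈ CH R (V \ L) ∧ ∃ b, c - c₁ - dT R X b ∈ CH R Lᶜ := by
  obtain ⟨m, hm⟩ := sdT_small_two (R := R) hV hL.isOpen_compl (c := c)
    (CH_mono (ThBase_un h) (mem_CH_univ c))
  have h1 : (sdT R X ^ m) c - prj R V ((sdT R X ^ m) c) ∈ CH R Lᶜ := by
    obtain ⟨u, hu, v, hv, e⟩ := Submodule.mem_sup.1 (hm m le_rfl)
    rw [← e, map_add, prj_of_mem hu, add_sub_add_left_eq_sub]
    exact sub_mem hv (prj_mem_CH _ hv)
  refine ⟨prj R V ((sdT R X ^ m) c), ⟨prj_mem _ _, prj_mem_DG _ (sdT_pow_mem_DG m hc)⟩, ?_,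
    sdHP R X m c, ?_⟩
  · rw [sdiff_eq, CH_inter]
    refine ⟨dT_mem_CH (prj_mem _ _), ?_⟩
    have h2 := sub_mem (sdT_pow_mem_CH m hd) (dT_mem_CH h1)
    rwa [map_sub, dT_sdT_pow, sub_sub_cancel] at h2
  · have h2 := add_mem h1 (sdHP_mem_CH m hd)
    convert h2 using 1
    rw [eq_sub_of_add_eq (dT_sdHP m c)]
    abel

theorem ThBase_exc2 {V L : Set X} (hV : IsOpen V) (hL : IsClosed L) (h : L ⊆ V)
    {x b : Tot R X} (hx : x ∈ CH R V) (hb : x - dT R X b ∈ CH R Lᶜ) :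
    ∃ b' ∈ CH R V, x - dT R X b' ∈ CH R (V \ L) := by
  obtain ⟨m, hm⟩ := sdT_small_two (R := R) hV hL.isOpen_compl (c := b)
    (CH_mono (ThBase_un h) (mem_CH_univ b))
  obtain ⟨u, hu, v, hv, e⟩ := Submodule.mem_sup.1 (hm m le_rfl)
  have hd : dT R X x ∈ CH R Lᶜ := by simpa [dT_dT] using dT_mem_CH hb
  have h0 : u + sdHP R X m x ∈ CH R V := add_mem hu (sdHP_mem_CH m hx)
  refine ⟨_, h0, ?_⟩
  rw [sdiff_eq, CH_inter]
  have h2 := add_mem (add_mem (sdHP_mem_CH m hd) (dT_mem_CH hv)) (sdT_pow_mem_CH m hb)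
  refine Submodule.mem_inf.2 ⟨sub_mem hx (dT_mem_CH h0), ?_⟩
  convert h2 using 1
  rw [map_add, eq_sub_of_add_eq (dT_sdHP m x), map_sub, ← dT_sdT_pow, ← e, map_add]
  abel

end

theorem ThBase_deg (h : LocHomStmt) : ∃ (o : Tot ℝ (E 4)) (δ : Tot ℝ (E 4) →ₗ[ℝ] ℝ),
    ∀ c ∈ DG ℝ (E 4) 4, dT ℝ _ c ∈ CH ℝ ({0}ᶜ : Set (E 4)) → ∀ r : ℝ,
      δ c = r ↔ ∃ b, c - r • o - dT ℝ _ b ∈ CH ℝ ({0}ᶜ : Set (E 4)) := by
  obtain ⟨o, -, -, ho⟩ := h 4
  have key (c : RC ℝ (univ : Set (E 4)) {0} 4) := (ho ℝ 4 c.1 c.2.1.2 c.2.2).2 rfl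
  choose f hf hu using key
  let δ₀ : RC ℝ (univ : Set (E 4)) {0} 4 →ₗ[ℝ] ℝ :=
    { toFun := f
      map_add' := fun x y => by
        obtain ⟨b, hb⟩ := hf x
        obtain ⟨b', hb'⟩ := hf y
        refine (hu _ _ ⟨b + b', ?_⟩).symm
        convert add_mem hb hb' using 1
        rw [Submodule.coe_add, add_smul, map_add]
        abel
      map_smul' := fun a x => by
        obtain ⟨b, hb⟩ := hf x
        refine (hu _ _ ⟨a • b, ?_⟩).symm
        convert Submodule.smul_mem _ a hb using 1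
        rw [Submodule.coe_smul, map_smul, smul_sub, smul_sub, smul_smul]
        rfl }
  obtain ⟨δ, hδ⟩ := LinearMap.exists_extend δ₀
  refine ⟨castZ ℝ _ o, δ, fun c hc hd r => ?_⟩
  have e : δ c = f ⟨c, ⟨mem_CH_univ c, hc⟩, hd⟩ :=
    LinearMap.congr_fun hδ ⟨c, ⟨mem_CH_univ c, hc⟩, hd⟩
  rw [e]
  exact ⟨fun h => h ▸ hf _, fun h => (hu ⟨c, ⟨mem_CH_univ c, hc⟩, hd⟩ _ h).symm⟩

theorem ThBase_c0 {X Y : Type} [TopologicalSpace X] [T2Space X] [TopologicalSpace Y]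
    (o : Orientation4 X) {q : Y → X} (hq : IsLocalHomeomorph q) {S K : Set Y} (hS : IsOpen S)
    (hi : InjOn q S) (hK : IsCompact K) (hKS : K ⊆ S) {U : Set X} (hU : MapsTo q S U)
    {w : Sing X 4 →₀ ℤ} (hw : bd ℤ X 3 w ∈ supp ℤ Uᶜ 3)
    (hw' : ∀ x ∈ U, Null univ {x}ᶜ 4 (w - o.o x)) :
    ∃ c ∈ CC ℝ S 4, dT ℝ Y c ∈ CH ℝ (S \ K) ∧ ∀ y ∈ K, LocDeg o q y c 1 := by
  rcases K.eq_empty_or_nonempty with rfl | ⟨y₀, -⟩
  · exact ⟨0, zero_mem _, by simp, fun _ h => h.elim⟩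
  have : Nonempty Y := ⟨y₀⟩
  let g := OpenPartialHomeomorph.ofContinuousOpen (hi.toPartialEquiv q S)
    hq.continuous.continuousOn hq.isOpenMap hS
  have hL : IsClosed (q '' K) := (hK.image hq.continuous).isClosed
  have hLU : q '' K ⊆ U := (image_mono hKS).trans hU.image_subset
  have hd : dT ℝ X (castZ ℝ X (inc ℤ 4 w)) ∈ CH ℝ (q '' K)ᶜ := by
    rw [← cast_dT, dT_inc_succ]
    exact cast_mem_CH _ (CH_mono (compl_subset_compl.2 hLU) (inc_mem_CH.2 hw))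
  obtain ⟨w₁, h1, h2, b, hb⟩ := ThBase_exc g.open_target hL (image_mono hKS)
    (cast_mem_DG _ (inc_mem_DG 4 w)) hd
  have h3 : dT ℝ Y (psh ℝ g.symm w₁) ∈ CH ℝ (S \ K) := by
    rw [dT_psh g.continuousOn_symm h1.1]
    exact psh_mem_CH (B := S \ K) _
      (fun x hx => ⟨g.map_target hx.1, fun hk => hx.2 ⟨_, hk, g.right_inv hx.1⟩⟩) h2
  have h4 : psh ℝ g.symm w₁ ∈ CC ℝ S 4 :=
    ⟨psh_mem_CH _ (fun x hx => g.map_target hx) h1.1, psh_mem_DG _ h1.2⟩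
  refine ⟨_, h4, h3, fun y hy => ⟨S, hS, hKS hy, hi, h4,
    CH_mono (sdiff_subset_sdiff_right (singleton_subset_iff.2 hy)) h3, ?_⟩⟩
  obtain ⟨b₀, -, hb₀⟩ := hw' (q y) (hLU ⟨y, hy, rfl⟩)
  refine ⟨castZ ℝ X (inc ℤ 5 b₀) - b, ?_⟩
  rw [psh_psh q g.continuousOn_symm h1.1,
    psh_of_eqOn_id (f := q ∘ g.symm) (A := g.target) (fun x hx => g.right_inv hx) h1.1]
  have h5 := cast_mem_CH (Int.castRingHom ℝ) (inc_mem_CH.2 hb₀)
  have h6 := CH_mono (compl_subset_compl.2 (singleton_subset_iff.2 (mem_image_of_mem q hy))) hb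
  convert sub_mem h5 h6 using 1
  rw [map_sub, map_sub, ← dT_inc_succ, map_sub, map_sub, cast_dT, map_sub, one_smul]
  abel

theorem thBase_stmt (B : Bas1) (hLocCtr : LocCtrStmt) (hLocDeg : LocDegStmt) : ThBaseStmt := by
  intro X Y _ _ _ _ _ o q hq y
  obtain ⟨κ⟩ := B.kit
  obtain ⟨o₄, δ, hδ⟩ := ThBase_deg B.locHom
  obtain ⟨U, hU, w, hw, hw'⟩ := o.loc (q y)
  obtain ⟨⟨e, hy, heU, hi⟩, -⟩ := hLocCtr X Y q hq y _ (hq.continuous.continuousAt hU)
  obtain ⟨ρ, hρ, hB⟩ := nhds_basis_closedBall.mem_iff.1 (e.open_target.mem_nhds (e.map_source hy))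
  have hK : IsCompact (e.symm '' closedBall (e y) ρ) :=
    (isCompact_closedBall _ _).image_of_continuousOn (e.continuousOn_symm.mono hB)
  have hKS : e.symm '' closedBall (e y) ρ ⊆ e.source := by
    rintro _ ⟨z, hz, rfl⟩
    exact e.map_target (hB hz)
  obtain ⟨c₀, hc₀, hd₀, hl₀⟩ := ThBase_c0 o hq e.open_source hi hK hKS heU hw hw'
  have hmem : ∀ a ∈ e.source, e a ∈ closedBall (e y) ρ → a ∈ e.symm '' closedBall (e y) ρ :=
    fun a ha h => ⟨e a, h, e.left_inv ha⟩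
  have hcont (z : E 4) : ContinuousOn (fun a => e a - z) e.source :=
    e.continuousOn.sub continuousOn_const
  have hrel {y' : Y} (hy' : y' ∈ e.source) {c : Tot ℝ Y} (h : c ∈ CH ℝ (e.source \ {y'})) :
      psh ℝ (fun a => e a - e y') c ∈ CH ℝ ({0}ᶜ : Set (E 4)) :=
    psh_mem_CH _ (fun a ha h0 => ha.2 (e.injOn ha.1 hy' (sub_eq_zero.1 h0))) h
  have hzero {x : Tot ℝ (E 4)} (hx : x ∈ DG ℝ (E 4) 4) (b : Tot ℝ (E 4))
      (hb : x - dT ℝ _ b ∈ CH ℝ ({0}ᶜ : Set (E 4))) : δ x = 0 :=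
    (hδ x hx (by simpa [dT_dT] using dT_mem_CH hb) 0).2 ⟨b, by simpa using hb⟩
  have hyK : y ∈ e.symm '' closedBall (e y) ρ := hmem y hy (mem_closedBall_self hρ.le)
  have hκ : δ (psh ℝ (fun a => e a - e y) c₀) ≠ 0 := by
    intro h0
    have hd : dT ℝ _ (psh ℝ (fun a => e a - e y) c₀) ∈ CH ℝ ({0}ᶜ : Set (E 4)) := by
      rw [dT_psh (hcont _) hc₀.1]
      exact hrel hy (CH_mono (sdiff_subset_sdiff_right (singleton_subset_iff.2 hyK)) hd₀)
    obtain ⟨b, hb⟩ := (hδ _ (psh_mem_DG _ hc₀.2) hd 0).1 h0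
    rw [zero_smul, sub_zero] at hb
    have hT : IsOpen ((fun z => z + e y) ⁻¹' e.target) := e.open_target.preimage (by fun_prop)
    have hg : ContinuousOn (fun z => q (e.symm (z + e y))) ((fun z => z + e y) ⁻¹' e.target) :=
      hq.continuous.comp_continuousOn
        (e.continuousOn_symm.comp (by fun_prop) fun z hz => hz)
    obtain ⟨b', hb', h1⟩ := ThBase_exc2 hT isClosed_singleton
      (singleton_subset_iff.2 (by simpa using e.map_source hy))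
      (psh_mem_CH (fun a => e a - e y) (fun a ha => by simpa using e.map_source ha) hc₀.1) hb
    have h2 := psh_mem_CH (B := {q y}ᶜ) (fun z => q (e.symm (z + e y))) (fun z hz h => hz.2 (by
      have h3 := hi (e.map_target hz.1) hy h
      have h4 := e.right_inv hz.1
      rw [h3] at h4
      simpa using h4.symm)) h1
    rw [map_sub, ← dT_psh hg hb', psh_psh _ (hcont _) hc₀.1,
      psh_congr (g := q) (A := e.source) (fun a ha => by simp [e.left_inv ha]) hc₀.1] at h2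
    have h5 : LocDeg o q y c₀ 0 := ⟨_, e.open_source, hy, hi, hc₀,
      CH_mono (sdiff_subset_sdiff_right (singleton_subset_iff.2 hyK)) hd₀, _, by simpa using h2⟩
    exact one_ne_zero ((hLocDeg X Y o q hq y).2.1 _ _ _ (hl₀ y hyK) h5)
  have hV : IsOpen (e.source ∩ e ⁻¹' ball (e y) ρ) := e.isOpen_inter_preimage isOpen_ball
  have hf : ContinuousOn (fun z : Y × Y => e z.1 - e z.2)
      ((e.source ∩ e ⁻¹' ball (e y) ρ) ×ˢ (e.source ∩ e ⁻¹' ball (e y) ρ)) :=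
    (e.continuousOn.comp continuousOn_fst fun z hz => hz.1.1).sub
      (e.continuousOn.comp continuousOn_snd fun z hz => hz.2.1)
  refine ⟨_, hV.prod hV, ⟨⟨hy, mem_ball_self hρ⟩, hy, mem_ball_self hρ⟩,
    (δ (psh ℝ (fun a => e a - e y) c₀))⁻¹ •
      δ ∘ₗ psh ℝ (fun z : Y × Y => e z.1 - e z.2) ∘ₗ deg ℝ (Y × Y) 4, ?_, ?_, ?_, ?_⟩
  · intro k hk c hc
    simp [deg_eq_zero hk.symm hc]
  · intro b hb
    simp only [LinearMap.smul_apply, LinearMap.comp_apply]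
    rw [deg_dT, ← dT_psh hf (deg_mem_CH _ hb),
      hzero (dT_mem_DG (psh_mem_DG _ (deg_mem _ _))) _ (by rw [sub_self]; exact zero_mem _),
      smul_zero]
  · intro c hc
    simp only [LinearMap.smul_apply, LinearMap.comp_apply]
    rw [hzero (psh_mem_DG _ (deg_mem _ _)) 0 (by
      rw [map_zero, sub_zero]
      exact psh_mem_CH _ (fun z hz h0 => hz.2 (e.injOn hz.1.1.1 hz.1.2.1 (sub_eq_zero.1 h0)))
        (deg_mem_CH _ hc)), smul_zero]
  · intro y' c r hl hc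
    have hc1 : Continuous fun x : Y => (x, y') := by fun_prop
    have hcc : psh ℝ Prod.fst (psh ℝ (fun x : Y => (x, y')) c) = c := by
      rw [psh_psh' _ hc1]
      exact psh_id c
    have hcV : c ∈ CH ℝ (e.source ∩ e ⁻¹' ball (e y) ρ) :=
      hcc ▸ psh_mem_CH Prod.fst (fun z hz => hz.1) hc
    obtain ⟨U₀, hU₀, hy₀, hi₀, hc₁, hd₁, b₁, hb₁⟩ := id hl
    by_cases hy' : y' ∈ e.source ∩ e ⁻¹' ball (e y) ρ
    swap
    · have h0 : psh ℝ (fun x : Y => (x, y')) c = 0 := by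
        apply eq_zero_of_mem_CH_empty
        have h1 := psh_mem_CH (B := {z : Y × Y | z.2 = y'}) (fun x : Y => (x, y'))
          (fun _ _ => rfl) (mem_CH_univ c)
        refine CH_mono ?_ ((CH_inter _ _).ge ⟨hc, h1⟩)
        rintro z ⟨h2, h3⟩
        exact hy' (h3 ▸ h2.2)
      rw [h0, map_zero] at hcc ⊢
      subst hcc
      exact (hLocDeg X Y o q hq y').2.1 _ _ _
        ⟨U₀, hU₀, hy₀, hi₀, hc₁, hd₁, 0, by simp⟩ hl
    have hyK' := hmem y' hy'.1 (ball_subset_closedBall hy'.2)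
    have hcS : c ∈ CH ℝ e.source := CH_mono inter_subset_left hcV
    have hs : c - r • c₀ ∈ CC ℝ e.source 4 := sub_mem ⟨hcS, hc₁.2⟩ (Submodule.smul_mem _ _ hc₀)
    obtain ⟨-, -, -, -, -, -, b₂, hb₂⟩ := hl₀ y' hyK'
    have h5 : LocDeg o q y' (c - r • c₀) 0 := by
      refine ⟨_, e.open_source, hy'.1, hi, hs, ?_, b₁ - r • b₂, ?_⟩
      · rw [map_sub, map_smul]
        refine sub_mem ?_ (Submodule.smul_mem _ _
          (CH_mono (sdiff_subset_sdiff_right (singleton_subset_iff.2 hyK')) hd₀))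
        rw [sdiff_eq, CH_inter]
        exact ⟨dT_mem_CH hcS, CH_mono (fun _ h => h.2) hd₁⟩
      · convert sub_mem hb₁ (Submodule.smul_mem _ r hb₂) using 1
        simp only [map_sub, map_smul, smul_sub, zero_smul, one_smul]
        abel
    obtain ⟨b, hb, h6⟩ := (hLocDeg X Y o q hq y').2.2.2.2 _ h5 _ e.open_source hy'.1 hi hs.1
    have h7 := hrel hy'.1 h6
    rw [map_sub, ← dT_psh (hcont _) hb] at h7
    have h8 := hzero (psh_mem_DG _ hs.2) _ h7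
    have hH : ContinuousOn (fun z : ℝ × Y => e z.2 - ((1 - z.1) • e y' + z.1 • e y))
        (Icc 0 1 ×ˢ e.source) :=
      (e.continuousOn.comp continuousOn_snd fun z hz => hz.2).sub (by fun_prop)
    have h9 := dT_hop κ hH hc₀.1
    simp only [sub_self, zero_smul, zero_add, one_smul, sub_zero, add_zero] at h9
    have h10 := hzero (sub_mem (psh_mem_DG (fun a => e a - e y) hc₀.2)
      (psh_mem_DG (fun a => e a - e y') hc₀.2)) _ (by
        rw [← h9, add_sub_cancel_left]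
        refine hop_mem_CH κ _ (fun z hz h0 => hz.2.2 (hmem _ hz.2.1 ?_)) hd₀
        rw [sub_eq_zero.1 h0]
        exact convex_closedBall _ _ (ball_subset_closedBall hy'.2) (mem_closedBall_self hρ.le)
          (sub_nonneg.2 hz.1.2) hz.1.1 (by ring))
    simp only [LinearMap.smul_apply, LinearMap.comp_apply]
    rw [deg_of_mem (psh_mem_DG _ hc₁.2), psh_psh' _ hc1]
    rw [map_sub, map_sub, map_smul, map_smul, sub_eq_zero] at h8
    rw [map_sub, sub_eq_zero] at h10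
    change _ • δ (psh ℝ (fun a => e a - e y') c) = r
    rw [h8, ← h10, smul_eq_mul, smul_eq_mul]
    field_simp

end Pool.Agent.MP_bc14e1_gt
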