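import Pool.Agent.MP_bc14e1_gt.IfT

open Set Metric
open scoped Classical

namespace Pool.Agent.MP_bc14e1_gt

/-- A functional that kills the kernel of a map factors through the map. -/
theorem ThMV_fac {V T : Type} [AddCommGroup V] [Module ℝ V] [AddCommGroup T] [Module ℝ T]
    (Φ : V →ₗ[ℝ] T) (ψ : V →ₗ[ℝ] ℝ) (h : ∀ v, Φ v = 0 → ψ v = 0) :
    ∃ θ : T →ₗ[ℝ] ℝ, ∀ v, θ (Φ v) = ψ v := by
  obtain ⟨θ, hθ⟩ := LinearMap.exists_extend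
    (((LinearMap.ker Φ).liftQ ψ fun v hv => h v hv) ∘ₗ Φ.quotKerEquivRange.symm.toLinearMap)
  refine ⟨θ, fun v => ?_⟩
  have := LinearMap.congr_fun hθ ⟨Φ v, LinearMap.mem_range_self Φ v⟩
  simpa [LinearMap.quotKerEquivRange_symm_apply_image] using this

theorem ThMV_two {T : Type} [AddCommGroup T] [Module ℝ T] (S₁ S₂ S₃ S₄ : Submodule ℝ T)
    (L : T →ₗ[ℝ] T) (θ θ' : T →ₗ[ℝ] ℝ)
    (h : ∀ a ∈ S₁, ∀ b ∈ S₂, ∀ w ∈ S₃, ∀ z ∈ S₄, a + b + (L w + z) = 0 → θ a + θ' b = 0) :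
    ∃ θ₁ : T →ₗ[ℝ] ℝ, (∀ a ∈ S₁, θ₁ a = θ a) ∧ (∀ b ∈ S₂, θ₁ b = θ' b) ∧
      (∀ w ∈ S₃, θ₁ (L w) = 0) ∧ ∀ z ∈ S₄, θ₁ z = 0 := by
  obtain ⟨θ₁, h₁⟩ := ThMV_fac (V := (S₁ × S₂) × S₃ × S₄)
    ((S₁.subtype.coprod S₂.subtype).coprod ((L ∘ₗ S₃.subtype).coprod S₄.subtype))
    (((θ ∘ₗ S₁.subtype).coprod (θ' ∘ₗ S₂.subtype)).coprod 0)
    (by
      rintro ⟨⟨a, b⟩, w, z⟩ e
      simpa using h a a.2 b b.2 w w.2 z z.2 e)
  exact ⟨θ₁, fun a ha => by simpa using h₁ ((⟨a, ha⟩, 0), 0, 0),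
    fun b hb => by simpa using h₁ ((0, ⟨b, hb⟩), 0, 0),
    fun w hw => by simpa using h₁ ((0, 0), ⟨w, hw⟩, 0),
    fun z hz => by simpa using h₁ ((0, 0), 0, ⟨z, hz⟩)⟩

/-- Gluing of functionals on a directed family of subspaces. -/
theorem ThMV_dir {T ι : Type} [AddCommGroup T] [Module ℝ T] [Nonempty ι] (S : ι → Submodule ℝ T)
    (hS : Directed (· ≤ ·) S) (θ : ι → T →ₗ[ℝ] ℝ)
    (h : ∀ i j, ∀ x ∈ S i, x ∈ S j → θ i x = θ j x) :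
    ∃ θ₁ : T →ₗ[ℝ] ℝ, ∀ i, ∀ x ∈ S i, θ₁ x = θ i x := by
  have ex : ∀ x : ↥(⨆ i, S i), ∃ i, x.1 ∈ S i := fun x =>
    (Submodule.mem_iSup_of_directed S hS).1 x.2
  choose f hf using ex
  have hθ : ∀ (x : ↥(⨆ i, S i)) i, x.1 ∈ S i → θ (f x) x.1 = θ i x.1 := fun x i hx =>
    h _ _ _ (hf x) hx
  obtain ⟨θ₁, hθ₁⟩ := LinearMap.exists_extend (p := ⨆ i, S i) (V' := ℝ)
    { toFun := fun x => θ (f x) x.1
      map_add' := fun x y => by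
        obtain ⟨k, hk, hk'⟩ := hS (f x) (f y)
        rw [hθ x k (hk (hf x)), hθ y k (hk' (hf y)),
          hθ (x + y) k (add_mem (hk (hf x)) (hk' (hf y))), ← map_add]
        rfl
      map_smul' := fun a x => by
        rw [hθ (a • x) (f x) (Submodule.smul_mem _ a (hf x)), RingHom.id_apply, ← map_smul]
        rfl }
  refine ⟨θ₁, fun i x hx => ?_⟩
  exact (LinearMap.congr_fun hθ₁ ⟨x, Submodule.mem_iSup_of_mem i hx⟩).trans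
    (hθ ⟨x, Submodule.mem_iSup_of_mem i hx⟩ i hx)

section

variable {X Y : Type} [TopologicalSpace X] [TopologicalSpace Y] {o : Orientation4 X} {q : Y → X}

theorem ThMV_sdiff {W : Set (Y × Y)} {c : Tot ℝ (Y × Y)} :
    c ∈ CH ℝ (W \ dia Y) ↔ c ∈ CH ℝ W ∧ c ∈ CH ℝ (dia Y)ᶜ := by
  rw [Set.sdiff_eq, CH_inter, Submodule.mem_inf]

theorem ThMV_cont (y : Y) : Continuous fun x : Y => (x, y) := by fun_prop

theorem ThMV_rc {y : Y} {c : Tot ℝ Y} {r : ℝ} (h : LocDeg o q y c r) {W : Set (Y × Y)}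
    (hW : psh ℝ (fun x => (x, y)) c ∈ CH ℝ W) :
    psh ℝ (fun x => (x, y)) c ∈ RC ℝ W (dia Y) 4 := by
  obtain ⟨U, -, -, -, hc, hd, -⟩ := h
  refine ⟨⟨hW, psh_mem_DG _ hc.2⟩, ?_⟩
  rw [SetLike.mem_coe, Submodule.mem_comap, dT_psh_cont (ThMV_cont y)]
  exact psh_mem_CH _ (fun x hx h => hx.2 h) hd

theorem ThMV_fst {y : Y} {c : Tot ℝ Y} {W : Set (Y × Y)}
    (hW : psh ℝ (fun x => (x, y)) c ∈ CH ℝ W) : c ∈ CH ℝ {x | (x, y) ∈ W} := by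
  have e : psh ℝ Prod.fst (psh ℝ (fun x => (x, y)) c) = c :=
    (psh_psh' _ (ThMV_cont y) c).trans (psh_id c)
  have h2 : psh ℝ (fun x => (x, y)) c ∈ CH ℝ (W ∩ {z | z.2 = y}) := by
    rw [CH_inter]
    exact ⟨hW, psh_mem_CH (fun x => (x, y)) (B := {z | z.2 = y}) (fun _ _ => rfl)
      (mem_CH_univ c)⟩
  rw [← e]
  refine psh_mem_CH _ ?_ h2
  rintro ⟨a, b⟩ ⟨h, rfl : b = y⟩
  exact h

theorem ThMV_sd {W : Set (Y × Y)} {θ : Tot ℝ (Y × Y) →ₗ[ℝ] ℝ} (h : ThQ o q W θ)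
    {a : Tot ℝ (Y × Y)} (ha : a ∈ RC ℝ W (dia Y) 4) (m : ℕ) : θ ((sdT ℝ _ ^ m) a) = θ a := by
  have e := congrArg θ (dT_sdHP m a)
  rw [map_add, map_sub, h.coc _ (sdHP_mem_CH m ha.1.1),
    h.off _ (sdHP_mem_CH m (ThMV_sdiff.2 ⟨dT_mem_CH ha.1.1, ha.2⟩))] at e
  linarith

variable [T2Space X] [T2Space Y]

theorem ThMV_agree [ChartedSpace (E 4) X] (hDia : DiaStmt) (hq : IsLocalHomeomorph q)
    {A B W : Set (Y × Y)} {θ θ' : Tot ℝ (Y × Y) →ₗ[ℝ] ℝ} (h : ThQ o q A θ) (h' : ThQ o q B θ')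
    (hW : IsOpen W) (hA : W ⊆ A) (hB : W ⊆ B) {c : Tot ℝ (Y × Y)} (hc : c ∈ RC ℝ W (dia Y) 4) :
    θ c = θ' c := by
  have := (hDia X Y o q hq W hW).2 (θ - θ') (fun b hb => by
      rw [LinearMap.sub_apply, h.coc b (CH_mono hA hb.1), h'.coc b (CH_mono hB hb.1), sub_zero])
    (fun c hc => by
      rw [LinearMap.sub_apply, h.off c (CH_mono (sdiff_subset_sdiff_left hA) hc.1),
        h'.off c (CH_mono (sdiff_subset_sdiff_left hB) hc.1), sub_zero])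
    (fun y c r hr hc => by
      rw [LinearMap.sub_apply, h.one y c r hr (CH_mono hA hc), h'.one y c r hr (CH_mono hB hc),
        sub_self]) c hc
  rwa [LinearMap.sub_apply, sub_eq_zero] at this

theorem ThMV_mk (hLocDeg : LocDegStmt) (hq : IsLocalHomeomorph q) {W : Set (Y × Y)}
    (θ : Tot ℝ (Y × Y) →ₗ[ℝ] ℝ) (h5 : ∀ b ∈ CC ℝ W 5, θ (dT ℝ _ b) = 0)
    (h4 : ∀ c ∈ CC ℝ (W \ dia Y) 4, θ c = 0)
    (h1 : ∀ y, (y, y) ∈ W → ∃ A θ', IsOpen A ∧ (y, y) ∈ A ∧ ThQ o q A θ' ∧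
      ∀ c ∈ RC ℝ A (dia Y) 4, θ c = θ' c) : ThQ o q W (θ ∘ₗ deg ℝ _ 4) where
  dg k hk c hc := by rw [LinearMap.comp_apply, deg_eq_zero hk.symm hc, map_zero]
  coc b hb := by
    rw [LinearMap.comp_apply, deg_dT]
    exact h5 _ ⟨deg_mem_CH _ hb, deg_mem _ b⟩
  off c hc := h4 _ ⟨deg_mem_CH _ hc, deg_mem _ c⟩
  one y c r hr hc := by
    have hz := ThMV_rc hr hc
    have hc' := ThMV_fst hc
    rw [LinearMap.comp_apply, deg_of_mem hz.1.2]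
    obtain ⟨-, huq, -, hsm, -⟩ := hLocDeg X Y o q hq y
    by_cases hy : (y, y) ∈ W
    · obtain ⟨A, θ', hA, hyA, hθ', hag⟩ := h1 y hy
      obtain ⟨c', hc1, hr', hh⟩ := hsm c r hr {x | (x, y) ∈ A}
        (hA.preimage (ThMV_cont y)) hyA
      obtain ⟨hc2, b, hb, hd⟩ := hh _ hc'
      have hz1 : psh ℝ (fun x => (x, y)) c' ∈ CH ℝ A :=
        psh_mem_CH (fun x => (x, y)) (B := A) (fun _ h => h) hc1
      have hz' := ThMV_rc hr' hz1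
      have hb' : psh ℝ (fun x => (x, y)) b ∈ CH ℝ W :=
        psh_mem_CH (fun x => (x, y)) (B := W) (fun _ h => h) hb
      have hd' : psh ℝ (fun x => (x, y)) (c - c' - dT ℝ Y b) ∈ CH ℝ (W \ dia Y) :=
        psh_mem_CH (fun x => (x, y)) (A := {x | (x, y) ∈ W} \ {y}) (B := W \ dia Y)
          (fun x hx => ⟨hx.1, fun h => hx.2 h⟩) hd
      have h6 := h4 _ ⟨deg_mem_CH 4 hd', deg_mem 4 _⟩
      simp only [map_sub] at h6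
      rw [← dT_psh_cont (ThMV_cont y), deg_dT, deg_of_mem hz.1.2, deg_of_mem hz'.1.2,
        h5 _ ⟨deg_mem_CH _ hb', deg_mem _ _⟩, hag _ hz', hθ'.one y c' r hr' hz1] at h6
      linarith
    · have hy' : c ∈ CH ℝ {y}ᶜ := by
        refine CH_mono ?_ hc'
        rintro x hx rfl
        exact hy hx
      have h0 : LocDeg o q y c 0 := by
        obtain ⟨U, hU, hyU, hi, hcU, hd, -⟩ := hr
        refine ⟨U, hU, hyU, hi, hcU, hd, 0, ?_⟩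
        rw [zero_smul, map_zero, sub_zero, sub_zero]
        refine psh_mem_CH (A := U ∩ {y}ᶜ) _ ?_ ?_
        · intro x hx h
          exact hx.2 (hi hx.1 hyU h)
        · rw [CH_inter]
          exact ⟨hcU.1, hy'⟩
      rw [huq c r 0 hr h0]
      refine h4 _ ⟨ThMV_sdiff.2 ⟨hc, ?_⟩, hz.1.2⟩
      exact psh_mem_CH (fun x => (x, y)) (A := {y}ᶜ) (B := (dia Y)ᶜ) (fun x hx h => hx h) hy'

omit [T2Space Y] in
theorem ThMV_split {U V : Set (Y × Y)} {k : ℕ} {c : Tot ℝ (Y × Y)}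
    (h : c ∈ CH ℝ U ⊔ CH ℝ V) (hk : c ∈ DG ℝ _ k) :
    ∃ a ∈ CC ℝ U k, ∃ b ∈ CC ℝ V k, c = a + b := by
  obtain ⟨a, ha, b, hb, e⟩ := Submodule.mem_sup.1 h
  refine ⟨_, ⟨deg_mem_CH k ha, deg_mem k a⟩, _, ⟨deg_mem_CH k hb, deg_mem k b⟩, ?_⟩
  rw [← map_add, e, deg_of_mem hk]

theorem ThMV_key [ChartedSpace (E 4) X] (hDia : DiaStmt) (hq : IsLocalHomeomorph q)
    {A B : Set (Y × Y)} (hA : IsOpen A) (hB : IsOpen B) {θ θ' : Tot ℝ (Y × Y) →ₗ[ℝ] ℝ}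
    (h : ThQ o q A θ) (h' : ThQ o q B θ') {a b w z : Tot ℝ (Y × Y)}
    (ha : a ∈ RC ℝ A (dia Y) 4) (hb : b ∈ RC ℝ B (dia Y) 4) (hw : w ∈ CC ℝ (A ∪ B) 5)
    (hz : z ∈ CC ℝ ((A ∪ B) \ dia Y) 4) (e : a + b + (dT ℝ _ w + z) = 0) : θ a + θ' b = 0 := by
  have hcl : IsClosed (dia Y) := isClosed_eq continuous_fst continuous_snd
  obtain ⟨m₁, hm₁⟩ := sdT_small_two hA hB hw.1
  obtain ⟨m₂, hm₂⟩ := sdT_small_two (hA.sdiff hcl) (hB.sdiff hcl) (c := z)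
    (by rw [← union_sdiff_distrib]; exact hz.1)
  obtain ⟨w₁, hw₁, w₂, hw₂, ew⟩ := ThMV_split (hm₁ (max m₁ m₂) (le_max_left _ _))
    (sdT_pow_mem_DG _ hw.2)
  obtain ⟨z₁, hz₁, z₂, hz₂, ez⟩ := ThMV_split (hm₂ (max m₁ m₂) (le_max_right _ _))
    (sdT_pow_mem_DG _ hz.2)
  generalize max m₁ m₂ = m at ew ez
  have e1 := congrArg (sdT ℝ (Y × Y) ^ m) e
  rw [map_add, map_add, map_add, map_zero, ← dT_sdT_pow, ew, ez, map_add] at e1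
  have e2 : (sdT ℝ _ ^ m) a + dT ℝ _ w₁ + z₁ = -((sdT ℝ _ ^ m) b + dT ℝ _ w₂ + z₂) := by
    rw [eq_neg_iff_add_eq_zero, ← e1]
    abel
  have hu : (sdT ℝ _ ^ m) a + dT ℝ _ w₁ + z₁ ∈ RC ℝ (A ∩ B) (dia Y) 4 := by
    refine ⟨⟨?_, add_mem (add_mem (sdT_pow_mem_DG m ha.1.2) (dT_mem_DG hw₁.2)) hz₁.2⟩, ?_⟩
    · rw [CH_inter]
      refine ⟨add_mem (add_mem (sdT_pow_mem_CH m ha.1.1) (dT_mem_CH hw₁.1))
        (ThMV_sdiff.1 hz₁.1).1, ?_⟩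
      rw [e2]
      exact neg_mem (add_mem (add_mem (sdT_pow_mem_CH m hb.1.1) (dT_mem_CH hw₂.1))
        (ThMV_sdiff.1 hz₂.1).1)
    · rw [SetLike.mem_coe, Submodule.mem_comap, map_add, map_add, dT_dT, add_zero, dT_sdT_pow]
      exact add_mem (sdT_pow_mem_CH m ha.2) (dT_mem_CH (ThMV_sdiff.1 hz₁.1).2)
  have e3 := ThMV_agree hDia hq h h' (hA.inter hB) inter_subset_left inter_subset_right hu
  conv_rhs at e3 => rw [e2]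
  rw [map_add, map_add, map_neg, map_add, map_add, ThMV_sd h ha, ThMV_sd h' hb, h.coc _ hw₁.1,
    h'.coc _ hw₂.1, h.off _ hz₁.1, h'.off _ hz₂.1] at e3
  linarith

end

theorem thMV_stmt (B : Bas1) (hLocDeg : LocDegStmt) (hDia : DiaStmt) : ThMVStmt := by
  intro X Y _ _ _ _ _ o q hq
  refine ⟨?_, fun ι _ U hU hd hθ => ?_⟩
  · rintro A C hA hC ⟨θ, h⟩ ⟨θ', h'⟩
    obtain ⟨θ₁, h₁, h₂, h₃, h₄⟩ := ThMV_two (RC ℝ A (dia Y) 4) (RC ℝ C (dia Y) 4)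
      (CC ℝ (A ∪ C) 5) (CC ℝ ((A ∪ C) \ dia Y) 4) (dT ℝ _) θ θ'
      fun a ha b hb w hw z hz e => ThMV_key hDia hq hA hC h h' ha hb hw hz e
    refine ⟨_, ThMV_mk hLocDeg hq θ₁ h₃ h₄ (fun y hy => ?_)⟩
    rcases hy with hy | hy
    · exact ⟨A, θ, hA, hy, h, h₁⟩
    · exact ⟨C, θ', hC, hy, h', h₂⟩
  choose θ hθ using hθ
  have mono : ∀ i j, U i ⊆ U j → RC ℝ (U i) (dia Y) 4 ≤ RC ℝ (U j) (dia Y) 4 :=
    fun i j hij c hc => ⟨⟨CH_mono hij hc.1.1, hc.1.2⟩, hc.2⟩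
  obtain ⟨θ₁, h₁⟩ := ThMV_dir (fun i => RC ℝ (U i) (dia Y) 4)
    (fun i j => by
      obtain ⟨k, hk, hk'⟩ := hd i j
      exact ⟨k, mono _ _ hk, mono _ _ hk'⟩) θ
    (fun i j x hi hj => by
      obtain ⟨k, hk, hk'⟩ := hd i j
      exact (ThMV_agree hDia hq (hθ i) (hθ k) (hU i) subset_rfl hk hi).trans
        (ThMV_agree hDia hq (hθ j) (hθ k) (hU j) subset_rfl hk' hj).symm)
  refine ⟨_, ThMV_mk hLocDeg hq θ₁ (fun b hb => ?_) (fun c hc => ?_) (fun y hy => ?_)⟩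
  · obtain ⟨i, hi⟩ := exists_CH_of_directed hU hd hb.1
    rw [h₁ i _ ⟨⟨dT_mem_CH hi, dT_mem_DG hb.2⟩, by
      rw [SetLike.mem_coe, Submodule.mem_comap, dT_dT]; exact zero_mem _⟩]
    exact (hθ i).coc b hi
  · obtain ⟨i, hi⟩ := exists_CH_of_directed hU hd (ThMV_sdiff.1 hc.1).1
    rw [h₁ i _ ⟨⟨hi, hc.2⟩, dT_mem_CH (ThMV_sdiff.1 hc.1).2⟩]
    exact (hθ i).off c (ThMV_sdiff.2 ⟨hi, (ThMV_sdiff.1 hc.1).2⟩)
  · obtain ⟨i, hi⟩ := mem_iUnion.1 hy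
    exact ⟨U i, θ i, hU i, hi, hθ i, h₁ i⟩

end Pool.Agent.MP_bc14e1_gt
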