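import Pool.Agent.MP_bc14e1_gt.IfT
import Pool.Agent.MP_bc14e1_gt.Ind

open Set Metric
open scoped Classical

namespace Pool.Agent.MP_bc14e1_gt

theorem ThomEx_mono {X Y : Type} [TopologicalSpace X] [TopologicalSpace Y] {o : Orientation4 X}
    {q : Y → X} {W W' : Set (Y × Y)} {θ : Tot ℝ (Y × Y) →ₗ[ℝ] ℝ} (h : ThQ o q W θ)
    (hW : W' ⊆ W) : ThQ o q W' θ :=
  ⟨h.dg, fun b hb => h.coc b (CH_mono hW hb),
    fun c hc => h.off c (CH_mono (sdiff_subset_sdiff_left hW) hc),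
    fun y c r h1 h2 => h.one y c r h1 (CH_mono hW h2)⟩

theorem ThomEx_off (hLocDeg : LocDegStmt) {X Y : Type} [TopologicalSpace X] [T2Space X]
    [TopologicalSpace Y] [T2Space Y] (o : Orientation4 X) {q : Y → X}
    (hq : IsLocalHomeomorph q) : ThQ o q (dia Y)ᶜ 0 := by
  refine ⟨fun _ _ _ _ => rfl, fun _ _ => rfl, fun _ _ => rfl, fun y c r h1 h2 => ?_⟩
  have h3 : psh ℝ (fun x => (x, y)) c ∈ CH ℝ ((dia Y)ᶜ ∩ {z | z.2 = y}) := by
    rw [CH_inter]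
    have h4 : MapsTo (fun x : Y => (x, y)) univ {z | z.2 = y} := fun _ _ => rfl
    exact Submodule.mem_inf.2 ⟨h2, psh_mem_CH _ h4 (mem_CH_univ c)⟩
  have h4 : c ∈ CH ℝ {y}ᶜ := by
    have h6 : MapsTo Prod.fst ((dia Y)ᶜ ∩ {z | z.2 = y}) {y}ᶜ :=
      fun z hz e => hz.1 (Eq.trans e (Eq.symm hz.2))
    have h5 := psh_mem_CH Prod.fst h6 h3
    rw [psh_psh' _ (by fun_prop)] at h5
    rwa [← psh_id c]
  refine (hLocDeg X Y o q hq y).2.1 c 0 r ?_ h1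
  obtain ⟨U, u1, u2, u3, u4, u5, -⟩ := h1
  refine ⟨U, u1, u2, u3, u4, u5, 0, ?_⟩
  rw [zero_smul, map_zero, sub_zero, sub_zero]
  have h6 : MapsTo q (U ∩ {y}ᶜ) {q y}ᶜ := fun x hx e => hx.2 (u3 hx.1 u2 e)
  refine psh_mem_CH q h6 ?_
  rw [CH_inter]
  exact Submodule.mem_inf.2 ⟨(Submodule.mem_inf.1 u4).1, h4⟩

theorem thomEx_stmt (B : Bas1) (hLocDeg : LocDegStmt)
    (hThBase : ThBaseStmt) (hThMV : ThMVStmt) : ThomExStmt := by
  intro X Y _ _ _ _ _ o q hq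
  choose W hW hy hθ using hThBase X Y o q hq
  obtain ⟨m1, m2⟩ := hThMV X Y o q hq
  have h0 := ThomEx_off hLocDeg o hq
  obtain ⟨θ, h⟩ := ind_cover (P := fun W => ∃ θ, ThQ o q W θ) (Q := IsOpen)
    (fun _ _ => IsOpen.union) (fun _ _ => IsOpen.inter) isOpen_empty
    ⟨0, ThomEx_mono h0 (empty_subset _)⟩ (T := fun i : Option Y => i.elim (dia Y)ᶜ W)
    (by
      rintro (_ | y)
      · exact (isClosed_eq continuous_fst continuous_snd).isOpen_compl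
      · exact hW y)
    (by
      rintro (_ | y) U _ hU
      · exact ⟨0, ThomEx_mono h0 hU⟩
      · obtain ⟨θ, h⟩ := hθ y
        exact ⟨θ, ThomEx_mono h hU⟩)
    (fun A B hA hB a b _ => m1 A B hA hB a b) m2 isOpen_univ (by
      rintro ⟨x, y⟩ -
      by_cases e : x = y
      · exact mem_iUnion.2 ⟨some y, e ▸ hy x⟩
      · exact mem_iUnion.2 ⟨none, e⟩)
  have e : coevR (fun σ => θ (Finsupp.single σ 1)) = θ := by
    ext σ
    simp [coevR]
  refine ⟨fun σ => θ (Finsupp.single σ 1), fun σ hσ => h.dg _ hσ _ (single_mem_DG σ 1),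
    fun σ hσ => h.off _ (single_mem_CH 1 fun t => ⟨trivial, hσ t⟩), fun c => ?_,
    fun y c r hc => ?_⟩
  · rw [e]
    exact h.coc c (mem_CH_univ c)
  · rw [e]
    exact h.one y c r hc (mem_CH_univ _)

end Pool.Agent.MP_bc14e1_gt
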