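import Pool.Agent.MP_bc14e1_gt.IfT

open Set Metric
open scoped Classical

namespace Pool.Agent.MP_bc14e1_gt

section Aux

/-- A functional can be modified off `V` so that it kills `N`. -/
theorem ThomInv_ext {M : Type} [AddCommGroup M] [Module ℝ M] (V N : Submodule ℝ M)
    (θ : M →ₗ[ℝ] ℝ) (h : ∀ c ∈ V, c ∈ N → θ c = 0) :
    ∃ θ' : M →ₗ[ℝ] ℝ, (∀ c ∈ V, θ' c = θ c) ∧ ∀ c ∈ N, θ' c = 0 := by
  have : θ ∈ (V ⊓ N).dualAnnihilator :=
    (Submodule.mem_dualAnnihilator θ).2 fun c hc => h c hc.1 hc.2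
  rw [Subspace.dualAnnihilator_inf_eq] at this
  obtain ⟨a, ha, b, hb, rfl⟩ := Submodule.mem_sup.1 this
  refine ⟨b, fun c hc => ?_, (Submodule.mem_dualAnnihilator b).1 hb⟩
  rw [LinearMap.add_apply, (Submodule.mem_dualAnnihilator a).1 ha c hc, zero_add]

theorem ThomInv_coev {Z : Type} [TopologicalSpace Z] (θ : Tot ℝ Z →ₗ[ℝ] ℝ) :
    coevR (fun σ => θ (Finsupp.single σ 1)) = θ := by
  ext σ
  simp [coevR]

variable {X G Y : Type} [TopologicalSpace X] [Group G] [TopologicalSpace Y] [MulAction G Y]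
  [ContinuousConstSMul G Y]

theorem ThomInv_off {o : Orientation4 X} {p : Y → X} {τ : TS (Y × Y) → ℝ} (h : IsThom o p τ)
    {c : Tot ℝ (Y × Y)} (hc : c ∈ CH ℝ (dia Y)ᶜ) : coevR τ c = 0 := by
  refine map_CH (T := ⊥) (coevR τ) (fun k σ hσ => ?_) hc
  rw [Submodule.mem_bot, coevR, Finsupp.linearCombination_single, h.off ⟨k, σ⟩ hσ, smul_zero]

omit [TopologicalSpace Y] [ContinuousConstSMul G Y] in
theorem ThomInv_dia (g : G) : Inv g (dia Y)ᶜ := fun z => by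
  simp only [dia, mem_compl_iff, mem_ofPred_eq, Prod.smul_fst, Prod.smul_snd, smul_left_cancel_iff]

theorem ThomInv_gsRC (g : G) {k : ℕ} {c : Tot ℝ (Y × Y)} (hc : c ∈ RC ℝ univ (dia Y) k) :
    gs ℝ (Y × Y) g c ∈ RC ℝ univ (dia Y) k := by
  refine ⟨⟨mem_CH_univ _, gs_mem_DG g hc.1.2⟩, ?_⟩
  change dT ℝ _ _ ∈ CH ℝ (dia Y)ᶜ
  rw [dT_gs]
  exact gs_mem_CH g (fun z hz => (ThomInv_dia g z).2 hz) hc.2

theorem ThomInv_locDeg {o : Orientation4 X} {p : Y → X} (g : G)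
    (hg : ∀ y, p (g • y) = p y) {y : Y} {c : Tot ℝ Y} {r : ℝ} (h : LocDeg o p y c r) :
    LocDeg o p (g • y) (gs ℝ Y g c) r := by
  obtain ⟨U, hU, hy, hi, hc, hd, b, hb⟩ := h
  refine ⟨(fun y => g • y) '' U, isOpenMap_smul g U hU, ⟨y, hy, rfl⟩, ?_,
    ⟨gs_mem_CH g (fun x hx => mem_image_of_mem _ hx) hc.1, gs_mem_DG g hc.2⟩, ?_, b, ?_⟩
  · rintro _ ⟨x, hx, rfl⟩ _ ⟨x', hx', rfl⟩ e
    rw [hg, hg] at e
    rw [hi hx hx' e]
  · rw [dT_gs]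
    refine gs_mem_CH g (fun x hx => ?_) hd
    exact ⟨mem_image_of_mem _ hx.1, fun e => hx.2 (smul_left_cancel g e)⟩
  · rw [gs, psh_psh' _ (continuous_const_smul g), hg]
    have : (p ∘ fun y => g • y) = p := funext hg
    rwa [this]

theorem ThomInv_slice (g : G) (y : Y) (c : Tot ℝ Y) :
    gs ℝ (Y × Y) g (psh ℝ (fun x => (x, y)) c) = psh ℝ (fun x => (x, g • y)) (gs ℝ Y g c) := by
  rw [gs, gs, psh_psh' _ (by fun_prop), psh_psh' _ (continuous_const_smul g)]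
  rfl

theorem ThomInv_sliceRC {o : Orientation4 X} {p : Y → X} {y : Y} {c : Tot ℝ Y} {r : ℝ}
    (h : LocDeg o p y c r) : psh ℝ (fun x => (x, y)) c ∈ RC ℝ univ (dia Y) 4 := by
  obtain ⟨U, -, -, -, hc, hd, -⟩ := h
  refine ⟨⟨mem_CH_univ _, psh_mem_DG _ hc.2⟩, ?_⟩
  change dT ℝ _ _ ∈ CH ℝ (dia Y)ᶜ
  rw [dT_psh_cont (by fun_prop)]
  exact psh_mem_CH _ (fun x hx => hx.2) hd

end Aux

theorem thomInv_stmt (B : Bas1) (hLocDeg : LocDegStmt)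
    (hDia : DiaStmt) (hThomEx : ThomExStmt) : ThomInvStmt := by
  intro X G Y _ _ _ _ _ _ _ _ o F p s A hT hA
  obtain ⟨-, hl, -⟩ := B.cov G X Y Fᶜ p hT.cov
  obtain ⟨τ₀, h₀⟩ := hThomEx X Y o p hl
  have hI : ∀ g : G, ∀ c ∈ RC ℝ univ (dia Y) 4, coevR τ₀ (gs ℝ (Y × Y) g c) = coevR τ₀ c := by
    intro g c hc
    have := (hDia X Y o p hl univ isOpen_univ).2 (coevR τ₀ ∘ₗ gs ℝ (Y × Y) g - coevR τ₀)
      (fun b _ => ?_) (fun c hc => ?_) (fun y c r h _ => ?_) c hc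
    · exact sub_eq_zero.1 this
    · rw [LinearMap.sub_apply, LinearMap.comp_apply, ← dT_gs, h₀.coc, h₀.coc, sub_self]
    · have h1 : c ∈ CH ℝ (dia Y)ᶜ := CH_mono (fun z hz => hz.2) hc.1
      rw [LinearMap.sub_apply, LinearMap.comp_apply, ThomInv_off h₀ h1,
        ThomInv_off h₀ (gs_mem_CH g (fun z hz => (ThomInv_dia g z).2 hz) h1), sub_self]
    · rw [LinearMap.sub_apply, LinearMap.comp_apply, ThomInv_slice, h₀.one _ _ _ h,
        h₀.one _ _ _ (ThomInv_locDeg g (hT.cov.inv g) h), sub_self]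
  obtain ⟨θ₁, h1, h2⟩ := ThomInv_ext (RC ℝ univ (dia Y) 4)
    ((DG ℝ (Y × Y) 4).map (gs ℝ (Y × Y) s - 1)) (coevR τ₀) (by
      rintro _ hc ⟨y, hy, rfl⟩
      have hne : (LaurentPolynomial.T 1 - 1 : Lam ℝ) ≠ 0 := by
        intro e
        have e' : (LaurentPolynomial.T 1 : Lam ℝ) = LaurentPolynomial.T 0 := sub_eq_zero.1 e
        have := congrArg LaurentPolynomial.degree e'
        rw [LaurentPolynomial.degree_T, LaurentPolynomial.degree_T] at this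
        exact absurd (WithBot.coe_injective this) one_ne_zero
      have ha : act ℝ (Y × Y) s (LaurentPolynomial.T 1 - 1) = gs ℝ (Y × Y) s - 1 := by
        rw [map_sub, map_one, act_T, zpow_one]
      have hy' : dT ℝ _ y ∈ CH ℝ (dia Y)ᶜ := by
        refine (B.tf ℝ G (Y × Y) s (fun n z e => hT.inf n (hT.cov.free _ z.1
          (congrArg Prod.fst e))) _ hne (dT ℝ _ y)).2.1 _ (ThomInv_dia s) ?_
        rw [← dT_act, ha]
        exact hc.2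
      rw [LinearMap.sub_apply, map_sub, Module.End.one_apply,
        hI s y ⟨⟨mem_CH_univ _, hy⟩, hy'⟩, sub_self])
  have := Fintype.ofFinite A
  let θ : Tot ℝ (Y × Y) →ₗ[ℝ] ℝ := (Fintype.card A : ℝ)⁻¹ •
    ∑ a : A, θ₁ ∘ₗ gs ℝ (Y × Y) (a : G) ∘ₗ deg ℝ (Y × Y) 4
  have hθ : ∀ c, θ c = (Fintype.card A : ℝ)⁻¹ *
      ∑ a : A, θ₁ (gs ℝ (Y × Y) (a : G) (deg ℝ (Y × Y) 4 c)) := fun c => by
    simp only [θ, LinearMap.smul_apply, LinearMap.sum_apply, LinearMap.comp_apply, smul_eq_mul]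
  have hV : ∀ c, deg ℝ (Y × Y) 4 c ∈ RC ℝ univ (dia Y) 4 →
      θ c = coevR τ₀ (deg ℝ (Y × Y) 4 c) := by
    intro c hc
    rw [hθ, Finset.sum_congr rfl fun (a : A) _ =>
      (h1 _ (ThomInv_gsRC (a : G) hc)).trans (hI a _ hc), Finset.sum_const, Finset.card_univ,
      nsmul_eq_mul, inv_mul_cancel_left₀ (Nat.cast_ne_zero.2 Fintype.card_ne_zero)]
  have hgs : ∀ (g : G) c, psh ℝ (Prod.map (fun y : Y => g • y) fun y => g • y) c =
      gs ℝ (Y × Y) g c := fun g c => rfl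
  have hdg : ∀ (g : G) c, deg ℝ (Y × Y) 4 (gs ℝ (Y × Y) g c) =
      gs ℝ (Y × Y) g (deg ℝ (Y × Y) 4 c) := fun g c => deg_psh _ 4 c
  refine ⟨fun σ => θ (Finsupp.single σ 1), ⟨fun σ hσ => ?_, fun σ hσ => ?_, fun c => ?_,
    fun y c r h => ?_⟩, fun c => ?_, fun a ha c => ?_⟩
  · rw [hθ, deg_eq_zero (Ne.symm hσ) (single_mem_DG σ 1)]
    simp
  · have hc : deg ℝ (Y × Y) 4 (Finsupp.single σ 1) ∈ CH ℝ (dia Y)ᶜ :=
      deg_mem_CH 4 (single_mem_CH 1 hσ)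
    rw [hV _ ⟨⟨mem_CH_univ _, deg_mem 4 _⟩, dT_mem_CH hc⟩, ThomInv_off h₀ hc]
  · rw [ThomInv_coev, hV, deg_dT, h₀.coc]
    refine ⟨⟨mem_CH_univ _, deg_mem 4 _⟩, ?_⟩
    change dT ℝ _ _ ∈ CH ℝ (dia Y)ᶜ
    rw [deg_dT, dT_dT]
    exact zero_mem _
  · have hc := ThomInv_sliceRC h
    have e := deg_of_mem hc.1.2
    rw [ThomInv_coev, hV _ (by rwa [e]), e, h₀.one _ _ _ h]
  · rw [ThomInv_coev, hgs, hθ, hθ, hdg]
    congr 1
    refine Finset.sum_congr rfl fun a _ => ?_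
    rw [← gs_mul, hT.cen, gs_mul, ← sub_eq_zero, ← map_sub]
    exact h2 _ ⟨_, gs_mem_DG (a : G) (deg_mem 4 c), rfl⟩
  · rw [ThomInv_coev, hgs, hθ, hθ, hdg]
    congr 1
    refine Fintype.sum_equiv (Equiv.mulRight (⟨a, ha⟩ : A)) _ _ fun b => ?_
    rw [← gs_mul]
    rfl

end Pool.Agent.MP_bc14e1_gt
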