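import Pool.Agent.MP_bc14e1_gt.If

open Set Metric
open scoped Classical

namespace Pool.Agent.MP_bc14e1_gt

section
variable {V A : Type} [AddCommGroup V] [Module ℂ V] [AddCommGroup A]
  {b : V →ₗ[ℂ] V →ₗ⋆[ℂ] ℂ}

/-- A family on whose span the form is positive definite. -/
def Tower_Pos (b : V →ₗ[ℂ] V →ₗ⋆[ℂ] ℂ) {ι : Type} [Fintype ι] (v : ι → V) : Prop :=
  ∀ a : ι → ℂ, a ≠ 0 → 0 < (b (∑ i, a i • v i) (∑ i, a i • v i)).re

theorem Tower_symm (hh : ∀ u v, starRingEnd ℂ (b u v) = b v u) {u v : V} (h : b u v = 0) :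
    b v u = 0 := by
  rw [← hh, h, map_zero]

theorem Tower_dim {ι : Type} [Fintype ι] {m : ℕ} (hm : Fintype.card ι = m)
    (hh : ∀ u v, starRingEnd ℂ (b u v) = b v u) {Inv : V → Prop} {v : ι → V}
    (hv : ∀ i, Inv (v i)) (hp : Tower_Pos b v)
    (hd : ∀ z : Fin (m + 1) → V, (∀ i, Inv (z i)) →
      ∃ a : Fin (m + 1) → ℂ, a ≠ 0 ∧ ∀ u, b (∑ i, a i • z i) u = 0) {w : V} (hw : Inv w) :
    0 ≤ (b w w).re ∧ ((b w w).re = 0 → ∀ u, b w u = 0) := by
  have e : Option ι ≃ Fin (m + 1) := Fintype.equivFinOfCardEq (by rw [Fintype.card_option, hm])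
  obtain ⟨a, ha, h⟩ := hd (fun i => (e.symm i).elim w v) fun i => by
    cases e.symm i with
    | none => exact hw
    | some j => exact hv j
  have hs : ∑ i, a i • (e.symm i).elim w v = a (e none) • w + ∑ j, a (e (some j)) • v j := by
    rw [← e.sum_comp, Fintype.sum_option]
    simp only [Equiv.symm_apply_apply, Option.elim_none, Option.elim_some]
  rw [hs] at h
  have h0 : a (e none) ≠ 0 := fun h0 => by
    have h1 : (fun j => a (e (some j))) ≠ 0 := fun h1 => ha (funext fun i => by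
      obtain ⟨o, rfl⟩ := e.surjective i
      cases o with
      | none => exact h0
      | some j => exact congrFun h1 j)
    have h2 := hp _ h1
    rw [h0, zero_smul, zero_add] at h
    rw [h] at h2
    exact lt_irrefl _ h2
  obtain ⟨c, hc⟩ : ∃ c : ι → ℂ, ∀ u, b w u = b (∑ j, c j • v j) u := by
    refine ⟨fun j => -(a (e none))⁻¹ * a (e (some j)), fun u => ?_⟩
    have h1 := h u
    rw [map_add, LinearMap.add_apply, map_smul, LinearMap.smul_apply, smul_eq_mul] at h1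
    simp only [mul_smul]
    rw [← Finset.smul_sum, map_smul, LinearMap.smul_apply, smul_eq_mul]
    field_simp
    linear_combination h1
  have h1 : b w w = b (∑ j, c j • v j) (∑ j, c j • v j) := by rw [hc, ← hh, hc, hh]
  by_cases h2 : c = 0
  · have h3 : ∀ u, b w u = 0 := fun u => by simp [hc, h2]
    exact ⟨by simp [h3], fun _ => h3⟩
  · have h3 := hp c h2
    rw [← h1] at h3
    exact ⟨h3.le, fun h4 => absurd h4 h3.ne'⟩

theorem Tower_surj {ι : Type} [Fintype ι] (v : ι → V) (S : Submodule ℂ V) (T : V →ₗ[ℂ] V)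
    (h : ∀ c : ι → ℂ, (∀ x ∈ S, b (T x) (∑ i, c i • v i) = 0) → c = 0) :
    ∃ x : ι → V, (∀ i, x i ∈ S) ∧ ∀ i j, b (T (x i)) (v j) = if i = j then 1 else 0 := by
  obtain ⟨Φ, hΦ⟩ : ∃ Φ : V →ₗ[ℂ] ι → ℂ, ∀ x j, Φ x j = b (T x) (v j) :=
    ⟨LinearMap.pi fun j => (b.flip (v j)).comp T, fun _ _ => rfl⟩
  have ht : S.map Φ = ⊤ := by
    by_contra hn
    obtain ⟨f, hf, hk⟩ := Submodule.exists_le_ker_of_lt_top _ (lt_top_iff_ne_top.2 hn)
    have h1 := h (fun i => starRingEnd ℂ (f fun j => if i = j then 1 else 0)) fun x hx => by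
      have h2 : f (Φ x) = 0 := hk ⟨x, hx, rfl⟩
      rw [LinearMap.pi_apply_eq_sum_univ] at h2
      rw [map_sum]
      refine (Finset.sum_congr rfl fun i _ => ?_).trans h2
      rw [LinearMap.map_smulₛₗ, Complex.conj_conj, hΦ, smul_eq_mul, smul_eq_mul, mul_comm]
    refine hf (LinearMap.ext fun y => ?_)
    rw [LinearMap.pi_apply_eq_sum_univ]
    refine Finset.sum_eq_zero fun i _ => ?_
    rw [(map_eq_zero _).1 (congrFun h1 i), smul_zero]
  have h1 : ∀ i : ι, ∃ x ∈ S, Φ x = fun j => if i = j then 1 else 0 := fun i =>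
    (ht ▸ Submodule.mem_top : _ ∈ S.map Φ)
  choose x hx hx' using h1
  exact ⟨x, hx, fun i j => by rw [← hΦ, hx']⟩

theorem Tower_step {ι : Type} [Fintype ι] [Finite A] (r : A → V →ₗ[ℂ] V)
    (hr : ∀ a a' x, r (a + a') x = r a (r a' x)) (hh : ∀ u v, starRingEnd ℂ (b u v) = b v u)
    (hi : ∀ a u v, b (r a u) (r a v) = b u v) {B' B : AddSubgroup A} (hle : B' ≤ B) {s : A}
    (hs : s ∈ B) (hs' : s ∉ B') (hB : ∀ a ∈ B, a + s ∈ B' ∨ a ∈ B') {M₁ M₂ : Submodule ℂ V}
    (h1 : ∀ a ∈ B', ∀ x ∈ M₁, r a x ∈ M₁) (h2 : ∀ x ∈ M₁, r s x ∈ M₂)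
    (h3 : ∀ x ∈ M₂, r s x ∈ M₁) (h4 : ∀ x ∈ M₁, ∀ y ∈ M₂, b x y = 0)
    (h5 : ∀ u, (∀ x ∈ M₁, b u x = 0) → ∃ u' ∈ M₂, ∀ v, b (u - u') v = 0) {v : ι → V}
    (hv : ∀ i, ∀ a ∈ B, r a (v i) = v i) (hp : Tower_Pos b v)
    (hd : ∀ w, (∀ a ∈ B, r a w = w) → 0 ≤ (b w w).re ∧ ((b w w).re = 0 → ∀ u, b w u = 0)) :
    ∃ x : ι ⊕ ι → V, (∀ i, ∀ a ∈ B', r a (x i) = x i) ∧ Tower_Pos b x := by
  have := Fintype.ofFinite B'
  have hc : ∀ a a' x, r a (r a' x) = r a' (r a x) := fun a a' x => by rw [← hr, ← hr, add_comm]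
  have hss : s + s ∈ B' := (hB s hs).resolve_right hs'
  obtain ⟨M, hM⟩ : ∃ M : Submodule ℂ V, ∀ x, x ∈ M ↔ x ∈ M₁ ∧ ∀ a ∈ B', r a x = x :=
    ⟨{ carrier := {x | x ∈ M₁ ∧ ∀ a ∈ B', r a x = x}
       add_mem' := fun hx hy => ⟨add_mem hx.1 hy.1, fun a ha => by
         rw [map_add, hx.2 a ha, hy.2 a ha]⟩
       zero_mem' := ⟨zero_mem _, fun a _ => map_zero _⟩
       smul_mem' := fun c x hx => ⟨M₁.smul_mem c hx.1, fun a ha => by
         rw [map_smul, hx.2 a ha]⟩ }, fun _ => Iff.rfl⟩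
  obtain ⟨T, hT⟩ : ∃ T : V →ₗ[ℂ] V, ∀ x, T x = x + r s x := ⟨LinearMap.id + r s, fun _ => rfl⟩
  have hTi : ∀ x ∈ M, ∀ a ∈ B, r a (T x) = T x := fun x hx a ha => by
    have hx' := ((hM x).1 hx).2
    rw [hT, map_add]
    rcases hB a ha with h | h
    · have e : r a x = r s x := by
        conv_lhs => rw [← hx' _ hss, hr, hc a s, ← hr a s, hx' _ h]
      rw [e, ← hr, hx' _ h, add_comm]
    · rw [hc a s, hx' a h]
  have hTb : ∀ x ∈ M, b (T x) (T x) = 2 * b x x := fun x hx => by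
    have hx' := ((hM x).1 hx).1
    have e := h4 x hx' _ (h2 x hx')
    simp only [hT, map_add, LinearMap.add_apply]
    rw [hi, e, Tower_symm hh e]
    ring
  have hA : ∀ w, (∀ a ∈ B, r a w = w) → (∀ x ∈ M, b (T x) w = 0) → ∀ u, b w u = 0 := by
    intro w hw h0
    have a1 : ∀ a ∈ B, ∀ x, b w (r a x) = b w x := fun a ha x => by
      conv_lhs => rw [← hw a ha, hi]
    have a2 : ∀ x ∈ M, b w x = 0 := fun x hx => by
      have e := Tower_symm hh (h0 x hx)
      rw [hT, map_add, a1 s hs] at e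
      linear_combination e / 2
    have a3 : ∀ x ∈ M₁, b w x = 0 := fun x hx => by
      have e := a2 (∑ a : B', r a x) ((hM _).2 ⟨Submodule.sum_mem _ fun a _ => h1 a a.2 x hx,
        fun a ha => by
          rw [map_sum, ← Equiv.sum_comp (Equiv.addLeft (⟨a, ha⟩ : B')) fun a' : B' => r a' x]
          exact Finset.sum_congr rfl fun a' _ => (hr _ _ _).symm⟩)
      rw [map_sum, Finset.sum_congr rfl fun (a : B') _ => a1 a (hle a.2) x, Finset.sum_const,
        Finset.card_univ, nsmul_eq_mul] at e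
      exact (mul_eq_zero.1 e).resolve_left (Nat.cast_ne_zero.2 Fintype.card_ne_zero)
    obtain ⟨u', hu', e⟩ := h5 w a3
    have a4 : b w u' = 0 := by rw [← a1 s hs, a3 _ (h3 u' hu')]
    have a5 := e w
    rw [map_sub, LinearMap.sub_apply, Tower_symm hh a4, sub_zero] at a5
    exact (hd w hw).2 (by rw [a5, Complex.zero_re])
  obtain ⟨x, hx, hx'⟩ := Tower_surj (b := b) v M T fun c h0 => by
    by_contra hn
    have e := hp c hn
    rw [hA _ (fun a ha => by simp only [map_sum, map_smul, hv _ a ha]) h0] at e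
    exact lt_irrefl _ e
  have hm : ∀ c : ι → ℂ, ∑ i, c i • x i ∈ M := fun c =>
    Submodule.sum_mem _ fun i _ => M.smul_mem _ (hx i)
  have hpx : Tower_Pos b x := fun c hn => by
    obtain ⟨a1, a2⟩ := hd _ (hTi _ (hm c))
    rw [hTb _ (hm c)] at a1 a2
    simp only [Complex.mul_re, Complex.re_ofNat, Complex.im_ofNat, zero_mul, sub_zero] at a1 a2
    refine lt_of_le_of_ne (by linarith) fun e => hn (funext fun j => ?_)
    have a3 := a2 (by rw [← e, mul_zero]) (v j)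
    simpa [map_sum, hx'] using a3
  have hnn : ∀ c : ι → ℂ, 0 ≤ (b (∑ i, c i • x i) (∑ i, c i • x i)).re := fun c => by
    by_cases h0 : c = 0
    · simp [h0]
    · exact (hpx c h0).le
  refine ⟨Sum.elim x fun i => r s (x i), ?_, fun c hn => ?_⟩
  · rintro (i | i) a ha
    · exact ((hM _).1 (hx i)).2 a ha
    · exact (hc a s _).trans (congrArg _ (((hM _).1 (hx i)).2 a ha))
  · have e : ∑ i, c i • Sum.elim x (fun i => r s (x i)) i =
        ∑ i, c (.inl i) • x i + r s (∑ i, c (.inr i) • x i) := by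
      simp only [Fintype.sum_sum_type, Sum.elim_inl, Sum.elim_inr, map_sum, map_smul]
    have e2 := h4 _ ((hM _).1 (hm fun i => c (.inl i))).1 _
      (h2 _ ((hM _).1 (hm fun i => c (.inr i))).1)
    rw [e, map_add, map_add, LinearMap.add_apply, LinearMap.add_apply, hi, e2, Tower_symm hh e2,
      add_zero, zero_add, Complex.add_re]
    by_cases h0 : (fun i => c (.inl i)) = 0
    · refine add_pos_of_nonneg_of_pos (hnn _) (hpx _ fun h0' => hn (funext ?_))
      rintro (i | i)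
      · exact congrFun h0 i
      · exact congrFun h0' i
    · exact add_pos_of_pos_of_nonneg (hpx _ h0) (hnn _)

theorem Tower_up [Finite A] {r : ℕ} (hA : Nat.card A = 2 ^ r) {B' : AddSubgroup A}
    (hB : B' ≠ ⊤) : ∃ B : AddSubgroup A, B' ≤ B ∧ B'.relIndex B = 2 := by
  have := Fintype.ofFinite (A ⧸ B')
  have h1 : 2 ∣ B'.index := by
    obtain ⟨k, -, hk⟩ := (Nat.dvd_prime_pow Nat.prime_two).1 (hA ▸ B'.index_dvd_card)
    cases k with
    | zero => exact absurd (AddSubgroup.index_eq_one.1 hk) hB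
    | succ k => exact hk ▸ dvd_pow_self 2 k.succ_ne_zero
  obtain ⟨g, hg⟩ := exists_prime_addOrderOf_dvd_card (G := A ⧸ B') 2
    (by rwa [← Nat.card_eq_fintype_card])
  obtain ⟨s, rfl⟩ := QuotientAddGroup.mk_surjective g
  have h2 : s ∉ B' := fun h => by
    rw [(QuotientAddGroup.eq_zero_iff s).2 h, addOrderOf_zero] at hg
    exact absurd hg (by norm_num)
  have h3 : s + s ∈ B' := by
    rw [← QuotientAddGroup.eq_zero_iff, QuotientAddGroup.mk_add, ← two_nsmul, ← hg]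
    exact addOrderOf_nsmul_eq_zero _
  refine ⟨{ carrier := {x | x + s ∈ B' ∨ x ∈ B'}
            add_mem' := ?_
            zero_mem' := Or.inr B'.zero_mem
            neg_mem' := ?_ }, fun x hx => Or.inr hx,
    AddSubgroup.relIndex_eq_two_iff_exists_notMem_and.2 ⟨s, Or.inl h3, h2, fun x hx => hx⟩⟩
  · rintro x y (hx | hx) (hy | hy)
    · exact Or.inr (by convert sub_mem (add_mem hx hy) h3 using 1; abel)
    · exact Or.inl (by convert add_mem hx hy using 1; abel)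
    · exact Or.inl (by convert add_mem hx hy using 1; abel)
    · exact Or.inr (add_mem hx hy)
  · rintro x (hx | hx)
    · exact Or.inl (by convert sub_mem h3 hx using 1; abel)
    · exact Or.inr (neg_mem hx)

end

theorem tower_stmt : TowerStmt := by
  intro V A _ _ _ _ b ρ n r hA hh hi ⟨v0, hv0, hp0⟩ hd hsp
  have key : ∀ (k : ℕ) (B : AddSubgroup A), B.index = k → ∃ (ι : Type) (_ : Fintype ι)
      (v : ι → V), Fintype.card ι = B.index * n ∧
        (∀ i, ∀ a ∈ B, ρ (Multiplicative.ofAdd a) (v i) = v i) ∧ Tower_Pos b v := by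
    intro k
    induction k using Nat.strong_induction_on with
    | _ k ih =>
      intro B' hk
      by_cases hB : B' = ⊤
      · exact ⟨Fin n, inferInstance, v0, by simp [hB], fun i a _ => hv0 i _, hp0⟩
      obtain ⟨B, hle, hr⟩ := Tower_up hA hB
      have h1 := AddSubgroup.relIndex_mul_index hle
      have h2 : B.index ≠ 0 := AddSubgroup.index_ne_zero_of_finite
      rw [hr] at h1
      obtain ⟨ι, _, v, hc, hv, hp⟩ := ih B.index (by omega) B rfl
      obtain ⟨M₁, M₂, m1, m2, m3, m4, m5⟩ := hsp B' B hle hr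
      obtain ⟨s, hs, hs', hB⟩ := AddSubgroup.relIndex_eq_two_iff_exists_notMem_and.1 hr
      obtain ⟨x, hx, hx'⟩ := Tower_step (fun a => ρ (Multiplicative.ofAdd a))
        (fun a a' x => by rw [ofAdd_add, map_mul, Module.End.mul_apply]) hh (fun a => hi _) hle
        hs hs' hB m1 (m2 s hs hs') (m3 s hs hs') m4 m5 hv hp
        fun w hw => Tower_dim (Inv := fun w => ∀ a ∈ B, ρ (Multiplicative.ofAdd a) w = w) hc hh
          hv hp (hd B) hw
      exact ⟨ι ⊕ ι, inferInstance, x, by rw [Fintype.card_sum, hc, ← h1]; ring, hx, hx'⟩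
  obtain ⟨ι, _, v, hc, hv, hp⟩ := key _ ⊥ rfl
  intro w
  refine (Tower_dim (Inv := fun w => ∀ a ∈ (⊥ : AddSubgroup A),
    ρ (Multiplicative.ofAdd a) w = w) hc hh hv hp (hd ⊥) fun a ha => ?_).1
  rw [AddSubgroup.mem_bot.1 ha, ofAdd_zero, map_one, Module.End.one_apply]

end Pool.Agent.MP_bc14e1_gt
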