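import Pool.Agent.MP_bc14e1_gt.If

open Set Metric
open scoped Classical

namespace Pool.Agent.MP_bc14e1_gt

theorem Tr_abs {R S S' G : Type} [CommRing R] [Group G] [Fintype G] (a : G → S' → S')
    (π : S' → S) (hinv : ∀ g σ, π (a g σ) = π σ)
    (hfree : ∀ g g' σ, a g σ = a g' σ → g = g')
    (htr : ∀ σ σ', π σ = π σ' → ∃ g, σ' = a g σ) (hs : Function.Surjective π) :
    ∃ tr : (S →₀ R) →ₗ[R] (S' →₀ R), (∀ c σ, tr c σ = c (π σ)) ∧
      ∀ c, tr (Finsupp.mapDomain π c) = ∑ g, Finsupp.mapDomain (a g) c := by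
  have key : ∀ (σ σ' : S') (r : R), (∑ g, Finsupp.single (a g σ) r : S' →₀ R) σ' =
      (Finsupp.single (π σ) r : S →₀ R) (π σ') := by
    intro σ σ' r
    rw [Finsupp.finsetSum_apply]
    by_cases h : π σ = π σ'
    · obtain ⟨g, rfl⟩ := htr σ σ' h
      rw [Finset.sum_eq_single g, hinv, Finsupp.single_eq_same, Finsupp.single_eq_same]
      · intro g' _ hg
        exact Finsupp.single_eq_of_ne fun e => hg (hfree _ _ _ e).symm
      · simp
    · rw [Finsupp.single_eq_of_ne (Ne.symm h)]
      refine Finset.sum_eq_zero fun g _ => Finsupp.single_eq_of_ne fun e => h ?_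
      rw [e, hinv]
  choose l hl using hs
  let tr : (S →₀ R) →ₗ[R] (S' →₀ R) :=
    Finsupp.lsum R fun s : S => ∑ g, Finsupp.lsingle (a g (l s))
  have h1 : ∀ c σ, tr c σ = c (π σ) := by
    intro c σ
    induction c using Finsupp.induction_linear with
    | zero => simp
    | add x y hx hy => rw [map_add, Finsupp.add_apply, hx, hy, Finsupp.add_apply]
    | single s r =>
      have : tr (Finsupp.single s r) = ∑ g, Finsupp.single (a g (l s)) r := by
        simp only [tr, Finsupp.lsum_single, LinearMap.sum_apply, Finsupp.lsingle_apply]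
      rw [this, key, hl]
  refine ⟨tr, h1, fun c => ?_⟩
  induction c using Finsupp.induction_linear with
  | zero => simp
  | add x y hx hy =>
    simp only [Finsupp.mapDomain_add, map_add, hx, hy, Finset.sum_add_distrib]
  | single σ r =>
    ext σ'
    simp only [Finsupp.mapDomain_single]
    rw [h1, key]

/-- The map on simplices induced by a continuous map. -/
def Tr_map {X Y : Type} [TopologicalSpace X] [TopologicalSpace Y] {f : X → Y} (hf : Continuous f)
    (σ : TS X) : TS Y := ⟨σ.1, ⟨f ∘ σ.2, hf.comp σ.2.continuous⟩⟩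

theorem Tr_psh {R X Y : Type} [CommRing R] [TopologicalSpace X] [TopologicalSpace Y] {f : X → Y}
    (hf : Continuous f) (c : Tot R X) : psh R f c = Finsupp.mapDomain (Tr_map hf) c := by
  induction c using Finsupp.induction_linear with
  | zero => simp
  | add x y hx hy => rw [map_add, Finsupp.mapDomain_add, hx, hy]
  | single σ r =>
    rw [Finsupp.mapDomain_single, psh_single f σ (hf.comp σ.2.continuous)]
    rfl

theorem tr_stmt (hCov : CovStmt) (hLift : LiftStmt) : TrStmt := by
  intro R _ G X Y _ _ _ _ _ _ p hp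
  have := Fintype.ofFinite G
  have hcov : IsCoveringMap p :=
    isCoveringMap_iff_isCoveringMapOn_univ.2 (hCov G X Y univ p hp).2.2.1
  let π : TS Y → TS X := Tr_map hp.cont
  let a : G → TS Y → TS Y := fun g => Tr_map (continuous_const_smul g)
  have hinv : ∀ g σ, π (a g σ) = π σ := by
    rintro g ⟨k, σ⟩
    exact congrArg (Sigma.mk k) (ContinuousMap.ext fun t => hp.inv g _)
  have hfree0 : ∀ (g g' : G) (y : Y), g • y = g' • y → g = g' := by
    intro g g' y h
    have := hp.free (g'⁻¹ * g) y (by rw [mul_smul, h, inv_smul_smul])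
    rw [inv_mul_eq_one] at this
    exact this.symm
  have hfree : ∀ g g' σ, a g σ = a g' σ → g = g' := by
    rintro g g' ⟨k, σ⟩ h
    have h' := sigma_mk_injective (β := fun k => Sing Y k) h
    exact hfree0 g g' _ (DFunLike.congr_fun h' (Classical.arbitrary _))
  have htr : ∀ σ σ', π σ = π σ' → ∃ g, σ' = a g σ := by
    rintro ⟨k, σ⟩ ⟨k', σ'⟩ h
    obtain rfl : k = k' := congrArg Sigma.fst h
    have h' := sigma_mk_injective (β := fun k => Sing X k) h
    have h'' : ∀ t, p (σ t) = p (σ' t) := fun t => DFunLike.congr_fun h' t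
    let t₀ : Sx k := Classical.arbitrary _
    obtain ⟨g, hg⟩ := hp.trans _ _ (h'' t₀)
    refine ⟨g, congrArg (Sigma.mk k) (ContinuousMap.ext fun t => ?_)⟩
    have := hcov.eq_of_comp_eq σ'.continuous ((continuous_const_smul g).comp σ.continuous)
      (funext fun t => ((hp.inv g _).trans (h'' t)).symm) t₀ hg
    exact congrFun this t
  have hs : Function.Surjective π := by
    intro σ
    obtain ⟨c', -, hc'⟩ := (hLift ℤ G X Y univ p hp).1 σ.1 (Finsupp.single σ 1)
      ⟨mem_CH_univ _, single_mem_DG σ 1⟩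
    rw [Tr_psh hp.cont] at hc'
    by_contra hne
    have := Finsupp.mapDomain_notin_range (f := Tr_map hp.cont) c' σ hne
    rw [hc', Finsupp.single_eq_same] at this
    exact one_ne_zero this
  obtain ⟨tr, h1, h2⟩ := Tr_abs (R := R) a π hinv hfree htr hs
  have h2' : ∀ c, tr (psh R p c) = ∑ g : G, gs R Y g c := by
    intro c
    rw [Tr_psh hp.cont, h2]
    exact Finset.sum_congr rfl fun g _ => (Tr_psh (continuous_const_smul g) c).symm
  have hsur : ∀ c : Tot R X, ∃ c', psh R p c' = c := by
    intro c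
    obtain ⟨c', hc'⟩ := Finsupp.mapDomain_surjective (M := R) hs c
    exact ⟨c', (Tr_psh hp.cont c').trans hc'⟩
  have hga : ∀ (g : G) (c : Tot R Y) σ, gs R Y g c (a g σ) = c σ := by
    intro g c σ
    rw [gs, Tr_psh (continuous_const_smul g)]
    refine Finsupp.mapDomain_apply ?_ c σ
    rintro ⟨k, σ⟩ ⟨k', σ'⟩ h
    obtain rfl : k = k' := congrArg Sigma.fst h
    have h' := sigma_mk_injective (β := fun k => Sing Y k) h
    refine congrArg (Sigma.mk k) (ContinuousMap.ext fun t => ?_)
    exact MulAction.injective g (DFunLike.congr_fun h' t)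
  refine ⟨tr, ?_, fun c => ?_, fun c => ?_, fun k c => ?_, fun c => ⟨fun h => ?_, ?_⟩, ?_⟩
  · intro c c' h
    ext s
    obtain ⟨σ, rfl⟩ := hs s
    rw [← h1, ← h1, h]
  · rw [h2', finsum_eq_sum_of_fintype]
  · obtain ⟨c, rfl⟩ := hsur c
    rw [dT_psh_cont hp.cont, h2', h2', map_sum]
    exact Finset.sum_congr rfl fun g _ => dT_gs g c
  · rw [mem_DG, mem_DG]
    refine ⟨fun h s hs' => ?_, fun h σ hσ => ?_⟩
    · obtain ⟨σ, rfl⟩ := hs s
      exact h σ (by rwa [Finsupp.mem_support_iff, h1, ← Finsupp.mem_support_iff])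
    · exact h (π σ) (by rwa [Finsupp.mem_support_iff, ← h1, ← Finsupp.mem_support_iff])
  · choose l hl using hs
    have hli : Function.Injective l := fun s s' e => by rw [← hl s, e, hl]
    refine ⟨Finsupp.comapDomain l c hli.injOn, ?_⟩
    ext σ
    rw [h1, Finsupp.comapDomain_apply]
    obtain ⟨g, hg⟩ := htr σ (l (π σ)) (hl _).symm
    rw [hg, ← hga g c σ, h g]
  · rintro ⟨c, rfl⟩ g
    obtain ⟨c, rfl⟩ := hsur c
    rw [h2', map_sum]
    simp only [← gs_mul]
    exact Equiv.sum_comp (Equiv.mulLeft g) fun g' => gs R Y g' c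
  · intro f f' hf hpf hg c
    obtain ⟨c, rfl⟩ := hsur c
    rcases isEmpty_or_nonempty Y with hY | ⟨⟨y₀⟩⟩
    · have : IsEmpty (TS Y) := ⟨fun σ => hY.false (σ.2 (Classical.arbitrary _))⟩
      exact Subsingleton.elim _ _
    choose φ hφ using hg
    have hφi : Function.Injective φ := fun g g' e =>
      hfree0 g g' y₀ (f'.injective (by rw [hφ, hφ, e]))
    have e : psh R f (psh R p c) = psh R p (psh R f' c) := by
      rw [psh_psh' _ hp.cont, psh_psh' _ f'.continuous]
      exact psh_congr (fun y _ => (hpf y).symm) (mem_CH_univ c)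
    rw [e, h2', h2', map_sum]
    refine Fintype.sum_bijective φ (Finite.injective_iff_bijective.1 hφi) _ _ fun g => ?_
    rw [gs, gs, psh_psh' _ (continuous_const_smul g), psh_psh' _ f'.continuous]
    exact psh_congr (fun y _ => hφ g y) (mem_CH_univ c)

end Pool.Agent.MP_bc14e1_gt
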