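import Pool.Agent.MP_bc14e1_gt.IfN

open Set Metric Filter Topology
open scoped Classical Manifold ContDiff

namespace Pool.Agent.MP_bc14e1_gt

theorem Trans_open {P : Type} [NormedAddCommGroup P] [NormedSpace ℝ P] (H : P → E 4 → ℝ)
    (K : Set (E 4)) (hK : IsCompact K)
    (hH : ∀ q, ∀ z ∈ K, ContDiffAt ℝ 2 (fun p : P × E 4 => H p.1 p.2) (q, z)) :
    IsOpen {q | ∀ z ∈ K, H q z = 0 → fderiv ℝ (H q) z ≠ 0} := by
  refine isOpen_iff_mem_nhds.2 fun q hq => hK.eventually_forall_of_forall_eventually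
    (P := fun q z => H q z = 0 → fderiv ℝ (H q) z ≠ 0) fun z hz => ?_
  by_cases h : H q z = 0
  · have h1 : ContDiffAt ℝ 1 (fun p : P × E 4 => fderiv ℝ (H p.1) p.2) (q, z) := by
      refine ContDiffAt.fderiv (n := 2) (f := fun p : P × E 4 => H p.1) (g := fun p => p.2) ?_
        contDiffAt_snd (by norm_num)
      exact ContDiffAt.comp (g := fun p : P × E 4 => H p.1 p.2)
        (f := fun w : (P × E 4) × E 4 => (w.1.1, w.2)) ((q, z), z) (hH q z hz) (by fun_prop)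
    exact (h1.continuousAt.eventually_ne (hq z hz h)).mono fun _ h _ => h
  · exact ((hH q z hz).continuousAt.eventually_ne h).mono fun _ h h' => absurd h' h

theorem Trans_dense (hSard : SardStmt) {n : ℕ} (k : Fin n) (s : ℝ) (hs : s * s = 1)
    (H : (Fin n → ℝ × (E 4 →L[ℝ] ℝ)) → E 4 → ℝ) (V : Set (E 4)) (hV : IsOpen V)
    (hH : ∀ q, ContDiffOn ℝ 2 (H q) V)
    (hu : ∀ q u, ∀ z ∈ V, H (Function.update q k u) z =
      H (Function.update q k 0) z + s * (u.1 + u.2 z)) :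
    Dense {q | ∀ z ∈ V, H q z = 0 → fderiv ℝ (H q) z ≠ 0} := by
  intro q
  have hD := hSard Unit V (fun _ z => s * H (Function.update q k 0) z) hV
    (fun _ => contDiffOn_const.mul (hH _)) (q k)
  have hm : Continuous fun u => Function.update q k u := continuous_const.update k continuous_id
  have := map_mem_closure hm hD (t := {q | ∀ z ∈ V, H q z = 0 → fderiv ℝ (H q) z ≠ 0}) ?_
  · rwa [Function.update_eq_self] at this
  intro u hu' z hz h0 h1
  have e : ∀ z ∈ V, s * H (Function.update q k 0) z + u.1 + u.2 z =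
      s * H (Function.update q k u) z := fun z hz => by
    rw [hu q u z hz]
    linear_combination (-(u.1 + u.2 z)) * hs
  refine hu' () z hz (by rw [e z hz, h0, mul_zero]) ?_
  have d : ∀ q, DifferentiableAt ℝ (H q) z := fun q =>
    ((hH q).contDiffAt (hV.mem_nhds hz)).differentiableAt (by norm_num)
  have h2 : HasFDerivAt (fun z => s * H (Function.update q k 0) z + u.1 + u.2 z)
      (fderiv ℝ (fun z => s * H (Function.update q k 0) z) z + u.2) z :=
    (((d _).const_mul s).hasFDerivAt.add_const u.1).add u.2.hasFDerivAt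
  have h3 := ((d (Function.update q k u)).hasFDerivAt.const_mul s).congr_of_eventuallyEq
    (eventually_of_mem (hV.mem_nhds hz) e)
  rw [h2.unique h3, h1, smul_zero]

theorem Trans_mono {X : Type} [TopologicalSpace X] (f : X → ℝ) (x : X)
    (e : OpenPartialHomeomorph X (E 4)) (hx : x ∈ e.source)
    (hf : ContDiffAt ℝ 2 (fun z => f (e.symm z)) (e x))
    (h0 : fderiv ℝ (fun z => f (e.symm z)) (e x) ≠ 0) : Mono f x := by
  set h : E 4 → ℝ := fun z => f (e.symm z) with hh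
  obtain ⟨v, hv⟩ : ∃ v, fderiv ℝ h (e x) v = -2 := by
    obtain ⟨w, hw⟩ : ∃ w, fderiv ℝ h (e x) w ≠ 0 := by
      by_contra hc
      exact h0 (ContinuousLinearMap.ext fun w => by_contra fun h => hc ⟨w, h⟩)
    refine ⟨(-2 / fderiv ℝ h (e x) w) • w, ?_⟩
    rw [map_smul, smul_eq_mul, div_mul_cancel₀ _ hw]
  have h1 : ContinuousAt (fun z => fderiv ℝ h z v) (e x) :=
    ((hf.fderiv_right (m := 1) (by norm_num)).continuousAt).clm_apply continuousAt_const
  have h2 : ∀ᶠ z in 𝓝 (e x), fderiv ℝ h z v < -1 :=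
    h1.eventually_lt continuousAt_const (by rw [hv]; norm_num)
  have h3 : ∀ᶠ z in 𝓝 (e x), DifferentiableAt ℝ h z :=
    (hf.eventually (by simp)).mono fun z hz => hz.differentiableAt (by norm_num)
  obtain ⟨r, hr, h4⟩ := Metric.eventually_nhds_iff_ball.1
    (h2.and (h3.and (e.open_target.mem_nhds (e.map_source hx))))
  refine ⟨e, v, 1, r, hx, one_pos, hr, fun z hz => (h4 z hz).2.2, fun z hz θ hθ hz' => ?_⟩
  have hb : ∀ s ∈ Icc (0 : ℝ) 1, z + s • θ • v ∈ ball (e x) r := fun s hs =>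
    (convex_ball _ _).add_smul_mem hz hz' hs
  have hd : ∀ s ∈ Icc (0 : ℝ) 1, HasDerivAt (fun s : ℝ => h (z + s • θ • v))
      (fderiv ℝ h (z + s • θ • v) (θ • v)) s := fun s hs => by
    have := ((hasDerivAt_id s).smul_const (θ • v)).const_add z
    rw [one_smul] at this
    exact (h4 _ (hb s hs)).2.1.hasFDerivAt.comp_hasDerivAt s this
  have h5 := (convex_Icc (0 : ℝ) 1).image_sub_le_mul_sub_of_deriv_le
    (f := fun s : ℝ => h (z + s • θ • v)) (C := -θ)
    (fun s hs => (hd s hs).continuousAt.continuousWithinAt)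
    (fun s hs => (hd s (interior_subset hs)).differentiableAt.differentiableWithinAt)
    (fun s hs => by
      rw [(hd s (interior_subset hs)).deriv, map_smul, smul_eq_mul]
      nlinarith [(h4 _ (hb s (interior_subset hs))).1]) 0 (by simp) 1 (by simp) zero_le_one
  simp only [one_smul, zero_smul, add_zero] at h5
  change h (z + θ • v) ≤ h z - 1 * θ
  linarith

theorem Trans_chart {X F : Type} [TopologicalSpace X] [ChartedSpace (E 4) X]
    [IsManifold (𝓡 4) ∞ X] [NormedAddCommGroup F] [NormedSpace ℝ F] {u : X → F}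
    (hu : ContMDiff (𝓡 4) 𝓘(ℝ, F) ∞ u) (c : X) {z : E 4} (hz : z ∈ (chartAt (E 4) c).target) :
    ContDiffAt ℝ 2 (fun z => u ((chartAt (E 4) c).symm z)) z := by
  have h1 : ContMDiffOn (𝓡 4) 𝓘(ℝ, F) ∞ (u ∘ (chartAt (E 4) c).symm) (chartAt (E 4) c).target :=
    hu.comp_contMDiffOn contMDiffOn_chart_symm
  exact ((contMDiffOn_iff_contDiffOn.1 h1).contDiffAt
    ((chartAt (E 4) c).open_target.mem_nhds hz)).of_le (by norm_cast)

theorem Trans_local {X : Type} [TopologicalSpace X] [T2Space X] [CompactSpace X]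
    [ChartedSpace (E 4) X] [IsManifold (𝓡 4) ∞ X] (O : Set X) (hO : IsOpen O) (x : X)
    (hx : x ∈ O) : ∃ (ρ : X → ℝ) (W C : Set X), ContMDiff (𝓡 4) 𝓘(ℝ, ℝ) ∞ ρ ∧
      ContMDiff (𝓡 4) 𝓘(ℝ, E 4) ∞ (fun y => ρ y • chartAt (E 4) x y) ∧ tsupport ρ ⊆ O ∧
      IsOpen W ∧ W ⊆ (chartAt (E 4) x).source ∧ (∀ y ∈ W, ρ y = 1) ∧ IsCompact C ∧ C ⊆ W ∧
      C ∈ 𝓝 x := by
  obtain ⟨ρ, -, h1⟩ := (SmoothBumpFunction.nhds_basis_tsupport (I := 𝓡 4) x).mem_iff.1
    (hO.mem_nhds hx)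
  obtain ⟨W, h2, h3, h4⟩ := eventually_nhds_iff.1
    (ρ.eventuallyEq_one.and (chart_source_mem_nhds (E 4) x))
  obtain ⟨C, h5, h6, h7⟩ := exists_compact_subset h3 h4
  exact ⟨ρ, W, C, ρ.contMDiff, ρ.contMDiff_smul contMDiffOn_chart, h1, h3, fun y hy => (h2 y hy).2,
    fun y hy => (h2 y hy).1, h5, h7, mem_interior_iff_mem_nhds.1 h6⟩

theorem Trans_core (hSard : SardStmt) {X : Type} [TopologicalSpace X] [CompactSpace X]
    [ChartedSpace (E 4) X] [IsManifold (𝓡 4) ∞ X] {n : ℕ} (c : Fin n → X) (g₀ : X → ℝ)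
    (ρ : Fin n → X → ℝ) (W C : Fin n → Set X) (h0 : ContMDiff (𝓡 4) 𝓘(ℝ, ℝ) ∞ g₀)
    (h1 : ∀ k, ContMDiff (𝓡 4) 𝓘(ℝ, ℝ) ∞ (ρ k))
    (h2 : ∀ k, ContMDiff (𝓡 4) 𝓘(ℝ, E 4) ∞ (fun y => ρ k y • chartAt (E 4) (c k) y))
    (h3 : ∀ k, IsOpen (W k)) (h4 : ∀ k, W k ⊆ (chartAt (E 4) (c k)).source)
    (h5 : ∀ k, ∀ y ∈ W k, ρ k y = 1) (h6 : ∀ k, IsCompact (C k)) (h7 : ∀ k, C k ⊆ W k) :
    ∃ g : Fin n → X → ℝ, (∀ k, Continuous (g k)) ∧ (∀ k x, ρ k x = 0 → g k x = 0) ∧
      (∀ x, ∑ k, |g k x| < 1) ∧ ∀ (ε₀ : ℝ) (ε : Fin n → ℝ), |ε₀| = 1 → (∀ k, |ε k| = 1) →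
        ∀ k, ∀ x ∈ C k, ε₀ * g₀ x + ∑ k, ε k * g k x = 0 →
          Mono (fun x => ε₀ * g₀ x + ∑ k, ε k * g k x) x := by
  let G : Fin n → ℝ × (E 4 →L[ℝ] ℝ) → X → ℝ := fun k u x =>
    u.1 * ρ k x + u.2 (ρ k x • chartAt (E 4) (c k) x)
  let sg : Bool → ℝ := fun b => if b then 1 else -1
  have hsg : ∀ t : ℝ, |t| = 1 → ∃ b, sg b = t := fun t ht => by
    rcases eq_or_eq_neg_of_abs_eq ht with rfl | rfl
    exacts [⟨true, rfl⟩, ⟨false, rfl⟩]
  let H : Fin n × Bool × (Fin n → Bool) → (Fin n → ℝ × (E 4 →L[ℝ] ℝ)) → E 4 → ℝ := fun a q z =>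
    sg a.2.1 * g₀ ((chartAt (E 4) (c a.1)).symm z) +
      ∑ j, sg (a.2.2 j) * G j (q j) ((chartAt (E 4) (c a.1)).symm z)
  have hH : ∀ a q, ∀ z ∈ (chartAt (E 4) (c a.1)).target, ContDiffAt ℝ 2
      (fun p : (Fin n → ℝ × (E 4 →L[ℝ] ℝ)) × E 4 => H a p.1 p.2) (q, z) := by
    intro a q z hz
    refine (contDiffAt_const.mul ((Trans_chart h0 _ hz).comp (q, z) contDiffAt_snd)).add
      (ContDiffAt.sum fun j _ => contDiffAt_const.mul (ContDiffAt.add (ContDiffAt.mul ?_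
        ((Trans_chart (h1 j) _ hz).comp (q, z) contDiffAt_snd)) (ContDiffAt.clm_apply ?_
        ((Trans_chart (h2 j) _ hz).comp (q, z) contDiffAt_snd))))
    · fun_prop
    · fun_prop
  have hH' : ∀ a q, ∀ z ∈ (chartAt (E 4) (c a.1)).target, ContDiffAt ℝ 2 (H a q) z :=
    fun a q z hz => ContDiffAt.comp (f := fun z => (q, z)) z (hH a q z hz) (by fun_prop)
  have hD : Dense (⋂ a : Fin n × Bool × (Fin n → Bool), {q | ∀ z ∈ chartAt (E 4) (c a.1) '' C a.1,
      H a q z = 0 → fderiv ℝ (H a q) z ≠ 0}) := by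
    refine dense_iInter_of_isOpen (fun a => Trans_open _ _ ((h6 a.1).image_of_continuousOn
      ((chartAt (E 4) (c a.1)).continuousOn.mono ((h7 _).trans (h4 _)))) ?_) fun a => ?_
    · rintro q _ ⟨x, hx, rfl⟩
      exact hH a q _ ((chartAt (E 4) (c a.1)).map_source (h4 _ (h7 _ hx)))
    refine (Trans_dense hSard a.1 (sg (a.2.2 a.1)) (by cases a.2.2 a.1 <;> simp [sg]) (H a)
      ((chartAt (E 4) (c a.1)).target ∩ (chartAt (E 4) (c a.1)).symm ⁻¹' W a.1)
      ((chartAt (E 4) (c a.1)).isOpen_inter_preimage_symm (h3 _))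
      (fun q z hz => (hH' a q z hz.1).contDiffWithinAt) ?_).mono ?_
    · intro q u z hz
      simp only [H]
      rw [← Finset.add_sum_erase _ _ (Finset.mem_univ a.1),
        ← Finset.add_sum_erase _ _ (Finset.mem_univ a.1),
        Finset.sum_congr rfl (g := fun j => sg (a.2.2 j) *
          G j (Function.update q a.1 0 j) ((chartAt (E 4) (c a.1)).symm z)) fun j hj => by
          rw [Function.update_of_ne (Finset.ne_of_mem_erase hj),
            Function.update_of_ne (Finset.ne_of_mem_erase hj)]]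
      simp only [Function.update_self, G, h5 _ _ hz.2, (chartAt (E 4) (c a.1)).right_inv hz.1,
        one_smul, Prod.fst_zero, Prod.snd_zero, zero_apply]
      ring
    · rintro q hq _ ⟨x, hx, rfl⟩
      refine hq _ ⟨(chartAt (E 4) (c a.1)).map_source (h4 _ (h7 _ hx)), ?_⟩
      rw [mem_preimage, (chartAt (E 4) (c a.1)).left_inv (h4 _ (h7 _ hx))]
      exact h7 _ hx
  have hc : Continuous fun p : (Fin n → ℝ × (E 4 →L[ℝ] ℝ)) × X => ∑ k, |G k (p.1 k) p.2| := by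
    refine continuous_finsetSum _ fun k _ => Continuous.abs (Continuous.add (Continuous.mul ?_
      ((h1 k).continuous.comp continuous_snd)) (Continuous.clm_apply ?_
      ((h2 k).continuous.comp continuous_snd)))
    · fun_prop
    · fun_prop
  have hs : ∀ᶠ q in 𝓝 (0 : Fin n → ℝ × (E 4 →L[ℝ] ℝ)), ∀ x ∈ univ, ∑ k, |G k (q k) x| < 1 :=
    isCompact_univ.eventually_forall_of_forall_eventually fun x _ =>
      hc.continuousAt.eventually_lt continuousAt_const (by simp [G])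
  obtain ⟨q, hq, hq'⟩ := hD.inter_nhds_nonempty hs
  refine ⟨fun k => G k (q k), fun k => (continuous_const.mul (h1 k).continuous).add
    ((q k).2.continuous.comp (h2 k).continuous), fun k x h => by simp [G, h],
    fun x => hq' x trivial, fun ε₀ ε e0 e k x hx hz => ?_⟩
  obtain ⟨b, rfl⟩ := hsg _ e0
  choose β hβ using fun j => hsg _ (e j)
  obtain rfl : ε = fun j => sg (β j) := funext fun j => (hβ j).symm
  have hx' := h4 _ (h7 _ hx)
  refine Trans_mono _ x (chartAt (E 4) (c k)) hx'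
    (hH' (k, b, β) q _ ((chartAt (E 4) (c k)).map_source hx'))
    (mem_iInter.1 hq (k, b, β) _ (mem_image_of_mem _ hx) ?_)
  simp only [H]
  rw [(chartAt (E 4) (c k)).left_inv hx']
  exact hz

theorem trans_stmt (hSard : SardStmt) : TransStmt := by
  intro X ι _ _ _ _ _ F N U hF hN hFN hU hc
  obtain ⟨g₀, a0, a1, -⟩ := exists_contMDiffMap_zero_one_nhds_of_isClosed (𝓡 4) (n := ⊤)
    hN.isClosed_compl hF (disjoint_left.2 fun x hx hx' => hx (hFN hx'))
  obtain ⟨N1, b1, b2, b3⟩ := mem_nhdsSet_iff_exists.1 a1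
  obtain ⟨N', c1, c2, c3⟩ := normal_exists_closure_subset hF b1 b2
  have hl : ∀ x : (N1ᶜ : Set X), ∃ i, x.1 ∈ U i ∩ (closure N')ᶜ := fun x => by
    obtain ⟨i, hi⟩ := mem_iUnion.1 (hc (fun h => x.2 (b2 h) : x.1 ∈ Fᶜ))
    exact ⟨i, hi, fun h => x.2 (c3 h)⟩
  choose i hi using hl
  choose ρ W C d1 d2 d3 d4 d5 d6 d7 d8 d9 using fun x : (N1ᶜ : Set X) =>
    Trans_local _ ((hU (i x)).inter isClosed_closure.isOpen_compl) x.1 (hi x)
  obtain ⟨t, ht⟩ := b1.isClosed_compl.isCompact.elim_nhds_subcover' (fun x hx => C ⟨x, hx⟩)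
    fun x hx => d9 ⟨x, hx⟩
  let c : Fin t.card → (N1ᶜ : Set X) := fun k => (t.equivFin.symm k).1
  obtain ⟨g, e1, e2, e3, e4⟩ := Trans_core hSard (fun k => (c k).1) g₀ (fun k => ρ (c k))
    (fun k => W (c k)) (fun k => C (c k)) g₀.contMDiff (fun k => d1 _) (fun k => d2 _)
    (fun k => d4 _) (fun k => d5 _) (fun k => d6 _) (fun k => d7 _) (fun k => d8 _)
  have hts : ∀ k, tsupport (g k) ⊆ U (i (c k)) ∩ (closure N')ᶜ := fun k =>
    (closure_mono (t := Function.support (ρ (c k))) (s := Function.support (g k))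
      fun x hx h => hx (e2 k x h)).trans (d3 (c k))
  have hN1 : N1 ⊆ N := fun x hx => by
    by_contra h
    exact zero_ne_one ((a0.self_of_nhdsSet x h).symm.trans (b3 hx))
  refine ⟨t.card, fun k => i (c k), g₀, g, N', g₀.contMDiff.continuous, e1, fun x hx => ?_,
    fun k x hx => (hts k hx).1, c1, c2, fun x hx => hN1 (c3 (subset_closure hx)),
    fun x hx => b3 (c3 (subset_closure hx)), fun k x hx => ?_, fun ε₀ ε f1 f2 x hz => ?_⟩
  · by_contra h
    exact notMem_tsupport_iff_eventuallyEq.2 (a0.filter_mono (nhds_le_nhdsSet h)) hx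
  · by_contra h
    exact (hts k (subset_closure h)).2 (subset_closure hx)
  by_cases hx : x ∈ N1
  · exfalso
    have h1 : g₀ x = 1 := b3 hx
    have h2 : |∑ k, ε k * g k x| ≤ ∑ k, |g k x| :=
      (Finset.abs_sum_le_sum_abs _ _).trans (Finset.sum_le_sum fun k _ => by
        rw [abs_mul, f2, one_mul])
    rw [h1, mul_one, add_eq_zero_iff_neg_eq] at hz
    rw [← hz, abs_neg, f1] at h2
    exact absurd (e3 x) (not_lt.2 h2)
  · obtain ⟨y, hy, hxy⟩ := mem_iUnion₂.1 (ht hx)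
    refine e4 ε₀ ε f1 f2 (t.equivFin ⟨y, hy⟩) x ?_ hz
    simp only [c, Equiv.symm_apply_apply]
    exact hxy

end Pool.Agent.MP_bc14e1_gt
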