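import Pool.Agent.MP_bc14e1_gt.IfP

open Set Metric
open scoped Classical

namespace Pool.Agent.MP_bc14e1_gt

theorem Uni_ext {V : Type} [AddCommGroup V] [Module ℂ V] (Z T : Submodule ℂ V) (φ : Z →ₗ[ℂ] ℂ)
    (h : ∀ z : Z, z.1 ∈ T → φ z = 0) :
    ∃ ψ : V →ₗ[ℂ] ℂ, (∀ z : Z, ψ z = φ z) ∧ ∀ t ∈ T, ψ t = 0 := by
  have h1 : φ ∈ (LinearMap.ker (T.mkQ ∘ₗ Z.subtype)).dualAnnihilator :=
    (Submodule.mem_dualAnnihilator _).2 fun z hz => h z ((Submodule.Quotient.mk_eq_zero T).1 hz)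
  rw [← LinearMap.range_dualMap_eq_dualAnnihilator_ker] at h1
  obtain ⟨ψ, hψ⟩ := h1
  refine ⟨ψ ∘ₗ T.mkQ, fun z => LinearMap.congr_fun hψ z, fun t ht => ?_⟩
  rw [LinearMap.comp_apply, T.mkQ_apply, (Submodule.Quotient.mk_eq_zero T).2 ht, map_zero]

section

variable {G Y : Type} [Group G] [TopologicalSpace Y] [MulAction G Y] [ContinuousConstSMul G Y]

theorem Uni_deg (s : G) (a : Lam ℂ) (k : ℕ) (c : Tot ℂ Y) :
    deg ℂ Y k (act ℂ Y s a c) = act ℂ Y s a (deg ℂ Y k c) :=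
  map_act _ (fun c => deg_psh _ k c) a c

theorem Uni_bc (s : G) (a : Lam ℂ) {k : ℕ} {c : Tot ℂ Y} (h : c ∈ BC ℂ (univ : Set Y) k) :
    act ℂ Y s a c ∈ BC ℂ (univ : Set Y) k := by
  obtain ⟨b, hb, rfl⟩ := h
  exact ⟨_, ⟨mem_CH_univ _, act_mem_DG s a hb.2⟩, dT_act s a b⟩

theorem Uni_stab [IsNoetherianRing (Lam ℂ)] {s : G} {k : ℕ} (h : FGI ℂ s (univ : Set Y) univ k)
    (g : Lam ℂ) : ∃ e : ℕ, ∀ y ∈ ZC ℂ (univ : Set Y) k, ∀ N : ℕ,
      act ℂ Y s (g ^ N) y ∈ BC ℂ univ k → act ℂ Y s (g ^ e) y ∈ BC ℂ univ k := by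
  obtain ⟨n, z, -, hz⟩ := h
  let M : ℕ → Submodule (Lam ℂ) (Fin n → Lam ℂ) := fun j =>
    { carrier := {a | act ℂ Y s (g ^ j) (∑ i, act ℂ Y s (a i) (z i)) ∈ BC ℂ univ k}
      add_mem' := fun {a b} ha hb => by
        have := (BC ℂ (univ : Set Y) k).add_mem ha hb
        simpa [Finset.sum_add_distrib] using this
      zero_mem' := by simp
      smul_mem' := fun c a ha => by
        have := Uni_bc s c ha
        rw [← Module.End.mul_apply, ← map_mul, mul_comm, map_mul, Module.End.mul_apply,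
          map_sum] at this
        simpa using this }
  have hM : Monotone M := monotone_nat_of_le_succ fun j a ha => by
    have := Uni_bc s g ha
    rwa [← Module.End.mul_apply, ← map_mul, ← pow_succ'] at this
  obtain ⟨e, he⟩ := monotone_stabilizes_iff_noetherian.2 inferInstance ⟨M, hM⟩
  refine ⟨e, fun y hy N hN => ?_⟩
  obtain ⟨a, ha⟩ := hz y hy
  have h1 : a ∈ M N := by
    have := (BC ℂ (univ : Set Y) k).sub_mem hN (Uni_bc s (g ^ N) ha)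
    rwa [map_sub, sub_sub_cancel] at this
  have h2 : a ∈ M e := by
    have h3 : M e = M (max e N) := he _ (le_max_left _ _)
    rw [h3]
    exact hM (le_max_right _ _) h1
  have := (BC ℂ (univ : Set Y) k).add_mem (Uni_bc s (g ^ e) ha) h2
  rwa [map_sub, sub_add_cancel] at this

end

theorem uni_stmt (B : Bas2) (hFrob : FrobStmt) (hPP : PPStmt) (hPD2 : PD2Stmt) : UniStmt := by
  intro X G Y _ _ _ _ _ _ _ _ _ o F p s β htc hP ζ hζ f hf v hv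
  obtain ⟨-, hN, hcc, -, -, -, -, hev, hdv, hpr, -⟩ := B.laur
  have := hN ℂ
  have hfree : ∀ (n : ℤ) (y : Y), s ^ n • y = y → n = 0 :=
    fun n y h => htc.inf n (htc.cov.free _ y h)
  obtain ⟨e, he⟩ := Uni_stab (by
    simpa using B.fg ℂ X G Y F p s htc univ univ isCompact_univ isOpen_univ subset_rfl 1) (piL ζ)
  obtain ⟨ρ, hρ⟩ := (hFrob ζ).2 (e + 1)
  have htf := fun c => (B.tf ℂ G Y s hfree _ hρ.ne c).1
  obtain ⟨Bf, hB, hpp⟩ := hPP X G Y o F p s β htc hP _ ρ hρ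
  have hS := (B.lam X G Y F p s β htc hP.lk).1
  let φ : ZC ℂ (univ : Set Y) 2 →ₗ[ℂ] ℂ :=
    { toFun := fun z => ρ (f ⟨z.1, z.2⟩)
      map_add' := fun x y => by
        rw [← map_add, ← map_add]
        rfl
      map_smul' := fun a x => by
        have h1 : (⟨(a • x).1, (a • x).2⟩ : ZT ℂ Y s 2) =
            (LaurentPolynomial.C a : Lam ℂ) • (⟨x.1, x.2⟩ : ZT ℂ Y s 2) :=
          Subtype.ext (act_C s a x.1).symm
        rw [h1, map_smul, smul_eq_mul, LaurentPolynomial.C_eq_algebraMap, ← Algebra.smul_def,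
          map_smul]
        rfl }
  obtain ⟨ψ, hψ, hψ'⟩ := Uni_ext _ (LinearMap.range (dT ℂ Y) ⊔ Mul0 s (piL ζ ^ (e + 1))) φ
    fun z hz => by
      obtain ⟨_, ⟨w, rfl⟩, _, ⟨y, rfl⟩, h⟩ := Submodule.mem_sup.1 hz
      have h1 := congrArg (deg ℂ Y 2) h
      rw [map_add, deg_dT, Uni_deg, deg_of_mem z.2.1.2] at h1
      have h2 : dT ℂ Y (deg ℂ Y 2 y) = 0 := htf _ (by
        have h3 := congrArg (dT ℂ Y) h1
        rwa [map_add, dT_dT, zero_add, dT_act, show dT ℂ Y z.1 = 0 from z.2.2] at h3)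
      have hw : dT ℂ Y (deg ℂ Y 3 w) ∈ ZC ℂ (univ : Set Y) 2 :=
        ⟨⟨mem_CH_univ _, dT_mem_DG (deg_mem _ _)⟩, dT_dT _⟩
      have hy : deg ℂ Y 2 y ∈ ZC ℂ (univ : Set Y) 2 := ⟨⟨mem_CH_univ _, deg_mem _ _⟩, h2⟩
      have h4 : (⟨z.1, z.2⟩ : ZT ℂ Y s 2) = (⟨_, hw⟩ : ZT ℂ Y s 2) +
          (piL ζ ^ (e + 1)) • (⟨_, hy⟩ : ZT ℂ Y s 2) := Subtype.ext h1.symm
      change ρ (f _) = 0
      rw [h4, map_add, hf _ ⟨_, ⟨mem_CH_univ _, deg_mem _ _⟩, rfl⟩, zero_add, map_smul,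
        smul_eq_mul, hρ.kill]
  obtain ⟨K', -, -, u, -, ⟨y, hy⟩, hb⟩ := (hPD2 X G Y o F p s β htc hP ζ hζ (e + 1) ρ hρ Bf hB hpp
    univ isOpen_univ).2 _ ⟨univ, isCompact_univ, subset_rfl, rfl⟩ ψ
    (fun b => hψ' _ (Submodule.mem_sup_left ⟨b, rfl⟩)) fun b hb => by
      obtain ⟨x, hx, t, ht, rfl⟩ := Submodule.mem_sup.1 hb
      rw [preimage_univ, compl_univ] at hx
      rw [eq_zero_of_mem_CH_empty hx, zero_add]
      exact hψ' _ (Submodule.mem_sup_right ht)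
  have h1 : evL ζ (lamF s β v.1 u) = 1 := by
    have h2 := hρ.inj (cj (lamF s β v.1 u - 1)) fun a => by
      have h3 := hb (a • v).1 (by
        rw [show dT ℂ Y (a • v).1 = 0 from (a • v).2.2]
        exact zero_mem _)
      rw [hB, hψ ⟨(a • v).1, (a • v).2⟩] at h3
      change ρ (lamF s β (a • v.1) u) = ρ (f (a • v)) at h3
      rw [hS.smul_left, map_smul, hv, smul_eq_mul] at h3
      rw [hcc, mul_sub, map_sub, h3, sub_self]
    have h4 := (hdv ζ _).2 ((dvd_pow_self _ e.succ_ne_zero).trans h2)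
    rwa [hev, map_eq_zero, map_sub, map_one, sub_eq_zero] at h4
  have h5 : lamF s β v.1 (deg ℂ Y 2 u) = lamF s β v.1 u := by
    refine finsum_congr fun n => ?_
    have h6 : ∀ c, β v.1 (deg ℂ Y 2 c) = β v.1 c := fun c => by
      induction c using Tot.ind with
      | h0 => simp
      | hadd a b ha hb => simp [ha, hb]
      | h1 k σ a =>
        rw [deg_inc]
        split_ifs with hk
        · rfl
        · rw [map_zero, hP.dg 2 k (by omega) _ v.2.1.2 _ (inc_mem_DG _ _)]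
    rw [gs, ← deg_psh, h6]
  have h7 : dT ℂ Y (deg ℂ Y 2 u) = act ℂ Y s (piL ζ ^ (e + 1)) (deg ℂ Y 1 y) := by
    rw [← deg_dT, ← hy, Uni_deg]
  obtain ⟨c, hc, h8⟩ := he (deg ℂ Y 1 y) ⟨⟨mem_CH_univ _, deg_mem _ _⟩, htf _ (by
    rw [← dT_act, ← h7, dT_dT])⟩ (e + 1) ⟨_, ⟨mem_CH_univ _, deg_mem _ _⟩, h7⟩
  refine ⟨deg ℂ Y 2 u - act ℂ Y s (piL ζ) c,
    ⟨⟨mem_CH_univ _, sub_mem (deg_mem _ _) (act_mem_DG s _ hc.2)⟩, ?_⟩, ?_⟩
  · change dT ℂ Y _ = 0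
    rw [map_sub, dT_act, h8, h7, pow_succ', map_mul, Module.End.mul_apply, sub_self]
  · have h9 := hS.add_right v.1 (deg ℂ Y 2 u - act ℂ Y s (piL ζ) c) (piL ζ • toTw ℂ Y s c)
    rw [hS.smul_right] at h9
    change lamF s β v.1 (deg ℂ Y 2 u - act ℂ Y s (piL ζ) c + act ℂ Y s (piL ζ) c) = _ at h9
    rw [sub_add_cancel, h5] at h9
    have h10 := congrArg (evL ζ) h9
    rw [h1, map_add, map_mul, hev, (hdv ζ _).2 dvd_rfl, map_zero, zero_mul, add_zero] at h10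
    rw [← h10]
    exact one_ne_zero

end Pool.Agent.MP_bc14e1_gt
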