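import Pool.Agent.MP_bc14e1_gt.P.XPI

open Set Metric
open scoped Classical

namespace Pool.Agent.MP_bc14e1_gt

theorem XPBox_norm {t : ℝ} (ht : t ∈ Icc (0 : ℝ) 1) {u : ℂ} (hu : u ≠ 0) (w : ℂ) :
    ‖((1 - t) + t * (‖w‖ * ‖u‖⁻¹)) • u‖ = (1 - t) * ‖u‖ + t * ‖w‖ := by
  have : 0 ≤ (1 - t) + t * (‖w‖ * ‖u‖⁻¹) :=
    add_nonneg (sub_nonneg.2 ht.2) (mul_nonneg ht.1 (by positivity))
  rw [norm_smul, Real.norm_of_nonneg this, add_mul, mul_assoc, mul_assoc,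
    inv_mul_cancel₀ (norm_ne_zero_iff.2 hu), mul_one]

theorem XPBox_unit {u : ℂ} (hu : u ≠ 0) (w : ℂ) : ‖‖u‖⁻¹ • (u * w)‖ = ‖w‖ := by
  rw [norm_smul, norm_mul, norm_inv, norm_norm, ← mul_assoc,
    inv_mul_cancel₀ (norm_ne_zero_iff.2 hu), one_mul]

theorem xbox_stmt (B : Bas2) (hC : XCircStmt) : XBoxStmt := by
  intro X _ F e V T z w hF hV hT hVT hz hw hw0
  obtain ⟨κ⟩ := B.kit
  set A : Set X := e.symm '' (V ×ˢ T) \ F with hAdef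
  have hA : ∀ x ∈ A, x ∈ e.source ∧ (e x).1 ∈ V ∧ (e x).2 ∈ T ∧ (e x).2 ≠ 0 := by
    rintro _ ⟨⟨v, hv, rfl⟩, h⟩
    have hs := e.map_target (hVT hv)
    refine ⟨hs, ?_, ?_, fun h' => h ((hF _ hs).2 h')⟩
    · rw [e.right_inv (hVT hv)]; exact hv.1
    · rw [e.right_inv (hVT hv)]; exact hv.2
  have hoff : ∀ a ∈ V, ∀ u ∈ T, u ≠ 0 → e.symm (a, u) ∈ A := fun a ha u hu hu0 =>
    ⟨⟨(a, u), ⟨ha, hu⟩, rfl⟩, fun h => hu0 (by
      have := (hF _ (e.map_target (hVT (show (a, u) ∈ V ×ˢ T from ⟨ha, hu⟩)))).1 h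
      rwa [e.right_inv (hVT ⟨ha, hu⟩)] at this)⟩
  have hrad : ∀ t ∈ Icc (0 : ℝ) 1, ∀ u ∈ T, u ≠ 0 →
      ((1 - t) + t * (‖w‖ * ‖u‖⁻¹)) • u ∈ T ∧ ((1 - t) + t * (‖w‖ * ‖u‖⁻¹)) • u ≠ 0 := by
    intro t ht u hu hu0
    have a := XPBox_norm ht hu0 w
    have b := norm_pos_iff.2 hu0
    have c := norm_pos_iff.2 hw0
    constructor
    · rcases le_total ‖u‖ ‖w‖ with h | h
      · exact hT w hw _ (by rw [a]; nlinarith [ht.1, ht.2])
      · exact hT u hu _ (by rw [a]; nlinarith [ht.1, ht.2])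
    · rw [← norm_pos_iff, a]
      rcases le_total ‖u‖ ‖w‖ with h | h <;> nlinarith [ht.1, ht.2]
  have hun : ∀ u : ℂ, u ≠ 0 → ‖u‖⁻¹ • (u * w) ∈ T ∧ ‖u‖⁻¹ • (u * w) ≠ 0 := fun u hu =>
    ⟨hT w hw _ (XPBox_unit hu w).le, by rwa [← norm_ne_zero_iff, XPBox_unit hu, norm_ne_zero_iff]⟩
  let g : ℂ → X := fun u => e.symm (z, ‖u‖⁻¹ • (u * w))
  have hgm : MapsTo g {0}ᶜ A := fun u hu => hoff z hz _ (hun u hu).1 (hun u hu).2
  have hgc : ContinuousOn g {0}ᶜ :=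
    e.continuousOn_symm.comp (continuousOn_const.prodMk
      ((continuous_norm.continuousOn.inv₀ fun u hu => norm_ne_zero_iff.2 hu).smul
        (continuous_id.mul continuous_const).continuousOn))
      fun u hu => hVT ⟨hz, (hun u hu).1⟩
  have hL : pth ℤ XLoop ∈ CH ℤ ({0}ᶜ : Set ℂ) :=
    CH_mono (fun u hu h => by
      rw [mem_singleton_iff.1 h, mem_sphere_zero_iff_norm, norm_zero] at hu
      exact zero_ne_one hu) XLoop_mem_CH
  have hM : XMer e z w = psh ℤ g (pth ℤ XLoop) :=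
    psh_congr (fun u hu => by
      change e.symm _ = e.symm _
      rw [mem_sphere_zero_iff_norm.1 hu, inv_one, one_smul]) XLoop_mem_CH
  have hMd : XMer e z w ∈ DG ℤ X 1 := psh_mem_DG _ (pth_mem_DG _)
  refine ⟨mem_ZC.2 ⟨hM ▸ psh_mem_CH g hgm hL, hMd, by
    rw [hM, dT_psh hgc hL, dT_XLoop, map_zero]⟩, fun c hc => ?_⟩
  obtain ⟨c1, c2, c3⟩ := mem_ZC.1 hc
  let q : X → ℂ := fun x => (e x).2 / w
  have hec : ContinuousOn e A := e.continuousOn.mono fun x hx => (hA x hx).1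
  have hqc : ContinuousOn q A := hec.snd.div_const w
  have hqm : MapsTo q A {0}ᶜ := fun x hx => div_ne_zero (hA x hx).2.2.2 hw0
  let H : ℝ × X → X := fun y => e.symm ((1 - y.1) • (e y.2).1 + y.1 • z,
    ((1 - y.1) + y.1 * (‖w‖ * ‖(e y.2).2‖⁻¹)) • (e y.2).2)
  have hV' : ∀ y ∈ Icc (0 : ℝ) 1 ×ˢ A, (1 - y.1) • (e y.2).1 + y.1 • z ∈ V := fun y hy =>
    hV (hA _ hy.2).2.1 hz (sub_nonneg.2 hy.1.2) hy.1.1 (sub_add_cancel _ _)
  have hHm : MapsTo H (Icc 0 1 ×ˢ A) A := fun y hy =>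
    hoff _ (hV' y hy) _ (hrad _ hy.1 _ (hA _ hy.2).2.2.1 (hA _ hy.2).2.2.2).1
      (hrad _ hy.1 _ (hA _ hy.2).2.2.1 (hA _ hy.2).2.2.2).2
  have hHc : ContinuousOn H (Icc 0 1 ×ˢ A) := by
    have h1 : ContinuousOn (fun y : ℝ × X => e y.2) (Icc 0 1 ×ˢ A) :=
      hec.comp continuous_snd.continuousOn fun y hy => hy.2
    have h2 : ContinuousOn (fun y : ℝ × X => 1 - y.1) (Icc 0 1 ×ˢ A) :=
      (continuous_const.sub continuous_fst).continuousOn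
    exact e.continuousOn_symm.comp
      (((h2.smul h1.fst).add (continuous_fst.smul continuous_const).continuousOn).prodMk
        ((h2.add (continuous_fst.continuousOn.mul (continuousOn_const.mul (h1.snd.norm.inv₀
          fun y hy => norm_ne_zero_iff.2 (hA _ hy.2).2.2.2)))).smul h1.snd))
      fun y hy => hVT ⟨hV' y hy, (hrad _ hy.1 _ (hA _ hy.2).2.2.1 (hA _ hy.2).2.2.2).1⟩
  have h0 : ∀ x ∈ A, H (0, x) = x := fun x hx => by
    change e.symm _ = x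
    simp only [sub_zero, one_smul, zero_smul, add_zero, zero_mul]
    exact e.left_inv (hA x hx).1
  have h1 : EqOn (fun x => H (1, x)) (g ∘ q) A := fun x hx => by
    change e.symm _ = e.symm (z, ‖(e x).2 / w‖⁻¹ • ((e x).2 / w * w))
    rw [div_mul_cancel₀ _ hw0, norm_div, inv_div, div_eq_mul_inv]
    simp only [sub_self, zero_smul, one_smul, zero_add, one_mul]
  have e1 := dT_hop κ hHc c1
  rw [c3, map_zero, add_zero, psh_of_eqOn_id h0 c1, psh_congr h1 c1, ← psh_psh g hqc c1] at e1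
  obtain ⟨n, hn⟩ := hC (psh ℤ q c) (mem_ZC.2 ⟨psh_mem_CH q hqm c1, psh_mem_DG q c2, by
    rw [dT_psh hqc c1, c3, map_zero]⟩)
  obtain ⟨b, hb, -, e2⟩ := mem_BC.1 hn
  refine ⟨n, mem_BC_of_dT (sub_mem c2 (Submodule.smul_mem _ _ hMd))
    (b := psh ℤ g b - hop κ ℤ H c)
    (CH_mono (fun x hx => hx.2) (sub_mem (psh_mem_CH g hgm hb) (hop_mem_CH κ H hHm c1))) ?_⟩
  rw [map_sub, e1, dT_psh hgc hb, e2, map_sub, map_smul, ← hM]
  abel

end Pool.Agent.MP_bc14e1_gt
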