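import Pool.Agent.MP_bc14e1_gt.P.XPI

open Set Metric
open scoped Classical

namespace Pool.Agent.MP_bc14e1_gt

theorem XPCirc_ne : (2 * Real.pi * Complex.I : ℂ) ≠ 0 := Complex.two_pi_I_ne_zero

theorem XPCirc_cov [MulAction (Multiplicative ℤ) ℂ]
    (hs : ∀ (g : Multiplicative ℤ) (y : ℂ), g • y = y + (Multiplicative.toAdd g : ℤ)) :
    GCov (Multiplicative ℤ) ({0}ᶜ : Set ℂ)
      (fun y : ℂ => Complex.exp (2 * Real.pi * Complex.I * y)) where
  cont := by fun_prop
  inv g y := by
    rw [hs, Complex.exp_eq_exp_iff_exists_int]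
    exact ⟨Multiplicative.toAdd g, by ring⟩
  mem y := Complex.exp_ne_zero _
  free g y h := by
    rw [hs, add_eq_left, Int.cast_eq_zero] at h
    exact toAdd_eq_zero.1 h
  trans y y' h := by
    obtain ⟨n, hn⟩ := Complex.exp_eq_exp_iff_exists_int.1 h.symm
    refine ⟨Multiplicative.ofAdd n, ?_⟩
    rw [hs, toAdd_ofAdd]
    apply mul_left_cancel₀ XPCirc_ne
    rw [hn]; ring
  sec x hx := by
    have hx0 : x ≠ 0 := hx
    refine ⟨{u | u / x ∈ Complex.slitPlane}, Complex.isOpen_slitPlane.preimage (by fun_prop),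
      by simp [hx0], fun u hu h => ?_,
      fun u => (Complex.log (u / x) + Complex.log x) / (2 * Real.pi * Complex.I), ?_, ?_, ?_⟩
    · rw [mem_singleton_iff] at h
      subst h
      simp at hu
    · refine ContinuousOn.div_const (ContinuousOn.add ?_ continuousOn_const) _
      exact ContinuousOn.clog (by fun_prop) fun u hu => hu
    · intro u hu
      have hu0 : u / x ≠ 0 := Complex.slitPlane_ne_zero hu
      rw [mul_div_cancel₀ _ XPCirc_ne, Complex.exp_add, Complex.exp_log hu0, Complex.exp_log hx0,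
        div_mul_cancel₀ _ hx0]
    · have : (fun u => (Complex.log (u / x) + Complex.log x) / (2 * Real.pi * Complex.I)) ''
          {u | u / x ∈ Complex.slitPlane} =
          (fun y : ℂ => (2 * Real.pi * Complex.I * y - Complex.log x).im) ⁻¹'
            Ioo (-Real.pi) Real.pi := by
        ext y
        constructor
        · rintro ⟨u, hu, rfl⟩
          simp only [mem_preimage]
          rw [mul_div_cancel₀ _ XPCirc_ne, add_sub_cancel_right, Complex.log_im]
          exact ⟨Complex.neg_pi_lt_arg _,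
            lt_of_le_of_ne (Complex.arg_le_pi _) (Complex.slitPlane_arg_ne_pi hu)⟩
        · intro hy
          have he : Complex.exp (2 * Real.pi * Complex.I * y) / x =
              Complex.exp (2 * Real.pi * Complex.I * y - Complex.log x) := by
            rw [Complex.exp_sub, Complex.exp_log hx0]
          have hl : Complex.log (Complex.exp (2 * Real.pi * Complex.I * y - Complex.log x)) =
              2 * Real.pi * Complex.I * y - Complex.log x := Complex.log_exp hy.1 hy.2.le
          refine ⟨Complex.exp (2 * Real.pi * Complex.I * y), ?_, ?_⟩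
          · change Complex.exp (2 * Real.pi * Complex.I * y) / x ∈ Complex.slitPlane
            rw [he, Complex.mem_slitPlane_iff_arg]
            refine ⟨?_, Complex.exp_ne_zero _⟩
            rw [← Complex.log_im, hl]
            exact hy.2.ne
          · change (Complex.log (Complex.exp (2 * Real.pi * Complex.I * y) / x) + Complex.log x) /
              (2 * Real.pi * Complex.I) = y
            rw [he, hl, sub_add_cancel, mul_div_cancel_left₀ _ XPCirc_ne]
      rw [this]
      exact isOpen_Ioo.preimage (by fun_prop)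

theorem XPCirc_ctr : Ctr (univ : Set ℂ) 0 :=
  ⟨trivial, fun q => ((1 - q.1 : ℝ) : ℂ) * q.2, by fun_prop, fun _ _ => trivial,
    fun y _ => by simp, fun y _ => by simp⟩

theorem XPCirc_main (B : Bas2) [MulAction (Multiplicative ℤ) ℂ]
    [ContinuousConstSMul (Multiplicative ℤ) ℂ]
    (hs : ∀ (g : Multiplicative ℤ) (y : ℂ), g • y = y + (Multiplicative.toAdd g : ℤ)) :
    XCircStmt := by
  intro c hc
  obtain ⟨hc1, hc2, hc3⟩ := mem_ZC.1 hc
  have hG := XPCirc_cov hs
  set p : ℂ → ℂ := fun y : ℂ => Complex.exp (2 * Real.pi * Complex.I * y) with hp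
  obtain ⟨h1, h2⟩ := B.lift ℤ (Multiplicative ℤ) ℂ ℂ _ p hG
  obtain ⟨k1, k2⟩ := B.ctr ℤ ℂ univ 0 XPCirc_ctr
  obtain ⟨c2, hd2, rfl⟩ := h1 1 c (Submodule.mem_inf.2 ⟨hc1, hc2⟩)
  rw [dT_psh_cont hG.cont] at hc3
  obtain ⟨v, hv, hv2⟩ := h2 (Multiplicative.ofAdd 1)
    (fun g => ⟨Multiplicative.toAdd g, by
      rw [← ofAdd_zsmul, smul_eq_mul, mul_one, ofAdd_toAdd]⟩) 0 _ (dT_mem_DG hd2) hc3
  obtain ⟨u, -, hu, hu2⟩ := mem_BC.1 (k2 v (Submodule.mem_inf.2 ⟨mem_CH_univ v, hv⟩))
  set n : ℤ := val0 ℤ (fun _ => (1 : ℤ)) v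
  set t : Multiplicative ℤ := Multiplicative.ofAdd 1
  let L : C(unitInterval, ℂ) := ⟨fun θ => ((θ : ℝ) : ℂ), by fun_prop⟩
  have hL : dT ℤ ℂ (pth ℤ L) = gs ℤ ℂ t (pt ℤ 0) - pt ℤ 0 := by
    rw [dT_pth, gs, psh_pt, hs]
    simp [L, t]
  have hz : c2 - n • pth ℤ L - (gs ℤ ℂ t u - u) ∈ ZC ℤ (univ : Set ℂ) 1 := by
    refine mem_ZC.2 ⟨mem_CH_univ _, sub_mem (sub_mem hd2 (Submodule.smul_mem _ _ (pth_mem_DG _)))
      (sub_mem (gs_mem_DG _ hu) hu), ?_⟩
    rw [map_sub, map_sub, map_sub, map_smul, dT_gs, hu2, hv2, hL, map_sub, map_smul, smul_sub]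
    abel
  obtain ⟨b, -, hb, hb2⟩ := mem_BC.1 (k1 1 one_ne_zero hz)
  refine ⟨n, mem_BC.2 ⟨psh ℤ p b, psh_mem_CH p (fun y _ => hG.mem y) (mem_CH_univ b),
    psh_mem_DG p hb, ?_⟩⟩
  have e1 : psh ℤ p (gs ℤ ℂ t u) = psh ℤ p u := by
    rw [gs, psh_psh' _ (continuous_const_smul t)]
    exact psh_congr (fun y _ => hG.inv t y) (mem_CH_univ u)
  have e2 : psh ℤ p (pth ℤ L) = pth ℤ XLoop := psh_pth p L (hG.cont.comp L.continuous)
  rw [dT_psh_cont hG.cont, hb2, map_sub, map_sub, map_sub, map_smul, e1, e2, sub_self, sub_zero]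

theorem xcirc_stmt (B : Bas2) : XCircStmt := by
  letI : MulAction (Multiplicative ℤ) ℂ :=
    { smul := fun g y => y + (Multiplicative.toAdd g : ℤ)
      one_smul := fun y => by
        change y + ((0 : ℤ) : ℂ) = y
        simp
      mul_smul := fun g h y => by
        change y + ((Multiplicative.toAdd g + Multiplicative.toAdd h : ℤ) : ℂ) =
          y + ((Multiplicative.toAdd h : ℤ) : ℂ) + ((Multiplicative.toAdd g : ℤ) : ℂ)
        push_cast
        ring }
  haveI : ContinuousConstSMul (Multiplicative ℤ) ℂ :=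
    ⟨fun g => continuous_id.add continuous_const⟩
  exact XPCirc_main B fun _ _ => rfl

end Pool.Agent.MP_bc14e1_gt
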