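import Pool.Agent.MP_bc14e1_gt.P.XPI

open Set Metric
open scoped Classical

namespace Pool.Agent.MP_bc14e1_gt

theorem XPCls_disj (κ : Kit) {X Y : Type} [TopologicalSpace X] [TopologicalSpace Y]
    {o : Orientation4 X} {q : Y → X} {τ : TS (Y × Y) → ℝ} (hτ : IsThom o q τ) {A B : Set Y}
    (hAB : Disjoint A B) {u v : Tot ℂ Y} (hu : u ∈ CH ℂ A) (hv : v ∈ CH ℂ B) :
    beta κ τ u v = 0 := by
  have h := κ.mem ℂ Y Y A B _ (sgn_mem_CH sgc hu) _ (cast_mem_CH (starRingEnd ℂ) hv)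
  change coevC τ (κ.cx ℂ Y Y (sgn ℂ Y sgc u) (cjT Y v)) = 0
  refine supported_ind (P := fun c => coevC τ c = 0) (map_zero _)
    (fun a b ha hb => by rw [map_add, ha, hb, add_zero]) (fun σ hσ a => ?_) h
  have h0 : τ σ = 0 := hτ.off σ fun t e => by
    have := hσ ⟨t, rfl⟩
    exact Set.disjoint_left.1 hAB this.1 (e ▸ this.2)
  rw [coevC, Finsupp.linearCombination_single, h0, Complex.ofReal_zero, smul_zero]

theorem XPCls_loc {X : Type} [TopologicalSpace X] (o : Orientation4 X) (I : X ≃ₜ X)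
    (II : ∀ x, I (I x) = x) (Io : OriPres o I) (y : X) (c : Tot ℝ X) (r : ℝ)
    (h : LocDeg o (id ∘ I) y c r) : LocDeg o id y c r := by
  obtain ⟨U, hU, hy, -, hc, hd, hb⟩ := h
  refine ⟨U, hU, hy, injOn_id U, hc, hd, ?_⟩
  have h1 : psh ℝ I c - r • castZ ℝ X (inc ℤ 4 (o.o (I y))) ∈ XTriv ℝ {I y} := mem_XTriv.2 hb
  have hm : MapsTo I ({I y}ᶜ : Set X) ({y}ᶜ : Set X) := fun x hx e => hx (by
    rw [mem_singleton_iff] at e ⊢
    rw [← e, II])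
  have h2 := psh_mem_XTriv I.continuous hm h1
  have h3 := cast_mem_XTriv (Int.castRingHom ℝ) ((null_iff_XTriv _).1 (Io (I y)))
  rw [II, map_sub, map_sub, ← psh_inc, cast_psh] at h3
  rw [map_sub, map_smul, psh_psh' _ I.continuous,
    psh_of_eqOn_id (f := I ∘ I) (A := univ) (fun x _ => II x) (mem_CH_univ c)] at h2
  apply mem_XTriv.1
  have h4 := add_mem h2 (Submodule.smul_mem _ r h3)
  rw [smul_sub] at h4
  rw [psh_id]
  exact (sub_add_sub_cancel c _ _).subst (motive := fun z => z ∈ XTriv ℝ {y}) h4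

theorem XPCls_inv (B : Bas2) (κ : Kit) {X : Type} [TopologicalSpace X] [T2Space X]
    [ChartedSpace (E 4) X] (o : Orientation4 X) (I : X ≃ₜ X) (II : ∀ x, I (I x) = x)
    (Io : OriPres o I) {τ : TS (X × X) → ℝ} (hτ : IsThom o id τ) {u v : Tot ℂ X}
    (hu : u ∈ ZC ℂ univ 2) (hv : v ∈ ZC ℂ univ 2) :
    beta κ τ (psh ℂ I u) (psh ℂ I v) = beta κ τ u v := by
  letI : MulAction Unit X :=
    { smul := fun _ y => y, one_smul := fun _ => rfl, mul_smul := fun _ _ _ => rfl }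
  haveI : ContinuousConstSMul Unit X := ⟨fun _ => continuous_id⟩
  have := B.comp κ X X Unit X X o o id id I τ τ (Homeomorph.refl X).isLocalHomeomorph
    (Homeomorph.refl X).isLocalHomeomorph I.isLocalHomeomorph (fun _ _ => rfl)
    (XPCls_loc o I II Io) (fun _ _ _ => rfl)
    (fun y y' => ⟨fun e => ⟨(), (I.injective e).symm⟩, fun ⟨_, e⟩ => by rw [e]; rfl⟩)
    (fun _ _ _ _ => toFinite _) hτ hτ u hu v hv
  rw [← this, finsum_unique, show (default : Unit) = 1 from rfl, gs_one]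

theorem xcls_stmt (B : Bas2) : XClsStmt := by
  intro κ K ι Γ
  have hS := fun i => mem_ZC.1 (Γ.Sm i)
  have hI : ∀ i, psh ℤ Γ.I (Γ.S i) ∈ CH ℤ (Γ.Fᶜ ∩ Γ.h ⁻¹' Ioi 0) := fun i =>
    psh_mem_CH _ (fun x hx => mem_inter (fun e => hx.1 ((Γ.IF x).1 e)) (by
      have : Γ.h x < 0 := hx.2
      change 0 < Γ.h (Γ.I x)
      rw [Γ.hI]; linarith)) (hS i).1
  have hd : Disjoint (Γ.Fᶜ ∩ Γ.h ⁻¹' Iio 0) (Γ.Fᶜ ∩ Γ.h ⁻¹' Ioi 0) :=
    Set.disjoint_left.2 fun x h1 h2 => lt_asymm (show Γ.h x < 0 from h1.2) h2.2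
  refine ⟨?_, fun τ hτ => ?_⟩
  · rintro (i | i)
    · exact mem_ZC.2 ⟨CH_mono inter_subset_left (hS i).1, (hS i).2⟩
    · refine mem_ZC.2 ⟨CH_mono inter_subset_left (hI i), psh_mem_DG _ (hS i).2.1, ?_⟩
      change dT ℤ _ (psh ℤ Γ.I (Γ.S i)) = 0
      rw [dT_psh_cont Γ.I.continuous, (hS i).2.2, map_zero]
  · have hz : ∀ i, castZ ℂ Γ.X (Γ.S i) ∈ ZC ℂ (univ : Set Γ.X) 2 := fun i =>
      mem_ZC.2 ⟨mem_CH_univ _, cast_mem_DG _ (hS i).2.1, by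
        rw [← cast_dT, (hS i).2.2, map_zero]⟩
    rintro (i | i) (j | j)
    · simpa [XS] using Γ.num τ hτ i j
    · rw [if_neg (by simp)]
      exact XPCls_disj κ hτ hd (cast_mem_CH _ (hS i).1) (cast_mem_CH _ (hI j))
    · rw [if_neg (by simp)]
      exact XPCls_disj κ hτ hd.symm (cast_mem_CH _ (hI i)) (cast_mem_CH _ (hS j).1)
    · change beta κ τ (castZ ℂ Γ.X (psh ℤ Γ.I (Γ.S i))) (castZ ℂ Γ.X (psh ℤ Γ.I (Γ.S j))) = _
      rw [cast_psh, cast_psh, XPCls_inv B κ Γ.o Γ.I Γ.II Γ.Io hτ (hz i) (hz j), Γ.num τ hτ]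
      simp

end Pool.Agent.MP_bc14e1_gt
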