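import Pool.Agent.MP_bc14e1_gt.P.XPI

open Set Metric
open scoped Classical

namespace Pool.Agent.MP_bc14e1_gt

/-- The degree at a point is the degree at the nearby points. -/
theorem XPConn_loc {R : Type} [CommRing R] {X : Type} [TopologicalSpace X] [T2Space X]
    (o : Orientation4 X) {c : Tot R X} {x : X} {r : R} (h : c - r • XO R o x ∈ XTriv R {x}) :
    ∀ᶠ y in nhds x, c - r • XO R o y ∈ XTriv R {y} := by
  obtain ⟨U, hU, w, hw⟩ := exists_XCl_nhds (R := R) o x
  have h1 : c - r • w ∈ XTriv R {x} := by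
    have := sub_mem h (Submodule.smul_mem _ r (hw.2.2 x (mem_of_mem_nhds hU)))
    rwa [smul_sub, sub_sub_sub_cancel_right] at this
  obtain ⟨V, hV, hxV, h2⟩ := exists_open_XTriv h1
  filter_upwards [hU, hV.mem_nhds (hxV rfl)] with y hyU hyV
  have := add_mem (XTriv_anti (singleton_subset_iff.2 hyV) h2)
    (Submodule.smul_mem _ r (hw.2.2 y hyU))
  rwa [smul_sub, sub_add_sub_cancel] at this

theorem xconn_stmt : XConnStmt := by
  intro R _ X _ _ o hL
  refine ⟨fun A w hw => ?_, fun A w hA hI hw y hy hr => ?_⟩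
  · obtain ⟨U, hU, hAU, h⟩ := exists_open_XRel hw.2.1
    refine ⟨U ∩ interior {x | w - XO R o x ∈ XTriv R {x}}, hU.inter isOpen_interior,
      fun x hx => ⟨hAU hx, mem_interior_iff_mem_nhds.2 ?_⟩, hw.1,
      XRel_anti inter_subset_left h, fun x hx =>
        interior_subset (s := {x | w - XO R o x ∈ XTriv R {x}}) hx.2⟩
    have := XPConn_loc o (c := w) (x := x) (r := (1 : R)) (by rw [one_smul]; exact hw.2.2 x hx)
    simp only [one_smul] at this
    exact this
  · rcases A.eq_empty_or_nonempty with rfl | ⟨p, hp⟩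
    · exact ⟨0, mem_XTriv_empty _⟩
    have hx : ∀ x ∈ A, ∃! r : R, y - r • XO R o x ∈ XTriv R {x} := fun x hx =>
      hL.gen x y hy (XRel_anti (singleton_subset_iff.2 hx) hr)
    obtain ⟨r, hr0⟩ := (hx p hp).exists
    have key : ∀ x ∈ A, y - r • XO R o x ∈ XTriv R {x} := by
      intro x hxA
      refine hA.induction₂' (fun a b => y - r • XO R o a ∈ XTriv R {a} → y - r • XO R o b ∈
        XTriv R {b}) (fun a ha => ?_) (fun a b c _ _ _ h1 h2 h => h2 (h1 h)) hp hxA hr0
      obtain ⟨s, hs⟩ := (hx a ha).exists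
      filter_upwards [nhdsWithin_le_nhds (XPConn_loc o hs), self_mem_nhdsWithin] with b hb hbA
      refine ⟨fun h => ?_, fun h => ?_⟩
      · rwa [(hx a ha).unique h hs]
      · rwa [(hx b hbA).unique h hb]
    refine ⟨r, hI _ (sub_mem hy (Submodule.smul_mem _ _ hw.1))
      (sub_mem hr (Submodule.smul_mem _ _ hw.2.1)) fun x hx => ?_⟩
    have := sub_mem (key x hx) (Submodule.smul_mem _ r (hw.2.2 x hx))
    rwa [smul_sub, sub_sub_sub_cancel_right] at this

end Pool.Agent.MP_bc14e1_gt
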