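import Pool.Agent.MP_bc14e1_gt.P.XPI

open Set Metric
open scoped Classical

namespace Pool.Agent.MP_bc14e1_gt

theorem XPDisc_sphere (x : E 2) : x ∈ sphere (0 : E 2) 1 ↔ x 0 ^ 2 + x 1 ^ 2 = 1 := by
  rw [EuclideanSpace.sphere_zero_eq 1 zero_le_one, mem_ofPred_eq, Fin.sum_univ_two, one_pow]

theorem XPDisc_ext {x y : E 2} (h0 : x 0 = y 0) (h1 : x 1 = y 1) : x = y := by
  ext i
  fin_cases i
  · exact h0
  · exact h1

theorem XPDisc_cont (i : Fin 2) : Continuous fun x : E 2 => x i := by fun_prop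

/-- Sets that are mapped injectively to the line. -/
theorem XPDisc_line (hS : XSlabStmt) {R : Type} [CommRing R] {X : Type} [TopologicalSpace X]
    [T2Space X] {o : Orientation4 X} {δ : E 2 → X} (hL : XLoc R o)
    (hc : ContinuousOn δ (closedBall 0 1)) (hi : InjOn δ (closedBall 0 1)) {K : Set (E 2)}
    (hK : IsCompact K) (hs : K ⊆ closedBall 0 1) (i : Fin 2) (hl : InjOn (fun x : E 2 => x i) K) :
    XGd R o (δ '' K) := by
  refine hS R X (E 2) o K δ (fun x => x i) hL hK (hc.mono hs) (hi.mono hs) (XPDisc_cont i)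
    fun t => ?_
  have h : (δ '' (K ∩ (fun x : E 2 => x i) ⁻¹' {t})).Subsingleton :=
    Set.Subsingleton.image (fun x hx y hy => hl hx.1 hy.1 (hx.2.trans hy.2.symm)) δ
  exact ⟨hL.gd_of_subsingleton h, h.isPreconnected⟩

/-- The half circles. -/
def XPDisc_H (e : ℝ) : Set (E 2) := sphere 0 1 ∩ {x | 0 ≤ e * x 1}

theorem XPDisc_H_eq {e : ℝ} (he : e ^ 2 = 1) :
    XPDisc_H e = (fun t : ℝ => (!₂[t, e * √(1 - t ^ 2)] : E 2)) '' Icc (-1) 1 := by
  ext x
  rw [XPDisc_H, mem_inter_iff, XPDisc_sphere, mem_ofPred_eq]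
  constructor
  · rintro ⟨h1, h2⟩
    refine ⟨x 0, abs_le.1 ((sq_le_one_iff_abs_le_one _).1 (by nlinarith [sq_nonneg (x 1)])),
      XPDisc_ext rfl ?_⟩
    have h3 : 1 - x 0 ^ 2 = (e * x 1) ^ 2 := by
      rw [mul_pow, he]
      linarith
    change e * √(1 - x 0 ^ 2) = x 1
    rw [h3, Real.sqrt_sq h2, ← mul_assoc, ← sq, he, one_mul]
  · rintro ⟨t, ht, rfl⟩
    have h3 : 0 ≤ 1 - t ^ 2 := sub_nonneg.2 ((sq_le_one_iff_abs_le_one _).2 (abs_le.2 ht))
    change t ^ 2 + (e * √(1 - t ^ 2)) ^ 2 = 1 ∧ 0 ≤ e * (e * √(1 - t ^ 2))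
    rw [mul_pow, he, Real.sq_sqrt h3, ← mul_assoc, ← sq, he, one_mul, one_mul]
    exact ⟨by ring, Real.sqrt_nonneg _⟩

theorem XPDisc_H_sub (e : ℝ) : XPDisc_H e ⊆ closedBall 0 1 :=
  inter_subset_left.trans sphere_subset_closedBall

theorem XPDisc_arc (hS : XSlabStmt) {R : Type} [CommRing R] {X : Type} [TopologicalSpace X]
    [T2Space X] {o : Orientation4 X} {δ : E 2 → X} (hL : XLoc R o)
    (hc : ContinuousOn δ (closedBall 0 1)) (hi : InjOn δ (closedBall 0 1)) {e : ℝ}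
    (he : e ^ 2 = 1) : XGd R o (δ '' XPDisc_H e) ∧ IsPreconnected (δ '' XPDisc_H e) := by
  have hg : Continuous fun t : ℝ => (!₂[t, e * √(1 - t ^ 2)] : E 2) := by
    refine (PiLp.continuous_toLp 2 _).comp (continuous_pi fun i => ?_)
    fin_cases i
    · exact continuous_id
    · exact (by fun_prop : Continuous fun t : ℝ => e * √(1 - t ^ 2))
  refine ⟨XPDisc_line hS hL hc hi ?_ (XPDisc_H_sub e) 0 ?_,
    IsPreconnected.image ?_ δ (hc.mono (XPDisc_H_sub e))⟩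
  · rw [XPDisc_H_eq he]
    exact isCompact_Icc.image hg
  · rw [XPDisc_H_eq he]
    rintro _ ⟨t, -, rfl⟩ _ ⟨s, -, rfl⟩ h
    obtain rfl : t = s := h
    rfl
  · rw [XPDisc_H_eq he]
    exact isPreconnected_Icc.image _ hg.continuousOn

theorem XPDisc_inter : XPDisc_H 1 ∩ XPDisc_H (-1) = {!₂[1, 0], !₂[-1, 0]} := by
  ext x
  simp only [XPDisc_H, mem_inter_iff, XPDisc_sphere, mem_ofPred_eq, mem_insert_iff,
    mem_singleton_iff]
  constructor
  · rintro ⟨⟨h1, h2⟩, -, h3⟩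
    have h4 : x 1 = 0 := by linarith
    rw [h4, zero_pow two_ne_zero, add_zero, sq_eq_one_iff] at h1
    exact h1.imp (fun h => XPDisc_ext h h4) fun h => XPDisc_ext h h4
  · rintro (rfl | rfl) <;> simp

theorem XPDisc_union : XPDisc_H 1 ∪ XPDisc_H (-1) = sphere 0 1 := by
  rw [XPDisc_H, XPDisc_H, ← inter_union_distrib_left]
  refine inter_eq_left.2 fun x _ => ?_
  rcases le_total 0 (x 1) with h | h
  · exact Or.inl (show 0 ≤ 1 * x 1 by linarith)
  · exact Or.inr (show 0 ≤ -1 * x 1 by linarith)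

theorem xdisc_stmt (hS : XSlabStmt) : XDiscStmt := by
  intro R _ X _ _ o δ hL hc hi
  constructor
  · refine hS R X (E 2) o _ δ (fun x => x 0) hL (isCompact_closedBall 0 1) hc hi (XPDisc_cont 0)
      fun t => ⟨XPDisc_line hS hL hc hi ((isCompact_closedBall 0 1).inter_right
        (isClosed_singleton.preimage (XPDisc_cont 0))) inter_subset_left 1
        fun x hx y hy h => XPDisc_ext (hx.2.trans hy.2.symm) h, ?_⟩
    refine IsPreconnected.image (Convex.isPreconnected ((convex_closedBall 0 1).inter ?_)) δ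
      (hc.mono inter_subset_left)
    exact (convex_singleton t).linear_preimage (EuclideanSpace.proj (𝕜 := ℝ) (0 : Fin 2)).toLinearMap
  · obtain ⟨a1, a2⟩ := XPDisc_arc hS hL hc hi (e := 1) (by norm_num)
    obtain ⟨b1, b2⟩ := XPDisc_arc hS hL hc hi (e := -1) (by norm_num)
    have hp : ∀ x ∈ ({!₂[1, 0], !₂[-1, 0]} : Set (E 2)), x ∈ closedBall (0 : E 2) 1 :=
      fun x hx => XPDisc_H_sub 1 (XPDisc_inter.ge hx).1
    refine ⟨_, _, δ !₂[1, 0], δ !₂[-1, 0], a1, b1, a2, b2, fun h => ?_, ?_, ?_⟩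
    · have h1 := congrArg (fun x : E 2 => x 0)
        (hi (hp _ (Or.inl rfl)) (hp _ (Or.inr rfl)) h)
      have h2 : (1 : ℝ) = -1 := h1
      norm_num at h2
    · rw [← hi.image_inter (XPDisc_H_sub 1) (XPDisc_H_sub (-1)), XPDisc_inter, image_pair]
    · rw [← image_union, XPDisc_union]

end Pool.Agent.MP_bc14e1_gt
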