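import Pool.Agent.MP_bc14e1_gt.P.XPI

open Set Metric
open scoped Classical

namespace Pool.Agent.MP_bc14e1_gt

section Aux

variable {X Y : Type} [TopologicalSpace X] [TopologicalSpace Y]

/-- A cycle is homologous to a sum of cycles in the two open sets. -/
theorem XPGlob_mv {U V : Set X} (hU : IsOpen U) (hV : IsOpen V) (hc : univ ⊆ U ∪ V) {k : ℕ}
    (hN : ∀ b, dT ℤ X b ∈ CH ℤ (U ∩ V) → dT ℤ X b ∈ DG ℤ X k → dT ℤ X b ∈ BC ℤ (U ∩ V) k)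
    {z : Tot ℤ X} (hz : z ∈ ZC ℤ univ (k + 1)) :
    ∃ z₁ ∈ ZC ℤ U (k + 1), ∃ z₂ ∈ ZC ℤ V (k + 1), z - z₁ - z₂ ∈ BC ℤ univ (k + 1) := by
  obtain ⟨-, hd, h0⟩ := mem_ZC.1 hz
  obtain ⟨m, hm⟩ := sdT_small_two hU hV (CH_mono hc (mem_CH_univ z))
  obtain ⟨a, ha, b, hb, hab⟩ := Submodule.mem_sup.1 (hm m le_rfl)
  have e : deg ℤ X (k + 1) a + deg ℤ X (k + 1) b = (sdT ℤ X ^ m) z := by
    rw [← map_add, hab, deg_of_mem (sdT_pow_mem_DG m hd)]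
  have ha' := deg_mem_CH (k + 1) ha
  have hb' := deg_mem_CH (k + 1) hb
  have ha'' := deg_mem (k + 1) a
  have hb'' := deg_mem (k + 1) b
  generalize deg ℤ X (k + 1) a = a' at e ha' ha''
  generalize deg ℤ X (k + 1) b = b' at e hb' hb''
  have e' : dT ℤ X a' = -dT ℤ X b' := by
    rw [eq_neg_iff_add_eq_zero, ← map_add, e, dT_sdT_pow, h0, map_zero]
  obtain ⟨v, hv, hv', ev⟩ := mem_BC.1 (hN a' (by
    rw [CH_inter]
    exact ⟨dT_mem_CH ha', by rw [e']; exact neg_mem (dT_mem_CH hb')⟩) (dT_mem_DG ha''))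
  refine ⟨a' - v, mem_ZC.2 ⟨sub_mem ha' (CH_mono inter_subset_left hv), sub_mem ha'' hv', ?_⟩,
    b' + v, mem_ZC.2 ⟨add_mem hb' (CH_mono inter_subset_right hv), add_mem hb'' hv', ?_⟩,
    mem_BC.2 ⟨sdHP ℤ X m z, mem_CH_univ _, sdHP_mem_DG m hd, ?_⟩⟩
  · rw [map_sub, ev, sub_self]
  · rw [map_add, ev, e', add_neg_cancel]
  · have := dT_sdHP m z
    rw [h0, map_zero, add_zero, ← e] at this
    rw [this]
    abel

theorem XPGlob_ZC {f : X → Y} {A : Set X} {B : Set Y} (hf : ContinuousOn f A) (hm : MapsTo f A B)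
    {k : ℕ} {c : Tot ℤ X} (hc : c ∈ ZC ℤ A k) : psh ℤ f c ∈ ZC ℤ B k := by
  obtain ⟨h1, h2, h3⟩ := mem_ZC.1 hc
  exact mem_ZC.2 ⟨psh_mem_CH f hm h1, psh_mem_DG f h2, by rw [dT_psh hf h1, h3, map_zero]⟩

theorem XPGlob_BC {f : X → Y} {A : Set X} {B : Set Y} (hf : ContinuousOn f A) (hm : MapsTo f A B)
    {k : ℕ} {c : Tot ℤ X} (hc : c ∈ BC ℤ A k) : psh ℤ f c ∈ BC ℤ B k := by
  obtain ⟨b, h1, h2, rfl⟩ := mem_BC.1 hc
  exact mem_BC.2 ⟨psh ℤ f b, psh_mem_CH f hm h1, psh_mem_DG f h2, dT_psh hf h1⟩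

theorem XPGlob_mono {A : Set X} {k : ℕ} {c : Tot ℤ X} (hc : c ∈ BC ℤ A k) : c ∈ BC ℤ univ k := by
  obtain ⟨b, -, h2, rfl⟩ := mem_BC.1 hc
  exact mem_BC.2 ⟨b, mem_CH_univ b, h2, rfl⟩

end Aux

theorem xglob_stmt (h0 : XH0Stmt) (hS : XShellStmt) : XGlobStmt := by
  intro κ K ι Γ
  have hU : IsOpen (Γ.h ⁻¹' Iio 1) := isOpen_Iio.preimage Γ.hc
  have hV : IsOpen (Γ.h ⁻¹' Ioi (-1)) := isOpen_Ioi.preimage Γ.hc
  have hc : univ ⊆ Γ.h ⁻¹' Iio 1 ∪ Γ.h ⁻¹' Ioi (-1) := fun x _ =>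
    (lt_or_ge (Γ.h x) 1).imp id fun h => lt_of_lt_of_le (by norm_num) h
  have hN : Γ.h ⁻¹' Iio 1 ∩ Γ.h ⁻¹' Ioi (-1) = Γ.emb.target := by
    rw [Γ.tgt, ← preimage_inter, inter_comm, Ioi_inter_Iio]
  have hm : MapsTo Γ.I (Γ.h ⁻¹' Ioi (-1)) (Γ.h ⁻¹' Iio 1) := fun x hx => by
    rw [mem_preimage, Γ.hI]
    exact neg_lt.1 (show -1 < Γ.h x from hx)
  have hm' : MapsTo Γ.I (Γ.h ⁻¹' Iio 1) (Γ.h ⁻¹' Ioi (-1)) := fun x hx => by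
    rw [mem_preimage, Γ.hI]
    exact neg_lt_neg (show Γ.h x < 1 from hx)
  have hII : ∀ c : Tot ℤ Γ.X, psh ℤ Γ.I (psh ℤ Γ.I c) = c := fun c => by
    rw [psh_psh' _ Γ.I.continuous]
    exact psh_of_eqOn_id (fun x _ => Γ.II x) (mem_CH_univ c)
  have hIc : ∀ A, ContinuousOn Γ.I A := fun _ => Γ.I.continuous.continuousOn
  have hNc : IsPathConnected Γ.emb.target := by
    rw [← Γ.emb.image_source_eq_target]
    exact (Γ.src ▸ hS.1).image' Γ.emb.continuousOn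
  have hN1 : ZC ℤ Γ.emb.target 1 ≤ BC ℤ Γ.emb.target 1 := fun c hc => by
    have h1 := XPGlob_ZC Γ.emb.continuousOn_symm Γ.emb.mapsTo_symm hc
    rw [Γ.src] at h1
    have h2 := hS.2 h1
    rw [← Γ.src] at h2
    have h3 := XPGlob_BC Γ.emb.continuousOn Γ.emb.mapsTo h2
    rwa [psh_psh _ Γ.emb.continuousOn_symm hc.1.1,
      psh_of_eqOn_id (f := Γ.emb ∘ Γ.emb.symm) (fun x hx => Γ.emb.right_inv hx) hc.1.1] at h3
  refine ⟨?_, fun z hz => ?_, fun z hz => ?_⟩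
  · have hVc : IsPathConnected (Γ.h ⁻¹' Ioi (-1)) := by
      have : Γ.h ⁻¹' Ioi (-1) = Γ.I '' (Γ.h ⁻¹' Iio 1) :=
        Subset.antisymm (fun x hx => ⟨Γ.I x, hm hx, Γ.II x⟩) hm'.image_subset
      rw [this]
      exact Γ.conn.image Γ.I.continuous
    rw [← univ_subset_iff.1 hc]
    exact Γ.conn.union hVc (hN ▸ hNc.nonempty)
  · obtain ⟨z₁, h₁, z₂, h₂, h⟩ := XPGlob_mv hU hV hc (k := 0) (fun b hb hb' => by
      rw [hN] at hb ⊢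
      obtain ⟨x₀, -, ρ, hρ, hρ'⟩ := h0.2.2 ℤ Γ.X _ hNc
      have := hρ' _ ⟨hb, hb'⟩
      rw [h0.2.1, zero_smul, sub_zero] at this
      exact mem_BC.2 ⟨_, (hρ _).1, (hρ _).2, this⟩) hz
    have h3 := XPGlob_BC (hIc _) (mapsTo_univ _ _) (Γ.H1 (XPGlob_ZC (hIc _) hm h₂))
    rw [hII] at h3
    have := add_mem (add_mem h (XPGlob_mono (Γ.H1 h₁))) h3
    rwa [show z - z₁ - z₂ + z₁ + z₂ = z by abel] at this
  · obtain ⟨z₁, h₁, z₂, h₂, h⟩ := XPGlob_mv hU hV hc (k := 1) (fun b hb hb' => by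
      rw [hN] at hb ⊢
      exact hN1 (mem_ZC.2 ⟨hb, hb', dT_dT b⟩)) hz
    obtain ⟨n₁, e₁⟩ := Γ.H2 z₁ h₁
    obtain ⟨n₂, e₂⟩ := Γ.H2 _ (XPGlob_ZC (hIc _) hm h₂)
    have h3 := XPGlob_BC (hIc _) (mapsTo_univ _ _) e₂
    rw [map_sub, hII, map_sum] at h3
    refine ⟨Sum.elim n₁ n₂, ?_⟩
    have := add_mem (add_mem h (XPGlob_mono e₁)) h3
    convert this using 1
    simp only [Fintype.sum_sum_type, XS, Sum.elim_inl, Sum.elim_inr, map_smul]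
    abel

end Pool.Agent.MP_bc14e1_gt
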