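import Pool.Agent.MP_bc14e1_gt.P.XPI

open Set Metric
open scoped Classical

namespace Pool.Agent.MP_bc14e1_gt

/-- A function that is constant along the paths in `A` kills the boundaries in `A`. -/
theorem XPH0_val {R : Type} [CommRing R] {X : Type} [TopologicalSpace X] {A : Set X} (f : X → R)
    (hf : ∀ γ : C(unitInterval, X), (∀ t, γ t ∈ A) → f (γ 1) = f (γ 0)) {c : Tot R X}
    (hc : c ∈ CH R A) : val0 R f (dT R X c) = 0 := by
  refine LinearMap.mem_ker.1 ?_
  refine map_CH (T := LinearMap.ker (val0 R f)) (dT R X) (fun k σ hσ => ?_) hc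
  rw [LinearMap.mem_ker]
  rcases k with _ | _ | k
  · rw [dT_of_DG_zero (single_mem_DG ⟨0, σ⟩ 1), map_zero]
  · let γ : C(unitInterval, X) :=
      σ.comp (stdSimplexHomeomorphUnitInterval.symm : C(unitInterval, Sx 1))
    have e : (Finsupp.single ⟨1, σ⟩ 1 : Tot R X) = pth R γ := by
      rw [pth]
      congr 2
      ext t
      simp [γ]
    rw [e, dT_pth, map_sub, val0_pt, val0_pt, hf γ fun t => hσ _, sub_self]
  · exact val0_of_DG f (Nat.succ_ne_zero k) (dT_mem_DG (single_mem_DG ⟨k + 2, σ⟩ 1))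

theorem xh0_stmt : XH0Stmt := by
  refine ⟨fun X _ A x y hx c hc h => ?_, fun R _ X _ c => ?_, fun R _ X _ A hA => ?_⟩
  · have h1 := XPH0_val (A := A) (fun z => if JoinedIn A x z then (1 : ℤ) else 0) (fun γ hγ => by
      have : JoinedIn A (γ 0) (γ 1) := ⟨⟨γ, rfl, rfl⟩, hγ⟩
      exact if_congr ⟨fun h => h.trans this.symm, fun h => h.trans this⟩ rfl rfl) hc
    rw [h, map_sub, val0_pt, val0_pt, if_pos (JoinedIn.refl hx)] at h1
    by_contra hn
    rw [if_neg hn] at h1
    omega
  · exact XPH0_val _ (fun _ _ => rfl) (mem_CH_univ c)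
  · obtain ⟨x₀, hx₀, hj⟩ := hA
    let g : X → Tot R X := fun x =>
      if h : x ∈ A then pth R ((hj h).somePath : C(unitInterval, X)) else 0
    have hg : ∀ x, g x ∈ CC R A 1 := by
      intro x
      by_cases h : x ∈ A
      · simp only [g, dif_pos h]
        exact ⟨pth_mem_CH fun t => (hj h).somePath_mem t, pth_mem_DG _⟩
      · simp only [g, dif_neg h]
        exact zero_mem _
    refine ⟨x₀, hx₀, val0 R g, fun c => ?_, fun c hc => ?_⟩
    · rw [val0, Finsupp.linearCombination_apply]
      refine Submodule.sum_mem _ fun σ _ => Submodule.smul_mem _ _ ?_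
      split_ifs
      exacts [hg _, zero_mem _]
    · refine DG_zero_ind (P := fun c => dT R X (val0 R g c) = c - XAug R X c • pt R x₀) (by simp)
        (fun a b ha hb => ?_) (fun x hx a => ?_) hc.1 hc.2
      · rw [map_add, map_add, ha, hb, map_add, add_smul]; abel
      · rw [map_smul, map_smul, map_smul, val0_pt, XAug, val0_pt]
        simp only [g, dif_pos hx]
        rw [dT_pth, smul_sub]
        simp

end Pool.Agent.MP_bc14e1_gt
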