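import Pool.Agent.MP_bc14e1_gt.P.XPI

open Set Metric
open scoped Classical

namespace Pool.Agent.MP_bc14e1_gt

section
variable {R : Type} [CommRing R] {X : Type} [TopologicalSpace X] {A B : Set X}

/-- A chain off `A ∩ B` whose boundary splits is, up to a boundary, a sum. -/
theorem XPMV_split (hA : IsClosed A) (hB : IsClosed B) {v α β : Tot R X}
    (hv : v ∈ CH R (A ∩ B)ᶜ) (hα : α ∈ CH R Aᶜ) (hβ : β ∈ CH R Bᶜ) (h : dT R X v = α + β) :
    ∃ u, ∃ v₁ ∈ CH R Aᶜ, ∃ v₂ ∈ CH R Bᶜ, v = dT R X u + v₁ + v₂ := by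
  rw [compl_inter] at hv
  obtain ⟨m, hm⟩ := sdT_small_two hA.isOpen_compl hB.isOpen_compl hv
  obtain ⟨v₁, h1, v₂, h2, e⟩ := Submodule.mem_sup.1 (hm m le_rfl)
  refine ⟨sdHP R X m v, v₁ + sdHP R X m α, add_mem h1 (sdHP_mem_CH m hα),
    v₂ + sdHP R X m β, add_mem h2 (sdHP_mem_CH m hβ), ?_⟩
  have := dT_sdHP m v
  rw [h, map_add, ← e] at this
  linear_combination (norm := abel) -this

theorem XPMV_prj {α β : Tot R X} (hα : α ∈ CH R Aᶜ) (hβ : β ∈ CH R Bᶜ) :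
    prj R Aᶜ (α + β) - α ∈ CH R (A ∪ B)ᶜ := by
  rw [map_add, prj_of_mem hα, add_sub_cancel_left, compl_union, CH_inter]
  exact ⟨prj_mem _ _, prj_mem_CH _ hβ⟩

/-- Chains whose boundary splits. -/
noncomputable def XPMV_Sm (R : Type) [CommRing R] (A B : Set X) : Submodule R (Tot R X) :=
  (CH R Aᶜ ⊔ CH R Bᶜ).comap (dT R X)

/-- The connecting map. -/
noncomputable def XPMV_cn (R : Type) [CommRing R] (A : Set X) : Module.End R (Tot R X) :=
  prj R Aᶜ ∘ₗ dT R X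

theorem XPMV_ex (hA : IsClosed A) (hB : IsClosed B) {k : ℕ} {y : Tot R X} (hy : y ∈ DG R X k)
    (h : y ∈ XRel R (A ∩ B)) :
    ∃ y' ∈ DG R X k, y' ∈ XPMV_Sm R A B ∧ y - y' ∈ XTriv R (A ∩ B) := by
  have h' : dT R X y ∈ CH R (Aᶜ ∪ Bᶜ) := by rw [← compl_inter]; exact h
  obtain ⟨m, hm⟩ := sdT_small_two hA.isOpen_compl hB.isOpen_compl h'
  refine ⟨(sdT R X ^ m) y, sdT_pow_mem_DG m hy, ?_, sub_sdT_mem_XTriv m h⟩
  change dT R X _ ∈ CH R Aᶜ ⊔ CH R Bᶜ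
  rw [dT_sdT_pow]
  exact hm m le_rfl

theorem XPMV_cn_rel {y : Tot R X} (h : y ∈ XPMV_Sm R A B) : XPMV_cn R A y ∈ XRel R (A ∪ B) := by
  obtain ⟨α, hα, β, hβ, e⟩ := Submodule.mem_sup.1 h
  have h1 := XPMV_prj hα hβ
  have h2 : α ∈ XRel R (A ∪ B) := by
    refine mem_XRel_union.2 ⟨mem_XRel_of_CH hα, ?_⟩
    have : dT R X α = -dT R X β := by
      rw [eq_neg_iff_add_eq_zero, ← map_add, e, dT_dT]
    rw [mem_XRel, this]
    exact neg_mem (dT_mem_CH hβ)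
  have := add_mem (mem_XRel_of_CH h1) h2
  rwa [sub_add_cancel, e] at this

theorem XPMV_rel_le : XRel R A ⊔ XRel R B ≤ XPMV_Sm R A B :=
  sup_le (fun _ h => Submodule.mem_sup_left h) fun _ h => Submodule.mem_sup_right h

theorem XPMV_sm_le : XPMV_Sm R A B ≤ XRel R (A ∩ B) := fun _ h =>
  (sup_le (CH_mono (compl_subset_compl.2 inter_subset_left))
    (CH_mono (compl_subset_compl.2 inter_subset_right)) : CH R Aᶜ ⊔ CH R Bᶜ ≤ CH R (A ∩ B)ᶜ) h

theorem XPMV_cn_iff (hA : IsClosed A) (hB : IsClosed B) {y : Tot R X} (h : y ∈ XPMV_Sm R A B) :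
    XPMV_cn R A y ∈ XTriv R (A ∪ B) ↔ y ∈ XRel R A ⊔ XRel R B ⊔ XTriv R (A ∩ B) := by
  have key : ∀ z ∈ XRel R A ⊔ XRel R B, XPMV_cn R A z ∈ XTriv R (A ∪ B) := by
    intro z hz
    obtain ⟨a, ha, b, hb, rfl⟩ := Submodule.mem_sup.1 hz
    refine mem_XTriv.2 ⟨a, ?_⟩
    have := XPMV_prj (mem_XRel.1 ha) (mem_XRel.1 hb)
    rwa [← map_add] at this
  constructor
  · intro hc
    obtain ⟨u, hu⟩ := mem_XTriv.1 hc
    obtain ⟨α, hα, β, hβ, e⟩ := Submodule.mem_sup.1 h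
    have h1 := XPMV_prj hα hβ
    rw [e] at h1
    have h2 : α - dT R X u ∈ CH R (A ∪ B)ᶜ := by
      have := sub_mem hu h1
      rwa [show XPMV_cn R A y - dT R X u - (prj R Aᶜ (dT R X y) - α) = α - dT R X u by
        change prj R Aᶜ (dT R X y) - _ - _ = _
        abel] at this
    rw [compl_union, CH_inter] at h2
    refine Submodule.mem_sup_left (Submodule.mem_sup.2 ⟨u, ?_, y - u, ?_, add_sub_cancel _ _⟩)
    · have := sub_mem hα h2.1
      rwa [sub_sub_cancel] at this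
    · have := add_mem h2.2 hβ
      rw [mem_XRel, map_sub, ← e]
      rwa [show α + β - dT R X u = α - dT R X u + β by abel]
  · intro hy
    obtain ⟨z, hz, t, ht, rfl⟩ := Submodule.mem_sup.1 hy
    refine key _ (add_mem hz ?_)
    have h1 : t ∈ XPMV_Sm R A B := by
      have := sub_mem h (XPMV_rel_le hz)
      rwa [add_sub_cancel_left] at this
    obtain ⟨α, hα, β, hβ, e⟩ := Submodule.mem_sup.1 h1
    obtain ⟨u, hu⟩ := mem_XTriv.1 ht
    obtain ⟨u', v₁, h1, v₂, h2, e'⟩ := XPMV_split hA hB hu hα hβ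
      (by rw [map_sub, dT_dT, sub_zero, e])
    refine Submodule.mem_sup.2 ⟨dT R X (u + u') + v₁,
      add_mem (XTriv_le_XRel (dT_mem_XTriv _ _)) (mem_XRel_of_CH h1), v₂, mem_XRel_of_CH h2, ?_⟩
    rw [map_add]
    linear_combination (norm := abel) -e'

theorem XPMV_onto {k : ℕ} {c : Tot R X} (hc : c ∈ DG R X k) (h1 : c ∈ XTriv R A)
    (h2 : c ∈ XTriv R B) : ∃ y ∈ DG R X (k + 1), y ∈ XPMV_Sm R A B ∧
      c - XPMV_cn R A y ∈ XTriv R (A ∪ B) := by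
  obtain ⟨u, hu, ha⟩ := mem_XTriv_DG hc h1
  obtain ⟨u', hu', hb⟩ := mem_XTriv_DG hc h2
  have e : dT R X (u' - u) = (c - dT R X u) + -(c - dT R X u') := by rw [map_sub]; abel
  refine ⟨u' - u, sub_mem hu' hu, ?_, mem_XTriv.2 ⟨u, ?_⟩⟩
  · change dT R X _ ∈ CH R Aᶜ ⊔ CH R Bᶜ
    rw [e]
    exact Submodule.add_mem_sup ha (neg_mem hb)
  · have := neg_mem (XPMV_prj ha (neg_mem hb))
    rw [← e] at this
    rwa [show c - XPMV_cn R A (u' - u) - dT R X u =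
      -(prj R Aᶜ (dT R X (u' - u)) - (c - dT R X u)) by
        change c - prj R Aᶜ (dT R X (u' - u)) - _ = _
        abel]

end

theorem xmv_stmt : XMVStmt := by
  intro R _ X _ A B hA hB k
  refine ⟨fun a ha b hb hra hrb hab => ?_, fun H c hc _ h1 h2 => ?_, fun vA vB g hg hgr H => ?_⟩
  · obtain ⟨u, hu⟩ := mem_XTriv.1 hab
    obtain ⟨u', v₁, h1, v₂, h2, e⟩ := XPMV_split hA hB hu (mem_XRel.1 hra)
      (neg_mem (mem_XRel.1 hrb)) (by rw [map_sub, dT_dT, sub_zero, map_sub, sub_eq_add_neg])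
    have t1 : a - v₁ - a ∈ XTriv R A := by
      rw [sub_sub_cancel_left]; exact neg_mem (mem_XTriv_of_CH h1)
    have t2 : a - v₁ - b ∈ XTriv R B := by
      refine mem_XTriv.2 ⟨u + u', ?_⟩
      rwa [show a - v₁ - b - dT R X (u + u') = v₂ by
        rw [map_add]; linear_combination (norm := abel) e]
    refine ⟨deg R X k (a - v₁), deg_mem _ _, deg_mem_XRel k (mem_XRel_union.2 ⟨?_, ?_⟩), ?_, ?_⟩
    · exact sub_mem hra (mem_XRel_of_CH h1)
    · have := add_mem (XTriv_le_XRel t2) hrb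
      rwa [sub_add_cancel] at this
    · have := deg_mem_XTriv k t1
      rwa [map_sub, deg_of_mem ha] at this
    · have := deg_mem_XTriv k t2
      rwa [map_sub, deg_of_mem hb] at this
  · obtain ⟨y, hy, hs, h⟩ := XPMV_onto hc h1 h2
    have := add_mem h ((XPMV_cn_iff hA hB hs).2 (H y hy (XPMV_sm_le hs)))
    rwa [sub_add_cancel] at this
  · obtain ⟨g', hg', hs', ht'⟩ := XPMV_ex hA hB hg hgr
    refine ⟨XPMV_cn R A g', prj_mem_DG _ (dT_mem_DG hg'), XPMV_cn_rel hs', fun c hc hr => ?_⟩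
    obtain ⟨y, hy, hs, h⟩ := XPMV_onto hc (vA c hc (mem_XRel_union.1 hr).1)
      (vB c hc (mem_XRel_union.1 hr).2)
    refine (existsUnique_congr fun r => ?_).1 (H y hy (XPMV_sm_le hs))
    have e1 : y - r • g = (y - r • g') + -(r • (g - g')) := by rw [smul_sub]; abel
    have e2 : c - r • XPMV_cn R A g' = XPMV_cn R A (y - r • g') + (c - XPMV_cn R A y) := by
      rw [map_sub, map_smul]; abel
    rw [e1, e2, Submodule.add_mem_iff_left _ h,
      Submodule.add_mem_iff_left _ (neg_mem (Submodule.mem_sup_right (Submodule.smul_mem _ _ ht'))),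
      XPMV_cn_iff hA hB (sub_mem hs (Submodule.smul_mem _ _ hs'))]

end Pool.Agent.MP_bc14e1_gt
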