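import Pool.Agent.MP_bc14e1_gt.P.XPI

open Set Metric
open scoped Classical

namespace Pool.Agent.MP_bc14e1_gt

theorem XPMod2_range {R S X : Type} [CommRing R] [CommRing S] [TopologicalSpace X] (f : R → S)
    (hf : f 0 = 0) {k : ℕ} {c : Tot R X} (h : c ∈ DG R X k) :
    Finsupp.mapRange f hf c ∈ DG S X k :=
  mem_DG.2 fun σ hσ => mem_DG.1 h σ (Finsupp.support_mapRange hσ)

theorem xmod2_stmt : XMod2Stmt := by
  intro X ι _ _ x h1 h2 z hz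
  obtain ⟨z2, d2, e2⟩ : ∃ z2 ∈ DG ℤ X 2, castZ (ZMod 2) X z2 = z :=
    ⟨Finsupp.mapRange (fun a => (a.val : ℤ)) (by simp) z, XPMod2_range _ _ hz.1.2, by
      ext σ
      simp [cast_apply]⟩
  have e3 : castZ (ZMod 2) X (dT ℤ X z2) = 0 := by
    rw [cast_dT, e2]
    exact hz.2
  obtain ⟨y, d1, e4⟩ : ∃ y ∈ DG ℤ X 1, (2 : ℤ) • y = dT ℤ X z2 :=
    ⟨Finsupp.mapRange (fun a => a / 2) (by simp) (dT ℤ X z2), XPMod2_range _ _ (dT_mem_DG d2), by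
      ext σ
      exact Int.mul_ediv_cancel' ((ZMod.intCast_zmod_eq_zero_iff_dvd _ 2).1
        (DFunLike.congr_fun e3 σ))⟩
  have e5 : dT ℤ X y = 0 := by
    have := dT_dT z2
    rw [← e4, map_smul] at this
    exact (smul_eq_zero.1 this).resolve_left two_ne_zero
  obtain ⟨w, hw, e6⟩ := h1 ⟨⟨mem_CH_univ y, d1⟩, e5⟩
  obtain ⟨n, b, hb, e7⟩ := h2 (z2 - (2 : ℤ) • w)
    ⟨⟨mem_CH_univ _, sub_mem d2 (Submodule.smul_mem _ _ hw.2)⟩, by
      rw [SetLike.mem_coe, LinearMap.mem_ker, map_sub, map_smul, e6, e4, sub_self]⟩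
  refine ⟨fun i => (n i : ZMod 2), castZ (ZMod 2) X b,
    ⟨mem_CH_univ _, cast_mem_DG _ hb.2⟩, ?_⟩
  have e8 : Int.castRingHom (ZMod 2) 2 = 0 := rfl
  rw [← cast_dT, e7, map_sub, map_sub, e2, map_smulₛₗ, e8, zero_smul, sub_zero, map_sum]
  simp only [map_smulₛₗ, eq_intCast]

end Pool.Agent.MP_bc14e1_gt
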