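import Pool.Agent.MP_bc14e1_gt.P.XPI

open Set Metric
open scoped Classical

namespace Pool.Agent.MP_bc14e1_gt

theorem XPPt_chart {X : Type} [TopologicalSpace X] [ChartedSpace (E 4) X] (x : X) :
    ∃ e : OpenPartialHomeomorph X (E 4), x ∈ e.source ∧ e.target = univ ∧ e x = 0 := by
  obtain ⟨r, hr, hb⟩ := Metric.isOpen_iff.1 (chartAt (E 4) x).open_target _ (mem_chart_target _ x)
  refine ⟨(chartAt (E 4) x).trans (OpenPartialHomeomorph.univBall (chartAt (E 4) x x) r).symm,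
    ?_, ?_, ?_⟩
  · rw [OpenPartialHomeomorph.trans_source, OpenPartialHomeomorph.symm_source,
      OpenPartialHomeomorph.univBall_target _ hr]
    exact ⟨mem_chart_source _ x, mem_ball_self hr⟩
  · rw [OpenPartialHomeomorph.trans_target, OpenPartialHomeomorph.symm_target,
      OpenPartialHomeomorph.univBall_source, univ_inter, eq_univ_iff_forall]
    intro y
    refine hb ?_
    rw [← OpenPartialHomeomorph.univBall_target (E := E 4) _ hr]
    exact (OpenPartialHomeomorph.univBall (chartAt (E 4) x x) r).map_source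
      (by rw [OpenPartialHomeomorph.univBall_source]; trivial)
  · rw [OpenPartialHomeomorph.trans_apply]
    exact OpenPartialHomeomorph.univBall_symm_apply_center _ _

section

variable {R : Type} [CommRing R] {X : Type} [TopologicalSpace X] [T2Space X]
  {e : OpenPartialHomeomorph X (E 4)} {x : X}

omit [T2Space X] in
theorem XPPt_cont (ht : e.target = univ) : Continuous e.symm := by
  rw [← continuousOn_univ, ← ht]; exact e.continuousOn_symm

omit [T2Space X] in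
theorem XPPt_maps (hx : x ∈ e.source) (h0 : e x = 0) :
    MapsTo e (e.source ∩ {x}ᶜ) ({0}ᶜ : Set (E 4)) := fun y hy h =>
  hy.2 (e.injOn hy.1 hx (h.trans h0.symm))

omit [T2Space X] in
theorem XPPt_maps' (ht : e.target = univ) (h0 : e x = 0) :
    MapsTo e.symm ({0}ᶜ : Set (E 4)) {x}ᶜ := fun y hy h => by
  apply hy
  have := e.right_inv (x := y) (by rw [ht]; trivial)
  rw [show e.symm y = x from h, h0] at this
  exact this.symm

omit [T2Space X] in
theorem XPPt_pow {Y : Type} [TopologicalSpace Y] {g : Y → X} (hg : Continuous g) (m : ℕ)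
    (c : Tot R Y) : (sdT R X ^ m) (psh R g c) = psh R g ((sdT R Y ^ m) c) := by
  induction m with
  | zero => rfl
  | succ m ih =>
    rw [pow_succ', pow_succ', Module.End.mul_apply, Module.End.mul_apply, ih,
      sdT_psh hg.continuousOn (mem_CH_univ _)]

theorem XPPt_small (hx : x ∈ e.source) (c : Tot R X) :
    ∃ m : ℕ, ∃ c₁ ∈ CH R e.source, ∃ c₂ ∈ CH R ({x}ᶜ : Set X), c₁ + c₂ = (sdT R X ^ m) c := by
  have hu : e.source ∪ {x}ᶜ = univ := eq_univ_iff_forall.2 fun y => by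
    by_cases h : y = x
    · exact Or.inl (h ▸ hx)
    · exact Or.inr h
  obtain ⟨m, hm⟩ := sdT_small_two (R := R) e.open_source isOpen_compl_singleton (c := c)
    (hu ▸ mem_CH_univ c)
  exact ⟨m, Submodule.mem_sup.1 (hm m le_rfl)⟩

theorem XPPt_surj (hx : x ∈ e.source) (h0 : e x = 0) {k : ℕ} {c : Tot R X} (hc : c ∈ DG R X k)
    (hr : c ∈ XRel R {x}) : ∃ c' ∈ DG R (E 4) k, c' ∈ XRel R ({0} : Set (E 4)) ∧
      c - psh R e.symm c' ∈ XTriv R {x} := by
  obtain ⟨m, c₁, h1, c₂, h2, h3⟩ := XPPt_small hx c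
  have h4 : deg R X k c₁ + deg R X k c₂ = (sdT R X ^ m) c := by
    rw [← map_add, h3, deg_of_mem (sdT_pow_mem_DG m hc)]
  have h5 := deg_mem_CH k h1
  have h6 := deg_mem_CH k h2
  have h7 : dT R X (deg R X k c₁) ∈ CH R (e.source ∩ {x}ᶜ) := by
    rw [CH_inter]
    refine ⟨dT_mem_CH h5, ?_⟩
    rw [eq_sub_of_add_eq h4, map_sub, dT_sdT_pow]
    exact sub_mem (sdT_pow_mem_CH m hr) (dT_mem_CH h6)
  refine ⟨psh R e (deg R X k c₁), psh_mem_DG _ (deg_mem _ _), ?_, ?_⟩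
  · rw [mem_XRel, dT_psh e.continuousOn h5]
    exact psh_mem_CH _ (XPPt_maps hx h0) h7
  · rw [psh_psh _ e.continuousOn h5, psh_of_eqOn_id (f := e.symm ∘ e) (fun y hy => e.left_inv hy) h5,
      eq_sub_of_add_eq h4, ← sub_add]
    exact add_mem (sub_sdT_mem_XTriv m hr) (mem_XTriv_of_CH h6)

theorem XPPt_inj (hx : x ∈ e.source) (ht : e.target = univ) (h0 : e x = 0) {c : Tot R (E 4)}
    (hr : c ∈ XRel R ({0} : Set (E 4))) (h : psh R e.symm c ∈ XTriv R {x}) :
    c ∈ XTriv R ({0} : Set (E 4)) := by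
  obtain ⟨b, hb⟩ := mem_XTriv.1 h
  obtain ⟨m, b₁, h1, b₂, h2, h3⟩ := XPPt_small hx b
  have h4 : psh R e.symm ((sdT R _ ^ m) c) ∈ CH R e.source :=
    psh_mem_CH _ (fun y _ => e.map_target (by rw [ht]; trivial)) (mem_CH_univ _)
  have h5 : psh R e.symm ((sdT R _ ^ m) c) - dT R X b₁ ∈ CH R (e.source ∩ {x}ᶜ) := by
    rw [CH_inter]
    refine ⟨sub_mem h4 (dT_mem_CH h1), ?_⟩
    rw [eq_sub_of_add_eq h3, map_sub, dT_sdT_pow, ← XPPt_pow (XPPt_cont ht), ← sub_add, ← map_sub]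
    exact add_mem (sdT_pow_mem_CH m hb) (dT_mem_CH h2)
  have h6 := psh_mem_CH _ (XPPt_maps hx h0) h5
  rw [map_sub, psh_psh' _ (XPPt_cont ht),
    psh_of_eqOn_id (f := e ∘ e.symm) (fun y _ => e.right_inv (by rw [ht]; trivial))
      (mem_CH_univ _),
    ← dT_psh e.continuousOn h1] at h6
  have h7 := add_mem (sub_sdT_mem_XTriv m hr) (mem_XTriv.2 ⟨_, h6⟩)
  rwa [sub_add_cancel] at h7

end

theorem XPPt_castZ {X : Type} [TopologicalSpace X] (c : Tot ℤ X) : castZ ℤ X c = c := by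
  ext σ; rw [cast_apply]; rfl

theorem xpt_stmt (B : Bas2) : XPtStmt := by
  intro R _ X _ _ _ o
  obtain ⟨oE, d1, r1, hE⟩ := B.locHom 4
  refine ⟨fun x k hk c hc hr => ?_, fun x => ?_⟩
  · obtain ⟨e, hx, ht, h0⟩ := XPPt_chart x
    obtain ⟨c', h1, h2, h3⟩ := XPPt_surj hx h0 hc hr
    have h4 := add_mem h3 (psh_mem_XTriv (XPPt_cont ht) (XPPt_maps' ht h0)
      (mem_XTriv.2 ((hE R k c' h1 h2).1 hk)))
    rwa [sub_add_cancel] at h4
  obtain ⟨e, hx, ht, h0⟩ := XPPt_chart x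
  have gen : ∀ (S : Type) [CommRing S], ∀ c ∈ DG S X 4, c ∈ XRel S {x} →
      ∃! r : S, c - r • castZ S X (psh ℤ e.symm oE) ∈ XTriv S {x} := by
    intro S _ c hc hr
    obtain ⟨c', h1, h2, h3⟩ := XPPt_surj hx h0 hc hr
    obtain ⟨r, h4, h5⟩ := (hE S 4 c' h1 h2).2 rfl
    rw [cast_psh]
    refine ⟨r, ?_, fun r' h6 => h5 r' (mem_XTriv.1 ?_)⟩
    · have h6 := add_mem h3 (psh_mem_XTriv (XPPt_cont ht) (XPPt_maps' ht h0) (mem_XTriv.2 h4))
      rwa [map_sub, map_smul, sub_add_sub_cancel] at h6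
    · refine XPPt_inj hx ht h0 (sub_mem h2 (Submodule.smul_mem _ _ (cast_mem_XRel _ r1))) ?_
      have h7 := sub_mem h6 h3
      rwa [sub_sub_sub_cancel_left, ← map_smul, ← map_sub] at h7
  have d2 : psh ℤ e.symm oE ∈ DG ℤ X 4 := psh_mem_DG _ d1
  have r2 : psh ℤ e.symm oE ∈ XRel ℤ {x} := psh_mem_XRel (XPPt_cont ht) (XPPt_maps' ht h0) r1
  obtain ⟨n, hn, -⟩ := gen ℤ (inc ℤ 4 (o.o x)) (inc_mem_DG _ _) ((inc_mem_XRel _).2 (o.rel x))
  obtain ⟨z, hz⟩ := exists_inc d2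
  obtain ⟨m, hm, -⟩ := o.gen x z ((inc_mem_XRel _).1 (hz ▸ r2))
  rw [null_iff_XTriv, map_sub, map_zsmul, hz] at hm
  rw [XPPt_castZ] at hn
  have hmn : m * n = 1 := by
    refine (gen ℤ _ d2 r2).unique ?_ ?_
    · rw [XPPt_castZ]
      have := add_mem hm (Submodule.smul_mem _ m hn)
      rwa [smul_sub, sub_add_sub_cancel, smul_smul] at this
    · rw [XPPt_castZ, one_smul, sub_self]; exact zero_mem _
  have hn' : XO R o x - (n : R) • castZ R X (psh ℤ e.symm oE) ∈ XTriv R {x} := by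
    have := cast_mem_XTriv (Int.castRingHom R) hn
    rwa [map_sub, map_zsmul, ← Int.cast_smul_eq_zsmul R] at this
  have hmn' : (m : R) * (n : R) = 1 := by rw [← Int.cast_mul, hmn, Int.cast_one]
  intro c hc hr
  obtain ⟨r, h1, h2⟩ := gen R c hc hr
  refine ⟨r * m, ?_, fun r' h3 => ?_⟩
  · have := sub_mem h1 (Submodule.smul_mem _ (r * m) hn')
    rw [smul_sub, smul_smul, mul_assoc, hmn', mul_one] at this
    simpa only [sub_sub_sub_cancel_right] using this
  · have := add_mem h3 (Submodule.smul_mem _ r' hn')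
    rw [smul_sub, sub_add_sub_cancel, smul_smul] at this
    rw [← h2 _ this, mul_assoc, mul_comm (n : R), hmn', mul_one]

end Pool.Agent.MP_bc14e1_gt
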