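import Pool.Agent.MP_bc14e1_gt.P.XPI

open Set Metric
open scoped Classical

namespace Pool.Agent.MP_bc14e1_gt

/-- The radial deformation onto the middle sphere. -/
noncomputable def XPShell_H (q : ℝ × E 4) : E 4 := (1 - q.1 + q.1 * (3 / 4 / ‖q.2‖)) • q.2

theorem XPShell_cont : ContinuousOn XPShell_H {q | q.2 ≠ 0} := by
  have h : ContinuousOn (fun q : ℝ × E 4 => 3 / 4 / ‖q.2‖) {q | q.2 ≠ 0} :=
    continuousOn_const.div (by fun_prop) fun q hq => norm_ne_zero_iff.2 hq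
  unfold XPShell_H
  fun_prop

theorem XPShell_norm {t : ℝ} (ht : t ∈ Icc (0 : ℝ) 1) {x : E 4} (hx : x ≠ 0) :
    ‖XPShell_H (t, x)‖ = (1 - t) * ‖x‖ + t * (3 / 4) := by
  have h := norm_pos_iff.2 hx
  have h1 : 0 ≤ 1 - t := sub_nonneg.2 ht.2
  have h0 := ht.1
  rw [XPShell_H, norm_smul, Real.norm_of_nonneg (by positivity), add_mul, mul_assoc,
    div_mul_cancel₀ _ h.ne']

theorem XPShell_ne {x : E 4} (hx : x ∈ shell) : x ≠ 0 :=
  norm_pos_iff.1 (lt_trans one_half_pos hx.1)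

theorem XPShell_conn : IsPathConnected shell := by
  have h1 : IsPathConnected (Ioo (1 / 2 : ℝ) 1) :=
    (convex_Ioo _ _).isPathConnected (nonempty_Ioo.2 (by norm_num))
  have h2 : IsPathConnected (sphere (0 : E 4) 1) :=
    isPathConnected_sphere (by
      rw [← Module.finrank_eq_rank, finrank_euclideanSpace_fin]
      norm_num) 0 zero_le_one
  have h3 := (h1.prod h2).image (f := fun q : ℝ × E 4 => q.1 • q.2) (by fun_prop)
  convert h3 using 1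
  ext x
  constructor
  · intro hx
    have h := norm_ne_zero_iff.2 (XPShell_ne hx)
    exact ⟨(‖x‖, ‖x‖⁻¹ • x), ⟨hx, by
      rw [mem_sphere_zero_iff_norm, norm_smul, norm_inv, norm_norm, inv_mul_cancel₀ h]⟩,
      smul_inv_smul₀ h x⟩
  · rintro ⟨⟨t, y⟩, ⟨ht, hy⟩, rfl⟩
    have e : ‖t • y‖ = t := by
      rw [norm_smul, mem_sphere_zero_iff_norm.1 hy, mul_one,
        Real.norm_of_nonneg (one_half_pos.trans ht.1).le]
    exact ⟨ht.1.trans_eq e.symm, e.trans_lt ht.2⟩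

theorem xshell_stmt (B : Bas2) : XShellStmt := by
  refine ⟨XPShell_conn, fun c hc => ?_⟩
  obtain ⟨κ⟩ := B.kit
  obtain ⟨hc1, hc2, hc3⟩ := mem_ZC.1 hc
  obtain ⟨b, hb, hbc⟩ := (B.ctr ℤ (E 4) univ 0 ⟨trivial, fun q => (1 - q.1) • q.2, by fun_prop,
    fun _ _ => trivial, fun y _ => by simp, fun y _ => by simp⟩).1 1 one_ne_zero
    ⟨⟨mem_CH_univ c, hc2⟩, hc3⟩
  obtain ⟨o, -, -, ho⟩ := B.locHom 4
  obtain ⟨b2, hb2⟩ := (ho ℤ 2 b hb.2 (by
    rw [hbc]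
    exact CH_mono (fun x hx => XPShell_ne hx) hc1)).1 (by norm_num)
  have e1 : dT ℤ _ (b - dT ℤ _ b2) = c := by rw [map_sub, dT_dT, sub_zero, hbc]
  have hr : ContinuousOn (fun x => XPShell_H (1, x)) ({0}ᶜ : Set (E 4)) :=
    XPShell_cont.comp (f := fun x => ((1 : ℝ), x)) (by fun_prop) fun x hx => hx
  have e2 := dT_hop κ (R := ℤ) (A := shell)
    (XPShell_cont.mono fun q hq => XPShell_ne hq.2) hc1
  rw [hc3, map_zero, add_zero, psh_of_eqOn_id (f := fun x => XPShell_H (0, x))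
    (fun x _ => by simp [XPShell_H]) hc1] at e2
  refine mem_BC_of_dT hc2 (b := psh ℤ (fun x => XPShell_H (1, x)) (b - dT ℤ _ b2) -
    hop κ ℤ XPShell_H c) (sub_mem (psh_mem_CH _ (fun x hx => ?_) hb2)
    (hop_mem_CH κ _ (fun q hq => ?_) hc1)) ?_
  · change 1 / 2 < ‖_‖ ∧ ‖_‖ < 1
    rw [XPShell_norm ⟨zero_le_one, le_rfl⟩ hx]
    norm_num
  · change 1 / 2 < ‖XPShell_H (q.1, q.2)‖ ∧ ‖XPShell_H (q.1, q.2)‖ < 1
    rw [XPShell_norm hq.1 (XPShell_ne hq.2)]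
    obtain ⟨⟨h0, h1⟩, h2, h3⟩ := hq
    rcases h1.eq_or_lt with h | h
    · rw [h]
      norm_num
    · constructor <;> nlinarith
  · rw [map_sub, dT_psh hr hb2, e1, e2, sub_sub_cancel]

end Pool.Agent.MP_bc14e1_gt
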