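import Pool.Agent.MP_bc14e1_gt.P.XPI

open Set Metric
open scoped Classical

namespace Pool.Agent.MP_bc14e1_gt

section

variable {X P : Type} [TopologicalSpace X] [TopologicalSpace P] {K : Set P} {f : P → X}
  {l : P → ℝ}

theorem XPSlab_cpt (hK : IsCompact K) (hf : ContinuousOn f K) (hl : Continuous l) (a b : ℝ) :
    IsCompact (f '' (K ∩ l ⁻¹' Icc a b)) :=
  (hK.inter_right (isClosed_Icc.preimage hl)).image_of_continuousOn (hf.mono inter_subset_left)

omit [TopologicalSpace X] [TopologicalSpace P] in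
theorem XPSlab_union {a b c : ℝ} (hab : a ≤ b) (hbc : b ≤ c) :
    f '' (K ∩ l ⁻¹' Icc a b) ∪ f '' (K ∩ l ⁻¹' Icc b c) = f '' (K ∩ l ⁻¹' Icc a c) := by
  rw [← image_union, ← inter_union_distrib_left, ← preimage_union, Icc_union_Icc_eq_Icc hab hbc]

omit [TopologicalSpace X] [TopologicalSpace P] in
theorem XPSlab_inter (hi : InjOn f K) {a b c : ℝ} (hab : a ≤ b) (hbc : b ≤ c) :
    f '' (K ∩ l ⁻¹' Icc a b) ∩ f '' (K ∩ l ⁻¹' Icc b c) = f '' (K ∩ l ⁻¹' {b}) := by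
  rw [← hi.image_inter inter_subset_left inter_subset_left, ← inter_inter_distrib_left,
    ← preimage_inter, Icc_inter_Icc_eq_singleton hab hbc]

theorem XPSlab_ind (hK : IsCompact K) (hf : ContinuousOn f K) (hl : Continuous l)
    (Q : Set X → Prop) (hanti : ∀ A B, A ⊆ B → Q B → Q A)
    (hloc : ∀ t, ∃ U, IsOpen U ∧ f '' (K ∩ l ⁻¹' {t}) ⊆ U ∧ Q U)
    (hglue : ∀ a b c, a ≤ b → b ≤ c → Q (f '' (K ∩ l ⁻¹' Icc a b)) →
      Q (f '' (K ∩ l ⁻¹' Icc b c)) → Q (f '' (K ∩ l ⁻¹' Icc a c))) : Q (f '' K) := by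
  have key : ∀ x y : ℝ, x ≤ y → Q (f '' (K ∩ l ⁻¹' Icc x y)) := by
    intro x y
    refine isPreconnected_univ.induction₂'
      (fun x y : ℝ => x ≤ y → Q (f '' (K ∩ l ⁻¹' Icc x y))) (fun t _ => ?_) ?_
      (mem_univ x) (mem_univ y)
    · obtain ⟨U, hU, hLU, hQ⟩ := hloc t
      obtain ⟨u, hu, hue⟩ := continuousOn_iff_isClosed.1 hf Uᶜ hU.isClosed_compl
      have hC : IsClosed (l '' (K ∩ u)) := ((hK.inter_right hu).image hl).isClosed
      have ht : t ∈ (l '' (K ∩ u))ᶜ := by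
        rintro ⟨p, hp, hpt⟩
        have : p ∈ f ⁻¹' Uᶜ ∩ K := hue ▸ ⟨hp.2, hp.1⟩
        exact this.1 (hLU ⟨p, ⟨hp.1, hpt⟩, rfl⟩)
      obtain ⟨α, β, hαβ, hsub⟩ :=
        mem_nhds_iff_exists_Ioo_subset.1 (hC.isOpen_compl.mem_nhds ht)
      have hin : ∀ a ∈ Ioo α β, ∀ b ∈ Ioo α β, Q (f '' (K ∩ l ⁻¹' Icc a b)) := by
        intro a ha b hb
        refine hanti _ _ ?_ hQ
        rintro _ ⟨p, hp, rfl⟩
        by_contra hn
        have : p ∈ u ∩ K := hue ▸ ⟨hn, hp.1⟩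
        exact hsub ⟨ha.1.trans_le hp.2.1, hp.2.2.trans_lt hb.2⟩ ⟨p, ⟨hp.1, this.1⟩, rfl⟩
      rw [nhdsWithin_univ]
      filter_upwards [isOpen_Ioo.mem_nhds hαβ] with s hs
      exact ⟨fun _ => hin _ hαβ _ hs, fun _ => hin _ hs _ hαβ⟩
    · intro a b c _ _ _ h1 h2 hac
      rcases le_total a b with hab | hab
      · rcases le_total b c with hbc | hbc
        · exact hglue a b c hab hbc (h1 hab) (h2 hbc)
        · exact hanti _ _ (image_mono (inter_subset_inter_right _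
            (preimage_mono (Icc_subset_Icc_right hbc)))) (h1 hab)
      · exact hanti _ _ (image_mono (inter_subset_inter_right _
          (preimage_mono (Icc_subset_Icc_left hab)))) (h2 (hab.trans hac))
  obtain ⟨M, hM⟩ := hK.exists_bound_of_continuousOn hl.continuousOn
  refine hanti _ _ (image_mono fun p hp => ?_) (key (-|M|) |M| (neg_le_self (abs_nonneg M)))
  exact ⟨hp, abs_le.1 ((hM p hp).trans (le_abs_self M))⟩

end

theorem xslab_stmt (hMV : XMVStmt) (hC : XConnStmt) : XSlabStmt := by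
  intro R _ X P _ _ _ o K f l hloc hK hf hi hl hlev
  have hcl := fun a b => (XPSlab_cpt hK hf hl a b).isClosed
  have hsub : ∀ J : Set ℝ, f '' (K ∩ l ⁻¹' J) ⊆ f '' K := fun J => image_mono inter_subset_left
  have h1 : ∃ w, XCl R o (f '' K) w := by
    refine XPSlab_ind hK hf hl (fun A => ∃ w, XCl R o A w)
      (fun A B h ⟨w, hw⟩ => ⟨w, hw.mono h⟩) (fun t => ?_) ?_
    · obtain ⟨w, hw⟩ := (hlev t).1.cls
      obtain ⟨U, hU, h2, h3⟩ := (hC R X o hloc).1 _ w hw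
      exact ⟨U, hU, h2, w, h3⟩
    · rintro x y z hxy hyz ⟨a, ha⟩ ⟨b, hb⟩
      have hI := XPSlab_inter (l := l) hi hxy hyz
      have ha' := ha.mono (hI.ge.trans inter_subset_left)
      have hb' := hb.mono (hI.ge.trans inter_subset_right)
      obtain ⟨c, c1, c2, c3, c4⟩ := (hMV R X _ _ (hcl x y) (hcl y z) 4).1 a ha.1 b hb.1 ha.2.1
        hb.2.1 (by
          rw [hI]
          refine (hlev y).1.inj _ (sub_mem ha.1 hb.1) (sub_mem ha'.2.1 hb'.2.1) fun p hp => ?_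
          rw [← sub_sub_sub_cancel_right a b (XO R o p)]
          exact sub_mem (ha'.2.2 p hp) (hb'.2.2 p hp))
      rw [← XPSlab_union hxy hyz]
      refine ⟨c, c1, c2, ?_⟩
      rintro p (hp | hp)
      · rw [← sub_add_sub_cancel c a]
        exact add_mem (XTriv_anti (singleton_subset_iff.2 hp) c3) (ha.2.2 p hp)
      · rw [← sub_add_sub_cancel c b]
        exact add_mem (XTriv_anti (singleton_subset_iff.2 hp) c4) (hb.2.2 p hp)
  obtain ⟨w, hw⟩ := h1
  have h2 : ∀ k, ∀ c ∈ DG R X k, c ∈ XRel R (f '' K) →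
      (∀ t, c ∈ XTriv R (f '' (K ∩ l ⁻¹' {t}))) → c ∈ XTriv R (f '' K) := by
    intro k c hc hr ht
    refine XPSlab_ind hK hf hl (fun A => c ∈ XTriv R A) (fun A B h hB => XTriv_anti h hB)
      (fun t => exists_open_XTriv (ht t)) fun x y z hxy hyz q1 q2 => ?_
    rw [← XPSlab_union hxy hyz]
    refine (hMV R X _ _ (hcl x y) (hcl y z) k).2.1 (fun u hu hur => ?_) c hc
      (XRel_anti (union_subset (hsub _) (hsub _)) hr) q1 q2
    rw [XPSlab_inter hi hxy hyz] at hur ⊢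
    by_cases hk : k + 1 = 4
    · rw [hk] at hu
      obtain ⟨r, hr⟩ := (hC R X o hloc).2 _ w (hlev y).2 (hlev y).1.inj (hw.mono (hsub _)) u hu hur
      rw [← add_sub_cancel (r • w) u]
      exact Submodule.add_mem_sup (Submodule.mem_sup_left
        (Submodule.smul_mem _ r (XRel_anti (hsub _) hw.2.1))) hr
    · exact Submodule.mem_sup_right ((hlev y).1.van _ hk u hu hur)
  exact ⟨hK.image_of_continuousOn hf,
    fun k hk c hc hr => h2 k c hc hr fun t => (hlev t).1.van k hk c hc (XRel_anti (hsub _) hr),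
    fun c hc hr hp => h2 4 c hc hr fun t => (hlev t).1.inj c hc (XRel_anti (hsub _) hr)
      fun p hp' => hp p (hsub _ hp'), w, hw⟩

end Pool.Agent.MP_bc14e1_gt
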