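import Pool.Agent.MP_bc14e1_gt.P.XPI

open Set Metric
open scoped Classical

namespace Pool.Agent.MP_bc14e1_gt

theorem XPTheta_uniq {R M : Type} [CommRing R] [AddCommGroup M] [Module R M] {N : Submodule R M}
    {y g : M} (h : ∃ r : R, y - r • g ∈ N) (h0 : ∀ r : R, r • g ∈ N → r = 0) :
    ∃! r : R, y - r • g ∈ N := by
  obtain ⟨r, hr⟩ := h
  refine ⟨r, hr, fun r' hr' => sub_eq_zero.1 (h0 _ ?_)⟩
  refine mem_of_eq_of_mem ?_ (sub_mem hr hr')
  rw [sub_smul]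
  abel

theorem XPTheta_deg {R X : Type} [CommRing R] [TopologicalSpace X] {A B C : Set X} {k : ℕ}
    {c : Tot R X} (hc : c ∈ DG R X k) (h : c ∈ XRel R A ⊔ XRel R B ⊔ XTriv R C) :
    ∃ a ∈ DG R X k, ∃ b ∈ DG R X k, a ∈ XRel R A ∧ b ∈ XRel R B ∧ c - a - b ∈ XTriv R C := by
  obtain ⟨_, hy, t, ht, e⟩ := Submodule.mem_sup.1 h
  obtain ⟨a, ha, b, hb, rfl⟩ := Submodule.mem_sup.1 hy
  refine ⟨_, deg_mem k a, _, deg_mem k b, deg_mem_XRel k ha, deg_mem_XRel k hb, ?_⟩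
  refine mem_of_eq_of_mem ?_ (deg_mem_XTriv k ht)
  rw [← deg_of_mem hc, ← e, map_add, map_add]
  abel

theorem XPTheta_sup {R X : Type} [CommRing R] [TopologicalSpace X] {A B C : Set X}
    {c a : Tot R X} (ha : a ∈ XRel R A) (h : c - a ∈ XTriv R C) :
    c ∈ XRel R A ⊔ XRel R B ⊔ XTriv R C := by
  rw [← add_sub_cancel a c]
  exact add_mem (Submodule.mem_sup_left (Submodule.mem_sup_left ha)) (Submodule.mem_sup_right h)

theorem xtheta_stmt (hMV : XMVStmt) (hC : XConnStmt) : XThetaStmt := by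
  intro R _ X _ _ o D₁ D₂ A₁ A₂ p q hL d1 d2 a1 a2 c1 c2 hpq hA hD
  have hp : p ∈ A₁ ∩ A₂ := hA ▸ Or.inl rfl
  have hq : q ∈ A₁ ∩ A₂ := hA ▸ Or.inr rfl
  have hA' : A₁ ∩ A₂ = {p} ∪ {q} := hA
  have he : ({p} : Set X) ∩ {q} = ∅ := singleton_inter_eq_empty.2 hpq
  have M := hMV R X {p} {q} isClosed_singleton isClosed_singleton
  rw [he, ← hA'] at M
  have sp : {p} ⊆ A₁ ∩ A₂ := singleton_subset_iff.2 hp
  have sq : {q} ⊆ A₁ ∩ A₂ := singleton_subset_iff.2 hq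
  have hP := fun k => (M k).2.1 fun y _ _ => Submodule.mem_sup_right (mem_XTriv_empty y)
  obtain ⟨g, g1, g2, g3, g4⟩ := (M 4).1 _ (XO_mem_DG o p) 0 (zero_mem _) (XO_mem_XRel o p)
    (zero_mem _) (mem_XTriv_empty _)
  rw [sub_zero] at g4
  have MA := hMV R X A₁ A₂ a1.cpt.isClosed a2.cpt.isClosed
  have MD := hMV R X D₁ D₂ d1.cpt.isClosed d2.cpt.isClosed
  rw [hD] at MD
  have s1 : A₁ ∪ A₂ ⊆ D₁ := hD ▸ inter_subset_left
  have s2 : A₁ ∪ A₂ ⊆ D₂ := hD ▸ inter_subset_right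
  have hI : XInj R (A₁ ∪ A₂) := fun c hc h h' =>
    (MA 4).2.1 (fun y hy h5 => Submodule.mem_sup_right (hP 5 y hy h5
      (hL.van p 5 (by decide) y hy (XRel_anti sp h5))
      (hL.van q 5 (by decide) y hy (XRel_anti sq h5)))) c hc h
      (a1.inj c hc (XRel_anti subset_union_left h) fun x hx => h' x (Or.inl hx))
      (a2.inj c hc (XRel_anti subset_union_right h) fun x hx => h' x (Or.inr hx))
  obtain ⟨w, hw⟩ := d1.cls
  obtain ⟨w₁, w1⟩ := a1.cls
  obtain ⟨w₂, w2⟩ := a2.cls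
  have hR : XRk1 R (A₁ ∪ A₂) 3 := by
    refine (MA 3).2.2 (a1.van 3 (by decide)) (a2.van 3 (by decide)) g g1 g2 fun y hy h => ?_
    refine XPTheta_uniq ?_ fun r hr => ?_
    · obtain ⟨rp, h1, -⟩ := hL.gen p y hy (XRel_anti sp h)
      obtain ⟨rq, h2, -⟩ := hL.gen q y hy (XRel_anti sq h)
      refine ⟨rp - rq, XPTheta_sup (Submodule.smul_mem _ rq w1.2.1) (hP 4 _ ?_ ?_ ?_ ?_)⟩
      · exact sub_mem (sub_mem hy (Submodule.smul_mem _ _ g1)) (Submodule.smul_mem _ _ w1.1)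
      · exact sub_mem (sub_mem h (Submodule.smul_mem _ _ g2))
          (Submodule.smul_mem _ _ (XRel_anti inter_subset_left w1.2.1))
      · refine mem_of_eq_of_mem ?_ (sub_mem (sub_mem h1 (Submodule.smul_mem _ (rp - rq) g3))
          (Submodule.smul_mem _ rq (w1.2.2 p hp.1)))
        module
      · refine mem_of_eq_of_mem ?_ (sub_mem (sub_mem h2 (Submodule.smul_mem _ (rp - rq) g4))
          (Submodule.smul_mem _ rq (w1.2.2 q hq.1)))
        module
    · obtain ⟨a, ha, b, hb, h1, h2, h3⟩ := XPTheta_deg (Submodule.smul_mem _ r g1) hr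
      obtain ⟨r₁, h4⟩ := (hC R X o hL).2 A₁ w₁ c1 a1.inj w1 a ha h1
      obtain ⟨r₂, h5⟩ := (hC R X o hL).2 A₂ w₂ c2 a2.inj w2 b hb h2
      have h6 : ∀ x ∈ A₁ ∩ A₂, r • g - (r₁ + r₂) • XO R o x ∈ XTriv R {x} := by
        intro x hx
        refine mem_of_eq_of_mem ?_ (add_mem (add_mem (add_mem (add_mem
          (XTriv_anti (singleton_subset_iff.2 hx) h3)
          (XTriv_anti (singleton_subset_iff.2 hx.1) h4))
          (XTriv_anti (singleton_subset_iff.2 hx.2) h5))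
          (Submodule.smul_mem _ r₁ (w1.2.2 x hx.1))) (Submodule.smul_mem _ r₂ (w2.2.2 x hx.2)))
        module
      have h7 : r₁ + r₂ = 0 := hL.eq_zero (x := q) (by
        refine mem_of_eq_of_mem ?_ (sub_mem (Submodule.smul_mem _ r g4) (h6 q hq))
        module)
      refine hL.eq_zero (x := p) ?_
      refine mem_of_eq_of_mem ?_ (sub_mem (h6 p hp) (Submodule.smul_mem _ r g3))
      rw [h7]
      module
  constructor
  · intro c hc h
    refine (MD 3).2.1 (fun y hy h' => ?_) c hc h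
      (d1.van 3 (by decide) c hc (XRel_anti subset_union_left h))
      (d2.van 3 (by decide) c hc (XRel_anti subset_union_right h))
    obtain ⟨r, hr⟩ := (hC R X o hL).2 _ w (c1.union p hp.1 hp.2 c2) hI (hw.mono s1) y hy h'
    exact XPTheta_sup (Submodule.smul_mem _ r hw.2.1) hr
  · obtain ⟨γ, h1, h2, h3⟩ := hR
    refine (MD 2).2.2 (d1.van 2 (by decide)) (d2.van 2 (by decide)) γ h1 h2 fun y hy h => ?_
    refine XPTheta_uniq ((h3 y hy h).exists.imp fun r hr => Submodule.mem_sup_right hr)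
      fun r hr => ?_
    obtain ⟨a, ha, b, hb, h4, h5, h6⟩ := XPTheta_deg (Submodule.smul_mem _ r h1) hr
    have h7 := add_mem (add_mem h6 (XTriv_anti s1 (d1.van 3 (by decide) a ha h4)))
      (XTriv_anti s2 (d2.van 3 (by decide) b hb h5))
    refine (h3 0 (zero_mem _) (zero_mem _)).unique ?_ ?_
    · refine mem_of_eq_of_mem ?_ (neg_mem h7)
      abel
    · simp

end Pool.Agent.MP_bc14e1_gt
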