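import Pool.Agent.MP_bc14e1_gt.P.XPA
import Pool.Agent.MP_bc14e1_gt.P.XPBox
import Pool.Agent.MP_bc14e1_gt.P.XPCirc
import Pool.Agent.MP_bc14e1_gt.P.XPCls
import Pool.Agent.MP_bc14e1_gt.P.XPConn
import Pool.Agent.MP_bc14e1_gt.P.XPDisc
import Pool.Agent.MP_bc14e1_gt.P.XPGlob
import Pool.Agent.MP_bc14e1_gt.P.XPH0
import Pool.Agent.MP_bc14e1_gt.P.XPMV
import Pool.Agent.MP_bc14e1_gt.P.XPMod2
import Pool.Agent.MP_bc14e1_gt.P.XPPt
import Pool.Agent.MP_bc14e1_gt.P.XPRot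
import Pool.Agent.MP_bc14e1_gt.P.XPShell
import Pool.Agent.MP_bc14e1_gt.P.XPSlab
import Pool.Agent.MP_bc14e1_gt.P.XPTheta

open Set Metric
open scoped Classical

namespace Pool.Agent.MP_bc14e1_gt

theorem xp_stmt (B : Bas2) : XPStmt :=
  XPA_main B (xpt_stmt B) (xdisc_stmt (xslab_stmt xmv_stmt xconn_stmt))
    (xtheta_stmt xmv_stmt xconn_stmt) xh0_stmt (xglob_stmt xh0_stmt (xshell_stmt B)) xmod2_stmt
    (xrot_stmt B (xbox_stmt B (xcirc_stmt B))) (xcls_stmt B)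

end Pool.Agent.MP_bc14e1_gt
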