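import Pool.Agent.MP_bc14e1_gt.IfP

/-! Chains over the disjoint translates of an open set. -/

open Set Metric
open scoped Classical

namespace Pool.Agent.MP_bc14e1_gt

section Exc

variable {R : Type} [CommRing R] {X : Type} [TopologicalSpace X]

theorem Base1H_split {V A : Set X} (hV : IsOpen V) (hA : IsClosed A) (hAV : A ⊆ V) (b : Tot R X) :
    ∃ m : ℕ, ∃ b1 ∈ CH R V, ∃ b2 ∈ CH R Aᶜ, b1 + b2 = (sdT R X ^ m) b := by
  have e : V ∪ Aᶜ = univ :=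
    eq_univ_of_forall fun y => (em (y ∈ A)).imp (fun h => hAV h) id
  obtain ⟨m, hm⟩ := sdT_small_two hV hA.isOpen_compl (c := b) (e ▸ mem_CH_univ b)
  exact ⟨m, Submodule.mem_sup.1 (hm m le_rfl)⟩

theorem Base1H_exc_inj {V A : Set X} (hV : IsOpen V) (hA : IsClosed A) (hAV : A ⊆ V)
    {z b : Tot R X} (hz : z ∈ CH R V) (h : z - dT R X b ∈ CH R Aᶜ) :
    ∃ b' ∈ CH R V, z - dT R X b' ∈ CH R (V \ A) := by
  obtain ⟨m, b1, h1, b2, h2, e⟩ := Base1H_split hV hA hAV b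
  have hb : sdHP R X m z + b1 ∈ CH R V := add_mem (sdHP_mem_CH m hz) h1
  refine ⟨_, hb, ?_⟩
  rw [sdiff_eq, CH_inter]
  refine ⟨sub_mem hz (dT_mem_CH hb), ?_⟩
  have a1 : dT R X z ∈ CH R Aᶜ := by
    have := dT_mem_CH h
    rwa [map_sub, dT_dT, sub_zero] at this
  have a2 := dT_sdHP m z
  have a3 := congrArg (dT R X) e
  rw [map_add, dT_sdT_pow] at a3
  have a4 : z - dT R X (sdHP R X m z + b1) =
      sdHP R X m (dT R X z) + dT R X b2 + (sdT R X ^ m) (z - dT R X b) := by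
    rw [map_add, map_sub, ← a3, eq_sub_of_add_eq a2]
    abel
  rw [SetLike.mem_coe, a4]
  exact add_mem (add_mem (sdHP_mem_CH m a1) (dT_mem_CH h2)) (sdT_pow_mem_CH m h)

theorem Base1H_exc_surj {V A : Set X} (hV : IsOpen V) (hA : IsClosed A) (hAV : A ⊆ V)
    {z : Tot R X} (h : dT R X z ∈ CH R Aᶜ) :
    ∃ z' ∈ CH R V, ∃ b, z - z' - dT R X b ∈ CH R Aᶜ := by
  obtain ⟨m, b1, h1, b2, h2, e⟩ := Base1H_split hV hA hAV z
  refine ⟨b1, h1, sdHP R X m z, ?_⟩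
  have a4 : z - b1 - dT R X (sdHP R X m z) = sdHP R X m (dT R X z) + b2 := by
    rw [eq_sub_of_add_eq (dT_sdHP m z), ← e]
    abel
  rw [a4]
  exact add_mem (sdHP_mem_CH m h) h2

theorem Base1H_prj_dT {U U' : Set X} (hU : IsOpen U) (hU' : IsOpen U') (hd : Disjoint U U')
    {c : Tot R X} (hc : c ∈ CH R (U ∪ U')) : prj R U (dT R X c) = dT R X (prj R U c) := by
  rw [CH_union_of_disjoint hU hU' hd] at hc
  obtain ⟨c1, h1, c2, h2, rfl⟩ := Submodule.mem_sup.1 hc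
  simp only [map_add, prj_of_mem h1, prj_of_mem (dT_mem_CH h1), prj_eq_zero hd h2,
    prj_eq_zero hd (dT_mem_CH h2), map_zero]

end Exc

section Tr

variable {G Y : Type} [Group G] [TopologicalSpace Y] [MulAction G Y] [ContinuousConstSMul G Y]
  {s : G} {U N : Set Y} {c : Tot ℂ Y}

/-- The translates of `U`. -/
def Base1H_tr (s : G) (U : Set Y) (n : ℤ) : Set Y := {y | s ^ (-n) • y ∈ U}

omit [TopologicalSpace Y] [ContinuousConstSMul G Y] in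
theorem Base1H_zz (s : G) (m n : ℤ) (y : Y) : s ^ m • s ^ n • y = s ^ (m + n) • y := by
  rw [zpow_add, mul_smul]

omit [TopologicalSpace Y] [ContinuousConstSMul G Y] in
theorem Base1H_sat (s : G) (U : Set Y) : sat s U = ⋃ n, Base1H_tr s U n := by
  refine iUnion_congr fun n => Set.ext fun y => ⟨?_, fun h => ⟨_, h, ?_⟩⟩
  · rintro ⟨u, hu, rfl⟩
    simpa [Base1H_tr] using hu
  · simp

omit [TopologicalSpace Y] [ContinuousConstSMul G Y] in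
theorem Base1H_inv (s : G) (U : Set Y) : Inv s (sat s U) := fun y => by
  simp only [Base1H_sat, mem_iUnion, Base1H_tr, mem_ofPred_eq]
  constructor
  · rintro ⟨n, hn⟩
    exact ⟨n - 1, by rwa [neg_sub, sub_eq_neg_add, zpow_add_one, mul_smul]⟩
  · rintro ⟨n, hn⟩
    exact ⟨n + 1, by rwa [neg_add, ← sub_eq_add_neg, zpow_sub_one, mul_smul, inv_smul_smul]⟩

omit [TopologicalSpace Y] [ContinuousConstSMul G Y] in
theorem Base1H_sub (s : G) (U : Set Y) : U ⊆ sat s U := fun y hy => by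
  rw [sat]
  exact mem_iUnion.2 ⟨0, y, hy, by simp⟩

theorem Base1H_tr_open (hU : IsOpen U) (n : ℤ) : IsOpen (Base1H_tr s U n) :=
  hU.preimage (continuous_const_smul _)

omit [TopologicalSpace Y] [ContinuousConstSMul G Y] in
theorem Base1H_tr_disj (hd : ∀ n : ℤ, ∀ y ∈ U, s ^ n • y ∈ U → n = 0) {m n : ℤ} (h : m ≠ n) :
    Disjoint (Base1H_tr s U m) (Base1H_tr s U n) := by
  refine disjoint_left.2 fun y h1 h2 => h ?_
  have := hd (m - n) _ h1 (by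
    rw [Base1H_zz, show m - n + -m = -n by ring]
    exact h2)
  omega

omit [ContinuousConstSMul G Y] in
theorem Base1H_up (n : ℤ) {z : Tot ℂ Y} (h : z ∈ CH ℂ U) :
    gs ℂ Y (s ^ n) z ∈ CH ℂ (Base1H_tr s U n) :=
  gs_mem_CH _ (fun y hy => by simpa [Base1H_tr] using hy) h

omit [ContinuousConstSMul G Y] in
theorem Base1H_gsN (hN : Inv s N) (n : ℤ) {z : Tot ℂ Y} (h : z ∈ CH ℂ N) :
    gs ℂ Y (s ^ n) z ∈ CH ℂ N := gs_mem_CH _ (fun y hy => (hN.zpow n y).2 hy) h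

theorem Base1H_gs_gs (n : ℤ) (z : Tot ℂ Y) : gs ℂ Y (s ^ n) (gs ℂ Y (s ^ (-n)) z) = z := by
  rw [← gs_mul, ← zpow_add, add_neg_cancel, zpow_zero, gs_one]

theorem Base1H_prj_tr (hU : IsOpen U) (hd : ∀ n : ℤ, ∀ y ∈ U, s ^ n • y ∈ U → n = 0) (n : ℤ)
    {z : Tot ℂ Y} (hz : z ∈ CH ℂ (sat s U)) :
    prj ℂ (Base1H_tr s U n) (dT ℂ Y z) = dT ℂ Y (prj ℂ (Base1H_tr s U n) z) := by
  refine Base1H_prj_dT (U' := ⋃ m ∈ {m | m ≠ n}, Base1H_tr s U m) (Base1H_tr_open hU n)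
    (isOpen_biUnion fun m _ => Base1H_tr_open hU m)
    (disjoint_iUnion₂_right.2 fun m hm => Base1H_tr_disj hd (Ne.symm hm)) (CH_mono ?_ hz)
  rw [Base1H_sat]
  refine iUnion_subset fun m y hy => ?_
  by_cases h : m = n
  · exact Or.inl (h ▸ hy)
  · exact Or.inr (mem_biUnion h hy)

theorem Base1H_gen (hU : IsOpen U) (hd : ∀ n : ℤ, ∀ y ∈ U, s ^ n • y ∈ U → n = 0) (hN : Inv s N)
    (hg : ∀ z ∈ CH ℂ U, dT ℂ Y z ∈ CH ℂ N → ∃ r : ℂ, ∃ w ∈ CH ℂ U, z - r • c - dT ℂ Y w ∈ CH ℂ N)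
    {z : Tot ℂ Y} (hz : z ∈ CH ℂ (sat s U)) (hdz : dT ℂ Y z ∈ CH ℂ N) :
    ∃ a : Lam ℂ, ∃ w ∈ CH ℂ (sat s U), z - act ℂ Y s a c - dT ℂ Y w ∈ CH ℂ N := by
  have sub : ∀ n, Base1H_tr s U n ⊆ sat s U := fun n => Base1H_sat s U ▸ subset_iUnion _ n
  obtain ⟨K, hK, hKU, hzK⟩ := exists_compact_CH hz
  obtain ⟨S, hS⟩ := hK.elim_finite_subcover _ (Base1H_tr_open (s := s) hU) (Base1H_sat s U ▸ hKU)
  have hzS := CH_mono hS hzK
  clear hS hzK hKU hK hz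
  induction S using Finset.induction_on generalizing z with
  | empty =>
    have : z = 0 := eq_zero_of_mem_CH_empty (by simpa using hzS)
    exact ⟨0, 0, zero_mem _, by simp [this]⟩
  | insert n S hn ih =>
    have dj : Disjoint (Base1H_tr s U n) (⋃ m ∈ S, Base1H_tr s U m) :=
      disjoint_iUnion₂_right.2 fun m hm => Base1H_tr_disj hd fun e => hn (e ▸ hm)
    rw [Finset.set_biUnion_insert, CH_union_of_disjoint (Base1H_tr_open hU n)
      (isOpen_iUnion fun m => isOpen_iUnion fun _ => Base1H_tr_open hU m) dj] at hzS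
    obtain ⟨z1, h1, z2, h2, rfl⟩ := Submodule.mem_sup.1 hzS
    have a1 : dT ℂ Y z1 ∈ CH ℂ N := by
      have := prj_mem_CH (Base1H_tr s U n) hdz
      rwa [map_add, map_add, prj_of_mem (dT_mem_CH h1), prj_eq_zero dj (dT_mem_CH h2),
        add_zero] at this
    have a2 : dT ℂ Y z2 ∈ CH ℂ N := by
      have := sub_mem hdz a1
      rwa [map_add, add_sub_cancel_left] at this
    obtain ⟨a, w, hw, b1⟩ := ih a2 h2
    obtain ⟨r, w', hw', b2⟩ := hg (gs ℂ Y (s ^ (-n)) z1) (gs_mem_CH _ (fun y hy => hy) h1)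
      (by rw [dT_gs]; exact Base1H_gsN hN _ a1)
    have b3 := Base1H_gsN hN n b2
    rw [map_sub, map_sub, Base1H_gs_gs, map_smul, ← dT_gs] at b3
    refine ⟨LaurentPolynomial.C r * LaurentPolynomial.T n + a, gs ℂ Y (s ^ n) w' + w,
      add_mem (CH_mono (sub n) (Base1H_up n hw')) hw, ?_⟩
    have := add_mem b3 b1
    rw [map_add, map_add, LinearMap.add_apply, map_mul, Module.End.mul_apply, act_C, act_T]
    convert this using 1
    abel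

theorem Base1H_uniq (hU : IsOpen U) (hd : ∀ n : ℤ, ∀ y ∈ U, s ^ n • y ∈ U → n = 0) (hN : Inv s N)
    (hc : c ∈ CH ℂ U)
    (hu : ∀ r : ℂ, ∀ w ∈ CH ℂ U, r • c - dT ℂ Y w ∈ CH ℂ N → r = 0)
    {a : Lam ℂ} {w : Tot ℂ Y} (hw : w ∈ CH ℂ (sat s U))
    (h : act ℂ Y s a c - dT ℂ Y w ∈ CH ℂ N) : act ℂ Y s a c = 0 := by
  have h1 : ∀ n : ℤ, ∀ a : Lam ℂ, ∃ r : ℂ,
      prj ℂ (Base1H_tr s U n) (act ℂ Y s a c) = r • gs ℂ Y (s ^ n) c := by
    intro n a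
    induction a using LaurentPolynomial.induction_on' with
    | add p q hp hq =>
      obtain ⟨r, hr⟩ := hp
      obtain ⟨r', hr'⟩ := hq
      exact ⟨r + r', by rw [map_add, LinearMap.add_apply, map_add, hr, hr', add_smul]⟩
    | C_mul_T m r =>
      rw [map_mul, Module.End.mul_apply, act_C, act_T, map_smul]
      by_cases e : n = m
      · exact ⟨r, by rw [e, prj_of_mem (Base1H_up m hc)]⟩
      · exact ⟨0, by rw [prj_eq_zero (Base1H_tr_disj hd e) (Base1H_up m hc), smul_zero, zero_smul]⟩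
  have h2 : ∀ n : ℤ, prj ℂ (Base1H_tr s U n) (act ℂ Y s a c) = 0 := by
    intro n
    obtain ⟨r, hr⟩ := h1 n a
    have a1 := Base1H_gsN hN (-n) (prj_mem_CH (Base1H_tr s U n) h)
    have e : gs ℂ Y (s ^ (-n)) (gs ℂ Y (s ^ n) c) = c := by
      simpa using Base1H_gs_gs (s := s) (-n) c
    rw [map_sub, hr, Base1H_prj_tr hU hd n hw, map_sub, map_smul, e, ← dT_gs] at a1
    rw [hr, hu r _ (gs_mem_CH _ (fun y hy => hy) (prj_mem _ w)) a1, zero_smul]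
  have h3 : act ℂ Y s a c ∈ CH ℂ (sat s U) :=
    act_mem_CH (Base1H_inv s U) a (CH_mono (Base1H_sub s U) hc)
  ext σ
  by_contra hσ
  have a1 := mem_CH.1 h3 σ (Finsupp.mem_support_iff.2 hσ)
  obtain ⟨n, hn⟩ := mem_iUnion.1 (Base1H_sat s U ▸ a1 (Classical.arbitrary _))
  have a2 : range σ.2 ⊆ Base1H_tr s U n := by
    have dj : Disjoint (Base1H_tr s U n) (⋃ m ∈ {m | m ≠ n}, Base1H_tr s U m) :=
      disjoint_iUnion₂_right.2 fun m hm => Base1H_tr_disj hd (Ne.symm hm)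
    refine (isPreconnected_range σ.2.continuous).subset_left_of_subset_union (Base1H_tr_open hU n)
      (isOpen_biUnion fun m _ => Base1H_tr_open hU m) dj ?_ ⟨_, ⟨_, rfl⟩, hn⟩
    rintro _ ⟨t, rfl⟩
    obtain ⟨m, hm⟩ := mem_iUnion.1 (Base1H_sat s U ▸ a1 t)
    by_cases h : m = n
    · exact Or.inl (h ▸ hm)
    · exact Or.inr (mem_biUnion h hm)
  have a3 := DFunLike.congr_fun (h2 n) σ
  rw [prj, flt_apply, if_pos a2] at a3
  exact hσ a3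

theorem Base1H_mod (tf : TfStmt) (fr : ∀ (n : ℤ) (y : Y), s ^ n • y = y → n = 0) (hU : IsOpen U)
    (hd : ∀ n : ℤ, ∀ y ∈ U, s ^ n • y ∈ U → n = 0) (hN : Inv s N) (hc : c ∈ CH ℂ U)
    (hg : ∀ z ∈ CH ℂ U, dT ℂ Y z ∈ CH ℂ N → ∃ r : ℂ, ∃ w ∈ CH ℂ U, z - r • c - dT ℂ Y w ∈ CH ℂ N)
    (hu : ∀ r : ℂ, ∀ w ∈ CH ℂ U, r • c - dT ℂ Y w ∈ CH ℂ N → r = 0) {g : Lam ℂ} (g0 : g ≠ 0)
    {b : Tot ℂ Y} (hb : b ∈ CH ℂ (sat s U)) (h : dT ℂ Y b ∈ CH ℂ N ⊔ Mul0 s g) :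
    ∃ a : Lam ℂ, ∃ w ∈ CH ℂ (sat s U), b - act ℂ Y s a c - dT ℂ Y w ∈ CH ℂ N ⊔ Mul0 s g := by
  have hW := Base1H_inv s U
  obtain ⟨o, ho, _, ⟨z, rfl⟩, e⟩ := Submodule.mem_sup.1 h
  have e' := congrArg (prj ℂ (sat s U)) e
  rw [map_add, prj_of_mem (dT_mem_CH hb), map_act _ (prj_gs s hW)] at e'
  have ho' := prj_mem_CH (sat s U) ho
  have hz' := prj_mem (R := ℂ) (sat s U) z
  generalize prj ℂ (sat s U) o = o' at e' ho'
  generalize prj ℂ (sat s U) z = z' at e' hz'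
  have a1 : dT ℂ Y z' ∈ CH ℂ N := by
    refine (tf ℂ G Y s fr g g0 _).2.1 N hN ?_
    rw [← dT_act, eq_sub_of_add_eq' e', map_sub, dT_dT, zero_sub]
    exact neg_mem (dT_mem_CH ho')
  obtain ⟨a, w, hw, a2⟩ := Base1H_gen hU hd hN hg hz' a1
  have a3 := act_mem_CH hN g a2
  have hb' : b - act ℂ Y s g w ∈ CH ℂ (sat s U) := sub_mem hb (act_mem_CH hW g hw)
  have a4 : act ℂ Y s (g * a) c - dT ℂ Y (b - act ℂ Y s g w) ∈ CH ℂ N := by
    have := neg_mem (add_mem ho' a3)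
    rw [map_sub, map_sub] at this
    rw [map_mul, Module.End.mul_apply, map_sub, dT_act, ← e']
    convert this using 1
    abel
  rw [Base1H_uniq hU hd hN hc hu hb' a4, zero_sub, neg_mem_iff] at a4
  obtain ⟨a', w', hw', a5⟩ := Base1H_gen hU hd hN hg hb' a4
  refine ⟨a', w', hw', Submodule.mem_sup.2 ⟨_, a5, _, ⟨w, rfl⟩, ?_⟩⟩
  abel

theorem Base1H_cut {W K : Set Y} (hW : IsOpen W) (hK : IsClosed K) (hKW : K ⊆ W) {g : Lam ℂ}
    {b : Tot ℂ Y} (h : dT ℂ Y b ∈ CH ℂ Kᶜ ⊔ Mul0 s g) :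
    ∃ b' ∈ CH ℂ W, ∃ w, b - b' - dT ℂ Y w ∈ CH ℂ Kᶜ ⊔ Mul0 s g := by
  obtain ⟨m, b1, h1, b2, h2, e⟩ := Base1H_split hW hK hKW b
  refine ⟨b1, h1, sdHP ℂ Y m b, ?_⟩
  have a4 : b - b1 - dT ℂ Y (sdHP ℂ Y m b) = sdHP ℂ Y m (dT ℂ Y b) + b2 := by
    rw [eq_sub_of_add_eq (dT_sdHP m b), ← e]
    abel
  have c1 : ∀ (j : ℕ) (z : Tot ℂ Y),
      (sdT ℂ Y ^ j) (gs ℂ Y s z) = gs ℂ Y s ((sdT ℂ Y ^ j) z) := by
    intro j z
    induction j with
    | zero => rfl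
    | succ j ih =>
      rw [pow_succ', Module.End.mul_apply, Module.End.mul_apply, ih]
      exact sdT_psh (continuous_const_smul s).continuousOn (mem_CH_univ _)
  have c2 : ∀ z : Tot ℂ Y, sdHP ℂ Y m (gs ℂ Y s z) = gs ℂ Y s (sdHP ℂ Y m z) := by
    intro z
    rw [sdHP, LinearMap.sum_apply, LinearMap.sum_apply, map_sum]
    refine Finset.sum_congr rfl fun j _ => ?_
    rw [Module.End.mul_apply, Module.End.mul_apply, c1]
    exact sdH_psh (continuous_const_smul s).continuousOn (mem_CH_univ _)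
  obtain ⟨o, ho, _, ⟨z, rfl⟩, e'⟩ := Submodule.mem_sup.1 h
  rw [a4, ← e', map_add, map_act _ c2]
  exact add_mem (add_mem (Submodule.mem_sup_left (sdHP_mem_CH m ho))
    (Submodule.mem_sup_right ⟨_, rfl⟩)) (Submodule.mem_sup_left h2)

end Tr

end Pool.Agent.MP_bc14e1_gt
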