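import Pool.Agent.MP_bc14e1_gt.IfL

open Set Metric
open scoped Classical

namespace Pool.Agent.MP_bc14e1_gt

/-- The Krull intersection theorem in the form that is used. -/
theorem Co_krull {Λ C : Type} [CommRing Λ] [IsNoetherianRing Λ] [AddCommGroup C] [Module Λ C]
    (Z B : Submodule Λ C) {n : ℕ} (z : Fin n → C) (hz : ∀ i, z i ∈ Z)
    (hg : ∀ y ∈ Z, ∃ a : Fin n → Λ, y - ∑ i, a i • z i ∈ B) (π : Λ) {x : C} (hx : x ∈ Z)
    (hπ : π • x ∈ B) (h : ∀ k : ℕ, ∃ y ∈ Z, x - π ^ k • y ∈ B) : x ∈ B := by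
  have hN : (Z.map B.mkQ).FG := by
    refine Submodule.fg_def.2 ⟨range fun i => B.mkQ (z i), finite_range _, le_antisymm ?_ ?_⟩
    · rw [Submodule.span_le]
      rintro _ ⟨i, rfl⟩
      exact Submodule.mem_map_of_mem (hz i)
    · rintro _ ⟨y, hy, rfl⟩
      obtain ⟨a, ha⟩ := hg y hy
      have : B.mkQ y = ∑ i, a i • B.mkQ (z i) := by
        have := (Submodule.Quotient.eq B).2 ha
        rw [← Submodule.mkQ_apply, ← Submodule.mkQ_apply, map_sum] at this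
        simpa only [map_smul] using this
      rw [this]
      exact Submodule.sum_mem _ fun i _ => Submodule.smul_mem _ _ (Submodule.subset_span ⟨i, rfl⟩)
  have : Module.Finite Λ (Z.map B.mkQ) := Module.Finite.iff_fg.2 hN
  obtain ⟨⟨r, hr⟩, e⟩ := (Ideal.mem_iInf_smul_pow_eq_bot_iff (Ideal.span {π})
    (⟨B.mkQ x, Submodule.mem_map_of_mem hx⟩ : Z.map B.mkQ)).1 (by
      rw [Submodule.mem_iInf]
      intro k
      obtain ⟨y, hy, hk⟩ := h k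
      have : (⟨B.mkQ x, Submodule.mem_map_of_mem hx⟩ : Z.map B.mkQ) =
          π ^ k • ⟨B.mkQ y, Submodule.mem_map_of_mem hy⟩ :=
        Subtype.ext ((Submodule.Quotient.eq B).2 hk)
      rw [this]
      exact Submodule.smul_mem_smul (Ideal.pow_mem_pow (Ideal.mem_span_singleton_self π) k)
        Submodule.mem_top)
  obtain ⟨t, rfl⟩ := Ideal.mem_span_singleton'.1 hr
  have e' : B.mkQ ((t * π) • x) = B.mkQ x := congrArg Subtype.val e
  have h0 : B.mkQ ((t * π) • x) = 0 :=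
    (Submodule.Quotient.mk_eq_zero B).2 (by rw [mul_smul]; exact B.smul_mem t hπ)
  exact (Submodule.Quotient.mk_eq_zero B).1 (e'.symm.trans h0)

theorem co_stmt (hLaur : LaurStmt) (hKey : KeyStmt) : CoStmt := by
  intro C _ _ d M l ζ x A hζ L
  obtain ⟨-, hN, -, -, -, -, -, -, hev, hpr, hcj, -⟩ := hLaur
  obtain ⟨K1, -, -, K4, -, K6, -⟩ := hKey C d M l ζ A
  have := hN ℂ
  by_contra hx
  have hπ : piL ζ ≠ 0 := (hpr ζ).ne_zero
  have hNV : ∀ k, M k (Ioo (-1) 1) ≤ M k (Iio 1) := fun k => A.mono k _ _ Ioo_subset_Iio_self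
  obtain ⟨c, hc, hdc⟩ := L.tor
  have hx1 : x ∈ M 1 (Ioo (-1) 1) := L.cyc.1
  have hdx : d x = 0 := L.cyc.2
  obtain ⟨a₁, b₁, ha₁, hab₁, hb₁, hx2⟩ := K6 1 x hx1
  obtain ⟨a₂, b₂, -, -, hb₂, hc2⟩ := K6 2 c hc
  have h0 : -1 < max b₁ b₂ := lt_max_of_lt_left (ha₁.trans hab₁)
  have h1 : max b₁ b₂ < 1 := max_lt hb₁ hb₂
  have hx3 : x ∈ M 1 (Iic (max b₁ b₂)) :=
    A.mono 1 _ _ (fun t ht => ht.2.le.trans (le_max_left _ _)) hx2
  have hc3 : c ∈ M 2 (Iic (max b₁ b₂)) :=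
    A.mono 2 _ _ (fun t ht => ht.2.le.trans (le_max_right _ _)) hc2
  obtain ⟨n, hn⟩ : ∃ n : ℕ, ¬ ∃ w ∈ M 2 (Iio 1), ∃ y ∈ M 1 (Iio 1), x = d w + piL ζ ^ n • y := by
    by_contra hcon
    rw [not_exists_not] at hcon
    obtain ⟨n, z, hz, hg⟩ := A.fgV
    refine hx (Co_krull (M 1 (Iio 1) ⊓ LinearMap.ker d) _ z hz (fun y hy => ?_) (piL ζ)
      ⟨hNV 1 hx1, hdx⟩ ⟨c, hNV 2 hc, hdc⟩ fun k => ?_)
    · obtain ⟨a, b, hb, e⟩ := hg y hy.1 hy.2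
      exact ⟨a, b, hb, by rw [e, add_sub_cancel_left]⟩
    · obtain ⟨w, hw, y, hy, e⟩ := hcon k
      refine ⟨y, ⟨hy, A.tf0 _ (pow_ne_zero k hπ) _ ?_⟩, w, hw, by rw [e, add_sub_cancel_right]⟩
      have := congrArg d e
      rwa [hdx, map_add, A.dd, zero_add, map_smul, eq_comm] at this
  obtain ⟨b, -, a, ha, r, hr, hdb, hnd⟩ := A.pdV ζ hζ n _ h0 h1 x hx3 hdx hn
  have hsub : Ioo (max b₁ b₂) 1 ⊆ Ioo (-1) 1 := Ioo_subset_Ioo_left h0.le
  have e1 : piL ζ ^ n • d a = d (-r) := by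
    have := congrArg d hdb
    rw [A.dd, map_add, map_smul] at this
    rw [map_neg, eq_neg_iff_add_eq_zero, ← this]
  have hy : d a ∈ M 1 (Ioo (max b₁ b₂) 1) :=
    A.tf _ (pow_ne_zero n hπ) _ _ _ (e1 ▸ A.d_mem 1 _ _ (neg_mem hr))
  obtain ⟨μ, hμ⟩ := L.prim (d a) ⟨A.mono 1 _ _ hsub hy, A.dd a⟩ rfl n
    ⟨-r, neg_mem (A.mono 2 _ _ hsub hr), e1.symm⟩
  by_cases hμ0 : μ = 0
  · rw [hμ0, map_zero, zero_smul, sub_zero] at hμ
    obtain ⟨e', he', hde⟩ := K4 _ 1 h0.le h1 le_rfl _ hy hμ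
    have hS := A.loc.1
    have hdj : Disjoint (Ioo (max b₁ b₂) 1) (Iic (max b₁ b₂)) :=
      disjoint_left.2 fun t ht ht' => not_le.2 ht.1 ht'
    obtain ⟨g, hg⟩ := (hev ζ _).1 (K1 (a - e') (sub_mem ha (hNV 2 (A.mono 2 _ _ hsub he')))
      ⟨0, by rw [map_sub, hde, sub_self, smul_zero]⟩ c ⟨hc, x, hdc.symm⟩)
    have e2 : l a c = piL ζ * g := by
      rw [← hg, ← sub_add_cancel a e', hS.add_left, A.loc.2 _ _ _ _ hdj _ he' _ hc3, add_zero,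
        sub_add_cancel]
    have e3 : cj (piL ζ) * l b x = piL ζ ^ n * (piL ζ * g) := by
      rw [← hS.smul_right, ← hdc, ← A.stokes, hdb, hS.add_left, hS.smul_left,
        A.loc.2 _ _ _ _ hdj _ hr _ hc3, add_zero, e2]
    have hu : IsUnit (-(LaurentPolynomial.T (-1) *
        LaurentPolynomial.C ((ζ⁻¹ : Circle) : ℂ)) : Lam ℂ) :=
      ((LaurentPolynomial.isUnit_T _).mul
        ((Ne.isUnit (Circle.coe_ne_zero _)).map LaurentPolynomial.C)).neg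
    rw [hcj] at e3
    refine hnd (hu.dvd_mul_left.1 ⟨g, mul_left_cancel₀ hπ ?_⟩)
    linear_combination e3
  · obtain ⟨w, hw, e⟩ := hμ
    refine hx ⟨(LaurentPolynomial.C μ⁻¹ : Lam ℂ) • (a - w),
      Submodule.smul_mem _ _ (sub_mem ha (hNV 2 hw)), ?_⟩
    rw [map_smul, map_sub, e, sub_sub_cancel, smul_smul, ← map_mul, inv_mul_cancel₀ hμ0, map_one,
      one_smul]

end Pool.Agent.MP_bc14e1_gt
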