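import Pool.Agent.MP_bc14e1_gt.If

/-! Algebra of colourings. -/

open Set Metric
open scoped Classical

namespace Pool.Agent.MP_bc14e1_gt

noncomputable section

open Finsupp QuadraticAlgebra

/-! ### The ring of Eisenstein integers -/

theorem Col_omC : (omC : ℂ) = ⟨1 / 2, √3 / 2⟩ := by
  rw [omC, Circle.coe_exp, Complex.exp_mul_I, ← Complex.ofReal_cos, ← Complex.ofReal_sin,
    Real.cos_pi_div_three, Real.sin_pi_div_three]
  apply Complex.ext <;> simp

theorem Col_omC_sq : (omC : ℂ) * omC = omC - 1 := by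
  have h : √3 * √3 = 3 := Real.mul_self_sqrt (by norm_num)
  rw [Col_omC]
  apply Complex.ext
  · simp only [Complex.mul_re, Complex.sub_re, Complex.one_re]
    linear_combination (-1 / 4 : ℝ) * h
  · simp only [Complex.mul_im, Complex.sub_im, Complex.one_im]
    ring

/-- The embedding in the complex numbers. -/
def Col_phi : Eis ℤ →+* ℂ where
  toFun z := z.re + z.im * (omC : ℂ)
  map_one' := by simp
  map_mul' z w := by
    simp only [re_mul, im_mul]
    push_cast
    linear_combination (-(z.im : ℂ) * w.im) * Col_omC_sq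
  map_zero' := by simp
  map_add' z w := by
    simp only [re_add, im_add]
    push_cast
    ring

theorem Col_phi_om : Col_phi (om ℤ : (Eis ℤ)ˣ) = omC := by
  simp [Col_phi, om]

theorem Col_phi_inj : Function.Injective Col_phi := by
  rw [injective_iff_map_eq_zero]
  intro z hz
  change (z.re : ℂ) + z.im * (omC : ℂ) = 0 at hz
  have h1 := congrArg Complex.im hz
  rw [Col_omC] at h1
  have h2 : z.im = 0 := by simpa using h1
  rw [h2] at hz
  ext
  · simpa using hz
  · exact h2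

theorem Col_cancel {k : ℕ} {z : Eis ℤ} (h : 2 ^ k * z = 0) : z = 0 := by
  have h1 := congrArg Col_phi h
  rw [map_mul, map_pow, map_ofNat, map_zero] at h1
  exact Col_phi_inj (by simpa using h1)

/-- Reduction modulo eight as a ring homomorphism. -/
def Col_red : Eis ℤ →+* Eis (ZMod 8) where
  toFun := red8
  map_one' := by ext <;> simp [red8]
  map_mul' z w := by ext <;> simp [red8]
  map_zero' := by ext <;> simp [red8]
  map_add' z w := by ext <;> simp [red8]

theorem Col_red_eq (z : Eis ℤ) : red8 z = Col_red z := rfl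

theorem Col_red_star (z : Eis ℤ) : star (Col_red z) = Col_red (star z) := by
  ext <;> simp [Col_red, red8]

theorem Col_red_om (n : ℤ) :
    Col_red (om ℤ ^ n : (Eis ℤ)ˣ) = (om (ZMod 8) ^ n : (Eis (ZMod 8))ˣ) := by
  have h : Units.map (Col_red : Eis ℤ →* Eis (ZMod 8)) (om ℤ) = om (ZMod 8) := by
    ext <;> simp [Col_red, red8, om]
  rw [← h, ← map_zpow]
  rfl

theorem Col_star_om (n : ℤ) :
    star ((om ℤ ^ n : (Eis ℤ)ˣ) : Eis ℤ) = (om ℤ ^ (-n) : (Eis ℤ)ˣ) := by
  have h : Units.map (starRingEnd (Eis ℤ) : Eis ℤ →* Eis ℤ) (om ℤ) = (om ℤ)⁻¹ := by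
    ext <;> simp [om, starRingEnd_apply]
  rw [zpow_neg, ← inv_zpow, ← h, ← map_zpow]
  rfl

theorem Col_unit {z : Eis ℤ} (h : Odd z.re ∨ Odd z.im) : IsUnit (Col_red z) := by
  rw [isUnit_iff_norm_isUnit]
  have h1 : Odd (z.re * z.re + z.re * z.im + z.im * z.im) := by
    simp only [Int.odd_add, Int.odd_mul, Int.even_mul, ← Int.not_odd_iff_even] at h ⊢
    tauto
  have h2 : (Col_red z).norm = ((z.re * z.re + z.re * z.im + z.im * z.im : ℤ) : ZMod 8) := by
    simp [norm_def, Col_red, red8]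
  rw [h2, ZMod.coe_int_isUnit_iff_isCoprime]
  exact (Int.isCoprime_two_left.2 h1).pow_left (m := 3)

theorem Col_two (n : ℕ) : ∀ a b : Eis ℤ,
    a.re.natAbs + a.im.natAbs + b.re.natAbs + b.im.natAbs = n → ¬ (a = 0 ∧ b = 0) →
    ∃ (k : ℕ) (a' b' : Eis ℤ), a = 2 ^ k * a' ∧ b = 2 ^ k * b' ∧
      (IsUnit (Col_red a') ∨ IsUnit (Col_red b')) := by
  induction n using Nat.strong_induction_on with
  | _ n ih =>
    intro a b hn h0
    by_cases ha : Odd a.re ∨ Odd a.im
    · exact ⟨0, a, b, by simp, by simp, Or.inl (Col_unit ha)⟩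
    by_cases hb : Odd b.re ∨ Odd b.im
    · exact ⟨0, a, b, by simp, by simp, Or.inr (Col_unit hb)⟩
    simp only [not_or, Int.not_odd_iff_even] at ha hb
    obtain ⟨⟨x, hx⟩, y, hy⟩ := ha
    obtain ⟨⟨z, hz⟩, w, hw⟩ := hb
    have e1 : a = 2 * ⟨x, y⟩ := by
      rw [two_mul]
      ext
      · exact hx
      · exact hy
    have e2 : b = 2 * ⟨z, w⟩ := by
      rw [two_mul]
      ext
      · exact hz
      · exact hw
    have h1 : ¬ ((⟨x, y⟩ : Eis ℤ) = 0 ∧ (⟨z, w⟩ : Eis ℤ) = 0) := fun h =>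
      h0 ⟨by rw [e1, h.1, mul_zero], by rw [e2, h.2, mul_zero]⟩
    have h2 : x.natAbs + y.natAbs + z.natAbs + w.natAbs < n := by
      have : ¬ (x = 0 ∧ y = 0 ∧ z = 0 ∧ w = 0) := by
        rintro ⟨rfl, rfl, rfl, rfl⟩
        exact h1 ⟨rfl, rfl⟩
      omega
    obtain ⟨k, a', b', h3, h4, h5⟩ := ih _ h2 ⟨x, y⟩ ⟨z, w⟩ rfl h1
    exact ⟨k + 1, a', b', by rw [e1, h3]; ring, by rw [e2, h4]; ring, h5⟩

theorem Col_mu {R : Type} [CommRing R] {a b a' b' : R} (hu : IsUnit a ∨ IsUnit b)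
    (h : a' * b = b' * a) : ∃ μ, a' = μ * a ∧ b' = μ * b := by
  rcases hu with hu | hu
  · obtain ⟨i, hi⟩ := hu.exists_right_inv
    exact ⟨a' * i, by linear_combination (-a') * hi, by linear_combination (-b') * hi - i * h⟩
  · obtain ⟨i, hi⟩ := hu.exists_right_inv
    exact ⟨b' * i, by linear_combination (-a') * hi + i * h, by linear_combination (-b') * hi⟩

/-! ### The Dehn complex of the infinite cyclic cover -/

variable {G Reg Cr : Type} [Group G] {t : G} {lg : G → ℤ}

/-- The logarithm. -/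
structure Col_Lg (t : G) (lg : G → ℤ) : Prop where
  h1 : ∀ g, t ^ lg g = g
  h2 : ∀ n : ℤ, t ^ n = 1 → n = 0

theorem Col_Lg.pow (L : Col_Lg t lg) (n : ℤ) : lg (t ^ n) = n := by
  have := L.h2 (lg (t ^ n) - n) (by rw [zpow_sub, L.h1, mul_inv_cancel])
  omega

theorem Col_Lg.mul (L : Col_Lg t lg) (g g' : G) : lg (g * g') = lg g + lg g' := by
  have : g * g' = t ^ (lg g + lg g') := by rw [zpow_add, L.h1, L.h1]
  rw [this, L.pow]

theorem Col_Lg.inv (L : Col_Lg t lg) (g : G) : lg g⁻¹ = -lg g := by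
  have : g⁻¹ = t ^ (-lg g) := by rw [zpow_neg, L.h1]
  rw [this, L.pow]

theorem Col_Lg.ext (L : Col_Lg t lg) {g g' : G} (h : lg g = lg g') : g = g' := by
  rw [← L.h1 g, h, L.h1]

theorem Col_lc_d2 (S : Type) [CommRing S] {M : Type} [AddCommGroup M] [Module S M]
    (reg : Cr → Fin 4 → Reg) (h : Reg → G) (w : Reg × G → M) (x : Cr × G) (a : S) :
    linearCombination S w (d2A S reg h (single x a)) =
      a • (w (reg x.1 0, x.2) - w (reg x.1 1, x.2) +
        w (reg x.1 2, x.2 * (h (reg x.1 1) * (h (reg x.1 2))⁻¹)) -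
        w (reg x.1 3, x.2 * (h (reg x.1 1) * (h (reg x.1 2))⁻¹))) := by
  simp only [d2A, linearCombination_single, map_smul, map_sub, map_add, one_smul]

theorem Col_d1_d2 (S : Type) [CommRing S] {reg : Cr → Fin 4 → Reg} {h : Reg → G}
    (hol : ∀ c, h (reg c 0) = h (reg c 1) * (h (reg c 2))⁻¹ * h (reg c 3))
    (y : (Cr × G) →₀ S) : d1A S h (d2A S reg h y) = 0 := by
  induction y using induction_linear with
  | zero => simp
  | add a b ha hb => simp only [map_add, ha, hb, add_zero]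
  | single z a =>
    rw [d1A, Col_lc_d2]
    simp only [hol z.1, mul_assoc, inv_mul_cancel, mul_one]
    rw [smul_eq_zero_of_right]
    abel

/-- The values of a colouring on the generators. -/
def Col_w (lg : G → ℤ) (c : Reg → Eis ℤ) (x : Reg × G) : Eis ℤ :=
  (om ℤ ^ lg x.2 : (Eis ℤ)ˣ) * c x.1

theorem Col_colE (c : Reg → Eis ℤ) : colE lg c = linearCombination ℤ (Col_w lg c) := rfl

theorem Col_w_d2 (L : Col_Lg t lg) (reg : Cr → Fin 4 → Reg) (gap : Reg → ℤ) (c : Reg → Eis ℤ)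
    (x : Cr) (g : G) :
    Col_w lg c (reg x 0, g) - Col_w lg c (reg x 1, g) +
      Col_w lg c (reg x 2, g * (t ^ gap (reg x 1) * (t ^ gap (reg x 2))⁻¹)) -
      Col_w lg c (reg x 3, g * (t ^ gap (reg x 1) * (t ^ gap (reg x 2))⁻¹)) =
    (om ℤ ^ lg g : (Eis ℤ)ˣ) * (c (reg x 0) - c (reg x 1) +
      (om ℤ ^ (gap (reg x 1) - gap (reg x 2)) : (Eis ℤ)ˣ) * (c (reg x 2) - c (reg x 3))) := by
  simp only [Col_w]
  rw [← zpow_sub, L.mul, L.pow, zpow_add, Units.val_mul]
  ring

theorem Col_isCol (L : Col_Lg t lg) {reg : Cr → Fin 4 → Reg} {gap : Reg → ℤ} {c : Reg → Eis ℤ}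
    (h : ∀ y, colE lg c (d2A ℤ reg (fun r => t ^ gap r) y) = 0) : IsCol reg gap c := by
  intro x
  have := h (single (x, 1) 1)
  rw [Col_colE, Col_lc_d2, one_smul, Col_w_d2 L] at this
  exact (Units.mul_right_eq_zero _).1 this

theorem Col_lin (a b : Eis ℤ) (c c' : Reg → Eis ℤ) (x : (Reg × G) →₀ ℤ) :
    colE lg (fun r => a * c r + b * c' r) x = a * colE lg c x + b * colE lg c' x := by
  induction x using induction_linear with
  | zero => simp
  | add u v hu hv =>
    simp only [map_add, hu, hv]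
    ring
  | single z n =>
    simp only [colE, linearCombination_single, zsmul_eq_mul]
    ring

theorem Col_norm (L : Col_Lg t lg) (gap : Reg → ℤ) (c : Reg → Eis ℤ) (u v : Eis ℤ)
    (x : (Reg × G) →₀ ℤ) :
    colE lg (fun r => c r - u - v * (om ℤ ^ gap r : (Eis ℤ)ˣ)) x = colE lg c x -
      linearCombination ℤ (fun z : Bool × G => (om ℤ ^ lg z.2 : (Eis ℤ)ˣ) * cond z.1 v (-u))
        (d1A ℤ (fun r => t ^ gap r) x) := by
  induction x using induction_linear with
  | zero => simp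
  | add u v hu hv =>
    simp only [map_add, hu, hv]
    ring
  | single z n =>
    simp only [colE, d1A, linearCombination_single, map_smul, map_sub, one_smul, cond, L.mul,
      L.pow, zpow_add, Units.val_mul]
    simp only [zsmul_eq_mul]
    ring

theorem Col_J_d1 (L : Col_Lg t lg) {gap : Reg → ℤ} {ρ : Reg → Reg} {k : ℤ}
    (hk : ∀ r, gap (ρ r) = k - gap r) (a₀ : G) (x : (Reg × G) →₀ ℤ) :
    d1A ℤ (fun r => t ^ gap r) (x.mapDomain fun z => (ρ z.1, z.2⁻¹ * a₀)) =
      (d1A ℤ (fun r => t ^ gap r) x).mapDomain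
        fun z => (z.1, z.2⁻¹ * a₀ * cond z.1 (t ^ k) 1) := by
  induction x using induction_linear with
  | zero => simp
  | add u v hu hv => simp only [map_add, mapDomain_add, hu, hv]
  | single z n =>
    have e : z.2⁻¹ * a₀ * t ^ gap (ρ z.1) = (z.2 * t ^ gap z.1)⁻¹ * a₀ * t ^ k := by
      apply L.ext
      simp only [L.mul, L.inv, L.pow, hk]
      ring
    simp only [d1A, mapDomain_single, linearCombination_single, e, mapDomain_smul, mapDomain_sub,
      cond, mul_one]

theorem Col_J_col (L : Col_Lg t lg) (ρ : Reg → Reg) (a₀ : G) (c : Reg → Eis ℤ)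
    (x : (Reg × G) →₀ ℤ) :
    colE lg (fun r => star (c (ρ r))) x = (om ℤ ^ lg a₀ : (Eis ℤ)ˣ) *
      star (colE lg c (x.mapDomain fun z => (ρ z.1, z.2⁻¹ * a₀))) := by
  induction x using induction_linear with
  | zero => simp
  | add u v hu hv => simp only [map_add, mapDomain_add, hu, hv, star_add, mul_add]
  | single z n =>
    simp only [colE, mapDomain_single, linearCombination_single, zsmul_eq_mul, star_mul',
      star_intCast, Col_star_om, L.mul, L.inv]
    have : ((om ℤ ^ lg z.2 : (Eis ℤ)ˣ) : Eis ℤ) =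
        (om ℤ ^ lg a₀ : (Eis ℤ)ˣ) * (om ℤ ^ (-(-lg z.2 + lg a₀)) : (Eis ℤ)ˣ) := by
      rw [← Units.val_mul, ← zpow_add]
      congr 2
      ring
    rw [this]
    ring

end

end Pool.Agent.MP_bc14e1_gt
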