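import Pool.Agent.MP_bc14e1_gt.If

/-! Chains that are small for an open cover. -/

open Set Metric
open scoped Classical

namespace Pool.Agent.MP_bc14e1_gt

variable {S : Type} [CommRing S] {Y : Type} [TopologicalSpace Y] {M N : Type} [AddCommGroup M]
  [Module S M] [AddCommGroup N] [Module S N]

theorem Dehn_val0_dT (f : Y → M) {k : ℕ} (hk : k ≠ 1) {c : Tot S Y} (h : c ∈ DG S Y k) :
    val0 S f (dT S Y c) = 0 := by
  rcases k with _ | k
  · rw [dT_of_DG_zero h, map_zero]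
  · exact val0_of_DG f (fun e => hk (by rw [e])) (dT_mem_DG h)

theorem Dehn_val0_pth (f : Y → M) (γ : C(unitInterval, Y)) :
    val0 S f (dT S Y (pth S γ)) = f (γ 1) - f (γ 0) := by
  rw [dT_pth, map_sub, val0_pt, val0_pt]

theorem Dehn_ind {A : Set Y} {W : Submodule S M} (F : Tot S Y →ₗ[S] M)
    (h0 : ∀ k, k ≠ 1 → ∀ c ∈ DG S Y k, F c = 0)
    (h1 : ∀ γ : C(unitInterval, Y), (∀ t, γ t ∈ A) → F (pth S γ) ∈ W) {c : Tot S Y}
    (hc : c ∈ CH S A) : F c ∈ W := by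
  refine map_CH F (fun k σ hσ => ?_) hc
  by_cases hk : k = 1
  · subst hk
    have := h1 (σ.comp (stdSimplexHomeomorphUnitInterval.symm : C(unitInterval, Sx 1)))
      fun t => hσ _
    rwa [pth, ContinuousMap.comp_assoc, Homeomorph.symm_comp_toContinuousMap,
      ContinuousMap.comp_id] at this
  · rw [h0 k hk _ (single_mem_DG ⟨k, σ⟩ 1)]
    exact zero_mem _

theorem Dehn_joined {A : Set Y} (γ : C(unitInterval, Y)) (h : ∀ t, γ t ∈ A) :
    JoinedIn A (γ 0) (γ 1) := ⟨⟨γ, rfl, rfl⟩, h⟩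

theorem Dehn_val0_mem {A : Set Y} {W : Submodule S M} {f : Y → M}
    (h : ∀ x y, JoinedIn A x y → f x - f y ∈ W) {c : Tot S Y} (hc : c ∈ CH S A) :
    val0 S f (dT S Y c) ∈ W :=
  Dehn_ind (val0 S f ∘ₗ dT S Y) (fun _ hk _ => Dehn_val0_dT f hk) (fun γ hγ => by
    rw [LinearMap.comp_apply, Dehn_val0_pth]
    exact h _ _ (Dehn_joined γ hγ).symm) hc

theorem Dehn_val0_eq {A : Set Y} {f : Y → M} (h : ∀ x y, JoinedIn A x y → f x = f y)
    {c : Tot S Y} (hc : c ∈ CH S A) : val0 S f (dT S Y c) = 0 :=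
  (Submodule.mem_bot S).1 (Dehn_val0_mem (fun x y e => by rw [h x y e, sub_self]; rfl) hc)

theorem Dehn_val0_add (f g : Y → M) (c : Tot S Y) :
    val0 S (fun y => f y + g y) c = val0 S f c + val0 S g c := by
  induction c using Finsupp.induction_linear with
  | zero => simp
  | add a b ha hb => simp only [map_add, ha, hb]; abel
  | single σ a => simp only [val0, Finsupp.linearCombination_single]; split_ifs <;> simp

theorem Dehn_val0_sub (f g : Y → M) (c : Tot S Y) :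
    val0 S (fun y => f y - g y) c = val0 S f c - val0 S g c := by
  rw [eq_sub_iff_add_eq, ← Dehn_val0_add]
  simp only [sub_add_cancel]

theorem Dehn_val0_map (L : M →ₗ[S] N) (f : Y → M) (c : Tot S Y) :
    L (val0 S f c) = val0 S (fun y => L (f y)) c := by
  induction c using Finsupp.induction_linear with
  | zero => simp
  | add a b ha hb => simp only [map_add, ha, hb]
  | single σ a => simp only [val0, Finsupp.linearCombination_single]; split_ifs <;> simp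

theorem Dehn_val0_congr {A : Set Y} {f g : Y → M} (h : ∀ y ∈ A, f y = g y) {c : Tot S Y}
    (hc : c ∈ CH S A) : val0 S f c = val0 S g c := by
  refine sub_eq_zero.1 ((Submodule.mem_bot S).1
    (map_CH (val0 S f - val0 S g) (fun k σ hσ => ?_) hc))
  simp [val0, h _ (hσ _)]

variable {ι : Type} {A : ι → Set Y}

theorem Dehn_small (hA : ∀ i, IsOpen (A i)) {c : Tot S Y} (h : c ∈ CH S (⋃ i, A i))
    (hd : dT S Y c ∈ ⨆ i, CH S (A i)) : ∃ c' ∈ ⨆ i, CH S (A i), dT S Y c' = dT S Y c := by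
  obtain ⟨m, hm⟩ := sdT_small hA h
  have h1 : (⨆ i, CH S (A i)) ≤ (⨆ i, CH S (A i)).comap (sdHP S Y m) :=
    iSup_le fun i _ hc => Submodule.mem_iSup_of_mem i (sdHP_mem_CH m hc)
  refine ⟨_, add_mem (hm m le_rfl) (h1 hd), ?_⟩
  have h2 := congrArg (dT S Y) (dT_sdHP m c)
  rw [map_add, dT_dT, zero_add, map_sub] at h2
  rw [map_add, h2, add_sub_cancel]

theorem Dehn_glue {W : Submodule S N} (F : ι → Tot S Y →ₗ[S] N)
    (h : ∀ i j, ∀ c ∈ CH S (A i ∩ A j), F i c - F j c ∈ W) :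
    ∃ Th : Tot S Y →ₗ[S] N, ∀ i, ∀ c ∈ CH S (A i), Th c - F i c ∈ W := by
  refine ⟨Finsupp.linearCombination S fun σ : TS Y =>
    if e : ∃ j, ∀ t, σ.2 t ∈ A j then F e.choose (Finsupp.single σ 1) else 0, fun i c hc => ?_⟩
  refine map_CH (_ - F i) (fun k σ hσ => ?_) hc
  have e : ∃ j, ∀ t, σ t ∈ A j := ⟨i, hσ⟩
  rw [LinearMap.sub_apply, Finsupp.linearCombination_single, one_smul, dif_pos e]
  exact h _ _ _ (single_mem_CH _ fun t => ⟨e.choose_spec t, hσ t⟩)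

omit [TopologicalSpace Y] in
theorem Dehn_home (F : ι → Y → M) (h : ∀ i j y, y ∈ A i → y ∈ A j → F i y = F j y) :
    ∃ Ψ : Y → M, ∀ i, ∀ y ∈ A i, Ψ y = F i y :=
  ⟨fun y => if e : ∃ j, y ∈ A j then F e.choose y else 0, fun i y hy => by
    have e : ∃ j, y ∈ A j := ⟨i, hy⟩
    exact (dif_pos e).trans (h _ _ y e.choose_spec hy)⟩

/-- The comparison map from small chains. -/
theorem Dehn_cech (hA : ∀ i, IsOpen (A i)) (W : Submodule S N) (φ : ι → Y → N)
    (hφ : ∀ i j x y, JoinedIn (A i ∩ A j) x y → φ i x - φ j x - (φ i y - φ j y) ∈ W) :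
    ∃ Th : Tot S Y →ₗ[S] N, (∀ i, ∀ c ∈ CH S (A i), Th c - val0 S (φ i) (dT S Y c) ∈ W) ∧
      (∀ w ∈ CH S (⋃ i, A i), dT S Y w ∈ ⨆ i, CH S (A i) → Th (dT S Y w) ∈ W) ∧
      ∀ (M : Type) [AddCommGroup M] [Module S M] (L : N →ₗ[S] M) (F : ι → Y → M)
        (P : Tot S Y →ₗ[S] M), W ≤ LinearMap.ker L →
        (∀ i j y, y ∈ A i → y ∈ A j → F i y - L (φ i y) = F j y - L (φ j y)) →
        (∀ i, ∀ c ∈ CH S (A i), val0 S (F i) (dT S Y c) = P c) →
        ∀ z ∈ ⨆ i, CH S (A i), dT S Y z = 0 → L (Th z) = P z := by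
  obtain ⟨Th, h1⟩ := Dehn_glue (W := W) (fun i => val0 S (φ i) ∘ₗ dT S Y) fun i j c hc => by
    rw [LinearMap.comp_apply, LinearMap.comp_apply, ← Dehn_val0_sub]
    exact Dehn_val0_mem (hφ i j) hc
  refine ⟨Th, h1, fun w hw hd => ?_, fun M _ _ L F P hL hF hP z hz hd => ?_⟩
  · obtain ⟨w', h2, h3⟩ := Dehn_small hA hw hd
    have h4 : (⨆ i, CH S (A i)) ≤ W.comap (Th ∘ₗ dT S Y) := iSup_le fun i c hc => by
      have := h1 i _ (dT_mem_CH hc)
      rwa [LinearMap.comp_apply, dT_dT, map_zero, sub_zero] at this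
    exact h3 ▸ h4 h2
  · obtain ⟨Ψ, hΨ⟩ := Dehn_home (fun i y => F i y - L (φ i y)) hF
    have h4 : (⨆ i, CH S (A i)) ≤ LinearMap.ker (L ∘ₗ Th + val0 S Ψ ∘ₗ dT S Y - P) :=
      iSup_le fun i c hc => by
        have h5 : L (Th c - val0 S (φ i) (dT S Y c)) = 0 := hL (h1 i c hc)
        rw [map_sub, sub_eq_zero] at h5
        change L (Th c) + val0 S Ψ (dT S Y c) - P c = 0
        rw [h5, Dehn_val0_congr (hΨ i) (dT_mem_CH hc), Dehn_val0_sub, Dehn_val0_map, hP i c hc,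
          add_sub_cancel, sub_self]
    have h5 : L (Th z) + val0 S Ψ (dT S Y z) - P z = 0 := h4 hz
    rwa [hd, map_zero, add_zero, sub_eq_zero] at h5

/-- Functions that are constant along paths in the sets of an open cover. -/
theorem Dehn_const (hA : ∀ i, IsOpen (A i)) {W : Submodule S M} (F : ι → Y → M)
    (h : ∀ i j y, y ∈ A i → y ∈ A j → F i y - F j y ∈ W)
    (h' : ∀ i x y, JoinedIn (A i) x y → F i x = F i y) {i j : ι} {x y : Y} (hx : x ∈ A i)
    (hy : y ∈ A j) (e : JoinedIn (⋃ i, A i) x y) : F j y - F i x ∈ W := by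
  obtain ⟨Ψ, hΨ⟩ := Dehn_home (fun i y => W.mkQ (F i y)) fun i j y hi hj =>
    (Submodule.Quotient.eq W).2 (h i j y hi hj)
  obtain ⟨γ, hγ⟩ := e
  have h1 : dT S Y (pth S γ.toContinuousMap) = pt S y - pt S x := by
    rw [dT_pth]
    exact congrArg₂ (fun a b => pt S a - pt S b) γ.target γ.source
  obtain ⟨c, h2, h3⟩ := Dehn_small hA (pth_mem_CH (R := S) (γ := γ.toContinuousMap) hγ) (by
    rw [h1]
    exact sub_mem (Submodule.mem_iSup_of_mem j (pt_mem_CH hy))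
      (Submodule.mem_iSup_of_mem i (pt_mem_CH hx)))
  have h4 : (⨆ i, CH S (A i)) ≤ LinearMap.ker (val0 S Ψ ∘ₗ dT S Y) := iSup_le fun i c hc =>
    Dehn_val0_eq (fun x y e => by rw [hΨ i x e.source_mem, hΨ i y e.target_mem, h' i x y e]) hc
  have h5 : val0 S Ψ (dT S Y c) = 0 := h4 h2
  rw [h3, h1, map_sub, val0_pt, val0_pt, hΨ j y hy, hΨ i x hx, sub_eq_zero] at h5
  exact (Submodule.Quotient.eq W).1 h5

theorem Dehn_side {P Q : Set Y} (hP : IsOpen P) (hQ : IsOpen Q) (hd : Disjoint P Q) {x y : Y}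
    (e : JoinedIn (P ∪ Q) x y) (hx : x ∈ P) : y ∈ P := by
  obtain ⟨γ, hγ⟩ := e
  exact (isPreconnected_range γ.continuous).subset_left_of_subset_union hP hQ hd
    (range_subset_iff.2 hγ) ⟨x, γ.source_mem_range, hx⟩ γ.target_mem_range

theorem Dehn_ctr_pc {P : Set Y} {x : Y} (h : Ctr P x) : IsPathConnected P := by
  obtain ⟨hx, H, h1, h2, h3, h4⟩ := h
  refine ⟨x, hx, fun y hy => JoinedIn.symm ?_⟩
  refine JoinedIn.ofLine (f := fun t => H (t, y))
    (h1.comp (by fun_prop) fun t ht => ⟨ht, hy⟩) (h3 y hy) (h4 y hy) ?_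
  rintro _ ⟨t, ht, rfl⟩
  exact h2 ⟨ht, hy⟩

end Pool.Agent.MP_bc14e1_gt
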