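import Pool.Agent.MP_bc14e1_gt.P.DehnA

/-! Sheets of a regular cover over the sets of a diagram. -/

open Set Metric Topology
open scoped Classical

namespace Pool.Agent.MP_bc14e1_gt

variable {G X Y : Type} [Group G] [TopologicalSpace X] [TopologicalSpace Y] [MulAction G Y]
  [ContinuousConstSMul G Y] {Z A : Set X} {p : Y → X} {σ : X → Y} {l : Y → G}

/-- A section over `A` with the labels of the sheets. -/
structure Dehn_Sec (p : Y → X) (A : Set X) (σ : X → Y) (l : Y → G) : Prop where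
  cont : ContinuousOn σ A
  sec : ∀ x ∈ A, p (σ x) = x
  lab : ∀ y, p y ∈ A → ∀ g, l y = g ↔ g • σ (p y) = y

omit [ContinuousConstSMul G Y] in
theorem Dehn_exists_lab (hc : GCov G Z p) (h1 : ContinuousOn σ A) (h2 : ∀ x ∈ A, p (σ x) = x) :
    ∃ l : Y → G, Dehn_Sec p A σ l := by
  have h : ∀ y, ∃ g : G, p y ∈ A → g • σ (p y) = y := fun y => by
    by_cases hy : p y ∈ A
    · obtain ⟨g, hg⟩ := hc.trans _ y (h2 _ hy)
      exact ⟨g, fun _ => hg.symm⟩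
    · exact ⟨1, fun e => absurd e hy⟩
  choose l hl using h
  refine ⟨l, h1, h2, fun y hy g => ⟨fun e => e ▸ hl y hy, fun e => ?_⟩⟩
  refine (inv_mul_eq_one.1 (hc.free _ (σ (p y)) ?_)).symm
  rw [mul_smul, hl y hy, inv_smul_eq_iff, e]

namespace Dehn_Sec

omit [ContinuousConstSMul G Y] in
theorem self (h : Dehn_Sec p A σ l) {y : Y} (hy : p y ∈ A) : l y • σ (p y) = y :=
  (h.lab y hy _).1 rfl

omit [ContinuousConstSMul G Y] in
theorem proj (h : Dehn_Sec p A σ l) (hc : GCov G Z p) (g : G) {x : X} (hx : x ∈ A) :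
    p (g • σ x) = x := (hc.inv _ _).trans (h.sec x hx)

omit [ContinuousConstSMul G Y] in
theorem base (h : Dehn_Sec p A σ l) (hc : GCov G Z p) (g : G) {x : X} (hx : x ∈ A) :
    l (g • σ x) = g := by
  have e := h.proj hc g hx
  exact (h.lab _ (e.symm ▸ hx) g).2 (by rw [e])

omit [ContinuousConstSMul G Y] in
theorem smul (h : Dehn_Sec p A σ l) (hc : GCov G Z p) (g : G) {y : Y} (hy : p y ∈ A) :
    l (g • y) = g * l y := by
  rw [← h.base hc (g * l y) hy, mul_smul, h.self hy]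

theorem join (h : Dehn_Sec p A σ l) (hc : GCov G Z p) {P : Set X} (hP : P ⊆ A)
    (hp : IsPathConnected P) {y : Y} (hy : p y ∈ P) {x : X} (hx : x ∈ P) :
    JoinedIn (p ⁻¹' P) y (l y • σ x) := by
  have h1 := (hp.joinedIn _ hy _ hx).map_continuousOn (f := fun x => l y • σ x)
    ((h.cont.mono hP).const_smul _)
  rw [h.self (hP hy)] at h1
  refine h1.mono ?_
  rintro _ ⟨z, hz, rfl⟩
  rwa [mem_preimage, h.proj hc _ (hP hz)]

theorem path (h : Dehn_Sec p A σ l) (hc : GCov G Z p) (γ : C(unitInterval, Y))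
    (hγ : ∀ t, p (γ t) ∈ A) (s t : unitInterval) : l (γ s) = l (γ t) := by
  refine IsLocallyConstant.apply_eq_of_preconnectedSpace (f := fun t => l (γ t))
    ((IsLocallyConstant.iff_eventually_eq _).2 fun t => ?_) s t
  obtain ⟨V, -, h1, -, τ, -, h2, h3⟩ := hc.sec _ (hc.mem (γ t))
  obtain ⟨g, hg⟩ := hc.trans (γ t) _ (h2 _ h1).symm
  have c1 : Continuous fun s => g • γ s := γ.continuous.const_smul g
  have c2 : Continuous fun s => g • l (γ t) • σ (p (γ s)) :=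
    ((h.cont.comp_continuous (hc.cont.comp γ.continuous) hγ).const_smul _).const_smul g
  have k : ∀ w ∈ τ '' V, τ (p w) = w := by
    rintro _ ⟨x, hx, rfl⟩
    rw [h2 x hx]
  filter_upwards [c1.continuousAt.eventually_mem (h3.mem_nhds ⟨_, h1, hg⟩),
    c2.continuousAt.eventually_mem (h3.mem_nhds ⟨_, h1, by rw [h.self (hγ t), hg]⟩)] with s e1 e2
  have e3 := k _ e1
  have e4 := k _ e2
  rw [hc.inv] at e3
  rw [hc.inv, h.proj hc _ (hγ s), e3] at e4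
  exact (h.lab _ (hγ s) _).2 (MulAction.injective g e4).symm

theorem lc (h : Dehn_Sec p A σ l) (hc : GCov G Z p) {P : Set X} (hP : P ⊆ A) {y y' : Y}
    (e : JoinedIn (p ⁻¹' P) y y') : l y = l y' := by
  obtain ⟨γ, hγ⟩ := e
  exact (congrArg l γ.source).symm.trans
    ((h.path hc γ.toContinuousMap (fun t => hP (hγ t)) 0 1).trans (congrArg l γ.target))

theorem ctr (h : Dehn_Sec p A σ l) (hc : GCov G Z p) {x : X} (hx : Ctr A x) (g : G) :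
    Ctr {y | p y ∈ A ∧ l y = g} (g • σ x) := by
  obtain ⟨h0, H, h1, h2, h3, h4⟩ := hx
  have k : ∀ z ∈ A, g • σ z ∈ {y | p y ∈ A ∧ l y = g} := fun z hz =>
    ⟨(h.proj hc g hz).symm ▸ hz, h.base hc g hz⟩
  refine ⟨k x h0, fun z => g • σ (H (z.1, p z.2)), ?_, fun z hz => k _ (h2 ⟨hz.1, hz.2.1⟩),
    fun y hy => ?_, fun y hy => by simp only [h4 _ hy.1]⟩
  · refine ContinuousOn.const_smul (h.cont.comp (h1.comp ?_ fun z hz => ⟨hz.1, hz.2.1⟩)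
      fun z hz => h2 ⟨hz.1, hz.2.1⟩) g
    exact (continuous_fst.prodMk (hc.cont.comp continuous_snd)).continuousOn
  · simp only [h3 _ hy.1]
    exact (h.lab y hy.1 g).1 hy.2

/-- Classes of the paths from the base points of the sheets. -/
theorem tail (h : Dehn_Sec p A σ l) (hC : CtrStmt) (hc : GCov G Z p) {x : X} (hx : Ctr A x)
    {S : Type} [CommRing S] (W : Submodule S (Tot S Y)) (hW : BC S (p ⁻¹' A) 1 ≤ W) :
    ∃ T : Y → Tot S Y ⧸ W, (∀ c ∈ CH S (p ⁻¹' A),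
      val0 S T (dT S Y c) = W.mkQ (deg S Y 1 c)) ∧ ∀ g : G, T (g • σ x) = 0 := by
  have h1 : ∀ y, ∃ t : Tot S Y, p y ∈ A → t ∈ CC S {z | p z ∈ A ∧ l z = l y} 1 ∧
      dT S Y t = pt S y - pt S (l y • σ x) := fun y => by
    by_cases hy : p y ∈ A
    · obtain ⟨t, h1, h2⟩ := (hC S Y _ _ (h.ctr hc hx (l y))).2 (pt S y)
        ⟨pt_mem_CH ⟨hy, rfl⟩, pt_mem_DG y⟩
      rw [val0_pt, one_smul] at h2
      exact ⟨t, fun _ => ⟨h1, h2⟩⟩
    · exact ⟨0, fun e => absurd e hy⟩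
  choose t ht using h1
  have h2 : ∀ g : G, ∀ z ∈ CC S {z | p z ∈ A ∧ l z = g} 1, dT S Y z = 0 → W.mkQ z = 0 :=
    fun g z hz hd => by
      obtain ⟨w, h2, h3⟩ := (hC S Y _ _ (h.ctr hc hx g)).1 1 one_ne_zero ⟨hz, hd⟩
      exact (Submodule.Quotient.mk_eq_zero W).2
        (hW ⟨w, ⟨CH_mono (fun _ e => e.1) h2.1, h2.2⟩, h3⟩)
  refine ⟨fun y => W.mkQ (t y), fun c hc' => ?_, fun g => ?_⟩
  · refine sub_eq_zero.1 ((Submodule.mem_bot S).1 (Dehn_ind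
      (val0 S (fun y => W.mkQ (t y)) ∘ₗ dT S Y - W.mkQ ∘ₗ deg S Y 1) (fun k hk c e => ?_)
      (fun γ hγ => ?_) hc'))
    · rw [LinearMap.sub_apply, LinearMap.comp_apply, LinearMap.comp_apply, Dehn_val0_dT _ hk e,
        deg_eq_zero hk.symm e, map_zero, sub_zero]
    · rw [LinearMap.sub_apply, LinearMap.comp_apply, LinearMap.comp_apply, Submodule.mem_bot]
      obtain ⟨a1, a2⟩ := ht _ (hγ 1)
      obtain ⟨b1, b2⟩ := ht _ (hγ 0)
      rw [h.path hc γ hγ 0 1] at b1 b2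
      rw [Dehn_val0_pth, deg_of_mem (pth_mem_DG γ), ← map_sub, ← map_sub]
      refine h2 _ _ (sub_mem (sub_mem a1 b1)
        ⟨pth_mem_CH fun s => ⟨hγ s, h.path hc γ hγ s 1⟩, pth_mem_DG γ⟩) ?_
      rw [map_sub, map_sub, a2, b2, dT_pth]
      abel
  · obtain ⟨a1, a2⟩ := ht (g • σ x) ((h.proj hc g hx.1).symm ▸ hx.1)
    refine h2 _ _ a1 ?_
    rw [a2, h.base hc g hx.1, sub_self]

end Dehn_Sec

variable {Reg Cr : Type} {O : Set X} {reg : Cr → Fin 4 → Reg} {D : DehnData O reg}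
  {σU σL : X → Y} {h : Reg → G}

theorem Dehn_Rg (D : DehnData O reg) (R : Reg) : D.Rg R ⊆ D.Up ∩ D.Lo :=
  D.unR ▸ subset_iUnion D.Rg R

theorem Dehn_U1 (D : DehnData O reg) (c : Cr) : D.U1 c ⊆ D.B c ∩ D.Up :=
  (D.un c).1 ▸ subset_union_left

theorem Dehn_U2 (D : DehnData O reg) (c : Cr) : D.U2 c ⊆ D.B c ∩ D.Up :=
  (D.un c).1 ▸ subset_union_right

theorem Dehn_L1 (D : DehnData O reg) (c : Cr) : D.L1 c ⊆ D.B c ∩ D.Lo :=
  (D.un c).2 ▸ subset_union_left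

theorem Dehn_L2 (D : DehnData O reg) (c : Cr) : D.L2 c ⊆ D.B c ∩ D.Lo :=
  (D.un c).2 ▸ subset_union_right

/-- The labels of all sheets. -/
structure Dehn_Lab (D : DehnData O reg) (p : Y → X) (σU σL : X → Y) (h : Reg → G) (u v : Y → G)
    (σ : Cr → X → Y) (l : Cr → Y → G) : Prop where
  sU : Dehn_Sec p D.Up σU u
  sL : Dehn_Sec p D.Lo σL v
  sB : ∀ c, Dehn_Sec p (D.B c) (σ c) (l c)
  vR : ∀ R y, p y ∈ D.Rg R → v y = u y * h R
  u1 : ∀ c y, p y ∈ D.U1 c → u y = l c y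
  u2 : ∀ c y, p y ∈ D.U2 c → u y = l c y * (h (reg c 1) * (h (reg c 2))⁻¹)
  hol : ∀ c, h (reg c 0) = h (reg c 1) * (h (reg c 2))⁻¹ * h (reg c 3)

/-- A function whose restriction to `p ⁻¹ P` is constant along paths only depends on the sheet. -/
theorem Dehn_Sec.two {M : Type} (h : Dehn_Sec p A σ l) (hc : GCov G Z p) {P Q : Set X}
    (hP : P ⊆ A ∩ Q) (hp : IsPathConnected P) {f : Y → M}
    (hf : ∀ y y', JoinedIn (p ⁻¹' (A ∩ Q)) y y' → f y = f y') {y : Y} (hy : p y ∈ P) {x : X}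
    (hx : x ∈ P) : f y = f (l y • σ x) :=
  hf _ _ ((h.join hc (fun _ e => (hP e).1) hp hy hx).mono (preimage_mono hP))

theorem Dehn_exists (hs : SecStmt) (hc : GCov G Z p) (hO : O ⊆ Z) (hS : DehnSec D p σU σL h) :
    ∃ u v σ l, Dehn_Lab D p σU σL h u v σ l := by
  obtain ⟨u, sU⟩ := Dehn_exists_lab hc hS.cU hS.pU
  obtain ⟨v, sL⟩ := Dehn_exists_lab hc hS.cL hS.pL
  have vR : ∀ R y, p y ∈ D.Rg R → v y = u y * h R := fun R y hy => by
    rw [sU.two hc (Dehn_Rg D R) (D.pcR R) (fun _ _ => sL.lc hc inter_subset_right) hy (D.rm R),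
      hS.hol, ← mul_smul, sL.base hc _ (Dehn_Rg D R (D.rm R)).2]
  choose q0 h0 using fun c => (D.ne c).1
  have k0 : ∀ c, p (σU (q0 c)) = q0 c := fun c => hS.pU _ (Dehn_U1 D c (h0 c).1).2
  have h1 : ∀ c, ∃ (σ : X → Y) (l : Y → G), Dehn_Sec p (D.B c) σ l ∧ σ (q0 c) = σU (q0 c) :=
    fun c => by
      obtain ⟨x, hx⟩ := D.ctB c
      obtain ⟨σ, a1, a2, a3, -⟩ := hs G X Y Z p hc (D.B c) x
        (fun z hz => hO (D.cover ▸ Or.inr (mem_iUnion.2 ⟨c, hz⟩))) hx (σU (q0 c))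
        ((k0 c).symm ▸ (Dehn_U1 D c (h0 c).1).1)
      obtain ⟨l, hl⟩ := Dehn_exists_lab hc a1 a2
      exact ⟨σ, l, hl, by rwa [k0] at a3⟩
  choose σ l sB e0 using h1
  have u1 : ∀ c y, p y ∈ D.U1 c → u y = l c y := fun c y hy => by
    rw [(sB c).two hc (Dehn_U1 D c) (D.pc c).1 (fun _ _ => sU.lc hc inter_subset_right) hy
      (h0 c).1, e0, sU.base hc _ (Dehn_U1 D c (h0 c).1).2]
  have v1 : ∀ c y k, ∀ P ⊆ D.B c ∩ D.Lo, IsPathConnected P → (D.U1 c ∩ P).Nonempty →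
      D.U1 c ∩ P ⊆ D.Rg (reg c k) → p y ∈ P → v y = l c y * h (reg c k) := by
    rintro c y k P hP hp ⟨x, hx⟩ hR hy
    have e := (sB c).proj hc (l c y) (hP hx.2).1
    rw [(sB c).two hc hP hp (fun _ _ => sL.lc hc inter_subset_right) hy hx.2,
      vR _ _ (e.symm ▸ hR hx), u1 c _ (e.symm ▸ hx.1), (sB c).base hc _ (hP hx.2).1]
  have u2 : ∀ c y, p y ∈ D.U2 c → u y = l c y * (h (reg c 1) * (h (reg c 2))⁻¹) := fun c y hy => by
    obtain ⟨x, hx⟩ := (D.ne c).2.2.1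
    have e := (sB c).proj hc (l c y) (Dehn_U2 D c hx.1).1
    have a1 := v1 c (l c y • σ c x) 1 _ (Dehn_L2 D c) (D.pc c).2.2.2 (D.ne c).2.1 (D.sub c).2.1
      (e.symm ▸ hx.2)
    rw [vR _ _ (e.symm ▸ (D.sub c).2.2.1 hx), (sB c).base hc _ (Dehn_U2 D c hx.1).1] at a1
    rw [(sB c).two hc (Dehn_U2 D c) (D.pc c).2.1 (fun _ _ => sU.lc hc inter_subset_right) hy hx.1,
      ← mul_assoc, ← a1, mul_inv_cancel_right]
  refine ⟨u, v, σ, l, sU, sL, sB, vR, u1, u2, fun c => ?_⟩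
  obtain ⟨x, hx⟩ := (D.ne c).2.2.2
  have e := (sB c).sec x (Dehn_U2 D c hx.1).1
  have a1 := v1 c (σ c x) 0 _ (Dehn_L1 D c) (D.pc c).2.2.1 (D.ne c).1 (D.sub c).1 (e.symm ▸ hx.2)
  rw [vR _ _ (e.symm ▸ (D.sub c).2.2.2 hx), u2 c _ (e.symm ▸ hx.1), mul_assoc] at a1
  exact (mul_left_cancel a1).symm

/-- The four quadrants at a crossing. -/
theorem Dehn_Lab.quad {u v : Y → G} {σ : Cr → X → Y} {l : Cr → Y → G}
    (H : Dehn_Lab D p σU σL h u v σ l) (hc : GCov G Z p) (c : Cr) {M : Type} [AddCommGroup M]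
    (fU fL : Y → M) (e : Reg × G → M) (hR : ∀ R y, p y ∈ D.Rg R → fU y - fL y = e (R, u y))
    (hU : ∀ y y', JoinedIn (p ⁻¹' (D.B c ∩ D.Up)) y y' → fU y = fU y')
    (hL : ∀ y y', JoinedIn (p ⁻¹' (D.B c ∩ D.Lo)) y y' → fL y = fL y')
    (h0 : ∀ y, p y ∈ D.U1 c → fU y = 0) :
    (∀ y, p y ∈ D.L1 c → fL y = -e (reg c 0, l c y)) ∧
    (∀ y, p y ∈ D.L2 c → fL y = -e (reg c 1, l c y)) ∧
    (∀ y, p y ∈ D.U2 c →
      fU y = e (reg c 2, l c y * (h (reg c 1) * (h (reg c 2))⁻¹)) - e (reg c 1, l c y)) ∧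
    ∀ g, e (reg c 0, g) - e (reg c 1, g) + e (reg c 2, g * (h (reg c 1) * (h (reg c 2))⁻¹)) -
      e (reg c 3, g * (h (reg c 1) * (h (reg c 2))⁻¹)) = 0 := by
  have sB := H.sB c
  have a1 : ∀ y k, ∀ P ⊆ D.B c ∩ D.Lo, IsPathConnected P → (D.U1 c ∩ P).Nonempty →
      D.U1 c ∩ P ⊆ D.Rg (reg c k) → p y ∈ P → fL y = -e (reg c k, l c y) := by
    rintro y k P hP hp ⟨x, hx⟩ hs hy
    have b := sB.proj hc (l c y) (hP hx.2).1
    have b1 := hR _ _ (b.symm ▸ hs hx)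
    rw [h0 _ (b.symm ▸ hx.1), H.u1 c _ (b.symm ▸ hx.1), sB.base hc _ (hP hx.2).1, zero_sub] at b1
    rw [sB.two hc hP hp hL hy hx.2, ← b1, neg_neg]
  have a2 := fun y => a1 y 0 _ (Dehn_L1 D c) (D.pc c).2.2.1 (D.ne c).1 (D.sub c).1
  have a3 := fun y => a1 y 1 _ (Dehn_L2 D c) (D.pc c).2.2.2 (D.ne c).2.1 (D.sub c).2.1
  have a4 : ∀ y, p y ∈ D.U2 c →
      fU y = e (reg c 2, l c y * (h (reg c 1) * (h (reg c 2))⁻¹)) - e (reg c 1, l c y) := by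
    intro y hy
    obtain ⟨x, hx⟩ := (D.ne c).2.2.1
    have b := sB.proj hc (l c y) (Dehn_U2 D c hx.1).1
    have b1 := hR _ _ (b.symm ▸ (D.sub c).2.2.1 hx)
    rw [a3 _ (b.symm ▸ hx.2), H.u2 c _ (b.symm ▸ hx.1), sB.base hc _ (Dehn_U2 D c hx.1).1] at b1
    rw [sB.two hc (Dehn_U2 D c) (D.pc c).2.1 hU hy hx.1, ← b1]
    abel
  refine ⟨a2, a3, a4, fun g => ?_⟩
  obtain ⟨x, hx⟩ := (D.ne c).2.2.2
  have b := sB.proj hc g (Dehn_U2 D c hx.1).1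
  have b1 := hR _ _ (b.symm ▸ (D.sub c).2.2.2 hx)
  rw [a2 _ (b.symm ▸ hx.2), a4 _ (b.symm ▸ hx.1), H.u2 c _ (b.symm ▸ hx.1),
    sB.base hc _ (Dehn_U2 D c hx.1).1] at b1
  rw [← b1]
  abel

end Pool.Agent.MP_bc14e1_gt
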