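import Pool.Agent.MP_bc14e1_gt.If

open Set Metric
open scoped Classical

namespace Pool.Agent.MP_bc14e1_gt

section Aux

variable {Z X : Type} [TopologicalSpace Z] [TopologicalSpace X] (e : OpenPartialHomeomorph Z X)

theorem DehnPush_ctr {A : Set Z} {x : Z} (hA : A ⊆ e.source) (h : Ctr A x) :
    Ctr (e '' A) (e x) := by
  obtain ⟨hx, H, hc, hm, h0, h1⟩ := h
  have hs : ∀ y ∈ e '' A, e.symm y ∈ A := by
    rintro _ ⟨a, ha, rfl⟩
    rwa [e.left_inv (hA ha)]
  have hm' : MapsTo (fun p : ℝ × X => (p.1, e.symm p.2)) (Icc 0 1 ×ˢ (e '' A)) (Icc 0 1 ×ˢ A) :=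
    fun p hp => ⟨hp.1, hs _ hp.2⟩
  refine ⟨mem_image_of_mem _ hx, fun p => e (H (p.1, e.symm p.2)), ?_, ?_, ?_, ?_⟩
  · refine e.continuousOn.comp (hc.comp ?_ hm') fun p hp => hA (hm (hm' hp))
    refine continuousOn_fst.prodMk (e.continuousOn_symm.comp continuousOn_snd ?_)
    rintro ⟨t, _⟩ ⟨_, a, ha, rfl⟩
    exact e.map_source (hA ha)
  · exact fun p hp => mem_image_of_mem _ (hm (hm' hp))
  · rintro _ ⟨a, ha, rfl⟩
    simp only [e.left_inv (hA ha), h0 a ha]
  · intro y hy
    simp only [h1 _ (hs y hy)]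

theorem DehnPush_dj {A B : Set Z} (hA : A ⊆ e.source) (hB : B ⊆ e.source) (h : Disjoint A B) :
    Disjoint (e '' A) (e '' B) :=
  (disjoint_image_image fun a ha b hb hab =>
    disjoint_left.1 h ha (by rwa [e.injOn (hA ha) (hB hb) hab]))

theorem DehnPush_inter {A B : Set Z} (hA : A ⊆ e.source) (hB : B ⊆ e.source) :
    e '' A ∩ e '' B = e '' (A ∩ B) :=
  (e.injOn.image_inter hA hB).symm

/-- The image of a path. -/
noncomputable def DehnPush_path (γ : C(unitInterval, Z)) (h : ∀ t, γ t ∈ e.source) : C(unitInterval, X) :=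
  ⟨fun t => e (γ t), e.continuousOn.comp_continuous γ.continuous h⟩

variable {O : Set Z} {Reg Cr : Type} {reg : Cr → Fin 4 → Reg}

theorem DehnPush_up (D : DehnData O reg) : D.Up ⊆ O :=
  (subset_union_left.trans subset_union_left).trans D.cover.subset

theorem DehnPush_lo (D : DehnData O reg) : D.Lo ⊆ O :=
  (subset_union_right.trans subset_union_left).trans D.cover.subset

theorem DehnPush_B (D : DehnData O reg) (c : Cr) : D.B c ⊆ O :=
  ((subset_iUnion D.B c).trans subset_union_right).trans D.cover.subset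

theorem DehnPush_rg (D : DehnData O reg) (R : Reg) : D.Rg R ⊆ O :=
  ((subset_iUnion D.Rg R).trans (D.unR.subset.trans inter_subset_left)).trans (DehnPush_up D)

theorem DehnPush_U1 (D : DehnData O reg) (c : Cr) : D.U1 c ⊆ O :=
  (subset_union_left.trans ((D.un c).1.subset.trans inter_subset_left)).trans (DehnPush_B D c)

theorem DehnPush_U2 (D : DehnData O reg) (c : Cr) : D.U2 c ⊆ O :=
  (subset_union_right.trans ((D.un c).1.subset.trans inter_subset_left)).trans (DehnPush_B D c)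

theorem DehnPush_L1 (D : DehnData O reg) (c : Cr) : D.L1 c ⊆ O :=
  (subset_union_left.trans ((D.un c).2.subset.trans inter_subset_left)).trans (DehnPush_B D c)

theorem DehnPush_L2 (D : DehnData O reg) (c : Cr) : D.L2 c ⊆ O :=
  (subset_union_right.trans ((D.un c).2.subset.trans inter_subset_left)).trans (DehnPush_B D c)

/-- The image of the diagram under an open embedding. -/
noncomputable def DehnPush_data (D : DehnData O reg) (hO : O ⊆ e.source) : DehnData (e '' O) reg where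
  Up := e '' D.Up
  Lo := e '' D.Lo
  n := e D.n
  s := e D.s
  Rg R := e '' D.Rg R
  B c := e '' D.B c
  U1 c := e '' D.U1 c
  U2 c := e '' D.U2 c
  L1 c := e '' D.L1 c
  L2 c := e '' D.L2 c
  r R := e (D.r R)
  a R := DehnPush_path e (D.a R) fun t => hO (DehnPush_up D (D.am R t))
  b R := DehnPush_path e (D.b R) fun t => hO (DehnPush_lo D (D.bm R t))
  opU := e.isOpen_image_of_subset_source D.opU ((DehnPush_up D).trans hO)
  opL := e.isOpen_image_of_subset_source D.opL ((DehnPush_lo D).trans hO)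
  ctU := DehnPush_ctr e ((DehnPush_up D).trans hO) D.ctU
  ctL := DehnPush_ctr e ((DehnPush_lo D).trans hO) D.ctL
  opR R := e.isOpen_image_of_subset_source (D.opR R) ((DehnPush_rg D R).trans hO)
  pcR R := (D.pcR R).image' (e.continuousOn.mono ((DehnPush_rg D R).trans hO))
  djR R R' h := DehnPush_dj e ((DehnPush_rg D R).trans hO) ((DehnPush_rg D R').trans hO) (D.djR h)
  unR := by
    rw [← image_iUnion, D.unR,
      DehnPush_inter e ((DehnPush_up D).trans hO) ((DehnPush_lo D).trans hO)]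
  opB c := e.isOpen_image_of_subset_source (D.opB c) ((DehnPush_B D c).trans hO)
  ctB c := let ⟨x, hx⟩ := D.ctB c; ⟨e x, DehnPush_ctr e ((DehnPush_B D c).trans hO) hx⟩
  djB c c' h := DehnPush_dj e ((DehnPush_B D c).trans hO) ((DehnPush_B D c').trans hO) (D.djB h)
  cover := by rw [← image_iUnion, ← image_union, ← image_union, D.cover]
  op c := ⟨e.isOpen_image_of_subset_source (D.op c).1 ((DehnPush_U1 D c).trans hO),
    e.isOpen_image_of_subset_source (D.op c).2.1 ((DehnPush_U2 D c).trans hO),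
    e.isOpen_image_of_subset_source (D.op c).2.2.1 ((DehnPush_L1 D c).trans hO),
    e.isOpen_image_of_subset_source (D.op c).2.2.2 ((DehnPush_L2 D c).trans hO)⟩
  pc c := ⟨(D.pc c).1.image' (e.continuousOn.mono ((DehnPush_U1 D c).trans hO)),
    (D.pc c).2.1.image' (e.continuousOn.mono ((DehnPush_U2 D c).trans hO)),
    (D.pc c).2.2.1.image' (e.continuousOn.mono ((DehnPush_L1 D c).trans hO)),
    (D.pc c).2.2.2.image' (e.continuousOn.mono ((DehnPush_L2 D c).trans hO))⟩
  dj c := ⟨DehnPush_dj e ((DehnPush_U1 D c).trans hO) ((DehnPush_U2 D c).trans hO) (D.dj c).1,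
    DehnPush_dj e ((DehnPush_L1 D c).trans hO) ((DehnPush_L2 D c).trans hO) (D.dj c).2⟩
  un c := by
    rw [← image_union, ← image_union, (D.un c).1, (D.un c).2,
      DehnPush_inter e ((DehnPush_B D c).trans hO) ((DehnPush_up D).trans hO),
      DehnPush_inter e ((DehnPush_B D c).trans hO) ((DehnPush_lo D).trans hO)]
    exact ⟨rfl, rfl⟩
  ne c := ⟨((D.ne c).1.image e).mono (image_inter_subset _ _ _),
    ((D.ne c).2.1.image e).mono (image_inter_subset _ _ _),
    ((D.ne c).2.2.1.image e).mono (image_inter_subset _ _ _),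
    ((D.ne c).2.2.2.image e).mono (image_inter_subset _ _ _)⟩
  sub c := by
    rw [DehnPush_inter e ((DehnPush_U1 D c).trans hO) ((DehnPush_L1 D c).trans hO),
      DehnPush_inter e ((DehnPush_U1 D c).trans hO) ((DehnPush_L2 D c).trans hO),
      DehnPush_inter e ((DehnPush_U2 D c).trans hO) ((DehnPush_L2 D c).trans hO),
      DehnPush_inter e ((DehnPush_U2 D c).trans hO) ((DehnPush_L1 D c).trans hO)]
    exact ⟨image_mono (D.sub c).1, image_mono (D.sub c).2.1, image_mono (D.sub c).2.2.1,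
      image_mono (D.sub c).2.2.2⟩
  rm R := mem_image_of_mem _ (D.rm R)
  a0 R := congrArg e (D.a0 R)
  a1 R := congrArg e (D.a1 R)
  am R t := mem_image_of_mem _ (D.am R t)
  b0 R := congrArg e (D.b0 R)
  b1 R := congrArg e (D.b1 R)
  bm R t := mem_image_of_mem _ (D.bm R t)

theorem DehnPush_sym (D : DehnData O reg) (hO : O ⊆ e.source) {f : Z → Z} {g : X → X}
    {ρ : Reg → Reg} (hs : D.Sym f ρ) (hg : ∀ x ∈ O, g (e x) = e (f x)) :
    (DehnPush_data e D hO).Sym g ρ where
  up := by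
    rintro _ ⟨x, hx, rfl⟩
    exact ⟨f x, hs.up hx, (hg x (DehnPush_up D hx)).symm⟩
  lo := by
    rintro _ ⟨x, hx, rfl⟩
    exact ⟨f x, hs.lo hx, (hg x (DehnPush_lo D hx)).symm⟩
  rg R := by
    rintro _ ⟨x, hx, rfl⟩
    exact ⟨f x, hs.rg R hx, (hg x (DehnPush_rg D R hx)).symm⟩

end Aux

theorem dehnPush_stmt : DehnPushStmt := by
  intro κ K ι Γ Reg Cr reg ρ D hs
  have hO : shellO K ⊆ Γ.emb.source := fun x hx => by rw [Γ.src]; exact hx.1
  have him : Γ.emb '' shellO K = Γ.h ⁻¹' Ioo (-1) 1 ∩ Γ.Fᶜ := by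
    ext y
    constructor
    · rintro ⟨x, hx, rfl⟩
      refine ⟨?_, fun hF => hx.2 ((Γ.F_emb x hx.1).1 hF)⟩
      rw [← Γ.tgt]
      exact Γ.emb.map_source (hO hx)
    · rintro ⟨h1, h2⟩
      rw [← Γ.tgt] at h1
      have hx : Γ.emb.symm y ∈ shell := by rw [← Γ.src]; exact Γ.emb.map_target h1
      refine ⟨Γ.emb.symm y, ⟨hx, fun hK => h2 ?_⟩, Γ.emb.right_inv h1⟩
      have := (Γ.F_emb _ hx).2 hK
      rwa [Γ.emb.right_inv h1] at this
  rw [← him]
  exact ⟨DehnPush_data Γ.emb D hO, DehnPush_sym Γ.emb D hO hs fun x hx => Γ.I_emb x hx.1⟩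

end Pool.Agent.MP_bc14e1_gt
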