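import Pool.Agent.MP_bc14e1_gt.IfT
import Pool.Agent.MP_bc14e1_gt.IfC

open Set Metric
open scoped Classical

namespace Pool.Agent.MP_bc14e1_gt

/-- The shear that straightens the diagonal. -/
noncomputable def Dia_sh : E 4 × E 4 ≃ₜ E 4 × E 4 where
  toFun z := (z.2, z.1 - z.2)
  invFun z := (z.1 + z.2, z.1)
  left_inv z := by simp
  right_inv z := by simp
  continuous_toFun := by fun_prop
  continuous_invFun := by fun_prop

/-- The chart of the product in which the diagonal is a coordinate plane. -/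
noncomputable def Dia_ch {Y : Type} [TopologicalSpace Y] (e : OpenPartialHomeomorph Y (E 4)) :
    OpenPartialHomeomorph (Y × Y) (E 4 × E 4) := (e.prod e).transHomeomorph Dia_sh

section

variable {Y : Type} [TopologicalSpace Y] (e : OpenPartialHomeomorph Y (E 4))

theorem Dia_src (z : Y × Y) : z ∈ (Dia_ch e).source ↔ z.1 ∈ e.source ∧ z.2 ∈ e.source :=
  Iff.rfl

theorem Dia_tgt (x w : E 4) : (x, w) ∈ (Dia_ch e).target ↔ x + w ∈ e.target ∧ x ∈ e.target :=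
  Iff.rfl

theorem Dia_app (z : Y × Y) : (Dia_ch e z).2 = e z.1 - e z.2 := rfl

theorem Dia_symm (x w : E 4) : (Dia_ch e).symm (x, w) = (e.symm (x + w), e.symm x) := rfl

end

theorem dia_stmt (B : Bas1) (hLocCtr : LocCtrStmt)
    (hLemA : LemAStmt) (hLocDeg : LocDegStmt) : DiaStmt := by
  intro X Y _ _ _ _ _ o q hq W hW
  have hcl : IsClosed (dia Y) := isClosed_eq continuous_fst continuous_snd
  have hA := hLemA ℝ (Y × Y) (E 4) (E 4) (dia Y)
    {e' | ∃ e : OpenPartialHomeomorph Y (E 4), InjOn q e.source ∧ e' = Dia_ch e} hcl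
    (by
      rintro _ ⟨e, -, rfl⟩ z hz
      rw [Dia_src] at hz
      rw [Dia_app, sub_eq_zero]
      exact ⟨fun h => congrArg e h, fun h => e.injOn hz.1 hz.2 h⟩)
    (by
      rintro ⟨a, b⟩ (h : a = b)
      subst h
      obtain ⟨⟨e, he, -, hi⟩, -⟩ := hLocCtr X Y q hq a univ Filter.univ_mem
      exact ⟨Dia_ch e, ⟨e, hi, rfl⟩, (Dia_src e _).2 ⟨he, he⟩⟩) W hW
  have hr : Module.finrank ℝ (E 4) = 4 := by simp
  refine ⟨fun c hc => ?_, fun θ h5 h4 h1 c hc => ?_⟩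
  · obtain ⟨b, hb, h⟩ := (hA 3 c hc.1 hc.2).1 (by rw [hr]; norm_num)
    refine ⟨deg ℝ _ 4 b, ⟨deg_mem_CH 4 hb, deg_mem 4 b⟩, ?_⟩
    have := deg_mem_CH 3 h
    rwa [map_sub, deg_dT, deg_of_mem hc.1.2] at this
  obtain ⟨c', hc', b, hb, h⟩ := (hA 4 c hc.1 hc.2).2 hr.symm
  have key : c' ∈ CC ℝ W 4 ⊓ LinearMap.ker θ := by
    refine Submodule.span_le.2 ?_ hc'
    rintro _ ⟨_, ⟨e, hi, rfl⟩, x, ρ, hρ, c₀, hc₀, hd, rfl⟩
    have hm : psh ℝ (fun w => (Dia_ch e).symm (x, w)) c₀ ∈ CH ℝ W :=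
      psh_mem_CH _ (fun w hw => (hρ w hw).2) hc₀.1
    refine ⟨⟨hm, psh_mem_DG _ hc₀.2⟩, ?_⟩
    rw [SetLike.mem_coe, LinearMap.mem_ker]
    rcases le_or_gt ρ 0 with h0 | h0
    · have : c₀ = 0 := eq_zero_of_mem_CH_empty (by
        have := hc₀.1
        rwa [ball_eq_empty.2 h0] at this)
      rw [this, map_zero, map_zero]
    have hx : x ∈ e.target := ((Dia_tgt e x 0).1 (hρ 0 (mem_ball_self h0)).1).2
    have ht : ∀ w ∈ ball (0 : E 4) ρ, x + w ∈ e.target := fun w hw =>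
      ((Dia_tgt e x w).1 (hρ w hw).1).1
    have hf : ContinuousOn (fun w : E 4 => e.symm (x + w)) (ball 0 ρ) :=
      e.continuousOn_symm.comp (f := fun w : E 4 => x + w) (by fun_prop) ht
    have e1 : psh ℝ (fun a => (a, e.symm x)) (psh ℝ (fun w : E 4 => e.symm (x + w)) c₀) =
        psh ℝ (fun w => (Dia_ch e).symm (x, w)) c₀ := psh_psh _ hf hc₀.1
    obtain ⟨r, hr⟩ := (hLocDeg X Y o q hq (e.symm x)).1 e.source e.open_source (e.map_target hx)
      hi (psh ℝ (fun w : E 4 => e.symm (x + w)) c₀)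
      ⟨psh_mem_CH _ (fun w hw => e.map_target (ht w hw)) hc₀.1, psh_mem_DG _ hc₀.2⟩ (by
        rw [dT_psh hf hc₀.1]
        refine psh_mem_CH (A := ball 0 ρ ∩ {0}ᶜ) _ ?_ ?_
        · intro w hw h'
          have := e.symm.injOn (ht w hw.1) hx h'
          exact hw.2 (by simpa using this)
        · rw [CH_inter]
          exact ⟨dT_mem_CH hc₀.1, hd⟩)
    rw [← e1]
    exact h1 _ _ r hr (by rw [e1]; exact hm)
  have hb5 : deg ℝ _ 5 b ∈ CC ℝ W 5 := ⟨deg_mem_CH 5 hb, deg_mem 5 b⟩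
  have e2 : deg ℝ _ 4 (c - c' - dT ℝ _ b) = c - c' - dT ℝ _ (deg ℝ _ 5 b) := by
    rw [map_sub, map_sub, deg_dT, deg_of_mem hc.1.2, deg_of_mem key.1.2]
  have h6 : c - c' - dT ℝ _ (deg ℝ _ 5 b) ∈ CC ℝ (W \ dia Y) 4 := by
    refine ⟨?_, e2 ▸ deg_mem 4 _⟩
    rw [Set.sdiff_eq, CH_inter]
    exact ⟨sub_mem (sub_mem hc.1.1 key.1.1) (dT_mem_CH hb5.1), e2 ▸ deg_mem_CH 4 h⟩
  have h7 := h4 _ h6
  rw [map_sub, map_sub, h5 _ hb5, LinearMap.mem_ker.1 key.2] at h7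
  simpa using h7

end Pool.Agent.MP_bc14e1_gt
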