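import Pool.Agent.MP_bc14e1_gt.IfD

open Set Metric
open scoped Classical

namespace Pool.Agent.MP_bc14e1_gt

theorem DiscW_unit {x : E 2} (hx : 0 < ‖x‖) : ‖x‖⁻¹ • x ∈ sphere (0 : E 2) 1 := by
  rw [mem_sphere_zero_iff_norm, norm_smul, norm_inv, norm_norm, inv_mul_cancel₀ hx.ne']

theorem discW_stmt : DiscWStmt := by
  intro K Z hK
  have hKt : ∀ v ∈ K, v ∈ Z.c.target := fun v hv => Z.tgt (sphere_subset_closedBall (hK hv))
  have hk : ∀ u ∈ sphere (0 : E 2) 1, Z.d u ∈ Z.c.source ∧ Z.c (Z.d u) ∈ K := by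
    intro u hu
    have : Z.d u ∈ Z.c.symm '' K := Z.bdy ▸ mem_image_of_mem _ hu
    obtain ⟨v, hv, e⟩ := this
    rw [← e, Z.c.right_inv (hKt v hv)]
    exact ⟨Z.c.map_target (hKt v hv), hv⟩
  have hk' : ∀ v ∈ K, ∃ u ∈ sphere (0 : E 2) 1, Z.c (Z.d u) = v := by
    intro v hv
    have : Z.c.symm v ∈ Z.d '' sphere 0 1 := Z.bdy ▸ mem_image_of_mem _ hv
    obtain ⟨u, hu, e⟩ := this
    exact ⟨u, hu, by rw [e, Z.c.right_inv (hKt v hv)]⟩
  have hn : ∀ u ∈ sphere (0 : E 2) 1, ‖Z.c (Z.d u)‖ = 1 := fun u hu =>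
    mem_sphere_zero_iff_norm.1 (hK (hk u hu).2)
  have hbt : ∀ v ∈ ball (0 : E 4) 1, v ∈ Z.c.target := fun v hv =>
    Z.tgt (ball_subset_closedBall hv)
  have F1 : ∀ x ∈ closedBall (0 : E 2) 1, Z.d x ∉ Z.c.symm '' ball 0 1 := by
    rintro x hx ⟨v, hv, e⟩
    rcases (mem_closedBall_zero_iff.1 hx).lt_or_eq with h | h
    · exact Z.out x (mem_ball_zero_iff.2 h) ⟨v, ball_subset_closedBall hv, e⟩
    · have := hn x (mem_sphere_zero_iff_norm.2 h)
      rw [← e, Z.c.right_inv (hbt v hv)] at this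
      exact (mem_ball_zero_iff.1 hv).ne this
  have F2 : ∀ x ∈ closedBall (0 : E 2) 1, Z.hW (Z.d x) = -1 := fun x hx => if_neg (F1 x hx)
  have F3 : ∀ v ∈ ball (0 : E 4) 1, Z.hW (Z.c.symm v) = 3 - 4 * ‖v‖ := fun v hv => by
    rw [ZD.hW, if_pos (mem_image_of_mem _ hv), Z.c.right_inv (hbt v hv)]
  obtain ⟨a, ha⟩ : ∃ a : E 2 → E 4, ∀ x, a x = (5 / 4 - ‖x‖ / 2) • Z.c (Z.d (‖x‖⁻¹ • x)) :=
    ⟨_, fun _ => rfl⟩
  have F5 : ∀ x, 0 < ‖x‖ → ‖x‖ ≤ 1 → ‖a x‖ = 5 / 4 - ‖x‖ / 2 := fun x h h' => by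
    rw [ha, norm_smul, hn _ (DiscW_unit h), mul_one, Real.norm_of_nonneg (by linarith)]
  have F6 : ∀ x, 1 / 2 < ‖x‖ → ‖x‖ ≤ 1 → a x ∈ ball (0 : E 4) 1 := fun x h h' => by
    rw [mem_ball_zero_iff, F5 x (by linarith) h']; linarith
  have F7 : ∀ x : E 2, ‖x‖ ≤ 1 / 2 → (2 : ℝ) • x ∈ closedBall (0 : E 2) 1 := fun x h => by
    rw [mem_closedBall_zero_iff, norm_smul, Real.norm_of_nonneg (by norm_num)]; linarith
  obtain ⟨δ, hδ⟩ : ∃ δ : E 2 → Z.W,
      ∀ x, δ x = if ‖x‖ ≤ 1 / 2 then Z.d ((2 : ℝ) • x) else Z.c.symm (a x) := ⟨_, fun _ => rfl⟩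
  have h1 : ∀ x, ‖x‖ ≤ 1 / 2 → δ x = Z.d ((2 : ℝ) • x) := fun x h => by rw [hδ, if_pos h]
  have h2 : ∀ x, 1 / 2 < ‖x‖ → δ x = Z.c.symm (a x) := fun x h => by rw [hδ, if_neg h.not_ge]
  have h3 : ∀ x, 1 / 2 ≤ ‖x‖ → δ x = Z.c.symm (a x) := fun x h => by
    rcases h.lt_or_eq with h | h
    · exact h2 x h
    · have hu := DiscW_unit (x := x) (by linarith)
      rw [h1 x h.ge, ha, ← h] at *
      norm_num at hu ⊢
      rw [Z.c.left_inv (hk _ (mem_sphere_zero_iff_norm.2 hu)).1]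
  have hdc : ContinuousOn Z.d (closedBall 0 1) := fun x hx =>
    (Z.sm x hx).continuousAt.continuousWithinAt
  have hlev : ∀ x, 1 / 2 < ‖x‖ → ‖x‖ ≤ 1 → Z.hW (δ x) = 2 * ‖x‖ - 2 := fun x h h' => by
    rw [h2 x h, F3 _ (F6 x h h'), F5 x (by linarith) h']; ring
  have him : δ '' closedBall 0 1 = Z.FW ∩ Z.hW ⁻¹' Iic 0 := by
    refine Subset.antisymm ?_ ?_
    · rintro _ ⟨x, hx, rfl⟩
      have hx' := mem_closedBall_zero_iff.1 hx
      rcases le_or_gt ‖x‖ (1 / 2) with h | h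
      · rw [h1 x h]
        refine ⟨Or.inl (mem_image_of_mem _ (F7 x h)), ?_⟩
        rw [mem_preimage, F2 _ (F7 x h)]
        norm_num
      · refine ⟨Or.inr ⟨a x, ⟨⟨?_, mem_ball_zero_iff.1 (F6 x h hx')⟩, ?_⟩, (h2 x h).symm⟩, ?_⟩
        · rw [F5 x (by linarith) hx']; linarith
        · rw [F5 x (by linarith) hx', ha, smul_smul, inv_mul_cancel₀ (by linarith), one_smul]
          exact (hk _ (DiscW_unit (by linarith))).2
        · rw [mem_preimage, hlev x h hx', mem_Iic]; linarith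
    · rintro w ⟨⟨x, hx, rfl⟩ | ⟨v, ⟨hv, hvK⟩, rfl⟩, hw⟩
      · have hx' := mem_closedBall_zero_iff.1 hx
        have e : ‖(1 / 2 : ℝ) • x‖ ≤ 1 / 2 := by
          rw [norm_smul, Real.norm_of_nonneg (by norm_num)]; linarith
        refine ⟨(1 / 2 : ℝ) • x, mem_closedBall_zero_iff.2 (by linarith), ?_⟩
        rw [h1 _ e, smul_smul]
        norm_num
      · rw [mem_preimage, F3 v (mem_ball_zero_iff.2 hv.2), mem_Iic] at hw
        obtain ⟨u, hu, e⟩ := hk' _ hvK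
        have h1' := hv.1
        have h2' := hv.2
        have e' : ‖(5 / 2 - 2 * ‖v‖) • u‖ = 5 / 2 - 2 * ‖v‖ := by
          rw [norm_smul, mem_sphere_zero_iff_norm.1 hu, mul_one, Real.norm_of_nonneg (by linarith)]
        refine ⟨(5 / 2 - 2 * ‖v‖) • u, mem_closedBall_zero_iff.2 (by linarith), ?_⟩
        rw [h2 _ (by linarith), ha, e', smul_smul, inv_mul_cancel₀ (by linarith), one_smul, e,
          smul_smul, show (5 / 4 - (5 / 2 - 2 * ‖v‖) / 2) = ‖v‖ by ring,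
          mul_inv_cancel₀ (by linarith), one_smul]
  refine ⟨δ, ?_, ?_, him, ?_⟩
  · have e : closedBall (0 : E 2) 1 = closedBall 0 (1 / 2) ∪ {x | 1 / 2 ≤ ‖x‖ ∧ ‖x‖ ≤ 1} := by
      ext x
      simp only [mem_closedBall_zero_iff, mem_union, mem_ofPred_eq]
      constructor
      · intro h
        rcases le_total ‖x‖ (1 / 2) with h' | h'
        · exact Or.inl h'
        · exact Or.inr ⟨h', h⟩
      · rintro (h | h)
        · linarith
        · exact h.2
    rw [e]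
    refine ContinuousOn.union_of_isClosed ?_ ?_ isClosed_closedBall
      ((isClosed_le continuous_const continuous_norm).inter
        (isClosed_le continuous_norm continuous_const))
    · refine ContinuousOn.congr (f := fun x => Z.d ((2 : ℝ) • x)) ?_
        fun x hx => h1 x (mem_closedBall_zero_iff.1 hx)
      exact hdc.comp (by fun_prop) fun x hx => F7 x (mem_closedBall_zero_iff.1 hx)
    · refine ContinuousOn.congr (f := fun x => Z.c.symm (a x)) ?_ fun x hx => h3 x hx.1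
      have hp : ∀ x ∈ {x : E 2 | 1 / 2 ≤ ‖x‖ ∧ ‖x‖ ≤ 1}, 0 < ‖x‖ := fun x hx => by
        have := hx.1; linarith
      refine Z.c.continuousOn_symm.comp ?_ fun x hx => Z.tgt ?_
      · rw [show a = fun x => (5 / 4 - ‖x‖ / 2) • Z.c (Z.d (‖x‖⁻¹ • x)) from funext ha]
        refine ContinuousOn.smul (f := fun x : E 2 => (5 / 4 - ‖x‖ / 2 : ℝ))
          (g := fun x : E 2 => Z.c (Z.d (‖x‖⁻¹ • x))) (by fun_prop) ?_
        refine Z.c.continuousOn.comp (f := fun x : E 2 => Z.d (‖x‖⁻¹ • x)) ?_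
          fun x hx => (hk _ (DiscW_unit (hp x hx))).1
        refine hdc.comp (f := fun x : E 2 => ‖x‖⁻¹ • x) ?_
          fun x hx => sphere_subset_closedBall (DiscW_unit (hp x hx))
        exact (continuous_norm.continuousOn.inv₀ fun x hx => (hp x hx).ne').smul continuousOn_id
      · rw [mem_closedBall_zero_iff, F5 x (hp x hx) hx.2]
        have := hx.1
        linarith
  · intro x hx y hy e
    have hx' := mem_closedBall_zero_iff.1 hx
    have hy' := mem_closedBall_zero_iff.1 hy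
    rcases le_or_gt ‖x‖ (1 / 2) with h | h <;> rcases le_or_gt ‖y‖ (1 / 2) with h' | h'
    · rw [h1 x h, h1 y h'] at e
      exact smul_right_injective _ two_ne_zero (Z.inj (F7 x h) (F7 y h') e)
    · rw [h1 x h, h2 y h'] at e
      exact (F1 _ (F7 x h) ⟨_, F6 y h' hy', e.symm⟩).elim
    · rw [h2 x h, h1 y h'] at e
      exact (F1 _ (F7 y h') ⟨_, F6 x h hx', e⟩).elim
    · rw [h2 x h, h2 y h'] at e
      have e1 : a x = a y :=
        Z.c.symm.injOn (hbt _ (F6 x h hx')) (hbt _ (F6 y h' hy')) e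
      have e2 : ‖x‖ = ‖y‖ := by
        have := congrArg norm e1
        rw [F5 x (by linarith) hx', F5 y (by linarith) hy'] at this
        linarith
      have hu := DiscW_unit (x := x) (by linarith)
      have hu' := DiscW_unit (x := y) (by linarith)
      rw [ha, ha, ← e2] at e1
      rw [← e2] at hu'
      have e3 := smul_right_injective _ (by linarith : (5 / 4 - ‖x‖ / 2 : ℝ) ≠ 0) e1
      have e4 := Z.inj (sphere_subset_closedBall hu) (sphere_subset_closedBall hu')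
        (Z.c.injOn (hk _ hu).1 (hk _ hu').1 e3)
      exact smul_right_injective _ (inv_ne_zero (by linarith : ‖x‖ ≠ 0)) e4
  · refine Subset.antisymm ?_ ?_
    · rintro _ ⟨x, hx, rfl⟩
      have hx' := mem_sphere_zero_iff_norm.1 hx
      have : δ x ∈ Z.FW ∩ Z.hW ⁻¹' Iic 0 :=
        him ▸ mem_image_of_mem _ (sphere_subset_closedBall hx)
      refine ⟨this.1, ?_⟩
      rw [mem_preimage, hlev x (by linarith) hx'.le, hx', mem_singleton_iff]
      norm_num
    · rintro w ⟨hw, hw'⟩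
      rw [mem_preimage, mem_singleton_iff] at hw'
      have : w ∈ δ '' closedBall 0 1 := him ▸ ⟨hw, hw'.le⟩
      obtain ⟨x, hx, rfl⟩ := this
      have hx' := mem_closedBall_zero_iff.1 hx
      refine ⟨x, mem_sphere_zero_iff_norm.2 ?_, rfl⟩
      rcases le_or_gt ‖x‖ (1 / 2) with h | h
      · rw [h1 x h, F2 _ (F7 x h)] at hw'
        norm_num at hw'
      · rw [hlev x h hx'] at hw'
        linarith

end Pool.Agent.MP_bc14e1_gt
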