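import Pool.Agent.MP_bc14e1_gt.IfC
import Pool.Agent.MP_bc14e1_gt.Ind

open Set Metric
open scoped Classical

namespace Pool.Agent.MP_bc14e1_gt

theorem FGOff_mono {R : Type} [CommRing R] {G Y : Type} [Group G] [TopologicalSpace Y]
    [MulAction G Y] [ContinuousConstSMul G Y] {s : G} {A B B' : Set Y} {k : ℕ} (hB : B ⊆ B')
    (h : FGI R s A B k) : FGI R s A B' k := by
  obtain ⟨n, z, h1, h2⟩ := h
  refine ⟨n, z, fun i => ⟨⟨CH_mono hB (h1 i).1.1, (h1 i).1.2⟩, (h1 i).2⟩, fun y hy => ?_⟩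
  obtain ⟨a, b, hb, e⟩ := h2 y hy
  exact ⟨a, b, ⟨CH_mono hB hb.1, hb.2⟩, e⟩

theorem FGOff_ctr {X V : Type} [TopologicalSpace X] [NormedAddCommGroup V] [NormedSpace ℝ V]
    (e : OpenPartialHomeomorph X V) {T : Set V} (hT : Convex ℝ T) (hs : T ⊆ e.target) {c : V}
    (hc : c ∈ T) : Ctr (e.symm '' T) (e.symm c) := by
  have h1 : ∀ x ∈ e.symm '' T, x ∈ e.source ∧ e x ∈ T := by
    rintro _ ⟨v, hv, rfl⟩
    exact ⟨e.map_target (hs hv), by rwa [e.right_inv (hs hv)]⟩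
  have h2 : MapsTo (fun z : ℝ × X => (1 - z.1) • e z.2 + z.1 • c) (Icc 0 1 ×ˢ (e.symm '' T)) T :=
    fun z hz => hT (h1 _ hz.2).2 hc (sub_nonneg.2 hz.1.2) hz.1.1 (sub_add_cancel _ _)
  refine ⟨mem_image_of_mem _ hc, fun z => e.symm ((1 - z.1) • e z.2 + z.1 • c), ?_,
    fun z hz => mem_image_of_mem _ (h2 hz), fun y hy => ?_, fun y _ => ?_⟩
  · refine e.continuousOn_symm.comp ?_ fun z hz => hs (h2 hz)
    have h3 : ContinuousOn (fun z : ℝ × X => e z.2) (Icc 0 1 ×ˢ (e.symm '' T)) :=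
      e.continuousOn.comp continuousOn_snd fun z hz => (h1 _ hz.2).1
    exact ((continuousOn_const.sub continuousOn_fst).smul h3).add
      (continuousOn_fst.smul continuousOn_const)
  · simp only [sub_zero, one_smul, zero_smul, add_zero]
    exact e.left_inv (h1 y hy).1
  · simp

theorem fgOff_stmt (B : Bas1) (hFGMV : FGMVStmt) (hFGCtr : FGCtrStmt) : FGOffStmt := by
  intro R _ _ X G Y _ _ _ _ _ _ _ F p s h L hL hLF
  obtain ⟨h0, hMV⟩ := hFGMV R X G Y p s h.cov.cont (h.cov.inv s)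
  have hF : IsOpen Fᶜ := h.flat.cl.isOpen_compl
  have conv : ∀ (e : OpenPartialHomeomorph X (E 4)) (C : Set (E 4)), IsCompact C → Convex ℝ C →
      C ⊆ e.target → e.symm '' C ⊆ Fᶜ → FGL R p s (e.symm '' C) := by
    intro e C h1 h2 h3 h4
    rcases C.eq_empty_or_nonempty with rfl | ⟨c, hc⟩
    · rwa [image_empty]
    intro k O hO hCO
    obtain ⟨δ, hδ, hW⟩ := h1.exists_thickening_subset_open
      (e.isOpen_inter_preimage_symm (hO.inter hF)) fun v hv =>
        ⟨h3 hv, hCO (mem_image_of_mem _ hv), h4 (mem_image_of_mem _ hv)⟩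
    have h5 : thickening δ C ⊆ e.target := fun v hv => (hW hv).1
    have h6 : IsOpen (e.symm '' thickening δ C) :=
      e.isOpen_image_symm_of_subset_target isOpen_thickening h5
    have h7 : e.symm '' thickening δ C ⊆ O ∩ Fᶜ := by
      rintro _ ⟨v, hv, rfl⟩
      exact (hW hv).2
    refine ⟨_, h6, image_mono (self_subset_thickening hδ C), fun x hx => (h7 hx).1, ?_⟩
    exact FGOff_mono (preimage_mono fun x hx => (h7 hx).1)
      (hFGCtr R X G Y F p s h _ _ h6 (fun x hx => (h7 hx).2)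
        (FGOff_ctr e (h2.thickening δ) h5 (self_subset_thickening hδ C hc)) k)
  refine ind_compact (P := FGL R p s) h0 (T := fun x : X => (chartAt (E 4) x).source)
    (fun x => (chartAt (E 4) x).open_source) (S := Fᶜ) ?_ hMV hL hLF
    fun x _ => mem_iUnion.2 ⟨x, mem_chart_source _ x⟩
  intro x L hL hLF hLe k O hO hLO
  generalize chartAt (E 4) x = e at hLe
  have hW := e.isOpen_inter_preimage_symm (hO.inter hF)
  have hK : IsCompact (e '' L) := hL.image_of_continuousOn (e.continuousOn.mono hLe)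
  have h1 : ∀ v ∈ e '' L, ∃ r > 0, closedBall v r ⊆ e.target ∩ e.symm ⁻¹' (O ∩ Fᶜ) := by
    rintro _ ⟨y, hy, rfl⟩
    refine nhds_basis_closedBall.mem_iff.1 (hW.mem_nhds ⟨e.map_source (hLe hy), ?_⟩)
    rw [mem_preimage, e.left_inv (hLe hy)]
    exact ⟨hLO hy, hLF hy⟩
  choose! r hr using h1
  obtain ⟨T, hT, hc⟩ := hK.elim_nhds_subcover (fun v => closedBall v (r v))
    fun v hv => closedBall_mem_nhds v (hr v hv).1
  have key : FGL R p s (⋃ v ∈ T, e.symm '' closedBall v (r v)) := by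
    refine ind_fin (𝓑 := {A | ∃ C, IsCompact C ∧ Convex ℝ C ∧ C ⊆ e.target ∧
      e.symm '' C ⊆ Fᶜ ∧ A = e.symm '' C}) (Q := IsCompact) (fun _ _ => IsCompact.union)
      isCompact_empty ?_ h0 ?_ ?_ hMV T _ fun v hv => ⟨_, isCompact_closedBall _ _,
        convex_closedBall _ _, fun w hw => ((hr v (hT v hv)).2 hw).1, ?_, rfl⟩
    · rintro _ ⟨C, c1, -, c3, -, rfl⟩
      exact c1.image_of_continuousOn (e.continuousOn_symm.mono c3)
    · rintro _ ⟨C, c1, c2, c3, c4, rfl⟩ _ ⟨C', d1, d2, d3, -, rfl⟩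
      exact ⟨C ∩ C', c1.inter d1, c2.inter d2, inter_subset_left.trans c3,
        (image_mono inter_subset_left).trans c4, (e.symm.injOn.image_inter c3 d3).symm⟩
    · rintro _ ⟨C, c1, c2, c3, c4, rfl⟩
      exact conv e C c1 c2 c3 c4
    · rintro _ ⟨w, hw, rfl⟩
      exact ((hr v (hT v hv)).2 hw).2.2
  obtain ⟨N, n1, n2, n3⟩ := key k O hO (iUnion₂_subset fun v hv => by
    rintro _ ⟨w, hw, rfl⟩
    exact ((hr v (hT v hv)).2 hw).2.1)
  refine ⟨N, n1, fun y hy => n2 ?_, n3⟩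
  obtain ⟨v, hv, hy'⟩ := mem_iUnion₂.1 (hc (mem_image_of_mem e hy))
  exact mem_iUnion₂.2 ⟨v, hv, e y, hy', e.left_inv (hLe hy)⟩

end Pool.Agent.MP_bc14e1_gt
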