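import Pool.Agent.MP_bc14e1_gt.IfD

open Set Metric Topology
open scoped Classical

namespace Pool.Agent.MP_bc14e1_gt

/-- The gluing relation. -/
def Glue_setoid {W : Type} (U Sh : Set W) (G : W → W) (hm : MapsTo G Sh Sh)
    (hG : ∀ x ∈ Sh, G (G x) = x) : Setoid (Bool × U) where
  r p q := p = q ∨ (q.1 = !p.1 ∧ p.2.1 ∈ Sh ∧ q.2.1 = G p.2.1)
  iseqv := by
    refine ⟨fun p => Or.inl rfl, ?_, ?_⟩
    · rintro p q (h | ⟨h1, h2, h3⟩)
      · exact Or.inl h.symm
      · refine Or.inr ⟨by rw [h1, Bool.not_not], by rw [h3]; exact hm h2, by rw [h3, hG _ h2]⟩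
    · rintro p q r (h | ⟨h1, h2, h3⟩) (k | ⟨k1, k2, k3⟩)
      · exact Or.inl (h.trans k)
      · subst h; exact Or.inr ⟨k1, k2, k3⟩
      · subst k; exact Or.inr ⟨h1, h2, h3⟩
      · refine Or.inl (Prod.ext ?_ (Subtype.ext ?_))
        · rw [k1, h1, Bool.not_not]
        · rw [k3, h3, hG _ h2]

theorem Glue_abs {W : Type} [TopologicalSpace W] (U Sh : Set W) (G : W → W) (hU : IsOpen U)
    (hne : U.Nonempty) (hS : IsOpen Sh) (hSU : Sh ⊆ U) (hm : MapsTo G Sh Sh)
    (hG : ∀ x ∈ Sh, G (G x) = x) (hc : ContinuousOn G Sh) :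
    ∃ (X : Type) (_ : TopologicalSpace X) (i : OpenPartialHomeomorph W X) (I : X ≃ₜ X),
      i.source = U ∧ (∀ x, I (I x) = x) ∧ (∀ x, x ∈ i.target ∨ I x ∈ i.target) ∧
      ∀ x ∈ U, ∀ y ∈ U, I (i x) = i y ↔ x ∈ Sh ∧ y = G x := by
  haveI : Nonempty U := hne.to_subtype
  set s := Glue_setoid U Sh G hm hG with hs
  have hr : ∀ p q : Bool × U, s.r p q ↔
      (p = q ∨ (q.1 = !p.1 ∧ p.2.1 ∈ Sh ∧ q.2.1 = G p.2.1)) := fun _ _ => Iff.rfl
  let T : Bool × U → Bool × U := fun p =>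
    (!p.1, if h : p.2.1 ∈ Sh then ⟨G p.2.1, hSU (hm h)⟩ else p.2)
  have hD : IsOpen {p : Bool × U | p.2.1 ∈ Sh} :=
    hS.preimage (continuous_subtype_val.comp continuous_snd)
  have hT : ContinuousOn T {p : Bool × U | p.2.1 ∈ Sh} := by
    refine ContinuousOn.prodMk
      ((continuous_of_discreteTopology (f := fun b : Bool => !b)).comp continuous_fst).continuousOn ?_
    rw [IsInducing.subtypeVal.continuousOn_iff]
    refine (hc.comp (continuous_subtype_val.comp continuous_snd).continuousOn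
      (fun p hp => hp)).congr ?_
    intro p hp
    have hp' : p.2.1 ∈ Sh := hp
    simp only [Function.comp, dif_pos hp']
  have hopen : IsOpenMap (Quotient.mk s) := by
    intro O hO
    rw [← (isQuotientMap_quotient_mk' (s := s)).isOpen_preimage]
    have e : (Quotient.mk' (s := s)) ⁻¹' (Quotient.mk s '' O) =
        O ∪ ({p : Bool × U | p.2.1 ∈ Sh} ∩ T ⁻¹' O) := by
      ext p
      constructor
      · rintro ⟨q, hq, hqp⟩
        have h1 : s.r p q := s.symm (Quotient.exact hqp)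
        rcases (hr _ _).1 h1 with h | ⟨h1, h2, h3⟩
        · exact Or.inl (h ▸ hq)
        · refine Or.inr ⟨h2, ?_⟩
          have : T p = q := by
            refine Prod.ext h1.symm (Subtype.ext ?_)
            simp only [T, dif_pos h2, h3]
          rw [mem_preimage, this]; exact hq
      · rintro (h | ⟨h1, h2⟩)
        · exact ⟨p, h, rfl⟩
        · refine ⟨T p, h2, Quotient.sound (s.symm ((hr _ _).2 (Or.inr ⟨rfl, h1, ?_⟩)))⟩
          have h1' : p.2.1 ∈ Sh := h1
          simp only [T, dif_pos h1']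
    rw [e]
    exact hO.union (hT.isOpen_inter_preimage hD hO)
  let j : U → Quotient s := fun x => Quotient.mk s (false, x)
  have hj : IsOpenEmbedding j := by
    refine IsOpenEmbedding.of_continuous_injective_isOpenMap
      (continuous_quotient_mk'.comp (continuous_const.prodMk continuous_id)) ?_ ?_
    · intro x y hxy
      rcases (hr _ _).1 (Quotient.exact hxy) with h | ⟨h, -⟩
      · exact (Prod.ext_iff.1 h).2
      · simp at h
    · intro V hV
      have e : j '' V = Quotient.mk s '' (({false} : Set Bool) ×ˢ V) := by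
        ext z
        constructor
        · rintro ⟨x, hx, rfl⟩
          exact ⟨(false, x), ⟨rfl, hx⟩, rfl⟩
        · rintro ⟨⟨b, x⟩, ⟨hb, hx⟩, rfl⟩
          have hb' : b = false := hb
          subst hb'
          exact ⟨x, hx, rfl⟩
      rw [e]
      exact hopen _ ((isOpen_discrete _).prod hV)
  let f : Bool × U → Bool × U := fun p => (!p.1, p.2)
  have hf : ∀ p q, s.r p q → s.r (f p) (f q) := by
    intro p q h
    rcases (hr _ _).1 h with h | ⟨h1, h2, h3⟩
    · subst h; exact s.refl _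
    · exact (hr _ _).2 (Or.inr ⟨by simp only [f, h1], h2, h3⟩)
  let I0 : Quotient s → Quotient s := Quotient.map f hf
  have hI0 : ∀ x, I0 (I0 x) = x := by
    intro x
    induction x using Quotient.inductionOn with
    | _ p => exact congrArg (Quotient.mk s) (by simp only [f, Bool.not_not])
  have hfc : Continuous f :=
    ((continuous_of_discreteTopology (f := fun b : Bool => !b)).comp continuous_fst).prodMk
      continuous_snd
  have hIc : Continuous I0 :=
    (isQuotientMap_quotient_mk' (s := s)).continuous_iff.2 (continuous_quotient_mk'.comp hfc)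
  let I : Quotient s ≃ₜ Quotient s := ⟨⟨I0, I0, hI0, hI0⟩, hIc, hIc⟩
  let e := hU.isOpenEmbedding_subtypeVal.toOpenPartialHomeomorph Subtype.val
  let i := e.symm.trans (hj.toOpenPartialHomeomorph j)
  have hsrc : i.source = U := by
    simp [i, e]
  have hi : ∀ x (hx : x ∈ U), i x = j ⟨x, hx⟩ := by
    intro x hx
    have : e.symm x = ⟨x, hx⟩ := e.left_inv (x := ⟨x, hx⟩) (mem_univ _)
    show j (e.symm x) = _
    rw [this]
  have ht : ∀ x : U, j x ∈ i.target := by
    intro x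
    have := i.map_source (x := x.1) (hsrc.symm ▸ x.2)
    rwa [hi _ x.2] at this
  refine ⟨Quotient s, inferInstance, i, I, hsrc, hI0, ?_, ?_⟩
  · intro x
    induction x using Quotient.inductionOn with
    | _ p =>
      obtain ⟨b, x⟩ := p
      cases b
      · exact Or.inl (ht x)
      · exact Or.inr (ht x)
  · intro x hx y hy
    rw [hi x hx, hi y hy]
    constructor
    · intro h
      have h' : s.r (true, ⟨x, hx⟩) (false, ⟨y, hy⟩) := Quotient.exact h
      rcases (hr _ _).1 h' with h | ⟨-, h2, h3⟩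
      · simp at h
      · exact ⟨h2, h3⟩
    · rintro ⟨h2, h3⟩
      exact Quotient.sound (s := s) (a := (true, ⟨x, hx⟩)) (b := (false, ⟨y, hy⟩))
        ((hr _ _).2 (Or.inr ⟨rfl, h2, h3⟩))

theorem Glue_norm (ι : E 4 ≃ₗᵢ[ℝ] E 4) {v : E 4} (hv : v ∈ shell) :
    ‖invS ι v‖ = 3 / 2 - ‖v‖ := by
  obtain ⟨h1, h2⟩ := hv
  have h0 : 0 < ‖v‖ := by linarith
  rw [invS, norm_smul, ι.norm_map, Real.norm_of_nonneg (div_nonneg (by linarith) h0.le)]
  field_simp

theorem Glue_mem (ι : E 4 ≃ₗᵢ[ℝ] E 4) {v : E 4} (hv : v ∈ shell) : invS ι v ∈ shell := by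
  have h := Glue_norm ι hv
  obtain ⟨h1, h2⟩ := hv
  exact ⟨by rw [h]; linarith, by rw [h]; linarith⟩

theorem Glue_inv (ι : E 4 ≃ₗᵢ[ℝ] E 4) (hι : ∀ x, ι (ι x) = x) {v : E 4} (hv : v ∈ shell) :
    invS ι (invS ι v) = v := by
  have h := Glue_norm ι hv
  obtain ⟨h1, h2⟩ := hv
  have h0 : ‖v‖ ≠ 0 := (by linarith : 0 < ‖v‖).ne'
  have h3 : (3 / 2 - ‖v‖ : ℝ) ≠ 0 := (by linarith : (0 : ℝ) < 3 / 2 - ‖v‖).ne'
  conv_lhs => rw [invS, h, invS, map_smul, hι, smul_smul]
  have : (3 / 2 - (3 / 2 - ‖v‖)) / (3 / 2 - ‖v‖) * ((3 / 2 - ‖v‖) / ‖v‖) = 1 := by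
    rw [sub_sub_cancel, div_mul_div_comm, mul_comm, div_self (mul_ne_zero h3 h0)]
  rw [this, one_smul]

theorem Glue_cont (ι : E 4 ≃ₗᵢ[ℝ] E 4) : ContinuousOn (invS ι) shell := by
  refine ContinuousOn.smul (f := fun x : E 4 => (3 / 2 - ‖x‖) / ‖x‖) (g := fun x => ι x)
    (ContinuousOn.div (continuous_const.sub continuous_norm).continuousOn
      continuous_norm.continuousOn ?_) ι.continuous.continuousOn
  intro v hv
  have := hv.1
  exact (by linarith : 0 < ‖v‖).ne'

theorem glue_stmt : GlueStmt := by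
  intro K ι Z hι
  have hsh : shell ⊆ Z.c.target := fun v hv => Z.tgt (mem_closedBall_zero_iff.2 hv.2.le)
  have hhb : closedBall (0 : E 4) (1 / 2) ⊆ Z.c.target :=
    (closedBall_subset_closedBall (by norm_num)).trans Z.tgt
  have hSU : Z.c.symm '' shell ⊆ Z.U1 := by
    rintro _ ⟨v, hv, rfl⟩ ⟨w, hw, h⟩
    have e : w = v := Z.c.symm.injOn (hhb hw) (hsh hv) h
    rw [e, mem_closedBall_zero_iff] at hw
    exact absurd hv.1 (not_lt.2 hw)
  have hU : IsOpen Z.U1 :=
    ((isCompact_closedBall _ _).image_of_continuousOn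
      (Z.c.continuousOn_symm.mono hhb)).isClosed.isOpen_compl
  have hso : IsOpen shell :=
    (isOpen_lt continuous_const continuous_norm).inter (isOpen_lt continuous_norm continuous_const)
  have hS : IsOpen (Z.c.symm '' shell) := Z.c.symm.isOpen_image_of_subset_source hso hsh
  have hne : Z.U1.Nonempty := by
    obtain ⟨v, hv⟩ := exists_norm_eq (E 4) (by norm_num : (0 : ℝ) ≤ 3 / 4)
    exact ⟨_, hSU ⟨v, ⟨by rw [hv]; norm_num, by rw [hv]; norm_num⟩, rfl⟩⟩
  have hcv : ∀ v ∈ shell, Z.c (Z.c.symm v) = v := fun v hv => Z.c.right_inv (hsh hv)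
  obtain ⟨X, _, i, I, h1, h2, h3, h4⟩ := Glue_abs Z.U1 (Z.c.symm '' shell)
    (fun w => Z.c.symm (invS ι (Z.c w))) hU hne hS hSU
    (by
      rintro _ ⟨v, hv, rfl⟩
      exact ⟨_, Glue_mem ι hv, by simp only [hcv v hv]⟩)
    (by
      rintro _ ⟨v, hv, rfl⟩
      simp only [hcv v hv, hcv _ (Glue_mem ι hv), Glue_inv ι hι hv])
    (by
      refine Z.c.continuousOn_symm.comp ((Glue_cont ι).comp (Z.c.continuousOn.mono ?_) ?_) ?_
      · rintro _ ⟨v, hv, rfl⟩
        exact Z.c.map_target (hsh hv)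
      · rintro _ ⟨v, hv, rfl⟩
        rw [hcv v hv]; exact hv
      · rintro _ ⟨v, hv, rfl⟩
        simp only [Function.comp, hcv v hv]
        exact hsh (Glue_mem ι hv))
  refine ⟨⟨X, i, I, h1, h2, h3, fun x hx y hy => (h4 x hx y hy).trans ?_⟩⟩
  constructor
  · rintro ⟨⟨v, hv, rfl⟩, h⟩
    exact ⟨v, hv, rfl, by rw [h, hcv v hv]⟩
  · rintro ⟨v, hv, rfl, h⟩
    exact ⟨⟨v, hv, rfl⟩, by rw [h, hcv v hv]⟩

end Pool.Agent.MP_bc14e1_gt
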