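import Pool.Agent.MP_bc14e1_gt.Defs

/-! The shuffle product and its commutativity homotopy on lists of vertices. -/

open Finsupp
open scoped Classical

namespace Pool.Agent.MP_bc14e1_gt

noncomputable section

/-- Ordered chains on a set of vertices, augmented by the empty list. -/
abbrev Kit_O (V : Type) : Type := List V →₀ ℤ

variable {V W V' W' : Type}

def Kit_cons (v : V) : Kit_O V →ₗ[ℤ] Kit_O V := lmapDomain ℤ ℤ (List.cons v)

def Kit_mp (f : V → W) : Kit_O V →ₗ[ℤ] Kit_O W := lmapDomain ℤ ℤ (List.map f)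

def Kit_Dl : List V → Kit_O V
  | [] => 0
  | v :: l => single l 1 - Kit_cons v (Kit_Dl l)

def Kit_D : Kit_O V →ₗ[ℤ] Kit_O V := linearCombination ℤ Kit_Dl

def Kit_e : Kit_O V →ₗ[ℤ] Kit_O V :=
  linearCombination ℤ fun l : List V => ((-1 : ℤ) ^ l.length) • single l (1 : ℤ)

def Kit_z : Kit_O V →ₗ[ℤ] ℤ := lapply []

def Kit_G (V : Type) (n : ℕ) : Submodule ℤ (Kit_O V) := supported ℤ ℤ {l | l.length = n}

theorem Kit_ind {P : Kit_O V → Prop} (h0 : P 0) (hadd : ∀ a b, P a → P b → P (a + b))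
    (hs : ∀ (n : ℤ) a, P a → P (n • a)) (h1 : ∀ l, P (single l 1)) (c : Kit_O V) : P c := by
  induction c using Finsupp.induction_linear with
  | zero => exact h0
  | add a b ha hb => exact hadd a b ha hb
  | single l n => simpa using hs n _ (h1 l)

theorem Kit_Gind {n : ℕ} {P : Kit_O V → Prop} (h0 : P 0) (hadd : ∀ a b, P a → P b → P (a + b))
    (hs : ∀ (n : ℤ) a, P a → P (n • a)) (h1 : ∀ l : List V, l.length = n → P (single l 1))
    {c : Kit_O V} (hc : c ∈ Kit_G V n) : P c := by
  rw [← c.sum_single, Finsupp.sum]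
  refine Finset.sum_induction _ P hadd h0 fun l hl => ?_
  simpa using hs (c l) _ (h1 l ((mem_supported ℤ c).1 hc hl))

theorem Kit_single_mem (l : List V) {n : ℕ} (h : l.length = n) : single l (1 : ℤ) ∈ Kit_G V n :=
  single_mem_supported ℤ _ h

@[simp] theorem Kit_cons_single (v : V) (l : List V) (n : ℤ) :
    Kit_cons v (single l n) = single (v :: l) n := by simp [Kit_cons]

@[simp] theorem Kit_mp_single (f : V → W) (l : List V) (n : ℤ) :
    Kit_mp f (single l n) = single (l.map f) n := by simp [Kit_mp]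

theorem Kit_D_single (l : List V) : Kit_D (single l 1) = Kit_Dl l := by simp [Kit_D]

theorem Kit_e_single (l : List V) :
    Kit_e (single l 1) = ((-1 : ℤ) ^ l.length) • single l (1 : ℤ) := by simp [Kit_e]

@[simp] theorem Kit_D_nil : Kit_D (single ([] : List V) 1) = 0 := by rw [Kit_D_single]; rfl

theorem Kit_D_cons (v : V) (c : Kit_O V) : Kit_D (Kit_cons v c) = c - Kit_cons v (Kit_D c) := by
  induction c using Kit_ind with
  | h0 => simp
  | hadd a b ha hb => simp only [map_add, ha, hb]; abel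
  | hs n a ha => simp only [map_smul, ha, smul_sub]
  | h1 l => rw [Kit_cons_single, Kit_D_single, Kit_D_single]; rfl

theorem Kit_D_single_cons (v : V) (l : List V) :
    Kit_D (single (v :: l) 1) = single l 1 - Kit_cons v (Kit_D (single l 1)) := by
  rw [← Kit_cons_single, Kit_D_cons]

theorem Kit_D_D (c : Kit_O V) : Kit_D (Kit_D c) = 0 := by
  induction c using Kit_ind with
  | h0 => simp
  | hadd a b ha hb => simp only [map_add, ha, hb, add_zero]
  | hs n a ha => simp only [map_smul, ha, smul_zero]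
  | h1 l =>
    induction l with
    | nil => simp
    | cons v l ih => rw [Kit_D_single_cons, map_sub, Kit_D_cons, ih]; simp

@[simp] theorem Kit_z_cons (v : V) (c : Kit_O V) : Kit_z (Kit_cons v c) = 0 := by
  induction c using Kit_ind with
  | h0 => simp
  | hadd a b ha hb => simp only [map_add, ha, hb, add_zero]
  | hs n a ha => simp only [map_smul, ha, smul_zero]
  | h1 l => simp [Kit_z]

theorem Kit_z_single (l : List V) : Kit_z (single l (1 : ℤ)) = if l = [] then 1 else 0 := by
  simp [Kit_z, single_apply]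

theorem Kit_mp_cons (f : V → W) (v : V) (c : Kit_O V) :
    Kit_mp f (Kit_cons v c) = Kit_cons (f v) (Kit_mp f c) := by
  induction c using Kit_ind with
  | h0 => simp
  | hadd a b ha hb => simp only [map_add, ha, hb]
  | hs n a ha => simp only [map_smul, ha]
  | h1 l => simp

theorem Kit_mp_mp {U : Type} (g : W → U) (f : V → W) (c : Kit_O V) :
    Kit_mp g (Kit_mp f c) = Kit_mp (g ∘ f) c := by
  induction c using Kit_ind with
  | h0 => simp
  | hadd a b ha hb => simp only [map_add, ha, hb]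
  | hs n a ha => simp only [map_smul, ha]
  | h1 l => simp

theorem Kit_mp_D (f : V → W) (c : Kit_O V) : Kit_mp f (Kit_D c) = Kit_D (Kit_mp f c) := by
  induction c using Kit_ind with
  | h0 => simp
  | hadd a b ha hb => simp only [map_add, ha, hb]
  | hs n a ha => simp only [map_smul, ha]
  | h1 l =>
    induction l with
    | nil => simp
    | cons v l ih =>
      rw [Kit_D_single_cons, map_sub, Kit_mp_cons, ih, Kit_mp_single, Kit_mp_single,
        List.map_cons, Kit_D_single_cons]

theorem Kit_cons_mem (v : V) {n : ℕ} {c : Kit_O V} (hc : c ∈ Kit_G V n) :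
    Kit_cons v c ∈ Kit_G V (n + 1) := by
  refine Kit_Gind (P := fun c => Kit_cons v c ∈ Kit_G V (n + 1)) (by simp) ?_ ?_ ?_ hc
  · intro a b ha hb; rw [map_add]; exact add_mem ha hb
  · intro k a ha; rw [map_smul]; exact Submodule.smul_mem _ _ ha
  · intro l hl; rw [Kit_cons_single]; exact Kit_single_mem _ (by simp [hl])

theorem Kit_mp_mem (f : V → W) {n : ℕ} {c : Kit_O V} (hc : c ∈ Kit_G V n) :
    Kit_mp f c ∈ Kit_G W n := by
  refine Kit_Gind (P := fun c => Kit_mp f c ∈ Kit_G W n) (by simp) ?_ ?_ ?_ hc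
  · intro a b ha hb; rw [map_add]; exact add_mem ha hb
  · intro k a ha; rw [map_smul]; exact Submodule.smul_mem _ _ ha
  · intro l hl; rw [Kit_mp_single]; exact Kit_single_mem _ (by simp [hl])

theorem Kit_D_mem' (l : List V) : Kit_D (single l 1) ∈ Kit_G V (l.length - 1) := by
  induction l with
  | nil => simp
  | cons v l ih =>
    rw [Kit_D_single_cons]
    refine sub_mem (Kit_single_mem _ (by simp)) ?_
    rcases l with _ | ⟨w, l⟩
    · simp
    · exact Kit_cons_mem v ih

theorem Kit_D_mem {n : ℕ} {c : Kit_O V} (hc : c ∈ Kit_G V (n + 1)) : Kit_D c ∈ Kit_G V n := by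
  refine Kit_Gind (P := fun c => Kit_D c ∈ Kit_G V n) (by simp) ?_ ?_ ?_ hc
  · intro a b ha hb; rw [map_add]; exact add_mem ha hb
  · intro k a ha; rw [map_smul]; exact Submodule.smul_mem _ _ ha
  · intro l hl; simpa [hl] using Kit_D_mem' l

theorem Kit_e_of_mem {n : ℕ} {c : Kit_O V} (hc : c ∈ Kit_G V n) :
    Kit_e c = ((-1 : ℤ) ^ n) • c := by
  refine Kit_Gind (P := fun c => Kit_e c = ((-1 : ℤ) ^ n) • c) (by simp) ?_ ?_ ?_ hc
  · intro a b ha hb; rw [map_add, ha, hb, smul_add]
  · intro k a ha; rw [map_smul, ha, smul_comm]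
  · intro l hl; rw [Kit_e_single, hl]

theorem Kit_e_D (l : List V) :
    Kit_e (Kit_D (single l 1)) = -((-1 : ℤ) ^ l.length) • Kit_D (single l 1) := by
  rcases l with _ | ⟨v, l⟩
  · simp
  · rw [Kit_e_of_mem (Kit_D_mem' _)]; simp [pow_succ]

theorem Kit_D_ofFn {n : ℕ} (v : Fin (n + 1) → V) :
    Kit_D (single (List.ofFn v) 1) =
      ∑ i : Fin (n + 1), ((-1 : ℤ) ^ (i : ℕ)) • single (List.ofFn (v ∘ i.succAbove)) (1 : ℤ) := by
  induction n with
  | zero => rw [List.ofFn_succ, Kit_D_single_cons]; simp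
  | succ n ih =>
    rw [List.ofFn_succ, Kit_D_single_cons, ih, Fin.sum_univ_succ (n := n + 1), map_sum,
      sub_eq_add_neg, ← Finset.sum_neg_distrib]
    congr 1
    · simp [Function.comp_def]
    · refine Finset.sum_congr rfl fun i _ => ?_
      rw [map_smul, Kit_cons_single, List.ofFn_succ (f := v ∘ i.succ.succAbove), Fin.val_succ,
        pow_succ, ← neg_smul]
      simp [Function.comp_def]

/-- The shuffle product of two lists. -/
def Kit_shl : List V → List W → Kit_O (V × W)
  | [], _ => 0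
  | _ :: _, [] => 0
  | a :: a', b :: b' => Kit_cons (a, b) (Kit_shl a' (b :: b') +
      ((-1 : ℤ) ^ a'.length) • Kit_shl (a :: a') b' +
      (Kit_z (single a' 1) * Kit_z (single b' 1)) • single [] 1)
termination_by a b => a.length + b.length

/-- The bilinear extension of a function of two lists. -/
def Kit_bl {M : Type} [AddCommGroup M] (F : List V → List W → M) :
    Kit_O V →ₗ[ℤ] Kit_O W →ₗ[ℤ] M :=
  linearCombination ℤ fun a => linearCombination ℤ (F a)

theorem Kit_bl_single {M : Type} [AddCommGroup M] (F : List V → List W → M) (a : List V)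
    (b : List W) : Kit_bl F (single a 1) (single b 1) = F a b := by simp [Kit_bl]

theorem Kit_ext2 {M : Type} [AddCommGroup M] {F G : Kit_O V → Kit_O W → M}
    (F1 : ∀ v, IsLinearMap ℤ fun u => F u v) (F2 : ∀ u, IsLinearMap ℤ (F u))
    (G1 : ∀ v, IsLinearMap ℤ fun u => G u v) (G2 : ∀ u, IsLinearMap ℤ (G u))
    (h : ∀ a b, F (single a 1) (single b 1) = G (single a 1) (single b 1)) (u : Kit_O V)
    (v : Kit_O W) : F u v = G u v := by
  induction u using Kit_ind with
  | h0 => exact ((F1 v).map_zero).trans ((G1 v).map_zero).symm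
  | hadd a b ha hb => exact ((F1 v).map_add a b).trans (by rw [ha, hb, ← (G1 v).map_add])
  | hs n a ha => exact ((F1 v).map_smul n a).trans (by rw [ha, ← (G1 v).map_smul])
  | h1 a =>
    induction v using Kit_ind with
    | h0 => exact ((F2 _).map_zero).trans ((G2 _).map_zero).symm
    | hadd c d hc hd => rw [(F2 _).map_add, (G2 _).map_add, hc, hd]
    | hs n c hc => rw [(F2 _).map_smul, (G2 _).map_smul, hc]
    | h1 b => exact h a b

def Kit_sh : Kit_O V →ₗ[ℤ] Kit_O W →ₗ[ℤ] Kit_O (V × W) := Kit_bl Kit_shl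

@[simp] theorem Kit_sh_nil (v : Kit_O W) : Kit_sh (single ([] : List V) 1) v = 0 := by
  induction v using Kit_ind with
  | h0 => simp
  | hadd a b ha hb => simp only [map_add, ha, hb, add_zero]
  | hs n a ha => simp only [map_smul, ha, smul_zero]
  | h1 l => rw [Kit_sh, Kit_bl_single, Kit_shl]

@[simp] theorem Kit_sh_nil' (u : Kit_O V) : Kit_sh u (single ([] : List W) 1) = 0 := by
  induction u using Kit_ind with
  | h0 => simp
  | hadd a b ha hb => simp only [map_add, LinearMap.add_apply, ha, hb, add_zero]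
  | hs n a ha => simp only [map_smul, LinearMap.smul_apply, ha, smul_zero]
  | h1 l => rw [Kit_sh, Kit_bl_single]; rcases l with _ | ⟨a, l⟩ <;> rw [Kit_shl]

theorem Kit_sh_cc (a : V) (a' : List V) (b : W) (b' : List W) :
    Kit_sh (single (a :: a') 1) (single (b :: b') 1) =
      Kit_cons (a, b) (Kit_sh (single a' 1) (single (b :: b') 1) +
        ((-1 : ℤ) ^ a'.length) • Kit_sh (single (a :: a') 1) (single b' 1) +
        (Kit_z (single a' 1) * Kit_z (single b' 1)) • single [] 1) := by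
  simp only [Kit_sh, Kit_bl_single]
  rw [Kit_shl]

theorem Kit_sh_cons (a : V) (b : W) (u : Kit_O V) (v : Kit_O W) :
    Kit_sh (Kit_cons a u) (Kit_cons b v) = Kit_cons (a, b) (Kit_sh u (Kit_cons b v) +
      Kit_sh (Kit_cons a (Kit_e u)) v + (Kit_z u * Kit_z v) • single [] 1) := by
  refine Kit_ext2 (F := fun u v => Kit_sh (Kit_cons a u) (Kit_cons b v))
    (G := fun u v => Kit_cons (a, b) (Kit_sh u (Kit_cons b v) +
      Kit_sh (Kit_cons a (Kit_e u)) v + (Kit_z u * Kit_z v) • single [] 1)) ?_ ?_ ?_ ?_ ?_ u v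
  · exact fun v => ⟨by simp, by simp⟩
  · exact fun u => ⟨by simp, by simp⟩
  · refine fun v => ⟨fun x y => ?_, fun c x => ?_⟩
    · simp only [map_add, LinearMap.add_apply, add_mul, add_smul]; abel
    · simp only [map_add, map_smul, LinearMap.smul_apply, smul_add, smul_eq_mul, mul_assoc,
        mul_smul]
  · refine fun u => ⟨fun x y => ?_, fun c x => ?_⟩
    · simp only [map_add, mul_add, add_smul]; abel
    · simp only [map_add, map_smul, smul_add, smul_eq_mul, mul_left_comm _ c, mul_smul]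
  · intro a' b'
    simp only [Kit_cons_single, Kit_e_single, map_smul, LinearMap.smul_apply]
    exact Kit_sh_cc a a' b b'

theorem Kit_list2 {P : List V → List W → Prop} (h1 : ∀ b, P [] b) (h2 : ∀ a, P a [])
    (h : ∀ a a' b b', P a' (b :: b') → P (a :: a') b' → P (a :: a') (b :: b')) (a : List V)
    (b : List W) : P a b := by
  induction a generalizing b with
  | nil => exact h1 b
  | cons a a' iha =>
    induction b with
    | nil => exact h2 _
    | cons b b' ihb => exact h a a' b b' (iha _) ihb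

theorem Kit_leib (a : List V) (b : List W) :
    Kit_D (Kit_sh (single a 1) (single b 1)) = Kit_sh (Kit_D (single a 1)) (single b 1) -
      ((-1 : ℤ) ^ a.length) • Kit_sh (single a 1) (Kit_D (single b 1)) +
      (Kit_z (Kit_D (single a 1)) * Kit_z (Kit_D (single b 1))) • single [] 1 := by
  induction a, b using Kit_list2 with
  | h1 b => simp
  | h2 a => simp
  | h a a' b b' iha ihb =>
    have e1 := Kit_sh_cons a b (Kit_D (single a' 1)) (single b' 1)
    have e2 := Kit_sh_cons a b (single a' 1) (Kit_D (single b' 1))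
    rw [Kit_e_D, Kit_cons_single] at e1
    rw [Kit_e_single, map_smul, Kit_cons_single] at e2
    rw [Kit_sh_cc, Kit_D_cons, Kit_D.map_add, Kit_D.map_add, Kit_D.map_smul, Kit_D.map_smul, iha,
      ihb]
    simp only [Kit_D_single_cons, map_sub, LinearMap.sub_apply, Kit_z_cons, sub_zero, Kit_D_nil,
      List.length_cons, pow_succ, e1, e2, map_add, map_smul, LinearMap.smul_apply, smul_zero,
      add_zero]
    simp only [smul_smul, smul_add, smul_sub]
    module

theorem Kit_sh_mem' (a : List V) (b : List W) :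
    Kit_sh (single a 1) (single b 1) ∈ Kit_G (V × W) (a.length + b.length - 1) := by
  induction a, b using Kit_list2 with
  | h1 b => simp
  | h2 a => simp
  | h a a' b b' iha ihb =>
    rw [Kit_sh_cc]
    have e : (a :: a').length + (b :: b').length - 1 = a'.length + b'.length + 1 := by
      simp; omega
    rw [e]
    refine Kit_cons_mem _ (add_mem (add_mem ?_ (Submodule.smul_mem _ _ ?_)) ?_)
    · simpa using iha
    · have e : (a :: a').length + b'.length - 1 = a'.length + b'.length := by simp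
      rwa [e] at ihb
    · rw [Kit_z_single, Kit_z_single]
      split_ifs with h1 h2
      · subst h1 h2; exact Submodule.smul_mem _ _ (Kit_single_mem _ rfl)
      all_goals simp

theorem Kit_sh_nat (f : V → V') (g : W → W') (u : Kit_O V) (v : Kit_O W) :
    Kit_mp (Prod.map f g) (Kit_sh u v) = Kit_sh (Kit_mp f u) (Kit_mp g v) := by
  refine Kit_ext2 (F := fun u v => Kit_mp (Prod.map f g) (Kit_sh u v))
    (G := fun u v => Kit_sh (Kit_mp f u) (Kit_mp g v)) (fun v => ⟨by simp, by simp⟩)
    (fun v => ⟨by simp, by simp⟩) (fun v => ⟨by simp, by simp⟩) (fun v => ⟨by simp, by simp⟩)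
    ?_ u v
  intro a b
  induction a, b using Kit_list2 with
  | h1 b => simp
  | h2 a => simp
  | h a a' b b' iha ihb =>
    rw [Kit_sh_cc, Kit_mp_cons, (Kit_mp _).map_add, (Kit_mp _).map_add, (Kit_mp _).map_smul,
      (Kit_mp _).map_smul, iha, ihb]
    simp only [Kit_mp_single, List.map_cons, List.map_nil]
    rw [Kit_sh_cc]
    simp [Kit_z_single]

theorem Kit_sh_pt (a : V) (l : List V) (b : W) :
    Kit_sh (single (a :: l) 1) (single [b] 1) = single ((a :: l).map fun x => (x, b)) 1 := by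
  induction l generalizing a with
  | nil => rw [Kit_sh_cc]; simp [Kit_z_single]
  | cons c l ih => rw [Kit_sh_cc, ih]; simp [Kit_z_single]

theorem Kit_pt_sh (a : V) (b : W) (l : List W) :
    Kit_sh (single [a] 1) (single (b :: l) 1) = single ((b :: l).map fun y => (a, y)) 1 := by
  induction l generalizing b with
  | nil => rw [Kit_sh_cc]; simp [Kit_z_single]
  | cons c l ih => rw [Kit_sh_cc, ih]; simp [Kit_z_single]

theorem Kit_sh_mem {p q : ℕ} {u : Kit_O V} {v : Kit_O W} (hu : u ∈ Kit_G V p)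
    (hv : v ∈ Kit_G W q) : Kit_sh u v ∈ Kit_G (V × W) (p + q - 1) := by
  refine Kit_Gind (P := fun u => Kit_sh u v ∈ Kit_G (V × W) (p + q - 1)) (by simp) ?_ ?_ ?_ hu
  · intro a b ha hb; rw [map_add]; exact add_mem ha hb
  · intro k a ha; rw [map_smul]; exact Submodule.smul_mem _ _ ha
  intro a ha
  refine Kit_Gind (P := fun v => Kit_sh (single a 1) v ∈ Kit_G (V × W) (p + q - 1)) (by simp)
    ?_ ?_ ?_ hv
  · intro a b ha hb; rw [map_add]; exact add_mem ha hb
  · intro k a ha; rw [map_smul]; exact Submodule.smul_mem _ _ ha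
  intro b hb
  rw [← ha, ← hb]; exact Kit_sh_mem' a b

/-- The defect of commutativity. -/
def Kit_Ph (s : ℤ) (u : Kit_O V) (v : Kit_O W) : Kit_O (V × W) :=
  Kit_sh u v - s • Kit_mp Prod.swap (Kit_sh v u)

/-- The cone over the pair of first vertices. -/
def Kit_hd : List V → List W → Kit_O (V × W) →ₗ[ℤ] Kit_O (V × W)
  | a :: _, b :: _ => Kit_cons (a, b)
  | _, _ => 0

/-- The commutativity homotopy, indexed by the lengths of the lists. -/
def Kit_w : ℕ → ℕ → Kit_O V →ₗ[ℤ] Kit_O W →ₗ[ℤ] Kit_O (V × W)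
  | 0, _ => 0
  | _ + 1, 0 => 0
  | p + 1, q + 1 => Kit_bl fun a b => Kit_hd a b
      (Kit_Ph ((-1) ^ (p * q)) (single a 1) (single b 1) -
        Kit_w p (q + 1) (Kit_D (single a 1)) (single b 1) -
        ((-1 : ℤ) ^ p) • Kit_w (p + 1) q (single a 1) (Kit_D (single b 1)))
termination_by p q => p + q

@[simp] theorem Kit_w_zero (q : ℕ) :
    (Kit_w 0 q : Kit_O V →ₗ[ℤ] Kit_O W →ₗ[ℤ] Kit_O (V × W)) = 0 := by rw [Kit_w]

@[simp] theorem Kit_w_zero' (p : ℕ) :
    (Kit_w p 0 : Kit_O V →ₗ[ℤ] Kit_O W →ₗ[ℤ] Kit_O (V × W)) = 0 := by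
  rcases p with _ | p <;> rw [Kit_w]

theorem Kit_w_ss (p q : ℕ) (a : List V) (b : List W) :
    Kit_w (p + 1) (q + 1) (single a 1) (single b 1) = Kit_hd a b
      (Kit_Ph ((-1) ^ (p * q)) (single a 1) (single b 1) -
        Kit_w p (q + 1) (Kit_D (single a 1)) (single b 1) -
        ((-1 : ℤ) ^ p) • Kit_w (p + 1) q (single a 1) (Kit_D (single b 1))) := by
  rw [Kit_w, Kit_bl_single]

theorem Kit_nat2 {P : ℕ → ℕ → Prop} (h1 : ∀ q, P 0 q) (h2 : ∀ p, P p 0)
    (h : ∀ p q, P p (q + 1) → P (p + 1) q → P (p + 1) (q + 1)) (p q : ℕ) : P p q := by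
  induction p generalizing q with
  | zero => exact h1 q
  | succ p ihp =>
    induction q with
    | zero => exact h2 _
    | succ q ihq => exact h p q (ihp _) ihq

theorem Kit_Gind2 {p q : ℕ} {P : Kit_O V → Kit_O W → Prop} (h0 : ∀ v, P 0 v) (h0' : ∀ u, P u 0)
    (hadd : ∀ a b v, P a v → P b v → P (a + b) v) (hadd' : ∀ u a b, P u a → P u b → P u (a + b))
    (hs : ∀ (n : ℤ) a v, P a v → P (n • a) v) (hs' : ∀ (n : ℤ) u a, P u a → P u (n • a))
    (h1 : ∀ (a : List V) (b : List W), a.length = p → b.length = q → P (single a 1) (single b 1))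
    {u : Kit_O V} {v : Kit_O W} (hu : u ∈ Kit_G V p) (hv : v ∈ Kit_G W q) : P u v :=
  Kit_Gind (P := fun u => P u v) (h0 v) (fun a b => hadd a b v) (fun n a => hs n a v)
    (fun a ha => Kit_Gind (P := fun v => P (single a 1) v) (h0' _) (hadd' _) (fun n => hs' n _)
      (fun b hb => h1 a b ha hb) hv) hu

theorem Kit_w_mem (p q : ℕ) : ∀ u ∈ Kit_G V p, ∀ v ∈ Kit_G W q,
    Kit_w p q u v ∈ Kit_G (V × W) (p + q) := by
  induction p, q using Kit_nat2 with
  | h1 q => simp
  | h2 p => simp
  | h p q ihp ihq =>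
    intro u hu v hv
    refine Kit_Gind2 (P := fun u v => Kit_w (p + 1) (q + 1) u v ∈ Kit_G (V × W) (p + 1 + (q + 1)))
      (by simp) (by simp) ?_ ?_ ?_ ?_ ?_ hu hv
    · intro a b v ha hb; rw [map_add]; exact add_mem ha hb
    · intro u a b ha hb; rw [map_add]; exact add_mem ha hb
    · intro k a v ha; rw [map_smul]; exact Submodule.smul_mem _ _ ha
    · intro k u a ha; rw [map_smul]; exact Submodule.smul_mem _ _ ha
    intro a b ha hb
    have h1 := Kit_single_mem a ha
    have h2 := Kit_single_mem b hb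
    obtain ⟨a0, a', rfl⟩ := List.exists_cons_of_length_eq_add_one ha
    obtain ⟨b0, b', rfl⟩ := List.exists_cons_of_length_eq_add_one hb
    rw [Kit_w_ss]
    refine Kit_cons_mem (n := p + 1 + q) _ (sub_mem (sub_mem (sub_mem ?_ ?_) ?_) ?_)
    · exact Kit_sh_mem h1 h2
    · refine Submodule.smul_mem _ _ (Kit_mp_mem _ ?_)
      have := Kit_sh_mem h2 h1
      rwa [show q + 1 + (p + 1) - 1 = p + 1 + q by omega] at this
    · have := ihp _ (Kit_D_mem h1) _ h2
      rwa [show p + (q + 1) = p + 1 + q by omega] at this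
    · exact Submodule.smul_mem _ _ (ihq _ h1 _ (Kit_D_mem h2))

theorem Kit_Ph_nat (f : V → V') (g : W → W') (s : ℤ) (u : Kit_O V) (v : Kit_O W) :
    Kit_mp (Prod.map f g) (Kit_Ph s u v) = Kit_Ph s (Kit_mp f u) (Kit_mp g v) := by
  rw [Kit_Ph, Kit_Ph, map_sub, map_smul, Kit_sh_nat, ← Kit_sh_nat g f, Kit_mp_mp, Kit_mp_mp]
  rfl

theorem Kit_w_nat (f : V → V') (g : W → W') (p q : ℕ) : ∀ (u : Kit_O V) (v : Kit_O W),
    Kit_mp (Prod.map f g) (Kit_w p q u v) = Kit_w p q (Kit_mp f u) (Kit_mp g v) := by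
  induction p, q using Kit_nat2 with
  | h1 q => simp
  | h2 p => simp
  | h p q ihp ihq =>
    refine Kit_ext2 (F := fun u v => Kit_mp (Prod.map f g) (Kit_w (p + 1) (q + 1) u v))
      (G := fun u v => Kit_w (p + 1) (q + 1) (Kit_mp f u) (Kit_mp g v))
      (fun v => ⟨by simp, by simp⟩) (fun v => ⟨by simp, by simp⟩) (fun v => ⟨by simp, by simp⟩)
      (fun v => ⟨by simp, by simp⟩) ?_
    intro a b
    have hd : ∀ c, Kit_mp (Prod.map f g) (Kit_hd a b c) =
        Kit_hd (a.map f) (b.map g) (Kit_mp (Prod.map f g) c) := by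
      intro c
      rcases a with _ | ⟨a0, a⟩
      · simp [Kit_hd]
      rcases b with _ | ⟨b0, b⟩
      · simp [Kit_hd]
      exact Kit_mp_cons _ _ c
    rw [Kit_w_ss, hd, (Kit_mp _).map_sub, (Kit_mp _).map_sub, (Kit_mp _).map_smul, ihp, ihq,
      Kit_Ph_nat, Kit_mp_D, Kit_mp_D, Kit_mp_single, Kit_mp_single, Kit_w_ss]

theorem Kit_D_Ph (a0 : V) (a : List V) (b0 : W) (b : List W) :
    Kit_D (Kit_Ph ((-1) ^ (a.length * b.length)) (single (a0 :: a) 1) (single (b0 :: b) 1)) =
      Kit_Ph ((-1) ^ ((a.length + 1) * b.length)) (Kit_D (single (a0 :: a) 1))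
        (single (b0 :: b) 1) + ((-1 : ℤ) ^ a.length) •
      Kit_Ph ((-1) ^ (a.length * (b.length + 1))) (single (a0 :: a) 1)
        (Kit_D (single (b0 :: b) 1)) := by
  have hz : Kit_z (Kit_D (single (a0 :: a) 1)) * Kit_z (Kit_D (single (b0 :: b) 1)) *
      (1 - (-1) ^ (a.length * b.length)) = 0 := by
    rw [Kit_D_single_cons, map_sub, Kit_z_cons, Kit_z_single]
    split_ifs with h
    · subst h; simp
    · simp
  have hs : ((-1 : ℤ) ^ a.length) * (-1) ^ a.length = 1 := by
    rw [← pow_add, ← two_mul, pow_mul]; simp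
  simp only [Kit_Ph, map_sub, map_smul, ← Kit_mp_D, Kit_leib, map_add, Kit_mp_single,
    List.map_nil, List.length_cons, pow_succ, add_mul, mul_add, pow_add, one_mul, mul_one]
  match_scalars
  · ring
  · ring
  · linear_combination hz
  · linear_combination ((-1) ^ (a.length * b.length)) * hs
  · ring

theorem Kit_D_w (p q : ℕ) : ∀ u ∈ Kit_G V p, ∀ v ∈ Kit_G W q,
    Kit_D (Kit_w p q u v) = Kit_Ph ((-1) ^ ((p + 1) * (q + 1))) u v -
      Kit_w (p - 1) q (Kit_D u) v + ((-1 : ℤ) ^ p) • Kit_w p (q - 1) u (Kit_D v) := by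
  induction p, q using Kit_nat2 with
  | h1 q =>
    intro u hu v _
    refine Kit_Gind (P := fun u => Kit_D (Kit_w 0 q u v) = Kit_Ph _ u v -
      Kit_w (0 - 1) q (Kit_D u) v + ((-1 : ℤ) ^ 0) • Kit_w 0 (q - 1) u (Kit_D v)) ?_ ?_ ?_ ?_ hu
    · simp [Kit_Ph]
    · intro a b ha hb; simp only [Kit_Ph, map_add, LinearMap.add_apply, ha, hb]; module
    · intro k a ha; simp only [Kit_Ph, map_smul, LinearMap.smul_apply, ha]; module
    · intro l hl; obtain rfl := List.eq_nil_of_length_eq_zero hl; simp [Kit_Ph]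
  | h2 p =>
    intro u _ v hv
    refine Kit_Gind (P := fun v => Kit_D (Kit_w p 0 u v) = Kit_Ph _ u v -
      Kit_w (p - 1) 0 (Kit_D u) v + ((-1 : ℤ) ^ p) • Kit_w p (0 - 1) u (Kit_D v)) ?_ ?_ ?_ ?_ hv
    · simp [Kit_Ph]
    · intro a b ha hb; simp only [Kit_Ph, map_add, LinearMap.add_apply, ha, hb]; module
    · intro k a ha; simp only [Kit_Ph, map_smul, LinearMap.smul_apply, ha]; module
    · intro l hl; obtain rfl := List.eq_nil_of_length_eq_zero hl; simp [Kit_Ph]
  | h p q ihp ihq =>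
    intro u hu v hv
    refine Kit_Gind2 (P := fun u v => Kit_D (Kit_w (p + 1) (q + 1) u v) = Kit_Ph _ u v -
      Kit_w (p + 1 - 1) (q + 1) (Kit_D u) v +
        ((-1 : ℤ) ^ (p + 1)) • Kit_w (p + 1) (q + 1 - 1) u (Kit_D v)) ?_ ?_ ?_ ?_ ?_ ?_ ?_ hu hv
    · simp [Kit_Ph]
    · simp [Kit_Ph]
    · intro a b v ha hb; simp only [Kit_Ph, map_add, LinearMap.add_apply, ha, hb]; module
    · intro u a b ha hb; simp only [Kit_Ph, map_add, LinearMap.add_apply, ha, hb]; module
    · intro k a v ha; simp only [Kit_Ph, map_smul, LinearMap.smul_apply, ha]; module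
    · intro k u a ha; simp only [Kit_Ph, map_smul, LinearMap.smul_apply, ha]; module
    intro a b ha hb
    have h1 := Kit_single_mem a ha
    have h2 := Kit_single_mem b hb
    obtain ⟨a0, a', rfl⟩ := List.exists_cons_of_length_eq_add_one ha
    obtain ⟨b0, b', rfl⟩ := List.exists_cons_of_length_eq_add_one hb
    obtain rfl : a'.length = p := by simpa using ha
    obtain rfl : b'.length = q := by simpa using hb
    have s1 : (-1 : ℤ) ^ ((a'.length + 1 + 1) * (b'.length + 1 + 1)) =
        (-1) ^ (a'.length * b'.length) := by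
      rw [show (a'.length + 1 + 1) * (b'.length + 1 + 1) =
        a'.length * b'.length + 2 * (a'.length + b'.length + 2) by ring, pow_add, pow_mul]; simp
    have s2 : (-1 : ℤ) ^ ((a'.length + 1) * (b'.length + 1 + 1)) =
        (-1) ^ ((a'.length + 1) * b'.length) := by
      rw [show (a'.length + 1) * (b'.length + 1 + 1) =
        (a'.length + 1) * b'.length + 2 * (a'.length + 1) by ring, pow_add, pow_mul _ 2]; simp
    have s3 : (-1 : ℤ) ^ ((a'.length + 1 + 1) * (b'.length + 1)) =
        (-1) ^ (a'.length * (b'.length + 1)) := by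
      rw [show (a'.length + 1 + 1) * (b'.length + 1) =
        a'.length * (b'.length + 1) + 2 * (b'.length + 1) by ring, pow_add, pow_mul _ 2]; simp
    have e1 := ihp _ (Kit_D_mem h1) _ h2
    have e2 := ihq _ h1 _ (Kit_D_mem h2)
    rw [s2, Kit_D_D] at e1
    rw [s3, Kit_D_D] at e2
    rw [Kit_w_ss, s1]
    change Kit_D (Kit_cons (a0, b0) _) = _
    rw [Kit_D_cons, Kit_D.map_sub, Kit_D.map_sub, Kit_D.map_smul, e1, e2, Kit_D_Ph]
    simp only [Nat.add_sub_cancel, map_zero, LinearMap.zero_apply, smul_zero, pow_succ]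
    rw [show ∀ A B C : Kit_O (V × W), A + (-1 : ℤ) ^ a'.length • B -
      (A - 0 + (-1 : ℤ) ^ a'.length • C) - (-1 : ℤ) ^ a'.length • (B - C + 0) = 0 from
        fun A B C => by module, map_zero]
    module

end

end Pool.Agent.MP_bc14e1_gt
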