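import Pool.Agent.MP_bc14e1_gt.Core2
import Pool.Agent.MP_bc14e1_gt.P.KitA

/-! Lists of pairs of vertices as singular simplices of a product. -/

open Finsupp
open scoped Classical

namespace Pool.Agent.MP_bc14e1_gt

noncomputable section

theorem Kit_find {V : Type} {P : Kit_O V → Prop} (h0 : P 0)
    (hadd : ∀ a b, P a → P b → P (a + b)) (hs : ∀ (n : ℤ) a, P a → P (n • a))
    (hn : P (single [] 1)) (h1 : ∀ (n : ℕ) (v : Fin (n + 1) → V), P (single (List.ofFn v) 1))
    (c : Kit_O V) : P c := by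
  refine Kit_ind h0 hadd hs (fun l => ?_) c
  induction l using List.ofFnRec with
  | h n f =>
    rcases n with _ | n
    · simpa using hn
    · exact h1 n f

/-- The simplicial map of a map of vertices. -/
def Kit_m {V W : Type} [Fintype V] [Fintype W] (f : V → W) :
    C(stdSimplex ℝ V, stdSimplex ℝ W) := ⟨stdSimplex.map f, stdSimplex.continuous_map f⟩

theorem Kit_m_comp {U V W : Type} [Fintype U] [Fintype V] [Fintype W] (g : V → W) (f : U → V) :
    (Kit_m g).comp (Kit_m f) = Kit_m (g ∘ f) :=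
  ContinuousMap.ext fun x => stdSimplex.map_comp_apply f g x

theorem Kit_m_id {V : Type} [Fintype V] : Kit_m (id : V → V) = ContinuousMap.id _ :=
  ContinuousMap.ext fun x => stdSimplex.map_id_apply x

variable (R : Type) [CommRing R] {V W V' W' X Y X' Y' : Type} [Fintype V] [Fintype W] [Fintype V']
  [Fintype W'] [TopologicalSpace X] [TopologicalSpace Y] [TopologicalSpace X']
  [TopologicalSpace Y']

/-- The simplex of a list of pairs of vertices. -/
def Kit_sx (σ : C(stdSimplex ℝ V, X)) (τ : C(stdSimplex ℝ W, Y)) {n : ℕ}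
    (v : Fin (n + 1) → V × W) : Sing (X × Y) n :=
  (σ.comp (Kit_m (Prod.fst ∘ v))).prodMk (τ.comp (Kit_m (Prod.snd ∘ v)))

def Kit_rt (σ : C(stdSimplex ℝ V, X)) (τ : C(stdSimplex ℝ W, Y)) :
    (Σ n : ℕ, Fin n → V × W) → Tot R (X × Y)
  | ⟨0, _⟩ => 0
  | ⟨n + 1, v⟩ => single ⟨n, Kit_sx σ τ v⟩ 1

/-- The singular chain of an ordered chain. -/
def Kit_rl (σ : C(stdSimplex ℝ V, X)) (τ : C(stdSimplex ℝ W, Y)) :
    Kit_O (V × W) →ₗ[ℤ] Tot R (X × Y) :=
  linearCombination ℤ fun l => Kit_rt R σ τ (List.equivSigmaTuple l)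

variable {R} (σ : C(stdSimplex ℝ V, X)) (τ : C(stdSimplex ℝ W, Y))

@[simp] theorem Kit_rl_nil : Kit_rl R σ τ (single [] 1) = 0 := by
  rw [Kit_rl, linearCombination_single, one_smul]; rfl

theorem Kit_rl_ofFn {n : ℕ} (v : Fin (n + 1) → V × W) :
    Kit_rl R σ τ (single (List.ofFn v) 1) = single ⟨n, Kit_sx σ τ v⟩ 1 := by
  have : List.equivSigmaTuple (List.ofFn v) = ⟨n + 1, v⟩ :=
    List.equivSigmaTuple.apply_symm_apply ⟨n + 1, v⟩
  rw [Kit_rl, linearCombination_single, one_smul, this]; rfl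

theorem Kit_face_sx {n : ℕ} (i : Fin (n + 2)) (v : Fin (n + 2) → V × W) :
    face i (Kit_sx σ τ v) = Kit_sx σ τ (v ∘ i.succAbove) := by
  refine ContinuousMap.ext fun t => Prod.ext ?_ ?_
  · exact congrArg σ (stdSimplex.map_comp_apply _ _ t)
  · exact congrArg τ (stdSimplex.map_comp_apply _ _ t)

theorem Kit_rl_D (c : Kit_O (V × W)) :
    dT R _ (Kit_rl R σ τ c) = Kit_rl R σ τ (Kit_D c) := by
  induction c using Kit_find with
  | h0 => simp
  | hadd a b ha hb => simp only [map_add, ha, hb]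
  | hs n a ha => simp only [map_zsmul, ha]
  | hn => simp
  | h1 n v =>
    rw [Kit_rl_ofFn, ← inc_single, Kit_D_ofFn, map_sum]
    rcases n with _ | n
    · rw [dT_inc_zero]; simp
    · rw [dT_inc_succ, bd_single, map_sum]
      refine Finset.sum_congr rfl fun i _ => ?_
      rw [map_zsmul, map_zsmul, inc_single, Kit_rl_ofFn, Kit_face_sx]

theorem Kit_rl_mp (f : V' → V) (g : W' → W) (c : Kit_O (V' × W')) :
    Kit_rl R σ τ (Kit_mp (Prod.map f g) c) =
      Kit_rl R (σ.comp (Kit_m f)) (τ.comp (Kit_m g)) c := by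
  induction c using Kit_find with
  | h0 => simp
  | hadd a b ha hb => simp only [map_add, ha, hb]
  | hs n a ha => simp only [map_zsmul, ha]
  | hn => simp
  | h1 n v =>
    rw [Kit_mp_single, List.map_ofFn, Kit_rl_ofFn, Kit_rl_ofFn, Kit_sx, Kit_sx,
      ContinuousMap.comp_assoc, ContinuousMap.comp_assoc, Kit_m_comp, Kit_m_comp]
    rfl

theorem Kit_psh_rl (f : X → X') (g : Y → Y') (hf : Continuous (f ∘ σ)) (hg : Continuous (g ∘ τ))
    (c : Kit_O (V × W)) :
    psh R (Prod.map f g) (Kit_rl R σ τ c) = Kit_rl R ⟨f ∘ σ, hf⟩ ⟨g ∘ τ, hg⟩ c := by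
  induction c using Kit_find with
  | h0 => simp
  | hadd a b ha hb => simp only [map_add, ha, hb]
  | hs n a ha => simp only [map_zsmul, ha]
  | hn => simp
  | h1 n v =>
    rw [Kit_rl_ofFn, Kit_rl_ofFn]
    exact psh_single (Prod.map f g) ⟨n, Kit_sx σ τ v⟩
      (Kit_sx ⟨f ∘ σ, hf⟩ ⟨g ∘ τ, hg⟩ v).continuous 1

theorem Kit_swap_rl (c : Kit_O (V × W)) :
    psh R Prod.swap (Kit_rl R σ τ c) = Kit_rl R τ σ (Kit_mp Prod.swap c) := by
  induction c using Kit_find with
  | h0 => simp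
  | hadd a b ha hb => simp only [map_add, ha, hb]
  | hs n a ha => simp only [map_zsmul, ha]
  | hn => simp
  | h1 n v =>
    rw [Kit_mp_single, List.map_ofFn, Kit_rl_ofFn, Kit_rl_ofFn]
    exact psh_single Prod.swap ⟨n, Kit_sx σ τ v⟩ (Kit_sx τ σ (Prod.swap ∘ v)).continuous 1

theorem Kit_cast_rl {S : Type} [CommRing S] (φ : R →+* S) (c : Kit_O (V × W)) :
    cast φ _ (Kit_rl R σ τ c) = Kit_rl S σ τ c := by
  induction c using Kit_find with
  | h0 => simp
  | hadd a b ha hb => simp only [map_add, ha, hb]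
  | hs n a ha => simp only [map_zsmul, ha]
  | hn => simp
  | h1 n v => rw [Kit_rl_ofFn, Kit_rl_ofFn, cast_single, map_one]

theorem Kit_rl_CH {A : Set X} {B : Set Y} (hA : ∀ t, σ t ∈ A) (hB : ∀ t, τ t ∈ B)
    (c : Kit_O (V × W)) : Kit_rl R σ τ c ∈ CH R (A ×ˢ B) := by
  induction c using Kit_find with
  | h0 => simp
  | hadd a b ha hb => rw [map_add]; exact add_mem ha hb
  | hs n a ha => rw [map_zsmul]; exact zsmul_mem ha n
  | hn => simp
  | h1 n v => rw [Kit_rl_ofFn]; exact single_mem_CH _ fun t => ⟨hA _, hB _⟩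

theorem Kit_rl_DG {n : ℕ} {c : Kit_O (V × W)} (hc : c ∈ Kit_G (V × W) (n + 1)) :
    Kit_rl R σ τ c ∈ DG R (X × Y) n := by
  refine Kit_Gind (P := fun c => Kit_rl R σ τ c ∈ DG R (X × Y) n) (by simp) ?_ ?_ ?_ hc
  · intro a b ha hb; rw [map_add]; exact add_mem ha hb
  · intro k a ha; rw [map_zsmul]; exact zsmul_mem ha k
  · intro l hl
    induction l using List.ofFnRec with
    | h m f =>
      obtain rfl : m = n + 1 := by simpa using hl
      rw [Kit_rl_ofFn]; exact single_mem_DG ⟨n, _⟩ _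

/-- The list of all vertices. -/
def Kit_fr (p : ℕ) : Kit_O (Fin (p + 1)) := single (List.ofFn id) 1

theorem Kit_fr_mem (p : ℕ) : Kit_fr p ∈ Kit_G (Fin (p + 1)) (p + 1) :=
  Kit_single_mem _ List.length_ofFn

theorem Kit_D_fr_zero : Kit_D (Kit_fr 0) = single [] 1 := by
  rw [Kit_fr, Kit_D_ofFn]; simp

theorem Kit_D_fr (p : ℕ) : Kit_D (Kit_fr (p + 1)) =
    ∑ i : Fin (p + 2), ((-1 : ℤ) ^ (i : ℕ)) • Kit_mp i.succAbove (Kit_fr p) := by
  rw [Kit_fr, Kit_D_ofFn]
  refine Finset.sum_congr rfl fun i _ => ?_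
  rw [Kit_fr, Kit_mp_single, List.map_ofFn]; rfl

theorem Kit_mp_id {V : Type} (c : Kit_O V) : Kit_mp id c = c := by
  induction c using Kit_ind with
  | h0 => simp
  | hadd a b ha hb => simp only [map_add, ha, hb]
  | hs n a ha => simp only [map_smul, ha]
  | h1 l => simp

/-- A natural bilinear operation on ordered chains. -/
structure Kit_Op where
  S : ℕ → ℕ → ∀ V W : Type, Kit_O V →ₗ[ℤ] Kit_O W →ₗ[ℤ] Kit_O (V × W)
  nat : ∀ (p q : ℕ) (V W V' W' : Type) (f : V → V') (g : W → W') (u : Kit_O V) (v : Kit_O W),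
    Kit_mp (Prod.map f g) (S p q V W u v) = S p q V' W' (Kit_mp f u) (Kit_mp g v)
  nil : ∀ (q : ℕ) (V W : Type) (v : Kit_O W), S 0 q V W (single [] 1) v = 0
  nil' : ∀ (p : ℕ) (V W : Type) (u : Kit_O V), S p 0 V W u (single [] 1) = 0

variable (T : Kit_Op)

variable (R X Y) in
/-- The operation on singular chains. -/
def Kit_bil : Tot R X →ₗ[R] Tot R Y →ₗ[R] Tot R (X × Y) :=
  linearCombination R fun s : TS X => linearCombination R fun t : TS Y =>
    Kit_rl R s.2 t.2 (T.S (s.1 + 1) (t.1 + 1) _ _ (Kit_fr s.1) (Kit_fr t.1))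

theorem Kit_bil_single (s : TS X) (t : TS Y) :
    Kit_bil R X Y T (single s 1) (single t 1) =
      Kit_rl R s.2 t.2 (T.S (s.1 + 1) (t.1 + 1) _ _ (Kit_fr s.1) (Kit_fr t.1)) := by
  simp only [Kit_bil, linearCombination_single, one_smul]

theorem Kit_bil_left (p q : ℕ) (s : Sing X p) (t : Sing Y q) :
    Kit_bil R X Y T (dT R X (single ⟨p, s⟩ 1)) (single ⟨q, t⟩ 1) =
      Kit_rl R s t (T.S p (q + 1) _ _ (Kit_D (Kit_fr p)) (Kit_fr q)) := by
  rw [← inc_single p]
  rcases p with _ | p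
  · rw [dT_inc_zero, Kit_D_fr_zero, T.nil]; simp
  · rw [dT_inc_succ, bd_single, Kit_D_fr]
    simp only [map_sum, LinearMap.sum_apply, map_zsmul, LinearMap.smul_apply, inc_single]
    refine Finset.sum_congr rfl fun i _ => ?_
    rw [Kit_bil_single]
    conv_rhs => rw [← Kit_mp_id (Kit_fr q), ← T.nat, Kit_rl_mp, Kit_m_id]
    rfl

theorem Kit_bil_right (p q : ℕ) (s : Sing X p) (t : Sing Y q) :
    Kit_bil R X Y T (single ⟨p, s⟩ 1) (dT R Y (single ⟨q, t⟩ 1)) =
      Kit_rl R s t (T.S (p + 1) q _ _ (Kit_fr p) (Kit_D (Kit_fr q))) := by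
  rw [← inc_single q]
  rcases q with _ | q
  · rw [dT_inc_zero, Kit_D_fr_zero, T.nil']; simp
  · rw [dT_inc_succ, bd_single, Kit_D_fr]
    simp only [map_sum, map_zsmul, inc_single]
    refine Finset.sum_congr rfl fun i _ => ?_
    rw [Kit_bil_single]
    conv_rhs => rw [← Kit_mp_id (Kit_fr p), ← T.nat, Kit_rl_mp, Kit_m_id]
    rfl

theorem Kit_mem2 {α β M : Type} [AddCommGroup M] [Module R M] {A : Set α} {B : Set β}
    (F : (α →₀ R) →ₗ[R] (β →₀ R) →ₗ[R] M) (N : Submodule R M)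
    (h : ∀ a ∈ A, ∀ b ∈ B, F (single a 1) (single b 1) ∈ N) {u : α →₀ R} {v : β →₀ R}
    (hu : u ∈ supported R R A) (hv : v ∈ supported R R B) : F u v ∈ N := by
  refine supported_ind (P := fun u => F u v ∈ N) (by simp) (fun a b ha hb => ?_)
    (fun a ha r => ?_) hu
  · rw [map_add]; exact add_mem ha hb
  refine supported_ind (P := fun v => F (single a r) v ∈ N) (by simp) (fun a b ha hb => ?_)
    (fun b hb r' => ?_) hv
  · rw [map_add]; exact add_mem ha hb
  rw [← mul_one r, ← mul_one r', ← smul_eq_mul, ← smul_eq_mul, ← smul_single, ← smul_single,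
    map_smul, map_smul]
  exact N.smul_mem _ (N.smul_mem _ (h a ha b hb))

theorem Kit_eq2 {α β M : Type} [AddCommGroup M] [Module R M] {A : Set α} {B : Set β}
    (F G : (α →₀ R) →ₗ[R] (β →₀ R) →ₗ[R] M)
    (h : ∀ a ∈ A, ∀ b ∈ B, F (single a 1) (single b 1) = G (single a 1) (single b 1))
    {u : α →₀ R} {v : β →₀ R} (hu : u ∈ supported R R A) (hv : v ∈ supported R R B) :
    F u v = G u v :=
  sub_eq_zero.1 ((Submodule.mem_bot R).1 (Kit_mem2 (F - G) ⊥
    (fun a ha b hb => (Submodule.mem_bot R).2 (sub_eq_zero.2 (h a ha b hb))) hu hv))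

theorem Kit_bil_nat (f : X → X') (g : Y → Y') {A : Set X} {B : Set Y} (hf : ContinuousOn f A)
    (hg : ContinuousOn g B) {u : Tot R X} {v : Tot R Y} (hu : u ∈ CH R A) (hv : v ∈ CH R B) :
    psh R (Prod.map f g) (Kit_bil R X Y T u v) = Kit_bil R X' Y' T (psh R f u) (psh R g v) := by
  refine Kit_eq2 ((Kit_bil R X Y T).compr₂ (psh R (Prod.map f g)))
    ((Kit_bil R X' Y' T).compl₁₂ (psh R f) (psh R g)) (fun s hs t ht => ?_) hu hv
  have h1 : Continuous (f ∘ s.2) := hf.comp_continuous s.2.continuous fun x => hs ⟨x, rfl⟩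
  have h2 : Continuous (g ∘ t.2) := hg.comp_continuous t.2.continuous fun x => ht ⟨x, rfl⟩
  rw [LinearMap.compr₂_apply, LinearMap.compl₁₂_apply, psh_single f s h1, psh_single g t h2,
    Kit_bil_single, Kit_bil_single, Kit_psh_rl _ _ f g h1 h2]

theorem Kit_bil_CH {A : Set X} {B : Set Y} {u : Tot R X} {v : Tot R Y} (hu : u ∈ CH R A)
    (hv : v ∈ CH R B) : Kit_bil R X Y T u v ∈ CH R (A ×ˢ B) := by
  refine Kit_mem2 _ _ (fun s hs t ht => ?_) hu hv
  rw [Kit_bil_single]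
  exact Kit_rl_CH _ _ (fun x => hs ⟨x, rfl⟩) (fun x => ht ⟨x, rfl⟩) _

theorem Kit_bil_DG {p q n : ℕ}
    (h : T.S (p + 1) (q + 1) _ _ (Kit_fr p) (Kit_fr q) ∈ Kit_G _ (n + 1)) {u : Tot R X}
    {v : Tot R Y} (hu : u ∈ DG R X p) (hv : v ∈ DG R Y q) :
    Kit_bil R X Y T u v ∈ DG R (X × Y) n := by
  refine Kit_mem2 _ _ ?_ hu hv
  rintro ⟨_, s⟩ rfl ⟨_, t⟩ rfl
  rw [Kit_bil_single]
  exact Kit_rl_DG _ _ h

theorem Kit_bil_cast {S : Type} [CommRing S] (φ : R →+* S) (u : Tot R X) (v : Tot R Y) :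
    cast φ _ (Kit_bil R X Y T u v) = Kit_bil S X Y T (cast φ X u) (cast φ Y v) := by
  induction u using Finsupp.induction_linear with
  | zero => simp
  | add a b ha hb => simp only [map_add, LinearMap.add_apply, ha, hb]
  | single s a =>
    induction v using Finsupp.induction_linear with
    | zero => simp
    | add a b ha hb => simp only [map_add, ha, hb]
    | single t b =>
      rw [cast_single, cast_single]
      simp only [Kit_bil, linearCombination_single, LinearMap.smul_apply, map_smulₛₗ,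
        Kit_cast_rl]

end

end Pool.Agent.MP_bc14e1_gt
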