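import Pool.Agent.MP_bc14e1_gt.If
import Pool.Agent.MP_bc14e1_gt.P.KitB

open Set Metric
open scoped Classical

namespace Pool.Agent.MP_bc14e1_gt

noncomputable section

open Finsupp

/-- The shuffle product as a natural operation. -/
def Kit_opS : Kit_Op where
  S _ _ _ _ := Kit_sh
  nat _ _ _ _ _ _ := Kit_sh_nat
  nil _ _ _ := Kit_sh_nil
  nil' _ _ _ := Kit_sh_nil'

/-- The commutativity homotopy as a natural operation. -/
def Kit_opW : Kit_Op where
  S p q _ _ := Kit_w p q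
  nat p q _ _ _ _ f g := Kit_w_nat f g p q
  nil _ _ _ _ := by simp
  nil' _ _ _ _ := by simp

variable {R : Type} [CommRing R] {X Y : Type} [TopologicalSpace X] [TopologicalSpace Y]

theorem Kit_top {α : Type} (u : α →₀ R) : u ∈ supported R R (univ : Set α) := by
  rw [supported_univ]; trivial

theorem Kit_cx_leib (u : Tot R X) (v : Tot R Y) :
    dT R _ (Kit_bil R X Y Kit_opS u v) =
      Kit_bil R X Y Kit_opS (dT R X u) v + Kit_bil R X Y Kit_opS (eps R X u) (dT R Y v) := by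
  refine Kit_eq2 ((Kit_bil R X Y Kit_opS).compr₂ (dT R _))
    ((Kit_bil R X Y Kit_opS) ∘ₗ (dT R X) + (Kit_bil R X Y Kit_opS).compl₁₂ (eps R X) (dT R Y))
    ?_ (Kit_top u) (Kit_top v)
  rintro ⟨p, s⟩ - ⟨q, t⟩ -
  rw [LinearMap.compr₂_apply, LinearMap.add_apply, LinearMap.add_apply, LinearMap.comp_apply,
    LinearMap.compl₁₂_apply, eps, sgn_single, map_zsmul, LinearMap.smul_apply, Kit_bil_left,
    Kit_bil_right, Kit_bil_single, Kit_rl_D]
  have := Kit_leib (List.ofFn (id : Fin (p + 1) → _)) (List.ofFn (id : Fin (q + 1) → _))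
  change Kit_D (Kit_sh (Kit_fr p) (Kit_fr q)) = Kit_sh (Kit_D (Kit_fr p)) (Kit_fr q) -
    _ • Kit_sh (Kit_fr p) (Kit_D (Kit_fr q)) + _ at this
  change Kit_rl R s t (Kit_D (Kit_sh _ _)) = Kit_rl R s t (Kit_sh _ _) +
    _ • Kit_rl R s t (Kit_sh _ _)
  rw [this, map_add, map_sub, map_zsmul, map_zsmul, Kit_rl_nil, List.length_ofFn, pow_succ]
  module

theorem Kit_cx_pt (u : Tot R X) (y : Y) :
    Kit_bil R X Y Kit_opS u (pt R y) = psh R (fun x => (x, y)) u := by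
  have : (Kit_bil R X Y Kit_opS).flip (pt R y) = psh R (fun x => (x, y)) := by
    refine lhom_ext' fun s => LinearMap.ext_ring ?_
    obtain ⟨p, s⟩ := s
    rw [LinearMap.comp_apply, LinearMap.comp_apply, lsingle_apply, LinearMap.flip_apply, pt,
      Kit_bil_single, psh_single _ _ (by fun_prop)]
    change Kit_rl R s _ (Kit_sh (single (List.ofFn id) 1) (single [(0 : Fin 1)] 1)) = _
    rw [List.ofFn_succ, Kit_sh_pt, ← List.ofFn_succ, List.map_ofFn, Kit_rl_ofFn]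
    congr 2
    refine ContinuousMap.ext fun x => Prod.ext ?_ rfl
    exact congrArg s (stdSimplex.map_id_apply x)
  exact DFunLike.congr_fun this u

theorem Kit_pt_cx (x : X) (v : Tot R Y) :
    Kit_bil R X Y Kit_opS (pt R x) v = psh R (fun y => (x, y)) v := by
  have : Kit_bil R X Y Kit_opS (pt R x) = psh R (fun y => (x, y)) := by
    refine lhom_ext' fun t => LinearMap.ext_ring ?_
    obtain ⟨q, t⟩ := t
    rw [LinearMap.comp_apply, LinearMap.comp_apply, lsingle_apply, pt,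
      Kit_bil_single, psh_single _ _ (by fun_prop)]
    change Kit_rl R _ t (Kit_sh (single [(0 : Fin 1)] 1) (single (List.ofFn id) 1)) = _
    rw [List.ofFn_succ, Kit_pt_sh, ← List.ofFn_succ, List.map_ofFn, Kit_rl_ofFn]
    congr 2
    refine ContinuousMap.ext fun y => Prod.ext rfl ?_
    exact congrArg t (stdSimplex.map_id_apply y)
  exact DFunLike.congr_fun this v

theorem Kit_sh22 : Kit_sh (Kit_fr 2) (Kit_fr 2) =
    single [(0, 0), (1, 0), (2, 0), (2, 1), (2, 2)] 1 -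
    single [(0, 0), (1, 0), (1, 1), (2, 1), (2, 2)] 1 +
    single [(0, 0), (1, 0), (1, 1), (1, 2), (2, 2)] 1 +
    single [(0, 0), (0, 1), (1, 1), (2, 1), (2, 2)] 1 -
    single [(0, 0), (0, 1), (1, 1), (1, 2), (2, 2)] 1 +
    single [(0, 0), (0, 1), (0, 2), (1, 2), (2, 2)] 1 := by
  change Kit_sh (single [0, 1, 2] 1) (single [0, 1, 2] 1) = _
  simp only [Kit_sh_cc, Kit_sh_nil, Kit_sh_nil', Kit_z_single, List.length_cons, List.length_nil,
    map_add, map_smul, Kit_cons_single, reduceCtorEq, if_true, if_false, map_zero, smul_add]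
  module

theorem Kit_rl_shuf (s : Sing X 2) (t : Sing Y 2) (p q : Fin 5 → Fin 3) :
    Kit_rl ℤ s t (single [(p 0, q 0), (p 1, q 1), (p 2, q 2), (p 3, q 3), (p 4, q 4)] 1) =
      inc ℤ 4 (shuf s t p q) :=
  (Kit_rl_ofFn s t fun i => (p i, q i)).trans (inc_single 4 _ _).symm

theorem Kit_cx22 (x : Sing X 2 →₀ ℤ) (y : Sing Y 2 →₀ ℤ) :
    Kit_bil ℤ X Y Kit_opS (inc ℤ 2 x) (inc ℤ 2 y) = inc ℤ 4 (cross22 x y) := by
  conv_lhs => rw [← x.sum_single, ← y.sum_single]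
  simp only [cross22, Finsupp.sum, map_sum, LinearMap.sum_apply]
  rw [Finset.sum_comm]
  refine Finset.sum_congr rfl fun s _ => Finset.sum_congr rfl fun t _ => ?_
  rw [inc_single, inc_single, ← mul_one (x s), ← mul_one (y t), ← smul_eq_mul, ← smul_eq_mul,
    ← smul_single, ← smul_single, map_smul, map_smul, LinearMap.smul_apply, Kit_bil_single,
    map_smul, smul_smul, smul_eq_mul, smul_eq_mul, mul_one, mul_one, mul_comm]
  congr 1
  change Kit_rl ℤ s t (Kit_sh (Kit_fr 2) (Kit_fr 2)) = _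
  simp only [Kit_sh22, map_add, map_sub, ← Kit_rl_shuf]
  rfl

theorem Kit_sw_d (p q : ℕ) {u : Tot R X} {v : Tot R Y} (hu : u ∈ DG R X p) (hv : v ∈ DG R Y q) :
    Kit_bil R X Y Kit_opS u v - (-1 : ℤ) ^ (p * q) • psh R Prod.swap (Kit_bil R Y X Kit_opS v u) =
      dT R _ (Kit_bil R X Y Kit_opW u v) + Kit_bil R X Y Kit_opW (dT R X u) v +
        Kit_bil R X Y Kit_opW (eps R X u) (dT R Y v) := by
  rw [sub_eq_iff_eq_add]
  refine Kit_eq2 (Kit_bil R X Y Kit_opS)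
    ((Kit_bil R X Y Kit_opW).compr₂ (dT R _) + (Kit_bil R X Y Kit_opW) ∘ₗ (dT R X) +
      (Kit_bil R X Y Kit_opW).compl₁₂ (eps R X) (dT R Y) +
      (-1 : ℤ) ^ (p * q) • (Kit_bil R Y X Kit_opS).flip.compr₂ (psh R Prod.swap)) ?_ hu hv
  rintro ⟨p', s⟩ (rfl : p' = p) ⟨q', t⟩ (rfl : q' = q)
  rename' p' => p, q' => q
  simp only [LinearMap.smul_apply, LinearMap.compr₂_apply,
    LinearMap.add_apply, LinearMap.comp_apply, LinearMap.compl₁₂_apply, LinearMap.flip_apply]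
  rw [eps, sgn_single, map_zsmul, LinearMap.smul_apply, Kit_bil_left, Kit_bil_right,
    Kit_bil_single, Kit_bil_single, Kit_bil_single, Kit_rl_D, Kit_swap_rl]
  have := Kit_D_w (p + 1) (q + 1) _ (Kit_fr_mem p) _ (Kit_fr_mem q)
  have s1 : (-1 : ℤ) ^ ((p + 1 + 1) * (q + 1 + 1)) = (-1) ^ (p * q) := by
    rw [show (p + 1 + 1) * (q + 1 + 1) = p * q + 2 * (p + q + 2) by ring, pow_add, pow_mul]; simp
  rw [s1, Nat.add_sub_cancel, Nat.add_sub_cancel, Kit_Ph] at this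
  change Kit_rl R s t (Kit_sh _ _) =
    Kit_rl R s t (Kit_D (Kit_w _ _ _ _)) + Kit_rl R s t (Kit_w _ _ _ _) +
      _ • Kit_rl R s t (Kit_w _ _ _ _) + _ • Kit_rl R s t (Kit_mp _ (Kit_sh _ _))
  rw [this, map_add, map_sub, map_sub, map_zsmul, map_zsmul, pow_succ]
  module

/-- The cross product with all its properties. -/
def Kit_kit : Kit where
  cx R _ X Y _ _ := Kit_bil R X Y Kit_opS
  sw R _ X Y _ _ := (Kit_bil R X Y Kit_opW).compr₂ (psh R Prod.swap)
  leib _ _ _ _ _ _ := Kit_cx_leib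
  nat _ _ _ _ _ _ _ _ _ _ f g _ _ hf hg _ hu _ hv := Kit_bil_nat _ f g hf hg hu hv
  mem _ _ _ _ _ _ _ _ _ hu _ hv := Kit_bil_CH _ hu hv
  dg _ _ _ _ _ _ p q _ hu _ hv := by
    refine Kit_bil_DG _ ?_ hu hv
    have := Kit_sh_mem (Kit_fr_mem p) (Kit_fr_mem q)
    rwa [show p + 1 + (q + 1) - 1 = p + q + 1 by omega] at this
  x_pt _ _ _ _ _ _ := Kit_cx_pt
  pt_x _ _ _ _ _ _ := Kit_pt_cx
  cst _ _ _ _ φ _ _ _ _ := Kit_bil_cast _ φ
  c22 _ _ _ _ := Kit_cx22
  sw_d R _ X Y _ _ p q u hu v hv := by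
    have := congrArg (psh R Prod.swap) (Kit_sw_d p q hu hv)
    rw [map_sub, map_zsmul, psh_psh' _ continuous_swap, Prod.swap_swap_eq, psh_id, map_add,
      map_add, ← dT_psh_cont continuous_swap] at this
    exact this
  sw_nat R _ X Y X' Y' _ _ _ _ f g hf hg u v := by
    rw [LinearMap.compr₂_apply, LinearMap.compr₂_apply, ← Kit_bil_nat _ f g hf.continuousOn
      hg.continuousOn (mem_CH_univ u) (mem_CH_univ v), psh_psh' _ continuous_swap,
      psh_psh' _ (hf.prodMap hg)]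
    rfl
  sw_mem _ _ _ _ _ _ _ _ _ hu _ hv :=
    psh_mem_CH _ (fun _ hz => mk_mem_prod hz.2 hz.1) (Kit_bil_CH _ hu hv)
  sw_dg _ _ _ _ _ _ p q _ hu _ hv := by
    refine psh_mem_DG _ (Kit_bil_DG _ ?_ hu hv)
    have := Kit_w_mem (p + 1) (q + 1) _ (Kit_fr_mem p) _ (Kit_fr_mem q)
    rwa [show p + 1 + (q + 1) = p + q + 1 + 1 by omega] at this

end

theorem kit_stmt : KitStmt := ⟨Kit_kit⟩

end Pool.Agent.MP_bc14e1_gt
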