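import Pool.Agent.MP_bc14e1_gt.If

open Set Metric
open scoped Classical

namespace Pool.Agent.MP_bc14e1_gt

section

open LaurentPolynomial

theorem Lam_coeff_T_C (n m : ℤ) (a : ℂ) :
    (T n * C a : Lam ℂ).coeff m = if n = m then a else 0 := by
  rw [mul_comm, ← single_eq_C_mul_T, AddMonoidAlgebra.coeff_single, Finsupp.single_apply]

theorem Lam_coeff_C_T_mul (n m : ℤ) (a : ℂ) (f : Lam ℂ) :
    (C a * T n * f).coeff m = a * f.coeff (-n + m) := by
  rw [← single_eq_C_mul_T, AddMonoidAlgebra.coeff_single_mul_apply]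

theorem Lam_finsum_eq {c : ℤ → ℂ} (h : {n | c n ≠ 0}.Finite) :
    (∑ᶠ n : ℤ, T n * C (c n) : Lam ℂ) = ∑ n ∈ h.toFinset, T n * C (c n) := by
  refine finsum_eq_sum_of_support_subset _ fun n hn => ?_
  rw [Finite.coe_toFinset]
  intro e
  exact hn (by simp only [e, map_zero, mul_zero])

theorem Lam_coeff_finsum {c : ℤ → ℂ} (h : {n | c n ≠ 0}.Finite) (m : ℤ) :
    (∑ᶠ n : ℤ, T n * C (c n) : Lam ℂ).coeff m = c m := by
  rw [Lam_finsum_eq h, AddMonoidAlgebra.coeff_sum, Finsupp.finsetSum_apply]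
  simp only [Lam_coeff_T_C, Finset.sum_ite_eq', Finite.mem_toFinset, mem_ofPred_eq]
  split_ifs with e
  · rfl
  · exact (not_not.1 e).symm

variable {G Y : Type} [Group G] [TopologicalSpace Y] [MulAction G Y] [ContinuousConstSMul G Y]
  {s : G} {b : Form Y}

theorem Lam_inv_zpow (hb : LK s b) (m : ℤ) (u v : Tot ℂ Y) :
    b (gs ℂ Y (s ^ m) u) (gs ℂ Y (s ^ m) v) = b u v := by
  induction m using Int.induction_on generalizing u v with
  | zero => rw [zpow_zero, gs_one, gs_one]
  | succ n ih => rw [zpow_add_one, gs_mul, gs_mul, ih, hb.inv]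
  | pred n ih =>
    rw [zpow_sub_one, gs_mul, gs_mul, ih, ← hb.inv, ← gs_mul, ← gs_mul, mul_inv_cancel, gs_one,
      gs_one]

omit [ContinuousConstSMul G Y] in
theorem Lam_finite (hb : LK s b) (hp : ∀ K K' : Set Y, IsCompact K → IsCompact K' →
    {g : G | ∃ y ∈ K, g • y ∈ K'}.Finite) (u v : Tot ℂ Y) :
    {g : G | b u (gs ℂ Y g v) ≠ 0}.Finite := by
  obtain ⟨K, hK, -, hu⟩ := exists_compact_CH (mem_CH_univ u)
  obtain ⟨K', hK', -, hv⟩ := exists_compact_CH (mem_CH_univ v)
  refine (hp K' K hK' hK).subset fun g hg => ?_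
  by_contra h
  refine hg (hb.loc K Kᶜ disjoint_compl_right u hu _ (gs_mem_CH g (fun y hy e => ?_) hv))
  exact h ⟨y, hy, e⟩

end

theorem lam_stmt (hCov : CovStmt) (hLaur : LaurStmt) : LamStmt := by
  intro X G Y _ _ _ _ _ _ F p s b hT hb
  obtain ⟨-, -, -, -, h5⟩ := hCov G X Y Fᶜ p hT.cov
  obtain ⟨-, -, -, cjT, cjC, evT, evC, -⟩ := hLaur
  have hfin := Lam_finite hb (h5 inferInstance).2
  have hinj : Function.Injective fun n : ℤ => s ^ n := fun m n e => by
    have e' : s ^ m = s ^ n := e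
    have := hT.inf (m - n) (by rw [zpow_sub, e', mul_inv_cancel])
    omega
  have hfin' : ∀ u v, {n : ℤ | b u (gs ℂ Y (s ^ n) v) ≠ 0}.Finite := fun u v =>
    (hfin u v).preimage hinj.injOn
  have hco : ∀ u v n, (lamF s b u v).coeff n = b u (gs ℂ Y (s ^ n) v) := fun u v n =>
    Lam_coeff_finsum (hfin' u v) n
  have hal : ∀ u u' v, lamF s b (u + u') v = lamF s b u v + lamF s b u' v := fun u u' v => by
    refine LaurentPolynomial.ext fun n => ?_
    rw [AddMonoidAlgebra.coeff_add, Finsupp.add_apply, hco, hco, hco, map_add, LinearMap.add_apply]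
  have har : ∀ u v v', lamF s b u (v + v') = lamF s b u v + lamF s b u v' := fun u v v' => by
    refine LaurentPolynomial.ext fun n => ?_
    rw [AddMonoidAlgebra.coeff_add, Finsupp.add_apply, hco, hco, hco, map_add, map_add]
  have hsl : ∀ (a : Lam ℂ) u v, lamF s b (act ℂ Y s a u) v = a * lamF s b u v := fun a u v => by
    induction a using LaurentPolynomial.induction_on' with
    | add p q hp hq => rw [map_add, LinearMap.add_apply, hal, hp, hq, add_mul]
    | C_mul_T m a =>
      refine LaurentPolynomial.ext fun n => ?_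
      rw [Lam_coeff_C_T_mul, hco, hco, map_mul, Module.End.mul_apply, act_C, act_T, map_smul,
        LinearMap.smul_apply, smul_eq_mul, ← Lam_inv_zpow hb m u, ← gs_mul, ← zpow_add,
        add_neg_cancel_left]
  have hsr : ∀ (a : Lam ℂ) u v, lamF s b u (act ℂ Y s a v) = cj a * lamF s b u v :=
    fun a u v => by
    induction a using LaurentPolynomial.induction_on' with
    | add p q hp hq => rw [map_add, LinearMap.add_apply, har, hp, hq, map_add, add_mul]
    | C_mul_T m a =>
      refine LaurentPolynomial.ext fun n => ?_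
      rw [map_mul cj, cjT, cjC, Lam_coeff_C_T_mul, hco, hco, map_mul, Module.End.mul_apply, act_C,
        act_T, map_smul, LinearMap.map_smulₛₗ, smul_eq_mul, ← gs_mul, ← zpow_add, neg_neg,
        add_comm]
  refine ⟨⟨hal, hsl, har, hsr⟩, fun A B hB hAB u hu v hv => ?_, hfin, hco, fun η u v => ?_⟩
  · refine LaurentPolynomial.ext fun n => ?_
    rw [hco, hb.loc A B hAB u hu _ (gs_mem_CH _ (fun y hy => (hB.zpow n y).2 hy) hv)]
    rfl
  · rw [lamF, Lam_finsum_eq (hfin' u v), map_sum,
      finsum_eq_sum_of_support_subset (s := (hfin' u v).toFinset)]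
    · refine Finset.sum_congr rfl fun n _ => ?_
      rw [map_mul, evT, evC]
    · intro n hn
      rw [Finite.coe_toFinset]
      intro e
      exact hn (by simp only [e, mul_zero])

end Pool.Agent.MP_bc14e1_gt
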