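import Pool.Agent.MP_bc14e1_gt.If

/-! Averaging over a finite abelian group and the comparison of the two Dehn complexes. -/

open Set Metric
open scoped Classical

namespace Pool.Agent.MP_bc14e1_gt

noncomputable section

section Avg

variable {A : Type} [AddCommGroup A] [Fintype A] (ψ : AddChar A ℂ)
  {V W : Type} [AddCommGroup V] [Module ℂ V] [AddCommGroup W] [Module ℂ W]

/-- The projector to the eigenspace of the character. -/
def Len1_avg (ρ : A → Module.End ℂ V) : Module.End ℂ V :=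
  ∑ b, ((Fintype.card A : ℂ)⁻¹ * ψ (-b)) • ρ b

theorem Len1_avg_apply (ρ : A → Module.End ℂ V) (v : V) :
    Len1_avg ψ ρ v = ∑ b, ((Fintype.card A : ℂ)⁻¹ * ψ (-b)) • ρ b v := by
  simp only [Len1_avg, LinearMap.sum_apply, LinearMap.smul_apply]

theorem Len1_avg_map (ρ : A → Module.End ℂ V) (ρ' : A → Module.End ℂ W) (F : V →ₗ[ℂ] W)
    (h : ∀ b v, F (ρ b v) = ρ' b (F v)) (v : V) :
    F (Len1_avg ψ ρ v) = Len1_avg ψ ρ' (F v) := by
  simp only [Len1_avg_apply, map_sum, map_smul, h]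

theorem Len1_avg_eig (ρ : A → Module.End ℂ V) (F : V →ₗ[ℂ] W)
    (h : ∀ b v, F (ρ b v) = ψ b • F v) (v : V) : F (Len1_avg ψ ρ v) = F v := by
  have e : ∀ b, ((Fintype.card A : ℂ)⁻¹ * ψ (-b)) * ψ b = (Fintype.card A : ℂ)⁻¹ := fun b => by
    rw [mul_assoc, ← AddChar.map_add_eq_mul, neg_add_cancel, AddChar.map_zero_eq_one, mul_one]
  have hc : (Fintype.card A : ℂ) ≠ 0 := Nat.cast_ne_zero.2 Fintype.card_ne_zero
  simp only [Len1_avg_apply, map_sum, map_smul, h, smul_smul, e]
  rw [Finset.sum_const, Finset.card_univ, ← Nat.cast_smul_eq_nsmul ℂ, smul_smul,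
    mul_inv_cancel₀ hc, one_smul]

theorem Len1_avg_rho (ρ : A → Module.End ℂ V) (hρ : ∀ a b v, ρ (a + b) v = ρ a (ρ b v)) (a : A)
    (v : V) : Len1_avg ψ ρ (ρ a v) = ψ a • Len1_avg ψ ρ v := by
  simp only [Len1_avg_apply, Finset.smul_sum, smul_smul, ← hρ]
  refine Fintype.sum_equiv (Equiv.addRight a) _ _ fun b => ?_
  have e : a + -(b + a) = -b := by abel
  simp only [Equiv.coe_addRight]
  rw [mul_left_comm, ← AddChar.map_add_eq_mul, e]

theorem Len1_avg_avg (ρ : A → Module.End ℂ V) (hρ : ∀ a b v, ρ (a + b) v = ρ a (ρ b v)) (v : V) :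
    Len1_avg ψ ρ (Len1_avg ψ ρ v) = Len1_avg ψ ρ v :=
  Len1_avg_eig ψ ρ _ (Len1_avg_rho ψ ρ hρ) v

theorem Len1_avg_mem (ρ : A → Module.End ℂ V) (M : Submodule ℂ V)
    (h : ∀ b, ∀ v ∈ M, ρ b v ∈ M) {v : V} (hv : v ∈ M) : Len1_avg ψ ρ v ∈ M := by
  rw [Len1_avg_apply]
  exact Submodule.sum_mem _ fun b _ => M.smul_mem _ (h b v hv)

end Avg

section Left

variable {G Reg Cr : Type} [Group G]

/-- Left multiplication on the second factor. -/
def Len1_L (P : Type) (g : G) : Module.End ℂ ((P × G) →₀ ℂ) :=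
  Finsupp.lmapDomain ℂ ℂ fun x => (x.1, g * x.2)

theorem Len1_L_single {P : Type} (g : G) (x : P × G) (a : ℂ) :
    Len1_L P g (Finsupp.single x a) = Finsupp.single (x.1, g * x.2) a :=
  Finsupp.mapDomain_single

theorem Len1_L_mul {P : Type} (g g' : G) (v : (P × G) →₀ ℂ) :
    Len1_L P (g * g') v = Len1_L P g (Len1_L P g' v) := by
  induction v using Finsupp.induction_linear with
  | zero => simp only [map_zero]
  | add a b ha hb => simp only [map_add, ha, hb]
  | single z a => simp only [Len1_L_single, mul_assoc]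

theorem Len1_d1A_L (h : Reg → G) (g : G) (v : (Reg × G) →₀ ℂ) :
    d1A ℂ h (Len1_L Reg g v) = Len1_L Bool g (d1A ℂ h v) := by
  induction v using Finsupp.induction_linear with
  | zero => simp only [map_zero]
  | add a b ha hb => simp only [map_add, ha, hb]
  | single z a =>
    simp only [Len1_L_single, d1A, Finsupp.linearCombination_single, map_smul, map_sub, mul_assoc]

theorem Len1_d2A_L (reg : Cr → Fin 4 → Reg) (h : Reg → G) (g : G) (v : (Cr × G) →₀ ℂ) :
    d2A ℂ reg h (Len1_L Cr g v) = Len1_L Reg g (d2A ℂ reg h v) := by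
  induction v using Finsupp.induction_linear with
  | zero => simp only [map_zero]
  | add a b ha hb => simp only [map_add, ha, hb]
  | single z a =>
    simp only [Len1_L_single, d2A, Finsupp.linearCombination_single, map_smul, map_sub, map_add,
      mul_assoc]

theorem Len1_ellC_L {Y : Type} [TopologicalSpace Y] [MulAction G Y] [ContinuousConstSMul G Y]
    (l : Reg → Tot ℤ Y) (g : G) (v : (Reg × G) →₀ ℂ) :
    ellC ℂ l (Len1_L Reg g v) = gs ℂ Y g (ellC ℂ l v) := by
  induction v using Finsupp.induction_linear with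
  | zero => simp only [map_zero]
  | add a b ha hb => simp only [map_add, ha, hb]
  | single z a =>
    simp only [Len1_L_single, ellC, Finsupp.linearCombination_single, map_smul, gs_mul]

/-- The map to the twisted complex. -/
def Len1_Psi (P : Type) (c : G → ℂ) (nu : G → ℤ) : ((P × G) →₀ ℂ) →ₗ[ℂ] ((P × ℤ) →₀ ℂ) :=
  Finsupp.linearCombination ℂ fun x => c x.2 • Finsupp.single (x.1, nu x.2) 1

omit [Group G] in
theorem Len1_Psi_single {P : Type} (c : G → ℂ) (nu : G → ℤ) (x : P × G) (a : ℂ) :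
    Len1_Psi P c nu (Finsupp.single x a) = a • c x.2 • Finsupp.single (x.1, nu x.2) 1 :=
  Finsupp.linearCombination_single _ _ _

variable {c : G → ℂ} {nu : G → ℤ} {h : Reg → G} {gap : Reg → ℤ} {w : Reg → ℤ → ℂ}

theorem Len1_Psi_d1 (hc : ∀ g r, c (g * h r) = c g * w r (nu g))
    (hn : ∀ g r, nu (g * h r) = nu g + gap r) (v : (Reg × G) →₀ ℂ) :
    Len1_Psi Bool c nu (d1A ℂ h v) = d1T gap w (Len1_Psi Reg c nu v) := by
  induction v using Finsupp.induction_linear with
  | zero => simp only [map_zero]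
  | add a b ha hb => simp only [map_add, ha, hb]
  | single z a =>
    simp only [Len1_Psi_single, d1A, d1T, Finsupp.linearCombination_single, map_smul, map_sub,
      one_smul, hc, hn, smul_sub, mul_smul]

theorem Len1_Psi_d2 (reg : Cr → Fin 4 → Reg) (hc : ∀ g r, c (g * h r) = c g * w r (nu g))
    (hn : ∀ g r, nu (g * h r) = nu g + gap r) (hw : ∀ r n, w r n ≠ 0) (v : (Cr × G) →₀ ℂ) :
    Len1_Psi Reg c nu (d2A ℂ reg h v) = d2T reg gap w (Len1_Psi Cr c nu v) := by
  have e : ∀ g r r', g * (h r * (h r')⁻¹) * h r' = g * h r := fun g r r' => by group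
  have hn' : ∀ g r r', nu (g * (h r * (h r')⁻¹)) = nu g + (gap r - gap r') := fun g r r' => by
    have := hn (g * (h r * (h r')⁻¹)) r'
    rw [e, hn] at this
    omega
  have hc' : ∀ g r r', c (g * (h r * (h r')⁻¹)) =
      c g * (w r (nu g) / w r' (nu g + (gap r - gap r'))) := fun g r r' => by
    have := hc (g * (h r * (h r')⁻¹)) r'
    rw [e, hc, hn'] at this
    rw [← mul_div_assoc, this, mul_div_cancel_right₀ _ (hw _ _)]
  induction v using Finsupp.induction_linear with
  | zero => simp only [map_zero]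
  | add a b ha hb => simp only [map_add, ha, hb]
  | single z a =>
    simp only [Len1_Psi_single, d2A, d2T, Finsupp.linearCombination_single, map_smul, map_sub,
      map_add, one_smul, hc', hn', smul_sub, smul_add, mul_smul]
    abel

theorem Len1_Psi_L {P : Type} {s : G} {m : ℤ} (hc : ∀ g, c (s * g) = c g)
    (hn : ∀ g, nu (s * g) = nu g + m) (v : (P × G) →₀ ℂ) :
    Len1_Psi P c nu (Len1_L P s v) = shT P m (Len1_Psi P c nu v) := by
  induction v using Finsupp.induction_linear with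
  | zero => simp only [map_zero]
  | add a b ha hb => simp only [map_add, ha, hb]
  | single z a =>
    simp only [Len1_L_single, Len1_Psi_single, map_smul, hc, hn, shT, Finsupp.lmapDomain_apply,
      Finsupp.mapDomain_single]

end Left

section Io

variable {G A Reg Cr : Type} [Group G] [AddCommGroup A] [Fintype A]

/-- Coordinates on the group. -/
structure Len1_H (ψ : AddChar A ℂ) (k : A → G) (t : G) (c : G → ℂ) (nu : G → ℤ) : Prop where
  add : ∀ a b, k (a + b) = k a * k b
  ck : ∀ a g, c (k a * g) = ψ a * c g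
  nk : ∀ a g, nu (k a * g) = nu g
  ct : ∀ n : ℤ, c (t ^ n) = 1
  nt : ∀ n : ℤ, nu (t ^ n) = n
  dec : ∀ g, ∃ a, g = k a * t ^ nu g

/-- The projector on the Dehn complex. -/
def Len1_eA (P : Type) (ψ : AddChar A ℂ) (k : A → G) : Module.End ℂ ((P × G) →₀ ℂ) :=
  Len1_avg ψ fun b => Len1_L P (k b)

/-- The map from the twisted complex. -/
def Len1_io (P : Type) (ψ : AddChar A ℂ) (k : A → G) (t : G) :
    ((P × ℤ) →₀ ℂ) →ₗ[ℂ] ((P × G) →₀ ℂ) :=
  Len1_eA P ψ k ∘ₗ Finsupp.lmapDomain ℂ ℂ fun x => (x.1, t ^ x.2)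

variable {ψ : AddChar A ℂ} {k : A → G} {t : G} {c : G → ℂ} {nu : G → ℤ} {P : Type}

theorem Len1_io_single (x : P × ℤ) (a : ℂ) :
    Len1_io P ψ k t (Finsupp.single x a) = Len1_eA P ψ k (Finsupp.single (x.1, t ^ x.2) a) := by
  simp only [Len1_io, LinearMap.comp_apply, Finsupp.lmapDomain_apply, Finsupp.mapDomain_single]

theorem Len1_H.Psi_eA (H : Len1_H ψ k t c nu) (v : (P × G) →₀ ℂ) :
    Len1_Psi P c nu (Len1_eA P ψ k v) = Len1_Psi P c nu v := by
  refine Len1_avg_eig ψ _ _ (fun b v => ?_) v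
  induction v using Finsupp.induction_linear with
  | zero => simp only [map_zero, smul_zero]
  | add a b ha hb => simp only [map_add, ha, hb, smul_add]
  | single z a =>
    simp only [Len1_L_single, Len1_Psi_single, H.ck, H.nk, mul_smul]
    exact smul_comm _ _ _

theorem Len1_H.eA_L (H : Len1_H ψ k t c nu) (a : A) (v : (P × G) →₀ ℂ) :
    Len1_eA P ψ k (Len1_L P (k a) v) = ψ a • Len1_eA P ψ k v :=
  Len1_avg_rho ψ (fun b => Len1_L P (k b)) (fun a b v => by rw [H.add, Len1_L_mul]) a v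

theorem Len1_H.Psi_io (H : Len1_H ψ k t c nu) (y : (P × ℤ) →₀ ℂ) :
    Len1_Psi P c nu (Len1_io P ψ k t y) = y := by
  induction y using Finsupp.induction_linear with
  | zero => simp only [map_zero]
  | add a b ha hb => simp only [map_add, ha, hb]
  | single z a =>
    rw [Len1_io_single, H.Psi_eA, Len1_Psi_single, H.ct, H.nt, one_smul, Finsupp.smul_single,
      smul_eq_mul, mul_one]

theorem Len1_H.io_Psi (H : Len1_H ψ k t c nu) (v : (P × G) →₀ ℂ) :
    Len1_io P ψ k t (Len1_Psi P c nu v) = Len1_eA P ψ k v := by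
  induction v using Finsupp.induction_linear with
  | zero => simp only [map_zero]
  | add a b ha hb => simp only [map_add, ha, hb]
  | single z a =>
    obtain ⟨b, hb⟩ := H.dec z.2
    have e1 : c z.2 = ψ b := by rw [hb, H.ck, H.ct, mul_one]
    have e2 : Finsupp.single z a = a • Len1_L P (k b) (Finsupp.single (z.1, t ^ nu z.2) 1) := by
      rw [Len1_L_single, ← hb, Finsupp.smul_single, smul_eq_mul, mul_one]
    rw [Len1_Psi_single, map_smul, map_smul, Len1_io_single, e1, e2, map_smul, H.eA_L]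

theorem Len1_H.eA_io (H : Len1_H ψ k t c nu) (y : (P × ℤ) →₀ ℂ) :
    Len1_eA P ψ k (Len1_io P ψ k t y) = Len1_io P ψ k t y := by
  rw [← H.io_Psi, H.Psi_io]

/-- A pair of maps that is compatible with `Psi` and the group is compatible with `io`. -/
theorem Len1_H.io_map (H : Len1_H ψ k t c nu) {Q : Type}
    (F : ((P × G) →₀ ℂ) →ₗ[ℂ] ((Q × G) →₀ ℂ)) (F' : ((P × ℤ) →₀ ℂ) →ₗ[ℂ] ((Q × ℤ) →₀ ℂ))
    (hF : ∀ b v, F (Len1_L P (k b) v) = Len1_L Q (k b) (F v))
    (hF' : ∀ v, Len1_Psi Q c nu (F v) = F' (Len1_Psi P c nu v)) (y : (P × ℤ) →₀ ℂ) :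
    F (Len1_io P ψ k t y) = Len1_io Q ψ k t (F' y) := by
  have e : F (Len1_eA P ψ k (Len1_io P ψ k t y)) = Len1_eA Q ψ k (F (Len1_io P ψ k t y)) :=
    Len1_avg_map ψ _ _ F hF _
  rw [H.eA_io] at e
  rw [e, ← H.io_Psi, hF', H.Psi_io]

end Io

section Grp

variable {G A : Type} [Group G] [AddCommGroup A] [Finite A]

omit [Finite A] in
theorem Len1_conj {τ : A ≃ₗ[ℤ] A} {k : A → G} {t : G} (hτ : ∀ a, t * k a * t⁻¹ = k (τ a)) (n : ℤ)
    (a : A) : t ^ n * k a = k ((τ ^ n) a) * t ^ n := by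
  have h1 : ∀ a, t * k a = k (τ a) * t := fun a => by rw [← hτ, inv_mul_cancel_right]
  have h2 : ∀ a, t⁻¹ * k a = k (τ⁻¹ a) * t⁻¹ := fun a => by
    have := h1 (τ⁻¹ a)
    rw [← LinearEquiv.mul_apply, mul_inv_cancel, LinearEquiv.coe_one, id] at this
    rw [inv_mul_eq_iff_eq_mul, ← mul_assoc, this, mul_inv_cancel_right]
  induction n using Int.induction_on generalizing a with
  | zero => simp
  | succ n ih => rw [zpow_add_one, zpow_add_one, mul_assoc, h1, ← mul_assoc, ih, mul_assoc]; rfl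
  | pred n ih => rw [zpow_sub_one, zpow_sub_one, mul_assoc, h2, ← mul_assoc, ih, mul_assoc]; rfl

theorem Len1_coord {j : Multiplicative A →* G} {t : G} {m : ℕ} (hj : Function.Injective j)
    (hg : ∀ g, ∃ (a : A) (n : ℤ), g = j (Multiplicative.ofAdd a) * t ^ n)
    (hm : ∀ n : ℤ, (t ^ m) ^ n = 1 → n = 0) :
    ∃ (al : G → A) (nu : G → ℤ), (∀ g, g = j (Multiplicative.ofAdd (al g)) * t ^ nu g) ∧
      ∀ (a : A) (n : ℤ), al (j (Multiplicative.ofAdd a) * t ^ n) = a ∧
        nu (j (Multiplicative.ofAdd a) * t ^ n) = n := by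
  choose al nu h using hg
  refine ⟨al, nu, h, fun a n => ?_⟩
  set g := j (Multiplicative.ofAdd a) * t ^ n with hg
  have e : j (Multiplicative.ofAdd (al g)) * t ^ nu g = j (Multiplicative.ofAdd a) * t ^ n :=
    (h g).symm.trans hg
  have e1 : t ^ (nu g - n) = j ((Multiplicative.ofAdd (al g))⁻¹ * Multiplicative.ofAdd a) := by
    rw [map_mul, map_inv, eq_inv_mul_iff_mul_eq, zpow_sub, ← mul_assoc, e, mul_inv_cancel_right]
  have e2 : (t ^ (nu g - n)) ^ Nat.card (Multiplicative A) = 1 := by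
    rw [e1, ← map_pow, pow_card_eq_one', map_one]
  have e3 : (t ^ m) ^ ((nu g - n) * Nat.card (Multiplicative A)) = 1 := by
    rw [← zpow_natCast, ← zpow_mul, mul_comm, zpow_mul, zpow_mul, zpow_natCast, zpow_natCast, e2,
      one_pow]
  have e4 : nu g = n := by
    have := hm _ e3
    have hc : (Nat.card (Multiplicative A) : ℤ) ≠ 0 := Nat.cast_ne_zero.2 Nat.card_pos.ne'
    exact sub_eq_zero.1 ((mul_eq_zero.1 this).resolve_right hc)
  rw [e4, mul_left_inj] at e
  exact ⟨Multiplicative.ofAdd.injective (hj e), e4⟩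

end Grp

end

end Pool.Agent.MP_bc14e1_gt
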