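import Pool.Agent.MP_bc14e1_gt.IfP

open Set Metric
open scoped Classical

namespace Pool.Agent.MP_bc14e1_gt

theorem MVs_factor {M N : Type} [AddCommGroup M] [Module ℂ M] [AddCommGroup N] [Module ℂ N]
    (φ : M →ₗ[ℂ] N) (S : Submodule ℂ N) (e : M →ₗ[ℂ] ℂ) (h : ∀ b, φ b ∈ S → e b = 0) :
    ∃ k : N →ₗ[ℂ] ℂ, (∀ b, k (φ b) = e b) ∧ ∀ c ∈ S, k c = 0 := by
  have h1 : e ∈ (LinearMap.ker (S.mkQ ∘ₗ φ)).dualAnnihilator := by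
    rw [Submodule.mem_dualAnnihilator]
    intro b hb
    exact h b ((Submodule.Quotient.mk_eq_zero S).1 hb)
  rw [← LinearMap.range_dualMap_eq_dualAnnihilator_ker] at h1
  obtain ⟨k, hk⟩ := h1
  refine ⟨k ∘ₗ S.mkQ, fun b => ?_, fun c hc => ?_⟩
  · rw [← hk]; rfl
  · rw [LinearMap.comp_apply, Submodule.mkQ_apply, (Submodule.Quotient.mk_eq_zero S).2 hc,
      map_zero]

theorem MVs_extend {M : Type} [AddCommGroup M] [Module ℂ M] (R W : Submodule ℂ M)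
    (g : M →ₗ[ℂ] ℂ) (h : ∀ b ∈ R, b ∈ W → g b = 0) :
    ∃ g' : M →ₗ[ℂ] ℂ, (∀ b ∈ R, g' b = g b) ∧ ∀ c ∈ W, g' c = 0 := by
  obtain ⟨k, hk, hW⟩ := MVs_factor R.subtype W (g ∘ₗ R.subtype) fun b hb => h b b.2 hb
  exact ⟨k, fun b hb => hk ⟨b, hb⟩, hW⟩

theorem MVs_sup_zero {M : Type} [AddCommGroup M] [Module ℂ M] {A C : Submodule ℂ M}
    {g : M →ₗ[ℂ] ℂ} (hA : ∀ b ∈ A, g b = 0) (hC : ∀ b ∈ C, g b = 0) :
    ∀ b ∈ A ⊔ C, g b = 0 := by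
  intro b hb
  obtain ⟨a, ha, c, hc, rfl⟩ := Submodule.mem_sup.1 hb
  rw [map_add, hA a ha, hC c hc, add_zero]

theorem MVs_sup_map {M : Type} [AddCommGroup M] [Module ℂ M] {A C : Submodule ℂ M}
    {g : M →ₗ[ℂ] M} (hA : ∀ b ∈ A, g b ∈ A) (hC : ∀ b ∈ C, g b ∈ C) :
    ∀ b ∈ A ⊔ C, g b ∈ A ⊔ C := by
  intro b hb
  obtain ⟨a, ha, c, hc, rfl⟩ := Submodule.mem_sup.1 hb
  rw [map_add]
  exact add_mem (Submodule.mem_sup_left (hA a ha)) (Submodule.mem_sup_right (hC c hc))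

section

variable {G Y : Type} [Group G] [TopologicalSpace Y] [MulAction G Y] {s : G}
  {B : Tot ℂ Y →ₗ[ℂ] Tot ℂ Y →+ ℂ} {Z : Submodule ℂ (Tot ℂ Y)}

theorem MVs_fun (B : Tot ℂ Y →ₗ[ℂ] Tot ℂ Y →+ ℂ) (u : Tot ℂ Y) :
    ∃ φ : Tot ℂ Y →ₗ[ℂ] ℂ, ∀ b, φ b = B b u :=
  ⟨{ toFun := fun b => B b u
     map_add' := fun a b => by rw [map_add]; rfl
     map_smul' := fun a b => by rw [map_smul]; rfl }, fun _ => rfl⟩

theorem MVs_N_mono {K K' : Set Y} (h : K ⊆ K') : CH ℂ K'ᶜ ⊔ Z ≤ CH ℂ Kᶜ ⊔ Z :=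
  sup_le_sup_right (CH_mono (compl_subset_compl.2 h)) Z

omit [TopologicalSpace Y] in
theorem MVs_inv_compl {K : Set Y} (h : Inv s K) : Inv s Kᶜ := fun y => not_congr (h y)

theorem MVs_sdHP_Z (hP : PP s B Z) (m : ℕ) : ∀ c ∈ Z, sdHP ℂ Y m c ∈ Z := by
  intro c hc
  rw [sdHP, LinearMap.sum_apply]
  exact sum_mem fun j _ => hP.sh _ (pow_mem hP.sd j hc)

theorem MVs_kill (hP : PP s B Z) {K : Set Y} (hK : Inv s K) {u : Tot ℂ Y} (hu : u ∈ CH ℂ K) :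
    ∀ b ∈ CH ℂ Kᶜ ⊔ Z, B b u = 0 := by
  obtain ⟨φ, hφ⟩ := MVs_fun B u
  intro b hb
  rw [← hφ]
  refine MVs_sup_zero (fun b hb => ?_) (fun b hb => ?_) b hb
  · rw [hφ]; exact hP.loc _ _ (MVs_inv_compl hK) hK disjoint_compl_left b hb u hu
  · rw [hφ]; exact hP.zl b hb u

theorem MVs_side {𝒦 : Set (Set Y)} {U : Set Y} (hA : Adm s 𝒦 U) (hi : PDi B Z 𝒦 U)
    {K K0 : Set Y} (hK : K ∈ 𝒦) (hK0 : K0 ∈ 𝒦) {v : Tot ℂ Y} (hv : v ∈ CH ℂ K0)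
    (hdv : dT ℂ Y v ∈ Z)
    (h : ∀ b, dT ℂ Y b ∈ CH ℂ Kᶜ ⊔ Z → dT ℂ Y b ∈ CH ℂ K0ᶜ ⊔ Z → B b v = 0) :
    ∃ K' ∈ 𝒦, K ⊆ K' ∧ K0 ⊆ K' ∧ ∃ u ∈ CH ℂ K', v - dT ℂ Y u ∈ Z := by
  obtain ⟨u, hu, hZ⟩ := hi (K ∪ K0) (hA.union K hK K0 hK0) v (CH_mono subset_union_right hv) hdv
    fun b hb => h b (MVs_N_mono subset_union_left hb) (MVs_N_mono subset_union_right hb)
  obtain ⟨L, hL, hLU, huL⟩ := exists_compact_CH hu
  obtain ⟨K', hK', hLK⟩ := hA.ex L hL hLU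
  exact ⟨K ∪ K0 ∪ K', hA.union _ (hA.union K hK K0 hK0) K' hK',
    subset_union_left.trans subset_union_left, subset_union_right.trans subset_union_left,
    u, CH_mono (hLK.trans subset_union_right) huL, hZ⟩

theorem MVs_small (hP : PP s B Z) {K1 K2 : Set Y} (h1 : IsClosed K1) (h2 : IsClosed K2)
    {g : Tot ℂ Y →ₗ[ℂ] ℂ} (hd : ∀ b, g (dT ℂ Y b) = 0)
    (hS : ∀ b ∈ CH ℂ K1ᶜ ⊔ CH ℂ K2ᶜ ⊔ Z, g b = 0) :
    ∃ g' : Tot ℂ Y →ₗ[ℂ] ℂ, (∀ b, dT ℂ Y b ∈ CH ℂ K1ᶜ ⊔ CH ℂ K2ᶜ ⊔ Z → g' b = g b) ∧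
      (∀ b, g' (dT ℂ Y b) = 0) ∧ ∀ b ∈ CH ℂ (K1 ∩ K2)ᶜ ⊔ Z, g' b = 0 := by
  obtain ⟨g', hg, hW⟩ := MVs_extend ((CH ℂ K1ᶜ ⊔ CH ℂ K2ᶜ ⊔ Z).comap (dT ℂ Y))
    (LinearMap.range (dT ℂ Y) ⊔ (CH ℂ (K1 ∩ K2)ᶜ ⊔ Z)) g (by
      intro b hb hW
      obtain ⟨_, ⟨a, rfl⟩, c, hc, rfl⟩ := Submodule.mem_sup.1 hW
      obtain ⟨o, ho, z, hz, rfl⟩ := Submodule.mem_sup.1 hc
      have hdo : dT ℂ Y o ∈ CH ℂ K1ᶜ ⊔ CH ℂ K2ᶜ ⊔ Z := by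
        rw [Submodule.mem_comap, map_add, map_add, dT_dT, zero_add] at hb
        simpa using sub_mem hb (Submodule.mem_sup_right (hP.d z hz))
      rw [compl_inter] at ho
      obtain ⟨m, hm⟩ := sdT_small_two h1.isOpen_compl h2.isOpen_compl ho
      have e : o = (sdT ℂ Y ^ m) o + dT ℂ Y (sdHP ℂ Y m o) + sdHP ℂ Y m (dT ℂ Y o) := by
        rw [add_assoc, dT_sdHP]; abel
      have ho0 : g o = 0 := by
        rw [e, map_add, map_add, hd, hS _ (Submodule.mem_sup_left (hm m le_rfl)),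
          hS _ (MVs_sup_map (MVs_sup_map (fun _ => sdHP_mem_CH m) (fun _ => sdHP_mem_CH m))
            (MVs_sdHP_Z hP m) _ hdo)]
        simp
      rw [map_add, map_add, hd, ho0, hS z (Submodule.mem_sup_right hz)]
      simp)
  exact ⟨g', hg, fun b => hW _ (Submodule.mem_sup_left ⟨b, rfl⟩),
    fun b hb => hW _ (Submodule.mem_sup_right hb)⟩

end

theorem mvs_stmt : MVsStmt := by
  intro G Y _ _ _ s B Z 𝒦₁ 𝒦₂ 𝒦₀ 𝒦 U V hP hA1 hA2 hA0 hM hi1 hi2 hs1 hs2 hs0 K hK f hfd hfK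
  obtain ⟨K1, hK1, K2, hK2, hKK⟩ := hM.spl K hK
  have hdN : ∀ L : Set Y, ∀ b ∈ CH ℂ Lᶜ ⊔ Z, dT ℂ Y b ∈ CH ℂ Lᶜ ⊔ Z := fun L =>
    MVs_sup_map (fun _ => dT_mem_CH) hP.d
  obtain ⟨f1, hf1⟩ : ∃ f1 : Tot ℂ Y →ₗ[ℂ] ℂ, ∀ b, f1 b = f (prj ℂ K2ᶜ b) :=
    ⟨f ∘ₗ prj ℂ K2ᶜ, fun _ => rfl⟩
  have hf1Z : ∀ b ∈ Z, f1 b = 0 := fun b hb => by
    rw [hf1]
    exact hfK _ (Submodule.mem_sup_right (hP.pr _ (MVs_inv_compl (hA2.kinv K2 hK2)) b hb))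
  have hf1N : ∀ b ∈ CH ℂ K1ᶜ ⊔ Z, f1 b = 0 := by
    refine MVs_sup_zero (fun b hb => ?_) hf1Z
    rw [hf1]
    refine hfK _ (Submodule.mem_sup_left (CH_mono (compl_subset_compl.2 hKK) ?_))
    rw [compl_union, CH_inter]
    exact ⟨prj_mem_CH _ hb, prj_mem _ b⟩
  have hf2N : ∀ b ∈ CH ℂ K2ᶜ ⊔ Z, (f - f1) b = 0 := by
    refine MVs_sup_zero (fun b hb => ?_) (fun b hb => ?_)
    · rw [LinearMap.sub_apply, hf1, prj_of_mem hb, sub_self]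
    · rw [LinearMap.sub_apply, hf1Z b hb, hfK b (Submodule.mem_sup_right hb), sub_self]
  have hg2 : ∀ b, dT ℂ Y b ∈ CH ℂ K2ᶜ ⊔ Z → f1 (dT ℂ Y b) = 0 := fun b hb => by
    have := hf2N _ hb
    rwa [LinearMap.sub_apply, hfd, zero_sub, neg_eq_zero] at this
  obtain ⟨g', hg', hg'd, hg'N⟩ := MVs_small hP (hA1.cl K1 hK1) (hA2.cl K2 hK2)
    (g := f1 ∘ₗ dT ℂ Y) (fun b => by rw [LinearMap.comp_apply, dT_dT, map_zero])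
    (MVs_sup_zero (MVs_sup_zero
      (fun b hb => hf1N _ (Submodule.mem_sup_left (dT_mem_CH hb)))
      (fun b hb => hg2 b (Submodule.mem_sup_left (dT_mem_CH hb))))
      fun b hb => hf1Z _ (hP.d b hb))
  obtain ⟨K0, hK0, -, v, hv, hdv, hvB⟩ := hs0 (K1 ∩ K2) (hM.inter K1 hK1 K2 hK2) g' hg'd hg'N
  obtain ⟨L1, hL1, hKL1, h0L1, u1, hu1, hZ1⟩ := MVs_side hA1 hi1 hK1 (hM.le₁ hK0) hv hdv
    fun b hb hb0 => by
      rw [hvB b hb0, hg' b (sup_le_sup_right le_sup_left Z hb)]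
      exact hf1N _ hb
  obtain ⟨L2, hL2, hKL2, h0L2, u2, hu2, hZ2⟩ := MVs_side hA2 hi2 hK2 (hM.le₂ hK0) hv hdv
    fun b hb hb0 => by
      rw [hvB b hb0, hg' b (sup_le_sup_right le_sup_right Z hb)]
      exact hg2 b hb
  obtain ⟨φ1, hφ1⟩ := MVs_fun B u1
  obtain ⟨φ2, hφ2⟩ := MVs_fun B u2
  obtain ⟨φv, hφv⟩ := MVs_fun B v
  have e1 : ∀ b, B (dT ℂ Y b) u1 = B b v := fun b => by
    have := hP.zr b _ hZ1
    rw [map_sub, sub_eq_zero] at this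
    rw [hP.stokes, this]
  have e2 : ∀ b, B (dT ℂ Y b) u2 = B b v := fun b => by
    have := hP.zr b _ hZ2
    rw [map_sub, sub_eq_zero] at this
    rw [hP.stokes, this]
  obtain ⟨k, hk, hkS⟩ := MVs_factor (dT ℂ Y) (CH ℂ L1ᶜ ⊔ CH ℂ L2ᶜ ⊔ Z) (f1 ∘ₗ dT ℂ Y - φv)
    fun b hb => by
      have hb1 : dT ℂ Y b ∈ CH ℂ K0ᶜ ⊔ Z :=
        sup_le_sup_right (sup_le (CH_mono (compl_subset_compl.2 h0L1))
          (CH_mono (compl_subset_compl.2 h0L2))) Z hb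
      have hb2 : dT ℂ Y b ∈ CH ℂ K1ᶜ ⊔ CH ℂ K2ᶜ ⊔ Z :=
        sup_le_sup_right (sup_le_sup (CH_mono (compl_subset_compl.2 hKL1))
          (CH_mono (compl_subset_compl.2 hKL2))) Z hb
      rw [LinearMap.sub_apply, hφv, hvB b hb1, hg' b hb2, sub_self]
  simp only [LinearMap.sub_apply, LinearMap.comp_apply, hφv] at hk
  obtain ⟨M1, hM1, hLM1, w1, hw1, hdw1, hB1⟩ := hs1 L1 hL1 (f1 - φ1 - k)
    (fun b => by rw [LinearMap.sub_apply, LinearMap.sub_apply, hφ1, e1, hk, sub_self])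
    fun b hb => by
      rw [LinearMap.sub_apply, LinearMap.sub_apply, hφ1, hf1N b (MVs_N_mono hKL1 hb),
        MVs_kill hP (hA1.kinv L1 hL1) hu1 b hb, hkS b (sup_le_sup_right le_sup_left Z hb)]
      simp
  obtain ⟨M2, hM2, hLM2, w2, hw2, hdw2, hB2⟩ := hs2 L2 hL2 (f - f1 + φ2 + k)
    (fun b => by
      rw [LinearMap.add_apply, LinearMap.add_apply, LinearMap.sub_apply, hφ2, e2, hk, hfd]
      ring)
    fun b hb => by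
      rw [LinearMap.add_apply, LinearMap.add_apply, hφ2, hf2N b (MVs_N_mono hKL2 hb),
        MVs_kill hP (hA2.kinv L2 hL2) hu2 b hb, hkS b (sup_le_sup_right le_sup_right Z hb)]
      simp
  refine ⟨M1 ∪ M2, hM.union M1 hM1 M2 hM2,
    hKK.trans (union_subset_union (hKL1.trans hLM1) (hKL2.trans hLM2)), u1 - u2 + w1 + w2,
    add_mem (add_mem (sub_mem (CH_mono (hLM1.trans subset_union_left) hu1)
      (CH_mono (hLM2.trans subset_union_right) hu2)) (CH_mono subset_union_left hw1))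
      (CH_mono subset_union_right hw2), ?_, fun b hb => ?_⟩
  · have e : dT ℂ Y (u1 - u2 + w1 + w2) =
        (v - dT ℂ Y u2) - (v - dT ℂ Y u1) + dT ℂ Y w1 + dT ℂ Y w2 := by
      rw [map_add, map_add, map_sub]; abel
    rw [e]
    exact add_mem (add_mem (sub_mem hZ2 hZ1) hdw1) hdw2
  · rw [map_add, map_add, map_sub, hB1 b (MVs_N_mono subset_union_left hb),
      hB2 b (MVs_N_mono subset_union_right hb)]
    simp only [LinearMap.sub_apply, LinearMap.add_apply, hφ1, hφ2]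
    ring

end Pool.Agent.MP_bc14e1_gt
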