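import Pool.Agent.MP_bc14e1_gt.IfC

open Set Metric
open scoped Classical

namespace Pool.Agent.MP_bc14e1_gt

section Aux

variable {G Y : Type} [Group G] [TopologicalSpace Y] [MulAction G Y] [ContinuousConstSMul G Y]

/-- The sum of the translates under a finite subgroup. -/
noncomputable def Rank2_N (R : Type) [CommRing R] (Y : Type) [TopologicalSpace Y] [MulAction G Y]
    (B : Subgroup G) [Fintype B] : Module.End R (Tot R Y) := ∑ g : B, gs R Y (g : G)

variable {R : Type} [CommRing R] (B : Subgroup G) [Fintype B]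

omit [ContinuousConstSMul G Y] in
theorem Rank2_N_apply (c : Tot R Y) : Rank2_N R Y B c = ∑ g : B, gs R Y (g : G) c := by
  rw [Rank2_N, LinearMap.sum_apply]

theorem Rank2_N_inv (c : Tot R Y) : ∀ g ∈ B, gs R Y g (Rank2_N R Y B c) = Rank2_N R Y B c := by
  intro g hg
  rw [Rank2_N_apply, map_sum]
  refine Fintype.sum_equiv (Equiv.mulLeft (⟨g, hg⟩ : B)) _ _ fun h => ?_
  rw [← gs_mul]
  rfl

omit [ContinuousConstSMul G Y] in
theorem Rank2_N_of_inv {c : Tot R Y} (h : ∀ g ∈ B, gs R Y g c = c) :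
    Rank2_N R Y B c = (Fintype.card B : R) • c := by
  rw [Rank2_N_apply, Finset.sum_congr rfl fun (g : B) _ => h g g.2, Finset.sum_const, Finset.card_univ,
    Nat.cast_smul_eq_nsmul]

theorem Rank2_N_dT (c : Tot R Y) : dT R Y (Rank2_N R Y B c) = Rank2_N R Y B (dT R Y c) := by
  rw [Rank2_N_apply, Rank2_N_apply, map_sum]
  exact Finset.sum_congr rfl fun g _ => dT_gs _ _

omit [ContinuousConstSMul G Y] in
theorem Rank2_N_DG {k : ℕ} {c : Tot R Y} (h : c ∈ DG R Y k) : Rank2_N R Y B c ∈ DG R Y k := by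
  rw [Rank2_N_apply]
  exact sum_mem fun g _ => gs_mem_DG _ h

omit [ContinuousConstSMul G Y] in
theorem Rank2_N_cast {S : Type} [CommRing S] (φ : R →+* S) (c : Tot R Y) :
    cast φ Y (Rank2_N R Y B c) = Rank2_N S Y B (cast φ Y c) := by
  rw [Rank2_N_apply, Rank2_N_apply, map_sum]
  exact Finset.sum_congr rfl fun g _ => cast_psh φ _ c

theorem Rank2_cast_act {S : Type} [CommRing S] (φ : R →+* S) (s : G) (a : Lam R) (c : Tot R Y) :
    cast φ Y (act R Y s a c) = act S Y s (AddMonoidAlgebra.mapRingHom ℤ φ a) (cast φ Y c) := by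
  induction a using LaurentPolynomial.induction_on' with
  | add p q hp hq => simp only [map_add, LinearMap.add_apply, hp, hq]
  | C_mul_T n a =>
    have e : AddMonoidAlgebra.mapRingHom ℤ φ (LaurentPolynomial.C a * LaurentPolynomial.T n) =
        (LaurentPolynomial.C (φ a) * LaurentPolynomial.T n : Lam S) := by
      rw [← LaurentPolynomial.single_eq_C_mul_T, ← LaurentPolynomial.single_eq_C_mul_T,
        AddMonoidAlgebra.mapRingHom_single]
    rw [e, map_mul, map_mul, Module.End.mul_apply, Module.End.mul_apply, act_C, act_C, act_T, act_T,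
      LinearMap.map_smulₛₗ, gs, gs, cast_psh]

/-- Boundaries as a submodule over the Laurent polynomials. -/
noncomputable def Rank2_Bd (R : Type) [CommRing R] (Y : Type) [TopologicalSpace Y] [MulAction G Y]
    [ContinuousConstSMul G Y] (s : G) : Submodule (Lam R) (Tw R Y s) :=
  twSub (BC R univ 2) (by
    rintro n _ ⟨b, hb, rfl⟩
    exact ⟨gs R Y (s ^ n) b, ⟨mem_CH_univ _, gs_mem_DG _ hb.2⟩, dT_gs _ _⟩)

theorem Rank2_sum_zero {s : G} {ι : Type} [Fintype ι] (a : ι → Lam R) (z : ι → Tot R Y) :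
    ∑ i, a i • (Rank2_Bd R Y s).mkQ (toTw R Y s (z i)) = 0 ↔
      ∑ i, act R Y s (a i) (z i) ∈ BC R univ 2 := by
  have e : ∑ i, a i • (Rank2_Bd R Y s).mkQ (toTw R Y s (z i)) =
      (Rank2_Bd R Y s).mkQ (toTw R Y s (∑ i, act R Y s (a i) (z i))) := by
    rw [map_sum, map_sum]
    exact Finset.sum_congr rfl fun i _ => by rw [← Tw.smul_def, map_smul]
  rw [e, Submodule.mkQ_apply, Submodule.Quotient.mk_eq_zero]
  rfl

end Aux

theorem rank2_stmt (B : Bas2) (hRkAlg : RkAlgStmt) (hRank2a : Rank2aStmt) : Rank2Stmt := by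
  intro X G Y _ _ _ _ _ _ _ _ F p s A n hT hA hD z hz
  have := Fintype.ofFinite A
  have hfg : FGI ℤ s (univ : Set Y) univ 2 :=
    B.fg ℤ X G Y F p s hT univ univ isCompact_univ isOpen_univ subset_rfl 2
  have hcard : (Fintype.card A : ℂ) ≠ 0 := Nat.cast_ne_zero.2 Fintype.card_ne_zero
  let S₀ : Set (Tw ℂ Y s ⧸ Rank2_Bd ℂ Y s) := {x | ∃ y : Tot ℤ Y,
    (y ∈ ZC ℤ univ 2 ∧ ∀ g ∈ A, gs ℤ Y g y = y) ∧
      x = (Rank2_Bd ℂ Y s).mkQ (toTw ℂ Y s (castZ ℂ Y y))}
  have hmem : ∀ i, (Rank2_Bd ℂ Y s).mkQ (toTw ℂ Y s (z i)) ∈ Submodule.span (Lam ℂ) S₀ := by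
    intro i
    have hd : dT ℂ Y (z i) = 0 := (hz i).1.2
    have h1 := (B.flat ℂ Y univ ∅ 2).1 (z i) (hz i).1.1 (by rw [hd]; exact zero_mem _)
    have hsm : ∀ (r : ℂ) (c : Tot ℂ Y),
        (Rank2_Bd ℂ Y s).mkQ (toTw ℂ Y s c) ∈ Submodule.span (Lam ℂ) S₀ →
        (Rank2_Bd ℂ Y s).mkQ (toTw ℂ Y s (r • c)) ∈ Submodule.span (Lam ℂ) S₀ := by
      intro r c hc
      rw [← act_C s, ← Tw.smul_def, map_smul]
      exact Submodule.smul_mem _ _ hc
    have h2 : (Rank2_Bd ℂ Y s).mkQ (toTw ℂ Y s (Rank2_N ℂ Y A (z i))) ∈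
        Submodule.span (Lam ℂ) S₀ := by
      refine Submodule.span_induction (p := fun c _ =>
        (Rank2_Bd ℂ Y s).mkQ (toTw ℂ Y s (Rank2_N ℂ Y A c)) ∈ Submodule.span (Lam ℂ) S₀)
        ?_ (by simp) (fun a b _ _ ha hb => ?_) (fun r a _ ha => ?_) h1
      · rintro _ ⟨y, ⟨hy, hy'⟩, rfl⟩
        refine Submodule.subset_span ⟨Rank2_N ℤ Y A y,
          ⟨⟨⟨mem_CH_univ _, Rank2_N_DG A hy.2⟩, ?_⟩, Rank2_N_inv A y⟩, by rw [Rank2_N_cast]⟩
        change dT ℤ Y _ = 0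
        rw [Rank2_N_dT, eq_zero_of_mem_CH_empty hy', map_zero]
      · simp only [map_add]; exact add_mem ha hb
      · simp only [map_smul (Rank2_N ℂ Y A)]; exact hsm r _ ha
    have h3 := hsm (Fintype.card A : ℂ)⁻¹ _ h2
    rwa [Rank2_N_of_inv A (hz i).2, smul_smul, inv_mul_cancel₀ hcard, one_smul] at h3
  obtain ⟨a, ha, h⟩ := hRkAlg.2.2 (Lam ℤ) (Lam ℂ) (Submodule.span (Lam ℂ) S₀)
    (AddMonoidAlgebra.mapRingHom ℤ (Int.castRingHom ℂ)) (Subtype.val ⁻¹' S₀) n (by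
      intro a b h
      ext m
      have := congrArg (fun x => AddMonoidAlgebra.coeff x m) h
      simpa only [AddMonoidAlgebra.coeff_mapRingHom, eq_intCast, Int.cast_inj] using this)
    Submodule.span_span_coe_preimage (by
      intro w hw
      choose y hy hy' using hw
      obtain ⟨a, ha, b, hb, hb'⟩ := hRank2a G Y s A n hT.cen hfg hD y hy
      refine ⟨a, ha, Subtype.ext ?_⟩
      simp only [Submodule.coe_sum, Submodule.coe_smul, hy', Submodule.coe_zero]
      rw [Rank2_sum_zero]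
      refine ⟨castZ ℂ Y b, ⟨mem_CH_univ _, cast_mem_DG _ hb.2⟩, ?_⟩
      rw [← cast_dT, hb', map_sum]
      exact Finset.sum_congr rfl fun i _ => Rank2_cast_act _ _ _ _)
    fun i => ⟨_, hmem i⟩
  have h' := congrArg Subtype.val h
  simp only [Submodule.coe_sum, Submodule.coe_smul, Submodule.coe_zero] at h'
  rw [Rank2_sum_zero] at h'
  obtain ⟨b, hb, hb'⟩ := h'
  refine ⟨a, ha, (Fintype.card A : ℂ)⁻¹ • Rank2_N ℂ Y A b,
    Submodule.smul_mem _ _ (Rank2_N_DG A hb.2),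
    fun g hg => by rw [map_smul, Rank2_N_inv A b g hg], ?_⟩
  rw [map_smul, Rank2_N_dT, hb', Rank2_N_of_inv, smul_smul, inv_mul_cancel₀ hcard, one_smul]
  intro g hg
  rw [map_sum]
  refine Finset.sum_congr rfl fun i _ => ?_
  rw [map_act (s := s) (s' := s) (gs ℂ Y g) (fun c => by rw [← gs_mul, ← gs_mul, hT.cen]),
    (hz i).2 g hg]

end Pool.Agent.MP_bc14e1_gt
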