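import Pool.Agent.MP_bc14e1_gt.IfN

open Set Metric
open scoped Classical

namespace Pool.Agent.MP_bc14e1_gt

theorem sard_stmt : SardStmt := by
  intro ι _ U f hU hf
  let g : ι → E 4 → ℝ × (E 4 →L[ℝ] ℝ) := fun i x =>
    (-f i x + fderiv ℝ (f i) x x, -fderiv ℝ (f i) x)
  have hg : ∀ i, ∀ x ∈ U, ContDiffAt ℝ 1 (g i) x := by
    intro i x hx
    have h2 : ContDiffAt ℝ 2 (f i) x := (hf i).contDiffAt (hU.mem_nhds hx)
    have h1 : ContDiffAt ℝ 1 (fderiv ℝ (f i)) x := h2.fderiv_right (by norm_num)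
    exact ((h2.of_le (by norm_num)).neg.add (h1.clm_apply contDiffAt_id)).prodMk h1.neg
  have hd : ∀ i, dimH (g i '' U) ≤ 4 := by
    intro i
    refine (dimH_image_le_of_locally_lipschitzOn fun x hx => ?_).trans ?_
    · obtain ⟨K, t, ht, hK⟩ := (hg i x hx).exists_lipschitzOnWith
      exact ⟨K, t, mem_nhdsWithin_of_mem_nhds ht, hK⟩
    · refine (dimH_mono (subset_univ U)).trans ?_
      rw [Real.dimH_univ_eq_finrank]
      simp
  have hfr : Module.finrank ℝ (ℝ × (E 4 →L[ℝ] ℝ)) = 5 := by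
    have h4 : Module.finrank ℝ (E 4 →L[ℝ] ℝ) = 4 := by
      rw [← (LinearMap.toContinuousLinearMap (𝕜 := ℝ) (E := E 4) (F' := ℝ)).finrank_eq,
        Module.finrank_linearMap]
      simp
    rw [Module.finrank_prod, h4]
    simp
  have hlt : dimH (⋃ i, g i '' U) < Module.finrank ℝ (ℝ × (E 4 →L[ℝ] ℝ)) := by
    rw [dimH_iUnion, hfr]
    refine (iSup_le hd).trans_lt ?_
    norm_num
  refine (dense_compl_of_dimH_lt_finrank hlt).mono ?_
  intro q hq i x hx h0 h1
  apply hq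
  refine mem_iUnion.2 ⟨i, x, hx, ?_⟩
  have h2 : q.2 = -fderiv ℝ (f i) x := eq_neg_of_add_eq_zero_right h1
  refine Prod.ext ?_ h2.symm
  rw [h2] at h0
  simp only [neg_apply] at h0
  simp only [g]
  linarith

end Pool.Agent.MP_bc14e1_gt
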