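import Pool.Agent.MP_bc14e1_gt.P.XPI

open Set Metric
open scoped Classical

namespace Pool.Agent.MP_bc14e1_gt

section
variable {X : Type} [TopologicalSpace X] {F : Set X}

theorem XPA_conn (B : Bas2) (h0 : XH0Stmt) (hF : Flat F) (hX : IsPathConnected (univ : Set X)) :
    IsPathConnected Fᶜ := by
  have L := B.lemA ℤ X ℂ ℂ F {e | FlatCh F e} hF.cl (fun e he => he) hF.ch univ isOpen_univ
  have hne : ∃ x, x ∈ Fᶜ := by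
    obtain ⟨x, -⟩ := hX.nonempty
    obtain ⟨b, -, hb⟩ := (L 0 (pt ℤ x) ⟨mem_CH_univ _, pt_mem_DG x⟩
      (by rw [dT_pt]; exact zero_mem _)).1 (by simp)
    by_contra hn
    have he : Fᶜ = ∅ := eq_empty_of_forall_notMem fun x hx => hn ⟨x, hx⟩
    rw [he] at hb
    have := congrArg (XAug ℤ X) (eq_zero_of_mem_CH_empty hb)
    rw [map_sub, h0.2.1, XAug, val0_pt, map_zero] at this
    omega
  obtain ⟨x, hx⟩ := hne
  refine ⟨x, hx, fun y hy => ?_⟩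
  let γ := (hX.joinedIn x trivial y trivial).somePath
  have hd : dT ℤ X (pth ℤ (γ : C(unitInterval, X))) = pt ℤ y - pt ℤ x := by
    rw [dT_pth]; simp
  obtain ⟨b, -, hb⟩ := (L 1 (pth ℤ (γ : C(unitInterval, X))) ⟨mem_CH_univ _, pth_mem_DG _⟩
    (by rw [hd]; exact sub_mem (pt_mem_CH hy) (pt_mem_CH hx))).1 (by simp)
  exact h0.1 X Fᶜ x y hx _ hb (by rw [map_sub, dT_dT, sub_zero, hd])

/-- The second homology of the complement. -/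
theorem XPA_dep {R ι : Type} [Field R] [Fintype ι] {n : ℕ} (hn : Fintype.card ι = n)
    (x : ι → Tot R X) (hx : ∀ i, x i ∈ CC R Fᶜ 2) (hv : XVan R F 3)
    (h : ∀ z ∈ ZC R (univ : Set X) 2, ∃ a : ι → R, z - ∑ i, a i • x i ∈ BC R univ 2) :
    Dep0 R Fᶜ n := by
  intro z hz
  have key : ∀ j, ∃ a : ι → R, z j - ∑ i, a i • x i ∈ BC R Fᶜ 2 := by
    intro j
    obtain ⟨h1, h2, h3⟩ := mem_ZC.1 (hz j)
    obtain ⟨a, ha⟩ := h (z j) (mem_ZC.2 ⟨mem_CH_univ _, h2, h3⟩)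
    obtain ⟨b, -, hb, e⟩ := mem_BC.1 ha
    have hm : z j - ∑ i, a i • x i ∈ CC R Fᶜ 2 :=
      sub_mem ⟨h1, h2⟩ (Submodule.sum_mem _ fun i _ => Submodule.smul_mem _ _ (hx i))
    obtain ⟨u, hu⟩ := mem_XTriv.1 (hv b hb (by rw [mem_XRel, e]; exact hm.1))
    exact ⟨a, mem_BC_of_dT hm.2 hu (by rw [map_sub, dT_dT, sub_zero, e])⟩
  choose a ha using key
  have hdep : ¬ LinearIndependent R a := fun hi => by
    have := hi.fintype_card_le_finrank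
    rw [Module.finrank_pi, Fintype.card_fin] at this
    omega
  obtain ⟨g, hg, j, hj⟩ := Fintype.not_linearIndependent_iff.1 hdep
  refine ⟨g, fun h0 => hj (congrFun h0 j), ?_⟩
  have h1 : ∑ j, g j • (z j - ∑ i, a j i • x i) ∈ BC R Fᶜ 2 :=
    Submodule.sum_mem _ fun j _ => Submodule.smul_mem _ _ (ha j)
  have h2 : ∑ j, g j • ∑ i, a j i • x i = 0 := by
    simp only [Finset.smul_sum, smul_smul]
    rw [Finset.sum_comm]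
    refine Finset.sum_eq_zero fun i _ => ?_
    have := congrFun hg i
    simp only [Finset.sum_apply, Pi.smul_apply, smul_eq_mul, Pi.zero_apply] at this
    rw [← Finset.sum_smul, this, zero_smul]
  simp only [smul_sub, Finset.sum_sub_distrib] at h1
  rwa [h2, sub_zero] at h1

/-- The first homology of the complement. -/
theorem XPA_h1 (h1 : ZC ℤ (univ : Set X) 1 ≤ BC ℤ univ 1)
    (h2 : ∀ z ∈ ZC ℤ (univ : Set X) 2, z ∈ XTriv ℤ F) (hr : XRk1 ℤ F 2) :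
    ∃ g ∈ DG ℤ X 2, g ∈ XRel ℤ F ∧
      ∀ z ∈ ZC ℤ Fᶜ 1, ∃! n : ℤ, z - n • dT ℤ X g ∈ BC ℤ Fᶜ 1 := by
  obtain ⟨g, hg, hgr, H⟩ := hr
  refine ⟨g, hg, hgr, fun z hz => ?_⟩
  obtain ⟨z1, z2, z3⟩ := mem_ZC.1 hz
  obtain ⟨c, -, hc, rfl⟩ := mem_BC.1 (h1 (mem_ZC.2 ⟨mem_CH_univ _, z2, z3⟩))
  refine (existsUnique_congr fun n => ?_).1 (H c hc z1)
  rw [← map_smul, ← map_sub]
  have hd : c - n • g ∈ DG ℤ X 2 := sub_mem hc (Submodule.smul_mem _ _ hg)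
  constructor
  · intro h
    obtain ⟨u, hu⟩ := mem_XTriv.1 h
    exact mem_BC_of_dT (dT_mem_DG hd) hu (by rw [map_sub, dT_dT, sub_zero])
  · intro h
    obtain ⟨b, b1, b2, b3⟩ := mem_BC.1 h
    have := add_mem (h2 (c - n • g - b) (mem_ZC.2 ⟨mem_CH_univ _, sub_mem hd b2,
      by rw [map_sub, b3, sub_self]⟩)) (mem_XTriv_of_CH b1)
    rwa [sub_add_cancel] at this

/-- The cocycle. -/
theorem XPA_phi (h0 : XH0Stmt) {Z : Set X} (hZ : IsPathConnected Z) {μ : Tot ℤ X}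
    (hμ : μ ∈ ZC ℤ Z 1) (H : ∀ z ∈ ZC ℤ Z 1, ∃! n : ℤ, z - n • μ ∈ BC ℤ Z 1) :
    ∃ φ : Tot ℤ X →ₗ[ℤ] ℤ, (∀ c ∈ CH ℤ Z, φ (dT ℤ X c) = 0) ∧
      (∀ k, k ≠ 1 → ∀ c ∈ DG ℤ X k, φ c = 0) ∧ φ μ = 1 ∧
      ∀ z ∈ ZC ℤ Z 1, z - φ z • μ ∈ BC ℤ Z 1 := by
  obtain ⟨x₀, -, ρ, hρ, hd⟩ := h0.2.2 ℤ X Z hZ
  choose f hf hu using H
  simp only at hf hu
  let φ₀ : ZC ℤ Z 1 →+ ℤ := AddMonoidHom.mk' (fun z => f z.1 z.2) fun a b => by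
    refine (hu _ (a + b).2 _ ?_).symm
    have := add_mem (hf a.1 a.2) (hf b.1 b.2)
    rwa [show a.1 - f a.1 a.2 • μ + (b.1 - f b.1 b.2 • μ) =
      (a + b).1 - (f a.1 a.2 + f b.1 b.2) • μ by
        rw [add_smul, Submodule.coe_add]; abel] at this
  let T : Module.End ℤ (Tot ℤ X) := (1 - ρ * dT ℤ X) * deg ℤ X 1 * prj ℤ Z
  have hT : ∀ c, T c = deg ℤ X 1 (prj ℤ Z c) - ρ (dT ℤ X (deg ℤ X 1 (prj ℤ Z c))) := fun c => rfl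
  have hTm : ∀ c, T c ∈ ZC ℤ Z 1 := by
    intro c
    have h1 : deg ℤ X 1 (prj ℤ Z c) ∈ CC ℤ Z 1 := ⟨deg_mem_CH 1 (prj_mem Z c), deg_mem 1 _⟩
    rw [hT]
    refine mem_ZC.2 ⟨sub_mem h1.1 (hρ _).1, sub_mem h1.2 (hρ _).2, ?_⟩
    rw [map_sub, hd _ ⟨dT_mem_CH h1.1, dT_mem_DG h1.2⟩, h0.2.1, zero_smul, sub_zero, sub_self]
  let φ : Tot ℤ X →ₗ[ℤ] ℤ := φ₀.toIntLinearMap ∘ₗ T.codRestrict _ hTm
  have hφ : ∀ c, φ c = f (T c) (hTm c) := fun c => rfl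
  have hTz : ∀ z ∈ ZC ℤ Z 1, T z = z := by
    intro z hz
    obtain ⟨z1, z2, z3⟩ := mem_ZC.1 hz
    rw [hT, prj_of_mem z1, deg_of_mem z2, z3, map_zero, sub_zero]
  have hφz : ∀ z ∈ ZC ℤ Z 1, z - φ z • μ ∈ BC ℤ Z 1 := by
    intro z hz
    have := hf (T z) (hTm z)
    rwa [← hφ, hTz z hz] at this
  refine ⟨φ, fun c hc => ?_, fun k hk c hc => ?_, ?_, hφz⟩
  · rw [hφ]
    refine (hu _ (hTm _) 0 ?_).symm
    rw [zero_smul, sub_zero, hT, prj_of_mem (dT_mem_CH hc), deg_dT, dT_dT, map_zero, sub_zero]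
    exact mem_BC.2 ⟨_, deg_mem_CH _ hc, deg_mem _ _, rfl⟩
  · rw [hφ]
    refine (hu _ (hTm _) 0 ?_).symm
    rw [zero_smul, sub_zero, hT, deg_eq_zero hk.symm (prj_mem_DG Z hc), map_zero, map_zero,
      sub_zero]
    exact zero_mem _
  · rw [hu _ hμ _ (hφz μ hμ)]
    refine (hu _ hμ 1 ?_).symm
    rw [one_smul, sub_self]
    exact zero_mem _

end

theorem XPA_main (B : Bas2) (hPt : XPtStmt) (hD : XDiscStmt) (hT : XThetaStmt) (h0 : XH0Stmt)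
    (hG : XGlobStmt) (h2 : XMod2Stmt) (hR : XRotStmt) (hC : XClsStmt) : XPStmt := by
  intro κ K ι Γ
  obtain ⟨gc, g1, g2⟩ := hG κ K ι Γ
  obtain ⟨c1, c2⟩ := hC κ K ι Γ
  have hIc : Continuous Γ.I := Γ.I.continuous
  have hD2 : (Γ.I ∘ Γ.δ) '' closedBall 0 1 = Γ.F ∩ Γ.h ⁻¹' Ici 0 := by
    rw [image_comp, Γ.δ0]
    ext x
    constructor
    · rintro ⟨y, ⟨hy, hy'⟩, rfl⟩
      refine ⟨(Γ.IF y).2 hy, ?_⟩
      rw [mem_preimage, Γ.hI]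
      exact neg_nonneg.2 (show Γ.h y ≤ 0 from hy')
    · rintro ⟨hx, hx'⟩
      refine ⟨Γ.I x, ⟨(Γ.IF x).2 hx, ?_⟩, Γ.II x⟩
      rw [mem_preimage, Γ.hI]
      exact neg_nonpos.2 (show 0 ≤ Γ.h x from hx')
  have hU : Γ.δ '' closedBall 0 1 ∪ (Γ.I ∘ Γ.δ) '' closedBall 0 1 = Γ.F := by
    rw [hD2, Γ.δ0, ← inter_union_distrib_left, ← preimage_union, Iic_union_Ici, preimage_univ,
      inter_univ]
  have hN : Γ.δ '' closedBall 0 1 ∩ (Γ.I ∘ Γ.δ) '' closedBall 0 1 = Γ.δ '' sphere 0 1 := by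
    rw [hD2, Γ.δ0, Γ.δ1, ← inter_inter_distrib_left, ← preimage_inter, inter_comm (Iic _),
      Ici_inter_Iic, Icc_self]
  have hc2 : ContinuousOn (Γ.I ∘ Γ.δ) (closedBall 0 1) := hIc.comp_continuousOn Γ.δc
  have hloc : ∀ (R : Type) [CommRing R], XVan R Γ.F 3 ∧ XRk1 R Γ.F 2 := by
    intro R _
    have hL := hPt R Γ.X Γ.o
    obtain ⟨d1, A₁, A₂, p, q, a1, a2, a3, a4, a5, a6, a7⟩ := hD R Γ.X Γ.o Γ.δ hL Γ.δc Γ.δi
    obtain ⟨d2, -⟩ := hD R Γ.X Γ.o (Γ.I ∘ Γ.δ) hL hc2 (Γ.I.injective.comp_injOn Γ.δi)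
    have := hT R Γ.X Γ.o _ _ A₁ A₂ p q hL d1 d2 a1 a2 a3 a4 a5 a6 (hN.trans a7.symm)
    rwa [hU] at this
  have hFc : IsPreconnected Γ.F := by
    obtain ⟨u, hu⟩ : (sphere (0 : E 2) 1).Nonempty := NormedSpace.sphere_nonempty.2 zero_le_one
    have hm : Γ.δ u ∈ Γ.δ '' closedBall 0 1 ∩ (Γ.I ∘ Γ.δ) '' closedBall 0 1 :=
      hN ▸ mem_image_of_mem _ hu
    rw [← hU]
    exact IsPreconnected.union _ hm.1 hm.2
      ((convex_closedBall _ _).isPreconnected.image _ Γ.δc)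
      ((convex_closedBall _ _).isPreconnected.image _ hc2)
  have conn := XPA_conn B h0 Γ.flat gc
  obtain ⟨g, hg, hgr, H⟩ := XPA_h1 (F := Γ.F) g1 (fun z hz => by
    obtain ⟨n, hn⟩ := g2 z hz
    obtain ⟨b, -, -, e⟩ := mem_BC.1 hn
    refine mem_XTriv.2 ⟨b, ?_⟩
    rw [e, sub_sub_cancel]
    exact Submodule.sum_mem _ fun i _ => Submodule.smul_mem _ _ (mem_ZC.1 (c1 i)).1) (hloc ℤ).2
  have hμ : dT ℤ Γ.X g ∈ ZC ℤ Γ.Fᶜ 1 := mem_ZC.2 ⟨hgr, dT_mem_DG hg, dT_dT g⟩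
  obtain ⟨φ, p1, p2, p3, p4⟩ := XPA_phi h0 conn hμ H
  let e : Fin (2 * Γ.k) ≃ Fin Γ.k ⊕ Fin Γ.k :=
    (finCongr (two_mul Γ.k)).trans finSumFinEquiv.symm
  refine ⟨φ, conn, p1, p2, ⟨_, hμ, p3, p4⟩, hR Γ.X Γ.F φ Γ.flat hFc p1 ⟨g, hg, hgr, p3⟩, ?_,
    fun i => XS Γ (e i), fun i => c1 _, fun τ hτ i j => ?_⟩
  · exact XPA_dep (by simp [two_mul]) (fun i => castZ (ZMod 2) Γ.X (XS Γ i))
      (fun i => ⟨cast_mem_CH _ (mem_ZC.1 (c1 i)).1, cast_mem_DG _ (mem_ZC.1 (c1 i)).2.1⟩)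
      (hloc (ZMod 2)).1 (h2 Γ.X _ (XS Γ) g1 g2)
  · rw [c2 τ hτ]
    exact if_congr e.injective.eq_iff rfl rfl

end Pool.Agent.MP_bc14e1_gt
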