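import Pool.Agent.MP_bc14e1_gt.If

/-! Local homology `H(X, X - A)` and the steps of the proof of `XPStmt`. -/

open Set Metric
open scoped Classical

namespace Pool.Agent.MP_bc14e1_gt

noncomputable section

section Defs

variable (R : Type) [CommRing R] {X : Type} [TopologicalSpace X]

/-- Chains with boundary off `A`. -/
def XRel (A : Set X) : Submodule R (Tot R X) := (CH R Aᶜ).comap (dT R X)

/-- Chains that are zero in `H(X, X - A)`. -/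
def XTriv (A : Set X) : Submodule R (Tot R X) := LinearMap.range (dT R X) ⊔ CH R Aᶜ

/-- The orientation class at a point. -/
def XO (o : Orientation4 X) (x : X) : Tot R X := castZ R X (inc ℤ 4 (o.o x))

/-- `H_k(X, X - A) = 0`. -/
def XVan (A : Set X) (k : ℕ) : Prop := ∀ c ∈ DG R X k, c ∈ XRel R A → c ∈ XTriv R A

/-- `H_k(X, X - A)` is free of rank one. -/
def XRk1 (A : Set X) (k : ℕ) : Prop :=
  ∃ g ∈ DG R X k, g ∈ XRel R A ∧
    ∀ c ∈ DG R X k, c ∈ XRel R A → ∃! r : R, c - r • g ∈ XTriv R A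

/-- A class in `H_4(X, X - A)` is zero if it is zero at each point. -/
def XInj (A : Set X) : Prop :=
  ∀ c ∈ DG R X 4, c ∈ XRel R A → (∀ x ∈ A, c ∈ XTriv R {x}) → c ∈ XTriv R A

/-- `w` is a fundamental class along `A`. -/
def XCl (o : Orientation4 X) (A : Set X) (w : Tot R X) : Prop :=
  w ∈ DG R X 4 ∧ w ∈ XRel R A ∧ ∀ x ∈ A, w - XO R o x ∈ XTriv R {x}

/-- The local homology at points. -/
structure XLoc (o : Orientation4 X) : Prop where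
  van : ∀ x : X, ∀ k, k ≠ 4 → XVan R {x} k
  gen : ∀ x : X, ∀ c ∈ DG R X 4, c ∈ XRel R {x} → ∃! r : R, c - r • XO R o x ∈ XTriv R {x}

/-- Compact sets with the local homology of a point (or of several points). -/
structure XGd (o : Orientation4 X) (A : Set X) : Prop where
  cpt : IsCompact A
  van : ∀ k, k ≠ 4 → XVan R A k
  inj : XInj R A
  cls : ∃ w, XCl R o A w

/-- The augmentation. -/
def XAug (X : Type) [TopologicalSpace X] : Tot R X →ₗ[R] R := val0 R fun _ => (1 : R)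

end Defs

/-- The standard loop. -/
def XLoop : C(unitInterval, ℂ) :=
  ⟨fun θ => Complex.exp (2 * Real.pi * Complex.I * (θ : ℝ)), by fun_prop⟩

/-- The rotation loop as a chain. -/
def XMer {X : Type} [TopologicalSpace X] (e : OpenPartialHomeomorph X (ℂ × ℂ)) (z w : ℂ) :
    Tot ℤ X := psh ℤ (fun u => e.symm (z, u * w)) (pth ℤ XLoop)

/-- The generators of the second homology of the double. -/
def XS {κ : Kit} {K : Set (E 4)} {ι : E 4 ≃ₗᵢ[ℝ] E 4} (Γ : Geo κ K ι) :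
    Fin Γ.k ⊕ Fin Γ.k → Tot ℤ Γ.X := Sum.elim Γ.S fun i => psh ℤ Γ.I (Γ.S i)

section Api

variable {R : Type} [CommRing R] {X Y : Type} [TopologicalSpace X] [TopologicalSpace Y]
  {A B : Set X} {c : Tot R X}

theorem mem_XRel : c ∈ XRel R A ↔ dT R X c ∈ CH R Aᶜ := Iff.rfl

theorem mem_XTriv : c ∈ XTriv R A ↔ ∃ b, c - dT R X b ∈ CH R Aᶜ := by
  rw [XTriv, Submodule.mem_sup]
  constructor
  · rintro ⟨_, ⟨b, rfl⟩, z, hz, rfl⟩
    exact ⟨b, by rwa [add_sub_cancel_left]⟩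
  · rintro ⟨b, hb⟩
    exact ⟨_, ⟨b, rfl⟩, _, hb, add_sub_cancel _ _⟩

theorem dT_mem_XTriv (A : Set X) (b : Tot R X) : dT R X b ∈ XTriv R A :=
  Submodule.mem_sup_left ⟨b, rfl⟩

theorem mem_XTriv_of_CH (h : c ∈ CH R Aᶜ) : c ∈ XTriv R A := Submodule.mem_sup_right h

theorem mem_XRel_of_CH (h : c ∈ CH R Aᶜ) : c ∈ XRel R A := dT_mem_CH h

theorem XTriv_le_XRel : XTriv R A ≤ XRel R A := by
  refine sup_le ?_ fun _ h => mem_XRel_of_CH h
  rintro _ ⟨b, rfl⟩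
  rw [mem_XRel, dT_dT]
  exact zero_mem _

theorem XRel_anti (h : A ⊆ B) : XRel R B ≤ XRel R A :=
  fun _ hc => CH_mono (compl_subset_compl.2 h) hc

theorem XTriv_anti (h : A ⊆ B) : XTriv R B ≤ XTriv R A :=
  sup_le_sup_left (CH_mono (compl_subset_compl.2 h)) _

theorem mem_XTriv_empty (c : Tot R X) : c ∈ XTriv R (∅ : Set X) :=
  mem_XTriv_of_CH (by rw [compl_empty]; exact mem_CH_univ c)

theorem mem_XRel_union : c ∈ XRel R (A ∪ B) ↔ c ∈ XRel R A ∧ c ∈ XRel R B := by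
  rw [mem_XRel, compl_union, CH_inter]; rfl

theorem deg_mem_XRel (k : ℕ) (h : c ∈ XRel R A) : deg R X k c ∈ XRel R A := by
  rw [mem_XRel]
  rcases k with _ | k
  · rw [dT_of_DG_zero (deg_mem 0 c)]; exact zero_mem _
  · rw [← deg_dT]; exact deg_mem_CH k h

theorem deg_mem_XTriv (k : ℕ) (h : c ∈ XTriv R A) : deg R X k c ∈ XTriv R A := by
  obtain ⟨b, hb⟩ := mem_XTriv.1 h
  exact mem_XTriv.2 ⟨deg R X (k + 1) b, by rw [← deg_dT, ← map_sub]; exact deg_mem_CH k hb⟩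

/-- The bounding chain can be chosen homogeneous. -/
theorem mem_XTriv_DG {k : ℕ} (hc : c ∈ DG R X k) (h : c ∈ XTriv R A) :
    ∃ b ∈ DG R X (k + 1), c - dT R X b ∈ CH R Aᶜ := by
  obtain ⟨b, hb⟩ := mem_XTriv.1 h
  refine ⟨deg R X (k + 1) b, deg_mem _ _, ?_⟩
  have := deg_mem_CH k hb
  rwa [map_sub, deg_of_mem hc, deg_dT] at this

theorem mem_BC {k : ℕ} : c ∈ BC R A k ↔ ∃ b, b ∈ CH R A ∧ b ∈ DG R X (k + 1) ∧ dT R X b = c := by
  simp only [BC, CC, Submodule.mem_map, Submodule.mem_inf, and_assoc]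

theorem mem_ZC {k : ℕ} : c ∈ ZC R A k ↔ c ∈ CH R A ∧ c ∈ DG R X k ∧ dT R X c = 0 := by
  simp only [ZC, CC, Submodule.mem_inf, LinearMap.mem_ker, and_assoc]

/-- A homogeneous chain that bounds in `A` is a boundary. -/
theorem mem_BC_of_dT {k : ℕ} (hc : c ∈ DG R X k) {b : Tot R X} (hb : b ∈ CH R A)
    (h : dT R X b = c) : c ∈ BC R A k :=
  mem_BC.2 ⟨deg R X (k + 1) b, deg_mem_CH _ hb, deg_mem _ _, by rw [← deg_dT, h, deg_of_mem hc]⟩

theorem sub_sdT_mem_XTriv (m : ℕ) (h : c ∈ XRel R A) : c - (sdT R X ^ m) c ∈ XTriv R A := by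
  rw [← dT_sdHP]
  exact add_mem (dT_mem_XTriv _ _) (mem_XTriv_of_CH (sdHP_mem_CH m h))

/-- A chain off `A` is off a neighbourhood of `A`. -/
theorem exists_open_CH [T2Space X] (h : c ∈ CH R Aᶜ) :
    ∃ U, IsOpen U ∧ A ⊆ U ∧ c ∈ CH R Uᶜ := by
  obtain ⟨K, hK, hKA, hc⟩ := exists_compact_CH h
  exact ⟨Kᶜ, hK.isClosed.isOpen_compl, subset_compl_comm.1 hKA, by rwa [compl_compl]⟩

theorem exists_open_XRel [T2Space X] (h : c ∈ XRel R A) :
    ∃ U, IsOpen U ∧ A ⊆ U ∧ c ∈ XRel R U := exists_open_CH h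

theorem exists_open_XTriv [T2Space X] (h : c ∈ XTriv R A) :
    ∃ U, IsOpen U ∧ A ⊆ U ∧ c ∈ XTriv R U := by
  obtain ⟨b, hb⟩ := mem_XTriv.1 h
  obtain ⟨U, h1, h2, h3⟩ := exists_open_CH hb
  exact ⟨U, h1, h2, mem_XTriv.2 ⟨b, h3⟩⟩

theorem psh_mem_XTriv {f : X → Y} (hf : Continuous f) {B : Set Y} (hB : MapsTo f Aᶜ Bᶜ)
    (h : c ∈ XTriv R A) : psh R f c ∈ XTriv R B := by
  obtain ⟨b, hb⟩ := mem_XTriv.1 h
  exact mem_XTriv.2 ⟨psh R f b, by rw [dT_psh_cont hf, ← map_sub]; exact psh_mem_CH f hB hb⟩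

theorem psh_mem_XRel {f : X → Y} (hf : Continuous f) {B : Set Y} (hB : MapsTo f Aᶜ Bᶜ)
    (h : c ∈ XRel R A) : psh R f c ∈ XRel R B := by
  rw [mem_XRel, dT_psh_cont hf]; exact psh_mem_CH f hB h

theorem cast_mem_XTriv {S : Type} [CommRing S] (φ : R →+* S) (h : c ∈ XTriv R A) :
    cast φ X c ∈ XTriv S A := by
  obtain ⟨b, hb⟩ := mem_XTriv.1 h
  exact mem_XTriv.2 ⟨cast φ X b, by rw [← cast_dT, ← map_sub]; exact cast_mem_CH φ hb⟩

theorem cast_mem_XRel {S : Type} [CommRing S] (φ : R →+* S) (h : c ∈ XRel R A) :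
    cast φ X c ∈ XRel S A := by
  rw [mem_XRel, ← cast_dT]; exact cast_mem_CH φ h

theorem null_iff_XTriv {k : ℕ} (z : Sing X k →₀ ℤ) :
    Null univ Aᶜ k z ↔ inc ℤ k z ∈ XTriv ℤ A := by
  constructor
  · rintro ⟨b, -, hb⟩
    exact mem_XTriv.2 ⟨inc ℤ (k + 1) b, by rw [dT_inc_succ, ← map_sub, inc_mem_CH]; exact hb⟩
  · intro h
    obtain ⟨b, hb, h2⟩ := mem_XTriv_DG (inc_mem_DG k z) h
    obtain ⟨b, rfl⟩ := exists_inc hb
    rw [dT_inc_succ, ← map_sub, inc_mem_CH] at h2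
    exact ⟨b, inc_mem_CH.1 (mem_CH_univ _), h2⟩

theorem inc_mem_XRel {k : ℕ} (z : Sing X (k + 1) →₀ R) :
    inc R (k + 1) z ∈ XRel R A ↔ bd R X k z ∈ supp R Aᶜ k := by
  rw [mem_XRel, dT_inc_succ, inc_mem_CH]

theorem XO_mem_DG (o : Orientation4 X) (x : X) : XO R o x ∈ DG R X 4 :=
  cast_mem_DG _ (inc_mem_DG _ _)

theorem XO_mem_XRel (o : Orientation4 X) (x : X) : XO R o x ∈ XRel R {x} :=
  cast_mem_XRel _ ((inc_mem_XRel _).2 (o.rel x))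

theorem XCl.mono {o : Orientation4 X} {w : Tot R X} (h : XCl R o B w) (hAB : A ⊆ B) :
    XCl R o A w := ⟨h.1, XRel_anti hAB h.2.1, fun x hx => h.2.2 x (hAB hx)⟩

theorem exists_XCl_nhds (o : Orientation4 X) (x : X) : ∃ U ∈ nhds x, ∃ w, XCl R o U w := by
  obtain ⟨U, hU, w, h1, h2⟩ := o.loc x
  refine ⟨U, hU, castZ R X (inc ℤ 4 w), cast_mem_DG _ (inc_mem_DG _ _),
    cast_mem_XRel _ ((inc_mem_XRel _).2 h1), fun y hy => ?_⟩
  rw [XO, ← map_sub, ← map_sub]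
  exact cast_mem_XTriv _ ((null_iff_XTriv _).1 (h2 y hy))

/-- A multiple of the orientation class that is zero has coefficient zero. -/
theorem XLoc.eq_zero {o : Orientation4 X} (h : XLoc R o) {x : X} {r : R}
    (hr : r • XO R o x ∈ XTriv R {x}) : r = 0 := by
  refine (h.gen x (r • XO R o x) (Submodule.smul_mem _ _ (XO_mem_DG o x))
    (Submodule.smul_mem _ _ (XO_mem_XRel o x))).unique ?_ ?_
  · rw [sub_self]; exact zero_mem _
  · rwa [zero_smul, sub_zero]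

theorem XLoc.gd_of_subsingleton {o : Orientation4 X} (h : XLoc R o) (hA : A.Subsingleton) :
    XGd R o A := by
  rcases hA.eq_empty_or_singleton with rfl | ⟨x, rfl⟩
  · exact ⟨isCompact_empty, fun _ _ c _ _ => mem_XTriv_empty c, fun c _ _ _ => mem_XTriv_empty c,
      0, zero_mem _, zero_mem _, fun _ hx => hx.elim⟩
  · refine ⟨isCompact_singleton, h.van x, fun c _ _ hc => hc x rfl, XO R o x, XO_mem_DG o x,
      XO_mem_XRel o x, ?_⟩
    rintro _ rfl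
    rw [sub_self]; exact zero_mem _

theorem dT_XLoop : dT R ℂ (pth R XLoop) = 0 := by
  rw [dT_pth]
  have : XLoop 1 = XLoop 0 := by
    simp [XLoop, Complex.exp_two_pi_mul_I]
  rw [this, sub_self]

theorem norm_XLoop (θ : unitInterval) : ‖XLoop θ‖ = 1 := by
  have : (2 * Real.pi * Complex.I * (θ : ℝ) : ℂ) = ((2 * Real.pi * θ : ℝ) : ℂ) * Complex.I := by
    push_cast; ring
  change ‖Complex.exp _‖ = 1
  rw [this, Complex.norm_exp_ofReal_mul_I]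

theorem XLoop_mem_CH : pth R XLoop ∈ CH R (sphere (0 : ℂ) 1) :=
  pth_mem_CH fun t => mem_sphere_zero_iff_norm.2 (norm_XLoop t)

end Api

/-! ### The steps -/

/-- Local homology at the points of an oriented manifold. -/
def XPtStmt : Prop :=
  ∀ (R : Type) [CommRing R] (X : Type) [TopologicalSpace X] [T2Space X] [ChartedSpace (E 4) X]
    (o : Orientation4 X), XLoc R o

/-- The Mayer-Vietoris sequence of local homology. -/
def XMVStmt : Prop :=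
  ∀ (R : Type) [CommRing R] (X : Type) [TopologicalSpace X] (A B : Set X), IsClosed A →
    IsClosed B → ∀ k,
    (∀ a ∈ DG R X k, ∀ b ∈ DG R X k, a ∈ XRel R A → b ∈ XRel R B → a - b ∈ XTriv R (A ∩ B) →
      ∃ c ∈ DG R X k, c ∈ XRel R (A ∪ B) ∧ c - a ∈ XTriv R A ∧ c - b ∈ XTriv R B) ∧
    ((∀ y ∈ DG R X (k + 1), y ∈ XRel R (A ∩ B) → y ∈ XRel R A ⊔ XRel R B ⊔ XTriv R (A ∩ B)) →
      ∀ c ∈ DG R X k, c ∈ XRel R (A ∪ B) → c ∈ XTriv R A → c ∈ XTriv R B →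
        c ∈ XTriv R (A ∪ B)) ∧
    (XVan R A k → XVan R B k → ∀ g ∈ DG R X (k + 1), g ∈ XRel R (A ∩ B) →
      (∀ y ∈ DG R X (k + 1), y ∈ XRel R (A ∩ B) →
        ∃! r : R, y - r • g ∈ XRel R A ⊔ XRel R B ⊔ XTriv R (A ∩ B)) → XRk1 R (A ∪ B) k)

/-- The degree is locally constant. -/
def XConnStmt : Prop :=
  ∀ (R : Type) [CommRing R] (X : Type) [TopologicalSpace X] [T2Space X] (o : Orientation4 X),
    XLoc R o → (∀ A w, XCl R o A w → ∃ U, IsOpen U ∧ A ⊆ U ∧ XCl R o U w) ∧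
    ∀ A w, IsPreconnected A → XInj R A → XCl R o A w →
      ∀ y ∈ DG R X 4, y ∈ XRel R A → ∃ r : R, y - r • w ∈ XTriv R A

/-- From the levels of a function to the whole set. -/
def XSlabStmt : Prop :=
  ∀ (R : Type) [CommRing R] (X P : Type) [TopologicalSpace X] [T2Space X] [TopologicalSpace P]
    (o : Orientation4 X) (K : Set P) (f : P → X) (l : P → ℝ), XLoc R o → IsCompact K →
    ContinuousOn f K → InjOn f K → Continuous l →
    (∀ t, XGd R o (f '' (K ∩ l ⁻¹' {t})) ∧ IsPreconnected (f '' (K ∩ l ⁻¹' {t}))) →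
    XGd R o (f '' K)

/-- Embedded discs and their boundary circles. -/
def XDiscStmt : Prop :=
  ∀ (R : Type) [CommRing R] (X : Type) [TopologicalSpace X] [T2Space X] (o : Orientation4 X)
    (δ : E 2 → X), XLoc R o → ContinuousOn δ (closedBall 0 1) → InjOn δ (closedBall 0 1) →
    XGd R o (δ '' closedBall 0 1) ∧ ∃ (A₁ A₂ : Set X) (p q : X), XGd R o A₁ ∧ XGd R o A₂ ∧
      IsPreconnected A₁ ∧ IsPreconnected A₂ ∧ p ≠ q ∧ A₁ ∩ A₂ = {p, q} ∧ A₁ ∪ A₂ = δ '' sphere 0 1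

/-- The local homology of a sphere. -/
def XThetaStmt : Prop :=
  ∀ (R : Type) [CommRing R] (X : Type) [TopologicalSpace X] [T2Space X] (o : Orientation4 X)
    (D₁ D₂ A₁ A₂ : Set X) (p q : X), XLoc R o → XGd R o D₁ → XGd R o D₂ → XGd R o A₁ →
    XGd R o A₂ → IsPreconnected A₁ → IsPreconnected A₂ → p ≠ q → A₁ ∩ A₂ = {p, q} →
    D₁ ∩ D₂ = A₁ ∪ A₂ → XVan R (D₁ ∪ D₂) 3 ∧ XRk1 R (D₁ ∪ D₂) 2

/-- Homology in degree zero. -/
def XH0Stmt : Prop :=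
  (∀ (X : Type) [TopologicalSpace X] (A : Set X) (x y : X), x ∈ A → ∀ c ∈ CH ℤ A,
    dT ℤ X c = pt ℤ y - pt ℤ x → JoinedIn A x y) ∧
  (∀ (R : Type) [CommRing R] (X : Type) [TopologicalSpace X] (c : Tot R X),
    XAug R X (dT R X c) = 0) ∧
  ∀ (R : Type) [CommRing R] (X : Type) [TopologicalSpace X] (A : Set X), IsPathConnected A →
    ∃ x₀ ∈ A, ∃ ρ : Module.End R (Tot R X), (∀ c, ρ c ∈ CC R A 1) ∧
      ∀ c ∈ CC R A 0, dT R X (ρ c) = c - XAug R X c • pt R x₀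

def XShellStmt : Prop := IsPathConnected shell ∧ ZC ℤ shell 1 ≤ BC ℤ shell 1

/-- The integral homology of the double. -/
def XGlobStmt : Prop :=
  ∀ (κ : Kit) (K : Set (E 4)) (ι : E 4 ≃ₗᵢ[ℝ] E 4) (Γ : Geo κ K ι),
    IsPathConnected (univ : Set Γ.X) ∧ ZC ℤ (univ : Set Γ.X) 1 ≤ BC ℤ univ 1 ∧
    ∀ z ∈ ZC ℤ (univ : Set Γ.X) 2, ∃ n : Fin Γ.k ⊕ Fin Γ.k → ℤ,
      z - ∑ i, n i • XS Γ i ∈ BC ℤ univ 2

/-- Reduction modulo two. -/
def XMod2Stmt : Prop :=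
  ∀ (X ι : Type) [TopologicalSpace X] [Fintype ι] (x : ι → Tot ℤ X),
    ZC ℤ (univ : Set X) 1 ≤ BC ℤ univ 1 →
    (∀ z ∈ ZC ℤ (univ : Set X) 2, ∃ n : ι → ℤ, z - ∑ i, n i • x i ∈ BC ℤ univ 2) →
    ∀ z ∈ ZC (ZMod 2) (univ : Set X) 2, ∃ n : ι → ZMod 2,
      z - ∑ i, n i • castZ (ZMod 2) X (x i) ∈ BC (ZMod 2) univ 2

/-- The standard loop generates the first homology of the punctured plane. -/
def XCircStmt : Prop :=
  ∀ c ∈ ZC ℤ ({0}ᶜ : Set ℂ) 1, ∃ n : ℤ, c - n • pth ℤ XLoop ∈ BC ℤ ({0}ᶜ : Set ℂ) 1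

/-- The meridian generates the first homology of a box minus the surface. -/
def XBoxStmt : Prop :=
  ∀ (X : Type) [TopologicalSpace X] (F : Set X) (e : OpenPartialHomeomorph X (ℂ × ℂ))
    (V T : Set ℂ) (z w : ℂ), FlatCh F e → Convex ℝ V → (∀ u ∈ T, ∀ u', ‖u'‖ ≤ ‖u‖ → u' ∈ T) →
    V ×ˢ T ⊆ e.target → z ∈ V → w ∈ T → w ≠ 0 →
    XMer e z w ∈ ZC ℤ (e.symm '' (V ×ˢ T) \ F) 1 ∧
    ∀ c ∈ ZC ℤ (e.symm '' (V ×ˢ T) \ F) 1, ∃ n : ℤ, c - n • XMer e z w ∈ BC ℤ Fᶜ 1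

/-- Every meridian is a generator. -/
def XRotStmt : Prop :=
  ∀ (X : Type) [TopologicalSpace X] (F : Set X) (φ : Tot ℤ X →ₗ[ℤ] ℤ), Flat F →
    IsPreconnected F → (∀ c ∈ CH ℤ Fᶜ, φ (dT ℤ X c) = 0) →
    (∃ g ∈ DG ℤ X 2, g ∈ XRel ℤ F ∧ φ (dT ℤ X g) = 1) →
    ∀ e z w, Mer F e z w → ∀ γ : C(unitInterval, X), (∀ θ : unitInterval, γ θ = rotL e z w θ) →
      φ (pth ℤ γ) = 1 ∨ φ (pth ℤ γ) = -1

/-- The intersection matrix. -/
def XClsStmt : Prop :=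
  ∀ (κ : Kit) (K : Set (E 4)) (ι : E 4 ≃ₗᵢ[ℝ] E 4) (Γ : Geo κ K ι),
    (∀ i, XS Γ i ∈ ZC ℤ Γ.Fᶜ 2) ∧ ∀ τ, IsThom Γ.o id τ → ∀ i j,
      beta κ τ (castZ ℂ Γ.X (XS Γ i)) (castZ ℂ Γ.X (XS Γ j)) = if i = j then 1 else 0

end

end Pool.Agent.MP_bc14e1_gt
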