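import Pool.Agent.MP_bc14e1_gt.P.XPI

open Set Metric
open scoped Classical

namespace Pool.Agent.MP_bc14e1_gt

theorem XPRot_box {T : Set (ℂ × ℂ)} (hT : IsOpen T) {z : ℂ} (hz : (z, (0 : ℂ)) ∈ T) :
    ∃ r > 0, ball z r ×ˢ ball (0 : ℂ) r ⊆ T := by
  obtain ⟨r, hr, h⟩ := Metric.isOpen_iff.1 hT _ hz
  exact ⟨r, hr, by rwa [ball_prod_same]⟩

theorem XPRot_small {w : ℂ} (hw : w ≠ 0) {r : ℝ} (hr : 0 < r) :
    ∃ u : ℂ, u ≠ 0 ∧ ‖u‖ ≤ ‖w‖ ∧ ‖u‖ < r := by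
  have h : 0 < min ‖w‖ (r / 2) := lt_min (norm_pos_iff.2 hw) (half_pos hr)
  refine ⟨(min ‖w‖ (r / 2) : ℝ), by exact_mod_cast h.ne', ?_, ?_⟩ <;>
    rw [Complex.norm_real, Real.norm_of_nonneg h.le]
  exacts [min_le_left _ _, (min_le_right _ _).trans_lt (half_lt_self hr)]

theorem xrot_stmt (B : Bas2) (hB : XBoxStmt) : XRotStmt := by
  intro X _ F φ hF hc hφ ⟨g, hg, hg', hg1⟩ e₀ z₀ w₀ hM γ hγ
  have hball (r : ℝ) : ∀ u ∈ ball (0 : ℂ) r, ∀ u' : ℂ, ‖u'‖ ≤ ‖u‖ → u' ∈ ball (0 : ℂ) r :=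
    fun u hu u' h => mem_ball_zero_iff.2 (h.trans_lt (mem_ball_zero_iff.1 hu))
  have hcb (r : ℝ) : ∀ u ∈ closedBall (0 : ℂ) r, ∀ u' : ℂ, ‖u'‖ ≤ ‖u‖ →
      u' ∈ closedBall (0 : ℂ) r :=
    fun u hu u' h => mem_closedBall_zero_iff.2 (h.trans (mem_closedBall_zero_iff.1 hu))
  have h0 {e : OpenPartialHomeomorph X (ℂ × ℂ)} {V T : Set ℂ} {z w : ℂ} (he : FlatCh F e)
      (hV : Convex ℝ V) (hT : ∀ u ∈ T, ∀ u', ‖u'‖ ≤ ‖u‖ → u' ∈ T) (h : V ×ˢ T ⊆ e.target)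
      (hz : z ∈ V) (hw : w ∈ T) (hw0 : w ≠ 0) {c : Tot ℤ X}
      (hc : c ∈ ZC ℤ (e.symm '' (V ×ˢ T) \ F) 1) : φ (XMer e z w) ∣ φ c := by
    obtain ⟨n, b, hb, h1⟩ := (hB X F e V T z w he hV hT h hz hw hw0).2 c hc
    have h2 := hφ b hb.1
    rw [h1, map_sub, map_zsmul, sub_eq_zero, smul_eq_mul] at h2
    exact h2 ▸ dvd_mul_left _ _
  have hmer {e : OpenPartialHomeomorph X (ℂ × ℂ)} {z w : ℂ} (h : Mer F e z w) {r : ℝ}
      (hr : r ≤ ‖w‖) : ({z} : Set ℂ) ×ˢ closedBall (0 : ℂ) r ⊆ e.target := by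
    rintro ⟨_, u⟩ ⟨rfl, hu⟩
    exact h.2.2 u ((mem_closedBall_zero_iff.1 hu).trans hr)
  have hA {e : OpenPartialHomeomorph X (ℂ × ℂ)} {z w u v : ℂ} (h : Mer F e z w) (hu : u ≠ 0)
      (hu' : ‖u‖ ≤ ‖w‖) (hv : v ≠ 0) (hv' : ‖v‖ ≤ ‖w‖) : φ (XMer e z u) ∣ φ (XMer e z v) :=
    h0 h.1 (convex_singleton z) (hcb _) (hmer h le_rfl) rfl (mem_closedBall_zero_iff.2 hu') hu
      (hB X F e _ _ z v h.1 (convex_singleton z) (hcb _) (hmer h le_rfl) rfl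
        (mem_closedBall_zero_iff.2 hv') hv).1
  have hC {e e' : OpenPartialHomeomorph X (ℂ × ℂ)} {z w z' w' : ℂ} (h : Mer F e z w)
      (h' : Mer F e' z' w') (hx : e.symm (z, 0) = e'.symm (z', 0)) :
      φ (XMer e z w) ∣ φ (XMer e' z' w') := by
    obtain ⟨r, hr, h1⟩ := XPRot_box e.open_target (h.2.2 0 (by simp))
    have hU : IsOpen (e.symm '' (ball z r ×ˢ ball (0 : ℂ) r)) :=
      e.symm.isOpen_image_of_subset_source (isOpen_ball.prod isOpen_ball) h1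
    obtain ⟨r', hr', h2⟩ := XPRot_box (e'.symm.isOpen_inter_preimage hU) (z := z')
      ⟨h'.2.2 0 (by simp), (z, 0), ⟨mem_ball_self hr, mem_ball_self hr⟩, hx⟩
    obtain ⟨u, hu, hu1, hu2⟩ := XPRot_small h.2.1 hr
    obtain ⟨v, hv, hv1, hv2⟩ := XPRot_small h'.2.1 hr'
    refine (hA h h.2.1 le_rfl hu hu1).trans (Dvd.dvd.trans ?_ (hA h' hv hv1 h'.2.1 le_rfl))
    obtain ⟨h3, h4, h5⟩ := mem_ZC.1 (hB X F e' _ _ z' v h'.1 (convex_ball z' r') (hball r')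
      (h2.trans inter_subset_left) (mem_ball_self hr') (mem_ball_zero_iff.2 hv2) hv).1
    refine h0 h.1 (convex_ball z r) (hball r) h1 (mem_ball_self hr) (mem_ball_zero_iff.2 hu2) hu
      (mem_ZC.2 ⟨CH_mono (sdiff_subset_sdiff_left ?_) h3, h4, h5⟩)
    rintro _ ⟨y, hy, rfl⟩
    exact (h2 hy).2
  let N : X → Set ℤ := fun x => {n | ∀ e z w, Mer F e z w → e.symm (z, 0) = x → φ (XMer e z w) ∣ n}
  have hN {e : OpenPartialHomeomorph X (ℂ × ℂ)} {z w : ℂ} (h : Mer F e z w) (n : ℤ) :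
      n ∈ N (e.symm (z, 0)) ↔ φ (XMer e z w) ∣ n :=
    ⟨fun hn => hn e z w h rfl, fun hn e' z' w' h' hx => (hC h' h hx).trans hn⟩
  have hmb {e : OpenPartialHomeomorph X (ℂ × ℂ)} (he : FlatCh F e) {z : ℂ} {r : ℝ} (hr : 0 < r)
      (h : ∀ u ∈ ball (0 : ℂ) r, (z, u) ∈ e.target) : ∃ w ∈ ball (0 : ℂ) r, Mer F e z w := by
    obtain ⟨u, hu, -, hu2⟩ := XPRot_small one_ne_zero hr
    exact ⟨u, mem_ball_zero_iff.2 hu2, he, hu,
      fun w hw => h w (mem_ball_zero_iff.2 (hw.trans_lt hu2))⟩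
  have hmF {e : OpenPartialHomeomorph X (ℂ × ℂ)} {z w : ℂ} (h : Mer F e z w) :
      e.symm (z, 0) ∈ F := by
    have h1 := h.2.2 0 (by simp)
    rw [h.1 _ (e.map_target h1), e.right_inv h1]
  have hcon : ∀ x ∈ F, ∀ y ∈ F, N x = N y := fun x hx y hy => by
    refine hc.induction₂ (fun x y => N x = N y) (fun x hx => ?_)
      (fun _ _ _ _ _ _ => Eq.trans) (fun _ _ _ _ => Eq.symm) hx hy
    obtain ⟨e, he, hxe⟩ := hF.ch x hx
    have e1 : e x = ((e x).1, 0) := Prod.ext rfl ((he x hxe).1 hx)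
    obtain ⟨r, hr, h1⟩ := XPRot_box e.open_target (e1 ▸ e.map_source hxe)
    have hU : IsOpen (e.source ∩ e ⁻¹' (ball (e x).1 r ×ˢ ball (0 : ℂ) r)) :=
      e.isOpen_inter_preimage (isOpen_ball.prod isOpen_ball)
    have hxU : e x ∈ ball (e x).1 r ×ˢ ball (0 : ℂ) r :=
      ⟨mem_ball_self hr, by rw [(he x hxe).1 hx]; exact mem_ball_self hr⟩
    filter_upwards [mem_nhdsWithin_of_mem_nhds (hU.mem_nhds ⟨hxe, hxU⟩), self_mem_nhdsWithin]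
      with y hy hyF
    have e2 : e y = ((e y).1, 0) := Prod.ext rfl ((he y hy.1).1 hyF)
    obtain ⟨u, hu, hMu⟩ := hmb he hr fun u hu => h1 (a := ((e x).1, u)) ⟨hxU.1, hu⟩
    obtain ⟨v, hv, hMv⟩ := hmb he hr fun u hu => h1 (a := ((e y).1, u)) ⟨hy.2.1, hu⟩
    ext n
    rw [← e.left_inv hxe, ← e.left_inv hy.1, e1, e2, hN hMu, hN hMv]
    exact ⟨(h0 he (convex_ball _ r) (hball r) h1 hy.2.1 hv hMv.2.1
        (hB X F e _ _ _ u he (convex_ball _ r) (hball r) h1 hxU.1 hu hMu.2.1).1).trans,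
      (h0 he (convex_ball _ r) (hball r) h1 hxU.1 hu hMu.2.1
        (hB X F e _ _ _ v he (convex_ball _ r) (hball r) h1 hy.2.1 hv hMv.2.1).1).trans⟩
  obtain ⟨c, hcs, b, -, hb⟩ := (B.lemA ℤ X ℂ ℂ F {e | FlatCh F e} hF.cl (fun e he => he) hF.ch
    univ isOpen_univ 2 g ⟨mem_CH_univ g, hg⟩ hg').2 Complex.finrank_real_complex.symm
  have h1 : φ (dT ℤ X c) = 1 := by
    have := hφ _ hb
    rwa [map_sub, dT_dT, sub_zero, map_sub, map_sub, hg1, sub_eq_zero, eq_comm] at this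
  have h2 : φ (XMer e₀ z₀ w₀) ∣ φ (dT ℤ X c) := by
    clear h1 hb
    induction hcs using Submodule.span_induction with
    | zero => simp
    | add x y _ _ hx hy => rw [map_add, map_add]; exact dvd_add hx hy
    | smul a x _ hx => rw [map_smul, map_smul]; exact hx.mul_left a
    | mem y hy =>
      obtain ⟨e, he, z, ρ, h3, c₀, h4, h5, rfl⟩ := hy
      rcases le_or_gt ρ 0 with hρ | hρ
      · rw [ball_eq_empty.2 hρ] at h4
        simp [eq_zero_of_mem_CH_empty h4.1]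
      obtain ⟨u, hu, hMu⟩ := hmb he hρ fun u hu => (h3 u hu).1
      have h6 : φ (XMer e₀ z₀ w₀) ∣ φ (XMer e z u) := by
        rw [← hN hM, hcon _ (hmF hM) _ (hmF hMu), hN hMu]
      have h7 : ContinuousOn (fun w => e.symm (z, w)) (ball (0 : ℂ) ρ) :=
        e.continuousOn_symm.comp (by fun_prop) fun w hw => (h3 w hw).1
      refine h6.trans (h0 he (convex_singleton z) (hball ρ) ?_ rfl hu hMu.2.1
        (mem_ZC.2 ⟨?_, dT_mem_DG (psh_mem_DG _ h4.2), dT_dT _⟩))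
      · rintro ⟨_, w⟩ ⟨rfl, hw⟩
        exact (h3 w hw).1
      · rw [dT_psh h7 h4.1]
        refine psh_mem_CH (A := ball (0 : ℂ) ρ ∩ {0}ᶜ) _ (fun w hw => ?_)
          ((CH_inter _ _).ge ⟨dT_mem_CH h4.1, h5⟩)
        refine ⟨⟨(z, w), ⟨rfl, hw.1⟩, rfl⟩, fun hF' => hw.2 ?_⟩
        have h8 := (he _ (e.map_target (h3 w hw.1).1)).1 hF'
        rwa [e.right_inv (h3 w hw.1).1] at h8
  have h3 : XMer e₀ z₀ w₀ = pth ℤ γ := by
    have e1 : (fun u => e₀.symm (z₀, u * w₀)) ∘ XLoop = γ := funext fun θ => (hγ θ).symm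
    rw [XMer, psh_pth _ _ (e1 ▸ γ.continuous)]
    congr 1
    exact ContinuousMap.ext fun θ => (hγ θ).symm
  rw [h1, h3] at h2
  exact Int.isUnit_iff.1 (isUnit_of_dvd_one h2)

end Pool.Agent.MP_bc14e1_gt
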